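import Pool.Agent.ANS.TopKer
import Pool.Agent.ANM.FDec

/-! # ANS KerRel: kernels relative to the absorptions, no inverse power of `η_*` (owner helper3)

`r x = dT x c - s`, `FarRow f M M' ..` (`farRowW`), `N` in the ball of radius `s`.
* `FarRow.dG`, `FarRow.dG'`: decay of all the entries between non-read sites, `decC`.
* `FarRow.kerR`: `|kM M' x y - kM M x y| ≤ (2 Q D² + 2 Lm Q) ex ey e^{-ν max}`, `ex = max (η_x, η'_x)`.
* `Nxt.eta_cmp`: off `N` the absorptions are comparable with a factor `2`.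
* `FarRow.kdR`, `FarRow.kdR'`: off `N`, with the factors `η_x rr_x²`, `η_y rr_y²` (old or new absorption).
* `FarRow.kNR`, `FarRow.kNR'`: one site in `N`.
-/

open Matrix Finset

noncomputable section

namespace Pool.Agent.AND

open Pool.Agent.Kin Pool.Agent.APS

set_option linter.unusedSectionVars false

variable {d L : ℕ} [NeZero L] {D : Type} [Fintype D] {f : Fix} {t : Tol d L}
  {M M' : Med (Tor d L)} {u : UTol} {g : ANS.Dig (Tor d L) D} {ω : Tor d L → D} {rr : ℝ}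
  {N : Finset (Tor d L)} {c : Tor d L} {s : ℕ}

/-- constant of the decay of all the entries -/
def decC (C1 Lm μ : ℝ) (a c0 : ℕ) : ℝ :=
  (3 * (2 * C1) * Real.exp μ / (4 * μ) + Lm) * Real.exp (μ * c0 / a)

/-- constant of the relative kernels -/
def kerC (C1 Lm Q μ : ℝ) (a c0 : ℕ) : ℝ := 2 * Q * decC C1 Lm μ a c0 ^ 2 + 2 * Lm * Q

/-- decay of the entries, both regimes -/
theorem dec_both {b : Tor d L → ℂ} (hb : ANM.Diss (H0T d L) b) {F : Set (Tor d L)} {μ : ℝ}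
    {a c0 : ℕ} (ha : 1 ≤ a) (hμ : 0 < μ) (hw : ANM.HasW b F μ a c0) {x y : Tor d L} {C1 Lm : ℝ}
    (hC : 0 ≤ C1) (hx : ‖rsc (H0T d L) b x x‖ ≤ 2 * C1) (hy : (rsc (H0T d L) b y y).im ≤ 2 * C1)
    (hL : ‖rsc (H0T d L) b x y‖ ≤ Lm) :
    ‖rsc (H0T d L) b x y‖ ≤ decC C1 Lm μ a c0 * Real.exp (-(μ * ANM.td x y / a)) := by
  have ha' : (0 : ℝ) < a := by exact_mod_cast ha
  have hLm : 0 ≤ Lm := (norm_nonneg _).trans hL
  have h0 : 0 ≤ 3 * (2 * C1) * Real.exp μ / (4 * μ) := by positivity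
  by_cases hxy : c0 < ANM.td x y
  · refine (ANM.dec_all hb ha hμ hw hxy hx hy).trans ?_
    refine mul_le_mul_of_nonneg_right ?_ (Real.exp_pos _).le
    exact mul_le_mul_of_nonneg_right (by linarith) (Real.exp_pos _).le
  · have h1 : (ANM.td x y : ℝ) ≤ c0 := by exact_mod_cast not_lt.1 hxy
    have h2 : 1 ≤ Real.exp (μ * c0 / a) * Real.exp (-(μ * ANM.td x y / a)) := by
      rw [← Real.exp_add]
      apply Real.one_le_exp
      have h3 : μ * c0 / a + -(μ * ANM.td x y / a) = μ * (c0 - ANM.td x y) / a := by ring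
      rw [h3]
      have : 0 ≤ (c0 : ℝ) - ANM.td x y := by linarith
      positivity
    calc ‖rsc (H0T d L) b x y‖ ≤ (3 * (2 * C1) * Real.exp μ / (4 * μ) + Lm) * 1 := by linarith
      _ ≤ (3 * (2 * C1) * Real.exp μ / (4 * μ) + Lm) *
          (Real.exp (μ * c0 / a) * Real.exp (-(μ * ANM.td x y / a))) :=
          mul_le_mul_of_nonneg_left h2 (by positivity)
      _ = _ := by unfold decC; ring

/-- off `N` the absorptions are comparable -/
theorem Nxt.eta_cmp (hG : Good f t M) (hI : t.In f M u) (hN : Num f t u)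
    (hn : Nxt M M' g ω rr) (hO : Off g ω N) (hNA : N ⊆ M.A) (hr : rr ≤ f.c1 / 2)
    {x : Tor d L} (hx : x ∉ N) : M'.eta x ≤ 2 * M.eta x ∧ M.eta x ≤ 2 * M'.eta x := by
  by_cases hA : x ∈ M.A
  · have hU : x ∉ M.U := hG.nU_of_A hA
    have h1 := hn.eta_act hG hA
    have h2 := hG.eA x hA
    have h3 : M'.k x = M.k x := by
      rw [hn.k x]
      unfold Med.kf
      rw [(hO x hx).2, sub_zero]
    have h4 := hn.dia x hU
    have h5 := Complex.abs_im_le_norm (M'.G x x - M.G x x)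
    rw [Complex.sub_im] at h5
    have h6 := abs_le.1 (h5.trans h4)
    have h7 : f.c1 ≤ (M.G x x).im := hG.io_ge hI hN hU
    have h8 : 0 ≤ M.k x := hN.kl.le.trans (hG.klo x hA)
    have h9 : (rsc (H0T d L) M.b x x).im = (M.G x x).im := rfl
    rw [h9] at h2
    rw [h3] at h1
    have he := hN.eta
    have hc := hN.c1
    have e1 : M.k x * (M'.G x x).im ≤ M.k x * (2 * (M.G x x).im) :=
      mul_le_mul_of_nonneg_left (by linarith [h6.2]) h8
    have e2 : M.k x * (M.G x x).im ≤ M.k x * (2 * (M'.G x x).im) :=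
      mul_le_mul_of_nonneg_left (by linarith [h6.1]) h8
    constructor <;> linarith
  · have h1 := hn.eta_off hG hO hNA hA
    have h2 := hG.eta_nonneg hI hN x
    rw [h1]
    constructor <;> linarith

namespace FarRow

variable {F : Set (Tor d L)} {μ : ℝ} {a c0 : ℕ} {r : Tor d L → ℕ} {Q ν e Lm q : ℝ}

theorem dG (h : FarRow f M M' F μ a c0 r Q ν e Lm q) (hμ : 0 < μ) {x y : Tor d L}
    (hx : x ∉ M.U) (hy : y ∉ M.U) :
    ‖M.G x y‖ ≤ decC f.C1 Lm μ a c0 * Real.exp (-(μ * ANM.td x y / a)) := by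
  have hC : 0 ≤ f.C1 := by linarith [h.one]
  refine dec_both (adm_diss h.hb) h.ha hμ h.hw hC ?_ ?_ (h.hLm x y hx hy)
  · linarith [h.C1 x hx]
  · have := ((le_abs_self _).trans (Complex.abs_im_le_norm _)).trans (h.C1 y hy)
    linarith

theorem dG' (h : FarRow f M M' F μ a c0 r Q ν e Lm q) (hμ : 0 < μ) {x y : Tor d L}
    (hx : x ∉ M.U) (hy : y ∉ M.U) :
    ‖M'.G x y‖ ≤ decC f.C1 Lm μ a c0 * Real.exp (-(μ * ANM.td x y / a)) := by
  have hC : 0 ≤ f.C1 := by linarith [h.one]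
  exact dec_both (adm_diss h.hb') h.ha hμ h.hw' hC (h.C1' x hx)
    (((le_abs_self _).trans (Complex.abs_im_le_norm _)).trans (h.C1' y hy)) (h.hLm' x y hx hy)

theorem decC_nn (h : FarRow f M M' F μ a c0 r Q ν e Lm q) (hμ : 0 < μ) {x : Tor d L}
    (hx : x ∉ M.U) : 0 ≤ decC f.C1 Lm μ a c0 := by
  have hC : 0 ≤ f.C1 := by linarith [h.one]
  have hL : 0 ≤ Lm := (norm_nonneg _).trans (h.hLm x x hx hx)
  unfold decC
  positivity

/-- relative change of the kernel -/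
theorem kerR (h : FarRow f M M' F μ a c0 r Q ν e Lm q) (hμ : 0 < μ) {x y : Tor d L}
    (hx : x ∉ M.U) (hy : y ∉ M.U) :
    |M'.eta x * ‖M'.G x y‖ ^ 2 * M'.eta y - M.eta x * ‖M.G x y‖ ^ 2 * M.eta y| ≤
      kerC f.C1 Lm Q μ a c0 * (max (M.eta x) (M'.eta x) * max (M.eta y) (M'.eta y)) *
        Real.exp (-(ν * (max (r x) (r y) : ℕ))) := by
  have ha' : (0 : ℝ) < a := by exact_mod_cast h.ha
  have hD0 := h.decC_nn hμ hx
  have hL0 : 0 ≤ Lm := (norm_nonneg _).trans (h.hLm x x hx hx)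
  have hQ := h.hQ
  have hν := h.hν
  set Dc := decC f.C1 Lm μ a c0 with hDc
  set m : ℕ := max (r x) (r y) with hm
  set W := Real.exp (-(ν * (m : ℕ))) with hW
  have hW0 : 0 < W := Real.exp_pos _
  set ex := M.eta x with hex
  set ey := M.eta y with hey
  set ex' := M'.eta x with hex'
  set ey' := M'.eta y with hey'
  have nx : 0 ≤ ex := h.eta_nn x
  have ny : 0 ≤ ey := h.eta_nn y
  have nx' : 0 ≤ ex' := h.eta_nn' x
  have ny' : 0 ≤ ey' := h.eta_nn' y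
  set X := max ex ex' with hX
  set Y := max ey ey' with hY
  have x1 : ex ≤ X := le_max_left _ _
  have x2 : ex' ≤ X := le_max_right _ _
  have y1 : ey ≤ Y := le_max_left _ _
  have y2 : ey' ≤ Y := le_max_right _ _
  have X0 : 0 ≤ X := nx.trans x1
  have Y0 : 0 ≤ Y := ny.trans y1
  -- exponentials
  have hexp : ∀ p q : Tor d L, m = max (r p) (r q) → ANM.td p q = ANM.td x y →
      Real.exp (-(ν * r p)) * Real.exp (-(2 * μ * ANM.td x y / a)) ≤ W := by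
    intro p q hpq htd
    rw [← Real.exp_add, hW]
    apply Real.exp_le_exp.2
    have h4 : (0 : ℝ) ≤ ANM.td x y := Nat.cast_nonneg _
    have h6 := mul_le_mul_of_nonneg_right h.hνμ h4
    have h7 : 2 * μ / a * (ANM.td x y : ℝ) = 2 * μ * ANM.td x y / a := by ring
    have h8 : 0 ≤ ν * (ANM.td x y : ℝ) := mul_nonneg hν h4
    rcases le_total (r q) (r p) with h1 | h1
    · rw [hpq, max_eq_left h1]
      linarith
    · rw [hpq, max_eq_right h1]
      have h2 : (r q : ℝ) ≤ r p + ANM.td x y := by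
        have h3 := h.hL q p
        rw [ANM.td_met.symm q p, htd] at h3
        exact_mod_cast h3
      have h5 := mul_le_mul_of_nonneg_left h2 hν
      linarith
  have hsq : ∀ v : ℝ, 0 ≤ v → v ≤ Dc * Real.exp (-(μ * ANM.td x y / a)) →
      v ^ 2 ≤ Dc ^ 2 * Real.exp (-(2 * μ * ANM.td x y / a)) := by
    intro v hv0 hv
    refine (pow_le_pow_left₀ hv0 hv 2).trans (le_of_eq ?_)
    rw [mul_pow]
    congr 1
    rw [sq, ← Real.exp_add]
    congr 1
    ring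
  have g1 : ‖M.G x y‖ ^ 2 ≤ Dc ^ 2 * Real.exp (-(2 * μ * ANM.td x y / a)) :=
    hsq _ (norm_nonneg _) (h.dG hμ hx hy)
  have g2 : ‖M'.G x y‖ ^ 2 ≤ Dc ^ 2 * Real.exp (-(2 * μ * ANM.td x y / a)) :=
    hsq _ (norm_nonneg _) (h.dG' hμ hx hy)
  have hdx : |ex' - ex| ≤ X * (Q * Real.exp (-(ν * r x))) := h.far.etaR x hx
  have hdy : |ey' - ey| ≤ Y * (Q * Real.exp (-(ν * r y))) := h.far.etaR y hy
  have hE := h.far.ent x y hx hy
  rw [← hm, ← hW] at hE
  -- three terms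
  have t1 : |(ex' - ex) * (ey' * ‖M'.G x y‖ ^ 2)| ≤ Q * Dc ^ 2 * (X * Y) * W := by
    rw [abs_mul, abs_of_nonneg (by positivity : 0 ≤ ey' * ‖M'.G x y‖ ^ 2)]
    calc |ex' - ex| * (ey' * ‖M'.G x y‖ ^ 2)
        ≤ (X * (Q * Real.exp (-(ν * r x)))) *
          (Y * (Dc ^ 2 * Real.exp (-(2 * μ * ANM.td x y / a)))) := by
          refine mul_le_mul hdx ?_ (by positivity) (by positivity)
          exact mul_le_mul y2 g2 (sq_nonneg _) Y0
      _ = Q * Dc ^ 2 * (X * Y) *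
          (Real.exp (-(ν * r x)) * Real.exp (-(2 * μ * ANM.td x y / a))) := by ring
      _ ≤ _ := mul_le_mul_of_nonneg_left (hexp x y hm rfl) (by positivity)
  have t3 : |(ey' - ey) * (ex * ‖M.G x y‖ ^ 2)| ≤ Q * Dc ^ 2 * (X * Y) * W := by
    rw [abs_mul, abs_of_nonneg (by positivity : 0 ≤ ex * ‖M.G x y‖ ^ 2)]
    calc |ey' - ey| * (ex * ‖M.G x y‖ ^ 2)
        ≤ (Y * (Q * Real.exp (-(ν * r y)))) *
          (X * (Dc ^ 2 * Real.exp (-(2 * μ * ANM.td x y / a)))) := by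
          refine mul_le_mul hdy ?_ (by positivity) (by positivity)
          exact mul_le_mul x1 g1 (sq_nonneg _) X0
      _ = Q * Dc ^ 2 * (X * Y) *
          (Real.exp (-(ν * r y)) * Real.exp (-(2 * μ * ANM.td x y / a))) := by ring
      _ ≤ _ := mul_le_mul_of_nonneg_left (hexp y x (by rw [hm, max_comm])
          (ANM.td_met.symm y x)) (by positivity)
  have t2 : |ex * (‖M'.G x y‖ ^ 2 - ‖M.G x y‖ ^ 2) * ey'| ≤ 2 * Lm * Q * (X * Y) * W := by
    have e1 : |‖M'.G x y‖ - ‖M.G x y‖| ≤ Q * W := by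
      rw [abs_sub_comm]
      exact (abs_norm_sub_norm_le _ _).trans hE
    have e2 : ‖M'.G x y‖ + ‖M.G x y‖ ≤ 2 * Lm := by
      have e3 := h.hLm x y hx hy
      have e4 := h.hLm' x y hx hy
      unfold Med.G
      linarith
    have e5 : |‖M'.G x y‖ ^ 2 - ‖M.G x y‖ ^ 2| ≤ (Q * W) * (2 * Lm) := by
      rw [show ‖M'.G x y‖ ^ 2 - ‖M.G x y‖ ^ 2 =
        (‖M'.G x y‖ - ‖M.G x y‖) * (‖M'.G x y‖ + ‖M.G x y‖) by ring, abs_mul,
        abs_of_nonneg (by positivity : 0 ≤ ‖M'.G x y‖ + ‖M.G x y‖)]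
      exact mul_le_mul e1 e2 (by positivity) (by positivity)
    rw [abs_mul, abs_mul, abs_of_nonneg nx, abs_of_nonneg ny']
    calc ex * |‖M'.G x y‖ ^ 2 - ‖M.G x y‖ ^ 2| * ey'
        ≤ X * ((Q * W) * (2 * Lm)) * Y := by
          refine mul_le_mul (mul_le_mul x1 e5 (abs_nonneg _) X0) y2 ny' (by positivity)
      _ = _ := by ring
  have hsplit : ex' * ‖M'.G x y‖ ^ 2 * ey' - ex * ‖M.G x y‖ ^ 2 * ey =
      (ex' - ex) * (ey' * ‖M'.G x y‖ ^ 2) + ex * (‖M'.G x y‖ ^ 2 - ‖M.G x y‖ ^ 2) * ey' +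
        (ey' - ey) * (ex * ‖M.G x y‖ ^ 2) := by ring
  rw [hsplit]
  refine (abs_add_three _ _ _).trans ?_
  calc _ ≤ Q * Dc ^ 2 * (X * Y) * W + 2 * Lm * Q * (X * Y) * W + Q * Dc ^ 2 * (X * Y) * W :=
        add_le_add (add_le_add t1 t2) t3
    _ = _ := by unfold kerC; ring

theorem rr_max (hν : 0 ≤ ν) (x y : Tor d L) :
    Real.exp (-(ν * ((max (ANP.dT x c - s) (ANP.dT y c - s) : ℕ) : ℝ))) ≤
      ANF.Glob.rr (ν / 4) s c x ^ 2 * ANF.Glob.rr (ν / 4) s c y ^ 2 := by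
  rw [rr_sq, rr_sq, ← Real.exp_add]
  apply Real.exp_le_exp.2
  have h2 : ((ANP.dT x c - s : ℕ) : ℝ) ≤
      ((max (ANP.dT x c - s) (ANP.dT y c - s) : ℕ) : ℝ) := by
    exact_mod_cast le_max_left _ _
  have h3 : ((ANP.dT y c - s : ℕ) : ℝ) ≤
      ((max (ANP.dT x c - s) (ANP.dT y c - s) : ℕ) : ℝ) := by
    exact_mod_cast le_max_right _ _
  have h4 := mul_le_mul_of_nonneg_left h2 hν
  have h5 := mul_le_mul_of_nonneg_left h3 hν
  linarith

/-- relative change of the kernel in the form of the schedule -/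
theorem kdM (h : FarRow f M M' F μ a c0 (fun x => ANP.dT x c - s) Q ν e Lm q) (hμ : 0 < μ)
    {x y : Tor d L} (hx : x ∈ M.nr) (hy : y ∈ M.nr) :
    |ANF.Glob.kM M' x y - ANF.Glob.kM M x y| ≤ kerC f.C1 Lm Q μ a c0 *
      ((max (M.eta x) (M'.eta x) * ANF.Glob.rr (ν / 4) s c x ^ 2) *
        (max (M.eta y) (M'.eta y) * ANF.Glob.rr (ν / 4) s c y ^ 2)) := by
  have hxU := mem_nr.1 hx
  have hyU := mem_nr.1 hy
  have h1 := h.kerR hμ hxU hyU
  have hK : 0 ≤ kerC f.C1 Lm Q μ a c0 := by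
    have e1 := h.decC_nn hμ hxU
    have e2 : 0 ≤ Lm := (norm_nonneg _).trans (h.hLm x x hxU hxU)
    have e3 := h.hQ
    unfold kerC
    positivity
  have hX : 0 ≤ max (M.eta x) (M'.eta x) := (h.eta_nn x).trans (le_max_left _ _)
  have hY : 0 ≤ max (M.eta y) (M'.eta y) := (h.eta_nn y).trans (le_max_left _ _)
  refine h1.trans ?_
  refine (mul_le_mul_of_nonneg_left (rr_max (c := c) (s := s) h.hν x y)
    (mul_nonneg hK (mul_nonneg hX hY))).trans (le_of_eq (by ring))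

/-- (I2) off `N`, old absorption -/
theorem kdR (h : FarRow f M M' F μ a c0 (fun x => ANP.dT x c - s) Q ν e Lm q) (hμ : 0 < μ)
    {x y : Tor d L} (hx : x ∈ M.nr) (hy : y ∈ M.nr) (hx2 : M'.eta x ≤ 2 * M.eta x)
    (hy2 : M'.eta y ≤ 2 * M.eta y) :
    |ANF.Glob.kM M' x y - ANF.Glob.kM M x y| ≤ 4 * kerC f.C1 Lm Q μ a c0 *
      ((M.eta x * ANF.Glob.rr (ν / 4) s c x ^ 2) *
        (M.eta y * ANF.Glob.rr (ν / 4) s c y ^ 2)) := by
  have hxU := mem_nr.1 hx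
  have hK : 0 ≤ kerC f.C1 Lm Q μ a c0 := by
    have e1 := h.decC_nn hμ hxU
    have e2 : 0 ≤ Lm := (norm_nonneg _).trans (h.hLm x x hxU hxU)
    have e3 := h.hQ
    unfold kerC
    positivity
  have nx := h.eta_nn x
  have ny := h.eta_nn y
  have mx : max (M.eta x) (M'.eta x) ≤ 2 * M.eta x := max_le (by linarith) hx2
  have my : max (M.eta y) (M'.eta y) ≤ 2 * M.eta y := max_le (by linarith) hy2
  refine (h.kdM hμ hx hy).trans ?_
  calc kerC f.C1 Lm Q μ a c0 * ((max (M.eta x) (M'.eta x) * ANF.Glob.rr (ν / 4) s c x ^ 2) *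
        (max (M.eta y) (M'.eta y) * ANF.Glob.rr (ν / 4) s c y ^ 2))
      ≤ kerC f.C1 Lm Q μ a c0 * ((2 * M.eta x * ANF.Glob.rr (ν / 4) s c x ^ 2) *
        (2 * M.eta y * ANF.Glob.rr (ν / 4) s c y ^ 2)) := by
        refine mul_le_mul_of_nonneg_left ?_ hK
        refine mul_le_mul (mul_le_mul_of_nonneg_right mx (sq_nonneg _))
          (mul_le_mul_of_nonneg_right my (sq_nonneg _)) ?_ (by positivity)
        exact mul_nonneg (ny.trans (le_max_left _ _)) (sq_nonneg _)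
    _ = _ := by ring

/-- (I2) off `N`, new absorption -/
theorem kdR' (h : FarRow f M M' F μ a c0 (fun x => ANP.dT x c - s) Q ν e Lm q) (hμ : 0 < μ)
    {x y : Tor d L} (hx : x ∈ M.nr) (hy : y ∈ M.nr) (hx2 : M.eta x ≤ 2 * M'.eta x)
    (hy2 : M.eta y ≤ 2 * M'.eta y) :
    |ANF.Glob.kM M' x y - ANF.Glob.kM M x y| ≤ 4 * kerC f.C1 Lm Q μ a c0 *
      ((M'.eta x * ANF.Glob.rr (ν / 4) s c x ^ 2) *
        (M'.eta y * ANF.Glob.rr (ν / 4) s c y ^ 2)) := by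
  have hxU := mem_nr.1 hx
  have hK : 0 ≤ kerC f.C1 Lm Q μ a c0 := by
    have e1 := h.decC_nn hμ hxU
    have e2 : 0 ≤ Lm := (norm_nonneg _).trans (h.hLm x x hxU hxU)
    have e3 := h.hQ
    unfold kerC
    positivity
  have nx := h.eta_nn' x
  have ny := h.eta_nn' y
  have mx : max (M.eta x) (M'.eta x) ≤ 2 * M'.eta x := max_le hx2 (by linarith)
  have my : max (M.eta y) (M'.eta y) ≤ 2 * M'.eta y := max_le hy2 (by linarith)
  refine (h.kdM hμ hx hy).trans ?_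
  calc kerC f.C1 Lm Q μ a c0 * ((max (M.eta x) (M'.eta x) * ANF.Glob.rr (ν / 4) s c x ^ 2) *
        (max (M.eta y) (M'.eta y) * ANF.Glob.rr (ν / 4) s c y ^ 2))
      ≤ kerC f.C1 Lm Q μ a c0 * ((2 * M'.eta x * ANF.Glob.rr (ν / 4) s c x ^ 2) *
        (2 * M'.eta y * ANF.Glob.rr (ν / 4) s c y ^ 2)) := by
        refine mul_le_mul_of_nonneg_left ?_ hK
        refine mul_le_mul (mul_le_mul_of_nonneg_right mx (sq_nonneg _))
          (mul_le_mul_of_nonneg_right my (sq_nonneg _)) ?_ (by positivity)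
        exact mul_nonneg (ny.trans (le_max_right _ _)) (sq_nonneg _)
    _ = _ := by ring

/-- decay of the squares between `N` and a site -/
theorem sqN (h : FarRow f M M' F μ a c0 (fun x => ANP.dT x c - s) Q ν e Lm q) (hμ : 0 < μ)
    (hNB : ∀ w ∈ N, ANP.dT w c ≤ s) (hNU : ∀ w ∈ N, w ∉ M.U) {y : Tor d L} (hy : y ∈ M.nr)
    {w : Tor d L} (hw : w ∈ N) :
    ‖M.G w y‖ ^ 2 ≤ decC f.C1 Lm μ a c0 ^ 2 * ANF.Glob.rr (ν / 4) s c y ^ 2 ∧
      ‖M'.G w y‖ ^ 2 ≤ decC f.C1 Lm μ a c0 ^ 2 * ANF.Glob.rr (ν / 4) s c y ^ 2 := by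
  have hyU := mem_nr.1 hy
  have hD0 := h.decC_nn hμ hyU
  have hν := h.hν
  have e0 : Real.exp (-(2 * μ * ANM.td w y / a)) ≤ ANF.Glob.rr (ν / 4) s c y ^ 2 := by
    rw [rr_sq]
    apply Real.exp_le_exp.2
    have h7 : ((ANP.dT y c - s : ℕ) : ℝ) ≤ (ANM.td w y : ℝ) := by
      have := ball_r hNB y w hw
      rw [ANM.td_met.symm y w] at this
      exact_mod_cast this
    have h8 : (0 : ℝ) ≤ (ANM.td w y : ℝ) := Nat.cast_nonneg _
    have h9 := mul_le_mul_of_nonneg_left h7 hν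
    have h10 := mul_le_mul_of_nonneg_right h.hνμ h8
    have h11 : 2 * μ / a * (ANM.td w y : ℝ) = 2 * μ * ANM.td w y / a := by ring
    have h12 := mul_nonneg hν h8
    linarith
  have hsq : ∀ v : ℝ, 0 ≤ v → v ≤ decC f.C1 Lm μ a c0 * Real.exp (-(μ * ANM.td w y / a)) →
      v ^ 2 ≤ decC f.C1 Lm μ a c0 ^ 2 * ANF.Glob.rr (ν / 4) s c y ^ 2 := by
    intro v hv0 hv
    refine (pow_le_pow_left₀ hv0 hv 2).trans ?_
    rw [mul_pow]
    refine mul_le_mul_of_nonneg_left ?_ (sq_nonneg _)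
    have e1 : Real.exp (-(μ * ANM.td w y / a)) ^ 2 = Real.exp (-(2 * μ * ANM.td w y / a)) := by
      rw [sq, ← Real.exp_add]
      congr 1
      ring
    rw [e1]
    exact e0
  exact ⟨hsq _ (norm_nonneg _) (h.dG hμ (hNU w hw) hyU),
    hsq _ (norm_nonneg _) (h.dG' hμ (hNU w hw) hyU)⟩

/-- the old kernel between `N` and a site -/
theorem kNR (h : FarRow f M M' F μ a c0 (fun x => ANP.dT x c - s) Q ν e Lm q) (hμ : 0 < μ)
    (hNB : ∀ w ∈ N, ANP.dT w c ≤ s) (hNU : ∀ w ∈ N, w ∉ M.U) {y : Tor d L} (hy : y ∈ M.nr)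
    {w : Tor d L} (hw : w ∈ N) :
    ANF.Glob.kM M w y ≤ decC f.C1 Lm μ a c0 ^ 2 *
      (M.eta w * (M.eta y * ANF.Glob.rr (ν / 4) s c y ^ 2)) := by
  have h1 := (h.sqN hμ hNB hNU hy hw).1
  have nw := h.eta_nn w
  have ny := h.eta_nn y
  unfold ANF.Glob.kM
  calc M.eta w * ‖rsc (H0T d L) M.b w y‖ ^ 2 * M.eta y
      ≤ M.eta w * (decC f.C1 Lm μ a c0 ^ 2 * ANF.Glob.rr (ν / 4) s c y ^ 2) * M.eta y := by
        refine mul_le_mul_of_nonneg_right ?_ ny
        exact mul_le_mul_of_nonneg_left h1 nw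
    _ = _ := by ring

/-- the new kernel between `N` and a site -/
theorem kNR' (h : FarRow f M M' F μ a c0 (fun x => ANP.dT x c - s) Q ν e Lm q) (hμ : 0 < μ)
    (hNB : ∀ w ∈ N, ANP.dT w c ≤ s) (hNU : ∀ w ∈ N, w ∉ M.U) {y : Tor d L} (hy : y ∈ M.nr)
    {w : Tor d L} (hw : w ∈ N) :
    ANF.Glob.kM M' w y ≤ decC f.C1 Lm μ a c0 ^ 2 *
      (M'.eta w * (M'.eta y * ANF.Glob.rr (ν / 4) s c y ^ 2)) := by
  have h1 := (h.sqN hμ hNB hNU hy hw).2
  have nw := h.eta_nn' w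
  have ny := h.eta_nn' y
  unfold ANF.Glob.kM
  calc M'.eta w * ‖rsc (H0T d L) M'.b w y‖ ^ 2 * M'.eta y
      ≤ M'.eta w * (decC f.C1 Lm μ a c0 ^ 2 * ANF.Glob.rr (ν / 4) s c y ^ 2) * M'.eta y := by
        refine mul_le_mul_of_nonneg_right ?_ ny
        exact mul_le_mul_of_nonneg_left h1 nw
    _ = _ := by ring

end FarRow

end Pool.Agent.AND
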