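import Pool.Agent.ANS.TopDefs
import Pool.Agent.AND.Use
import Pool.Agent.ANM.FBase
import Pool.Agent.ANI.RowObs

/-! # ANS TOP NEAR: the rows of the next medium (no geometry), status fields (helper87)

`hG : Good f t M`, `hI : t.In f M u`, `hN : Num f t u`, `hn : Nxt M M' g ω r` (self-consistent medium after the frozen
reading `ω`), `hs : StepH f t M g ω W r al kl' k'` (levels after the reading between `kl'` and `k'` off the weak outcomes `W`, `0` on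
`W`, digits trivial off `A`, `r` and `al` small; Part A: `W = ∅`).  With `ρ = 2 r / c1` and `w = (1/2) (-Im bf)`: `|b' - bf| ≤ ρ w`, `w ≤ -Im b'`, hence the weighted rows and the entries of
`G' - Gf` are small and
* `Nxt.near_h1`  : `‖G'_xx - g0‖ ≤ del x + r`;
* `Nxt.near_ent` : `‖G'_xy - G_xy‖ ≤ al + 2 C1 ρ` (`x, y` not read);
* `Nxt.near_tau` : `∑_(A \ W) |G'_xw|⁴ ≤ (1+σ)³ (tau x + tt) + (1+1/σ)³ E + tl`;
* `Nxt.near_h3`  : (H3) with new weights;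
* `Nxt.status` : the status fields of the relabelled medium `M'.rel W`.
-/

open Matrix Finset

noncomputable section

namespace Pool.Agent.AND

open Pool.Agent.Kin Pool.Agent.APS Pool.Agent.ANM

set_option linter.unusedSectionVars false

section cmp

variable {ι : Type} [Fintype ι] [DecidableEq ι] {H0 : Matrix ι ι ℂ} {b b' : ι → ℂ} {w : ι → ℝ}

/-- `Adm` and `Diss` are the same -/
theorem dissOfAdm (h : ANL.Adm H0 b) : Diss H0 b := ⟨h.sym, h.im, h.unit⟩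

/-- transfer of invertibility between two diagonals which agree at the sites without absorption -/
theorem unit_transfer {U : Finset ι} (h : Diss H0 b) (hU : ∀ x ∈ U, b' x = b x)
    (hX : ∀ x, x ∉ U → (b' x).im < 0) : IsUnit (H0 + diagonal b').det := by
  rw [isUnit_iff_ne_zero]
  intro hdet
  obtain ⟨v, hv0, hv⟩ := Matrix.exists_mulVec_eq_zero_iff.2 hdet
  apply hv0
  have h1 := ANL.form_im h.hH b' v
  rw [hv] at h1
  simp only [Pi.zero_apply, mul_zero, Finset.sum_const_zero, Complex.zero_im] at h1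
  have hb' : ∀ x, (b' x).im ≤ 0 := by
    intro x
    by_cases hx : x ∈ U
    · rw [hU x hx]
      exact h.nn x
    · exact (hX x hx).le
  have h2 : ∀ x, x ∉ U → v x = 0 := by
    intro x hx
    have h3 : ∀ y ∈ (univ : Finset ι), 0 ≤ -((b' y).im * ‖v y‖ ^ 2) := by
      intro y _
      nlinarith [hb' y, sq_nonneg ‖v y‖, mul_nonneg (neg_nonneg.2 (hb' y)) (sq_nonneg ‖v y‖)]
    have h4 : ∑ y, -((b' y).im * ‖v y‖ ^ 2) = 0 := by
      rw [Finset.sum_neg_distrib, neg_eq_zero, h1]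
      exact Finset.sum_congr rfl fun y _ => mul_comm _ _
    have h5 := (Finset.sum_eq_zero_iff_of_nonneg h3).1 h4 x (mem_univ x)
    have h6 : (b' x).im * ‖v x‖ ^ 2 = 0 := by linarith
    rcases mul_eq_zero.1 h6 with h7 | h7
    · exact absurd h7 (hX x hx).ne
    · exact norm_eq_zero.1 (pow_eq_zero_iff two_ne_zero |>.1 h7)
  have h3 : (H0 + diagonal b) *ᵥ v = 0 := by
    rw [← hv]
    rw [Matrix.add_mulVec, Matrix.add_mulVec]
    congr 1
    funext x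
    rw [Matrix.mulVec_diagonal, Matrix.mulVec_diagonal]
    by_cases hx : x ∈ U
    · rw [hU x hx]
    · rw [h2 x hx]
      simp
  have h4 : rsc H0 b *ᵥ ((H0 + diagonal b) *ᵥ v) = v := by
    rw [Matrix.mulVec_mulVec, h.mull, Matrix.one_mulVec]
  rw [h3, Matrix.mulVec_zero] at h4
  exact h4.symm

private lemma sw_eq (hw0 : ∀ x, 0 ≤ w x) {d : ι → ℂ} {ρ : ℝ}
    (hd : ∀ y, ‖d y‖ ≤ ρ * w y) (z : ι) (a : ℂ) :
    d z * a = (√(w z) : ℂ) * (((√(w z))⁻¹ : ℂ) * d z * a) := by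
  rcases (hw0 z).eq_or_lt with h | h
  · have h1 : d z = 0 := by
      have := hd z
      rw [← h, mul_zero] at this
      exact norm_le_zero_iff.1 this
    rw [h1]
    simp
  · have h1 : (√(w z) : ℂ) ≠ 0 := by
      rw [Ne, Complex.ofReal_eq_zero]
      exact (Real.sqrt_pos.2 h).ne'
    field_simp

private lemma vec_sq (hw0 : ∀ x, 0 ≤ w x) {d : ι → ℂ} {ρ : ℝ}
    (hd : ∀ y, ‖d y‖ ≤ ρ * w y) (G : ι → ℂ) :
    ∑ z, ‖((√(w z))⁻¹ : ℂ) * d z * G z‖ ^ 2 ≤ ρ ^ 2 * ∑ z, w z * ‖G z‖ ^ 2 := by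
  rw [Finset.mul_sum]
  refine Finset.sum_le_sum fun z _ => ?_
  rcases (hw0 z).eq_or_lt with h | h
  · have h1 : d z = 0 := by
      have := hd z
      rw [← h, mul_zero] at this
      exact norm_le_zero_iff.1 this
    rw [h1, ← h]
    simp
  · have h1 : 0 < √(w z) := Real.sqrt_pos.2 h
    rw [norm_mul, norm_mul, norm_inv, Complex.norm_real, Real.norm_of_nonneg h1.le, mul_pow,
      mul_pow, inv_pow, Real.sq_sqrt h.le]
    have h2 : ‖d z‖ ^ 2 ≤ (ρ * w z) ^ 2 := pow_le_pow_left₀ (norm_nonneg _) (hd z) 2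
    calc (w z)⁻¹ * ‖d z‖ ^ 2 * ‖G z‖ ^ 2 ≤ (w z)⁻¹ * (ρ * w z) ^ 2 * ‖G z‖ ^ 2 := by
          gcongr
      _ = ρ ^ 2 * (w z * ‖G z‖ ^ 2) := by
          field_simp

/-- rows of the resolvent with a weight below the absorption -/
theorem dwrow (h : Diss H0 b) (hw : ∀ x, w x ≤ -(b x).im) (x : ι) :
    ∑ y, w y * ‖rsc H0 b x y‖ ^ 2 ≤ (rsc H0 b x x).im := by
  rw [h.ward x]
  refine Finset.sum_le_sum fun y _ => ?_
  rw [mul_comm]
  exact mul_le_mul_of_nonneg_left (hw y) (sq_nonneg _)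

/-- comparison of rows -/
theorem dcmp_row (h : Diss H0 b) (h' : Diss H0 b') (hw0 : ∀ x, 0 ≤ w x)
    (hw : ∀ x, w x ≤ -(b x).im) (hw' : ∀ x, w x ≤ -(b' x).im) {ρ : ℝ}
    (hd : ∀ y, ‖b' y - b y‖ ≤ ρ * w y) (x : ι) :
    ∑ z, w z * ‖rsc H0 b' x z - rsc H0 b x z‖ ^ 2 ≤ ρ ^ 2 * (rsc H0 b x x).im := by
  set d : ι → ℂ := fun y => b' y - b y with hdd
  have h1 : ∀ z, rsc H0 b x z - rsc H0 b' x z = ∑ y, rsc H0 b' z y *
      ((√(w y) : ℂ) * (((√(w y))⁻¹ : ℂ) * d y * rsc H0 b x y)) := by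
    intro z
    rw [h.sub_ent h' x z]
    refine Finset.sum_congr rfl fun y _ => ?_
    rw [h'.symm y z, ← sw_eq hw0 hd y (rsc H0 b x y)]
    ring
  calc ∑ z, w z * ‖rsc H0 b' x z - rsc H0 b x z‖ ^ 2
      = ∑ z, w z * ‖∑ y, rsc H0 b' z y *
          ((√(w y) : ℂ) * (((√(w y))⁻¹ : ℂ) * d y * rsc H0 b x y))‖ ^ 2 := by
        refine Finset.sum_congr rfl fun z _ => ?_
        rw [← h1 z, norm_sub_rev]
    _ ≤ ∑ y, ‖((√(w y))⁻¹ : ℂ) * d y * rsc H0 b x y‖ ^ 2 := h'.wop hw0 hw' _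
    _ ≤ ρ ^ 2 * ∑ y, w y * ‖rsc H0 b x y‖ ^ 2 := vec_sq hw0 hd _
    _ ≤ ρ ^ 2 * (rsc H0 b x x).im := mul_le_mul_of_nonneg_left (dwrow h hw x) (sq_nonneg _)

/-- comparison of entries -/
theorem dcmp_ent (h : Diss H0 b) (h' : Diss H0 b') (hw0 : ∀ x, 0 ≤ w x)
    (hw : ∀ x, w x ≤ -(b x).im) (hw' : ∀ x, w x ≤ -(b' x).im) {ρ : ℝ} (hρ : 0 ≤ ρ)
    (hd : ∀ y, ‖b' y - b y‖ ≤ ρ * w y) (x z : ι) :
    ‖rsc H0 b' x z - rsc H0 b x z‖ ≤ ρ * √((rsc H0 b x x).im * (rsc H0 b' z z).im) := by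
  rw [norm_sub_rev, h.sub_ent h' x z]
  calc ‖∑ y, rsc H0 b x y * (b' y - b y) * rsc H0 b' y z‖
      ≤ ∑ y, ‖rsc H0 b x y * (b' y - b y) * rsc H0 b' y z‖ := norm_sum_le _ _
    _ ≤ ∑ y, ρ * ((√(w y) * ‖rsc H0 b x y‖) * (√(w y) * ‖rsc H0 b' z y‖)) := by
        refine Finset.sum_le_sum fun y _ => ?_
        rw [norm_mul, norm_mul, h'.symm y z]
        have h1 := hd y
        have h2 := Real.mul_self_sqrt (hw0 y)
        calc ‖rsc H0 b x y‖ * ‖b' y - b y‖ * ‖rsc H0 b' z y‖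
            ≤ ‖rsc H0 b x y‖ * (ρ * w y) * ‖rsc H0 b' z y‖ := by gcongr
          _ = ρ * ((√(w y) * √(w y)) * (‖rsc H0 b x y‖ * ‖rsc H0 b' z y‖)) := by
              rw [h2]; ring
          _ = _ := by ring
    _ = ρ * ∑ y, (√(w y) * ‖rsc H0 b x y‖) * (√(w y) * ‖rsc H0 b' z y‖) := by
        rw [Finset.mul_sum]
    _ ≤ ρ * (√(∑ y, (√(w y) * ‖rsc H0 b x y‖) ^ 2) *
          √(∑ y, (√(w y) * ‖rsc H0 b' z y‖) ^ 2)) :=
        mul_le_mul_of_nonneg_left (Real.sum_mul_le_sqrt_mul_sqrt _ _ _) hρ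
    _ ≤ ρ * √((rsc H0 b x x).im * (rsc H0 b' z z).im) := by
        refine mul_le_mul_of_nonneg_left ?_ hρ
        rw [← Real.sqrt_mul (Finset.sum_nonneg fun y _ => sq_nonneg _)]
        refine Real.sqrt_le_sqrt ?_
        have e1 : ∑ y, (√(w y) * ‖rsc H0 b x y‖) ^ 2 = ∑ y, w y * ‖rsc H0 b x y‖ ^ 2 :=
          Finset.sum_congr rfl fun y _ => by rw [mul_pow, Real.sq_sqrt (hw0 y)]
        have e2 : ∑ y, (√(w y) * ‖rsc H0 b' z y‖) ^ 2 = ∑ y, w y * ‖rsc H0 b' z y‖ ^ 2 :=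
          Finset.sum_congr rfl fun y _ => by rw [mul_pow, Real.sq_sqrt (hw0 y)]
        rw [e1, e2]
        exact mul_le_mul (dwrow h hw x) (dwrow h' hw' z)
          (Finset.sum_nonneg fun y _ => mul_nonneg (hw0 y) (sq_nonneg _)) (h.im_nn x)

end cmp

variable {d L : ℕ} [NeZero L] {D : Type} [Fintype D] {f : Fix} {t : Tol d L} {u : UTol}
  {M M' : Med (Tor d L)} {g : ANS.Dig (Tor d L) D} {ω : Tor d L → D} {W : Finset (Tor d L)}
  {r al kl' k' : ℝ}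

/-- hypotheses of a step at the outcome `ω`; `W` = weak outcomes (Part A: `∅`) -/
structure StepH (f : Fix) (t : Tol d L) (M : Med (Tor d L)) (g : ANS.Dig (Tor d L) D)
    (ω : Tor d L → D) (W : Finset (Tor d L)) (r al kl' k' : ℝ) : Prop where
  kl0 : 0 < kl'
  /-- trivial digits off the active sites -/
  xi0 : ∀ x, x ∉ M.A → g.xi x (ω x) = 0
  zt0 : ∀ x, x ∉ M.A → g.zt x (ω x) = 0
  /-- levels after the reading -/
  klo : ∀ x ∈ M.A, x ∉ W → kl' ≤ M.kf g ω x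
  /-- weak outcomes -/
  kW : ∀ x ∈ W, x ∈ M.A ∧ M.kf g ω x = 0
  khi : ∀ x ∈ M.A, M.kf g ω x ≤ k'
  r0 : 0 ≤ r
  al0 : 0 ≤ al
  r1 : 2 * r ≤ f.c1
  al1 : al ≤ f.C1

namespace StepH

variable (hs : StepH f t M g ω W r al kl' k')

include hs in
theorem kf0 (hG : Good f t M) {x : Tor d L} (hx : x ∉ M.A) : M.kf g ω x = 0 := by
  unfold Med.kf
  rw [hG.k0 x hx, hs.zt0 x hx, sub_zero]

include hs in
theorem kf_nn (hG : Good f t M) (x : Tor d L) : 0 ≤ M.kf g ω x := by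
  by_cases hW : x ∈ W
  · rw [(hs.kW x hW).2]
  by_cases hx : x ∈ M.A
  · exact hs.kl0.le.trans (hs.klo x hx hW)
  · rw [hs.kf0 hG hx]

include hs in
theorem bf_off {x : Tor d L} (hx : x ∉ M.A) : M.bf g ω x = M.b x := by
  unfold Med.bf
  rw [hs.xi0 x hx, hs.zt0 x hx]
  simp

include hs in
/-- absorption after the frozen reading -/
theorem bf_im (hG : Good f t M) {x : Tor d L} (hx : x ∈ M.A) :
    -(M.bf g ω x).im = t.eta + M.kf g ω x * (M.G x x).im := by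
  have h1 := hG.eA x hx
  unfold Med.eta at h1
  have h2 : (rsc (H0T d L) M.b x x).im = (M.G x x).im := rfl
  rw [h2] at h1
  unfold Med.bf Med.kf
  rw [Complex.add_im, Complex.add_im, Complex.ofReal_im, Complex.im_ofReal_mul]
  linarith

end StepH

namespace Nxt

variable (hn : Nxt M M' g ω r) (hG : Good f t M) (hI : t.In f M u) (hN : Num f t u)
  (hs : StepH f t M g ω W r al kl' k')

include hn hG hs in
/-- off the active sites nothing changes -/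
theorem b_off {x : Tor d L} (hx : x ∉ M.A) : M'.b x = M.b x := by
  by_cases hU : x ∈ M.U
  · exact hn.bU x hU
  · rw [hn.b x hU, hs.kf0 hG hx, hs.bf_off hx]
    simp

include hn hG hs in
/-- new absorption at the active sites: the new medium is self-consistent -/
theorem b_im {x : Tor d L} (hx : x ∈ M.A) :
    -(M'.b x).im = t.eta + M.kf g ω x * (M'.G x x).im := by
  have hU := hG.nU_of_A hx
  have h1 := hs.bf_im hG hx
  rw [hn.b x hU, Complex.sub_im, Complex.im_ofReal_mul, Complex.sub_im]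
  linarith

include hn in
theorem io_close {x : Tor d L} (hx : x ∉ M.U) : |(M'.G x x).im - (M.G x x).im| ≤ r := by
  have h1 := hn.dia x hx
  have h2 := Complex.abs_im_le_norm (M'.G x x - M.G x x)
  rw [Complex.sub_im] at h2
  exact h2.trans h1

include hn hG hI hN hs in
theorem io_half {x : Tor d L} (hx : x ∉ M.U) : (M.G x x).im / 2 ≤ (M'.G x x).im := by
  have h1 := abs_le.1 (hn.io_close hx)
  have h2 := hG.io_ge hI hN hx
  have h3 : (rsc (H0T d L) M.b x x).im = (M.G x x).im := rfl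
  rw [h3] at h2
  have h4 := hs.r1
  linarith [h1.1]

include hn hG hI hN hs in
theorem io_ge' {x : Tor d L} (hx : x ∉ M.U) : f.c1 / 2 ≤ (M'.G x x).im := by
  have h1 := hn.io_half hG hI hN hs hx
  have h2 := hG.io_ge hI hN hx
  have h3 : (rsc (H0T d L) M.b x x).im = (M.G x x).im := rfl
  rw [h3] at h2
  linarith

include hn hG hI hN hs in
theorem io_le' {x : Tor d L} (hx : x ∉ M.U) : (M'.G x x).im ≤ 2 * f.C1 := by
  have h1 := abs_le.1 (hn.io_close hx)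
  have h2 := hG.io_le hI hN hx
  have h3 : (rsc (H0T d L) M.b x x).im = (M.G x x).im := rfl
  rw [h3] at h2
  have h4 := hs.r1
  have h5 : f.c1 ≤ f.C1 := (hG.io_ge hI hN hx).trans (hG.io_le hI hN hx)
  have h6 := hN.c1
  linarith [h1.2]

include hG hI hN hs in
theorem bf_neg {x : Tor d L} (hx : x ∉ M.U) : (M.bf g ω x).im < 0 := by
  by_cases hA : x ∈ M.A
  · have h1 := hs.bf_im hG hA
    have h2 := hs.kf_nn hG x
    have h3 := (hG.io_pos hI hN hx).le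
    have h4 : (rsc (H0T d L) M.b x x).im = (M.G x x).im := rfl
    rw [h4] at h3
    have h5 := hN.eta
    nlinarith [mul_nonneg h2 h3]
  · rw [hs.bf_off hA]
    exact hG.im_neg hI hN hx

include hG hs in
theorem bf_U {x : Tor d L} (hx : x ∈ M.U) : M.bf g ω x = M.b x :=
  hs.bf_off fun hA => hG.nU_of_A hA hx

include hn hG hI hN hs in
theorem b_neg {x : Tor d L} (hx : x ∉ M.U) : (M'.b x).im < 0 := by
  by_cases hA : x ∈ M.A
  · have h1 := hn.b_im hG hs hA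
    have h2 := hs.kf_nn hG x
    have h3 := (hn.pos x hx).le
    have h5 := hN.eta
    nlinarith [mul_nonneg h2 h3]
  · rw [hn.b_off hG hs hA]
    exact hG.im_neg hI hN hx

include hG hI hN in
theorem dissM : Diss (H0T d L) M.b := dissOfAdm (hG.admN hI hN)

include hG hI hN hs in
theorem dissf : Diss (H0T d L) (M.bf g ω) := by
  have h0 := dissM (u := u) hG hI hN
  refine ⟨H0T_realSym, fun x => ?_, unit_transfer (U := M.U) h0 (fun x hx => bf_U hG hs hx)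
    (fun x hx => bf_neg hG hI hN hs hx)⟩
  by_cases hx : x ∈ M.U
  · rw [bf_U hG hs hx]
    exact h0.nn x
  · exact (bf_neg hG hI hN hs hx).le

include hn hG hI hN hs in
theorem diss' : Diss (H0T d L) M'.b := by
  refine ⟨H0T_realSym, fun x => ?_, hn.unit⟩
  by_cases hx : x ∈ M.U
  · rw [hn.bU x hx]
    exact (dissM (u := u) hG hI hN).nn x
  · exact (hn.b_neg hG hI hN hs hx).le

/-- the weight -/
def _root_.Pool.Agent.AND.wf (M : Med (Tor d L)) (g : ANS.Dig (Tor d L) D) (ω : Tor d L → D)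
    (x : Tor d L) : ℝ := (1 / 2) * -(M.bf g ω x).im

include hG hI hN hs in
theorem wf0 (x : Tor d L) : 0 ≤ wf M g ω x := by
  unfold wf
  have := (dissf (u := u) hG hI hN hs).nn' x
  positivity

include hG hI hN hs in
theorem wf_le (x : Tor d L) : wf M g ω x ≤ -(M.bf g ω x).im := by
  unfold wf
  have := (dissf (u := u) hG hI hN hs).nn' x
  linarith

include hn hG hI hN hs in
theorem wf_le' (x : Tor d L) : wf M g ω x ≤ -(M'.b x).im := by
  unfold wf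
  by_cases hA : x ∈ M.A
  · rw [hs.bf_im hG hA, hn.b_im hG hs hA]
    have h1 := hn.io_half hG hI hN hs (hG.nU_of_A hA)
    have h2 := hs.kf_nn hG x
    have h3 := mul_le_mul_of_nonneg_left h1 h2
    have h4 := hN.eta
    linarith
  · rw [hs.bf_off hA, hn.b_off hG hs hA]
    have := (dissM (u := u) hG hI hN).nn' x
    linarith

include hn hG hI hN hs in
theorem wf_dif (x : Tor d L) : ‖M'.b x - M.bf g ω x‖ ≤ (2 * r / f.c1) * wf M g ω x := by
  have hc := hN.c1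
  have hr := hs.r0
  by_cases hA : x ∈ M.A
  · have hU := hG.nU_of_A hA
    have h1 : M'.b x - M.bf g ω x = -((M.kf g ω x : ℂ) * (M'.G x x - M.G x x)) := by
      rw [hn.b x hU]
      ring
    rw [h1, norm_neg, norm_mul, Complex.norm_real, Real.norm_of_nonneg (hs.kf_nn hG x)]
    have h2 := hn.dia x hU
    have h3 : M.kf g ω x * ‖M'.G x x - M.G x x‖ ≤ M.kf g ω x * r :=
      mul_le_mul_of_nonneg_left h2 (hs.kf_nn hG x)
    refine h3.trans ?_
    unfold wf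
    rw [hs.bf_im hG hA]
    have h4 := hG.io_ge hI hN hU
    have h5 : (rsc (H0T d L) M.b x x).im = (M.G x x).im := rfl
    rw [h5] at h4
    have h6 := mul_le_mul_of_nonneg_left h4 (hs.kf_nn hG x)
    have h7 : 2 * r / f.c1 * (1 / 2 * (t.eta + M.kf g ω x * (M.G x x).im)) =
        r / f.c1 * (t.eta + M.kf g ω x * (M.G x x).im) := by ring
    rw [h7]
    have h8 : M.kf g ω x * r = r / f.c1 * (M.kf g ω x * f.c1) := by field_simp
    rw [h8]
    refine mul_le_mul_of_nonneg_left ?_ (by positivity)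
    linarith [hN.eta]
  · have h1 : M'.b x - M.bf g ω x = 0 := by
      rw [hs.bf_off hA, hn.b_off hG hs hA, sub_self]
    rw [h1, norm_zero]
    exact mul_nonneg (by positivity) (wf0 (u := u) hG hI hN hs x)

section frz

variable {a' z' : ℕ → Tor d L → ℝ} {e3 : ℕ → ℝ} {B : Finset (Tor d L)} {tt de : ℝ}
  (hF : Frz t M g a' z' e3 B al tt de W ω)

include hG hI hN hs hF in
theorem gf_io {x : Tor d L} (hx : x ∉ M.U) : (M.Gf g ω x x).im ≤ 2 * f.C1 := by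
  have h1 := hF.ent x x hx hx
  have h2 := hG.io_le hI hN hx
  have h3 : (rsc (H0T d L) M.b x x).im = (M.G x x).im := rfl
  rw [h3] at h2
  have h4 := Complex.abs_im_le_norm (M.Gf g ω x x - M.G x x)
  rw [Complex.sub_im] at h4
  have h5 := (abs_le.1 (h4.trans h1)).2
  have h6 := hs.al1
  linarith

include hn hG hI hN hs hF in
/-- the row of the refreeze -/
theorem rf_row {x : Tor d L} (hx : x ∉ M.U) :
    ∑ z, wf M g ω z * ‖M'.G x z - M.Gf g ω x z‖ ^ 2 ≤ (2 * r / f.c1) ^ 2 * (2 * f.C1) := by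
  refine le_trans (dcmp_row (dissf (u := u) hG hI hN hs) (hn.diss' hG hI hN hs)
    (wf0 (u := u) hG hI hN hs) (wf_le (u := u) hG hI hN hs) (hn.wf_le' hG hI hN hs)
    (hn.wf_dif hG hI hN hs) x) ?_
  exact mul_le_mul_of_nonneg_left (gf_io hG hI hN hs hF hx) (sq_nonneg _)

include hn hG hI hN hs hF in
/-- the entries of the refreeze -/
theorem rf_ent {x z : Tor d L} (hx : x ∉ M.U) (hz : z ∉ M.U) :
    ‖M'.G x z - M.Gf g ω x z‖ ≤ (2 * r / f.c1) * (2 * f.C1) := by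
  have hc := hN.c1
  have hr := hs.r0
  have h0 : 0 ≤ 2 * r / f.c1 := by positivity
  refine le_trans (dcmp_ent (dissf (u := u) hG hI hN hs) (hn.diss' hG hI hN hs)
    (wf0 (u := u) hG hI hN hs) (wf_le (u := u) hG hI hN hs) (hn.wf_le' hG hI hN hs) h0
    (hn.wf_dif hG hI hN hs) x z) ?_
  refine mul_le_mul_of_nonneg_left ?_ h0
  have h1 := gf_io hG hI hN hs hF hx
  have h2 := hn.io_le' hG hI hN hs hz
  have h3 : 0 ≤ (M.Gf g ω x x).im := (dissf (u := u) hG hI hN hs).im_nn x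
  have h4 : 0 ≤ (M'.G z z).im := (hn.diss' hG hI hN hs).im_nn z
  have h5 : (M.Gf g ω x x).im * (M'.G z z).im ≤ (2 * f.C1) ^ 2 := by
    rw [sq]
    exact mul_le_mul h1 h2 h4 (h3.trans h1)
  have h6 : √((M.Gf g ω x x).im * (M'.G z z).im) ≤ √((2 * f.C1) ^ 2) := Real.sqrt_le_sqrt h5
  rw [Real.sqrt_sq (h3.trans h1)] at h6
  exact h6

include hn hG in
/-- (H1) of the next medium -/
theorem near_h1 {x : Tor d L} (hx : x ∉ M.U) : ‖M'.G x x - f.g0‖ ≤ t.del x + r := by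
  have h1 := hG.h1 x hx
  have h2 := hn.dia x hx
  have h3 : M'.G x x - f.g0 = (M'.G x x - M.G x x) + (M.G x x - f.g0) := by ring
  rw [h3]
  refine (norm_add_le _ _).trans ?_
  have h4 : ‖M.G x x - f.g0‖ ≤ t.del x := h1
  linarith

include hn hG hI hN hs hF in
/-- change of the entries -/
theorem near_dif {x y : Tor d L} (hx : x ∉ M.U) (hy : y ∉ M.U) :
    ‖M'.G x y - M.G x y‖ ≤ al + (2 * r / f.c1) * (2 * f.C1) := by
  have h1 := hF.ent x y hx hy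
  have h2 := hn.rf_ent hG hI hN hs hF hx hy
  have h3 : M'.G x y - M.G x y = (M'.G x y - M.Gf g ω x y) + (M.Gf g ω x y - M.G x y) := by ring
  rw [h3]
  refine (norm_add_le _ _).trans ?_
  linarith

include hn hG hI hN hs hF in
/-- (H5) of the next medium, `dec` = any other bound of the new entries (Combes-Thomas) -/
theorem near_h5 {x y : Tor d L} (hx : x ∉ M.U) (hy : y ∉ M.U) (hg5 : 0 ≤ t.g5 x y) {dec : ℝ}
    (hdec : ‖M'.G x y‖ ≤ dec) :
    ‖M'.G x y‖ ≤ t.g5 x y + min (al + (2 * r / f.c1) * (2 * f.C1)) dec := by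
  have h1 := hn.near_dif hG hI hN hs hF hx hy
  have h2 : ‖M.G x y‖ ≤ t.g5 x y := hG.h5 x y hx hy
  have h3 : ‖M'.G x y‖ ≤ ‖M.G x y‖ + ‖M'.G x y - M.G x y‖ := by
    have := norm_add_le (M.G x y) (M'.G x y - M.G x y)
    rwa [add_sub_cancel] at this
  rcases min_choice (al + (2 * r / f.c1) * (2 * f.C1)) dec with h4 | h4
  · rw [h4]
    linarith
  · rw [h4]
    linarith

include hG hI hN hs in
theorem wf_A {y : Tor d L} (hy : y ∈ M.A) (hyW : y ∉ W) : kl' * f.c1 / 2 ≤ wf M g ω y := by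
  unfold wf
  rw [hs.bf_im hG hy]
  have h1 := hG.io_ge hI hN (hG.nU_of_A hy)
  have h2 : (rsc (H0T d L) M.b y y).im = (M.G y y).im := rfl
  rw [h2] at h1
  have h3 := mul_le_mul (hs.klo y hy hyW) h1 hN.c1.le (hs.kf_nn hG y)
  have h4 := hN.eta
  linarith

include hn hG hI hN hs hF in
/-- quartic sum of the refreeze differences over the active sites -/
theorem rf_four {x : Tor d L} (hx : x ∉ M.U) (S : Finset (Tor d L)) (hS : S ⊆ M.A \ W) :
    ∑ w ∈ S, ‖M'.G x w - M.Gf g ω x w‖ ^ 4 ≤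
      16 * (2 * r / f.c1) ^ 4 * f.C1 ^ 3 / (kl' * f.c1) := by
  have hc := hN.c1
  have hk := hs.kl0
  have hr := hs.r0
  set ρ := 2 * r / f.c1 with hρ
  have hC : 0 < f.C1 := hG.C1_pos hI hN
  have h1 : ∀ w ∈ S, ‖M'.G x w - M.Gf g ω x w‖ ^ 4 ≤
      (ρ * (2 * f.C1)) ^ 2 * ((2 / (kl' * f.c1)) *
        (wf M g ω w * ‖M'.G x w - M.Gf g ω x w‖ ^ 2)) := by
    intro w hw
    obtain ⟨hwA, hwW⟩ := Finset.mem_sdiff.1 (hS hw)
    have h2 := hn.rf_ent hG hI hN hs hF hx (hG.nU_of_A hwA)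
    have h3 := wf_A hG hI hN hs hwA hwW
    have h4 : ‖M'.G x w - M.Gf g ω x w‖ ^ 2 ≤ (ρ * (2 * f.C1)) ^ 2 :=
      pow_le_pow_left₀ (norm_nonneg _) h2 2
    have h5 : ‖M'.G x w - M.Gf g ω x w‖ ^ 2 ≤
        (2 / (kl' * f.c1)) * (wf M g ω w * ‖M'.G x w - M.Gf g ω x w‖ ^ 2) := by
      have h6 : 1 ≤ (2 / (kl' * f.c1)) * wf M g ω w := by
        rw [div_mul_eq_mul_div, le_div_iff₀ (by positivity)]
        linarith
      have h7 := mul_le_mul_of_nonneg_right h6 (sq_nonneg ‖M'.G x w - M.Gf g ω x w‖)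
      linarith
    calc ‖M'.G x w - M.Gf g ω x w‖ ^ 4
        = ‖M'.G x w - M.Gf g ω x w‖ ^ 2 * ‖M'.G x w - M.Gf g ω x w‖ ^ 2 := by ring
      _ ≤ _ := mul_le_mul h4 h5 (sq_nonneg _) (sq_nonneg _)
  refine (Finset.sum_le_sum h1).trans ?_
  rw [← Finset.mul_sum, ← Finset.mul_sum]
  have h2 : ∑ w ∈ S, wf M g ω w * ‖M'.G x w - M.Gf g ω x w‖ ^ 2 ≤ ρ ^ 2 * (2 * f.C1) :=
    le_trans (Finset.sum_le_univ_sum_of_nonneg fun y =>
      mul_nonneg (wf0 (u := u) hG hI hN hs y) (sq_nonneg _)) (hn.rf_row hG hI hN hs hF hx)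
  calc (ρ * (2 * f.C1)) ^ 2 * ((2 / (kl' * f.c1)) *
        ∑ w ∈ S, wf M g ω w * ‖M'.G x w - M.Gf g ω x w‖ ^ 2)
      ≤ (ρ * (2 * f.C1)) ^ 2 * ((2 / (kl' * f.c1)) * (ρ ^ 2 * (2 * f.C1))) := by
        gcongr
    _ = _ := by
        field_simp
        ring

include hn hG hI hN hs hF in
/-- (H2) of the next medium: `tl` = bound of the far part -/
theorem near_tau {x : Tor d L} (hx : x ∉ M.U) {σ tl : ℝ} (hσ : 0 < σ)
    (htl : ∑ w ∈ (M.A \ W) \ B, ‖M'.G x w‖ ^ 4 ≤ tl) :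
    ∑ w ∈ (M'.rel W).A, ‖M'.G x w‖ ^ 4 ≤ (1 + σ) ^ 3 * (t.tau x + tt) +
      (1 + 1 / σ) ^ 3 * (16 * (2 * r / f.c1) ^ 4 * f.C1 ^ 3 / (kl' * f.c1)) + tl := by
  rw [rel_A, hn.A]
  have h1 : ∑ w ∈ M.A \ W, ‖M'.G x w‖ ^ 4 =
      ∑ w ∈ (M.A \ W) ∩ B, ‖M'.G x w‖ ^ 4 + ∑ w ∈ (M.A \ W) \ B, ‖M'.G x w‖ ^ 4 :=
    (Finset.sum_inter_add_sum_sdiff (M.A \ W) B _).symm
  have h2 := ANI.row_four (Z := (M.A \ W) ∩ B) (w := fun _ => (1 : ℝ))
    (g := fun w => M.Gf g ω x w) (g' := fun w => M'.G x w) (fun _ _ => zero_le_one) hσ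
  simp only [one_mul] at h2
  have h3 := hn.rf_four hG hI hN hs hF hx ((M.A \ W) ∩ B) Finset.inter_subset_left
  have h4 := hF.tau x hx
  have h5 : ∑ w ∈ M.A ∩ B, ‖M.G x w‖ ^ 4 ≤ t.tau x :=
    le_trans (Finset.sum_le_sum_of_subset_of_nonneg Finset.inter_subset_left
      fun _ _ _ => by positivity) (hG.h2 x hx)
  rw [h1]
  have h6 : (1 + σ) ^ 3 * ∑ w ∈ (M.A \ W) ∩ B, ‖M.Gf g ω x w‖ ^ 4 ≤
      (1 + σ) ^ 3 * (t.tau x + tt) :=
    mul_le_mul_of_nonneg_left (by linarith) (by positivity)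
  have h7 : (1 + 1 / σ) ^ 3 * ∑ w ∈ (M.A \ W) ∩ B, ‖M'.G x w - M.Gf g ω x w‖ ^ 4 ≤
      (1 + 1 / σ) ^ 3 * (16 * (2 * r / f.c1) ^ 4 * f.C1 ^ 3 / (kl' * f.c1)) :=
    mul_le_mul_of_nonneg_left h3 (by positivity)
  linarith

include hn hG hI hN hs hF in
/-- change of the weighted rows in the refreeze -/
theorem rf_obs {x : Tor d L} (hx : x ∉ M.U) {S : Finset (Tor d L)} {om : Tor d L → ℝ} {W : ℝ}
    (hW : 0 ≤ W) (ho0 : ∀ y ∈ S, 0 ≤ om y) (ho : ∀ y ∈ S, om y ≤ W * -(M.bf g ω y).im) :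
    |∑ y ∈ S, om y * ‖M'.G x y‖ ^ 2 - ∑ y ∈ S, om y * ‖M.Gf g ω x y‖ ^ 2| ≤
        2 * W * (2 * f.C1) * (2 * (2 * r / f.c1) + (2 * r / f.c1) ^ 2) ∧
      ‖∑ y ∈ S, (om y : ℂ) * M'.G x y ^ 2 - ∑ y ∈ S, (om y : ℂ) * M.Gf g ω x y ^ 2‖ ≤
        2 * W * (2 * f.C1) * (2 * (2 * r / f.c1) + (2 * r / f.c1) ^ 2) := by
  have hc := hN.c1
  have hr := hs.r0
  set ρ := 2 * r / f.c1 with hρ
  have hρ0 : 0 ≤ ρ := by positivity
  have hC : 0 < f.C1 := hG.C1_pos hI hN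
  have hle : ∀ y ∈ S, om y ≤ 2 * W * wf M g ω y := by
    intro y hy
    have := ho y hy
    unfold wf
    linarith
  have hI1 : ∑ y ∈ S, om y * ‖M.Gf g ω x y‖ ^ 2 ≤ 2 * W * (2 * f.C1) := by
    calc ∑ y ∈ S, om y * ‖M.Gf g ω x y‖ ^ 2
        ≤ ∑ y ∈ S, 2 * W * (wf M g ω y * ‖M.Gf g ω x y‖ ^ 2) := by
          refine Finset.sum_le_sum fun y hy => ?_
          rw [← mul_assoc]
          exact mul_le_mul_of_nonneg_right (hle y hy) (sq_nonneg _)
      _ = 2 * W * ∑ y ∈ S, wf M g ω y * ‖M.Gf g ω x y‖ ^ 2 := by rw [Finset.mul_sum]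
      _ ≤ 2 * W * (2 * f.C1) := by
          refine mul_le_mul_of_nonneg_left ?_ (by positivity)
          refine le_trans (Finset.sum_le_univ_sum_of_nonneg fun y =>
            mul_nonneg (wf0 (u := u) hG hI hN hs y) (sq_nonneg _)) ?_
          exact (dwrow (dissf (u := u) hG hI hN hs) (wf_le (u := u) hG hI hN hs) x).trans
            (gf_io hG hI hN hs hF hx)
  have hn1 : ∑ y ∈ S, om y * ‖M'.G x y - M.Gf g ω x y‖ ^ 2 ≤ 2 * W * (ρ ^ 2 * (2 * f.C1)) := by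
    calc ∑ y ∈ S, om y * ‖M'.G x y - M.Gf g ω x y‖ ^ 2
        ≤ ∑ y ∈ S, 2 * W * (wf M g ω y * ‖M'.G x y - M.Gf g ω x y‖ ^ 2) := by
          refine Finset.sum_le_sum fun y hy => ?_
          rw [← mul_assoc]
          exact mul_le_mul_of_nonneg_right (hle y hy) (sq_nonneg _)
      _ = 2 * W * ∑ y ∈ S, wf M g ω y * ‖M'.G x y - M.Gf g ω x y‖ ^ 2 := by rw [Finset.mul_sum]
      _ ≤ 2 * W * (ρ ^ 2 * (2 * f.C1)) := by
          refine mul_le_mul_of_nonneg_left ?_ (by positivity)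
          refine le_trans (Finset.sum_le_univ_sum_of_nonneg fun y =>
            mul_nonneg (wf0 (u := u) hG hI hN hs y) (sq_nonneg _)) ?_
          exact hn.rf_row hG hI hN hs hF hx
  have hsq : √((2 * W * (2 * f.C1)) * (2 * W * (ρ ^ 2 * (2 * f.C1)))) =
      ρ * (2 * W * (2 * f.C1)) := by
    have h1 : (2 * W * (2 * f.C1)) * (2 * W * (ρ ^ 2 * (2 * f.C1))) =
        (ρ * (2 * W * (2 * f.C1))) ^ 2 := by ring
    rw [h1, Real.sqrt_sq (by positivity)]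
  constructor
  · have h1 := ANI.row_abs (Z := S) (w := om) (g := fun y => M.Gf g ω x y)
      (g' := fun y => M'.G x y) ho0 hI1 hn1
    rw [hsq] at h1
    refine h1.trans (le_of_eq ?_)
    ring
  · have h1 := ANI.row_sq (Z := S) (w := om) (g := fun y => M.Gf g ω x y)
      (g' := fun y => M'.G x y) (c := fun y => (om y : ℂ)) ho0
      (fun y hy => by rw [Complex.norm_real, Real.norm_of_nonneg (ho0 y hy)]) hI1 hn1
    rw [hsq] at h1
    refine h1.trans (le_of_eq ?_)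
    ring

include hn hG hI hN hs hF in
/-- (H3) of the next medium with weights `a2`, `z2` (`M'.eta = -Im M'.b`):
`0 ≤ a' ≤ Wa (-Im bf)`, `|a2 - a'| ≤ ra η'` on `A`; `0 ≤ z' ≤ Wz (-Im bf)`, `z' + gn η' ≤ z2` on the non-read sites;
everything is absorbed by the gain `gn η'` (Ward). -/
theorem near_h3 {K : ℕ} (hK : K ∈ t.Ks) {x : Tor d L} (hx : x ∉ M.U) {a2 z2 : Tor d L → ℝ}
    {Wa Wz ra gn : ℝ} (hWa : 0 ≤ Wa) (hWz : 0 ≤ Wz)
    (ha0 : ∀ y ∈ M.A, 0 ≤ a' K y) (ha1 : ∀ y ∈ M.A, a' K y ≤ Wa * -(M.bf g ω y).im)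
    (ha2 : ∀ y ∈ M.A, |a2 y - a' K y| ≤ ra * M'.eta y)
    (hz0 : ∀ y ∈ M.nr, 0 ≤ z' K y) (hz1 : ∀ y ∈ M.nr, z' K y ≤ Wz * -(M.bf g ω y).im)
    (hz2 : ∀ y ∈ M.nr, z' K y + gn * M'.eta y ≤ z2 y) (hra : 0 ≤ ra)
    (hnum : e3 K + 2 * (Wa + Wz) * (2 * f.C1) * (2 * (2 * r / f.c1) + (2 * r / f.c1) ^ 2) ≤
      (gn - ra) * (f.c1 / 2)) (hgr : ra ≤ gn) :
    ‖∑ y ∈ M'.A, M'.G x y ^ 2 * (a2 y : ℂ)‖ ≤ ∑ y ∈ M'.nr, ‖M'.G x y‖ ^ 2 * z2 y := by
  have hnr : M'.nr = M.nr := by unfold Med.nr; rw [hn.U]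
  rw [hn.A, hnr]
  have hd' := hn.diss' hG hI hN hs
  have hward : (M'.G x x).im = ∑ y ∈ M.nr, M'.eta y * ‖M'.G x y‖ ^ 2 := by
    have h1 : (M'.G x x).im = ∑ y, ‖M'.G x y‖ ^ 2 * -(M'.b y).im := hd'.ward x
    rw [h1]
    symm
    have h2 : ∀ y, ‖M'.G x y‖ ^ 2 * -(M'.b y).im = M'.eta y * ‖M'.G x y‖ ^ 2 := by
      intro y
      unfold Med.eta
      ring
    rw [Finset.sum_congr rfl fun y _ => h2 y]
    refine Finset.sum_subset (Finset.subset_univ _) fun y _ hy => ?_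
    have h3 : y ∈ M.U := by
      by_contra h4
      exact hy (mem_nr.2 h4)
    unfold Med.eta
    rw [hn.bU y h3, hG.im_zero h3]
    ring
  have hio := hn.io_ge' hG hI hN hs hx
  have heta : ∀ y, 0 ≤ M'.eta y := fun y => hd'.nn' y
  -- the left side
  have hL1 : ‖∑ y ∈ M.A, M'.G x y ^ 2 * (a2 y : ℂ)‖ ≤
      ‖∑ y ∈ M.A, (a' K y : ℂ) * M'.G x y ^ 2‖ + ra * (M'.G x x).im := by
    have h1 : ∑ y ∈ M.A, M'.G x y ^ 2 * (a2 y : ℂ) = ∑ y ∈ M.A, (a' K y : ℂ) * M'.G x y ^ 2 +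
        ∑ y ∈ M.A, M'.G x y ^ 2 * ((a2 y - a' K y : ℝ) : ℂ) := by
      rw [← Finset.sum_add_distrib]
      refine Finset.sum_congr rfl fun y _ => ?_
      push_cast
      ring
    rw [h1]
    refine (norm_add_le _ _).trans ?_
    refine add_le_add le_rfl ?_
    refine (norm_sum_le _ _).trans ?_
    calc ∑ y ∈ M.A, ‖M'.G x y ^ 2 * ((a2 y - a' K y : ℝ) : ℂ)‖
        ≤ ∑ y ∈ M.A, ra * (M'.eta y * ‖M'.G x y‖ ^ 2) := by
          refine Finset.sum_le_sum fun y hy => ?_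
          rw [norm_mul, norm_pow, Complex.norm_real, Real.norm_eq_abs]
          have := mul_le_mul_of_nonneg_left (ha2 y hy) (sq_nonneg ‖M'.G x y‖)
          linarith
      _ = ra * ∑ y ∈ M.A, M'.eta y * ‖M'.G x y‖ ^ 2 := by rw [Finset.mul_sum]
      _ ≤ ra * (M'.G x x).im := by
          refine mul_le_mul_of_nonneg_left ?_ hra
          rw [hward]
          exact Finset.sum_le_sum_of_subset_of_nonneg hG.A_sub_nr fun y _ _ =>
            mul_nonneg (heta y) (sq_nonneg _)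
  have hL2 := (hn.rf_obs hG hI hN hs hF hx hWa ha0 ha1).2
  have hL3 : ‖∑ y ∈ M.A, (a' K y : ℂ) * M'.G x y ^ 2‖ ≤
      ‖∑ y ∈ M.A, M.Gf g ω x y ^ 2 * (a' K y : ℂ)‖ +
        2 * Wa * (2 * f.C1) * (2 * (2 * r / f.c1) + (2 * r / f.c1) ^ 2) := by
    have h1 : ∑ y ∈ M.A, M.Gf g ω x y ^ 2 * (a' K y : ℂ) =
        ∑ y ∈ M.A, (a' K y : ℂ) * M.Gf g ω x y ^ 2 :=
      Finset.sum_congr rfl fun y _ => by ring
    rw [h1]
    have h2 := norm_add_le (∑ y ∈ M.A, (a' K y : ℂ) * M.Gf g ω x y ^ 2)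
      (∑ y ∈ M.A, (a' K y : ℂ) * M'.G x y ^ 2 - ∑ y ∈ M.A, (a' K y : ℂ) * M.Gf g ω x y ^ 2)
    rw [add_sub_cancel] at h2
    linarith
  have hM := hF.h3 K hK x hx
  -- the right side
  have hR1 := (hn.rf_obs hG hI hN hs hF hx hWz hz0 hz1).1
  have hR2 : ∑ y ∈ M.nr, ‖M.Gf g ω x y‖ ^ 2 * z' K y ≤ ∑ y ∈ M.nr, z' K y * ‖M'.G x y‖ ^ 2 +
        2 * Wz * (2 * f.C1) * (2 * (2 * r / f.c1) + (2 * r / f.c1) ^ 2) := by
    have h1 : ∑ y ∈ M.nr, ‖M.Gf g ω x y‖ ^ 2 * z' K y =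
        ∑ y ∈ M.nr, z' K y * ‖M.Gf g ω x y‖ ^ 2 :=
      Finset.sum_congr rfl fun y _ => by ring
    rw [h1]
    have h2 := (abs_le.1 hR1).1
    linarith
  have hR3 : ∑ y ∈ M.nr, z' K y * ‖M'.G x y‖ ^ 2 + gn * (M'.G x x).im ≤
      ∑ y ∈ M.nr, ‖M'.G x y‖ ^ 2 * z2 y := by
    rw [hward, Finset.mul_sum, ← Finset.sum_add_distrib]
    refine Finset.sum_le_sum fun y hy => ?_
    have := mul_le_mul_of_nonneg_right (hz2 y hy) (sq_nonneg ‖M'.G x y‖)
    linarith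
  have hfin : (gn - ra) * (f.c1 / 2) ≤ (gn - ra) * (M'.G x x).im :=
    mul_le_mul_of_nonneg_left hio (by linarith)
  linarith

end frz

/-! ### status fields -/

include hn hG hI hN hs in
/-- STATUS FIELDS of the next medium, relabelled: `M'.rel W` (`W = ∅`: `M'`) -/
theorem status {t' : Tol d L} (hk' : k' ≤ t'.k) (hkl' : t'.kl ≤ kl') (he : t'.eta = t.eta)
    (hst : t'.st ≤ t.st) (h1 : t.eta + k' * (2 * f.C1) ≤ 1) :
    Disjoint (M'.rel W).A (M'.rel W).U ∧ Disjoint (M'.rel W).A (M'.rel W).I ∧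
    Disjoint (M'.rel W).U (M'.rel W).I ∧
    IsUnit (H0T d L + diagonal (M'.rel W).b).det ∧
    (∀ x, x ∉ (M'.rel W).A → (M'.rel W).k x = 0) ∧
    (∀ x ∈ (M'.rel W).A, t'.kl ≤ (M'.rel W).k x) ∧
    (∀ x ∈ (M'.rel W).A, (M'.rel W).k x ≤ t'.k) ∧
    (∀ x ∈ (M'.rel W).U, (M'.rel W).eta x = 0) ∧
    (∀ x ∈ (M'.rel W).A, (M'.rel W).eta x =
      t'.eta + (M'.rel W).k x * (rsc (H0T d L) (M'.rel W).b x x).im) ∧
    (∀ x ∈ (M'.rel W).I, (M'.rel W).eta x = t'.eta) ∧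
    (∀ x, x ∉ (M'.rel W).A → x ∉ (M'.rel W).U → x ∉ (M'.rel W).I →
      t'.eta + t'.st ≤ (M'.rel W).eta x) ∧
    (∀ x, x ∉ (M'.rel W).U → (M'.rel W).eta x ≤ 1) := by
  simp only [rel_A, rel_U, rel_I, rel_k, rel_b, rel_eta]
  have hWA : W ⊆ M.A := fun x hx => (hs.kW x hx).1
  refine ⟨?_, ?_, ?_, hn.unit, ?_, ?_, ?_, ?_, ?_, ?_, ?_, ?_⟩
  · rw [hn.A, hn.U]
    exact Finset.disjoint_of_subset_left Finset.sdiff_subset hG.AU
  · rw [hn.A, hn.I, Finset.disjoint_union_right]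
    exact ⟨Finset.disjoint_of_subset_left Finset.sdiff_subset hG.AI, Finset.sdiff_disjoint⟩
  · rw [hn.U, hn.I, Finset.disjoint_union_right]
    exact ⟨hG.UI, (Finset.disjoint_of_subset_left hWA hG.AU).symm⟩
  · intro x hx
    rw [hn.A] at hx
    rw [hn.k x]
    by_cases hW : x ∈ W
    · exact (hs.kW x hW).2
    · exact hs.kf0 hG fun hA => hx (Finset.mem_sdiff.2 ⟨hA, hW⟩)
  · intro x hx
    rw [hn.A] at hx
    rw [hn.k x]
    exact hkl'.trans (hs.klo x (Finset.mem_sdiff.1 hx).1 (Finset.mem_sdiff.1 hx).2)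
  · intro x hx
    rw [hn.A] at hx
    rw [hn.k x]
    exact (hs.khi x (Finset.mem_sdiff.1 hx).1).trans hk'
  · intro x hx
    rw [hn.U] at hx
    have := hG.eU x hx
    unfold Med.eta at this ⊢
    rw [hn.bU x hx]
    exact this
  · intro x hx
    rw [hn.A] at hx
    unfold Med.eta
    rw [hn.b_im hG hs (Finset.mem_sdiff.1 hx).1, he, hn.k x]
    rfl
  · intro x hx
    rw [hn.I, Finset.mem_union] at hx
    rcases hx with hx | hx
    · have hA : x ∉ M.A := fun h => Finset.disjoint_left.1 hG.AI h hx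
      have := hG.eI x hx
      unfold Med.eta at this ⊢
      rw [hn.b_off hG hs hA, he]
      exact this
    · unfold Med.eta
      rw [hn.b_im hG hs (hs.kW x hx).1, (hs.kW x hx).2, he]
      ring
  · intro x hxA hxU hxI
    rw [hn.A] at hxA
    rw [hn.U] at hxU
    rw [hn.I, Finset.mem_union, not_or] at hxI
    have hxA' : x ∉ M.A := fun h => hxA (Finset.mem_sdiff.2 ⟨h, hxI.2⟩)
    have := hG.eS x hxA' hxU hxI.1
    unfold Med.eta at this ⊢
    rw [hn.b_off hG hs hxA', he]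
    linarith
  · intro x hxU
    rw [hn.U] at hxU
    by_cases hA : x ∈ M.A
    · unfold Med.eta
      rw [hn.b_im hG hs hA]
      have h2 := hn.io_le' hG hI hN hs hxU
      have h3 := hs.khi x hA
      have h4 := (hn.pos x hxU).le
      have h5 : 0 ≤ k' := (hs.kf_nn hG x).trans h3
      have h6 := mul_le_mul h3 h2 h4 h5
      linarith
    · have := hG.eS1 x hxU
      unfold Med.eta at this ⊢
      rw [hn.b_off hG hs hA]
      exact this

end Nxt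

end Pool.Agent.AND
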