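import Pool.Agent.AND.Level
import Pool.Agent.ANS.TopNear

/-! # ANS StepZ: the next medium in `tolAt` form, near rows (owner helper1)

`t = tolAt P Sf n F π v M`, `tm = tolAt P Sf n F π' v' M` (new classes, OLD medium; `tm.a`, `tm.z` are the weights `a'`, `z'` of `Frz`),
`t' = tolAt P Sf n (F.add P n s {c}) π' v' M'`.

* `z_gain` : `tm.z K y + s_K Cz gg ph_y η'_y ≤ t'.z K y` for all non-read `y`;
* `row_h1`, `row_h2`, `row_h3`, `row_h5` : the near rows;
* `m_rel` : `|η'ι' - (η_f ι)| ≤ (3 ze / c1) ph (η_f ι)`. -/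

open Matrix Finset

noncomputable section

namespace Pool.Agent.AND

open Pool.Agent.Kin Pool.Agent.APS Pool.Agent.ANM

set_option linter.unusedSectionVars false

variable {d L : ℕ} [NeZero L] {X D : Type} [Fintype D]

section fld

variable {P : Par} {n s : ℕ} {F : Fld (Tor d L)} {c : Tor d L}

theorem add_err (x : Tor d L) : (F.add P n s {c}).err x =
    F.err x + ph (P.kap n) P.v P.b s x c := by
  simp [Fld.add]

theorem add_et (x : Tor d L) : (F.add P n s {c}).et x =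
    F.et x + ph (P.kap n) P.vt P.b s x c := by
  simp [Fld.add]

theorem add_be (x : Tor d L) : (F.add P n s {c}).be x =
    F.be x + (P.kap n) ^ (-P.vp) * ph (P.kap n) P.v P.b s x c := by
  simp [Fld.add]

theorem add_ae (x : Tor d L) : (F.add P n s {c}).ae x =
    F.ae x + (P.eta + P.kap n)⁻¹ * ph (P.kap n) P.v P.b s x c := by
  simp [Fld.add]

theorem add_g5 (x y : Tor d L) : (F.add P n s {c}).g5 x y =
    F.g5 x y + ph5 (P.kap n) P.v P.b P.Cg s x y c := by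
  simp [Fld.add]

end fld

/-- the new class weights of (H3) -/
def phc (Sf : SiteF X) (π' : Prof (Tor d L)) (v' : Tor d L → X) (K : ℕ) (y : Tor d L) : ℝ :=
  Sf.phi K (π'.lev y) (v' y)

/-- the new class weights `om` -/
def omc (Sf : SiteF X) (π' : Prof (Tor d L)) (v' : Tor d L → X) (y : Tor d L) : ℝ :=
  Sf.om (π'.lev y) (v' y)

/-- hypotheses on the weights of (H3): `gg` = gain per unit, `ze` = relative size of the change of the diagonal -/
structure SiteIn (f : Fix) (P : Par) (Sf : SiteF X) (n : ℕ) (F : Fld (Tor d L))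
    (π' : Prof (Tor d L)) (v' : Tor d L → X) (M : Med (Tor d L)) (g : ANS.Dig (Tor d L) D)
    (ω : Tor d L → D) (ze gg : ℝ) (Wa Wz : ℕ → ℝ) : Prop where
  ka : 0 < P.kap n
  ka' : 0 < P.kap (n + 1)
  eta : 0 ≤ P.eta
  Cz : 0 ≤ P.Cz
  s0 : ∀ K ∈ Sf.Ks n, 0 ≤ Sf.s K
  ze0 : 0 ≤ ze
  gg0 : 0 ≤ gg
  phi0 : ∀ K ∈ Sf.Ks n, ∀ y, 0 ≤ phc Sf π' v' K y
  om0 : ∀ y, 0 ≤ omc Sf π' v' y
  be0 : ∀ y, 0 ≤ F.be y
  stat : ∀ K ∈ Sf.Ks n, ∀ y, y ∉ M.A → y ∉ M.U →
    phc Sf π' v' K y * ze ≤ 1 / 4 * (Sf.s K * P.Cz) * (M.eta y / P.kap (n + 1))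
  be : ∀ y, y ∉ M.U → F.be y * ze ≤ 1 / 4 * P.kap n ^ (-P.vp) * f.c1
  act : ∀ y ∈ M.A, gg * M.kf g ω y ≤ 1 / 2 * P.kap n ^ (-P.vp) * omc Sf π' v' y
  gg1 : gg ≤ 3 / 4 / P.kap (n + 1)
  Wa0 : ∀ K ∈ Sf.Ks n, 0 ≤ Wa K
  Wz0 : ∀ K ∈ Sf.Ks n, 0 ≤ Wz K
  Wa : ∀ K ∈ Sf.Ks n, ∀ y ∈ M.A, phc Sf π' v' K y ≤ Wa K * M.kf g ω y
  Wz : ∀ K ∈ Sf.Ks n, ∀ y, y ∉ M.U → (tolAt P Sf n F π' v' M).z K y ≤ Wz K * -(M.bf g ω y).im
  z0 : ∀ K ∈ Sf.Ks n, ∀ y, y ∉ M.U → 0 ≤ (tolAt P Sf n F π' v' M).z K y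

variable {f : Fix} {P : Par} {Sf : SiteF X} {n s : ℕ} {F : Fld (Tor d L)}
  {π π' : Prof (Tor d L)} {v v' : Tor d L → X} {M M' : Med (Tor d L)} {u : UTol}
  {g : ANS.Dig (Tor d L) D} {ω : Tor d L → D} {c : Tor d L} {r al kl' k' ze gg : ℝ}
  {Wa Wz : ℕ → ℝ} {W : Finset (Tor d L)}

section z

variable (hn : Nxt M M' g ω r) (hG : Good f (tolAt P Sf n F π v M) M)
  (hI : (tolAt P Sf n F π v M).In f M u) (hN : Num f (tolAt P Sf n F π v M) u)
  (hs : StepH f (tolAt P Sf n F π v M) M g ω W r al kl' k')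
  (hS : SiteIn f P Sf n F π' v' M g ω ze gg Wa Wz)
  (hd : ∀ x, x ∉ M.U → ‖M'.G x x - M.G x x‖ ≤ ze * ph (P.kap n) P.v P.b s x c)

include hd in
theorem io_dif {x : Tor d L} (hx : x ∉ M.U) :
    |(M'.G x x).im - (M.G x x).im| ≤ ze * ph (P.kap n) P.v P.b s x c := by
  have h1 := (Complex.abs_im_le_norm (M'.G x x - M.G x x)).trans (hd x hx)
  rwa [Complex.sub_im] at h1

include hn hG hI hN hs hS hd in
/-- THE GAIN of the weights `z` -/
theorem z_gain {K : ℕ} (hK : K ∈ Sf.Ks n) {y : Tor d L} (hy : y ∉ M.U) :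
    (tolAt P Sf n F π' v' M).z K y +
      Sf.s K * P.Cz * gg * ph (P.kap n) P.v P.b s y c * M'.eta y ≤
      (tolAt P Sf n (F.add P n s {c}) π' v' M').z K y := by
  have hka := hS.ka
  have hka' := hS.ka'
  have hp : 0 ≤ ph (P.kap n) P.v P.b s y c := ph_nonneg hka s y c
  set p := ph (P.kap n) P.v P.b s y c with hpd
  have hC : 0 ≤ Sf.s K * P.Cz := mul_nonneg (hS.s0 K hK) hS.Cz
  set C := Sf.s K * P.Cz with hCd
  have hio := abs_le.1 (io_dif hd hy)
  rw [← hpd] at hio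
  set i := (M.G y y).im with hi
  set i' := (M'.G y y).im with hi'
  have hi0 : 0 ≤ i' := (hn.pos y hy).le
  have hih : f.c1 / 2 ≤ i' := hn.io_ge' hG hI hN hs hy
  have hom := hS.om0 y
  set o := omc Sf π' v' y with ho
  have hphi := hS.phi0 K hK y
  set φ := phc Sf π' v' K y with hφ
  have hvp : 0 < P.kap n ^ (-P.vp) := Real.rpow_pos_of_pos hka _
  set w := P.kap n ^ (-P.vp) with hw
  -- the `be` part
  have hbe : F.be y * (o * i) + 1 / 2 * w * p * (o * i') ≤ (F.be y + w * p) * (o * i') := by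
    have h1 := hS.be y hy
    have h2 : F.be y * (i - i') ≤ F.be y * (ze * p) :=
      mul_le_mul_of_nonneg_left (by linarith [hio.1]) (hS.be0 y)
    have h3 : F.be y * (ze * p) ≤ 1 / 2 * w * i' * p := by
      have h4 := mul_le_mul_of_nonneg_right h1 hp
      have h5 : 1 / 4 * w * f.c1 * p ≤ 1 / 2 * w * i' * p := by
        refine mul_le_mul_of_nonneg_right ?_ hp
        have := mul_le_mul_of_nonneg_left hih hvp.le
        linarith
      calc F.be y * (ze * p) = F.be y * ze * p := by ring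
        _ ≤ 1 / 4 * w * f.c1 * p := h4
        _ ≤ _ := h5
    have h6 := mul_le_mul_of_nonneg_left (h2.trans h3) hom
    nlinarith
  show (if y ∈ M.A then (0 : ℝ) else φ * i) + C * (F.err y *
      ((if y ∈ M.A then P.eta else M.eta y) / P.kap (n + 1)) + F.be y * (o * i)) +
      C * gg * p * M'.eta y ≤
    (if y ∈ M'.A then (0 : ℝ) else φ * i') + C * ((F.add P n s {c}).err y *
      ((if y ∈ M'.A then P.eta else M'.eta y) / P.kap (n + 1)) +
        (F.add P n s {c}).be y * (o * i'))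
  rw [add_err, add_be, ← hpd, ← hw, hn.A]
  by_cases hA : y ∈ M.A
  · rw [if_pos hA, if_pos hA, if_pos hA, if_pos hA]
    have he := hn.b_im hG hs hA
    have he' : M'.eta y = P.eta + M.kf g ω y * i' := he
    rw [he']
    have h1 : gg * P.eta ≤ P.eta / P.kap (n + 1) := by
      have h2 := mul_le_mul_of_nonneg_right hS.gg1 hS.eta
      have h3 : 3 / 4 / P.kap (n + 1) * P.eta = 3 / 4 * (P.eta / P.kap (n + 1)) := by ring
      have h4 : 0 ≤ P.eta / P.kap (n + 1) := div_nonneg hS.eta hka'.le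
      linarith
    have h2 : gg * (M.kf g ω y * i') ≤ 1 / 2 * w * (o * i') := by
      have h3 := mul_le_mul_of_nonneg_right (hS.act y hA) hi0
      calc gg * (M.kf g ω y * i') = gg * M.kf g ω y * i' := by ring
        _ ≤ 1 / 2 * w * o * i' := h3
        _ = _ := by ring
    have h3 : gg * p * (P.eta + M.kf g ω y * i') ≤
        p * (P.eta / P.kap (n + 1)) + 1 / 2 * w * p * (o * i') := by
      have h4 := mul_le_mul_of_nonneg_left (add_le_add h1 h2) hp
      nlinarith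
    have h5 : F.err y * (P.eta / P.kap (n + 1)) + F.be y * (o * i) +
        gg * p * (P.eta + M.kf g ω y * i') ≤
        (F.err y + p) * (P.eta / P.kap (n + 1)) + (F.be y + w * p) * (o * i') := by
      nlinarith
    have h6 := mul_le_mul_of_nonneg_left h5 hC
    nlinarith
  · rw [if_neg hA, if_neg hA, if_neg hA, if_neg hA]
    have hee : M'.eta y = M.eta y := by
      unfold Med.eta
      rw [hn.b_off hG hs hA]
    rw [hee]
    have he0 : 0 ≤ M.eta y := hG.eta_nonneg hI hN y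
    have h1 := hS.stat K hK y hA hy
    have h2 : φ * (i - i') ≤ 1 / 4 * C * (M.eta y / P.kap (n + 1)) * p := by
      have h3 : φ * (i - i') ≤ φ * (ze * p) :=
        mul_le_mul_of_nonneg_left (by linarith [hio.1]) hphi
      have h4 := mul_le_mul_of_nonneg_right h1 hp
      calc φ * (i - i') ≤ φ * (ze * p) := h3
        _ = φ * ze * p := by ring
        _ ≤ _ := h4
    have h3 : gg * M.eta y ≤ 3 / 4 * (M.eta y / P.kap (n + 1)) := by
      have h4 := mul_le_mul_of_nonneg_right hS.gg1 he0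
      have h5 : 3 / 4 / P.kap (n + 1) * M.eta y = 3 / 4 * (M.eta y / P.kap (n + 1)) := by ring
      linarith
    have h4 : C * (gg * M.eta y) * p ≤ C * (3 / 4 * (M.eta y / P.kap (n + 1))) * p :=
      mul_le_mul_of_nonneg_right (mul_le_mul_of_nonneg_left h3 hC) hp
    have h5 : 0 ≤ C * (1 / 2 * w * p * (o * i')) := by positivity
    have h6 := mul_le_mul_of_nonneg_left hbe hC
    nlinarith

include hn hG hI hN hs in
/-- absorption of the next medium at the active sites -/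
theorem eta'_A {y : Tor d L} (hy : y ∈ M.A) :
    M'.eta y = P.eta + M.kf g ω y * (M'.G y y).im := hn.b_im hG hs hy

include hn hG hI hN hs in
theorem kf_le_eta' {y : Tor d L} (hy : y ∈ M.A) :
    M.kf g ω y * (f.c1 / 2) ≤ M'.eta y := by
  rw [eta'_A hn hG hI hN hs hy]
  have h1 := hn.io_ge' hG hI hN hs (hG.nU_of_A hy)
  have h2 := mul_le_mul_of_nonneg_left h1 (hs.kf_nn hG y)
  have h3 : 0 < P.eta := hN.eta
  linarith

include hG hd in
/-- (H1), all rows -/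
theorem row_h1 (hze : ze ≤ 1) (hka : 0 < P.kap n) {x : Tor d L} (hx : x ∉ M.U) :
    ‖rsc (H0T d L) M'.b x x - f.g0‖ ≤ (tolAt P Sf n (F.add P n s {c}) π' v' M').del x := by
  have h1 : ‖M.G x x - f.g0‖ ≤ P.del0 + F.err x := hG.h1 x hx
  have h2 := hd x hx
  have h3 : M'.G x x - f.g0 = (M'.G x x - M.G x x) + (M.G x x - f.g0) := by ring
  show ‖M'.G x x - f.g0‖ ≤ P.del0 + (F.add P n s {c}).err x
  rw [h3, add_err]
  have hp := ph_nonneg hka s x c (v := P.v) (b := P.b)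
  have h4 : ze * ph (P.kap n) P.v P.b s x c ≤ ph (P.kap n) P.v P.b s x c := by nlinarith
  refine (norm_add_le _ _).trans ?_
  linarith

include hn hG hI hN hs hd in
/-- the change of `m` relative to the classical value `η_f ι` -/
theorem m_rel (hze : ze ≤ f.c1 / 2) (hka : 0 < P.kap n)
    {x : Tor d L} (hx : x ∉ M.U)
    (hp1 : ph (P.kap n) P.v P.b s x c ≤ 1) :
    |M'.eta x * (M'.G x x).im - -(M.bf g ω x).im * (M.G x x).im| ≤
      3 * ze / f.c1 * ph (P.kap n) P.v P.b s x c * (-(M.bf g ω x).im * (M.G x x).im) := by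
  have hc := hN.c1
  have hp := ph_nonneg hka s x c (v := P.v) (b := P.b)
  set p := ph (P.kap n) P.v P.b s x c with hpd
  have hio := io_dif hd hx
  rw [← hpd] at hio
  have hig := hG.io_ge hI hN hx
  set i := (M.G x x).im with hi
  set i' := (M'.G x x).im with hi'
  have hig' : f.c1 ≤ i := hig
  have hi0 : 0 < i := lt_of_lt_of_le hc hig'
  have hi0' : 0 < i' := hn.pos x hx
  have hze0 : 0 ≤ ze * p := (abs_nonneg _).trans hio
  have hii : i' ≤ 2 * i := by
    have h1 := (abs_le.1 hio).2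
    have h2 : ze * p ≤ f.c1 / 2 := by
      by_cases hz : 0 ≤ ze
      · calc ze * p ≤ ze * 1 := mul_le_mul_of_nonneg_left hp1 hz
          _ ≤ _ := by linarith
      · have : ze * p ≤ 0 := mul_nonpos_of_nonpos_of_nonneg (not_le.1 hz).le hp
        linarith
    linarith
  have hrel : |i' - i| ≤ ze * p / f.c1 * i := by
    refine hio.trans ?_
    rw [div_mul_eq_mul_div, le_div_iff₀ hc]
    exact mul_le_mul_of_nonneg_left hig' hze0
  by_cases hA : x ∈ M.A
  · have he' : M'.eta x = P.eta + M.kf g ω x * i' := hn.b_im hG hs hA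
    have he : -(M.bf g ω x).im = P.eta + M.kf g ω x * i := hs.bf_im hG hA
    rw [he', he]
    have hk := hs.kf_nn hG x
    have heta : 0 < P.eta := hN.eta
    have e1 : (P.eta + M.kf g ω x * i') * i' - (P.eta + M.kf g ω x * i) * i =
        (i' - i) * (P.eta + M.kf g ω x * (i' + i)) := by ring
    rw [e1, abs_mul, abs_of_nonneg (a := P.eta + M.kf g ω x * (i' + i)) (by positivity)]
    have h1 : P.eta + M.kf g ω x * (i' + i) ≤ 3 * (P.eta + M.kf g ω x * i) := by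
      have := mul_le_mul_of_nonneg_left hii hk
      nlinarith
    calc |i' - i| * (P.eta + M.kf g ω x * (i' + i))
        ≤ (ze * p / f.c1 * i) * (3 * (P.eta + M.kf g ω x * i)) :=
          mul_le_mul hrel h1 (by positivity) (by positivity)
      _ = _ := by ring
  · have he' : M'.eta x = M.eta x := by
      unfold Med.eta
      rw [hn.b_off hG hs hA]
    have he : -(M.bf g ω x).im = M.eta x := by
      rw [hs.bf_off hA]
      rfl
    rw [he', he]
    have he0 : 0 ≤ M.eta x := hG.eta_nonneg hI hN x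
    rw [← mul_sub, abs_mul, abs_of_nonneg he0]
    calc M.eta x * |i' - i| ≤ M.eta x * (ze * p / f.c1 * i) := mul_le_mul_of_nonneg_left hrel he0
      _ ≤ 3 * (M.eta x * (ze * p / f.c1 * i)) := by
          have : 0 ≤ M.eta x * (ze * p / f.c1 * i) := by positivity
          linarith
      _ = _ := by ring

end z

section near

variable (hn : Nxt M M' g ω r) (hG : Good f (tolAt P Sf n F π v M) M)
  (hI : (tolAt P Sf n F π v M).In f M u) (hN : Num f (tolAt P Sf n F π v M) u)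
  (hs : StepH f (tolAt P Sf n F π v M) M g ω W r al kl' k')
  {e3 : ℕ → ℝ} {B : Finset (Tor d L)} {tt de : ℝ}
  (hF : Frz (tolAt P Sf n F π v M) M g (tolAt P Sf n F π' v' M).a (tolAt P Sf n F π' v' M).z
    e3 B al tt de W ω)

include hn hG hI hN hs hF in
/-- (H2), near rows -/
theorem row_h2 {x : Tor d L} (hx : x ∉ M.U) (hxc : ANP.dT x c ≤ 2 * s) {σ tl : ℝ} (hσ : 0 < σ)
    (hσ1 : σ ≤ 1) (hσ2 : 28 * σ ≤ P.kap n ^ P.vt) (het : F.et x ≤ 1) (het0 : 0 ≤ F.et x)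
    (hka : 0 < P.kap n) (htt : 0 ≤ tt)
    (hnum : 8 * tt + (1 + 1 / σ) ^ 3 * (16 * (2 * r / f.c1) ^ 4 * f.C1 ^ 3 / (kl' * f.c1)) + tl ≤
      1 / 2 * P.kap n ^ P.vt * P.kap n ^ (-(7 / 8) : ℝ))
    (htl : ∑ w ∈ (M.A \ W) \ B, ‖M'.G x w‖ ^ 4 ≤ tl) :
    ∑ w ∈ (M'.rel W).A, ‖rsc (H0T d L) M'.b x w‖ ^ 4 ≤
      (tolAt P Sf n (F.add P n s {c}) π' v' M').tau x := by
  have h1 := hn.near_tau hG hI hN hs hF hx hσ htl
  refine le_trans h1 ?_
  show (1 + σ) ^ 3 * (P.kap n ^ (-(7 / 8) : ℝ) * (1 + F.et x) + tt) +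
      (1 + 1 / σ) ^ 3 * (16 * (2 * r / f.c1) ^ 4 * f.C1 ^ 3 / (kl' * f.c1)) + tl ≤
    P.kap n ^ (-(7 / 8) : ℝ) * (1 + (F.add P n s {c}).et x)
  rw [add_et]
  have hp : ph (P.kap n) P.vt P.b s x c = P.kap n ^ P.vt := if_pos hxc
  rw [hp]
  have hτ : 0 < P.kap n ^ (-(7 / 8) : ℝ) := Real.rpow_pos_of_pos hka _
  set τ := P.kap n ^ (-(7 / 8) : ℝ) with hτd
  have h2 : (1 + σ) ^ 3 ≤ 1 + 7 * σ := by
    have : σ ^ 2 ≤ σ := by nlinarith
    have : σ ^ 3 ≤ σ := by
      have h3 : σ ^ 3 = σ * σ ^ 2 := by ring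
      rw [h3]
      have h4 : σ ^ 2 ≤ 1 := by nlinarith
      nlinarith
    nlinarith
  have h3 : (1 + σ) ^ 3 ≤ 8 := by linarith
  have h4 : (1 + σ) ^ 3 * (τ * (1 + F.et x)) ≤ (1 + 7 * σ) * (τ * (1 + F.et x)) :=
    mul_le_mul_of_nonneg_right h2 (by positivity)
  have h5 : (1 + σ) ^ 3 * tt ≤ 8 * tt := mul_le_mul_of_nonneg_right h3 htt
  have h6 : 7 * σ * (τ * (1 + F.et x)) ≤ 1 / 2 * P.kap n ^ P.vt * τ := by
    have h7 : 7 * σ * (1 + F.et x) ≤ 1 / 2 * P.kap n ^ P.vt := by nlinarith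
    have := mul_le_mul_of_nonneg_right h7 hτ.le
    linarith
  nlinarith

include hn hG hI hN hs hF in
/-- (H5), pairs with one site near the cell -/
theorem row_h5 {x y : Tor d L} (hx : x ∉ M.U) (hy : y ∉ M.U)
    (hxy : ANP.dT x c ≤ 2 * s ∨ ANP.dT y c ≤ 2 * s) (hg5 : 0 ≤ F.g5 x y)
    (h1 : al + (2 * r / f.c1) * (2 * f.C1) ≤ P.kap n ^ P.v)
    (hdec : ‖M'.G x y‖ ≤ pf (P.kap n) P.b P.Cg * Real.exp (-(P.b * P.kap n * ANP.dT x y))) :
    ‖rsc (H0T d L) M'.b x y‖ ≤ (tolAt P Sf n (F.add P n s {c}) π' v' M').g5 x y := by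
  have h2 := hn.near_h5 hG hI hN hs hF hx hy hg5 hdec
  refine le_trans h2 ?_
  show F.g5 x y + _ ≤ (F.add P n s {c}).g5 x y
  rw [add_g5]
  have h3 : ph5 (P.kap n) P.v P.b P.Cg s x y c = min (P.kap n ^ P.v)
      (pf (P.kap n) P.b P.Cg * Real.exp (-(P.b * P.kap n * ANP.dT x y))) := if_pos hxy
  rw [h3]
  exact add_le_add le_rfl (min_le_min h1 le_rfl)

variable (hS : SiteIn f P Sf n F π' v' M g ω ze gg Wa Wz)
  (hd : ∀ x, x ∉ M.U → ‖M'.G x x - M.G x x‖ ≤ ze * ph (P.kap n) P.v P.b s x c)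

include hn hG hI hN hs hF hS hd in
/-- (H3), near rows -/
theorem row_h3 {K : ℕ} (hK : K ∈ Sf.Ks n) {x : Tor d L} (hx : x ∉ M.U)
    (htl : ∑ y ∈ M.nr.filter (fun y => ¬ ANP.dT y c ≤ 2 * s), M'.eta y * ‖M'.G x y‖ ^ 2 ≤
      f.c1 / 4)
    (hnum : e3 K + 2 * (Wa K + Wz K) * (2 * f.C1) * (2 * (2 * r / f.c1) + (2 * r / f.c1) ^ 2) ≤
      (Sf.s K * P.Cz * gg * P.kap n ^ P.v / 2 - 2 * Wa K * r / f.c1) * (f.c1 / 2))
    (hgr : 2 * Wa K * r / f.c1 ≤ Sf.s K * P.Cz * gg * P.kap n ^ P.v / 2) :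
    ‖∑ y ∈ M'.A, rsc (H0T d L) M'.b x y ^ 2 *
        ((tolAt P Sf n (F.add P n s {c}) π' v' M').a K y : ℂ)‖ ≤
      ∑ y ∈ M'.nr, ‖rsc (H0T d L) M'.b x y‖ ^ 2 *
        (tolAt P Sf n (F.add P n s {c}) π' v' M').z K y := by
  have hc := hN.c1
  have hka := hS.ka
  have hnr : M'.nr = M.nr := by unfold Med.nr; rw [hn.U]
  have heta' : ∀ y, 0 ≤ M'.eta y := fun y => (hn.diss' hG hI hN hs).nn' y
  have hkv : 0 < P.kap n ^ P.v := Real.rpow_pos_of_pos hka _
  have hC : 0 ≤ Sf.s K * P.Cz := mul_nonneg (hS.s0 K hK) hS.Cz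
  set G2 := Sf.s K * P.Cz * gg * P.kap n ^ P.v / 2 with hG2
  have hG20 : 0 ≤ G2 := by
    have := hS.gg0
    positivity
  have hr0 := hs.r0
  have hnU : ∀ y ∈ M.A, y ∉ M.U := fun y hy => hG.nU_of_A hy
  have hgp : ∀ y, y ∉ M.U → 0 < (M.G y y).im := fun y hy =>
    lt_of_lt_of_le hc (hG.io_ge hI hN hy)
  set t1 := tolAt P Sf n (F.add P n s {c}) π' v' M' with ht1
  set tm := tolAt P Sf n F π' v' M with htm
  -- the modified weight
  have key := hn.near_h3 hG hI hN hs hF (K := K) hK hx (a2 := t1.a K)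
    (z2 := fun y => t1.z K y + (if ANP.dT y c ≤ 2 * s then -(G2 * M'.eta y) else G2 * M'.eta y))
    (Wa := Wa K) (Wz := Wz K) (ra := 2 * Wa K * r / f.c1) (gn := G2) (hS.Wa0 K hK) (hS.Wz0 K hK)
    (fun y hy => ?_) (fun y hy => ?_) (fun y hy => ?_) (fun y hy => ?_) (fun y hy => ?_)
    (fun y hy => ?_) ?_ hnum hgr
  · refine key.trans ?_
    rw [hnr]
    have e1 : ∑ y ∈ M.nr, ‖M'.G x y‖ ^ 2 * (t1.z K y +
          (if ANP.dT y c ≤ 2 * s then -(G2 * M'.eta y) else G2 * M'.eta y)) =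
        ∑ y ∈ M.nr, ‖M'.G x y‖ ^ 2 * t1.z K y - G2 * ∑ y ∈ M.nr, M'.eta y * ‖M'.G x y‖ ^ 2 +
        2 * G2 * ∑ y ∈ M.nr.filter (fun y => ¬ ANP.dT y c ≤ 2 * s),
          M'.eta y * ‖M'.G x y‖ ^ 2 := by
      rw [Finset.sum_filter, Finset.mul_sum, Finset.mul_sum, ← Finset.sum_sub_distrib,
        ← Finset.sum_add_distrib]
      refine Finset.sum_congr rfl fun y _ => ?_
      by_cases hy : ANP.dT y c ≤ 2 * s
      · simp only [hy, if_true, not_true, if_false]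
        ring
      · simp only [hy, if_false, not_false_eq_true, if_true]
        ring
    rw [e1]
    have hward : (M'.G x x).im = ∑ y ∈ M.nr, M'.eta y * ‖M'.G x y‖ ^ 2 := by
      have h1 : (M'.G x x).im = ∑ y, ‖M'.G x y‖ ^ 2 * -(M'.b y).im :=
        (hn.diss' hG hI hN hs).ward x
      rw [h1]
      symm
      have h2 : ∀ y, ‖M'.G x y‖ ^ 2 * -(M'.b y).im = M'.eta y * ‖M'.G x y‖ ^ 2 := by
        intro y
        unfold Med.eta
        ring
      rw [Finset.sum_congr rfl fun y _ => h2 y]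
      refine Finset.sum_subset (Finset.subset_univ _) fun y _ hy => ?_
      have h3 : y ∈ M.U := by
        by_contra h4
        exact hy (mem_nr.2 h4)
      unfold Med.eta
      rw [hn.bU y h3, hG.im_zero h3]
      ring
    have h5 := hn.io_ge' hG hI hN hs hx
    rw [hward] at h5
    have h6 : 2 * G2 * ∑ y ∈ M.nr.filter (fun y => ¬ ANP.dT y c ≤ 2 * s),
        M'.eta y * ‖M'.G x y‖ ^ 2 ≤ 2 * G2 * (f.c1 / 4) :=
      mul_le_mul_of_nonneg_left htl (by positivity)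
    have h7 := mul_le_mul_of_nonneg_left h5 hG20
    show _ ≤ ∑ y ∈ M.nr, ‖M'.G x y‖ ^ 2 * t1.z K y
    linarith
  · -- 0 ≤ a'
    show 0 ≤ if y ∈ M.A then phc Sf π' v' K y * (M.G y y).im else 0
    rw [if_pos hy]
    exact mul_nonneg (hS.phi0 K hK y) (hgp y (hnU y hy)).le
  · -- a' ≤ Wa (-Im bf)
    show (if y ∈ M.A then phc Sf π' v' K y * (M.G y y).im else 0) ≤ _
    rw [if_pos hy, hs.bf_im hG hy]
    have h1 := mul_le_mul_of_nonneg_right (hS.Wa K hK y hy) (hgp y (hnU y hy)).le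
    have h2 := mul_nonneg (hS.Wa0 K hK) hS.eta
    have h3 : (tolAt P Sf n F π v M).eta = P.eta := rfl
    rw [h3]
    nlinarith
  · -- |a2 - a'| ≤ ra η'
    show |(if y ∈ M'.A then phc Sf π' v' K y * (M'.G y y).im else 0) -
      (if y ∈ M.A then phc Sf π' v' K y * (M.G y y).im else 0)| ≤ _
    rw [hn.A, if_pos hy, if_pos hy, ← mul_sub, abs_mul, abs_of_nonneg (hS.phi0 K hK y)]
    have h1 := hn.io_close (hnU y hy)
    have h2 := kf_le_eta' hn hG hI hN hs hy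
    calc phc Sf π' v' K y * |(M'.G y y).im - (M.G y y).im|
        ≤ (Wa K * M.kf g ω y) * r :=
          mul_le_mul (hS.Wa K hK y hy) h1 (abs_nonneg _)
            (mul_nonneg (hS.Wa0 K hK) (hs.kf_nn hG y))
      _ = 2 * Wa K * r / f.c1 * (M.kf g ω y * (f.c1 / 2)) := by
          field_simp
      _ ≤ _ := by
          refine mul_le_mul_of_nonneg_left h2 ?_
          have := hS.Wa0 K hK
          positivity
  · exact hS.z0 K hK y (mem_nr.1 hy)
  · exact hS.Wz K hK y (mem_nr.1 hy)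
  · -- the gain
    have h1 := z_gain hn hG hI hN hs hS hd hK (mem_nr.1 hy)
    have h2 := heta' y
    show tm.z K y + G2 * M'.eta y ≤ t1.z K y +
      (if ANP.dT y c ≤ 2 * s then -(G2 * M'.eta y) else G2 * M'.eta y)
    by_cases hyc : ANP.dT y c ≤ 2 * s
    · rw [if_pos hyc]
      have hp : ph (P.kap n) P.v P.b s y c = P.kap n ^ P.v := if_pos hyc
      rw [hp] at h1
      have h3 : Sf.s K * P.Cz * gg * P.kap n ^ P.v * M'.eta y = 2 * (G2 * M'.eta y) := by
        rw [hG2]; ring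
      rw [h3] at h1
      linarith
    · rw [if_neg hyc]
      have h3 : 0 ≤ Sf.s K * P.Cz * gg * ph (P.kap n) P.v P.b s y c * M'.eta y := by
        have := hS.gg0
        have := ph_nonneg hka s y c (v := P.v) (b := P.b)
        positivity
      linarith
  · have := hS.Wa0 K hK
    positivity

end near

end Pool.Agent.AND
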