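import Pool.Agent.ANS.TopFar
import Pool.Agent.AND.Level
import Pool.Agent.AND.H3A
import Pool.Agent.ANS.StepZ

/-! # ANS STEP FAR 3: (H3) in the rows far from the cell (owner helper79)

* `h3_cls`: change of the classes on `N` (the sites which are read), old medium, one row.
* `FarRow.row3`: (H3) of the new medium in one row `x`, general weights: `a0`, `z0` old classes, `am`, `zm` new classes and
  old medium, `a1`, `z1` new; `hz` = the gain `zm + gK ph η' ≤ z1` (file StepZ, helper1).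
* `FarRow.row3_ball`: the same with the ball `4 dT x y ≤ dT x c` and explicit numbers.
* `far3_tolAt`: (H3) of `tolAt P Sf n (F.add P n s {c}) π1 v1 M1` in the rows `3 s < 2 dT x c`.
* `farOut_h3`: the same with the hypotheses of `step_good` (field `h3` of `FarOut`).
-/

open Matrix Finset

noncomputable section

namespace Pool.Agent.AND

open Pool.Agent.Kin Pool.Agent.APS

set_option linter.unusedSectionVars false

/-- change of the weights on `N`, one row -/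
theorem h3_cls {T : Type} [Fintype T] [DecidableEq T] (g : T → ℂ) {A X N : Finset T}
    {a0 z0 am zm w : T → ℝ} (hAX : A ⊆ X) (hNX : N ⊆ X)
    (h3 : ‖∑ y ∈ A, g y ^ 2 * (a0 y : ℂ)‖ ≤ ∑ y ∈ X, ‖g y‖ ^ 2 * z0 y)
    (hcl : ∀ y ∈ X, y ∉ N → am y = a0 y ∧ zm y = z0 y)
    (hw : ∀ y ∈ N, |am y - a0 y| + |zm y - z0 y| ≤ w y) :
    ‖∑ y ∈ A, g y ^ 2 * (am y : ℂ)‖ ≤
      ∑ y ∈ X, ‖g y‖ ^ 2 * zm y + ∑ y ∈ N, ‖g y‖ ^ 2 * w y := by
  have e1 : ∑ y ∈ A, g y ^ 2 * (am y : ℂ) = ∑ y ∈ A, g y ^ 2 * (a0 y : ℂ) +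
      ∑ y ∈ A, g y ^ 2 * ((am y - a0 y : ℝ) : ℂ) := by
    rw [← Finset.sum_add_distrib]
    refine Finset.sum_congr rfl fun y _ => ?_
    push_cast
    ring
  have e2 : ‖∑ y ∈ A, g y ^ 2 * ((am y - a0 y : ℝ) : ℂ)‖ ≤
      ∑ y ∈ X, ‖g y‖ ^ 2 * |am y - a0 y| := by
    refine (norm_sum_le _ _).trans ?_
    refine (Finset.sum_le_sum_of_subset_of_nonneg hAX fun y _ _ => norm_nonneg _).trans ?_
    refine Finset.sum_le_sum fun y _ => ?_
    rw [norm_mul, norm_pow, Complex.norm_real, Real.norm_eq_abs]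
  have e3 : ∑ y ∈ X, ‖g y‖ ^ 2 * z0 y ≤ ∑ y ∈ X, ‖g y‖ ^ 2 * zm y +
      ∑ y ∈ X, ‖g y‖ ^ 2 * |zm y - z0 y| := by
    rw [← Finset.sum_add_distrib]
    refine Finset.sum_le_sum fun y _ => ?_
    have h1 := neg_abs_le (zm y - z0 y)
    nlinarith [sq_nonneg ‖g y‖]
  have e4 : ∑ y ∈ X, ‖g y‖ ^ 2 * |am y - a0 y| + ∑ y ∈ X, ‖g y‖ ^ 2 * |zm y - z0 y| =
      ∑ y ∈ N, ‖g y‖ ^ 2 * (|am y - a0 y| + |zm y - z0 y|) := by
    rw [← Finset.sum_add_distrib, ← Finset.sum_subset hNX]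
    · exact Finset.sum_congr rfl fun y _ => by ring
    · intro y hy hyN
      rw [(hcl y hy hyN).1, (hcl y hy hyN).2]
      simp
  have e5 : ∑ y ∈ N, ‖g y‖ ^ 2 * (|am y - a0 y| + |zm y - z0 y|) ≤
      ∑ y ∈ N, ‖g y‖ ^ 2 * w y :=
    Finset.sum_le_sum fun y hy => mul_le_mul_of_nonneg_left (hw y hy) (sq_nonneg _)
  rw [e1]
  have e6 := norm_add_le (∑ y ∈ A, g y ^ 2 * (a0 y : ℂ))
    (∑ y ∈ A, g y ^ 2 * ((am y - a0 y : ℝ) : ℂ))
  linarith

variable {d L : ℕ} [NeZero L] {f : Fix} {M M' : Med (Tor d L)}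

namespace FarRow

variable {F : Set (Tor d L)} {μ : ℝ} {a c : ℕ} {r : Tor d L → ℕ} {Q ν e Lm q : ℝ}

/-- the mass of a far row on the cell -/
theorem mass_cell (h : FarRow f M M' F μ a c r Q ν e Lm q) (hw : ANM.HasW M.b F μ a c)
    {N : Finset (Tor d L)} (hrN : ∀ y ∈ N, r y = 0) {x : Tor d L} (hx : x ∉ M.U) :
    ∑ y ∈ N, ‖rsc (H0T d L) M.b x y‖ ^ 2 * M.eta y ≤
      2 * f.C1 * Real.exp (2 * μ * c / a) * Real.exp (-(ν * r x)) := by
  have h1 := ANM.far_sum (adm_diss h.hb) h.ha h.hμ hw h.hν h.hνμ h.hL x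
  have h2 : ∑ y ∈ N, ‖rsc (H0T d L) M.b x y‖ ^ 2 * M.eta y ≤
      ∑ y, -(M.b y).im * (Real.exp (-(ν * r y)) * ‖rsc (H0T d L) M.b x y‖ ^ 2) := by
    have e1 : ∑ y ∈ N, ‖rsc (H0T d L) M.b x y‖ ^ 2 * M.eta y =
        ∑ y ∈ N, -(M.b y).im * (Real.exp (-(ν * r y)) * ‖rsc (H0T d L) M.b x y‖ ^ 2) := by
      refine Finset.sum_congr rfl fun y hy => ?_
      rw [hrN y hy, Nat.cast_zero, mul_zero, neg_zero, Real.exp_zero, one_mul]
      unfold Med.eta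
      ring
    rw [e1]
    refine Finset.sum_le_sum_of_subset_of_nonneg (Finset.subset_univ _) fun y _ _ => ?_
    have e2 := h.eta_nn y
    unfold Med.eta at e2
    positivity
  refine (h2.trans h1).trans ?_
  refine mul_le_mul_of_nonneg_right ?_ (Real.exp_pos _).le
  refine mul_le_mul_of_nonneg_right ?_ (Real.exp_pos _).le
  linarith [h.C1 x hx]

/-- (H3) IN ONE FAR ROW, general weights -/
theorem row3 (h : FarRow f M M' F μ a c r Q ν e Lm q) (hA : M'.A = M.A)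
    (hw : ANM.HasW M.b F μ a c) {N : Finset (Tor d L)} (hNA : N ⊆ M.A)
    (hrN : ∀ y ∈ N, r y = 0) {x : Tor d L} (hx : x ∉ M.U)
    {a0 z0 am zm a1 z1 ph : Tor d L → ℝ} {B BN gK : ℝ} (hB : 0 ≤ B) (hBN : 0 ≤ BN)
    (hgK : 0 ≤ gK)
    (h3 : ‖∑ y ∈ M.A, rsc (H0T d L) M.b x y ^ 2 * (a0 y : ℂ)‖ ≤
      ∑ y ∈ M.nr, ‖rsc (H0T d L) M.b x y‖ ^ 2 * z0 y)
    (hcl : ∀ y ∈ M.nr, y ∉ N → am y = a0 y ∧ zm y = z0 y)
    (hN : ∀ y ∈ N, |am y - a0 y| + |zm y - z0 y| ≤ BN * M.eta y)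
    (ham0 : ∀ y ∈ M.A, 0 ≤ am y) (ham : ∀ y ∈ M.A, am y ≤ B * M.eta y)
    (hzm0 : ∀ y ∈ M.nr, 0 ≤ zm y) (hzm : ∀ y ∈ M.nr, zm y ≤ B * M.eta y)
    (ha1 : ∀ y ∈ M.A, 0 ≤ a1 y)
    (haa : ∀ y ∈ M.A, |a1 y - am y| ≤ B * M'.eta y * (Q * Real.exp (-(ν * r y))))
    (hph : ∀ y ∈ M.nr, 0 ≤ ph y)
    (hz : ∀ y ∈ M.nr, zm y + gK * ph y * M'.eta y ≤ z1 y)
    {p0 i0 tl : ℝ} (hp0 : 0 ≤ p0) {S : Finset (Tor d L)} (hS : ∀ y ∈ M.nr, y ∈ S → p0 ≤ ph y)
    (hi0 : i0 ≤ (rsc (H0T d L) M'.b x x).im)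
    (htl : ∑ y ∈ M.nr \ S, M'.eta y * ‖rsc (H0T d L) M'.b x y‖ ^ 2 ≤ tl)
    (hnum : BN * (2 * f.C1 * Real.exp (2 * μ * c / a) * Real.exp (-(ν * r x))) +
      12 * q * B * f.C1 * Real.exp (2 * μ * c / a) * (Q * Real.exp (-(ν * r x))) ≤
        gK * p0 * (i0 - tl)) :
    ‖∑ y ∈ M'.A, rsc (H0T d L) M'.b x y ^ 2 * (a1 y : ℂ)‖ ≤
      ∑ y ∈ M'.nr, ‖rsc (H0T d L) M'.b x y‖ ^ 2 * z1 y := by
  have hnr : M'.nr = M.nr := by unfold Med.nr; rw [h.hU]
  have hnU : ∀ w ∈ M.A, w ∉ M.U := fun w hw hU => Finset.disjoint_left.1 h.hAU hw hU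
  have hAX : M.A ⊆ M.nr := fun y hy => Finset.mem_compl.2 (hnU y hy)
  have hNX : N ⊆ M.nr := hNA.trans hAX
  have s1 := h3_cls (fun y => rsc (H0T d L) M.b x y) hAX hNX h3 hcl hN
  have s2 : ∑ y ∈ N, ‖rsc (H0T d L) M.b x y‖ ^ 2 * (BN * M.eta y) ≤
      BN * (2 * f.C1 * Real.exp (2 * μ * c / a) * Real.exp (-(ν * r x))) := by
    have e1 : ∑ y ∈ N, ‖rsc (H0T d L) M.b x y‖ ^ 2 * (BN * M.eta y) =
        BN * ∑ y ∈ N, ‖rsc (H0T d L) M.b x y‖ ^ 2 * M.eta y := by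
      rw [Finset.mul_sum]
      exact Finset.sum_congr rfl fun y _ => by ring
    rw [e1]
    exact mul_le_mul_of_nonneg_left (h.mass_cell hw hrN hx) hBN
  have s3 := h.h3err hx (a0 := am) (a' := a1) (z := zm) hB ham0 ham hzm0 hzm haa
  -- the gain
  have s4 : gK * p0 * (i0 - tl) ≤
      ∑ y ∈ M'.nr, ‖rsc (H0T d L) M'.b x y‖ ^ 2 * (gK * ph y * M'.eta y) := by
    rw [hnr]
    refine h3_low (fun y => rsc (H0T d L) M'.b x y) M.nr S
      (fun y => gK * ph y * M'.eta y) M'.eta gK p0 i0 tl hgK hp0 ?_ ?_ ?_ htl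
    · intro y hy
      exact mul_nonneg (mul_nonneg hgK (hph y hy)) (h.eta_nn' y)
    · intro y hy hyS
      refine mul_le_mul_of_nonneg_right ?_ (h.eta_nn' y)
      exact mul_le_mul_of_nonneg_left (hS y hy hyS) hgK
    · have e1 := (adm_diss h.hb').ward x
      have e2 : ∑ y ∈ M.nr, M'.eta y * ‖rsc (H0T d L) M'.b x y‖ ^ 2 =
          ∑ y, M'.eta y * ‖rsc (H0T d L) M'.b x y‖ ^ 2 := by
        refine Finset.sum_subset (Finset.subset_univ _) fun y _ hy => ?_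
        have hyU : y ∈ M.U := by
          by_contra hyU
          exact hy (Finset.mem_compl.2 hyU)
        rw [h.hU0' y hyU, zero_mul]
      rw [e2]
      refine hi0.trans (le_of_eq ?_)
      rw [e1]
      refine Finset.sum_congr rfl fun y _ => ?_
      unfold Med.eta
      ring
  refine h3_trans (fun y => rsc (H0T d L) M.b x y) (fun y => rsc (H0T d L) M'.b x y)
    M.A M'.A M.nr M'.nr am a1 zm z1 (fun y => gK * ph y * M'.eta y)
    (∑ y ∈ N, ‖rsc (H0T d L) M.b x y‖ ^ 2 * (BN * M.eta y))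
    (by rw [hA]) (by rw [hnr]) hAX (by rw [hA, hnr]; exact hAX) ham0
    (fun y hy _ => ha1 y hy) hzm0 s1 ?_ ?_
  · intro y hy
    rw [hnr] at hy
    have e1 : ¬ (y ∈ M.A ∧ y ∉ M'.A) := by
      rw [hA]
      tauto
    rw [if_neg e1, add_zero]
    exact hz y hy
  · linarith

/-- (H3) IN ONE FAR ROW, with the ball `4 dT x y ≤ dT x o` and explicit numbers -/
theorem row3_ball (h : FarRow f M M' F μ a c r Q ν e Lm q) (hA : M'.A = M.A)
    (hw : ANM.HasW M.b F μ a c) {N : Finset (Tor d L)} (hNA : N ⊆ M.A) {o : Tor d L} {s : ℕ}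
    (hr : ∀ x, r x = ANP.dT x o - s) (hNs : ∀ y ∈ N, ANP.dT y o ≤ s)
    {x : Tor d L} (hx : x ∉ M.U) (hxo : 3 * s < 2 * ANP.dT x o)
    {a0 z0 am zm a1 z1 : Tor d L → ℝ} {B gK κ v b : ℝ} (hB : 0 ≤ B)
    (hgK : 0 ≤ gK) (hκ : 0 < κ) (hb : 0 ≤ b)
    (h3 : ‖∑ y ∈ M.A, rsc (H0T d L) M.b x y ^ 2 * (a0 y : ℂ)‖ ≤
      ∑ y ∈ M.nr, ‖rsc (H0T d L) M.b x y‖ ^ 2 * z0 y)
    (hcl : ∀ y ∈ M.nr, y ∉ N → am y = a0 y ∧ zm y = z0 y)
    (hN : ∀ y ∈ N, |am y - a0 y| + |zm y - z0 y| ≤ B * M.eta y)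
    (ham0 : ∀ y ∈ M.A, 0 ≤ am y) (ham : ∀ y ∈ M.A, am y ≤ B * M.eta y)
    (hzm0 : ∀ y ∈ M.nr, 0 ≤ zm y) (hzm : ∀ y ∈ M.nr, zm y ≤ B * M.eta y)
    (ha1 : ∀ y ∈ M.A, 0 ≤ a1 y)
    (haa : ∀ y ∈ M.A, |a1 y - am y| ≤ B * M'.eta y * (Q * Real.exp (-(ν * r y))))
    (hz : ∀ y ∈ M.nr, zm y + gK * ph κ v b s y o * M'.eta y ≤ z1 y)
    (hi0 : f.c1 / 2 ≤ (rsc (H0T d L) M'.b x x).im)
    (n1 : Real.exp (-(15 / 8 * (b * κ * s))) ≤ κ ^ v)
    (n2 : 4 * f.C1 * Real.exp (2 * μ * c / a) * Real.exp (-(3 / 4 * (μ * s) / a)) ≤ f.c1 / 4)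
    (n3 : 15 / 2 * (b * κ) ≤ ν)
    (n4 : f.C1 * Real.exp (2 * μ * c / a) * (2 + 12 * q * Q) * B * Real.exp (-(ν * s / 4)) ≤
      gK * (f.c1 / 4)) :
    ‖∑ y ∈ M'.A, rsc (H0T d L) M'.b x y ^ 2 * (a1 y : ℂ)‖ ≤
      ∑ y ∈ M'.nr, ‖rsc (H0T d L) M'.b x y‖ ^ 2 * z1 y := by
  have ha' : (0 : ℝ) < a := by exact_mod_cast h.ha
  have hC0 : 0 ≤ f.C1 := by linarith [h.one]
  have hq0 : 0 ≤ q := by linarith [h.hq]
  have hmet := ANP.nmet_dT (d := d) (L := L)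
  have hD : (3 : ℝ) * s < 2 * ANP.dT x o := by exact_mod_cast hxo
  have hs0 : (0 : ℝ) ≤ s := Nat.cast_nonneg s
  have hD0 : (0 : ℝ) ≤ ANP.dT x o := Nat.cast_nonneg _
  set D : ℝ := (ANP.dT x o : ℝ) with hDdef
  have hbκ : 0 ≤ b * κ := mul_nonneg hb hκ.le
  have hrx : (r x : ℝ) = D - s := by
    rw [hr x, Nat.cast_sub (by omega)]
  set p0 : ℝ := Real.exp (-(5 / 4 * (b * κ * D))) with hp0def
  set S : Finset (Tor d L) := univ.filter fun y => 4 * ANP.dT x y ≤ ANP.dT x o with hSdef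
  refine h.row3 hA hw hNA (fun y hy => ?_) hx hB hB hgK h3 hcl hN ham0 ham hzm0 hzm ha1 haa
    (ph := fun y => ph κ v b s y o) (fun y _ => ph_nonneg hκ s y o) hz (p0 := p0)
    (i0 := f.c1 / 2) (tl := f.c1 / 4) (Real.exp_pos _).le (S := S) ?_ hi0 ?_ ?_
  · rw [hr y]
    have := hNs y hy
    omega
  · -- the increment on the ball
    intro y _ hyS
    have h4 : 4 * ANP.dT x y ≤ ANP.dT x o := (Finset.mem_filter.1 hyS).2
    have h5 : (4 : ℝ) * ANP.dT x y ≤ D := by rw [hDdef]; exact_mod_cast h4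
    unfold ph
    split_ifs with hy2
    · refine le_trans ?_ n1
      rw [hp0def]
      apply Real.exp_le_exp.2
      have e1 : b * κ * s ≤ 2 / 3 * (b * κ * D) := by nlinarith
      linarith
    · rw [hp0def]
      apply Real.exp_le_exp.2
      have e1 : ANP.dT y o ≤ ANP.dT y x + ANP.dT x o := hmet.tri y x o
      have e2 : ANP.dT y x = ANP.dT x y := hmet.symm y x
      have e3 : (ANP.dT y o : ℝ) ≤ ANP.dT x y + D := by
        rw [hDdef, ← e2]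
        exact_mod_cast e1
      have e4 : (ANP.dT y o : ℝ) ≤ 5 / 4 * D := by linarith
      have e5 := mul_le_mul_of_nonneg_left e4 hbκ
      linarith
  · -- the tail
    have h1 := ANM.tail_sum (adm_diss h.hb') h.ha h.hμ h.hw' x (M.nr \ S) (R := D / 4) ?_
    · have e1 : ∑ y ∈ M.nr \ S, M'.eta y * ‖rsc (H0T d L) M'.b x y‖ ^ 2 =
          ∑ y ∈ M.nr \ S, -(M'.b y).im * ‖rsc (H0T d L) M'.b x y‖ ^ 2 := rfl
      rw [e1]
      refine h1.trans (le_trans ?_ n2)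
      have e2 : 2 * ‖rsc (H0T d L) M'.b x x‖ ≤ 4 * f.C1 := by linarith [h.C1' x hx]
      have e3 : Real.exp (-(2 * μ * (D / 4) / a)) ≤ Real.exp (-(3 / 4 * (μ * s) / a)) := by
        apply Real.exp_le_exp.2
        have e4 : 3 / 4 * (μ * s) ≤ 2 * μ * (D / 4) := by
          have := h.hμ
          nlinarith
        have e5 := div_le_div_of_nonneg_right e4 ha'.le
        linarith
      exact mul_le_mul (mul_le_mul_of_nonneg_right e2 (Real.exp_pos _).le) e3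
        (Real.exp_pos _).le (by positivity)
    · intro y hy
      have h2 : ¬ (4 * ANP.dT x y ≤ ANP.dT x o) := by
        intro h3
        exact (Finset.mem_sdiff.1 hy).2 (Finset.mem_filter.2 ⟨mem_univ y, h3⟩)
      have h3 : ANP.dT x o ≤ 4 * ANP.dT x y := by omega
      have h4 : D ≤ 4 * (ANP.dT x y : ℝ) := by rw [hDdef]; exact_mod_cast h3
      have h5 : (ANM.td x y : ℝ) = ANP.dT x y := rfl
      rw [h5]
      linarith
  · -- the numbers
    set E := Real.exp (2 * μ * c / a) with hE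
    have hQ := h.hQ
    have e1 : Real.exp (-(ν * r x)) ≤ Real.exp (-(ν * s / 4)) * p0 := by
      rw [hp0def, ← Real.exp_add, hrx]
      apply Real.exp_le_exp.2
      have e2 : 5 / 4 * (b * κ * D) ≤ ν * D / 6 := by nlinarith
      have hν := h.hν
      have e3 : ν * s / 4 + ν * D / 6 ≤ ν * (D - s) := by
        have : 0 ≤ ν * (2 * D - 3 * s) := mul_nonneg hν (by linarith)
        nlinarith
      linarith
    have e2 : f.c1 / 2 - f.c1 / 4 = f.c1 / 4 := by ring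
    rw [e2]
    have hpos : 0 ≤ f.C1 * E * (2 + 12 * q * Q) * B := by
      have : 0 ≤ E := (Real.exp_pos _).le
      positivity
    calc B * (2 * f.C1 * E * Real.exp (-(ν * r x))) +
          12 * q * B * f.C1 * E * (Q * Real.exp (-(ν * r x)))
        = f.C1 * E * (2 + 12 * q * Q) * B * Real.exp (-(ν * r x)) := by ring
      _ ≤ f.C1 * E * (2 + 12 * q * Q) * B * (Real.exp (-(ν * s / 4)) * p0) :=
          mul_le_mul_of_nonneg_left e1 hpos
      _ = (f.C1 * E * (2 + 12 * q * Q) * B * Real.exp (-(ν * s / 4))) * p0 := by ring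
      _ ≤ (gK * (f.c1 / 4)) * p0 := mul_le_mul_of_nonneg_right n4 (Real.exp_pos _).le
      _ = gK * p0 * (f.c1 / 4) := by ring

end FarRow

/-- bound of the weights by the absorption, per unit of the scale `s K` -/
def B3 (f : Fix) (P : Par) (n : ℕ) (e0 errm bem Cph : ℝ) : ℝ :=
  Cph * f.C1 / e0 + P.Cz * (errm / P.kap (n + 1) + bem * f.C1 / e0)

/-- NUMBERS of the far rows of (H3) at one level: `e0` = lower bound of the absorption of the active and static sites, `errm`, `bem` =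
bounds of the fields, `Cph` = bound of `phi / s`, `gm` = gain per unit of `s K` -/
structure Far3Num (f : Fix) (P : Par) (n s : ℕ) (μ : ℝ) (a c : ℕ)
    (Q ν q e0 errm bem Cph gm : ℝ) : Prop where
  pe : 0 < e0
  pb : 0 ≤ bem
  pC : 0 ≤ Cph
  n1 : Real.exp (-(15 / 8 * (P.b * P.kap n * s))) ≤ P.kap n ^ P.v
  n2 : 4 * f.C1 * Real.exp (2 * μ * c / a) * Real.exp (-(3 / 4 * (μ * s) / a)) ≤ f.c1 / 4
  n3 : 15 / 2 * (P.b * P.kap n) ≤ ν
  n4 : f.C1 * Real.exp (2 * μ * c / a) * (2 + 12 * q * Q) * B3 f P n e0 errm bem Cph *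
    Real.exp (-(ν * s / 4)) ≤ gm * (f.c1 / 4)

/-- (H3) of the next medium in the rows far from the cell, `tolAt` form -/
theorem far3_tolAt {X : Type} {P : Par} (hP : P.Pos) {Sf : SiteF X} (hSf : Sf.Pos) {n s : ℕ}
    {Fd : Fld (Tor d L)} (hFd : Fd.Pos) {π π1 : Prof (Tor d L)} {v v1 : Tor d L → X}
    {M1 : Med (Tor d L)} {o : Tor d L} {F : Set (Tor d L)} {μ : ℝ} {a c : ℕ}
    {r : Tor d L → ℕ} {Q ν e Lm q e0 errm bem Cph gm : ℝ}
    (hG : Good f (tolAt P Sf n Fd π v M) M) (h : FarRow f M M1 F μ a c r Q ν e Lm q)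
    (hA : M1.A = M.A) (hw : ANM.HasW M.b F μ a c) {N : Finset (Tor d L)} (hNA : N ⊆ M.A)
    (hr : ∀ x, r x = ANP.dT x o - s) (hNs : ∀ y ∈ N, ANP.dT y o ≤ s)
    (hcl : ∀ y, y ∉ M.U → y ∉ N → π1.lev y = π.lev y ∧ v1 y = v y)
    (hph : ∀ K ∈ Sf.Ks n, ∀ y, y ∉ M.U → Sf.phi K (π.lev y) (v y) ≤ Cph * Sf.s K ∧
      Sf.phi K (π1.lev y) (v1 y) ≤ Cph * Sf.s K)
    (hom : ∀ y, y ∉ M.U → Sf.om (π.lev y) (v y) ≤ 1 ∧ Sf.om (π1.lev y) (v1 y) ≤ 1)
    (hIn : ∀ y ∈ M.I, Sf.om (π1.lev y) (v1 y) = 0 ∧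
      ∀ K ∈ Sf.Ks n, Sf.phi K (π1.lev y) (v1 y) = 0)
    (herr : ∀ y, y ∉ M.U → Fd.err y ≤ errm) (hbe : ∀ y, y ∉ M.U → Fd.be y ≤ bem)
    (hes : ∀ y, y ∉ M.U → y ∉ M.I → e0 ≤ M.eta y) {W : Finset (Tor d L)}
    (hes' : ∀ y ∈ M.A, y ∉ W → e0 ≤ M1.eta y)
    (hphW : ∀ y ∈ W, ∀ K ∈ Sf.Ks n, Sf.phi K (π1.lev y) (v1 y) = 0)
    (hio : ∀ x, x ∉ M.U → f.c1 / 2 ≤ (rsc (H0T d L) M1.b x x).im)
    {gK : ℕ → ℝ} (hgK : ∀ K ∈ Sf.Ks n, 0 ≤ gK K ∧ Sf.s K * gm ≤ gK K) (hc1 : 0 ≤ f.c1)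
    (hz : ∀ K ∈ Sf.Ks n, ∀ y, y ∉ M.U → (tolAt P Sf n Fd π1 v1 M).z K y +
      gK K * ph (P.kap n) P.v P.b s y o * M1.eta y ≤
        (tolAt P Sf n (Fd.add P n s {o}) π1 v1 M1).z K y)
    (num : Far3Num f P n s μ a c Q ν q e0 errm bem Cph gm) :
    ∀ K ∈ Sf.Ks n, ∀ x, x ∉ M.U → 3 * s < 2 * ANP.dT x o →
      ‖∑ y ∈ M1.A, rsc (H0T d L) M1.b x y ^ 2 *
        ((tolAt P Sf n (Fd.add P n s {o}) π1 v1 M1).a K y : ℂ)‖ ≤
      ∑ y ∈ M1.nr, ‖rsc (H0T d L) M1.b x y‖ ^ 2 *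
        (tolAt P Sf n (Fd.add P n s {o}) π1 v1 M1).z K y := by
  intro K hK x hx hxo
  have hnU : ∀ w ∈ M.A, w ∉ M.U := fun w hw hU => Finset.disjoint_left.1 h.hAU hw hU
  have hnr : ∀ y, y ∈ M.nr ↔ y ∉ M.U := fun y => Finset.mem_compl
  have hC1 := h.one
  have hC0 : 0 ≤ f.C1 := by linarith
  have hκ' := hP.kap (n + 1)
  have hsK := hSf.s K
  have hCz := hP.Cz
  have he0 := num.pe
  have hCph := num.pC
  have hbem := num.pb
  have him0 : ∀ y, 0 ≤ (rsc (H0T d L) M.b y y).im := fun y => (adm_diss h.hb).im_nn y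
  have him0' : ∀ y, 0 ≤ (rsc (H0T d L) M1.b y y).im := fun y => (adm_diss h.hb').im_nn y
  have himC : ∀ y, y ∉ M.U → (rsc (H0T d L) M.b y y).im ≤ f.C1 := fun y hy =>
    ((le_abs_self _).trans (Complex.abs_im_le_norm _)).trans (h.C1 y hy)
  have hη : ∀ y, 0 ≤ M.eta y := h.eta_nn
  have hηA : ∀ y ∈ M.A, P.eta ≤ M.eta y := by
    intro y hy
    have e1 := hG.eA y hy
    have e2 : (tolAt P Sf n Fd π v M).eta = P.eta := rfl
    rw [e2] at e1
    have e3 := hG.klo y hy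
    have e4 : (tolAt P Sf n Fd π v M).kl = P.cl * P.kap (n + 1) := rfl
    rw [e4] at e3
    have e5 : 0 ≤ M.k y := (mul_nonneg hP.cl hκ'.le).trans e3
    have e6 := mul_nonneg e5 (him0 y)
    linarith
  -- the constant
  set BB : ℝ := B3 f P n e0 errm bem Cph with hBB
  have errm0 : 0 ≤ errm := (hFd.err x).trans (herr x hx)
  have t1 : 0 ≤ Cph * f.C1 / e0 := by positivity
  have t2 : 0 ≤ errm / P.kap (n + 1) := by positivity
  have t3 : 0 ≤ bem * f.C1 / e0 := by positivity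
  have hB0 : 0 ≤ BB := by
    rw [hBB]
    unfold B3
    positivity
  -- the three pieces
  have p1 : ∀ y, y ∉ M.U → y ∉ M.I → Cph * f.C1 ≤ Cph * f.C1 / e0 * M.eta y := by
    intro y hy hI
    have e1 := mul_le_mul_of_nonneg_left (hes y hy hI) t1
    rwa [div_mul_cancel₀ _ he0.ne'] at e1
  have p3 : ∀ y, y ∉ M.U → y ∉ M.I → bem * f.C1 ≤ bem * f.C1 / e0 * M.eta y := by
    intro y hy hI
    have e1 := mul_le_mul_of_nonneg_left (hes y hy hI) t3
    rwa [div_mul_cancel₀ _ he0.ne'] at e1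
  have hAI : ∀ y ∈ M.A, y ∉ M.I := fun y hy => Finset.disjoint_left.1 hG.AI hy
  -- the be term
  have q1 : ∀ (w : ℝ) (y : Tor d L), y ∉ M.U → 0 ≤ w → w ≤ 1 →
      0 ≤ Fd.be y * (w * (rsc (H0T d L) M.b y y).im) ∧
      Fd.be y * (w * (rsc (H0T d L) M.b y y).im) ≤ bem * f.C1 := by
    intro w y hy hw0 hw1
    refine ⟨mul_nonneg (hFd.be y) (mul_nonneg hw0 (him0 y)), ?_⟩
    refine mul_le_mul (hbe y hy) ?_ (mul_nonneg hw0 (him0 y)) hbem
    calc w * (rsc (H0T d L) M.b y y).im ≤ 1 * f.C1 :=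
          mul_le_mul hw1 (himC y hy) (him0 y) zero_le_one
      _ = f.C1 := one_mul _
  -- bound of the new `z` of the old medium
  have z0 : ∀ y, y ∉ M.U → 0 ≤ (tolAt P Sf n Fd π1 v1 M).z K y := by
    intro y hy
    show 0 ≤ (if y ∈ M.A then (0 : ℝ) else
      Sf.phi K (π1.lev y) (v1 y) * (rsc (H0T d L) M.b y y).im) +
      Sf.s K * P.Cz * (Fd.err y * ((if y ∈ M.A then P.eta else M.eta y) / P.kap (n + 1)) +
        Fd.be y * (Sf.om (π1.lev y) (v1 y) * (rsc (H0T d L) M.b y y).im))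
    have e1 : 0 ≤ (if y ∈ M.A then (0 : ℝ) else
      Sf.phi K (π1.lev y) (v1 y) * (rsc (H0T d L) M.b y y).im) := by
      split_ifs
      · exact le_rfl
      · exact mul_nonneg (hSf.phi _ _ _) (him0 y)
    have e2 : 0 ≤ (if y ∈ M.A then P.eta else M.eta y) := by
      split_ifs
      · exact hP.eta
      · exact hη y
    have e3 := (q1 _ y hy (hSf.om _ _) (hom y hy).2).1
    have e4 := hFd.err y
    have e5 : 0 ≤ Fd.err y * ((if y ∈ M.A then P.eta else M.eta y) / P.kap (n + 1)) := by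
      positivity
    have e6 := mul_nonneg (mul_nonneg hsK hCz) (add_nonneg e5 e3)
    linarith
  have z1 : ∀ y, y ∉ M.U → (tolAt P Sf n Fd π1 v1 M).z K y ≤ Sf.s K * BB * M.eta y := by
    intro y hy
    show (if y ∈ M.A then (0 : ℝ) else
      Sf.phi K (π1.lev y) (v1 y) * (rsc (H0T d L) M.b y y).im) +
      Sf.s K * P.Cz * (Fd.err y * ((if y ∈ M.A then P.eta else M.eta y) / P.kap (n + 1)) +
        Fd.be y * (Sf.om (π1.lev y) (v1 y) * (rsc (H0T d L) M.b y y).im)) ≤ _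
    have e2 : Fd.err y * ((if y ∈ M.A then P.eta else M.eta y) / P.kap (n + 1)) ≤
        errm / P.kap (n + 1) * M.eta y := by
      have e3 : (if y ∈ M.A then P.eta else M.eta y) ≤ M.eta y := by
        split_ifs with hyA
        · exact hηA y hyA
        · exact le_rfl
      calc Fd.err y * ((if y ∈ M.A then P.eta else M.eta y) / P.kap (n + 1))
          ≤ Fd.err y * (M.eta y / P.kap (n + 1)) :=
            mul_le_mul_of_nonneg_left (div_le_div_of_nonneg_right e3 hκ'.le) (hFd.err y)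
        _ ≤ errm * (M.eta y / P.kap (n + 1)) :=
            mul_le_mul_of_nonneg_right (herr y hy) (div_nonneg (hη y) hκ'.le)
        _ = _ := by ring
    by_cases hI : y ∈ M.I
    · have hyA : y ∉ M.A := fun hyA => hAI y hyA hI
      rw [if_neg hyA] at e2 ⊢
      rw [(hIn y hI).2 K hK, (hIn y hI).1, if_neg hyA]
      have e4 := mul_le_mul_of_nonneg_left e2 (mul_nonneg hsK hCz)
      have e5 : 0 ≤ Sf.s K * (Cph * f.C1 / e0 + P.Cz * (bem * f.C1 / e0)) * M.eta y := by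
        have := hη y
        positivity
      rw [hBB]
      unfold B3
      have e6 : Sf.s K * (Cph * f.C1 / e0 + P.Cz * (errm / P.kap (n + 1) + bem * f.C1 / e0)) *
          M.eta y = Sf.s K * P.Cz * (errm / P.kap (n + 1) * M.eta y) +
            Sf.s K * (Cph * f.C1 / e0 + P.Cz * (bem * f.C1 / e0)) * M.eta y := by ring
      rw [e6]
      linarith
    · have e1 : (if y ∈ M.A then (0 : ℝ) else
          Sf.phi K (π1.lev y) (v1 y) * (rsc (H0T d L) M.b y y).im) ≤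
          Sf.s K * (Cph * f.C1 / e0 * M.eta y) := by
        have e5 := mul_le_mul_of_nonneg_left (p1 y hy hI) hsK
        have e6 : 0 ≤ Cph * f.C1 := by positivity
        have e7 := mul_nonneg hsK e6
        split_ifs
        · linarith
        · have e8 : Sf.phi K (π1.lev y) (v1 y) * (rsc (H0T d L) M.b y y).im ≤
              (Cph * Sf.s K) * f.C1 :=
            mul_le_mul (hph K hK y hy).2 (himC y hy) (him0 y) (mul_nonneg hCph hsK)
          linarith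
      have e3 := ((q1 _ y hy (hSf.om _ _) (hom y hy).2).2).trans (p3 y hy hI)
      have e4 := mul_le_mul_of_nonneg_left (add_le_add e2 e3) (mul_nonneg hsK hCz)
      rw [hBB]
      unfold B3
      have e6 : Sf.s K * (Cph * f.C1 / e0 + P.Cz * (errm / P.kap (n + 1) + bem * f.C1 / e0)) *
          M.eta y = Sf.s K * (Cph * f.C1 / e0 * M.eta y) + Sf.s K * P.Cz *
            (errm / P.kap (n + 1) * M.eta y + bem * f.C1 / e0 * M.eta y) := by ring
      rw [e6]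
      exact add_le_add e1 e4
  have hBr : ∀ w : ℝ, 0 ≤ w → Cph * f.C1 / e0 * w ≤ BB * w := by
    intro w hw0
    refine mul_le_mul_of_nonneg_right ?_ hw0
    rw [hBB]
    unfold B3
    have : 0 ≤ P.Cz * (errm / P.kap (n + 1) + bem * f.C1 / e0) := by positivity
    linarith
  have aA : ∀ y ∈ M.A, (tolAt P Sf n Fd π1 v1 M).a K y =
      Sf.phi K (π1.lev y) (v1 y) * (rsc (H0T d L) M.b y y).im := fun y hy => if_pos hy
  have aA0 : ∀ y ∈ M.A, (tolAt P Sf n Fd π v M).a K y =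
      Sf.phi K (π.lev y) (v y) * (rsc (H0T d L) M.b y y).im := fun y hy => if_pos hy
  have aA1 : ∀ y ∈ M.A, (tolAt P Sf n (Fd.add P n s {o}) π1 v1 M1).a K y =
      Sf.phi K (π1.lev y) (v1 y) * (rsc (H0T d L) M1.b y y).im := fun y hy =>
    if_pos (by rw [hA]; exact hy)
  refine h.row3_ball hA hw hNA hr hNs hx hxo (κ := P.kap n) (v := P.v) (b := P.b)
    (a0 := (tolAt P Sf n Fd π v M).a K) (z0 := (tolAt P Sf n Fd π v M).z K)
    (am := (tolAt P Sf n Fd π1 v1 M).a K) (zm := (tolAt P Sf n Fd π1 v1 M).z K)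
    (B := Sf.s K * BB) (gK := gK K) (mul_nonneg hsK hB0) (hgK K hK).1 (hP.kap n) hP.b
    (hG.h3 K hK x hx) ?_ ?_ ?_ ?_ ?_ ?_ ?_ ?_ ?_ (hio x hx) num.n1 num.n2 num.n3 ?_
  · -- classes off `N`
    intro y hy hyN
    have hy' := (hnr y).1 hy
    obtain ⟨e1, e2⟩ := hcl y hy' hyN
    refine ⟨?_, ?_⟩
    · show (if y ∈ M.A then _ else _) = if y ∈ M.A then _ else _
      rw [e1, e2]
    · show _ + _ = _ + _
      rw [e1, e2]
  · -- the change on `N`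
    intro y hy
    have hyA := hNA hy
    have hyU := hnU y hyA
    have e1 : |(tolAt P Sf n Fd π1 v1 M).a K y - (tolAt P Sf n Fd π v M).a K y| ≤
        Sf.s K * (Cph * f.C1) := by
      rw [aA y hyA, aA0 y hyA, ← sub_mul, abs_mul, abs_of_nonneg (him0 y)]
      have e2 : |Sf.phi K (π1.lev y) (v1 y) - Sf.phi K (π.lev y) (v y)| ≤ Cph * Sf.s K := by
        rw [abs_le]
        have w1 := hSf.phi K (π1.lev y) (v1 y)
        have w2 := hSf.phi K (π.lev y) (v y)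
        have w3 := (hph K hK y hyU).1
        have w4 := (hph K hK y hyU).2
        constructor <;> linarith
      calc |Sf.phi K (π1.lev y) (v1 y) - Sf.phi K (π.lev y) (v y)| *
            (rsc (H0T d L) M.b y y).im ≤ (Cph * Sf.s K) * f.C1 :=
            mul_le_mul e2 (himC y hyU) (him0 y) (mul_nonneg hCph hsK)
        _ = _ := by ring
    have e3 : |(tolAt P Sf n Fd π1 v1 M).z K y - (tolAt P Sf n Fd π v M).z K y| ≤
        Sf.s K * P.Cz * (bem * f.C1) := by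
      have e4 : (tolAt P Sf n Fd π1 v1 M).z K y - (tolAt P Sf n Fd π v M).z K y =
          Sf.s K * P.Cz * (Fd.be y * (Sf.om (π1.lev y) (v1 y) * (rsc (H0T d L) M.b y y).im) -
            Fd.be y * (Sf.om (π.lev y) (v y) * (rsc (H0T d L) M.b y y).im)) := by
        show ((if y ∈ M.A then (0 : ℝ) else
          Sf.phi K (π1.lev y) (v1 y) * (rsc (H0T d L) M.b y y).im) +
          Sf.s K * P.Cz * (Fd.err y * ((if y ∈ M.A then P.eta else M.eta y) / P.kap (n + 1)) +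
            Fd.be y * (Sf.om (π1.lev y) (v1 y) * (rsc (H0T d L) M.b y y).im))) -
          ((if y ∈ M.A then (0 : ℝ) else
          Sf.phi K (π.lev y) (v y) * (rsc (H0T d L) M.b y y).im) +
          Sf.s K * P.Cz * (Fd.err y * ((if y ∈ M.A then P.eta else M.eta y) / P.kap (n + 1)) +
            Fd.be y * (Sf.om (π.lev y) (v y) * (rsc (H0T d L) M.b y y).im))) = _
        rw [if_pos hyA, if_pos hyA, if_pos hyA]
        ring
      rw [e4, abs_mul, abs_of_nonneg (mul_nonneg hsK hCz)]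
      refine mul_le_mul_of_nonneg_left ?_ (mul_nonneg hsK hCz)
      obtain ⟨w1, w2⟩ := q1 _ y hyU (hSf.om (π1.lev y) (v1 y)) (hom y hyU).2
      obtain ⟨w3, w4⟩ := q1 _ y hyU (hSf.om (π.lev y) (v y)) (hom y hyU).1
      rw [abs_le]
      constructor <;> linarith
    have e5 := mul_le_mul_of_nonneg_left (p1 y hyU (hAI y hyA)) hsK
    have e6 := mul_le_mul_of_nonneg_left (p3 y hyU (hAI y hyA)) (mul_nonneg hsK hCz)
    have e7 : 0 ≤ Sf.s K * P.Cz * (errm / P.kap (n + 1)) * M.eta y := by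
      have := hη y
      positivity
    have e8 : Sf.s K * BB * M.eta y = Sf.s K * (Cph * f.C1 / e0 * M.eta y) +
        Sf.s K * P.Cz * (bem * f.C1 / e0 * M.eta y) +
        Sf.s K * P.Cz * (errm / P.kap (n + 1)) * M.eta y := by
      rw [hBB]
      unfold B3
      ring
    rw [e8]
    linarith
  · intro y hy
    rw [aA y hy]
    exact mul_nonneg (hSf.phi _ _ _) (him0 y)
  · intro y hy
    have hyU := hnU y hy
    rw [aA y hy]
    have e1 : Sf.phi K (π1.lev y) (v1 y) * (rsc (H0T d L) M.b y y).im ≤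
        (Cph * Sf.s K) * f.C1 :=
      mul_le_mul (hph K hK y hyU).2 (himC y hyU) (him0 y) (mul_nonneg hCph hsK)
    have e2 := mul_le_mul_of_nonneg_left (p1 y hyU (hAI y hy)) hsK
    have e3 := mul_le_mul_of_nonneg_left (hBr (M.eta y) (hη y)) hsK
    linarith
  · intro y hy
    exact z0 y ((hnr y).1 hy)
  · intro y hy
    exact z1 y ((hnr y).1 hy)
  · intro y hy
    rw [aA1 y hy]
    exact mul_nonneg (hSf.phi _ _ _) (him0' y)
  · -- the change of the weights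
    intro y hy
    have hyU := hnU y hy
    rw [aA1 y hy, aA y hy, ← mul_sub, abs_mul, abs_of_nonneg (hSf.phi K (π1.lev y) (v1 y))]
    have e1 := h.far.ent y y hyU hyU
    rw [max_self, norm_sub_rev] at e1
    have e2 : |(rsc (H0T d L) M1.b y y).im - (rsc (H0T d L) M.b y y).im| ≤
        Q * Real.exp (-(ν * r y)) := by
      rw [← Complex.sub_im]
      exact (Complex.abs_im_le_norm _).trans e1
    have e3 : 0 ≤ Q * Real.exp (-(ν * r y)) := mul_nonneg h.hQ (Real.exp_pos _).le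
    by_cases hyW : y ∈ W
    · rw [hphW y hyW K hK, zero_mul]
      have w1 := h.eta_nn' y
      positivity
    have e4 : Sf.phi K (π1.lev y) (v1 y) ≤ Sf.s K * BB * M1.eta y := by
      have w1 := (hph K hK y hyU).2
      have w2 := hes' y hy hyW
      have w3 := hBr (M1.eta y) (he0.le.trans w2)
      have w4 := mul_le_mul_of_nonneg_left w2 t1
      rw [div_mul_cancel₀ _ he0.ne'] at w4
      have w5 : Cph ≤ Cph * f.C1 := by nlinarith
      have w6 : Cph * Sf.s K ≤ Sf.s K * (BB * M1.eta y) := by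
        rw [mul_comm]
        exact mul_le_mul_of_nonneg_left (by linarith) hsK
      linarith
    exact mul_le_mul e4 e2 (abs_nonneg _) ((hSf.phi _ _ _).trans e4)
  · intro y hy
    exact hz K hK y ((hnr y).1 hy)
  · -- the numbers
    have e1 := mul_le_mul_of_nonneg_left num.n4 hsK
    have e2 := mul_le_mul_of_nonneg_right (hgK K hK).2 (show 0 ≤ f.c1 / 4 by linarith)
    calc f.C1 * Real.exp (2 * μ * c / a) * (2 + 12 * q * Q) * (Sf.s K * BB) *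
          Real.exp (-(ν * s / 4)) = Sf.s K * (f.C1 * Real.exp (2 * μ * c / a) *
          (2 + 12 * q * Q) * BB * Real.exp (-(ν * s / 4))) := by ring
      _ ≤ Sf.s K * (gm * (f.c1 / 4)) := e1
      _ = Sf.s K * gm * (f.c1 / 4) := by ring
      _ ≤ gK K * (f.c1 / 4) := e2

/-- FIELD `h3` OF `FarOut`: (H3) in the far rows with the hypotheses of `step_good` -/
theorem farOut_h3 {X D : Type} [Fintype D] {P : Par} (hP : P.Pos) {Sf : SiteF X}
    (hSf : Sf.Pos) {n s : ℕ} {Fd : Fld (Tor d L)} (hFd : Fd.Pos) {π π' : Prof (Tor d L)}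
    {v v' : Tor d L → X} {M' : Med (Tor d L)} {u : UTol} {g : ANS.Dig (Tor d L) D}
    {ω : Tor d L → D} {o : Tor d L} {rr al ze gg : ℝ} {Wa Wz : ℕ → ℝ}
    {F : Set (Tor d L)} {W : Finset (Tor d L)} {μ : ℝ} {a c : ℕ} {r : Tor d L → ℕ} 
    {Q ν e Lm q e0 errm bem Cph : ℝ}
    (hn : Nxt M M' g ω rr) (hG : Good f (tolAt P Sf n Fd π v M) M)
    (hI : (tolAt P Sf n Fd π v M).In f M u) (hN : Num f (tolAt P Sf n Fd π v M) u)
    (hs : StepH f (tolAt P Sf n Fd π v M) M g ω W rr al (P.cl * P.kap (n + 1)) (P.kap n))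
    (hS : SiteIn f P Sf n Fd π' v' M g ω ze gg Wa Wz)
    (hd : ∀ x, x ∉ M.U → ‖M'.G x x - M.G x x‖ ≤ ze * ph (P.kap n) P.v P.b s x o)
    (h : FarRow f M M' F μ a c r Q ν e Lm q) (hw : ANM.HasW M.b F μ a c)
    {N : Finset (Tor d L)} (hNA : N ⊆ M.A)
    (hr : ∀ x, r x = ANP.dT x o - s) (hNs : ∀ y ∈ N, ANP.dT y o ≤ s)
    (hcl : ∀ y, y ∉ M.U → y ∉ N → π'.lev y = π.lev y ∧ v' y = v y)
    (hph : ∀ K ∈ Sf.Ks n, ∀ y, y ∉ M.U → Sf.phi K (π.lev y) (v y) ≤ Cph * Sf.s K ∧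
      Sf.phi K (π'.lev y) (v' y) ≤ Cph * Sf.s K)
    (hom : ∀ y, y ∉ M.U → Sf.om (π.lev y) (v y) ≤ 1 ∧ Sf.om (π'.lev y) (v' y) ≤ 1)
    (hIn : ∀ y ∈ M.I, Sf.om (π'.lev y) (v' y) = 0 ∧
      ∀ K ∈ Sf.Ks n, Sf.phi K (π'.lev y) (v' y) = 0)
    (herr : ∀ y, y ∉ M.U → Fd.err y ≤ errm) (hbe : ∀ y, y ∉ M.U → Fd.be y ≤ bem)
    (hphW : ∀ y ∈ W, ∀ K ∈ Sf.Ks n, Sf.phi K (π'.lev y) (v' y) = 0)
    (h0A : e0 ≤ P.cl * P.kap (n + 1) * (f.c1 / 2)) (h0S : e0 ≤ P.cs * P.kap (n + 1))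
    (num : Far3Num f P n s μ a c Q ν q e0 errm bem Cph (P.Cz * gg)) :
    ∀ K ∈ Sf.Ks n, ∀ x, x ∉ M.U → 3 * s < 2 * ANP.dT x o →
      ‖∑ y ∈ M'.A, rsc (H0T d L) M'.b x y ^ 2 *
        ((tolAt P Sf n (Fd.add P n s {o}) π' v' M').a K y : ℂ)‖ ≤
      ∑ y ∈ M'.nr, ‖rsc (H0T d L) M'.b x y‖ ^ 2 *
        (tolAt P Sf n (Fd.add P n s {o}) π' v' M').z K y := by
  have hc1 : 0 < f.c1 := hN.c1
  have hkl : 0 ≤ P.cl * P.kap (n + 1) := mul_nonneg hP.cl (hP.kap _).le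
  refine far3_tolAt hP hSf hFd hG h hn.A hw hNA hr hNs hcl hph hom hIn herr hbe ?_ (W := W) ?_
    hphW (fun x hx => hn.io_ge' hG hI hN hs hx) (gK := fun K => Sf.s K * P.Cz * gg) ?_ hc1.le
    (fun K hK y hy => z_gain hn hG hI hN hs hS hd hK hy) num
  · intro y hy hI'
    by_cases hyA : y ∈ M.A
    · have e1 := hG.eA y hyA
      have e2 : (tolAt P Sf n Fd π v M).eta = P.eta := rfl
      have e3 : P.cl * P.kap (n + 1) ≤ M.k y := hG.klo y hyA
      have e4 : f.c1 ≤ (rsc (H0T d L) M.b y y).im := hG.io_ge hI hN hy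
      have e5 : P.cl * P.kap (n + 1) * f.c1 ≤ M.k y * (rsc (H0T d L) M.b y y).im :=
        mul_le_mul e3 e4 hc1.le (hkl.trans e3)
      have e6 := hP.eta
      have e7 := mul_nonneg hkl hc1.le
      rw [e1, e2]
      linarith
    · have e1 := hG.eS y hyA hy hI'
      have e2 : (tolAt P Sf n Fd π v M).eta = P.eta := rfl
      have e3 : (tolAt P Sf n Fd π v M).st = P.cs * P.kap (n + 1) := rfl
      rw [e2, e3] at e1
      have e6 := hP.eta
      linarith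
  · intro y hy hyW
    have e1 := kf_le_eta' hn hG hI hN hs hy
    have e2 : P.cl * P.kap (n + 1) ≤ M.kf g ω y := hs.klo y hy hyW
    have e3 := mul_le_mul_of_nonneg_right e2 (show 0 ≤ f.c1 / 2 by linarith)
    linarith
  · intro K hK
    refine ⟨mul_nonneg (mul_nonneg (hSf.s K) hP.Cz) hS.gg0, le_of_eq ?_⟩
    ring

end Pool.Agent.AND
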