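import Pool.Agent.ANS.DigM

/-! # ANS DIGW: Ward sums and the contraction at every configuration

For `x ∈ X` and a configuration `s` with `Ent X 1 s`:
`∑ η_y(s) S_xy = ι_x ≤ 2C`, `∑ η_y(nil) S_xy ≤ 16 C`, `∑ β_w² S_xw ≤ 16 C²`,
`∑ β_w² |G_xw| |G_wy| ≤ 16 C²`, `∑ β_w³ |G_xw| |G_wy| ≤ 16 C² β_max`,
`∑ β_w² S_xw S_wy ≤ κ √(τ_x τ_y)`; the contraction `∑ η |G f|² ≤ ∑ |f|²/η` for `f` on `X`. -/

set_option autoImplicit false
set_option linter.unusedSectionVars false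

open Finset Function Matrix

noncomputable section

namespace Pool.Agent.ANS

open Pool.Agent.Kin Pool.Agent.APS Pool.Agent.ANL

variable {T D : Type} [Fintype T] [DecidableEq T] [Fintype D]

namespace Stp

variable {P : Stp T D} {X N : Finset T} {c be e : T → ℝ} {C Lm : ℝ}

namespace Ok

variable (h : P.Ok X N c be e C Lm)
include h

theorem S_symm (s : T → Option D) (x y : T) : P.S s x y = P.S s y x := by
  unfold S
  rw [h.symm]

theorem S0 (s : T → Option D) (x y : T) : 0 ≤ P.S s x y := by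
  unfold S
  positivity

/-- Ward -/
theorem ward_s (s : T → Option D) (x : T) : ∑ y, P.eta s y * P.S s x y = P.io s x := by
  unfold io S G eta
  exact (ward (h.adms s) x).symm

theorem io0 (s : T → Option D) (x : T) : 0 ≤ P.io s x := ward_nonneg (h.adms s) x

theorem io_le {s : T → Option D} (hs : P.Ent X 1 s) {x : T} (hx : x ∈ X) : P.io s x ≤ 2 * C :=
  (Complex.im_le_norm _).trans (h.diaC hs hx)

theorem row_nil {s : T → Option D} (hs : P.Ent X 1 s) {x : T} (hx : x ∈ X) :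
    ∑ y, P.eta nil y * P.S s x y ≤ 16 * C := by
  have h1 := h.io_le hs hx
  rw [← h.ward_s s x] at h1
  have h2 : ∑ y, P.eta nil y * P.S s x y ≤ 8 * ∑ y, P.eta s y * P.S s x y := by
    rw [Finset.mul_sum]
    refine Finset.sum_le_sum fun y _ => ?_
    have h3 := h.etaLo s y
    have h4 := mul_le_mul_of_nonneg_right h3 (h.S0 s x y)
    linarith
  linarith

theorem row_be {s : T → Option D} (hs : P.Ent X 1 s) {x : T} (hx : x ∈ X) :
    ∑ w, be w ^ 2 * P.S s x w ≤ 16 * C ^ 2 := by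
  have h1 := h.row_nil hs hx
  have h2 : ∑ w, be w ^ 2 * P.S s x w ≤ C * ∑ y, P.eta nil y * P.S s x y := by
    rw [Finset.mul_sum]
    refine Finset.sum_le_sum fun y _ => ?_
    have h4 := mul_le_mul_of_nonneg_right (h.bee y) (h.S0 s x y)
    linarith
  have h3 := mul_le_mul_of_nonneg_left h1 h.C0
  calc _ ≤ _ := h2
    _ ≤ C * (16 * C) := h3
    _ = _ := by ring

theorem row_c {s : T → Option D} (hs : P.Ent X 1 s) {x : T} (hx : x ∈ X) :
    ∑ w, c w * P.S s x w ≤ 16 * C ^ 2 :=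
  (Finset.sum_le_sum fun w _ => mul_le_mul_of_nonneg_right (h.c_le w) (h.S0 s x w)).trans
    (h.row_be hs hx)

theorem cs_be {s : T → Option D} (hs : P.Ent X 1 s) {x y : T} (hx : x ∈ X) (hy : y ∈ X) :
    ∑ w, be w ^ 2 * (‖P.G s x w‖ * ‖P.G s w y‖) ≤ 16 * C ^ 2 := by
  have h1 := h.row_be hs hx
  have h2 := h.row_be hs hy
  have h3 : ∑ w, be w ^ 2 * (‖P.G s x w‖ * ‖P.G s w y‖) ≤
      ∑ w, (be w ^ 2 * P.S s x w + be w ^ 2 * P.S s y w) / 2 := by
    refine Finset.sum_le_sum fun w _ => ?_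
    unfold S
    rw [h.symm s w y]
    have h5 : 0 ≤ be w ^ 2 * (‖P.G s x w‖ - ‖P.G s y w‖) ^ 2 := by positivity
    nlinarith
  rw [← Finset.sum_div, Finset.sum_add_distrib] at h3
  linarith

theorem cs_be3 {s : T → Option D} (hs : P.Ent X 1 s) {bm : ℝ} (hbm : ∀ w, be w ≤ bm) {x y : T}
    (hx : x ∈ X) (hy : y ∈ X) :
    ∑ w, be w ^ 3 * (‖P.G s x w‖ * ‖P.G s w y‖) ≤ 16 * C ^ 2 * bm := by
  have hbm0 : 0 ≤ bm := (h.be0 x).trans (hbm x)
  calc _ ≤ ∑ w, bm * (be w ^ 2 * (‖P.G s x w‖ * ‖P.G s w y‖)) := by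
        refine Finset.sum_le_sum fun w _ => ?_
        have h1 : be w ^ 3 * (‖P.G s x w‖ * ‖P.G s w y‖) =
            be w * (be w ^ 2 * (‖P.G s x w‖ * ‖P.G s w y‖)) := by ring
        rw [h1]
        exact mul_le_mul_of_nonneg_right (hbm w) (by positivity)
    _ = bm * ∑ w, be w ^ 2 * (‖P.G s x w‖ * ‖P.G s w y‖) := by rw [Finset.mul_sum]
    _ ≤ bm * (16 * C ^ 2) := mul_le_mul_of_nonneg_left (h.cs_be hs hx hy) hbm0
    _ = _ := by ring

theorem row_be3 {s : T → Option D} (hs : P.Ent X 1 s) {bm : ℝ} (hbm : ∀ w, be w ≤ bm) {x : T}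
    (hx : x ∈ X) : ∑ w, be w ^ 3 * P.S s x w ≤ 16 * C ^ 2 * bm := by
  have hbm0 : 0 ≤ bm := (h.be0 x).trans (hbm x)
  calc _ ≤ ∑ w, bm * (be w ^ 2 * P.S s x w) := by
        refine Finset.sum_le_sum fun w _ => ?_
        have h1 : be w ^ 3 * P.S s x w = be w * (be w ^ 2 * P.S s x w) := by ring
        rw [h1]
        exact mul_le_mul_of_nonneg_right (hbm w) (mul_nonneg (sq_nonneg _) (h.S0 s x w))
    _ = bm * ∑ w, be w ^ 2 * P.S s x w := by rw [Finset.mul_sum]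
    _ ≤ bm * (16 * C ^ 2) := mul_le_mul_of_nonneg_left (h.row_be hs hx) hbm0
    _ = _ := by ring

/-- the quadratic variation of one entry -/
theorem qv {s : T → Option D} {kap : ℝ} (hk : ∀ w, be w ^ 2 ≤ kap) {tau : T → ℝ}
    (ht : P.TauLe X N tau s) {x y : T} (hx : x ∈ X) (hy : y ∈ X) :
    ∑ w, be w ^ 2 * (P.S s x w * P.S s w y) ≤ kap * √(tau x * tau y) := by
  have hk0 : 0 ≤ kap := (sq_nonneg (be x)).trans (hk x)
  have h1 : ∑ w, be w ^ 2 * (P.S s x w * P.S s w y) ≤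
      kap * ∑ w ∈ N, P.S s x w * P.S s y w := by
    have h2 : ∑ w, be w ^ 2 * (P.S s x w * P.S s w y) =
        ∑ w ∈ N, be w ^ 2 * (P.S s x w * P.S s w y) := by
      symm
      refine Finset.sum_subset (Finset.subset_univ N) fun w _ hw => ?_
      rw [h.beN w hw]
      ring
    rw [h2, Finset.mul_sum]
    refine Finset.sum_le_sum fun w _ => ?_
    rw [h.S_symm s w y]
    exact mul_le_mul_of_nonneg_right (hk w) (mul_nonneg (h.S0 s x w) (h.S0 s y w))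
  have h3 : ∀ z ∈ X, ∑ w ∈ N, P.S s z w ^ 2 ≤ tau z := by
    intro z hz
    refine le_trans (le_of_eq ?_) (ht z hz)
    refine Finset.sum_congr rfl fun w _ => ?_
    unfold S
    ring
  have h4 := Finset.sum_mul_sq_le_sq_mul_sq N (fun w => P.S s x w) (fun w => P.S s y w)
  have h5 : (∑ w ∈ N, P.S s x w * P.S s y w) ^ 2 ≤ tau x * tau y := by
    refine h4.trans (mul_le_mul (h3 x hx) (h3 y hy) ?_ ?_)
    · exact Finset.sum_nonneg fun w _ => sq_nonneg _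
    · exact (Finset.sum_nonneg fun w _ => sq_nonneg _).trans (h3 x hx)
  exact h1.trans (mul_le_mul_of_nonneg_left (Real.le_sqrt_of_sq_le h5) hk0)

/-- the contraction `η^{1/2} G η^{1/2}` -/
theorem contr (s : T → Option D) (f : T → ℂ) (hf : ∀ x, x ∉ X → f x = 0) :
    ∑ x, P.eta s x * ‖∑ y, P.G s x y * f y‖ ^ 2 ≤ ∑ x ∈ X, ‖f x‖ ^ 2 / P.eta s x := by
  set v : T → ℂ := P.G s *ᵥ f with hv
  have hv1 : ∀ x, ∑ y, P.G s x y * f y = v x := fun x => rfl
  simp only [hv1]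
  have h1 : (P.H + diagonal (P.bs s)) *ᵥ v = f := src_res (h.adms s) f
  have h2 := form_im h.adm.sym (P.bs s) v
  rw [h1] at h2
  -- `∑ η |v|² = - Im ∑ conj v f ≤ ∑_X |v| |f|`
  have h3 : ∑ x, P.eta s x * ‖v x‖ ^ 2 ≤ ∑ x ∈ X, ‖v x‖ * ‖f x‖ := by
    have h4 : ∑ x, P.eta s x * ‖v x‖ ^ 2 = -(∑ x, (starRingEnd ℂ) (v x) * f x).im := by
      rw [h2, ← Finset.sum_neg_distrib]
      refine Finset.sum_congr rfl fun x _ => ?_
      unfold eta
      ring
    rw [h4]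
    have h5 : -(∑ x, (starRingEnd ℂ) (v x) * f x).im ≤ ‖∑ x, (starRingEnd ℂ) (v x) * f x‖ :=
      (neg_le_abs _).trans (Complex.abs_im_le_norm _)
    refine h5.trans ?_
    have h6 : ∑ x, (starRingEnd ℂ) (v x) * f x = ∑ x ∈ X, (starRingEnd ℂ) (v x) * f x := by
      symm
      refine Finset.sum_subset (Finset.subset_univ X) fun x _ hx => ?_
      rw [hf x hx, mul_zero]
    rw [h6]
    refine (norm_sum_le _ _).trans (Finset.sum_le_sum fun x _ => ?_)
    rw [norm_mul, Complex.norm_conj]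
  have h4 : ∑ x ∈ X, ‖v x‖ * ‖f x‖ ≤
      ∑ x ∈ X, (P.eta s x * ‖v x‖ ^ 2 + ‖f x‖ ^ 2 / P.eta s x) / 2 := by
    refine Finset.sum_le_sum fun x hx => ?_
    have he := h.etaX' s hx
    have h5 : ‖f x‖ ^ 2 / P.eta s x = P.eta s x * (‖f x‖ / P.eta s x) ^ 2 := by
      field_simp
    have h6 : ‖v x‖ * ‖f x‖ = P.eta s x * (‖v x‖ * (‖f x‖ / P.eta s x)) := by
      field_simp
    rw [h5, h6]
    nlinarith [mul_nonneg he.le (sq_nonneg (‖v x‖ - ‖f x‖ / P.eta s x))]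
  rw [← Finset.sum_div, Finset.sum_add_distrib] at h4
  have h5 : ∑ x ∈ X, P.eta s x * ‖v x‖ ^ 2 ≤ ∑ x, P.eta s x * ‖v x‖ ^ 2 :=
    Finset.sum_le_sum_of_subset_of_nonneg (Finset.subset_univ X) fun x _ _ =>
      mul_nonneg (h.eta0 s x) (sq_nonneg _)
  linarith

/-- the contraction for sources on the noise sites -/
theorem contr_be (s : T → Option D) (q : T → ℂ) :
    ∑ x, P.eta s x * ‖∑ w, ((be w ^ 2 : ℝ) : ℂ) * (q w * P.G s w x)‖ ^ 2 ≤
      8 * C * ∑ w, be w ^ 2 * ‖q w‖ ^ 2 := by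
  have h1 := h.contr s (fun w => ((be w ^ 2 : ℝ) : ℂ) * q w) (by
    intro x hx
    rw [h.beN x (fun h2 => hx (h.NX h2))]
    simp)
  have h2 : ∀ x, ∑ w, ((be w ^ 2 : ℝ) : ℂ) * (q w * P.G s w x) =
      ∑ w, P.G s x w * (((be w ^ 2 : ℝ) : ℂ) * q w) := by
    intro x
    refine Finset.sum_congr rfl fun w _ => ?_
    rw [h.symm s w x]
    ring
  simp only [h2]
  refine h1.trans ?_
  rw [Finset.mul_sum]
  have h3 : ∀ x ∈ X, ‖((be x ^ 2 : ℝ) : ℂ) * q x‖ ^ 2 / P.eta s x ≤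
      8 * C * (be x ^ 2 * ‖q x‖ ^ 2) := by
    intro x hx
    have he := h.etaX' s hx
    rw [div_le_iff₀ he, norm_mul, Complex.norm_real, Real.norm_eq_abs,
      abs_of_nonneg (sq_nonneg _), mul_pow]
    have h4 := h.bee x
    have h5 := h.etaLo s x
    have h6 : be x ^ 2 ≤ 8 * C * P.eta s x := by nlinarith [h.C0]
    have h7 : 0 ≤ be x ^ 2 * ‖q x‖ ^ 2 := by positivity
    nlinarith [mul_nonneg h7 (sub_nonneg.2 h6)]
  refine (Finset.sum_le_sum h3).trans ?_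
  refine Finset.sum_le_sum_of_subset_of_nonneg (Finset.subset_univ X) fun x _ _ => ?_
  have := h.C0
  positivity

/-- the row of `G ρ G` for coefficients `|ρ_w| ≤ ε β_w²` -/
theorem grg {s : T → Option D} (hs : P.Ent X 1 s) {rho : T → ℂ} {ep : ℝ}
    (hr : ∀ w, ‖rho w‖ ≤ ep * be w ^ 2) {x : T} (hx : x ∈ X) :
    ∑ y, P.eta s y * ‖∑ w, rho w * (P.G s x w * P.G s w y)‖ ^ 2 ≤ 128 * C ^ 3 * ep ^ 2 := by
  have h1 := h.contr s (fun w => rho w * P.G s x w) (by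
    intro z hz
    have h2 := hr z
    rw [h.beN z (fun h3 => hz (h.NX h3))] at h2
    have h3 : rho z = 0 := by
      rw [← norm_le_zero_iff]
      linarith
    rw [h3, zero_mul])
  have h2 : ∀ y, ∑ w, rho w * (P.G s x w * P.G s w y) =
      ∑ w, P.G s y w * (rho w * P.G s x w) := by
    intro y
    refine Finset.sum_congr rfl fun w _ => ?_
    rw [h.symm s w y]
    ring
  simp only [h2]
  refine h1.trans ?_
  have h3 : ∀ z ∈ X, ‖rho z * P.G s x z‖ ^ 2 / P.eta s z ≤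
      8 * C * ep ^ 2 * (be z ^ 2 * P.S s x z) := by
    intro z hz
    have he := h.etaX' s hz
    rw [div_le_iff₀ he, norm_mul, mul_pow]
    have h4 : ‖rho z‖ ^ 2 ≤ (ep * be z ^ 2) ^ 2 := pow_le_pow_left₀ (norm_nonneg _) (hr z) 2
    have h5 := h.bee z
    have h6 := h.etaLo s z
    have h7 : be z ^ 2 ≤ 8 * C * P.eta s z := by nlinarith [h.C0]
    have h8 : 0 ≤ ep ^ 2 * be z ^ 2 * P.S s x z := by
      have := h.S0 s x z
      positivity
    have h9 : ‖rho z‖ ^ 2 * ‖P.G s x z‖ ^ 2 ≤ (ep * be z ^ 2) ^ 2 * P.S s x z :=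
      mul_le_mul_of_nonneg_right h4 (sq_nonneg _)
    nlinarith [mul_nonneg h8 (sub_nonneg.2 h7)]
  have h4 : ∑ z ∈ X, be z ^ 2 * P.S s x z ≤ 16 * C ^ 2 :=
    (Finset.sum_le_sum_of_subset_of_nonneg (Finset.subset_univ X) fun z _ _ =>
      mul_nonneg (sq_nonneg _) (h.S0 s x z)).trans (h.row_be hs hx)
  calc _ ≤ ∑ z ∈ X, 8 * C * ep ^ 2 * (be z ^ 2 * P.S s x z) := Finset.sum_le_sum h3
    _ = 8 * C * ep ^ 2 * ∑ z ∈ X, be z ^ 2 * P.S s x z := by rw [Finset.mul_sum]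
    _ ≤ 8 * C * ep ^ 2 * (16 * C ^ 2) := by
        have := h.C0
        exact mul_le_mul_of_nonneg_left h4 (by positivity)
    _ = _ := by ring

end Ok

end Stp

end Pool.Agent.ANS
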