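import Pool.Agent.ANS.StB
import Pool.Agent.ANS.DigW

/-! # ANS DIGB: one digit of the step at any configuration, general laws (Part B; helper12)

The statements of Dig, DigM, DigW for the hypotheses `Stp.OkB`: the same names, with the changes
* `etaLo`: only at good sites; `etaX'`: the absorption is positive on `X` at every configuration;
* Ward sums `row_*`, `cs_*`, `contr_be`, `grg`: with `bo ok be s` in place of `be` (sites which are good at
  `s`); `be_eta`: `bo² ≤ C² η(s)`. -/

set_option autoImplicit false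
set_option linter.unusedSectionVars false

open Finset Function Matrix

noncomputable section

namespace Pool.Agent.ANS

open Pool.Agent.Kin Pool.Agent.APS Pool.Agent.ANL

variable {T D : Type} [Fintype T] [DecidableEq T] [Fintype D]

namespace Stp

variable {P : Stp T D} {ok : T → Option D → Prop} {X N : Finset T} {c be : T → ℝ}
  {e : T → Option D → ℝ} {C Lm : ℝ}

namespace OkB


variable (h : P.OkB ok X N c be e C Lm)
include h

theorem C0 : 0 ≤ C := by linarith [h.C1]

theorem be0 (w : T) : 0 ≤ be w := h.dig.be0 w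

theorem Cbe (w : T) : 100 * (C * be w) ≤ 1 := by
  have h1 := h.bes w
  have h2 := h.C1
  have h3 : 0 ≤ be w := h.be0 w
  have h4 : C * be w ≤ C ^ 2 * be w := by
    have : C ≤ C ^ 2 := by nlinarith
    exact mul_le_mul_of_nonneg_right this h3
  linarith

theorem be_le (w : T) : 100 * be w ≤ 1 := by
  have h1 := h.Cbe w
  have h2 := h.C1
  have h3 : 0 ≤ be w := h.be0 w
  nlinarith

/-- the law of the digit of `w` -/
theorem law (w : T) : Law (P.g.P w) (P.g.xi w) (P.g.zt w) (c w) (be w) where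
  P0 := h.dig.P0 w
  P1 := h.dig.P1 w
  m1 := h.dig.mean w
  m2 := h.dig.var w
  mz := h.dig.zt1 w
  be0 := h.dig.be0 w
  bx := h.dig.xi_le w
  bz := h.dig.zt_le w

theorem c0 (w : T) : 0 ≤ c w := (h.law w).c0

theorem c_le (w : T) : c w ≤ be w ^ 2 := (h.law w).c_le

theorem inc_off {w : T} (hw : w ∉ N) (d : Option D) : P.inc w d = 0 := by
  cases d with
  | none => rfl
  | some d =>
    have h1 := h.beN w hw
    have h2 := h.dig.xi_le w d
    have h3 := h.dig.zt_le w d
    rw [h1] at h2 h3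
    have h4 : P.g.xi w d = 0 := abs_nonpos_iff.1 h2
    have h5 : P.g.zt w d = 0 := abs_nonpos_iff.1 (h3.trans (by norm_num))
    simp [inc, h4, h5]

theorem gt_le {w : T} (hw : w ∈ X) : ‖P.gt w‖ ≤ C := by
  have h1 := h.dia w hw
  have h2 : P.G nil w w = P.gt w := by
    have h3 : P.bs nil = P.b := by
      funext x
      simp [bs, nil, inc]
    unfold G gt
    rw [h3]
  rwa [h2] at h1

theorem etaLo {s : T → Option D} {x : T} (hx : ok x (s x)) :
    P.eta nil x ≤ C * P.eta s x := by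
  have h0 : P.eta nil x = -(P.b x).im := by simp [eta, bs, nil, inc]
  have h1 : 0 ≤ P.eta nil x := by
    rw [h0]
    linarith [h.adm.im x]
  cases hs : s x with
  | none =>
    have h2 : P.eta s x = P.eta nil x := by simp [eta, bs, hs, nil, inc]
    rw [h2]
    nlinarith [h.C1]
  | some d =>
    have h2 : P.eta s x = P.eta nil x - P.g.zt x d * (P.gt x).im := by
      rw [h0]
      simp [eta, bs, hs, inc]
      ring
    rw [hs] at hx
    rw [h2]
    exact h.etk x d hx

/-- `Im gt ≥ 0` -/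
theorem gt_im (x : T) : 0 ≤ (P.gt x).im := ward_nonneg h.adm x

/-- the absorption does not increase -/
theorem etaLe (s : T → Option D) (x : T) : P.eta s x ≤ P.eta nil x := by
  have h0 : P.eta nil x = -(P.b x).im := by simp [eta, bs, nil, inc]
  cases hs : s x with
  | none =>
    have h2 : P.eta s x = P.eta nil x := by simp [eta, bs, hs, nil, inc]
    rw [h2]
  | some d =>
    have h2 : P.eta s x = P.eta nil x - P.g.zt x d * (P.gt x).im := by
      rw [h0]
      simp [eta, bs, hs, inc]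
      ring
    have h3 := mul_nonneg (h.zt0 x d) (h.gt_im x)
    linarith

theorem etaN0 (x : T) : 0 ≤ P.eta nil x := by
  have h0 : P.eta nil x = -(P.b x).im := by simp [eta, bs, nil, inc]
  rw [h0]
  linarith [h.adm.im x]

theorem etaX' (s : T → Option D) {x : T} (hx : x ∈ X) : 0 < P.eta s x := by
  have h0 : P.eta nil x = -(P.b x).im := by simp [eta, bs, nil, inc]
  have h1 := h.etaX x hx
  cases hs : s x with
  | none =>
    have h2 : P.eta s x = P.eta nil x := by simp [eta, bs, hs, nil, inc]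
    rw [h2]
    exact h1
  | some d =>
    have h2 : P.eta s x = P.eta nil x - P.g.zt x d * (P.gt x).im := by
      rw [h0]
      simp [eta, bs, hs, inc]
      ring
    have h3 := h.et1 x hx d
    linarith

theorem etaU' (s : T → Option D) {x : T} (hx : x ∉ X) : P.eta s x = 0 := by
  have hN : x ∉ N := fun h2 => hx (h.NX h2)
  have h2 : P.eta s x = P.eta nil x := by
    simp [eta, bs, h.inc_off hN]
  rw [h2]
  exact h.etaU x hx

theorem eta0 (s : T → Option D) (x : T) : 0 ≤ P.eta s x := by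
  by_cases hx : x ∈ X
  · exact (h.etaX' s hx).le
  · exact (h.etaU' s hx).ge

theorem etaHi (s : T → Option D) (x : T) : P.eta s x ≤ (1 + C ^ 2) * P.eta nil x := by
  have h1 : 0 ≤ P.eta nil x := h.eta0 nil x
  have h0 : P.eta nil x = -(P.b x).im := by simp [eta, bs, nil, inc]
  by_cases hx : x ∈ X
  · cases hs : s x with
    | none =>
      have h2 : P.eta s x = P.eta nil x := by simp [eta, bs, hs, nil, inc]
      rw [h2]
      nlinarith [mul_nonneg (sq_nonneg C) h1]
    | some d =>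
      have h2 : P.eta s x = P.eta nil x - P.g.zt x d * (P.gt x).im := by
        rw [h0]
        simp [eta, bs, hs, inc]
        ring
      have h3 : |P.g.zt x d * (P.gt x).im| ≤ be x ^ 2 * C := by
        rw [abs_mul]
        exact mul_le_mul (h.dig.zt_le x d) ((Complex.abs_im_le_norm _).trans (h.gt_le hx))
          (abs_nonneg _) (sq_nonneg _)
      have h4 := (abs_le.1 h3).1
      have h5 := mul_le_mul_of_nonneg_right (h.bee x) h.C0
      rw [h2]
      nlinarith
  · have hN : x ∉ N := fun h2 => hx (h.NX h2)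
    have h2 : P.eta s x = P.eta nil x := by
      simp [eta, bs, h.inc_off hN]
    rw [h2]
    nlinarith [mul_nonneg (sq_nonneg C) h1]

/-- the medium is admissible at every configuration -/
theorem adms (s : T → Option D) : Adm P.H (P.bs s) where
  sym := h.adm.sym
  im x := by
    have := h.eta0 s x
    unfold eta at this
    linarith
  unit := by
    rw [isUnit_iff_ne_zero]
    intro h0
    obtain ⟨v, hv, hv0⟩ := Matrix.exists_mulVec_eq_zero_iff.2 h0
    apply hv
    have h1 := form_im h.adm.sym (P.bs s) v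
    rw [hv0] at h1
    simp only [Pi.zero_apply, mul_zero, Finset.sum_const_zero, Complex.zero_im] at h1
    have h2 : ∀ x, ‖v x‖ ^ 2 * (P.bs s x).im ≤ 0 := fun x =>
      mul_nonpos_of_nonneg_of_nonpos (by positivity) (by
        have := h.eta0 s x
        unfold eta at this
        linarith)
    have h3 := (Finset.sum_eq_zero_iff_of_nonpos (fun x _ => h2 x)).1 h1.symm
    have h4 : ∀ x ∈ X, v x = 0 := by
      intro x hx
      have h5 := h3 x (Finset.mem_univ x)
      rcases mul_eq_zero.1 h5 with h6 | h6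
      · exact norm_eq_zero.1 (pow_eq_zero_iff (by norm_num) |>.1 h6)
      · have h7 := h.etaX' s hx
        unfold eta at h7
        linarith
    have h5 : (P.H + diagonal P.b) *ᵥ v = (P.H + diagonal (P.bs s)) *ᵥ v := by
      funext x
      rw [Matrix.add_mulVec, Matrix.add_mulVec, Pi.add_apply, Pi.add_apply,
        Matrix.mulVec_diagonal, Matrix.mulVec_diagonal]
      by_cases hx : x ∈ X
      · rw [h4 x hx]
        simp
      · have hN : x ∉ N := fun h2 => hx (h.NX h2)
        simp [bs, h.inc_off hN]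
    have h6 : (P.H + diagonal P.b) *ᵥ v = 0 := by
      rw [h5, hv0]
    have h7 := res_src h.adm v
    rw [h6] at h7
    rw [← h7]
    simp

theorem symm (s : T → Option D) (x y : T) : P.G s x y = P.G s y x := adm_symm (h.adms s) x y

omit h [Fintype D] in
theorem bs_up (P : Stp T D) (s : T → Option D) (w : T) (d : Option D) (x : T) :
    P.bs (update s w d) x - P.bs s x = if x = w then P.nu s w d else 0 := by
  by_cases hx : x = w
  · subst hx
    simp [bs, nu]
  · simp [bs, hx]

/-- resolvent identity -/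
theorem resid (s : T → Option D) (w : T) (d : Option D) (x y : T) :
    P.G s x y - P.G (update s w d) x y = P.G s x w * P.nu s w d * P.G (update s w d) w y := by
  have h1 := adm_sub (h.adms s) (h.adms (update s w d)) x y
  unfold G
  rw [h1, Finset.sum_eq_single w]
  · rw [bs_up, if_pos rfl]
  · intro z _ hz
    rw [bs_up, if_neg hz]
    ring
  · intro hw
    exact absurd (Finset.mem_univ w) hw

theorem den_ne (s : T → Option D) (w : T) (d : Option D) : 1 + P.nu s w d * P.G s w w ≠ 0 := by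
  intro h0
  have h1 := h.resid s w d w w
  -- if `1 + ν G_ww = 0` then `G_ww = 0` or the row vanishes
  have h2 : ∀ y, P.G s w y = 0 := by
    intro y
    have h3 := h.resid s w d w y
    have h4 : P.G s w y = (1 + P.nu s w d * P.G s w w) * P.G (update s w d) w y := by
      linear_combination h3
    rw [h4, h0, zero_mul]
  rw [h2 w, mul_zero, add_zero] at h0
  exact one_ne_zero h0

/-- the rank one formula for the column `w` -/
theorem rank1w (s : T → Option D) (w : T) (d : Option D) (y : T) :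
    P.G (update s w d) w y = P.G s w y / (1 + P.nu s w d * P.G s w w) := by
  rw [eq_div_iff (h.den_ne s w d)]
  have h3 := h.resid s w d w y
  linear_combination (-1 : ℂ) * h3

theorem rank1w' (s : T → Option D) (w : T) (d : Option D) (x : T) :
    P.G (update s w d) x w = P.G s x w / (1 + P.nu s w d * P.G s w w) := by
  rw [h.symm _ x w, h.rank1w, h.symm s x w]

/-- the rank one formula -/
theorem rank1 (s : T → Option D) (w : T) (d : Option D) (x y : T) :
    P.G (update s w d) x y = P.G s x y - P.u s w d * (P.G s x w * P.G s w y) := by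
  have h1 := h.resid s w d x y
  rw [h.rank1w] at h1
  have h2 := h.den_ne s w d
  unfold u
  field_simp at h1 ⊢
  linear_combination (-1 : ℂ) * h1

/-! ### sizes -/

theorem inc_le (w : T) (d : Option D) : ‖P.inc w d‖ ≤ 9 / 8 * be w := by
  by_cases hN : w ∈ N
  · cases d with
    | none =>
      simp only [inc, norm_zero]
      have := h.be0 w
      positivity
    | some d =>
      have h1 := h.bes w
      exact (h.law w).nu_le h.C1 (h.gt_le (h.NX hN)) (by nlinarith [mul_nonneg (sq_nonneg C) (h.be0 w)]) d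
  · rw [h.inc_off hN, norm_zero]
    have := h.be0 w
    positivity

theorem nu_le (s : T → Option D) (w : T) (d : Option D) : ‖P.nu s w d‖ ≤ 9 / 4 * be w := by
  unfold nu
  refine (norm_sub_le _ _).trans ?_
  have h1 := h.inc_le w d
  have h2 := h.inc_le w (s w)
  linarith

theorem diaC {s : T → Option D} (hs : P.Ent X 1 s) {x : T} (hx : x ∈ X) :
    ‖P.G s x x‖ ≤ 2 * C := by
  have h1 := hs x hx x hx
  have h2 := h.dia x hx
  have h3 : ‖P.G s x x‖ ≤ ‖P.G s x x - P.G nil x x‖ + ‖P.G nil x x‖ := by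
    have := norm_add_le (P.G s x x - P.G nil x x) (P.G nil x x)
    rwa [sub_add_cancel] at this
  have := h.C1
  linarith

theorem entL {s : T → Option D} (hs : P.Ent X 1 s) {x y : T} (hx : x ∈ X) (hy : y ∈ X) :
    ‖P.G s x y‖ ≤ 2 * Lm := by
  have h1 := hs x hx y hy
  have h2 := h.ent x hx y hy
  have h3 : ‖P.G s x y‖ ≤ ‖P.G s x y - P.G nil x y‖ + ‖P.G nil x y‖ := by
    have := norm_add_le (P.G s x y - P.G nil x y) (P.G nil x y)
    rwa [sub_add_cancel] at this
  have := h.Lm1
  linarith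

theorem nuG_le {s : T → Option D} (hs : P.Ent X 1 s) (w : T) (d : Option D) :
    ‖P.nu s w d * P.G s w w‖ ≤ 9 / 2 * (C * be w) := by
  have h0 := h.be0 w
  have hC := h.C0
  by_cases hN : w ∈ N
  · have hX := h.NX hN
    rw [norm_mul]
    calc ‖P.nu s w d‖ * ‖P.G s w w‖ ≤ 9 / 4 * be w * (2 * C) :=
          mul_le_mul (h.nu_le s w d) (h.diaC hs hX) (norm_nonneg _) (by positivity)
      _ = _ := by ring
  · have h1 : P.nu s w d = 0 := by
      unfold nu
      rw [h.inc_off hN, h.inc_off hN, sub_zero]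
    rw [h1, zero_mul, norm_zero]
    positivity

theorem den_ge {s : T → Option D} (hs : P.Ent X 1 s) (w : T) (d : Option D) :
    19 / 20 ≤ ‖1 + P.nu s w d * P.G s w w‖ := by
  have h1 := h.nuG_le hs w d
  have h2 := h.Cbe w
  have h3 : ‖(1 : ℂ)‖ - ‖P.nu s w d * P.G s w w‖ ≤ ‖1 + P.nu s w d * P.G s w w‖ := by
    have := norm_sub_le (1 + P.nu s w d * P.G s w w) (P.nu s w d * P.G s w w)
    rw [add_sub_cancel_right] at this
    linarith
  rw [norm_one] at h3
  linarith

theorem u_le {s : T → Option D} (hs : P.Ent X 1 s) (w : T) (d : Option D) :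
    ‖P.u s w d‖ ≤ 3 * be w := by
  have h0 := h.be0 w
  have h1 := h.nu_le s w d
  have h2 := h.den_ge hs w d
  unfold u
  rw [norm_div, div_le_iff₀ (by linarith)]
  nlinarith

/-! ### comparison of entries at `s` and at `s^{w→d}` -/

/-- the column `w` changes by a factor close to `1` -/
theorem cmp_w {s : T → Option D} (hs : P.Ent X 1 s) (w : T) (d : Option D) (x : T) :
    ‖P.G (update s w d) x w - P.G s x w‖ ≤ 6 * (C * be w) * ‖P.G s x w‖ := by
  have h0 := h.be0 w
  have hC := h.C0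
  have h1 : P.G (update s w d) x w - P.G s x w = -(P.u s w d * P.G s w w) * P.G s x w := by
    rw [h.rank1]
    ring
  by_cases hN : w ∈ N
  · have hX := h.NX hN
    rw [h1, norm_mul, norm_neg, norm_mul]
    refine mul_le_mul_of_nonneg_right ?_ (norm_nonneg _)
    calc ‖P.u s w d‖ * ‖P.G s w w‖ ≤ 3 * be w * (2 * C) :=
          mul_le_mul (h.u_le hs w d) (h.diaC hs hX) (norm_nonneg _) (by positivity)
      _ = _ := by ring
  · have h2 : P.u s w d = 0 := by
      unfold u nu
      rw [h.inc_off hN, h.inc_off hN, sub_zero, zero_div]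
    rw [h1, h2, zero_mul, neg_zero, zero_mul, norm_zero]
    positivity

theorem cmp_w1 {s : T → Option D} (hs : P.Ent X 1 s) (w : T) (d : Option D) (x : T) :
    ‖P.G (update s w d) x w‖ ≤ (1 + 6 * (C * be w)) * ‖P.G s x w‖ := by
  have h1 := h.cmp_w hs w d x
  have h2 : ‖P.G (update s w d) x w‖ ≤
      ‖P.G (update s w d) x w - P.G s x w‖ + ‖P.G s x w‖ := by
    have := norm_add_le (P.G (update s w d) x w - P.G s x w) (P.G s x w)
    rwa [sub_add_cancel] at this
  linarith

theorem cmp_w2 {s : T → Option D} (hs : P.Ent X 1 s) (w : T) (d : Option D) (x : T) :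
    ‖P.G (update s w d) x w‖ ≤ 53 / 50 * ‖P.G s x w‖ := by
  have h1 := h.cmp_w1 hs w d x
  have h2 := h.Cbe w
  nlinarith [norm_nonneg (P.G s x w)]

theorem cmp_xy {s : T → Option D} (hs : P.Ent X 1 s) (w : T) (d : Option D) (x y : T) :
    ‖P.G (update s w d) x y - P.G s x y‖ ≤ 3 * be w * (‖P.G s x w‖ * ‖P.G s w y‖) := by
  have h1 : P.G (update s w d) x y - P.G s x y = -(P.u s w d * (P.G s x w * P.G s w y)) := by
    rw [h.rank1]
    ring
  rw [h1, norm_neg, norm_mul, norm_mul]
  exact mul_le_mul_of_nonneg_right (h.u_le hs w d) (by positivity)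

/-- `S_xw` at `s^{w→d}` -/
theorem cmp_S {s : T → Option D} (hs : P.Ent X 1 s) (w : T) (d : Option D) (x : T) :
    |P.S (update s w d) x w - P.S s x w| ≤ 13 * (C * be w) * P.S s x w := by
  unfold S
  have h1 := h.cmp_w hs w d x
  have h2 := h.cmp_w1 hs w d x
  have h0 : 0 ≤ C * be w := mul_nonneg h.C0 (h.be0 w)
  have h5 := h.Cbe w
  have h3 : |‖P.G (update s w d) x w‖ - ‖P.G s x w‖| ≤ 6 * (C * be w) * ‖P.G s x w‖ :=
    (abs_norm_sub_norm_le _ _).trans h1
  have h4 : ‖P.G (update s w d) x w‖ ^ 2 - ‖P.G s x w‖ ^ 2 =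
      (‖P.G (update s w d) x w‖ - ‖P.G s x w‖) *
      (‖P.G (update s w d) x w‖ + ‖P.G s x w‖) := by ring
  rw [h4, abs_mul]
  have h6 : |‖P.G (update s w d) x w‖ + ‖P.G s x w‖| ≤
      (2 + 6 * (C * be w)) * ‖P.G s x w‖ := by
    rw [abs_of_nonneg (by positivity)]
    linarith
  have hn := norm_nonneg (P.G s x w)
  calc |‖P.G (update s w d) x w‖ - ‖P.G s x w‖| *
        |‖P.G (update s w d) x w‖ + ‖P.G s x w‖| ≤
        (6 * (C * be w) * ‖P.G s x w‖) * ((2 + 6 * (C * be w)) * ‖P.G s x w‖) :=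
        mul_le_mul h3 h6 (abs_nonneg _) (by positivity)
    _ = (C * be w) * (12 + 36 * (C * be w)) * ‖P.G s x w‖ ^ 2 := by ring
    _ ≤ 13 * (C * be w) * ‖P.G s x w‖ ^ 2 := by
        refine mul_le_mul_of_nonneg_right ?_ (sq_nonneg _)
        nlinarith



/-! ### exact mean increments -/

theorem drG (s : T → Option D) (w x y : T) :
    ∑ d, (P.g.P w d : ℂ) * P.G (update s w (some d)) x y - P.G (update s w none) x y =
      -(P.Dl s w * (P.G s x w * P.G s w y)) := by
  have h1 : ∑ d, (P.g.P w d : ℂ) * P.G (update s w (some d)) x y =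
      ((∑ d, P.g.P w d : ℝ) : ℂ) * P.G s x y -
      (∑ d, (P.g.P w d : ℂ) * P.u s w (some d)) * (P.G s x w * P.G s w y) := by
    push_cast
    rw [Finset.sum_mul, Finset.sum_mul, ← Finset.sum_sub_distrib]
    refine Finset.sum_congr rfl fun d _ => ?_
    rw [h.rank1]
    ring
  rw [h1, h.dig.P1 w, h.rank1 s w none x y]
  unfold Dl
  push_cast
  ring

omit h [Fintype T] [DecidableEq T] [Fintype D] in
theorem nsq_sub (a b : ℂ) : ‖a - b‖ ^ 2 = ‖a‖ ^ 2 - 2 * (b * star a).re + ‖b‖ ^ 2 := by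
  rw [← Complex.normSq_eq_norm_sq, ← Complex.normSq_eq_norm_sq, ← Complex.normSq_eq_norm_sq,
    Complex.normSq_apply, Complex.normSq_apply, Complex.normSq_apply]
  simp
  ring

theorem S_up (s : T → Option D) (w : T) (d : Option D) (x y : T) :
    P.S (update s w d) x y = P.S s x y -
      2 * (P.u s w d * (P.G s x w * P.G s w y) * star (P.G s x y)).re +
      ‖P.u s w d‖ ^ 2 * (P.S s x w * P.S s w y) := by
  unfold S
  rw [h.rank1, nsq_sub, norm_mul, norm_mul]
  ring

theorem drS (s : T → Option D) (w x y : T) :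
    ∑ d, P.g.P w d * P.S (update s w (some d)) x y - P.S (update s w none) x y =
      -2 * (P.Dl s w * (P.G s x w * P.G s w y) * star (P.G s x y)).re +
        P.M2 s w * (P.S s x w * P.S s w y) := by
  have h1 : ∑ d, P.g.P w d * P.S (update s w (some d)) x y =
      (∑ d, P.g.P w d) * P.S s x y -
      2 * ((∑ d, (P.g.P w d : ℂ) * P.u s w (some d)) *
        ((P.G s x w * P.G s w y) * star (P.G s x y))).re +
      (∑ d, P.g.P w d * ‖P.u s w (some d)‖ ^ 2) * (P.S s x w * P.S s w y) := by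
    rw [Finset.sum_mul, Finset.sum_mul, Finset.sum_mul, Complex.re_sum, Finset.mul_sum,
      ← Finset.sum_sub_distrib, ← Finset.sum_add_distrib]
    refine Finset.sum_congr rfl fun d _ => ?_
    rw [h.S_up]
    have h2 : ((P.g.P w d : ℂ) * P.u s w (some d) *
        ((P.G s x w * P.G s w y) * star (P.G s x y))).re =
        P.g.P w d * (P.u s w (some d) * (P.G s x w * P.G s w y) * star (P.G s x y)).re := by
      rw [← Complex.re_ofReal_mul]
      congr 1
      ring
    rw [h2]
    ring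
  rw [h1, h.dig.P1 w, h.S_up s w none x y]
  unfold Dl M2
  have h3 : ((∑ d, (P.g.P w d : ℂ) * P.u s w (some d) - P.u s w none) *
      (P.G s x w * P.G s w y) * star (P.G s x y)).re =
      ((∑ d, (P.g.P w d : ℂ) * P.u s w (some d)) *
        ((P.G s x w * P.G s w y) * star (P.G s x y))).re -
      (P.u s w none * (P.G s x w * P.G s w y) * star (P.G s x y)).re := by
    rw [← Complex.sub_re]
    congr 1
    ring
  rw [h3]
  ring

theorem drR (s : T → Option D) (w x y : T) :
    ∑ d, (P.g.P w d : ℂ) * P.G (update s w (some d)) x y ^ 2 - P.G (update s w none) x y ^ 2 =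
      -2 * (P.Dl s w * (P.G s x w * P.G s w y) * P.G s x y) +
        P.M2c s w * (P.G s x w ^ 2 * P.G s w y ^ 2) := by
  have h1 : ∑ d, (P.g.P w d : ℂ) * P.G (update s w (some d)) x y ^ 2 =
      ((∑ d, P.g.P w d : ℝ) : ℂ) * P.G s x y ^ 2 -
      2 * ((∑ d, (P.g.P w d : ℂ) * P.u s w (some d)) *
        ((P.G s x w * P.G s w y) * P.G s x y)) +
      (∑ d, (P.g.P w d : ℂ) * P.u s w (some d) ^ 2) * (P.G s x w ^ 2 * P.G s w y ^ 2) := by
    push_cast
    rw [Finset.sum_mul, Finset.sum_mul, Finset.sum_mul, Finset.mul_sum,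
      ← Finset.sum_sub_distrib, ← Finset.sum_add_distrib]
    refine Finset.sum_congr rfl fun d _ => ?_
    rw [h.rank1]
    ring
  rw [h1, h.dig.P1 w, h.rank1 s w none x y]
  unfold Dl M2c
  push_cast
  ring

/-! ### the means of the coefficient -/

/-- the coefficient from the unread configuration -/
theorem u_none (s : T → Option D) (w : T) (d : D) :
    P.u (update s w none) w (some d) =
      Law.uu (P.g.xi w) (P.g.zt w) (P.gt w) (P.G (update s w none) w w) d := by
  unfold u Law.uu nu Law.nu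
  simp [inc]

/-- `u(w→d) = u₀ + u° κ` -/
theorem u_split (s : T → Option D) (w : T) (d : Option D) :
    P.u s w d = P.u s w none + P.u (update s w none) w d * (1 - P.u s w none * P.G s w w) ^ 2 := by
  have h1 := h.den_ne s w none
  have h2 := h.den_ne s w d
  have h3 := h.den_ne (update s w none) w d
  have h4 := h.rank1w s w none w
  have h5 : P.nu (update s w none) w d = P.nu s w d - P.nu s w none := by
    unfold nu
    simp
  rw [h4, h5] at h3
  unfold u
  rw [h4, h5]
  set a := P.nu s w none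
  set b := P.nu s w d
  set G := P.G s w w
  have h6 : 1 + (b - a) * (G / (1 + a * G)) = (1 + b * G) / (1 + a * G) := by
    field_simp
    ring
  rw [h6]
  have h7 : 1 - a / (1 + a * G) * G = 1 / (1 + a * G) := by
    field_simp
    ring
  rw [h7]
  have hA : ∃ A, A = 1 + a * G := ⟨_, rfl⟩
  have hB : ∃ B, B = 1 + b * G := ⟨_, rfl⟩
  obtain ⟨A, hA⟩ := hA
  obtain ⟨B, hB⟩ := hB
  rw [← hA, ← hB]
  rw [← hA] at h1
  rw [← hB] at h2
  field_simp
  rw [hA, hB]
  ring

omit h [Fintype D] in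
theorem g_le {s : T → Option D} (hs : P.Ent X 1 s) {w : T} (hw : w ∈ X) :
    ‖P.G s w w - P.gt w‖ ≤ 1 := by
  have h2 : P.G nil w w = P.gt w := by
    have h3 : P.bs nil = P.b := by
      funext x
      simp [bs, nil, inc]
    unfold G gt
    rw [h3]
  rw [← h2]
  exact hs w hw w hw

/-- facts about the coefficient `u₀` and the factor `κ` at a site of `N` -/
private lemma base {s : T → Option D} (hs : P.Ent X 1 s) {w : T} (hN : w ∈ N) :
    ‖P.u s w none‖ ≤ 3 * be w ∧ ‖P.G (update s w none) w w‖ ≤ 3 * C ∧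
    ‖P.G (update s w none) w w - P.G s w w‖ ≤ 12 * C ^ 2 * be w ∧
    ‖(1 - P.u s w none * P.G s w w) ^ 2 - 1‖ ≤ 13 * C * be w := by
  have hX := h.NX hN
  have h0 := h.be0 w
  have hC := h.C0
  have h1 := h.u_le hs w none
  have h2 := h.diaC hs hX
  have h3 := h.cmp_w2 hs w none w
  have h4 := h.cmp_xy hs w none w w
  have h5 := h.Cbe w
  have h6 : ‖P.u s w none * P.G s w w‖ ≤ 6 * (C * be w) := by
    rw [norm_mul]
    calc ‖P.u s w none‖ * ‖P.G s w w‖ ≤ 3 * be w * (2 * C) :=
          mul_le_mul h1 h2 (norm_nonneg _) (by positivity)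
      _ = _ := by ring
  refine ⟨h1, by linarith, ?_, ?_⟩
  · refine h4.trans ?_
    calc 3 * be w * (‖P.G s w w‖ * ‖P.G s w w‖) ≤ 3 * be w * ((2 * C) * (2 * C)) := by
          refine mul_le_mul_of_nonneg_left ?_ (by positivity)
          exact mul_le_mul h2 h2 (norm_nonneg _) (by positivity)
      _ = _ := by ring
  · have h7 : (1 - P.u s w none * P.G s w w) ^ 2 - 1 =
        -(P.u s w none * P.G s w w) * (2 - P.u s w none * P.G s w w) := by ring
    rw [h7, norm_mul, norm_neg]
    have h8 : ‖2 - P.u s w none * P.G s w w‖ ≤ 2 + 6 * (C * be w) := by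
      refine (norm_sub_le _ _).trans ?_
      rw [Complex.norm_ofNat]
      linarith
    have h9 : 0 ≤ C * be w := mul_nonneg hC h0
    calc ‖P.u s w none * P.G s w w‖ * ‖2 - P.u s w none * P.G s w w‖ ≤
          (6 * (C * be w)) * (2 + 6 * (C * be w)) :=
          mul_le_mul h6 h8 (norm_nonneg _) (by positivity)
      _ ≤ 13 * C * be w := by nlinarith

private lemma c3 {w : T} : 8 * (3 * C) ^ 2 * be w ≤ 1 := by
  have := h.bes w
  have h1 : 0 ≤ C ^ 2 * be w := mul_nonneg (sq_nonneg C) (h.be0 w)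
  nlinarith

/-- mean of `u°` -/
private lemma ubar {s : T → Option D} (hs : P.Ent X 1 s) {w : T} (hN : w ∈ N) :
    ‖∑ d, (P.g.P w d : ℂ) * P.u (update s w none) w (some d) +
      (c w : ℂ) * (P.G s w w - P.gt w)‖ ≤ 147 * C ^ 3 * be w ^ 3 := by
  obtain ⟨-, h2, h3, -⟩ := h.base hs hN
  have hC1 := h.C1
  have hC := h.C0
  have h0 := h.be0 w
  have h1 := (h.law w).u_mean (C := 3 * C) (gt := P.gt w) (G := P.G (update s w none) w w)
    (by linarith) ((h.gt_le (h.NX hN)).trans (by linarith)) h2 h.c3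
  have e1 : ∑ d, (P.g.P w d : ℂ) * P.u (update s w none) w (some d) =
      ∑ d, (P.g.P w d : ℂ) *
        Law.uu (P.g.xi w) (P.g.zt w) (P.gt w) (P.G (update s w none) w w) d :=
    Finset.sum_congr rfl fun d _ => by rw [h.u_none]
  have e2 : ∑ d, (P.g.P w d : ℂ) * P.u (update s w none) w (some d) +
      (c w : ℂ) * (P.G s w w - P.gt w) =
      (∑ d, (P.g.P w d : ℂ) *
        Law.uu (P.g.xi w) (P.g.zt w) (P.gt w) (P.G (update s w none) w w) d +
        (c w : ℂ) * (P.G (update s w none) w w - P.gt w)) -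
      (c w : ℂ) * (P.G (update s w none) w w - P.G s w w) := by
    rw [e1]
    ring
  rw [e2]
  refine (norm_sub_le _ _).trans ?_
  have e3 : ‖(c w : ℂ) * (P.G (update s w none) w w - P.G s w w)‖ ≤
      be w ^ 2 * (12 * C ^ 2 * be w) := by
    rw [norm_mul, Complex.norm_real, Real.norm_eq_abs, abs_of_nonneg (h.c0 w)]
    exact mul_le_mul (h.c_le w) h3 (norm_nonneg _) (sq_nonneg _)
  have hb3 : 0 ≤ be w ^ 3 := by positivity
  have hCC : C ^ 2 ≤ C ^ 3 := by nlinarith [sq_nonneg C]
  have e4 := mul_nonneg hb3 (sub_nonneg.2 hCC)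
  calc _ ≤ 5 * (3 * C) ^ 3 * be w ^ 3 + be w ^ 2 * (12 * C ^ 2 * be w) := add_le_add h1 e3
    _ ≤ 147 * C ^ 3 * be w ^ 3 := by nlinarith

private lemma ubar2 {s : T → Option D} (hs : P.Ent X 1 s) {w : T} (hN : w ∈ N) :
    ‖∑ d, (P.g.P w d : ℂ) * P.u (update s w none) w (some d)‖ ≤ 3 * C * be w ^ 2 := by
  have h1 := h.ubar hs hN
  have h0 := h.be0 w
  have hC := h.C0
  have hC1 := h.C1
  have hg := g_le hs (h.NX hN)
  have e1 : ‖(c w : ℂ) * (P.G s w w - P.gt w)‖ ≤ be w ^ 2 * 1 := by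
    rw [norm_mul, Complex.norm_real, Real.norm_eq_abs, abs_of_nonneg (h.c0 w)]
    exact mul_le_mul (h.c_le w) hg (norm_nonneg _) (sq_nonneg _)
  have e2 : ‖∑ d, (P.g.P w d : ℂ) * P.u (update s w none) w (some d)‖ ≤
      ‖∑ d, (P.g.P w d : ℂ) * P.u (update s w none) w (some d) +
      (c w : ℂ) * (P.G s w w - P.gt w)‖ + ‖(c w : ℂ) * (P.G s w w - P.gt w)‖ := by
    have := norm_sub_le (∑ d, (P.g.P w d : ℂ) * P.u (update s w none) w (some d) +
      (c w : ℂ) * (P.G s w w - P.gt w)) ((c w : ℂ) * (P.G s w w - P.gt w))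
    rwa [add_sub_cancel_right] at this
  have h5 := h.bes w
  have e3 : 147 * C ^ 3 * be w ^ 3 ≤ 3 / 2 * (C * be w ^ 2) := by
    have : 147 * C ^ 3 * be w ^ 3 = (147 / 100) * (100 * C ^ 2 * be w) * (C * be w ^ 2) := by ring
    rw [this]
    have : 0 ≤ C * be w ^ 2 := by positivity
    nlinarith
  have e4 : be w ^ 2 ≤ C * be w ^ 2 := by nlinarith [sq_nonneg (be w)]
  have e5 : 0 ≤ C * be w ^ 2 := by positivity
  linarith

/-- `∑ P u - u(none) = - c g_w + O(β³)` -/
theorem Dl_est {s : T → Option D} (hs : P.Ent X 1 s) (w : T) :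
    ‖P.Dl s w + (c w : ℂ) * (P.G s w w - P.gt w)‖ ≤ 200 * C ^ 3 * be w ^ 3 := by
  have h0 := h.be0 w
  have hC := h.C0
  have hC1 := h.C1
  by_cases hN : w ∈ N
  · obtain ⟨-, -, -, h4⟩ := h.base hs hN
    have h5 := h.ubar hs hN
    have h6 := h.ubar2 hs hN
    set κ := (1 - P.u s w none * P.G s w w) ^ 2 with hκ
    have e1 : P.Dl s w = κ * ∑ d, (P.g.P w d : ℂ) * P.u (update s w none) w (some d) := by
      unfold Dl
      have e2 : ∑ d, (P.g.P w d : ℂ) * P.u s w (some d) =
          ((∑ d, P.g.P w d : ℝ) : ℂ) * P.u s w none +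
          κ * ∑ d, (P.g.P w d : ℂ) * P.u (update s w none) w (some d) := by
        push_cast
        rw [Finset.sum_mul, Finset.mul_sum, ← Finset.sum_add_distrib]
        refine Finset.sum_congr rfl fun d _ => ?_
        rw [h.u_split s w (some d)]
        ring
      rw [e2, h.dig.P1 w]
      push_cast
      ring
    have e3 : P.Dl s w + (c w : ℂ) * (P.G s w w - P.gt w) =
        (κ - 1) * ∑ d, (P.g.P w d : ℂ) * P.u (update s w none) w (some d) +
        (∑ d, (P.g.P w d : ℂ) * P.u (update s w none) w (some d) +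
          (c w : ℂ) * (P.G s w w - P.gt w)) := by
      rw [e1]
      ring
    rw [e3]
    refine (norm_add_le _ _).trans ?_
    rw [norm_mul]
    have hb3 : 0 ≤ be w ^ 3 := by positivity
    have hCC : C ^ 2 ≤ C ^ 3 := by nlinarith [sq_nonneg C]
    have e4 := mul_nonneg hb3 (sub_nonneg.2 hCC)
    calc _ ≤ (13 * C * be w) * (3 * C * be w ^ 2) + 147 * C ^ 3 * be w ^ 3 :=
          add_le_add (mul_le_mul h4 h6 (norm_nonneg _) (by positivity)) h5
      _ ≤ 200 * C ^ 3 * be w ^ 3 := by nlinarith [mul_nonneg hb3 (pow_nonneg hC 3)]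
  · have h1 : ∀ d, P.u s w d = 0 := by
      intro d
      unfold u nu
      rw [h.inc_off hN, h.inc_off hN, sub_zero, zero_div]
    have h2 : c w = 0 := by
      have h3 := h.c_le w
      rw [h.beN w hN] at h3
      exact le_antisymm (h3.trans (by norm_num)) (h.c0 w)
    unfold Dl
    simp [h1, h2]
    positivity

/-- `∑ P |u|² - |u(none)|² = c + O(β³)` -/
theorem M2_est {s : T → Option D} (hs : P.Ent X 1 s) (w : T) :
    |P.M2 s w - c w| ≤ 250 * C ^ 2 * be w ^ 3 := by
  have h0 := h.be0 w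
  have hC := h.C0
  have hC1 := h.C1
  by_cases hN : w ∈ N
  · obtain ⟨h1, h2, -, h4⟩ := h.base hs hN
    have h6 := h.ubar2 hs hN
    have hbe := h.Cbe w
    set κ := (1 - P.u s w none * P.G s w w) ^ 2 with hκ
    set u0 := P.u s w none
    have hκn : ‖κ‖ ≤ 113 / 100 := by
      have e1 : ‖κ‖ ≤ ‖κ - 1‖ + ‖(1 : ℂ)‖ := by
        have := norm_add_le (κ - 1) 1
        rwa [sub_add_cancel] at this
      rw [norm_one] at e1
      linarith
    have hκ2 : |‖κ‖ ^ 2 - 1| ≤ 28 * C * be w := by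
      have e1 : |‖κ‖ - 1| ≤ 13 * C * be w := by
        have := abs_norm_sub_norm_le κ 1
        rw [norm_one] at this
        exact this.trans h4
      have e2 : ‖κ‖ ^ 2 - 1 = (‖κ‖ - 1) * (‖κ‖ + 1) := by ring
      rw [e2, abs_mul, abs_of_nonneg (by positivity : 0 ≤ ‖κ‖ + 1)]
      calc |‖κ‖ - 1| * (‖κ‖ + 1) ≤ (13 * C * be w) * (213 / 100) :=
            mul_le_mul e1 (by linarith) (by positivity) (by positivity)
        _ ≤ 28 * C * be w := by nlinarith [mul_nonneg hC h0]
    have h7 := (h.law w).u_nsq (C := 3 * C) (gt := P.gt w) (G := P.G (update s w none) w w)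
      (by linarith) ((h.gt_le (h.NX hN)).trans (by linarith)) h2 h.c3
    have h8 : ∀ d, ‖P.u (update s w none) w (some d)‖ ^ 2 ≤ 4 * be w ^ 2 := by
      intro d
      rw [h.u_none]
      have := (h.law w).u_le (C := 3 * C) (gt := P.gt w) (G := P.G (update s w none) w w)
        (by linarith) ((h.gt_le (h.NX hN)).trans (by linarith)) h2 h.c3 d
      calc _ ≤ (2 * be w) ^ 2 := pow_le_pow_left₀ (norm_nonneg _) this 2
        _ = 4 * be w ^ 2 := by ring
    have e1 : ∀ d, ‖P.u s w (some d)‖ ^ 2 = ‖u0‖ ^ 2 +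
        2 * (P.u (update s w none) w (some d) * (κ * star u0)).re +
        ‖κ‖ ^ 2 * ‖P.u (update s w none) w (some d)‖ ^ 2 := by
      intro d
      have e2 : P.u s w (some d) = u0 - -(P.u (update s w none) w (some d) * κ) := by
        rw [h.u_split s w (some d)]
        ring
      rw [e2, nsq_sub, norm_neg, norm_mul]
      have e3 : (-(P.u (update s w none) w (some d) * κ) * star u0).re =
          -(P.u (update s w none) w (some d) * (κ * star u0)).re := by
        rw [← Complex.neg_re]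
        congr 1
        ring
      rw [e3]
      ring
    have e4 : P.M2 s w - c w =
        2 * ((∑ d, (P.g.P w d : ℂ) * P.u (update s w none) w (some d)) * (κ * star u0)).re +
        (‖κ‖ ^ 2 - 1) * ∑ d, P.g.P w d * ‖P.u (update s w none) w (some d)‖ ^ 2 +
        (∑ d, P.g.P w d * ‖P.u (update s w none) w (some d)‖ ^ 2 - c w) := by
      unfold M2
      have e5 : ∑ d, P.g.P w d * ‖P.u s w (some d)‖ ^ 2 =
          (∑ d, P.g.P w d) * ‖u0‖ ^ 2 +
          2 * ((∑ d, (P.g.P w d : ℂ) * P.u (update s w none) w (some d)) * (κ * star u0)).re +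
          ‖κ‖ ^ 2 * ∑ d, P.g.P w d * ‖P.u (update s w none) w (some d)‖ ^ 2 := by
        rw [Finset.sum_mul, Finset.sum_mul, Complex.re_sum, Finset.mul_sum, Finset.mul_sum,
          ← Finset.sum_add_distrib, ← Finset.sum_add_distrib]
        refine Finset.sum_congr rfl fun d _ => ?_
        rw [e1 d]
        have e6 : ((P.g.P w d : ℂ) * P.u (update s w none) w (some d) * (κ * star u0)).re =
            P.g.P w d * (P.u (update s w none) w (some d) * (κ * star u0)).re := by
          rw [← Complex.re_ofReal_mul]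
          congr 1
          ring
        rw [e6]
        ring
      rw [e5, h.dig.P1 w]
      ring
    rw [e4]
    have f1 : |2 * ((∑ d, (P.g.P w d : ℂ) * P.u (update s w none) w (some d)) *
        (κ * star u0)).re| ≤ 21 * C * be w ^ 3 := by
      rw [abs_mul, abs_two]
      have e7 : |((∑ d, (P.g.P w d : ℂ) * P.u (update s w none) w (some d)) *
          (κ * star u0)).re| ≤ (3 * C * be w ^ 2) * (113 / 100 * (3 * be w)) := by
        refine (Complex.abs_re_le_norm _).trans ?_
        rw [norm_mul, norm_mul, norm_star]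
        exact mul_le_mul h6 (mul_le_mul hκn h1 (norm_nonneg _) (by norm_num)) (by positivity)
          (by positivity)
      have : 0 ≤ C * be w ^ 3 := by positivity
      nlinarith
    have f2 : |(‖κ‖ ^ 2 - 1) * ∑ d, P.g.P w d * ‖P.u (update s w none) w (some d)‖ ^ 2| ≤
        112 * C * be w ^ 3 := by
      rw [abs_mul]
      have e8 : |∑ d, P.g.P w d * ‖P.u (update s w none) w (some d)‖ ^ 2| ≤ 4 * be w ^ 2 :=
        (h.law w).mean_le fun d => by
          rw [abs_of_nonneg (by positivity)]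
          exact h8 d
      calc _ ≤ (28 * C * be w) * (4 * be w ^ 2) :=
            mul_le_mul hκ2 e8 (abs_nonneg _) (by positivity)
        _ = _ := by ring
    have f3 : |∑ d, P.g.P w d * ‖P.u (update s w none) w (some d)‖ ^ 2 - c w| ≤
        72 * C ^ 2 * be w ^ 3 := by
      have e9 : ∑ d, P.g.P w d * ‖P.u (update s w none) w (some d)‖ ^ 2 =
          ∑ d, P.g.P w d *
          ‖Law.uu (P.g.xi w) (P.g.zt w) (P.gt w) (P.G (update s w none) w w) d‖ ^ 2 :=
        Finset.sum_congr rfl fun d _ => by rw [h.u_none]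
      rw [e9]
      refine h7.trans (le_of_eq ?_)
      ring
    have hb3 : 0 ≤ be w ^ 3 := by positivity
    have hCC : C ≤ C ^ 2 := by nlinarith
    have e10 := mul_nonneg hb3 (sub_nonneg.2 hCC)
    have e11 : 0 ≤ C ^ 2 * be w ^ 3 := by positivity
    refine (abs_add_three _ _ _).trans ?_
    nlinarith
  · have h1 : ∀ d, P.u s w d = 0 := by
      intro d
      unfold u nu
      rw [h.inc_off hN, h.inc_off hN, sub_zero, zero_div]
    have h2 : c w = 0 := by
      have h3 := h.c_le w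
      rw [h.beN w hN] at h3
      exact le_antisymm (h3.trans (by norm_num)) (h.c0 w)
    unfold M2
    simp [h1, h2]
    positivity

/-- `∑ P u² - u(none)² = c + O(β³)` -/
theorem M2c_est {s : T → Option D} (hs : P.Ent X 1 s) (w : T) :
    ‖P.M2c s w - (c w : ℂ)‖ ≤ 250 * C ^ 2 * be w ^ 3 := by
  have h0 := h.be0 w
  have hC := h.C0
  have hC1 := h.C1
  by_cases hN : w ∈ N
  · obtain ⟨h1, h2, -, h4⟩ := h.base hs hN
    have h6 := h.ubar2 hs hN
    have hbe := h.Cbe w
    set κ := (1 - P.u s w none * P.G s w w) ^ 2 with hκ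
    set u0 := P.u s w none
    have hκn : ‖κ‖ ≤ 113 / 100 := by
      have e1 : ‖κ‖ ≤ ‖κ - 1‖ + ‖(1 : ℂ)‖ := by
        have := norm_add_le (κ - 1) 1
        rwa [sub_add_cancel] at this
      rw [norm_one] at e1
      linarith
    have hκ2 : ‖κ ^ 2 - 1‖ ≤ 28 * C * be w := by
      have e2 : κ ^ 2 - 1 = (κ - 1) * (κ + 1) := by ring
      have e3 : ‖κ + 1‖ ≤ 213 / 100 := by
        refine (norm_add_le _ _).trans ?_
        rw [norm_one]
        linarith
      rw [e2, norm_mul]
      calc ‖κ - 1‖ * ‖κ + 1‖ ≤ (13 * C * be w) * (213 / 100) :=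
            mul_le_mul h4 e3 (by positivity) (by positivity)
        _ ≤ 28 * C * be w := by nlinarith [mul_nonneg hC h0]
    have h7 := (h.law w).u_sq (C := 3 * C) (gt := P.gt w) (G := P.G (update s w none) w w)
      (by linarith) ((h.gt_le (h.NX hN)).trans (by linarith)) h2 h.c3
    have h8 : ∀ d, ‖P.u (update s w none) w (some d) ^ 2‖ ≤ 4 * be w ^ 2 := by
      intro d
      rw [h.u_none, norm_pow]
      have := (h.law w).u_le (C := 3 * C) (gt := P.gt w) (G := P.G (update s w none) w w)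
        (by linarith) ((h.gt_le (h.NX hN)).trans (by linarith)) h2 h.c3 d
      calc _ ≤ (2 * be w) ^ 2 := pow_le_pow_left₀ (norm_nonneg _) this 2
        _ = 4 * be w ^ 2 := by ring
    have e4 : P.M2c s w - (c w : ℂ) =
        2 * ((∑ d, (P.g.P w d : ℂ) * P.u (update s w none) w (some d)) * (κ * u0)) +
        (κ ^ 2 - 1) * ∑ d, (P.g.P w d : ℂ) * P.u (update s w none) w (some d) ^ 2 +
        (∑ d, (P.g.P w d : ℂ) * P.u (update s w none) w (some d) ^ 2 - (c w : ℂ)) := by
      unfold M2c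
      have e5 : ∑ d, (P.g.P w d : ℂ) * P.u s w (some d) ^ 2 =
          ((∑ d, P.g.P w d : ℝ) : ℂ) * u0 ^ 2 +
          2 * ((∑ d, (P.g.P w d : ℂ) * P.u (update s w none) w (some d)) * (κ * u0)) +
          κ ^ 2 * ∑ d, (P.g.P w d : ℂ) * P.u (update s w none) w (some d) ^ 2 := by
        push_cast
        rw [Finset.sum_mul, Finset.sum_mul, Finset.mul_sum, Finset.mul_sum,
          ← Finset.sum_add_distrib, ← Finset.sum_add_distrib]
        refine Finset.sum_congr rfl fun d _ => ?_
        rw [h.u_split s w (some d)]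
        ring
      rw [e5, h.dig.P1 w]
      push_cast
      ring
    rw [e4]
    have f1 : ‖2 * ((∑ d, (P.g.P w d : ℂ) * P.u (update s w none) w (some d)) *
        (κ * u0))‖ ≤ 21 * C * be w ^ 3 := by
      rw [norm_mul, norm_mul, norm_mul, Complex.norm_ofNat]
      have e7 : ‖∑ d, (P.g.P w d : ℂ) * P.u (update s w none) w (some d)‖ * (‖κ‖ * ‖u0‖) ≤
          (3 * C * be w ^ 2) * (113 / 100 * (3 * be w)) :=
        mul_le_mul h6 (mul_le_mul hκn h1 (norm_nonneg _) (by norm_num)) (by positivity)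
          (by positivity)
      have : 0 ≤ C * be w ^ 3 := by positivity
      nlinarith
    have f2 : ‖(κ ^ 2 - 1) * ∑ d, (P.g.P w d : ℂ) * P.u (update s w none) w (some d) ^ 2‖ ≤
        112 * C * be w ^ 3 := by
      rw [norm_mul]
      have e8 := (h.law w).cmean_le h8
      calc _ ≤ (28 * C * be w) * (4 * be w ^ 2) :=
            mul_le_mul hκ2 e8 (norm_nonneg _) (by positivity)
        _ = _ := by ring
    have f3 : ‖∑ d, (P.g.P w d : ℂ) * P.u (update s w none) w (some d) ^ 2 - (c w : ℂ)‖ ≤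
        72 * C ^ 2 * be w ^ 3 := by
      have e9 : ∑ d, (P.g.P w d : ℂ) * P.u (update s w none) w (some d) ^ 2 =
          ∑ d, (P.g.P w d : ℂ) *
          Law.uu (P.g.xi w) (P.g.zt w) (P.gt w) (P.G (update s w none) w w) d ^ 2 :=
        Finset.sum_congr rfl fun d _ => by rw [h.u_none]
      rw [e9]
      refine h7.trans (le_of_eq ?_)
      ring
    have hb3 : 0 ≤ be w ^ 3 := by positivity
    have hCC : C ≤ C ^ 2 := by nlinarith
    have e10 := mul_nonneg hb3 (sub_nonneg.2 hCC)
    have e11 : 0 ≤ C ^ 2 * be w ^ 3 := by positivity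
    refine norm_add₃_le.trans ?_
    nlinarith
  · have h1 : ∀ d, P.u s w d = 0 := by
      intro d
      unfold u nu
      rw [h.inc_off hN, h.inc_off hN, sub_zero, zero_div]
    have h2 : c w = 0 := by
      have h3 := h.c_le w
      rw [h.beN w hN] at h3
      exact le_antisymm (h3.trans (by norm_num)) (h.c0 w)
    unfold M2c
    simp [h1, h2]
    positivity

/-- the mean coefficient in the form used by the components -/
theorem Dl_le {s : T → Option D} (hs : P.Ent X 1 s) (w : T) :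
    ‖P.Dl s w‖ ≤ be w ^ 2 * (‖P.G s w w - P.gt w‖ + 200 * C ^ 3 * be w) := by
  have h1 := h.Dl_est hs w
  have h2 : ‖P.Dl s w‖ ≤ ‖P.Dl s w + (c w : ℂ) * (P.G s w w - P.gt w)‖ +
      ‖(c w : ℂ) * (P.G s w w - P.gt w)‖ := by
    have := norm_sub_le (P.Dl s w + (c w : ℂ) * (P.G s w w - P.gt w))
      ((c w : ℂ) * (P.G s w w - P.gt w))
    rwa [add_sub_cancel_right] at this
  have h3 : ‖(c w : ℂ) * (P.G s w w - P.gt w)‖ ≤ be w ^ 2 * ‖P.G s w w - P.gt w‖ := by
    rw [norm_mul, Complex.norm_real, Real.norm_eq_abs, abs_of_nonneg (h.c0 w)]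
    exact mul_le_mul_of_nonneg_right (h.c_le w) (norm_nonneg _)
  calc _ ≤ _ := h2
    _ ≤ 200 * C ^ 3 * be w ^ 3 + be w ^ 2 * ‖P.G s w w - P.gt w‖ := add_le_add h1 h3
    _ = _ := by ring



theorem S_symm (s : T → Option D) (x y : T) : P.S s x y = P.S s y x := by
  unfold S
  rw [h.symm]

theorem S0 (s : T → Option D) (x y : T) : 0 ≤ P.S s x y := by
  unfold S
  positivity

/-- Ward -/
theorem ward_s (s : T → Option D) (x : T) : ∑ y, P.eta s y * P.S s x y = P.io s x := by
  unfold io S G eta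
  exact (ward (h.adms s) x).symm

theorem io0 (s : T → Option D) (x : T) : 0 ≤ P.io s x := ward_nonneg (h.adms s) x

theorem io_le {s : T → Option D} (hs : P.Ent X 1 s) {x : T} (hx : x ∈ X) : P.io s x ≤ 2 * C :=
  (Complex.im_le_norm _).trans (h.diaC hs hx)

theorem bo0 (s : T → Option D) (w : T) : 0 ≤ bo ok be s w := bo_nonneg h.be0 w

theorem bo_le (s : T → Option D) (w : T) : bo ok be s w ≤ be w := ANS.bo_le h.be0 w

theorem bo_sq (s : T → Option D) (w : T) : bo ok be s w ^ 2 ≤ be w ^ 2 := ANS.bo_sq h.be0 w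

theorem bo_N {s : T → Option D} {w : T} (hw : w ∉ N) : bo ok be s w = 0 :=
  le_antisymm ((h.bo_le s w).trans (h.beN w hw).le) (h.bo0 s w)

/-- `be² ≤ C² η(s)` at the good sites -/
theorem be_eta (s : T → Option D) (w : T) : bo ok be s w ^ 2 ≤ C ^ 2 * P.eta s w := by
  by_cases hw : ok w (s w)
  · rw [bo_ok hw]
    have h1 := h.bee w
    have h2 := mul_le_mul_of_nonneg_left (h.etaLo hw) h.C0
    calc be w ^ 2 ≤ C * P.eta nil w := h1
      _ ≤ C * (C * P.eta s w) := h2
      _ = _ := by ring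
  · rw [bo_bad hw]
    have h1 := h.eta0 s w
    have h3 : 0 ≤ C ^ 2 * P.eta s w := by positivity
    simpa using h3

/-- `be² ≤ C e` at the good sites -/
theorem be_e (s : T → Option D) {w : T} (hw : ok w (s w)) : be w ^ 2 ≤ C * e w (s w) :=
  h.ebe w (s w) hw

/-- the counting weights at a good site do not change when it becomes unread -/
theorem e_none (s : T → Option D) {w : T} (hw : ok w (s w)) (x : T) :
    e x (s x) = e x (update s w none x) := by
  by_cases hx : x = w
  · subst hx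
    rw [update_self]
    exact le_antisymm (h.ed x none (s x) (h.okn x)) (h.ed x (s x) none hw)
  · rw [update_of_ne hx]

/-- the counting weights at a good site can only decrease -/
theorem e_up (s : T → Option D) {w : T} (hw : ok w (s w)) (b : Option D) (x : T) :
    e x (update s w b x) ≤ e x (s x) := by
  by_cases hx : x = w
  · subst hx
    rw [update_self]
    exact h.ed x (s x) b hw
  · rw [update_of_ne hx]

theorem row_be {s : T → Option D} (hs : P.Ent X 1 s) {x : T} (hx : x ∈ X) :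
    ∑ w, bo ok be s w ^ 2 * P.S s x w ≤ 2 * C ^ 3 := by
  have h1 := h.io_le hs hx
  rw [← h.ward_s s x] at h1
  have h2 : ∑ w, bo ok be s w ^ 2 * P.S s x w ≤ C ^ 2 * ∑ y, P.eta s y * P.S s x y := by
    rw [Finset.mul_sum]
    refine Finset.sum_le_sum fun y _ => ?_
    have h4 := mul_le_mul_of_nonneg_right (h.be_eta s y) (h.S0 s x y)
    linarith
  have h3 : C ^ 2 * ∑ y, P.eta s y * P.S s x y ≤ C ^ 2 * (2 * C) :=
    mul_le_mul_of_nonneg_left h1 (sq_nonneg C)
  calc _ ≤ _ := h2
    _ ≤ _ := h3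
    _ = _ := by ring

open Classical in
/-- rows of the start absorption at the good sites -/
theorem row_nil {s : T → Option D} (hs : P.Ent X 1 s) {x : T} (hx : x ∈ X) :
    ∑ y, (if ok y (s y) then P.eta nil y else 0) * P.S s x y ≤ 2 * C ^ 2 := by
  have h1 := h.io_le hs hx
  rw [← h.ward_s s x] at h1
  have h2 : ∑ y, (if ok y (s y) then P.eta nil y else 0) * P.S s x y ≤
      C * ∑ y, P.eta s y * P.S s x y := by
    rw [Finset.mul_sum]
    refine Finset.sum_le_sum fun y _ => ?_
    have h5 := h.S0 s x y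
    have h6 := h.eta0 s y
    split_ifs with hy
    · have h3 := h.etaLo hy
      have h4 := mul_le_mul_of_nonneg_right h3 h5
      linarith
    · rw [zero_mul]
      have := h.C0
      positivity
  nlinarith [h.C0]

theorem row_c {s : T → Option D} (hs : P.Ent X 1 s) {x : T} (hx : x ∈ X) :
    ∑ w, bo ok c s w * P.S s x w ≤ 2 * C ^ 3 := by
  refine (Finset.sum_le_sum fun w _ => ?_).trans (h.row_be hs hx)
  refine mul_le_mul_of_nonneg_right ?_ (h.S0 s x w)
  by_cases hw : ok w (s w)
  · rw [bo_ok hw, bo_ok hw]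
    exact h.c_le w
  · rw [bo_bad hw, bo_bad hw]
    simp

theorem cs_be {s : T → Option D} (hs : P.Ent X 1 s) {x y : T} (hx : x ∈ X) (hy : y ∈ X) :
    ∑ w, bo ok be s w ^ 2 * (‖P.G s x w‖ * ‖P.G s w y‖) ≤ 2 * C ^ 3 := by
  have h1 := h.row_be hs hx
  have h2 := h.row_be hs hy
  have h3 : ∑ w, bo ok be s w ^ 2 * (‖P.G s x w‖ * ‖P.G s w y‖) ≤
      ∑ w, (bo ok be s w ^ 2 * P.S s x w + bo ok be s w ^ 2 * P.S s y w) / 2 := by
    refine Finset.sum_le_sum fun w _ => ?_
    unfold S
    rw [h.symm s w y]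
    have h5 : 0 ≤ bo ok be s w ^ 2 * (‖P.G s x w‖ - ‖P.G s y w‖) ^ 2 := by positivity
    nlinarith
  rw [← Finset.sum_div, Finset.sum_add_distrib] at h3
  linarith

theorem cs_be3 {s : T → Option D} (hs : P.Ent X 1 s) {bm : ℝ} (hbm : ∀ w, be w ≤ bm) {x y : T}
    (hx : x ∈ X) (hy : y ∈ X) :
    ∑ w, bo ok be s w ^ 3 * (‖P.G s x w‖ * ‖P.G s w y‖) ≤ 2 * C ^ 3 * bm := by
  have hbm0 : 0 ≤ bm := (h.be0 x).trans (hbm x)
  calc _ ≤ ∑ w, bm * (bo ok be s w ^ 2 * (‖P.G s x w‖ * ‖P.G s w y‖)) := by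
        refine Finset.sum_le_sum fun w _ => ?_
        have h1 : bo ok be s w ^ 3 * (‖P.G s x w‖ * ‖P.G s w y‖) =
            bo ok be s w * (bo ok be s w ^ 2 * (‖P.G s x w‖ * ‖P.G s w y‖)) := by ring
        rw [h1]
        exact mul_le_mul_of_nonneg_right ((h.bo_le s w).trans (hbm w)) (by positivity)
    _ = bm * ∑ w, bo ok be s w ^ 2 * (‖P.G s x w‖ * ‖P.G s w y‖) := by rw [Finset.mul_sum]
    _ ≤ bm * (2 * C ^ 3) := mul_le_mul_of_nonneg_left (h.cs_be hs hx hy) hbm0
    _ = _ := by ring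

theorem row_be3 {s : T → Option D} (hs : P.Ent X 1 s) {bm : ℝ} (hbm : ∀ w, be w ≤ bm) {x : T}
    (hx : x ∈ X) : ∑ w, bo ok be s w ^ 3 * P.S s x w ≤ 2 * C ^ 3 * bm := by
  have hbm0 : 0 ≤ bm := (h.be0 x).trans (hbm x)
  calc _ ≤ ∑ w, bm * (bo ok be s w ^ 2 * P.S s x w) := by
        refine Finset.sum_le_sum fun w _ => ?_
        have h1 : bo ok be s w ^ 3 * P.S s x w =
            bo ok be s w * (bo ok be s w ^ 2 * P.S s x w) := by ring
        rw [h1]
        exact mul_le_mul_of_nonneg_right ((h.bo_le s w).trans (hbm w))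
          (mul_nonneg (sq_nonneg _) (h.S0 s x w))
    _ = bm * ∑ w, bo ok be s w ^ 2 * P.S s x w := by rw [Finset.mul_sum]
    _ ≤ bm * (2 * C ^ 3) := mul_le_mul_of_nonneg_left (h.row_be hs hx) hbm0
    _ = _ := by ring

/-- columns with the counting weights -/
theorem col_e {s : T → Option D} (hs : P.Ent X 1 s) {w : T} (hw : w ∈ X) :
    ∑ x ∈ X, e x (s x) * P.S s x w ≤ C := h.row s hs w hw

/-- the quadratic variation of one entry -/
theorem qv {s : T → Option D} {kap : ℝ} (hk : ∀ w, be w ^ 2 ≤ kap) {tau : T → ℝ}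
    (ht : P.TauLe X N tau s) {x y : T} (hx : x ∈ X) (hy : y ∈ X) :
    ∑ w, be w ^ 2 * (P.S s x w * P.S s w y) ≤ kap * √(tau x * tau y) := by
  have hk0 : 0 ≤ kap := (sq_nonneg (be x)).trans (hk x)
  have h1 : ∑ w, be w ^ 2 * (P.S s x w * P.S s w y) ≤
      kap * ∑ w ∈ N, P.S s x w * P.S s y w := by
    have h2 : ∑ w, be w ^ 2 * (P.S s x w * P.S s w y) =
        ∑ w ∈ N, be w ^ 2 * (P.S s x w * P.S s w y) := by
      symm
      refine Finset.sum_subset (Finset.subset_univ N) fun w _ hw => ?_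
      rw [h.beN w hw]
      ring
    rw [h2, Finset.mul_sum]
    refine Finset.sum_le_sum fun w _ => ?_
    rw [h.S_symm s w y]
    exact mul_le_mul_of_nonneg_right (hk w) (mul_nonneg (h.S0 s x w) (h.S0 s y w))
  have h3 : ∀ z ∈ X, ∑ w ∈ N, P.S s z w ^ 2 ≤ tau z := by
    intro z hz
    refine le_trans (le_of_eq ?_) (ht z hz)
    refine Finset.sum_congr rfl fun w _ => ?_
    unfold S
    ring
  have h4 := Finset.sum_mul_sq_le_sq_mul_sq N (fun w => P.S s x w) (fun w => P.S s y w)
  have h5 : (∑ w ∈ N, P.S s x w * P.S s y w) ^ 2 ≤ tau x * tau y := by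
    refine h4.trans (mul_le_mul (h3 x hx) (h3 y hy) ?_ ?_)
    · exact Finset.sum_nonneg fun w _ => sq_nonneg _
    · exact (Finset.sum_nonneg fun w _ => sq_nonneg _).trans (h3 x hx)
  exact h1.trans (mul_le_mul_of_nonneg_left (Real.le_sqrt_of_sq_le h5) hk0)

/-- the contraction `η^{1/2} G η^{1/2}` -/
theorem contr (s : T → Option D) (f : T → ℂ) (hf : ∀ x, x ∉ X → f x = 0) :
    ∑ x, P.eta s x * ‖∑ y, P.G s x y * f y‖ ^ 2 ≤ ∑ x ∈ X, ‖f x‖ ^ 2 / P.eta s x := by
  set v : T → ℂ := P.G s *ᵥ f with hv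
  have hv1 : ∀ x, ∑ y, P.G s x y * f y = v x := fun x => rfl
  simp only [hv1]
  have h1 : (P.H + diagonal (P.bs s)) *ᵥ v = f := src_res (h.adms s) f
  have h2 := form_im h.adm.sym (P.bs s) v
  rw [h1] at h2
  -- `∑ η |v|² = - Im ∑ conj v f ≤ ∑_X |v| |f|`
  have h3 : ∑ x, P.eta s x * ‖v x‖ ^ 2 ≤ ∑ x ∈ X, ‖v x‖ * ‖f x‖ := by
    have h4 : ∑ x, P.eta s x * ‖v x‖ ^ 2 = -(∑ x, (starRingEnd ℂ) (v x) * f x).im := by
      rw [h2, ← Finset.sum_neg_distrib]
      refine Finset.sum_congr rfl fun x _ => ?_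
      unfold eta
      ring
    rw [h4]
    have h5 : -(∑ x, (starRingEnd ℂ) (v x) * f x).im ≤ ‖∑ x, (starRingEnd ℂ) (v x) * f x‖ :=
      (neg_le_abs _).trans (Complex.abs_im_le_norm _)
    refine h5.trans ?_
    have h6 : ∑ x, (starRingEnd ℂ) (v x) * f x = ∑ x ∈ X, (starRingEnd ℂ) (v x) * f x := by
      symm
      refine Finset.sum_subset (Finset.subset_univ X) fun x _ hx => ?_
      rw [hf x hx, mul_zero]
    rw [h6]
    refine (norm_sum_le _ _).trans (Finset.sum_le_sum fun x _ => ?_)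
    rw [norm_mul, Complex.norm_conj]
  have h4 : ∑ x ∈ X, ‖v x‖ * ‖f x‖ ≤
      ∑ x ∈ X, (P.eta s x * ‖v x‖ ^ 2 + ‖f x‖ ^ 2 / P.eta s x) / 2 := by
    refine Finset.sum_le_sum fun x hx => ?_
    have he := h.etaX' s hx
    have h5 : ‖f x‖ ^ 2 / P.eta s x = P.eta s x * (‖f x‖ / P.eta s x) ^ 2 := by
      field_simp
    have h6 : ‖v x‖ * ‖f x‖ = P.eta s x * (‖v x‖ * (‖f x‖ / P.eta s x)) := by
      field_simp
    rw [h5, h6]
    nlinarith [mul_nonneg he.le (sq_nonneg (‖v x‖ - ‖f x‖ / P.eta s x))]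
  rw [← Finset.sum_div, Finset.sum_add_distrib] at h4
  have h5 : ∑ x ∈ X, P.eta s x * ‖v x‖ ^ 2 ≤ ∑ x, P.eta s x * ‖v x‖ ^ 2 :=
    Finset.sum_le_sum_of_subset_of_nonneg (Finset.subset_univ X) fun x _ _ =>
      mul_nonneg (h.eta0 s x) (sq_nonneg _)
  linarith

/-- the contraction for sources on the good noise sites -/
theorem contr_be (s : T → Option D) (q : T → ℂ) :
    ∑ x, P.eta s x * ‖∑ w, ((bo ok be s w ^ 2 : ℝ) : ℂ) * (q w * P.G s w x)‖ ^ 2 ≤
      C ^ 2 * ∑ w, bo ok be s w ^ 2 * ‖q w‖ ^ 2 := by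
  have h1 := h.contr s (fun w => ((bo ok be s w ^ 2 : ℝ) : ℂ) * q w) (by
    intro x hx
    rw [h.bo_N (fun h2 => hx (h.NX h2))]
    simp)
  have h2 : ∀ x, ∑ w, ((bo ok be s w ^ 2 : ℝ) : ℂ) * (q w * P.G s w x) =
      ∑ w, P.G s x w * (((bo ok be s w ^ 2 : ℝ) : ℂ) * q w) := by
    intro x
    refine Finset.sum_congr rfl fun w _ => ?_
    rw [h.symm s w x]
    ring
  simp only [h2]
  refine h1.trans ?_
  rw [Finset.mul_sum]
  have h3 : ∀ x ∈ X, ‖((bo ok be s x ^ 2 : ℝ) : ℂ) * q x‖ ^ 2 / P.eta s x ≤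
      C ^ 2 * (bo ok be s x ^ 2 * ‖q x‖ ^ 2) := by
    intro x hx
    have he := h.etaX' s hx
    rw [div_le_iff₀ he, norm_mul, Complex.norm_real, Real.norm_eq_abs,
      abs_of_nonneg (sq_nonneg _), mul_pow]
    have h6 := h.be_eta s x
    have h7 : 0 ≤ bo ok be s x ^ 2 * ‖q x‖ ^ 2 := by positivity
    nlinarith [mul_nonneg h7 (sub_nonneg.2 h6)]
  refine (Finset.sum_le_sum h3).trans ?_
  refine Finset.sum_le_sum_of_subset_of_nonneg (Finset.subset_univ X) fun x _ _ => ?_
  have := h.C0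
  positivity

/-- the row of `G ρ G` for coefficients `|ρ_w| ≤ ε β_w²` at the good sites -/
theorem grg {s : T → Option D} (hs : P.Ent X 1 s) {rho : T → ℂ} {ep : ℝ}
    (hr : ∀ w, ‖rho w‖ ≤ ep * bo ok be s w ^ 2) {x : T} (hx : x ∈ X) :
    ∑ y, P.eta s y * ‖∑ w, rho w * (P.G s x w * P.G s w y)‖ ^ 2 ≤ 2 * C ^ 5 * ep ^ 2 := by
  have h1 := h.contr s (fun w => rho w * P.G s x w) (by
    intro z hz
    have h2 := hr z
    rw [h.bo_N (fun h3 => hz (h.NX h3))] at h2
    have h3 : rho z = 0 := by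
      rw [← norm_le_zero_iff]
      linarith
    rw [h3, zero_mul])
  have h2 : ∀ y, ∑ w, rho w * (P.G s x w * P.G s w y) =
      ∑ w, P.G s y w * (rho w * P.G s x w) := by
    intro y
    refine Finset.sum_congr rfl fun w _ => ?_
    rw [h.symm s w y]
    ring
  simp only [h2]
  refine h1.trans ?_
  have h3 : ∀ z ∈ X, ‖rho z * P.G s x z‖ ^ 2 / P.eta s z ≤
      C ^ 2 * ep ^ 2 * (bo ok be s z ^ 2 * P.S s x z) := by
    intro z hz
    have he := h.etaX' s hz
    rw [div_le_iff₀ he, norm_mul, mul_pow]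
    have h4 : ‖rho z‖ ^ 2 ≤ (ep * bo ok be s z ^ 2) ^ 2 :=
      pow_le_pow_left₀ (norm_nonneg _) (hr z) 2
    have h7 := h.be_eta s z
    have h8 : 0 ≤ ep ^ 2 * bo ok be s z ^ 2 * P.S s x z := by
      have := h.S0 s x z
      positivity
    have h9 : ‖rho z‖ ^ 2 * ‖P.G s x z‖ ^ 2 ≤ (ep * bo ok be s z ^ 2) ^ 2 * P.S s x z :=
      mul_le_mul_of_nonneg_right h4 (sq_nonneg _)
    nlinarith [mul_nonneg h8 (sub_nonneg.2 h7)]
  have h4 : ∑ z ∈ X, bo ok be s z ^ 2 * P.S s x z ≤ 2 * C ^ 3 :=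
    (Finset.sum_le_sum_of_subset_of_nonneg (Finset.subset_univ X) fun z _ _ =>
      mul_nonneg (sq_nonneg _) (h.S0 s x z)).trans (h.row_be hs hx)
  calc _ ≤ ∑ z ∈ X, C ^ 2 * ep ^ 2 * (bo ok be s z ^ 2 * P.S s x z) := Finset.sum_le_sum h3
    _ = C ^ 2 * ep ^ 2 * ∑ z ∈ X, bo ok be s z ^ 2 * P.S s x z := by rw [Finset.mul_sum]
    _ ≤ C ^ 2 * ep ^ 2 * (2 * C ^ 3) := by
        have := h.C0
        exact mul_le_mul_of_nonneg_left h4 (by positivity)
    _ = _ := by ring

end OkB

end Stp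

end Pool.Agent.ANS
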