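import Pool.Agent.ANS.TopForm
import Pool.Agent.ANS.DigB
import Pool.Agent.ANS.KerRel
import Pool.Agent.AND.LocGood
import Pool.Agent.ANF.Glob.Num

/-!
# ANS / TopH4 (helper60): (H4low), (H4up) of the next medium

* `mfz` = classical value of `m` after the reading with `ι` frozen;
* `FrOK` : what is used of the frozen step at the outcome `ω` (`N` = sites which are really read, `0 < ζ`); `FrOK.of_ok`, `FrOK.of_okB`;
* `frLow`, `frUp` : block bounds of the frozen form relative to the infimal convolution;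
* `stepIn` : the data `ANF.Glob.StepIn` from the engine (`FormLe`), the refreeze (factors `hlo`, `hup`), the decay (relative to the
  masses) and the anchor site;
* `h4_frok` : h4l and h4u of `Good f (tolAt P Sf n (F.add P n s {c0}) π' v' (M1.rel W)) (M1.rel W)` (Part A and B);
* `h4_row`  : the same with the decay from helper3's `FarRow` (constant `kerN`); this is the theorem to use.
No constant contains the lower bound `P.eta` of the absorption.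
-/

open Matrix Finset

noncomputable section

namespace Pool.Agent.AND

open Pool.Agent.Kin Pool.Agent.APS Pool.Agent.ANF.Glob Pool.Agent.ANP

theorem td_eq_dT {d L : ℕ} (x y : Tor d L) : ANM.td x y = dT x y := rfl

variable {d L : ℕ} [NeZero L] {D : Type} [Fintype D] {f : Fix} {t : Tol d L}
  {M M' : Med (Tor d L)} {u : UTol} {g : ANS.Dig (Tor d L) D} {N : Finset (Tor d L)}
  {c be e : Tor d L → ℝ} {C Lm : ℝ} {ω : Tor d L → D}

/-- classical value of `m` after the reading, `ι` frozen -/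
def mfz (M : Med (Tor d L)) (g : ANS.Dig (Tor d L) D) (ω : Tor d L → D) (x : Tor d L) : ℝ :=
  (M.fr g ω).eta x * (M.G x x).im

theorem aw_mfz (x : Tor d L) : (M.stp g).aw (ANS.full ω) x = 1 / mfz M g ω x - 1 / mm M x :=
  stp_aw ω x

/-- off the noise set nothing changes -/
theorem zt_off (hOk : (M.stp g).Ok M.nr N c be e C Lm) {x : Tor d L} (hx : x ∉ N) (a : D) :
    g.zt x a = 0 := by
  have h1 := hOk.dig.zt_le x a
  rw [hOk.beN x hx] at h1
  exact abs_nonpos_iff.1 (h1.trans (by norm_num))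

theorem mfz_off (hOk : (M.stp g).Ok M.nr N c be e C Lm) {x : Tor d L} (hx : x ∉ N) :
    mfz M g ω x = mm M x := by
  unfold mfz
  rw [fr_eta_eq, zt_off hOk hx, zero_mul, sub_zero]
  rfl

theorem mfz_pos (hG : Good f t M) (hI : t.In f M u) (hN : Num f t u)
    (hOk : (M.stp g).Ok M.nr N c be e C Lm) {x : Tor d L} (hx : x ∈ M.nr) : 0 < mfz M g ω x :=
  mul_pos (hOk.etaX' (ANS.full ω) hx) (hG.io_pos hI hN (mem_nr.1 hx))

theorem mm_pos (hG : Good f t M) (hI : t.In f M u) (hN : Num f t u) {x : Tor d L}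
    (hx : x ∈ M.nr) : 0 < mm M x :=
  mul_pos (hG.eta_pos hI hN (mem_nr.1 hx)) (hG.io_pos hI hN (mem_nr.1 hx))

theorem mm_ge (hG : Good f t M) (hI : t.In f M u) (hN : Num f t u) {x : Tor d L}
    (hx : x ∈ M.nr) : t.eta * f.c1 ≤ mm M x :=
  mul_le_mul (hG.eta_ge hI hN (mem_nr.1 hx)) (hG.io_ge hI hN (mem_nr.1 hx)) hN.c1.le
    (hG.eta_pos hI hN (mem_nr.1 hx)).le

theorem mm_ge_act (hG : Good f t M) (hI : t.In f M u) (hN : Num f t u) {x : Tor d L}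
    (hx : x ∈ M.A) : (t.eta + t.kl * f.c1) * f.c1 ≤ mm M x :=
  mul_le_mul (hG.eta_act hI hN hx) (hG.io_ge hI hN (hG.nU_of_A hx)) hN.c1.le
    (hG.eta_pos hI hN (hG.nU_of_A hx)).le

/-- at least one eighth is kept -/
theorem mfz_ge (hG : Good f t M) (hI : t.In f M u) (hN : Num f t u)
    (hOk : (M.stp g).Ok M.nr N c be e C Lm) {x : Tor d L} (hx : x ∈ M.nr) :
    mm M x ≤ 8 * mfz M g ω x := by
  have h1 := hOk.et8 x (ω x)
  rw [stp_eta_nil] at h1
  have h2 : g.zt x (ω x) * (M.G x x).im ≤ 7 / 8 * M.eta x := h1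
  have h3 := (hG.io_pos hI hN (mem_nr.1 hx)).le
  have h4 : mm M x = M.eta x * (M.G x x).im := rfl
  unfold mfz
  rw [fr_eta_eq, h4]
  have h5 : (0 : ℝ) ≤ (M.G x x).im := h3
  nlinarith

theorem mfz_lt (hG : Good f t M) (hI : t.In f M u) (hN : Num f t u)
    (hOk : (M.stp g).Ok M.nr N c be e C Lm) {x : Tor d L} (hx : x ∈ N)
    (hz : 0 < g.zt x (ω x)) : mfz M g ω x < mm M x := by
  have h1 : 0 < (M.G x x).im := hG.io_pos hI hN (mem_nr.1 (hOk.NX hx))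
  unfold mfz mm
  rw [fr_eta_eq]
  refine mul_lt_mul_of_pos_right ?_ h1
  have := mul_pos hz h1
  linarith

/-- the level after the reading times `ι` is at most the frozen absorption -/
theorem kf_io_le (hG : Good f t M) (hI : t.In f M u) (hN : Num f t u) {x : Tor d L}
    (hx : x ∈ M.nr) :
    M.kf g ω x * (M.G x x).im ≤ (M.fr g ω).eta x := by
  rw [fr_eta_eq]
  have h1 : M.k x * (M.G x x).im ≤ M.eta x := hG.kio_le hI hN (mem_nr.1 hx)
  unfold Med.kf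
  rw [sub_mul]
  linarith

omit [Fintype D] in
/-- the absorption of the next medium -/
theorem nxt_eta {r : ℝ} (hn : Nxt M M' g ω r) {x : Tor d L} (hx : x ∈ M.nr) :
    M'.eta x = (M.fr g ω).eta x + M.kf g ω x * ((M'.G x x).im - (M.G x x).im) := by
  have h1 := hn.b x (mem_nr.1 hx)
  have h2 : M'.eta x = -(M'.b x).im := rfl
  have h3 : (M.fr g ω).eta x = -(M.bf g ω x).im := rfl
  rw [h2, h3, h1]
  simp
  ring

/-- relative change of `m` by the refreeze -/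
theorem mm_nxt (hG : Good f t M) (hI : t.In f M u) (hN : Num f t u)
    (hOk : (M.stp g).Ok M.nr N c be e C Lm)
    (hkf : ∀ x, 0 ≤ M.kf g ω x) {r : ℝ} (hn : Nxt M M' g ω r) {x : Tor d L} (hx : x ∈ M.nr)
    {ρ : ℝ} (hρ : ‖M'.G x x - M.G x x‖ ≤ ρ) (hρ1 : ρ ≤ f.c1) :
    |mm M' x - mfz M g ω x| ≤ 3 / f.c1 * ρ * mfz M g ω x := by
  obtain ⟨Δ, hΔ⟩ : ∃ Δ, Δ = (M'.G x x).im - (M.G x x).im := ⟨_, rfl⟩
  have hΔ1 : |Δ| ≤ ρ := by
    have := Complex.abs_im_le_norm (M'.G x x - M.G x x)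
    rw [Complex.sub_im, ← hΔ] at this
    exact this.trans hρ
  have hio : f.c1 ≤ (M.G x x).im := hG.io_ge hI hN (mem_nr.1 hx)
  have hc1 := hN.c1
  obtain ⟨ι, hι⟩ : ∃ ι, ι = (M.G x x).im := ⟨_, rfl⟩
  obtain ⟨ef, hef⟩ : ∃ ef, ef = (M.fr g ω).eta x := ⟨_, rfl⟩
  obtain ⟨κ, hκ⟩ : ∃ κ, κ = M.kf g ω x := ⟨_, rfl⟩
  have hef0 : 0 < ef := by rw [hef]; exact hOk.etaX' (ANS.full ω) hx
  have hκ0 : 0 ≤ κ := by rw [hκ]; exact hkf x
  have hκι : κ * ι ≤ ef := by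
    rw [hκ, hι, hef]
    exact kf_io_le hG hI hN hx
  rw [← hι] at hio hΔ
  have e1 : mm M' x = (ef + κ * Δ) * (ι + Δ) := by
    have h1 := nxt_eta hn hx
    have h2 : mm M' x = M'.eta x * (M'.G x x).im := rfl
    rw [h2, h1, hΔ, ← hι, ← hef, ← hκ]
    ring
  have e2 : mfz M g ω x = ef * ι := by
    unfold mfz
    rw [← hι, ← hef]
  have e3 : mm M' x - mfz M g ω x = Δ * (ef + κ * (ι + Δ)) := by
    rw [e1, e2]
    ring
  have hι0 : 0 < ι := hc1.trans_le hio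
  have h4 : |ef + κ * (ι + Δ)| ≤ 3 * ef := by
    have h5 : ι + Δ ≤ 2 * ι := by
      have := (abs_le.1 hΔ1).2
      linarith
    have h6 : 0 ≤ ι + Δ := by
      have := (abs_le.1 hΔ1).1
      linarith
    have h7 : κ * (ι + Δ) ≤ κ * (2 * ι) := mul_le_mul_of_nonneg_left h5 hκ0
    rw [abs_of_nonneg (by positivity)]
    nlinarith
  rw [e3, abs_mul, e2]
  have h8 : |Δ| * |ef + κ * (ι + Δ)| ≤ ρ * (3 * ef) :=
    mul_le_mul hΔ1 h4 (abs_nonneg _) ((abs_nonneg _).trans hΔ1)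
  have hρ0 : 0 ≤ ρ := (abs_nonneg _).trans hΔ1
  have h9 : 3 / f.c1 * ρ * (ef * ι) = ρ * (3 * ef) * (ι / f.c1) := by
    field_simp
  rw [h9]
  have h10 : 1 ≤ ι / f.c1 := by
    rw [le_div_iff₀ hc1]
    linarith
  have h11 : 0 ≤ ρ * (3 * ef) := by positivity
  nlinarith

/-- what is used of the frozen step at the outcome `ω`; `N` = the sites which are really read -/
structure FrOK (M : Med (Tor d L)) (g : ANS.Dig (Tor d L) D) (ω : Tor d L → D)
    (N : Finset (Tor d L)) : Prop where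
  NX : N ⊆ M.nr
  z0 : ∀ x, x ∉ N → g.zt x (ω x) = 0
  zp : ∀ x ∈ N, 0 < g.zt x (ω x)
  adm : ANL.Adm (H0T d L) (M.bf g ω)
  eU : ∀ x ∈ M.U, (M.fr g ω).eta x = 0
  eX : ∀ x ∈ M.nr, 0 < (M.fr g ω).eta x

open Classical in
theorem FrOK.of_ok (hOk : (M.stp g).Ok M.nr N c be e C Lm) (hz : ∀ x ∈ N, 0 ≤ g.zt x (ω x)) :
    FrOK M g ω (N.filter fun x => 0 < g.zt x (ω x)) where
  NX := (filter_subset _ _).trans hOk.NX
  z0 := fun x hx => by
    by_cases hxN : x ∈ N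
    · rw [mem_filter, not_and] at hx
      exact le_antisymm (not_lt.1 (hx hxN)) (hz x hxN)
    · exact zt_off hOk hxN (ω x)
  zp := fun x hx => (mem_filter.1 hx).2
  adm := hOk.adms (ANS.full ω)
  eU := fun x hx => fr_etaU hOk ω hx
  eX := fun x hx => hOk.etaX' (ANS.full ω) hx

open Classical in
theorem FrOK.of_okB {ok : Tor d L → Option D → Prop} {eB : Tor d L → Option D → ℝ}
    (hOk : (M.stp g).OkB ok M.nr N c be eB C Lm) :
    FrOK M g ω (N.filter fun x => 0 < g.zt x (ω x)) where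
  NX := (filter_subset _ _).trans hOk.NX
  z0 := fun x hx => by
    have h0 := hOk.zt0 x (ω x)
    by_cases hxN : x ∈ N
    · rw [mem_filter, not_and] at hx
      exact le_antisymm (not_lt.1 (hx hxN)) h0
    · have h1 := hOk.dig.zt_le x (ω x)
      rw [hOk.beN x hxN] at h1
      exact abs_nonpos_iff.1 (h1.trans (by norm_num))
  zp := fun x hx => (mem_filter.1 hx).2
  adm := hOk.adms (ANS.full ω)
  eU := fun x hx => hOk.etaU' (ANS.full ω) (fun h => (mem_nr.1 h) hx)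
  eX := fun x hx => hOk.etaX' (ANS.full ω) hx

namespace FrOK

variable {B : Finset (Tor d L)} {de : ℝ}

theorem mfz_off (hO : FrOK M g ω N) {x : Tor d L} (hx : x ∉ N) : mfz M g ω x = mm M x := by
  unfold mfz
  rw [fr_eta_eq, hO.z0 x hx, zero_mul, sub_zero]
  rfl

theorem mfz_pos (hO : FrOK M g ω N) (hG : Good f t M) (hI : t.In f M u) (hN : Num f t u)
    {x : Tor d L} (hx : x ∈ M.nr) : 0 < mfz M g ω x :=
  mul_pos (hO.eX x hx) (hG.io_pos hI hN (mem_nr.1 hx))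

theorem mfz_lt (hO : FrOK M g ω N) (hG : Good f t M) (hI : t.In f M u) (hN : Num f t u)
    {x : Tor d L} (hx : x ∈ N) : mfz M g ω x < mm M x := by
  have h1 : 0 < (M.G x x).im := hG.io_pos hI hN (mem_nr.1 (hO.NX hx))
  unfold mfz mm
  rw [fr_eta_eq]
  refine mul_lt_mul_of_pos_right ?_ h1
  have := mul_pos (hO.zp x hx) h1
  linarith

theorem mfz_le (hO : FrOK M g ω N) (hG : Good f t M) (hI : t.In f M u) (hN : Num f t u)
    {x : Tor d L} (hx : x ∈ M.nr) : mfz M g ω x ≤ mm M x := by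
  by_cases hxN : x ∈ N
  · exact (hO.mfz_lt hG hI hN hxN).le
  · exact (hO.mfz_off hxN).le

theorem aw_off (hO : FrOK M g ω N) {x : Tor d L} (hx : x ∉ N) :
    (M.stp g).aw (ANS.full ω) x = 0 := by
  rw [aw_mfz, hO.mfz_off hx, sub_self]

theorem aw_pos (hO : FrOK M g ω N) (hG : Good f t M) (hI : t.In f M u) (hN : Num f t u)
    {x : Tor d L} (hx : x ∈ N) : 0 < (M.stp g).aw (ANS.full ω) x := by
  rw [aw_mfz, sub_pos]
  exact one_div_lt_one_div_of_lt (hO.mfz_pos hG hI hN (hO.NX hx)) (hO.mfz_lt hG hI hN hx)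

theorem aw_nonneg (hO : FrOK M g ω N) (hG : Good f t M) (hI : t.In f M u) (hN : Num f t u)
    (x : Tor d L) : 0 ≤ (M.stp g).aw (ANS.full ω) x := by
  by_cases hx : x ∈ N
  · exact (hO.aw_pos hG hI hN hx).le
  · exact (hO.aw_off hx).ge

theorem qf_fr (hO : FrOK M g ω N) (v : Tor d L → ℝ) :
    (M.stp g).qf (ANS.full ω) v = QF (H0T d L) (M.fr g ω) v :=
  qf_eq (M.stp g) (ANS.full ω) (M.fr g ω) rfl hO.adm hO.eU v

/-- the reference form as an infimal convolution of global forms -/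
theorem rq_ext (hO : FrOK M g ω N) (hG : Good f t M) (hI : t.In f M u) (hN : Num f t u)
    (hNB : N ⊆ B) {v1 v : Tor d L → ℝ} (hv1 : ∀ x, x ∉ B → v1 x = 0)
    (hve : ∀ x ∈ M.nr, v1 x = v x) (y : ↥B → ℝ) :
    ((fun x : ↥B => v1 x) - y) ⬝ᵥ (M.stp g).QB B ANS.nil *ᵥ ((fun x : ↥B => v1 x) - y) +
        ∑ w : ↥B, y w ^ 2 / (M.stp g).aw (ANS.full ω) w =
      QF (H0T d L) M (fun x => v x - ext0 B y x) +
        ∑ w ∈ N, ext0 B y w ^ 2 / (M.stp g).aw (ANS.full ω) w := by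
  congr 1
  · have e2 : ((fun x : ↥B => v1 x) - y) = fun x : ↥B => (v1 x - ext0 B y x) := by
      funext x
      rw [Pi.sub_apply, ext0_on]
    rw [e2]
    rw [QB_qf (M.stp g) ANS.nil B (v := fun x => v1 x - ext0 B y x) (fun x hx => by
      rw [hv1 x hx, ext0_off B y hx]; ring), stp_qf_nil hG hI hN]
    exact QF_congr fun x hx => by rw [hve x hx]
  · have e3 : ∑ w : ↥B, y w ^ 2 / (M.stp g).aw (ANS.full ω) w =
        ∑ w ∈ B, ext0 B y w ^ 2 / (M.stp g).aw (ANS.full ω) w := by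
      rw [← Finset.sum_coe_sort B]
      exact Finset.sum_congr rfl fun w _ => by rw [ext0_on]
    rw [e3]
    symm
    refine Finset.sum_subset hNB fun w _ hw => ?_
    rw [hO.aw_off hw, div_zero]

/-- **lower block bound of the frozen form** -/
theorem low (hO : FrOK M g ω N) (hG : Good f t M) (hI : t.In f M u) (hN : Num f t u)
    (hK : 0 < u.Ki) (hB : B ⊆ M.nr) (hBX : ∃ x ∈ M.nr, x ∉ B) (hNB : N ⊆ B)
    (hF : (M.stp g).FormLe B de (ANS.full ω)) {v : Tor d L → ℝ}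
    (hv : ∀ x ∈ M.nr, x ∉ B → v x = 0) :
    ∃ y : Tor d L → ℝ, (∀ x, x ∉ N → y x = 0) ∧
      (1 - de) * (QF (H0T d L) M (fun x => v x - y x) +
        ∑ w ∈ N, y w ^ 2 / (M.stp g).aw (ANS.full ω) w) ≤ QF (H0T d L) (M.fr g ω) v := by
  classical
  obtain ⟨v1, hv1⟩ : ∃ v1 : Tor d L → ℝ, v1 = fun x => if x ∈ B then v x else 0 := ⟨_, rfl⟩
  have hv1B : ∀ x, x ∉ B → v1 x = 0 := fun x hx => by simp [hv1, hx]
  have hv1e : ∀ x ∈ M.nr, v1 x = v x := by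
    intro x hx
    by_cases hxB : x ∈ B
    · simp [hv1, hxB]
    · rw [hv1B x hxB, hv x hx hxB]
  have hPD := QB_posDef (g := g) hG hI hN hK hB hBX
  have ha0 : ∀ w : ↥B, 0 ≤ (M.stp g).aw (ANS.full ω) w := fun w => hO.aw_nonneg hG hI hN w
  obtain ⟨y, hy0, hy⟩ := par_min hPD ha0 (fun x : ↥B => v1 x)
  refine ⟨ext0 B y, ?_, ?_⟩
  · intro x hx
    by_cases hxB : x ∈ B
    · have e1 := ext0_on B y ⟨x, hxB⟩
      rw [e1]
      exact hy0 ⟨x, hxB⟩ (hO.aw_off hx)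
    · exact ext0_off B y hxB
  · have h1 := (hF v1 hv1B).1
    have e1 : (M.stp g).rq B (ANS.full ω) v1 = (fun x : ↥B => v1 x) ⬝ᵥ
        (((M.stp g).QB B ANS.nil)⁻¹ +
          diagonal (fun w : ↥B => (M.stp g).aw (ANS.full ω) w))⁻¹ *ᵥ
          (fun x : ↥B => v1 x) := rfl
    rw [e1, hy, hO.rq_ext hG hI hN hNB hv1B hv1e y, hO.qf_fr] at h1
    refine h1.trans (le_of_eq ?_)
    exact QF_congr (M := M.fr g ω) fun x hx => hv1e x hx

/-- **upper block bound of the frozen form** -/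
theorem up (hO : FrOK M g ω N) (hG : Good f t M) (hI : t.In f M u) (hN : Num f t u)
    (hK : 0 < u.Ki) (hB : B ⊆ M.nr) (hBX : ∃ x ∈ M.nr, x ∉ B) (hNB : N ⊆ B) (hde : 0 ≤ de)
    (hF : (M.stp g).FormLe B de (ANS.full ω)) {v : Tor d L → ℝ}
    (hv : ∀ x ∈ M.nr, x ∉ B → v x = 0) {y : Tor d L → ℝ} (hy : ∀ x, x ∉ N → y x = 0) :
    QF (H0T d L) (M.fr g ω) v ≤ (1 + de) * (QF (H0T d L) M (fun x => v x - y x) +
        ∑ w ∈ N, y w ^ 2 / (M.stp g).aw (ANS.full ω) w) := by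
  classical
  obtain ⟨v1, hv1⟩ : ∃ v1 : Tor d L → ℝ, v1 = fun x => if x ∈ B then v x else 0 := ⟨_, rfl⟩
  have hv1B : ∀ x, x ∉ B → v1 x = 0 := fun x hx => by simp [hv1, hx]
  have hv1e : ∀ x ∈ M.nr, v1 x = v x := by
    intro x hx
    by_cases hxB : x ∈ B
    · simp [hv1, hxB]
    · rw [hv1B x hxB, hv x hx hxB]
  have hPD := QB_posDef (g := g) hG hI hN hK hB hBX
  have ha0 : ∀ w : ↥B, 0 ≤ (M.stp g).aw (ANS.full ω) w := fun w => hO.aw_nonneg hG hI hN w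
  have h1 := (hF v1 hv1B).2
  have hyB : ∀ x, x ∉ B → y x = 0 := fun x hx => hy x fun h => hx (hNB h)
  have h2 : (M.stp g).rq B (ANS.full ω) v1 ≤ QF (H0T d L) M (fun x => v x - y x) +
        ∑ w ∈ N, y w ^ 2 / (M.stp g).aw (ANS.full ω) w := by
    have e1 := par_le' hPD ha0 (fun x : ↥B => v1 x) (fun x : ↥B => y x) (fun w hw => by
      by_contra hc
      have hwN : (w : Tor d L) ∈ N := by
        by_contra h
        exact hc (hy w h)
      exact (hO.aw_pos hG hI hN hwN).ne' hw)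
    refine e1.trans (le_of_eq ?_)
    rw [hO.rq_ext hG hI hN hNB hv1B hv1e, ext0_res B hyB]
  rw [hO.qf_fr] at h1
  have h3 : QF (H0T d L) (M.fr g ω) v = QF (H0T d L) (M.fr g ω) v1 :=
    (QF_congr (M := M.fr g ω) fun x hx => (hv1e x hx)).symm
  rw [h3]
  exact h1.trans (mul_le_mul_of_nonneg_left h2 (by linarith))

end FrOK

/-- masses at the sites which are neither read nor inert, without the absorption `P.eta` -/
theorem mA_le (hG : Good f t M) (hI : t.In f M u) (hN : Num f t u) {mA : ℝ}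
    (h1 : mA ≤ t.kl * f.c1 * f.c1) (h2 : mA ≤ t.st * f.c1) {x : Tor d L} (hxU : x ∉ M.U)
    (hxI : x ∉ M.I) : mA ≤ mm M x := by
  have hc := hN.c1
  have he := hN.eta
  by_cases hA : x ∈ M.A
  · refine h1.trans (le_trans ?_ (mm_ge_act hG hI hN hA))
    have := mul_nonneg he.le hc.le
    nlinarith
  · have h3 := hG.eS x hA hxU hxI
    have h4 : f.c1 ≤ (M.G x x).im := hG.io_ge hI hN hxU
    have h5 : mm M x = M.eta x * (M.G x x).im := rfl
    rw [h5]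
    have h6 : t.st ≤ M.eta x := by linarith
    exact h2.trans (mul_le_mul h6 h4 hc.le (hN.st.trans h6))

/-- **the data of the globalisation** -/
theorem stepIn (hG : Good f t M) (hI : t.In f M u) (hN : Num f t u) (hK : 0 < u.Ki)
    (hC1 : 1 ≤ f.C1) (hdS : u.dS ≤ 1) (hO : FrOK M g ω N) (hNA : N ⊆ M.A)
    {mA : ℝ} (hmA : 0 < mA) (hmA1 : mA ≤ t.kl * f.c1 * f.c1) (hmA2 : mA ≤ t.st * f.c1)
    {c0 z0 : Tor d L} {s Rz : ℕ} (hs : 1 ≤ s)
    (hL : 4 * s + 1 ≤ L) (hNs : ∀ w ∈ N, dT w c0 ≤ s) {B : Finset (Tor d L)} (hBn : B ⊆ M.nr)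
    (hB2 : ∀ x ∈ M.nr, dT x c0 < 2 * s → x ∈ B) (hBX : ∃ x ∈ M.nr, x ∉ B)
    (hzU : z0 ∉ M.U) (hzI : z0 ∉ M.I) (hz1 : 2 * s ≤ dT z0 c0) (hz2 : dT z0 c0 ≤ Rz) {de ρ : ℝ}
    (hF : (M.stp g).FormLe B de (ANS.full ω))
    (hU : M'.U = M.U) (hadm : ANL.Adm (H0T d L) M'.b)
    (hde : 0 ≤ de) (hde1 : de ≤ 1 / 4) (hρ : 0 ≤ ρ) (hρ1 : ρ ≤ 1 / 4)
    (hlo : ∀ v, (1 - ρ) * QF (H0T d L) (M.fr g ω) v ≤ QF (H0T d L) M' v)
    (hup : ∀ v, QF (H0T d L) M' v ≤ (1 + ρ) * QF (H0T d L) (M.fr g ω) v)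
    {μ K : ℝ} (hμ : 0 < μ) (hμ1 : μ ≤ 1) (hK0 : 0 ≤ K)
    (hkd : ∀ x ∈ M.nr, x ∉ N → ∀ y ∈ M.nr, y ∉ N → |kM M' x y - kM M x y| ≤
      K * ((mm M x * rr μ s c0 x ^ 2) * (mm M y * rr μ s c0 y ^ 2)))
    (hkN : ∀ w ∈ N, ∀ y ∈ M.nr, y ∉ N → kM M w y ≤ K * (mm M y * rr μ s c0 y ^ 2))
    (hkN' : ∀ w ∈ N, ∀ y ∈ M.nr, y ∉ N →
      kM M' w y ≤ K * (mfz M g ω w * (mm M y * rr μ s c0 y ^ 2))) :
    StepIn M M' N (mfz M g ω) c0 s (s + s / 2) (2 * s) μ K (4 * (de + ρ)) f.C1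
      (KaC d Rz ((2 * (s : ℝ) + 1) ^ d) mA u.Ki) := by
  have hcard : (#N : ℝ) ≤ (2 * (s : ℝ) + 1) ^ d := by
    have h1 : N ⊆ univ.filter fun y : Tor d L => dT c0 y ≤ s := by
      intro w hw
      rw [mem_filter]
      refine ⟨mem_univ _, ?_⟩
      rw [(nmet_dT (d := d) (L := L)).symm]
      exact hNs w hw
    have h2 := (card_le_card h1).trans (ANP.card_ball c0 s)
    calc (#N : ℝ) ≤ (((2 * s + 1) ^ d : ℕ) : ℝ) := by exact_mod_cast h2
      _ = _ := by push_cast; ring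
  have hnr : M'.nr = M.nr := by unfold Med.nr; rw [hU]
  have hQ' : ∀ v, JF M.nr (kM M') v = QF (H0T d L) M' v := fun v => by
    rw [ANF.Glob.QF_eq, hnr]
  have hNB : N ⊆ B := fun w hw => by
    have := hNs w hw
    exact hB2 w (hO.NX hw) (by omega)
  have hsup : ∀ v : Tor d L → ℝ, (∀ x ∈ M.nr, 2 * s ≤ dT x c0 → v x = 0) →
      ∀ x ∈ M.nr, x ∉ B → v x = 0 := fun v hv x hx hxB => by
    refine hv x hx ?_
    by_contra hc
    exact hxB (hB2 x hx (not_le.1 hc))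
  exact
    { mu0 := hμ
      mu1 := hμ1
      K0 := hK0
      ep0 := by positivity
      Cm1 := hC1
      Ka0 := KaC_nonneg (by positivity) hmA hK
      s0r := by omega
      rR := by omega
      sR := le_rfl
      RL := by omega
      diss := adm_diss (hG.admN hI hN)
      diss' := adm_diss hadm
      U := hU
      eU := hG.eU
      NX := hO.NX
      NB := hNs
      m0 := fun x hx => mm_pos hG hI hN hx
      c0 := fun w hw => hO.mfz_pos hG hI hN (hO.NX hw)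
      cN := fun w hw => hO.mfz_lt hG hI hN hw
      cX := fun x _ hxN => hO.mfz_off hxN
      cm := fun x hx => by
        refine (hO.mfz_le hG hI hN hx).trans ?_
        have h1 : M.eta x ≤ 1 := hG.eS1 x (mem_nr.1 hx)
        have h2 : (M.G x x).im ≤ f.C1 := ((le_abs_self _).trans
          (Complex.abs_im_le_norm _)).trans (hG.gam_le hI hN (mem_nr.1 hx))
        have h3 := (hG.io_pos hI hN (mem_nr.1 hx)).le
        have h4 : mm M x = M.eta x * (M.G x x).im := rfl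
        rw [h4]
        have h5 : (0 : ℝ) ≤ (M.G x x).im := h3
        nlinarith
      kd := fun x hx hxN y hy hyN => by
        rw [hO.mfz_off hxN, hO.mfz_off hyN]
        exact hkd x hx hxN y hy hyN
      kN := fun w hw y hy hyN => by
        rw [hO.mfz_off hyN]
        exact hkN w hw y hy hyN
      kN' := fun w hw y hy hyN => by
        rw [hO.mfz_off hyN, abs_of_nonneg (kM_nonneg (adm_diss hadm) w y)]
        exact hkN' w hw y hy hyN
      anc := fun φ hφ => anchor (fun x hx => mm_pos hG hI hN hx) hmA hK hG.h4l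
        (fun i x => hI.D i x) hI.dl0 (fun x => (hI.dS x).trans hdS) hO.NX hcard
        (fun w hw => by have := hNs w hw; omega)
        (fun w hw => by
          refine hmA1.trans (le_trans ?_ (mm_ge_act hG hI hN (hNA hw)))
          have := mul_nonneg hN.eta.le hN.c1.le
          have := hN.c1
          nlinarith)
        (mem_nr.2 hzU) hz1 hz2 (mA_le hG hI hN hmA1 hmA2 hzU hzI) φ hφ
      low := fun v hv => by
        obtain ⟨y, hy1, hy2⟩ := hO.low hG hI hN hK hBn hBX hNB hF (hsup v hv)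
        refine ⟨y, hy1, ?_⟩
        have h1 : ∑ w ∈ N, y w ^ 2 / (1 / mfz M g ω w - 1 / mm M w) =
            ∑ w ∈ N, y w ^ 2 / (M.stp g).aw (ANS.full ω) w :=
          sum_congr rfl fun w _ => by rw [aw_mfz]
        rw [h1, ← ANF.Glob.QF_eq, hQ']
        have h3 := hlo v
        obtain ⟨W, hW⟩ : ∃ W, W = QF (H0T d L) M (fun x => v x - y x) +
          ∑ w ∈ N, y w ^ 2 / (M.stp g).aw (ANS.full ω) w := ⟨_, rfl⟩
        rw [← hW] at hy2 ⊢
        have hW0 : 0 ≤ W := by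
          rw [hW]
          have h4 := hG.QF_nonneg hI hN (fun x => v x - y x)
          have h5 : 0 ≤ ∑ w ∈ N, y w ^ 2 / (M.stp g).aw (ANS.full ω) w :=
            Finset.sum_nonneg fun w _ => div_nonneg (sq_nonneg _) (hO.aw_nonneg hG hI hN w)
          linarith
        have h4 := mul_le_mul_of_nonneg_left hy2 (by linarith : 0 ≤ 1 - ρ)
        have h5 : (1 - ρ) * ((1 - de) * W) ≤ QF (H0T d L) M' v := h4.trans h3
        have h6 : (1 - (de + ρ)) * W ≤ QF (H0T d L) M' v := by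
          refine le_trans ?_ h5
          rw [← mul_assoc]
          exact mul_le_mul_of_nonneg_right (by nlinarith) hW0
        have h7 : 1 ≤ (1 + 4 * (de + ρ)) * (1 - (de + ρ)) := by nlinarith
        calc W = 1 * W := (one_mul W).symm
          _ ≤ (1 + 4 * (de + ρ)) * (1 - (de + ρ)) * W := mul_le_mul_of_nonneg_right h7 hW0
          _ = (1 + 4 * (de + ρ)) * ((1 - (de + ρ)) * W) := by ring
          _ ≤ _ := mul_le_mul_of_nonneg_left h6 (by positivity)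
      up := fun v hv y hy => by
        have h1 : ∑ w ∈ N, y w ^ 2 / (1 / mfz M g ω w - 1 / mm M w) =
            ∑ w ∈ N, y w ^ 2 / (M.stp g).aw (ANS.full ω) w :=
          sum_congr rfl fun w _ => by rw [aw_mfz]
        rw [h1, ← ANF.Glob.QF_eq, hQ']
        have h2 := hO.up hG hI hN hK hBn hBX hNB hde hF (hsup v hv) hy
        have h3 := hup v
        obtain ⟨W, hW⟩ : ∃ W, W = QF (H0T d L) M (fun x => v x - y x) +
          ∑ w ∈ N, y w ^ 2 / (M.stp g).aw (ANS.full ω) w := ⟨_, rfl⟩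
        rw [← hW] at h2 ⊢
        have hW0 : 0 ≤ W := by
          rw [hW]
          have h4 := hG.QF_nonneg hI hN (fun x => v x - y x)
          have h5 : 0 ≤ ∑ w ∈ N, y w ^ 2 / (M.stp g).aw (ANS.full ω) w :=
            Finset.sum_nonneg fun w _ => div_nonneg (sq_nonneg _) (hO.aw_nonneg hG hI hN w)
          linarith
        have h4 := mul_le_mul_of_nonneg_left h2 (by linarith : 0 ≤ 1 + ρ)
        refine (h3.trans h4).trans ?_
        rw [← mul_assoc]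
        exact mul_le_mul_of_nonneg_right (by nlinarith) hW0 }

/-- **(H4low), (H4up) of the next medium**, Part A and B: `M1` = medium after the reading, `W` = sites with a weak outcome (relabelled as
inert).  `N` = sites which are really read. -/
theorem h4_frok {X : Type} {P : Par} {Sf : SiteF X} {n s Rz : ℕ} {F : Fld (Tor d L)}
    {π π' : Prof (Tor d L)} {v v' : Tor d L → X} {M1 : Med (Tor d L)} {W : Finset (Tor d L)}
    (hG : Good f (tolAt P Sf n F π v M) M) (hI : (tolAt P Sf n F π v M).In f M u)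
    (hN : Num f (tolAt P Sf n F π v M) u) (hK : 0 < u.Ki) (hC1 : 1 ≤ f.C1)
    (hdS : u.dS ≤ 1) (hO : FrOK M g ω N) (hNA : N ⊆ M.A)
    {mA : ℝ} (hmA : 0 < mA) (hmA1 : mA ≤ P.cl * P.kap (n + 1) * f.c1 * f.c1)
    (hmA2 : mA ≤ P.cs * P.kap (n + 1) * f.c1) {c0 z0 : Tor d L} (hL : 4 * s + 1 ≤ L)
    (hNs : ∀ w ∈ N, dT w c0 ≤ s) {B : Finset (Tor d L)} (hBn : B ⊆ M.nr)
    (hB2 : ∀ x ∈ M.nr, dT x c0 < 2 * s → x ∈ B) (hBX : ∃ x ∈ M.nr, x ∉ B)
    (hzU : z0 ∉ M.U) (hzI : z0 ∉ M.I) (hz1 : 2 * s ≤ dT z0 c0) (hz2 : dT z0 c0 ≤ Rz) {de ρ : ℝ}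
    (hF : (M.stp g).FormLe B de (ANS.full ω))
    {r : ℝ} (hn : Nxt M M1 g ω r) (hadm : ANL.Adm (H0T d L) M1.b)
    (hde : 0 ≤ de) (hde1 : de ≤ 1 / 4) (hρ : 0 ≤ ρ) (hρ1 : ρ ≤ 1 / 4)
    (hlo : ∀ v, (1 - ρ) * QF (H0T d L) (M.fr g ω) v ≤ QF (H0T d L) M1 v)
    (hup : ∀ v, QF (H0T d L) M1 v ≤ (1 + ρ) * QF (H0T d L) (M.fr g ω) v)
    {μ K : ℝ} (hμ : 0 < μ) (hμ1 : μ ≤ 1) (hK0 : 0 ≤ K)
    (hkd : ∀ x ∈ M.nr, x ∉ N → ∀ y ∈ M.nr, y ∉ N → |kM M1 x y - kM M x y| ≤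
      K * ((mm M x * rr μ s c0 x ^ 2) * (mm M y * rr μ s c0 y ^ 2)))
    (hkN : ∀ w ∈ N, ∀ y ∈ M.nr, y ∉ N → kM M w y ≤ K * (mm M y * rr μ s c0 y ^ 2))
    (hkN' : ∀ w ∈ N, ∀ y ∈ M.nr, y ∉ N →
      kM M1 w y ≤ K * (mfz M g ω w * (mm M y * rr μ s c0 y ^ 2)))
    {e1 e2 cρ ce cm : ℝ}
    (hNum : NumH4 d s n P μ K (4 * (de + ρ)) f.C1
      (KaC d Rz ((2 * (s : ℝ) + 1) ^ d) mA u.Ki) u.C0 e1 e2 cρ ce cm)
    (hmρ : ∀ x ∈ M.nr, |mm M1 x - mfz M g ω x| ≤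
      cρ * ph (P.kap n) P.v P.b s x c0 * mfz M g ω x)
    (hcm : ∀ x ∈ M.A, x ∉ W → cm * (P.eta + P.kap n) ≤ mm M1 x)
    (hWd : ∀ x ∈ W, (P.e0 + P.Ce * F.ae x) * mfz M g ω x + (2 * cρ + 6 * ce) ≤
      P.dS * (1 + F.err x)) :
    (∀ w : Tor d L → ℝ, ∃ a : Tor d L → ℝ,
      DW (tolAt P Sf n (F.add P n s {c0}) π' v' (M1.rel W)).D a +
        ∑ x ∈ (M1.rel W).nr, (M1.rel W).eta x * (rsc (H0T d L) (M1.rel W).b x x).im *
          (w x - a x) ^ 2 /
        (1 + (tolAt P Sf n (F.add P n s {c0}) π' v' (M1.rel W)).dl x) ≤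
          QF (H0T d L) (M1.rel W) w) ∧
    ∀ a : Tor d L → ℝ, QF (H0T d L) (M1.rel W) a ≤
      DW (tolAt P Sf n (F.add P n s {c0}) π' v' (M1.rel W)).C0 a := by
  have hs2 := hNum.s2
  have hS := stepIn (M' := M1.rel W) hG hI hN hK hC1 hdS hO hNA hmA hmA1 hmA2
    (by omega : 1 ≤ s) hL hNs hBn hB2 hBX hzU hzI hz1 hz2 hF hn.U hadm hde hde1 hρ hρ1 hlo hup
    hμ hμ1 hK0 hkd hkN hkN'
  refine h4_tolAt (W := W) hS hNum ?_ hG.h4l hG.h4u (fun i x => hI.C0 i x) hI.dl0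
    (fun x _ => (hI.dS x).trans hdS) hmρ (fun x hxA hxW _ => hcm x hxA hxW) hWd
  rw [rel_A, hn.A]

/-- constant of the relative kernels in the numbers -/
def kerN (f : Fix) (Lm Q μ : ℝ) (a cc : ℕ) : ℝ :=
  4 * (kerC f.C1 Lm Q μ a cc + decC f.C1 Lm μ a cc ^ 2) * (1 + 1 / f.c1) ^ 2

/-- **(H4low), (H4up) of the next medium from the far rows**, Part A (`W = ∅`) and Part B.  `N0` = sites of the step, `N` = sites which are
really read (`FrOK.of_ok`, `FrOK.of_okB`), `z0` = anchor site. -/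
theorem h4_row {X : Type} {P : Par} {Sf : SiteF X} {n s Rz : ℕ} {F : Fld (Tor d L)}
    {π π' : Prof (Tor d L)} {v v' : Tor d L → X} {M1 : Med (Tor d L)}
    {W N0 : Finset (Tor d L)}
    (hG : Good f (tolAt P Sf n F π v M) M) (hI : (tolAt P Sf n F π v M).In f M u)
    (hN : Num f (tolAt P Sf n F π v M) u) (hK : 0 < u.Ki)
    (hdS : u.dS ≤ 1)
    (hO : FrOK M g ω N) (hNN : N ⊆ N0) (hoff : Off g ω N0) (hNA : N0 ⊆ M.A)
    {mA : ℝ} (hmA : 0 < mA) (hmA1 : mA ≤ P.cl * P.kap (n + 1) * f.c1 * f.c1)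
    (hmA2 : mA ≤ P.cs * P.kap (n + 1) * f.c1)
    (hkf : ∀ x, 0 ≤ M.kf g ω x)
    (hklo : ∀ x ∈ M.A, x ∉ W → P.cl * P.kap (n + 1) ≤ M.kf g ω x)
    {c0 z0 : Tor d L} (hL : 4 * s + 1 ≤ L) (hNs : ∀ w ∈ N0, dT w c0 ≤ s)
    {B : Finset (Tor d L)} (hBn : B ⊆ M.nr)
    (hB2 : ∀ x ∈ M.nr, dT x c0 < 2 * s → x ∈ B) (hBX : ∃ x ∈ M.nr, x ∉ B)
    (hzU : z0 ∉ M.U) (hzI : z0 ∉ M.I) (hz1 : 2 * s ≤ dT z0 c0) (hz2 : dT z0 c0 ≤ Rz) {de ρ : ℝ}
    (hF : (M.stp g).FormLe B de (ANS.full ω))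
    {r : ℝ} (hn : Nxt M M1 g ω r) (hr : r ≤ f.c1 / 2)
    (hde : 0 ≤ de) (hde1 : de ≤ 1 / 4) (hρ : 0 ≤ ρ) (hρ1 : ρ ≤ 1 / 4)
    (hlo : ∀ v, (1 - ρ) * QF (H0T d L) (M.fr g ω) v ≤ QF (H0T d L) M1 v)
    (hup : ∀ v, QF (H0T d L) M1 v ≤ (1 + ρ) * QF (H0T d L) (M.fr g ω) v)
    {Fp : Set (Tor d L)} {μ : ℝ} {a cc : ℕ} {Q ν e Lm q : ℝ}
    (hrow : FarRow f M M1 Fp μ a cc (fun x => dT x c0 - s) Q ν e Lm q)
    (hμ : 0 < μ) (hν : 0 < ν) (hν1 : ν / 4 ≤ 1)
    {e1 e2 cρ ce cm : ℝ}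
    (hNum : NumH4 d s n P (ν / 4) (kerN f Lm Q μ a cc) (4 * (de + ρ)) f.C1
      (KaC d Rz ((2 * (s : ℝ) + 1) ^ d) mA u.Ki) u.C0 e1 e2 cρ ce cm)
    (hmρ : ∀ x ∈ M.nr, |mm M1 x - mfz M g ω x| ≤
      cρ * ph (P.kap n) P.v P.b s x c0 * mfz M g ω x)
    (hcm : cm * (P.eta + P.kap n) ≤ (P.eta + P.cl * P.kap (n + 1) * f.c1) * f.c1 / 16)
    (hcρ : cρ ≤ 1 / 2)
    (hWd : ∀ x ∈ W, (P.e0 + P.Ce * F.ae x) * mfz M g ω x + (2 * cρ + 6 * ce) ≤
      P.dS * (1 + F.err x)) :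
    (∀ w : Tor d L → ℝ, ∃ a : Tor d L → ℝ,
      DW (tolAt P Sf n (F.add P n s {c0}) π' v' (M1.rel W)).D a +
        ∑ x ∈ (M1.rel W).nr, (M1.rel W).eta x * (rsc (H0T d L) (M1.rel W).b x x).im *
          (w x - a x) ^ 2 /
        (1 + (tolAt P Sf n (F.add P n s {c0}) π' v' (M1.rel W)).dl x) ≤
          QF (H0T d L) (M1.rel W) w) ∧
    ∀ a : Tor d L → ℝ, QF (H0T d L) (M1.rel W) a ≤
      DW (tolAt P Sf n (F.add P n s {c0}) π' v' (M1.rel W)).C0 a := by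
  have hc1 := hN.c1
  have hte : (tolAt P Sf n F π v M).eta = P.eta := rfl
  have heta : 0 < P.eta := hN.eta
  -- absorption and mass
  have hem : ∀ x ∈ M.nr, M.eta x ≤ (1 + 1 / f.c1) * mm M x := fun x hx => by
    have h1 : f.c1 ≤ (M.G x x).im := hG.io_ge hI hN (mem_nr.1 hx)
    have h2 := hG.eta_nonneg hI hN x
    have h3 : mm M x = M.eta x * (M.G x x).im := rfl
    have h4 : M.eta x * f.c1 ≤ mm M x := by rw [h3]; exact mul_le_mul_of_nonneg_left h1 h2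
    have h5 : M.eta x ≤ mm M x / f.c1 := by rw [le_div_iff₀ hc1]; exact h4
    have h6 : 0 ≤ mm M x := (mul_nonneg h2 hc1.le).trans h4
    have h7 : (1 + 1 / f.c1) * mm M x = mm M x + mm M x / f.c1 := by ring
    linarith
  have hfe : ∀ x ∈ M.nr, (M.fr g ω).eta x ≤ (1 + 1 / f.c1) * mfz M g ω x := fun x hx => by
    have h1 : f.c1 ≤ (M.G x x).im := hG.io_ge hI hN (mem_nr.1 hx)
    have h2 := (hO.eX x hx).le
    have h3 : mfz M g ω x = (M.fr g ω).eta x * (M.G x x).im := rfl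
    have h4 : (M.fr g ω).eta x * f.c1 ≤ mfz M g ω x := by
      rw [h3]; exact mul_le_mul_of_nonneg_left h1 h2
    have h5 : (M.fr g ω).eta x ≤ mfz M g ω x / f.c1 := by rw [le_div_iff₀ hc1]; exact h4
    have h6 : 0 ≤ mfz M g ω x := (mul_nonneg h2 hc1.le).trans h4
    have h7 : (1 + 1 / f.c1) * mfz M g ω x = mfz M g ω x + mfz M g ω x / f.c1 := by ring
    linarith
  -- the diagonal
  have hio2 : ∀ x, x ∉ M.U → (M1.G x x).im ≤ 2 * (M.G x x).im := fun x hx => by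
    have h4 := hn.dia x hx
    have h5 := Complex.abs_im_le_norm (M1.G x x - M.G x x)
    rw [Complex.sub_im] at h5
    have h6 := abs_le.1 (h5.trans h4)
    have h7 : f.c1 ≤ (M.G x x).im := hG.io_ge hI hN hx
    linarith [h6.2]
  -- frozen absorption at active sites
  have hfrA : ∀ x ∈ M.A, (M.fr g ω).eta x = P.eta + M.kf g ω x * (M.G x x).im := fun x hx => by
    have h1 := hG.eA x hx
    have h2 : (rsc (H0T d L) M.b x x).im = (M.G x x).im := rfl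
    rw [h2, hte] at h1
    rw [fr_eta_eq, h1]
    unfold Med.kf
    ring
  have he2 : ∀ x ∈ M.A, M1.eta x ≤ 2 * (M.fr g ω).eta x := fun x hx => by
    have h1 := hn.eta_act hG hx
    rw [hte, hn.k x] at h1
    have h2 := hfrA x hx
    have h3 := mul_le_mul_of_nonneg_left (hio2 x (hG.nU_of_A hx)) (hkf x)
    rw [h1, h2]
    linarith
  have he2' : ∀ x ∈ M.nr, x ∉ N → M1.eta x ≤ 2 * M.eta x := fun x hx hxN => by
    by_cases hA : x ∈ M.A
    · have h1 := he2 x hA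
      rw [fr_eta_eq, hO.z0 x hxN, zero_mul, sub_zero] at h1
      exact h1
    · have h1 := hn.eta_off hG hoff hNA hA
      have h2 := hG.eta_nonneg hI hN x
      rw [h1]
      linarith
  have hker0 : 0 ≤ kerC f.C1 Lm Q μ a cc := by
    have h1 : z0 ∉ M.U := hzU
    have e1 := hrow.decC_nn hμ h1
    have e2 : 0 ≤ Lm := (norm_nonneg _).trans (hrow.hLm z0 z0 h1 h1)
    have e3 := hrow.hQ
    unfold kerC
    positivity
  have hi1 : 0 ≤ 1 / f.c1 := by positivity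
  obtain ⟨h, hh⟩ : ∃ h, h = 1 + 1 / f.c1 := ⟨_, rfl⟩
  have hh1 : 1 ≤ h := by rw [hh]; linarith
  rw [← hh] at hem hfe
  obtain ⟨kc, hkc⟩ : ∃ kc, kc = kerC f.C1 Lm Q μ a cc := ⟨_, rfl⟩
  obtain ⟨dc, hdc⟩ : ∃ dc, dc = decC f.C1 Lm μ a cc ^ 2 := ⟨_, rfl⟩
  have hdc0 : 0 ≤ dc := by rw [hdc]; exact sq_nonneg _
  have hKN : kerN f Lm Q μ a cc = 4 * (kc + dc) * h ^ 2 := by
    unfold kerN
    rw [← hkc, ← hdc, ← hh]
  rw [hKN] at hNum
  rw [← hkc] at hker0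
  have hNU : ∀ w ∈ N, w ∉ M.U := fun w hw => hG.nU_of_A (hNA (hNN hw))
  have hNs' : ∀ w ∈ N, dT w c0 ≤ s := fun w hw => hNs w (hNN hw)
  have hmr : ∀ y ∈ M.nr, 0 ≤ mm M y * rr (ν / 4) s c0 y ^ 2 := fun y hy =>
    mul_nonneg (mm_pos hG hI hN hy).le (sq_nonneg _)
  have her : ∀ y ∈ M.nr, M.eta y * rr (ν / 4) s c0 y ^ 2 ≤
      h * (mm M y * rr (ν / 4) s c0 y ^ 2) := fun y hy => by
    have := mul_le_mul_of_nonneg_right (hem y hy) (sq_nonneg (rr (ν / 4) s c0 y))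
    linarith
  refine h4_frok (π' := π') (v' := v') (M1 := M1) (W := W) (K := 4 * (kc + dc) * h ^ 2)
    hG hI hN hK hrow.one hdS hO (hNN.trans hNA) hmA hmA1 hmA2 hL hNs' hBn hB2 hBX hzU hzI hz1 hz2
    hF hn hrow.hb' hde hde1 hρ hρ1 hlo hup (by linarith) hν1 (by positivity)
    (fun x hx hxN y hy hyN => ?_) (fun w hw y hy hyN => ?_) (fun w hw y hy hyN => ?_) hNum hmρ
    (fun x hxA hxW => ?_) hWd
  · have h1 := hrow.kdR hμ hx hy (he2' x hx hxN) (he2' y hy hyN)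
    rw [← hkc] at h1
    refine h1.trans ?_
    have h2 := mul_le_mul (her x hx) (her y hy)
      (mul_nonneg (hG.eta_nonneg hI hN y) (sq_nonneg _))
      (mul_nonneg (by linarith) (hmr x hx))
    have h3 := mul_le_mul_of_nonneg_left h2 (by positivity : 0 ≤ 4 * kc)
    have h4 : 0 ≤ 4 * dc * h ^ 2 * ((mm M x * rr (ν / 4) s c0 x ^ 2) *
        (mm M y * rr (ν / 4) s c0 y ^ 2)) :=
      mul_nonneg (by positivity) (mul_nonneg (hmr x hx) (hmr y hy))
    refine h3.trans ?_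
    nlinarith
  · have h1 := hrow.kNR hμ hNs' hNU hy hw
    rw [← hdc] at h1
    refine h1.trans ?_
    have h2 : M.eta w * (M.eta y * rr (ν / 4) s c0 y ^ 2) ≤
        1 * (h * (mm M y * rr (ν / 4) s c0 y ^ 2)) :=
      mul_le_mul (hrow.he1 w) (her y hy)
        (mul_nonneg (hG.eta_nonneg hI hN y) (sq_nonneg _)) zero_le_one
    have h3 := mul_le_mul_of_nonneg_left h2 hdc0
    refine h3.trans ?_
    have h4 : dc * (1 * (h * (mm M y * rr (ν / 4) s c0 y ^ 2))) =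
        dc * h * (mm M y * rr (ν / 4) s c0 y ^ 2) := by ring
    rw [h4]
    refine mul_le_mul_of_nonneg_right ?_ (hmr y hy)
    have h5 : dc * h ≤ dc * h ^ 2 := mul_le_mul_of_nonneg_left (by nlinarith) hdc0
    have h6 : 0 ≤ kc * h ^ 2 := by positivity
    have h7 : 0 ≤ dc * h ^ 2 := by positivity
    linarith
  · have h1 := hrow.kNR' hμ hNs' hNU hy hw
    rw [← hdc] at h1
    refine h1.trans ?_
    have hwA := hNA (hNN hw)
    have hwX := hO.NX hw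
    have h2 : M1.eta w ≤ 2 * (h * mfz M g ω w) :=
      (he2 w hwA).trans (mul_le_mul_of_nonneg_left (hfe w hwX) zero_le_two)
    have h3 : M1.eta y * rr (ν / 4) s c0 y ^ 2 ≤ 2 * (h * (mm M y * rr (ν / 4) s c0 y ^ 2)) := by
      have e1 := mul_le_mul_of_nonneg_right (he2' y hy hyN) (sq_nonneg (rr (ν / 4) s c0 y))
      have e2 := her y hy
      linarith
    have hm0 : 0 ≤ mfz M g ω w := (hO.mfz_pos hG hI hN hwX).le
    have h4 := mul_le_mul h2 h3 (mul_nonneg (hrow.eta_nn' y) (sq_nonneg _))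
      (mul_nonneg zero_le_two (mul_nonneg (by linarith) hm0))
    have h5 := mul_le_mul_of_nonneg_left h4 hdc0
    refine h5.trans ?_
    have h6 : 0 ≤ 4 * kc * h ^ 2 * (mfz M g ω w * (mm M y * rr (ν / 4) s c0 y ^ 2)) :=
      mul_nonneg (by positivity) (mul_nonneg hm0 (hmr y hy))
    nlinarith
  · have hx := hG.A_sub_nr hxA
    have h1 : f.c1 ≤ (M.G x x).im := hG.io_ge hI hN (mem_nr.1 hx)
    have h2 := hfrA x hxA
    have h3 := hklo x hxA hxW
    have h4 : P.eta + P.cl * P.kap (n + 1) * f.c1 ≤ (M.fr g ω).eta x := by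
      rw [h2]
      have := mul_le_mul h3 h1 hc1.le (hkf x)
      linarith
    have h5 : (P.eta + P.cl * P.kap (n + 1) * f.c1) * f.c1 ≤ mfz M g ω x := by
      have h6 : mfz M g ω x = (M.fr g ω).eta x * (M.G x x).im := rfl
      rw [h6]
      exact mul_le_mul h4 h1 hc1.le (hO.eX x hx).le
    have h7 := (abs_le.1 (hmρ x hx)).1
    have h8 := (hO.mfz_pos hG hI hN hx).le
    have hp1 := ph_le_one hNum.ka0 hNum.ka1 hNum.v0 hNum.b0 s x c0
    have hp0 := ph_nonneg (v := P.v) (b := P.b) hNum.ka0 s x c0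
    have h9 : cρ * ph (P.kap n) P.v P.b s x c0 ≤ 1 / 2 := by
      have := mul_le_mul hcρ hp1 hp0 (by norm_num)
      linarith
    have h10 : cρ * ph (P.kap n) P.v P.b s x c0 * mfz M g ω x ≤ 1 / 2 * mfz M g ω x :=
      mul_le_mul_of_nonneg_right h9 h8
    linarith

end Pool.Agent.AND
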