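import Pool.Agent.ANS.StepDet
import Pool.Agent.ANS.TopH4

/-! # ANS StepForm (helper60): THE FORM FIELDS of the step theorem, Part A and Part B

* `FrOK.of_ctx` : the frozen step is admissible (`FrOK`), sites which are really read `N.filter (0 < ζ)`;
* `H4Num` : all numerical inequalities of the form fields;
* `h4_ctx` : the hypothesis `h4` of `step_det0`.

No constant contains `1/η_*`. -/

set_option autoImplicit false

open Matrix Finset

noncomputable section

namespace Pool.Agent.AND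

open Pool.Agent.Kin Pool.Agent.APS Pool.Agent.ANM Pool.Agent.ANF.Glob

set_option linter.unusedSectionVars false

variable {d L : ℕ} [NeZero L] {X D : Type} [Fintype D]

open Classical in
/-- the frozen step is admissible -/
theorem FrOK.of_ctx {f : Fix} {t : Tol d L} {M : Med (Tor d L)} {u : UTol}
    {g : ANS.Dig (Tor d L) D} {ω : Tor d L → D} {N : Finset (Tor d L)}
    (hG : Good f t M) (hI : t.In f M u) (hN : Num f t u)
    (hmbb : IsUnit (ANI.MBB (H0T d L) M.b M.nr).det) (hoff : Off g ω N) (hNA : N ⊆ M.A)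
    (hkf : ∀ x, 0 ≤ M.kf g ω x) (hz : ∀ x ∈ N, 0 ≤ g.zt x (ω x)) :
    FrOK M g ω (N.filter fun x => 0 < g.zt x (ω x)) := by
  have hbf : ∀ x, x ∉ M.A → M.bf g ω x = M.b x := fun x hx => by
    have h1 := hoff x fun h => hx (hNA h)
    unfold Med.bf
    rw [h1.1, h1.2]
    simp
  have hfe : ∀ x, (M.fr g ω).eta x = -(M.bf g ω x).im := fun _ => rfl
  have hpos : ∀ x ∈ M.nr, 0 < (M.fr g ω).eta x := by
    intro x hx
    have hxU := mem_nr.1 hx
    by_cases hA : x ∈ M.A
    · have h1 := hG.eA x hA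
      have h2 : (rsc (H0T d L) M.b x x).im = (M.G x x).im := rfl
      have h3 := hG.io_pos hI hN hxU
      have h4 := hN.eta
      have h5 := mul_nonneg (hkf x) (le_of_lt h3)
      have h6 : M.kf g ω x * (M.G x x).im = M.k x * (M.G x x).im -
          g.zt x (ω x) * (M.G x x).im := by
        unfold Med.kf
        ring
      have h7 : 0 ≤ M.kf g ω x * (M.G x x).im := h5
      rw [fr_eta_eq, h1, h2]
      linarith
    · rw [hfe, hbf x hA]
      exact hG.eta_pos hI hN hxU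
  have hzero : ∀ x, x ∉ M.nr → (M.bf g ω x).im = 0 := by
    intro x hx
    rw [hbf x fun hA => hx (hG.A_sub_nr hA)]
    exact hG.im_zero' hx
  have hneg : ∀ x ∈ M.nr, (M.bf g ω x).im < 0 := fun x hx => by
    have := hpos x hx
    rw [hfe] at this
    linarith
  have hmbf : IsUnit (ANI.MBB (H0T d L) (M.bf g ω) M.nr).det := by
    rw [MBB_congr (fun x hx => hbf x fun hA => hx (hG.A_sub_nr hA))]
    exact hmbb
  have hoffz : ∀ x, x ∉ N → g.zt x (ω x) = 0 := fun x hx => (hoff x hx).2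
  exact
    { NX := (filter_subset _ _).trans fun x hx => hG.A_sub_nr (hNA hx)
      z0 := fun x hx => by
        by_cases hxN : x ∈ N
        · rw [mem_filter, not_and] at hx
          exact le_antisymm (not_lt.1 (hx hxN)) (hz x hxN)
        · exact hoffz x hxN
      zp := fun x hx => (mem_filter.1 hx).2
      adm := by
        refine ANI.adm_of_eff (X := M.nr) H0T_realSym (fun x => ?_) hmbf ?_
        · by_cases hx : x ∈ M.nr
          · exact (hneg x hx).le
          · exact (hzero x hx).le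
        · exact rsc_unit (ANI.realSym_eff H0T_realSym fun x hx => hzero x hx) fun x => hneg x.1 x.2
      eU := fun x hx => by
        rw [hfe, hzero x fun h => (mem_nr.1 h) hx, neg_zero]
      eX := hpos }

/-- ALL NUMERICAL INEQUALITIES of the form fields; `an` = bound of `F.ae` -/
structure H4Num (f : Fix) (P : Par) (n s d : ℕ) (u : UTol)
    (al de μ K ze Lm an mA e1 e2 cρ ce cm : ℝ) (aa cc l : ℕ) : Prop where
  nu1 : farν f u μ aa / 4 ≤ 1
  nu0 : 0 < farν f u μ aa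
  /-- lower bound of the masses at sites which are neither read nor inert -/
  mA0 : 0 < mA
  mA1 : mA ≤ P.cl * P.kap (n + 1) * f.c1 * f.c1
  mA2 : mA ≤ P.cs * P.kap (n + 1) * f.c1
  h4 : NumH4 d s n P (farν f u μ aa / 4) (kerN f Lm (farQ d f u μ K aa cc) μ aa cc)
    (4 * (de + qStep f l al)) f.C1
    (KaC d (2 * s + cc + 1) ((2 * (s : ℝ) + 1) ^ d) mA u.Ki) u.C0 e1 e2 cρ ce cm
  dS : u.dS ≤ 1
  de0 : 0 ≤ de
  de1 : de ≤ 1 / 4
  q0 : 0 ≤ qStep f l al
  q1 : qStep f l al ≤ 1 / 4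
  cρ1 : cρ ≤ 1 / 2
  cρ3 : 3 * ze / f.c1 ≤ cρ
  ze3 : ze ≤ f.c1 / 2
  cm1 : cm * (P.eta + P.kap n) ≤ (P.eta + P.cl * P.kap (n + 1) * f.c1) * f.c1 / 16
  /-- weak outcomes -/
  wd : (P.e0 + P.Ce * an) * (P.eta * f.C1) + (2 * cρ + 6 * ce) ≤ P.dS

variable {κ : Type} {f : Fix} {P : Par} {Sf : SiteF X} {n s : ℕ} {F : Fld (Tor d L)}
  {π π' : Prof (Tor d L)} {v v' : Tor d L → X} {M : Med (Tor d L)} {u : UTol}
  {g : ANS.Dig (Tor d L) D} {ω : Tor d L → D} {N W : Finset (Tor d L)} {c : Tor d L}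
  {Dp : κ → Set (Tor d L)} {aa cc l nW : ℕ} {Bd Cph errm bem : ℝ}
  {B : Finset (Tor d L)}
  {al de K μ q ze Lm an mA e e1 e2 cρ ce cm : ℝ}

/-- **THE FORM FIELDS** = the hypothesis `h4` of `step_det0` -/
theorem h4_ctx
    (hC : StepCtx f P Sf n s F π π' v v' M u g ω N W c Dp aa cc nW Bd Cph errm bem B)
    (hN : H4Num f P n s d u al de μ K ze Lm an mA e1 e2 cρ ce cm aa cc l)
    (hform : (M.stp g).FormLe B de (ANS.full ω)) (hae : ∀ x ∈ W, F.ae x ≤ an)
    {M' : Med (Tor d L)} (hn : Nxt M M' g ω (rStep f l al))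
    (hs : StepH f (tolAt P Sf n F π v M) M g ω W (rStep f l al) al (P.cl * P.kap (n + 1))
      (P.kap n))
    (hrow : FarRow f M M' {x | ∃ k, x ∈ Dp k} μ aa cc (fun x => ANP.dT x c - s)
      (farQ d f u μ K aa cc) (farν f u μ aa) e Lm q)
    (hμ : 0 < μ)
    (hd : ∀ x, x ∉ M.U → ‖M'.G x x - M.G x x‖ ≤ ze * ph (P.kap n) P.v P.b s x c)
    (hlo : ∀ v, (1 - qStep f l al) * QF (H0T d L) (M.fr g ω) v ≤ QF (H0T d L) M' v)
    (hup : ∀ v, QF (H0T d L) M' v ≤ (1 + qStep f l al) * QF (H0T d L) (M.fr g ω) v) :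
    (∀ w : Tor d L → ℝ, ∃ a : Tor d L → ℝ,
        DW (tolAt P Sf n (F.add P n s {c}) π' v' (M'.rel W)).D a +
          ∑ x ∈ (M'.rel W).nr, (M'.rel W).eta x * (rsc (H0T d L) (M'.rel W).b x x).im *
          (w x - a x) ^ 2 /
          (1 + (tolAt P Sf n (F.add P n s {c}) π' v' (M'.rel W)).dl x) ≤
            QF (H0T d L) (M'.rel W) w) ∧
      ∀ a : Tor d L → ℝ, QF (H0T d L) (M'.rel W) a ≤
        DW (tolAt P Sf n (F.add P n s {c}) π' v' (M'.rel W)).C0 a := by
  classical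
  have hG := hC.good
  have hI := hC.inn
  have hNn := hC.num
  have hc1 := hNn.c1
  have hkf0 : ∀ x, 0 ≤ M.kf g ω x := by
    intro x
    by_cases hx : x ∈ M.A
    · by_cases hxW : x ∈ W
      · rw [hC.kW x hxW]
      · exact hs.kl0.le.trans (hC.klo x hx hxW)
    · rw [hs.kf0 hG hx]
  have hO := FrOK.of_ctx (ω := ω) hG hI hNn hC.mbb hC.off hC.NA hkf0 hC.zt
  have hka := hN.h4.ka0
  have hP := hC.PP
  have hmρ : ∀ x ∈ M.nr, |mm M' x - mfz M g ω x| ≤
      cρ * ph (P.kap n) P.v P.b s x c * mfz M g ω x := by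
    intro x hx
    have hp1 : ph (P.kap n) P.v P.b s x c ≤ 1 :=
      ph_le_one hka hN.h4.ka1 hN.h4.v0 hN.h4.b0 s x c
    have hp0 := ANF.Glob.ph_nonneg (v := P.v) (b := P.b) hka s x c
    have h1 := m_rel hn hG hI hNn hs hd hN.ze3 hka (mem_nr.1 hx) hp1
    have h2 : mm M' x = M'.eta x * (M'.G x x).im := rfl
    have h3 : mfz M g ω x = -(M.bf g ω x).im * (M.G x x).im := rfl
    rw [h2, h3]
    refine h1.trans ?_
    have h4 : 0 ≤ -(M.bf g ω x).im * (M.G x x).im := by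
      have h5 := hO.mfz_pos hG hI hNn hx
      rw [h3] at h5
      exact h5.le
    refine mul_le_mul_of_nonneg_right ?_ h4
    exact mul_le_mul_of_nonneg_right hN.cρ3 hp0
  obtain ⟨z0, hzU, hzI, hz1, hz2⟩ := hC.Z
  refine h4_row (π' := π') (v' := v') (W := W) hG hI hNn hC.Ki hN.dS hO (filter_subset _ _)
    hC.off hC.NA hN.mA0 hN.mA1 hN.mA2 hkf0 hC.klo hC.LL hC.NB hC.Bn
    (fun x hx hxc => hC.B3 x hx (by omega)) hC.Bx hzU hzI hz1 hz2 hform hn
    (by have := hs.r1; linarith) hN.de0 hN.de1 hN.q0 hN.q1 hlo hup hrow hμ hN.nu0 hN.nu1 hN.h4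
    hmρ hN.cm1 hN.cρ1 (fun x hx => ?_)
  -- weak outcomes
  have hxA := hC.NA (hC.WN hx)
  have hxU := hG.nU_of_A hxA
  have h1 : mfz M g ω x ≤ P.eta * f.C1 := by
    have e1 := hG.eA x hxA
    have e2 : (rsc (H0T d L) M.b x x).im = (M.G x x).im := rfl
    have e3 : (tolAt P Sf n F π v M).eta = P.eta := rfl
    have e4 : (M.fr g ω).eta x = P.eta := by
      have e5 := hC.kW x hx
      unfold Med.kf at e5
      rw [fr_eta_eq, e1, e2, e3]
      have e6 : g.zt x (ω x) = M.k x := by linarith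
      rw [e6]
      ring
    have e5 : mfz M g ω x = P.eta * (M.G x x).im := by
      unfold mfz
      rw [e4]
    rw [e5]
    refine mul_le_mul_of_nonneg_left ?_ (by have := hNn.eta; exact this.le)
    exact ((le_abs_self _).trans (Complex.abs_im_le_norm _)).trans (hG.gam_le hI hNn hxU)
  have h2 : P.e0 + P.Ce * F.ae x ≤ P.e0 + P.Ce * an := by
    have := mul_le_mul_of_nonneg_left (hae x hx) hP.Ce
    linarith
  have h3 : 0 ≤ mfz M g ω x := (hO.mfz_pos hG hI hNn (mem_nr.2 hxU)).le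
  have h4 : 0 ≤ P.e0 + P.Ce * an := by
    have e1 := mul_nonneg hP.Ce (hC.FP.ae x)
    have e2 := hP.e0
    linarith
  have h5 : (P.e0 + P.Ce * F.ae x) * mfz M g ω x ≤ (P.e0 + P.Ce * an) * (P.eta * f.C1) :=
    mul_le_mul h2 h1 h3 h4
  have h6 : P.dS ≤ P.dS * (1 + F.err x) := by
    have := mul_nonneg hP.dS (hC.FP.err x)
    linarith
  have h7 := hN.wd
  linarith

end Pool.Agent.AND
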