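import Mathlib

/-! # ANS LAW: the law of one digit and the mean of the rank one coefficient

`ν = ξ + ζ gt`, `u = ν / (1 + ν G)`: the coefficient in `G' = G - u G e_w e_w^T G` when the unread
site `w` gets the digit `(ξ, ζ)`; `gt` = frozen diagonal entry, `G` = current diagonal entry.
`∑ P u = - c (G - gt) + O(β³)`, `∑ P u² = c + O(β³)`, `∑ P |u|² = c + O(β³)`. -/

set_option autoImplicit false

open Finset

noncomputable section

namespace Pool.Agent.ANS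

/-- the law of one digit: `E ξ = 0`, `E ξ² = E ζ = c`, `|ξ| ≤ β`, `|ζ| ≤ β²` -/
structure Law {A : Type} [Fintype A] (P xi zt : A → ℝ) (c be : ℝ) : Prop where
  P0 : ∀ a, 0 ≤ P a
  P1 : ∑ a, P a = 1
  m1 : ∑ a, P a * xi a = 0
  m2 : ∑ a, P a * xi a ^ 2 = c
  mz : ∑ a, P a * zt a = c
  be0 : 0 ≤ be
  bx : ∀ a, |xi a| ≤ be
  bz : ∀ a, |zt a| ≤ be ^ 2

namespace Law

variable {A : Type} [Fintype A] {P xi zt : A → ℝ} {c be : ℝ}

theorem c0 (h : Law P xi zt c be) : 0 ≤ c := by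
  rw [← h.m2]
  exact Finset.sum_nonneg fun a _ => mul_nonneg (h.P0 a) (sq_nonneg _)

/-- mean of a function bounded by `B` -/
theorem mean_le (h : Law P xi zt c be) {f : A → ℝ} {B : ℝ} (hf : ∀ a, |f a| ≤ B) :
    |∑ a, P a * f a| ≤ B := by
  refine (Finset.abs_sum_le_sum_abs _ _).trans ?_
  calc ∑ a, |P a * f a| ≤ ∑ a, P a * B := by
        refine Finset.sum_le_sum fun a _ => ?_
        rw [abs_mul, abs_of_nonneg (h.P0 a)]
        exact mul_le_mul_of_nonneg_left (hf a) (h.P0 a)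
    _ = B := by rw [← Finset.sum_mul, h.P1, one_mul]

/-- mean of a complex function bounded by `B` -/
theorem cmean_le (h : Law P xi zt c be) {f : A → ℂ} {B : ℝ} (hf : ∀ a, ‖f a‖ ≤ B) :
    ‖∑ a, (P a : ℂ) * f a‖ ≤ B := by
  refine (norm_sum_le _ _).trans ?_
  calc ∑ a, ‖(P a : ℂ) * f a‖ ≤ ∑ a, P a * B := by
        refine Finset.sum_le_sum fun a _ => ?_
        rw [norm_mul, Complex.norm_real, Real.norm_eq_abs, abs_of_nonneg (h.P0 a)]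
        exact mul_le_mul_of_nonneg_left (hf a) (h.P0 a)
    _ = B := by rw [← Finset.sum_mul, h.P1, one_mul]

theorem c_le (h : Law P xi zt c be) : c ≤ be ^ 2 := by
  have h1 := h.mean_le (f := zt) h.bz
  rw [h.mz] at h1
  exact (le_abs_self _).trans h1

/-- the increment of the diagonal -/
def nu (xi zt : A → ℝ) (gt : ℂ) (a : A) : ℂ := (xi a : ℂ) + (zt a : ℂ) * gt

/-- the rank one coefficient -/
def uu (xi zt : A → ℝ) (gt G : ℂ) (a : A) : ℂ := nu xi zt gt a / (1 + nu xi zt gt a * G)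

variable {C : ℝ} {gt G : ℂ}

theorem nu_le (h : Law P xi zt c be) (hC : 1 ≤ C) (hgt : ‖gt‖ ≤ C) (hb : 8 * C ^ 2 * be ≤ 1)
    (a : A) : ‖nu xi zt gt a‖ ≤ 9 / 8 * be := by
  have h0 := h.be0
  have h1 : ‖nu xi zt gt a‖ ≤ be + be ^ 2 * C := by
    refine (norm_add_le _ _).trans (add_le_add ?_ ?_)
    · rw [Complex.norm_real, Real.norm_eq_abs]
      exact h.bx a
    · rw [norm_mul, Complex.norm_real, Real.norm_eq_abs]
      exact mul_le_mul (h.bz a) hgt (norm_nonneg _) (sq_nonneg _)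
  have h2 : 8 * (C * be) ≤ 1 := by nlinarith [mul_nonneg (mul_nonneg (sub_nonneg.2 hC) (by linarith : (0:ℝ) ≤ C)) h0]
  nlinarith [mul_nonneg h0 (sub_nonneg.2 h2)]

theorem nuG_le (h : Law P xi zt c be) (hC : 1 ≤ C) (hgt : ‖gt‖ ≤ C) (hG : ‖G‖ ≤ C)
    (hb : 8 * C ^ 2 * be ≤ 1) (a : A) : ‖nu xi zt gt a * G‖ ≤ 9 / 64 := by
  have h0 := h.be0
  have h1 := h.nu_le hC hgt hb a
  have h2 : 8 * (C * be) ≤ 1 := by nlinarith [mul_nonneg (mul_nonneg (sub_nonneg.2 hC) (by linarith : (0:ℝ) ≤ C)) h0]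
  rw [norm_mul]
  calc ‖nu xi zt gt a‖ * ‖G‖ ≤ 9 / 8 * be * C :=
        mul_le_mul h1 hG (norm_nonneg _) (by positivity)
    _ ≤ 9 / 64 := by nlinarith

theorem den_ge (h : Law P xi zt c be) (hC : 1 ≤ C) (hgt : ‖gt‖ ≤ C) (hG : ‖G‖ ≤ C)
    (hb : 8 * C ^ 2 * be ≤ 1) (a : A) : 55 / 64 ≤ ‖1 + nu xi zt gt a * G‖ := by
  have h1 := h.nuG_le hC hgt hG hb a
  have h2 : ‖(1 : ℂ)‖ - ‖nu xi zt gt a * G‖ ≤ ‖1 + nu xi zt gt a * G‖ := by
    have := norm_sub_le (1 + nu xi zt gt a * G) (nu xi zt gt a * G)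
    rw [add_sub_cancel_right] at this
    linarith
  rw [norm_one] at h2
  linarith

theorem u_le (h : Law P xi zt c be) (hC : 1 ≤ C) (hgt : ‖gt‖ ≤ C) (hG : ‖G‖ ≤ C)
    (hb : 8 * C ^ 2 * be ≤ 1) (a : A) : ‖uu xi zt gt G a‖ ≤ 2 * be := by
  have h0 := h.be0
  have h1 := h.nu_le hC hgt hb a
  have h2 := h.den_ge hC hgt hG hb a
  unfold uu
  rw [norm_div, div_le_iff₀ (by linarith)]
  nlinarith

/-- `∑ P ν = c gt` -/
theorem nu_mean (h : Law P xi zt c be) : ∑ a, (P a : ℂ) * nu xi zt gt a = (c : ℂ) * gt := by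
  have h1 : ∑ a, (P a : ℂ) * nu xi zt gt a =
      ((∑ a, P a * xi a : ℝ) : ℂ) + ((∑ a, P a * zt a : ℝ) : ℂ) * gt := by
    push_cast
    rw [Finset.sum_mul, ← Finset.sum_add_distrib]
    refine Finset.sum_congr rfl fun a _ => ?_
    unfold nu
    ring
  rw [h1, h.m1, h.mz]
  simp

/-- `∑ P ν² = c + O(β³)` -/
theorem nu_sq (h : Law P xi zt c be) (hC : 1 ≤ C) (hgt : ‖gt‖ ≤ C) (hb : 8 * C ^ 2 * be ≤ 1) :
    ‖∑ a, (P a : ℂ) * nu xi zt gt a ^ 2 - (c : ℂ)‖ ≤ 3 * C ^ 2 * be ^ 3 := by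
  have h0 := h.be0
  have hbe : be ≤ 1 := by nlinarith [sq_nonneg (C - 1), mul_nonneg (by nlinarith : 0 ≤ C ^ 2 - 1) h0]
  have h1 : ∑ a, (P a : ℂ) * nu xi zt gt a ^ 2 - (c : ℂ) =
      ∑ a, (P a : ℂ) * (2 * (xi a : ℂ) * (zt a : ℂ) * gt + (zt a : ℂ) ^ 2 * gt ^ 2) := by
    have h2 : (c : ℂ) = ∑ a, (P a : ℂ) * (xi a : ℂ) ^ 2 := by
      rw [← h.m2]
      push_cast
      rfl
    rw [h2, ← Finset.sum_sub_distrib]
    refine Finset.sum_congr rfl fun a _ => ?_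
    unfold nu
    ring
  rw [h1]
  refine h.cmean_le fun a => ?_
  have hx := h.bx a
  have hz := h.bz a
  have e1 : ‖2 * (xi a : ℂ) * (zt a : ℂ) * gt‖ ≤ 2 * be * be ^ 2 * C := by
    rw [norm_mul, norm_mul, norm_mul, Complex.norm_real, Complex.norm_real, Real.norm_eq_abs,
      Real.norm_eq_abs, Complex.norm_ofNat]
    exact mul_le_mul (mul_le_mul (mul_le_mul_of_nonneg_left hx (by norm_num)) hz (abs_nonneg _)
      (by positivity)) hgt (norm_nonneg _) (by positivity)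
  have e2 : ‖(zt a : ℂ) ^ 2 * gt ^ 2‖ ≤ (be ^ 2) ^ 2 * C ^ 2 := by
    rw [norm_mul, norm_pow, norm_pow, Complex.norm_real, Real.norm_eq_abs]
    exact mul_le_mul (pow_le_pow_left₀ (abs_nonneg _) hz 2)
      (pow_le_pow_left₀ (norm_nonneg _) hgt 2) (by positivity) (by positivity)
  refine (norm_add_le _ _).trans ((add_le_add e1 e2).trans ?_)
  have hb3 : 0 ≤ be ^ 3 := by positivity
  have hb4 : be ^ 4 ≤ be ^ 3 := by
    calc be ^ 4 = be ^ 3 * be := by ring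
      _ ≤ be ^ 3 * 1 := mul_le_mul_of_nonneg_left hbe hb3
      _ = be ^ 3 := mul_one _
  have hCC : C ≤ C ^ 2 := by nlinarith
  nlinarith [mul_nonneg hb3 (sub_nonneg.2 hCC), mul_nonneg (sq_nonneg C) (sub_nonneg.2 hb4)]

/-- `∑ P |ν|² = c + O(β³)` -/
theorem nu_nsq (h : Law P xi zt c be) (hC : 1 ≤ C) (hgt : ‖gt‖ ≤ C) (hb : 8 * C ^ 2 * be ≤ 1) :
    |∑ a, P a * ‖nu xi zt gt a‖ ^ 2 - c| ≤ 3 * C ^ 2 * be ^ 3 := by
  have h0 := h.be0
  have hbe : be ≤ 1 := by nlinarith [sq_nonneg (C - 1), mul_nonneg (by nlinarith : 0 ≤ C ^ 2 - 1) h0]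
  have h1 : ∑ a, P a * ‖nu xi zt gt a‖ ^ 2 - c =
      ∑ a, P a * (2 * xi a * zt a * gt.re + zt a ^ 2 * ‖gt‖ ^ 2) := by
    rw [← h.m2, ← Finset.sum_sub_distrib]
    refine Finset.sum_congr rfl fun a _ => ?_
    unfold nu
    rw [← Complex.normSq_eq_norm_sq, ← Complex.normSq_eq_norm_sq, Complex.normSq_apply,
      Complex.normSq_apply]
    simp
    ring
  rw [h1]
  refine h.mean_le fun a => ?_
  have hx := h.bx a
  have hz := h.bz a
  have hre : |gt.re| ≤ C := (Complex.abs_re_le_norm gt).trans hgt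
  have e1 : |2 * xi a * zt a * gt.re| ≤ 2 * be * be ^ 2 * C := by
    rw [abs_mul, abs_mul, abs_mul, abs_two]
    exact mul_le_mul (mul_le_mul (mul_le_mul_of_nonneg_left hx (by norm_num)) hz (abs_nonneg _)
      (by positivity)) hre (abs_nonneg _) (by positivity)
  have e2 : |zt a ^ 2 * ‖gt‖ ^ 2| ≤ (be ^ 2) ^ 2 * C ^ 2 := by
    rw [abs_mul, abs_pow, abs_pow, abs_norm]
    exact mul_le_mul (pow_le_pow_left₀ (abs_nonneg _) hz 2)
      (pow_le_pow_left₀ (norm_nonneg _) hgt 2) (by positivity) (by positivity)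
  refine (abs_add_le _ _).trans ((add_le_add e1 e2).trans ?_)
  have hb3 : 0 ≤ be ^ 3 := by positivity
  have hb4 : be ^ 4 ≤ be ^ 3 := by
    calc be ^ 4 = be ^ 3 * be := by ring
      _ ≤ be ^ 3 * 1 := mul_le_mul_of_nonneg_left hbe hb3
      _ = be ^ 3 := mul_one _
  have hCC : C ≤ C ^ 2 := by nlinarith
  nlinarith [mul_nonneg hb3 (sub_nonneg.2 hCC), mul_nonneg (sq_nonneg C) (sub_nonneg.2 hb4)]

private lemma nu3 (h : Law P xi zt c be) (hC : 1 ≤ C) (hgt : ‖gt‖ ≤ C) (hb : 8 * C ^ 2 * be ≤ 1)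
    (a : A) : ‖nu xi zt gt a‖ ^ 3 ≤ (9 / 8) ^ 3 * be ^ 3 := by
  have h1 := h.nu_le hC hgt hb a
  calc ‖nu xi zt gt a‖ ^ 3 ≤ (9 / 8 * be) ^ 3 := pow_le_pow_left₀ (norm_nonneg _) h1 3
    _ = _ := by ring

/-- `∑ P u = - c (G - gt) + O(β³)` -/
theorem u_mean (h : Law P xi zt c be) (hC : 1 ≤ C) (hgt : ‖gt‖ ≤ C) (hG : ‖G‖ ≤ C)
    (hb : 8 * C ^ 2 * be ≤ 1) :
    ‖∑ a, (P a : ℂ) * uu xi zt gt G a + (c : ℂ) * (G - gt)‖ ≤ 5 * C ^ 3 * be ^ 3 := by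
  have h0 := h.be0
  have hb3 : 0 ≤ be ^ 3 := by positivity
  have key : ∀ a, uu xi zt gt G a = nu xi zt gt a - G * nu xi zt gt a ^ 2 +
      nu xi zt gt a ^ 3 * G ^ 2 / (1 + nu xi zt gt a * G) := by
    intro a
    have h2 := h.den_ge hC hgt hG hb a
    have h3 : 1 + nu xi zt gt a * G ≠ 0 := by
      intro h4
      rw [h4, norm_zero] at h2
      linarith
    unfold uu
    field_simp
    ring
  have h1 : ∑ a, (P a : ℂ) * uu xi zt gt G a + (c : ℂ) * (G - gt) =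
      -(G * (∑ a, (P a : ℂ) * nu xi zt gt a ^ 2 - (c : ℂ))) +
      ∑ a, (P a : ℂ) * (nu xi zt gt a ^ 3 * G ^ 2 / (1 + nu xi zt gt a * G)) := by
    have h2 : ∑ a, (P a : ℂ) * uu xi zt gt G a = ∑ a, (P a : ℂ) * nu xi zt gt a -
        G * ∑ a, (P a : ℂ) * nu xi zt gt a ^ 2 +
        ∑ a, (P a : ℂ) * (nu xi zt gt a ^ 3 * G ^ 2 / (1 + nu xi zt gt a * G)) := by
      rw [Finset.mul_sum, ← Finset.sum_sub_distrib, ← Finset.sum_add_distrib]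
      refine Finset.sum_congr rfl fun a _ => ?_
      rw [key a]
      ring
    rw [h2, h.nu_mean]
    ring
  rw [h1]
  have e1 : ‖-(G * (∑ a, (P a : ℂ) * nu xi zt gt a ^ 2 - (c : ℂ)))‖ ≤
      C * (3 * C ^ 2 * be ^ 3) := by
    rw [norm_neg, norm_mul]
    exact mul_le_mul hG (h.nu_sq hC hgt hb) (norm_nonneg _) (by linarith)
  have e2 : ‖∑ a, (P a : ℂ) * (nu xi zt gt a ^ 3 * G ^ 2 / (1 + nu xi zt gt a * G))‖ ≤
      2 * C ^ 2 * be ^ 3 := by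
    refine h.cmean_le fun a => ?_
    have h2 := h.den_ge hC hgt hG hb a
    rw [norm_div, norm_mul, norm_pow, norm_pow, div_le_iff₀ (by linarith)]
    have h3 := h.nu3 hC hgt hb a
    have h4 : ‖G‖ ^ 2 ≤ C ^ 2 := pow_le_pow_left₀ (norm_nonneg _) hG 2
    calc ‖nu xi zt gt a‖ ^ 3 * ‖G‖ ^ 2 ≤ ((9 / 8) ^ 3 * be ^ 3) * C ^ 2 :=
          mul_le_mul h3 h4 (by positivity) (by positivity)
      _ ≤ 2 * C ^ 2 * be ^ 3 * (55 / 64) := by
          have : 0 ≤ C ^ 2 * be ^ 3 := by positivity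
          nlinarith
      _ ≤ _ := mul_le_mul_of_nonneg_left h2 (by positivity)
  refine (norm_add_le _ _).trans ((add_le_add e1 e2).trans ?_)
  have hCC : C ^ 2 ≤ C ^ 3 := by nlinarith [sq_nonneg C]
  nlinarith [mul_nonneg hb3 (sub_nonneg.2 hCC)]

private lemma usq_sub (h : Law P xi zt c be) (hC : 1 ≤ C) (hgt : ‖gt‖ ≤ C) (hG : ‖G‖ ≤ C)
    (hb : 8 * C ^ 2 * be ≤ 1) (a : A) :
    ‖uu xi zt gt G a ^ 2 - nu xi zt gt a ^ 2‖ ≤ 5 * C * be ^ 3 := by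
  have h0 := h.be0
  have h2 := h.den_ge hC hgt hG hb a
  have h3 : 1 + nu xi zt gt a * G ≠ 0 := by
    intro h4
    rw [h4, norm_zero] at h2
    linarith
  have h4 : uu xi zt gt G a ^ 2 - nu xi zt gt a ^ 2 =
      -(nu xi zt gt a ^ 3 * G * (2 + nu xi zt gt a * G)) / (1 + nu xi zt gt a * G) ^ 2 := by
    unfold uu
    field_simp
    ring
  rw [h4, norm_div, norm_neg, norm_mul, norm_mul, norm_pow, norm_pow,
    div_le_iff₀ (by positivity)]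
  have h5 := h.nu3 hC hgt hb a
  have h6 := h.nuG_le hC hgt hG hb a
  have h7 : ‖2 + nu xi zt gt a * G‖ ≤ 137 / 64 := by
    refine (norm_add_le _ _).trans ?_
    rw [Complex.norm_ofNat]
    linarith
  have h8 : (55 / 64 : ℝ) ^ 2 ≤ ‖1 + nu xi zt gt a * G‖ ^ 2 := pow_le_pow_left₀ (by norm_num) h2 2
  calc ‖nu xi zt gt a‖ ^ 3 * ‖G‖ * ‖2 + nu xi zt gt a * G‖ ≤
        ((9 / 8) ^ 3 * be ^ 3) * C * (137 / 64) :=
        mul_le_mul (mul_le_mul h5 hG (norm_nonneg _) (by positivity)) h7 (norm_nonneg _)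
          (by positivity)
    _ ≤ 5 * C * be ^ 3 * (55 / 64) ^ 2 := by
        have : 0 ≤ C * be ^ 3 := by positivity
        nlinarith
    _ ≤ _ := mul_le_mul_of_nonneg_left h8 (by positivity)

/-- `∑ P u² = c + O(β³)` -/
theorem u_sq (h : Law P xi zt c be) (hC : 1 ≤ C) (hgt : ‖gt‖ ≤ C) (hG : ‖G‖ ≤ C)
    (hb : 8 * C ^ 2 * be ≤ 1) :
    ‖∑ a, (P a : ℂ) * uu xi zt gt G a ^ 2 - (c : ℂ)‖ ≤ 8 * C ^ 2 * be ^ 3 := by
  have h0 := h.be0
  have hb3 : 0 ≤ be ^ 3 := by positivity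
  have h1 : ∑ a, (P a : ℂ) * uu xi zt gt G a ^ 2 - (c : ℂ) =
      (∑ a, (P a : ℂ) * nu xi zt gt a ^ 2 - (c : ℂ)) +
      ∑ a, (P a : ℂ) * (uu xi zt gt G a ^ 2 - nu xi zt gt a ^ 2) := by
    simp only [mul_sub, Finset.sum_sub_distrib]
    ring
  rw [h1]
  refine (norm_add_le _ _).trans ((add_le_add (h.nu_sq hC hgt hb)
    (h.cmean_le (h.usq_sub hC hgt hG hb))).trans ?_)
  have hCC : C ≤ C ^ 2 := by nlinarith
  nlinarith [mul_nonneg hb3 (sub_nonneg.2 hCC)]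

/-- `∑ P |u|² = c + O(β³)` -/
theorem u_nsq (h : Law P xi zt c be) (hC : 1 ≤ C) (hgt : ‖gt‖ ≤ C) (hG : ‖G‖ ≤ C)
    (hb : 8 * C ^ 2 * be ≤ 1) :
    |∑ a, P a * ‖uu xi zt gt G a‖ ^ 2 - c| ≤ 8 * C ^ 2 * be ^ 3 := by
  have h0 := h.be0
  have hb3 : 0 ≤ be ^ 3 := by positivity
  have h1 : ∑ a, P a * ‖uu xi zt gt G a‖ ^ 2 - c =
      (∑ a, P a * ‖nu xi zt gt a‖ ^ 2 - c) +
      ∑ a, P a * (‖uu xi zt gt G a‖ ^ 2 - ‖nu xi zt gt a‖ ^ 2) := by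
    simp only [mul_sub, Finset.sum_sub_distrib]
    ring
  have h2 : ∀ a, |‖uu xi zt gt G a‖ ^ 2 - ‖nu xi zt gt a‖ ^ 2| ≤ 5 * C * be ^ 3 := by
    intro a
    rw [← norm_pow, ← norm_pow]
    exact (abs_norm_sub_norm_le _ _).trans (h.usq_sub hC hgt hG hb a)
  rw [h1]
  refine (abs_add_le _ _).trans ((add_le_add (h.nu_nsq hC hgt hb) (h.mean_le h2)).trans ?_)
  have hCC : C ≤ C ^ 2 := by nlinarith
  nlinarith [mul_nonneg hb3 (sub_nonneg.2 hCC)]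

end Law

end Pool.Agent.ANS
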