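import Pool.Agent.ANS.St
import Pool.Agent.ANS.Law

/-! # ANS DIG: one digit of the step, the rank one calculus at any configuration

Everything at one configuration `s` (`w` read or unread).  `s0 = update s w none`.
* `etaLo`, `etaHi`, `adms`: absorption, admissibility at every `s`.
* `bs_up`, `rank1`, `rank1w`: `G(s^{w→d}) = G(s) - u G e_w e_wᵀ G`, `G'_xw = G_xw/(1+ν G_ww)`.
* `nu_le`, `u_le`, `den_ge`: sizes.
* `cmp_w`, `cmp_xy`: comparison of entries.
* `law`: the law of the digit as `ANS.Law`; `ubar`: the mean of `u` from the unread configuration.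
* `drG`, `drS`, `drR`: the mean increments of `G_xy`, `|G_xy|²`, `G_xy²`.
* `row_eta`, `row_be`, `row_cs`, `contr`: Ward sums and the contraction. -/

set_option autoImplicit false

open Finset Function Matrix

noncomputable section

namespace Pool.Agent.ANS

open Pool.Agent.Kin Pool.Agent.APS Pool.Agent.ANL

variable {T D : Type} [Fintype T] [DecidableEq T] [Fintype D]

namespace Stp

variable {P : Stp T D} {X N : Finset T} {c be e : T → ℝ} {C Lm : ℝ}

namespace Ok

variable (h : P.Ok X N c be e C Lm)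
include h

theorem C0 : 0 ≤ C := by linarith [h.C1]

theorem be0 (w : T) : 0 ≤ be w := h.dig.be0 w

theorem Cbe (w : T) : 100 * (C * be w) ≤ 1 := by
  have h1 := h.bes w
  have h2 := h.C1
  have h3 : 0 ≤ be w := h.be0 w
  have h4 : C * be w ≤ C ^ 2 * be w := by
    have : C ≤ C ^ 2 := by nlinarith
    exact mul_le_mul_of_nonneg_right this h3
  linarith

theorem be_le (w : T) : 100 * be w ≤ 1 := by
  have h1 := h.Cbe w
  have h2 := h.C1
  have h3 : 0 ≤ be w := h.be0 w
  nlinarith

/-- the law of the digit of `w` -/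
theorem law (w : T) : Law (P.g.P w) (P.g.xi w) (P.g.zt w) (c w) (be w) where
  P0 := h.dig.P0 w
  P1 := h.dig.P1 w
  m1 := h.dig.mean w
  m2 := h.dig.var w
  mz := h.dig.zt1 w
  be0 := h.dig.be0 w
  bx := h.dig.xi_le w
  bz := h.dig.zt_le w

theorem c0 (w : T) : 0 ≤ c w := (h.law w).c0

theorem c_le (w : T) : c w ≤ be w ^ 2 := (h.law w).c_le

theorem inc_off {w : T} (hw : w ∉ N) (d : Option D) : P.inc w d = 0 := by
  cases d with
  | none => rfl
  | some d =>
    have h1 := h.beN w hw
    have h2 := h.dig.xi_le w d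
    have h3 := h.dig.zt_le w d
    rw [h1] at h2 h3
    have h4 : P.g.xi w d = 0 := abs_nonpos_iff.1 h2
    have h5 : P.g.zt w d = 0 := abs_nonpos_iff.1 (h3.trans (by norm_num))
    simp [inc, h4, h5]

theorem gt_le {w : T} (hw : w ∈ X) : ‖P.gt w‖ ≤ C := by
  have h1 := h.dia w hw
  have h2 : P.G nil w w = P.gt w := by
    have h3 : P.bs nil = P.b := by
      funext x
      simp [bs, nil, inc]
    unfold G gt
    rw [h3]
  rwa [h2] at h1

theorem etaLo (s : T → Option D) (x : T) : P.eta nil x / 8 ≤ P.eta s x := by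
  have h0 : P.eta nil x = -(P.b x).im := by simp [eta, bs, nil, inc]
  have h1 : 0 ≤ P.eta nil x := by
    rw [h0]
    linarith [h.adm.im x]
  cases hs : s x with
  | none =>
    have h2 : P.eta s x = P.eta nil x := by simp [eta, bs, hs, nil, inc]
    rw [h2]
    linarith
  | some d =>
    have h2 : P.eta s x = P.eta nil x - P.g.zt x d * (P.gt x).im := by
      rw [h0]
      simp [eta, bs, hs, inc]
      ring
    have h3 := h.et8 x d
    linarith

theorem eta0 (s : T → Option D) (x : T) : 0 ≤ P.eta s x := by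
  have h0 : P.eta nil x = -(P.b x).im := by simp [eta, bs, nil, inc]
  have h1 : 0 ≤ P.eta nil x := by
    rw [h0]
    linarith [h.adm.im x]
  linarith [h.etaLo s x]

theorem etaHi (s : T → Option D) (x : T) : P.eta s x ≤ (1 + C ^ 2) * P.eta nil x := by
  have h1 : 0 ≤ P.eta nil x := h.eta0 nil x
  have h0 : P.eta nil x = -(P.b x).im := by simp [eta, bs, nil, inc]
  by_cases hx : x ∈ X
  · cases hs : s x with
    | none =>
      have h2 : P.eta s x = P.eta nil x := by simp [eta, bs, hs, nil, inc]
      rw [h2]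
      nlinarith [mul_nonneg (sq_nonneg C) h1]
    | some d =>
      have h2 : P.eta s x = P.eta nil x - P.g.zt x d * (P.gt x).im := by
        rw [h0]
        simp [eta, bs, hs, inc]
        ring
      have h3 : |P.g.zt x d * (P.gt x).im| ≤ be x ^ 2 * C := by
        rw [abs_mul]
        exact mul_le_mul (h.dig.zt_le x d) ((Complex.abs_im_le_norm _).trans (h.gt_le hx))
          (abs_nonneg _) (sq_nonneg _)
      have h4 := (abs_le.1 h3).1
      have h5 := mul_le_mul_of_nonneg_right (h.bee x) h.C0
      rw [h2]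
      nlinarith
  · have hN : x ∉ N := fun h2 => hx (h.NX h2)
    have h2 : P.eta s x = P.eta nil x := by
      simp [eta, bs, h.inc_off hN]
    rw [h2]
    nlinarith [mul_nonneg (sq_nonneg C) h1]

theorem etaU' (s : T → Option D) {x : T} (hx : x ∉ X) : P.eta s x = 0 := by
  have h1 := h.etaHi s x
  rw [h.etaU x hx, mul_zero] at h1
  exact le_antisymm h1 (h.eta0 s x)

theorem etaX' (s : T → Option D) {x : T} (hx : x ∈ X) : 0 < P.eta s x := by
  have h1 := h.etaLo s x
  have h2 := h.etaX x hx
  linarith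

/-- the medium is admissible at every configuration -/
theorem adms (s : T → Option D) : Adm P.H (P.bs s) where
  sym := h.adm.sym
  im x := by
    have := h.eta0 s x
    unfold eta at this
    linarith
  unit := by
    rw [isUnit_iff_ne_zero]
    intro h0
    obtain ⟨v, hv, hv0⟩ := Matrix.exists_mulVec_eq_zero_iff.2 h0
    apply hv
    have h1 := form_im h.adm.sym (P.bs s) v
    rw [hv0] at h1
    simp only [Pi.zero_apply, mul_zero, Finset.sum_const_zero, Complex.zero_im] at h1
    have h2 : ∀ x, ‖v x‖ ^ 2 * (P.bs s x).im ≤ 0 := fun x =>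
      mul_nonpos_of_nonneg_of_nonpos (by positivity) (by
        have := h.eta0 s x
        unfold eta at this
        linarith)
    have h3 := (Finset.sum_eq_zero_iff_of_nonpos (fun x _ => h2 x)).1 h1.symm
    have h4 : ∀ x ∈ X, v x = 0 := by
      intro x hx
      have h5 := h3 x (Finset.mem_univ x)
      rcases mul_eq_zero.1 h5 with h6 | h6
      · exact norm_eq_zero.1 (pow_eq_zero_iff (by norm_num) |>.1 h6)
      · have h7 := h.etaX' s hx
        unfold eta at h7
        linarith
    have h5 : (P.H + diagonal P.b) *ᵥ v = (P.H + diagonal (P.bs s)) *ᵥ v := by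
      funext x
      rw [Matrix.add_mulVec, Matrix.add_mulVec, Pi.add_apply, Pi.add_apply,
        Matrix.mulVec_diagonal, Matrix.mulVec_diagonal]
      by_cases hx : x ∈ X
      · rw [h4 x hx]
        simp
      · have hN : x ∉ N := fun h2 => hx (h.NX h2)
        simp [bs, h.inc_off hN]
    have h6 : (P.H + diagonal P.b) *ᵥ v = 0 := by
      rw [h5, hv0]
    have h7 := res_src h.adm v
    rw [h6] at h7
    rw [← h7]
    simp

theorem symm (s : T → Option D) (x y : T) : P.G s x y = P.G s y x := adm_symm (h.adms s) x y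

omit h [Fintype D] in
theorem bs_up (P : Stp T D) (s : T → Option D) (w : T) (d : Option D) (x : T) :
    P.bs (update s w d) x - P.bs s x = if x = w then P.nu s w d else 0 := by
  by_cases hx : x = w
  · subst hx
    simp [bs, nu]
  · simp [bs, hx]

/-- resolvent identity -/
theorem resid (s : T → Option D) (w : T) (d : Option D) (x y : T) :
    P.G s x y - P.G (update s w d) x y = P.G s x w * P.nu s w d * P.G (update s w d) w y := by
  have h1 := adm_sub (h.adms s) (h.adms (update s w d)) x y
  unfold G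
  rw [h1, Finset.sum_eq_single w]
  · rw [bs_up, if_pos rfl]
  · intro z _ hz
    rw [bs_up, if_neg hz]
    ring
  · intro hw
    exact absurd (Finset.mem_univ w) hw

theorem den_ne (s : T → Option D) (w : T) (d : Option D) : 1 + P.nu s w d * P.G s w w ≠ 0 := by
  intro h0
  have h1 := h.resid s w d w w
  -- if `1 + ν G_ww = 0` then `G_ww = 0` or the row vanishes
  have h2 : ∀ y, P.G s w y = 0 := by
    intro y
    have h3 := h.resid s w d w y
    have h4 : P.G s w y = (1 + P.nu s w d * P.G s w w) * P.G (update s w d) w y := by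
      linear_combination h3
    rw [h4, h0, zero_mul]
  rw [h2 w, mul_zero, add_zero] at h0
  exact one_ne_zero h0

/-- the rank one formula for the column `w` -/
theorem rank1w (s : T → Option D) (w : T) (d : Option D) (y : T) :
    P.G (update s w d) w y = P.G s w y / (1 + P.nu s w d * P.G s w w) := by
  rw [eq_div_iff (h.den_ne s w d)]
  have h3 := h.resid s w d w y
  linear_combination (-1 : ℂ) * h3

theorem rank1w' (s : T → Option D) (w : T) (d : Option D) (x : T) :
    P.G (update s w d) x w = P.G s x w / (1 + P.nu s w d * P.G s w w) := by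
  rw [h.symm _ x w, h.rank1w, h.symm s x w]

/-- the rank one formula -/
theorem rank1 (s : T → Option D) (w : T) (d : Option D) (x y : T) :
    P.G (update s w d) x y = P.G s x y - P.u s w d * (P.G s x w * P.G s w y) := by
  have h1 := h.resid s w d x y
  rw [h.rank1w] at h1
  have h2 := h.den_ne s w d
  unfold u
  field_simp at h1 ⊢
  linear_combination (-1 : ℂ) * h1

/-! ### sizes -/

theorem inc_le (w : T) (d : Option D) : ‖P.inc w d‖ ≤ 9 / 8 * be w := by
  by_cases hN : w ∈ N
  · cases d with
    | none =>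
      simp only [inc, norm_zero]
      have := h.be0 w
      positivity
    | some d =>
      have h1 := h.bes w
      exact (h.law w).nu_le h.C1 (h.gt_le (h.NX hN)) (by nlinarith [mul_nonneg (sq_nonneg C) (h.be0 w)]) d
  · rw [h.inc_off hN, norm_zero]
    have := h.be0 w
    positivity

theorem nu_le (s : T → Option D) (w : T) (d : Option D) : ‖P.nu s w d‖ ≤ 9 / 4 * be w := by
  unfold nu
  refine (norm_sub_le _ _).trans ?_
  have h1 := h.inc_le w d
  have h2 := h.inc_le w (s w)
  linarith

theorem diaC {s : T → Option D} (hs : P.Ent X 1 s) {x : T} (hx : x ∈ X) :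
    ‖P.G s x x‖ ≤ 2 * C := by
  have h1 := hs x hx x hx
  have h2 := h.dia x hx
  have h3 : ‖P.G s x x‖ ≤ ‖P.G s x x - P.G nil x x‖ + ‖P.G nil x x‖ := by
    have := norm_add_le (P.G s x x - P.G nil x x) (P.G nil x x)
    rwa [sub_add_cancel] at this
  have := h.C1
  linarith

theorem entL {s : T → Option D} (hs : P.Ent X 1 s) {x y : T} (hx : x ∈ X) (hy : y ∈ X) :
    ‖P.G s x y‖ ≤ 2 * Lm := by
  have h1 := hs x hx y hy
  have h2 := h.ent x hx y hy
  have h3 : ‖P.G s x y‖ ≤ ‖P.G s x y - P.G nil x y‖ + ‖P.G nil x y‖ := by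
    have := norm_add_le (P.G s x y - P.G nil x y) (P.G nil x y)
    rwa [sub_add_cancel] at this
  have := h.Lm1
  linarith

theorem nuG_le {s : T → Option D} (hs : P.Ent X 1 s) (w : T) (d : Option D) :
    ‖P.nu s w d * P.G s w w‖ ≤ 9 / 2 * (C * be w) := by
  have h0 := h.be0 w
  have hC := h.C0
  by_cases hN : w ∈ N
  · have hX := h.NX hN
    rw [norm_mul]
    calc ‖P.nu s w d‖ * ‖P.G s w w‖ ≤ 9 / 4 * be w * (2 * C) :=
          mul_le_mul (h.nu_le s w d) (h.diaC hs hX) (norm_nonneg _) (by positivity)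
      _ = _ := by ring
  · have h1 : P.nu s w d = 0 := by
      unfold nu
      rw [h.inc_off hN, h.inc_off hN, sub_zero]
    rw [h1, zero_mul, norm_zero]
    positivity

theorem den_ge {s : T → Option D} (hs : P.Ent X 1 s) (w : T) (d : Option D) :
    19 / 20 ≤ ‖1 + P.nu s w d * P.G s w w‖ := by
  have h1 := h.nuG_le hs w d
  have h2 := h.Cbe w
  have h3 : ‖(1 : ℂ)‖ - ‖P.nu s w d * P.G s w w‖ ≤ ‖1 + P.nu s w d * P.G s w w‖ := by
    have := norm_sub_le (1 + P.nu s w d * P.G s w w) (P.nu s w d * P.G s w w)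
    rw [add_sub_cancel_right] at this
    linarith
  rw [norm_one] at h3
  linarith

theorem u_le {s : T → Option D} (hs : P.Ent X 1 s) (w : T) (d : Option D) :
    ‖P.u s w d‖ ≤ 3 * be w := by
  have h0 := h.be0 w
  have h1 := h.nu_le s w d
  have h2 := h.den_ge hs w d
  unfold u
  rw [norm_div, div_le_iff₀ (by linarith)]
  nlinarith

/-! ### comparison of entries at `s` and at `s^{w→d}` -/

/-- the column `w` changes by a factor close to `1` -/
theorem cmp_w {s : T → Option D} (hs : P.Ent X 1 s) (w : T) (d : Option D) (x : T) :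
    ‖P.G (update s w d) x w - P.G s x w‖ ≤ 6 * (C * be w) * ‖P.G s x w‖ := by
  have h0 := h.be0 w
  have hC := h.C0
  have h1 : P.G (update s w d) x w - P.G s x w = -(P.u s w d * P.G s w w) * P.G s x w := by
    rw [h.rank1]
    ring
  by_cases hN : w ∈ N
  · have hX := h.NX hN
    rw [h1, norm_mul, norm_neg, norm_mul]
    refine mul_le_mul_of_nonneg_right ?_ (norm_nonneg _)
    calc ‖P.u s w d‖ * ‖P.G s w w‖ ≤ 3 * be w * (2 * C) :=
          mul_le_mul (h.u_le hs w d) (h.diaC hs hX) (norm_nonneg _) (by positivity)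
      _ = _ := by ring
  · have h2 : P.u s w d = 0 := by
      unfold u nu
      rw [h.inc_off hN, h.inc_off hN, sub_zero, zero_div]
    rw [h1, h2, zero_mul, neg_zero, zero_mul, norm_zero]
    positivity

theorem cmp_w1 {s : T → Option D} (hs : P.Ent X 1 s) (w : T) (d : Option D) (x : T) :
    ‖P.G (update s w d) x w‖ ≤ (1 + 6 * (C * be w)) * ‖P.G s x w‖ := by
  have h1 := h.cmp_w hs w d x
  have h2 : ‖P.G (update s w d) x w‖ ≤
      ‖P.G (update s w d) x w - P.G s x w‖ + ‖P.G s x w‖ := by
    have := norm_add_le (P.G (update s w d) x w - P.G s x w) (P.G s x w)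
    rwa [sub_add_cancel] at this
  linarith

theorem cmp_w2 {s : T → Option D} (hs : P.Ent X 1 s) (w : T) (d : Option D) (x : T) :
    ‖P.G (update s w d) x w‖ ≤ 53 / 50 * ‖P.G s x w‖ := by
  have h1 := h.cmp_w1 hs w d x
  have h2 := h.Cbe w
  nlinarith [norm_nonneg (P.G s x w)]

theorem cmp_xy {s : T → Option D} (hs : P.Ent X 1 s) (w : T) (d : Option D) (x y : T) :
    ‖P.G (update s w d) x y - P.G s x y‖ ≤ 3 * be w * (‖P.G s x w‖ * ‖P.G s w y‖) := by
  have h1 : P.G (update s w d) x y - P.G s x y = -(P.u s w d * (P.G s x w * P.G s w y)) := by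
    rw [h.rank1]
    ring
  rw [h1, norm_neg, norm_mul, norm_mul]
  exact mul_le_mul_of_nonneg_right (h.u_le hs w d) (by positivity)

/-- `S_xw` at `s^{w→d}` -/
theorem cmp_S {s : T → Option D} (hs : P.Ent X 1 s) (w : T) (d : Option D) (x : T) :
    |P.S (update s w d) x w - P.S s x w| ≤ 13 * (C * be w) * P.S s x w := by
  unfold S
  have h1 := h.cmp_w hs w d x
  have h2 := h.cmp_w1 hs w d x
  have h0 : 0 ≤ C * be w := mul_nonneg h.C0 (h.be0 w)
  have h5 := h.Cbe w
  have h3 : |‖P.G (update s w d) x w‖ - ‖P.G s x w‖| ≤ 6 * (C * be w) * ‖P.G s x w‖ :=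
    (abs_norm_sub_norm_le _ _).trans h1
  have h4 : ‖P.G (update s w d) x w‖ ^ 2 - ‖P.G s x w‖ ^ 2 =
      (‖P.G (update s w d) x w‖ - ‖P.G s x w‖) *
      (‖P.G (update s w d) x w‖ + ‖P.G s x w‖) := by ring
  rw [h4, abs_mul]
  have h6 : |‖P.G (update s w d) x w‖ + ‖P.G s x w‖| ≤
      (2 + 6 * (C * be w)) * ‖P.G s x w‖ := by
    rw [abs_of_nonneg (by positivity)]
    linarith
  have hn := norm_nonneg (P.G s x w)
  calc |‖P.G (update s w d) x w‖ - ‖P.G s x w‖| *
        |‖P.G (update s w d) x w‖ + ‖P.G s x w‖| ≤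
        (6 * (C * be w) * ‖P.G s x w‖) * ((2 + 6 * (C * be w)) * ‖P.G s x w‖) :=
        mul_le_mul h3 h6 (abs_nonneg _) (by positivity)
    _ = (C * be w) * (12 + 36 * (C * be w)) * ‖P.G s x w‖ ^ 2 := by ring
    _ ≤ 13 * (C * be w) * ‖P.G s x w‖ ^ 2 := by
        refine mul_le_mul_of_nonneg_right ?_ (sq_nonneg _)
        nlinarith

end Ok

end Stp

end Pool.Agent.ANS
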