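import Pool.Agent.ANS.Eng
import Pool.Agent.ANL.Base

/-! # ANS ST: data of one step (lattice free), frozen self energies

`T` = all sites (holes included), `D` = values of one digit.  At the start the medium is
`G = rsc H b`, `b_x = h_x - E - i η_* - κ_x γ_x` (self-consistent or not: nothing is used).  Reading the
digit `d` at the site `w` with frozen counterterm changes `b_w` into `b_w + ξ + ζ γ⁰_w`,
`γ⁰_w = G_ww` at the start (`h → h + ξ`, `κ → κ - ζ`).  Sites which are not read in this step have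
`ξ = ζ = 0`, so that every sum over `w` may run over all of `T`.

A configuration is `s : T → Option D` (`none` = unread).  `nil` = start, `full ω` = end.
-/

set_option autoImplicit false

open Finset Function Matrix

noncomputable section

namespace Pool.Agent.ANS

open Pool.Agent.Kin Pool.Agent.APS Pool.Agent.ANL

variable {T D : Type}

/-- digits: laws, increments of the potential, decrements of the variance -/
structure Dig (T D : Type) where
  P : T → D → ℝ
  xi : T → D → ℝ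
  zt : T → D → ℝ

/-- `c w = E ξ² = E ζ`, `|ξ| ≤ be w`, `|ζ| ≤ be w ²` -/
structure Dig.Ok [Fintype D] (g : Dig T D) (c be : T → ℝ) : Prop where
  P0 : ∀ w d, 0 ≤ g.P w d
  P1 : ∀ w, ∑ d, g.P w d = 1
  mean : ∀ w, ∑ d, g.P w d * g.xi w d = 0
  var : ∀ w, ∑ d, g.P w d * g.xi w d ^ 2 = c w
  zt1 : ∀ w, ∑ d, g.P w d * g.zt w d = c w
  be0 : ∀ w, 0 ≤ be w
  xi_le : ∀ w d, |g.xi w d| ≤ be w
  zt_le : ∀ w d, |g.zt w d| ≤ be w ^ 2

/-- data of one step -/
structure Stp (T D : Type) where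
  H : Matrix T T ℂ
  b : T → ℂ
  g : Dig T D

variable [Fintype T] [DecidableEq T]

namespace Stp

variable (P : Stp T D)

/-- frozen self energy -/
def gt (w : T) : ℂ := rsc P.H P.b w w

/-- change of `b w` -/
def inc (w : T) : Option D → ℂ
  | none => 0
  | some d => (P.g.xi w d : ℂ) + (P.g.zt w d : ℂ) * P.gt w

/-- `b` at the configuration `s` -/
def bs (s : T → Option D) (x : T) : ℂ := P.b x + P.inc x (s x)

/-- Green function at `s` -/
def G (s : T → Option D) : Matrix T T ℂ := rsc P.H (P.bs s)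

/-- absorption at `s` -/
def eta (s : T → Option D) (x : T) : ℝ := -(P.bs s x).im

/-- `|G_xy|²` -/
def S (s : T → Option D) (x y : T) : ℝ := ‖P.G s x y‖ ^ 2

/-- `Im G_xx` -/
def io (s : T → Option D) (x : T) : ℝ := (P.G s x x).im

/-- change of `b w` when the value at `w` is replaced by `d` -/
def nu (s : T → Option D) (w : T) (d : Option D) : ℂ := P.inc w d - P.inc w (s w)

/-- the rank one coefficient: `G(s^{w→d}) = G(s) - u G(s) e_w e_wᵀ G(s)` -/
def u (s : T → Option D) (w : T) (d : Option D) : ℂ :=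
  P.nu s w d / (1 + P.nu s w d * P.G s w w)

/-- `η S η` form: `Q = diag (η ι) - η S η` -/
def Qm (s : T → Option D) : Matrix T T ℝ := fun x y =>
  (if x = y then P.eta s x * P.io s x else 0) - P.eta s x * P.S s x y * P.eta s y

/-- the quadratic form, `= (1/2) ∑ η_x S_xy η_y (v_x - v_y)²` by Ward (holes have `η = 0`) -/
def qf (s : T → Option D) (v : T → ℝ) : ℝ := ∑ x, ∑ y, v x * P.Qm s x y * v y

/-- principal submatrix -/
def QB (B : Finset T) (s : T → Option D) : Matrix ↥B ↥B ℝ := (P.Qm s).submatrix (↑) (↑)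

/-- `1/m'_w - 1/m_w` with `ι` frozen: zero at unread sites, `ζ / (η η')` at read sites -/
def aw (s : T → Option D) (w : T) : ℝ :=
  1 / (P.eta s w * P.io nil w) - 1 / (P.eta nil w * P.io nil w)

/-- inverse of the reference form: the classical (Riccati) flow is `Q⁻¹ → Q⁻¹ + a_w e_w e_wᵀ` -/
def Rf (B : Finset T) (s : T → Option D) : Matrix ↥B ↥B ℝ :=
  (P.QB B nil)⁻¹ + diagonal (fun w : ↥B => P.aw s w)

/-- reference quadratic form -/
def rq (B : Finset T) (s : T → Option D) (v : T → ℝ) : ℝ :=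
  (fun x : ↥B => v x) ⬝ᵥ ((P.Rf B s)⁻¹ *ᵥ (fun x : ↥B => v x))

/-- all entries between sites of `X` are within `a` of their start value -/
def Ent (X : Finset T) (a : ℝ) (s : T → Option D) : Prop :=
  ∀ x ∈ X, ∀ y ∈ X, ‖P.G s x y - P.G nil x y‖ ≤ a

/-- fourth moments: `∑_{y ∈ Y} |G_xy|⁴ ≤ τ_x` for `x ∈ X` -/
def TauLe (X Y : Finset T) (tau : T → ℝ) (s : T → Option D) : Prop :=
  ∀ x ∈ X, ∑ y ∈ Y, ‖P.G s x y‖ ^ 4 ≤ tau x

/-- the form on functions supported in `B` is within `δ` of the reference -/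
def FormLe (B : Finset T) (δ : ℝ) (s : T → Option D) : Prop :=
  ∀ v : T → ℝ, (∀ x, x ∉ B → v x = 0) →
    (1 - δ) * P.rq B s v ≤ P.qf s v ∧ P.qf s v ≤ (1 + δ) * P.rq B s v

/-- STANDING HYPOTHESES of one step.  `X` = non-read sites, `N ⊆ X` the sites to be read, `c, be` as in
`Dig.Ok`, `e` = counting weights (`e = η` at the start for the uniform law), `C ≥ 1` a constant,
`Lm ≥ 1` a crude bound of the off-diagonal entries (it may be a small negative power of `κ`). -/
structure Ok [Fintype D] (X N : Finset T) (c be e : T → ℝ) (C Lm : ℝ) : Prop where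
  C1 : 1 ≤ C
  Lm1 : 1 ≤ Lm
  adm : Adm P.H P.b
  NX : N ⊆ X
  etaU : ∀ x, x ∉ X → P.eta nil x = 0
  etaX : ∀ x ∈ X, 0 < P.eta nil x
  etaC : ∀ x ∈ X, P.eta nil x ≤ C
  dig : P.g.Ok c be
  beN : ∀ w, w ∉ N → be w = 0
  /-- `be² ≤ C η` -/
  bee : ∀ w, be w ^ 2 ≤ C * P.eta nil w
  /-- the absorption keeps at least one eighth of its value -/
  et8 : ∀ w d, P.g.zt w d * (P.gt w).im ≤ 7 / 8 * P.eta nil w
  /-- `be` is small -/
  bes : ∀ w, 100 * C ^ 2 * be w ≤ 1
  io1 : ∀ x ∈ X, 1 ≤ C * P.io nil x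
  dia : ∀ x ∈ X, ‖P.G nil x x‖ ≤ C
  ent : ∀ x ∈ X, ∀ y ∈ X, ‖P.G nil x y‖ ≤ Lm
  e0 : ∀ x ∈ X, 0 < e x
  ebe : ∀ w, be w ^ 2 ≤ C * e w
  /-- row sums with the counting weights (Ward for `e = η`) -/
  row : ∀ s, P.Ent X 1 s → ∀ w ∈ X, ∑ x ∈ X, e x * P.S s x w ≤ C

end Stp

end Pool.Agent.ANS
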