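import Pool.Agent.AND.Good
import Pool.Agent.ANS.St

/-! # ANS TOP DEFS: interfaces of the STEP THEOREM [STEP] (owner helper1)

One step of the sequential algorithm: a good medium `M` (`AND.Good f t M`), a cell with noise set `N ⊆ M.A`,
digits `g` (`be = 0` off `N`), outcome `ω`.

* `Med.stp`: the data `ANS.Stp` of the step; `Med.bf`, `Med.Gf`: diagonal and Green function after the frozen
  reading, `Med.kf` the new levels.
* `Frz`: FROZEN STEP OK = what the engine (Core, helper4) gives at `ω` on the event `Γ ≤ 3/4`.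
* `Nxt`: `M'` is the self-consistent medium after the refreeze (exists by GSC.RF, helper79).
* `Read`: the profiles before/after.
* `TolStep`: what the next tolerances must allow (schedule of helper53).

[STEP] = TopProb (Core: weight of `¬ Frz` ≤ κ^Kp) + TopRf (`Frz → ∃ M', Nxt`) + TopNear, TopFar, TopForm
(`Good`, `Frz`, `Nxt`, `TolStep → Good f t' M'`). -/

open Matrix Finset

noncomputable section

namespace Pool.Agent.AND

open Pool.Agent.Kin Pool.Agent.APS

set_option linter.unusedSectionVars false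

variable {d L : ℕ} [NeZero L] {D : Type} [Fintype D]

/-- the data of the step -/
def Med.stp (M : Med (Tor d L)) (g : ANS.Dig (Tor d L) D) : ANS.Stp (Tor d L) D :=
  ⟨H0T d L, M.b, g⟩

/-- Green function of a medium -/
def Med.G (M : Med (Tor d L)) : Matrix (Tor d L) (Tor d L) ℂ := rsc (H0T d L) M.b

/-- diagonal after the frozen reading -/
def Med.bf (M : Med (Tor d L)) (g : ANS.Dig (Tor d L) D) (ω : Tor d L → D) : Tor d L → ℂ :=
  fun x => M.b x + ((g.xi x (ω x) : ℂ) + (g.zt x (ω x) : ℂ) * M.G x x)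

/-- Green function after the frozen reading -/
def Med.Gf (M : Med (Tor d L)) (g : ANS.Dig (Tor d L) D) (ω : Tor d L → D) :
    Matrix (Tor d L) (Tor d L) ℂ := rsc (H0T d L) (M.bf g ω)

/-- levels after the reading -/
def Med.kf (M : Med (Tor d L)) (g : ANS.Dig (Tor d L) D) (ω : Tor d L → D) (x : Tor d L) : ℝ :=
  M.k x - g.zt x (ω x)

theorem stp_bs (M : Med (Tor d L)) (g : ANS.Dig (Tor d L) D) (ω : Tor d L → D) :
    (M.stp g).bs (ANS.full ω) = M.bf g ω := rfl

theorem stp_G (M : Med (Tor d L)) (g : ANS.Dig (Tor d L) D) (ω : Tor d L → D) :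
    (M.stp g).G (ANS.full ω) = M.Gf g ω := rfl

theorem stp_bs_nil (M : Med (Tor d L)) (g : ANS.Dig (Tor d L) D) :
    (M.stp g).bs ANS.nil = M.b := by
  funext x
  simp [ANS.Stp.bs, ANS.Stp.inc, ANS.nil, Med.stp]

theorem stp_G_nil (M : Med (Tor d L)) (g : ANS.Dig (Tor d L) D) :
    (M.stp g).G ANS.nil = M.G := by
  unfold ANS.Stp.G
  rw [stp_bs_nil]
  rfl

/-- FROZEN STEP OK at the outcome `ω`: `al` entries, `tt` fourth moments over the active sites of
the block `B`, `e3` (H3) for the weights `a', z'` (after the reading, `ι` not updated; uniform law: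
`a' = t.a`, `z' = t.z`), `de` form on functions supported in the block `B`. -/
structure Frz (t : Tol d L) (M : Med (Tor d L)) (g : ANS.Dig (Tor d L) D)
    (a' z' : ℕ → Tor d L → ℝ) (e3 : ℕ → ℝ) (B : Finset (Tor d L)) (al tt de : ℝ)
    (W : Finset (Tor d L)) (ω : Tor d L → D) : Prop where
  ent : ∀ x y, x ∉ M.U → y ∉ M.U → ‖M.Gf g ω x y - M.G x y‖ ≤ al
  tau : ∀ x, x ∉ M.U → ∑ w ∈ (M.A \ W) ∩ B, ‖M.Gf g ω x w‖ ^ 4 ≤
    ∑ w ∈ M.A ∩ B, ‖M.G x w‖ ^ 4 + tt
  h3 : ∀ K ∈ t.Ks, ∀ x, x ∉ M.U →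
    ‖∑ y ∈ M.A, M.Gf g ω x y ^ 2 * (a' K y : ℂ)‖ ≤
      ∑ y ∈ M.nr, ‖M.Gf g ω x y‖ ^ 2 * z' K y + e3 K
  form : (M.stp g).FormLe B de (ANS.full ω)

/-- `M'` is the self-consistent medium after reading `ω` in `M`; `r` = bound of the change of the
diagonal entries relative to the frozen numbers -/
structure Nxt (M M' : Med (Tor d L)) (g : ANS.Dig (Tor d L) D) (ω : Tor d L → D) (r : ℝ) :
    Prop where
  A : M'.A = M.A
  U : M'.U = M.U
  I : M'.I = M.I
  k : ∀ x, M'.k x = M.kf g ω x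
  bU : ∀ x ∈ M.U, M'.b x = M.b x
  b : ∀ x, x ∉ M.U → M'.b x = M.bf g ω x - (M.kf g ω x : ℂ) * (M'.G x x - M.G x x)
  unit : IsUnit (H0T d L + diagonal M'.b).det
  pos : ∀ x, x ∉ M.U → 0 < (M'.G x x).im
  dia : ∀ x, x ∉ M.U → ‖M'.G x x - M.G x x‖ ≤ r

/-- RELABELLING: the sites of `W` (weak outcomes: level `0`, absorption `η_*`) become inert; same `U`, `k`, `b`, `G`.
Part A: `W = ∅`. -/
def Med.rel (M : Med (Tor d L)) (W : Finset (Tor d L)) : Med (Tor d L) :=
  ⟨M.A \ W, M.U, M.I ∪ W, M.k, M.b⟩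

section rel

variable (M : Med (Tor d L)) (W : Finset (Tor d L))

@[simp] theorem rel_A : (M.rel W).A = M.A \ W := rfl
@[simp] theorem rel_U : (M.rel W).U = M.U := rfl
@[simp] theorem rel_I : (M.rel W).I = M.I ∪ W := rfl
@[simp] theorem rel_k : (M.rel W).k = M.k := rfl
@[simp] theorem rel_b : (M.rel W).b = M.b := rfl
@[simp] theorem rel_eta : (M.rel W).eta = M.eta := rfl
@[simp] theorem rel_nr : (M.rel W).nr = M.nr := rfl
@[simp] theorem rel_G : (M.rel W).G = M.G := rfl

@[simp] theorem rel_QF (v : Tor d L → ℝ) :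
    QF (H0T d L) (M.rel W) v = QF (H0T d L) M v := rfl

@[simp] theorem rel_empty : M.rel ∅ = M := by
  cases M
  simp [Med.rel]

end rel

/-- the profile after the reading and its configuration `v'`, in terms of the digits `ω` -/
structure Read {X : Type} (Y : Sys X) (π π' : Prof (Tor d L)) (v v' : Tor d L → X)
    (g : ANS.Dig (Tor d L) D) (ω : Tor d L → D) : Prop where
  act : π'.act = π.act
  rd : π'.rd = π.rd
  ine : π'.ine = π.ine
  cp : ∀ x, cp Y π' v' x = cp Y π v x + (g.xi x (ω x) : ℂ)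
  kp : ∀ x, kp Y π' v' x = kp Y π v x - g.zt x (ω x)

/-- The medium `M'` is the medium of the profile after the reading. -/
theorem Nxt.isMed {X : Type} {Y : Sys X} {π π' : Prof (Tor d L)} {v v' : Tor d L → X}
    {g : ANS.Dig (Tor d L) D} {ω : Tor d L → D} {M M' : Med (Tor d L)} {r : ℝ}
    (hM : IsMed (H0T d L) Y π v M) (hn : Nxt M M' g ω r) (hr : Read Y π π' v v' g ω)
    (hU : ∀ x ∈ M.U, M.k x = 0 ∧ g.xi x (ω x) = 0 ∧ g.zt x (ω x) = 0)
    (hA : ∀ x ∈ M.A, x ∉ M.U) :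
    IsMed (H0T d L) Y π' v' M' := by
  have hk : M.k = AND.kp Y π v := hM.k
  have hkf : ∀ x, M.kf g ω x = AND.kp Y π' v' x := fun x => by
    rw [hr.kp x, ← hk]; rfl
  refine ⟨?_, ?_, ?_, ?_, ?_, hn.unit, ?_⟩
  · rw [hn.A, hM.A, hr.act]
  · rw [hn.U, hM.U, hr.rd]
  · rw [hn.I, hM.I, hr.ine]
  · funext x; rw [hn.k x, hkf x]
  · intro x
    have hb := hM.b x
    rw [← hk] at hb
    by_cases hx : x ∈ M.U
    · rw [hn.bU x hx, hb, hr.cp x, ← hkf x]
      unfold Med.kf
      rw [(hU x hx).1, (hU x hx).2.1, (hU x hx).2.2]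
      simp
    · rw [hn.b x hx, hr.cp x, ← hkf x]
      show M.bf g ω x - (M.kf g ω x : ℂ) * (M'.G x x - M.G x x) = _
      have e1 : rsc (H0T d L) M'.b x x = M'.G x x := rfl
      have e2 : rsc (H0T d L) M.b x x = M.G x x := rfl
      rw [e1]
      rw [e2] at hb
      unfold Med.bf Med.kf
      rw [hb]
      push_cast
      ring
  · intro x hx
    rw [hr.act, ← hM.A] at hx
    exact hn.pos x (hA x hx)

end Pool.Agent.AND
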