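import Pool.Agent.AND.Use
import Pool.Agent.ANS.TopDefs
import Pool.Agent.ANS.Dig

/-! # ANS TOP GOODOK: the standing hypotheses `Stp.Ok` of the jump engine for a good medium (AND project)

`Good f t M`, `t.In f M u`, `Num f t u`, digits `g` of the cell `N ⊆ M.A` with `be² ≤ Cb t.kl` and
`zt ≤ 7/8 k`: then `(M.stp g).Ok M.nr N c be M.eta (stC f Cb) Lm` (`e = η` at the start).  No circularity:
admissibility at every configuration is proved first (`Stp.adm_at`). -/

set_option autoImplicit false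

open Finset Function Matrix

noncomputable section

namespace Pool.Agent.ANS

open Pool.Agent.Kin Pool.Agent.APS Pool.Agent.ANL

namespace Stp

variable {T D : Type} [Fintype T] [DecidableEq T] {P : Stp T D} {X N : Finset T}

theorem eta_nil (P : Stp T D) (x : T) : P.eta nil x = -(P.b x).im := by
  simp [eta, bs, nil, inc]

/-- absorption at every configuration -/
theorem etaLo_at (h0 : ∀ x, 0 ≤ P.eta nil x)
    (h8 : ∀ w d, P.g.zt w d * (P.gt w).im ≤ 7 / 8 * P.eta nil w) (s : T → Option D) (x : T) :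
    P.eta nil x / 8 ≤ P.eta s x := by
  have h1 := h0 x
  cases hs : s x with
  | none =>
    have h2 : P.eta s x = P.eta nil x := by simp [eta, bs, hs, nil, inc]
    rw [h2]
    linarith
  | some d =>
    have h2 : P.eta s x = P.eta nil x - P.g.zt x d * (P.gt x).im := by
      rw [eta_nil]
      simp [eta, bs, hs, inc]
      ring
    have h3 := h8 x d
    linarith

/-- the medium is admissible at every configuration -/
theorem adm_at (hadm : Adm P.H P.b) (hNX : N ⊆ X) (hX : ∀ x ∈ X, 0 < P.eta nil x)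
    (hi : ∀ w, w ∉ N → ∀ d, P.inc w d = 0)
    (h8 : ∀ w d, P.g.zt w d * (P.gt w).im ≤ 7 / 8 * P.eta nil w) (s : T → Option D) :
    Adm P.H (P.bs s) := by
  have h0 : ∀ x, 0 ≤ P.eta nil x := fun x => by
    rw [eta_nil]
    linarith [hadm.im x]
  have hlo := etaLo_at h0 h8 s
  have hs0 : ∀ x, 0 ≤ P.eta s x := fun x => by linarith [hlo x, h0 x]
  refine ⟨hadm.sym, fun x => ?_, ?_⟩
  · have := hs0 x
    unfold eta at this
    linarith
  · rw [isUnit_iff_ne_zero]
    intro hd
    obtain ⟨v, hv, hv0⟩ := Matrix.exists_mulVec_eq_zero_iff.2 hd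
    apply hv
    have h1 := form_im hadm.sym (P.bs s) v
    rw [hv0] at h1
    simp only [Pi.zero_apply, mul_zero, Finset.sum_const_zero, Complex.zero_im] at h1
    have h2 : ∀ x, ‖v x‖ ^ 2 * (P.bs s x).im ≤ 0 := fun x =>
      mul_nonpos_of_nonneg_of_nonpos (by positivity) (by
        have := hs0 x
        unfold eta at this
        linarith)
    have h3 := (Finset.sum_eq_zero_iff_of_nonpos (fun x _ => h2 x)).1 h1.symm
    have h4 : ∀ x ∈ X, v x = 0 := by
      intro x hx
      have h5 := h3 x (Finset.mem_univ x)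
      rcases mul_eq_zero.1 h5 with h6 | h6
      · exact norm_eq_zero.1 (pow_eq_zero_iff (by norm_num) |>.1 h6)
      · have h7 := hlo x
        have h8 := hX x hx
        have h9 : 0 < P.eta s x := by linarith
        unfold eta at h9
        linarith
    have h5 : (P.H + diagonal P.b) *ᵥ v = (P.H + diagonal (P.bs s)) *ᵥ v := by
      funext x
      rw [Matrix.add_mulVec, Matrix.add_mulVec, Pi.add_apply, Pi.add_apply,
        Matrix.mulVec_diagonal, Matrix.mulVec_diagonal]
      by_cases hx : x ∈ X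
      · rw [h4 x hx]
        simp
      · have hN : x ∉ N := fun h2 => hx (hNX h2)
        simp [bs, hi x hN]
    have h6 : (P.H + diagonal P.b) *ᵥ v = 0 := by
      rw [h5, hv0]
    have h7 := res_src hadm v
    rw [h6] at h7
    rw [← h7]
    simp

end Stp

end Pool.Agent.ANS

namespace Pool.Agent.AND

open Pool.Agent.Kin Pool.Agent.APS Pool.Agent.ANL Pool.Agent.ANS

variable {d L : ℕ} [NeZero L] {D : Type} [Fintype D] {f : Fix} {t : Tol d L}
  {M : Med (Tor d L)} {u : UTol}

/-- data of one cell: `N` = active sites of the cell, `g` digits, `c` variances, `be` sizes -/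
structure CellDig (t : Tol d L) (M : Med (Tor d L)) (g : ANS.Dig (Tor d L) D)
    (N : Finset (Tor d L)) (c be : Tor d L → ℝ) (Cb : ℝ) : Prop where
  NA : N ⊆ M.A
  dig : g.Ok c be
  beN : ∀ w, w ∉ N → be w = 0
  bek : ∀ w, be w ^ 2 ≤ Cb * t.kl
  ztk : ∀ w ∈ N, ∀ a, g.zt w a ≤ 7 / 8 * M.k w
  Cb0 : 0 ≤ Cb

/-- the constant of `Stp.Ok` -/
def stC (f : Fix) (Cb : ℝ) : ℝ := 8 * (f.C1 + 2) + (1 + Cb) / f.c1

theorem CellDig.zt0 {g : ANS.Dig (Tor d L) D} {N : Finset (Tor d L)} {c be : Tor d L → ℝ}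
    {Cb : ℝ} (hc : CellDig t M g N c be Cb) {w : Tor d L} (hw : w ∉ N) (a : D) :
    g.xi w a = 0 ∧ g.zt w a = 0 := by
  have h1 := hc.beN w hw
  have h2 := hc.dig.xi_le w a
  have h3 := hc.dig.zt_le w a
  rw [h1] at h2 h3
  exact ⟨abs_nonpos_iff.1 h2, abs_nonpos_iff.1 (h3.trans (by norm_num))⟩

theorem gok_eta_nil (M : Med (Tor d L)) (g : ANS.Dig (Tor d L) D) (x : Tor d L) :
    (M.stp g).eta nil x = M.eta x := by
  rw [Stp.eta_nil]
  rfl

theorem gok_gt (M : Med (Tor d L)) (g : ANS.Dig (Tor d L) D) (x : Tor d L) :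
    (M.stp g).gt x = rsc (H0T d L) M.b x x := rfl

/-- **The standing hypotheses of the engine hold in a good medium.** -/
theorem Good.stpOk (hG : Good f t M) (hI : t.In f M u) (hN : Num f t u)
    {g : ANS.Dig (Tor d L) D} {N : Finset (Tor d L)} {c be : Tor d L → ℝ} {Cb Lm : ℝ}
    (hc : CellDig t M g N c be Cb) (hLm : 1 ≤ Lm) (hLm' : u.Lam ≤ Lm)
    (hbes : ∀ w, 100 * stC f Cb ^ 2 * be w ≤ 1) :
    (M.stp g).Ok M.nr N c be M.eta (stC f Cb) Lm := by
  have hC1 : 0 < f.C1 := hG.C1_pos hI hN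
  have hc1 : 0 < f.c1 := hN.c1
  have hq : 0 ≤ (1 + Cb) / f.c1 := div_nonneg (by linarith [hc.Cb0]) hc1.le
  have hC16 : 8 * (f.C1 + 2) ≤ stC f Cb := by
    unfold stC
    linarith
  have hCq : (1 + Cb) / f.c1 ≤ stC f Cb := by
    unfold stC
    linarith
  have hCc : 1 + Cb ≤ stC f Cb * f.c1 := by
    rwa [div_le_iff₀ hc1] at hCq
  have hCge : 1 ≤ stC f Cb := by linarith
  have hC0 : 0 ≤ stC f Cb := by linarith
  have hinc : ∀ w, w ∉ N → ∀ a, (M.stp g).inc w a = 0 := by
    intro w hw a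
    cases a with
    | none => rfl
    | some a =>
      have := hc.zt0 hw a
      show ((g.xi w a : ℂ) + (g.zt w a : ℂ) * _) = 0
      rw [this.1, this.2]
      simp
  have het8 : ∀ w a, (M.stp g).g.zt w a * ((M.stp g).gt w).im ≤ 7 / 8 * (M.stp g).eta nil w := by
    intro w a
    rw [gok_eta_nil, gok_gt]
    show g.zt w a * _ ≤ _
    by_cases hw : w ∈ N
    · have h1 := hc.ztk w hw a
      have hA := hc.NA hw
      have h2 := hG.io_pos hI hN (hG.nU_of_A hA)
      have h3 := hG.kio_le hI hN (hG.nU_of_A hA)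
      have h4 := mul_le_mul_of_nonneg_right h1 h2.le
      nlinarith
    · rw [(hc.zt0 hw a).2, zero_mul]
      have := hG.eta_nonneg hI hN w
      linarith
  have hX : ∀ x ∈ M.nr, 0 < (M.stp g).eta nil x := fun x hx => by
    rw [gok_eta_nil]
    exact hG.eta_pos hI hN (mem_nr.1 hx)
  have hNX : N ⊆ M.nr := hc.NA.trans hG.A_sub_nr
  have hbee : ∀ w, be w ^ 2 ≤ stC f Cb * M.eta w := by
    intro w
    by_cases hw : w ∈ N
    · have h1 := hc.bek w
      have h2 := hG.eta_act hI hN (hc.NA hw)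
      have h3 := hN.eta
      have h4 : t.kl * f.c1 ≤ M.eta w := by linarith
      have h5 := hN.kl
      calc be w ^ 2 ≤ Cb * t.kl := h1
        _ ≤ (stC f Cb * f.c1) * t.kl := by
            refine mul_le_mul_of_nonneg_right ?_ h5.le
            linarith
        _ = stC f Cb * (t.kl * f.c1) := by ring
        _ ≤ _ := mul_le_mul_of_nonneg_left h4 hC0
    · rw [hc.beN w hw]
      have := mul_nonneg hC0 (hG.eta_nonneg hI hN w)
      simpa using this
  refine ⟨hCge, hLm, hG.admN hI hN, hNX, ?_, hX, ?_, hc.dig, hc.beN, ?_, het8, hbes, ?_, ?_, ?_,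
    ?_, ?_, ?_⟩
  · intro x hx
    rw [gok_eta_nil]
    exact hG.eU x (by
      by_contra h2
      exact hx (mem_nr.2 h2))
  · intro x hx
    rw [gok_eta_nil]
    exact (hG.eS1 x (mem_nr.1 hx)).trans hCge
  · intro w
    rw [gok_eta_nil]
    exact hbee w
  · intro x hx
    have h1 := hG.io_ge hI hN (mem_nr.1 hx)
    have h2 : (M.stp g).io nil x = (rsc (H0T d L) M.b x x).im := by
      unfold Stp.io
      rw [stp_G_nil]
      rfl
    rw [h2]
    have h3 := mul_le_mul_of_nonneg_left h1 hC0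
    linarith [hc.Cb0]
  · intro x hx
    rw [stp_G_nil]
    have := hG.gam_le hI hN (mem_nr.1 hx)
    exact this.trans (by linarith)
  · intro x hx y hy
    rw [stp_G_nil]
    exact (hG.ent_Lam hI (mem_nr.1 hx) (mem_nr.1 hy)).trans hLm'
  · intro x hx
    exact hG.eta_pos hI hN (mem_nr.1 hx)
  · exact hbee
  · intro s hs w hw
    have hadm := Stp.adm_at (P := M.stp g) (X := M.nr) (N := N) (hG.admN hI hN) hNX hX hinc het8 s
    have hlo := Stp.etaLo_at (P := M.stp g) (fun x => by
      rw [gok_eta_nil]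
      exact hG.eta_nonneg hI hN x) het8 s
    have h1 := ANL.ward hadm w
    have h2 : ∑ x ∈ M.nr, M.eta x * (M.stp g).S s x w ≤
        ∑ x, 8 * ((-((M.stp g).bs s x).im) * ‖rsc (M.stp g).H ((M.stp g).bs s) w x‖ ^ 2) := by
      refine le_trans (Finset.sum_le_sum fun x _ => ?_)
        (Finset.sum_le_univ_sum_of_nonneg fun x => ?_)
      · have h3 := hlo x
        rw [gok_eta_nil] at h3
        have h4 : (M.stp g).eta s x = -((M.stp g).bs s x).im := rfl
        rw [← h4]
        have h5 : (M.stp g).S s x w = ‖rsc (M.stp g).H ((M.stp g).bs s) w x‖ ^ 2 := by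
          unfold Stp.S Stp.G
          rw [adm_symm hadm x w]
        rw [h5]
        have h6 : 0 ≤ ‖rsc (M.stp g).H ((M.stp g).bs s) w x‖ ^ 2 := by positivity
        nlinarith [mul_le_mul_of_nonneg_right h3 h6]
      · have := hadm.im x
        have h6 : 0 ≤ ‖rsc (M.stp g).H ((M.stp g).bs s) w x‖ ^ 2 := by positivity
        have h7 : 0 ≤ -((M.stp g).bs s x).im := by linarith
        positivity
    rw [← Finset.mul_sum] at h2
    have h3 : ∑ x, (-((M.stp g).bs s x).im) * ‖rsc (M.stp g).H ((M.stp g).bs s) w x‖ ^ 2 =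
        (rsc (M.stp g).H ((M.stp g).bs s) w w).im := by
      rw [h1]
    rw [h3] at h2
    have h4 : (rsc (M.stp g).H ((M.stp g).bs s) w w).im ≤ f.C1 + 1 := by
      have h5 := hs w hw w hw
      have h6 := hG.gam_le hI hN (mem_nr.1 hw)
      rw [stp_G_nil] at h5
      have h7 : ‖(M.stp g).G s w w‖ ≤ f.C1 + 1 := by
        have h8 := norm_add_le ((M.stp g).G s w w - M.G w w) (M.G w w)
        rw [sub_add_cancel] at h8
        have h9 : ‖M.G w w‖ ≤ f.C1 := h6
        linarith
      exact ((le_abs_self _).trans (Complex.abs_im_le_norm _)).trans h7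
    linarith

end Pool.Agent.AND
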