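import Pool.Agent.ANS.TopRfQ
import Pool.Agent.ANS.TopGoodOk
import Pool.Agent.AND.H3A
import Pool.Agent.AND.LocGood

/-! # ANS TopRfA: the hypotheses `StepRf` of the re-freezing from the data of the step theorem

* `wfam_of_hasW` : helper3's weights give the family `WFam`.
* `hasW_bf` : weights for the frozen medium.
* `h3_weights` : the two pointwise inequalities of `StepRf.h3` for `a' = aB phi' M`, `z' = zB phi' om al3 be3 η_* M`
  (weights after the reading, old `ι`), all laws.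
* `RfNum` : the numbers.  `stepRf` : `StepRf` from Good, In, Num, CellDig, Frz.
* `exists_nxt` : `∃ M', Nxt M M' g ω (2 Π al)` together with all comparisons. -/

open Matrix Finset

noncomputable section

namespace Pool.Agent.AND

open Pool.Agent.Kin Pool.Agent.APS Pool.Agent.ANL Pool.Agent.ANM Pool.Agent.GSC

set_option linter.unusedVariables false
set_option linter.unusedSectionVars false

variable {d L : ℕ} [NeZero L] {D : Type} [Fintype D]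

/-- helper3's weights give the family `WFam` -/
theorem wfam_of_hasW {b : Tor d L → ℂ} {F : Set (Tor d L)} {μ : ℝ} {a c : ℕ}
    (h : ANM.HasW b F μ a c) (hμ : 0 < μ) {X : Finset (Tor d L)} (hX : ∀ x, x ∉ X → x ∈ F) :
    ∃ φ : Tor d L → Tor d L → ℝ, WFam (H0T d L) b X φ (a / (2 * μ)) c d := by
  choose φ p1 p2 p3 p4 p5 using h
  refine ⟨fun x y => μ * φ x y, ⟨?_, ?_, ?_, ?_⟩⟩
  · intro x
    rw [p1 x, Nat.cast_zero, mul_zero]
  · intro x0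
    exact p2 x0
  · intro x0 x y hxy hH
    have h2 := H0T_near hH
    have h3 : x ∈ F ∨ y ∈ F := by
      rcases hxy with hx | hy
      · exact Or.inl (hX x hx)
      · exact Or.inr (hX y hy)
    rw [p4 x0 x y h2 h3]
  · intro x r hr
    have e1 : (univ.filter fun y => μ * (φ x y : ℝ) ≤ r).card ≤ (2 * (a * ⌊r / μ⌋₊ + c) + 1) ^ d := by
      refine le_trans (Finset.card_le_card ?_) (card_ball x (a * ⌊r / μ⌋₊ + c))
      intro y hy
      rw [Finset.mem_filter] at hy ⊢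
      refine ⟨Finset.mem_univ _, (p5 x y).trans ?_⟩
      have h2 : φ x y ≤ ⌊r / μ⌋₊ := by
        refine Nat.le_floor ?_
        rw [le_div_iff₀ hμ]
        linarith [hy.2]
      exact Nat.add_le_add_right (Nat.mul_le_mul_left a h2) c
    have e2 : ((univ.filter fun y => μ * (φ x y : ℝ) ≤ r).card : ℝ) ≤
        ((2 * (a * ⌊r / μ⌋₊ + c) + 1 : ℕ) : ℝ) ^ d := by exact_mod_cast e1
    refine e2.trans (pow_le_pow_left₀ (by positivity) ?_ d)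
    push_cast
    have e3 := Nat.floor_le (div_nonneg hr hμ.le)
    have e4 : (a : ℝ) * ⌊r / μ⌋₊ ≤ a * (r / μ) := mul_le_mul_of_nonneg_left e3 (Nat.cast_nonneg a)
    have e5 : 2 * (r * ((a : ℝ) / (2 * μ))) = a * (r / μ) := by
      field_simp
    rw [e5]
    linarith

variable {f : Fix} {t : Tol d L} {M : Med (Tor d L)} {u : UTol} {g : ANS.Dig (Tor d L) D}
  {ω : Tor d L → D}

/-- absorption of the frozen medium -/
theorem eta_bf (hg : Good f t M) (hi : t.In f M u) (hN : Num f t u)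
    (hoff : ∀ x, x ∉ M.A → g.xi x (ω x) = 0 ∧ g.zt x (ω x) = 0) {x : Tor d L} (hx : x ∉ M.U) :
    -(M.bf g ω x).im = (if x ∈ M.A then t.eta else M.eta x) + M.kf g ω x * (M.G x x).im := by
  have h0 : -(M.bf g ω x).im = M.eta x - g.zt x (ω x) * (M.G x x).im := by
    unfold Med.bf Med.eta
    simp only [Complex.add_im, Complex.ofReal_im, Complex.im_ofReal_mul]
    ring
  rw [h0]
  by_cases hA : x ∈ M.A
  · have h1 := hg.eA x hA
    have h2 : (rsc (H0T d L) M.b x x).im = (M.G x x).im := rfl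
    rw [h1, h2, if_pos hA]
    unfold Med.kf
    ring
  · rw [if_neg hA]
    unfold Med.kf
    rw [hg.k0 x hA, (hoff x hA).2]
    ring

/-- weights for the frozen medium; `W` = sites with level `0` after the reading -/
theorem hasW_bfW (hg : Good f t M) (hi : t.In f M u) (hN : Num f t u)
    (hoff : ∀ x, x ∉ M.A → g.xi x (ω x) = 0 ∧ g.zt x (ω x) = 0) {W : Finset (Tor d L)} {k0 : ℝ}
    (hk00 : 0 ≤ k0) (hk0 : ∀ x ∈ M.A, x ∉ W → k0 ≤ M.kf g ω x)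
    (hkW : ∀ x ∈ W, M.kf g ω x = 0) {κ : Type*} {E : κ → Set (Tor d L)} {a c : ℕ}
    (hcp : ANM.CP (ANM.td : Tor d L → Tor d L → ℕ) E a c)
    (hU : ∀ x ∈ M.U, ∃ k, x ∈ E k) (hIn : ∀ x ∈ M.I, ∃ k, x ∈ E k)
    (hW : ∀ x ∈ W, ∃ k, x ∈ E k) {μ : ℝ} (hμ : 0 ≤ μ)
    (hμ1 : μ ≤ 1) (h1 : 8 * d * μ ≤ k0 * f.c1) (h2 : 8 * d * μ ≤ t.st) :
    ANM.HasW (M.bf g ω) {x | ∃ k, x ∈ E k} μ a c := by
  have he := hN.eta
  have hkf0 : ∀ x, 0 ≤ M.kf g ω x := by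
    intro x
    by_cases hA : x ∈ M.A
    · by_cases hxW : x ∈ W
      · rw [hkW x hxW]
      · exact hk00.trans (hk0 x hA hxW)
    · unfold Med.kf
      rw [hg.k0 x hA, (hoff x hA).2, sub_zero]
  refine ANM.hasW_cp hcp hμ hμ1 (fun x => ?_) ?_ (le_refl (8 * d * μ))
  · by_cases hx : x ∈ M.U
    · have hA : x ∉ M.A := fun hA => Finset.disjoint_left.1 hg.AU hA hx
      have h3 : M.bf g ω x = M.b x := by
        unfold Med.bf
        rw [(hoff x hA).1, (hoff x hA).2]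
        simp
      rw [h3, hg.im_zero hx, neg_zero]
    · rw [eta_bf hg hi hN hoff hx]
      have h3 := mul_nonneg (hkf0 x) (hg.io_pos hi hN hx).le
      have h4 : (0 : ℝ) ≤ if x ∈ M.A then t.eta else M.eta x := by
        split_ifs
        · exact he.le
        · exact hg.eta_nonneg hi hN x
      exact add_nonneg h4 h3
  · intro x hx
    have hxU : x ∉ M.U := fun hU' => by
      obtain ⟨k, hk⟩ := hU x hU'
      exact hx k hk
    have hxI : x ∉ M.I := fun hI' => by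
      obtain ⟨k, hk⟩ := hIn x hI'
      exact hx k hk
    have hxW : x ∉ W := fun hW' => by
      obtain ⟨k, hk⟩ := hW x hW'
      exact hx k hk
    rw [eta_bf hg hi hN hoff hxU]
    by_cases hA : x ∈ M.A
    · rw [if_pos hA]
      have h3 : k0 * f.c1 ≤ M.kf g ω x * (M.G x x).im :=
        mul_le_mul (hk0 x hA hxW) (hg.io_ge hi hN hxU) hN.c1.le (hkf0 x)
      linarith
    · rw [if_neg hA]
      have h3 := hg.eS x hA hxU hxI
      have h4 := mul_nonneg (hkf0 x) (hg.io_pos hi hN hxU).le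
      have h5 : (rsc (H0T d L) M.b x x).im = (M.G x x).im := rfl
      rw [h5] at h4
      linarith

/-- weights for the frozen medium -/
theorem hasW_bf (hg : Good f t M) (hi : t.In f M u) (hN : Num f t u)
    (hoff : ∀ x, x ∉ M.A → g.xi x (ω x) = 0 ∧ g.zt x (ω x) = 0) {k0 : ℝ} (hk00 : 0 ≤ k0)
    (hk0 : ∀ x ∈ M.A, k0 ≤ M.kf g ω x) {κ : Type*} {E : κ → Set (Tor d L)} {a c : ℕ}
    (hcp : ANM.CP (ANM.td : Tor d L → Tor d L → ℕ) E a c)
    (hU : ∀ x ∈ M.U, ∃ k, x ∈ E k) (hIn : ∀ x ∈ M.I, ∃ k, x ∈ E k) {μ : ℝ} (hμ : 0 ≤ μ)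
    (hμ1 : μ ≤ 1) (h1 : 8 * d * μ ≤ k0 * f.c1) (h2 : 8 * d * μ ≤ t.st) :
    ANM.HasW (M.bf g ω) {x | ∃ k, x ∈ E k} μ a c :=
  hasW_bfW hg hi hN hoff (W := ∅) hk00 (fun x hx _ => hk0 x hx)
    (fun x hx => absurd hx (Finset.notMem_empty x)) hcp hU hIn
    (fun x hx => absurd hx (Finset.notMem_empty x)) hμ hμ1 h1 h2

/-- the pointwise inequalities of the use of (H3) for the weights after the reading (old `ι`) -/
theorem h3_weights (hg : Good f t M) (hi : t.In f M u) (hN : Num f t u)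
    (hoff : ∀ x, x ∉ M.A → g.xi x (ω x) = 0 ∧ g.zt x (ω x) = 0)
    (hkf0 : ∀ x, 0 ≤ M.kf g ω x) (phi om al3 be3 : Tor d L → ℝ) (ψ θ e1 ρ : ℝ)
    (hlo : ∀ y ∈ M.A, θ * M.kf g ω y ≤ ψ * phi y) (hhi : ∀ y ∈ M.A, ψ * phi y ≤ M.kf g ω y)
    (hal : ∀ y, y ∉ M.U → ψ * al3 y ≤ e1)
    (hbeA : ∀ y ∈ M.A, ψ * (be3 y * om y) ≤ e1 * M.kf g ω y)
    (hS : ∀ y, y ∉ M.A → y ∉ M.U → y ∉ M.I → ψ * (phi y * io M y) ≤ 3 / 2 * M.eta y ∧
      ψ * (be3 y * (om y * io M y)) ≤ e1 * M.eta y)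
    (hI : ∀ y ∈ M.I, be3 y * om y = 0)
    (he1 : 0 ≤ e1) (hθ : θ ≤ 2) (h1 : ρ ≤ θ - e1) (h2 : ρ ≤ 1 / 2 - 2 * e1) :
    ∀ y, y ∉ M.U →
      ψ * aB phi M y ≤ M.kf g ω y * (M.G y y).im ∧
      2 * (M.kf g ω y * (M.G y y).im) - ψ * aB phi M y + ψ * zB phi om al3 be3 t.eta M y ≤
        (2 - ρ) * -(M.bf g ω y).im := by
  intro y hy
  have hio : io M y = (M.G y y).im := rfl
  have hp : 0 < io M y := hg.io_pos hi hN hy
  have he := hN.eta
  rw [eta_bf hg hi hN hoff hy, ← hio]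
  unfold aB zB uB
  by_cases hyA : y ∈ M.A
  · rw [if_pos hyA, if_pos (Or.inl hyA)]
    try rw [if_pos hyA]
    try rw [if_pos hyA]
    have a1 := mul_le_mul_of_nonneg_right (hhi y hyA) hp.le
    have a2 := mul_le_mul_of_nonneg_right (hlo y hyA) hp.le
    have a3 := mul_le_mul_of_nonneg_right (hal y hy) he.le
    have a4 := mul_le_mul_of_nonneg_right (hbeA y hyA) hp.le
    refine ⟨by linarith, ?_⟩
    have hk := mul_nonneg (hkf0 y) hp.le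
    have a5 := mul_le_mul_of_nonneg_right h1 hk
    have a6 := mul_le_mul_of_nonneg_right (show ρ ≤ 2 - e1 by linarith) he.le
    nlinarith
  · have hkf : M.kf g ω y = 0 := by
      unfold Med.kf
      rw [hg.k0 y hyA, (hoff y hyA).2, sub_zero]
    rw [hkf, if_neg hyA]
    try rw [if_neg hyA]
    try rw [if_neg hyA]
    refine ⟨by simp, ?_⟩
    have hη : 0 < M.eta y := hg.eta_pos hi hN hy
    have a3 := mul_le_mul_of_nonneg_right (hal y hy) hη.le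
    by_cases hyI : y ∈ M.I
    · rw [if_pos (Or.inr hyI)]
      have a4 := hI y hyI
      have a5 : be3 y * (om y * io M y) = 0 := by rw [← mul_assoc, a4, zero_mul]
      rw [a5]
      have a6 := mul_le_mul_of_nonneg_right (show ρ ≤ 2 - e1 by linarith) hη.le
      nlinarith
    · rw [if_neg (by tauto)]
      obtain ⟨b1, b2⟩ := hS y hyA hy hyI
      have a6 := mul_le_mul_of_nonneg_right h2 hη.le
      nlinarith

/-- the numbers of the re-freezing -/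
structure RfNum (f : Fix) (u : UTol) (d : ℕ) (ρ al K Mv cc : ℝ) (l : ℕ) : Prop where
  ρ0 : 0 < ρ
  ρ2 : ρ ≤ 2
  al0 : 0 ≤ al
  al1 : al ≤ 1
  Lam0 : 0 ≤ u.Lam
  sbn : SBN d (ρ / 4) f.c1 (f.C1 + 1) (f.C1 + 1) ((u.Lam + 1) ^ 2) K Mv cc l
  m1 : 16 * l * al ≤ f.c1
  m2 : 16 * al ≤ (ρ / 4) ^ 2 * f.c1
  sm : 768 * (l : ℝ) ^ 2 * (f.C1 + 1) ^ 3 * al ≤ f.c1 ^ 4

/-- `StepRf` from the data of the step theorem -/
theorem stepRf (hg : Good f t M) (hi : t.In f M u) (hN : Num f t u)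
    (hB : IsUnit (ANI.MBB (H0T d L) M.b M.nr).det)
    (hoff : ∀ x, x ∉ M.A → g.xi x (ω x) = 0 ∧ g.zt x (ω x) = 0)
    (hkf0 : ∀ x, 0 ≤ M.kf g ω x) (hkf1 : ∀ x, M.kf g ω x ≤ 1)
    {a' z' : ℕ → Tor d L → ℝ} {e3 : ℕ → ℝ} {B W : Finset (Tor d L)} {al tt de : ℝ}
    (hF : Frz t M g a' z' e3 B al tt de W ω) {ρ K Mv cc : ℝ} {l : ℕ}
    (hn : RfNum f u d ρ al K Mv cc l) {K0 : ℕ} (hK0 : K0 ∈ t.Ks) {ψ : ℝ} (hψ : 0 < ψ)
    (ha0 : ∀ y, 0 ≤ a' K0 y)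
    (hw : ∀ y, y ∉ M.U → ψ * a' K0 y ≤ M.kf g ω y * (M.G y y).im ∧
      2 * (M.kf g ω y * (M.G y y).im) - ψ * a' K0 y + ψ * z' K0 y ≤ (2 - ρ) * -(M.bf g ω y).im)
    (he : al + ψ * e3 K0 / 2 ≤ ρ / 4 * f.c1)
    {φ : Tor d L → Tor d L → ℝ} (hφ : WFam (H0T d L) (M.bf g ω) M.nr φ Mv cc d) :
    StepRf f t M u g ω a' z' e3 al φ ρ (f.C1 + 1) ((u.Lam + 1) ^ 2) K Mv cc l where
  good := hg
  inn := hi
  num := hN
  mbb := hB
  off := hoff
  kf0 := hkf0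
  kf1 := hkf1
  al0 := hn.al0
  ent := hF.ent
  ρ0 := hn.ρ0
  ρ2 := hn.ρ2
  h3 := ⟨K0, ψ, hψ, ha0, hF.h3 K0 hK0, fun y hy => (hw y hy).1, fun y hy => (hw y hy).2, he⟩
  hC1 := by linarith [hn.al1]
  hC2 := pow_le_pow_left₀ (by linarith [hn.al0, hn.Lam0]) (by linarith [hn.al1]) 2
  wf := hφ
  al1 := hn.m1
  al2 := hn.m2
  sbn := hn.sbn
  sm := hn.sm

/-- THE NEXT MEDIUM EXISTS -/
theorem exists_nxt (hg : Good f t M) (hi : t.In f M u) (hN : Num f t u)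
    (hB : IsUnit (ANI.MBB (H0T d L) M.b M.nr).det)
    (hoff : ∀ x, x ∉ M.A → g.xi x (ω x) = 0 ∧ g.zt x (ω x) = 0)
    (hkf0 : ∀ x, 0 ≤ M.kf g ω x) (hkf1 : ∀ x, M.kf g ω x ≤ 1)
    {a' z' : ℕ → Tor d L → ℝ} {e3 : ℕ → ℝ} {B W : Finset (Tor d L)} {al tt de : ℝ}
    (hF : Frz t M g a' z' e3 B al tt de W ω) {ρ K μ : ℝ} {aa cc l : ℕ} (hμ : 0 < μ)
    (hn : RfNum f u d ρ al K (aa / (2 * μ)) cc l) {K0 : ℕ} (hK0 : K0 ∈ t.Ks) {ψ : ℝ} (hψ : 0 < ψ)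
    (ha0 : ∀ y, 0 ≤ a' K0 y)
    (hw : ∀ y, y ∉ M.U → ψ * a' K0 y ≤ M.kf g ω y * (M.G y y).im ∧
      2 * (M.kf g ω y * (M.G y y).im) - ψ * a' K0 y + ψ * z' K0 y ≤ (2 - ρ) * -(M.bf g ω y).im)
    (he : al + ψ * e3 K0 / 2 ≤ ρ / 4 * f.c1) {F : Set (Tor d L)} (hUF : ∀ x ∈ M.U, x ∈ F)
    (hW : ANM.HasW (M.bf g ω) F μ aa cc) :
    Nxt M (M.next g ω) g ω (2 * (4 * l * (f.C1 + 1) / f.c1) * al) ∧
      Two (H0T d L) (M.bf g ω) (M.next g ω).b M.nr (8 * l * (f.C1 + 1) * al / f.c1 ^ 2) ∧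
      (∀ v, (1 - 10 * (8 * l * (f.C1 + 1) * al / f.c1 ^ 2)) * QF (H0T d L) (M.fr g ω) v ≤
        QF (H0T d L) (M.next g ω) v) ∧
      (∀ v, QF (H0T d L) (M.next g ω) v ≤
        (1 + 10 * (8 * l * (f.C1 + 1) * al / f.c1 ^ 2)) * QF (H0T d L) (M.fr g ω) v) ∧
      ∃ φ : Tor d L → Tor d L → ℝ, StepRf f t M u g ω a' z' e3 al φ ρ (f.C1 + 1)
        ((u.Lam + 1) ^ 2) K (aa / (2 * μ)) cc l := by
  obtain ⟨φ, hφ⟩ := wfam_of_hasW hW hμ (X := M.nr) (fun x hx => hUF x (by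
    by_contra hc
    exact hx (mem_nr.2 hc)))
  have h := stepRf hg hi hN hB hoff hkf0 hkf1 hF hn hK0 hψ ha0 hw he hφ
  exact ⟨h.nxt, h.two, h.qf.1, h.qf.2, φ, h⟩

end Pool.Agent.AND
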