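import Pool.Agent.ANS.StepFarOut
import Pool.Agent.ANS.StepFar3
import Pool.Agent.ANS.TopRfA
import Pool.Agent.ANS.TopH4
import Pool.Agent.ANS.KerRel

/-! # ANS StepDet: THE DETERMINISTIC STEP THEOREM (owner helper1)

`Good f (tolAt P Sf n F π v M) M` and the frozen step is OK at the outcome `ω` (`Frz`, weights of the new classes) give the
self-consistent medium `M'` after the reading; with the weak outcomes `W` relabelled (`M'.rel W`) it is `Good` for the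
tolerances `tolAt P Sf n (F.add P n s {c}) π' v' (M'.rel W)`.  Part A: `W = ∅`.

* `StepCtx` : the state and the outcome;  `StepNum` : all numerical inequalities;
* `step_det0` : everything but the form fields (hypothesis `h4`);  `step_det` : the theorem. -/

open Matrix Finset

noncomputable section

namespace Pool.Agent.AND

open Pool.Agent.Kin Pool.Agent.APS Pool.Agent.ANM

set_option linter.unusedSectionVars false

variable {d L : ℕ} [NeZero L] {X D : Type} [Fintype D]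

/-- change of the diagonal by the re-freezing -/
def rStep (f : Fix) (l : ℕ) (al : ℝ) : ℝ := 2 * (4 * l * (f.C1 + 1) / f.c1) * al

/-- relative change of the form by the re-freezing -/
def qStep (f : Fix) (l : ℕ) (al : ℝ) : ℝ := 10 * (8 * l * (f.C1 + 1) * al / f.c1 ^ 2)

/-- THE STATE AND THE OUTCOME of one step at level `n`: cell with corner `c` and side `s`, `N` = sites which are read,
`W` = weak outcomes, `Dp` = pieces which contain the read and inert sites and `W` -/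
structure StepCtx {κ : Type} (f : Fix) (P : Par) (Sf : SiteF X) (n s : ℕ) (F : Fld (Tor d L))
    (π π' : Prof (Tor d L)) (v v' : Tor d L → X) (M : Med (Tor d L)) (u : UTol)
    (g : ANS.Dig (Tor d L) D) (ω : Tor d L → D) (N W : Finset (Tor d L)) (c : Tor d L)
    (Dp : κ → Set (Tor d L)) (aa cc nW : ℕ) (Bd Cph errm bem : ℝ)
    (B : Finset (Tor d L)) : Prop where
  PP : P.Pos
  SP : Sf.Pos
  FP : F.Pos
  good : Good f (tolAt P Sf n F π v M) M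
  inn : (tolAt P Sf n F π v M).In f M u
  num : Num f (tolAt P Sf n F π v M) u
  Ki : 0 < u.Ki
  mbb : IsUnit (ANI.MBB (H0T d L) M.b M.nr).det
  NA : N ⊆ M.A
  NB : ∀ w ∈ N, ANP.dT w c ≤ s
  WN : W ⊆ N
  Wc : W.card ≤ nW
  off : Off g ω N
  klo : ∀ x ∈ M.A, x ∉ W → P.cl * P.kap (n + 1) ≤ M.kf g ω x
  kW : ∀ x ∈ W, M.kf g ω x = 0
  khi : ∀ x ∈ M.A, M.kf g ω x ≤ P.kap n
  zt : ∀ x ∈ N, 0 ≤ g.zt x (ω x)
  inc : ∀ x ∈ N, ‖(g.xi x (ω x) : ℂ) + (g.zt x (ω x) : ℂ) * M.G x x‖ ≤ Bd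
  aa1 : 1 ≤ aa
  cp : ANM.CP (ANM.td : Tor d L → Tor d L → ℕ) Dp aa cc
  cU : ∀ x ∈ M.U, ∃ k, x ∈ Dp k
  cI : ∀ x ∈ M.I, ∃ k, x ∈ Dp k
  cW : ∀ x ∈ W, ∃ k, x ∈ Dp k
  LL : 4 * s + 1 ≤ L
  Bn : B ⊆ M.nr
  B3 : ∀ x ∈ M.nr, ANP.dT x c < 3 * s → x ∈ B
  Bx : ∃ x ∈ M.nr, x ∉ B
  /-- the anchor site -/
  Z : ∃ z, z ∉ M.U ∧ z ∉ M.I ∧ 2 * s ≤ ANP.dT z c ∧ ANP.dT z c ≤ 2 * s + cc + 1
  et1 : ∀ x, F.et x ≤ 1
  /-- the classes change only on `N` -/
  cls : ∀ y, y ∉ N → π'.lev y = π.lev y ∧ v' y = v y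
  phi : ∀ K ∈ Sf.Ks n, ∀ y, y ∉ M.U → Sf.phi K (π.lev y) (v y) ≤ Cph * Sf.s K ∧
    Sf.phi K (π'.lev y) (v' y) ≤ Cph * Sf.s K
  om : ∀ y, y ∉ M.U → Sf.om (π.lev y) (v y) ≤ 1 ∧ Sf.om (π'.lev y) (v' y) ≤ 1
  ine : ∀ y ∈ M.I ∪ W, Sf.om (π'.lev y) (v' y) = 0 ∧
    ∀ K ∈ Sf.Ks n, Sf.phi K (π'.lev y) (v' y) = 0
  err : ∀ y, y ∉ M.U → F.err y ≤ errm
  be : ∀ y, y ∉ M.U → F.be y ≤ bem

/-- ALL NUMERICAL INEQUALITIES of one step but those of the form fields -/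
structure StepNum0 (f : Fix) (P : Par) (Sf : SiteF X) (n s d : ℕ) (u : UTol)
    (al tt ρ K K2 μ Bd q ze gg σ tl Lm omw e0 Cph errm bem : ℝ) (aa cc l nW : ℕ)
    (Wa Wz e3 : ℕ → ℝ) : Prop where
  kl0 : 0 < P.cl * P.kap (n + 1)
  k1 : P.kap n ≤ 1
  rf : RfNum f u d ρ al K2 (aa / (2 * μ)) cc l
  far : ∀ {L : ℕ} [NeZero L] (F : Fld (Tor d L)) (π : Prof (Tor d L)) (v : Tor d L → X)
    (M : Med (Tor d L)), FarNum f (tolAt P Sf n F π v M) u (rStep f l al)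
      (P.cl * P.kap (n + 1)) (P.kap n) μ K Bd q
  wn : ∀ {L : ℕ} (W : Finset (Tor d L)), W.card ≤ nW →
    WNum f (rStep f l al) (P.cl * P.kap (n + 1)) (P.kap n) K Bd q Lm omw W
  sch : FarSch (P.kap n) P.b P.v P.Cg s (farQ d f u μ K aa cc) (farν f u μ aa) μ aa cc f.C1 f.c1
    (P.cl * P.kap (n + 1) * (f.c1 / 2)) Lm q ze tl
  lm : u.Lam + (al + (2 * rStep f l al / f.c1) * (2 * f.C1)) ≤ Lm
  zer : rStep f l al ≤ ze * P.kap n ^ P.v
  near : NearNum f P Sf n (rStep f l al) al ze gg tt σ tl Wa Wz e3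
  e0A : e0 ≤ P.cl * P.kap (n + 1) * (f.c1 / 2)
  e0S : e0 ≤ P.cs * P.kap (n + 1)
  far3 : Far3Num f P n s μ aa cc (farQ d f u μ K aa cc) (farν f u μ aa) q e0 errm bem Cph
    (P.Cz * gg)

variable {κ : Type} {f : Fix} {P : Par} {Sf : SiteF X} {n s : ℕ} {F : Fld (Tor d L)}
  {π π' : Prof (Tor d L)} {v v' : Tor d L → X} {M : Med (Tor d L)} {u : UTol}
  {g : ANS.Dig (Tor d L) D} {ω : Tor d L → D} {N W : Finset (Tor d L)} {c : Tor d L}
  {Dp : κ → Set (Tor d L)} {aa cc l nW : ℕ} {Bd Cph errm bem : ℝ}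
  {B : Finset (Tor d L)}
  {al tt de ρ K K2 μ q ze gg σ tl Lm omw e0 : ℝ} {Wa Wz e3 : ℕ → ℝ}

/-- the frozen medium is admissible -/
theorem FrOK.of_adm {t : Tol d L} (hG : Good f t M) (hI : t.In f M u) (hNn : Num f t u)
    (hoff : Off g ω N) (hNA : N ⊆ M.A) (hkf : ∀ x, 0 ≤ M.kf g ω x)
    (hz : ∀ x ∈ N, 0 ≤ g.zt x (ω x)) (hadm : ANL.Adm (H0T d L) (M.bf g ω)) :
    FrOK M g ω (N.filter fun x => 0 < g.zt x (ω x)) where
  NX := fun x hx => mem_nr.2 (hG.nU_of_A (hNA (Finset.mem_filter.1 hx).1))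
  z0 := fun x hx => by
    by_cases hxN : x ∈ N
    · rw [Finset.mem_filter, not_and] at hx
      exact le_antisymm (not_lt.1 (hx hxN)) (hz x hxN)
    · exact (hoff x hxN).2
  zp := fun x hx => (Finset.mem_filter.1 hx).2
  adm := hadm
  eU := fun x hx => by
    have hxN : x ∉ N := fun h => hG.nU_of_A (hNA h) hx
    rw [fr_eta_eq, (hoff x hxN).2, zero_mul, sub_zero]
    exact hG.eU x hx
  eX := fun x hx => by
    have hxU := mem_nr.1 hx
    have h1 : (M.fr g ω).eta x = -(M.bf g ω x).im := rfl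
    rw [h1, eta_bf hG hI hNn (fun y hy => hoff y fun h => hy (hNA h)) hxU]
    have h2 := mul_nonneg (hkf x) (hG.io_pos hI hNn hxU).le
    have h3 : (0 : ℝ) < if x ∈ M.A then t.eta else M.eta x := by
      split_ifs
      · exact hNn.eta
      · exact hG.eta_pos hI hNn hxU
    exact add_pos_of_pos_of_nonneg h3 h2

/-- THE STEP without the form fields -/
theorem step_det0
    (hC : StepCtx f P Sf n s F π π' v v' M u g ω N W c Dp aa cc nW Bd Cph errm bem B)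
    (hN : StepNum0 f P Sf n s d u al tt ρ K K2 μ Bd q ze gg σ tl Lm omw e0 Cph errm bem aa cc l
      nW Wa Wz e3)
    (hF : Frz (tolAt P Sf n F π v M) M g (tolAt P Sf n F π' v' M).a (tolAt P Sf n F π' v' M).z
      e3 B al tt de W ω)
    (hS : SiteIn f P Sf n F π' v' M g ω ze gg Wa Wz)
    -- use of (H3) for the re-freezing
    {K0 : ℕ} (hK0 : K0 ∈ Sf.Ks n) {ψ : ℝ} (hψ : 0 < ψ)
    (hw : ∀ y, y ∉ M.U → ψ * (tolAt P Sf n F π' v' M).a K0 y ≤ M.kf g ω y * (M.G y y).im ∧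
      2 * (M.kf g ω y * (M.G y y).im) - ψ * (tolAt P Sf n F π' v' M).a K0 y +
        ψ * (tolAt P Sf n F π' v' M).z K0 y ≤ (2 - ρ) * -(M.bf g ω y).im)
    (he : al + ψ * e3 K0 / 2 ≤ ρ / 4 * f.c1)
    -- the form fields
    (h4 : ∀ M' : Med (Tor d L), Nxt M M' g ω (rStep f l al) →
      FrOK M g ω (N.filter fun x => 0 < g.zt x (ω x)) →
      StepH f (tolAt P Sf n F π v M) M g ω W (rStep f l al) al (P.cl * P.kap (n + 1)) (P.kap n) →
      FarRow f M M' {x | ∃ k, x ∈ Dp k} μ aa cc (fun x => ANP.dT x c - s)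
        (farQ d f u μ K aa cc) (farν f u μ aa) (P.cl * P.kap (n + 1) * (f.c1 / 2)) Lm q →
      (∀ x, x ∉ M.U → ‖M'.G x x - M.G x x‖ ≤ ze * ph (P.kap n) P.v P.b s x c) →
      (∀ v, (1 - qStep f l al) * QF (H0T d L) (M.fr g ω) v ≤ QF (H0T d L) M' v) →
      (∀ v, QF (H0T d L) M' v ≤ (1 + qStep f l al) * QF (H0T d L) (M.fr g ω) v) →
      (∀ w : Tor d L → ℝ, ∃ a : Tor d L → ℝ,
        DW (tolAt P Sf n (F.add P n s {c}) π' v' (M'.rel W)).D a +
          ∑ x ∈ (M'.rel W).nr, (M'.rel W).eta x * (rsc (H0T d L) (M'.rel W).b x x).im *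
          (w x - a x) ^ 2 /
          (1 + (tolAt P Sf n (F.add P n s {c}) π' v' (M'.rel W)).dl x) ≤
            QF (H0T d L) (M'.rel W) w) ∧
        ∀ a : Tor d L → ℝ, QF (H0T d L) (M'.rel W) a ≤
          DW (tolAt P Sf n (F.add P n s {c}) π' v' (M'.rel W)).C0 a) :
    ∃ M' : Med (Tor d L), Nxt M M' g ω (rStep f l al) ∧
      Good f (tolAt P Sf n (F.add P n s {c}) π' v' (M'.rel W)) (M'.rel W) := by
  have hG := hC.good
  have hI := hC.inn
  have hNn := hC.num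
  have hc1 := hNn.c1
  have hC1 := hG.C1_pos hI hNn
  have hfar := hN.far F π v M
  have hμ := hfar.mu
  have hWA : W ⊆ M.A := hC.WN.trans hC.NA
  have hoff : ∀ x, x ∉ M.A → g.xi x (ω x) = 0 ∧ g.zt x (ω x) = 0 := fun x hx =>
    hC.off x fun h => hx (hC.NA h)
  have hkfA : ∀ x ∈ M.A, 0 ≤ M.kf g ω x := by
    intro x hx
    by_cases hxW : x ∈ W
    · rw [hC.kW x hxW]
    · exact hN.kl0.le.trans (hC.klo x hx hxW)
  have hkf0 : ∀ x, 0 ≤ M.kf g ω x := by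
    intro x
    by_cases hx : x ∈ M.A
    · exact hkfA x hx
    · unfold Med.kf
      rw [hG.k0 x hx, (hoff x hx).2, sub_zero]
  have hkf1 : ∀ x, M.kf g ω x ≤ 1 := by
    intro x
    by_cases hx : x ∈ M.A
    · exact (hC.khi x hx).trans hN.k1
    · unfold Med.kf
      rw [hG.k0 x hx, (hoff x hx).2, sub_zero]
      norm_num
  have hal0 := hN.rf.al0
  have hal1 := hN.rf.al1
  have hr0 : 0 ≤ rStep f l al := hfar.r0
  have hcC : f.c1 ≤ f.C1 := by
    have e1 := hNn.g0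
    have e2 := hNn.C1
    have e3 : f.g0.im ≤ ‖f.g0‖ := (le_abs_self _).trans (Complex.abs_im_le_norm _)
    have e4 := hNn.del
    linarith
  -- the next medium
  have hWf : ANM.HasW (M.bf g ω) {x | ∃ k, x ∈ Dp k} μ aa cc :=
    hasW_bfW hG hI hNn hoff hN.kl0.le hC.klo hC.kW hC.cp hC.cU hC.cI hC.cW hμ.le hfar.mu1
      (hfar.m1.trans (by nlinarith [hN.kl0])) hfar.m2
  have ha0 : ∀ y, 0 ≤ (tolAt P Sf n F π' v' M).a K0 y := by
    intro y
    show 0 ≤ if y ∈ M.A then phc Sf π' v' K0 y * (M.G y y).im else 0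
    split_ifs with hy
    · exact mul_nonneg (hS.phi0 K0 hK0 y) (hG.io_pos hI hNn (hG.nU_of_A hy)).le
    · exact le_rfl
  obtain ⟨hn, -, hlo, hup, φ, hrf⟩ := exists_nxt hG hI hNn hC.mbb hoff hkf0 hkf1 hF hμ hN.rf
    (K0 := K0) hK0 hψ ha0 hw he (F := {x | ∃ k, x ∈ Dp k}) hC.cU hWf
  set M' := M.next g ω with hM'
  have hn : Nxt M M' g ω (rStep f l al) := hn
  have hs : StepH f (tolAt P Sf n F π v M) M g ω W (rStep f l al) al (P.cl * P.kap (n + 1))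
      (P.kap n) :=
    ⟨hN.kl0, fun x hx => (hoff x hx).1, fun x hx => (hoff x hx).2, hC.klo,
      fun x hx => ⟨hWA hx, hC.kW x hx⟩, hC.khi, hr0, hal0, hfar.r2, hal1.trans hfar.one⟩
  -- entries
  have hLm0 : ∀ x y, x ∉ M.U → y ∉ M.U → ‖M.G x y‖ ≤ u.Lam := fun x y hx hy =>
    hG.ent_Lam hI hx hy
  have hLm : ∀ x y, x ∉ M.U → y ∉ M.U → ‖M.G x y‖ ≤ Lm := fun x y hx hy => by
    have h1 := hLm0 x y hx hy
    have h2 := hN.lm
    have h3 : 0 ≤ al + (2 * rStep f l al / f.c1) * (2 * f.C1) := by positivity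
    linarith
  have hLm1 : ∀ x y, x ∉ M.U → y ∉ M.U → ‖M'.G x y‖ ≤ Lm := fun x y hx hy => by
    have h1 := hLm0 x y hx hy
    have h2 := hn.near_dif hG hI hNn hs hF hx hy
    have h3 := norm_add_le (M.G x y) (M'.G x y - M.G x y)
    rw [add_sub_cancel] at h3
    have h4 := hN.lm
    linarith
  -- far rows
  have hrow := farRowW hG hI hNn hn hC.off hC.NA hC.WN hC.klo hkfA hC.khi hC.NB hC.aa1 hC.cp
    hC.cU hC.cI hC.cW hfar hC.inc (hN.wn W hC.Wc) hLm hLm1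
  have hd := hd_all hrow hN.sch hn hN.zer
  have hBA : ∀ w ∈ M.A, w ∉ B → 3 * s ≤ ANP.dT w c := by
    intro w hw hwB
    by_contra hc
    exact hwB (hC.B3 w (hG.A_sub_nr hw) (not_le.1 hc))
  have hWM : ANM.HasW M.b {x | ∃ k, x ∈ Dp k} μ aa cc := hrow.hw
  have h3 := farOut_h3 hC.PP hC.SP hC.FP hn hG hI hNn hs hS hd hrow hWM hC.NA (fun _ => rfl) hC.NB
    (fun y _ hyN => hC.cls y hyN) hC.phi hC.om
    (fun y hy => hC.ine y (Finset.mem_union_left _ hy)) hC.err hC.be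
    (fun y hy => (hC.ine y (Finset.mem_union_right _ hy)).2) hN.e0A hN.e0S hN.far3
  have hfo : FarOut f P Sf n s F π' v' M M' c B W tl :=
    farOut hrow hN.sch hG hc1.le hn.A hμ hBA h3
  exact ⟨M', hn, step_good hn hG hI hNn hs hF hS
    (fun y hy => (hC.ine y (Finset.mem_union_right _ hy)).2) hd hN.near hC.FP.et hC.et1 hfo
    (h4 M' hn (FrOK.of_adm hG hI hNn hC.off hC.NA hkf0 hC.zt hrf.admf) hs hrow hd hlo hup)⟩

end Pool.Agent.AND
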