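import Pool.Agent.ANS.StepZ

/-! # ANS StepGood: `Good` of the next medium in `tolAt` form (owner helper1)

Assembly of the near rows (`StepZ`), the far rows (helper3, helper79: `StepFar`, `StepFar3`) and the form fields (helper60: `TopH4`). -/

open Matrix Finset

noncomputable section

namespace Pool.Agent.AND

open Pool.Agent.Kin Pool.Agent.APS Pool.Agent.ANM

set_option linter.unusedSectionVars false

variable {d L : ℕ} [NeZero L] {X D : Type} [Fintype D]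
  {f : Fix} {P : Par} {Sf : SiteF X} {n s : ℕ} {F : Fld (Tor d L)}
  {π π' : Prof (Tor d L)} {v v' : Tor d L → X} {M M' : Med (Tor d L)} {u : UTol}
  {g : ANS.Dig (Tor d L) D} {ω : Tor d L → D} {c : Tor d L} {r al ze gg : ℝ}
  {Wa Wz : ℕ → ℝ} {e3 : ℕ → ℝ} {B : Finset (Tor d L)} {tt de : ℝ}

/-- numbers of the near rows -/
structure NearNum (f : Fix) (P : Par) (Sf : SiteF X) (n : ℕ) (r al ze gg tt σ tl : ℝ)
    (Wa Wz e3 : ℕ → ℝ) : Prop where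
  ka1 : P.kap n ≤ 1
  ze1 : ze ≤ 1
  near : al + (2 * r / f.c1) * (2 * f.C1) ≤ P.kap n ^ P.v
  one : P.eta + P.kap n * (2 * f.C1) ≤ 1
  σ0 : 0 < σ
  σ1 : σ ≤ 1
  σ2 : 28 * σ ≤ P.kap n ^ P.vt
  tt0 : 0 ≤ tt
  h2 : 8 * tt + (1 + 1 / σ) ^ 3 *
      (16 * (2 * r / f.c1) ^ 4 * f.C1 ^ 3 / (P.cl * P.kap (n + 1) * f.c1)) + tl ≤
    1 / 2 * P.kap n ^ P.vt * P.kap n ^ (-(7 / 8) : ℝ)
  h3 : ∀ K ∈ Sf.Ks n, e3 K + 2 * (Wa K + Wz K) * (2 * f.C1) *
      (2 * (2 * r / f.c1) + (2 * r / f.c1) ^ 2) ≤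
    (Sf.s K * P.Cz * gg * P.kap n ^ P.v / 2 - 2 * Wa K * r / f.c1) * (f.c1 / 2)
  h3' : ∀ K ∈ Sf.Ks n, 2 * Wa K * r / f.c1 ≤ Sf.s K * P.Cz * gg * P.kap n ^ P.v / 2

/-- what the far rows give (`M'` = auxiliary medium, `W` = weak outcomes) -/
structure FarOut (f : Fix) (P : Par) (Sf : SiteF X) (n s : ℕ) (F : Fld (Tor d L))
    (π' : Prof (Tor d L)) (v' : Tor d L → X) (M M' : Med (Tor d L)) (c : Tor d L)
    (B W : Finset (Tor d L)) (tl : ℝ) : Prop where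
  h2 : ∀ x, x ∉ M.U → ¬ ANP.dT x c ≤ 2 * s → ∑ w ∈ M'.A \ W, ‖rsc (H0T d L) M'.b x w‖ ^ 4 ≤
    (tolAt P Sf n (F.add P n s {c}) π' v' M').tau x
  h3 : ∀ K ∈ Sf.Ks n, ∀ x, x ∉ M.U → 3 * s < 2 * ANP.dT x c →
    ‖∑ y ∈ M'.A, rsc (H0T d L) M'.b x y ^ 2 *
        ((tolAt P Sf n (F.add P n s {c}) π' v' M').a K y : ℂ)‖ ≤
      ∑ y ∈ M'.nr, ‖rsc (H0T d L) M'.b x y‖ ^ 2 *
        (tolAt P Sf n (F.add P n s {c}) π' v' M').z K y
  h5 : ∀ x y, x ∉ M.U → y ∉ M.U → ¬ ANP.dT x c ≤ 2 * s → ¬ ANP.dT y c ≤ 2 * s →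
    ‖rsc (H0T d L) M'.b x y‖ ≤ (tolAt P Sf n (F.add P n s {c}) π' v' M').g5 x y
  dec : ∀ x y, x ∉ M.U → y ∉ M.U → ‖rsc (H0T d L) M'.b x y‖ ≤
    pf (P.kap n) P.b P.Cg * Real.exp (-(P.b * P.kap n * ANP.dT x y))
  tA : ∀ x, x ∉ M.U → ANP.dT x c ≤ 2 * s →
    ∑ w ∈ (M.A \ W) \ B, ‖rsc (H0T d L) M'.b x w‖ ^ 4 ≤ tl
  tW : ∀ x, x ∉ M.U → 2 * ANP.dT x c ≤ 3 * s →
    ∑ y ∈ M.nr.filter (fun y => ¬ ANP.dT y c ≤ 2 * s),
      M'.eta y * ‖rsc (H0T d L) M'.b x y‖ ^ 2 ≤ f.c1 / 4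

/-- the weights `z` of the relabelled medium -/
theorem tolAt_rel_z {F : Fld (Tor d L)} {W : Finset (Tor d L)} {K : ℕ}
    (hW : ∀ y ∈ W, y ∈ M'.A ∧ M'.eta y = P.eta ∧ phc Sf π' v' K y = 0) (y : Tor d L) :
    (tolAt P Sf n F π' v' (M'.rel W)).z K y = (tolAt P Sf n F π' v' M').z K y := by
  show (if y ∈ M'.A \ W then (0 : ℝ) else phc Sf π' v' K y * (M'.G y y).im) +
      Sf.s K * P.Cz * (F.err y * ((if y ∈ M'.A \ W then P.eta else M'.eta y) / P.kap (n + 1)) +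
        F.be y * (omc Sf π' v' y * (M'.G y y).im)) =
    (if y ∈ M'.A then (0 : ℝ) else phc Sf π' v' K y * (M'.G y y).im) +
      Sf.s K * P.Cz * (F.err y * ((if y ∈ M'.A then P.eta else M'.eta y) / P.kap (n + 1)) +
        F.be y * (omc Sf π' v' y * (M'.G y y).im))
  by_cases hy : y ∈ W
  · obtain ⟨h1, h2, h3⟩ := hW y hy
    have h4 : y ∉ M'.A \ W := fun h => (Finset.mem_sdiff.1 h).2 hy
    rw [if_neg h4, if_neg h4, if_pos h1, if_pos h1, h2, h3]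
    ring
  · have h4 : y ∈ M'.A \ W ↔ y ∈ M'.A := by
      rw [Finset.mem_sdiff]
      exact ⟨fun h => h.1, fun h => ⟨h, hy⟩⟩
    simp only [h4]

/-- the weighted sums `a` of the relabelled medium -/
theorem tolAt_rel_a {F : Fld (Tor d L)} {W : Finset (Tor d L)} {K : ℕ}
    (hW : ∀ y ∈ W, y ∈ M'.A ∧ phc Sf π' v' K y = 0) (g2 : Tor d L → ℂ) :
    ∑ y ∈ (M'.rel W).A, g2 y * ((tolAt P Sf n F π' v' (M'.rel W)).a K y : ℂ) =
      ∑ y ∈ M'.A, g2 y * ((tolAt P Sf n F π' v' M').a K y : ℂ) := by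
  rw [rel_A]
  have h1 : ∀ y ∈ M'.A \ W, g2 y * ((tolAt P Sf n F π' v' (M'.rel W)).a K y : ℂ) =
      g2 y * ((tolAt P Sf n F π' v' M').a K y : ℂ) := by
    intro y hy
    have e1 : (tolAt P Sf n F π' v' (M'.rel W)).a K y = (tolAt P Sf n F π' v' M').a K y := by
      show (if y ∈ M'.A \ W then phc Sf π' v' K y * (M'.G y y).im else 0) =
        if y ∈ M'.A then phc Sf π' v' K y * (M'.G y y).im else 0
      rw [if_pos hy, if_pos (Finset.mem_sdiff.1 hy).1]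
    rw [e1]
  rw [Finset.sum_congr rfl h1]
  refine Finset.sum_subset Finset.sdiff_subset fun y hy hyW => ?_
  have h2 : y ∈ W := by
    by_contra h3
    exact hyW (Finset.mem_sdiff.2 ⟨hy, h3⟩)
  have e1 : (tolAt P Sf n F π' v' M').a K y = 0 := by
    show (if y ∈ M'.A then phc Sf π' v' K y * (M'.G y y).im else 0) = 0
    rw [(hW y h2).2, zero_mul, ite_self]
  rw [e1]
  simp

/-- GOOD OF THE NEXT MEDIUM -/
theorem step_good {W : Finset (Tor d L)} (hn : Nxt M M' g ω r)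
    (hG : Good f (tolAt P Sf n F π v M) M)
    (hI : (tolAt P Sf n F π v M).In f M u) (hN : Num f (tolAt P Sf n F π v M) u)
    (hs : StepH f (tolAt P Sf n F π v M) M g ω W r al (P.cl * P.kap (n + 1)) (P.kap n))
    (hF : Frz (tolAt P Sf n F π v M) M g (tolAt P Sf n F π' v' M).a (tolAt P Sf n F π' v' M).z
      e3 B al tt de W ω)
    (hS : SiteIn f P Sf n F π' v' M g ω ze gg Wa Wz)
    (hW0 : ∀ y ∈ W, ∀ K ∈ Sf.Ks n, phc Sf π' v' K y = 0)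
    (hd : ∀ x, x ∉ M.U → ‖M'.G x x - M.G x x‖ ≤ ze * ph (P.kap n) P.v P.b s x c)
    {σ tl : ℝ} (hnum : NearNum f P Sf n r al ze gg tt σ tl Wa Wz e3)
    (het0 : ∀ x, 0 ≤ F.et x) (het : ∀ x, F.et x ≤ 1)
    (hfar : FarOut f P Sf n s F π' v' M M' c B W tl)
    (h4 : (∀ w : Tor d L → ℝ, ∃ a : Tor d L → ℝ,
      DW (tolAt P Sf n (F.add P n s {c}) π' v' (M'.rel W)).D a +
        ∑ x ∈ (M'.rel W).nr, (M'.rel W).eta x * (rsc (H0T d L) (M'.rel W).b x x).im *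
        (w x - a x) ^ 2 /
        (1 + (tolAt P Sf n (F.add P n s {c}) π' v' (M'.rel W)).dl x) ≤
          QF (H0T d L) (M'.rel W) w) ∧
      ∀ a : Tor d L → ℝ, QF (H0T d L) (M'.rel W) a ≤
        DW (tolAt P Sf n (F.add P n s {c}) π' v' (M'.rel W)).C0 a) :
    Good f (tolAt P Sf n (F.add P n s {c}) π' v' (M'.rel W)) (M'.rel W) := by
  obtain ⟨s1, s2, s3, s4, s5, s6, s7, s8, s9, s10, s11, s12⟩ :=
    hn.status hG hI hN hs (t' := tolAt P Sf n (F.add P n s {c}) π' v' (M'.rel W)) le_rfl le_rfl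
      rfl le_rfl hnum.one
  have hU : (M'.rel W).U = M.U := hn.U
  have hWA : ∀ y ∈ W, y ∈ M'.A ∧ M'.eta y = P.eta := by
    intro y hy
    obtain ⟨h1, h2⟩ := hs.kW y hy
    refine ⟨hn.A ▸ h1, ?_⟩
    rw [eta'_A hn hG hI hN hs h1, h2, zero_mul, add_zero]
  exact {
    AU := s1
    AI := s2
    UI := s3
    unit := s4
    k0 := s5
    klo := s6
    khi := s7
    eU := s8
    eA := s9
    eI := s10
    eS := s11
    eS1 := s12
    h1 := fun x hx => row_h1 (π' := π') (v' := v') hG hd hnum.ze1 hS.ka (hU ▸ hx)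
    h2 := fun x hx => by
      rw [hU] at hx
      by_cases hxc : ANP.dT x c ≤ 2 * s
      · exact row_h2 hn hG hI hN hs hF hx hxc hnum.σ0 hnum.σ1 hnum.σ2 (het x) (het0 x) hS.ka
          hnum.tt0 hnum.h2 (hfar.tA x hx hxc)
      · exact hfar.h2 x hx hxc
    h3 := fun K hK x hx => by
      rw [hU] at hx
      rw [tolAt_rel_a fun y hy => ⟨(hWA y hy).1, hW0 y hy K hK⟩]
      simp only [rel_nr, rel_b]
      have ez : ∑ y ∈ M'.nr, ‖rsc (H0T d L) M'.b x y‖ ^ 2 *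
          (tolAt P Sf n (F.add P n s {c}) π' v' (M'.rel W)).z K y =
          ∑ y ∈ M'.nr, ‖rsc (H0T d L) M'.b x y‖ ^ 2 *
            (tolAt P Sf n (F.add P n s {c}) π' v' M').z K y :=
        Finset.sum_congr rfl fun y _ => by
          rw [tolAt_rel_z fun y hy => ⟨(hWA y hy).1, (hWA y hy).2, hW0 y hy K hK⟩]
      rw [ez]
      by_cases hxc : 2 * ANP.dT x c ≤ 3 * s
      · exact row_h3 hn hG hI hN hs hF hS hd hK hx (hfar.tW x hx hxc) (hnum.h3 K hK)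
          (hnum.h3' K hK)
      · exact hfar.h3 K hK x hx (by omega)
    h4l := h4.1
    h4u := h4.2
    h5 := fun x y hx hy => by
      rw [hU] at hx hy
      by_cases hxy : ANP.dT x c ≤ 2 * s ∨ ANP.dT y c ≤ 2 * s
      · exact row_h5 (π' := π') (v' := v') hn hG hI hN hs hF hx hy hxy
          ((norm_nonneg _).trans (hG.h5 x y hx hy)) hnum.near
          (hfar.dec x y hx hy)
      · rw [not_or] at hxy
        exact hfar.h5 x y hx hy hxy.1 hxy.2 }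

end Pool.Agent.AND
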