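import Pool.Agent.ANS.ObsB

/-! # ANS / ObsH: the component of (H3) of the jump engine (helper52)

`F_x = √(|∑ G_xt² a_t|² + ε²) - ∑ |G_xt|² z_t - ε`, `0 ≤ a, z ≤ η`, `a`, `z` martingales in the digit of their own site.
* `jump_le`: one jump of a sum is at most `2 Cu β |G_xw| |P_xw| + 5 Cu² K β² S_xw`.
* `drift_le`: its mean change is `c_w G_xw σ(G_xw) B_w` up to
  `2 β² (g + Cu β) |G_xw| |P_xw| + 7 Cu² K β³ S_xw`.
* `h3_drift`: `∑_w (E F(s^{w→b}) - F(s^{w→none})) ≤ ∑_w β² S_xw F_w⁺ + E_x`.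
* `obs_h3`: the component estimate for `Γ = ∑_κ ρ_κ ∑_x e_x (F⁺_x / t)^(2p)`.
-/

set_option autoImplicit false

open Finset Function

noncomputable section

namespace Pool.Agent.ANS

variable {N A X T : Type} [Fintype N] [DecidableEq N] [Fintype A] [DecidableEq A] [Fintype X]
  [Fintype T] [DecidableEq T]

/-- a weight of (H3) at `s` with its jumps -/
structure WtAt (pr : N → A → ℝ) (i : N → T) (eta : T → ℝ) (be : N → ℝ) (s : N → Option A)
    (Cu : ℝ) (a : (N → Option A) → T → ℝ) (da : N → Option A → ℝ) : Prop where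
  jump : ∀ w b t, a (update s w b) t = a s t + if t = i w then da w b else 0
  a0 : ∀ t, 0 ≤ a s t
  ae : ∀ t, a s t ≤ eta t
  dab : ∀ w b, |da w b| ≤ Cu * be w ^ 2
  dam : ∀ w, ∑ b, pr w b * da w (some b) = da w none

/-- Ward sums and the contraction at `s` -/
structure EtaAt (i : N → T) (r : X → T) (M : Matrix T T ℂ) (eta : T → ℝ) (be : N → ℝ) (K : ℝ) :
    Prop where
  eta0 : ∀ t, 0 ≤ eta t
  wardX : ∀ x, ∑ t, eta t * ‖M (r x) t‖ ^ 2 ≤ K
  wardN : ∀ w, be w ≠ 0 → ∑ t, eta t * ‖M (i w) t‖ ^ 2 ≤ K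
  con : ∀ f : T → ℂ, (∀ t, eta t = 0 → f t = 0) →
    ∑ w, be w ^ 2 * ‖∑ t, f t * M (i w) t‖ ^ 2 ≤ K * ∑ t, ‖f t‖ ^ 2 / eta t

variable {pr : N → A → ℝ} {i : N → T} {r : X → T} {G : (N → Option A) → Matrix T T ℂ}
  {u : N → Option A → ℂ} {s : N → Option A} {e : X → ℝ} {be c g : N → ℝ}
  {Cu b0 K Ke tau Mc Lm : ℝ} {eta : T → ℝ} {a z : (N → Option A) → T → ℝ}
  {da dz : N → Option A → ℝ}

theorem ObsAt.ube (h : ObsAt pr i r G u s e be c g Cu b0 K Ke tau Mc Lm) (w : N) :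
    Cu * be w * K ≤ 1 := by
  have hK0 : 0 ≤ K := by linarith [h.K1]
  have hCu0 : 0 ≤ Cu := by linarith [h.Cu1]
  exact (mul_le_mul_of_nonneg_right (mul_le_mul_of_nonneg_left (h.beb w) hCu0) hK0).trans h.small

theorem WtAt.bs_le {σ : ℂ →+* ℂ} (hσ : Inv2 σ) (hE : EtaAt i r (G s) eta be K)
    (ha : WtAt pr i eta be s Cu a da) (w : N) (hw : be w ≠ 0) :
    ‖bsum σ (G s) (a s) (i w)‖ ≤ K := by
  refine (bsum_norm hσ _ _ ha.a0 _).trans (le_trans (Finset.sum_le_sum fun t _ => ?_) (hE.wardN w hw))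
  exact mul_le_mul_of_nonneg_right (ha.ae t) (sq_nonneg _)

theorem WtAt.ps_le {σ : ℂ →+* ℂ} (hσ : Inv2 σ) (hE : EtaAt i r (G s) eta be K) (hK : 0 ≤ K)
    (ha : WtAt pr i eta be s Cu a da) (x : X) (w : N) (hw : be w ≠ 0) :
    ‖psum σ (G s) (a s) (r x) (i w)‖ ≤ K := by
  have h1 := psum_sq hσ (G s) (a s) ha.a0 (r x) (i w)
  have h2 : ∑ t, a s t * ‖G s (r x) t‖ ^ 2 ≤ K :=
    le_trans (Finset.sum_le_sum fun t _ => mul_le_mul_of_nonneg_right (ha.ae t) (sq_nonneg _))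
      (hE.wardX x)
  have h3 : ∑ t, a s t * ‖G s (i w) t‖ ^ 2 ≤ K :=
    le_trans (Finset.sum_le_sum fun t _ => mul_le_mul_of_nonneg_right (ha.ae t) (sq_nonneg _))
      (hE.wardN w hw)
  have h4 : ‖psum σ (G s) (a s) (r x) (i w)‖ ^ 2 ≤ K ^ 2 := by
    refine h1.trans ?_
    rw [sq]
    exact mul_le_mul h2 h3 (Finset.sum_nonneg fun t _ => mul_nonneg (ha.a0 t) (sq_nonneg _)) hK
  exact le_of_sq_le_sq h4 hK

theorem WtAt.ps_sum {σ : ℂ →+* ℂ} (hσ : Inv2 σ) (hE : EtaAt i r (G s) eta be K) (hK : 0 ≤ K)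
    (ha : WtAt pr i eta be s Cu a da) (x : X) :
    ∑ w, be w ^ 2 * ‖psum σ (G s) (a s) (r x) (i w)‖ ^ 2 ≤ K ^ 2 := by
  have h0 : ∀ t, eta t = 0 → a s t = 0 := fun t ht => le_antisymm ((ha.ae t).trans ht.le) (ha.a0 t)
  have h1 := hE.con (fun t => (a s t : ℂ) * σ (G s (r x) t)) (fun t ht => by
    rw [h0 t ht]
    simp)
  have h2 : ∀ w, ∑ t, (a s t : ℂ) * σ (G s (r x) t) * G s (i w) t =
      psum σ (G s) (a s) (r x) (i w) := by
    intro w
    unfold psum
    refine Finset.sum_congr rfl fun t _ => ?_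
    ring
  simp only [h2] at h1
  refine h1.trans ?_
  rw [sq]
  refine mul_le_mul_of_nonneg_left (le_trans (Finset.sum_le_sum fun t _ => ?_) (hE.wardX x)) hK
  rw [norm_mul, hσ.nrm, Complex.norm_real, Real.norm_of_nonneg (ha.a0 t), mul_pow]
  rcases (hE.eta0 t).eq_or_lt with h3 | h3
  · rw [← h3]
    simp
  · rw [div_le_iff₀ h3]
    have h4 : a s t ^ 2 ≤ eta t ^ 2 := pow_le_pow_left₀ (ha.a0 t) (ha.ae t) 2
    calc a s t ^ 2 * ‖G s (r x) t‖ ^ 2 ≤ eta t ^ 2 * ‖G s (r x) t‖ ^ 2 :=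
          mul_le_mul_of_nonneg_right h4 (sq_nonneg _)
      _ = _ := by ring

/-- the change of a sum -/
def bch (σ : ℂ →+* ℂ) (M : Matrix T T ℂ) (a : T → ℝ) (x w : T) (u : ℂ) (d : ℝ) : ℂ :=
  - (u * M x w * psum σ M a x w) - σ (u * M x w * psum σ M a x w) +
    u * σ u * (M x w * σ (M x w)) * bsum σ M a w +
    (d : ℂ) * ((M x w * σ (M x w)) * ((1 - u * M w w) * σ (1 - u * M w w)))

theorem bs_jump {σ : ℂ →+* ℂ} (hσ : Inv2 σ) (h : ObsAt pr i r G u s e be c g Cu b0 K Ke tau Mc Lm)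
    (ha : WtAt pr i eta be s Cu a da) (x : T) (w : N) (b : Option A) :
    bsum σ (G (update s w b)) (a (update s w b)) x =
      bsum σ (G s) (a s) x + bch σ (G s) (a s) x (i w) (u w b) (da w b) := by
  rw [bsum_jump hσ (G s) (G (update s w b)) (i w) (u w b) (fun x y => h.rep w b x y) (a s)
    (a (update s w b)) (da w b) (ha.jump w b) x]
  unfold bch
  ring

theorem q_le {v : ℂ} {σ : ℂ →+* ℂ} (hσ : Inv2 σ) (hv : ‖v‖ ≤ 1) :
    ‖(1 - v) * σ (1 - v)‖ ≤ 4 := by
  rw [norm_mul, hσ.nrm]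
  have h1 : ‖1 - v‖ ≤ 2 := by
    refine (norm_sub_le _ _).trans ?_
    rw [norm_one]
    linarith
  nlinarith [norm_nonneg (1 - v)]

theorem q_sub {v : ℂ} {σ : ℂ →+* ℂ} (hσ : Inv2 σ) (hv : ‖v‖ ≤ 1) :
    ‖(1 - v) * σ (1 - v) - 1‖ ≤ 3 * ‖v‖ := by
  have h1 : (1 - v) * σ (1 - v) - 1 = -v - σ v + v * σ v := by
    rw [map_sub, map_one]
    ring
  rw [h1]
  refine (norm_add_le _ _).trans ?_
  have h2 : ‖-v - σ v‖ ≤ 2 * ‖v‖ := by
    refine (norm_sub_le _ _).trans ?_
    rw [norm_neg, hσ.nrm]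
    linarith
  have h3 : ‖v * σ v‖ ≤ ‖v‖ := by
    rw [norm_mul, hσ.nrm]
    nlinarith [norm_nonneg v]
  linarith

theorem jump_le {σ : ℂ →+* ℂ} (hσ : Inv2 σ) (h : ObsAt pr i r G u s e be c g Cu b0 K Ke tau Mc Lm)
    (hE : EtaAt i r (G s) eta be K) (ha : WtAt pr i eta be s Cu a da) (x : T) (w : N)
    (b : Option A) :
    ‖bch σ (G s) (a s) x (i w) (u w b) (da w b)‖ ≤
      2 * Cu * be w * ‖G s x (i w)‖ * ‖psum σ (G s) (a s) x (i w)‖ +
        5 * Cu ^ 2 * K * be w ^ 2 * ‖G s x (i w)‖ ^ 2 := by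
  have hK1 := h.K1
  have hCu1 := h.Cu1
  have hK0 : 0 ≤ K := by linarith
  have hCu0 : 0 ≤ Cu := by linarith
  have hub := h.ub w b
  have hda := ha.dab w b
  by_cases h0 : be w = 0
  · have h1 : u w b = 0 := by
      rw [h0, mul_zero] at hub
      exact norm_le_zero_iff.1 hub
    have h2 : da w b = 0 := by
      rw [h0] at hda
      simpa using hda
    rw [h1, h2, h0]
    simp [bch]
  · have hb0 : 0 ≤ be w := h.be0 w
    have hv : ‖u w b * G s (i w) (i w)‖ ≤ 1 := by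
      rw [norm_mul]
      exact (mul_le_mul hub (h.entw w h0) (norm_nonneg _) (by positivity)).trans (h.ube w)
    have hB := ha.bs_le hσ hE w h0
    set S := ‖G s x (i w)‖ ^ 2 with hS
    have e1 : ‖u w b * G s x (i w) * psum σ (G s) (a s) x (i w)‖ ≤
        Cu * be w * ‖G s x (i w)‖ * ‖psum σ (G s) (a s) x (i w)‖ := by
      rw [norm_mul, norm_mul]
      gcongr
    have e2 : ‖u w b * σ (u w b) * (G s x (i w) * σ (G s x (i w))) *
        bsum σ (G s) (a s) (i w)‖ ≤ (Cu * be w) ^ 2 * S * K := by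
      rw [norm_mul, norm_mul, norm_mul, norm_mul, hσ.nrm, hσ.nrm, ← sq, ← sq]
      gcongr
    have e3 : ‖(da w b : ℂ) * ((G s x (i w) * σ (G s x (i w))) *
        ((1 - u w b * G s (i w) (i w)) * σ (1 - u w b * G s (i w) (i w))))‖ ≤
        Cu * be w ^ 2 * (S * 4) := by
      rw [norm_mul, norm_mul, norm_mul (G s x (i w)), hσ.nrm, ← sq, Complex.norm_real,
        Real.norm_eq_abs]
      have := q_le hσ hv
      gcongr
    have e4 : Cu * be w ^ 2 * (S * 4) ≤ 4 * Cu ^ 2 * K * be w ^ 2 * S := by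
      have : Cu ≤ Cu ^ 2 * K := by
        calc Cu = Cu * 1 := (mul_one _).symm
          _ ≤ Cu * (Cu * K) := mul_le_mul_of_nonneg_left (by nlinarith) hCu0
          _ = _ := by ring
      have hS0 : 0 ≤ be w ^ 2 * S := by positivity
      nlinarith [mul_le_mul_of_nonneg_right this hS0]
    unfold bch
    refine (norm_add_le _ _).trans ((add_le_add ((norm_add_le _ _).trans (add_le_add
      (norm_sub_le _ _) e2)) e3).trans ?_)
    rw [norm_neg, hσ.nrm]
    nlinarith [e1, e4]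

theorem drift_le {σ : ℂ →+* ℂ} (hσ : Inv2 σ) (h : ObsAt pr i r G u s e be c g Cu b0 K Ke tau Mc Lm)
    (hE : EtaAt i r (G s) eta be K) (ha : WtAt pr i eta be s Cu a da) (x : T) (w : N)
    (hm : ‖∑ b, (pr w b : ℂ) * (u w (some b) * σ (u w (some b))) - u w none * σ (u w none) -
      (c w : ℂ)‖ ≤ Cu * be w ^ 3) :
    ‖∑ b, (pr w b : ℂ) * bch σ (G s) (a s) x (i w) (u w (some b)) (da w (some b)) -
        bch σ (G s) (a s) x (i w) (u w none) (da w none) -
        (c w : ℂ) * (G s x (i w) * σ (G s x (i w))) * bsum σ (G s) (a s) (i w)‖ ≤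
      2 * be w ^ 2 * (g w + Cu * be w) * ‖G s x (i w)‖ * ‖psum σ (G s) (a s) x (i w)‖ +
        7 * Cu ^ 2 * K * be w ^ 3 * ‖G s x (i w)‖ ^ 2 := by
  have hK1 := h.K1
  have hCu1 := h.Cu1
  have hK0 : 0 ≤ K := by linarith
  have hCu0 : 0 ≤ Cu := by linarith
  have hp1 : (∑ b, (pr w b : ℂ)) = 1 := by
    rw [← Complex.ofReal_sum, h.pr1 w, Complex.ofReal_one]
  have hb0 : 0 ≤ be w := h.be0 w
  by_cases h0 : be w = 0
  · have h1 : ∀ b, u w b = 0 := by
      intro b
      have hub := h.ub w b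
      rw [h0, mul_zero] at hub
      exact norm_le_zero_iff.1 hub
    have h2 : ∀ b, da w b = 0 := by
      intro b
      have hda := ha.dab w b
      rw [h0] at hda
      simpa using hda
    have h3 : c w = 0 := by
      have e1 := h.cb w
      rw [h0] at e1
      exact le_antisymm (by simpa using e1) (h.c0 w)
    simp [h1, h2, h3, bch, h0]
  · have hv : ∀ b, ‖u w b * G s (i w) (i w)‖ ≤ Cu * be w * K := by
      intro b
      rw [norm_mul]
      exact mul_le_mul (h.ub w b) (h.entw w h0) (norm_nonneg _) (by positivity)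
    have hB := ha.bs_le hσ hE w h0
    set S := ‖G s x (i w)‖ ^ 2 with hS
    set P := psum σ (G s) (a s) x (i w) with hP
    set q : Option A → ℂ := fun b =>
      (1 - u w b * G s (i w) (i w)) * σ (1 - u w b * G s (i w) (i w)) - 1 with hq
    have hqb : ∀ b, ‖q b‖ ≤ 3 * (Cu * be w * K) := fun b =>
      (q_sub hσ ((hv b).trans (h.ube w))).trans (mul_le_mul_of_nonneg_left (hv b) (by norm_num))
    set mu := ∑ b, (pr w b : ℂ) * u w (some b) - u w none with hmu
    set m2 := ∑ b, (pr w b : ℂ) * (u w (some b) * σ (u w (some b))) - u w none * σ (u w none) -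
      (c w : ℂ) with hm2
    have hdam : (∑ b, (pr w b : ℂ) * (da w (some b) : ℂ)) = (da w none : ℂ) := by
      rw [← ha.dam w]
      push_cast
      rfl
    have key : ∑ b, (pr w b : ℂ) * bch σ (G s) (a s) x (i w) (u w (some b)) (da w (some b)) -
        bch σ (G s) (a s) x (i w) (u w none) (da w none) -
        (c w : ℂ) * (G s x (i w) * σ (G s x (i w))) * bsum σ (G s) (a s) (i w) =
        - (mu * G s x (i w) * P) - σ (mu * G s x (i w) * P) +
        m2 * (G s x (i w) * σ (G s x (i w))) * bsum σ (G s) (a s) (i w) +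
        (G s x (i w) * σ (G s x (i w))) * (∑ b, (pr w b : ℂ) * ((da w (some b) : ℂ) * q (some b)) -
          (da w none : ℂ) * q none) := by
      have e1 : ∑ b, (pr w b : ℂ) * bch σ (G s) (a s) x (i w) (u w (some b)) (da w (some b)) =
          - ((∑ b, (pr w b : ℂ) * u w (some b)) * G s x (i w) * P) -
          σ ((∑ b, (pr w b : ℂ) * u w (some b)) * G s x (i w) * P) +
          (∑ b, (pr w b : ℂ) * (u w (some b) * σ (u w (some b)))) *
            (G s x (i w) * σ (G s x (i w))) * bsum σ (G s) (a s) (i w) +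
          (G s x (i w) * σ (G s x (i w))) * (∑ b, (pr w b : ℂ) *
            ((da w (some b) : ℂ) * q (some b)) + ∑ b, (pr w b : ℂ) * (da w (some b) : ℂ)) := by
        rw [map_mul, map_mul, map_sum]
        rw [← Finset.sum_add_distrib]
        simp only [Finset.sum_mul, Finset.mul_sum]
        rw [← Finset.sum_neg_distrib, ← Finset.sum_sub_distrib, ← Finset.sum_add_distrib,
          ← Finset.sum_add_distrib]
        refine Finset.sum_congr rfl fun b _ => ?_
        unfold bch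
        simp only [hq, map_mul, hσ.re]
        ring
      rw [e1, hdam]
      unfold bch
      simp only [hmu, hm2, hq, map_mul, map_sub]
      ring
    have f1 : ‖mu * G s x (i w) * P‖ ≤ be w ^ 2 * (g w + Cu * be w) * ‖G s x (i w)‖ * ‖P‖ := by
      rw [norm_mul, norm_mul]
      have := h.mu w
      gcongr
    have f2 : ‖m2 * (G s x (i w) * σ (G s x (i w))) * bsum σ (G s) (a s) (i w)‖ ≤
        Cu * be w ^ 3 * S * K := by
      rw [norm_mul, norm_mul, norm_mul, hσ.nrm, ← sq]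
      gcongr
    have f3 : ‖∑ b, (pr w b : ℂ) * ((da w (some b) : ℂ) * q (some b)) - (da w none : ℂ) * q none‖ ≤
        2 * (Cu * be w ^ 2 * (3 * (Cu * be w * K))) := by
      have g1 : ∀ b, ‖(da w b : ℂ) * q b‖ ≤ Cu * be w ^ 2 * (3 * (Cu * be w * K)) := by
        intro b
        rw [norm_mul, Complex.norm_real, Real.norm_eq_abs]
        exact mul_le_mul (ha.dab w b) (hqb b) (norm_nonneg _) (by positivity)
      have g2 : ‖∑ b, (pr w b : ℂ) * ((da w (some b) : ℂ) * q (some b))‖ ≤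
          Cu * be w ^ 2 * (3 * (Cu * be w * K)) := by
        refine (norm_sum_le _ _).trans ?_
        calc ∑ b, ‖(pr w b : ℂ) * ((da w (some b) : ℂ) * q (some b))‖ ≤
              ∑ b, pr w b * (Cu * be w ^ 2 * (3 * (Cu * be w * K))) := by
              refine Finset.sum_le_sum fun b _ => ?_
              rw [norm_mul, Complex.norm_real, Real.norm_of_nonneg (h.pr0 w b)]
              exact mul_le_mul_of_nonneg_left (g1 (some b)) (h.pr0 w b)
          _ = _ := by rw [← Finset.sum_mul, h.pr1 w, one_mul]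
      refine (norm_sub_le _ _).trans ?_
      linarith [g1 none]
    have f4 : ‖(G s x (i w) * σ (G s x (i w))) * (∑ b, (pr w b : ℂ) *
        ((da w (some b) : ℂ) * q (some b)) - (da w none : ℂ) * q none)‖ ≤
        S * (2 * (Cu * be w ^ 2 * (3 * (Cu * be w * K)))) := by
      rw [norm_mul, norm_mul, hσ.nrm, ← sq]
      gcongr
    rw [key]
    refine (norm_add_le _ _).trans ((add_le_add ((norm_add_le _ _).trans (add_le_add
      (norm_sub_le _ _) f2)) f4).trans ?_)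
    rw [norm_neg, hσ.nrm]
    have e4 : Cu * be w ^ 3 * S * K ≤ Cu ^ 2 * K * be w ^ 3 * S := by
      have : Cu ≤ Cu ^ 2 := by nlinarith
      have hS0 : 0 ≤ be w ^ 3 * S * K := by positivity
      nlinarith [mul_le_mul_of_nonneg_right this hS0]
    nlinarith [f1, e4]

end Pool.Agent.ANS
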