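import Pool.Agent.AND.SfLaw
import Pool.Agent.ANS.ObsH
import Pool.Agent.ANS.TopDefs

/-! # ANS WtLaw: the weights of (H3) during one step, general law

`rvL ψ L n N lev v s y` = value of the site function `ψ` at the site `y` in the reading state `s` (level `n`, class of `v y`, if `y ∈ N`
is unread; level `n + 1` at the value which has been read; level `lev y` off `N`).
* `wtLaw`: `c y * rvL .. y + c' y` satisfies `ANS.WtAt` (jumps at the own site only, martingale, jumps `≤ Cu be²`).
* `wt_a`, `wt_z`: the pair `K` of the schedule `tolAt`, divided by `U`.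
* `wt_nil`, `wt_full`: values at the start and at the end of the step.
-/

set_option autoImplicit false
set_option linter.unusedSectionVars false

open Matrix Finset Function

noncomputable section

namespace Pool.Agent.AND

open Pool.Agent.Kin Pool.Agent.APS Pool.Agent.ANB

variable {X : Type} [Fintype X] [DecidableEq X] {T : Type} [Fintype T] [DecidableEq T]

/-- value of the site function `ψ` at `w ∈ N` in the state `b` -/
def rv1 (L : Law X) (ψ : ℕ → X → ℝ) (n : ℕ) (a0 : X) (b : Option X) : ℝ :=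
  match b with
  | none => ψ n a0
  | some a => if a ∈ cl (L.q n) a0 then ψ (n + 1) a else ψ n a0

/-- value of the site function `ψ` in the reading state `s` -/
def rvL (L : Law X) (ψ : ℕ → X → ℝ) (n : ℕ) (N : Finset T) (lev : T → ℕ) (v : T → X)
    (s : T → Option X) (y : T) : ℝ :=
  if y ∈ N then rv1 L ψ n (v y) (s y) else ψ (lev y) (v y)

variable {L : Law X} {ψ : ℕ → X → ℝ} {n : ℕ} {N : Finset T} {lev : T → ℕ} {v : T → X} {lam : ℝ}

theorem rv1_nonneg (h0 : ∀ m a, 0 ≤ ψ m a) (a0 : X) (b : Option X) : 0 ≤ rv1 L ψ n a0 b := by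
  unfold rv1
  match b with
  | none => exact h0 _ _
  | some a =>
    simp only
    split_ifs
    · exact h0 _ _
    · exact h0 _ _

theorem rv1_le {B : ℝ} (h0 : ∀ m a, ψ m a ≤ B) (a0 : X) (b : Option X) :
    rv1 L ψ n a0 b ≤ B := by
  unfold rv1
  match b with
  | none => exact h0 _ _
  | some a =>
    simp only
    split_ifs
    · exact h0 _ _
    · exact h0 _ _

theorem rvL_nonneg (h0 : ∀ m a, 0 ≤ ψ m a) (s : T → Option X) (y : T) :
    0 ≤ rvL L ψ n N lev v s y := by
  unfold rvL
  split_ifs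
  · exact rv1_nonneg h0 _ _
  · exact h0 _ _

theorem rvL_le {B : ℝ} (h0 : ∀ m a, ψ m a ≤ B) (s : T → Option X) (y : T) :
    rvL L ψ n N lev v s y ≤ B := by
  unfold rvL
  split_ifs
  · exact rv1_le h0 _ _
  · exact h0 _ _

theorem rvL_update (s : T → Option X) (w : T) (b : Option X) (y : T) :
    rvL L ψ n N lev v (update s w b) y = rvL L ψ n N lev v s y +
      if y = w then (if w ∈ N then rv1 L ψ n (v w) b - rv1 L ψ n (v w) (s w) else 0) else 0 := by
  unfold rvL
  by_cases h : y = w
  · subst h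
    rw [if_pos rfl, update_self]
    split_ifs <;> ring
  · rw [if_neg h, update_of_ne h, add_zero]

/-- the jump of `rv1` has mean zero -/
theorem rv1_mart (hm : ∀ a0, ∑ a, claw L n a0 a * ψ (n + 1) a = ψ n a0) (a0 : X)
    (r : ℝ) : ∑ b, claw L n a0 b * (rv1 L ψ n a0 (some b) - r) = rv1 L ψ n a0 none - r := by
  have h1 : ∀ b, claw L n a0 b * (rv1 L ψ n a0 (some b) - r) =
      claw L n a0 b * ψ (n + 1) b - claw L n a0 b * r := by
    intro b
    change claw L n a0 b * ((if b ∈ cl (L.q n) a0 then ψ (n + 1) b else ψ n a0) - r) = _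
    by_cases hb : b ∈ cl (L.q n) a0
    · rw [if_pos hb]
      ring
    · rw [if_neg hb]
      unfold claw
      rw [if_neg hb]
      ring
  simp only [h1]
  rw [Finset.sum_sub_distrib, hm, ← Finset.sum_mul, claw_one, one_mul]
  rfl

/-- WEIGHTS OF THE STEP -/
theorem wtLaw {eta be : T → ℝ} {s : T → Option X} {Cu B : ℝ} (c c' : T → ℝ)
    (hm : ∀ a0, ∑ a, claw L n a0 a * ψ (n + 1) a = ψ n a0)
    (h0 : ∀ m a, 0 ≤ ψ m a) (hB : ∀ m a, ψ m a ≤ B)
    (hc : ∀ y, 0 ≤ c y) (hc' : ∀ y, 0 ≤ c' y) (hCu : 0 ≤ Cu)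
    (hcB : ∀ w ∈ N, c w * B ≤ Cu * be w ^ 2)
    (hae : ∀ y, c y * rvL L ψ n N lev v s y + c' y ≤ eta y) :
    ANS.WtAt (digOf L lam n N v).P id eta be s Cu
      (fun s y => c y * rvL L ψ n N lev v s y + c' y)
      (fun w b => c w * if w ∈ N then rv1 L ψ n (v w) b - rv1 L ψ n (v w) (s w) else 0) where
  jump w b t := by
    change c t * rvL L ψ n N lev v (update s w b) t + c' t =
      c t * rvL L ψ n N lev v s t + c' t + if t = id w then _ else 0
    rw [rvL_update]
    simp only [id]
    by_cases h : t = w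
    · subst h
      rw [if_pos rfl, if_pos rfl]
      ring
    · rw [if_neg h, if_neg h]
      ring
  a0 t := add_nonneg (mul_nonneg (hc t) (rvL_nonneg h0 s t)) (hc' t)
  ae := hae
  dab w b := by
    by_cases hw : w ∈ N
    · rw [if_pos hw, abs_mul, abs_of_nonneg (hc w)]
      refine le_trans (mul_le_mul_of_nonneg_left ?_ (hc w)) (hcB w hw)
      have e1 := rv1_nonneg (L := L) (n := n) h0 (v w) b
      have e2 := rv1_le (L := L) (n := n) hB (v w) b
      have e3 := rv1_nonneg (L := L) (n := n) h0 (v w) (s w)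
      have e4 := rv1_le (L := L) (n := n) hB (v w) (s w)
      rw [abs_le]
      constructor <;> linarith
    · rw [if_neg hw, mul_zero, abs_zero]
      positivity
  dam w := by
    by_cases hw : w ∈ N
    · simp only [if_pos hw]
      have h1 := rv1_mart hm (v w) (rv1 L ψ n (v w) (s w))
      have h2 : ∀ b, (digOf L lam n N v).P w b = claw L n (v w) b := by
        intro b
        change (if w ∈ N then claw L n (v w) b else _) = _
        rw [if_pos hw]
      calc ∑ b, (digOf L lam n N v).P w b *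
            (c w * (rv1 L ψ n (v w) (some b) - rv1 L ψ n (v w) (s w)))
          = c w * ∑ b, claw L n (v w) b *
              (rv1 L ψ n (v w) (some b) - rv1 L ψ n (v w) (s w)) := by
            rw [Finset.mul_sum]
            refine Finset.sum_congr rfl fun b _ => ?_
            rw [h2]
            ring
        _ = _ := by rw [h1]
    · simp only [if_neg hw, mul_zero, Finset.sum_const_zero]

/-- start of the step -/
theorem rvL_nil (hlev : ∀ y ∈ N, lev y = n) (y : T) :
    rvL L ψ n N lev v ANS.nil y = ψ (lev y) (v y) := by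
  unfold rvL
  split_ifs with h
  · rw [hlev y h]
    rfl
  · rfl

/-- end of the step: `v'`, `lev'` = configuration and levels after the reading of `ω` -/
theorem rvL_full (ω : T → X) (hω : ∀ y ∈ N, L.q n (ω y) = L.q n (v y)) (y : T) :
    rvL L ψ n N lev v (ANS.full ω) y =
      ψ (if y ∈ N then n + 1 else lev y) (N.piecewise ω v y) := by
  unfold rvL
  by_cases h : y ∈ N
  · rw [if_pos h, if_pos h, Finset.piecewise_eq_of_mem _ _ _ h]
    change (if ω y ∈ cl (L.q n) (v y) then ψ (n + 1) (ω y) else ψ n (v y)) = _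
    rw [if_pos (mem_cl.2 (hω y h))]
  · rw [if_neg h, if_neg h, Finset.piecewise_eq_of_notMem _ _ _ h]

/-- sites with a real absorption: comparison of two site functions in the same state -/
theorem rvL_cmp {ψ' : ℕ → X → ℝ} {U : ℝ} (h : ∀ m, m ≤ n + 1 → ∀ a, ψ m a ≤ U * ψ' m a)
    (hlev : ∀ y, y ∉ N → lev y ≤ n + 1) (s : T → Option X) (y : T)
    (hy : y ∈ N ∨ lev y ≤ n + 1) :
    rvL L ψ n N lev v s y ≤ U * rvL L ψ' n N lev v s y := by
  unfold rvL rv1
  by_cases hN : y ∈ N
  · rw [if_pos hN, if_pos hN]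
    cases s y with
    | none => exact h n (by omega) _
    | some a =>
      simp only
      split_ifs
      · exact h (n + 1) le_rfl _
      · exact h n (by omega) _
  · rw [if_neg hN, if_neg hN]
    exact h _ (hlev y hN) _

section step

variable {d Lt : ℕ} [NeZero Lt] {E eta : ℝ} {nE : ℕ}

/-- the normalisation of the pair `K` at the level `n` -/
def UK (L : Law X) (lam : ℝ) (n K : ℕ) : ℝ :=
  kn L lam K / ((L.ep / (12 * L.D)) ^ 2 * kn L lam (n + 1))

theorem UK_pos (hlam : 0 < lam) (K : ℕ) : 0 < UK L lam n K := by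
  unfold UK kn
  have := L.ep0
  have := L.D0
  have := L.S0
  positivity

theorem UK_mul (hlam : 0 < lam) (K : ℕ) :
    UK L lam n K * ((L.ep / (12 * L.D)) ^ 2 * kn L lam (n + 1)) = kn L lam K := by
  unfold UK
  refine div_mul_cancel₀ _ ?_
  unfold kn
  have := L.ep0
  have := L.D0
  have := L.S0
  positivity

/-- natural scale is decreasing -/
theorem kn_anti {m m' : ℕ} (h : m ≤ m') : kn L lam m' ≤ kn L lam m := by
  induction m', h using Nat.le_induction with
  | base => exact le_rfl
  | succ k _ ih =>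
    rw [kn_succ]
    have := kn_nonneg L lam k
    linarith

theorem kn_le_kk (hlam : 0 < lam) {m : ℕ} (hm : m ≤ n + 1)
    (hs : 8 * L.D * 2 ^ (n + 1) ≤ L.ep * 2 ^ L.nf) {a : X} (ha : ¬ L.wk m a) :
    (L.ep / (12 * L.D)) ^ 2 * kn L lam (n + 1) ≤ (sysOf L lam E eta).kk m a := by
  have hs' : 8 * L.D * 2 ^ m ≤ L.ep * 2 ^ L.nf := by
    refine le_trans ?_ hs
    have := L.D0
    have h1 : (2 : ℝ) ^ m ≤ 2 ^ (n + 1) := pow_le_pow_right₀ (by norm_num) hm
    nlinarith
  refine le_trans ?_ (kk_low ha hs')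
  exact mul_le_mul_of_nonneg_left (kn_anti hm) (sq_nonneg _)

/-- `phi K m ≤ U_K κ` -/
theorem phi_le_UK (hcL : cL L ≤ 1) (hlam : 0 < lam) {K m : ℕ} (hm : m ≤ n + 1) (hK : n + 1 ≤ K)
    (hs : 8 * L.D * 2 ^ (n + 1) ≤ L.ep * 2 ^ L.nf) (a : X) :
    (SfOf L lam nE).phi K m a ≤ UK L lam n K * (sysOf L lam E eta).kk m a := by
  have hU := (UK_pos (L := L) (n := n) hlam K).le
  by_cases ha : L.wk m a
  · rw [phi_zero (by omega) ha]
    exact mul_nonneg hU (kk_nonneg _ _)
  · refine (phi_le_kn hcL K m a).trans ?_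
    rw [← UK_mul (L := L) (n := n) hlam K]
    exact mul_le_mul_of_nonneg_left (kn_le_kk hlam hm hs ha) hU

/-- `s_K om ≤ U_K κ` -/
theorem om_le_UK (hlam : 0 < lam) {K m : ℕ} (hm : m ≤ n + 1) (hnf : n + 1 ≤ L.nf)
    (hs : 8 * L.D * 2 ^ (n + 1) ≤ L.ep * 2 ^ L.nf) (a : X) :
    kn L lam K * (SfOf L lam nE).om m a ≤ UK L lam n K * (sysOf L lam E eta).kk m a := by
  have hU := (UK_pos (L := L) (n := n) hlam K).le
  by_cases ha : L.wk m a
  · rw [SfOf_om_zero (by omega) ha, mul_zero]
    exact mul_nonneg hU (kk_nonneg _ _)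
  · have h1 : kn L lam K * (SfOf L lam nE).om m a ≤ kn L lam K * 1 :=
      mul_le_mul_of_nonneg_left (SfOf_om_le_one _ _) (kn_nonneg L lam K)
    refine h1.trans ?_
    rw [mul_one, ← UK_mul (L := L) (n := n) hlam K]
    exact mul_le_mul_of_nonneg_left (kn_le_kk hlam hm hs ha) hU

/-- ABSORPTION DURING THE STEP at the active sites -/
theorem stp_eta {M : Med (Tor d Lt)} {N : Finset (Tor d Lt)} {lev : Tor d Lt → ℕ}
    {v : Tor d Lt → X} (hN : ∀ y ∈ N, lev y = n)
    (hA : ∀ y ∈ M.A, M.eta y = eta + M.k y * io M y)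
    (hk : ∀ y ∈ M.A, M.k y = (sysOf L lam E eta).kk (lev y) (v y))
    (s : Tor d Lt → Option X) {y : Tor d Lt} (hy : y ∈ M.A) :
    (M.stp (digOf L lam n N v)).eta s y =
      eta + rvL L (sysOf L lam E eta).kk n N lev v s y * io M y := by
  have e0 : (M.stp (digOf L lam n N v)).eta s y = M.eta y -
      ((M.stp (digOf L lam n N v)).inc y (s y)).im := by
    change -(M.b y + (M.stp (digOf L lam n N v)).inc y (s y)).im = -(M.b y).im - _
    rw [Complex.add_im]
    ring
  rw [e0, hA y hy, hk y hy]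
  unfold rvL rv1
  by_cases hyN : y ∈ N
  · rw [if_pos hyN, hN y hyN]
    cases hs : s y with
    | none =>
      change eta + _ * io M y - (0 : ℂ).im = _
      simp
    | some a =>
      change eta + _ * io M y - (((digOf L lam n N v).xi y a : ℂ) +
        ((digOf L lam n N v).zt y a : ℂ) * rsc (H0T d Lt) M.b y y).im = _
      rw [Complex.add_im, Complex.ofReal_im, zero_add, Complex.im_ofReal_mul]
      change eta + _ * io M y - (digOf L lam n N v).zt y a * io M y = _
      by_cases ha : a ∈ cl (L.q n) (v y)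
      · simp only
        rw [if_pos ha, digOf_kk (E := E) (eta := eta) hyN (mem_cl.1 ha)]
        ring
      · simp only
        rw [if_neg ha]
        have : (digOf L lam n N v).zt y a = 0 := by
          change (if y ∈ N ∧ a ∈ cl (L.q n) (v y) then _ else (0 : ℝ)) = 0
          rw [if_neg fun h => ha h.2]
        rw [this]
        ring
  · rw [if_neg hyN]
    have hz : ((M.stp (digOf L lam n N v)).inc y (s y)).im = 0 := by
      cases hs : s y with
      | none => rfl
      | some a =>
        change (((digOf L lam n N v).xi y a : ℂ) +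
          ((digOf L lam n N v).zt y a : ℂ) * rsc (H0T d Lt) M.b y y).im = 0
        rw [(digOf_off hyN a).1, (digOf_off hyN a).2]
        simp
    rw [hz, sub_zero]

/-- off the sites which are read the absorption does not change -/
theorem stp_eta_off {M : Med (Tor d Lt)} {N : Finset (Tor d Lt)} {v : Tor d Lt → X}
    (s : Tor d Lt → Option X) {y : Tor d Lt} (hy : y ∉ N) :
    (M.stp (digOf L lam n N v)).eta s y = M.eta y := by
  have hz : ((M.stp (digOf L lam n N v)).inc y (s y)).im = 0 := by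
    cases hs : s y with
    | none => rfl
    | some a =>
      change (((digOf L lam n N v).xi y a : ℂ) +
        ((digOf L lam n N v).zt y a : ℂ) * rsc (H0T d Lt) M.b y y).im = 0
      rw [(digOf_off hy a).1, (digOf_off hy a).2]
      simp
  change -(M.b y + (M.stp (digOf L lam n N v)).inc y (s y)).im = -(M.b y).im
  rw [Complex.add_im, hz, add_zero]

/-- HYPOTHESES for the weights of a step at level `n` -/
structure WtHyp (L : Law X) (lam : ℝ) (P : Par) (F : Fld (Tor d Lt)) (n : ℕ)
    (N : Finset (Tor d Lt)) (π : Prof (Tor d Lt)) (v : Tor d Lt → X) (M : Med (Tor d Lt))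
    (C1 cI : ℝ) : Prop where
  lam0 : 0 < lam
  hs : 8 * L.D * 2 ^ (n + 1) ≤ L.ep * 2 ^ L.nf
  hnf : n + 1 ≤ L.nf
  ratio : (L.ep / (12 * L.D)) ^ 2 ≤ 1
  kap : 0 < P.kap (n + 1)
  kn : kn L lam (n + 1) ≤ P.kap (n + 1)
  eta : 0 ≤ P.eta
  Cz : 0 ≤ P.Cz
  cs : 0 ≤ P.cs
  err0 : ∀ y, 0 ≤ F.err y
  be0 : ∀ y, 0 ≤ F.be y
  err1 : ∀ y, P.Cz * F.err y ≤ 1
  be1 : ∀ y, P.Cz * F.be y ≤ 1
  be2 : ∀ y, P.Cz * F.be y * C1 ≤ P.cs
  hA : ∀ y ∈ M.A, M.eta y = P.eta + M.k y * io M y
  hk : ∀ y ∈ M.A, M.k y = lam ^ 2 * L.kp (π.lev y) (v y)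
  AU : Disjoint M.A M.U
  NA : N ⊆ M.A
  Nn : ∀ y ∈ N, π.lev y = n
  lev : ∀ y, y ∉ M.U → π.lev y ≤ n + 1
  ine : ∀ y ∈ M.I, L.wk (π.lev y) (v y)
  io0 : ∀ y, y ∉ M.U → 0 ≤ io M y
  io1 : ∀ y, y ∉ M.U → io M y ≤ C1
  etaU : ∀ y ∈ M.U, M.eta y = 0
  etaI : ∀ y ∈ M.I, M.eta y = P.eta
  etaS : ∀ y, y ∉ M.A → y ∉ M.U → y ∉ M.I → P.cs * P.kap (n + 1) ≤ M.eta y ∧
    cI * (lam ^ 2 * L.kp (π.lev y) (v y)) ≤ M.eta y
  C1cI : C1 ≤ 3 / 2 * cI
  cI0 : 0 ≤ cI

/-- the weight `a_K / (4 U_K)` in the reading state `s` -/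
def wA (L : Law X) (lam : ℝ) (nE n K : ℕ) (N : Finset (Tor d Lt)) (π : Prof (Tor d Lt))
    (v : Tor d Lt → X) (M : Med (Tor d Lt)) (s : Tor d Lt → Option X) (y : Tor d Lt) : ℝ :=
  (if y ∈ M.A then io M y / (4 * UK L lam n K) else 0) *
    rvL L ((SfOf L lam nE).phi K) n N π.lev v s y + 0

/-- the weight `z_K / (4 U_K)` in the reading state `s`, zero at the read sites -/
def wZ (L : Law X) (lam : ℝ) (nE : ℕ) (P : Par) (F : Fld (Tor d Lt)) (n K : ℕ)
    (N : Finset (Tor d Lt)) (π : Prof (Tor d Lt))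
    (v : Tor d Lt → X) (M : Med (Tor d Lt)) (s : Tor d Lt → Option X) (y : Tor d Lt) : ℝ :=
  (if y ∈ M.U then 0 else AND.kn L lam K * P.Cz * F.be y * io M y / (4 * UK L lam n K)) *
    rvL L ((SfOf L lam nE).om) n N π.lev v s y +
  (if y ∈ M.U then 0 else
    ((if y ∈ M.A then 0 else (SfOf L lam nE).phi K (π.lev y) (v y) * io M y) +
      AND.kn L lam K * P.Cz * (F.err y * ((if y ∈ M.A then P.eta else M.eta y) /
        P.kap (n + 1)))) / (4 * UK L lam n K))

variable {P : Par} {F : Fld (Tor d Lt)} {N : Finset (Tor d Lt)} {π : Prof (Tor d Lt)}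
  {v : Tor d Lt → X} {M : Med (Tor d Lt)} {C1 cI : ℝ}

theorem WtHyp.eta_A (h : WtHyp L lam P F n N π v M C1 cI) (s : Tor d Lt → Option X)
    {y : Tor d Lt} (hy : y ∈ M.A) :
    (M.stp (digOf L lam n N v)).eta s y =
      P.eta + rvL L (sysOf L lam 0 0).kk n N π.lev v s y * io M y :=
  stp_eta (E := 0) (eta := P.eta) h.Nn h.hA h.hk s hy

theorem WtHyp.phi_U (h : WtHyp L lam P F n N π v M C1 cI) {K : ℕ} (hK : n + 1 ≤ K)
    (s : Tor d Lt → Option X) {y : Tor d Lt} (hy : y ∉ M.U) :
    rvL L ((SfOf L lam nE).phi K) n N π.lev v s y ≤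
      UK L lam n K * rvL L (sysOf L lam 0 0).kk n N π.lev v s y := by
  unfold rvL rv1
  by_cases hN : y ∈ N
  · rw [if_pos hN, if_pos hN]
    cases s y with
    | none => exact phi_le_UK h.ratio h.lam0 (by omega) hK h.hs _
    | some a =>
      simp only
      split_ifs
      · exact phi_le_UK h.ratio h.lam0 le_rfl hK h.hs _
      · exact phi_le_UK h.ratio h.lam0 (by omega) hK h.hs _
  · rw [if_neg hN, if_neg hN]
    exact phi_le_UK h.ratio h.lam0 (h.lev y hy) hK h.hs _

theorem WtHyp.om_U (h : WtHyp L lam P F n N π v M C1 cI) {K : ℕ}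
    (s : Tor d Lt → Option X) {y : Tor d Lt} (hy : y ∉ M.U) :
    AND.kn L lam K * rvL L ((SfOf L lam nE).om) n N π.lev v s y ≤
      UK L lam n K * rvL L (sysOf L lam 0 0).kk n N π.lev v s y := by
  unfold rvL rv1
  by_cases hN : y ∈ N
  · rw [if_pos hN, if_pos hN]
    cases s y with
    | none => exact om_le_UK h.lam0 (by omega) h.hnf h.hs _
    | some a =>
      simp only
      split_ifs
      · exact om_le_UK h.lam0 le_rfl h.hnf h.hs _
      · exact om_le_UK h.lam0 (by omega) h.hnf h.hs _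
  · rw [if_neg hN, if_neg hN]
    exact om_le_UK h.lam0 (h.lev y hy) h.hnf h.hs _

theorem WtHyp.kk_nn (s : Tor d Lt → Option X) (y : Tor d Lt) :
    0 ≤ rvL L (sysOf L lam 0 0).kk n N π.lev v s y :=
  rvL_nonneg (fun m a => kk_nonneg m a) s y

/-- `kn K / U_K ≤ kn n` -/
theorem WtHyp.kn_div (h : WtHyp L lam P F n N π v M C1 cI) (K : ℕ) :
    AND.kn L lam K ≤ UK L lam n K * AND.kn L lam n := by
  have hU := (UK_pos (L := L) (n := n) h.lam0 K).le
  rw [← UK_mul (L := L) (n := n) h.lam0 K]
  refine mul_le_mul_of_nonneg_left ?_ hU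
  have h1 : AND.kn L lam (n + 1) ≤ AND.kn L lam n := kn_anti (Nat.le_succ n)
  have h2 := kn_nonneg L lam (n + 1)
  have h3 := h.ratio
  nlinarith

theorem wt_a (h : WtHyp L lam P F n N π v M C1 cI) {K : ℕ} (hK : n + 1 ≤ K) {Cu : ℝ}
    (hCu : C1 ≤ 4 * Cu) (hCu0 : 0 ≤ Cu) (s : Tor d Lt → Option X) :
    ANS.WtAt (digOf L lam n N v).P id ((M.stp (digOf L lam n N v)).eta s) (beOf L lam n N) s Cu
      (wA L lam nE n K N π v M)
      (fun w b => (if w ∈ M.A then io M w / (4 * UK L lam n K) else 0) *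
        if w ∈ N then rv1 L ((SfOf L lam nE).phi K) n (v w) b -
          rv1 L ((SfOf L lam nE).phi K) n (v w) (s w) else 0) := by
  have hU := UK_pos (L := L) (n := n) h.lam0 K
  have hAU : ∀ y ∈ M.A, y ∉ M.U := fun y h1 h2 => Finset.disjoint_left.1 h.AU h1 h2
  refine wtLaw (B := AND.kn L lam K) _ (fun _ => 0) (phi_mart K n) (fun m a => SfOf_pos.phi K m a)
    (fun m a => phi_le_kn h.ratio K m a) (fun y => ?_) (fun y => le_rfl) hCu0 (fun w hw => ?_)
    (fun y => ?_)
  · split_ifs with hy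
    · exact div_nonneg (h.io0 y (hAU y hy)) (by positivity)
    · exact le_rfl
  · rw [if_pos (h.NA hw), beOf_sq L lam n N w hw, div_mul_eq_mul_div,
      div_le_iff₀ (by positivity)]
    have h1 := h.io1 w (hAU w (h.NA hw))
    have h0 := h.io0 w (hAU w (h.NA hw))
    have h2 := h.kn_div K
    have h3 := kn_nonneg L lam K
    calc io M w * AND.kn L lam K ≤ 4 * Cu * (UK L lam n K * AND.kn L lam n) :=
          mul_le_mul (h1.trans hCu) h2 h3 (by positivity)
      _ = Cu * AND.kn L lam n * (4 * UK L lam n K) := by ring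
  · rw [add_zero]
    by_cases hy : y ∈ M.A
    · rw [if_pos hy, h.eta_A s hy, div_mul_eq_mul_div, div_le_iff₀ (by positivity)]
      have h1 := h.phi_U (nE := nE) hK s (hAU y hy)
      have h2 := h.io0 y (hAU y hy)
      have h3 := mul_le_mul_of_nonneg_left h1 h2
      have h4 : 0 ≤ rvL L (sysOf L lam 0 0).kk n N π.lev v s y := WtHyp.kk_nn s y
      have h5 := h.eta
      have h6 : 0 ≤ P.eta * UK L lam n K := mul_nonneg h5 hU.le
      have h7 : 0 ≤ io M y * (UK L lam n K * rvL L (sysOf L lam 0 0).kk n N π.lev v s y) :=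
        mul_nonneg h2 (mul_nonneg hU.le h4)
      nlinarith
    · rw [if_neg hy, zero_mul, stp_eta_off s fun h1 => hy (h.NA h1)]
      by_cases hyU : y ∈ M.U
      · rw [h.etaU y hyU]
      · by_cases hyI : y ∈ M.I
        · rw [h.etaI y hyI]; exact h.eta
        · exact (mul_nonneg h.cs h.kap.le).trans (h.etaS y hy hyU hyI).1

theorem wt_z (h : WtHyp L lam P F n N π v M C1 cI) {K : ℕ} (hK : n + 1 ≤ K) {Cu : ℝ}
    (hCu : C1 ≤ 4 * Cu) (hCu0 : 0 ≤ Cu) (s : Tor d Lt → Option X) :
    ANS.WtAt (digOf L lam n N v).P id ((M.stp (digOf L lam n N v)).eta s) (beOf L lam n N) s Cu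
      (wZ L lam nE P F n K N π v M)
      (fun w b => (if w ∈ M.U then 0 else AND.kn L lam K * P.Cz * F.be w * io M w /
          (4 * UK L lam n K)) *
        if w ∈ N then rv1 L ((SfOf L lam nE).om) n (v w) b -
          rv1 L ((SfOf L lam nE).om) n (v w) (s w) else 0) := by
  have hU := UK_pos (L := L) (n := n) h.lam0 K
  have hAU : ∀ y ∈ M.A, y ∉ M.U := fun y h1 h2 => Finset.disjoint_left.1 h.AU h1 h2
  have hkn0 := kn_nonneg L lam K
  have hCz := h.Cz
  have hkap := h.kap
  have hUmul := UK_mul (L := L) (n := n) h.lam0 K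
  have hkn1 := kn_nonneg L lam (n + 1)
  -- the error coefficient
  have herr : ∀ (y : Tor d Lt) (x : ℝ), 0 ≤ x →
      AND.kn L lam K * P.Cz * (F.err y * (x / P.kap (n + 1))) ≤ UK L lam n K * x := by
    intro y x hx
    have e1 : AND.kn L lam K * P.Cz * (F.err y * (x / P.kap (n + 1))) =
        UK L lam n K * x * ((L.ep / (12 * L.D)) ^ 2 * (AND.kn L lam (n + 1) / P.kap (n + 1)) *
          (P.Cz * F.err y)) := by
      rw [← hUmul]
      ring
    rw [e1]
    have e2 : AND.kn L lam (n + 1) / P.kap (n + 1) ≤ 1 := by rw [div_le_one hkap]; exact h.kn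
    have e3 : 0 ≤ AND.kn L lam (n + 1) / P.kap (n + 1) := div_nonneg hkn1 hkap.le
    have e4 : (L.ep / (12 * L.D)) ^ 2 * (AND.kn L lam (n + 1) / P.kap (n + 1)) ≤ 1 * 1 :=
      mul_le_mul h.ratio e2 e3 zero_le_one
    have e5 : (L.ep / (12 * L.D)) ^ 2 * (AND.kn L lam (n + 1) / P.kap (n + 1)) *
        (P.Cz * F.err y) ≤ 1 * 1 * 1 :=
      mul_le_mul e4 (h.err1 y) (mul_nonneg hCz (h.err0 y)) (by norm_num)
    have e6 : 0 ≤ UK L lam n K * x := mul_nonneg hU.le hx
    nlinarith
  refine wtLaw (B := 1) _ _ (om_mart n) (fun m a => SfOf_om_nonneg m a)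
    (fun m a => SfOf_om_le_one m a) (fun y => ?_) (fun y => ?_) hCu0 (fun w hw => ?_)
    (fun y => ?_)
  · split_ifs with hy
    · exact le_rfl
    · have := h.io0 y hy
      have := h.be0 y
      positivity
  · split_ifs with hy hyA
    · exact le_rfl
    · have := h.err0 y
      have := h.eta
      positivity
    · have h1 := h.io0 y hy
      have h2 := h.err0 y
      have h3 : 0 ≤ (SfOf L lam nE).phi K (π.lev y) (v y) := SfOf_pos.phi _ _ _
      have h4 : 0 ≤ M.eta y := by
        by_cases hyI : y ∈ M.I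
        · rw [h.etaI y hyI]; exact h.eta
        · exact (mul_nonneg h.cs h.kap.le).trans (h.etaS y hyA hy hyI).1
      positivity
  · have hwA := h.NA hw
    rw [if_neg (hAU w hwA), beOf_sq L lam n N w hw, mul_one, div_le_iff₀ (by positivity)]
    have h1 := h.io1 w (hAU w hwA)
    have h0 := h.io0 w (hAU w hwA)
    have h2 := h.kn_div K
    have h3 := h.be1 w
    have h4 : 0 ≤ P.Cz * F.be w := mul_nonneg hCz (h.be0 w)
    calc AND.kn L lam K * P.Cz * F.be w * io M w
        = AND.kn L lam K * (P.Cz * F.be w) * io M w := by ring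
      _ ≤ UK L lam n K * AND.kn L lam n * 1 * (4 * Cu) := by
          refine mul_le_mul (mul_le_mul h2 h3 h4 ?_) (h1.trans hCu) h0 ?_
          · exact mul_nonneg hU.le (kn_nonneg L lam n)
          · have := kn_nonneg L lam n
            positivity
      _ = Cu * AND.kn L lam n * (4 * UK L lam n K) := by ring
  · by_cases hyU : y ∈ M.U
    · rw [if_pos hyU, if_pos hyU, zero_mul, zero_add,
        stp_eta_off s fun h1 => hAU y (h.NA h1) hyU, h.etaU y hyU]
    · rw [if_neg hyU, if_neg hyU, div_mul_eq_mul_div, ← add_div, div_le_iff₀ (by positivity)]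
      have hio := h.io0 y hyU
      have hio1 := h.io1 y hyU
      have hbe := mul_nonneg hCz (h.be0 y)
      have hom := h.om_U (nE := nE) (K := K) s hyU
      have hom0 : 0 ≤ rvL L ((SfOf L lam nE).om) n N π.lev v s y :=
        rvL_nonneg (fun m a => SfOf_om_nonneg m a) s y
      have hom1 : rvL L ((SfOf L lam nE).om) n N π.lev v s y ≤ 1 :=
        rvL_le (fun m a => SfOf_om_le_one m a) s y
      have hkk := WtHyp.kk_nn (L := L) (lam := lam) (n := n) (N := N) (π := π) (v := v) s y
      by_cases hyA : y ∈ M.A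
      · rw [if_pos hyA, if_pos hyA, h.eta_A s hyA, zero_add]
        have e1 := herr y P.eta h.eta
        have e2 : AND.kn L lam K * P.Cz * F.be y * io M y *
            rvL L ((SfOf L lam nE).om) n N π.lev v s y ≤
            1 * (UK L lam n K * rvL L (sysOf L lam 0 0).kk n N π.lev v s y * io M y) := by
          calc AND.kn L lam K * P.Cz * F.be y * io M y *
                rvL L ((SfOf L lam nE).om) n N π.lev v s y
              = (P.Cz * F.be y) * (AND.kn L lam K *
                rvL L ((SfOf L lam nE).om) n N π.lev v s y * io M y) := by ring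
            _ ≤ 1 * (UK L lam n K * rvL L (sysOf L lam 0 0).kk n N π.lev v s y * io M y) := by
                refine mul_le_mul (h.be1 y) (mul_le_mul_of_nonneg_right hom hio) ?_ zero_le_one
                exact mul_nonneg (mul_nonneg hkn0 hom0) hio
        have e3 : 0 ≤ UK L lam n K * P.eta := mul_nonneg hU.le h.eta
        have e4 : 0 ≤ UK L lam n K * rvL L (sysOf L lam 0 0).kk n N π.lev v s y * io M y :=
          mul_nonneg (mul_nonneg hU.le hkk) hio
        nlinarith
      · have hyN : y ∉ N := fun h1 => hyA (h.NA h1)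
        rw [if_neg hyA, if_neg hyA, stp_eta_off s hyN]
        have hrom : rvL L ((SfOf L lam nE).om) n N π.lev v s y =
            (SfOf L lam nE).om (π.lev y) (v y) := by
          unfold rvL; rw [if_neg hyN]
        by_cases hyI : y ∈ M.I
        · have hw := h.ine y hyI
          have hl := h.lev y hyU
          have hη : M.eta y = P.eta := h.etaI y hyI
          rw [hrom, SfOf_om_zero (by have := h.hnf; omega) hw, phi_zero (by omega) hw, mul_zero,
            zero_add, zero_mul, zero_add, hη]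
          have e1 := herr y P.eta h.eta
          have e3 : 0 ≤ UK L lam n K * P.eta := mul_nonneg hU.le h.eta
          nlinarith
        · obtain ⟨hη1, hη2⟩ := h.etaS y hyA hyU hyI
          have hη0 : 0 ≤ M.eta y := (mul_nonneg h.cs h.kap.le).trans hη1
          have e1 := herr y (M.eta y) hη0
          have e2 : (SfOf L lam nE).phi K (π.lev y) (v y) * io M y ≤
              UK L lam n K * (3 / 2 * M.eta y) := by
            have e3 : (SfOf L lam nE).phi K (π.lev y) (v y) ≤
              UK L lam n K * (lam ^ 2 * L.kp (π.lev y) (v y)) :=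
              phi_le_UK (nE := nE) (E := 0) (eta := 0) h.ratio h.lam0 (h.lev y hyU) hK h.hs _
            have e4 : 0 ≤ lam ^ 2 * L.kp (π.lev y) (v y) :=
              mul_nonneg (sq_nonneg _) (L.kp_nonneg _ _)
            calc (SfOf L lam nE).phi K (π.lev y) (v y) * io M y
                ≤ UK L lam n K * (lam ^ 2 * L.kp (π.lev y) (v y)) * (3 / 2 * cI) :=
                  mul_le_mul e3 (hio1.trans h.C1cI) hio (mul_nonneg hU.le e4)
              _ = UK L lam n K * (3 / 2 * (cI * (lam ^ 2 * L.kp (π.lev y) (v y)))) := by ring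
              _ ≤ UK L lam n K * (3 / 2 * M.eta y) :=
                  mul_le_mul_of_nonneg_left (by linarith) hU.le
          have e5 : AND.kn L lam K * P.Cz * F.be y * io M y *
              rvL L ((SfOf L lam nE).om) n N π.lev v s y ≤ UK L lam n K * M.eta y := by
            have e6 : io M y * rvL L ((SfOf L lam nE).om) n N π.lev v s y ≤ C1 * 1 :=
              mul_le_mul hio1 hom1 hom0 (hio.trans hio1)
            have e7 : 0 ≤ AND.kn L lam K * (P.Cz * F.be y) := mul_nonneg hkn0 hbe
            calc AND.kn L lam K * P.Cz * F.be y * io M y *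
                  rvL L ((SfOf L lam nE).om) n N π.lev v s y
                = AND.kn L lam K * (P.Cz * F.be y) *
                  (io M y * rvL L ((SfOf L lam nE).om) n N π.lev v s y) := by ring
              _ ≤ AND.kn L lam K * (P.Cz * F.be y) * (C1 * 1) :=
                  mul_le_mul_of_nonneg_left e6 e7
              _ = AND.kn L lam K * (P.Cz * F.be y * C1) := by ring
              _ ≤ AND.kn L lam K * P.cs := mul_le_mul_of_nonneg_left (h.be2 y) hkn0
              _ = UK L lam n K * ((L.ep / (12 * L.D)) ^ 2 * AND.kn L lam (n + 1) * P.cs) := by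
                  rw [← hUmul]; ring
              _ ≤ UK L lam n K * M.eta y := by
                  refine mul_le_mul_of_nonneg_left ?_ hU.le
                  refine le_trans ?_ hη1
                  have e8 : (L.ep / (12 * L.D)) ^ 2 * AND.kn L lam (n + 1) ≤ P.kap (n + 1) := by
                    have := h.ratio
                    have := h.kn
                    nlinarith
                  have := mul_le_mul_of_nonneg_right e8 h.cs
                  linarith
          have e9 : 0 ≤ UK L lam n K * M.eta y := mul_nonneg hU.le hη0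
          nlinarith

/-- the weights at the start are those of the schedule -/
theorem wA_nil (h : WtHyp L lam P F n N π v M C1 cI) (K : ℕ) (y : Tor d Lt) :
    4 * UK L lam n K * wA L lam nE n K N π v M ANS.nil y =
      (tolAt P (SfOf L lam nE) n F π v M).a K y := by
  have hU := (UK_pos (L := L) (n := n) h.lam0 K).ne'
  change _ = if y ∈ M.A then (SfOf L lam nE).phi K (π.lev y) (v y) * io M y else 0
  unfold wA
  rw [rvL_nil h.Nn]
  split_ifs
  · field_simp
    ring
  · ring

theorem wZ_nil (h : WtHyp L lam P F n N π v M C1 cI) (K : ℕ) {y : Tor d Lt} (hy : y ∉ M.U) :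
    4 * UK L lam n K * wZ L lam nE P F n K N π v M ANS.nil y =
      (tolAt P (SfOf L lam nE) n F π v M).z K y := by
  have hU := (UK_pos (L := L) (n := n) h.lam0 K).ne'
  change _ = (if y ∈ M.A then 0 else (SfOf L lam nE).phi K (π.lev y) (v y) * io M y) +
    AND.kn L lam K * P.Cz * (F.err y * ((if y ∈ M.A then P.eta else M.eta y) /
      P.kap (n + 1)) + F.be y * ((SfOf L lam nE).om (π.lev y) (v y) * io M y))
  unfold wZ
  rw [rvL_nil h.Nn, if_neg hy, if_neg hy]
  field_simp
  ring

/-- the weights at the end of the step: new classes, old `ι`, old absorption at the sites which are not active -/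
theorem wA_full (h : WtHyp L lam P F n N π v M C1 cI) (K : ℕ) (ω : Tor d Lt → X)
    (hω : ∀ y ∈ N, L.q n (ω y) = L.q n (v y)) (y : Tor d Lt) :
    4 * UK L lam n K * wA L lam nE n K N π v M (ANS.full ω) y =
      if y ∈ M.A then (SfOf L lam nE).phi K (if y ∈ N then n + 1 else π.lev y)
        (N.piecewise ω v y) * io M y else 0 := by
  have hU := (UK_pos (L := L) (n := n) h.lam0 K).ne'
  unfold wA
  rw [rvL_full ω hω]
  by_cases hy : y ∈ M.A
  · rw [if_pos hy, if_pos hy]
    field_simp
    ring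
  · rw [if_neg hy, if_neg hy]
    ring

theorem wZ_full (h : WtHyp L lam P F n N π v M C1 cI) (K : ℕ) (ω : Tor d Lt → X)
    (hω : ∀ y ∈ N, L.q n (ω y) = L.q n (v y)) {y : Tor d Lt} (hy : y ∉ M.U) :
    4 * UK L lam n K * wZ L lam nE P F n K N π v M (ANS.full ω) y =
      (if y ∈ M.A then 0 else (SfOf L lam nE).phi K (π.lev y) (v y) * io M y) +
        AND.kn L lam K * P.Cz * (F.err y * ((if y ∈ M.A then P.eta else M.eta y) /
          P.kap (n + 1)) + F.be y * ((SfOf L lam nE).om (if y ∈ N then n + 1 else π.lev y)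
            (N.piecewise ω v y) * io M y)) := by
  have hU := (UK_pos (L := L) (n := n) h.lam0 K).ne'
  unfold wZ
  rw [rvL_full ω hω, if_neg hy, if_neg hy]
  field_simp
  ring

end step

end Pool.Agent.AND
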