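import Pool.Agent.ANS.StepRead
import Pool.Agent.ANS.StepZ
import Pool.Agent.ANS.WtLaw

/-! # ANS StepUse: the weights of (H3) with the new classes, general law (owner helper1)

* `siteIn_law` : `SiteIn` of `StepZ` for the site functions of a law (`Wa K = U_K`, `Wz K = 4 U_K`);
* `use_law`    : the use of (H3) for the re-freezing (pair `K = n + 1`, number `1`). -/

open Matrix Finset

noncomputable section

namespace Pool.Agent.AND

open Pool.Agent.Kin Pool.Agent.APS Pool.Agent.ANB

set_option linter.unusedSectionVars false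

variable {d Lt : ℕ} [NeZero Lt] {X : Type} [Fintype X] [DecidableEq X] {L : Law X}
  {lam E : ℝ} {nE n : ℕ} {f : Fix} {P : Par} {F : Fld (Tor d Lt)} {π : Prof (Tor d Lt)}
  {v : Tor d Lt → X} {M : Med (Tor d Lt)} {A : ANQ.Ana (Tor d Lt) X} {Lc N : Finset (Tor d Lt)}
  {ω : Tor d Lt → X} {C1 cI : ℝ}

/-- the level of the site after the step -/
def lv1 (n : ℕ) (N : Finset (Tor d Lt)) (π : Prof (Tor d Lt)) (y : Tor d Lt) : ℕ :=
  if y ∈ N then n + 1 else π.lev y

omit [Fintype X] [DecidableEq X] in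
theorem raise_lev (hN : N = π.act ∩ Lc) (v' : Tor d Lt → X) (y : Tor d Lt) :
    (ANQ.raise A π (n + 1) Lc v').lev y = lv1 n N π y := by
  unfold lv1
  rw [hN]
  rfl

/-- the level of the variance after the reading, also at the weak outcomes -/
theorem kf_law (hM : IsMed (H0T d Lt) (sysOf L lam E P.eta) π v M) (hN : N ⊆ π.act)
    (hlev : ∀ x ∈ N, π.lev x = n) (hω : ∀ x ∈ N, L.q n (ω x) = L.q n (v x)) {y : Tor d Lt}
    (hy : y ∈ M.A) : M.kf (digOf L lam n N v) ω y =
      (sysOf L lam E P.eta).kk (lv1 n N π y) (N.piecewise ω v y) := by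
  have hk : M.k y = (sysOf L lam E P.eta).kk (π.lev y) (v y) := by
    rw [hM.k]
    unfold kp
    rw [if_pos (hM.A ▸ hy)]
  unfold Med.kf lv1
  by_cases h : y ∈ N
  · rw [digOf_kk (E := E) (eta := P.eta) h (hω y h), hk, hlev y h, if_pos h,
      Finset.piecewise_eq_of_mem _ _ _ h]
    ring
  · rw [(digOf_off h (ω y)).2, sub_zero, hk, if_neg h, Finset.piecewise_eq_of_notMem _ _ _ h]

theorem lv1_le (h : WtHyp L lam P F n N π v M C1 cI) {y : Tor d Lt} (hy : y ∉ M.U) :
    lv1 n N π y ≤ n + 1 := by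
  unfold lv1
  split_ifs
  · exact le_rfl
  · exact h.lev y hy

/-- numbers of `siteIn_law` -/
structure SiteNum (f : Fix) (P : Par) (n : ℕ) (ze gg e2 om0 : ℝ) : Prop where
  ka : 0 < P.kap n
  ze0 : 0 ≤ ze
  gg0 : 0 ≤ gg
  gg1 : gg ≤ 3 / 4 / P.kap (n + 1)
  stat : 4 * ze ≤ P.Cz * P.cs
  be : e2 * ze ≤ 1 / 4 * P.kap n ^ (-P.vp) * f.c1
  act : gg * P.kap n ≤ 1 / 2 * P.kap n ^ (-P.vp) * om0

/-- `SiteIn` FOR A GENERAL LAW -/
theorem siteIn_law (h : WtHyp L lam P F n N π v M C1 cI)
    (hM : IsMed (H0T d Lt) (sysOf L lam E P.eta) π v M) (hN : N = π.act ∩ Lc)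
    (hω : ∀ x ∈ N, L.q n (ω x) = L.q n (v x)) (hk1 : ∀ y ∈ M.A, M.kf (digOf L lam n N v) ω y ≤ P.kap n)
    {ze gg e2 om0 : ℝ} (num : SiteNum f P n ze gg e2 om0) (hbe : ∀ y, F.be y ≤ e2)
    (hom : ∀ m, m ≤ n + 1 → ∀ a, ¬ L.wk m a → om0 ≤ (SfOf L lam nE).om m a) :
    SiteIn f P (SfOf L lam nE) n F (ANQ.raise A π (n + 1) Lc (N.piecewise ω v))
      (N.piecewise ω v) M (digOf L lam n N v) ω ze gg (fun K => UK L lam n K)
      (fun K => 4 * UK L lam n K) := by
  have hNact : N ⊆ π.act := by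
    rw [hN]
    exact Finset.inter_subset_left
  have hphc : ∀ K y, phc (SfOf L lam nE) (ANQ.raise A π (n + 1) Lc (N.piecewise ω v))
      (N.piecewise ω v) K y = (SfOf L lam nE).phi K (lv1 n N π y) (N.piecewise ω v y) := by
    intro K y
    unfold phc
    rw [raise_lev hN]
  have homc : ∀ y, omc (SfOf L lam nE) (ANQ.raise A π (n + 1) Lc (N.piecewise ω v))
      (N.piecewise ω v) y = (SfOf L lam nE).om (lv1 n N π y) (N.piecewise ω v y) := by
    intro y
    unfold omc
    rw [raise_lev hN]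
  have hAU : ∀ y ∈ M.A, y ∉ M.U := fun y h1 h2 => Finset.disjoint_left.1 h.AU h1 h2
  have hUK : ∀ K, 0 < UK L lam n K := fun K => UK_pos h.lam0 K
  have hoff : ∀ y, y ∉ M.A → lv1 n N π y = π.lev y ∧ N.piecewise ω v y = v y := by
    intro y hy
    have : y ∉ N := fun h1 => hy (h.NA h1)
    exact ⟨if_neg this, Finset.piecewise_eq_of_notMem _ _ _ this⟩
  have hKs : ∀ K ∈ (SfOf L lam nE).Ks n, n + 1 ≤ K := fun K hK => (Finset.mem_Icc.1 hK).1
  have hwz : ∀ K ∈ (SfOf L lam nE).Ks n, ∀ y, y ∉ M.U →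
      0 ≤ wZ L lam nE P F n K N π v M (ANS.full ω) y ∧
      (tolAt P (SfOf L lam nE) n F (ANQ.raise A π (n + 1) Lc (N.piecewise ω v))
        (N.piecewise ω v) M).z K y =
        4 * UK L lam n K * wZ L lam nE P F n K N π v M (ANS.full ω) y := by
    intro K hK y hy
    have h1 := wt_z (nE := nE) h (hKs K hK) (Cu := |C1|) (by
      have := le_abs_self C1
      have := abs_nonneg C1
      linarith) (abs_nonneg _) (ANS.full ω)
    refine ⟨h1.a0 y, ?_⟩
    rw [wZ_full h K ω hω hy]
    show (if y ∈ M.A then (0 : ℝ) else phc (SfOf L lam nE)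
      (ANQ.raise A π (n + 1) Lc (N.piecewise ω v)) (N.piecewise ω v) K y * _) +
      AND.kn L lam K * P.Cz * (F.err y * ((if y ∈ M.A then P.eta else M.eta y) /
        P.kap (n + 1)) + F.be y * (omc (SfOf L lam nE)
          (ANQ.raise A π (n + 1) Lc (N.piecewise ω v)) (N.piecewise ω v) y * _)) = _
    rw [homc, hphc]
    by_cases hA : y ∈ M.A
    · simp only [hA, if_true]
      rfl
    · have : y ∉ N := fun h1 => hA (h.NA h1)
      simp only [hA, this, if_false, (hoff y hA).1, (hoff y hA).2]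
      rfl
  refine {
    ka := num.ka
    ka' := h.kap
    eta := h.eta
    Cz := h.Cz
    s0 := fun K _ => kn_nonneg L lam K
    ze0 := num.ze0
    gg0 := num.gg0
    phi0 := fun K _ y => SfOf_pos.phi K _ _
    om0 := fun y => SfOf_pos.om _ _
    be0 := h.be0
    stat := fun K hK y hA hU => ?_
    be := fun y _ => (mul_le_mul_of_nonneg_right (hbe y) num.ze0).trans num.be
    act := fun y hy => ?_
    gg1 := num.gg1
    Wa0 := fun K _ => (hUK K).le
    Wz0 := fun K _ => by have := hUK K; positivity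
    Wa := fun K hK y hy => ?_
    Wz := fun K hK y hy => ?_
    z0 := fun K hK y hy => ?_ }
  · -- static and inert sites
    rw [hphc, (hoff y hA).1, (hoff y hA).2]
    have hs : (SfOf L lam nE).s K = AND.kn L lam K := rfl
    rw [hs]
    by_cases hI : y ∈ M.I
    · rw [phi_zero ((h.lev y hU).trans (hKs K hK)) (h.ine y hI), zero_mul]
      have h1 : 0 ≤ M.eta y := by
        rw [h.etaI y hI]
        exact h.eta
      have h2 := kn_nonneg L lam K
      have h3 := h.Cz
      have h4 := h.kap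
      positivity
    · have h1 := (h.etaS y hA hU hI).1
      have h2 : P.cs ≤ M.eta y / P.kap (n + 1) := (le_div_iff₀ h.kap).2 h1
      have h3 := phi_le_kn (nE := nE) (lam := lam) h.ratio K (π.lev y) (v y)
      have h4 := kn_nonneg L lam K
      have h5 := SfOf_pos (L := L) (lam := lam) (nE := nE) |>.phi K (π.lev y) (v y)
      calc (SfOf L lam nE).phi K (π.lev y) (v y) * ze ≤ AND.kn L lam K * ze :=
            mul_le_mul_of_nonneg_right h3 num.ze0
        _ ≤ AND.kn L lam K * (1 / 4 * (P.Cz * P.cs)) :=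
            mul_le_mul_of_nonneg_left (by have := num.stat; linarith) h4
        _ = 1 / 4 * (AND.kn L lam K * P.Cz) * P.cs := by ring
        _ ≤ 1 / 4 * (AND.kn L lam K * P.Cz) * (M.eta y / P.kap (n + 1)) := by
            refine mul_le_mul_of_nonneg_left h2 ?_
            have := h.Cz
            positivity
  · -- active sites
    rw [homc]
    have hkf := kf_law (E := E) hM hNact h.Nn hω hy
    have hl := lv1_le h (hAU y hy)
    have hvp : 0 ≤ P.kap n ^ (-P.vp) := Real.rpow_nonneg num.ka.le _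
    by_cases hw : L.wk (lv1 n N π y) (N.piecewise ω v y)
    · rw [hkf, kk_wk hw, mul_zero]
      exact mul_nonneg (by positivity) (SfOf_pos.om _ _)
    · have h1 := hom _ hl _ hw
      calc gg * M.kf (digOf L lam n N v) ω y ≤ gg * P.kap n :=
            mul_le_mul_of_nonneg_left (hk1 y hy) num.gg0
        _ ≤ 1 / 2 * P.kap n ^ (-P.vp) * om0 := num.act
        _ ≤ _ := mul_le_mul_of_nonneg_left h1 (by positivity)
  · rw [hphc, kf_law (E := E) hM hNact h.Nn hω hy]
    exact phi_le_UK h.ratio h.lam0 (lv1_le h (hAU y hy)) (hKs K hK) h.hs _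
  · rw [(hwz K hK y hy).2, mul_assoc, mul_assoc]
    refine mul_le_mul_of_nonneg_left (mul_le_mul_of_nonneg_left ?_ (hUK K).le) (by norm_num)
    have h1 := wt_z (nE := nE) h (hKs K hK) (Cu := |C1|) (by
      have := le_abs_self C1
      have := abs_nonneg C1
      linarith) (abs_nonneg _) (ANS.full ω)
    exact h1.ae y
  · rw [(hwz K hK y hy).2]
    have := (hwz K hK y hy).1
    have := hUK K
    positivity

theorem thL_le_cL (L : Law X) : thL L ≤ cL L := thL_le L

/-- absorption after the frozen reading, active sites -/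
theorem bf_law (h : WtHyp L lam P F n N π v M C1 cI)
    (hω : ∀ x ∈ N, L.q n (ω x) = L.q n (v x)) {y : Tor d Lt} (hy : y ∈ M.A) :
    -(M.bf (digOf L lam n N v) ω y).im = P.eta +
      (sysOf L lam E P.eta).kk (lv1 n N π y) (N.piecewise ω v y) * io M y := by
  have h1 := h.eta_A (ANS.full ω) hy
  rw [rvL_full ω hω] at h1
  exact h1

/-- THE USE OF (H3) FOR THE RE-FREEZING: pair `K = n + 1`, number `1`, general law -/
theorem use_law (h : WtHyp L lam P F n N π v M C1 cI)
    (hM : IsMed (H0T d Lt) (sysOf L lam E P.eta) π v M) (hN : N = π.act ∩ Lc)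
    (hω : ∀ x ∈ N, L.q n (ω x) = L.q n (v x))
    (hact : ∀ y ∈ π.act, π.lev y = n ∨ π.lev y = n + 1)
    (hklo : ∀ y ∈ M.A, ¬ L.wk (lv1 n N π y) (N.piecewise ω v y) →
      P.cl * P.kap (n + 1) ≤ M.kf (digOf L lam n N v) ω y)
    {e ρ : ℝ} (he0 : 0 ≤ e) (h1 : ∀ y, P.Cz * F.err y ≤ e) (h2 : ∀ y, P.Cz * F.be y ≤ e * P.cl)
    (h4 : ∀ y, P.Cz * F.be y * C1 ≤ e * P.cs)
    (hr1 : ρ ≤ thL L - e) (hr2 : ρ ≤ 1 / 2 - 2 * e) (hth : thL L ≤ 1) (y : Tor d Lt)
    (hy : y ∉ M.U) :
    1 * (tolAt P (SfOf L lam nE) n F (ANQ.raise A π (n + 1) Lc (N.piecewise ω v))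
        (N.piecewise ω v) M).a (n + 1) y ≤ M.kf (digOf L lam n N v) ω y * (M.G y y).im ∧
      2 * (M.kf (digOf L lam n N v) ω y * (M.G y y).im) -
        1 * (tolAt P (SfOf L lam nE) n F (ANQ.raise A π (n + 1) Lc (N.piecewise ω v))
          (N.piecewise ω v) M).a (n + 1) y +
        1 * (tolAt P (SfOf L lam nE) n F (ANQ.raise A π (n + 1) Lc (N.piecewise ω v))
          (N.piecewise ω v) M).z (n + 1) y ≤
        (2 - ρ) * -(M.bf (digOf L lam n N v) ω y).im := by
  have hNact : N ⊆ π.act := by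
    rw [hN]
    exact Finset.inter_subset_left
  have hAU : ∀ y ∈ M.A, y ∉ M.U := fun y h1 h2 => Finset.disjoint_left.1 h.AU h1 h2
  set π' := ANQ.raise A π (n + 1) Lc (N.piecewise ω v) with hπ'
  have hphc : phc (SfOf L lam nE) π' (N.piecewise ω v) (n + 1) y =
      (SfOf L lam nE).phi (n + 1) (lv1 n N π y) (N.piecewise ω v y) := by
    unfold phc
    rw [hπ', raise_lev hN]
  have homc : omc (SfOf L lam nE) π' (N.piecewise ω v) y =
      (SfOf L lam nE).om (lv1 n N π y) (N.piecewise ω v y) := by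
    unfold omc
    rw [hπ', raise_lev hN]
  have ea : (tolAt P (SfOf L lam nE) n F π' (N.piecewise ω v) M).a (n + 1) y =
      if y ∈ M.A then (SfOf L lam nE).phi (n + 1) (lv1 n N π y) (N.piecewise ω v y) * io M y
      else 0 := by
    rw [← hphc]
    rfl
  have ez : (tolAt P (SfOf L lam nE) n F π' (N.piecewise ω v) M).z (n + 1) y =
      (if y ∈ M.A then 0 else
        (SfOf L lam nE).phi (n + 1) (lv1 n N π y) (N.piecewise ω v y) * io M y) +
      kn L lam (n + 1) * P.Cz * (F.err y * ((if y ∈ M.A then P.eta else M.eta y) /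
        P.kap (n + 1)) + F.be y * ((SfOf L lam nE).om (lv1 n N π y) (N.piecewise ω v y) *
          io M y)) := by
    rw [← hphc, ← homc]
    rfl
  have hio : (M.G y y).im = io M y := rfl
  rw [ea, ez, hio, one_mul, one_mul]
  have hkap := h.kap
  have hio0 := h.io0 y hy
  have hio1 := h.io1 y hy
  have hCz := h.Cz
  have herr := h.err0 y
  have hbe := h.be0 y
  have hkn0 : 0 ≤ kn L lam (n + 1) := kn_nonneg L lam (n + 1)
  have hom0 : 0 ≤ (SfOf L lam nE).om (lv1 n N π y) (N.piecewise ω v y) := SfOf_om_nonneg _ _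
  have hom1 : (SfOf L lam nE).om (lv1 n N π y) (N.piecewise ω v y) ≤ 1 := SfOf_om_le_one _ _
  have hl := lv1_le h hy
  -- the error part with `err`
  have herr' : ∀ x : ℝ, 0 ≤ x →
      kn L lam (n + 1) * P.Cz * (F.err y * (x / P.kap (n + 1))) ≤ e * x := by
    intro x hx
    have a1 : kn L lam (n + 1) / P.kap (n + 1) ≤ 1 := (div_le_one hkap).2 h.kn
    have a2 := h1 y
    have a3 : 0 ≤ P.Cz * F.err y * x := by positivity
    calc kn L lam (n + 1) * P.Cz * (F.err y * (x / P.kap (n + 1))) =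
          kn L lam (n + 1) / P.kap (n + 1) * (P.Cz * F.err y * x) := by ring
      _ ≤ 1 * (P.Cz * F.err y * x) := mul_le_mul_of_nonneg_right a1 a3
      _ ≤ e * x := by
          rw [one_mul]
          exact mul_le_mul_of_nonneg_right a2 hx
  by_cases hA : y ∈ M.A
  · rw [if_pos hA, if_pos hA, if_pos hA, zero_add]
    have hkf := kf_law (E := E) hM hNact h.Nn hω hA
    have hbf := bf_law (E := E) h hω hA
    rw [hbf]
    have hk0 : 0 ≤ (sysOf L lam E P.eta).kk (lv1 n N π y) (N.piecewise ω v y) := kk_nonneg _ _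
    have hlo : thL L * (sysOf L lam E P.eta).kk (lv1 n N π y) (N.piecewise ω v y) ≤
        (SfOf L lam nE).phi (n + 1) (lv1 n N π y) (N.piecewise ω v y) := by
      have hlv : lv1 n N π y = n ∨ lv1 n N π y = n + 1 := by
        unfold lv1
        split_ifs
        · exact Or.inr rfl
        · exact hact y (hM.A ▸ hA)
      rcases hlv with h5 | h5
      · rw [h5]
        exact phi_next (by have := h.hnf; omega) _
      · rw [h5]
        have h6 := phi_self_ge (L := L) (lam := lam) (E := E) (eta := P.eta) (nE := nE) (n + 1)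
          (N.piecewise ω v y)
        have h7 : 0 ≤ (sysOf L lam E P.eta).kk (n + 1) (N.piecewise ω v y) := kk_nonneg _ _
        have h8 := mul_nonneg (cL_nonneg L) h7
        have h9 : thL L * (sysOf L lam E P.eta).kk (n + 1) (N.piecewise ω v y) ≤
            cL L * (sysOf L lam E P.eta).kk (n + 1) (N.piecewise ω v y) :=
          mul_le_mul_of_nonneg_right (thL_le_cL L) h7
        exact h9.trans h6
    have hhi : (SfOf L lam nE).phi (n + 1) (lv1 n N π y) (N.piecewise ω v y) ≤
        (sysOf L lam E P.eta).kk (lv1 n N π y) (N.piecewise ω v y) := phi_le_kk hl h.hs _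
    rw [hkf]
    set k := (sysOf L lam E P.eta).kk (lv1 n N π y) (N.piecewise ω v y) with hk
    set ph := (SfOf L lam nE).phi (n + 1) (lv1 n N π y) (N.piecewise ω v y) with hph
    set o := (SfOf L lam nE).om (lv1 n N π y) (N.piecewise ω v y) with ho
    have hbe' : kn L lam (n + 1) * P.Cz * (F.be y * (o * io M y)) ≤ e * (k * io M y) := by
      by_cases hw : L.wk (lv1 n N π y) (N.piecewise ω v y)
      · have : o = 0 := SfOf_om_zero (hl.trans h.hnf) hw
        rw [this]
        have := mul_nonneg he0 (mul_nonneg hk0 hio0)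
        simpa using this
      · have a1 := hklo y hA hw
        rw [hkf] at a1
        have a2 := h2 y
        have a3 : 0 ≤ P.Cz * F.be y := mul_nonneg hCz hbe
        have a4 : kn L lam (n + 1) * (P.Cz * F.be y) ≤ P.kap (n + 1) * (e * P.cl) :=
          mul_le_mul h.kn a2 a3 hkap.le
        have a5 : kn L lam (n + 1) * (P.Cz * F.be y) * o ≤ e * k := by
          calc kn L lam (n + 1) * (P.Cz * F.be y) * o ≤
                kn L lam (n + 1) * (P.Cz * F.be y) * 1 :=
                mul_le_mul_of_nonneg_left hom1 (mul_nonneg hkn0 a3)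
            _ ≤ e * (P.cl * P.kap (n + 1)) := by
                rw [mul_one]
                linarith
            _ ≤ e * k := mul_le_mul_of_nonneg_left a1 he0
        calc kn L lam (n + 1) * P.Cz * (F.be y * (o * io M y)) =
              kn L lam (n + 1) * (P.Cz * F.be y) * o * io M y := by ring
          _ ≤ e * k * io M y := mul_le_mul_of_nonneg_right a5 hio0
          _ = _ := by ring
    refine ⟨mul_le_mul_of_nonneg_right hhi hio0, ?_⟩
    have b1 := herr' P.eta h.eta
    have b2 : thL L * (k * io M y) ≤ ph * io M y := by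
      rw [← mul_assoc]
      exact mul_le_mul_of_nonneg_right hlo hio0
    have b3 : 0 ≤ k * io M y := mul_nonneg hk0 hio0
    have b4 : e * P.eta ≤ (2 - ρ) * P.eta := mul_le_mul_of_nonneg_right (by linarith) h.eta
    have b5 : ρ * (k * io M y) ≤ (thL L - e) * (k * io M y) :=
      mul_le_mul_of_nonneg_right hr1 b3
    nlinarith
  · rw [if_neg hA, if_neg hA, if_neg hA]
    have hNy : y ∉ N := fun h1 => hA (h.NA h1)
    have hz := digOf_off (L := L) (lam := lam) (n := n) (v := v) hNy (ω y)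
    have hkA : y ∉ π.act := fun h1 => hA (hM.A ▸ h1)
    have hkf : M.kf (digOf L lam n N v) ω y = 0 := by
      unfold Med.kf
      rw [hz.2, sub_zero, hM.k]
      unfold kp
      rw [if_neg hkA]
    have hbf : -(M.bf (digOf L lam n N v) ω y).im = M.eta y := by
      unfold Med.bf Med.eta
      rw [hz.1, hz.2]
      simp
    have hlv : lv1 n N π y = π.lev y := if_neg hNy
    have hv' : N.piecewise ω v y = v y := Finset.piecewise_eq_of_notMem _ _ _ hNy
    rw [hkf, hbf, hlv, hv', zero_mul, mul_zero, zero_sub, neg_zero, zero_add]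
    refine ⟨le_rfl, ?_⟩
    rw [hlv, hv'] at hom0 hom1
    by_cases hI : y ∈ M.I
    · have hw := h.ine y hI
      have hl' := h.lev y hy
      have e1 : (SfOf L lam nE).phi (n + 1) (π.lev y) (v y) = 0 := phi_zero hl' hw
      have e2 : (SfOf L lam nE).om (π.lev y) (v y) = 0 := SfOf_om_zero (hl'.trans h.hnf) hw
      rw [e1, e2]
      have b0 : 0 ≤ M.eta y := by
        rw [h.etaI y hI]
        exact h.eta
      have b1 := herr' (M.eta y) b0
      have b4 : e * M.eta y ≤ (2 - ρ) * M.eta y := mul_le_mul_of_nonneg_right (by linarith) b0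
      nlinarith
    · obtain ⟨c1, c2⟩ := h.etaS y hA hy hI
      have b0 : 0 ≤ M.eta y := (mul_nonneg h.cs hkap.le).trans c1
      have b1 := herr' (M.eta y) b0
      have hk0 : 0 ≤ (sysOf L lam E P.eta).kk (π.lev y) (v y) := kk_nonneg _ _
      have b2 : (SfOf L lam nE).phi (n + 1) (π.lev y) (v y) * io M y ≤ 3 / 2 * M.eta y := by
        have d1 : (SfOf L lam nE).phi (n + 1) (π.lev y) (v y) ≤
            (sysOf L lam E P.eta).kk (π.lev y) (v y) := phi_le_kk (h.lev y hy) h.hs _
        have d2 : (sysOf L lam E P.eta).kk (π.lev y) (v y) * cI ≤ M.eta y := by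
          rw [mul_comm]
          exact c2
        calc (SfOf L lam nE).phi (n + 1) (π.lev y) (v y) * io M y ≤
              (sysOf L lam E P.eta).kk (π.lev y) (v y) * (3 / 2 * cI) :=
              mul_le_mul d1 (hio1.trans h.C1cI) hio0 hk0
          _ = 3 / 2 * ((sysOf L lam E P.eta).kk (π.lev y) (v y) * cI) := by ring
          _ ≤ 3 / 2 * M.eta y := by linarith
      have b3 : kn L lam (n + 1) * P.Cz * (F.be y * ((SfOf L lam nE).om (π.lev y) (v y) *
          io M y)) ≤ e * M.eta y := by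
        have d1 : 0 ≤ P.Cz * F.be y := mul_nonneg hCz hbe
        have d2 : (SfOf L lam nE).om (π.lev y) (v y) * io M y ≤ 1 * C1 :=
          mul_le_mul hom1 hio1 hio0 zero_le_one
        have d3 := h4 y
        calc kn L lam (n + 1) * P.Cz * (F.be y * ((SfOf L lam nE).om (π.lev y) (v y) * io M y))
            = kn L lam (n + 1) * (P.Cz * F.be y) *
              ((SfOf L lam nE).om (π.lev y) (v y) * io M y) := by ring
          _ ≤ kn L lam (n + 1) * (P.Cz * F.be y) * (1 * C1) :=
              mul_le_mul_of_nonneg_left d2 (mul_nonneg hkn0 d1)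
          _ = kn L lam (n + 1) * (P.Cz * F.be y * C1) := by ring
          _ ≤ P.kap (n + 1) * (e * P.cs) := by
              refine mul_le_mul h.kn d3 ?_ hkap.le
              exact mul_nonneg d1 (hio0.trans hio1)
          _ = e * (P.cs * P.kap (n + 1)) := by ring
          _ ≤ e * M.eta y := mul_le_mul_of_nonneg_left c1 he0
      have b5 : (3 / 2 + 2 * e) * M.eta y ≤ (2 - ρ) * M.eta y :=
        mul_le_mul_of_nonneg_right (by linarith) b0
      nlinarith

end Pool.Agent.AND
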