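import Pool.Agent.ANS.Eng

/-! # ANS ENGB: the jump engine with good values and rates (general laws)

`ok w b` = the value `b` is good for the site `w` (unread or not weak).  The `w` term of the
generator does not depend on `s w`; hence one may insert the density `1(ok w (s w)) / (1 - t pk w)`,
`pk w` = probability of the bad values: `hasDerivAt_EtB`.  `CompB` is the one-sided version of
`CompAt`; sums over the sites run over the sites with a good value, with rates in `[0,2]`. -/

set_option autoImplicit false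
set_option linter.unusedSectionVars false

open Finset Function

noncomputable section

namespace Pool.Agent.ANS

variable {N A : Type} [Fintype N] [DecidableEq N] [Fintype A] [DecidableEq A]
  {pr : N → A → ℝ}

/-- rates in `[0,2]`, zero at the sites with a bad value -/
structure Rate (ok : N → Option A → Prop) (s : N → Option A) (r : N → ℝ) : Prop where
  r0 : ∀ w, 0 ≤ r w
  r2 : ∀ w, r w ≤ 2
  off : ∀ w, ¬ ok w (s w) → r w = 0

/-- one-sided component estimate -/
def CompB (pr : N → A → ℝ) (ok : N → Option A → Prop) (Γ : (N → Option A) → ℝ)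
    (s : N → Option A) (al be dl : ℝ) : Prop :=
  ∃ (l : N → Option A → ℝ) (q m : N → ℝ), (∀ w, 0 ≤ q w) ∧ (∀ w, m w ≤ q w) ∧
    (∀ w, ok w (s w) → ∀ a, Γ (update s w (some a)) ≤ Γ s + l w (some a) + q w) ∧
    (∀ w, ok w (s w) → Γ s + l w none - m w ≤ Γ (update s w none)) ∧
    (∀ w, ok w (s w) → (l w none - m w) ^ 2 ≤ q w) ∧
    (∀ w, ok w (s w) → ∀ b, Γ (update s w b) ≤ Γ s + dl) ∧
    (∀ r : N → ℝ, Rate ok s r →
      ∑ w, r w * (∑ a, pr w a * l w (some a) - l w none) ≤ al * Γ s + be) ∧
    (∀ r : N → ℝ, Rate ok s r → ∑ w, r w * q w ≤ al * Γ s + be)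

theorem swap_fac (hpr1 : ∀ w, ∑ a, pr w a = 1) (t : ℝ) (w : N) (φ : Option A → ℝ)
    (Y : (N → Option A) → ℝ) (hY : ∀ s b, Y (update s w b) = Y s) :
    ∑ s : N → Option A, (∏ w, wt pr t w (s w)) * (φ (s w) * Y s) =
      (∑ b, wt pr t w b * φ b) * ∑ s : N → Option A, (∏ w, wt pr t w (s w)) * Y s := by
  have h1 := swap_sum (A := A) w (fun s b =>
    (∏ w' ∈ univ.erase w, wt pr t w' (s w')) * (wt pr t w (s w) * φ (s w)) * wt pr t w b * Y s)
  have hL : ∑ s : N → Option A, ∑ b, (∏ w' ∈ univ.erase w, wt pr t w' (s w')) *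
      (wt pr t w (s w) * φ (s w)) * wt pr t w b * Y s =
      ∑ s : N → Option A, (∏ w, wt pr t w (s w)) * (φ (s w) * Y s) := by
    refine Finset.sum_congr rfl fun s _ => ?_
    have e1 : ∀ b : Option A, (∏ w' ∈ univ.erase w, wt pr t w' (s w')) *
        (wt pr t w (s w) * φ (s w)) * wt pr t w b * Y s = wt pr t w b *
        ((∏ w' ∈ univ.erase w, wt pr t w' (s w')) * (wt pr t w (s w) * φ (s w)) * Y s) :=
      fun b => by ring
    simp only [e1, ← Finset.sum_mul, wt_sum hpr1, one_mul]
    rw [← Finset.prod_erase_mul univ _ (Finset.mem_univ w)]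
    ring
  rw [← hL, ← h1, Finset.mul_sum]
  refine Finset.sum_congr rfl fun s _ => ?_
  rw [Finset.sum_mul]
  refine Finset.sum_congr rfl fun b _ => ?_
  have h3 : ∏ w' ∈ univ.erase w, wt pr t w' (update s w b w') =
      ∏ w' ∈ univ.erase w, wt pr t w' (s w') := by
    refine Finset.prod_congr rfl fun w' hw' => ?_
    rw [update_of_ne (Finset.ne_of_mem_erase hw')]
  rw [h3, update_self, hY, ← Finset.prod_erase_mul univ _ (Finset.mem_univ w)]
  ring

open Classical in
/-- probability of the bad values -/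
def pk (pr : N → A → ℝ) (ok : N → Option A → Prop) (w : N) : ℝ :=
  ∑ a, if ok w (some a) then 0 else pr w a

open Classical in
/-- the rate of the site `w` -/
def rt (pr : N → A → ℝ) (ok : N → Option A → Prop) (t : ℝ) (s : N → Option A) (w : N) : ℝ :=
  if ok w (s w) then 1 / (1 - t * pk pr ok w) else 0

/-- the generator with rates -/
def GnB (pr : N → A → ℝ) (ok : N → Option A → Prop) (t : ℝ) (F : (N → Option A) → ℝ)
    (s : N → Option A) : ℝ :=
  ∑ w, rt pr ok t s w * (∑ a, pr w a * F (update s w (some a)) - F (update s w none))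

theorem Et_GnB (hpr1 : ∀ w, ∑ a, pr w a = 1) (ok : N → Option A → Prop)
    (hok : ∀ w, ok w none) {t : ℝ} (ht : ∀ w, t * pk pr ok w < 1) (F : (N → Option A) → ℝ) :
    Et pr t (GnB pr ok t F) = Et pr t (Gn pr F) := by
  classical
  have key : ∀ w, ∑ s : N → Option A, (∏ w, wt pr t w (s w)) * (rt pr ok t s w *
      (∑ a, pr w a * F (update s w (some a)) - F (update s w none))) =
      ∑ s : N → Option A, (∏ w, wt pr t w (s w)) *
        (∑ a, pr w a * F (update s w (some a)) - F (update s w none)) := by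
    intro w
    have h1 := swap_fac hpr1 t w (fun b => if ok w b then 1 / (1 - t * pk pr ok w) else 0)
      (fun s => ∑ a, pr w a * F (update s w (some a)) - F (update s w none)) (fun s b => by
        simp only [update_idem])
    have h2 : ∑ b, wt pr t w b * (if ok w b then 1 / (1 - t * pk pr ok w) else 0) = 1 := by
      have e1 : ∀ b, wt pr t w b * (if ok w b then 1 / (1 - t * pk pr ok w) else 0) =
          (if ok w b then wt pr t w b else 0) * (1 / (1 - t * pk pr ok w)) := fun b => by
        split_ifs <;> ring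
      simp only [e1, ← Finset.sum_mul]
      have h3 : ∑ b, (if ok w b then wt pr t w b else 0) = 1 - t * pk pr ok w := by
        rw [Fintype.sum_option, if_pos (hok w)]
        have h4 : ∑ a, (if ok w (some a) then wt pr t w (some a) else 0) =
            t * (1 - pk pr ok w) := by
          unfold pk
          have h5 : ∀ a, (if ok w (some a) then wt pr t w (some a) else 0) =
              t * (pr w a - (if ok w (some a) then 0 else pr w a)) := fun a => by
            split_ifs <;> simp [wt]
          simp only [h5]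
          rw [← Finset.mul_sum, Finset.sum_sub_distrib, hpr1]
        rw [h4]
        simp only [wt]
        ring
      rw [h3, mul_one_div_cancel (by linarith [ht w])]
    rw [h2, one_mul] at h1
    exact h1
  unfold Et GnB Gn
  calc ∑ s : N → Option A, (∏ w, wt pr t w (s w)) * ∑ w, rt pr ok t s w *
        (∑ a, pr w a * F (update s w (some a)) - F (update s w none))
      = ∑ w, ∑ s : N → Option A, (∏ w, wt pr t w (s w)) * (rt pr ok t s w *
        (∑ a, pr w a * F (update s w (some a)) - F (update s w none))) := by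
        rw [Finset.sum_comm]
        exact Finset.sum_congr rfl fun s _ => Finset.mul_sum _ _ _
    _ = ∑ w, ∑ s : N → Option A, (∏ w, wt pr t w (s w)) *
        (∑ a, pr w a * F (update s w (some a)) - F (update s w none)) :=
        Finset.sum_congr rfl fun w _ => key w
    _ = _ := by
        rw [Finset.sum_comm]
        exact Finset.sum_congr rfl fun s _ => (Finset.mul_sum _ _ _).symm

open Pool.Agent.Kin in
theorem th_mono {s0 : ℝ} (hs : 0 < s0) {x y : ℝ} (hx : 0 ≤ x) (hxy : x ≤ y) :
    th s0 x ≤ th s0 y := by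
  have h := th_concave hs (hx.trans hxy) hx (s0 := s0) (x := y) (y := x)
  have h1 := th1_mem s0 hs y (hx.trans hxy)
  nlinarith [mul_nonneg h1.1 (sub_nonneg.2 hxy)]

open Pool.Agent.Kin in
/-- THE ENGINE WITH RATES -/
theorem engineB (hpr : ∀ w a, 0 ≤ pr w a) (hpr1 : ∀ w, ∑ a, pr w a = 1)
    {ok : N → Option A → Prop} (hok : ∀ w, ok w none) (hpk : ∀ w, pk pr ok w ≤ 1 / 2)
    {Γ : (N → Option A) → ℝ} (hΓ : ∀ s, 0 ≤ Γ s) {s0 al be : ℝ} (hs0 : 0 < s0) (hs1 : s0 ≤ 1 / 4)
    (hal : 0 ≤ al) (hbe : 0 ≤ be)
    (H : ∀ s, Γ s ≤ 1 → ∃ dl, dl ≤ 1 - 3 * s0 ∧ CompB pr ok Γ s al be dl) :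
    ANP.Pr pr {o | 3 * s0 < Γ (full o)} ≤
      (Γ nil / s0 + 2 * be / s0 ^ 2) * Real.exp (2 * al / s0 ^ 2) := by
  classical
  have hpk0 : ∀ w, 0 ≤ pk pr ok w := fun w => Finset.sum_nonneg fun a _ => by
    split_ifs
    · exact le_rfl
    · exact hpr w a
  set F : (N → Option A) → ℝ := fun s => th s0 (Γ s) with hF
  have hF0 : ∀ s, 0 ≤ F s := fun s => th_nonneg s0 hs0 _ (hΓ s)
  have hgen : ∀ t, 0 ≤ t → t ≤ 1 → ∀ s,
      GnB pr ok t F s ≤ 2 * al / s0 ^ 2 * F s + 2 * be / s0 := by
    intro t ht0 ht1 s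
    have hR0 : 0 ≤ 2 * al / s0 ^ 2 * F s + 2 * be / s0 := by
      have := hF0 s
      positivity
    have hden : ∀ w, 1 / 2 ≤ 1 - t * pk pr ok w := fun w => by
      nlinarith [hpk w, hpk0 w]
    set r : N → ℝ := fun w => rt pr ok t s w with hr
    have hr0 : ∀ w, 0 ≤ r w := fun w => by
      simp only [hr, rt]
      split_ifs
      · have := hden w
        positivity
      · exact le_rfl
    have hr2 : ∀ w, r w ≤ 2 := fun w => by
      simp only [hr, rt]
      split_ifs
      · have := hden w
        rw [div_le_iff₀ (by linarith)]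
        linarith
      · norm_num
    have hrn : ∀ w, ¬ ok w (s w) → r w = 0 := fun w hw => by
      simp only [hr, rt, if_neg hw]
    have hR : Rate ok s r := ⟨hr0, hr2, hrn⟩
    rcases le_or_gt (Γ s) 1 with h1 | h1
    · obtain ⟨dl, -, l, q, m, hq, hmq, hla, hln, hl2, -, hsum, hqs⟩ := H s h1
      have hth1 := th1_mem s0 hs0 (Γ s) (hΓ s)
      have hterm : ∀ w, ok w (s w) →
          (∑ a, pr w a * F (update s w (some a)) - F (update s w none)) ≤
          th1 s0 (Γ s) * (∑ a, pr w a * l w (some a) - l w none) +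
            (2 + 1 / (3 * s0)) * q w := by
        intro w hw
        have ha : ∀ a, F (update s w (some a)) ≤ F s + th1 s0 (Γ s) * (l w (some a) + q w) := by
          intro a
          have h0 := hΓ (update s w (some a))
          have h2 := hla w hw a
          have h3 := th_mono hs0 h0 h2
          have h4 := th_concave hs0 (hΓ s) (h0.trans h2)
          simp only [hF]
          have h5 : Γ s + l w (some a) + q w - Γ s = l w (some a) + q w := by ring
          rw [h5] at h4
          linarith
        have hn : F s + th1 s0 (Γ s) * (l w none - m w) - q w / (3 * s0) ≤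
            F (update s w none) := by
          have h2 := hln w hw
          have h6 : (l w none - m w) ^ 2 / (3 * s0) ≤ q w / (3 * s0) :=
            div_le_div_of_nonneg_right (hl2 w hw) (by positivity)
          rcases le_or_gt 0 (Γ s + l w none - m w) with hy | hy
          · have h3 := th_mono hs0 hy h2
            have h4 := th_lower hs0 (hΓ s) hy
            have h5 : Γ s + l w none - m w - Γ s = l w none - m w := by ring
            rw [h5] at h4
            simp only [hF]
            linarith
          · have h4 := th_lower hs0 (hΓ s) le_rfl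
            have h5 : th s0 0 = 0 := by simp [th]
            rw [h5] at h4
            have h7 : (0 - Γ s) ^ 2 / (3 * s0) ≤ (l w none - m w) ^ 2 / (3 * s0) :=
              div_le_div_of_nonneg_right (by nlinarith [hΓ s]) (by positivity)
            have h8 : th1 s0 (Γ s) * (l w none - m w) ≤ th1 s0 (Γ s) * (0 - Γ s) :=
              mul_le_mul_of_nonneg_left (by linarith) hth1.1
            have h9 := hF0 (update s w none)
            simp only [hF] at h9 ⊢
            linarith
        have hmt : th1 s0 (Γ s) * m w ≤ th1 s0 (Γ s) * q w :=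
          mul_le_mul_of_nonneg_left (hmq w) hth1.1
        have hsumle : ∑ a, pr w a * F (update s w (some a)) ≤
            F s + th1 s0 (Γ s) * (∑ a, pr w a * l w (some a) + q w) := by
          calc ∑ a, pr w a * F (update s w (some a))
              ≤ ∑ a, pr w a * (F s + th1 s0 (Γ s) * (l w (some a) + q w)) :=
                Finset.sum_le_sum fun a _ => mul_le_mul_of_nonneg_left (ha a) (hpr w a)
            _ = (∑ a, pr w a) * (F s + th1 s0 (Γ s) * q w) +
                th1 s0 (Γ s) * ∑ a, pr w a * l w (some a) := by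
                rw [Finset.sum_mul, Finset.mul_sum, ← Finset.sum_add_distrib]
                exact Finset.sum_congr rfl fun a _ => by ring
            _ = _ := by rw [hpr1]; ring
        have hqt : th1 s0 (Γ s) * q w ≤ q w := by
          have := mul_le_mul_of_nonneg_right hth1.2 (hq w)
          linarith
        have e1 : q w / (3 * s0) = 1 / (3 * s0) * q w := by ring
        have e2 : (2 + 1 / (3 * s0)) * q w = 2 * q w + 1 / (3 * s0) * q w := by ring
        rw [e2]
        linarith
      have hS : GnB pr ok t F s ≤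
          th1 s0 (Γ s) * (∑ w, r w * (∑ a, pr w a * l w (some a) - l w none)) +
          (2 + 1 / (3 * s0)) * ∑ w, r w * q w := by
        unfold GnB
        rw [Finset.mul_sum, Finset.mul_sum, ← Finset.sum_add_distrib]
        refine Finset.sum_le_sum fun w _ => ?_
        by_cases hw : ok w (s w)
        · have h3 := mul_le_mul_of_nonneg_left (hterm w hw) (hr0 w)
          refine h3.trans (le_of_eq ?_)
          ring
        · have h3 : rt pr ok t s w = 0 := hrn w hw
          rw [h3, hrn w hw]
          simp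
      have hX0 : 0 ≤ al * Γ s + be := by
        have := hΓ s
        positivity
      have hS2 : th1 s0 (Γ s) * (∑ w, r w * (∑ a, pr w a * l w (some a) - l w none)) ≤
          al * Γ s + be := by
        calc _ ≤ th1 s0 (Γ s) * (al * Γ s + be) :=
              mul_le_mul_of_nonneg_left (hsum r hR) hth1.1
          _ ≤ 1 * (al * Γ s + be) := mul_le_mul_of_nonneg_right hth1.2 hX0
          _ = _ := one_mul _
      have hS3 : (2 + 1 / (3 * s0)) * ∑ w, r w * q w ≤ (2 + 1 / (3 * s0)) * (al * Γ s + be) :=
        mul_le_mul_of_nonneg_left (hqs r hR) (by positivity)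
      have hS4 : (3 + 1 / (3 * s0)) * (al * Γ s + be) ≤ 2 / s0 * (al * Γ s + be) := by
        refine mul_le_mul_of_nonneg_right ?_ hX0
        rw [show (3 : ℝ) + 1 / (3 * s0) = (9 * s0 + 1) / (3 * s0) by field_simp; ring,
          div_le_div_iff₀ (by positivity) hs0]
        nlinarith
      have hS5 : Γ s ≤ F s / s0 := by
        rw [le_div_iff₀ hs0]
        rcases le_or_gt (Γ s) (4 * s0) with h4 | h4
        · have := le_four_th s0 hs0 (Γ s) (hΓ s) h4
          simp only [hF]
          nlinarith [hF0 s, mul_le_mul_of_nonneg_left hs1 (hΓ s)]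
        · have : th s0 (Γ s) = s0 := th_big s0 hs0 _ (by linarith)
          simp only [hF, this]
          nlinarith
      calc GnB pr ok t F s ≤ (3 + 1 / (3 * s0)) * (al * Γ s + be) := by linarith
        _ ≤ 2 / s0 * (al * Γ s + be) := hS4
        _ ≤ 2 / s0 * (al * (F s / s0) + be) := by
          refine mul_le_mul_of_nonneg_left ?_ (by positivity)
          linarith [mul_le_mul_of_nonneg_left hS5 hal]
        _ = _ := by field_simp
    · have hle : ∀ u, F u ≤ s0 := by
        intro u
        simp only [hF]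
        rcases le_or_gt (Γ u) (3 * s0) with h3 | h3
        · have := th_mono hs0 (hΓ u) h3
          rwa [th_big s0 hs0 _ le_rfl] at this
        · exact (th_big s0 hs0 _ h3.le).le
      have hbig : ∀ w, ok w (s w) → F (update s w none) = s0 := by
        intro w hw
        simp only [hF]
        refine th_big s0 hs0 _ ?_
        by_contra hcon
        push Not at hcon
        obtain ⟨dl, hdl, l, q, m, -, -, -, -, -, hst, -, -⟩ := H (update s w none) (by linarith)
        have h3 := hst w (by rw [update_self]; exact hok w) (s w)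
        rw [update_idem, update_eq_self] at h3
        linarith
      refine le_trans (Finset.sum_nonpos fun w _ => ?_) hR0
      by_cases hw : ok w (s w)
      · refine mul_nonpos_of_nonneg_of_nonpos (hr0 w) ?_
        rw [hbig w hw]
        have : ∑ a, pr w a * F (update s w (some a)) ≤ s0 := by
          calc ∑ a, pr w a * F (update s w (some a)) ≤ ∑ a, pr w a * s0 :=
                Finset.sum_le_sum fun a _ => mul_le_mul_of_nonneg_left (hle _) (hpr w a)
            _ = s0 := by rw [← Finset.sum_mul, hpr1, one_mul]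
        linarith
      · have h3 : rt pr ok t s w = 0 := hrn w hw
        rw [h3, zero_mul]
  -- Gronwall
  set K := 2 * al / s0 ^ 2 with hK
  set R := 2 * be / s0 with hR
  have hK0 : 0 ≤ K := by positivity
  have hR0 : 0 ≤ R := by positivity
  have hanti : AntitoneOn (fun t => Real.exp (-K * t) * Et pr t F - R * t) (Set.Icc 0 1) := by
    refine antitoneOn_of_deriv_nonpos (convex_Icc 0 1) ?_ ?_ ?_
    · refine ContinuousOn.sub (ContinuousOn.mul (by fun_prop) ?_) (by fun_prop)
      exact fun t _ => (hasDerivAt_Et hpr1 F t).continuousAt.continuousWithinAt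
    · intro t _
      exact (((((hasDerivAt_id t).const_mul (-K)).exp).mul (hasDerivAt_Et hpr1 F t)).sub
        ((hasDerivAt_id t).const_mul R)).differentiableAt.differentiableWithinAt
    · intro t ht
      rw [interior_Icc] at ht
      have hd := ((((hasDerivAt_id t).const_mul (-K)).exp).mul (hasDerivAt_Et hpr1 F t)).sub
        ((hasDerivAt_id t).const_mul R)
      have hd2 := hd.deriv
      simp only [id_eq, mul_one] at hd2
      have e0 : deriv (fun t => Real.exp (-K * t) * Et pr t F - R * t) t =
          Real.exp (-K * t) * -K * Et pr t F + Real.exp (-K * t) * Et pr t (Gn pr F) - R := by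
        rw [← hd2]
        rfl
      rw [e0]
      have h1 : Et pr t (Gn pr F) ≤ K * Et pr t F + R := by
        rw [← Et_GnB hpr1 ok hok (t := t) (fun w => by
          have h5 := hpk w
          have h6 := hpk0 w
          nlinarith [ht.1, ht.2]) F]
        have := Et_mono hpr ht.1.le ht.2.le (hgen t ht.1.le ht.2.le)
        rwa [Et_lin t _ _ F hpr1] at this
      have h2 : Real.exp (-K * t) ≤ 1 := Real.exp_le_one_iff.2 (by nlinarith [ht.1])
      have h3 := mul_le_mul_of_nonneg_left h1 (Real.exp_pos (-K * t)).le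
      nlinarith [mul_le_mul_of_nonneg_right h2 hR0]
  have h01 := hanti (Set.left_mem_Icc.2 zero_le_one) (Set.right_mem_Icc.2 zero_le_one) zero_le_one
  simp only [mul_one, mul_zero, Real.exp_zero, one_mul, sub_zero] at h01
  rw [Et_zero] at h01
  have hE1 : Et pr 1 F ≤ (F nil + R) * Real.exp K := by
    have h2 : Real.exp (-K) * Et pr 1 F ≤ F nil + R := by linarith
    have h3 := mul_le_mul_of_nonneg_left h2 (Real.exp_pos K).le
    rw [← mul_assoc, ← Real.exp_add] at h3
    simp only [add_neg_cancel, Real.exp_zero, one_mul] at h3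
    linarith [mul_comm (F nil + R) (Real.exp K)]
  have hP : ANP.Pr pr {o | 3 * s0 < Γ (full o)} * s0 ≤ Et pr 1 F := by
    refine le_trans ?_ (Et_one hpr hF0)
    unfold ANP.Pr
    rw [Finset.sum_mul]
    refine le_trans (Finset.sum_le_sum (g := fun o => ANP.wt pr o * F (full o)) fun o ho => ?_)
      (Finset.sum_le_univ_sum_of_nonneg fun o => ?_)
    · have ho' : 3 * s0 < Γ (full o) := by simpa using (Finset.mem_filter.1 ho).2
      have : F (full o) = s0 := th_big s0 hs0 _ ho'.le
      rw [this]
    · exact mul_nonneg (Finset.prod_nonneg fun w _ => hpr w _) (hF0 _)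
  have hFn : F nil ≤ Γ nil := th_le s0 hs0 _ (hΓ nil)
  have hfin : ANP.Pr pr {o | 3 * s0 < Γ (full o)} ≤ (F nil + R) * Real.exp K / s0 := by
    rw [le_div_iff₀ hs0]
    exact hP.trans hE1
  refine hfin.trans ?_
  rw [mul_div_right_comm]
  refine mul_le_mul_of_nonneg_right ?_ (Real.exp_pos K).le
  rw [add_div, hR]
  have e1 : F nil / s0 ≤ Γ nil / s0 := div_le_div_of_nonneg_right hFn hs0.le
  have e2 : 2 * be / s0 / s0 = 2 * be / s0 ^ 2 := by field_simp
  rw [e2]
  linarith

/-- sum of finitely many components -/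
theorem comp_sumB {ι : Type} [Fintype ι] {ok : N → Option A → Prop}
    {Γ : ι → (N → Option A) → ℝ} {s : N → Option A} {al : ℝ} {be dl : ι → ℝ}
    (h : ∀ i, CompB pr ok (Γ i) s al (be i) (dl i)) :
    CompB pr ok (fun s => ∑ i, Γ i s) s (al * (Fintype.card ι + 1))
      ((Fintype.card ι + 1) * ∑ i, be i) (∑ i, dl i) := by
  classical
  choose l q m hq hm hl hn hl2 hl3 hs1 hs2 using h
  have hc1 : (1 : ℝ) ≤ (Fintype.card ι : ℝ) + 1 := by
    have : (0 : ℝ) ≤ (Fintype.card ι : ℝ) := by positivity
    linarith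
  have hX : ∑ i, (al * Γ i s + be i) = al * ∑ i, Γ i s + ∑ i, be i := by
    rw [Finset.sum_add_distrib, Finset.mul_sum]
  have hq0 : ∀ w, 0 ≤ ∑ i, q i w := fun w => Finset.sum_nonneg fun i _ => hq i w
  have hR0 : Rate ok s (fun _ => (0 : ℝ)) := ⟨fun _ => le_rfl, fun _ => by norm_num, fun _ _ => rfl⟩
  have hX0 : 0 ≤ al * ∑ i, Γ i s + ∑ i, be i := by
    rw [← hX]
    refine Finset.sum_nonneg fun i _ => le_trans ?_ (hs2 i _ hR0)
    simp
  have hqle : ∀ w, ∑ i, q i w ≤ (Fintype.card ι + 1) * ∑ i, q i w := fun w => by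
    nlinarith [hq0 w]
  have hexp : al * (↑(Fintype.card ι) + 1) * ∑ i, Γ i s + (↑(Fintype.card ι) + 1) * ∑ i, be i =
      (↑(Fintype.card ι) + 1) * (al * ∑ i, Γ i s + ∑ i, be i) := by ring
  refine ⟨fun w b => ∑ i, l i w b, fun w => (Fintype.card ι + 1) * ∑ i, q i w,
    fun w => ∑ i, m i w, ?_, ?_, ?_, ?_, ?_, ?_, ?_, ?_⟩
  · intro w
    have := hq0 w
    positivity
  · intro w
    exact (Finset.sum_le_sum fun i _ => hm i w).trans (hqle w)
  · intro w hw a
    have h1 : ∑ i, Γ i (update s w (some a)) ≤ ∑ i, (Γ i s + l i w (some a) + q i w) :=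
      Finset.sum_le_sum fun i _ => hl i w hw a
    rw [Finset.sum_add_distrib, Finset.sum_add_distrib] at h1
    have := hqle w
    show ∑ i, Γ i (update s w (some a)) ≤ _
    linarith
  · intro w hw
    have h1 : ∑ i, (Γ i s + l i w none - m i w) ≤ ∑ i, Γ i (update s w none) :=
      Finset.sum_le_sum fun i _ => hn i w hw
    rw [Finset.sum_sub_distrib, Finset.sum_add_distrib] at h1
    exact h1
  · intro w hw
    show (∑ i, l i w none - ∑ i, m i w) ^ 2 ≤ _
    rw [← Finset.sum_sub_distrib]
    have h1 := Finset.sum_mul_sq_le_sq_mul_sq (univ : Finset ι) (fun _ => (1 : ℝ))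
      (fun i => l i w none - m i w)
    simp only [one_mul, one_pow, Finset.sum_const, Finset.card_univ, nsmul_eq_mul, mul_one] at h1
    refine h1.trans ?_
    have h2 : ∑ i, (l i w none - m i w) ^ 2 ≤ ∑ i, q i w :=
      Finset.sum_le_sum fun i _ => hl2 i w hw
    have h3 : (Fintype.card ι : ℝ) * ∑ i, (l i w none - m i w) ^ 2 ≤
        (Fintype.card ι : ℝ) * ∑ i, q i w := mul_le_mul_of_nonneg_left h2 (by positivity)
    nlinarith [hq0 w]
  · intro w hw b
    show ∑ i, Γ i (update s w b) ≤ ∑ i, Γ i s + ∑ i, dl i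
    rw [← Finset.sum_add_distrib]
    exact Finset.sum_le_sum fun i _ => hl3 i w hw b
  · intro r hr
    have e1 : ∑ w, r w * (∑ a, pr w a * ∑ i, l i w (some a) - ∑ i, l i w none) =
        ∑ i, ∑ w, r w * (∑ a, pr w a * l i w (some a) - l i w none) := by
      rw [Finset.sum_comm]
      refine Finset.sum_congr rfl fun w _ => ?_
      rw [← Finset.mul_sum, Finset.sum_sub_distrib]
      congr 2
      simp only [Finset.mul_sum]
      rw [Finset.sum_comm]
    simp only [] at e1 ⊢
    rw [e1]
    refine (Finset.sum_le_sum fun i _ => hs1 i r hr).trans ?_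
    rw [hX, hexp]
    nlinarith
  · intro r hr
    have e1 : ∑ w, r w * ((Fintype.card ι + 1 : ℝ) * ∑ i, q i w) =
        (Fintype.card ι + 1) * ∑ i, ∑ w, r w * q i w := by
      rw [Finset.sum_comm, Finset.mul_sum]
      refine Finset.sum_congr rfl fun w _ => ?_
      rw [← Finset.mul_sum]
      ring
    simp only [] at e1 ⊢
    rw [e1]
    have h2 : ∑ i, ∑ w, r w * q i w ≤ al * ∑ i, Γ i s + ∑ i, be i := by
      rw [← hX]
      exact Finset.sum_le_sum fun i _ => hs2 i r hr
    rw [hexp]
    exact mul_le_mul_of_nonneg_left h2 (by positivity)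

theorem core_absB {ι : Type} [Fintype ι] (hpr : ∀ w a, 0 ≤ pr w a) (hpr1 : ∀ w, ∑ a, pr w a = 1)
    {ok : N → Option A → Prop} (hok : ∀ w, ok w none) (hpk : ∀ w, pk pr ok w ≤ 1 / 2)
    (Γ : ι → (N → Option A) → ℝ) (Ap : ι → (N → Option A) → Prop) {K s0 : ℝ} (hs0 : 0 < s0)
    (hs1 : s0 ≤ 1 / 4) (hK : 0 ≤ K)
    (B dl : ι → ℝ) (h0 : ∀ i, Γ i nil = 0) (hΓ : ∀ i s, 0 ≤ Γ i s)
    (hB : ∀ i, 0 ≤ B i) (hdl : ∑ i, dl i ≤ 1 / 4)
    (hAp : ∀ i s, Γ i s ≤ 1 → Ap i s)
    (hc : ∀ i s, (∀ j, Ap j s) → (∀ j, Γ j s ≤ 1) → CompB pr ok (Γ i) s K (B i) (dl i)) :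
    ANP.Pr pr {o | ¬ ∀ i, Ap i (full o)} ≤
      2 * ((Fintype.card ι + 1) * ∑ i, B i) / s0 ^ 2 *
        Real.exp (2 * (K * (Fintype.card ι + 1)) / s0 ^ 2) := by
  classical
  have hle : ∀ i s, Γ i s ≤ ∑ j, Γ j s := fun i s =>
    Finset.single_le_sum (f := fun j => Γ j s) (fun j _ => hΓ j s) (Finset.mem_univ i)
  have hcomp : ∀ s, ∑ i, Γ i s ≤ 1 → CompB pr ok (fun s => ∑ i, Γ i s) s
      (K * (Fintype.card ι + 1)) ((Fintype.card ι + 1) * ∑ i, B i) (∑ i, dl i) := by
    intro s hs
    have h1 : ∀ j, Γ j s ≤ 1 := fun j => (hle j s).trans hs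
    exact comp_sumB fun i => hc i s (fun j => hAp j s (h1 j)) h1
  have hS0 : ∀ s, 0 ≤ ∑ i, Γ i s := fun s => Finset.sum_nonneg fun i _ => hΓ i s
  have hBs : 0 ≤ ∑ i, B i := Finset.sum_nonneg fun i _ => hB i
  have he := engineB (pr := pr) hpr hpr1 hok hpk (Γ := fun s => ∑ i, Γ i s) hS0 (s0 := s0)
    (al := K * (Fintype.card ι + 1)) (be := (Fintype.card ι + 1) * ∑ i, B i) hs0
    hs1 (by positivity) (by positivity) (fun s hs => ⟨_, by linarith, hcomp s hs⟩)
  simp only [h0, Finset.sum_const_zero] at he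
  have hmono : ANP.Pr pr {o | ¬ ∀ i, Ap i (full o)} ≤
      ANP.Pr pr {o | 3 * s0 < ∑ i, Γ i (full o)} := by
    unfold ANP.Pr
    refine Finset.sum_le_sum_of_subset_of_nonneg ?_ fun o _ _ =>
      Finset.prod_nonneg fun w _ => hpr w _
    intro o ho
    simp only [Finset.mem_filter, Finset.mem_univ, true_and, Set.mem_setOf_eq] at ho ⊢
    by_contra hcon
    apply ho
    intro i
    refine hAp i _ ((hle i _).trans ?_)
    have := not_lt.1 hcon
    linarith
  refine (hmono.trans he).trans (le_of_eq ?_)
  rw [zero_div, zero_add]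

end Pool.Agent.ANS
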