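import Pool.Agent.ANS.ObsL
import Pool.Agent.ANS.DigW

/-! # ANS / ObsOk: the components gam, G_xy, (H3) in the language of St (helper52)

* `Stp.Ok.obsAt`, `Stp.Ok.etaAt`, `WtAt.const`: the abstract hypotheses of ObsG, ObsL from `Stp.Ok` and `Ent X 1 s`.
* functionals `GamD` (diagonal), `GamO` (all entries), `GamH` ((H3));
  `Stp.Ok.compD`, `Stp.Ok.compO`, `Stp.Ok.compH`: `CompAt`;
  `GamD_nil`, `GamO_nil`, `GamH_nil`: zero at the start;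
  `GamD_use`, `GamO_use`, `GamH_use`: what `Γ ≤ 1` gives.
-/

set_option autoImplicit false
set_option linter.unusedSectionVars false

open Finset Function Matrix

noncomputable section

namespace Pool.Agent.ANS

open Pool.Agent.Kin Pool.Agent.APS Pool.Agent.ANL

variable {T D : Type} [Fintype T] [DecidableEq T] [Fintype D] [DecidableEq D]

namespace Stp

/-- `|g_w|` at the noise sites, zero elsewhere -/
def gg (P : Stp T D) (be : T → ℝ) (s : T → Option D) (w : T) : ℝ :=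
  if be w = 0 then 0 else ‖P.G s w w - P.gt w‖

/-- the diagonal functional -/
def GamD (P : Stp T D) (X : Finset T) (e : T → ℝ) (a : ℝ) (p : ℕ) (s : T → Option D) : ℝ :=
  ∑ x : ↥X, e x.1 * (‖P.G s x.1 x.1 - P.G nil x.1 x.1‖ / a) ^ (2 * p)

/-- the functional of all entries -/
def GamO (P : Stp T D) (X : Finset T) (e : T → ℝ) (a : ℝ) (p : ℕ) (s : T → Option D) : ℝ :=
  ∑ x : ↥X × ↥X, e x.1.1 * e x.2.1 *
    (‖P.G s x.1.1 x.2.1 - P.G nil x.1.1 x.2.1‖ / a) ^ (2 * p)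

/-- the functional of (H3) for a family of pairs of weights -/
def GamH {L : Type} [Fintype L] (P : Stp T D) (X : Finset T) (e : T → ℝ) (rho : L → ℝ)
    (eps t : ℝ) (p : ℕ) (a z : L → (T → Option D) → T → ℝ) (s : T → Option D) : ℝ :=
  ∑ y : L × ↥X, rho y.1 * e y.2.1 *
    (max (h3F eps (P.G s) (a y.1 s) (z y.1 s) y.2.1) 0 / t) ^ (2 * p)

variable {P : Stp T D} {X N : Finset T} {c be e : T → ℝ} {C Lm : ℝ}

namespace Ok

variable (h : P.Ok X N c be e C Lm)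
include h

theorem be_N {w : T} (hw : be w ≠ 0) : w ∈ X := by
  by_contra hx
  exact hw (h.beN w fun h1 => hx (h.NX h1))

theorem obsAt {s : T → Option D} (hs : P.Ent X 1 s) {b0 : ℝ} (hb0 : ∀ w, be w ≤ b0)
    (hb00 : 0 ≤ b0) (hsm : 4000 * C ^ 5 * b0 ≤ 1) {tau Mc : ℝ} (htau0 : 0 ≤ tau)
    (htau : ∀ x ∈ X, ∑ w, be w ^ 2 * ‖P.G s x w‖ ^ 4 ≤ tau) (hcnt : ∑ w, be w ^ 2 ≤ Mc) :
    ObsAt P.g.P id (Subtype.val : ↥X → T) P.G (P.u s) s (fun x : ↥X => e x.1) be c (P.gg be s)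
      (250 * C ^ 3) b0 (16 * C ^ 2) C tau Mc (2 * Lm) := by
  have hC1 := h.C1
  have hC0 := h.C0
  have hC2 : 1 ≤ C ^ 2 := one_le_pow₀ hC1
  have hC3 : 1 ≤ C ^ 3 := one_le_pow₀ hC1
  have hCC : C ≤ C ^ 2 := by nlinarith
  have hC23 : C ^ 2 ≤ C ^ 3 := by
    calc C ^ 2 = C ^ 2 * 1 := (mul_one _).symm
      _ ≤ C ^ 2 * C := mul_le_mul_of_nonneg_left hC1 (sq_nonneg C)
      _ = C ^ 3 := by ring
  refine ⟨h.dig.P0, h.dig.P1, h.symm s, ?_, ?_, h.be0, hb0, h.c0, h.c_le, ?_, ?_, ?_, ?_,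
    fun x => (h.e0 x.1 x.2).le, ?_, ?_, hC0, hb00, htau0, ?_, ?_, ?_, ?_, ?_, ?_, ?_, hcnt, ?_⟩
  · intro w b x y
    rw [h.rank1]
    simp only [id]
    ring
  · intro w b
    refine (h.u_le hs w b).trans (mul_le_mul_of_nonneg_right (by linarith) (h.be0 w))
  · intro w
    unfold gg
    split_ifs
    · exact le_rfl
    · exact norm_nonneg _
  · intro w
    have h1 := h.Dl_le hs w
    unfold Dl at h1
    have hb := h.be0 w
    unfold gg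
    split_ifs with h0
    · refine h1.trans ?_
      rw [h0]
      simp
    · refine h1.trans (mul_le_mul_of_nonneg_left (add_le_add le_rfl ?_) (sq_nonneg _))
      exact mul_le_mul_of_nonneg_right (by linarith) hb
  · intro w
    have h1 := h.M2c_est hs w
    unfold M2c at h1
    have hb : 0 ≤ be w ^ 3 := pow_nonneg (h.be0 w) 3
    exact h1.trans (mul_le_mul_of_nonneg_right (by linarith) hb)
  · intro w
    have h1 := h.M2_est hs w
    unfold M2 at h1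
    have hb : 0 ≤ be w ^ 3 := pow_nonneg (h.be0 w) 3
    exact h1.trans (mul_le_mul_of_nonneg_right (by linarith) hb)
  · linarith
  · linarith
  · calc 250 * C ^ 3 * b0 * (16 * C ^ 2) = 4000 * C ^ 5 * b0 := by ring
      _ ≤ 1 := hsm
  · intro w hw
    have h1 := h.diaC hs (h.be_N hw)
    simp only [id]
    linarith
  · intro x w hw
    exact h.entL hs x.2 (h.be_N hw)
  · have := h.Lm1
    linarith
  · intro x
    have h1 := h.row_be hs x.2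
    unfold S at h1
    exact h1
  · intro w hw
    have h1 := h.row s hs w (h.be_N hw)
    rw [← Finset.sum_coe_sort X (fun x => e x * P.S s x w)] at h1
    unfold S at h1
    simp only [id]
    linarith
  · intro x
    exact htau x.1 x.2
  · intro f hf
    have h1 : ∑ w, be w ^ 2 * f (id w) = ∑ w ∈ X, be w ^ 2 * f w := by
      symm
      refine Finset.sum_subset (Finset.subset_univ X) fun w _ hw => ?_
      have : be w = 0 := by
        by_contra h0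
        exact hw (h.be_N h0)
      rw [this]
      simp
    rw [h1, ← Finset.sum_coe_sort X (fun w => be w ^ 2 * f w), Finset.mul_sum]
    refine Finset.sum_le_sum fun x _ => ?_
    calc be x.1 ^ 2 * f x.1 ≤ C * e x.1 * f x.1 := mul_le_mul_of_nonneg_right (h.ebe x.1) (hf _)
      _ = _ := by ring

theorem etaAt {s : T → Option D} (hs : P.Ent X 1 s) :
    EtaAt id (Subtype.val : ↥X → T) (P.G s) (P.eta s) be (16 * C ^ 2) := by
  have hC1 := h.C1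
  have hC0 := h.C0
  have hCC : C ≤ C ^ 2 := by nlinarith
  refine ⟨h.eta0 s, ?_, ?_, ?_⟩
  · intro x
    have h1 := h.ward_s s x.1
    have h2 := h.io_le hs x.2
    unfold S at h1
    linarith
  · intro w hw
    have h1 := h.ward_s s w
    have h2 := h.io_le hs (h.be_N hw)
    unfold S at h1
    simp only [id]
    linarith
  · intro f hf
    have hf' : ∀ x, x ∉ X → f x = 0 := fun x hx => hf x (h.etaU' s hx)
    have h1 := h.contr s f hf'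
    have h2 : ∀ w, be w ^ 2 * ‖∑ t, f t * P.G s (id w) t‖ ^ 2 ≤
        8 * C * (P.eta s w * ‖∑ y, P.G s w y * f y‖ ^ 2) := by
      intro w
      have e1 : ∑ t, f t * P.G s (id w) t = ∑ y, P.G s w y * f y :=
        Finset.sum_congr rfl fun t _ => mul_comm _ _
      rw [e1, ← mul_assoc]
      refine mul_le_mul_of_nonneg_right ?_ (sq_nonneg _)
      have e2 := h.bee w
      have e3 := h.etaLo s w
      nlinarith
    calc ∑ w, be w ^ 2 * ‖∑ t, f t * P.G s (id w) t‖ ^ 2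
        ≤ ∑ w, 8 * C * (P.eta s w * ‖∑ y, P.G s w y * f y‖ ^ 2) :=
          Finset.sum_le_sum fun w _ => h2 w
      _ = 8 * C * ∑ w, P.eta s w * ‖∑ y, P.G s w y * f y‖ ^ 2 := by rw [Finset.mul_sum]
      _ ≤ 8 * C * ∑ x ∈ X, ‖f x‖ ^ 2 / P.eta s x := mul_le_mul_of_nonneg_left h1 (by positivity)
      _ ≤ 16 * C ^ 2 * ∑ t, ‖f t‖ ^ 2 / P.eta s t := by
          refine mul_le_mul (by linarith) ?_ ?_ (by positivity)
          · exact Finset.sum_le_sum_of_subset_of_nonneg (Finset.subset_univ X) fun t _ _ =>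
              div_nonneg (sq_nonneg _) (h.eta0 s t)
          · exact Finset.sum_nonneg fun t _ => div_nonneg (sq_nonneg _) (h.eta0 s t)

/-- constant weights -/
theorem wtConst {s : T → Option D} {a : T → ℝ} {Cu : ℝ} (hCu : 0 ≤ Cu) (ha0 : ∀ t, 0 ≤ a t)
    (ha : ∀ t, 8 * a t ≤ P.eta nil t) :
    WtAt P.g.P id (P.eta s) be s Cu (fun _ => a) (fun _ _ => 0) where
  jump w b t := by simp
  a0 := ha0
  ae t := by
    have h1 := h.etaLo s t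
    have h2 := ha t
    linarith
  dab w b := by
    simp only [abs_zero]
    positivity
  dam w := by simp

theorem htau_of {s : T → Option D} {kb : ℝ} (hkb : ∀ w, be w ^ 2 ≤ kb) {tau : ℝ} {Y : Finset T}
    (hNY : N ⊆ Y) (ht : P.TauLe X Y (fun _ => tau) s) :
    ∀ x ∈ X, ∑ w, be w ^ 2 * ‖P.G s x w‖ ^ 4 ≤ kb * tau := by
  intro x hx
  have h1 : ∑ w, be w ^ 2 * ‖P.G s x w‖ ^ 4 = ∑ w ∈ Y, be w ^ 2 * ‖P.G s x w‖ ^ 4 := by
    symm
    refine Finset.sum_subset (Finset.subset_univ Y) fun w _ hw => ?_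
    rw [h.beN w fun h2 => hw (hNY h2)]
    simp
  rw [h1]
  have hkb0 : 0 ≤ kb := (sq_nonneg _).trans (hkb x)
  calc ∑ w ∈ Y, be w ^ 2 * ‖P.G s x w‖ ^ 4 ≤ ∑ w ∈ Y, kb * ‖P.G s x w‖ ^ 4 :=
        Finset.sum_le_sum fun w _ => mul_le_mul_of_nonneg_right (hkb w) (by positivity)
    _ = kb * ∑ w ∈ Y, ‖P.G s x w‖ ^ 4 := by rw [Finset.mul_sum]
    _ ≤ kb * tau := mul_le_mul_of_nonneg_left (ht x hx) hkb0

end Ok

/-! ### the functionals -/

theorem bs_nil (P : Stp T D) : P.bs nil = P.b := by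
  funext x
  simp [bs, nil, inc]

theorem G_nil_gt (P : Stp T D) (w : T) : P.G nil w w = P.gt w := by
  unfold G gt
  rw [bs_nil]

theorem GamD_nonneg (he : ∀ x ∈ X, 0 < e x) (a : ℝ) (p : ℕ) (s : T → Option D) :
    0 ≤ P.GamD X e a p s :=
  Finset.sum_nonneg fun x _ => mul_nonneg (he x.1 x.2).le ((even_two_mul p).pow_nonneg _)

theorem GamO_nonneg (he : ∀ x ∈ X, 0 < e x) (a : ℝ) (p : ℕ) (s : T → Option D) :
    0 ≤ P.GamO X e a p s :=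
  Finset.sum_nonneg fun x _ => mul_nonneg (mul_nonneg (he _ x.1.2).le (he _ x.2.2).le)
    ((even_two_mul p).pow_nonneg _)

theorem GamH_nonneg {L : Type} [Fintype L] (he : ∀ x ∈ X, 0 < e x) {rho : L → ℝ}
    (hrho : ∀ k, 0 ≤ rho k) (eps t : ℝ) (p : ℕ) (a z : L → (T → Option D) → T → ℝ)
    (s : T → Option D) : 0 ≤ P.GamH X e rho eps t p a z s :=
  Finset.sum_nonneg fun y _ => mul_nonneg (mul_nonneg (hrho _) (he _ y.2.2).le)
    ((even_two_mul p).pow_nonneg _)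

theorem GamD_nil (a : ℝ) {p : ℕ} (hp : 1 ≤ p) : P.GamD X e a p nil = 0 := by
  unfold GamD
  refine Finset.sum_eq_zero fun x _ => ?_
  rw [sub_self, norm_zero, zero_div, zero_pow (by omega), mul_zero]

theorem GamO_nil (a : ℝ) {p : ℕ} (hp : 1 ≤ p) : P.GamO X e a p nil = 0 := by
  unfold GamO
  refine Finset.sum_eq_zero fun x _ => ?_
  rw [sub_self, norm_zero, zero_div, zero_pow (by omega), mul_zero]

theorem GamH_nil {L : Type} [Fintype L] {rho : L → ℝ} {eps t : ℝ} (heps : 0 < eps) {p : ℕ}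
    (hp : 1 ≤ p) {a z : L → (T → Option D) → T → ℝ}
    (h3 : ∀ k, ∀ x ∈ X, ‖∑ y, P.G nil x y ^ 2 * (a k nil y : ℂ)‖ ≤
      ∑ y, ‖P.G nil x y‖ ^ 2 * z k nil y) : P.GamH X e rho eps t p a z nil = 0 := by
  unfold GamH
  refine Finset.sum_eq_zero fun y _ => ?_
  rw [max_eq_right (h3F_start heps _ _ _ _ (h3 y.1 y.2.1 y.2.2)), zero_div,
    zero_pow (by omega), mul_zero]

/-- `e_x (v / a)^(2p) ≤ 1` and `1 < e_x (a' / a)^(2p)` give `v ≤ a'` -/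
theorem use_pow {ex v a a' : ℝ} {p : ℕ} (ha : 0 < a) (ha' : 0 ≤ a')
    (h1 : ex * (v / a) ^ (2 * p) ≤ 1) (h2 : 1 < ex * (a' / a) ^ (2 * p)) (hex : 0 ≤ ex) :
    v ≤ a' := by
  by_contra hcon
  have h3 := not_le.1 hcon
  have h4 : (a' / a) ^ (2 * p) ≤ (v / a) ^ (2 * p) :=
    pow_le_pow_left₀ (div_nonneg ha' ha.le) (div_le_div_of_nonneg_right h3.le ha.le) _
  have h5 := mul_le_mul_of_nonneg_left h4 hex
  linarith

theorem GamD_use (he : ∀ x ∈ X, 0 < e x) {a a' : ℝ} (ha : 0 < a) (ha' : 0 ≤ a') {p : ℕ}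
    (hb : ∀ x ∈ X, 1 < e x * (a' / a) ^ (2 * p)) {s : T → Option D}
    (hs : P.GamD X e a p s ≤ 1) : ∀ x ∈ X, ‖P.G s x x - P.G nil x x‖ ≤ a' := by
  intro x hx
  refine use_pow ha ha' (le_trans ?_ hs) (hb x hx) (he x hx).le
  unfold GamD
  exact Finset.single_le_sum
    (f := fun x : ↥X => e x.1 * (‖P.G s x.1 x.1 - P.G nil x.1 x.1‖ / a) ^ (2 * p))
    (fun y _ => mul_nonneg (he y.1 y.2).le ((even_two_mul p).pow_nonneg _))
    (Finset.mem_univ (⟨x, hx⟩ : ↥X))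

theorem GamO_use (he : ∀ x ∈ X, 0 < e x) {a a' : ℝ} (ha : 0 < a) (ha' : 0 ≤ a') {p : ℕ}
    (hb : ∀ x ∈ X, ∀ y ∈ X, 1 < e x * e y * (a' / a) ^ (2 * p)) {s : T → Option D}
    (hs : P.GamO X e a p s ≤ 1) : P.Ent X a' s := by
  intro x hx y hy
  refine use_pow ha ha' (le_trans ?_ hs) (hb x hx y hy) (mul_nonneg (he x hx).le (he y hy).le)
  unfold GamO
  exact Finset.single_le_sum
    (f := fun x : ↥X × ↥X => e x.1.1 * e x.2.1 *
      (‖P.G s x.1.1 x.2.1 - P.G nil x.1.1 x.2.1‖ / a) ^ (2 * p))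
    (fun y _ => mul_nonneg (mul_nonneg (he _ y.1.2).le (he _ y.2.2).le)
      ((even_two_mul p).pow_nonneg _))
    (Finset.mem_univ ((⟨x, hx⟩, ⟨y, hy⟩) : ↥X × ↥X))

theorem GamH_use {L : Type} [Fintype L] (he : ∀ x ∈ X, 0 < e x) {rho : L → ℝ}
    (hrho : ∀ k, 0 ≤ rho k) {eps t t' : ℝ} (ht : 0 < t) (ht' : 0 ≤ t') {p : ℕ}
    {a z : L → (T → Option D) → T → ℝ} {k : L}
    (hb : ∀ x ∈ X, 1 < rho k * e x * (t' / t) ^ (2 * p)) {s : T → Option D}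
    (hs : P.GamH X e rho eps t p a z s ≤ 1) :
    ∀ x ∈ X, ‖∑ y, P.G s x y ^ 2 * (a k s y : ℂ)‖ ≤
      ∑ y, ‖P.G s x y‖ ^ 2 * z k s y + (eps + t') := by
  intro x hx
  have h1 : max (h3F eps (P.G s) (a k s) (z k s) x) 0 ≤ t' := by
    refine use_pow ht ht' (le_trans ?_ hs) (hb x hx) (mul_nonneg (hrho k) (he x hx).le)
    unfold GamH
    exact Finset.single_le_sum
      (f := fun y : L × ↥X => rho y.1 * e y.2.1 *
        (max (h3F eps (P.G s) (a y.1 s) (z y.1 s) y.2.1) 0 / t) ^ (2 * p))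
      (fun y _ => mul_nonneg (mul_nonneg (hrho _) (he _ y.2.2).le)
        ((even_two_mul p).pow_nonneg _))
      (Finset.mem_univ ((k, ⟨x, hx⟩) : L × ↥X))
  have h2 := h3F_use (eps := eps) (P.G s) (a k s) (z k s) x
  have h3 := le_max_left (h3F eps (P.G s) (a k s) (z k s) x) 0
  linarith

/-- constants of the components -/
def KO (p : ℕ) (C : ℝ) : ℝ := KP p * (1 + (64 * C ^ 2) ^ (2 * p) * C)

namespace Ok

variable (h : P.Ok X N c be e C Lm)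
include h

/-- DIAGONAL COMPONENT -/
theorem compD (p : ℕ) (hp : 2 ≤ p) {s : T → Option D} (hs : P.Ent X 1 s) {b0 : ℝ}
    (hb0 : ∀ w, be w ≤ b0) (hb00 : 0 ≤ b0) (hsm : 4000 * C ^ 5 * b0 ≤ 1) {tau Mc : ℝ}
    (htau0 : 0 ≤ tau) (htau : ∀ x ∈ X, ∑ w, be w ^ 2 * ‖P.G s x w‖ ^ 4 ≤ tau)
    (hcnt : ∑ w, be w ^ 2 ≤ Mc) {a dl : ℝ} (ha : 0 < a) (hdl : 0 < dl) (hdl1 : dl ≤ 1)
    (hbd : KP p * (((250 * C ^ 3) ^ 2 * tau / a ^ 2) ^ (p - 1) *
      ((250 * C ^ 3) ^ 2 * (16 * C ^ 2) * (2 * Lm) ^ 2 * Mc / a ^ 2)) ≤ dl ^ (2 * p))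
    (h1 : P.GamD X e a p s ≤ 1) :
    CompAt P.g.P (P.GamD X e a p) s (KP p * (1 + (2 * (16 * C ^ 2)) ^ (2 * p) * C))
      (KP p * ((2 * (16 * C ^ 2)) ^ (2 * p) * (250 * C ^ 3 * b0 / a) ^ (2 * p) * Mc +
        ((250 * C ^ 3) ^ 2 * tau / a ^ 2) ^ (p - 1) *
          ((250 * C ^ 3) ^ 2 * (16 * C ^ 2) * (2 * Lm) ^ 2 * Mc / a ^ 2))) dl := by
  have hO := h.obsAt hs hb0 hb00 hsm htau0 htau hcnt
  refine obs_diag p hp hO (fun t => P.G nil t t) (fun w => ?_) ha hdl hdl1 hbd h1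
  unfold gg
  split_ifs
  · exact norm_nonneg _
  · simp only [id]
    rw [G_nil_gt]

/-- COMPONENT OF ALL ENTRIES -/
theorem compO (p : ℕ) (hp : 2 ≤ p) {s : T → Option D} (hs : P.Ent X 1 s) {b0 : ℝ}
    (hb0 : ∀ w, be w ≤ b0) (hb00 : 0 ≤ b0) (hsm : 4000 * C ^ 5 * b0 ≤ 1) {tau Mc : ℝ}
    (htau0 : 0 ≤ tau) (htau : ∀ x ∈ X, ∑ w, be w ^ 2 * ‖P.G s x w‖ ^ 4 ≤ tau)
    (hcnt : ∑ w, be w ^ 2 ≤ Mc) {gm : ℝ} (hgm0 : 0 ≤ gm)
    (hgm : ∀ x ∈ X, ‖P.G s x x - P.G nil x x‖ ≤ gm) {a dl : ℝ} (ha : 0 < a) (hdl : 0 < dl)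
    (hdl1 : dl ≤ 1)
    (hbd : KP p * (((250 * C ^ 3) ^ 2 * tau / a ^ 2) ^ (p - 1) *
      ((250 * C ^ 3) ^ 2 * (16 * C ^ 2) ^ 2 * Mc / a ^ 2)) ≤ dl ^ (2 * p))
    (h1 : P.GamO X e a p s ≤ 1) :
    CompAt P.g.P (P.GamO X e a p) s (KP p)
      (KP p * (((gm + 250 * C ^ 3 * b0) * (16 * C ^ 2) / a) ^ (2 * (p - 1)) *
          ((gm + 250 * C ^ 3 * b0) * (16 * C ^ 2) * Mc / a) ^ 2 +
        ((250 * C ^ 3) ^ 2 * tau / a ^ 2) ^ (p - 1) *
          ((250 * C ^ 3) ^ 2 * (16 * C ^ 2) ^ 2 * Mc / a ^ 2))) dl := by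
  have hO := h.obsAt hs hb0 hb00 hsm htau0 htau hcnt
  refine obs_off p hp hO (fun x y => P.G nil x y) (gm := gm) (fun w => ?_) hgm0 ha hdl hdl1 hbd h1
  unfold gg
  split_ifs with h0
  · exact hgm0
  · rw [← G_nil_gt]
    exact hgm w (h.be_N h0)

/-- (H3) COMPONENT -/
theorem compH {L : Type} [Fintype L] (p : ℕ) (hp : 2 ≤ p) {s : T → Option D} (hs : P.Ent X 1 s)
    {b0 : ℝ} (hb0 : ∀ w, be w ≤ b0) (hb00 : 0 ≤ b0) (hsm : 4000 * C ^ 5 * b0 ≤ 1) {tau Mc : ℝ}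
    (htau0 : 0 ≤ tau) (htau : ∀ x ∈ X, ∑ w, be w ^ 2 * ‖P.G s x w‖ ^ 4 ≤ tau)
    (hcnt : ∑ w, be w ^ 2 ≤ Mc) {gm : ℝ} (hgm0 : 0 ≤ gm)
    (hgm : ∀ x ∈ X, ‖P.G s x x - P.G nil x x‖ ≤ gm) (a z : L → (T → Option D) → T → ℝ)
    (da dz : L → T → Option D → ℝ)
    (ha : ∀ k, WtAt P.g.P id (P.eta s) be s (250 * C ^ 3) (a k) (da k))
    (hz : ∀ k, WtAt P.g.P id (P.eta s) be s (250 * C ^ 3) (z k) (dz k)) {rho : L → ℝ}
    (hrho : ∀ k, 0 ≤ rho k) (hrho1 : ∑ k, rho k ≤ 1) {eps t t2 dl : ℝ} (heps : 0 < eps)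
    (ht : 0 < t) (ht2 : tau ≤ t2 ^ 2) (ht0 : 0 ≤ t2) (ht1 : t2 ≤ 1) (hdl : 0 < dl)
    (hdl1 : dl ≤ 1)
    (hbd : KP p * ((232 * (250 * C ^ 3) ^ 2 * (16 * C ^ 2) ^ 2 * t2 / t ^ 2) ^ (p - 1) *
      (232 * (250 * C ^ 3) ^ 2 * (16 * C ^ 2) ^ 3 * (2 * Lm) ^ 2 * Mc / t ^ 2)) ≤ dl ^ (2 * p))
    (h1 : P.GamH X e rho eps t p a z s ≤ 1) :
    CompAt P.g.P (P.GamH X e rho eps t p a z) s
      (KP p * (1 + (4 * (16 * C ^ 2)) ^ (2 * p) * C))
      (KP p * (4 ^ (2 * p) * ((16 * C ^ 2 * (eps + 14 * (250 * C ^ 3) ^ 2 * (16 * C ^ 2) * b0) /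
            t) ^ (2 * p) * Mc +
        (16 * (gm + 250 * C ^ 3 * b0) ^ 2 * (16 * C ^ 2) ^ 3 / t ^ 2) ^ p * Mc +
        (464 * (250 * C ^ 3) ^ 2 * (16 * C ^ 2) ^ 2 * t2 / (eps * t)) ^ (2 * p - 1) *
          (464 * (250 * C ^ 3) ^ 2 * (16 * C ^ 2) ^ 3 * (2 * Lm) ^ 2 * Mc / (eps * t))) +
        (232 * (250 * C ^ 3) ^ 2 * (16 * C ^ 2) ^ 2 * t2 / t ^ 2) ^ (p - 1) *
          (232 * (250 * C ^ 3) ^ 2 * (16 * C ^ 2) ^ 3 * (2 * Lm) ^ 2 * Mc / t ^ 2))) dl := by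
  have hO := h.obsAt hs hb0 hb00 hsm htau0 htau hcnt
  have hE := h.etaAt hs
  refine obs_h3 p hp hO hE a z da dz ha hz rho hrho hrho1 (gm := gm) heps (fun w => ?_) hgm0 ht ht2
    ht0 ht1 hdl hdl1 hbd h1
  unfold gg
  split_ifs with h0
  · exact hgm0
  · rw [← G_nil_gt]
    exact hgm w (h.be_N h0)

end Ok

end Stp

end Pool.Agent.ANS
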