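import Pool.Agent.ANS.ObsLB
import Pool.Agent.ANS.ObsOk
import Pool.Agent.ANS.DigB

/-! # ANS / ObsOkB: the components gam, G_xy, (H3) in the language of StB, general laws (helper52)

* `Stp.OkB.obsAt`, `Stp.OkB.etaAt`, `WtAt.ofA`, `Stp.OkB.htau_of`: the abstract hypotheses of ObsGB, ObsLB from `Stp.OkB` and
  `Ent X 1 s`.
  Rows of the functionals: any `Xr`, `N ⊆ Xr ⊆ X` (the far inert sites are not rows).
* functionals `GamDB` (diagonal), `GamOB` (all entries), `GamHB` ((H3)), counting weights `e x (s x)`;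
  `Stp.OkB.compD`, `Stp.OkB.compO`, `Stp.OkB.compH`: `CompB`;
  `GamDB_nil`, `GamOB_nil`, `GamHB_nil`: zero at the start;
  `GamDB_use`, `GamOB_use`, `GamHB_use`: what `Γ ≤ 1` gives.
-/

set_option autoImplicit false
set_option linter.unusedSectionVars false

open Finset Function Matrix

noncomputable section

namespace Pool.Agent.ANS

open Pool.Agent.Kin Pool.Agent.APS Pool.Agent.ANL

variable {T D : Type} [Fintype T] [DecidableEq T] [Fintype D] [DecidableEq D]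

/-- a weight for the uniform engine is a weight for the engine with good values -/
theorem PB.WtAt.ofA {pr : T → D → ℝ} (ok : T → Option D → Prop) {eta be : T → ℝ}
    {s : T → Option D} {Cu : ℝ} {a : (T → Option D) → T → ℝ} {da : T → Option D → ℝ}
    (h : _root_.Pool.Agent.ANS.WtAt pr id eta be s Cu a da) : PB.WtAt pr ok id eta (bo ok be s) s Cu a da where
  jump w _ b t := h.jump w b t
  a0 := h.a0
  ae := h.ae
  dab w hw b := by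
    rw [bo_ok hw]
    exact h.dab w b
  dam w _ := h.dam w

namespace Stp

/-- the diagonal functional -/
def GamDB (P : Stp T D) (X : Finset T) (e : T → Option D → ℝ) (a : ℝ) (p : ℕ)
    (s : T → Option D) : ℝ :=
  ∑ x : ↥X, e x.1 (s x.1) * (‖P.G s x.1 x.1 - P.G nil x.1 x.1‖ / a) ^ (2 * p)

/-- the functional of all entries -/
def GamOB (P : Stp T D) (X : Finset T) (e : T → Option D → ℝ) (a : ℝ) (p : ℕ)
    (s : T → Option D) : ℝ :=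
  ∑ x : ↥X × ↥X, e x.1.1 (s x.1.1) * e x.2.1 (s x.2.1) *
    (‖P.G s x.1.1 x.2.1 - P.G nil x.1.1 x.2.1‖ / a) ^ (2 * p)

/-- the functional of (H3) for a family of pairs of weights -/
def GamHB {L : Type} [Fintype L] (P : Stp T D) (X : Finset T) (e : T → Option D → ℝ)
    (rho : L → ℝ) (eps t : ℝ) (p : ℕ) (a z : L → (T → Option D) → T → ℝ)
    (s : T → Option D) : ℝ :=
  ∑ y : L × ↥X, rho y.1 * e y.2.1 (s y.2.1) *
    (max (h3F eps (P.G s) (a y.1 s) (z y.1 s) y.2.1) 0 / t) ^ (2 * p)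

variable {P : Stp T D} {X N : Finset T} {c be : T → ℝ} {e : T → Option D → ℝ} {C Lm : ℝ}
  {ok : T → Option D → Prop}

namespace OkB

variable (h : P.OkB ok X N c be e C Lm)
include h

theorem bo_X {s : T → Option D} {w : T} (hw : bo ok be s w ≠ 0) : w ∈ X := by
  by_contra hx
  exact hw (h.bo_N fun h1 => hx (h.NX h1))

theorem obsAt {Xr : Finset T} (hXr : Xr ⊆ X) (hNr : N ⊆ Xr) {s : T → Option D}
    (hs : P.Ent X 1 s) {b0 : ℝ} (hb0 : ∀ w, be w ≤ b0)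
    (hb00 : 0 ≤ b0) (hsm : 500 * C ^ 6 * b0 ≤ 1) {tau Mc : ℝ} (htau0 : 0 ≤ tau)
    (htau : ∀ x ∈ Xr, ∑ w, bo ok be s w ^ 2 * ‖P.G s x w‖ ^ 4 ≤ tau) (hcnt : ∑ w, be w ^ 2 ≤ Mc) :
    PB.ObsAt P.g.P ok id (Subtype.val : ↥Xr → T) P.G (P.u s) s (fun x s' => e x.1 (s' x.1))
      (bo ok be s) (bo ok c s) (P.gg be s) (250 * C ^ 3) b0 (2 * C ^ 3) C tau Mc (2 * Lm) := by
  have hC1 := h.C1
  have hC0 := h.C0
  have hC2 : 1 ≤ C ^ 2 := one_le_pow₀ hC1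
  have hC3 : 1 ≤ C ^ 3 := one_le_pow₀ hC1
  have hCC : C ≤ C ^ 2 := by nlinarith
  have hC23 : C ^ 2 ≤ C ^ 3 := by
    calc C ^ 2 = C ^ 2 * 1 := (mul_one _).symm
      _ ≤ C ^ 2 * C := mul_le_mul_of_nonneg_left hC1 (sq_nonneg C)
      _ = C ^ 3 := by ring
  refine ⟨h.dig.P0, h.dig.P1, h.symm s, ?_, ?_, fun w hw => bo_bad hw, h.bo0 s,
    fun w => (h.bo_le s w).trans (hb0 w), ?_, ?_, ?_, ?_, ?_, ?_,
    fun x s' => (h.e0 x.1 (hXr x.2) (s' x.1)).le, ?_, ?_, ?_, ?_, hC0, hb00, htau0, ?_, ?_, ?_, ?_, ?_, ?_, ?_,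
    ?_, ?_⟩
  · intro w _ b x y
    rw [h.rank1]
    simp only [id]
    ring
  · intro w hw b
    rw [bo_ok hw]
    refine (h.u_le hs w b).trans (mul_le_mul_of_nonneg_right (by linarith) (h.be0 w))
  · intro w
    by_cases hw : ok w (s w)
    · rw [bo_ok hw]
      exact h.c0 w
    · rw [bo_bad hw]
  · intro w
    by_cases hw : ok w (s w)
    · rw [bo_ok hw, bo_ok hw]
      exact h.c_le w
    · rw [bo_bad hw, bo_bad hw]
      norm_num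
  · intro w
    unfold gg
    split_ifs
    · exact le_rfl
    · exact norm_nonneg _
  · intro w hw
    rw [bo_ok hw]
    have h1 := h.Dl_le hs w
    unfold Dl at h1
    have hb := h.be0 w
    unfold gg
    split_ifs with h0
    · refine h1.trans ?_
      rw [h0]
      simp
    · refine h1.trans (mul_le_mul_of_nonneg_left (add_le_add le_rfl ?_) (sq_nonneg _))
      exact mul_le_mul_of_nonneg_right (by linarith) hb
  · intro w hw
    rw [bo_ok hw, bo_ok hw]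
    have h1 := h.M2c_est hs w
    unfold M2c at h1
    have hb : 0 ≤ be w ^ 3 := pow_nonneg (h.be0 w) 3
    exact h1.trans (mul_le_mul_of_nonneg_right (by linarith) hb)
  · intro w hw
    rw [bo_ok hw, bo_ok hw]
    have h1 := h.M2_est hs w
    unfold M2 at h1
    have hb : 0 ≤ be w ^ 3 := pow_nonneg (h.be0 w) 3
    exact h1.trans (mul_le_mul_of_nonneg_right (by linarith) hb)
  · intro w hw x
    exact (h.e_none s hw x.1).le
  · intro w hw b x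
    exact h.e_up s hw b x.1
  · linarith
  · linarith
  · calc 250 * C ^ 3 * b0 * (2 * C ^ 3) = 500 * C ^ 6 * b0 := by ring
      _ ≤ 1 := hsm
  · intro w hw
    have h1 := h.diaC hs (h.bo_X hw)
    simp only [id]
    linarith
  · intro x w hw
    exact h.entL hs (hXr x.2) (h.bo_X hw)
  · have := h.Lm1
    linarith
  · intro x
    have h1 := h.row_be hs (hXr x.2)
    unfold S at h1
    exact h1
  · intro w hw
    have h1 : ∑ x ∈ Xr, e x (s x) * P.S s x w ≤ C :=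
      (Finset.sum_le_sum_of_subset_of_nonneg hXr fun x hx _ =>
        mul_nonneg (h.e0 x hx (s x)).le (sq_nonneg _)).trans (h.col_e hs (h.bo_X hw))
    rw [← Finset.sum_coe_sort Xr (fun x => e x (s x) * P.S s x w)] at h1
    unfold S at h1
    simp only [id]
    linarith
  · intro x
    exact htau x.1 x.2
  · exact (Finset.sum_le_sum fun w _ => h.bo_sq s w).trans hcnt
  · intro f hf
    have h1 : ∑ w, bo ok be s w ^ 2 * f (id w) = ∑ w ∈ Xr, bo ok be s w ^ 2 * f w := by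
      symm
      refine Finset.sum_subset (Finset.subset_univ Xr) fun w _ hw => ?_
      have : bo ok be s w = 0 := h.bo_N fun h1 => hw (hNr h1)
      rw [this]
      simp
    rw [h1, ← Finset.sum_coe_sort Xr (fun w => bo ok be s w ^ 2 * f w), Finset.mul_sum]
    refine Finset.sum_le_sum fun x _ => ?_
    have h2 : bo ok be s x.1 ^ 2 ≤ C * e x.1 (s x.1) := by
      by_cases hx : ok x.1 (s x.1)
      · rw [bo_ok hx]
        exact h.be_e s hx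
      · rw [bo_bad hx]
        have := (h.e0 x.1 (hXr x.2) (s x.1)).le
        have h3 : 0 ≤ C * e x.1 (s x.1) := mul_nonneg hC0 this
        simpa using h3
    calc bo ok be s x.1 ^ 2 * f x.1 ≤ C * e x.1 (s x.1) * f x.1 :=
          mul_le_mul_of_nonneg_right h2 (hf _)
      _ = _ := by ring

theorem etaAt {Xr : Finset T} (hXr : Xr ⊆ X) {s : T → Option D} (hs : P.Ent X 1 s) :
    EtaAt id (Subtype.val : ↥Xr → T) (P.G s) (P.eta s) (bo ok be s) (2 * C ^ 3) := by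
  have hC1 := h.C1
  have hC0 := h.C0
  have hCC : C ≤ C ^ 2 := by nlinarith
  have hC23 : C ^ 2 ≤ C ^ 3 := by
    calc C ^ 2 = C ^ 2 * 1 := (mul_one _).symm
      _ ≤ C ^ 2 * C := mul_le_mul_of_nonneg_left hC1 (sq_nonneg C)
      _ = C ^ 3 := by ring
  have hC30 : 0 ≤ C ^ 3 := by positivity
  refine ⟨h.eta0 s, ?_, ?_, ?_⟩
  · intro x
    have h1 := h.ward_s s x.1
    have h2 := h.io_le hs (hXr x.2)
    unfold S at h1
    linarith
  · intro w hw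
    have h1 := h.ward_s s w
    have h2 := h.io_le hs (h.bo_X hw)
    unfold S at h1
    simp only [id]
    linarith
  · intro f hf
    have hf' : ∀ x, x ∉ X → f x = 0 := fun x hx => hf x (h.etaU' s hx)
    have h1 := h.contr s f hf'
    have h2 : ∀ w, bo ok be s w ^ 2 * ‖∑ t, f t * P.G s (id w) t‖ ^ 2 ≤
        C ^ 2 * (P.eta s w * ‖∑ y, P.G s w y * f y‖ ^ 2) := by
      intro w
      have e1 : ∑ t, f t * P.G s (id w) t = ∑ y, P.G s w y * f y :=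
        Finset.sum_congr rfl fun t _ => mul_comm _ _
      rw [e1, ← mul_assoc]
      exact mul_le_mul_of_nonneg_right (h.be_eta s w) (sq_nonneg _)
    calc ∑ w, bo ok be s w ^ 2 * ‖∑ t, f t * P.G s (id w) t‖ ^ 2
        ≤ ∑ w, C ^ 2 * (P.eta s w * ‖∑ y, P.G s w y * f y‖ ^ 2) :=
          Finset.sum_le_sum fun w _ => h2 w
      _ = C ^ 2 * ∑ w, P.eta s w * ‖∑ y, P.G s w y * f y‖ ^ 2 := by rw [Finset.mul_sum]
      _ ≤ C ^ 2 * ∑ x ∈ X, ‖f x‖ ^ 2 / P.eta s x := mul_le_mul_of_nonneg_left h1 (by positivity)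
      _ ≤ 2 * C ^ 3 * ∑ t, ‖f t‖ ^ 2 / P.eta s t := by
          refine mul_le_mul (by linarith) ?_ ?_ (by positivity)
          · exact Finset.sum_le_sum_of_subset_of_nonneg (Finset.subset_univ X) fun t _ _ =>
              div_nonneg (sq_nonneg _) (h.eta0 s t)
          · exact Finset.sum_nonneg fun t _ => div_nonneg (sq_nonneg _) (h.eta0 s t)

/-- the (H2) sum with the sizes of the good sites -/
theorem htau_of {Xr : Finset T} {s : T → Option D} {kb : ℝ} (hkb : ∀ w, be w ^ 2 ≤ kb) {tau : ℝ}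
    {Y : Finset T} (hNY : N ⊆ Y) (ht : P.TauLe Xr Y (fun _ => tau) s) :
    ∀ x ∈ Xr, ∑ w, bo ok be s w ^ 2 * ‖P.G s x w‖ ^ 4 ≤ kb * tau := by
  intro x hx
  have h1 : ∑ w, bo ok be s w ^ 2 * ‖P.G s x w‖ ^ 4 =
      ∑ w ∈ Y, bo ok be s w ^ 2 * ‖P.G s x w‖ ^ 4 := by
    symm
    refine Finset.sum_subset (Finset.subset_univ Y) fun w _ hw => ?_
    rw [h.bo_N fun h2 => hw (hNY h2)]
    simp
  rw [h1]
  have hkb0 : 0 ≤ kb := (sq_nonneg _).trans (hkb x)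
  calc ∑ w ∈ Y, bo ok be s w ^ 2 * ‖P.G s x w‖ ^ 4 ≤ ∑ w ∈ Y, kb * ‖P.G s x w‖ ^ 4 :=
        Finset.sum_le_sum fun w _ =>
          mul_le_mul_of_nonneg_right ((h.bo_sq s w).trans (hkb w)) (by positivity)
    _ = kb * ∑ w ∈ Y, ‖P.G s x w‖ ^ 4 := by rw [Finset.mul_sum]
    _ ≤ kb * tau := mul_le_mul_of_nonneg_left (ht x hx) hkb0

/-- the (H2) sum over a set `Y s` which contains the good noise sites -/
theorem htau_of' {Xr : Finset T} {s : T → Option D} {kb : ℝ} (hkb : ∀ w, be w ^ 2 ≤ kb) {tau : ℝ}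
    {Y : Finset T} (hNY : ∀ w ∈ N, ok w (s w) → w ∈ Y) (ht : P.TauLe Xr Y (fun _ => tau) s) :
    ∀ x ∈ Xr, ∑ w, bo ok be s w ^ 2 * ‖P.G s x w‖ ^ 4 ≤ kb * tau := by
  intro x hx
  have h1 : ∑ w, bo ok be s w ^ 2 * ‖P.G s x w‖ ^ 4 =
      ∑ w ∈ Y, bo ok be s w ^ 2 * ‖P.G s x w‖ ^ 4 := by
    symm
    refine Finset.sum_subset (Finset.subset_univ Y) fun w _ hw => ?_
    have h2 : bo ok be s w = 0 := by
      by_cases hN : w ∈ N
      · exact bo_bad fun h3 => hw (hNY w hN h3)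
      · exact h.bo_N hN
    rw [h2]
    simp
  rw [h1]
  have hkb0 : 0 ≤ kb := (sq_nonneg _).trans (hkb x)
  calc ∑ w ∈ Y, bo ok be s w ^ 2 * ‖P.G s x w‖ ^ 4 ≤ ∑ w ∈ Y, kb * ‖P.G s x w‖ ^ 4 :=
        Finset.sum_le_sum fun w _ =>
          mul_le_mul_of_nonneg_right ((h.bo_sq s w).trans (hkb w)) (by positivity)
    _ = kb * ∑ w ∈ Y, ‖P.G s x w‖ ^ 4 := by rw [Finset.mul_sum]
    _ ≤ kb * tau := mul_le_mul_of_nonneg_left (ht x hx) hkb0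

end OkB

/-! ### the functionals -/

theorem GamDB_nonneg (he : ∀ x ∈ X, ∀ b, 0 < e x b) (a : ℝ) (p : ℕ) (s : T → Option D) :
    0 ≤ P.GamDB X e a p s :=
  Finset.sum_nonneg fun x _ => mul_nonneg (he x.1 x.2 _).le ((even_two_mul p).pow_nonneg _)

theorem GamOB_nonneg (he : ∀ x ∈ X, ∀ b, 0 < e x b) (a : ℝ) (p : ℕ) (s : T → Option D) :
    0 ≤ P.GamOB X e a p s :=
  Finset.sum_nonneg fun x _ => mul_nonneg (mul_nonneg (he _ x.1.2 _).le (he _ x.2.2 _).le)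
    ((even_two_mul p).pow_nonneg _)

theorem GamHB_nonneg {L : Type} [Fintype L] (he : ∀ x ∈ X, ∀ b, 0 < e x b) {rho : L → ℝ}
    (hrho : ∀ k, 0 ≤ rho k) (eps t : ℝ) (p : ℕ) (a z : L → (T → Option D) → T → ℝ)
    (s : T → Option D) : 0 ≤ P.GamHB X e rho eps t p a z s :=
  Finset.sum_nonneg fun y _ => mul_nonneg (mul_nonneg (hrho _) (he _ y.2.2 _).le)
    ((even_two_mul p).pow_nonneg _)

theorem GamDB_nil (a : ℝ) {p : ℕ} (hp : 1 ≤ p) : P.GamDB X e a p nil = 0 := by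
  unfold GamDB
  refine Finset.sum_eq_zero fun x _ => ?_
  rw [sub_self, norm_zero, zero_div, zero_pow (by omega), mul_zero]

theorem GamOB_nil (a : ℝ) {p : ℕ} (hp : 1 ≤ p) : P.GamOB X e a p nil = 0 := by
  unfold GamOB
  refine Finset.sum_eq_zero fun x _ => ?_
  rw [sub_self, norm_zero, zero_div, zero_pow (by omega), mul_zero]

theorem GamHB_nil {L : Type} [Fintype L] {rho : L → ℝ} {eps t : ℝ} (heps : 0 < eps) {p : ℕ}
    (hp : 1 ≤ p) {a z : L → (T → Option D) → T → ℝ}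
    (h3 : ∀ k, ∀ x ∈ X, ‖∑ y, P.G nil x y ^ 2 * (a k nil y : ℂ)‖ ≤
      ∑ y, ‖P.G nil x y‖ ^ 2 * z k nil y) : P.GamHB X e rho eps t p a z nil = 0 := by
  unfold GamHB
  refine Finset.sum_eq_zero fun y _ => ?_
  rw [max_eq_right (h3F_start heps _ _ _ _ (h3 y.1 y.2.1 y.2.2)), zero_div,
    zero_pow (by omega), mul_zero]

theorem GamDB_use (he : ∀ x ∈ X, ∀ b, 0 < e x b) {a a' : ℝ} (ha : 0 < a) (ha' : 0 ≤ a') {p : ℕ}
    (hb : ∀ x ∈ X, ∀ b, 1 < e x b * (a' / a) ^ (2 * p)) {s : T → Option D}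
    (hs : P.GamDB X e a p s ≤ 1) : ∀ x ∈ X, ‖P.G s x x - P.G nil x x‖ ≤ a' := by
  intro x hx
  refine use_pow ha ha' (le_trans ?_ hs) (hb x hx (s x)) (he x hx _).le
  unfold GamDB
  exact Finset.single_le_sum
    (f := fun x : ↥X => e x.1 (s x.1) * (‖P.G s x.1 x.1 - P.G nil x.1 x.1‖ / a) ^ (2 * p))
    (fun y _ => mul_nonneg (he y.1 y.2 _).le ((even_two_mul p).pow_nonneg _))
    (Finset.mem_univ (⟨x, hx⟩ : ↥X))

theorem GamOB_use (he : ∀ x ∈ X, ∀ b, 0 < e x b) {a a' : ℝ} (ha : 0 < a) (ha' : 0 ≤ a') {p : ℕ}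
    (hb : ∀ x ∈ X, ∀ y ∈ X, ∀ b b', 1 < e x b * e y b' * (a' / a) ^ (2 * p))
    {s : T → Option D} (hs : P.GamOB X e a p s ≤ 1) : P.Ent X a' s := by
  intro x hx y hy
  refine use_pow ha ha' (le_trans ?_ hs) (hb x hx y hy (s x) (s y))
    (mul_nonneg (he x hx _).le (he y hy _).le)
  unfold GamOB
  exact Finset.single_le_sum
    (f := fun x : ↥X × ↥X => e x.1.1 (s x.1.1) * e x.2.1 (s x.2.1) *
      (‖P.G s x.1.1 x.2.1 - P.G nil x.1.1 x.2.1‖ / a) ^ (2 * p))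
    (fun y _ => mul_nonneg (mul_nonneg (he _ y.1.2 _).le (he _ y.2.2 _).le)
      ((even_two_mul p).pow_nonneg _))
    (Finset.mem_univ ((⟨x, hx⟩, ⟨y, hy⟩) : ↥X × ↥X))

theorem GamHB_use {L : Type} [Fintype L] (he : ∀ x ∈ X, ∀ b, 0 < e x b) {rho : L → ℝ}
    (hrho : ∀ k, 0 ≤ rho k) {eps t t' : ℝ} (ht : 0 < t) (ht' : 0 ≤ t') {p : ℕ}
    {a z : L → (T → Option D) → T → ℝ} {k : L}
    (hb : ∀ x ∈ X, ∀ b, 1 < rho k * e x b * (t' / t) ^ (2 * p)) {s : T → Option D}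
    (hs : P.GamHB X e rho eps t p a z s ≤ 1) :
    ∀ x ∈ X, ‖∑ y, P.G s x y ^ 2 * (a k s y : ℂ)‖ ≤
      ∑ y, ‖P.G s x y‖ ^ 2 * z k s y + (eps + t') := by
  intro x hx
  have h1 : max (h3F eps (P.G s) (a k s) (z k s) x) 0 ≤ t' := by
    refine use_pow ht ht' (le_trans ?_ hs) (hb x hx (s x)) (mul_nonneg (hrho k) (he x hx _).le)
    unfold GamHB
    exact Finset.single_le_sum
      (f := fun y : L × ↥X => rho y.1 * e y.2.1 (s y.2.1) *
        (max (h3F eps (P.G s) (a y.1 s) (z y.1 s) y.2.1) 0 / t) ^ (2 * p))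
      (fun y _ => mul_nonneg (mul_nonneg (hrho _) (he _ y.2.2 _).le)
        ((even_two_mul p).pow_nonneg _))
      (Finset.mem_univ ((k, ⟨x, hx⟩) : L × ↥X))
  have h2 := h3F_use (eps := eps) (P.G s) (a k s) (z k s) x
  have h3 := le_max_left (h3F eps (P.G s) (a k s) (z k s) x) 0
  linarith

namespace OkB

variable (h : P.OkB ok X N c be e C Lm)
include h

/-- DIAGONAL COMPONENT -/
theorem compD {Xr : Finset T} (hXr : Xr ⊆ X) (hNr : N ⊆ Xr) (p : ℕ) (hp : 2 ≤ p) {s : T → Option D} (hs : P.Ent X 1 s) {b0 : ℝ}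
    (hb0 : ∀ w, be w ≤ b0) (hb00 : 0 ≤ b0) (hsm : 500 * C ^ 6 * b0 ≤ 1) {tau Mc : ℝ}
    (htau0 : 0 ≤ tau) (htau : ∀ x ∈ Xr, ∑ w, bo ok be s w ^ 2 * ‖P.G s x w‖ ^ 4 ≤ tau)
    (hcnt : ∑ w, be w ^ 2 ≤ Mc) {a dl : ℝ} (ha : 0 < a) (hdl : 0 < dl) (hdl1 : dl ≤ 1)
    (hbd : KP p * (((250 * C ^ 3) ^ 2 * tau / a ^ 2) ^ (p - 1) *
      ((250 * C ^ 3) ^ 2 * (2 * C ^ 3) * (2 * Lm) ^ 2 * Mc / a ^ 2)) ≤ dl ^ (2 * p))
    (h1 : P.GamDB Xr e a p s ≤ 1) :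
    CompB P.g.P ok (P.GamDB Xr e a p) s (2 * (KP p * (1 + (4 * (2 * C ^ 3)) ^ (2 * p) * C)))
      (2 * (KP p * ((4 * (2 * C ^ 3)) ^ (2 * p) * (250 * C ^ 3 * b0 / a) ^ (2 * p) * Mc +
        ((250 * C ^ 3) ^ 2 * tau / a ^ 2) ^ (p - 1) *
          ((250 * C ^ 3) ^ 2 * (2 * C ^ 3) * (2 * Lm) ^ 2 * Mc / a ^ 2)))) dl := by
  have hO := h.obsAt hXr hNr hs hb0 hb00 hsm htau0 htau hcnt
  refine PB.obs_diag p hp hO (fun t => P.G nil t t) (fun w => ?_) ha hdl hdl1 hbd h1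
  unfold gg
  split_ifs
  · exact norm_nonneg _
  · simp only [id]
    rw [G_nil_gt]

/-- COMPONENT OF ALL ENTRIES -/
theorem compO {Xr : Finset T} (hXr : Xr ⊆ X) (hNr : N ⊆ Xr) (p : ℕ) (hp : 2 ≤ p) {s : T → Option D} (hs : P.Ent X 1 s) {b0 : ℝ}
    (hb0 : ∀ w, be w ≤ b0) (hb00 : 0 ≤ b0) (hsm : 500 * C ^ 6 * b0 ≤ 1) {tau Mc : ℝ}
    (htau0 : 0 ≤ tau) (htau : ∀ x ∈ Xr, ∑ w, bo ok be s w ^ 2 * ‖P.G s x w‖ ^ 4 ≤ tau)
    (hcnt : ∑ w, be w ^ 2 ≤ Mc) {gm : ℝ} (hgm0 : 0 ≤ gm)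
    (hgm : ∀ x ∈ Xr, ‖P.G s x x - P.G nil x x‖ ≤ gm) {a dl : ℝ} (ha : 0 < a) (hdl : 0 < dl)
    (hdl1 : dl ≤ 1)
    (hbd : KP p * (((250 * C ^ 3) ^ 2 * tau / a ^ 2) ^ (p - 1) *
      ((250 * C ^ 3) ^ 2 * (2 * C ^ 3) ^ 2 * Mc / a ^ 2)) ≤ dl ^ (2 * p))
    (h1 : P.GamOB Xr e a p s ≤ 1) :
    CompB P.g.P ok (P.GamOB Xr e a p) s (2 * KP p)
      (2 * (KP p * (((2 * (gm + 250 * C ^ 3 * b0)) * (2 * C ^ 3) / a) ^ (2 * (p - 1)) *
          ((2 * (gm + 250 * C ^ 3 * b0)) * (2 * C ^ 3) * Mc / a) ^ 2 +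
        ((250 * C ^ 3) ^ 2 * tau / a ^ 2) ^ (p - 1) *
          ((250 * C ^ 3) ^ 2 * (2 * C ^ 3) ^ 2 * Mc / a ^ 2)))) dl := by
  have hO := h.obsAt hXr hNr hs hb0 hb00 hsm htau0 htau hcnt
  refine PB.obs_off p hp hO (fun x y => P.G nil x y) (gm := gm) (fun w => ?_) hgm0 ha hdl hdl1
    hbd h1
  unfold gg
  split_ifs with h0
  · exact hgm0
  · rw [← G_nil_gt]
    refine hgm w ?_
    by_contra hx
    exact h0 (h.beN w fun h1 => hx (hNr h1))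

/-- (H3) COMPONENT -/
theorem compH {Xr : Finset T} (hXr : Xr ⊆ X) (hNr : N ⊆ Xr) {L : Type} [Fintype L] (p : ℕ)
    (hp : 2 ≤ p) {s : T → Option D} (hs : P.Ent X 1 s) {b0 : ℝ} (hb0 : ∀ w, be w ≤ b0) (hb00 : 0 ≤ b0) (hsm : 500 * C ^ 6 * b0 ≤ 1) {tau Mc : ℝ}
    (htau0 : 0 ≤ tau) (htau : ∀ x ∈ Xr, ∑ w, bo ok be s w ^ 2 * ‖P.G s x w‖ ^ 4 ≤ tau)
    (hcnt : ∑ w, be w ^ 2 ≤ Mc) {gm : ℝ} (hgm0 : 0 ≤ gm)
    (hgm : ∀ x ∈ Xr, ‖P.G s x x - P.G nil x x‖ ≤ gm) (a z : L → (T → Option D) → T → ℝ)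
    (da dz : L → T → Option D → ℝ)
    (ha : ∀ k, PB.WtAt P.g.P ok id (P.eta s) (bo ok be s) s (250 * C ^ 3) (a k) (da k))
    (hz : ∀ k, PB.WtAt P.g.P ok id (P.eta s) (bo ok be s) s (250 * C ^ 3) (z k) (dz k))
    {rho : L → ℝ}
    (hrho : ∀ k, 0 ≤ rho k) (hrho1 : ∑ k, rho k ≤ 1) {eps t t2 dl : ℝ} (heps : 0 < eps)
    (ht : 0 < t) (ht2 : tau ≤ t2 ^ 2) (ht0 : 0 ≤ t2) (ht1 : t2 ≤ 1) (hdl : 0 < dl)
    (hdl1 : dl ≤ 1)
    (hbd : KP p * ((232 * (250 * C ^ 3) ^ 2 * (2 * C ^ 3) ^ 2 * t2 / t ^ 2) ^ (p - 1) *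
      (232 * (250 * C ^ 3) ^ 2 * (2 * C ^ 3) ^ 3 * (2 * Lm) ^ 2 * Mc / t ^ 2)) ≤ dl ^ (2 * p))
    (h1 : P.GamHB Xr e rho eps t p a z s ≤ 1) :
    CompB P.g.P ok (P.GamHB Xr e rho eps t p a z) s
      (2 * (KP p * (1 + (8 * (2 * C ^ 3)) ^ (2 * p) * C)))
      (2 * (KP p * (8 ^ (2 * p) * ((2 * C ^ 3 * (eps + 14 * (250 * C ^ 3) ^ 2 * (2 * C ^ 3) *
            b0) / t) ^ (2 * p) * Mc +
        (16 * (gm + 250 * C ^ 3 * b0) ^ 2 * (2 * C ^ 3) ^ 3 / t ^ 2) ^ p * Mc +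
        (464 * (250 * C ^ 3) ^ 2 * (2 * C ^ 3) ^ 2 * t2 / (eps * t)) ^ (2 * p - 1) *
          (464 * (250 * C ^ 3) ^ 2 * (2 * C ^ 3) ^ 3 * (2 * Lm) ^ 2 * Mc / (eps * t))) +
        (232 * (250 * C ^ 3) ^ 2 * (2 * C ^ 3) ^ 2 * t2 / t ^ 2) ^ (p - 1) *
          (232 * (250 * C ^ 3) ^ 2 * (2 * C ^ 3) ^ 3 * (2 * Lm) ^ 2 * Mc / t ^ 2)))) dl := by
  have hO := h.obsAt hXr hNr hs hb0 hb00 hsm htau0 htau hcnt
  have hE := h.etaAt hXr hs
  refine PB.obs_h3 p hp hO hE a z da dz ha hz rho hrho hrho1 (gm := gm) heps (fun w => ?_) hgm0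
    ht ht2 ht0 ht1 hdl hdl1 hbd h1
  unfold gg
  split_ifs with h0
  · exact hgm0
  · rw [← G_nil_gt]
    refine hgm w ?_
    by_contra hx
    exact h0 (h.beN w fun h1 => hx (hNr h1))

end OkB

end Stp

end Pool.Agent.ANS
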