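import Pool.Agent.ANS.TopGoodOkB
import Pool.Agent.ANS.WtLaw
import Pool.Agent.ANS.ObsOkB
import Pool.Agent.ANS.EngB

/-! # ANS / CellB: the data of a cell for a general law (helper52)

* `okL L n N` : the good values (not weak at level `n + 1`).
* `cellB_law` : `CellDigB` for `digOf`, constant `Ck = 4 / cL`.
* `pk_law` : `R0 * pk ≤ R0 - 1` if `θ ≤ P(strong at n + 1 | class)`, `1 ≤ R0 θ`.
* `wtB_a`, `wtB_z` : `PB.WtAt` for the weights of the step. -/

set_option autoImplicit false
set_option linter.unusedSectionVars false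

open Matrix Finset Function

noncomputable section

namespace Pool.Agent.AND

open Pool.Agent.Kin Pool.Agent.APS Pool.Agent.ANB Pool.Agent.ANS

variable {X : Type} [Fintype X] [DecidableEq X] {T : Type} [Fintype T] [DecidableEq T]

/-- the good values of a site: not read, or the cell of level `n + 1` is strong -/
def okL (L : Law X) (n : ℕ) (N : Finset T) (y : T) (b : Option X) : Prop :=
  y ∈ N → ∀ a, b = some a → ¬ L.wk (n + 1) a

theorem okL_none (L : Law X) (n : ℕ) (N : Finset T) (y : T) : okL L n N y none := by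
  intro _ a h
  cases h

theorem okL_off (L : Law X) (n : ℕ) {N : Finset T} {y : T} (hy : y ∉ N) (b : Option X) :
    okL L n N y b := fun h => absurd h hy

theorem okL_some (L : Law X) (n : ℕ) {N : Finset T} {y : T} (hy : y ∈ N) (a : X) :
    okL L n N y (some a) ↔ ¬ L.wk (n + 1) a :=
  ⟨fun h => h hy a rfl, fun h _ b hb => by cases hb; exact h⟩

variable {L : Law X} {n : ℕ} {lam : ℝ}

/-- PROBABILITY OF THE WEAK OUTCOMES -/
theorem pk_law {N : Finset T} {v : T → X} {θ R0 : ℝ} (hR0 : 1 ≤ R0) (hRθ : 1 ≤ R0 * θ)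
    (hθ : ∀ w ∈ N, θ ≤ L.pS (n + 1) n (v w)) (w : T) :
    R0 * pk (digOf L lam n N v).P (okL L n N) w ≤ R0 - 1 := by
  classical
  by_cases hw : w ∈ N
  · have h1 : pk (digOf L lam n N v).P (okL L n N) w = 1 - L.pS (n + 1) n (v w) := by
      have h2 : ∑ a, claw L n (v w) a * (if L.wk (n + 1) a then (0 : ℝ) else 1) =
          L.pS (n + 1) n (v w) := by
        rw [claw_sum]
        unfold Law.pS
        congr 1
      have h3 := claw_one L n (v w)
      have h3' : (1 : ℝ) - L.pS (n + 1) n (v w) = ∑ a, claw L n (v w) a -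
          ∑ a, claw L n (v w) a * (if L.wk (n + 1) a then (0 : ℝ) else 1) := by
        rw [h2, h3]
      rw [h3', ← Finset.sum_sub_distrib]
      unfold pk
      refine Finset.sum_congr rfl fun a _ => ?_
      have h4 : (digOf L lam n N v).P w a = claw L n (v w) a := by
        change (if w ∈ N then claw L n (v w) a else _) = _
        rw [if_pos hw]
      rw [h4]
      by_cases h5 : L.wk (n + 1) a
      · rw [if_neg (fun h6 => (okL_some L n hw a).1 h6 h5), if_pos h5]
        ring
      · rw [if_pos ((okL_some L n hw a).2 h5), if_neg h5]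
        ring
    rw [h1]
    have h2 := hθ w hw
    nlinarith
  · have h1 : pk (digOf L lam n N v).P (okL L n N) w = 0 := by
      unfold pk
      refine Finset.sum_eq_zero fun a _ => ?_
      rw [if_pos (okL_off L n hw _)]
    rw [h1]
    linarith

section cell

variable {d Lt : ℕ} [NeZero Lt] {M : Med (Tor d Lt)} {t : Tol d Lt} {N : Finset (Tor d Lt)}
  {v : Tor d Lt → X}

/-- THE CELL OF A GENERAL LAW -/
theorem cellB_law (hlam : 0 < lam) (hcL : cL L ≤ 1) (hNA : N ⊆ M.A)
    (hk : ∀ y ∈ N, M.k y = lam ^ 2 * L.kp n (v y))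
    (hs : 8 * L.D * 2 ^ (n + 1) ≤ L.ep * 2 ^ L.nf) (hanti : ∀ a, L.kp (n + 1) a ≤ L.kp n a)
    {Cb : ℝ} (hCb0 : 0 ≤ Cb) (hCb : 4 * kn L lam (n + 1) ≤ Cb * t.kl) (hkl : 0 ≤ t.kl) :
    CellDigB t M (digOf L lam n N v) N (okL L n N) (cOf L lam n N v) (beOf L lam n N) Cb
      (4 / cL L) where
  NA := hNA
  dig := digOf_ok L hlam.le n N v
  beN w hw := by
    unfold beOf
    rw [if_neg hw]
  bek w := by
    by_cases hw : w ∈ N
    · rw [beOf_sq L lam n N w hw]
      have h1 := kn_succ L lam n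
      linarith
    · unfold beOf
      rw [if_neg hw]
      have := mul_nonneg hCb0 hkl
      simpa using this
  okn := okL_none L n N
  okN w hw b := okL_off L n hw b
  zt0 w a := by
    change 0 ≤ (if w ∈ N ∧ a ∈ cl (L.q n) (v w) then
      lam ^ 2 * (L.kp n (v w) - L.kp (n + 1) a) else 0)
    split_ifs with h
    · have h1 : L.kp n (v w) = L.kp n a := by
        unfold Law.kp
        rw [cV_congr _ _ (mem_cl.1 h.2).symm]
      rw [h1]
      have := hanti a
      exact mul_nonneg (sq_nonneg _) (by linarith)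
    · exact le_rfl
  ztk w hw a := by
    rw [hk w hw]
    change (if w ∈ N ∧ a ∈ cl (L.q n) (v w) then
      lam ^ 2 * (L.kp n (v w) - L.kp (n + 1) a) else 0) ≤ _
    split_ifs
    · refine mul_le_mul_of_nonneg_left ?_ (sq_nonneg _)
      have := L.kp_nonneg (n + 1) a
      linarith
    · exact mul_nonneg (sq_nonneg _) (L.kp_nonneg _ _)
  ztg w hw a ha := by
    have hcp := cL_pos L
    have hCk : 1 ≤ 4 / cL L := by
      rw [le_div_iff₀ hcp]
      linarith
    have h0 : 0 ≤ lam ^ 2 * L.kp n (v w) := mul_nonneg (sq_nonneg _) (L.kp_nonneg _ _)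
    rw [hk w hw]
    change _ ≤ 4 / cL L * (_ - (if w ∈ N ∧ a ∈ cl (L.q n) (v w) then
      lam ^ 2 * (L.kp n (v w) - L.kp (n + 1) a) else 0))
    split_ifs with h
    · have h1 : cL L * kn L lam (n + 1) ≤ (sysOf L lam 0 0).kk (n + 1) a :=
        kn_le_kk hlam le_rfl hs ((okL_some L n hw a).1 ha)
      have h2 : (sysOf L lam 0 0).kk n (v w) ≤ kn L lam n := kk_le n (v w)
      have h3 : (sysOf L lam 0 0).kk n (v w) = lam ^ 2 * L.kp n (v w) := rfl
      have h4 : (sysOf L lam 0 0).kk (n + 1) a = lam ^ 2 * L.kp (n + 1) a := rfl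
      rw [h3] at h2
      rw [h4] at h1
      have h5 := kn_succ L lam n
      have h6 : lam ^ 2 * L.kp n (v w) - lam ^ 2 * (L.kp n (v w) - L.kp (n + 1) a) =
          lam ^ 2 * L.kp (n + 1) a := by ring
      rw [h6]
      calc lam ^ 2 * L.kp n (v w) ≤ kn L lam n := h2
        _ = 4 / cL L * (cL L * kn L lam (n + 1)) := by
            rw [h5]
            field_simp
        _ ≤ _ := mul_le_mul_of_nonneg_left h1 (by positivity)
    · rw [sub_zero]
      nlinarith
  Cb0 := hCb0
  Ck1 := by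
    rw [le_div_iff₀ (cL_pos L)]
    linarith

variable {P : Par} {F : Fld (Tor d Lt)} {π : Prof (Tor d Lt)} {C1 cI : ℝ} {nE : ℕ}

/-- the weights of the step for the engine of general laws -/
theorem wtB (h : WtHyp L lam P F n N π v M C1 cI) {K : ℕ} (hK : n + 1 ≤ K) {Cu : ℝ}
    (hCu : C1 ≤ 4 * Cu) (hCu0 : 0 ≤ Cu) (ok : Tor d Lt → Option X → Prop)
    (s : Tor d Lt → Option X) :
    (∃ da, PB.WtAt (digOf L lam n N v).P ok id ((M.stp (digOf L lam n N v)).eta s)
      (bo ok (beOf L lam n N) s) s Cu (wA L lam nE n K N π v M) da) ∧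
    ∃ dz, PB.WtAt (digOf L lam n N v).P ok id ((M.stp (digOf L lam n N v)).eta s)
      (bo ok (beOf L lam n N) s) s Cu (wZ L lam nE P F n K N π v M) dz :=
  ⟨⟨_, PB.WtAt.ofA ok (wt_a (nE := nE) h hK hCu hCu0 s)⟩,
    ⟨_, PB.WtAt.ofA ok (wt_z (nE := nE) h hK hCu hCu0 s)⟩⟩

end cell

end Pool.Agent.AND
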