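import Pool.Agent.ANS.DigB
import Pool.Agent.ANS.TopDefs
import Pool.Agent.ANM.FDec
import Pool.Agent.ANP.Tor

/-! # ANS ENTFAR: far rows of one step (Part B; helper18, statement of helper1)

`Xr` = the rows of the functionals of the engine, `N ⊆ Xr ⊆ X`; the rows of `X \ Xr` are far from `N`: the entries of
the START medium between them and `N` are `≤ de` (exponentially small, no absorption is used).
`G(s) - G = - ∑_{w ∈ N} G_xw inc_w G(s)_wy` gives for EVERY configuration `s`: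

* `far_ent`: closeness `≤ 1` on `N × Xr` implies `|G(s)_xy - G_xy| ≤ qF` if `x` or `y` is far;
* `ent_of`: `Ent Xr a s → Ent X (max a qF) s` (`a ≤ 1`);  `ent_of'`: `Ent Xr a s → Ent X a s` if `qF ≤ a`;
* `far_row`: `∑_y z_y |G(s)_xy - G_xy|² ≤ (|N| Bd de)² Z` for far `x`, if `∑_y z_y |G(s)_wy|² ≤ Z` on `N`;
* `far_four`: fourth power sums of the far rows;
* `farIn_tor`: the hypotheses on the torus from `ANM.HasW` (`dec_all`), `de = deF`.
-/

set_option autoImplicit false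
set_option linter.unusedSectionVars false

open Finset Function Matrix

noncomputable section

namespace Pool.Agent.ANS

open Pool.Agent.Kin Pool.Agent.APS Pool.Agent.ANL

variable {T D : Type} [Fintype T] [DecidableEq T]

/-- size of the change of the far entries -/
def qF (n : ℕ) (Bd Lm de : ℝ) : ℝ := n * Bd * (1 + n * Bd) * (Lm + 1) * de

namespace Stp

variable {P : Stp T D}

/-- the rows of `X \ Xr` are far from the sites `N` which are read -/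
structure FarIn (P : Stp T D) (X Xr N : Finset T) (Bd Lm de : ℝ) : Prop where
  adm : Adm P.H P.b
  sub : Xr ⊆ X
  NX : N ⊆ Xr
  off : ∀ w, w ∉ N → ∀ b, P.inc w b = 0
  inc : ∀ w ∈ N, ∀ b, ‖P.inc w b‖ ≤ Bd
  ent : ∀ w ∈ N, ∀ y ∈ Xr, ‖P.G nil w y‖ ≤ Lm
  dec : ∀ x ∈ X, x ∉ Xr → ∀ w ∈ N, ‖P.G nil x w‖ ≤ de
  Bd0 : 0 ≤ Bd
  Lm0 : 0 ≤ Lm
  de0 : 0 ≤ de
  de1 : de ≤ 1

theorem bs_nil' : P.bs nil = P.b := by
  funext x
  simp [bs, inc, nil]

namespace FarIn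

variable {X Xr N : Finset T} {Bd Lm de : ℝ} (h : P.FarIn X Xr N Bd Lm de)
include h

theorem qF_nonneg (n : ℕ) : 0 ≤ qF n Bd Lm de := by
  have h1 := h.Bd0
  have h2 := h.Lm0
  have h3 := h.de0
  unfold qF
  positivity

/-- the resolvent identity -/
theorem expand {s : T → Option D} (hs : Adm P.H (P.bs s)) (x y : T) :
    P.G s x y - P.G nil x y = -∑ w ∈ N, P.G nil x w * P.inc w (s w) * P.G s w y := by
  have ha : Adm P.H (P.bs nil) := by
    rw [bs_nil']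
    exact h.adm
  have h1 := adm_sub ha hs x y
  have h2 : ∑ z, rsc P.H (P.bs nil) x z * (P.bs s z - P.bs nil z) * rsc P.H (P.bs s) z y =
      ∑ w ∈ N, P.G nil x w * P.inc w (s w) * P.G s w y := by
    symm
    refine Finset.sum_subset_zero_on_sdiff (Finset.subset_univ _) (fun w hw => ?_) fun w _ => ?_
    · have e : P.bs s w - P.bs nil w = P.inc w (s w) := by
        rw [bs_nil']
        unfold bs
        ring
      rw [e, h.off w (Finset.mem_sdiff.1 hw).2, mul_zero, zero_mul]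
    · have e : P.bs s w - P.bs nil w = P.inc w (s w) := by
        rw [bs_nil']
        unfold bs
        ring
      rw [e]
      rfl
  rw [h2] at h1
  have h3 : P.G s x y - P.G nil x y = -(rsc P.H (P.bs nil) x y - rsc P.H (P.bs s) x y) := by
    unfold G
    ring
  rw [h3, h1]

theorem sum_le {s : T → Option D} (hs : Adm P.H (P.bs s)) {x y : T} (hx : x ∈ X)
    (hxr : x ∉ Xr) {Z : ℝ} (hZ : ∀ w ∈ N, ‖P.G s w y‖ ≤ Z) :
    ‖P.G s x y - P.G nil x y‖ ≤ N.card * Bd * Z * de := by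
  rw [h.expand hs, norm_neg]
  refine (norm_sum_le _ _).trans ?_
  have h1 : ∀ w ∈ N, ‖P.G nil x w * P.inc w (s w) * P.G s w y‖ ≤ de * Bd * Z := by
    intro w hw
    rw [norm_mul, norm_mul]
    have e1 := h.dec x hx hxr w hw
    have e2 := h.inc w hw (s w)
    have e3 := hZ w hw
    exact mul_le_mul (mul_le_mul e1 e2 (norm_nonneg _) h.de0) e3 (norm_nonneg _)
      (mul_nonneg h.de0 h.Bd0)
  refine (Finset.sum_le_sum h1).trans (le_of_eq ?_)
  rw [Finset.sum_const, nsmul_eq_mul]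
  ring

/-- FAR ENTRIES -/
theorem far_ent {s : T → Option D} (hs : Adm P.H (P.bs s))
    (hE : ∀ w ∈ N, ∀ y ∈ Xr, ‖P.G s w y - P.G nil w y‖ ≤ 1) {x y : T} (hx : x ∈ X) (hy : y ∈ X)
    (hxy : x ∉ Xr ∨ y ∉ Xr) : ‖P.G s x y - P.G nil x y‖ ≤ qF N.card Bd Lm de := by
  have hBd := h.Bd0
  have hLm := h.Lm0
  have hde := h.de0
  have hde1 := h.de1
  have ha : Adm P.H (P.bs nil) := by
    rw [bs_nil']
    exact h.adm
  obtain ⟨n, hn⟩ : ∃ n : ℝ, n = (N.card : ℝ) := ⟨_, rfl⟩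
  have hn0 : 0 ≤ n := by
    rw [hn]
    exact Nat.cast_nonneg _
  have hG : ∀ w ∈ N, ∀ y ∈ Xr, ‖P.G s w y‖ ≤ Lm + 1 := by
    intro w hw y hy
    have e1 := hE w hw y hy
    have e2 := h.ent w hw y hy
    have e3 := norm_add_le (P.G s w y - P.G nil w y) (P.G nil w y)
    rw [sub_add_cancel] at e3
    linarith
  -- one index far, the other one near
  have near : ∀ x y, x ∈ X → x ∉ Xr → y ∈ Xr →
      ‖P.G s x y - P.G nil x y‖ ≤ n * Bd * (Lm + 1) * de := by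
    intro x y hx hxr hy
    rw [hn]
    exact h.sum_le hs hx hxr fun w hw => hG w hw y hy
  have hq1 : n * Bd * (Lm + 1) * de ≤ qF N.card Bd Lm de := by
    unfold qF
    rw [← hn]
    have e1 : 0 ≤ n * Bd * (Lm + 1) * de := by positivity
    have e2 : n * Bd * (1 + n * Bd) * (Lm + 1) * de =
        n * Bd * (Lm + 1) * de + n * Bd * (n * Bd * (Lm + 1) * de) := by ring
    rw [e2]
    have e3 : 0 ≤ n * Bd * (n * Bd * (Lm + 1) * de) := by positivity
    linarith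
  by_cases hxr : x ∈ Xr
  · have hyr : y ∉ Xr := by
      rcases hxy with h1 | h1
      · exact absurd hxr h1
      · exact h1
    have e1 : P.G s x y = P.G s y x := adm_symm hs x y
    have e2 : P.G nil x y = P.G nil y x := adm_symm ha x y
    rw [e1, e2]
    exact (near y x hy hyr hxr).trans hq1
  · by_cases hyr : y ∈ Xr
    · exact (near x y hx hxr hyr).trans hq1
    · have hW : ∀ w ∈ N, ‖P.G s w y‖ ≤ (1 + n * Bd) * (Lm + 1) := by
        intro w hw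
        have e1 : P.G s w y = P.G s y w := adm_symm hs w y
        have e2 := near y w hy hyr (h.NX hw)
        have e3 := h.dec y hy hyr w hw
        have e4 := norm_add_le (P.G s y w - P.G nil y w) (P.G nil y w)
        rw [sub_add_cancel] at e4
        rw [e1]
        have e5 : n * Bd * (Lm + 1) * de ≤ n * Bd * (Lm + 1) :=
          mul_le_of_le_one_right (by positivity) hde1
        have e6 : (1 + n * Bd) * (Lm + 1) = 1 + Lm + n * Bd * (Lm + 1) := by ring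
        rw [e6]
        linarith
      refine (h.sum_le hs hx hxr hW).trans (le_of_eq ?_)
      unfold qF
      rw [← hn]
      ring

/-- closeness on the rows `Xr` implies closeness on all rows -/
theorem ent_of {s : T → Option D} (hs : Adm P.H (P.bs s)) {a : ℝ} (ha1 : a ≤ 1)
    (hE : P.Ent Xr a s) : P.Ent X (max a (qF N.card Bd Lm de)) s := by
  intro x hx y hy
  by_cases hxy : x ∈ Xr ∧ y ∈ Xr
  · exact (hE x hxy.1 y hxy.2).trans (le_max_left _ _)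
  · refine le_trans ?_ (le_max_right _ _)
    exact h.far_ent hs (fun w hw y hy => (hE w (h.NX hw) y hy).trans ha1) hx hy (not_and_or.1 hxy)

theorem ent_of' {s : T → Option D} (hs : Adm P.H (P.bs s)) {a : ℝ} (ha1 : a ≤ 1)
    (hq : qF N.card Bd Lm de ≤ a) (hE : P.Ent Xr a s) : P.Ent X a s := by
  have h1 := h.ent_of hs ha1 hE
  rw [max_eq_left hq] at h1
  exact h1

/-- the diagonal -/
theorem dia_of {s : T → Option D} (hs : Adm P.H (P.bs s)) (hE : P.Ent Xr 1 s) {a : ℝ}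
    (hq : qF N.card Bd Lm de ≤ a) (hD : ∀ x ∈ Xr, ‖P.G s x x - P.G nil x x‖ ≤ a) :
    ∀ x ∈ X, ‖P.G s x x - P.G nil x x‖ ≤ a := by
  intro x hx
  by_cases hxr : x ∈ Xr
  · exact hD x hxr
  · exact (h.far_ent hs (fun w hw y hy => hE w (h.NX hw) y hy) hx hx (Or.inl hxr)).trans hq

/-- weighted sums over a far row -/
theorem far_row {s : T → Option D} (hs : Adm P.H (P.bs s)) {x : T} (hx : x ∈ X)
    (hxr : x ∉ Xr) (Y : Finset T) {z : T → ℝ} (hz : ∀ y ∈ Y, 0 ≤ z y) {Z : ℝ}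
    (hZ : ∀ w ∈ N, ∑ y ∈ Y, z y * ‖P.G s w y‖ ^ 2 ≤ Z) :
    ∑ y ∈ Y, z y * ‖P.G s x y - P.G nil x y‖ ^ 2 ≤ (N.card * Bd * de) ^ 2 * Z := by
  have hBd := h.Bd0
  have hde := h.de0
  have h1 : ∀ y, ‖P.G s x y - P.G nil x y‖ ^ 2 ≤
      N.card * (de * Bd) ^ 2 * ∑ w ∈ N, ‖P.G s w y‖ ^ 2 := by
    intro y
    rw [h.expand hs, norm_neg]
    have e1 : ‖∑ w ∈ N, P.G nil x w * P.inc w (s w) * P.G s w y‖ ≤
        ∑ w ∈ N, (de * Bd) * ‖P.G s w y‖ := by
      refine (norm_sum_le _ _).trans (Finset.sum_le_sum fun w hw => ?_)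
      rw [norm_mul, norm_mul]
      exact mul_le_mul_of_nonneg_right (mul_le_mul (h.dec x hx hxr w hw) (h.inc w hw (s w))
        (norm_nonneg _) hde) (norm_nonneg _)
    refine (pow_le_pow_left₀ (norm_nonneg _) e1 2).trans ?_
    rw [← Finset.mul_sum, mul_pow]
    have e2 := sq_sum_le_card_mul_sum_sq (s := N) (f := fun w => ‖P.G s w y‖)
    calc (de * Bd) ^ 2 * (∑ w ∈ N, ‖P.G s w y‖) ^ 2 ≤
        (de * Bd) ^ 2 * (N.card * ∑ w ∈ N, ‖P.G s w y‖ ^ 2) :=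
          mul_le_mul_of_nonneg_left e2 (sq_nonneg _)
      _ = _ := by ring
  calc ∑ y ∈ Y, z y * ‖P.G s x y - P.G nil x y‖ ^ 2
      ≤ ∑ y ∈ Y, z y * (N.card * (de * Bd) ^ 2 * ∑ w ∈ N, ‖P.G s w y‖ ^ 2) :=
        Finset.sum_le_sum fun y hy => mul_le_mul_of_nonneg_left (h1 y) (hz y hy)
    _ = N.card * (de * Bd) ^ 2 * ∑ w ∈ N, ∑ y ∈ Y, z y * ‖P.G s w y‖ ^ 2 := by
        rw [Finset.sum_comm, Finset.mul_sum]
        refine Finset.sum_congr rfl fun y _ => ?_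
        rw [Finset.mul_sum, Finset.mul_sum, Finset.mul_sum]
        exact Finset.sum_congr rfl fun w _ => by ring
    _ ≤ N.card * (de * Bd) ^ 2 * ∑ w ∈ N, Z :=
        mul_le_mul_of_nonneg_left (Finset.sum_le_sum hZ) (by positivity)
    _ = _ := by
        rw [Finset.sum_const, nsmul_eq_mul]
        ring

/-- fourth power sums of a far row -/
theorem far_four {s : T → Option D} (hs : Adm P.H (P.bs s)) (hE : P.Ent Xr 1 s) {x : T}
    (hx : x ∈ X) (hxr : x ∉ Xr) {Y : Finset T} (hY : Y ⊆ X) {Lx : ℝ} (hLx : 0 ≤ Lx)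
    (hx1 : ∀ y ∈ Y, ‖P.G nil x y‖ ≤ Lx) {q : ℝ} (hq : qF N.card Bd Lm de ≤ q) (hq1 : q ≤ 1) :
    ∑ y ∈ Y, ‖P.G s x y‖ ^ 4 ≤ ∑ y ∈ Y, ‖P.G nil x y‖ ^ 4 + Y.card * (4 * (Lx + 1) ^ 3 * q) := by
  have hq0 : 0 ≤ q := (h.qF_nonneg _).trans hq
  have h1 : ∀ y ∈ Y, ‖P.G s x y‖ ^ 4 ≤ ‖P.G nil x y‖ ^ 4 + 4 * (Lx + 1) ^ 3 * q := by
    intro y hy
    have e1 := (h.far_ent hs (fun w hw y hy => hE w (h.NX hw) y hy) hx (hY hy)
      (Or.inl hxr)).trans hq
    have e2 := norm_add_le (P.G s x y - P.G nil x y) (P.G nil x y)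
    rw [sub_add_cancel] at e2
    have e3 := hx1 y hy
    obtain ⟨A, hA⟩ : ∃ A, A = ‖P.G nil x y‖ := ⟨_, rfl⟩
    have hA0 : 0 ≤ A := by
      rw [hA]
      exact norm_nonneg _
    rw [← hA] at e2 e3 ⊢
    have e4 : ‖P.G s x y‖ ^ 4 ≤ (A + q) ^ 4 :=
      pow_le_pow_left₀ (norm_nonneg _) (by linarith) 4
    have e5 : (A + q) ^ 4 - A ^ 4 = q * ((A + q) ^ 3 + (A + q) ^ 2 * A + (A + q) * A ^ 2 + A ^ 3) := by
      ring
    have e6 : A + q ≤ Lx + 1 := by linarith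
    have e7 : (A + q) ^ 3 ≤ (Lx + 1) ^ 3 := pow_le_pow_left₀ (by linarith) e6 3
    have e8 : (A + q) ^ 2 * A ≤ (Lx + 1) ^ 2 * (Lx + 1) :=
      mul_le_mul (pow_le_pow_left₀ (by linarith) e6 2) (by linarith) hA0 (by positivity)
    have e9 : (A + q) * A ^ 2 ≤ (Lx + 1) * (Lx + 1) ^ 2 :=
      mul_le_mul e6 (pow_le_pow_left₀ hA0 (by linarith) 2) (by positivity) (by linarith)
    have e10 : A ^ 3 ≤ (Lx + 1) ^ 3 := pow_le_pow_left₀ hA0 (by linarith) 3
    have e11 : (A + q) ^ 3 + (A + q) ^ 2 * A + (A + q) * A ^ 2 + A ^ 3 ≤ 4 * (Lx + 1) ^ 3 := by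
      have f1 : (Lx + 1) ^ 2 * (Lx + 1) = (Lx + 1) ^ 3 := by ring
      have f2 : (Lx + 1) * (Lx + 1) ^ 2 = (Lx + 1) ^ 3 := by ring
      rw [f1] at e8
      rw [f2] at e9
      linarith
    have e12 := mul_le_mul_of_nonneg_left e11 hq0
    linarith
  refine (Finset.sum_le_sum h1).trans (le_of_eq ?_)
  rw [Finset.sum_add_distrib, Finset.sum_const, nsmul_eq_mul]

end FarIn

/-- from the standing hypotheses of Part B -/
theorem OkB.farIn [Fintype D] {ok : T → Option D → Prop} {X N Xr : Finset T} {c be : T → ℝ}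
    {e : T → Option D → ℝ} {C Lm : ℝ} (h : P.OkB ok X N c be e C Lm) (hX : Xr ⊆ X)
    (hN : N ⊆ Xr) {b0 de : ℝ} (hb : ∀ w, be w ≤ b0) (hb0 : 0 ≤ b0) (hde : 0 ≤ de) (hde1 : de ≤ 1)
    (hdec : ∀ x ∈ X, x ∉ Xr → ∀ w ∈ N, ‖P.G nil x w‖ ≤ de) :
    P.FarIn X Xr N (2 * b0) Lm de where
  adm := h.adm
  sub := hX
  NX := hN
  off w hw b := h.inc_off hw b
  inc w _ b := by
    have h1 := h.inc_le w b
    have h2 := hb w
    linarith
  ent w hw y hy := h.ent w (h.NX hw) y (hX hy)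
  dec := hdec
  Bd0 := by positivity
  Lm0 := zero_le_one.trans h.Lm1
  de0 := hde
  de1 := hde1

end Stp

end Pool.Agent.ANS

namespace Pool.Agent.AND

open Pool.Agent.Kin Pool.Agent.APS Pool.Agent.ANS Pool.Agent.ANP

variable {d L : ℕ} [NeZero L] {D : Type}

/-- decay of the start medium at distance `2 s0` -/
def deF (μ : ℝ) (a c0 : ℕ) (Γ : ℝ) (s0 : ℕ) : ℝ :=
  3 * Γ * Real.exp μ / (4 * μ) * Real.exp (μ * c0 / a) * Real.exp (-(2 * μ * s0 / a))

theorem deF_nonneg {μ : ℝ} (hμ : 0 ≤ μ) {Γ : ℝ} (hΓ : 0 ≤ Γ) (a c0 s0 : ℕ) :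
    0 ≤ deF μ a c0 Γ s0 := by
  unfold deF
  positivity

/-- entries of the start medium between a far site and the cell -/
theorem dec_far {b : Tor d L → ℂ} (hb : ANL.Adm (H0T d L) b) {F : Set (Tor d L)} {μ : ℝ}
    {a c0 : ℕ} (ha : 1 ≤ a) (hμ : 0 < μ) (hw : ANM.HasW b F μ a c0) {o x w : Tor d L} {s0 : ℕ}
    (hc : c0 ≤ 2 * s0) (hx : 3 * s0 < dT x o) (hwo : dT w o ≤ s0) {Γ : ℝ}
    (hΓx : ‖rsc (H0T d L) b x x‖ ≤ Γ) (hΓw : ‖rsc (H0T d L) b w w‖ ≤ Γ) :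
    ‖rsc (H0T d L) b x w‖ ≤ deF μ a c0 Γ s0 := by
  have hD : ANM.Diss (H0T d L) b := ⟨hb.sym, hb.im, hb.unit⟩

  have h1 : dT x o ≤ dT x w + dT w o := nmet_dT.tri x w o
  have h2 : 2 * s0 < dT x w := by omega
  have h3 : c0 < ANM.td x w := lt_of_le_of_lt hc h2
  have h4 := ANM.dec_all hD ha hμ hw h3 hΓx ((le_abs_self _).trans
    ((Complex.abs_im_le_norm _).trans hΓw))
  refine h4.trans ?_
  unfold deF
  have hΓ : 0 ≤ Γ := (norm_nonneg _).trans hΓx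
  refine mul_le_mul_of_nonneg_left ?_ (by positivity)
  apply Real.exp_le_exp.2
  have ha' : (0 : ℝ) < a := by exact_mod_cast ha
  have h5 : 2 * (s0 : ℝ) ≤ ANM.td x w := by
    have h6 : 2 * s0 ≤ ANM.td x w := h2.le
    exact_mod_cast h6
  have h6 : 2 * μ * s0 / a ≤ μ * ANM.td x w / a := by
    refine div_le_div_of_nonneg_right ?_ ha'.le
    nlinarith
  linarith

/-- THE FAR ROWS ON THE TORUS: `Xr` contains the sites of `X` with `dT x o ≤ 3 s0` -/
theorem farIn_tor [Fintype D] {M : Med (Tor d L)} {g : ANS.Dig (Tor d L) D}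
    {ok : Tor d L → Option D → Prop} {X N Xr : Finset (Tor d L)} {c be : Tor d L → ℝ}
    {e : Tor d L → Option D → ℝ} {C Lm : ℝ} (h : (M.stp g).OkB ok X N c be e C Lm) (hX : Xr ⊆ X)
    (hN : N ⊆ Xr) {b0 : ℝ} (hb : ∀ w, be w ≤ b0) (hb0 : 0 ≤ b0) {F : Set (Tor d L)} {μ : ℝ}
    {a c0 : ℕ} (ha : 1 ≤ a) (hμ : 0 < μ) (hw : ANM.HasW M.b F μ a c0) {o : Tor d L} {s0 : ℕ}
    (hc : c0 ≤ 2 * s0) (hNo : ∀ w ∈ N, dT w o ≤ s0)
    (hfar : ∀ x ∈ X, x ∉ Xr → 3 * s0 < dT x o) (hde1 : deF μ a c0 C s0 ≤ 1) :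
    (M.stp g).FarIn X Xr N (2 * b0) Lm (deF μ a c0 C s0) := by
  have hC : 0 ≤ C := zero_le_one.trans h.C1
  refine h.farIn hX hN hb hb0 (deF_nonneg hμ.le hC _ _ _) hde1 fun x hx hxr w hw' => ?_
  have e1 : (M.stp g).G nil = rsc (H0T d L) M.b := stp_G_nil M g
  have e2 := h.dia x hx
  have e3 := h.dia w (h.NX hw')
  rw [e1] at e2 e3 ⊢
  exact dec_far h.adm ha hμ hw hc (hfar x hx hxr) (hNo w hw') e2 e3

end Pool.Agent.AND
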