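import Pool.Agent.ANS.TopLow
import Pool.Agent.ANS.DigB

/-! # ANS TOP LOW B (helper43): (H4low) at every configuration `s` of the step, general laws

The statements of TopLow for the hypotheses `LowH` (absorption positive on the non-read sites, unchanged off
`N`), which `Stp.OkB` provides.  Inert sites are included: `(1+dl)/m + (1/m' - 1/m) ≤ (1+dl)/m'` needs only
`m' ≤ m`.
* `frz_low_sB`, `low_atB`. -/

set_option autoImplicit false

open Matrix Finset

noncomputable section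

namespace Pool.Agent.AND

open Pool.Agent.Kin Pool.Agent.APS Pool.Agent.ANL Pool.Agent.ANS

set_option linter.unusedSectionVars false

variable {d L : ℕ} [NeZero L] {D : Type} [Fintype D] {f : Fix} {t : Tol d L} {M : Med (Tor d L)}
  {u : UTol} {g : ANS.Dig (Tor d L) D} {N B : Finset (Tor d L)} {c be : Tor d L → ℝ}
  {de : ℝ} {s : Tor d L → Option D}

/-- what the lower bound uses of the configuration `s` -/
structure LowH (M : Med (Tor d L)) (g : ANS.Dig (Tor d L) D) (N : Finset (Tor d L))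
    (s : Tor d L → Option D) : Prop where
  NX : N ⊆ M.nr
  pos : ∀ x ∈ M.nr, 0 < (M.stp g).eta s x
  off : ∀ x, x ∉ N → (M.stp g).eta s x = M.eta x

theorem lowH_ofB {ok : Tor d L → Option D → Prop} {e : Tor d L → Option D → ℝ} {C Lm : ℝ}
    (hOk : (M.stp g).OkB ok M.nr N c be e C Lm) (s : Tor d L → Option D) : LowH M g N s where
  NX := hOk.NX
  pos x hx := hOk.etaX' s hx
  off x hx := by
    rw [← stp_eta_nil (g := g)]
    unfold ANS.Stp.eta ANS.Stp.bs
    rw [hOk.inc_off hx, hOk.inc_off hx]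

namespace LowH

variable (h : LowH M g N s)
include h

theorem aw_off {x : Tor d L} (hx : x ∉ N) : (M.stp g).aw s x = 0 := by
  rw [stp_aw_s, h.off x hx, sub_self]

theorem aw_nonneg (hG : Good f t M) (hI : t.In f M u) (hN : Num f t u)
    (hz : ∀ x d, 0 ≤ g.zt x d) (x : Tor d L) : 0 ≤ (M.stp g).aw s x := by
  by_cases hx : x ∈ M.nr
  · have h1 : 0 < (M.G x x).im := hG.io_pos hI hN (mem_nr.1 hx)
    have h2 : 0 < (M.stp g).eta s x := h.pos x hx
    have h3 := stp_eta_s_le (s := s) hG hI hN hz hx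
    rw [stp_aw_s, sub_nonneg]
    exact one_div_le_one_div_of_le (mul_pos h2 h1) (mul_le_mul_of_nonneg_right h3 h1.le)
  · rw [h.aw_off fun hh => hx (h.NX hh)]

theorem eta_of_aw (hG : Good f t M) (hI : t.In f M u) (hN : Num f t u) {x : Tor d L}
    (hx : x ∈ M.nr) (ha : (M.stp g).aw s x = 0) : (M.stp g).eta s x = M.eta x := by
  have h1 : 0 < (M.G x x).im := hG.io_pos hI hN (mem_nr.1 hx)
  have h2 : 0 < (M.stp g).eta s x := h.pos x hx
  have h3 : 0 < M.eta x := hG.eta_pos hI hN (mem_nr.1 hx)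
  rw [stp_aw_s, sub_eq_zero, one_div, one_div, _root_.inv_inj] at ha
  exact mul_right_cancel₀ h1.ne' ha

/-- lower block bound at any configuration -/
theorem frz_low (hG : Good f t M) (hI : t.In f M u) (hN : Num f t u) (hK : 0 < u.Ki)
    (hB : B ⊆ M.nr) (hBX : ∃ x ∈ M.nr, x ∉ B) (hz : ∀ x d, 0 ≤ g.zt x d)
    (hF : (M.stp g).FormLe B de s) {v : Tor d L → ℝ} (hv : ∀ x, x ∉ B → v x = 0) :
    ∃ y : Tor d L → ℝ, (∀ x, (M.stp g).aw s x = 0 → y x = 0) ∧ (∀ x, x ∉ N → y x = 0) ∧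
      (1 - de) * (QF (H0T d L) M (fun x => v x - y x) +
        ∑ w ∈ M.nr, y w ^ 2 / (M.stp g).aw s w) ≤ (M.stp g).qf s v := by
  classical
  have hPD := QB_posDef (g := g) hG hI hN hK hB hBX
  have ha0 : ∀ w : ↥B, 0 ≤ (M.stp g).aw s w := fun w => h.aw_nonneg hG hI hN hz w
  obtain ⟨y, hy0, hy⟩ := par_min hPD ha0 (fun x : ↥B => v x)
  have hy1 : ∀ x, (M.stp g).aw s x = 0 → ext0 B y x = 0 := by
    intro x hx
    by_cases hxB : x ∈ B
    · have e1 := ext0_on B y ⟨x, hxB⟩
      rw [e1]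
      exact hy0 ⟨x, hxB⟩ hx
    · exact ext0_off B y hxB
  refine ⟨ext0 B y, hy1, fun x hx => hy1 x (h.aw_off hx), ?_⟩
  have h1 := (hF v hv).1
  have h2 : (M.stp g).rq B s v = QF (H0T d L) M (fun x => v x - ext0 B y x) +
      ∑ w ∈ M.nr, ext0 B y w ^ 2 / (M.stp g).aw s w := by
    have e1 : (M.stp g).rq B s v = (fun x : ↥B => v x) ⬝ᵥ
        (((M.stp g).QB B ANS.nil)⁻¹ +
          diagonal (fun w : ↥B => (M.stp g).aw s w))⁻¹ *ᵥ (fun x : ↥B => v x) := rfl
    rw [e1, hy]
    congr 1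
    · have e2 : ((fun x : ↥B => v x) - y) = fun x : ↥B => (v x - ext0 B y x) := by
        funext x
        rw [Pi.sub_apply, ext0_on]
      rw [e2]
      rw [QB_qf (M.stp g) ANS.nil B (v := fun x => v x - ext0 B y x) (fun x hx => by
        rw [hv x hx, ext0_off B y hx]; ring), stp_qf_nil hG hI hN]
    · have e3 : ∑ w : ↥B, y w ^ 2 / (M.stp g).aw s w =
          ∑ w ∈ B, ext0 B y w ^ 2 / (M.stp g).aw s w := by
        rw [← Finset.sum_coe_sort B]
        exact Finset.sum_congr rfl fun w _ => by rw [ext0_on]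
      rw [e3]
      refine Finset.sum_subset hB fun w _ hw => ?_
      rw [ext0_off B y hw]
      simp
  rw [h2] at h1
  exact h1

/-- (H4low) at the configuration `s` for functions supported in the block -/
theorem low (hG : Good f t M) (hI : t.In f M u) (hN : Num f t u) (hK : 0 < u.Ki)
    (hB : B ⊆ M.nr) (hBX : ∃ x ∈ M.nr, x ∉ B) (hz : ∀ x d, 0 ≤ g.zt x d) (hde : de < 1)
    (hF : (M.stp g).FormLe B de s) {v : Tor d L → ℝ} (hv : ∀ x, x ∉ B → v x = 0) :
    ∃ a : Tor d L → ℝ, DW t.D a + ∑ x ∈ M.nr,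
      ((M.stp g).eta s x * (M.G x x).im) * (v x - a x) ^ 2 / (1 + t.dl x) ≤
        (M.stp g).qf s v / (1 - de) := by
  obtain ⟨y, hy1, -, hy⟩ := h.frz_low hG hI hN hK hB hBX hz hF hv
  obtain ⟨a, ha⟩ := hG.h4l fun x => v x - y x
  refine ⟨a, ?_⟩
  rw [le_div_iff₀ (by linarith), mul_comm]
  refine le_trans (mul_le_mul_of_nonneg_left ?_ (by linarith)) hy
  have h1 : ∑ x ∈ M.nr, ((M.stp g).eta s x * (M.G x x).im) * (v x - a x) ^ 2 / (1 + t.dl x) ≤
      ∑ x ∈ M.nr, M.eta x * (rsc (H0T d L) M.b x x).im * (v x - y x - a x) ^ 2 / (1 + t.dl x) +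
        ∑ w ∈ M.nr, y w ^ 2 / (M.stp g).aw s w := by
    rw [← Finset.sum_add_distrib]
    refine Finset.sum_le_sum fun x hx => ?_
    have e1 : (M.G x x) = rsc (H0T d L) M.b x x := rfl
    have hio : 0 < (M.G x x).im := hG.io_pos hI hN (mem_nr.1 hx)
    have heta : 0 < M.eta x := hG.eta_pos hI hN (mem_nr.1 hx)
    have hes : 0 < (M.stp g).eta s x := h.pos x hx
    have hle := stp_eta_s_le (s := s) hG hI hN hz hx
    have hdl := hI.dl0 x
    rw [← e1]
    by_cases hw : (M.stp g).aw s x = 0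
    · rw [h.eta_of_aw hG hI hN hx hw, hy1 x hw, hw, div_zero, sub_zero, add_zero]
    · have ha0 : 0 < (M.stp g).aw s x :=
        lt_of_le_of_ne (h.aw_nonneg hG hI hN hz x) (Ne.symm hw)
      have hm : 0 < M.eta x * (M.G x x).im := mul_pos heta hio
      have hp := ANF.Glob.par (s := v x - a x) (y := y x) hm hdl ha0
      have e2 : v x - a x - y x = v x - y x - a x := by ring
      rw [e2] at hp
      refine le_trans ?_ hp
      have hmf : 0 < (M.stp g).eta s x * (M.G x x).im := mul_pos hes hio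
      have hden : 0 < (1 + t.dl x) / (M.eta x * (M.G x x).im) + (M.stp g).aw s x := by
        positivity
      rw [mul_comm, mul_div_assoc]
      rw [div_eq_mul_inv ((v x - a x) ^ 2)]
      refine mul_le_mul_of_nonneg_left ?_ (sq_nonneg _)
      rw [← one_div, div_le_div_iff₀ (by linarith) hden, stp_aw_s]
      have e3 : (M.stp g).eta s x * (M.G x x).im *
          ((1 + t.dl x) / (M.eta x * (M.G x x).im) +
            (1 / ((M.stp g).eta s x * (M.G x x).im) - 1 / (M.eta x * (M.G x x).im))) =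
          1 + t.dl x * ((M.stp g).eta s x * (M.G x x).im / (M.eta x * (M.G x x).im)) := by
        field_simp
        ring
      rw [e3, one_mul]
      have e4 : (M.stp g).eta s x * (M.G x x).im / (M.eta x * (M.G x x).im) ≤ 1 := by
        rw [div_le_one hm]
        exact mul_le_mul_of_nonneg_right hle hio.le
      have := mul_le_mul_of_nonneg_left e4 hdl
      linarith
  linarith

end LowH

/-- lower block bound at any configuration, general laws -/
theorem frz_low_sB {ok : Tor d L → Option D → Prop} {e : Tor d L → Option D → ℝ} {C Lm : ℝ}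
    (hG : Good f t M) (hI : t.In f M u) (hN : Num f t u) (hK : 0 < u.Ki)
    (hOk : (M.stp g).OkB ok M.nr N c be e C Lm) (hB : B ⊆ M.nr) (hBX : ∃ x ∈ M.nr, x ∉ B)
    (hF : (M.stp g).FormLe B de s) {v : Tor d L → ℝ} (hv : ∀ x, x ∉ B → v x = 0) :
    ∃ y : Tor d L → ℝ, (∀ x, (M.stp g).aw s x = 0 → y x = 0) ∧ (∀ x, x ∉ N → y x = 0) ∧
      (1 - de) * (QF (H0T d L) M (fun x => v x - y x) +
        ∑ w ∈ M.nr, y w ^ 2 / (M.stp g).aw s w) ≤ (M.stp g).qf s v :=
  (lowH_ofB hOk s).frz_low hG hI hN hK hB hBX hOk.zt0 hF hv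

/-- (H4low) at the configuration `s` for functions supported in the block, general laws -/
theorem low_atB {ok : Tor d L → Option D → Prop} {e : Tor d L → Option D → ℝ} {C Lm : ℝ}
    (hG : Good f t M) (hI : t.In f M u) (hN : Num f t u) (hK : 0 < u.Ki)
    (hOk : (M.stp g).OkB ok M.nr N c be e C Lm) (hB : B ⊆ M.nr) (hBX : ∃ x ∈ M.nr, x ∉ B)
    (hde : de < 1) (hF : (M.stp g).FormLe B de s) {v : Tor d L → ℝ}
    (hv : ∀ x, x ∉ B → v x = 0) :
    ∃ a : Tor d L → ℝ, DW t.D a + ∑ x ∈ M.nr,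
      ((M.stp g).eta s x * (M.G x x).im) * (v x - a x) ^ 2 / (1 + t.dl x) ≤
        (M.stp g).qf s v / (1 - de) :=
  (lowH_ofB hOk s).low hG hI hN hK hB hBX hOk.zt0 hde hF hv

end Pool.Agent.AND
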