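import Pool.Agent.ANS.TopII
import Pool.Agent.ANS.TopLowB

/-! # ANS TOP II B (helper43): the triangle sums at a configuration of the step, general laws

`II_atB`: `II_at` for `Stp.OkB`.  `Y'` = active sites of the block which are good at `s`; the weak sites and the
inert sites are in the background: they enter the form with their own `η(s) > 0` (`hes`: `η_* ≤ C η(s)`).
`II_atB'`: the same with the form bound from `FormLe B de s` (`low_atB`). -/

set_option autoImplicit false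

open Finset Function Matrix

noncomputable section

namespace Pool.Agent.AND

open Pool.Agent.Kin Pool.Agent.APS Pool.Agent.ANL Pool.Agent.ANS

variable {d L : ℕ} [NeZero L] {D : Type} [Fintype D] {f : Fix} {t : Tol d L}
  {M : Med (Tor d L)} {u : UTol}

/-- the bound of the triangle sums, general laws.  `C` constant of `Stp.OkB`, `Cb`, `Ck` : `be² ≤ Cb κ`,
`κ ≤ Ck η` on the active sites, `ad` diagonal, `de` form, `l` smoothing length, `nX` number of
non-read sites, `TT` bound of `κ T_x(s)`. -/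
def iotBB (d : ℕ) (f : Fix) (eta k kl Ki dA dS C Cb Ck ad de l nX TT : ℝ) : ℝ :=
  9 * Cb * ((2 * C * ((4 * C * dA + 2 * C * Ck * (C * ad + de)) +
      4 * ANF.Heat.CH d * l ^ 2 * (2 / Ki) * ((eta + k * f.C1) * (2 * C)) *
        (k / ((eta + kl * f.c1) / C)))) * TT +
    (28 * ANF.Heat.CH d * ANF.Heat.rho d l * (2 / Ki) +
      (3 + 24 * ANF.Heat.CH d * l ^ 2 * (2 / Ki) * ((eta + k * f.C1) * (2 * C))) /
        (nX * (eta / (2 * C ^ 2) / (4 * (1 + dS))))) *
      (2 * C * (2 * C * (k / ((eta + kl * f.c1) / C)))) ^ 2)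

/-- the form in terms of the squares -/
theorem qf_QfB {g : ANS.Dig (Tor d L) D} {N : Finset (Tor d L)} {c be : Tor d L → ℝ}
    {ok : Tor d L → Option D → Prop} {e : Tor d L → Option D → ℝ} {C Lm : ℝ}
    (hOk : (M.stp g).OkB ok M.nr N c be e C Lm) (s : Tor d L → Option D)
    (hW : ∀ y ∈ M.nr, ∑ z ∈ M.nr, (M.stp g).eta s z * ‖(M.stp g).G s y z‖ ^ 2 =
      (M.stp g).io s y) (v : Tor d L → ℝ) :
    (M.stp g).qf s v = T4.Qf M.nr ((M.stp g).eta s) (fun y z => ‖(M.stp g).G s y z‖ ^ 2) v := by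
  classical
  set P := M.stp g with hP
  have hsym : ∀ y z, ‖P.G s y z‖ ^ 2 = ‖P.G s z y‖ ^ 2 := fun y z => by rw [hOk.symm]
  have h1 := T4.form_id (X := M.nr) (eta := P.eta s) (iota := P.io s)
    (S := fun y z => ‖P.G s y z‖ ^ 2) (fun y _ z _ => hsym y z) hW v
  have h0 : ∀ y, y ∉ M.nr → P.eta s y = 0 := fun y hy => hOk.etaU' s hy
  have h2 : P.qf s v = ∑ y ∈ M.nr, P.eta s y * P.io s y * v y ^ 2 -
      ∑ y ∈ M.nr, ∑ z ∈ M.nr, (v y * P.eta s y) * ‖P.G s y z‖ ^ 2 * (P.eta s z * v z) := by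
    unfold Stp.qf Stp.Qm
    have e1 : ∀ y z, v y * ((if y = z then P.eta s y * P.io s y else 0) -
        P.eta s y * P.S s y z * P.eta s z) * v z =
        (if y = z then P.eta s y * P.io s y * v y * v z else 0) -
        (v y * P.eta s y) * ‖P.G s y z‖ ^ 2 * (P.eta s z * v z) := by
      intro y z
      unfold Stp.S
      split_ifs <;> ring
    simp only [e1, Finset.sum_sub_distrib, Finset.sum_ite_eq, Finset.mem_univ, if_true]
    congr 1
    · symm
      rw [← Finset.sum_subset (Finset.subset_univ M.nr) fun y _ hy => by rw [h0 y hy]; ring]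
      exact Finset.sum_congr rfl fun y _ => by ring
    · symm
      rw [← Finset.sum_subset (Finset.subset_univ M.nr) fun y _ hy => ?_]
      · refine Finset.sum_congr rfl fun y _ => ?_
        exact Finset.sum_subset (Finset.subset_univ M.nr) fun z _ hz => by rw [h0 z hz]; ring
      · exact Finset.sum_eq_zero fun z _ => by rw [h0 y hy]; ring
  rw [h2]
  linarith

theorem II_atB (hd : 3 ≤ d) (hG : Good f t M) (hI : t.In f M u) (hN : Num f t u) (hKi : 0 < u.Ki)
    {g : ANS.Dig (Tor d L) D} {N B Y' : Finset (Tor d L)} {c be : Tor d L → ℝ}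
    {ok : Tor d L → Option D → Prop} {e : Tor d L → Option D → ℝ} {C Cb Lm : ℝ}
    (hNA : N ⊆ M.A) (hNB : N ⊆ B) (hCb : 0 ≤ Cb) (hbe : ∀ w, be w ^ 2 ≤ Cb * t.k)
    (hOk : (M.stp g).OkB ok M.nr N c be e C Lm) {s : Tor d L → Option D}
    (hE : (M.stp g).Ent M.nr 1 s) (hY' : ∀ y, y ∈ Y' ↔ y ∈ M.A ∩ B ∧ ok y (s y))
    (hes : ∀ x ∈ M.nr, t.eta ≤ C * (M.stp g).eta s x)
    {Ck : ℝ} (hCk0 : 0 ≤ Ck) (hCk : ∀ y ∈ M.A, t.k ≤ Ck * M.eta y) {ad de : ℝ} (had : 0 ≤ ad)
    (had' : 2 * C * ad ≤ 1) (hde : 0 ≤ de) (hde' : de ≤ 1 / 2)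
    {l : ℝ} (hl : 1 ≤ l) (hlL : l ≤ L) {nX : ℝ} (hnX : nX ≤ M.nr.card) (hnX0 : 0 < nX)
    (hdS : 0 ≤ u.dS) (hdA : 0 ≤ u.dA)
    (hdia : ∀ x ∈ M.nr, ‖(M.stp g).G s x x - (M.stp g).G nil x x‖ ≤ ad)
    (hlow : ∀ v : Tor d L → ℝ, (∀ x, x ∉ B → v x = 0) → ∃ a : Tor d L → ℝ,
      DW t.D a + ∑ x ∈ M.nr, ((M.stp g).eta s x * (M.stp g).io nil x) * (v x - a x) ^ 2 /
        (1 + t.dl x) ≤ (M.stp g).qf s v / (1 - de))
    {TT : ℝ} (x : ↥M.nr) (hT : t.k * (M.stp g).Tx Y' s x ≤ TT) :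
    T4.II (Stp.omY Y' t.k) (fun w : ↥N => 3 * bo ok be s w) ((M.stp g).gX M.nr s)
        (eN hOk.NX) x ≤
      iotBB d f t.eta t.k t.kl u.Ki u.dA u.dS C Cb Ck ad de l nX TT := by
  classical
  set P := M.stp g with hP
  have hC := hOk.C1
  have hC0 : 0 ≤ C := hOk.C0
  have hCp : 0 < C := by linarith
  have hk : 0 < t.k := hN.kl.trans_le hN.klk
  have hYA : ∀ y ∈ Y', y ∈ M.A := fun y hy => (Finset.mem_inter.1 ((hY' y).1 hy).1).1
  have hYB : ∀ y ∈ Y', y ∈ B := fun y hy => (Finset.mem_inter.1 ((hY' y).1 hy).1).2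
  have hYok : ∀ y ∈ Y', ok y (s y) := fun y hy => ((hY' y).1 hy).2
  have hYX : Y' ⊆ M.nr := fun y hy => hG.A_sub_nr (hYA y hy)
  have hf1 : 0 < f.C1 := hG.C1_pos hI hN
  have hio : ∀ y ∈ M.nr, P.io s y ≤ 2 * C := fun y hy =>
    ((le_abs_self _).trans (Complex.abs_im_le_norm _)).trans (hOk.diaC hE hy)
  -- `ι(s)` against `ι(nil)`
  have hio1 : ∀ y ∈ M.nr, |P.io s y - P.io nil y| ≤ ad := fun y hy => by
    have h1 := hdia y hy
    have h2 := Complex.abs_im_le_norm (P.G s y y - P.G nil y y)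
    rw [Complex.sub_im] at h2
    exact h2.trans h1
  have hio2 : ∀ y ∈ M.nr, P.io s y ≤ (1 + C * ad) * P.io nil y := fun y hy => by
    have h1 := (abs_le.1 (hio1 y hy)).2
    have h2 := hOk.io1 y hy
    nlinarith [mul_le_mul_of_nonneg_left h2 had]
  have hio3 : ∀ y ∈ M.nr, 1 / (2 * C) ≤ P.io s y := fun y hy => by
    have h1 := (abs_le.1 (hio1 y hy)).1
    have h2 := hOk.io1 y hy
    rw [div_le_iff₀ (by linarith)]
    nlinarith
  have hio0 : ∀ y ∈ M.nr, 0 ≤ P.io s y := fun y hy =>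
    le_trans (by positivity) (hio3 y hy)
  -- absorption
  have hen : ∀ y, P.eta nil y = M.eta y := gok_eta_nil M g
  have hsym : ∀ y z, ‖P.G s y z‖ ^ 2 = ‖P.G s z y‖ ^ 2 := fun y z => by rw [hOk.symm]
  have h1de : 0 < 1 - de := by linarith
  set th := C * ad with hth
  have hth0 : 0 ≤ th := mul_nonneg hC0 had
  have hth1 : th ≤ 1 := by
    have : 2 * th = 2 * C * ad := by rw [hth]; ring
    linarith
  set dl' : Tor d L → ℝ := fun y => (1 + t.dl y) * (1 + th) / (1 - de) - 1 with hdl'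
  have hdl0 : ∀ y, 0 ≤ dl' y := fun y => by
    have h1 := hI.dl0 y
    simp only [hdl']
    rw [sub_nonneg, le_div_iff₀ h1de]
    nlinarith [mul_nonneg h1 hth0]
  have hdl1 : ∀ y, dl' y ≤ 4 * t.dl y + 2 * (th + de) := fun y => by
    have h1 := hI.dl0 y
    simp only [hdl']
    rw [sub_le_iff_le_add, div_le_iff₀ h1de]
    nlinarith [mul_nonneg h1 hth0, mul_nonneg h1 hde, mul_nonneg hth0 hde, mul_nonneg hde hde,
      mul_nonneg h1 (sub_nonneg.2 hth1), mul_nonneg h1 (sub_nonneg.2 hde'),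
      mul_nonneg hth0 (sub_nonneg.2 hde'), mul_nonneg hde (sub_nonneg.2 hde')]
  set mm := (t.eta + t.k * f.C1) * (2 * C) with hmm
  have hmm0 : 0 < mm := by
    have := hN.eta
    positivity
  set em := (t.eta + t.kl * f.c1) / C with hem
  have hem0 : 0 < em := by
    have h1 := hN.eta
    have h2 := hN.kl
    have h3 := hN.c1
    positivity
  have hetaY : ∀ y ∈ Y', M.eta y ≤ C * P.eta s y := fun y hy => by
    have h2 := hOk.etaLo (hYok y hy)
    rwa [hen] at h2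
  have hemY : ∀ y ∈ Y', em ≤ P.eta s y := fun y hy => by
    have h1 := hG.eta_act hI hN (hYA y hy)
    have h2 := hetaY y hy
    rw [hem, div_le_iff₀ hCp, mul_comm]
    linarith
  have hmA : ∀ y ∈ Y', P.eta s y * P.io s y ≤ mm := fun y hy => by
    have h1 := hG.eta_act_le hI hN (hYA y hy)
    have h2 := hOk.etaLe s y
    rw [hen] at h2
    have h3 := hio y (hYX hy)
    have h5 := hOk.eta0 s y
    rw [hmm]
    exact mul_le_mul (h2.trans h1) h3 (hio0 y (hYX hy)) (h5.trans (h2.trans h1))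
  set mk := nX * (t.eta / (2 * C ^ 2) / (4 * (1 + u.dS))) with hmk
  have hmin : 0 < t.eta / (2 * C ^ 2) := div_pos hN.eta (by positivity)
  have hmk0 : 0 < mk := by
    have : 0 < 4 * (1 + u.dS) := by linarith
    positivity
  have hmlo : ∀ y ∈ M.nr, t.eta / (2 * C ^ 2) ≤ P.eta s y * P.io s y := fun y hy => by
    have h8 := hes y hy
    have h10 := hio3 y hy
    have h11 : t.eta / C ≤ P.eta s y := by
      rw [div_le_iff₀ hCp, mul_comm]
      exact h8
    have h12 : t.eta / C * (1 / (2 * C)) ≤ P.eta s y * P.io s y :=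
      mul_le_mul h11 h10 (by positivity) ((div_nonneg hN.eta.le hC0).trans h11)
    calc t.eta / (2 * C ^ 2) = t.eta / C * (1 / (2 * C)) := by
          field_simp
      _ ≤ _ := h12
  have hmlo2 : t.eta / (2 * C ^ 2) ≤ mm := by
    have h1 : t.eta / (2 * C ^ 2) ≤ t.eta := by
      refine div_le_self hN.eta.le ?_
      nlinarith
    have h2 : 0 ≤ t.k * f.C1 := by positivity
    have h3 : t.eta + t.k * f.C1 ≤ mm := by
      rw [hmm]
      have := hN.eta
      exact le_mul_of_one_le_right (by positivity) (by linarith)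
    linarith
  have hmk1 : mk ≤ ∑ y ∈ M.nr, min (P.eta s y * P.io s y) mm / (1 + dl' y) := by
    have h1 : (M.nr.card : ℝ) * (t.eta / (2 * C ^ 2) / (4 * (1 + u.dS))) ≤
        ∑ y ∈ M.nr, min (P.eta s y * P.io s y) mm / (1 + dl' y) := by
      rw [← nsmul_eq_mul]
      refine Finset.card_nsmul_le_sum _ _ _ fun y hy => ?_
      have h2 := hdl0 y
      have h3 : 1 + dl' y ≤ 4 * (1 + u.dS) := by
        have h4 := hI.dS y
        have h5 := hI.dl0 y
        simp only [hdl']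
        rw [add_sub_cancel, div_le_iff₀ h1de]
        have h6 : (1 + t.dl y) * (1 + th) ≤ (1 + u.dS) * 2 :=
          mul_le_mul (by linarith) (by linarith) (by linarith) (by linarith)
        nlinarith
      have h13 : t.eta / (2 * C ^ 2) ≤ min (P.eta s y * P.io s y) mm :=
        le_min (hmlo y hy) hmlo2
      exact div_le_div₀ (hmin.le.trans h13) h13 (by linarith) h3
    refine le_trans ?_ h1
    rw [hmk]
    exact mul_le_mul_of_nonneg_right hnX (by
      have : 0 < 4 * (1 + u.dS) := by linarith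
      positivity)
  have hA' : ∀ y ∈ Y', t.k * dl' y ≤
      (4 * C * u.dA + 2 * C * Ck * (C * ad + de)) * P.eta s y := fun y hy => by
    have hyA := hYA y hy
    have h1 := hI.dA y hyA
    have h3 := hCk y hyA
    have h4 := hdl1 y
    have h5 : t.k * dl' y ≤ 4 * (t.k * t.dl y) + 2 * (th + de) * t.k := by
      have := mul_le_mul_of_nonneg_left h4 hk.le
      linarith
    have h6 := hetaY y hy
    have h7 : u.dA * M.eta y ≤ u.dA * (C * P.eta s y) := mul_le_mul_of_nonneg_left h6 hdA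
    have h8 : t.k ≤ Ck * (C * P.eta s y) := h3.trans (mul_le_mul_of_nonneg_left h6 hCk0)
    have h9 : 2 * (th + de) * t.k ≤ 2 * (th + de) * (Ck * (C * P.eta s y)) :=
      mul_le_mul_of_nonneg_left h8 (by positivity)
    calc t.k * dl' y ≤ 4 * (u.dA * (C * P.eta s y)) + 2 * (th + de) * (Ck * (C * P.eta s y)) := by
          linarith
      _ = _ := by rw [hth]; ring
  have hW : ∀ y ∈ M.nr, ∑ z ∈ M.nr, P.eta s z * ‖P.G s y z‖ ^ 2 = P.io s y := fun y _ => by
    rw [← hOk.ward_s s y]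
    unfold Stp.S
    refine Finset.sum_subset (Finset.subset_univ _) fun z _ hz => ?_
    rw [hOk.etaU' s hz, zero_mul]
  -- the form
  have hqf := qf_QfB hOk s hW
  have h4 : ∀ v : Tor d L → ℝ, (∀ y, y ∉ Y' → v y = 0) → ∃ a : Tor d L → ℝ,
      ANF.Heat.DT a / (2 / u.Ki) + ∑ y ∈ M.nr, P.eta s y * P.io s y * (v y - a y) ^ 2 /
        (1 + dl' y) ≤ T4.Qf M.nr (P.eta s) (fun y z => ‖P.G s y z‖ ^ 2) v := fun v hv => by
    obtain ⟨a, ha⟩ := hlow v fun y hy => hv y fun h => hy (hYB y h)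
    refine ⟨a, ?_⟩
    rw [← hqf]
    rw [le_div_iff₀ h1de] at ha
    refine le_trans ?_ ha
    rw [add_mul]
    refine add_le_add ?_ ?_
    · have h1 := DW_ge (fun i x => hI.D i x) a
      have h2 : ANF.Heat.DT a / (2 / u.Ki) = u.Ki * ANF.Heat.DT a * (1 / 2) := by
        field_simp
      rw [h2]
      have h3 : 0 ≤ u.Ki * ANF.Heat.DT a := by
        refine mul_nonneg hKi.le ?_
        unfold ANF.Heat.DT
        positivity
      calc u.Ki * ANF.Heat.DT a * (1 / 2) ≤ u.Ki * ANF.Heat.DT a * (1 - de) :=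
            mul_le_mul_of_nonneg_left (by linarith) h3
        _ ≤ _ := mul_le_mul_of_nonneg_right h1 h1de.le
    · rw [Finset.sum_mul]
      refine Finset.sum_le_sum fun y hy => ?_
      have h5 := hI.dl0 y
      have h6 := hio2 y hy
      have h7 := hOk.eta0 s y
      have h8 : 1 + dl' y = (1 + t.dl y) * (1 + th) / (1 - de) := by
        simp only [hdl']; ring
      rw [h8]
      have h9 : 0 < 1 + t.dl y := by linarith
      have h10 : 0 < 1 + th := by linarith
      calc P.eta s y * P.io s y * (v y - a y) ^ 2 / ((1 + t.dl y) * (1 + th) / (1 - de))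
          = P.eta s y * (P.io s y / (1 + th)) * (v y - a y) ^ 2 / (1 + t.dl y) * (1 - de) := by
            field_simp
        _ ≤ P.eta s y * P.io nil y * (v y - a y) ^ 2 / (1 + t.dl y) * (1 - de) := by
            have h11 : P.io s y / (1 + th) ≤ P.io nil y := by
              rw [div_le_iff₀ h10]
              linarith
            gcongr
  have hfin := T4.II_leB (W := ↥N) hd l hl hlL hYX (eta := P.eta s) (iota := P.io s) (dl := dl')
    (om := fun y => if y ∈ Y' then t.k else 0) (G := P.G s) (e := fun w : ↥N => (w : Tor d L))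
    (U := fun w : ↥N => 3 * bo ok be s w) (K := 2 / u.Ki) (mm := mm) (mk := mk) (kk := t.k)
    (em := em) (Cu := 9 * Cb) (Ci := 2 * C) (dA := 4 * C * u.dA + 2 * C * Ck * (C * ad + de))
    (by positivity)
    hmm0.le hk hem0 Subtype.val_injective
    (fun w hw => by
      have hw' : bo ok be s w ≠ 0 := fun h0 => hw (by simp only [h0, mul_zero])
      have hok : ok w (s w) := by
        by_contra hno
        exact hw' (bo_bad hno)
      exact (hY' _).2 ⟨Finset.mem_inter.2 ⟨hNA w.2, hNB w.2⟩, hok⟩)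
    (fun y _ => hOk.eta0 s y) hemY hio0 hio
    (fun y _ => hdl0 y) hA' (by positivity) ?_ (fun y hy => by simp [hy])
    (by linarith [hCb]) ?_ hmA hmk0 hmk1 (fun y _ z _ => hsym y z) hW h4 x.2
  · have hconv : T4.II (Stp.omY Y' t.k) (fun w : ↥N => 3 * bo ok be s w) (P.gX M.nr s)
        (eN hOk.NX) x = T4.II (fun y => if y ∈ Y' then t.k else 0)
          (fun w : ↥N => 3 * bo ok be s w) (P.G s) (fun w : ↥N => (w : Tor d L)) x := by
      unfold T4.II
      refine Finset.sum_congr rfl fun w _ => ?_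
      have h1 : ∑ y : ↥M.nr, Stp.omY Y' t.k y * ((3 * bo ok be s w) ^ 2 *
          (‖P.gX M.nr s x y‖ ^ 2 * (‖P.gX M.nr s x (eN hOk.NX w)‖ ^ 2 *
            ‖P.gX M.nr s (eN hOk.NX w) y‖ ^ 2))) =
          ∑ y ∈ M.nr, (if y ∈ Y' then t.k else 0) * ((3 * bo ok be s w) ^ 2 *
            (‖P.G s x y‖ ^ 2 * (‖P.G s x w‖ ^ 2 * ‖P.G s w y‖ ^ 2))) :=
        Finset.sum_coe_sort M.nr (fun y => (if y ∈ Y' then t.k else 0) * ((3 * bo ok be s w) ^ 2 *
            (‖P.G s x y‖ ^ 2 * (‖P.G s x w‖ ^ 2 * ‖P.G s w y‖ ^ 2))))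
      rw [h1]
      refine Finset.sum_subset (Finset.subset_univ _) fun y _ hy => ?_
      rw [if_neg (fun h => hy (hYX h)), zero_mul]
    rw [hconv]
    refine hfin.trans ?_
    unfold iotBB
    rw [← hmm, ← hem, ← hmk]
    refine mul_le_mul_of_nonneg_left ?_ (by linarith [hCb])
    refine add_le_add ?_ le_rfl
    refine mul_le_mul_of_nonneg_left hT ?_
    have hCH : 0 ≤ ANF.Heat.CH d := by unfold ANF.Heat.CH; positivity
    positivity
  · intro y hy
    simp [hy]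
  · intro w
    have h1 := hbe w
    have h2 := hOk.bo_sq s w
    calc (3 * bo ok be s w) ^ 2 = 9 * bo ok be s w ^ 2 := by ring
      _ ≤ 9 * (Cb * t.k) := by linarith
      _ = _ := by ring

/-- the same from `FormLe` -/
theorem II_atB' (hd : 3 ≤ d) (hG : Good f t M) (hI : t.In f M u) (hN : Num f t u) (hKi : 0 < u.Ki)
    {g : ANS.Dig (Tor d L) D} {N B Y' : Finset (Tor d L)} {c be : Tor d L → ℝ}
    {ok : Tor d L → Option D → Prop} {e : Tor d L → Option D → ℝ} {C Cb Lm : ℝ}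
    (hNA : N ⊆ M.A) (hNB : N ⊆ B) (hCb : 0 ≤ Cb) (hbe : ∀ w, be w ^ 2 ≤ Cb * t.k)
    (hOk : (M.stp g).OkB ok M.nr N c be e C Lm) {s : Tor d L → Option D}
    (hE : (M.stp g).Ent M.nr 1 s) (hY' : ∀ y, y ∈ Y' ↔ y ∈ M.A ∩ B ∧ ok y (s y))
    (hes : ∀ x ∈ M.nr, t.eta ≤ C * (M.stp g).eta s x)
    {Ck : ℝ} (hCk0 : 0 ≤ Ck) (hCk : ∀ y ∈ M.A, t.k ≤ Ck * M.eta y) {ad de : ℝ} (had : 0 ≤ ad)
    (had' : 2 * C * ad ≤ 1) (hde : 0 ≤ de) (hde' : de ≤ 1 / 2)
    {l : ℝ} (hl : 1 ≤ l) (hlL : l ≤ L) {nX : ℝ} (hnX : nX ≤ M.nr.card) (hnX0 : 0 < nX)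
    (hdS : 0 ≤ u.dS) (hdA : 0 ≤ u.dA)
    (hdia : ∀ x ∈ M.nr, ‖(M.stp g).G s x x - (M.stp g).G nil x x‖ ≤ ad)
    (hB : B ⊆ M.nr) (hBX : ∃ x ∈ M.nr, x ∉ B) (hF : (M.stp g).FormLe B de s)
    {TT : ℝ} (x : ↥M.nr) (hT : t.k * (M.stp g).Tx Y' s x ≤ TT) :
    T4.II (Stp.omY Y' t.k) (fun w : ↥N => 3 * bo ok be s w) ((M.stp g).gX M.nr s)
        (eN hOk.NX) x ≤
      iotBB d f t.eta t.k t.kl u.Ki u.dA u.dS C Cb Ck ad de l nX TT :=
  II_atB hd hG hI hN hKi hNA hNB hCb hbe hOk hE hY' hes hCk0 hCk had had' hde hde' hl hlL hnX hnX0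
    hdS hdA hdia (fun v hv => by
      obtain ⟨a, ha⟩ := low_atB hG hI hN hKi hOk hB hBX (by linarith) hF (v := v) hv
      refine ⟨a, ?_⟩
      simpa only [stp_io_nil] using ha) x hT

end Pool.Agent.AND
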