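import Pool.Agent.ANS.CoreNum
import Pool.Agent.ANS.TopIIB

/-! # ANS CORE NUM B (helper43): the triangle sums for small `κ`, general laws

`iotBB_le`: the bound `iotBB` of `II_atB` with smoothing length `κ^(-15/32)` is at most `iotFB .. κ`;
`pw_iotFB`: `iotFB` is `O(κ^(1/8 + vi))`, `vi ≤ 1/16`.  `ck` : `κ ≤ ck kl`; `cd` : the tolerances of the
diagonal and of the form are at most `cd κ^vi`. -/

set_option autoImplicit false

open Finset

noncomputable section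

namespace Pool.Agent.AND

open Pool.Agent.ANS Pool.Agent.Kin

/-- the bound `iotBB` of the triangle sums is at most this function of `κ` -/
def iotFB (d : ℕ) (c1 C1 C Cb ck cK cA cd cT vi k : ℝ) : ℝ :=
  9 * Cb * ((2 * C * ((4 * C * (cA * k ^ vi) + 2 * C * C * (C * (cd * k ^ vi) + cd * k ^ vi)) +
      4 * ANF.Heat.CH d * (2 / cK) * (2 * C * (C * (1 + ck * C1 / c1))) *
        k ^ (1 / 16 : ℝ))) * (cT * k ^ (1 / 8 : ℝ)) +
    (28 * ANF.Heat.CH d * (2 / cK) * k ^ (15 / 32 : ℝ) +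
      (3 + 24 * ANF.Heat.CH d * (2 / cK) * ((1 + C1) * (2 * C))) * (16 * C ^ 2) *
        k ^ (2 : ℝ)) * (2 * C * (2 * C * (C * (ck / c1)))) ^ 2)

theorem pw_iotFB (d : ℕ) (c1 C1 C Cb ck cK cA cd cT vi : ℝ) (hvi1 : vi ≤ 1 / 16) :
    Pw (iotFB d c1 C1 C Cb ck cK cA cd cT vi) (1 / 8 + vi) := by
  unfold iotFB
  have h1 : Pw (fun k : ℝ => 4 * C * (cA * k ^ vi)) vi := ((Pw.rpow vi).cmul cA).cmul (4 * C)
  have h2 : Pw (fun k : ℝ => 2 * C * C * (C * (cd * k ^ vi) + cd * k ^ vi)) vi :=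
    ((((Pw.rpow vi).cmul cd).cmul C).add ((Pw.rpow vi).cmul cd)).cmul (2 * C * C)
  have h3 : Pw (fun k : ℝ => 4 * ANF.Heat.CH d * (2 / cK) *
      (2 * C * (C * (1 + ck * C1 / c1))) * k ^ (1 / 16 : ℝ)) vi :=
    ((Pw.rpow (1 / 16)).cmul _).mono (by linarith)
  have h4 : Pw (fun k : ℝ => 28 * ANF.Heat.CH d * (2 / cK) * k ^ (15 / 32 : ℝ)) (1 / 8 + vi) :=
    ((Pw.rpow (15 / 32)).cmul _).mono (by linarith)
  have h5 : Pw (fun k : ℝ => (3 + 24 * ANF.Heat.CH d * (2 / cK) *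
      ((1 + C1) * (2 * C))) * (16 * C ^ 2) * k ^ (2 : ℝ)) (1 / 8 + vi) :=
    ((Pw.rpow 2).cmul _).mono (by linarith)
  have h6 := (((h1.add h2).add h3).cmul (2 * C)).mul ((Pw.rpow (1 / 8)).cmul cT)
  exact ((h6.mono (b := 1 / 8 + vi) (by linarith)).add
    ((h4.add h5).mulc ((2 * C * (2 * C * (C * (ck / c1)))) ^ 2))).cmul (9 * Cb)

theorem iotBB_le {d : ℕ} (hd : 3 ≤ d) {f : Fix}
    {eta k kl Ki dA dS C Cb ck cK cA cd cT vi nX ad de TT : ℝ}
    (hk : 0 < k) (hk1 : k ≤ 1) (heta : 0 < eta) (heta1 : eta ≤ 1) (hkl : 0 < kl)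
    (hck : 0 ≤ ck) (hkl' : k ≤ ck * kl) (hc1 : 0 < f.c1) (hC1 : 0 < f.C1)
    (hC : 1 ≤ C) (hCb : 0 ≤ Cb) (hcK : 0 < cK) (hKi : cK ≤ Ki) (hdA : dA ≤ cA * k ^ vi)
    (hdS0 : 0 ≤ dS) (hdS : dS ≤ 1) (had : ad ≤ cd * k ^ vi)
    (hde : de ≤ cd * k ^ vi) (hcd : 0 ≤ cd) (hcA : 0 ≤ cA)
    (hTT0 : 0 ≤ TT) (hTT : TT ≤ cT * k ^ (1 / 8 : ℝ)) (hnX0 : 0 < nX)
    (hnX : k ^ (-3 : ℝ) ≤ nX * eta) :
    iotBB d f eta k kl Ki dA dS C Cb C ad de (k ^ (-15 / 32 : ℝ)) nX TT ≤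
      iotFB d f.c1 f.C1 C Cb ck cK cA cd cT vi k := by
  have hpos : ∀ a : ℝ, 0 < k ^ a := fun a => Real.rpow_pos_of_pos hk a
  have hCH : 0 ≤ ANF.Heat.CH d := by unfold ANF.Heat.CH; positivity
  have hC0 : 0 < C := by linarith
  set em := (eta + kl * f.c1) / C with hem
  have hem0 : 0 < em := by positivity
  have h2Ki : 2 / Ki ≤ 2 / cK := div_le_div_of_nonneg_left (by norm_num) hcK hKi
  have hKi0 : 0 < Ki := hcK.trans_le hKi
  -- ratios
  have r1 : k / em ≤ C * (ck / f.c1) := by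
    rw [hem, div_le_iff₀ (by positivity)]
    have h1 : C * (ck / f.c1) * ((eta + kl * f.c1) / C) = ck / f.c1 * eta + ck * kl := by
      field_simp
    rw [h1]
    have h2 : 0 ≤ ck / f.c1 * eta := by positivity
    linarith
  have r2 : (eta + k * f.C1) / em ≤ C * (1 + ck * f.C1 / f.c1) := by
    rw [hem, div_le_iff₀ (by positivity)]
    have h1 : C * (1 + ck * f.C1 / f.c1) * ((eta + kl * f.c1) / C) =
        eta + kl * f.c1 + ck * f.C1 / f.c1 * eta + (ck * kl) * f.C1 := by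
      field_simp
      ring
    rw [h1]
    have h2 : 0 ≤ ck * f.C1 / f.c1 * eta := by positivity
    have h3 : 0 < kl * f.c1 := by positivity
    have h4 : k * f.C1 ≤ (ck * kl) * f.C1 := mul_le_mul_of_nonneg_right hkl' hC1.le
    linarith
  set mm := (eta + k * f.C1) * (2 * C) with hmm
  have hmm0 : 0 < mm := by positivity
  have r3 : mm * (k / em) ≤ 2 * C * (C * (1 + ck * f.C1 / f.c1)) * k := by
    calc mm * (k / em) = 2 * C * ((eta + k * f.C1) / em) * k := by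
          rw [hmm]; ring
      _ ≤ _ := by
          refine mul_le_mul_of_nonneg_right (mul_le_mul_of_nonneg_left r2 (by positivity)) hk.le
  -- the length
  set l := k ^ (-15 / 32 : ℝ) with hl
  have hl0 : 0 < l := hpos _
  have hl1 : 1 ≤ l := Real.one_le_rpow_of_pos_of_le_one_of_nonpos hk hk1 (by norm_num)
  have hl2 : l ^ 2 * k = k ^ (1 / 16 : ℝ) := by
    rw [hl, ← Real.rpow_natCast, ← Real.rpow_mul hk.le]
    nth_rewrite 2 [← Real.rpow_one k]
    rw [← Real.rpow_add hk]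
    norm_num
  have hrho : ANF.Heat.rho d l ≤ k ^ (15 / 32 : ℝ) := by
    unfold ANF.Heat.rho
    have h1 : l ^ 3 ≤ l ^ d := pow_le_pow_right₀ hl1 hd
    have h2 : l ^ 2 / l ^ d ≤ l ^ 2 / l ^ 3 :=
      div_le_div_of_nonneg_left (by positivity) (by positivity) h1
    have h3 : l ^ 2 / l ^ 3 = l⁻¹ := by
      field_simp
    rw [h3, hl, ← Real.rpow_neg hk.le] at h2
    refine h2.trans (le_of_eq ?_)
    norm_num
  have hrho0 : 0 ≤ ANF.Heat.rho d l := by unfold ANF.Heat.rho; positivity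
  -- the three terms
  have t1 : 4 * ANF.Heat.CH d * l ^ 2 * (2 / Ki) * mm * (k / em) ≤
      4 * ANF.Heat.CH d * (2 / cK) * (2 * C * (C * (1 + ck * f.C1 / f.c1))) *
        k ^ (1 / 16 : ℝ) := by
    calc 4 * ANF.Heat.CH d * l ^ 2 * (2 / Ki) * mm * (k / em) =
          4 * ANF.Heat.CH d * (2 / Ki) * (mm * (k / em)) * l ^ 2 := by ring
      _ ≤ 4 * ANF.Heat.CH d * (2 / cK) *
          (2 * C * (C * (1 + ck * f.C1 / f.c1)) * k) * l ^ 2 := by
          refine mul_le_mul_of_nonneg_right ?_ (by positivity)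
          exact mul_le_mul (mul_le_mul_of_nonneg_left h2Ki (by positivity)) r3 (by positivity)
            (by positivity)
      _ = 4 * ANF.Heat.CH d * (2 / cK) *
          (2 * C * (C * (1 + ck * f.C1 / f.c1))) * (l ^ 2 * k) := by ring
      _ = _ := by rw [hl2]
  have t2 : 28 * ANF.Heat.CH d * ANF.Heat.rho d l * (2 / Ki) ≤
      28 * ANF.Heat.CH d * (2 / cK) * k ^ (15 / 32 : ℝ) := by
    calc 28 * ANF.Heat.CH d * ANF.Heat.rho d l * (2 / Ki) =
          28 * ANF.Heat.CH d * (2 / Ki) * ANF.Heat.rho d l := by ring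
      _ ≤ _ := mul_le_mul (mul_le_mul_of_nonneg_left h2Ki (by positivity)) hrho hrho0
          (by positivity)
  have t3 : (3 + 24 * ANF.Heat.CH d * l ^ 2 * (2 / Ki) * mm) /
      (nX * (eta / (2 * C ^ 2) / (4 * (1 + dS)))) ≤
      (3 + 24 * ANF.Heat.CH d * (2 / cK) * ((1 + f.C1) * (2 * C))) * (16 * C ^ 2) *
        k ^ (2 : ℝ) := by
    have hden : k ^ (-3 : ℝ) / (16 * C ^ 2) ≤ nX * (eta / (2 * C ^ 2) / (4 * (1 + dS))) := by
      have e1 : nX * (eta / (2 * C ^ 2) / (4 * (1 + dS))) = (nX * eta) / (8 * C ^ 2 * (1 + dS)) := by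
        field_simp
        ring
      rw [e1]
      refine div_le_div₀ (by positivity) hnX (by positivity) ?_
      nlinarith [sq_nonneg C]
    have hnum : 3 + 24 * ANF.Heat.CH d * l ^ 2 * (2 / Ki) * mm ≤
        (3 + 24 * ANF.Heat.CH d * (2 / cK) * ((1 + f.C1) * (2 * C))) *
          k ^ (-1 : ℝ) := by
      have e1 : mm ≤ (1 + f.C1) * (2 * C) := by
        rw [hmm]
        have : eta + k * f.C1 ≤ 1 + f.C1 := by nlinarith
        gcongr
      have e2 : l ^ 2 ≤ k ^ (-1 : ℝ) := by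
        rw [hl, ← Real.rpow_natCast, ← Real.rpow_mul hk.le]
        exact Real.rpow_le_rpow_of_exponent_ge hk hk1 (by norm_num)
      have e3 : (1 : ℝ) ≤ k ^ (-1 : ℝ) :=
        Real.one_le_rpow_of_pos_of_le_one_of_nonpos hk hk1 (by norm_num)
      calc 3 + 24 * ANF.Heat.CH d * l ^ 2 * (2 / Ki) * mm ≤
            3 * k ^ (-1 : ℝ) + 24 * ANF.Heat.CH d * k ^ (-1 : ℝ) * (2 / cK) *
              ((1 + f.C1) * (2 * C)) := by
            gcongr
            linarith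
        _ = _ := by ring
    calc (3 + 24 * ANF.Heat.CH d * l ^ 2 * (2 / Ki) * mm) /
        (nX * (eta / (2 * C ^ 2) / (4 * (1 + dS)))) ≤
        ((3 + 24 * ANF.Heat.CH d * (2 / cK) * ((1 + f.C1) * (2 * C))) *
          k ^ (-1 : ℝ)) / (k ^ (-3 : ℝ) / (16 * C ^ 2)) := by
          refine div_le_div₀ ?_ hnum ?_ hden
          · have := hpos (-1)
            positivity
          · have := hpos (-3)
            positivity
      _ = (3 + 24 * ANF.Heat.CH d * (2 / cK) * ((1 + f.C1) * (2 * C))) *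
          (16 * C ^ 2) * (k ^ (-1 : ℝ) / k ^ (-3 : ℝ)) := by
          have h3 := (hpos (-3)).ne'
          field_simp
      _ = _ := by
          rw [← Real.rpow_sub hk]
          norm_num
  have hkvi := hpos vi
  have hk16 := hpos (1 / 16)
  have hcf : 4 * C * dA + 2 * C * C * (C * ad + de) ≤
      4 * C * (cA * k ^ vi) + 2 * C * C * (C * (cd * k ^ vi) + cd * k ^ vi) := by
    gcongr
  unfold iotBB iotFB
  rw [← hmm, ← hem]
  refine mul_le_mul_of_nonneg_left ?_ (by positivity)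
  refine add_le_add ?_ ?_
  · refine mul_le_mul ?_ hTT hTT0 (by positivity)
    exact mul_le_mul_of_nonneg_left (add_le_add hcf t1) (by positivity)
  · have hk2 := hpos 2
    have hk3 := hpos (15 / 32)
    refine mul_le_mul (add_le_add t2 t3) ?_ (by positivity) (by positivity)
    have : 0 ≤ k / em := by positivity
    gcongr

end Pool.Agent.AND
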