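import Pool.Agent.ANS.JPow
import Pool.Agent.ANS.EngB

/-! # ANS JPOWB: power components of the jump engine with good values and rates (general laws)

The same as JPow (see there), for `CompB`: the weights `om x s` may depend on the configuration, they do not change when a
good site becomes unread and can only decrease when it is read; sums over the sites carry rates `0 ≤ r ≤ 2` which vanish
at the bad sites.  The proofs are those of JPow (helper21), adapted by helper52.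
-/

set_option autoImplicit false
set_option linter.unusedSectionVars false

open Finset Function

noncomputable section

namespace Pool.Agent.ANS

variable {N A X : Type} [Fintype N] [DecidableEq N] [Fintype A] [DecidableEq A] [Fintype X]

open Classical in
theorem comp_absB (k : ℕ) (pr : N → A → ℝ) (hpr : ∀ w a, 0 ≤ pr w a)
    (ok : N → Option A → Prop) (omm : X → (N → Option A) → ℝ) (homm : ∀ x s, 0 ≤ omm x s)
    (Φ : X → (N → Option A) → ℝ) (hΦ0 : ∀ x s, 0 ≤ Φ x s) (s : N → Option A)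
    (hon : ∀ w, ok w (s w) → ∀ x, omm x s ≤ omm x (update s w none))
    (hob : ∀ w, ok w (s w) → ∀ b x, omm x (update s w b) ≤ omm x s)
    (v : X → ℝ) (hv : ∀ x, 0 ≤ v x)
    (hΦ : ∀ x, Φ x s = (v x ^ 2) ^ (k + 1)) (L : X → N → Option A → ℝ) (d : X → N → ℝ)
    (hd0 : ∀ x w, 0 ≤ d x w)
    (hL1 : ∀ x w b, ok w (s w) → |Φ x (update s w b) - Φ x s - L x w b| ≤
      (4 ^ (k + 1) + 2 * ((k : ℝ) + 1) + 1) * ((v x ^ 2) ^ k * d x w ^ 2 + (d x w ^ 2) ^ (k + 1)))
    (hL2 : ∀ x w b, ok w (s w) → |L x w b| ≤ 2 * ((k : ℝ) + 1) * ((v x ^ 2) ^ k * v x * d x w))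
    (D Q : X → ℝ) (hD0 : ∀ x, 0 ≤ D x)
    (hD : ∀ r : N → ℝ, Rate ok s r → ∀ x,
      ∑ w, r w * (∑ b, pr w b * L x w (some b) - L x w none) ≤
      2 * ((k : ℝ) + 1) * ((v x ^ 2) ^ k * v x * D x))
    (hQ : ∀ x, ∑ w, d x w ^ 2 ≤ Q x) {bD be dl : ℝ}
    (hbDD : ∑ x, omm x s * (D x ^ 2) ^ (k + 1) ≤ bD)
    (hbQ : ∑ x, omm x s * Q x ^ (k + 1) ≤ be)
    (hdl : 0 < dl) (hdl1 : dl ≤ 1)
    (hbd : KP (k + 1) * be ≤ dl ^ (2 * (k + 1))) (hs : ∑ x, omm x s * Φ x s ≤ 1) :
    CompB pr ok (fun s => ∑ x, omm x s * Φ x s) s (2 * KP (k + 1))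
      (2 * (KP (k + 1) * (bD + be))) dl := by
  obtain ⟨om, hom⟩ : ∃ om : X → ℝ, ∀ x, om x = omm x s := ⟨fun x => omm x s, fun x => rfl⟩
  have hom0 : ∀ x, 0 ≤ om x := fun x => by
    rw [hom]
    exact homm x s
  simp only [← hom] at hbDD hbQ hs hon hob
  obtain ⟨hK1, hK2⟩ := KP_facts k
  have hP3 := four_pow_ge k
  obtain ⟨P, hP⟩ : ∃ P : ℝ, P = 4 ^ (k + 1) := ⟨_, rfl⟩
  obtain ⟨K, hK⟩ : ∃ K : ℝ, K = KP (k + 1) := ⟨_, rfl⟩
  rw [← hP] at hK1 hK2 hP3 hL1
  rw [← hK] at hK1 hK2 hbd ⊢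
  have hk0 : (0 : ℝ) ≤ k := Nat.cast_nonneg k
  have hP4 : 4 ≤ P := by linarith
  have hP0 : 0 < P := by linarith
  have hK64 : 64 ≤ K := by nlinarith
  have hK0 : 0 < K := by linarith
  have hQ0 : ∀ x, 0 ≤ Q x := fun x => (Finset.sum_nonneg fun w _ => sq_nonneg (d x w)).trans (hQ x)
  have hD2 : 0 ≤ ∑ x, om x * (D x ^ 2) ^ (k + 1) :=
    Finset.sum_nonneg fun x _ => mul_nonneg (hom0 x) (by positivity)
  have hQ2 : 0 ≤ ∑ x, om x * Q x ^ (k + 1) :=
    Finset.sum_nonneg fun x _ => mul_nonneg (hom0 x) (pow_nonneg (hQ0 x) _)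
  have hbe0 : 0 ≤ be := by linarith
  have hbD0 : 0 ≤ bD := by linarith
  have hbe1 : be ≤ 1 := by
    have h1 : dl ^ (2 * (k + 1)) ≤ 1 := pow_le_one₀ hdl.le hdl1
    nlinarith
  have hΓs : ∑ x, om x * (v x ^ 2) ^ (k + 1) ≤ 1 := by
    refine le_trans (le_of_eq (Finset.sum_congr rfl fun x _ => ?_)) hs
    rw [hΦ]
  have hΓs' : ∑ x, om x * (v x ^ 2) ^ (k + 1) = ∑ x, om x * Φ x s :=
    Finset.sum_congr rfl fun x _ => by rw [hΦ]
  have hΓ0 : 0 ≤ ∑ x, om x * (v x ^ 2) ^ (k + 1) :=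
    Finset.sum_nonneg fun x _ => mul_nonneg (hom0 x) (by positivity)
  -- sum of d ^ (2 p) over x for a fixed w
  have hdQ : ∀ x w, d x w ^ 2 ≤ Q x := fun x w =>
    (Finset.single_le_sum (f := fun w => d x w ^ 2) (fun w _ => sq_nonneg (d x w))
      (Finset.mem_univ w)).trans (hQ x)
  have hY0 : ∀ w, 0 ≤ ∑ x, om x * (d x w ^ 2) ^ (k + 1) := fun w =>
    Finset.sum_nonneg fun x _ => mul_nonneg (hom0 x) (by positivity)
  have hYb : ∀ w, ∑ x, om x * (d x w ^ 2) ^ (k + 1) ≤ be := by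
    intro w
    have h1 : ∑ x, om x * (d x w ^ 2) ^ (k + 1) ≤ ∑ x, om x * Q x ^ (k + 1) :=
      Finset.sum_le_sum fun x _ => mul_le_mul_of_nonneg_left
        (pow_le_pow_left₀ (sq_nonneg _) (hdQ x w) _) (hom0 x)
    linarith
  have hX0 : ∀ w, 0 ≤ ∑ x, om x * ((v x ^ 2) ^ k * d x w ^ 2) := fun w =>
    Finset.sum_nonneg fun x _ => mul_nonneg (hom0 x) (by positivity)
  have hZ0 : ∀ w, 0 ≤ ∑ x, om x * ((v x ^ 2) ^ k * v x * d x w) := fun w =>
    Finset.sum_nonneg fun x _ => mul_nonneg (hom0 x)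
      (mul_nonneg (mul_nonneg (by positivity) (hv x)) (hd0 x w))
  have hS : ∀ w, ∑ x, om x * ((v x ^ 2) ^ k * d x w ^ 2 + (d x w ^ 2) ^ (k + 1)) =
      ∑ x, om x * ((v x ^ 2) ^ k * d x w ^ 2) + ∑ x, om x * (d x w ^ 2) ^ (k + 1) := by
    intro w
    rw [← Finset.sum_add_distrib]
    exact Finset.sum_congr rfl fun x _ => mul_add _ _ _
  -- the increment of Γ
  have hinc : ∀ w b, ok w (s w) → |∑ x, om x * Φ x (update s w b) - ∑ x, om x * Φ x s| ≤
      4 * P * (∑ x, om x * ((v x ^ 2) ^ k * v x * d x w) + ∑ x, om x * (d x w ^ 2) ^ (k + 1)) := by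
    intro w b hw
    rw [← Finset.sum_sub_distrib, ← Finset.sum_add_distrib, Finset.mul_sum]
    refine (Finset.abs_sum_le_sum_abs _ _).trans (Finset.sum_le_sum fun x _ => ?_)
    rw [← mul_sub, abs_mul, abs_of_nonneg (hom0 x)]
    have h1 := hL1 x w b hw
    have h2 := hL2 x w b hw
    have h3 : (v x ^ 2) ^ k * d x w ^ 2 ≤ (v x ^ 2) ^ k * v x * d x w + (d x w ^ 2) ^ (k + 1) := by
      rcases le_or_gt (d x w) (v x) with h | h
      · have h4 : (v x ^ 2) ^ k * d x w ^ 2 ≤ (v x ^ 2) ^ k * v x * d x w := by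
          rw [pow_two (d x w), mul_assoc]
          apply mul_le_mul_of_nonneg_left _ (by positivity)
          exact mul_le_mul_of_nonneg_right h (hd0 x w)
        have h5 : 0 ≤ (d x w ^ 2) ^ (k + 1) := by positivity
        linarith
      · have h4 : (v x ^ 2) ^ k * d x w ^ 2 ≤ (d x w ^ 2) ^ k * d x w ^ 2 := by
          apply mul_le_mul_of_nonneg_right _ (by positivity)
          exact pow_le_pow_left₀ (by positivity) (pow_le_pow_left₀ (hv x) h.le 2) k
        have h5 : 0 ≤ (v x ^ 2) ^ k * v x * d x w :=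
          mul_nonneg (mul_nonneg (by positivity) (hv x)) (hd0 x w)
        rw [pow_succ (d x w ^ 2)]
        linarith
    have hZx : 0 ≤ (v x ^ 2) ^ k * v x * d x w :=
      mul_nonneg (mul_nonneg (by positivity) (hv x)) (hd0 x w)
    have hYx : 0 ≤ (d x w ^ 2) ^ (k + 1) := by positivity
    have h6 : |Φ x (update s w b) - Φ x s| ≤
        4 * P * ((v x ^ 2) ^ k * v x * d x w + (d x w ^ 2) ^ (k + 1)) := by
      have h7 : |Φ x (update s w b) - Φ x s| ≤ |Φ x (update s w b) - Φ x s - L x w b| + |L x w b| := by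
        have := abs_add_le (Φ x (update s w b) - Φ x s - L x w b) (L x w b)
        rwa [sub_add_cancel] at this
      have h8 : (P + 2 * ((k : ℝ) + 1) + 1) * ((v x ^ 2) ^ k * d x w ^ 2 + (d x w ^ 2) ^ (k + 1)) ≤
          (P + 2 * ((k : ℝ) + 1) + 1) *
            ((v x ^ 2) ^ k * v x * d x w + (d x w ^ 2) ^ (k + 1) + (d x w ^ 2) ^ (k + 1)) := by
        apply mul_le_mul_of_nonneg_left _ (by positivity)
        linarith
      obtain ⟨Z, hZ⟩ : ∃ Z, Z = (v x ^ 2) ^ k * v x * d x w := ⟨_, rfl⟩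
      obtain ⟨Y, hY⟩ : ∃ Y, Y = (d x w ^ 2) ^ (k + 1) := ⟨_, rfl⟩
      rw [← hZ] at h2 h8 hZx ⊢
      rw [← hY] at h8 hYx h1 ⊢
      have h9 : |Φ x (update s w b) - Φ x s| ≤
          (P + 2 * ((k : ℝ) + 1) + 1) * (Z + Y + Y) + 2 * ((k : ℝ) + 1) * Z := by linarith
      refine h9.trans ?_
      have h10 : (P + 4 * ((k : ℝ) + 1) + 1) * Z ≤ 4 * P * Z :=
        mul_le_mul_of_nonneg_right (by linarith) hZx
      have h11 : 2 * (P + 2 * ((k : ℝ) + 1) + 1) * Y ≤ 4 * P * Y :=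
        mul_le_mul_of_nonneg_right (by linarith) hYx
      nlinarith
    calc om x * |Φ x (update s w b) - Φ x s| ≤
          om x * (4 * P * ((v x ^ 2) ^ k * v x * d x w + (d x w ^ 2) ^ (k + 1))) :=
          mul_le_mul_of_nonneg_left h6 (hom0 x)
      _ = _ := by ring
  have htay : ∀ w b, ok w (s w) → |∑ x, om x * Φ x (update s w b) - ∑ x, om x * Φ x s - ∑ x, om x * L x w b| ≤
      32 * P ^ 2 * ∑ x, om x * ((v x ^ 2) ^ k * d x w ^ 2 + (d x w ^ 2) ^ (k + 1)) := by
    intro w b hw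
    rw [← Finset.sum_sub_distrib, ← Finset.sum_sub_distrib, Finset.mul_sum]
    refine (Finset.abs_sum_le_sum_abs _ _).trans (Finset.sum_le_sum fun x _ => ?_)
    have h1 : om x * Φ x (update s w b) - om x * Φ x s - om x * L x w b =
        om x * (Φ x (update s w b) - Φ x s - L x w b) := by ring
    rw [h1, abs_mul, abs_of_nonneg (hom0 x)]
    calc om x * |Φ x (update s w b) - Φ x s - L x w b| ≤
          om x * ((P + 2 * ((k : ℝ) + 1) + 1) *
            ((v x ^ 2) ^ k * d x w ^ 2 + (d x w ^ 2) ^ (k + 1))) :=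
          mul_le_mul_of_nonneg_left (hL1 x w b hw) (hom0 x)
      _ ≤ om x * ((32 * P ^ 2) * ((v x ^ 2) ^ k * d x w ^ 2 + (d x w ^ 2) ^ (k + 1))) := by
          apply mul_le_mul_of_nonneg_left _ (hom0 x)
          apply mul_le_mul_of_nonneg_right _ (by positivity)
          nlinarith
      _ = _ := by ring
  have hZY : ∀ w, 4 * P * (∑ x, om x * ((v x ^ 2) ^ k * v x * d x w) +
      ∑ x, om x * (d x w ^ 2) ^ (k + 1)) ≤ dl := by
    intro w
    have he : 0 < dl / (8 * P) := by positivity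
    have h1 : ∑ x, om x * ((v x ^ 2) ^ k * v x * d x w) ≤
        dl / (8 * P) * (∑ x, om x * (v x ^ 2) ^ (k + 1)) +
          (1 / (dl / (8 * P))) ^ (2 * k + 1) * ∑ x, om x * (d x w ^ 2) ^ (k + 1) := by
      rw [Finset.mul_sum, Finset.mul_sum, ← Finset.sum_add_distrib]
      refine Finset.sum_le_sum fun x _ => ?_
      calc om x * ((v x ^ 2) ^ k * v x * d x w) ≤ om x * (dl / (8 * P) * (v x ^ 2) ^ (k + 1) +
            (1 / (dl / (8 * P))) ^ (2 * k + 1) * (d x w ^ 2) ^ (k + 1)) :=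
            mul_le_mul_of_nonneg_left (yg k (hv x) (hd0 x w) he) (hom0 x)
        _ = _ := by ring
    have h2 : 1 / (dl / (8 * P)) = 8 * P / dl := by rw [one_div_div]
    rw [h2] at h1
    have h3 : 1 ≤ 8 * P / dl := by
      rw [le_div_iff₀ hdl]
      nlinarith
    have h4 : 1 ≤ (8 * P / dl) ^ (2 * k + 1) := one_le_pow₀ h3
    have h5 := hYb w
    have h6 := hY0 w
    have h7 : ∑ x, om x * ((v x ^ 2) ^ k * v x * d x w) ≤
        dl / (8 * P) + (8 * P / dl) ^ (2 * k + 1) * be := by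
      refine h1.trans ?_
      apply add_le_add
      · calc dl / (8 * P) * ∑ x, om x * (v x ^ 2) ^ (k + 1) ≤ dl / (8 * P) * 1 :=
            mul_le_mul_of_nonneg_left hΓs he.le
          _ = dl / (8 * P) := mul_one _
      · exact mul_le_mul_of_nonneg_left h5 (by positivity)
    have h8 : ∑ x, om x * (d x w ^ 2) ^ (k + 1) ≤ (8 * P / dl) ^ (2 * k + 1) * be := by
      refine h5.trans ?_
      exact le_mul_of_one_le_left hbe0 h4
    have h9 : 8 * P * ((8 * P / dl) ^ (2 * k + 1) * be) ≤ dl / 2 := by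
      have h10 : 8 * P * ((8 * P / dl) ^ (2 * k + 1) * be) =
          (8 * P) ^ (2 * (k + 1)) * be / dl ^ (2 * k + 1) := by
        rw [div_pow, show 2 * (k + 1) = 2 * k + 1 + 1 by ring, pow_succ (8 * P) (2 * k + 1)]
        ring
      rw [h10, div_le_iff₀ (by positivity)]
      have h11 : 2 * ((8 * P) ^ (2 * (k + 1)) * be) ≤ dl ^ (2 * (k + 1)) := by
        calc 2 * ((8 * P) ^ (2 * (k + 1)) * be) = (2 * (8 * P) ^ (2 * (k + 1))) * be := by ring
          _ ≤ K * be := mul_le_mul_of_nonneg_right hK1 hbe0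
          _ ≤ _ := hbd
      have h12 : dl / 2 * dl ^ (2 * k + 1) = dl ^ (2 * (k + 1)) / 2 := by
        rw [show 2 * (k + 1) = 2 * k + 1 + 1 by ring, pow_succ dl (2 * k + 1)]
        ring
      rw [h12]
      linarith
    have h13 : 4 * P * (dl / (8 * P)) = dl / 2 := by
      field_simp
      ring
    calc 4 * P * (∑ x, om x * ((v x ^ 2) ^ k * v x * d x w) + ∑ x, om x * (d x w ^ 2) ^ (k + 1))
        ≤ 4 * P * ((dl / (8 * P) + (8 * P / dl) ^ (2 * k + 1) * be) +
          (8 * P / dl) ^ (2 * k + 1) * be) := by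
          apply mul_le_mul_of_nonneg_left _ (by positivity)
          linarith
      _ = 4 * P * (dl / (8 * P)) + 8 * P * ((8 * P / dl) ^ (2 * k + 1) * be) := by ring
      _ ≤ dl := by rw [h13]; linarith
  have hdlb : ∀ w b, ok w (s w) → |∑ x, om x * Φ x (update s w b) - ∑ x, om x * Φ x s| ≤ dl :=
    fun w b hw => (hinc w b hw).trans (hZY w)
  have hup : ∀ w b, ok w (s w) → ∑ x, omm x (update s w b) * Φ x (update s w b) ≤
      ∑ x, om x * Φ x (update s w b) := fun w b hw =>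
    Finset.sum_le_sum fun x _ => mul_le_mul_of_nonneg_right (hob w hw b x) (hΦ0 x _)
  have hq0 : ∀ w, 0 ≤ 32 * P ^ 2 * ∑ x, om x * ((v x ^ 2) ^ k * d x w ^ 2 +
      (d x w ^ 2) ^ (k + 1)) := by
    intro w
    rw [hS]
    exact mul_nonneg (by positivity) (add_nonneg (hX0 w) (hY0 w))
  have hqs : ∑ w, 32 * P ^ 2 * ∑ x, om x * ((v x ^ 2) ^ k * d x w ^ 2 + (d x w ^ 2) ^ (k + 1)) ≤
      K * (∑ x, om x * Φ x s) + K * (bD + be) := by
    rw [← Finset.mul_sum, Finset.sum_comm, ← hΓs']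
    have h1 : ∀ x, ∑ w, om x * ((v x ^ 2) ^ k * d x w ^ 2 + (d x w ^ 2) ^ (k + 1)) ≤
        om x * (v x ^ 2) ^ (k + 1) + 2 * (om x * Q x ^ (k + 1)) := by
      intro x
      rw [← Finset.mul_sum, Finset.sum_add_distrib, ← Finset.mul_sum]
      have h2 : ∑ w, (d x w ^ 2) ^ (k + 1) ≤ Q x ^ (k + 1) := by
        calc ∑ w, (d x w ^ 2) ^ (k + 1) ≤ ∑ w, Q x ^ k * d x w ^ 2 := by
              refine Finset.sum_le_sum fun w _ => ?_
              rw [pow_succ]
              exact mul_le_mul_of_nonneg_right (pow_le_pow_left₀ (sq_nonneg _) (hdQ x w) k)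
                (sq_nonneg _)
          _ = Q x ^ k * ∑ w, d x w ^ 2 := (Finset.mul_sum _ _ _).symm
          _ ≤ Q x ^ k * Q x := mul_le_mul_of_nonneg_left (hQ x) (pow_nonneg (hQ0 x) k)
          _ = Q x ^ (k + 1) := (pow_succ _ _).symm
      have h3 : (v x ^ 2) ^ k * ∑ w, d x w ^ 2 ≤ (v x ^ 2) ^ k * Q x :=
        mul_le_mul_of_nonneg_left (hQ x) (by positivity)
      have h4 := yq k (sq_nonneg (v x)) (hQ0 x)
      calc om x * ((v x ^ 2) ^ k * ∑ w, d x w ^ 2 + ∑ w, (d x w ^ 2) ^ (k + 1)) ≤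
            om x * ((v x ^ 2) ^ (k + 1) + 2 * Q x ^ (k + 1)) :=
            mul_le_mul_of_nonneg_left (by linarith) (hom0 x)
        _ = _ := by ring
    have h5 : ∑ x, ∑ w, om x * ((v x ^ 2) ^ k * d x w ^ 2 + (d x w ^ 2) ^ (k + 1)) ≤
        ∑ x, om x * (v x ^ 2) ^ (k + 1) + 2 * ∑ x, om x * Q x ^ (k + 1) := by
      rw [Finset.mul_sum, ← Finset.sum_add_distrib]
      exact Finset.sum_le_sum fun x _ => h1 x
    calc 32 * P ^ 2 * ∑ x, ∑ w, om x * ((v x ^ 2) ^ k * d x w ^ 2 + (d x w ^ 2) ^ (k + 1)) ≤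
          32 * P ^ 2 * (∑ x, om x * (v x ^ 2) ^ (k + 1) + 2 * be) := by
          apply mul_le_mul_of_nonneg_left _ (by positivity)
          linarith
      _ ≤ 64 * P ^ 2 * (∑ x, om x * (v x ^ 2) ^ (k + 1) + be) := by nlinarith [sq_nonneg P]
      _ ≤ K * (∑ x, om x * (v x ^ 2) ^ (k + 1) + be) :=
          mul_le_mul_of_nonneg_right hK2 (by linarith)
      _ ≤ K * (∑ x, om x * (v x ^ 2) ^ (k + 1) + (bD + be)) :=
          mul_le_mul_of_nonneg_left (by linarith) hK0.le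
      _ = _ := by ring
  refine ⟨fun w b => ∑ x, om x * L x w b,
    fun w => 32 * P ^ 2 * ∑ x, om x * ((v x ^ 2) ^ k * d x w ^ 2 + (d x w ^ 2) ^ (k + 1)),
    fun w => if ok w (s w) then ∑ x, om x * Φ x s + ∑ x, om x * L x w none -
      ∑ x, om x * Φ x (update s w none) else 0,
    hq0, ?_, ?_, ?_, ?_, ?_, ?_, ?_⟩
  · intro w
    show (if ok w (s w) then ∑ x, om x * Φ x s + ∑ x, om x * L x w none -
      ∑ x, om x * Φ x (update s w none) else 0) ≤
      32 * P ^ 2 * ∑ x, om x * ((v x ^ 2) ^ k * d x w ^ 2 + (d x w ^ 2) ^ (k + 1))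
    by_cases hw : ok w (s w)
    · rw [if_pos hw]
      have e2 := (neg_le_abs _).trans (htay w none hw)
      linarith
    · rw [if_neg hw]
      exact hq0 w
  · intro w hw a
    have e1 := hup w (some a) hw
    have e2 := (le_abs_self _).trans (htay w (some a) hw)
    have e3 : ∑ x, omm x s * Φ x s = ∑ x, om x * Φ x s := by simp only [hom]
    show ∑ x, omm x (update s w (some a)) * Φ x (update s w (some a)) ≤
      ∑ x, omm x s * Φ x s + ∑ x, om x * L x w (some a) +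
      32 * P ^ 2 * ∑ x, om x * ((v x ^ 2) ^ k * d x w ^ 2 + (d x w ^ 2) ^ (k + 1))
    rw [e3]
    linarith
  · intro w hw
    have e1 : ∑ x, om x * Φ x (update s w none) ≤
        ∑ x, omm x (update s w none) * Φ x (update s w none) :=
      Finset.sum_le_sum fun x _ => mul_le_mul_of_nonneg_right (hon w hw x) (hΦ0 x _)
    have e3 : ∑ x, omm x s * Φ x s = ∑ x, om x * Φ x s := by simp only [hom]
    show ∑ x, omm x s * Φ x s + ∑ x, om x * L x w none -
      (if ok w (s w) then ∑ x, om x * Φ x s + ∑ x, om x * L x w none -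
      ∑ x, om x * Φ x (update s w none) else 0) ≤
      ∑ x, omm x (update s w none) * Φ x (update s w none)
    rw [e3, if_pos hw]
    linarith
  · intro w hw
    show (∑ x, om x * L x w none - (if ok w (s w) then ∑ x, om x * Φ x s +
      ∑ x, om x * L x w none - ∑ x, om x * Φ x (update s w none) else 0)) ^ 2 ≤
      32 * P ^ 2 * ∑ x, om x * ((v x ^ 2) ^ k * d x w ^ 2 + (d x w ^ 2) ^ (k + 1))
    rw [if_pos hw, show ∑ x, om x * L x w none - (∑ x, om x * Φ x s +
      ∑ x, om x * L x w none - ∑ x, om x * Φ x (update s w none)) =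
      ∑ x, om x * Φ x (update s w none) - ∑ x, om x * Φ x s by ring]
    have hCS : (∑ x, om x * ((v x ^ 2) ^ k * v x * d x w)) ^ 2 ≤
        (∑ x, om x * (v x ^ 2) ^ (k + 1)) * (∑ x, om x * ((v x ^ 2) ^ k * d x w ^ 2)) := by
      refine Finset.sum_sq_le_sum_mul_sum_of_sq_le_mul _ (fun x _ => ?_) (fun x _ => ?_)
        (fun x _ => le_of_eq ?_)
      · exact mul_nonneg (hom0 x) (by positivity)
      · exact mul_nonneg (hom0 x) (by positivity)
      · ring
    have e1 := hinc w none hw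
    have e2 := hX0 w
    have e3 := hY0 w
    have e4 := hZ0 w
    have e7 : ∑ x, om x * (d x w ^ 2) ^ (k + 1) ≤ 1 := (hYb w).trans hbe1
    rw [hS, ← sq_abs]
    obtain ⟨Z, hZ⟩ : ∃ Z, Z = ∑ x, om x * ((v x ^ 2) ^ k * v x * d x w) := ⟨_, rfl⟩
    obtain ⟨W, hW⟩ : ∃ W, W = ∑ x, om x * ((v x ^ 2) ^ k * d x w ^ 2) := ⟨_, rfl⟩
    obtain ⟨Y, hY⟩ : ∃ Y, Y = ∑ x, om x * (d x w ^ 2) ^ (k + 1) := ⟨_, rfl⟩
    rw [← hZ] at e1 e4 hCS
    rw [← hY] at e1 e3 e7 ⊢
    rw [← hW] at e2 hCS ⊢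
    have e5 : Z ^ 2 ≤ W := by nlinarith
    have e6 : Y ^ 2 ≤ Y := by nlinarith
    calc |∑ x, om x * Φ x (update s w none) - ∑ x, om x * Φ x s| ^ 2 ≤ (4 * P * (Z + Y)) ^ 2 :=
          pow_le_pow_left₀ (abs_nonneg _) e1 2
      _ = 16 * P ^ 2 * (Z + Y) ^ 2 := by ring
      _ ≤ 16 * P ^ 2 * (2 * (W + Y)) := by
          refine mul_le_mul_of_nonneg_left ?_ (by positivity)
          nlinarith [sq_nonneg (Z - Y)]
      _ = 32 * P ^ 2 * (W + Y) := by ring
  · intro w hw b
    have e1 := hup w b hw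
    have e2 := (le_abs_self _).trans (hdlb w b hw)
    have e3 : ∑ x, omm x s * Φ x s = ∑ x, om x * Φ x s := by simp only [hom]
    show ∑ x, omm x (update s w b) * Φ x (update s w b) ≤ ∑ x, omm x s * Φ x s + dl
    rw [e3]
    linarith
  · intro r hr
    have e3 : ∑ x, omm x s * Φ x s = ∑ x, om x * Φ x s := by simp only [hom]
    show ∑ w, r w * (∑ a, pr w a * (∑ x, om x * L x w (some a)) - ∑ x, om x * L x w none) ≤
      2 * K * (∑ x, omm x s * Φ x s) + 2 * (K * (bD + be))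
    rw [e3]
    have h1 : ∑ w, r w * (∑ a, pr w a * (∑ x, om x * L x w (some a)) - ∑ x, om x * L x w none) =
        ∑ x, om x * ∑ w, r w * (∑ a, pr w a * L x w (some a) - L x w none) := by
      have h2 : ∀ w, r w * (∑ a, pr w a * (∑ x, om x * L x w (some a)) - ∑ x, om x * L x w none) =
          ∑ x, om x * (r w * (∑ a, pr w a * L x w (some a) - L x w none)) := by
        intro w
        have h3 : ∑ a, pr w a * (∑ x, om x * L x w (some a)) =
            ∑ x, om x * ∑ a, pr w a * L x w (some a) := by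
          simp only [Finset.mul_sum]
          rw [Finset.sum_comm]
          refine Finset.sum_congr rfl fun x _ => Finset.sum_congr rfl fun a _ => ?_
          ring
        rw [h3, ← Finset.sum_sub_distrib, Finset.mul_sum]
        exact Finset.sum_congr rfl fun x _ => by ring
      simp only [h2]
      rw [Finset.sum_comm]
      exact Finset.sum_congr rfl fun x _ => (Finset.mul_sum _ _ _).symm
    rw [h1]
    have h4 : ∀ x, om x * ∑ w, r w * (∑ a, pr w a * L x w (some a) - L x w none) ≤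
        2 * ((k : ℝ) + 1) * (om x * (v x ^ 2) ^ (k + 1) + om x * (D x ^ 2) ^ (k + 1)) := by
      intro x
      have h5 := yg k (hv x) (hD0 x) one_pos
      rw [one_mul, div_one, one_pow, one_mul] at h5
      calc om x * ∑ w, r w * (∑ a, pr w a * L x w (some a) - L x w none) ≤
            om x * (2 * ((k : ℝ) + 1) * ((v x ^ 2) ^ k * v x * D x)) :=
            mul_le_mul_of_nonneg_left (hD r hr x) (hom0 x)
        _ ≤ om x * (2 * ((k : ℝ) + 1) * ((v x ^ 2) ^ (k + 1) + (D x ^ 2) ^ (k + 1))) := by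
            apply mul_le_mul_of_nonneg_left _ (hom0 x)
            exact mul_le_mul_of_nonneg_left h5 (by positivity)
        _ = _ := by ring
    refine (Finset.sum_le_sum fun x _ => h4 x).trans ?_
    rw [← Finset.mul_sum, Finset.sum_add_distrib, ← hΓs']
    have h6 : 2 * ((k : ℝ) + 1) ≤ K := by nlinarith
    calc 2 * ((k : ℝ) + 1) * (∑ x, om x * (v x ^ 2) ^ (k + 1) + ∑ x, om x * (D x ^ 2) ^ (k + 1)) ≤
          K * (∑ x, om x * (v x ^ 2) ^ (k + 1) + (bD + be)) := by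
          apply mul_le_mul h6 (by linarith) (add_nonneg hΓ0 hD2) hK0.le
      _ ≤ 2 * (K * (∑ x, om x * (v x ^ 2) ^ (k + 1) + (bD + be))) := by
          have e4 : 0 ≤ K * (∑ x, om x * (v x ^ 2) ^ (k + 1) + (bD + be)) :=
            mul_nonneg hK0.le (add_nonneg hΓ0 (add_nonneg hbD0 hbe0))
          linarith
      _ = _ := by ring
  · intro r hr
    have e3 : ∑ x, omm x s * Φ x s = ∑ x, om x * Φ x s := by simp only [hom]
    show ∑ w, r w * (32 * P ^ 2 * ∑ x, om x * ((v x ^ 2) ^ k * d x w ^ 2 +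
      (d x w ^ 2) ^ (k + 1))) ≤ 2 * K * (∑ x, omm x s * Φ x s) + 2 * (K * (bD + be))
    rw [e3]
    have e4 : ∑ w, r w * (32 * P ^ 2 * ∑ x, om x * ((v x ^ 2) ^ k * d x w ^ 2 +
        (d x w ^ 2) ^ (k + 1))) ≤ 2 * ∑ w, 32 * P ^ 2 * ∑ x, om x * ((v x ^ 2) ^ k * d x w ^ 2 +
        (d x w ^ 2) ^ (k + 1)) := by
      rw [Finset.mul_sum]
      exact Finset.sum_le_sum fun w _ => mul_le_mul_of_nonneg_right (hr.r2 w) (hq0 w)
    linarith [hqs]

theorem comp_powB (p : ℕ) (hp : 2 ≤ p) (pr : N → A → ℝ) (hpr : ∀ w a, 0 ≤ pr w a)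
    (hpr1 : ∀ w, ∑ a, pr w a = 1) (ok : N → Option A → Prop)
    (om : X → (N → Option A) → ℝ) (hom : ∀ x s, 0 ≤ om x s)
    (V : X → (N → Option A) → ℂ) {a : ℝ} (ha : 0 < a) (s : N → Option A)
    (hon : ∀ w, ok w (s w) → ∀ x, om x s ≤ om x (update s w none))
    (hob : ∀ w, ok w (s w) → ∀ b x, om x (update s w b) ≤ om x s) (d : X → N → ℝ)
    (hd0 : ∀ x w, 0 ≤ d x w)
    (hd : ∀ x w b, ok w (s w) → ‖V x (update s w b) - V x s‖ ≤ d x w) (D Q : X → ℝ)
    (hD0 : ∀ x, 0 ≤ D x)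
    (hD : ∀ r : N → ℝ, Rate ok s r → ∀ x,
      ‖∑ w, (r w : ℂ) * (∑ b, (pr w b : ℂ) * V x (update s w (some b)) -
        V x (update s w none))‖ ≤ D x)
    (hQ : ∀ x, ∑ w, d x w ^ 2 ≤ Q x) {bD bQ dl : ℝ}
    (hbD : ∑ x, om x s * (D x / a) ^ (2 * p) ≤ bD)
    (hbQ : ∑ x, om x s * (Q x / a ^ 2) ^ p ≤ bQ)
    (hdl : 0 < dl) (hdl1 : dl ≤ 1) (hbd : KP p * bQ ≤ dl ^ (2 * p))
    (hs : ∑ x, om x s * (‖V x s‖ / a) ^ (2 * p) ≤ 1) :
    CompB pr ok (fun s => ∑ x, om x s * (‖V x s‖ / a) ^ (2 * p)) s (2 * KP p)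
      (2 * (KP p * (bD + bQ))) dl := by
  obtain ⟨k, rfl⟩ : ∃ k, p = k + 1 := ⟨p - 1, by omega⟩
  have ha0 : a ≠ 0 := ha.ne'
  have hre : ∀ z w : ℂ, |((starRingEnd ℂ) z * w).re| ≤ ‖z‖ * ‖w‖ := by
    intro z w
    refine (Complex.abs_re_le_norm _).trans (le_of_eq ?_)
    rw [norm_mul, RCLike.norm_conj]
  refine comp_absB k pr hpr ok om hom (fun x s => (‖V x s‖ / a) ^ (2 * (k + 1)))
    (fun x s => (even_two_mul (k + 1)).pow_nonneg _) s hon hob (fun x => ‖V x s‖ / a) (fun x => by positivity) (fun x => pow_mul _ _ _)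
    (fun x w b => 2 * ((k : ℝ) + 1) * ((‖V x s‖ / a) ^ 2) ^ k *
      (((starRingEnd ℂ) (V x s) * (V x (update s w b) - V x s)).re / a ^ 2))
    (fun x w => d x w / a) (fun x w => div_nonneg (hd0 x w) ha.le) ?_ ?_
    (fun x => D x / a) (fun x => Q x / a ^ 2) (fun x => div_nonneg (hD0 x) ha.le) ?_ ?_ ?_ hbQ hdl hdl1
    hbd hs
  · intro x w b hw
    show |(‖V x (update s w b)‖ / a) ^ (2 * (k + 1)) - (‖V x s‖ / a) ^ (2 * (k + 1)) -
      2 * ((k : ℝ) + 1) * ((‖V x s‖ / a) ^ 2) ^ k *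
      (((starRingEnd ℂ) (V x s) * (V x (update s w b) - V x s)).re / a ^ 2)| ≤ _
    rw [pow_mul, pow_mul]
    refine est k (t := ‖V x (update s w b) - V x s‖ / a) (by positivity) (by positivity) ?_ ?_ ?_
    · exact div_le_div_of_nonneg_right (hd x w b hw) ha.le
    · rw [abs_div, abs_of_pos (pow_pos ha 2)]
      rw [show ‖V x s‖ / a * (‖V x (update s w b) - V x s‖ / a) =
        ‖V x s‖ * ‖V x (update s w b) - V x s‖ / a ^ 2 by field_simp]
      exact div_le_div_of_nonneg_right (hre _ _) (by positivity)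
    · have h1 : ‖V x (update s w b)‖ ^ 2 = ‖V x s‖ ^ 2 +
          2 * ((starRingEnd ℂ) (V x s) * (V x (update s w b) - V x s)).re +
          ‖V x (update s w b) - V x s‖ ^ 2 := by
        rw [← Complex.normSq_eq_norm_sq, ← Complex.normSq_eq_norm_sq, ← Complex.normSq_eq_norm_sq,
          Complex.normSq_apply, Complex.normSq_apply, Complex.normSq_apply]
        simp only [Complex.mul_re, Complex.sub_re, Complex.sub_im, Complex.conj_re, Complex.conj_im]
        ring
      rw [div_pow, h1, div_pow, div_pow]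
      field_simp
  · intro x w b hw
    show |2 * ((k : ℝ) + 1) * ((‖V x s‖ / a) ^ 2) ^ k *
      (((starRingEnd ℂ) (V x s) * (V x (update s w b) - V x s)).re / a ^ 2)| ≤
      2 * ((k : ℝ) + 1) * (((‖V x s‖ / a) ^ 2) ^ k * (‖V x s‖ / a) * (d x w / a))
    rw [abs_mul, abs_of_nonneg (show 0 ≤ 2 * ((k : ℝ) + 1) * ((‖V x s‖ / a) ^ 2) ^ k by positivity),
      abs_div, abs_of_pos (pow_pos ha 2)]
    have h1 : |((starRingEnd ℂ) (V x s) * (V x (update s w b) - V x s)).re| ≤ ‖V x s‖ * d x w :=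
      (hre _ _).trans (mul_le_mul_of_nonneg_left (hd x w b hw) (norm_nonneg _))
    calc 2 * ((k : ℝ) + 1) * ((‖V x s‖ / a) ^ 2) ^ k *
          (|((starRingEnd ℂ) (V x s) * (V x (update s w b) - V x s)).re| / a ^ 2) ≤
          2 * ((k : ℝ) + 1) * ((‖V x s‖ / a) ^ 2) ^ k * (‖V x s‖ * d x w / a ^ 2) := by
          gcongr
      _ = _ := by
          field_simp
  · intro r hr x
    show ∑ w, r w * (∑ b, pr w b * (2 * ((k : ℝ) + 1) * ((‖V x s‖ / a) ^ 2) ^ k *
      (((starRingEnd ℂ) (V x s) * (V x (update s w (some b)) - V x s)).re / a ^ 2)) -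
      2 * ((k : ℝ) + 1) * ((‖V x s‖ / a) ^ 2) ^ k *
      (((starRingEnd ℂ) (V x s) * (V x (update s w none) - V x s)).re / a ^ 2)) ≤
      2 * ((k : ℝ) + 1) * (((‖V x s‖ / a) ^ 2) ^ k * (‖V x s‖ / a) * (D x / a))
    have h1 : ∀ w, (∑ b, pr w b * (2 * ((k : ℝ) + 1) * ((‖V x s‖ / a) ^ 2) ^ k *
        (((starRingEnd ℂ) (V x s) * (V x (update s w (some b)) - V x s)).re / a ^ 2)) -
        2 * ((k : ℝ) + 1) * ((‖V x s‖ / a) ^ 2) ^ k *
        (((starRingEnd ℂ) (V x s) * (V x (update s w none) - V x s)).re / a ^ 2)) =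
        2 * ((k : ℝ) + 1) * ((‖V x s‖ / a) ^ 2) ^ k / a ^ 2 * ((starRingEnd ℂ) (V x s) *
        (∑ b, (pr w b : ℂ) * V x (update s w (some b)) - V x (update s w none))).re := by
      intro w
      have h2 : ((starRingEnd ℂ) (V x s) *
          (∑ b, (pr w b : ℂ) * V x (update s w (some b)) - V x (update s w none))).re =
          ∑ b, pr w b * ((starRingEnd ℂ) (V x s) * (V x (update s w (some b)) - V x s)).re -
          ((starRingEnd ℂ) (V x s) * (V x (update s w none) - V x s)).re := by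
        have h3 : (∑ b, (pr w b : ℂ) * V x (update s w (some b)) - V x (update s w none)) =
            ∑ b, (pr w b : ℂ) * (V x (update s w (some b)) - V x s) -
            (V x (update s w none) - V x s) := by
          have h4 : ∑ b, (pr w b : ℂ) * (V x (update s w (some b)) - V x s) =
              ∑ b, (pr w b : ℂ) * V x (update s w (some b)) - V x s := by
            simp only [mul_sub]
            rw [Finset.sum_sub_distrib, ← Finset.sum_mul]
            have h5 : ∑ b, (pr w b : ℂ) = 1 := by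
              rw [← Complex.ofReal_sum, hpr1]
              exact Complex.ofReal_one
            rw [h5, one_mul]
          rw [h4]
          ring
        rw [h3, mul_sub, Complex.sub_re, Finset.mul_sum, Complex.re_sum]
        congr 1
        refine Finset.sum_congr rfl fun b _ => ?_
        rw [mul_left_comm, Complex.re_ofReal_mul]
      rw [h2]
      conv_rhs => rw [mul_sub, Finset.mul_sum]
      congr 1
      · refine Finset.sum_congr rfl fun b _ => ?_
        ring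
      · ring
    simp only [h1]
    have h7 : ∑ w, r w * (2 * ((k : ℝ) + 1) * ((‖V x s‖ / a) ^ 2) ^ k / a ^ 2 *
        ((starRingEnd ℂ) (V x s) *
        (∑ b, (pr w b : ℂ) * V x (update s w (some b)) - V x (update s w none))).re) =
        2 * ((k : ℝ) + 1) * ((‖V x s‖ / a) ^ 2) ^ k / a ^ 2 * ((starRingEnd ℂ) (V x s) *
        ∑ w, (r w : ℂ) * (∑ b, (pr w b : ℂ) * V x (update s w (some b)) -
          V x (update s w none))).re := by
      rw [Finset.mul_sum, Complex.re_sum, Finset.mul_sum]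
      refine Finset.sum_congr rfl fun w _ => ?_
      rw [mul_left_comm ((starRingEnd ℂ) (V x s)), Complex.re_ofReal_mul]
      ring
    rw [h7]
    have h6 : ((starRingEnd ℂ) (V x s) *
        ∑ w, (r w : ℂ) * (∑ b, (pr w b : ℂ) * V x (update s w (some b)) -
          V x (update s w none))).re ≤ ‖V x s‖ * D x :=
      (le_abs_self _).trans ((hre _ _).trans (mul_le_mul_of_nonneg_left (hD r hr x)
        (norm_nonneg _)))
    calc 2 * ((k : ℝ) + 1) * ((‖V x s‖ / a) ^ 2) ^ k / a ^ 2 * ((starRingEnd ℂ) (V x s) *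
        ∑ w, (r w : ℂ) * (∑ b, (pr w b : ℂ) * V x (update s w (some b)) -
          V x (update s w none))).re ≤
        2 * ((k : ℝ) + 1) * ((‖V x s‖ / a) ^ 2) ^ k / a ^ 2 * (‖V x s‖ * D x) :=
        mul_le_mul_of_nonneg_left h6 (by positivity)
      _ = _ := by
        field_simp
  · intro x
    show ∑ w, (d x w / a) ^ 2 ≤ Q x / a ^ 2
    simp only [div_pow]
    rw [← Finset.sum_div]
    exact div_le_div_of_nonneg_right (hQ x) (by positivity)
  · refine le_trans (le_of_eq (Finset.sum_congr rfl fun x _ => ?_)) hbD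
    rw [← pow_mul]

theorem comp_posB (p : ℕ) (hp : 2 ≤ p) (pr : N → A → ℝ) (hpr : ∀ w a, 0 ≤ pr w a)
    (hpr1 : ∀ w, ∑ a, pr w a = 1) (ok : N → Option A → Prop)
    (om : X → (N → Option A) → ℝ) (hom : ∀ x s, 0 ≤ om x s)
    (V : X → (N → Option A) → ℝ) {a : ℝ} (ha : 0 < a) (s : N → Option A)
    (hon : ∀ w, ok w (s w) → ∀ x, om x s ≤ om x (update s w none))
    (hob : ∀ w, ok w (s w) → ∀ b x, om x (update s w b) ≤ om x s) (d : X → N → ℝ)
    (hd0 : ∀ x w, 0 ≤ d x w)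
    (hd : ∀ x w b, ok w (s w) → |V x (update s w b) - V x s| ≤ d x w) (D Q : X → ℝ)
    (hD0 : ∀ x, 0 ≤ D x)
    (hD : ∀ r : N → ℝ, Rate ok s r → ∀ x,
      0 < V x s →
      ∑ w, r w * (∑ b, pr w b * V x (update s w (some b)) - V x (update s w none)) ≤ D x)
    (hQ : ∀ x, ∑ w, d x w ^ 2 ≤ Q x) {bD bQ dl : ℝ}
    (hbD : ∑ x, om x s * (D x / a) ^ (2 * p) ≤ bD)
    (hbQ : ∑ x, om x s * (Q x / a ^ 2) ^ p ≤ bQ)
    (hdl : 0 < dl) (hdl1 : dl ≤ 1) (hbd : KP p * bQ ≤ dl ^ (2 * p))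
    (hs : ∑ x, om x s * (max (V x s) 0 / a) ^ (2 * p) ≤ 1) :
    CompB pr ok (fun s => ∑ x, om x s * (max (V x s) 0 / a) ^ (2 * p)) s (2 * KP p)
      (2 * (KP p * (bD + bQ))) dl := by
  obtain ⟨k, rfl⟩ : ∃ k, p = k + 1 := ⟨p - 1, by omega⟩
  have ha0 : a ≠ 0 := ha.ne'
  have hm0 : ∀ x, 0 ≤ max (V x s) 0 / a := fun x => div_nonneg (le_max_right _ _) ha.le
  refine comp_absB k pr hpr ok om hom (fun x s => (max (V x s) 0 / a) ^ (2 * (k + 1)))
    (fun x s => (even_two_mul (k + 1)).pow_nonneg _) s hon hob (fun x => max (V x s) 0 / a) hm0 (fun x => pow_mul _ _ _)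
    (fun x w b => 2 * ((k : ℝ) + 1) * (((max (V x s) 0 / a) ^ 2) ^ k *
      (max (V x s) 0 / a) * ((V x (update s w b) - V x s) / a)))
    (fun x w => d x w / a) (fun x w => div_nonneg (hd0 x w) ha.le) ?_ ?_
    (fun x => D x / a) (fun x => Q x / a ^ 2) (fun x => div_nonneg (hD0 x) ha.le) ?_ ?_ ?_ hbQ hdl hdl1
    hbd hs
  · intro x w b hw
    show |(max (V x (update s w b)) 0 / a) ^ (2 * (k + 1)) - (max (V x s) 0 / a) ^ (2 * (k + 1)) -
      2 * ((k : ℝ) + 1) * (((max (V x s) 0 / a) ^ 2) ^ k *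
      (max (V x s) 0 / a) * ((V x (update s w b) - V x s) / a))| ≤
      (4 ^ (k + 1) + 2 * ((k : ℝ) + 1) + 1) * (((max (V x s) 0 / a) ^ 2) ^ k * (d x w / a) ^ 2 +
        ((d x w / a) ^ 2) ^ (k + 1))
    have key : ∀ U U' δ : ℝ, 0 ≤ δ → |U' - U| ≤ δ →
        |(max U' 0) ^ (2 * (k + 1)) - (max U 0) ^ (2 * (k + 1)) -
          2 * ((k : ℝ) + 1) * (((max U 0) ^ 2) ^ k * (max U 0) * (U' - U))| ≤
        (4 ^ (k + 1) + 2 * ((k : ℝ) + 1) + 1) * (((max U 0) ^ 2) ^ k * δ ^ 2 +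
          (δ ^ 2) ^ (k + 1)) := by
      intro U U' δ hδ h
      have hk0 : (0 : ℝ) ≤ k := Nat.cast_nonneg k
      have hP1 : (1 : ℝ) ≤ 4 ^ (k + 1) := one_le_pow₀ (by norm_num)
      rcases le_or_gt U 0 with hU | hU
      · rw [max_eq_right hU]
        have h1 : max U' 0 ≤ δ := by
          refine max_le ?_ hδ
          have := (abs_le.1 h).2
          linarith
        have h2 : 0 ≤ max U' 0 := le_max_right _ _
        have h3 : (max U' 0) ^ (2 * (k + 1)) ≤ (δ ^ 2) ^ (k + 1) := by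
          rw [← pow_mul]
          exact pow_le_pow_left₀ h2 h1 _
        have h4 : (max U' 0) ^ (2 * (k + 1)) - (0 : ℝ) ^ (2 * (k + 1)) -
            2 * ((k : ℝ) + 1) * (((0 : ℝ) ^ 2) ^ k * 0 * (U' - U)) = (max U' 0) ^ (2 * (k + 1)) := by
          rw [zero_pow (by omega)]
          ring
        rw [h4, abs_of_nonneg (by positivity)]
        refine h3.trans ?_
        have h5 : 0 ≤ ((0 : ℝ) ^ 2) ^ k * δ ^ 2 := by positivity
        have h6 : 0 ≤ (δ ^ 2) ^ (k + 1) := by positivity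
        calc (δ ^ 2) ^ (k + 1) ≤ 1 * (((0 : ℝ) ^ 2) ^ k * δ ^ 2 + (δ ^ 2) ^ (k + 1)) := by linarith
          _ ≤ _ := by
            apply mul_le_mul_of_nonneg_right _ (by positivity)
            linarith
      · rw [max_eq_left hU.le]
        rcases le_or_gt 0 U' with hU' | hU'
        · rw [max_eq_left hU']
          have h1 := est k (v := U) (t := |U' - U|) (d := δ) (c := U * (U' - U)) (z := U') hU.le
            (abs_nonneg _) h (le_of_eq (by rw [abs_mul, abs_of_pos hU])) (by rw [sq_abs]; ring)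
          rw [pow_mul, pow_mul]
          have h2 : 2 * ((k : ℝ) + 1) * ((U ^ 2) ^ k * U * (U' - U)) =
              2 * ((k : ℝ) + 1) * (U ^ 2) ^ k * (U * (U' - U)) := by ring
          rw [h2]
          exact h1
        · rw [max_eq_right hU'.le]
          have hUd : U ≤ δ := by
            have := (abs_le.1 h).1
            linarith
          have h1 : (U ^ 2) ^ k * U * |U' - U| ≤ (δ ^ 2) ^ k * δ * δ := by gcongr
          have h1' : (δ ^ 2) ^ k * δ * δ = (δ ^ 2) ^ (k + 1) := by ring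
          have h2 : U ^ (2 * (k + 1)) ≤ (δ ^ 2) ^ (k + 1) := by
            rw [pow_mul]
            gcongr
          have h3 : |(0 : ℝ) ^ (2 * (k + 1)) - U ^ (2 * (k + 1)) -
              2 * ((k : ℝ) + 1) * ((U ^ 2) ^ k * U * (U' - U))| ≤
              U ^ (2 * (k + 1)) + 2 * ((k : ℝ) + 1) * ((U ^ 2) ^ k * U * |U' - U|) := by
            rw [zero_pow (by omega), zero_sub]
            have h4 : |-U ^ (2 * (k + 1)) - 2 * ((k : ℝ) + 1) * ((U ^ 2) ^ k * U * (U' - U))| ≤
                |-U ^ (2 * (k + 1))| + |2 * ((k : ℝ) + 1) * ((U ^ 2) ^ k * U * (U' - U))| :=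
              abs_sub _ _
            refine h4.trans (le_of_eq ?_)
            rw [abs_neg, abs_of_nonneg (show 0 ≤ U ^ (2 * (k + 1)) by positivity),
              abs_mul (2 * ((k : ℝ) + 1)), abs_mul ((U ^ 2) ^ k * U),
              abs_of_nonneg (show 0 ≤ 2 * ((k : ℝ) + 1) by positivity),
              abs_of_nonneg (show 0 ≤ (U ^ 2) ^ k * U by positivity)]
          refine h3.trans ?_
          have h5 : 0 ≤ (δ ^ 2) ^ (k + 1) := by positivity
          have h6 : 0 ≤ (U ^ 2) ^ k * δ ^ 2 := by positivity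
          have h7 : 2 * ((k : ℝ) + 1) * ((U ^ 2) ^ k * U * |U' - U|) ≤
              2 * ((k : ℝ) + 1) * (δ ^ 2) ^ (k + 1) := by
            rw [← h1']
            gcongr
          calc U ^ (2 * (k + 1)) + 2 * ((k : ℝ) + 1) * ((U ^ 2) ^ k * U * |U' - U|) ≤
                (2 * ((k : ℝ) + 1) + 1) * (δ ^ 2) ^ (k + 1) := by linarith
            _ ≤ (4 ^ (k + 1) + 2 * ((k : ℝ) + 1) + 1) * (δ ^ 2) ^ (k + 1) := by
              apply mul_le_mul_of_nonneg_right _ h5
              linarith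
            _ ≤ _ := by
              apply mul_le_mul_of_nonneg_left _ (by positivity)
              linarith
    have hmd : ∀ y : ℝ, max y 0 / a = max (y / a) 0 := by
      intro y
      rw [← max_div_div_right ha.le, zero_div]
    have h1 := key (V x s / a) (V x (update s w b) / a) (d x w / a)
      (div_nonneg (hd0 x w) ha.le) (by
        rw [← sub_div, abs_div, abs_of_pos ha]
        exact div_le_div_of_nonneg_right (hd x w b hw) ha.le)
    rw [hmd, hmd, sub_div]
    exact h1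
  · intro x w b hw
    show |2 * ((k : ℝ) + 1) * (((max (V x s) 0 / a) ^ 2) ^ k *
      (max (V x s) 0 / a) * ((V x (update s w b) - V x s) / a))| ≤
      2 * ((k : ℝ) + 1) * (((max (V x s) 0 / a) ^ 2) ^ k * (max (V x s) 0 / a) * (d x w / a))
    rw [abs_mul (2 * ((k : ℝ) + 1)), abs_mul (((max (V x s) 0 / a) ^ 2) ^ k * (max (V x s) 0 / a)),
      abs_of_nonneg (show 0 ≤ 2 * ((k : ℝ) + 1) by positivity),
      abs_of_nonneg (mul_nonneg (by positivity) (hm0 x)), abs_div, abs_of_pos ha]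
    apply mul_le_mul_of_nonneg_left _ (by positivity)
    apply mul_le_mul_of_nonneg_left _ (mul_nonneg (by positivity) (hm0 x))
    exact div_le_div_of_nonneg_right (hd x w b hw) ha.le
  · intro r hr x
    show ∑ w, r w * (∑ b, pr w b * (2 * ((k : ℝ) + 1) * (((max (V x s) 0 / a) ^ 2) ^ k *
      (max (V x s) 0 / a) * ((V x (update s w (some b)) - V x s) / a))) -
      2 * ((k : ℝ) + 1) * (((max (V x s) 0 / a) ^ 2) ^ k *
      (max (V x s) 0 / a) * ((V x (update s w none) - V x s) / a))) ≤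
      2 * ((k : ℝ) + 1) * (((max (V x s) 0 / a) ^ 2) ^ k * (max (V x s) 0 / a) * (D x / a))
    obtain ⟨c, hc⟩ : ∃ c, c = 2 * ((k : ℝ) + 1) * (((max (V x s) 0 / a) ^ 2) ^ k *
      (max (V x s) 0 / a)) := ⟨_, rfl⟩
    have hc0 : 0 ≤ c := by
      rw [hc]
      exact mul_nonneg (by positivity) (mul_nonneg (by positivity) (hm0 x))
    have h1 : ∀ w, (∑ b, pr w b * (2 * ((k : ℝ) + 1) * (((max (V x s) 0 / a) ^ 2) ^ k *
        (max (V x s) 0 / a) * ((V x (update s w (some b)) - V x s) / a))) -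
        2 * ((k : ℝ) + 1) * (((max (V x s) 0 / a) ^ 2) ^ k *
        (max (V x s) 0 / a) * ((V x (update s w none) - V x s) / a))) =
        c / a * (∑ b, pr w b * V x (update s w (some b)) - V x (update s w none)) := by
      intro w
      have h2 : ∑ b, pr w b * (2 * ((k : ℝ) + 1) * (((max (V x s) 0 / a) ^ 2) ^ k *
          (max (V x s) 0 / a) * ((V x (update s w (some b)) - V x s) / a))) =
          c / a * (∑ b, pr w b * V x (update s w (some b)) - V x s) := by
        have h3 : ∀ b, pr w b * (2 * ((k : ℝ) + 1) * (((max (V x s) 0 / a) ^ 2) ^ k *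
            (max (V x s) 0 / a) * ((V x (update s w (some b)) - V x s) / a))) =
            c / a * (pr w b * V x (update s w (some b))) - c / a * V x s * pr w b := by
          intro b
          rw [hc]
          ring
        simp only [h3]
        rw [Finset.sum_sub_distrib, ← Finset.mul_sum, ← Finset.mul_sum, hpr1]
        ring
      rw [h2]
      rw [hc]
      ring
    simp only [h1]
    have h7 : ∑ w, r w * (c / a * (∑ b, pr w b * V x (update s w (some b)) -
        V x (update s w none))) = c / a * ∑ w, r w * (∑ b, pr w b * V x (update s w (some b)) -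
        V x (update s w none)) := by
      rw [Finset.mul_sum]
      exact Finset.sum_congr rfl fun w _ => by ring
    rw [h7]
    have h4 : 2 * ((k : ℝ) + 1) * (((max (V x s) 0 / a) ^ 2) ^ k * (max (V x s) 0 / a) *
        (D x / a)) = c / a * D x := by
      rw [hc]
      ring
    rw [h4]
    rcases le_or_gt (V x s) 0 with h | h
    · have h5 : c = 0 := by
        rw [hc, max_eq_right h]
        ring
      rw [h5]
      simp
    · exact mul_le_mul_of_nonneg_left (hD r hr x h) (div_nonneg hc0 ha.le)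
  · intro x
    show ∑ w, (d x w / a) ^ 2 ≤ Q x / a ^ 2
    simp only [div_pow]
    rw [← Finset.sum_div]
    exact div_le_div_of_nonneg_right (hQ x) (by positivity)
  · refine le_trans (le_of_eq (Finset.sum_congr rfl fun x _ => ?_)) hbD
    rw [← pow_mul]

end Pool.Agent.ANS
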