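import Pool.Agent.ANS.St
import Pool.Agent.ANS.EngB

/-! # ANS STB: standing hypotheses of one step, general laws (Part B; helper12)

`ok w b` = the value `b` of the site `w` is good (unread or strong).  A weak outcome `d` (`¬ ok w (some d)`)
may bring the absorption down to any positive value (`η' = η_*`: `et1`); good outcomes keep
`1/C` of it (`etk`).  Counting weights `e x b` depend on the value at `x`: they do not depend on the value
as long as it is good, and can only be smaller at a weak value (`ed`).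
`bo ok be s w = be w` if the site `w` is good at `s`, else `0`. -/

set_option autoImplicit false
set_option linter.unusedSectionVars false

open Finset Function Matrix

noncomputable section

namespace Pool.Agent.ANS

open Pool.Agent.Kin Pool.Agent.APS Pool.Agent.ANL

variable {T D : Type} [Fintype T] [DecidableEq T]

open Classical in
/-- size of the digit at the good sites -/
def bo (ok : T → Option D → Prop) (be : T → ℝ) (s : T → Option D) (w : T) : ℝ :=
  if ok w (s w) then be w else 0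

namespace Stp

variable (P : Stp T D)

/-- STANDING HYPOTHESES of one step, general laws -/
structure OkB [Fintype D] (ok : T → Option D → Prop) (X N : Finset T) (c be : T → ℝ)
    (e : T → Option D → ℝ) (C Lm : ℝ) : Prop where
  C1 : 1 ≤ C
  Lm1 : 1 ≤ Lm
  adm : Adm P.H P.b
  NX : N ⊆ X
  etaU : ∀ x, x ∉ X → P.eta nil x = 0
  etaX : ∀ x ∈ X, 0 < P.eta nil x
  etaC : ∀ x ∈ X, P.eta nil x ≤ C
  dig : P.g.Ok c be
  beN : ∀ w, w ∉ N → be w = 0
  /-- the unread value is good -/
  okn : ∀ w, ok w none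
  /-- `be² ≤ C η` -/
  bee : ∀ w, be w ^ 2 ≤ C * P.eta nil w
  /-- the variance does not increase -/
  zt0 : ∀ w d, 0 ≤ P.g.zt w d
  /-- after a good outcome the absorption keeps at least `1/C` of its value -/
  etk : ∀ w d, ok w (some d) → P.eta nil w ≤ C * (P.eta nil w - P.g.zt w d * (P.gt w).im)
  /-- after any outcome the absorption is positive -/
  et1 : ∀ x ∈ X, ∀ d, P.g.zt x d * (P.gt x).im < P.eta nil x
  /-- `be` is small -/
  bes : ∀ w, 100 * C ^ 2 * be w ≤ 1
  io1 : ∀ x ∈ X, 1 ≤ C * P.io nil x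
  dia : ∀ x ∈ X, ‖P.G nil x x‖ ≤ C
  ent : ∀ x ∈ X, ∀ y ∈ X, ‖P.G nil x y‖ ≤ Lm
  e0 : ∀ x ∈ X, ∀ b, 0 < e x b
  /-- the counting weight of a good value is maximal -/
  ed : ∀ x b b', ok x b → e x b' ≤ e x b
  ebe : ∀ w b, ok w b → be w ^ 2 ≤ C * e w b
  /-- row sums with the counting weights -/
  row : ∀ s, P.Ent X 1 s → ∀ w ∈ X, ∑ x ∈ X, e x (s x) * P.S s x w ≤ C

variable {P}

/-- Part A is the case where all values are good -/
theorem Ok.toB [Fintype D] {X N : Finset T} {c be e : T → ℝ} {C Lm : ℝ}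
    (h : P.Ok X N c be e C Lm) (h8 : 8 ≤ C) (hz : ∀ w d, 0 ≤ P.g.zt w d) :
    P.OkB (fun _ _ => True) X N c be (fun x _ => e x) C Lm where
  C1 := h.C1
  Lm1 := h.Lm1
  adm := h.adm
  NX := h.NX
  etaU := h.etaU
  etaX := h.etaX
  etaC := h.etaC
  dig := h.dig
  beN := h.beN
  okn _ := trivial
  bee := h.bee
  zt0 := hz
  etk w d _ := by
    have h1 := h.et8 w d
    have h0 : P.eta nil w = -(P.b w).im := by simp [eta, bs, nil, inc]
    have h2 : 0 ≤ P.eta nil w := by
      rw [h0]
      linarith [h.adm.im w]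
    nlinarith
  et1 x hx d := by
    have h1 := h.et8 x d
    have h2 := h.etaX x hx
    linarith
  bes := h.bes
  io1 := h.io1
  dia := h.dia
  ent := h.ent
  e0 x hx _ := h.e0 x hx
  ed _ _ _ _ := le_rfl
  ebe w _ _ := h.ebe w
  row := h.row

end Stp

section bo

variable {ok : T → Option D → Prop} {be : T → ℝ} {s : T → Option D}

theorem bo_ok {w : T} (hw : ok w (s w)) : bo ok be s w = be w := if_pos hw

theorem bo_bad {w : T} (hw : ¬ ok w (s w)) : bo ok be s w = 0 := if_neg hw

theorem bo_nonneg (h0 : ∀ w, 0 ≤ be w) (w : T) : 0 ≤ bo ok be s w := by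
  unfold bo
  split_ifs
  · exact h0 w
  · exact le_rfl

theorem bo_le (h0 : ∀ w, 0 ≤ be w) (w : T) : bo ok be s w ≤ be w := by
  unfold bo
  split_ifs
  · exact le_rfl
  · exact h0 w

theorem bo_sq (h0 : ∀ w, 0 ≤ be w) (w : T) : bo ok be s w ^ 2 ≤ be w ^ 2 :=
  pow_le_pow_left₀ (bo_nonneg h0 w) (bo_le h0 w) 2

/-- a rate times a size -/
theorem rate_be {r : T → ℝ} (hr : Rate ok s r) (w : T) {f : ℝ} (hf : 0 ≤ f) (k : ℕ)
    (hk : k ≠ 0) (h0 : ∀ w, 0 ≤ be w) :
    r w * (be w ^ k * f) ≤ 2 * (bo ok be s w ^ k * f) := by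
  by_cases hw : ok w (s w)
  · rw [bo_ok hw]
    have h1 := h0 w
    exact mul_le_mul_of_nonneg_right (hr.r2 w) (by positivity)
  · rw [hr.off w hw, bo_bad hw, zero_pow hk]
    simp

end bo

end Pool.Agent.ANS
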