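import Pool.Agent.ANS.TopGoodOk
import Pool.Agent.ANS.StB

/-! # ANS TOP GOODOK B: the standing hypotheses `Stp.OkB` (general laws) for a good medium (AND project)

`CellDigB`: the digits of one cell of a general law: every outcome leaves a nonnegative variance, good
outcomes (`ok`) keep the proportion `1/Ck` of it, the value is good off the cell.  Counting weights
`eB M ok Z kI`: `η` at a good value, `kI` (a power of `κ`) at weak values and at the sites of `Z` (inert
sites of the block).  `Good.stpOkB`: `(M.stp g).OkB ok M.nr N c be (eB M ok Z kI) (stCB f Cb Ck) Lm`. -/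

set_option autoImplicit false
set_option linter.unusedSectionVars false

open Finset Function Matrix

noncomputable section

namespace Pool.Agent.ANS

open Pool.Agent.Kin Pool.Agent.APS Pool.Agent.ANL

namespace Stp

variable {T D : Type} [Fintype T] [DecidableEq T] {P : Stp T D} {X N : Finset T}

/-- the medium is admissible at a configuration where the absorption is positive on `X` -/
theorem adm_atB (hadm : Adm P.H P.b) (hNX : N ⊆ X) (hi : ∀ w, w ∉ N → ∀ d, P.inc w d = 0)
    (s : T → Option D) (hs0 : ∀ x, 0 ≤ P.eta s x) (hsX : ∀ x ∈ X, 0 < P.eta s x) :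
    Adm P.H (P.bs s) := by
  refine ⟨hadm.sym, fun x => ?_, ?_⟩
  · have := hs0 x
    unfold eta at this
    linarith
  · rw [isUnit_iff_ne_zero]
    intro hd
    obtain ⟨v, hv, hv0⟩ := Matrix.exists_mulVec_eq_zero_iff.2 hd
    apply hv
    have h1 := form_im hadm.sym (P.bs s) v
    rw [hv0] at h1
    simp only [Pi.zero_apply, mul_zero, Finset.sum_const_zero, Complex.zero_im] at h1
    have h2 : ∀ x, ‖v x‖ ^ 2 * (P.bs s x).im ≤ 0 := fun x =>
      mul_nonpos_of_nonneg_of_nonpos (by positivity) (by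
        have := hs0 x
        unfold eta at this
        linarith)
    have h3 := (Finset.sum_eq_zero_iff_of_nonpos (fun x _ => h2 x)).1 h1.symm
    have h4 : ∀ x ∈ X, v x = 0 := by
      intro x hx
      have h5 := h3 x (Finset.mem_univ x)
      rcases mul_eq_zero.1 h5 with h6 | h6
      · exact norm_eq_zero.1 (pow_eq_zero_iff (by norm_num) |>.1 h6)
      · have h9 := hsX x hx
        unfold eta at h9
        linarith
    have h5 : (P.H + diagonal P.b) *ᵥ v = (P.H + diagonal (P.bs s)) *ᵥ v := by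
      funext x
      rw [Matrix.add_mulVec, Matrix.add_mulVec, Pi.add_apply, Pi.add_apply,
        Matrix.mulVec_diagonal, Matrix.mulVec_diagonal]
      by_cases hx : x ∈ X
      · rw [h4 x hx]
        simp
      · have hN : x ∉ N := fun h2 => hx (hNX h2)
        simp [bs, hi x hN]
    have h6 : (P.H + diagonal P.b) *ᵥ v = 0 := by
      rw [h5, hv0]
    have h7 := res_src hadm v
    rw [h6] at h7
    rw [← h7]
    simp

end Stp

end Pool.Agent.ANS

namespace Pool.Agent.AND

open Pool.Agent.Kin Pool.Agent.APS Pool.Agent.ANL Pool.Agent.ANS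

variable {d L : ℕ} [NeZero L] {D : Type} [Fintype D] {f : Fix} {t : Tol d L}
  {M : Med (Tor d L)} {u : UTol}

/-- data of one cell, general laws: `N` = active sites of the cell, `g` digits, `c` variances, `be` sizes,
`ok` good values -/
structure CellDigB (t : Tol d L) (M : Med (Tor d L)) (g : ANS.Dig (Tor d L) D)
    (N : Finset (Tor d L)) (ok : Tor d L → Option D → Prop) (c be : Tor d L → ℝ)
    (Cb Ck : ℝ) : Prop where
  NA : N ⊆ M.A
  dig : g.Ok c be
  beN : ∀ w, w ∉ N → be w = 0
  bek : ∀ w, be w ^ 2 ≤ Cb * t.kl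
  okn : ∀ w, ok w none
  okN : ∀ w, w ∉ N → ∀ b, ok w b
  zt0 : ∀ w a, 0 ≤ g.zt w a
  /-- every outcome leaves a nonnegative variance -/
  ztk : ∀ w ∈ N, ∀ a, g.zt w a ≤ M.k w
  /-- good outcomes keep the proportion `1/Ck` -/
  ztg : ∀ w ∈ N, ∀ a, ok w (some a) → M.k w ≤ Ck * (M.k w - g.zt w a)
  Cb0 : 0 ≤ Cb
  Ck1 : 1 ≤ Ck

/-- the constant of `Stp.OkB` -/
def stCB (f : Fix) (Cb Ck : ℝ) : ℝ := Ck * (f.C1 + 2) + 1 + (1 + Cb) / f.c1

open Classical in
/-- counting weights -/
def eB (M : Med (Tor d L)) (ok : Tor d L → Option D → Prop) (Z : Finset (Tor d L)) (kI : ℝ)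
    (x : Tor d L) (b : Option D) : ℝ :=
  if ok x b ∧ x ∉ Z then M.eta x else kI

variable {g : ANS.Dig (Tor d L) D} {N : Finset (Tor d L)} {ok : Tor d L → Option D → Prop}
  {c be : Tor d L → ℝ} {Cb Ck Lm kI : ℝ} {Z B : Finset (Tor d L)}

theorem eB_ok {x : Tor d L} {b : Option D} (hb : ok x b) (hx : x ∉ Z) :
    eB M ok Z kI x b = M.eta x := if_pos ⟨hb, hx⟩

theorem eB_bad {x : Tor d L} {b : Option D} (hb : ¬ ok x b) : eB M ok Z kI x b = kI :=
  if_neg fun h => hb h.1

theorem eB_Z {x : Tor d L} (hx : x ∈ Z) (b : Option D) : eB M ok Z kI x b = kI :=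
  if_neg fun h => h.2 hx

namespace CellDigB

variable (hc : CellDigB t M g N ok c be Cb Ck)
include hc

theorem off {w : Tor d L} (hw : w ∉ N) (a : D) : g.xi w a = 0 ∧ g.zt w a = 0 := by
  have h1 := hc.beN w hw
  have h2 := hc.dig.xi_le w a
  have h3 := hc.dig.zt_le w a
  rw [h1] at h2 h3
  exact ⟨abs_nonpos_iff.1 h2, abs_nonpos_iff.1 (h3.trans (by norm_num))⟩

theorem inc_off {w : Tor d L} (hw : w ∉ N) (b : Option D) : (M.stp g).inc w b = 0 := by
  cases b with
  | none => rfl
  | some a =>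
    have := hc.off hw a
    show ((g.xi w a : ℂ) + (g.zt w a : ℂ) * _) = 0
    rw [this.1, this.2]
    simp

theorem eta_off (s : Tor d L → Option D) {x : Tor d L} (hx : x ∉ N) :
    (M.stp g).eta s x = M.eta x := by
  rw [← gok_eta_nil M g x]
  unfold ANS.Stp.eta ANS.Stp.bs
  rw [hc.inc_off hx, hc.inc_off hx]

omit hc in
theorem eta_none (s : Tor d L → Option D) {x : Tor d L} (hx : s x = none) :
    (M.stp g).eta s x = M.eta x := by
  rw [← gok_eta_nil M g x]
  unfold ANS.Stp.eta ANS.Stp.bs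
  rw [hx]
  rfl

omit hc in
theorem eta_some (s : Tor d L → Option D) {x : Tor d L} {a : D} (hx : s x = some a) :
    (M.stp g).eta s x = M.eta x - g.zt x a * (rsc (H0T d L) M.b x x).im := by
  rw [← gok_eta_nil M g x, Stp.eta_nil]
  simp only [ANS.Stp.eta, ANS.Stp.bs, hx, ANS.Stp.inc]
  rw [gok_gt]
  show -(M.b x + ((g.xi x a : ℂ) + (g.zt x a : ℂ) * rsc (H0T d L) M.b x x)).im = _
  simp only [Complex.add_im, Complex.ofReal_im, Complex.mul_im, Complex.ofReal_re, zero_mul,
    add_zero, zero_add, neg_add_rev, Med.stp]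
  ring

/-- the absorption at a read site of the cell -/
theorem eta_N (hG : Good f t M) (s : Tor d L → Option D) {x : Tor d L} (hxN : x ∈ N) {a : D}
    (hx : s x = some a) : (M.stp g).eta s x =
      t.eta + (M.k x - g.zt x a) * (rsc (H0T d L) M.b x x).im := by
  rw [eta_some s hx, hG.eA x (hc.NA hxN)]
  ring

theorem NX (hG : Good f t M) : N ⊆ M.nr := hc.NA.trans hG.A_sub_nr

/-- floor of the absorption at every configuration -/
theorem eta_floor (hG : Good f t M) (hI : t.In f M u) (hN : Num f t u) (s : Tor d L → Option D)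
    {x : Tor d L} (hx : x ∈ M.nr) : t.eta ≤ (M.stp g).eta s x := by
  by_cases hxN : x ∈ N
  · rcases hs : s x with _ | a
    · rw [eta_none s hs]
      exact hG.eta_ge hI hN (mem_nr.1 hx)
    · rw [hc.eta_N hG s hxN hs]
      have h1 := hc.ztk x hxN a
      have h2 := hG.io_pos hI hN (mem_nr.1 hx)
      nlinarith [mul_nonneg (sub_nonneg.2 h1) h2.le]
  · rw [hc.eta_off s hxN]
    exact hG.eta_ge hI hN (mem_nr.1 hx)

theorem eta_pos (hG : Good f t M) (hI : t.In f M u) (hN : Num f t u) (s : Tor d L → Option D)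
    {x : Tor d L} (hx : x ∈ M.nr) : 0 < (M.stp g).eta s x :=
  hN.eta.trans_le (hc.eta_floor hG hI hN s hx)

theorem eta_nn (hG : Good f t M) (hI : t.In f M u) (hN : Num f t u) (s : Tor d L → Option D)
    (x : Tor d L) : 0 ≤ (M.stp g).eta s x := by
  by_cases hx : x ∈ M.nr
  · exact (hc.eta_pos hG hI hN s hx).le
  · rw [hc.eta_off s fun h => hx (hc.NX hG h)]
    exact hG.eta_nonneg hI hN x

/-- good values keep `1/Ck` of the absorption -/
theorem eta_good (hG : Good f t M) (hI : t.In f M u) (hN : Num f t u) (s : Tor d L → Option D)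
    {x : Tor d L} (hx : x ∈ M.nr) (hok : ok x (s x)) :
    M.eta x ≤ Ck * (M.stp g).eta s x := by
  have hCk := hc.Ck1
  have h0 := hG.eta_nonneg hI hN x
  by_cases hxN : x ∈ N
  · rcases hs : s x with _ | a
    · rw [eta_none s hs]
      nlinarith
    · rw [hc.eta_N hG s hxN hs, hG.eA x (hc.NA hxN)]
      rw [hs] at hok
      have h1 := hc.ztg x hxN a hok
      have h2 := hG.io_pos hI hN (mem_nr.1 hx)
      have h3 := mul_le_mul_of_nonneg_right h1 h2.le
      have h4 := hN.eta
      nlinarith [mul_nonneg (sub_nonneg.2 hCk) h4.le]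
  · rw [hc.eta_off s hxN]
    nlinarith

end CellDigB

/-- **The standing hypotheses of the engine for general laws hold in a good medium.** -/
theorem Good.stpOkB (hG : Good f t M) (hI : t.In f M u) (hN : Num f t u)
    (hc : CellDigB t M g N ok c be Cb Ck) (hLm : 1 ≤ Lm) (hLm' : u.Lam ≤ Lm)
    (hbes : ∀ w, 100 * stCB f Cb Ck ^ 2 * be w ≤ 1) (hNB : N ⊆ B) (hZB : Z ⊆ B) (hZN : Disjoint Z N)
    (hkI0 : 0 < kI) (hkI : ∀ w ∈ N, kI ≤ M.eta w)
    (hkI1 : kI * ((Lm + 1) ^ 2 * B.card) ≤ 1) :
    (M.stp g).OkB ok M.nr N c be (eB M ok Z kI) (stCB f Cb Ck) Lm := by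
  classical
  have hC1 : 0 < f.C1 := hG.C1_pos hI hN
  have hc1 : 0 < f.c1 := hN.c1
  have hq : 0 ≤ (1 + Cb) / f.c1 := div_nonneg (by linarith [hc.Cb0]) hc1.le
  have hCk := hc.Ck1
  have hCk0 : 0 ≤ Ck := by linarith
  have hCkC : 0 ≤ Ck * (f.C1 + 2) := by positivity
  have hCkC1 : f.C1 + 2 ≤ Ck * (f.C1 + 2) := le_mul_of_one_le_left (by linarith) hCk
  have hCq : (1 + Cb) / f.c1 ≤ stCB f Cb Ck := by
    unfold stCB
    linarith
  have hC16 : Ck * (f.C1 + 2) + 1 ≤ stCB f Cb Ck := by
    unfold stCB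
    linarith
  have hCCk : Ck ≤ stCB f Cb Ck := by
    nlinarith
  have hCc : 1 + Cb ≤ stCB f Cb Ck * f.c1 := by
    rwa [div_le_iff₀ hc1] at hCq
  have hCge : 1 ≤ stCB f Cb Ck := by linarith
  have hC0 : 0 ≤ stCB f Cb Ck := by linarith
  have hNX : N ⊆ M.nr := hc.NX hG
  have hX : ∀ x ∈ M.nr, 0 < M.eta x := fun x hx => hG.eta_pos hI hN (mem_nr.1 hx)
  have he0 : ∀ x, 0 ≤ M.eta x := fun x => hG.eta_nonneg hI hN x
  have hbee : ∀ w, be w ^ 2 ≤ stCB f Cb Ck * M.eta w := by
    intro w
    by_cases hw : w ∈ N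
    · have h1 := hc.bek w
      have h2 := hG.eta_act hI hN (hc.NA hw)
      have h3 := hN.eta
      have h4 : t.kl * f.c1 ≤ M.eta w := by linarith
      have h5 := hN.kl
      calc be w ^ 2 ≤ Cb * t.kl := h1
        _ ≤ (stCB f Cb Ck * f.c1) * t.kl := by
            refine mul_le_mul_of_nonneg_right ?_ h5.le
            linarith
        _ = stCB f Cb Ck * (t.kl * f.c1) := by ring
        _ ≤ _ := mul_le_mul_of_nonneg_left h4 hC0
    · rw [hc.beN w hw]
      have := mul_nonneg hC0 (he0 w)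
      simpa using this
  have hgt : ∀ x, ((M.stp g).gt x).im = (rsc (H0T d L) M.b x x).im := fun x => by
    rw [gok_gt]
  refine ⟨hCge, hLm, hG.admN hI hN, hNX, ?_, ?_, ?_, hc.dig, hc.beN, hc.okn, ?_, hc.zt0, ?_, ?_,
    hbes, ?_, ?_, ?_, ?_, ?_, ?_, ?_⟩
  · intro x hx
    rw [gok_eta_nil]
    exact hG.eU x (by
      by_contra h2
      exact hx (mem_nr.2 h2))
  · intro x hx
    rw [gok_eta_nil]
    exact hX x hx
  · intro x hx
    rw [gok_eta_nil]
    exact (hG.eS1 x (mem_nr.1 hx)).trans hCge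
  · intro w
    rw [gok_eta_nil]
    exact hbee w
  · -- etk
    intro w a hw
    rw [gok_eta_nil, hgt]
    show M.eta w ≤ stCB f Cb Ck * (M.eta w - g.zt w a * _)
    by_cases hwX : w ∈ M.nr
    · have h1 := hc.eta_good hG hI hN (fun _ => some a) hwX hw
      rw [CellDigB.eta_some (fun _ => some a) rfl] at h1
      have h2 := hc.eta_nn hG hI hN (fun _ => some a) w
      rw [CellDigB.eta_some (fun _ => some a) rfl] at h2
      exact h1.trans (mul_le_mul_of_nonneg_right hCCk h2)
    · have hwN : w ∉ N := fun h => hwX (hNX h)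
      rw [(hc.off hwN a).2, zero_mul, sub_zero]
      nlinarith [he0 w]
  · -- et1
    intro x hx a
    rw [gok_eta_nil, hgt]
    show g.zt x a * _ < _
    have h2 := hc.eta_pos hG hI hN (fun _ => some a) hx
    rw [CellDigB.eta_some (fun _ => some a) rfl] at h2
    linarith
  · intro x hx
    have h1 := hG.io_ge hI hN (mem_nr.1 hx)
    have h2 : (M.stp g).io nil x = (rsc (H0T d L) M.b x x).im := by
      unfold Stp.io
      rw [stp_G_nil]
      rfl
    rw [h2]
    have h3 := mul_le_mul_of_nonneg_left h1 hC0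
    linarith [hc.Cb0]
  · intro x hx
    rw [stp_G_nil]
    have := hG.gam_le hI hN (mem_nr.1 hx)
    exact this.trans (by linarith)
  · intro x hx y hy
    rw [stp_G_nil]
    exact (hG.ent_Lam hI (mem_nr.1 hx) (mem_nr.1 hy)).trans hLm'
  · intro x hx b
    unfold eB
    split_ifs
    · exact hX x hx
    · exact hkI0
  · intro x b b' hb
    by_cases hxZ : x ∈ Z
    · rw [eB_Z hxZ, eB_Z hxZ]
    · rw [eB_ok hb hxZ]
      by_cases hb' : ok x b'
      · rw [eB_ok hb' hxZ]
      · rw [eB_bad hb']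
        refine hkI x ?_
        by_contra hxN
        exact hb' (hc.okN x hxN b')
  · intro w b hb
    by_cases hwZ : w ∈ Z
    · have hwN : w ∉ N := fun h => (Finset.disjoint_left.1 hZN) hwZ h
      rw [hc.beN w hwN, eB_Z hwZ]
      have := mul_nonneg hC0 hkI0.le
      simpa using this
    · rw [eB_ok hb hwZ]
      exact hbee w
  · -- row
    intro s hs w hw
    have hadm := Stp.adm_atB (P := M.stp g) (X := M.nr) (N := N) (hG.admN hI hN) hNX
      (fun w hw b => hc.inc_off hw b) s (hc.eta_nn hG hI hN s) (fun x hx => hc.eta_pos hG hI hN s hx)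
    have h1 := ANL.ward hadm w
    have hS : ∀ x, (M.stp g).S s x w = ‖rsc (M.stp g).H ((M.stp g).bs s) w x‖ ^ 2 := fun x => by
      unfold Stp.S Stp.G
      rw [adm_symm hadm x w]
    have hSn : ∀ x, 0 ≤ (M.stp g).S s x w := fun x => by
      unfold Stp.S
      positivity
    have hSb : ∀ x ∈ M.nr, (M.stp g).S s x w ≤ (Lm + 1) ^ 2 := fun x hx => by
      have h3 := hs x hx w hw
      have h4 : ‖(M.stp g).G nil x w‖ ≤ Lm := by
        rw [stp_G_nil]
        exact (hG.ent_Lam hI (mem_nr.1 hx) (mem_nr.1 hw)).trans hLm'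
      have h5 := norm_add_le ((M.stp g).G s x w - (M.stp g).G nil x w) ((M.stp g).G nil x w)
      rw [sub_add_cancel] at h5
      unfold Stp.S
      exact pow_le_pow_left₀ (norm_nonneg _) (by linarith) 2
    have h2 : ∑ x ∈ M.nr, eB M ok Z kI x (s x) * (M.stp g).S s x w ≤
        ∑ x ∈ M.nr, (Ck * (M.stp g).eta s x * (M.stp g).S s x w +
          (if x ∈ B then kI * (Lm + 1) ^ 2 else 0)) := by
      refine Finset.sum_le_sum fun x hx => ?_
      have h3 := hSn x
      have h6 := hc.eta_nn hG hI hN s x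
      have h7 : 0 ≤ if x ∈ B then kI * (Lm + 1) ^ 2 else 0 := by
        split_ifs
        · positivity
        · exact le_rfl
      by_cases hgo : ok x (s x) ∧ x ∉ Z
      · rw [eB_ok hgo.1 hgo.2]
        have h4 := mul_le_mul_of_nonneg_right (hc.eta_good hG hI hN s hx hgo.1) h3
        linarith
      · have hxB : x ∈ B := by
          by_cases hxZ : x ∈ Z
          · exact hZB hxZ
          · refine hNB ?_
            by_contra hxN
            exact hgo ⟨hc.okN x hxN _, hxZ⟩
        have he : eB M ok Z kI x (s x) = kI := if_neg hgo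
        rw [he, if_pos hxB]
        have h4 := mul_le_mul_of_nonneg_left (hSb x hx) hkI0.le
        have h5 : 0 ≤ Ck * (M.stp g).eta s x * (M.stp g).S s x w := by positivity
        linarith
    have h8 : ∑ x ∈ M.nr, Ck * (M.stp g).eta s x * (M.stp g).S s x w ≤ Ck * (f.C1 + 1) := by
      have h9 : ∑ x ∈ M.nr, Ck * (M.stp g).eta s x * (M.stp g).S s x w ≤
          ∑ x, Ck * ((-((M.stp g).bs s x).im) *
            ‖rsc (M.stp g).H ((M.stp g).bs s) w x‖ ^ 2) := by
        refine le_trans (le_of_eq (Finset.sum_congr rfl fun x _ => ?_))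
          (Finset.sum_le_univ_sum_of_nonneg fun x => ?_)
        · rw [hS]
          unfold Stp.eta
          ring
        · have h6 := hc.eta_nn hG hI hN s x
          unfold Stp.eta at h6
          have h7 : 0 ≤ ‖rsc (M.stp g).H ((M.stp g).bs s) w x‖ ^ 2 := by positivity
          exact mul_nonneg hCk0 (mul_nonneg h6 h7)
      rw [← Finset.mul_sum] at h9
      have h3 : ∑ x, (-((M.stp g).bs s x).im) *
          ‖rsc (M.stp g).H ((M.stp g).bs s) w x‖ ^ 2 =
          (rsc (M.stp g).H ((M.stp g).bs s) w w).im := by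
        rw [h1]
      rw [h3] at h9
      have h4 : (rsc (M.stp g).H ((M.stp g).bs s) w w).im ≤ f.C1 + 1 := by
        have h5 := hs w hw w hw
        have h6 := hG.gam_le hI hN (mem_nr.1 hw)
        rw [stp_G_nil] at h5
        have h7 : ‖(M.stp g).G s w w‖ ≤ f.C1 + 1 := by
          have h8 := norm_add_le ((M.stp g).G s w w - M.G w w) (M.G w w)
          rw [sub_add_cancel] at h8
          have h9 : ‖M.G w w‖ ≤ f.C1 := h6
          linarith
        exact ((le_abs_self _).trans (Complex.abs_im_le_norm _)).trans h7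
      exact h9.trans (mul_le_mul_of_nonneg_left h4 hCk0)
    have h10 : ∑ x ∈ M.nr, (if x ∈ B then kI * (Lm + 1) ^ 2 else 0) ≤ 1 := by
      rw [← Finset.sum_filter, Finset.sum_const, nsmul_eq_mul]
      refine le_trans ?_ hkI1
      have h11 : ((M.nr.filter (fun x => x ∈ B)).card : ℝ) ≤ B.card := by
        exact_mod_cast Finset.card_le_card fun x hx => (Finset.mem_filter.1 hx).2
      calc ((M.nr.filter (fun x => x ∈ B)).card : ℝ) * (kI * (Lm + 1) ^ 2) ≤
            B.card * (kI * (Lm + 1) ^ 2) := mul_le_mul_of_nonneg_right h11 (by positivity)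
        _ = _ := by ring
    rw [Finset.sum_add_distrib] at h2
    linarith

end Pool.Agent.AND
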