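import Pool.Agent.ANS.CoreNumFB
import Pool.Agent.ANS.CoreNumB
import Pool.Agent.ANS.TopGoodOkB
import Pool.Agent.ANS.T4.TopB

/-! # ANS TOP CORE B: the probability of a bad frozen step in a good medium, general laws (AND project)

`CoreIB`: hypotheses for one state and one cell.  `CoreIB.okB`: `Stp.OkB`; `CoreIB.II`: the triangle sums.
`frz_probB_w`: for small `κ` the a priori facts `APB` hold at the end of the step outside an event of
probability `κ^Kp`.  The far inert rows (`hfar`, `hfarT`, lemma EntFar) and the form component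
(`hForm`, folder FormM) are hypotheses. -/

set_option autoImplicit false
set_option linter.unusedSectionVars false

open Finset Function Matrix

noncomputable section

namespace Pool.Agent.AND

open Pool.Agent.Kin Pool.Agent.APS Pool.Agent.ANL Pool.Agent.ANS

variable {d L : ℕ} [NeZero L] {D : Type} [Fintype D]

/-- HYPOTHESES of `frz_probB_w` for one state and one cell (everything except the weights of (H3), the
far inert rows and the form component) -/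
structure CoreIB (f : Fix) (t : Tol d L) (M : Med (Tor d L)) (u : UTol)
    (g : ANS.Dig (Tor d L) D) (N B : Finset (Tor d L)) (ok : Tor d L → Option D → Prop)
    (c be : Tor d L → ℝ) (Cb Ck cK cA cT0 eL CM CB Ce vi : ℝ) : Prop where
  G : Good f t M
  In : t.In f M u
  Num : Num f t u
  dig : CellDigB t M g N ok c be Cb Ck
  kkl : t.k ≤ Cb * t.kl
  NB : N ⊆ B
  Bnr : B ⊆ M.nr
  BX : ∃ x ∈ M.nr, x ∉ B
  Ki : cK ≤ u.Ki
  dA0 : 0 ≤ u.dA
  dA : u.dA ≤ cA * t.k ^ vi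
  dS0 : 0 ≤ u.dS
  dS : u.dS ≤ 1
  Lam : u.Lam ≤ t.k ^ (-eL)
  tau : u.tau ≤ cT0 * t.k ^ (-7 / 8 : ℝ)
  Nc : (N.card : ℝ) ≤ t.k ^ (-CM)
  Bc : (B.card : ℝ) ≤ t.k ^ (-CB)
  /-- floor of the absorption at the sites which are not inert -/
  eta : ∀ x ∈ M.nr, x ∉ M.I → t.k ^ Ce ≤ M.eta x
  big : t.k ^ (-3 : ℝ) ≤ M.nr.card * t.eta
  side : t.k ^ (-1 : ℝ) ≤ L

open Classical in
/-- ROWS of the functionals: the non-read sites which are not far inert sites -/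
def Rows (M : Med (Tor d L)) (B : Finset (Tor d L)) : Finset (Tor d L) :=
  M.nr.filter fun x => x ∈ M.I → x ∈ B

theorem mem_Rows {M : Med (Tor d L)} {B : Finset (Tor d L)} {x : Tor d L} :
    x ∈ Rows M B ↔ x ∈ M.nr ∧ (x ∈ M.I → x ∈ B) := by
  classical
  unfold Rows
  rw [Finset.mem_filter]

theorem Rows_sub (M : Med (Tor d L)) (B : Finset (Tor d L)) : Rows M B ⊆ M.nr := fun _ hx =>
  (mem_Rows.1 hx).1

/-- exponent of the counting weights at the weak values and at the inert rows -/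
def CIx (eL CB Ce : ℝ) : ℝ := Ce + 2 * eL + CB + 1

/-- the counting weights of the step -/
def eBk (M : Med (Tor d L)) (ok : Tor d L → Option D → Prop) (B : Finset (Tor d L)) (k CI : ℝ) :
    Tor d L → Option D → ℝ := eB M ok (M.I ∩ B) (k ^ CI)

variable {f : Fix} {t : Tol d L} {M : Med (Tor d L)} {u : UTol} {g : ANS.Dig (Tor d L) D}
  {N B : Finset (Tor d L)} {ok : Tor d L → Option D → Prop} {c be : Tor d L → ℝ}
  {Cb Ck cK cA cT0 eL CM CB Ce vi : ℝ}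

namespace CoreIB

variable (h : CoreIB f t M u g N B ok c be Cb Ck cK cA cT0 eL CM CB Ce vi)
include h

theorem k0 : 0 < t.k := h.Num.kl.trans_le h.Num.klk

theorem bek' (w : Tor d L) : be w ^ 2 ≤ Cb * t.k := by
  have h1 := h.dig.bek w
  have h2 : Cb * t.kl ≤ Cb * t.k := mul_le_mul_of_nonneg_left h.Num.klk h.dig.Cb0
  linarith

theorem be_le (w : Tor d L) : be w ≤ nb0 (√Cb) t.k := by
  have h1 := h.bek' w
  have hk := h.k0
  have h3 : be w ^ 2 ≤ (nb0 (√Cb) t.k) ^ 2 := by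
    rw [nb0_sq hk, Real.sq_sqrt h.dig.Cb0]
    linarith
  have h4 : 0 ≤ nb0 (√Cb) t.k :=
    mul_nonneg (Real.sqrt_nonneg _) (Real.rpow_pos_of_pos hk _).le
  exact (sq_le_sq₀ (h.dig.dig.be0 w) h4).1 h3

/-- `e ≥ κ^CI` on the rows -/
theorem e_lo (hk1 : t.k ≤ 1) (heL : 0 ≤ eL) (hCB : 0 ≤ CB) {x : Tor d L} (hx : x ∈ Rows M B)
    (b : Option D) : t.k ^ CIx eL CB Ce ≤ eBk M ok B t.k (CIx eL CB Ce) x b := by
  unfold eBk eB
  split_ifs with hb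
  · rw [mem_Rows] at hx
    have hxI : x ∉ M.I := fun hI => hb.2 (Finset.mem_inter.2 ⟨hI, hx.2 hI⟩)
    refine le_trans ?_ (h.eta x hx.1 hxI)
    refine Real.rpow_le_rpow_of_exponent_ge h.k0 hk1 ?_
    unfold CIx
    linarith
  · exact le_rfl

theorem N_rows : N ⊆ Rows M B := fun _ hx =>
  mem_Rows.2 ⟨h.dig.NX h.G hx, fun _ => h.NB hx⟩

/-- `OkB` -/
theorem okB (hk1 : t.k ≤ 1 / 4) (heL : 0 ≤ eL) (hCB : 0 ≤ CB) (hCe : 0 ≤ Ce)
    (hbsm : 100 * stCB f Cb Ck ^ 2 * nb0 (√Cb) t.k ≤ 1) :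
    (M.stp g).OkB ok M.nr N c be (eBk M ok B t.k (CIx eL CB Ce)) (stCB f Cb Ck)
      (t.k ^ (-eL)) := by
  have hk := h.k0
  have hk1' : t.k ≤ 1 := by linarith
  have hpos : ∀ a : ℝ, 0 < t.k ^ a := fun a => Real.rpow_pos_of_pos hk a
  have hLm1 : 1 ≤ t.k ^ (-eL) :=
    Real.one_le_rpow_of_pos_of_le_one_of_nonpos hk hk1' (by linarith)
  have hZN : Disjoint (M.I ∩ B) N := by
    rw [Finset.disjoint_left]
    intro x hx hxN
    exact (Finset.disjoint_left.1 h.G.AI) (h.dig.NA hxN) (Finset.mem_inter.1 hx).1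
  refine h.G.stpOkB h.In h.Num h.dig hLm1 h.Lam (fun w => ?_) h.NB Finset.inter_subset_right hZN
    (hpos _) (fun w hw => ?_) ?_
  · refine le_trans (mul_le_mul_of_nonneg_left (h.be_le w) (by positivity)) hbsm
  · have hwI : w ∉ M.I := fun hI => (Finset.disjoint_left.1 h.G.AI) (h.dig.NA hw) hI
    refine le_trans ?_ (h.eta w (h.dig.NX h.G hw) hwI)
    refine Real.rpow_le_rpow_of_exponent_ge hk hk1' ?_
    unfold CIx
    linarith
  · have h1 : (t.k ^ (-eL) + 1) ^ 2 ≤ 4 * t.k ^ (-(2 * eL)) := by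
      have e1 : t.k ^ (-(2 * eL)) = (t.k ^ (-eL)) ^ 2 := by
        rw [← Real.rpow_natCast, ← Real.rpow_mul hk.le]
        congr 1
        push_cast
        ring
      rw [e1]
      nlinarith
    have h2 : (t.k ^ (-eL) + 1) ^ 2 * (B.card : ℝ) ≤ 4 * t.k ^ (-(2 * eL)) * t.k ^ (-CB) :=
      mul_le_mul h1 h.Bc (Nat.cast_nonneg _) (by have := hpos (-(2 * eL)); positivity)
    refine (mul_le_mul_of_nonneg_left h2 (hpos _).le).trans ?_
    have h3 : t.k ^ CIx eL CB Ce * (4 * t.k ^ (-(2 * eL)) * t.k ^ (-CB)) =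
        4 * t.k ^ (Ce + 1) := by
      have e1 : t.k ^ CIx eL CB Ce * (4 * t.k ^ (-(2 * eL)) * t.k ^ (-CB)) =
          4 * (t.k ^ CIx eL CB Ce * t.k ^ (-(2 * eL)) * t.k ^ (-CB)) := by ring
      rw [e1, ← Real.rpow_add hk, ← Real.rpow_add hk]
      congr 2
      unfold CIx
      ring
    rw [h3]
    have h4 : t.k ^ (Ce + 1) ≤ t.k := by
      calc t.k ^ (Ce + 1) ≤ t.k ^ (1 : ℝ) :=
            Real.rpow_le_rpow_of_exponent_ge hk hk1' (by linarith)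
        _ = t.k := Real.rpow_one _
    linarith

theorem sum_be : ∑ w, be w ^ 2 = ∑ w ∈ N, be w ^ 2 := by
  symm
  refine Finset.sum_subset (Finset.subset_univ N) fun w _ hw => ?_
  rw [h.dig.beN w hw]
  norm_num

theorem Mc (hCbk : Cb * t.k ≤ 1) : ∑ w, be w ^ 2 ≤ t.k ^ (-CM) := by
  rw [h.sum_be]
  have h2 : ∑ w ∈ N, be w ^ 2 ≤ ∑ _w ∈ N, (1 : ℝ) := Finset.sum_le_sum fun w _ => by
    have h3 := h.bek' w
    linarith
  refine h2.trans ?_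
  rw [Finset.sum_const, nsmul_eq_mul, mul_one]
  exact h.Nc

theorem T0 : ∀ x ∈ M.nr, (M.stp g).Tx (M.A ∩ B) nil x ≤ cT0 * t.k ^ (-7 / 8 : ℝ) := fun x hx => by
  have h1 := h.G.h2 x (mem_nr.1 hx)
  have h2 : (M.stp g).Tx (M.A ∩ B) nil x ≤ ∑ w ∈ M.A, ‖rsc (H0T d L) M.b x w‖ ^ 4 := by
    unfold Stp.Tx
    rw [stp_G_nil]
    exact Finset.sum_le_sum_of_subset_of_nonneg Finset.inter_subset_left
      fun _ _ _ => by positivity
  exact h2.trans (h1.trans ((h.In.tau x).trans h.tau))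

theorem C1pos : 0 < f.C1 := h.G.C1_pos h.In h.Num

theorem Ceta : ∀ y ∈ M.A, t.k ≤ stCB f Cb Ck * M.eta y := fun y hy => by
  have hc1 := h.Num.c1
  have hC1 := h.C1pos
  have h1 := h.G.eta_act h.In h.Num hy
  have h2 := h.Num.eta
  have hCk := h.dig.Ck1
  have hCb := h.dig.Cb0
  have h0 : 0 ≤ Ck * (f.C1 + 2) := by positivity
  have h3 : (1 + Cb) / f.c1 ≤ stCB f Cb Ck := by
    unfold stCB
    linarith
  have h4 : 1 + Cb ≤ stCB f Cb Ck * f.c1 := by rwa [div_le_iff₀ hc1] at h3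
  have h5 := h.Num.kl
  have hC0 : 0 ≤ stCB f Cb Ck := le_trans (by positivity) h3
  calc t.k ≤ Cb * t.kl := h.kkl
    _ ≤ (stCB f Cb Ck * f.c1) * t.kl := mul_le_mul_of_nonneg_right (by linarith) h5.le
    _ = stCB f Cb Ck * (t.kl * f.c1) := by ring
    _ ≤ stCB f Cb Ck * M.eta y := mul_le_mul_of_nonneg_left (by linarith) hC0

/-- THE TRIANGLE SUMS in a good medium -/
theorem II (hd : 3 ≤ d) {cd vt : ℝ} (hk1 : t.k ≤ 1 / 4)
    (hcT0 : 0 ≤ cT0) (hcK : 0 < cK) (hcA : 0 ≤ cA)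
    (hcd : 30 ≤ cd) (hvt : 0 < vt) (hvi1 : vi ≤ 1 / 150) {C : ℝ} (hC : C = stCB f Cb Ck)
    (nI : iotFB d f.c1 f.C1 C Cb Cb cK cA cd (cT0 + 1) vi t.k ≤ t.k ^ (1 / 8 + 15 / 16 * vi))
    (nD : 2 * C * t.k ^ (11 / 256 : ℝ) ≤ 1) (nE : 30 * t.k ^ (1 / 140 : ℝ) ≤ 1 / 2)
    {e : Tor d L → Option D → ℝ}
    (hOk : (M.stp g).OkB ok M.nr N c be e C (t.k ^ (-eL)))
    {s : Tor d L → Option D} (hE : (M.stp g).Ent M.nr 1 s)
    (hdia : ∀ x ∈ M.nr, ‖(M.stp g).G s x x - (M.stp g).G nil x x‖ ≤ t.k ^ (11 / 256 : ℝ))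
    (hform : (M.stp g).FormLe B (30 * t.k ^ (1 / 140 : ℝ)) s) (x : ↥M.nr)
    (htau : (M.stp g).Tx (Yo ok (M.A ∩ B) s) s x ≤
      (M.stp g).Tx (M.A ∩ B) nil x + t.k ^ (-7 / 8 + vt)) :
    T4.II (Stp.omY (Yo ok (M.A ∩ B) s) t.k)
      (fun w : ↥N => 3 * bo ok be s w) ((M.stp g).gX M.nr s) (eN hOk.NX) x ≤
        t.k ^ (1 / 8 + 15 / 16 * vi) := by
  have hk := h.k0
  have hk1' : t.k ≤ 1 := by linarith
  have hpos : ∀ a : ℝ, 0 < t.k ^ a := fun a => Real.rpow_pos_of_pos hk a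
  have hCb := h.dig.Cb0
  have hc1 := h.Num.c1
  have hC1 := h.C1pos
  have hC1' : 1 ≤ C := hOk.C1
  have hC0 : 0 < C := by linarith
  have hCη : ∀ y ∈ M.A, t.k ≤ C * M.eta y := by
    rw [hC]
    exact h.Ceta
  have hnX0 : (0 : ℝ) < M.nr.card := by
    obtain ⟨x, hx, -⟩ := h.BX
    have : 0 < M.nr.card := Finset.card_pos.2 ⟨x, hx⟩
    exact_mod_cast this
  have heta1 : t.eta ≤ 1 := by
    obtain ⟨x, hx, -⟩ := h.BX
    exact (h.G.eta_ge h.In h.Num (mem_nr.1 hx)).trans (h.G.eS1 x (mem_nr.1 hx))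
  have hKi0 : 0 < u.Ki := hcK.trans_le h.Ki
  have htau8 : t.k * (M.stp g).Tx (Yo ok (M.A ∩ B) s) s x ≤ (cT0 + 1) * t.k ^ (1 / 8 : ℝ) :=
    (mul_le_mul_of_nonneg_left (htau.trans (add_le_add (h.T0 x x.2) le_rfl)) hk.le).trans
      (tau_num (cb := √Cb) hk hk1' hvt.le)
  have hk140 := hpos (1 / 140)
  have hcd0 : 0 ≤ cd := by linarith
  have h1 := II_atB' hd h.G h.In h.Num hKi0 h.dig.NA h.NB hCb h.bek' hOk hE
    (Y' := Yo ok (M.A ∩ B) s) (fun y => mem_Yo)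
    (fun x hx => by
      have e1 := h.dig.eta_floor h.G h.In h.Num s hx
      have e2 := h.Num.eta
      nlinarith)
    hC0.le hCη (ad := t.k ^ (11 / 256 : ℝ)) (de := 30 * t.k ^ (1 / 140 : ℝ)) (hpos _).le nD
    (by positivity) nE (l := t.k ^ (-15 / 32 : ℝ))
    (Real.one_le_rpow_of_pos_of_le_one_of_nonpos hk hk1' (by norm_num))
    ((Real.rpow_le_rpow_of_exponent_ge hk hk1' (by norm_num)).trans h.side)
    (nX := M.nr.card) le_rfl hnX0 h.dS0 h.dA0 hdia h.Bnr h.BX hform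
    (TT := (cT0 + 1) * t.k ^ (1 / 8 : ℝ)) x htau8
  refine h1.trans ((iotBB_le (ck := Cb) (cd := cd) hd hk hk1' h.Num.eta heta1 h.Num.kl hCb h.kkl
    hc1 hC1 hC1' hCb hcK h.Ki h.dA h.dS0 h.dS ?_ ?_ hcd0 hcA
    (by have := hpos (1 / 8); positivity) le_rfl hnX0 h.big).trans nI)
  · have e1 : t.k ^ (11 / 256 : ℝ) ≤ t.k ^ vi :=
      Real.rpow_le_rpow_of_exponent_ge hk hk1' (by linarith)
    have e2 := hpos vi
    nlinarith
  · have e1 : t.k ^ (1 / 140 : ℝ) ≤ t.k ^ vi :=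
      Real.rpow_le_rpow_of_exponent_ge hk hk1' (by linarith)
    have e2 := hpos vi
    nlinarith

end CoreIB

theorem stCB_ge (c1 C1 Cb Ck : ℝ) (hc1 : 0 < c1) (hC1 : 0 < C1) (hCb : 0 ≤ Cb) (hCk : 1 ≤ Ck) :
    1 ≤ Ck * (C1 + 2) + 1 + (1 + Cb) / c1 := by
  have h1 : 0 ≤ (1 + Cb) / c1 := by positivity
  have h2 : 0 ≤ Ck * (C1 + 2) := by positivity
  linarith

/-- **THE FROZEN STEP IN A GOOD MEDIUM, general laws, general family of weights** (`R`, `a K`, `z K`,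
functions of the configuration) -/
theorem frz_probB_w (hd : 3 ≤ d) {c1 C1 Cb Ck cK cA cT0 eL CM CB Ce vt vi Kp R0 KF : ℝ}
    (hc1 : 0 < c1) (hC1 : 0 < C1) (hCb : 0 ≤ Cb) (hCk : 1 ≤ Ck) (hcK : 0 < cK) (hcA : 0 ≤ cA)
    (hcT0 : 0 ≤ cT0) (heL : 0 ≤ eL) (heL1 : eL ≤ 1 / 4) (hCM : 0 ≤ CM) (hCB : 0 ≤ CB)
    (hCe : 0 ≤ Ce) (hvt : 0 < vt) (hvi : 3 * vt ≤ vi) (hvi1 : vi ≤ 1 / 150) (hKp : 0 < Kp)
    (hR0 : 2 ≤ R0) (hKF : 0 ≤ KF) :
    ∃ k0 : ℝ, 0 < k0 ∧ ∀ {L : ℕ} [NeZero L] {D : Type} [Fintype D] [DecidableEq D] {f : Fix}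
      {t : Tol d L} {M : Med (Tor d L)} {u : UTol} {g : ANS.Dig (Tor d L) D}
      {N B : Finset (Tor d L)} {ok : Tor d L → Option D → Prop} {c be : Tor d L → ℝ}
      {R : Finset ℕ} {a z : ℕ → (Tor d L → Option D) → Tor d L → ℝ}, f.c1 = c1 → f.C1 = C1 →
      t.k ≤ k0 → CoreIB f t M u g N B ok c be Cb Ck cK cA cT0 eL CM CB Ce vi →
      (∀ w, R0 * pk g.P ok w ≤ R0 - 1) →
      (R.card : ℝ) ≤ t.k ^ (-1 : ℝ) →
      (∀ s, (M.stp g).Ent M.nr 1 s → ∀ K ∈ R,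
        (∃ da, PB.WtAt g.P ok id ((M.stp g).eta s) (bo ok be s) s (250 * stCB f Cb Ck ^ 3) (a K)
          da) ∧
        ∃ dz, PB.WtAt g.P ok id ((M.stp g).eta s) (bo ok be s) s (250 * stCB f Cb Ck ^ 3) (z K)
          dz) →
      (∀ K ∈ R, ∀ x ∈ M.nr, ‖∑ y, M.G x y ^ 2 * (a K nil y : ℂ)‖ ≤
        ∑ y, ‖M.G x y‖ ^ 2 * z K nil y) →
      -- the far inert rows
      (∀ s, (∀ x ∈ Rows M B, ‖(M.stp g).G s x x - (M.stp g).G nil x x‖ ≤
          t.k ^ (11 / 256 : ℝ) / 2) → (M.stp g).Ent (Rows M B) (t.k ^ (9 / 256 : ℝ) / 2) s →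
        (∀ x ∈ M.nr, ‖(M.stp g).G s x x - (M.stp g).G nil x x‖ ≤ t.k ^ (11 / 256 : ℝ)) ∧
          (M.stp g).Ent M.nr (t.k ^ (9 / 256 : ℝ)) s) →
      (∀ s, (M.stp g).Ent M.nr (t.k ^ (9 / 256 : ℝ)) s →
        (∀ x ∈ Rows M B, (M.stp g).Tx (Yo ok (M.A ∩ B) s) s x ≤
          (M.stp g).Tx (M.A ∩ B) nil x + t.k ^ (-7 / 8 + vt) / 2) →
        ∀ x ∈ M.nr, (M.stp g).Tx (Yo ok (M.A ∩ B) s) s x ≤
          (M.stp g).Tx (M.A ∩ B) nil x + t.k ^ (-7 / 8 + vt)) →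
      -- the form component
      (∃ GF : (Tor d L → Option D) → ℝ, GF nil = 0 ∧ (∀ s, 0 ≤ GF s) ∧
        (∀ s, (∀ x ∈ M.nr, ‖(M.stp g).G s x x - (M.stp g).G nil x x‖ ≤ t.k ^ (11 / 256 : ℝ)) →
          (M.stp g).Ent M.nr (t.k ^ (9 / 256 : ℝ)) s → GF s ≤ 1 →
          (M.stp g).FormLe B (30 * t.k ^ (1 / 140 : ℝ)) s) ∧
        ∀ s, APB (M.stp g) ok M.nr (Rows M B) (M.A ∩ B) B (ftol ↥R vt t.k) (fun K : ↥R => a K)
          (fun K : ↥R => z K) s → GF s ≤ 1 →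
          CompB g.P ok GF s KF (KF * t.k ^ (Kp + 1)) (1 / 20)) →
      ANP.Pr g.P {ω | ¬ APB (M.stp g) ok M.nr (Rows M B) (M.A ∩ B) B (ftol ↥R vt t.k)
        (fun K : ↥R => a K) (fun K : ↥R => z K) (ANS.full ω)} ≤ t.k ^ Kp := by
  classical
  obtain ⟨C, hC⟩ : ∃ C, C = Ck * (C1 + 2) + 1 + (1 + Cb) / c1 := ⟨_, rfl⟩
  have hC1' : 1 ≤ C := by
    rw [hC]
    exact stCB_ge c1 C1 Cb Ck hc1 hC1 hCb hCk
  obtain ⟨cb, hcb⟩ : ∃ cb, cb = √Cb := ⟨_, rfl⟩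
  have hcb2 : cb ^ 2 = Cb := by
    rw [hcb]
    exact Real.sq_sqrt hCb
  have hcb0 : 0 ≤ cb := by
    rw [hcb]
    exact Real.sqrt_nonneg _
  obtain ⟨q0, hq0⟩ := numQB_ev C cb (cb ^ 2 * (cT0 + 1)) (cb ^ 2 * (cT0 + 1) + 1) (cT0 + 1) eL CM
    vt vi (Kp + 1) heL heL1 hCM hvt hvi (by linarith)
  have hCI : 0 ≤ CIx eL CB Ce := by
    unfold CIx
    linarith
  obtain ⟨q1, hq1⟩ := exists_m (g := 4 * (1 / 360)) (by norm_num) (2 * CIx eL CB Ce + 1 + 1)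
  obtain ⟨q2, hq2⟩ := exists_m (g := 4 * (vt / 10)) (by positivity) (CIx eL CB Ce + 1)
  obtain ⟨q, hq⟩ : ∃ q, q = max (max q0 1) (max q1 q2) := ⟨_, rfl⟩
  have hqa : q0 ≤ q := by
    rw [hq]
    exact (le_max_left _ _).trans (le_max_left _ _)
  have hqb : 1 ≤ q := by
    rw [hq]
    exact (le_max_right q0 1).trans (le_max_left _ _)
  have hqc : q1 ≤ q := by
    rw [hq]
    exact (le_max_left _ _).trans (le_max_right _ _)
  have hqd : q2 ≤ q := by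
    rw [hq]
    exact (le_max_right q1 q2).trans (le_max_right _ _)
  have evI : Ev (fun k => iotFB d c1 C1 C Cb Cb cK cA 30 (cT0 + 1) vi k ≤
      k ^ (1 / 8 + 15 / 16 * vi)) :=
    Ev.of_Pw (pw_iotFB d c1 C1 C Cb Cb cK cA 30 (cT0 + 1) vi (by linarith)) (by nlinarith)
  have evC : Ev (fun k => Cb * k ≤ 1) := Ev.le_of_mul Pw.var one_pos _ one_pos
  have evD : Ev (fun k => 2 * C * k ^ (11 / 256 : ℝ) ≤ 1) :=
    Ev.le_of_mul (Pw.rpow _) (by norm_num) _ one_pos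
  have evF : Ev (fun k => 30 * k ^ (1 / 140 : ℝ) ≤ 1 / 2) :=
    Ev.le_of_mul (Pw.rpow _) (by norm_num) _ (by norm_num)
  have evG : Ev (fun k => k ≤ 1 / 4) := Ev.le_const (by norm_num)
  have evE : Ev (fun k => 96 * R0 * ((4 + KF) * k ^ (Kp + 1)) *
      Real.exp (96 * R0 * KAllB q C KF) ≤ k ^ Kp) :=
    Ev.of_Pw ((((Pw.rpow (Kp + 1)).cmul (4 + KF)).cmul (96 * R0)).mulc _) (by linarith)
  obtain ⟨k0, hk0, hev⟩ := ((hq0 q hqa).and ((evI.and evC).and ((evD.and evE).and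
    (evF.and evG))))
  refine ⟨k0, hk0, ?_⟩
  intro L _ D _ _ f t M u g N B ok c be R a z hf1 hf2 htk h hpk hRc hWt hst hfar hfarT hForm
  have hk : 0 < t.k := h.k0
  obtain ⟨nQ, ⟨nI, nC⟩, ⟨nD, nE⟩, nF, nG⟩ := hev t.k hk htk
  have hk1 : t.k < 1 := nQ.k1
  have hpos : ∀ a : ℝ, 0 < t.k ^ a := fun a => Real.rpow_pos_of_pos hk a
  have hCs : stCB f Cb Ck = C := by
    unfold stCB
    rw [hf1, hf2, hC]
  have hC0 : 0 < C := by linarith
  have hnb0 : 0 ≤ nb0 cb t.k := mul_nonneg hcb0 (hpos _).le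
  have hOk : (M.stp g).OkB ok M.nr N c be (eBk M ok B t.k (CIx eL CB Ce)) C (t.k ^ (-eL)) := by
    rw [← hCs]
    refine h.okB nG heL hCB hCe ?_
    rw [hCs, ← hcb]
    have h1 := nQ.bsm
    have h3 : C ^ 2 ≤ C ^ 6 := pow_le_pow_right₀ hC1' (by norm_num)
    have h4 : 100 * C ^ 2 ≤ 500 * C ^ 6 := by nlinarith [pow_pos hC0 2]
    exact (mul_le_mul_of_nonneg_right h4 hnb0).trans h1
  -- weights
  obtain ⟨rho, hrho⟩ : ∃ rho : ↥R → ℝ, ∀ i, rho i = ((R.card : ℝ))⁻¹ := ⟨fun _ => _, fun _ => rfl⟩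
  have hrho1 : ∑ i, rho i ≤ 1 := by
    simp only [hrho]
    rw [Finset.sum_const, nsmul_eq_mul, Finset.card_univ, Fintype.card_coe]
    by_cases h0 : R.card = 0
    · simp [h0]
    · rw [mul_inv_cancel₀ (by exact_mod_cast h0)]
  have hrhok : ∀ i, t.k ≤ rho i := fun i => by
    have h0 : 0 < (R.card : ℝ) := by
      have : 0 < R.card := Finset.card_pos.2 ⟨i.1, i.2⟩
      exact_mod_cast this
    have h1 := hRc
    rw [Real.rpow_neg_one] at h1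
    rw [hrho, ← inv_inv t.k]
    exact inv_anti₀ h0 h1
  have hfn := fnumB_of (C := C) (cb := cb) (cT0 := cT0) (eL := eL) (CM := CM) (vt := vt) (vi := vi)
    (Kp := Kp + 1) (Ce := CIx eL CB Ce) (q := q) (k := t.k) hqb hk hvi hC1' hcb0 hcT0 hvt hCI
    (by have := hq1 q hqc; linarith) (by have := hq2 q hqd; linarith) nQ (L := ↥R)
    (Xr := Rows M B) (e := eBk M ok B t.k (CIx eL CB Ce)) (rho := rho)
    (fun x hx b => h.e_lo hk1.le heL hCB hx b) hrhok hrho1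
  obtain ⟨GF, hF0, hFn, hFu, hFc⟩ := hForm
  have hfin := frozenB hOk hR0 hpk (Rows_sub M B) h.N_rows
    (fun y hy => Finset.mem_inter.2 ⟨h.dig.NA hy, h.NB hy⟩)
    (fun y hy => mem_Rows.2 ⟨h.G.A_sub_nr (Finset.mem_inter.1 hy).1,
      fun _ => (Finset.mem_inter.1 hy).2⟩) hfn
    (fun w => by
      rw [hcb]
      exact h.be_le w) (h.Mc nC) h.T0
    (fun y hy => by
      rw [gok_eta_nil, ← hCs]
      exact h.Ceta y (Finset.mem_inter.1 hy).1)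
    (a := fun K : ↥R => a K) (z := fun K : ↥R => z K)
    (fun s hs K => by
      have := hWt s hs K K.2
      rw [hCs] at this
      exact this)
    (fun K x hx => by
      rw [stp_G_nil]
      exact hst K K.2 x (Rows_sub M B hx))
    hfar hfarT
    (fun s hs x => by
      refine h.II hd (cd := 30) (vt := vt) nG hcT0 hcK hcA le_rfl hvt hvi1 hCs.symm ?_ nD nF hOk
        (fun x hx y hy => (hs.ent x hx y hy).trans hfn.aO1) hs.dia hs.form x (hs.tau x x.2)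
      rw [hf1, hf2]
      exact nI)
    GF hF0 hFn hFu hFc hKF (mul_nonneg hKF (hpos _).le)
  refine hfin.trans ?_
  refine le_trans (le_of_eq ?_) nE
  ring

end Pool.Agent.AND
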