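import Pool.Agent.ANS.TopForm
import Pool.Agent.ANF.Glob.Comp

/-! # ANS TOP LOW (helper1): (H4low) at every configuration `s` of the step

* `frz_low_s`: `FormLe B de s` and `zt ≥ 0`: for `v` supported in `B`
  `(1-de) (Q(v-y) + ∑ y²/aw) ≤ qf s v` for some `y` supported on `N`;
* `low_at`: `DW t.D a + ∑_X (η_x(s) ι_x(nil)) (v-a)²/(1+dl) ≤ qf s v / (1-de)`. -/

open Matrix Finset

noncomputable section

namespace Pool.Agent.AND

open Pool.Agent.Kin Pool.Agent.APS Pool.Agent.ANL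

set_option linter.unusedSectionVars false

variable {d L : ℕ} [NeZero L] {D : Type} [Fintype D] {f : Fix} {t : Tol d L} {M : Med (Tor d L)}
  {u : UTol} {g : ANS.Dig (Tor d L) D} {N B : Finset (Tor d L)} {c be e : Tor d L → ℝ}
  {C Lm de : ℝ} {s : Tor d L → Option D}

theorem stp_eta_s_le (hG : Good f t M) (hI : t.In f M u) (hN : Num f t u)
    (hz : ∀ x d, 0 ≤ g.zt x d) {x : Tor d L} (hx : x ∈ M.nr) :
    (M.stp g).eta s x ≤ M.eta x := by
  have h1 : 0 < (M.G x x).im := hG.io_pos hI hN (mem_nr.1 hx)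
  unfold ANS.Stp.eta Med.eta ANS.Stp.bs
  cases hs : s x with
  | none => simp [ANS.Stp.inc, Med.stp]
  | some d =>
    have h2 := mul_nonneg (hz x d) h1.le
    have h3 : ((M.stp g).inc x (some d)).im = g.zt x d * (M.G x x).im := by
      unfold ANS.Stp.inc ANS.Stp.gt Med.stp Med.G
      simp
    have h4 : (M.stp g).b x = M.b x := rfl
    rw [Complex.add_im, h3, h4]
    linarith

theorem stp_aw_s (x : Tor d L) : (M.stp g).aw s x =
    1 / ((M.stp g).eta s x * (M.G x x).im) - 1 / (M.eta x * (M.G x x).im) := by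
  unfold ANS.Stp.aw
  rw [stp_eta_nil, stp_io_nil]

theorem aw_s_off (hOk : (M.stp g).Ok M.nr N c be e C Lm) {x : Tor d L} (hx : x ∉ N) :
    (M.stp g).aw s x = 0 := by
  have h1 : (M.stp g).eta s x = M.eta x := by
    rw [← stp_eta_nil (g := g)]
    unfold ANS.Stp.eta ANS.Stp.bs
    rw [hOk.inc_off hx, hOk.inc_off hx]
  rw [stp_aw_s, h1, sub_self]

theorem aw_s_nonneg (hG : Good f t M) (hI : t.In f M u) (hN : Num f t u)
    (hOk : (M.stp g).Ok M.nr N c be e C Lm) (hz : ∀ x d, 0 ≤ g.zt x d) (x : Tor d L) :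
    0 ≤ (M.stp g).aw s x := by
  by_cases hx : x ∈ M.nr
  · have h1 : 0 < (M.G x x).im := hG.io_pos hI hN (mem_nr.1 hx)
    have h2 : 0 < (M.stp g).eta s x := hOk.etaX' s hx
    have h3 := stp_eta_s_le (s := s) hG hI hN hz hx
    rw [stp_aw_s, sub_nonneg]
    exact one_div_le_one_div_of_le (mul_pos h2 h1) (mul_le_mul_of_nonneg_right h3 h1.le)
  · rw [aw_s_off hOk fun h => hx (hOk.NX h)]

theorem eta_s_of_aw (hG : Good f t M) (hI : t.In f M u) (hN : Num f t u)
    (hOk : (M.stp g).Ok M.nr N c be e C Lm) {x : Tor d L} (hx : x ∈ M.nr)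
    (h : (M.stp g).aw s x = 0) : (M.stp g).eta s x = M.eta x := by
  have h1 : 0 < (M.G x x).im := hG.io_pos hI hN (mem_nr.1 hx)
  have h2 : 0 < (M.stp g).eta s x := hOk.etaX' s hx
  have h3 : 0 < M.eta x := hG.eta_pos hI hN (mem_nr.1 hx)
  rw [stp_aw_s, sub_eq_zero, one_div, one_div, _root_.inv_inj] at h
  exact mul_right_cancel₀ h1.ne' h

/-- lower block bound at any configuration -/
theorem frz_low_s (hG : Good f t M) (hI : t.In f M u) (hN : Num f t u) (hK : 0 < u.Ki)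
    (hOk : (M.stp g).Ok M.nr N c be e C Lm) (hB : B ⊆ M.nr) (hBX : ∃ x ∈ M.nr, x ∉ B)
    (_hNB : N ⊆ B) (hz : ∀ x d, 0 ≤ g.zt x d)
    (hF : (M.stp g).FormLe B de s) {v : Tor d L → ℝ} (hv : ∀ x, x ∉ B → v x = 0) :
    ∃ y : Tor d L → ℝ, (∀ x, (M.stp g).aw s x = 0 → y x = 0) ∧ (∀ x, x ∉ N → y x = 0) ∧
      (1 - de) * (QF (H0T d L) M (fun x => v x - y x) +
        ∑ w ∈ M.nr, y w ^ 2 / (M.stp g).aw s w) ≤ (M.stp g).qf s v := by
  classical
  have hPD := QB_posDef (g := g) hG hI hN hK hB hBX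
  have ha0 : ∀ w : ↥B, 0 ≤ (M.stp g).aw s w := fun w => aw_s_nonneg hG hI hN hOk hz w
  obtain ⟨y, hy0, hy⟩ := par_min hPD ha0 (fun x : ↥B => v x)
  have hy1 : ∀ x, (M.stp g).aw s x = 0 → ext0 B y x = 0 := by
    intro x hx
    by_cases hxB : x ∈ B
    · have e1 := ext0_on B y ⟨x, hxB⟩
      rw [e1]
      exact hy0 ⟨x, hxB⟩ hx
    · exact ext0_off B y hxB
  refine ⟨ext0 B y, hy1, fun x hx => hy1 x (aw_s_off hOk hx), ?_⟩
  have h1 := (hF v hv).1
  have h2 : (M.stp g).rq B s v = QF (H0T d L) M (fun x => v x - ext0 B y x) +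
      ∑ w ∈ M.nr, ext0 B y w ^ 2 / (M.stp g).aw s w := by
    have e1 : (M.stp g).rq B s v = (fun x : ↥B => v x) ⬝ᵥ
        (((M.stp g).QB B ANS.nil)⁻¹ +
          diagonal (fun w : ↥B => (M.stp g).aw s w))⁻¹ *ᵥ (fun x : ↥B => v x) := rfl
    rw [e1, hy]
    congr 1
    · have e2 : ((fun x : ↥B => v x) - y) = fun x : ↥B => (v x - ext0 B y x) := by
        funext x
        rw [Pi.sub_apply, ext0_on]
      rw [e2]
      rw [QB_qf (M.stp g) ANS.nil B (v := fun x => v x - ext0 B y x) (fun x hx => by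
        rw [hv x hx, ext0_off B y hx]; ring), stp_qf_nil hG hI hN]
    · have e3 : ∑ w : ↥B, y w ^ 2 / (M.stp g).aw s w =
          ∑ w ∈ B, ext0 B y w ^ 2 / (M.stp g).aw s w := by
        rw [← Finset.sum_coe_sort B]
        exact Finset.sum_congr rfl fun w _ => by rw [ext0_on]
      rw [e3]
      refine Finset.sum_subset hB fun w _ hw => ?_
      rw [ext0_off B y hw]
      simp
  rw [h2] at h1
  exact h1

/-- (H4low) at the configuration `s` for functions supported in the block -/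
theorem low_at (hG : Good f t M) (hI : t.In f M u) (hN : Num f t u) (hK : 0 < u.Ki)
    (hOk : (M.stp g).Ok M.nr N c be e C Lm) (hB : B ⊆ M.nr) (hBX : ∃ x ∈ M.nr, x ∉ B)
    (hNB : N ⊆ B) (hz : ∀ x d, 0 ≤ g.zt x d) (hde : de < 1)
    (hF : (M.stp g).FormLe B de s) {v : Tor d L → ℝ} (hv : ∀ x, x ∉ B → v x = 0) :
    ∃ a : Tor d L → ℝ, DW t.D a + ∑ x ∈ M.nr,
      ((M.stp g).eta s x * (M.G x x).im) * (v x - a x) ^ 2 / (1 + t.dl x) ≤
        (M.stp g).qf s v / (1 - de) := by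
  obtain ⟨y, hy1, -, hy⟩ := frz_low_s hG hI hN hK hOk hB hBX hNB hz hF hv
  obtain ⟨a, ha⟩ := hG.h4l fun x => v x - y x
  refine ⟨a, ?_⟩
  rw [le_div_iff₀ (by linarith), mul_comm]
  refine le_trans (mul_le_mul_of_nonneg_left ?_ (by linarith)) hy
  have h1 : ∑ x ∈ M.nr, ((M.stp g).eta s x * (M.G x x).im) * (v x - a x) ^ 2 / (1 + t.dl x) ≤
      ∑ x ∈ M.nr, M.eta x * (rsc (H0T d L) M.b x x).im * (v x - y x - a x) ^ 2 / (1 + t.dl x) +
        ∑ w ∈ M.nr, y w ^ 2 / (M.stp g).aw s w := by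
    rw [← Finset.sum_add_distrib]
    refine Finset.sum_le_sum fun x hx => ?_
    have e1 : (M.G x x) = rsc (H0T d L) M.b x x := rfl
    have hio : 0 < (M.G x x).im := hG.io_pos hI hN (mem_nr.1 hx)
    have heta : 0 < M.eta x := hG.eta_pos hI hN (mem_nr.1 hx)
    have hes : 0 < (M.stp g).eta s x := hOk.etaX' s hx
    have hle := stp_eta_s_le (s := s) hG hI hN hz hx
    have hdl := hI.dl0 x
    rw [← e1]
    by_cases hw : (M.stp g).aw s x = 0
    · rw [eta_s_of_aw hG hI hN hOk hx hw, hy1 x hw, hw, div_zero, sub_zero, add_zero]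
    · have ha0 : 0 < (M.stp g).aw s x :=
        lt_of_le_of_ne (aw_s_nonneg hG hI hN hOk hz x) (Ne.symm hw)
      have hm : 0 < M.eta x * (M.G x x).im := mul_pos heta hio
      have hp := ANF.Glob.par (s := v x - a x) (y := y x) hm hdl ha0
      have e2 : v x - a x - y x = v x - y x - a x := by ring
      rw [e2] at hp
      refine le_trans ?_ hp
      have hmf : 0 < (M.stp g).eta s x * (M.G x x).im := mul_pos hes hio
      have hden : 0 < (1 + t.dl x) / (M.eta x * (M.G x x).im) + (M.stp g).aw s x := by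
        positivity
      rw [mul_comm, mul_div_assoc]
      rw [div_eq_mul_inv ((v x - a x) ^ 2)]
      refine mul_le_mul_of_nonneg_left ?_ (sq_nonneg _)
      rw [← one_div, div_le_div_iff₀ (by linarith) hden, stp_aw_s]
      have e3 : (M.stp g).eta s x * (M.G x x).im *
          ((1 + t.dl x) / (M.eta x * (M.G x x).im) +
            (1 / ((M.stp g).eta s x * (M.G x x).im) - 1 / (M.eta x * (M.G x x).im))) =
          1 + t.dl x * ((M.stp g).eta s x * (M.G x x).im / (M.eta x * (M.G x x).im)) := by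
        field_simp
        ring
      rw [e3, one_mul]
      have e4 : (M.stp g).eta s x * (M.G x x).im / (M.eta x * (M.G x x).im) ≤ 1 := by
        rw [div_le_one hm]
        exact mul_le_mul_of_nonneg_right hle hio.le
      have := mul_le_mul_of_nonneg_left e4 hdl
      linarith
  linarith

end Pool.Agent.AND
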