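import Pool.Agent.AND.Use
import Pool.Agent.ANS.TopDefs
import Pool.Agent.ANS.Dig
import Pool.Agent.ANF.Glob.Core

/-! # ANS TOP FORM (helper1): from `Frz.form` to inequalities between global forms

* `par_min`, `par_le'`: `v·(Q⁻¹ + diag a)⁻¹·v = min_y {(v-y)·Q·(v-y) + ∑ y²/a}`.
* `Med.fr`: the frozen medium after the reading, `QF` of it is `Stp.qf`.
* `frz_low`, `frz_up`: for `v` supported in the block `B`, with `a_w = aw (full ω) w`:
  `∃ y` supported on `N`, `(1-δ) (Q(v-y) + ∑_N y²/a) ≤ Qf(v)` and `Qf(v) ≤ (1+δ) Q(v)`. -/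

open Matrix Finset

noncomputable section

namespace Pool.Agent.AND

open Pool.Agent.Kin Pool.Agent.APS Pool.Agent.ANL

set_option linter.unusedSectionVars false

section par

variable {ι : Type} [Fintype ι] [DecidableEq ι]

theorem posDef_par {Q : Matrix ι ι ℝ} (hQ : Q.PosDef) {a : ι → ℝ} (ha : ∀ w, 0 ≤ a w) :
    (Q⁻¹ + diagonal a).PosDef :=
  hQ.inv.add_posSemidef (Matrix.PosSemidef.diagonal ha)

theorem sym_dot {Q : Matrix ι ι ℝ} (hQ : Q.PosDef) (x y : ι → ℝ) :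
    x ⬝ᵥ Q *ᵥ y = y ⬝ᵥ Q *ᵥ x := by
  have h := hQ.isHermitian.eq
  rw [conjTranspose_eq_transpose_of_trivial] at h
  rw [dotProduct_mulVec, ← mulVec_transpose, h, dotProduct_comm]

/-- the minimiser -/
theorem par_min {Q : Matrix ι ι ℝ} (hQ : Q.PosDef) {a : ι → ℝ} (ha : ∀ w, 0 ≤ a w)
    (v : ι → ℝ) : ∃ y : ι → ℝ, (∀ w, a w = 0 → y w = 0) ∧
      v ⬝ᵥ (Q⁻¹ + diagonal a)⁻¹ *ᵥ v = (v - y) ⬝ᵥ Q *ᵥ (v - y) + ∑ w, y w ^ 2 / a w := by
  set R := Q⁻¹ + diagonal a with hR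
  have hRp : R.PosDef := posDef_par hQ ha
  have hRu : IsUnit R.det := (hRp.det_pos.ne').isUnit
  have hQu : IsUnit Q.det := (hQ.det_pos.ne').isUnit
  set p := R⁻¹ *ᵥ v with hp
  have hv : v = R *ᵥ p := by
    rw [hp, mulVec_mulVec, mul_nonsing_inv _ hRu, one_mulVec]
  have hv2 : v = Q⁻¹ *ᵥ p + fun w => a w * p w := by
    rw [hv, hR, add_mulVec]
    congr 1
    funext w
    rw [mulVec_diagonal]
  refine ⟨fun w => a w * p w, fun w hw => by simp [hw], ?_⟩
  have e1 : (v - fun w => a w * p w) = Q⁻¹ *ᵥ p := by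
    conv_lhs => rw [hv2]
    simp
  rw [e1]
  have e2 : Q *ᵥ (Q⁻¹ *ᵥ p) = p := by
    rw [mulVec_mulVec, mul_nonsing_inv _ hQu, one_mulVec]
  rw [e2]
  have e3 : ∑ w, (a w * p w) ^ 2 / a w = (fun w => a w * p w) ⬝ᵥ p := by
    unfold dotProduct
    refine Finset.sum_congr rfl fun w _ => ?_
    by_cases hw : a w = 0
    · simp [hw]
    · field_simp
  rw [e3, ← add_dotProduct, ← hv2]

/-- minimality -/
theorem par_le' {Q : Matrix ι ι ℝ} (hQ : Q.PosDef) {a : ι → ℝ} (ha : ∀ w, 0 ≤ a w)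
    (v y : ι → ℝ) (hy : ∀ w, a w = 0 → y w = 0) :
      v ⬝ᵥ (Q⁻¹ + diagonal a)⁻¹ *ᵥ v ≤ (v - y) ⬝ᵥ Q *ᵥ (v - y) + ∑ w, y w ^ 2 / a w := by
  set R := Q⁻¹ + diagonal a with hR
  have hRp : R.PosDef := posDef_par hQ ha
  have hRu : IsUnit R.det := (hRp.det_pos.ne').isUnit
  have hQu : IsUnit Q.det := (hQ.det_pos.ne').isUnit
  set p := R⁻¹ *ᵥ v with hp
  have hv : v = R *ᵥ p := by
    rw [hp, mulVec_mulVec, mul_nonsing_inv _ hRu, one_mulVec]
  have hv2 : v = Q⁻¹ *ᵥ p + fun w => a w * p w := by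
    rw [hv, hR, add_mulVec]
    congr 1
    funext w
    rw [mulVec_diagonal]
  set e : ι → ℝ := fun w => y w - a w * p w with he
  have hea : ∀ w, a w = 0 → e w = 0 := fun w hw => by simp [he, hw, hy w hw]
  have e1 : v - y = Q⁻¹ *ᵥ p - e := by
    have h1 : y = e + fun w => a w * p w := by
      funext w; simp [he]
    conv_lhs => rw [hv2, h1]
    funext w
    simp only [Pi.sub_apply, Pi.add_apply]
    ring
  have e2 : Q *ᵥ (Q⁻¹ *ᵥ p) = p := by
    rw [mulVec_mulVec, mul_nonsing_inv _ hQu, one_mulVec]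
  have e3 : (v - y) ⬝ᵥ Q *ᵥ (v - y) = (Q⁻¹ *ᵥ p) ⬝ᵥ p - 2 * (e ⬝ᵥ p) + e ⬝ᵥ Q *ᵥ e := by
    rw [e1, mulVec_sub, e2, sub_dotProduct, dotProduct_sub, dotProduct_sub,
      sym_dot hQ (Q⁻¹ *ᵥ p) e, e2]
    ring
  have e4 : ∑ w, y w ^ 2 / a w = (fun w => a w * p w) ⬝ᵥ p + 2 * (e ⬝ᵥ p) +
      ∑ w, e w ^ 2 / a w := by
    unfold dotProduct
    rw [Finset.mul_sum, ← Finset.sum_add_distrib, ← Finset.sum_add_distrib]
    refine Finset.sum_congr rfl fun w _ => ?_
    by_cases hw : a w = 0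
    · simp [hw, hea w hw]
    · simp only [he]
      field_simp
      ring
  have e5 : v ⬝ᵥ R⁻¹ *ᵥ v = (Q⁻¹ *ᵥ p) ⬝ᵥ p + (fun w => a w * p w) ⬝ᵥ p := by
    rw [← hp, ← add_dotProduct, ← hv2]
  have e6 : 0 ≤ e ⬝ᵥ Q *ᵥ e := by
    have := hQ.posSemidef.dotProduct_mulVec_nonneg e
    simpa using this
  have e7 : 0 ≤ ∑ w, e w ^ 2 / a w := Finset.sum_nonneg fun w _ =>
    div_nonneg (sq_nonneg _) (ha w)
  rw [e3, e4, e5]
  linarith

end par

section form

variable {T D : Type} [Fintype T] [DecidableEq T]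

/-- the form of the library `St` is `QF` -/
theorem qf_eq (P : ANS.Stp T D) (s : T → Option D) (M1 : Med T) (hb : P.bs s = M1.b)
    (h : Adm P.H M1.b) (hU : ∀ x ∈ M1.U, M1.eta x = 0) (v : T → ℝ) :
    P.qf s v = QF P.H M1 v := by
  rw [QF_eq h hU]
  have he : ∀ x, P.eta s x = M1.eta x := fun x => by
    unfold ANS.Stp.eta Med.eta; rw [hb]
  have hG : P.G s = rsc P.H M1.b := by unfold ANS.Stp.G; rw [hb]
  have h0 : ∀ x, x ∉ M1.nr → M1.eta x = 0 := fun x hx => hU x (by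
    by_contra h2; exact hx (Finset.mem_compl.2 h2))
  unfold ANS.Stp.qf ANS.Stp.Qm ANS.Stp.io ANS.Stp.S
  simp only [he, hG]
  have e1 : ∀ x y, v x * ((if x = y then M1.eta x * (rsc P.H M1.b x x).im else 0) -
      M1.eta x * ‖rsc P.H M1.b x y‖ ^ 2 * M1.eta y) * v y =
      (if x = y then M1.eta x * (rsc P.H M1.b x x).im * v x * v y else 0) -
      M1.eta x * ‖rsc P.H M1.b x y‖ ^ 2 * M1.eta y * v x * v y := by
    intro x y
    split_ifs <;> ring
  simp only [e1, Finset.sum_sub_distrib, Finset.sum_ite_eq, Finset.mem_univ, if_true]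
  congr 1
  · symm
    rw [← Finset.sum_subset (Finset.subset_univ M1.nr) fun x _ hx => by rw [h0 x hx]; ring]
    exact Finset.sum_congr rfl fun x _ => by ring
  · symm
    rw [← Finset.sum_subset (Finset.subset_univ M1.nr) fun x _ hx => ?_]
    · refine Finset.sum_congr rfl fun x _ => ?_
      exact Finset.sum_subset (Finset.subset_univ M1.nr) fun y _ hy => by rw [h0 y hy]; ring
    · refine Finset.sum_eq_zero fun y _ => ?_
      rw [h0 x hx]; ring

/-- extension by zero -/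
def ext0 (B : Finset T) (v : ↥B → ℝ) (x : T) : ℝ := if h : x ∈ B then v ⟨x, h⟩ else 0

theorem ext0_off (B : Finset T) (v : ↥B → ℝ) {x : T} (hx : x ∉ B) : ext0 B v x = 0 := by
  simp [ext0, hx]

theorem ext0_on (B : Finset T) (v : ↥B → ℝ) (x : ↥B) : ext0 B v x = v x := by
  simp [ext0]

theorem ext0_res (B : Finset T) {v : T → ℝ} (hv : ∀ x, x ∉ B → v x = 0) :
    ext0 B (fun x : ↥B => v x) = v := by
  funext x
  by_cases hx : x ∈ B
  · simp [ext0, hx]
  · simp [ext0, hx, hv x hx]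

theorem QB_dot (P : ANS.Stp T D) (s : T → Option D) (B : Finset T) (v w : ↥B → ℝ) :
    v ⬝ᵥ P.QB B s *ᵥ w = ∑ x, ∑ y, ext0 B v x * P.Qm s x y * ext0 B w y := by
  have h1 : ∀ f : T → ℝ, (∀ x, x ∉ B → f x = 0) → ∑ x, f x = ∑ x : ↥B, f x := by
    intro f hf
    rw [Finset.sum_coe_sort B f]
    symm
    exact Finset.sum_subset (Finset.subset_univ B) fun x _ hx => hf x hx
  rw [h1 (fun x => ∑ y, ext0 B v x * P.Qm s x y * ext0 B w y) fun x hx => by
    simp [ext0_off B v hx]]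
  unfold dotProduct
  refine Finset.sum_congr rfl fun x _ => ?_
  rw [h1 (fun y => ext0 B v x * P.Qm s x y * ext0 B w y) fun y hy => by
    simp [ext0_off B w hy]]
  unfold mulVec dotProduct
  rw [Finset.mul_sum]
  refine Finset.sum_congr rfl fun y _ => ?_
  rw [ext0_on, ext0_on]
  unfold ANS.Stp.QB
  simp only [Matrix.submatrix_apply]
  ring

theorem QB_qf (P : ANS.Stp T D) (s : T → Option D) (B : Finset T) {v : T → ℝ}
    (hv : ∀ x, x ∉ B → v x = 0) :
    (fun x : ↥B => v x) ⬝ᵥ P.QB B s *ᵥ (fun x : ↥B => v x) = P.qf s v := by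
  rw [QB_dot, ext0_res B hv]
  rfl

end form

section good

/-- a function on the torus with zero gradient is constant -/
theorem const_of_step {d L : ℕ} [NeZero L] {a : Tor d L → ℝ}
    (h : ∀ (i : Fin d) (x : Tor d L), a (x + Pi.single i 1) = a x) (x y : Tor d L) :
    a y = a x := by
  let S : AddSubmonoid (Tor d L) :=
    { carrier := {z | ∀ x, a (x + z) = a x}
      zero_mem' := fun x => by simp
      add_mem' := fun {p q} hp hq x => by
        rw [← add_assoc, hq, hp] }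
  have h1 : ∀ i : Fin d, (Pi.single i 1 : Tor d L) ∈ S := fun i x => h i x
  have h2 : ∀ z : Tor d L, z ∈ S := by
    intro z
    have e1 : z = ∑ i, (z i).val • (Pi.single i 1 : Tor d L) := by
      funext j
      rw [Finset.sum_apply]
      rw [Finset.sum_eq_single j]
      · rw [Pi.smul_apply, Pi.single_eq_same]
        simp
      · intro i _ hij
        rw [Pi.smul_apply, Pi.single_eq_of_ne (Ne.symm hij)]
        simp
      · intro hj; exact absurd (Finset.mem_univ j) hj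
    rw [e1]
    exact AddSubmonoid.sum_mem S fun i _ => AddSubmonoid.nsmul_mem S (h1 i) _
  have h3 := h2 (y - x) x
  rw [add_sub_cancel] at h3
  exact h3

variable {d L : ℕ} [NeZero L] {D : Type} [Fintype D] {f : Fix} {t : Tol d L} {M : Med (Tor d L)}
  {u : UTol} {g : ANS.Dig (Tor d L) D}

/-- the frozen medium after the reading -/
def Med.fr (M : Med (Tor d L)) (g : ANS.Dig (Tor d L) D) (ω : Tor d L → D) : Med (Tor d L) :=
  { M with k := M.kf g ω, b := M.bf g ω }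

theorem stp_qf_nil (hG : Good f t M) (hI : t.In f M u) (hN : Num f t u) (v : Tor d L → ℝ) :
    (M.stp g).qf ANS.nil v = QF (H0T d L) M v :=
  qf_eq (M.stp g) ANS.nil M (stp_bs_nil M g) (hG.admN hI hN) hG.eU v

/-- the principal submatrix of the form of a good medium is positive definite -/
theorem QB_posDef (hG : Good f t M) (hI : t.In f M u) (hN : Num f t u) (hK : 0 < u.Ki)
    {B : Finset (Tor d L)} (hB : B ⊆ M.nr) (hBX : ∃ x ∈ M.nr, x ∉ B) :
    ((M.stp g).QB B ANS.nil).PosDef := by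
  have hsym : ∀ x y, (M.stp g).Qm ANS.nil x y = (M.stp g).Qm ANS.nil y x := by
    intro x y
    unfold ANS.Stp.Qm ANS.Stp.S
    rw [stp_G_nil]
    have e1 : M.G x y = M.G y x := hG.symm hI hN x y
    rw [e1]
    by_cases hxy : x = y
    · subst hxy; rfl
    · rw [if_neg hxy, if_neg (Ne.symm hxy)]; ring
  refine Matrix.PosDef.of_dotProduct_mulVec_pos ?_ fun v hv => ?_
  · ext x y
    rw [conjTranspose_apply, star_trivial]
    exact hsym _ _
  · have h1 : star v ⬝ᵥ (M.stp g).QB B ANS.nil *ᵥ v = QF (H0T d L) M (ext0 B v) := by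
      rw [← stp_qf_nil (g := g) hG hI hN, star_trivial, QB_dot]
      rfl
    rw [h1]
    have h0 := hG.QF_nonneg hI hN (ext0 B v)
    rcases h0.lt_or_eq with h | h
    · exact h
    exfalso
    obtain ⟨a, ha⟩ := hG.h4l (ext0 B v)
    rw [← h] at ha
    have hS0 : ∀ x ∈ M.nr, 0 ≤ M.eta x * (rsc (H0T d L) M.b x x).im * (ext0 B v x - a x) ^ 2 /
        (1 + t.dl x) := fun x hx => by
      have e1 := hG.eta_nonneg hI hN x
      have e2 := (hG.io_pos hI hN (mem_nr.1 hx)).le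
      have e3 := hI.dl0 x
      positivity
    have hS := Finset.sum_nonneg hS0
    have hD : 0 ≤ DW t.D a := by
      unfold DW
      refine Finset.sum_nonneg fun i _ => Finset.sum_nonneg fun x _ => ?_
      exact mul_nonneg (hK.le.trans (hI.D i x)) (sq_nonneg _)
    have hS' : ∑ x ∈ M.nr, M.eta x * (rsc (H0T d L) M.b x x).im * (ext0 B v x - a x) ^ 2 /
        (1 + t.dl x) = 0 := le_antisymm (by linarith) hS
    have hD' : DW t.D a = 0 := le_antisymm (by linarith) hD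
    have ea : ∀ x ∈ M.nr, ext0 B v x = a x := by
      intro x hx
      have e0 := (Finset.sum_eq_zero_iff_of_nonneg hS0).1 hS' x hx
      have e1 := hG.eta_pos hI hN (mem_nr.1 hx)
      have e2 := hG.io_pos hI hN (mem_nr.1 hx)
      have e3 := hI.dl0 x
      rw [div_eq_zero_iff] at e0
      rcases e0 with e0 | e0
      · rcases mul_eq_zero.1 e0 with e4 | e4
        · exact absurd e4 (mul_pos e1 e2).ne'
        · have := pow_eq_zero_iff (two_ne_zero) |>.1 e4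
          linarith
      · linarith
    have eb : ∀ (i : Fin d) (x : Tor d L), a (x + Pi.single i 1) = a x := by
      intro i x
      have e1 : ∀ i' ∈ (Finset.univ : Finset (Fin d)),
          0 ≤ ∑ x : Tor d L, t.D i' x * (a (x + Pi.single i' 1) - a x) ^ 2 := fun i' _ =>
        Finset.sum_nonneg fun x _ => mul_nonneg (hK.le.trans (hI.D i' x)) (sq_nonneg _)
      have e2 := (Finset.sum_eq_zero_iff_of_nonneg e1).1 hD' i (Finset.mem_univ _)
      have e3 : ∀ x' ∈ (Finset.univ : Finset (Tor d L)),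
          0 ≤ t.D i x' * (a (x' + Pi.single i 1) - a x') ^ 2 := fun x' _ =>
        mul_nonneg (hK.le.trans (hI.D i x')) (sq_nonneg _)
      have e4 := (Finset.sum_eq_zero_iff_of_nonneg e3).1 e2 x (Finset.mem_univ _)
      rcases mul_eq_zero.1 e4 with e5 | e5
      · exact absurd e5 (hK.trans_le (hI.D i x)).ne'
      · have := pow_eq_zero_iff (two_ne_zero) |>.1 e5
        linarith
    obtain ⟨x0, hx0, hx0B⟩ := hBX
    have ec : ∀ x ∈ M.nr, ext0 B v x = 0 := by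
      intro x hx
      rw [ea x hx, const_of_step eb x0 x, ← ea x0 hx0, ext0_off B v hx0B]
    apply hv
    funext x
    have e1 := ext0_on B v x
    rw [← e1]
    exact ec x (hB x.2)

variable {N B : Finset (Tor d L)} {c be e : Tor d L → ℝ} {C Lm de : ℝ} {ω : Tor d L → D}

theorem fr_eta (g : ANS.Dig (Tor d L) D) (ω : Tor d L → D) (x : Tor d L) :
    (M.fr g ω).eta x = (M.stp g).eta (ANS.full ω) x := rfl

theorem fr_adm (hOk : (M.stp g).Ok M.nr N c be e C Lm) (ω : Tor d L → D) :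
    Adm (H0T d L) (M.fr g ω).b := hOk.adms (ANS.full ω)

theorem fr_etaU (hOk : (M.stp g).Ok M.nr N c be e C Lm) (ω : Tor d L → D) {x : Tor d L}
    (hx : x ∈ M.U) : (M.fr g ω).eta x = 0 :=
  hOk.etaU' (ANS.full ω) (fun h => (mem_nr.1 h) hx)

theorem stp_qf_fr (hOk : (M.stp g).Ok M.nr N c be e C Lm) (v : Tor d L → ℝ) :
    (M.stp g).qf (ANS.full ω) v = QF (H0T d L) (M.fr g ω) v :=
  qf_eq (M.stp g) (ANS.full ω) (M.fr g ω) rfl (fr_adm hOk ω) (fun _ hx => fr_etaU hOk ω hx) v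

theorem stp_eta_nil (x : Tor d L) : (M.stp g).eta ANS.nil x = M.eta x := by
  unfold ANS.Stp.eta Med.eta
  rw [stp_bs_nil]

theorem stp_io_nil (x : Tor d L) : (M.stp g).io ANS.nil x = (M.G x x).im := by
  unfold ANS.Stp.io
  rw [stp_G_nil]

/-- `aw = 1/m'_w - 1/m_w`, `m'_w = η'_w ι_w` with the old `ι` -/
theorem stp_aw (ω : Tor d L → D) (x : Tor d L) : (M.stp g).aw (ANS.full ω) x =
    1 / ((M.fr g ω).eta x * (M.G x x).im) - 1 / (M.eta x * (M.G x x).im) := by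
  unfold ANS.Stp.aw
  rw [stp_eta_nil, stp_io_nil]
  rfl

theorem fr_eta_eq (g : ANS.Dig (Tor d L) D) (ω : Tor d L → D) (x : Tor d L) :
    (M.fr g ω).eta x = M.eta x - g.zt x (ω x) * (M.G x x).im := by
  unfold Med.eta Med.fr Med.bf
  simp
  ring

theorem aw_off (hOk : (M.stp g).Ok M.nr N c be e C Lm) {x : Tor d L} (hx : x ∉ N) :
    (M.stp g).aw (ANS.full ω) x = 0 := by
  have h1 := hOk.dig.zt_le x (ω x)
  rw [hOk.beN x hx] at h1
  have h2 : g.zt x (ω x) = 0 := abs_nonpos_iff.1 (h1.trans (by norm_num))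
  rw [stp_aw, fr_eta_eq, h2]
  simp

theorem aw_pos (hG : Good f t M) (hI : t.In f M u) (hN : Num f t u)
    (hOk : (M.stp g).Ok M.nr N c be e C Lm) {x : Tor d L} (hx : x ∈ N)
    (hz : 0 < g.zt x (ω x)) : 0 < (M.stp g).aw (ANS.full ω) x := by
  have hxU := mem_nr.1 (hOk.NX hx)
  have h1 : 0 < (M.G x x).im := hG.io_pos hI hN hxU
  have h2 : 0 < (M.fr g ω).eta x := hOk.etaX' (ANS.full ω) (hOk.NX hx)
  have h3 := fr_eta_eq (M := M) g ω x
  rw [stp_aw, sub_pos]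
  refine one_div_lt_one_div_of_lt (mul_pos h2 h1) ?_
  refine mul_lt_mul_of_pos_right ?_ h1
  rw [h3]
  have := mul_pos hz h1
  linarith

theorem aw_nonneg (hG : Good f t M) (hI : t.In f M u) (hN : Num f t u)
    (hOk : (M.stp g).Ok M.nr N c be e C Lm) (hz : ∀ x ∈ N, 0 < g.zt x (ω x)) (x : Tor d L) :
    0 ≤ (M.stp g).aw (ANS.full ω) x := by
  by_cases hx : x ∈ N
  · exact (aw_pos hG hI hN hOk hx (hz x hx)).le
  · exact (aw_off hOk hx).ge

/-- lower block bound of the frozen form -/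
theorem frz_low (hG : Good f t M) (hI : t.In f M u) (hN : Num f t u) (hK : 0 < u.Ki)
    (hOk : (M.stp g).Ok M.nr N c be e C Lm) (hB : B ⊆ M.nr) (hBX : ∃ x ∈ M.nr, x ∉ B)
    (hNB : N ⊆ B) (hz : ∀ x ∈ N, 0 < g.zt x (ω x))
    (hF : (M.stp g).FormLe B de (ANS.full ω)) {v : Tor d L → ℝ}
    (hv : ∀ x ∈ M.nr, x ∉ B → v x = 0) :
    ∃ y : Tor d L → ℝ, (∀ x, x ∉ N → y x = 0) ∧
      (1 - de) * (QF (H0T d L) M (fun x => v x - y x) +
        ∑ w ∈ N, y w ^ 2 / (M.stp g).aw (ANS.full ω) w) ≤ QF (H0T d L) (M.fr g ω) v := by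
  classical
  set v1 : Tor d L → ℝ := fun x => if x ∈ B then v x else 0 with hv1
  have hv1B : ∀ x, x ∉ B → v1 x = 0 := fun x hx => by simp [hv1, hx]
  have hv1e : ∀ x ∈ M.nr, v1 x = v x := by
    intro x hx
    by_cases hxB : x ∈ B
    · simp [hv1, hxB]
    · rw [hv1B x hxB, hv x hx hxB]
  have hPD := QB_posDef (g := g) hG hI hN hK hB hBX
  have ha0 : ∀ w : ↥B, 0 ≤ (M.stp g).aw (ANS.full ω) w := fun w =>
    aw_nonneg hG hI hN hOk hz w
  obtain ⟨y, hy0, hy⟩ := par_min hPD ha0 (fun x : ↥B => v1 x)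
  refine ⟨ext0 B y, ?_, ?_⟩
  · intro x hx
    by_cases hxB : x ∈ B
    · have e1 := ext0_on B y ⟨x, hxB⟩
      rw [e1]
      exact hy0 ⟨x, hxB⟩ (aw_off hOk hx)
    · exact ext0_off B y hxB
  · have h1 := (hF v1 hv1B).1
    have h2 : (M.stp g).rq B (ANS.full ω) v1 = QF (H0T d L) M (fun x => v x - ext0 B y x) +
        ∑ w ∈ N, ext0 B y w ^ 2 / (M.stp g).aw (ANS.full ω) w := by
      have e1 : (M.stp g).rq B (ANS.full ω) v1 = (fun x : ↥B => v1 x) ⬝ᵥ
          (((M.stp g).QB B ANS.nil)⁻¹ +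
            diagonal (fun w : ↥B => (M.stp g).aw (ANS.full ω) w))⁻¹ *ᵥ
            (fun x : ↥B => v1 x) := rfl
      rw [e1, hy]
      congr 1
      · have e2 : ((fun x : ↥B => v1 x) - y) = fun x : ↥B => (v1 x - ext0 B y x) := by
          funext x
          rw [Pi.sub_apply, ext0_on]
        rw [e2]
        rw [QB_qf (M.stp g) ANS.nil B (v := fun x => v1 x - ext0 B y x) (fun x hx => by
          rw [hv1B x hx, ext0_off B y hx]; ring), stp_qf_nil hG hI hN]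
        exact QF_congr fun x hx => by rw [hv1e x hx]
      · have e3 : ∑ w : ↥B, y w ^ 2 / (M.stp g).aw (ANS.full ω) w =
            ∑ w ∈ B, ext0 B y w ^ 2 / (M.stp g).aw (ANS.full ω) w := by
          rw [← Finset.sum_coe_sort B]
          exact Finset.sum_congr rfl fun w _ => by rw [ext0_on]
        rw [e3]
        symm
        refine Finset.sum_subset hNB fun w _ hw => ?_
        rw [aw_off hOk hw, div_zero]
    rw [h2, stp_qf_fr hOk] at h1
    refine h1.trans (le_of_eq ?_)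
    exact QF_congr (M := M.fr g ω) fun x hx => hv1e x hx

/-- upper block bound of the frozen form -/
theorem frz_up (hG : Good f t M) (hI : t.In f M u) (hN : Num f t u) (hK : 0 < u.Ki)
    (hOk : (M.stp g).Ok M.nr N c be e C Lm) (hB : B ⊆ M.nr) (hBX : ∃ x ∈ M.nr, x ∉ B)
    (hz : ∀ x ∈ N, 0 < g.zt x (ω x)) (hde : 0 ≤ de)
    (hF : (M.stp g).FormLe B de (ANS.full ω)) {v : Tor d L → ℝ}
    (hv : ∀ x ∈ M.nr, x ∉ B → v x = 0) :
    QF (H0T d L) (M.fr g ω) v ≤ (1 + de) * QF (H0T d L) M v := by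
  classical
  set v1 : Tor d L → ℝ := fun x => if x ∈ B then v x else 0 with hv1
  have hv1B : ∀ x, x ∉ B → v1 x = 0 := fun x hx => by simp [hv1, hx]
  have hv1e : ∀ x ∈ M.nr, v1 x = v x := by
    intro x hx
    by_cases hxB : x ∈ B
    · simp [hv1, hxB]
    · rw [hv1B x hxB, hv x hx hxB]
  have hPD := QB_posDef (g := g) hG hI hN hK hB hBX
  have ha0 : ∀ w : ↥B, 0 ≤ (M.stp g).aw (ANS.full ω) w := fun w =>
    aw_nonneg hG hI hN hOk hz w
  have h1 := (hF v1 hv1B).2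
  have h2 : (M.stp g).rq B (ANS.full ω) v1 ≤ QF (H0T d L) M v := by
    have e1 := par_le' hPD ha0 (fun x : ↥B => v1 x) 0 (fun _ _ => rfl)
    rw [sub_zero] at e1
    simp only [Pi.zero_apply, ne_eq, OfNat.ofNat_ne_zero, not_false_eq_true, zero_pow, zero_div,
      Finset.sum_const_zero, add_zero] at e1
    rw [QB_qf (M.stp g) ANS.nil B hv1B, stp_qf_nil hG hI hN] at e1
    refine le_trans e1 (le_of_eq ?_)
    exact QF_congr fun x hx => hv1e x hx
  rw [stp_qf_fr hOk] at h1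
  have h3 : QF (H0T d L) (M.fr g ω) v = QF (H0T d L) (M.fr g ω) v1 :=
    (QF_congr (M := M.fr g ω) fun x hx => (hv1e x hx)).symm
  rw [h3]
  exact h1.trans (mul_le_mul_of_nonneg_left h2 (by linarith))

/-- the kernel `η S η` of a medium -/
def Med.ker (M : Med (Tor d L)) (x y : Tor d L) : ℝ := M.eta x * ‖M.G x y‖ ^ 2 * M.eta y

theorem QF_JF (M : Med (Tor d L)) (v : Tor d L → ℝ) :
    QF (H0T d L) M v = ANF.Glob.JF M.nr M.ker v := rfl

/-- lower block bound for the next medium, in the shape `Cell.low` of helper60 -/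
theorem nxt_low (hG : Good f t M) (hI : t.In f M u) (hN : Num f t u) (hK : 0 < u.Ki)
    (hOk : (M.stp g).Ok M.nr N c be e C Lm) (hB : B ⊆ M.nr) (hBX : ∃ x ∈ M.nr, x ∉ B)
    (hNB : N ⊆ B) (hz : ∀ x ∈ N, 0 < g.zt x (ω x))
    (hF : (M.stp g).FormLe B de (ANS.full ω)) {M' : Med (Tor d L)} {ρ : ℝ} (hU : M'.U = M.U)
    (hde : 0 ≤ de) (_hde1 : de ≤ 1 / 4) (hρ : 0 ≤ ρ) (_hρ1 : ρ ≤ 1 / 4)
    (hlo : ∀ v, (1 - ρ) * QF (H0T d L) (M.fr g ω) v ≤ QF (H0T d L) M' v)
    (hup : ∀ v, QF (H0T d L) M' v ≤ (1 + ρ) * QF (H0T d L) (M.fr g ω) v)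
    {v : Tor d L → ℝ} (hv : ∀ x ∈ M.nr, x ∉ B → v x = 0) :
    ∃ y : Tor d L → ℝ, (∀ x, x ∉ N → y x = 0) ∧
      ANF.Glob.JF M.nr M.ker (fun x => v x - y x) +
        ∑ w ∈ N, y w ^ 2 / (M.stp g).aw (ANS.full ω) w ≤
        ANF.Glob.JF M.nr M'.ker v + 4 * (de + ρ) * ANF.Glob.JF M.nr M.ker v := by
  obtain ⟨y, hy0, hy⟩ := frz_low hG hI hN hK hOk hB hBX hNB hz hF hv
  refine ⟨y, hy0, ?_⟩
  have hnr : M'.nr = M.nr := by unfold Med.nr; rw [hU]
  have e1 : ANF.Glob.JF M.nr M'.ker v = QF (H0T d L) M' v := by rw [QF_JF, hnr]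
  rw [e1, ← QF_JF, ← QF_JF]
  have h1 := hlo v
  have h2 := hup v
  have h3 := frz_up hG hI hN hK hOk hB hBX hz hde hF hv
  set W := QF (H0T d L) M (fun x => v x - y x) +
        ∑ w ∈ N, y w ^ 2 / (M.stp g).aw (ANS.full ω) w with hW
  set Qf := QF (H0T d L) (M.fr g ω) v
  set Q := QF (H0T d L) M v
  set Q' := QF (H0T d L) M' v
  have hQ0 : 0 ≤ Q := hG.QF_nonneg hI hN v
  have hW0 : 0 ≤ W := by
    have := hG.QF_nonneg hI hN (fun x => v x - y x)
    have h5 : 0 ≤ ∑ w ∈ N, y w ^ 2 / (M.stp g).aw (ANS.full ω) w :=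
      Finset.sum_nonneg fun w _ => div_nonneg (sq_nonneg _) (aw_nonneg hG hI hN hOk hz w)
    linarith
  have hWf : W ≤ Qf + de * W := by linarith
  -- `W ≤ (1+de)/(1-de) Q`
  have hfQ : Qf ≤ (1 + de) * Q := h3
  have hWQ : W ≤ 2 * Q := by nlinarith
  have hQf : Qf ≤ Q' + ρ * Qf := by linarith
  nlinarith [mul_nonneg hde hQ0, mul_nonneg hρ hQ0]

/-- upper block bound for the next medium, in the shape `Cell.up` of helper60 -/
theorem nxt_up (hG : Good f t M) (hI : t.In f M u) (hN : Num f t u) (hK : 0 < u.Ki)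
    (hOk : (M.stp g).Ok M.nr N c be e C Lm) (hB : B ⊆ M.nr) (hBX : ∃ x ∈ M.nr, x ∉ B)
    (hz : ∀ x ∈ N, 0 < g.zt x (ω x))
    (hF : (M.stp g).FormLe B de (ANS.full ω)) {M' : Med (Tor d L)} {ρ : ℝ} (hU : M'.U = M.U)
    (hde : 0 ≤ de) (_hde1 : de ≤ 1 / 4) (hρ : 0 ≤ ρ) (_hρ1 : ρ ≤ 1 / 4)
    (hup : ∀ v, QF (H0T d L) M' v ≤ (1 + ρ) * QF (H0T d L) (M.fr g ω) v)
    {v : Tor d L → ℝ} (hv : ∀ x ∈ M.nr, x ∉ B → v x = 0) :
    ANF.Glob.JF M.nr M'.ker v ≤ (1 + 4 * (de + ρ)) * ANF.Glob.JF M.nr M.ker v := by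
  have hnr : M'.nr = M.nr := by unfold Med.nr; rw [hU]
  have e1 : ANF.Glob.JF M.nr M'.ker v = QF (H0T d L) M' v := by rw [QF_JF, hnr]
  rw [e1, ← QF_JF]
  have h2 := hup v
  have h3 := frz_up hG hI hN hK hOk hB hBX hz hde hF hv
  have hQ0 : 0 ≤ QF (H0T d L) M v := hG.QF_nonneg hI hN v
  have h4 := mul_le_mul_of_nonneg_left h3 (by linarith : (0:ℝ) ≤ 1 + ρ)
  have h5 : (1 + ρ) * ((1 + de) * QF (H0T d L) M v) ≤
      (1 + 4 * (de + ρ)) * QF (H0T d L) M v := by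
    rw [← mul_assoc]
    refine mul_le_mul_of_nonneg_right ?_ hQ0
    nlinarith
  exact h2.trans (h4.trans h5)

end good

end Pool.Agent.AND
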