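import Pool.Agent.ANS.TopSM
import Pool.Agent.ANS.TopForm
import Pool.Agent.ANS.Form.FH

/-! # ANS TOP SMF: the smoothing hypothesis `SM` of the form component for a good medium (helper39)

`good_smooth` with `y = 0`, `q = 1`; `η ≤ C η ι` by `io1`. -/

set_option autoImplicit false

open Matrix Finset

noncomputable section

namespace Pool.Agent.AND

open Pool.Agent.Kin Pool.Agent.APS Pool.Agent.ANL Pool.Agent.ANS

variable {d L : ℕ} [NeZero L] {D : Type} [Fintype D] {f : Fix} {t : Tol d L}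
  {M : Med (Tor d L)} {u : UTol} {g : ANS.Dig (Tor d L) D}

theorem stp_SM (hd : 3 ≤ d) (hG : Good f t M) (hI : t.In f M u) (hN : Num f t u)
    (hK : 0 < u.Ki) {Ca mm l : ℝ} (hCa : 0 < Ca) (hdS : 0 ≤ u.dS) (hl : 1 ≤ l) (hlL : l ≤ L)
    (hmm : ∀ x ∈ M.nr, M.m x ≤ mm) (hmm0 : 0 ≤ mm) {N : Finset (Tor d L)}
    {c be e : Tor d L → ℝ} {C Lm : ℝ} (h : (M.stp g).Ok M.nr N c be e C Lm)
    (B : Finset (Tor d L)) :
    (M.stp g).SM M.nr B (ANF.Heat.CH d * ANF.Heat.rho d l * (1 / u.Ki))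
      (C * ((1 + u.dS + Ca) * (2 + 2 * ANF.Heat.CH d * l ^ 2 * (1 / u.Ki) * mm))) := by
  intro v _ hq
  rw [stp_qf_nil hG hI hN] at hq
  have hm0 : ∀ x ∈ M.nr, 0 ≤ M.m x := fun x hx =>
    mul_nonneg (hG.eta_nonneg hI hN x) (hG.io_pos hI hN (mem_nr.1 hx)).le
  obtain ⟨k, v1, w, h1, h2, h3⟩ := good_smooth hd hG hI hK hCa hdS hl hlL hm0 hmm hmm0 v
    (fun _ => 0) 1 (by simpa using hq)
  refine ⟨k, v1, w, fun x _ => h1 x, fun x _ => ?_, ?_⟩
  · simpa using h3 x
  · have hC0 : 0 ≤ C := by linarith [h.C1]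
    calc ∑ x ∈ M.nr, (M.stp g).eta ANS.nil x * w x ^ 2
        ≤ ∑ x ∈ M.nr, C * (M.m x * w x ^ 2) := by
          refine Finset.sum_le_sum fun x hx => ?_
          have e1 := h.io1 x hx
          have e2 : 0 ≤ (M.stp g).eta ANS.nil x := (h.etaX x hx).le
          have e3 : C * (M.m x * w x ^ 2) =
              (C * (M.stp g).io ANS.nil x) * ((M.stp g).eta ANS.nil x * w x ^ 2) := by
            rw [stp_eta_nil, stp_io_nil]
            unfold Med.m Med.G
            ring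
          rw [e3]
          have e4 : 0 ≤ (M.stp g).eta ANS.nil x * w x ^ 2 := mul_nonneg e2 (sq_nonneg _)
          nlinarith
      _ = C * ∑ x ∈ M.nr, M.m x * w x ^ 2 := by rw [Finset.mul_sum]
      _ ≤ C * ((1 + u.dS + Ca) * (2 + 2 * ANF.Heat.CH d * l ^ 2 * (1 / u.Ki) * mm)) := by
          refine mul_le_mul_of_nonneg_left ?_ hC0
          refine h2.trans (le_of_eq ?_)
          ring

end Pool.Agent.AND
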