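import Pool.Agent.ANS.CoreNum2
import Pool.Agent.ANS.TopLow
import Pool.Agent.ANS.TopSMF
import Pool.Agent.ANP.Prob

/-! # ANS TOP CORE: the probability of a bad frozen step in a good medium, Part A (AND project)

`frz_prob`: for `κ = t.k ≤ κ0`, every good medium, every cell: the frozen step fails (`¬ Frz`) with
probability at most `κ^Kp`.  Tolerances: entries `κ^(9/256)`, fourth moments `κ^(-7/8 + vt)`, (H3)
`2 U κ^(1/45)` (`U` normalises the weights: `8 a, 8 z ≤ U η`), form `30 κ^(1/140)`. -/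

set_option autoImplicit false

open Finset Function Matrix

noncomputable section

namespace Pool.Agent.AND

open Pool.Agent.Kin Pool.Agent.APS Pool.Agent.ANL Pool.Agent.ANS

variable {d L : ℕ} [NeZero L] {D : Type} [Fintype D]

/-- HYPOTHESES of `frz_prob_w` for one state and one cell (everything except the weights of (H3)) -/
structure CoreI (f : Fix) (t : Tol d L) (M : Med (Tor d L)) (u : UTol)
    (g : ANS.Dig (Tor d L) D) (N B : Finset (Tor d L)) (c be : Tor d L → ℝ)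
    (Cb cK cA cT0 eL CM CB Ce vi : ℝ) : Prop where
  G : Good f t M
  In : t.In f M u
  Num : Num f t u
  dig : CellDig t M g N c be Cb
  zt0 : ∀ w a, 0 ≤ g.zt w a
  kkl : t.k ≤ Cb * t.kl
  NB : N ⊆ B
  Bnr : B ⊆ M.nr
  BX : ∃ x ∈ M.nr, x ∉ B
  Ki : cK ≤ u.Ki
  dA0 : 0 ≤ u.dA
  dA : u.dA ≤ cA * t.k ^ vi
  dS0 : 0 ≤ u.dS
  dS : u.dS ≤ 1
  Lam : u.Lam ≤ t.k ^ (-eL)
  tau : u.tau ≤ cT0 * t.k ^ (-7 / 8 : ℝ)
  Nc : (N.card : ℝ) ≤ t.k ^ (-CM)
  Bc : (B.card : ℝ) ≤ t.k ^ (-CB)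
  eta : ∀ x ∈ M.nr, t.k ^ Ce ≤ M.eta x
  big : t.k ^ (-3 : ℝ) ≤ M.nr.card * t.eta
  side : t.k ^ (-1 : ℝ) ≤ L

/-- HYPOTHESES of `frz_prob` (weights of the tolerances, Part A) -/
structure CoreIn (f : Fix) (t : Tol d L) (M : Med (Tor d L)) (u : UTol)
    (g : ANS.Dig (Tor d L) D) (N B : Finset (Tor d L)) (c be : Tor d L → ℝ)
    (U Cb cK cA cT0 eL CM CB Ce vi : ℝ) : Prop extends
    CoreI f t M u g N B c be Cb cK cA cT0 eL CM CB Ce vi where
  Ks : (t.Ks.card : ℝ) ≤ t.k ^ (-1 : ℝ)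
  U0 : 0 < U
  aU : ∀ K ∈ t.Ks, ∀ y ∈ M.A, 8 * t.a K y ≤ U * M.eta y
  zU : ∀ K ∈ t.Ks, ∀ y ∈ M.nr, 8 * t.z K y ≤ U * M.eta y

theorem SM_mono {T : Type} [Fintype T] [DecidableEq T] {P : ANS.Stp T D} {X B : Finset T}
    {e1 e2 e1' e2' : ℝ} (h : P.SM X B e1 e2) (h1 : e1 ≤ e1') (h2 : e2 ≤ e2') :
    P.SM X B e1' e2' := by
  intro u hu hq
  obtain ⟨k, u1, u2, a1, a2, a3⟩ := h u hu hq
  exact ⟨k, u1, u2, a1, fun x hx => (a2 x hx).trans h1, a3.trans h2⟩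

theorem KT_nn (p : ℕ) : 0 ≤ KT p := by
  unfold KT
  positivity

theorem stC_ge (c1 C1 Cb : ℝ) (hc1 : 0 < c1) (hC1 : 0 < C1) (hCb : 0 ≤ Cb) :
    1 ≤ 8 * (C1 + 2) + (1 + Cb) / c1 := by
  have : 0 ≤ (1 + Cb) / c1 := by positivity
  linarith

/-- a priori facts at the end give `Frz` -/
theorem frz_of_ap {t : Tol d L} {M : Med (Tor d L)} {g : ANS.Dig (Tor d L) D}
    {B : Finset (Tor d L)} {U vt : ℝ} (hU : 0 < U)
    (hA : M.A ⊆ M.nr) (hk : 0 < t.k) (hk1 : t.k ≤ 1) {ω : Tor d L → D}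
    (h : AP (M.stp g) M.nr (M.A ∩ B) B (ftol ↥t.Ks vt t.k)
      (fun (K : ↥t.Ks) _ y => if y ∈ M.A then t.a K y / U else 0)
      (fun (K : ↥t.Ks) _ y => if y ∈ M.nr then t.z K y / U else 0) (ANS.full ω)) :
    Frz t M g t.a t.z (fun _ => U * (2 * t.k ^ (1 / 45 : ℝ))) B (t.k ^ (9 / 256 : ℝ))
      (t.k ^ (-7 / 8 + vt)) (30 * t.k ^ (1 / 140 : ℝ)) ∅ ω where
  ent x y hx hy := by
    have h1 := h.ent x (mem_nr.2 hx) y (mem_nr.2 hy)
    rw [stp_G, stp_G_nil] at h1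
    exact h1
  tau x hx := by
    have h1 := h.tau x (mem_nr.2 hx)
    unfold Stp.Tx at h1
    rw [stp_G, stp_G_nil] at h1
    rw [Finset.sdiff_empty]
    exact h1
  h3 K hK x hx := by
    have h1 := h.h3 ⟨K, hK⟩ x (mem_nr.2 hx)
    rw [stp_G] at h1
    have e1 : ∑ y, M.Gf g ω x y ^ 2 * ((if y ∈ M.A then t.a K y / U else 0 : ℝ) : ℂ) =
        (∑ y ∈ M.A, M.Gf g ω x y ^ 2 * (t.a K y : ℂ)) / (U : ℂ) := by
      rw [Finset.sum_div, ← Finset.sum_subset (Finset.subset_univ M.A) fun y _ hy => by simp [hy]]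
      refine Finset.sum_congr rfl fun y hy => ?_
      rw [if_pos hy]
      push_cast
      ring
    have e2 : ∑ y, ‖M.Gf g ω x y‖ ^ 2 * (if y ∈ M.nr then t.z K y / U else 0) =
        (∑ y ∈ M.nr, ‖M.Gf g ω x y‖ ^ 2 * t.z K y) / U := by
      rw [Finset.sum_div, ← Finset.sum_subset (Finset.subset_univ M.nr) fun y _ hy => by simp [hy]]
      refine Finset.sum_congr rfl fun y hy => ?_
      rw [if_pos hy]
      ring
    have h2 : ‖(∑ y ∈ M.A, M.Gf g ω x y ^ 2 * (t.a K y : ℂ)) / (U : ℂ)‖ ≤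
        (∑ y ∈ M.nr, ‖M.Gf g ω x y‖ ^ 2 * t.z K y) / U +
          (t.k ^ (1 / 32 : ℝ) + t.k ^ (1 / 45 : ℝ)) := by
      rw [← e1, ← e2]
      exact h1
    rw [norm_div, Complex.norm_real, Real.norm_of_nonneg hU.le, div_le_iff₀ hU] at h2
    have h3 : t.k ^ (1 / 32 : ℝ) ≤ t.k ^ (1 / 45 : ℝ) :=
      Real.rpow_le_rpow_of_exponent_ge hk hk1 (by norm_num)
    refine h2.trans ?_
    rw [add_mul, div_mul_cancel₀ _ hU.ne']
    nlinarith
  form := h.form

/-- **THE FROZEN STEP IN A GOOD MEDIUM, general family of weights** (`R`, `a K`, `z K`, functions of the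
configuration) -/
theorem frz_prob_w (hd : 3 ≤ d) {c1 C1 Cb cK cA cT0 eL CM CB Ce vt vi Kp : ℝ}
    (hc1 : 0 < c1) (hC1 : 0 < C1) (hCb : 0 ≤ Cb) (hcK : 0 < cK) (hcA : 0 ≤ cA) (hcT0 : 0 ≤ cT0)
    (heL : 0 ≤ eL) (heL1 : eL ≤ 1 / 4) (hCM : 0 ≤ CM) (hCB : 0 ≤ CB) (hCe : 0 ≤ Ce)
    (hvt : 0 < vt) (hvi : 3 * vt ≤ vi) (hvi1 : vi ≤ 1 / 150) (hKp : 0 < Kp) :
    ∃ k0 : ℝ, 0 < k0 ∧ ∀ {L : ℕ} [NeZero L] {D : Type} [Fintype D] [DecidableEq D] {f : Fix}
      {t : Tol d L} {M : Med (Tor d L)} {u : UTol} {g : ANS.Dig (Tor d L) D}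
      {N B : Finset (Tor d L)} {c be : Tor d L → ℝ} {R : Finset ℕ}
      {a z : ℕ → (Tor d L → Option D) → Tor d L → ℝ}, f.c1 = c1 → f.C1 = C1 →
      t.k ≤ k0 → CoreI f t M u g N B c be Cb cK cA cT0 eL CM CB Ce vi →
      (R.card : ℝ) ≤ t.k ^ (-1 : ℝ) →
      (∀ s, (M.stp g).Ent M.nr 1 s → ∀ K ∈ R,
        (∃ da, WtAt g.P id ((M.stp g).eta s) be s (250 * stC f Cb ^ 3) (a K) da) ∧
        ∃ dz, WtAt g.P id ((M.stp g).eta s) be s (250 * stC f Cb ^ 3) (z K) dz) →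
      (∀ K ∈ R, ∀ x ∈ M.nr, ‖∑ y, M.G x y ^ 2 * (a K nil y : ℂ)‖ ≤
        ∑ y, ‖M.G x y‖ ^ 2 * z K nil y) →
      ANP.Pr g.P {ω | ¬ AP (M.stp g) M.nr (M.A ∩ B) B (ftol ↥R vt t.k) (fun K : ↥R => a K)
        (fun K : ↥R => z K) (ANS.full ω)} ≤ t.k ^ Kp := by
  classical
  set C := 8 * (C1 + 2) + (1 + Cb) / c1 with hC
  have hC1' : 1 ≤ C := stC_ge c1 C1 Cb hc1 hC1 hCb
  set cb := √Cb with hcb
  have hcb2 : cb ^ 2 = Cb := Real.sq_sqrt hCb
  obtain ⟨q0, hq0⟩ := numQ_ev C cb (cb ^ 2 * (cT0 + 1)) (cb ^ 2 * (cT0 + 1) + 1) (cT0 + 1) eL CM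
    vt vi (Kp + 1) heL heL1 hCM hvt hvi (by linarith)
  obtain ⟨p0, hp0⟩ := numF_ev d C C1 cb cK (cT0 + 1) eL CB (Kp + 1) heL heL1 hCB (by linarith)
  obtain ⟨q1, hq1⟩ := exists_m (g := 4 * (1 / 360)) (by norm_num) (2 * Ce + 1 + 1)
  obtain ⟨q2, hq2⟩ := exists_m (g := 4 * (vt / 8)) (by positivity) (Ce + 1)
  set q := max (max q0 1) (max q1 q2) with hq
  set p := max p0 2 with hp
  have hqa : q0 ≤ q := (le_max_left _ _).trans (le_max_left _ _)
  have hqb : 1 ≤ q := (le_max_right q0 1).trans (le_max_left _ _)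
  have hqc : q1 ≤ q := (le_max_left _ _).trans (le_max_right _ _)
  have hqd : q2 ≤ q := (le_max_right q1 q2).trans (le_max_right _ _)
  have hpa : p0 ≤ p := le_max_left _ _
  have hpb : 2 ≤ p := le_max_right _ _
  have evI : Ev (fun k => iotF d c1 C1 C Cb cK cA (cT0 + 1) vi k ≤ k ^ (1 / 8 + 15 / 16 * vi)) :=
    Ev.of_Pw (pw_iotF d c1 C1 C Cb cK cA (cT0 + 1) vi hvi1) (by nlinarith)
  have evC : Ev (fun k => Cb * k ≤ 1) := Ev.le_of_mul Pw.var one_pos _ one_pos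
  have evD : Ev (fun k => 2 * C * k ^ (11 / 256 : ℝ) ≤ 1) :=
    Ev.le_of_mul (Pw.rpow _) (by norm_num) _ one_pos
  have evE : Ev (fun k => 192 * ((4 + KT p) * k ^ (Kp + 1)) *
      Real.exp (192 * KAll q C (KT p)) ≤ k ^ Kp) :=
    Ev.of_Pw ((((Pw.rpow (Kp + 1)).cmul (4 + KT p)).cmul 192).mulc _) (by linarith)
  obtain ⟨k0, hk0, hev⟩ := (((hq0 q hqa).and (hp0 p hpa)).and ((evI.and evC).and (evD.and evE)))
  refine ⟨k0, hk0, ?_⟩
  intro L _ D _ _ f t M u g N B c be R a z hf1 hf2 htk h hRc hWt hst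
  have hk : 0 < t.k := h.Num.kl.trans_le h.Num.klk
  obtain ⟨⟨nQ, nF⟩, ⟨nI, nC⟩, nD, nE⟩ := hev t.k hk htk
  have hk1 : t.k < 1 := nQ.k1
  have hpos : ∀ a : ℝ, 0 < t.k ^ a := fun a => Real.rpow_pos_of_pos hk a
  have hCs : stC f Cb = C := by unfold stC; rw [hf1, hf2]
  have hC0 : 0 < C := by linarith
  -- digits
  have hb0 : ∀ w, be w ≤ nb0 cb t.k := fun w => by
    have h1 := h.dig.bek w
    have h2 : Cb * t.kl ≤ Cb * t.k := mul_le_mul_of_nonneg_left h.Num.klk hCb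
    have h3 : be w ^ 2 ≤ (nb0 cb t.k) ^ 2 := by
      rw [nb0_sq hk, hcb2]
      linarith
    have h4 : 0 ≤ nb0 cb t.k := mul_nonneg (Real.sqrt_nonneg _) (hpos _).le
    exact (sq_le_sq₀ (h.dig.dig.be0 w) h4).1 h3
  have hnb0 : 0 ≤ nb0 cb t.k := mul_nonneg (Real.sqrt_nonneg _) (hpos _).le
  have hbes : ∀ w, 100 * stC f Cb ^ 2 * be w ≤ 1 := fun w => by
    rw [hCs]
    refine le_trans ?_ nQ.bsm
    have h1 := hb0 w
    have h2 : 100 * C ^ 2 * be w ≤ 100 * C ^ 2 * nb0 cb t.k :=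
      mul_le_mul_of_nonneg_left h1 (by positivity)
    have h3 : C ^ 2 ≤ C ^ 5 := pow_le_pow_right₀ hC1' (by norm_num)
    have h4 : 100 * C ^ 2 * nb0 cb t.k ≤ 4000 * C ^ 5 * nb0 cb t.k :=
      mul_le_mul_of_nonneg_right (by nlinarith [pow_pos hC0 5]) hnb0
    linarith
  have hLm1 : 1 ≤ t.k ^ (-eL) :=
    Real.one_le_rpow_of_pos_of_le_one_of_nonpos hk hk1.le (by linarith)
  have hOk : (M.stp g).Ok M.nr N c be M.eta C (t.k ^ (-eL)) := by
    rw [← hCs]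
    exact h.G.stpOk h.In h.Num h.dig hLm1 h.Lam hbes
  have hAnr : M.A ⊆ M.nr := h.G.A_sub_nr
  have hNA := h.dig.NA
  have hMc : ∑ w, be w ^ 2 ≤ t.k ^ (-CM) := by
    have h1 : ∑ w, be w ^ 2 = ∑ w ∈ N, be w ^ 2 := by
      symm
      refine Finset.sum_subset (Finset.subset_univ N) fun w _ hw => ?_
      rw [h.dig.beN w hw]
      norm_num
    rw [h1]
    have h2 : ∑ w ∈ N, be w ^ 2 ≤ ∑ _w ∈ N, (1 : ℝ) := Finset.sum_le_sum fun w _ => by
      have h3 := h.dig.bek w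
      have h4 : Cb * t.kl ≤ Cb * t.k := mul_le_mul_of_nonneg_left h.Num.klk hCb
      linarith
    refine h2.trans ?_
    rw [Finset.sum_const, nsmul_eq_mul, mul_one]
    exact h.Nc
  have hT0 : ∀ x ∈ M.nr, (M.stp g).Tx (M.A ∩ B) nil x ≤ cT0 * t.k ^ (-7 / 8 : ℝ) := fun x hx => by
    have h1 := h.G.h2 x (mem_nr.1 hx)
    have h2 : (M.stp g).Tx (M.A ∩ B) nil x ≤ ∑ w ∈ M.A, ‖rsc (H0T d L) M.b x w‖ ^ 4 := by
      unfold Stp.Tx
      rw [stp_G_nil]
      exact Finset.sum_le_sum_of_subset_of_nonneg Finset.inter_subset_left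
        fun _ _ _ => by positivity
    exact h2.trans (h1.trans ((h.In.tau x).trans h.tau))
  have hCη : ∀ y ∈ M.A, t.k ≤ C * M.eta y := fun y hy => by
    have h1 := h.G.eta_act h.In h.Num hy
    have h2 := h.Num.eta
    have h3 : (1 + Cb) / c1 ≤ C := by
      rw [hC]
      linarith
    have h4 : 1 + Cb ≤ C * c1 := by rwa [div_le_iff₀ hc1] at h3
    have h5 := h.Num.kl
    calc t.k ≤ Cb * t.kl := h.kkl
      _ ≤ (C * c1) * t.kl := mul_le_mul_of_nonneg_right (by linarith) h5.le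
      _ = C * (t.kl * f.c1) := by rw [hf1]; ring
      _ ≤ C * M.eta y := mul_le_mul_of_nonneg_left (by linarith) hC0.le
  have hkk : ∀ y ∈ M.A ∩ B, t.k ≤ C * (M.stp g).eta nil y := fun y hy => by
    rw [gok_eta_nil]
    exact hCη y (Finset.mem_inter.1 hy).1
  -- weights
  set aw : ↥R → (Tor d L → Option D) → Tor d L → ℝ := fun K => a K with haw
  set zw : ↥R → (Tor d L → Option D) → Tor d L → ℝ := fun K => z K with hzw
  set rho : ↥R → ℝ := fun _ => ((R.card : ℝ))⁻¹ with hrho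
  have hrho1 : ∑ i, rho i ≤ 1 := by
    rw [hrho, Finset.sum_const, nsmul_eq_mul, Finset.card_univ, Fintype.card_coe]
    by_cases h0 : R.card = 0
    · simp [h0]
    · rw [mul_inv_cancel₀ (by exact_mod_cast h0)]
  have hrhok : ∀ i, t.k ≤ rho i := fun i => by
    have h0 : 0 < (R.card : ℝ) := by
      have : 0 < R.card := Finset.card_pos.2 ⟨i.1, i.2⟩
      exact_mod_cast this
    have h1 := hRc
    rw [Real.rpow_neg_one] at h1
    show t.k ≤ (R.card : ℝ)⁻¹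
    rw [← inv_inv t.k]
    exact inv_anti₀ h0 h1
  have hfn := fnum_of (C := C) (cb := cb) (cT0 := cT0) (eL := eL) (CM := CM) (vt := vt) (vi := vi)
    (Kp := Kp + 1) (Ce := Ce) (q := q) (k := t.k) hqb hk hvi hC1' (Real.sqrt_nonneg _) hcT0 hvt hCe
    (by have := hq1 q hqc; linarith) (by have := hq2 q hqd; linarith) nQ (L := ↥R)
    (X := M.nr) (e := M.eta) (rho := rho) h.eta hrhok hrho1
  have hW : ∀ s, (M.stp g).Ent M.nr 1 s → ∀ K : ↥R,
      (∃ da, WtAt (M.stp g).g.P id ((M.stp g).eta s) be s (250 * C ^ 3) (aw K) da) ∧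
      ∃ dz, WtAt (M.stp g).g.P id ((M.stp g).eta s) be s (250 * C ^ 3) (zw K) dz := by
    intro s hs K
    have := hWt s hs K K.2
    rw [hCs] at this
    exact this
  have h3 : ∀ K : ↥R, ∀ x ∈ M.nr, ‖∑ y, (M.stp g).G nil x y ^ 2 * (aw K nil y : ℂ)‖ ≤
      ∑ y, ‖(M.stp g).G nil x y‖ ^ 2 * zw K nil y := by
    intro K x hx
    rw [stp_G_nil]
    exact hst K K.2 x hx
  have hdSle := h.dS
  have heta1 : t.eta ≤ 1 := by
    obtain ⟨x, hx, -⟩ := h.BX
    exact (h.G.eta_ge h.In h.Num (mem_nr.1 hx)).trans (h.G.eS1 x (mem_nr.1 hx))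
  have hKi0 : 0 < u.Ki := hcK.trans_le h.Ki
  have hnX0 : (0 : ℝ) < M.nr.card := by
    obtain ⟨x, hx, -⟩ := h.BX
    have : 0 < M.nr.card := Finset.card_pos.2 ⟨x, hx⟩
    exact_mod_cast this
  have hde1 : 30 * t.k ^ (1 / 140 : ℝ) ≤ 1 / 2 := by
    have := nF.CRd
    linarith
  have htT : t.k ^ (-7 / 8 + vt) ≤ t.k ^ (-7 / 8 : ℝ) :=
    Real.rpow_le_rpow_of_exponent_ge hk hk1.le (by linarith)
  -- triangle sums
  have hII : ∀ s, AP (M.stp g) M.nr (M.A ∩ B) B (ftol ↥R vt t.k) aw zw s → ∀ x : ↥M.nr,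
      T4.II (Stp.omY (M.A ∩ B) t.k) (fun w : ↥N => 3 * be w) ((M.stp g).gX M.nr s)
        (eN hOk.NX) x ≤ t.k ^ (1 / 8 + 15 / 16 * vi) := by
    intro s hs x
    have hE : (M.stp g).Ent M.nr 1 s := fun x hx y hy => (hs.ent x hx y hy).trans hfn.aO1
    have h1 := II_at hd h.G h.In h.Num hKi0 h.dig hOk (by rw [hf2, hC]; linarith [(by positivity :
        0 ≤ (1 + Cb) / c1)]) h.NB hC0.le hCη
      (ad := t.k ^ (11 / 256 : ℝ)) (de := 30 * t.k ^ (1 / 140 : ℝ)) (hpos _).le nD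
      (by have := hpos (1 / 140); positivity) hde1 (l := t.k ^ (-15 / 32 : ℝ))
      (Real.one_le_rpow_of_pos_of_le_one_of_nonpos hk hk1.le (by norm_num))
      ((Real.rpow_le_rpow_of_exponent_ge hk hk1.le (by norm_num)).trans h.side)
      (nX := M.nr.card) le_rfl hnX0 h.dS0 h.dA0 hE hs.dia
      (fun v hv => by
        obtain ⟨a, ha⟩ := low_at h.G h.In h.Num hKi0 hOk h.Bnr h.BX h.NB h.zt0
          (de := 30 * t.k ^ (1 / 140 : ℝ)) (by linarith) hs.form (v := v) hv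
        refine ⟨a, ?_⟩
        simpa only [stp_io_nil] using ha)
      (TT := (cT0 + 1) * t.k ^ (1 / 8 : ℝ)) (fun x hx => by
        refine le_trans (mul_le_mul_of_nonneg_left ((hs.tau x hx).trans
          (add_le_add (hT0 x hx) le_rfl)) hk.le) ?_
        exact tau_num (cb := cb) hk hk1.le hvt.le) x
    refine h1.trans ((iotB_le hd hk hk1.le h.Num.eta heta1 h.Num.kl h.kkl h.Num.klk
      (by rw [hf1]; exact hc1) (by rw [hf2]; exact hC1) hC1' hCb hcK h.Ki h.dA0 h.dA h.dS0 h.dS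
      (by linarith) hnX0 h.big).trans ?_)
    rw [hf1, hf2]
    exact nI
  -- form component
  have hpd := QB_posDef (g := g) h.G h.In h.Num hKi0 h.Bnr h.BX
  obtain ⟨Lk, hLk⟩ := hOk.exists_Lk h.Bnr hpd
  have hRB := fun s => hOk.rb15 h.Bnr hpd h.zt0 s
  have hSM : (M.stp g).SM M.nr B (fe1 d cK t.k) (fe2 d C C1 cK t.k) := by
    have hl1 : 1 ≤ t.k ^ (-1 / 64 : ℝ) :=
      Real.one_le_rpow_of_pos_of_le_one_of_nonpos hk hk1.le (by norm_num)
    have h1 := stp_SM (Ca := 1) (mm := C1) (l := t.k ^ (-1 / 64 : ℝ)) hd h.G h.In h.Num hKi0 one_pos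
      h.dS0 hl1 ((Real.rpow_le_rpow_of_exponent_ge hk hk1.le (by norm_num)).trans h.side)
      (fun x hx => by
        have e1 := h.G.eS1 x (mem_nr.1 hx)
        have e2 := h.G.io_le h.In h.Num (mem_nr.1 hx)
        have e3 := (h.G.io_pos h.In h.Num (mem_nr.1 hx)).le
        unfold Med.m
        rw [hf2] at e2
        nlinarith) hC1.le hOk B
    have hCH : 0 ≤ ANF.Heat.CH d := by unfold ANF.Heat.CH; positivity
    have hKi' : 1 / u.Ki ≤ 1 / cK := one_div_le_one_div_of_le hcK h.Ki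
    have hl2 : (t.k ^ (-1 / 64 : ℝ)) ^ 2 = t.k ^ (-1 / 32 : ℝ) := by
      rw [← Real.rpow_natCast, ← Real.rpow_mul hk.le]
      norm_num
    refine SM_mono h1 ?_ ?_
    · unfold fe1
      have hrho : ANF.Heat.rho d (t.k ^ (-1 / 64 : ℝ)) ≤ t.k ^ (1 / 64 : ℝ) := by
        set l := t.k ^ (-1 / 64 : ℝ) with hl
        unfold ANF.Heat.rho
        have h1 : l ^ 3 ≤ l ^ d := pow_le_pow_right₀ hl1 hd
        have h2 : l ^ 2 / l ^ d ≤ l ^ 2 / l ^ 3 :=
          div_le_div_of_nonneg_left (by positivity) (by positivity) h1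
        have h3 : l ^ 2 / l ^ 3 = l⁻¹ := by
          field_simp
        rw [h3, hl, ← Real.rpow_neg hk.le] at h2
        refine h2.trans (le_of_eq ?_)
        norm_num
      have h0 : 0 ≤ 1 / u.Ki := by positivity
      have h64 := hpos (1 / 64)
      exact mul_le_mul (mul_le_mul_of_nonneg_left hrho hCH) hKi' h0 (by positivity)
    · unfold fe2
      rw [hl2]
      have h32 := hpos (-1 / 32)
      have h0 : 0 ≤ 1 / u.Ki := by positivity
      have h2 : 2 + 2 * ANF.Heat.CH d * t.k ^ (-1 / 32 : ℝ) * (1 / u.Ki) * C1 ≤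
          2 + 2 * ANF.Heat.CH d * t.k ^ (-1 / 32 : ℝ) * (1 / cK) * C1 := by
        gcongr
      refine mul_le_mul_of_nonneg_left ?_ hC0.le
      have h3 : 0 ≤ 2 + 2 * ANF.Heat.CH d * t.k ^ (-1 / 32 : ℝ) * (1 / u.Ki) * C1 := by positivity
      exact mul_le_mul (by linarith) h2 h3 (by norm_num)
  have hdlf : 0 < t.k ^ (1 / 140 : ℝ) := hpos _
  have hdlf2 : 2 * 15 * t.k ^ (1 / 140 : ℝ) ≤ 1 := by
    have := nF.CRd
    linarith
  have hde30 : 2 * 15 * t.k ^ (1 / 140 : ℝ) = (ftol ↥R vt t.k).de := by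
    show _ = 30 * t.k ^ (1 / 140 : ℝ)
    ring
  have hp1 : 1 ≤ p := by omega
  have hFc : ∀ s, AP (M.stp g) M.nr (M.A ∩ B) B (ftol ↥R vt t.k) aw zw s →
      tr0 (2 * p) ((M.stp g).fF B Lk (t.k ^ (1 / 140 : ℝ)) s) ≤ 1 →
      CompAt (M.stp g).g.P (fun s => tr0 (2 * p) ((M.stp g).fF B Lk (t.k ^ (1 / 140 : ℝ)) s)) s
        (KT p) (KT p * t.k ^ (Kp + 1)) (1 / 20) := by
    intro s hs htr
    have hfe1 : 0 ≤ fe1 d cK t.k := by
      unfold fe1
      have hCH : 0 ≤ ANF.Heat.CH d := by unfold ANF.Heat.CH; positivity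
      have := hpos (1 / 64)
      positivity
    have hfe2 : 0 ≤ fe2 d C C1 cK t.k := by
      unfold fe2
      have hCH : 0 ≤ ANF.Heat.CH d := by unfold ANF.Heat.CH; positivity
      have := hpos (-1 / 32)
      positivity
    have h130 := hpos (1 / 130)
    have h16 := hpos (1 / 16)
    have h78 := hpos (-7 / 8)
    have H : (M.stp g).FH M.nr N B be C (t.k ^ (-eL)) Lk p (t.k ^ (1 / 140 : ℝ))
        (t.k ^ (9 / 256 : ℝ)) 15 (nb0 cb t.k) (fe1 d cK t.k) (fe2 d C C1 cK t.k)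
        (t.k ^ (1 / 16 : ℝ)) ((cT0 + 1) * t.k ^ (-7 / 8 : ℝ)) (t.k ^ (1 / 130 : ℝ)) s :=
      { lk := hLk
        NB := h.NB
        p2 := hpb
        d0 := hdlf
        CR1 := by norm_num
        CRd := hdlf2
        rb := hRB s
        tr := htr
        a0 := (hpos _).le
        a2 := nF.a2
        ent := hs.ent
        bmL := hb0
        e10 := hfe1
        e20 := hfe2
        sm := hSM
        sig0 := h16
        tau0 := by positivity
        tau := fun x hx => by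
          have h1 := hs.tau x hx
          have h2 := hT0 x hx
          have h3 : ∑ y ∈ N, ‖(M.stp g).G s x y‖ ^ 4 ≤ (M.stp g).Tx (M.A ∩ B) s x :=
            Finset.sum_le_sum_of_subset_of_nonneg
              (fun y hy => Finset.mem_inter.2 ⟨hNA hy, h.NB hy⟩) fun _ _ _ => by positivity
          have h4 : (ftol ↥R vt t.k).tT' = t.k ^ (-7 / 8 + vt) := rfl
          rw [h4] at h1
          linarith
        nf0 := h130.le
        nfL := nF.nfL
        nfs := nF.nfs }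
    refine hOk.formComp H hnb0 (b0 := t.k ^ (Kp + 1)) ?_ (by norm_num) (by norm_num) nF.B'
    refine le_trans ?_ nF.B
    rw [Fintype.card_coe]
    refine mul_le_mul_of_nonneg_right h.Bc ?_
    have : 0 ≤ Stp.omF C 15 (t.k ^ (1 / 130 : ℝ)) (t.k ^ (9 / 256 : ℝ)) (nb0 cb t.k)
        (t.k ^ (1 / 140 : ℝ)) := by
      unfold Stp.omF
      have := hpos (9 / 256)
      positivity
    positivity
  have hfin := frozen hOk (N := N) (Y := M.A ∩ B) (B := B)
    (fun y hy => Finset.mem_inter.2 ⟨hNA hy, h.NB hy⟩)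
    (fun y hy => hAnr (Finset.mem_inter.1 hy).1) hfn hb0 hMc hT0 hkk hW h3 hII
    (fun s => tr0 (2 * p) ((M.stp g).fF B Lk (t.k ^ (1 / 140 : ℝ)) s))
    (hOk.formStart hLk hp1 _) (fun s => tr0_nonneg p (hOk.fF_herm hLk _ s))
    (fun s hs => by
      have h1 := hOk.formUse hLk hp1 hdlf (by norm_num : (1 : ℝ) ≤ 15) hdlf2 (hRB s) hs
      rw [hde30] at h1
      exact h1) hFc (KT_nn p) (mul_nonneg (KT_nn p) (hpos _).le)
  refine hfin.trans ?_
  refine le_trans (le_of_eq ?_) nE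
  ring

/-- **THE FROZEN STEP IN A GOOD MEDIUM (Part A)**: the weights of the tolerances -/
theorem frz_prob (hd : 3 ≤ d) {c1 C1 Cb cK cA cT0 eL CM CB Ce vt vi Kp : ℝ}
    (hc1 : 0 < c1) (hC1 : 0 < C1) (hCb : 0 ≤ Cb) (hcK : 0 < cK) (hcA : 0 ≤ cA) (hcT0 : 0 ≤ cT0)
    (heL : 0 ≤ eL) (heL1 : eL ≤ 1 / 4) (hCM : 0 ≤ CM) (hCB : 0 ≤ CB) (hCe : 0 ≤ Ce)
    (hvt : 0 < vt) (hvi : 3 * vt ≤ vi) (hvi1 : vi ≤ 1 / 150) (hKp : 0 < Kp) :
    ∃ k0 : ℝ, 0 < k0 ∧ ∀ {L : ℕ} [NeZero L] {D : Type} [Fintype D] [DecidableEq D] {f : Fix}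
      {t : Tol d L} {M : Med (Tor d L)} {u : UTol} {g : ANS.Dig (Tor d L) D}
      {N B : Finset (Tor d L)} {c be : Tor d L → ℝ} {U : ℝ}, f.c1 = c1 → f.C1 = C1 →
      t.k ≤ k0 → CoreIn f t M u g N B c be U Cb cK cA cT0 eL CM CB Ce vi →
      ANP.Pr g.P {ω | ¬ Frz t M g t.a t.z (fun _ => U * (2 * t.k ^ (1 / 45 : ℝ))) B
        (t.k ^ (9 / 256 : ℝ)) (t.k ^ (-7 / 8 + vt)) (30 * t.k ^ (1 / 140 : ℝ)) ∅ ω} ≤
      t.k ^ Kp := by
  obtain ⟨k0, hk0, hw⟩ := frz_prob_w (d := d) hd hc1 hC1 hCb hcK hcA hcT0 heL heL1 hCM hCB hCe hvt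
    hvi hvi1 hKp
  refine ⟨min k0 (1 / 2), lt_min hk0 (by norm_num), ?_⟩
  intro L _ D _ _ f t M u g N B c be U hf1 hf2 htk h
  have hk : 0 < t.k := h.Num.kl.trans_le h.Num.klk
  have hk1 : t.k ≤ 1 := (htk.trans (min_le_right _ _)).trans (by norm_num)
  have hC1' : 1 ≤ stC f Cb := stC_ge f.c1 f.C1 Cb (by rw [hf1]; exact hc1)
    (by rw [hf2]; exact hC1) hCb
  have hen : ∀ y, (M.stp g).eta nil y = M.eta y := gok_eta_nil M g
  set aw : ℕ → (Tor d L → Option D) → Tor d L → ℝ :=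
    fun K _ y => if y ∈ M.A then t.a K y / U else 0 with haw
  set zw : ℕ → (Tor d L → Option D) → Tor d L → ℝ :=
    fun K _ y => if y ∈ M.nr then t.z K y / U else 0 with hzw
  have key := hw (t := t) (M := M) (u := u) (g := g) (N := N) (B := B) (c := c) (be := be)
    (R := t.Ks) (a := aw) (z := zw) hf1 hf2 (htk.trans (min_le_left _ _)) h.toCoreI h.Ks ?_ ?_
  · refine le_trans ?_ key
    refine ANP.Pr_mono ⟨h.dig.dig.P0, h.dig.dig.P1⟩ fun ω hω hAP => hω ?_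
    exact frz_of_ap h.U0 h.G.A_sub_nr hk hk1 hAP
  · intro s _ K hK
    have hlo : ∀ y, M.eta y / 8 ≤ (M.stp g).eta s y := fun y => by
      have h1 := Stp.etaLo_at (P := M.stp g) (fun x => by
        rw [hen]
        exact h.G.eta_nonneg h.In h.Num x) (fun w b => ?_) s y
      · rw [hen] at h1
        exact h1
      · rw [hen, gok_gt]
        show g.zt w b * _ ≤ _
        by_cases hw : w ∈ N
        · have h1 := h.dig.ztk w hw b
          have hA := h.dig.NA hw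
          have h2 := h.G.io_pos h.In h.Num (h.G.nU_of_A hA)
          have h3 := h.G.kio_le h.In h.Num (h.G.nU_of_A hA)
          have h4 := mul_le_mul_of_nonneg_right h1 h2.le
          nlinarith
        · rw [(h.dig.zt0 hw b).2, zero_mul]
          have := h.G.eta_nonneg h.In h.Num w
          linarith
    have hCu : 0 ≤ 250 * stC f Cb ^ 3 := by positivity
    have mk : ∀ w : Tor d L → ℝ, (∀ y, 0 ≤ w y) → (∀ y, 8 * w y ≤ M.eta y) →
        WtAt g.P id ((M.stp g).eta s) be s (250 * stC f Cb ^ 3) (fun _ => w) (fun _ _ => 0) :=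
      fun w hw0 hw1 => {
        jump := fun w' b t' => by simp
        a0 := hw0
        ae := fun y => by
          have h1 := hlo y
          have h2 := hw1 y
          linarith
        dab := fun w' b => by
          simp only [abs_zero]
          have := h.dig.dig.be0 w'
          positivity
        dam := fun w' => by simp }
    refine ⟨⟨_, mk (fun y => if y ∈ M.A then t.a K y / U else 0) (fun y => ?_) (fun y => ?_)⟩,
      ⟨_, mk (fun y => if y ∈ M.nr then t.z K y / U else 0) (fun y => ?_) (fun y => ?_)⟩⟩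
    · show 0 ≤ if y ∈ M.A then t.a K y / U else 0
      split_ifs
      · exact div_nonneg (h.In.a0 K y) h.U0.le
      · exact le_rfl
    · show 8 * (if y ∈ M.A then t.a K y / U else 0) ≤ _
      split_ifs with hy
      · rw [← mul_div_assoc, div_le_iff₀ h.U0, mul_comm (M.eta y)]
        exact h.aU K hK y hy
      · rw [mul_zero]
        exact h.G.eta_nonneg h.In h.Num y
    · show 0 ≤ if y ∈ M.nr then t.z K y / U else 0
      split_ifs
      · exact div_nonneg (h.In.z0 K y) h.U0.le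
      · exact le_rfl
    · show 8 * (if y ∈ M.nr then t.z K y / U else 0) ≤ _
      split_ifs with hy
      · rw [← mul_div_assoc, div_le_iff₀ h.U0, mul_comm (M.eta y)]
        exact h.zU K hK y hy
      · rw [mul_zero]
        exact h.G.eta_nonneg h.In h.Num y
  · intro K hK x hx
    have h1 := h.G.h3 K hK x (mem_nr.1 hx)
    have e1 : ∑ y, M.G x y ^ 2 * ((aw K nil y : ℝ) : ℂ) =
        (∑ y ∈ M.A, M.G x y ^ 2 * (t.a K y : ℂ)) / (U : ℂ) := by
      rw [Finset.sum_div, ← Finset.sum_subset (Finset.subset_univ M.A) fun y _ hy => by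
        simp [haw, hy]]
      refine Finset.sum_congr rfl fun y hy => ?_
      simp only [haw, hy, if_true]
      push_cast
      ring
    have e2 : ∑ y, ‖M.G x y‖ ^ 2 * zw K nil y =
        (∑ y ∈ M.nr, ‖M.G x y‖ ^ 2 * t.z K y) / U := by
      rw [Finset.sum_div, ← Finset.sum_subset (Finset.subset_univ M.nr) fun y _ hy => by
        simp [hzw, hy]]
      refine Finset.sum_congr rfl fun y hy => ?_
      simp only [hzw, hy, if_true]
      ring
    rw [e1, e2, norm_div, Complex.norm_real, Real.norm_of_nonneg h.U0.le]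
    exact div_le_div_of_nonneg_right h1 h.U0.le

end Pool.Agent.AND
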