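import Pool.Agent.ANS.EngB

/-! # ANS ENGR: the engine with rates up to `R0` (several dyadic levels are read at once)

The probability of the bad values is at most `1 - 1/R0`.  `Rate` and `CompB` are unchanged (rates
`≤ 2`): both constants are multiplied by `R0 / 2`. -/

set_option autoImplicit false
set_option linter.unusedSectionVars false

open Finset Function

noncomputable section

namespace Pool.Agent.ANS

variable {N A : Type} [Fintype N] [DecidableEq N] [Fintype A] [DecidableEq A]
  {pr : N → A → ℝ}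

open Pool.Agent.Kin in
/-- THE ENGINE WITH RATES UP TO `R0` -/
theorem engineR {R0 : ℝ} (hR2 : 2 ≤ R0) (hpr : ∀ w a, 0 ≤ pr w a) (hpr1 : ∀ w, ∑ a, pr w a = 1)
    {ok : N → Option A → Prop} (hok : ∀ w, ok w none) (hpk : ∀ w, R0 * pk pr ok w ≤ R0 - 1)
    {Γ : (N → Option A) → ℝ} (hΓ : ∀ s, 0 ≤ Γ s) {s0 al be : ℝ} (hs0 : 0 < s0) (hs1 : s0 ≤ 1 / 4)
    (hal : 0 ≤ al) (hbe : 0 ≤ be)
    (H : ∀ s, Γ s ≤ 1 → ∃ dl, dl ≤ 1 - 3 * s0 ∧ CompB pr ok Γ s al be dl) :
    ANP.Pr pr {o | 3 * s0 < Γ (full o)} ≤
      (Γ nil / s0 + 2 * (R0 / 2 * be) / s0 ^ 2) * Real.exp (2 * (R0 / 2 * al) / s0 ^ 2) := by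
  classical
  have hR00 : 0 < R0 := by linarith
  obtain ⟨al0, hal0⟩ : ∃ al0, al0 = al := ⟨_, rfl⟩
  obtain ⟨be0, hbe0⟩ : ∃ be0, be0 = be := ⟨_, rfl⟩
  rw [← hal0, ← hbe0] at H
  have halx : 0 ≤ al0 := hal0 ▸ hal
  have hbex : 0 ≤ be0 := hbe0 ▸ hbe
  rw [← hal0, ← hbe0]
  clear hal hbe
  obtain ⟨al, hal1⟩ : ∃ al, al = R0 / 2 * al0 := ⟨_, rfl⟩
  obtain ⟨be, hbe1⟩ : ∃ be, be = R0 / 2 * be0 := ⟨_, rfl⟩
  rw [← hal1, ← hbe1]
  have hal : 0 ≤ al := by rw [hal1]; positivity
  have hbe : 0 ≤ be := by rw [hbe1]; positivity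
  have hpk0 : ∀ w, 0 ≤ pk pr ok w := fun w => Finset.sum_nonneg fun a _ => by
    split_ifs
    · exact le_rfl
    · exact hpr w a
  set F : (N → Option A) → ℝ := fun s => th s0 (Γ s) with hF
  have hF0 : ∀ s, 0 ≤ F s := fun s => th_nonneg s0 hs0 _ (hΓ s)
  have hgen : ∀ t, 0 ≤ t → t ≤ 1 → ∀ s,
      GnB pr ok t F s ≤ 2 * al / s0 ^ 2 * F s + 2 * be / s0 := by
    intro t ht0 ht1 s
    have hR0 : 0 ≤ 2 * al / s0 ^ 2 * F s + 2 * be / s0 := by
      have := hF0 s
      positivity
    have hden : ∀ w, 1 / R0 ≤ 1 - t * pk pr ok w := fun w => by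
      rw [div_le_iff₀ hR00]
      have h1 : t * pk pr ok w ≤ pk pr ok w := mul_le_of_le_one_left (hpk0 w) ht1
      nlinarith [hpk w, hpk0 w, mul_le_mul_of_nonneg_right h1 hR00.le]
    have hd0 : ∀ w, 0 < 1 - t * pk pr ok w := fun w =>
      lt_of_lt_of_le (by positivity) (hden w)
    set r : N → ℝ := fun w => rt pr ok t s w with hr
    have hr0 : ∀ w, 0 ≤ r w := fun w => by
      simp only [hr, rt]
      split_ifs
      · have := hd0 w
        positivity
      · exact le_rfl
    have hr2 : ∀ w, r w ≤ R0 := fun w => by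
      simp only [hr, rt]
      split_ifs
      · have h1 := hden w
        rw [div_le_iff₀ (hd0 w)]
        rw [div_le_iff₀ hR00] at h1
        linarith
      · linarith
    have hrn : ∀ w, ¬ ok w (s w) → r w = 0 := fun w hw => by
      simp only [hr, rt, if_neg hw]
    have hRt : Rate ok s (fun w => 2 / R0 * r w) := ⟨fun w => mul_nonneg (by positivity) (hr0 w),
      fun w => by
        have h1 := mul_le_mul_of_nonneg_left (hr2 w) (show (0:ℝ) ≤ 2 / R0 by positivity)
        rwa [div_mul_cancel₀ _ hR00.ne'] at h1,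
      fun w hw => by rw [hrn w hw, mul_zero]⟩
    have hscale : ∀ (g : N → ℝ) {x : ℝ}, ∑ w, 2 / R0 * r w * g w ≤ x →
        ∑ w, r w * g w ≤ R0 / 2 * x := by
      intro g x hx
      have h1 : ∑ w, 2 / R0 * r w * g w = 2 / R0 * ∑ w, r w * g w := by
        rw [Finset.mul_sum]
        exact Finset.sum_congr rfl fun w _ => by ring
      rw [h1] at hx
      have h2 := mul_le_mul_of_nonneg_left hx (show (0:ℝ) ≤ R0 / 2 by positivity)
      have h3 : R0 / 2 * (2 / R0 * ∑ w, r w * g w) = ∑ w, r w * g w := by field_simp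
      rwa [h3] at h2
    rcases le_or_gt (Γ s) 1 with h1 | h1
    · obtain ⟨dl, -, l, q, m, hq, hmq, hla, hln, hl2, -, hsum0, hqs0⟩ := H s h1
      have hsum : ∑ w, r w * (∑ a, pr w a * l w (some a) - l w none) ≤ al * Γ s + be := by
        have h2 := hscale _ (hsum0 _ hRt)
        rw [hal1, hbe1]
        linarith
      have hqs : ∑ w, r w * q w ≤ al * Γ s + be := by
        have h2 := hscale _ (hqs0 _ hRt)
        rw [hal1, hbe1]
        linarith
      have hth1 := th1_mem s0 hs0 (Γ s) (hΓ s)
      have hterm : ∀ w, ok w (s w) →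
          (∑ a, pr w a * F (update s w (some a)) - F (update s w none)) ≤
          th1 s0 (Γ s) * (∑ a, pr w a * l w (some a) - l w none) +
            (2 + 1 / (3 * s0)) * q w := by
        intro w hw
        have ha : ∀ a, F (update s w (some a)) ≤ F s + th1 s0 (Γ s) * (l w (some a) + q w) := by
          intro a
          have h0 := hΓ (update s w (some a))
          have h2 := hla w hw a
          have h3 := th_mono hs0 h0 h2
          have h4 := th_concave hs0 (hΓ s) (h0.trans h2)
          simp only [hF]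
          have h5 : Γ s + l w (some a) + q w - Γ s = l w (some a) + q w := by ring
          rw [h5] at h4
          linarith
        have hn : F s + th1 s0 (Γ s) * (l w none - m w) - q w / (3 * s0) ≤
            F (update s w none) := by
          have h2 := hln w hw
          have h6 : (l w none - m w) ^ 2 / (3 * s0) ≤ q w / (3 * s0) :=
            div_le_div_of_nonneg_right (hl2 w hw) (by positivity)
          rcases le_or_gt 0 (Γ s + l w none - m w) with hy | hy
          · have h3 := th_mono hs0 hy h2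
            have h4 := th_lower hs0 (hΓ s) hy
            have h5 : Γ s + l w none - m w - Γ s = l w none - m w := by ring
            rw [h5] at h4
            simp only [hF]
            linarith
          · have h4 := th_lower hs0 (hΓ s) le_rfl
            have h5 : th s0 0 = 0 := by simp [th]
            rw [h5] at h4
            have h7 : (0 - Γ s) ^ 2 / (3 * s0) ≤ (l w none - m w) ^ 2 / (3 * s0) :=
              div_le_div_of_nonneg_right (by nlinarith [hΓ s]) (by positivity)
            have h8 : th1 s0 (Γ s) * (l w none - m w) ≤ th1 s0 (Γ s) * (0 - Γ s) :=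
              mul_le_mul_of_nonneg_left (by linarith) hth1.1
            have h9 := hF0 (update s w none)
            simp only [hF] at h9 ⊢
            linarith
        have hmt : th1 s0 (Γ s) * m w ≤ th1 s0 (Γ s) * q w :=
          mul_le_mul_of_nonneg_left (hmq w) hth1.1
        have hsumle : ∑ a, pr w a * F (update s w (some a)) ≤
            F s + th1 s0 (Γ s) * (∑ a, pr w a * l w (some a) + q w) := by
          calc ∑ a, pr w a * F (update s w (some a))
              ≤ ∑ a, pr w a * (F s + th1 s0 (Γ s) * (l w (some a) + q w)) :=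
                Finset.sum_le_sum fun a _ => mul_le_mul_of_nonneg_left (ha a) (hpr w a)
            _ = (∑ a, pr w a) * (F s + th1 s0 (Γ s) * q w) +
                th1 s0 (Γ s) * ∑ a, pr w a * l w (some a) := by
                rw [Finset.sum_mul, Finset.mul_sum, ← Finset.sum_add_distrib]
                exact Finset.sum_congr rfl fun a _ => by ring
            _ = _ := by rw [hpr1]; ring
        have hqt : th1 s0 (Γ s) * q w ≤ q w := by
          have := mul_le_mul_of_nonneg_right hth1.2 (hq w)
          linarith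
        have e1 : q w / (3 * s0) = 1 / (3 * s0) * q w := by ring
        have e2 : (2 + 1 / (3 * s0)) * q w = 2 * q w + 1 / (3 * s0) * q w := by ring
        rw [e2]
        linarith
      have hS : GnB pr ok t F s ≤
          th1 s0 (Γ s) * (∑ w, r w * (∑ a, pr w a * l w (some a) - l w none)) +
          (2 + 1 / (3 * s0)) * ∑ w, r w * q w := by
        unfold GnB
        rw [Finset.mul_sum, Finset.mul_sum, ← Finset.sum_add_distrib]
        refine Finset.sum_le_sum fun w _ => ?_
        by_cases hw : ok w (s w)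
        · have h3 := mul_le_mul_of_nonneg_left (hterm w hw) (hr0 w)
          refine h3.trans (le_of_eq ?_)
          ring
        · have h3 : rt pr ok t s w = 0 := hrn w hw
          rw [h3, hrn w hw]
          simp
      have hX0 : 0 ≤ al * Γ s + be := by
        have := hΓ s
        positivity
      have hS2 : th1 s0 (Γ s) * (∑ w, r w * (∑ a, pr w a * l w (some a) - l w none)) ≤
          al * Γ s + be := by
        calc _ ≤ th1 s0 (Γ s) * (al * Γ s + be) :=
              mul_le_mul_of_nonneg_left hsum hth1.1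
          _ ≤ 1 * (al * Γ s + be) := mul_le_mul_of_nonneg_right hth1.2 hX0
          _ = _ := one_mul _
      have hS3 : (2 + 1 / (3 * s0)) * ∑ w, r w * q w ≤ (2 + 1 / (3 * s0)) * (al * Γ s + be) :=
        mul_le_mul_of_nonneg_left hqs (by positivity)
      have hS4 : (3 + 1 / (3 * s0)) * (al * Γ s + be) ≤ 2 / s0 * (al * Γ s + be) := by
        refine mul_le_mul_of_nonneg_right ?_ hX0
        rw [show (3 : ℝ) + 1 / (3 * s0) = (9 * s0 + 1) / (3 * s0) by field_simp; ring,
          div_le_div_iff₀ (by positivity) hs0]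
        nlinarith
      have hS5 : Γ s ≤ F s / s0 := by
        rw [le_div_iff₀ hs0]
        rcases le_or_gt (Γ s) (4 * s0) with h4 | h4
        · have := le_four_th s0 hs0 (Γ s) (hΓ s) h4
          simp only [hF]
          nlinarith [hF0 s, mul_le_mul_of_nonneg_left hs1 (hΓ s)]
        · have : th s0 (Γ s) = s0 := th_big s0 hs0 _ (by linarith)
          simp only [hF, this]
          nlinarith
      calc GnB pr ok t F s ≤ (3 + 1 / (3 * s0)) * (al * Γ s + be) := by linarith
        _ ≤ 2 / s0 * (al * Γ s + be) := hS4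
        _ ≤ 2 / s0 * (al * (F s / s0) + be) := by
          refine mul_le_mul_of_nonneg_left ?_ (by positivity)
          linarith [mul_le_mul_of_nonneg_left hS5 hal]
        _ = _ := by field_simp
    · have hle : ∀ u, F u ≤ s0 := by
        intro u
        simp only [hF]
        rcases le_or_gt (Γ u) (3 * s0) with h3 | h3
        · have := th_mono hs0 (hΓ u) h3
          rwa [th_big s0 hs0 _ le_rfl] at this
        · exact (th_big s0 hs0 _ h3.le).le
      have hbig : ∀ w, ok w (s w) → F (update s w none) = s0 := by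
        intro w hw
        simp only [hF]
        refine th_big s0 hs0 _ ?_
        by_contra hcon
        push Not at hcon
        obtain ⟨dl, hdl, l, q, m, -, -, -, -, -, hst, -, -⟩ := H (update s w none) (by linarith)
        have h3 := hst w (by rw [update_self]; exact hok w) (s w)
        rw [update_idem, update_eq_self] at h3
        linarith
      refine le_trans (Finset.sum_nonpos fun w _ => ?_) hR0
      by_cases hw : ok w (s w)
      · refine mul_nonpos_of_nonneg_of_nonpos (hr0 w) ?_
        rw [hbig w hw]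
        have : ∑ a, pr w a * F (update s w (some a)) ≤ s0 := by
          calc ∑ a, pr w a * F (update s w (some a)) ≤ ∑ a, pr w a * s0 :=
                Finset.sum_le_sum fun a _ => mul_le_mul_of_nonneg_left (hle _) (hpr w a)
            _ = s0 := by rw [← Finset.sum_mul, hpr1, one_mul]
        linarith
      · have h3 : rt pr ok t s w = 0 := hrn w hw
        rw [h3, zero_mul]
  -- Gronwall
  set K := 2 * al / s0 ^ 2 with hK
  set R := 2 * be / s0 with hR
  have hK0 : 0 ≤ K := by positivity
  have hR0 : 0 ≤ R := by positivity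
  have hanti : AntitoneOn (fun t => Real.exp (-K * t) * Et pr t F - R * t) (Set.Icc 0 1) := by
    refine antitoneOn_of_deriv_nonpos (convex_Icc 0 1) ?_ ?_ ?_
    · refine ContinuousOn.sub (ContinuousOn.mul (by fun_prop) ?_) (by fun_prop)
      exact fun t _ => (hasDerivAt_Et hpr1 F t).continuousAt.continuousWithinAt
    · intro t _
      exact (((((hasDerivAt_id t).const_mul (-K)).exp).mul (hasDerivAt_Et hpr1 F t)).sub
        ((hasDerivAt_id t).const_mul R)).differentiableAt.differentiableWithinAt
    · intro t ht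
      rw [interior_Icc] at ht
      have hd := ((((hasDerivAt_id t).const_mul (-K)).exp).mul (hasDerivAt_Et hpr1 F t)).sub
        ((hasDerivAt_id t).const_mul R)
      have hd2 := hd.deriv
      simp only [id_eq, mul_one] at hd2
      have e0 : deriv (fun t => Real.exp (-K * t) * Et pr t F - R * t) t =
          Real.exp (-K * t) * -K * Et pr t F + Real.exp (-K * t) * Et pr t (Gn pr F) - R := by
        rw [← hd2]
        rfl
      rw [e0]
      have h1 : Et pr t (Gn pr F) ≤ K * Et pr t F + R := by
        rw [← Et_GnB hpr1 ok hok (t := t) (fun w => by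
          have h5 := hpk w
          have h6 := hpk0 w
          nlinarith [ht.1, ht.2]) F]
        have := Et_mono hpr ht.1.le ht.2.le (hgen t ht.1.le ht.2.le)
        rwa [Et_lin t _ _ F hpr1] at this
      have h2 : Real.exp (-K * t) ≤ 1 := Real.exp_le_one_iff.2 (by nlinarith [ht.1])
      have h3 := mul_le_mul_of_nonneg_left h1 (Real.exp_pos (-K * t)).le
      nlinarith [mul_le_mul_of_nonneg_right h2 hR0]
  have h01 := hanti (Set.left_mem_Icc.2 zero_le_one) (Set.right_mem_Icc.2 zero_le_one) zero_le_one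
  simp only [mul_one, mul_zero, Real.exp_zero, one_mul, sub_zero] at h01
  rw [Et_zero] at h01
  have hE1 : Et pr 1 F ≤ (F nil + R) * Real.exp K := by
    have h2 : Real.exp (-K) * Et pr 1 F ≤ F nil + R := by linarith
    have h3 := mul_le_mul_of_nonneg_left h2 (Real.exp_pos K).le
    rw [← mul_assoc, ← Real.exp_add] at h3
    simp only [add_neg_cancel, Real.exp_zero, one_mul] at h3
    linarith [mul_comm (F nil + R) (Real.exp K)]
  have hP : ANP.Pr pr {o | 3 * s0 < Γ (full o)} * s0 ≤ Et pr 1 F := by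
    refine le_trans ?_ (Et_one hpr hF0)
    unfold ANP.Pr
    rw [Finset.sum_mul]
    refine le_trans (Finset.sum_le_sum (g := fun o => ANP.wt pr o * F (full o)) fun o ho => ?_)
      (Finset.sum_le_univ_sum_of_nonneg fun o => ?_)
    · have ho' : 3 * s0 < Γ (full o) := by simpa using (Finset.mem_filter.1 ho).2
      have : F (full o) = s0 := th_big s0 hs0 _ ho'.le
      rw [this]
    · exact mul_nonneg (Finset.prod_nonneg fun w _ => hpr w _) (hF0 _)
  have hFn : F nil ≤ Γ nil := th_le s0 hs0 _ (hΓ nil)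
  have hfin : ANP.Pr pr {o | 3 * s0 < Γ (full o)} ≤ (F nil + R) * Real.exp K / s0 := by
    rw [le_div_iff₀ hs0]
    exact hP.trans hE1
  refine hfin.trans ?_
  rw [mul_div_right_comm]
  refine mul_le_mul_of_nonneg_right ?_ (Real.exp_pos K).le
  rw [add_div, hR]
  have e1 : F nil / s0 ≤ Γ nil / s0 := div_le_div_of_nonneg_right hFn hs0.le
  have e2 : 2 * be / s0 / s0 = 2 * be / s0 ^ 2 := by field_simp
  rw [e2]
  linarith

theorem core_absR {ι : Type} [Fintype ι] {R0 : ℝ} (hR2 : 2 ≤ R0) (hpr : ∀ w a, 0 ≤ pr w a) (hpr1 : ∀ w, ∑ a, pr w a = 1)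
    {ok : N → Option A → Prop} (hok : ∀ w, ok w none) (hpk : ∀ w, R0 * pk pr ok w ≤ R0 - 1)
    (Γ : ι → (N → Option A) → ℝ) (Ap : ι → (N → Option A) → Prop) {K s0 : ℝ} (hs0 : 0 < s0)
    (hs1 : s0 ≤ 1 / 4) (hK : 0 ≤ K)
    (B dl : ι → ℝ) (h0 : ∀ i, Γ i nil = 0) (hΓ : ∀ i s, 0 ≤ Γ i s)
    (hB : ∀ i, 0 ≤ B i) (hdl : ∑ i, dl i ≤ 1 / 4)
    (hAp : ∀ i s, Γ i s ≤ 1 → Ap i s)
    (hc : ∀ i s, (∀ j, Ap j s) → (∀ j, Γ j s ≤ 1) → CompB pr ok (Γ i) s K (B i) (dl i)) :
    ANP.Pr pr {o | ¬ ∀ i, Ap i (full o)} ≤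
      2 * (R0 / 2 * ((Fintype.card ι + 1) * ∑ i, B i)) / s0 ^ 2 *
        Real.exp (2 * (R0 / 2 * (K * (Fintype.card ι + 1))) / s0 ^ 2) := by
  classical
  have hle : ∀ i s, Γ i s ≤ ∑ j, Γ j s := fun i s =>
    Finset.single_le_sum (f := fun j => Γ j s) (fun j _ => hΓ j s) (Finset.mem_univ i)
  have hcomp : ∀ s, ∑ i, Γ i s ≤ 1 → CompB pr ok (fun s => ∑ i, Γ i s) s
      (K * (Fintype.card ι + 1)) ((Fintype.card ι + 1) * ∑ i, B i) (∑ i, dl i) := by
    intro s hs
    have h1 : ∀ j, Γ j s ≤ 1 := fun j => (hle j s).trans hs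
    exact comp_sumB fun i => hc i s (fun j => hAp j s (h1 j)) h1
  have hS0 : ∀ s, 0 ≤ ∑ i, Γ i s := fun s => Finset.sum_nonneg fun i _ => hΓ i s
  have hBs : 0 ≤ ∑ i, B i := Finset.sum_nonneg fun i _ => hB i
  have he := engineR (pr := pr) hR2 hpr hpr1 hok hpk (Γ := fun s => ∑ i, Γ i s) hS0 (s0 := s0)
    (al := K * (Fintype.card ι + 1)) (be := (Fintype.card ι + 1) * ∑ i, B i) hs0
    hs1 (by positivity) (by positivity) (fun s hs => ⟨_, by linarith, hcomp s hs⟩)
  simp only [h0, Finset.sum_const_zero] at he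
  have hmono : ANP.Pr pr {o | ¬ ∀ i, Ap i (full o)} ≤
      ANP.Pr pr {o | 3 * s0 < ∑ i, Γ i (full o)} := by
    unfold ANP.Pr
    refine Finset.sum_le_sum_of_subset_of_nonneg ?_ fun o _ _ =>
      Finset.prod_nonneg fun w _ => hpr w _
    intro o ho
    simp only [Finset.mem_filter, Finset.mem_univ, true_and, Set.mem_setOf_eq] at ho ⊢
    by_contra hcon
    apply ho
    intro i
    refine hAp i _ ((hle i _).trans ?_)
    have := not_lt.1 hcon
    linarith
  refine (hmono.trans he).trans (le_of_eq ?_)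
  rw [zero_div, zero_add]

end Pool.Agent.ANS
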