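import Pool.Agent.ANS.Eng

/-! # ANS CORE: assembly of finitely many components (abstract)

Components `Γ i`, `i : ι`, starting at `0`.  `Ap i s` = the a priori facts which follow from
`Γ i s ≤ 1`; every component estimate may use all a priori facts.  Conclusion: all a priori facts
hold at the end outside a small probability. -/

set_option autoImplicit false

open Finset Function

noncomputable section

namespace Pool.Agent.ANS

variable {N A ι : Type} [Fintype N] [DecidableEq N] [Fintype A] [DecidableEq A] [Fintype ι]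
  {pr : N → A → ℝ}

omit [DecidableEq A] in
theorem CompAt.weaken {Γ : (N → Option A) → ℝ} {s : N → Option A} {al be dl al' be' dl' : ℝ}
    (h : CompAt pr Γ s al be dl) (h0 : 0 ≤ Γ s) (ha : al ≤ al') (hb : be ≤ be') (hd : dl ≤ dl') :
    CompAt pr Γ s al' be' dl' := by
  obtain ⟨l, q, h1, h2, h3, h4, h5, h6⟩ := h
  have : al * Γ s + be ≤ al' * Γ s + be' :=
    add_le_add (mul_le_mul_of_nonneg_right ha h0) hb
  exact ⟨l, q, h1, h2, h3, fun w b => (h4 w b).trans hd, h5.trans this, h6.trans this⟩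

omit [DecidableEq A] in
theorem PrMono (hpr : ∀ w a, 0 ≤ pr w a) {E E' : Set (N → A)} (h : ∀ o ∈ E, o ∈ E') :
    ANP.Pr pr E ≤ ANP.Pr pr E' := by
  classical
  unfold ANP.Pr
  refine Finset.sum_le_sum_of_subset_of_nonneg ?_ fun o _ _ =>
    Finset.prod_nonneg fun w _ => hpr w _
  intro o ho
  simp only [Finset.mem_filter, Finset.mem_univ, true_and] at ho ⊢
  exact h o ho

theorem core_abs (hpr : ∀ w a, 0 ≤ pr w a) (hpr1 : ∀ w, ∑ a, pr w a = 1)
    (Γ : ι → (N → Option A) → ℝ) (Ap : ι → (N → Option A) → Prop) {K : ℝ} (hK : 0 ≤ K)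
    (B dl : ι → ℝ) (h0 : ∀ i, Γ i nil = 0) (hΓ : ∀ i s, 0 ≤ Γ i s)
    (hB : ∀ i, 0 ≤ B i) (hdl : ∑ i, dl i ≤ 1 / 4)
    (hAp : ∀ i s, Γ i s ≤ 1 → Ap i s)
    (hc : ∀ i s, (∀ j, Ap j s) → (∀ j, Γ j s ≤ 1) → CompAt pr (Γ i) s K (B i) (dl i)) :
    ANP.Pr pr {o | ¬ ∀ i, Ap i (full o)} ≤
      32 * ((Fintype.card ι + 1) * ∑ i, B i) * Real.exp (32 * (K * (Fintype.card ι + 1))) := by
  have hle : ∀ i s, Γ i s ≤ ∑ j, Γ j s := fun i s =>
    Finset.single_le_sum (f := fun j => Γ j s) (fun j _ => hΓ j s) (Finset.mem_univ i)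
  have hcomp : ∀ s, ∑ i, Γ i s ≤ 1 → CompAt pr (fun s => ∑ i, Γ i s) s
      (K * (Fintype.card ι + 1)) ((Fintype.card ι + 1) * ∑ i, B i) (∑ i, dl i) := by
    intro s hs
    have h1 : ∀ j, Γ j s ≤ 1 := fun j => (hle j s).trans hs
    exact comp_sum fun i => hc i s (fun j => hAp j s (h1 j)) h1
  have hstab : ∀ s, ∑ i, Γ i s ≤ 3 * (1 / 4 : ℝ) → ∀ w b, ∑ i, Γ i (update s w b) ≤ 1 := by
    intro s hs w b
    obtain ⟨l, q, -, -, -, h4, -, -⟩ := hcomp s (hs.trans (by norm_num))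
    have := (abs_le.1 (h4 w b)).2
    linarith
  have hS0 : ∀ s, 0 ≤ ∑ i, Γ i s := fun s => Finset.sum_nonneg fun i _ => hΓ i s
  have hBs : 0 ≤ ∑ i, B i := Finset.sum_nonneg fun i _ => hB i
  have he := engine (pr := pr) hpr hpr1 (Γ := fun s => ∑ i, Γ i s) hS0 (s0 := 1 / 4)
    (al := K * (Fintype.card ι + 1)) (be := (Fintype.card ι + 1) * ∑ i, B i) (by norm_num)
    le_rfl (by positivity) (by positivity) (fun s hs => ⟨_, hcomp s hs⟩) hstab
  simp only [h0, Finset.sum_const_zero] at he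
  have hmono : ANP.Pr pr {o | ¬ ∀ i, Ap i (full o)} ≤
      ANP.Pr pr {o | 3 * (1 / 4 : ℝ) < ∑ i, Γ i (full o)} := by
    refine PrMono hpr fun o ho => ?_
    show 3 * (1 / 4 : ℝ) < ∑ i, Γ i (full o)
    by_contra hcon
    apply ho
    intro i
    refine hAp i _ ((hle i _).trans ?_)
    have := not_lt.1 hcon
    exact this.trans (by norm_num)
  refine (hmono.trans he).trans (le_of_eq ?_)
  have e1 : (0 : ℝ) / (1 / 4) + 2 * ((Fintype.card ι + 1) * ∑ i, B i) / (1 / 4) ^ 2 =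
      32 * ((Fintype.card ι + 1) * ∑ i, B i) := by ring
  have e2 : 2 * (K * (Fintype.card ι + 1)) / (1 / 4) ^ 2 =
      32 * (K * ((Fintype.card ι : ℝ) + 1)) := by ring
  rw [e1, e2]

end Pool.Agent.ANS
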