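import Pool.Agent.ANS.T4.Use
import Pool.Agent.ANS.Core

/-! # ANS FRZ: THE FROZEN STEP THEOREM (lattice free, Part A frame)

Five components: diagonal entries, all entries, (H3) for a family of pairs of weights, fourth power
sums, form (hypothesis: a functional `GF` with its component estimate).  All numerical conditions
are plain inequalities between real numbers (structure `FNum`).

`AP` = the a priori facts at a configuration; `frozen`: all of them hold at the end of the step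
outside an explicit probability. -/

set_option autoImplicit false
set_option linter.unusedSectionVars false

open Finset Function Matrix

noncomputable section

namespace Pool.Agent.ANS

open Pool.Agent.Kin Pool.Agent.APS Pool.Agent.ANL Stp

variable {T D : Type} [Fintype T] [DecidableEq T] [Fintype D] [DecidableEq D]

/-- tolerances of the frozen step: `a` engine tolerance, `a'` guaranteed bound (the quotient pays for
the counting weights): `D` diagonal, `O` all entries, `H` (H3), `T` fourth powers; `eps` smoothing of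
the modulus in (H3); `de` form -/
structure FTol (L : Type) where
  aD : ℝ
  aD' : ℝ
  aO : ℝ
  aO' : ℝ
  eps : ℝ
  tH : ℝ
  tH' : L → ℝ
  tT : ℝ
  tT' : ℝ
  de : ℝ

variable {L : Type} [Fintype L]

/-- A PRIORI FACTS at the configuration `s` -/
structure AP (P : Stp T D) (X Y B : Finset T) (f : FTol L) (a z : L → (T → Option D) → T → ℝ)
    (s : T → Option D) : Prop where
  dia : ∀ x ∈ X, ‖P.G s x x - P.G nil x x‖ ≤ f.aD'
  ent : P.Ent X f.aO' s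
  h3 : ∀ k, ∀ x ∈ X, ‖∑ y, P.G s x y ^ 2 * (a k s y : ℂ)‖ ≤
    ∑ y, ‖P.G s x y‖ ^ 2 * z k s y + (f.eps + f.tH' k)
  tau : ∀ x ∈ X, P.Tx Y s x ≤ P.Tx Y nil x + f.tT'
  form : P.FormLe B f.de s

/-- NUMERICAL CONDITIONS.  `p = 2q`; `be ≤ b0`, `Mc` = bound of `∑ be²`, `T0` = bound of the fourth
power sums at the start, `tau` = bound of `b0² (T0 + tT')`, `t2² ≥ tau`; T4: weight `kk`, `kb ≥ 9 b0²`,
`tau4 ≥ kk (T0 + tT')`, `ep` drift coefficient, `iot` bound of the triangle sums, `dT` gain;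
`BD .. BT` the additive constants of the components. -/
structure FNum (f : FTol L) (rho : L → ℝ) (X : Finset T) (e : T → ℝ) (C Lm b0 Mc T0 tau t2 kk kb
    tau4 ep iot dT BD BO BH BT : ℝ) (q : ℕ) : Prop where
  q1 : 1 ≤ q
  b00 : 0 ≤ b0
  bsm : 4000 * C ^ 5 * b0 ≤ 1
  Mc0 : 0 ≤ Mc
  T00 : 0 ≤ T0
  tau0 : 0 ≤ tau
  taub : b0 ^ 2 * (T0 + f.tT') ≤ tau
  t20 : 0 ≤ t2
  t21 : t2 ≤ 1
  t2t : tau ≤ t2 ^ 2
  kk0 : 0 < kk
  kb9 : 9 * b0 ^ 2 ≤ kb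
  tau4k : kk * (T0 + f.tT') ≤ tau4
  tau41 : tau4 ≤ 1
  ep0 : 0 ≤ ep
  epD : f.aD' + 200 * C ^ 3 * b0 ≤ 9 * ep
  dT0 : 0 ≤ dT
  dT1 : dT ≤ 1
  -- tolerances
  aD : 0 < f.aD
  aD' : 0 ≤ f.aD'
  aO : 0 < f.aO
  aO' : 0 ≤ f.aO'
  aO1 : f.aO' ≤ 1
  eps : 0 < f.eps
  tH : 0 < f.tH
  tH' : ∀ k, 0 ≤ f.tH' k
  tT : 0 < f.tT
  tT' : 0 ≤ f.tT'
  uD : ∀ x ∈ X, 1 < e x * (f.aD' / f.aD) ^ (2 * (2 * q))
  uO : ∀ x ∈ X, ∀ y ∈ X, 1 < e x * e y * (f.aO' / f.aO) ^ (2 * (2 * q))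
  uH : ∀ k, ∀ x ∈ X, 1 < rho k * e x * (f.tH' k / f.tH) ^ (2 * (2 * q))
  uT : ∀ x ∈ X, 1 < e x * (f.tT' / f.tT) ^ (2 * (2 * q))
  rho0 : ∀ k, 0 ≤ rho k
  rho1 : ∑ k, rho k ≤ 1
  -- component D
  cD : KP (2 * q) * (((250 * C ^ 3) ^ 2 * tau / f.aD ^ 2) ^ (2 * q - 1) *
      ((250 * C ^ 3) ^ 2 * (16 * C ^ 2) * (2 * Lm) ^ 2 * Mc / f.aD ^ 2)) ≤
    (1 / 20) ^ (2 * (2 * q))
  BD : KP (2 * q) * ((2 * (16 * C ^ 2)) ^ (2 * (2 * q)) *
        (250 * C ^ 3 * b0 / f.aD) ^ (2 * (2 * q)) * Mc +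
      ((250 * C ^ 3) ^ 2 * tau / f.aD ^ 2) ^ (2 * q - 1) *
        ((250 * C ^ 3) ^ 2 * (16 * C ^ 2) * (2 * Lm) ^ 2 * Mc / f.aD ^ 2)) ≤ BD
  -- component O
  cO : KP (2 * q) * (((250 * C ^ 3) ^ 2 * tau / f.aO ^ 2) ^ (2 * q - 1) *
      ((250 * C ^ 3) ^ 2 * (16 * C ^ 2) ^ 2 * Mc / f.aO ^ 2)) ≤ (1 / 20) ^ (2 * (2 * q))
  BO : KP (2 * q) * (((f.aD' + 250 * C ^ 3 * b0) * (16 * C ^ 2) / f.aO) ^ (2 * (2 * q - 1)) *
        ((f.aD' + 250 * C ^ 3 * b0) * (16 * C ^ 2) * Mc / f.aO) ^ 2 +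
      ((250 * C ^ 3) ^ 2 * tau / f.aO ^ 2) ^ (2 * q - 1) *
        ((250 * C ^ 3) ^ 2 * (16 * C ^ 2) ^ 2 * Mc / f.aO ^ 2)) ≤ BO
  -- component H
  cH : KP (2 * q) * ((232 * (250 * C ^ 3) ^ 2 * (16 * C ^ 2) ^ 2 * t2 / f.tH ^ 2) ^ (2 * q - 1) *
      (232 * (250 * C ^ 3) ^ 2 * (16 * C ^ 2) ^ 3 * (2 * Lm) ^ 2 * Mc / f.tH ^ 2)) ≤
    (1 / 20) ^ (2 * (2 * q))
  BH : KP (2 * q) * (4 ^ (2 * (2 * q)) *
      ((16 * C ^ 2 * (f.eps + 14 * (250 * C ^ 3) ^ 2 * (16 * C ^ 2) * b0) / f.tH) ^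
          (2 * (2 * q)) * Mc +
        (16 * (f.aD' + 250 * C ^ 3 * b0) ^ 2 * (16 * C ^ 2) ^ 3 / f.tH ^ 2) ^ (2 * q) * Mc +
        (464 * (250 * C ^ 3) ^ 2 * (16 * C ^ 2) ^ 2 * t2 / (f.eps * f.tH)) ^
            (2 * (2 * q) - 1) *
          (464 * (250 * C ^ 3) ^ 2 * (16 * C ^ 2) ^ 3 * (2 * Lm) ^ 2 * Mc / (f.eps * f.tH))) +
      (232 * (250 * C ^ 3) ^ 2 * (16 * C ^ 2) ^ 2 * t2 / f.tH ^ 2) ^ (2 * q - 1) *
        (232 * (250 * C ^ 3) ^ 2 * (16 * C ^ 2) ^ 3 * (2 * Lm) ^ 2 * Mc / f.tH ^ 2)) ≤ BH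
  -- component T
  cT1 : tau4 ^ 3 * ep ^ 4 ≤ dT * (kk * f.tT) ^ 4
  cT2 : iot ≤ dT * (kk * f.tT)
  cT3 : tau4 * iot ≤ dT * (kk * f.tT) ^ 2
  cT4 : (2 * Lm) ^ 2 * (kb * tau4) ≤ dT * (kk * f.tT)
  cT5 : kk * f.tT ≤ 1
  cT : KP (2 * q) * (T4.KT q (144 * C ^ 2) * (2 * Lm) ^ 2 * (9 * Mc) *
      (dT ^ q / (kk * f.tT) ^ 2)) ≤ (1 / 20) ^ (2 * (2 * q))
  BT : KP (2 * q) * (2 * (T4.KT q (144 * C ^ 2) * (2 * Lm) ^ 2 * (9 * Mc) *
      (dT ^ q / (kk * f.tT) ^ 2))) ≤ BT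

/-- the factor of the total functional -/
def KAll (q : ℕ) (C KF : ℝ) : ℝ :=
  3 * KP (2 * q) * (1 + (4 * (16 * C ^ 2)) ^ (2 * (2 * q)) * C) + KF

theorem KP_nonneg (p : ℕ) : 0 ≤ KP p := by
  unfold KP
  rw [pow_mul]
  positivity

/-- THE FROZEN STEP -/
theorem frozen {P : Stp T D} {X N Y B : Finset T} {c be e : T → ℝ} {C Lm : ℝ}
    (h : P.Ok X N c be e C Lm) (hNY : N ⊆ Y) (hYX : Y ⊆ X) {f : FTol L} {rho : L → ℝ}
    {a z : L → (T → Option D) → T → ℝ}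
    {b0 Mc T0 tau t2 kk kb tau4 ep iot dT BD BO BH BT BF KF : ℝ} {q : ℕ}
    (n : FNum f rho X e C Lm b0 Mc T0 tau t2 kk kb tau4 ep iot dT BD BO BH BT q)
    (hb0 : ∀ w, be w ≤ b0) (hMc : ∑ w, be w ^ 2 ≤ Mc) (hT0 : ∀ x ∈ X, P.Tx Y nil x ≤ T0)
    (hkk : ∀ y ∈ Y, kk ≤ C * P.eta nil y)
    (hW : ∀ s, P.Ent X 1 s → ∀ k, (∃ da, WtAt P.g.P id (P.eta s) be s (250 * C ^ 3) (a k) da) ∧
      ∃ dz, WtAt P.g.P id (P.eta s) be s (250 * C ^ 3) (z k) dz)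
    (h3 : ∀ k, ∀ x ∈ X, ‖∑ y, P.G nil x y ^ 2 * (a k nil y : ℂ)‖ ≤
      ∑ y, ‖P.G nil x y‖ ^ 2 * z k nil y)
    (hII : ∀ s, AP P X Y B f a z s →
      ∀ x : ↥X, T4.II (omY Y kk) (fun w : ↥N => 3 * be w) (P.gX X s) (eN h.NX) x ≤ iot)
    (GF : (T → Option D) → ℝ) (hF0 : GF nil = 0) (hFn : ∀ s, 0 ≤ GF s)
    (hFu : ∀ s, GF s ≤ 1 → P.FormLe B f.de s)
    (hFc : ∀ s, AP P X Y B f a z s → GF s ≤ 1 → CompAt P.g.P GF s KF BF (1 / 20))
    (hKF : 0 ≤ KF) (hBF : 0 ≤ BF) :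
    ANP.Pr P.g.P {o | ¬ AP P X Y B f a z (full o)} ≤
      192 * (BD + BO + BH + BT + BF) * Real.exp (192 * KAll q C KF) := by
  have hC1 := h.C1
  have hC0 : 0 ≤ C := h.C0
  have hq := n.q1
  have hp2 : 2 ≤ 2 * q := by omega
  have hp1 : 1 ≤ 2 * q := by omega
  have he := h.e0
  have hb00 := n.b00
  have hKP := KP_nonneg (2 * q)
  have hX4 : 0 ≤ (4 * (16 * C ^ 2)) ^ (2 * (2 * q)) * C := by positivity
  have hKb : KP (2 * q) ≤ KP (2 * q) * (1 + (4 * (16 * C ^ 2)) ^ (2 * (2 * q)) * C) := by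
    nlinarith [mul_nonneg hKP hX4]
  have hK1 : KP (2 * q) * (1 + (4 * (16 * C ^ 2)) ^ (2 * (2 * q)) * C) ≤ KAll q C KF := by
    unfold KAll
    have : 0 ≤ KP (2 * q) * (1 + (4 * (16 * C ^ 2)) ^ (2 * (2 * q)) * C) := by positivity
    linarith
  have hK2 : KP (2 * q) ≤ KAll q C KF := hKb.trans hK1
  have hK3 : KP (2 * q) * (1 + (2 * (16 * C ^ 2)) ^ (2 * (2 * q)) * C) ≤ KAll q C KF := by
    refine le_trans (mul_le_mul_of_nonneg_left (add_le_add le_rfl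
      (mul_le_mul_of_nonneg_right ?_ hC0)) hKP) hK1
    refine pow_le_pow_left₀ (by positivity) ?_ _
    nlinarith [sq_nonneg C]
  have hK4 : KF ≤ KAll q C KF := by
    unfold KAll
    have : 0 ≤ KP (2 * q) * (1 + (4 * (16 * C ^ 2)) ^ (2 * (2 * q)) * C) := by positivity
    linarith
  have hKA : 0 ≤ KAll q C KF := hKF.trans hK4
  -- nonnegativity of the additive constants
  have hMc0 := n.Mc0
  have htau0 := n.tau0
  have hLm1 := h.Lm1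
  have haD := n.aD
  have haO := n.aO
  have hepsp := n.eps
  have htH := n.tH
  have htT := n.tT
  have haD' := n.aD'
  have ht20 := n.t20
  have hkk0 := n.kk0
  have hdT0 := n.dT0
  have hKT : 0 ≤ T4.KT q (144 * C ^ 2) := by
    unfold T4.KT
    positivity
  have hBD : 0 ≤ BD := le_trans (by positivity) n.BD
  have hBO : 0 ≤ BO := le_trans (by positivity) n.BO
  have hBH : 0 ≤ BH := le_trans (by positivity) n.BH
  have hBT : 0 ≤ BT := le_trans (by positivity) n.BT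
  set Γ : Fin 5 → (T → Option D) → ℝ := ![P.GamD X e f.aD (2 * q), P.GamO X e f.aO (2 * q),
    P.GamH X e rho f.eps f.tH (2 * q) a z, P.GamT X Y e f.tT (2 * q), GF] with hΓ
  set Ap : Fin 5 → (T → Option D) → Prop := ![
    fun s => ∀ x ∈ X, ‖P.G s x x - P.G nil x x‖ ≤ f.aD', fun s => P.Ent X f.aO' s,
    fun s => ∀ k, ∀ x ∈ X, ‖∑ y, P.G s x y ^ 2 * (a k s y : ℂ)‖ ≤
      ∑ y, ‖P.G s x y‖ ^ 2 * z k s y + (f.eps + f.tH' k),
    fun s => ∀ x ∈ X, P.Tx Y s x ≤ P.Tx Y nil x + f.tT', fun s => P.FormLe B f.de s] with hAp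
  have hAll : ∀ s, (∀ i, Ap i s) → AP P X Y B f a z s := fun s hs =>
    ⟨hs 0, hs 1, hs 2, hs 3, hs 4⟩
  have hΓ0 : ∀ i, Γ i nil = 0 := by
    intro i
    fin_cases i
    · exact GamD_nil f.aD hp1
    · exact GamO_nil f.aO hp1
    · exact GamH_nil n.eps hp1 h3
    · exact GamT_nil f.tT hp1
    · exact hF0
  have hΓn : ∀ i s, 0 ≤ Γ i s := by
    intro i s
    fin_cases i
    · exact GamD_nonneg he f.aD _ s
    · exact GamO_nonneg he f.aO _ s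
    · exact GamH_nonneg he n.rho0 f.eps f.tH _ a z s
    · exact GamT_nonneg he f.tT _ s
    · exact hFn s
  have hApu : ∀ i s, Γ i s ≤ 1 → Ap i s := by
    intro i s hs
    fin_cases i
    · exact GamD_use he n.aD n.aD' n.uD hs
    · exact GamO_use he n.aO n.aO' n.uO hs
    · exact fun k => GamH_use he n.rho0 n.tH (n.tH' k) (n.uH k) hs
    · exact GamT_use he n.tT n.tT' n.uT hs
    · exact hFu s hs
  have hcomp : ∀ i s, (∀ j, Ap j s) → (∀ j, Γ j s ≤ 1) →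
      CompAt P.g.P (Γ i) s (KAll q C KF) (![BD, BO, BH, BT, BF] i) (1 / 20) := by
    intro i s hs hs1
    have ap := hAll s hs
    have hE1 : P.Ent X 1 s := fun x hx y hy => (ap.ent x hx y hy).trans n.aO1
    have hTL : P.TauLe X Y (fun _ => T0 + f.tT') s := fun x hx => by
      have h1 := ap.tau x hx
      have h2 := hT0 x hx
      unfold Stp.Tx at h1 h2
      linarith
    have htau : ∀ x ∈ X, ∑ w, be w ^ 2 * ‖P.G s x w‖ ^ 4 ≤ tau := fun x hx =>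
      (h.htau_of (kb := b0 ^ 2) (fun w => pow_le_pow_left₀ (h.be0 w) (hb0 w) 2) hNY hTL x hx).trans
        n.taub
    fin_cases i
    · exact (h.compD (2 * q) hp2 hE1 hb0 hb00 n.bsm n.tau0 htau hMc n.aD (by norm_num)
        (by norm_num) n.cD (hs1 0)).weaken (hΓn 0 s) hK3 n.BD le_rfl
    · exact (h.compO (2 * q) hp2 hE1 hb0 hb00 n.bsm n.tau0 htau hMc n.aD' ap.dia n.aO
        (by norm_num) (by norm_num) n.cO (hs1 1)).weaken (hΓn 1 s) hK2 n.BO le_rfl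
    · choose da hda using fun k => (hW s hE1 k).1
      choose dz hdz using fun k => (hW s hE1 k).2
      exact (h.compH (2 * q) hp2 hE1 hb0 hb00 n.bsm n.tau0 htau hMc n.aD' ap.dia a z da dz hda hdz
        n.rho0 n.rho1 n.eps n.tH n.t2t n.t20 n.t21 (by norm_num) (by norm_num) n.cH
        (hs1 2)).weaken (hΓn 2 s) hK1 n.BH le_rfl
    · have hB9 : T4.KT q (144 * C ^ 2) * (2 * Lm) ^ 2 * (∑ w ∈ N, 9 * be w ^ 2) *
          (dT ^ q / (kk * f.tT) ^ 2) ≤ T4.KT q (144 * C ^ 2) * (2 * Lm) ^ 2 * (9 * Mc) *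
          (dT ^ q / (kk * f.tT) ^ 2) := by
        refine mul_le_mul_of_nonneg_right (mul_le_mul_of_nonneg_left ?_ (by positivity))
          (by positivity)
        rw [← Finset.mul_sum]
        have : ∑ w ∈ N, be w ^ 2 ≤ ∑ w, be w ^ 2 :=
          Finset.sum_le_univ_sum_of_nonneg fun w => sq_nonneg _
        linarith
      have hD : ∀ w ∈ N, ‖∑ d, (P.g.P w d : ℂ) * P.u s w (some d) - P.u s w none‖ ≤
          ep * (9 * be w ^ 2) := by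
        intro w hw
        have h1 := h.Dl_le hE1 w
        unfold Stp.Dl at h1
        have h2 := ap.dia w (h.NX hw)
        rw [G_nil_gt] at h2
        have h3 : 200 * C ^ 3 * be w ≤ 200 * C ^ 3 * b0 :=
          mul_le_mul_of_nonneg_left (hb0 w) (by positivity)
        have h4 := n.epD
        refine h1.trans ?_
        have h5 : ‖P.G s w w - P.gt w‖ + 200 * C ^ 3 * be w ≤ 9 * ep := by linarith
        calc be w ^ 2 * (‖P.G s w w - P.gt w‖ + 200 * C ^ 3 * be w) ≤ be w ^ 2 * (9 * ep) :=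
              mul_le_mul_of_nonneg_left h5 (sq_nonneg _)
          _ = _ := by ring
      refine (h.compT n.kk0 hkk (kb := kb) (fun w => ?_) hE1 hYX (tau := tau4) (fun x hx => ?_)
        n.tau41 (hII s ap) n.ep0 hD n.tT n.cT5 n.dT0 n.dT1 hq n.cT1 n.cT2 n.cT3 n.cT4 hB9
        (by norm_num) (by norm_num) n.cT (hs1 3)).weaken (hΓn 3 s) hK2 ?_ le_rfl
      · have h1 : be w ^ 2 ≤ b0 ^ 2 := pow_le_pow_left₀ (h.be0 w) (hb0 w) 2
        linarith [n.kb9]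
      · have h1 := ap.tau x hx
        have h2 := hT0 x hx
        exact (mul_le_mul_of_nonneg_left (by linarith) n.kk0.le).trans n.tau4k
      · refine le_trans (le_of_eq ?_) n.BT
        ring
    · exact (hFc s ap (hs1 4)).weaken (hΓn 4 s) hK4 le_rfl le_rfl
  have hBn : ∀ i, 0 ≤ (![BD, BO, BH, BT, BF] : Fin 5 → ℝ) i := by
    intro i
    fin_cases i
    · exact hBD
    · exact hBO
    · exact hBH
    · exact hBT
    · exact hBF
  have hdl : ∑ _i : Fin 5, (1 / 20 : ℝ) ≤ 1 / 4 := by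
    rw [Finset.sum_const, Finset.card_univ, Fintype.card_fin]
    norm_num
  have hmain := core_abs h.dig.P0 h.dig.P1 Γ Ap hKA ![BD, BO, BH, BT, BF] (fun _ => 1 / 20) hΓ0
    hΓn hBn hdl hApu hcomp
  refine (PrMono h.dig.P0 fun o ho => ?_).trans (hmain.trans (le_of_eq ?_))
  · exact fun h1 => ho (hAll _ h1)
  · have e1 : ∑ i, (![BD, BO, BH, BT, BF] : Fin 5 → ℝ) i = BD + BO + BH + BT + BF := by
      simp [Fin.sum_univ_five]
    rw [e1, Fintype.card_fin]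
    have e2 : (32 : ℝ) * ((((5 : ℕ) : ℝ) + 1) * (BD + BO + BH + BT + BF)) =
        192 * (BD + BO + BH + BT + BF) := by push_cast; ring
    have e3 : (32 : ℝ) * (KAll q C KF * (((5 : ℕ) : ℝ) + 1)) = 192 * KAll q C KF := by
      push_cast; ring
    rw [e2, e3]

end Pool.Agent.ANS
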