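import Pool.Agent.ANS.ObsOkB
import Pool.Agent.ANS.T4.TopB
import Pool.Agent.ANS.EngR
import Pool.Agent.ANS.Frz

/-! # ANS FRZB: THE FROZEN STEP THEOREM FOR GENERAL LAWS (Part B)

The same five components as in `Frz`: diagonal entries, all entries, (H3) for a family of pairs of
weights (`ObsOkB`), fourth power sums over the sites of `Y` with a good value (`T4/TopB`), and form
(functional `GF` with its one-sided component estimate `CompB`).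

ROWS: the functionals run over the rows `Xr` with `N ⊆ Xr ⊆ X` (the inert sites far from the cell are
left out); the deterministic hypotheses `hfar`, `hfarT` give the facts at all rows `X`. -/

set_option autoImplicit false
set_option linter.unusedSectionVars false

open Finset Function Matrix

noncomputable section

namespace Pool.Agent.ANS

open Pool.Agent.Kin Pool.Agent.APS Pool.Agent.ANL Stp

variable {T D : Type} [Fintype T] [DecidableEq T] [Fintype D] [DecidableEq D]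
  {L : Type} [Fintype L]

/-- A PRIORI FACTS at the configuration `s`, general laws -/
structure APB (P : Stp T D) (ok : T → Option D → Prop) (X Xr Y B : Finset T) (f : FTol L)
    (a z : L → (T → Option D) → T → ℝ) (s : T → Option D) : Prop where
  dia : ∀ x ∈ X, ‖P.G s x x - P.G nil x x‖ ≤ f.aD'
  ent : P.Ent X f.aO' s
  h3 : ∀ k, ∀ x ∈ Xr, ‖∑ y, P.G s x y ^ 2 * (a k s y : ℂ)‖ ≤
    ∑ y, ‖P.G s x y‖ ^ 2 * z k s y + (f.eps + f.tH' k)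
  tau : ∀ x ∈ X, P.Tx (Yo ok Y s) s x ≤ P.Tx Y nil x + f.tT'
  form : P.FormLe B f.de s

/-- NUMERICAL CONDITIONS, general laws; `p = 2q`; the rows get half of the tolerances -/
structure FNumB (f : FTol L) (rho : L → ℝ) (Xr : Finset T) (e : T → Option D → ℝ)
    (C Lm b0 Mc T0 tau t2 kk kb tau4 ep iot dT BD BO BH BT : ℝ) (q : ℕ) : Prop where
  q1 : 1 ≤ q
  b00 : 0 ≤ b0
  bsm : 500 * C ^ 6 * b0 ≤ 1
  Mc0 : 0 ≤ Mc
  T00 : 0 ≤ T0
  tau0 : 0 ≤ tau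
  taub : b0 ^ 2 * (T0 + f.tT') ≤ tau
  t20 : 0 ≤ t2
  t21 : t2 ≤ 1
  t2t : tau ≤ t2 ^ 2
  kk0 : 0 < kk
  kb9 : 9 * b0 ^ 2 ≤ kb
  tau4k : kk * (T0 + f.tT') ≤ tau4
  tau41 : tau4 ≤ 1
  ep0 : 0 ≤ ep
  epD : f.aD' + 200 * C ^ 3 * b0 ≤ 9 * ep
  dT0 : 0 ≤ dT
  dT1 : dT ≤ 1
  -- tolerances
  aD : 0 < f.aD
  aD' : 0 ≤ f.aD'
  aO : 0 < f.aO
  aO' : 0 ≤ f.aO'
  aO1 : f.aO' ≤ 1
  eps : 0 < f.eps
  tH : 0 < f.tH
  tH' : ∀ k, 0 ≤ f.tH' k
  tT : 0 < f.tT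
  tT' : 0 ≤ f.tT'
  uD : ∀ x ∈ Xr, ∀ b, 1 < e x b * (f.aD' / 2 / f.aD) ^ (2 * (2 * q))
  uO : ∀ x ∈ Xr, ∀ y ∈ Xr, ∀ b b', 1 < e x b * e y b' * (f.aO' / 2 / f.aO) ^ (2 * (2 * q))
  uH : ∀ k, ∀ x ∈ Xr, ∀ b, 1 < rho k * e x b * (f.tH' k / f.tH) ^ (2 * (2 * q))
  uT : ∀ x ∈ Xr, ∀ b, 1 < e x b * (f.tT' / 2 / f.tT) ^ (2 * (2 * q))
  rho0 : ∀ k, 0 ≤ rho k
  rho1 : ∑ k, rho k ≤ 1
  -- component D
  cD : KP (2 * q) * (((250 * C ^ 3) ^ 2 * tau / f.aD ^ 2) ^ (2 * q - 1) *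
      ((250 * C ^ 3) ^ 2 * (2 * C ^ 3) * (2 * Lm) ^ 2 * Mc / f.aD ^ 2)) ≤
    (1 / 20) ^ (2 * (2 * q))
  BD : 2 * (KP (2 * q) * ((4 * (2 * C ^ 3)) ^ (2 * (2 * q)) *
        (250 * C ^ 3 * b0 / f.aD) ^ (2 * (2 * q)) * Mc +
      ((250 * C ^ 3) ^ 2 * tau / f.aD ^ 2) ^ (2 * q - 1) *
        ((250 * C ^ 3) ^ 2 * (2 * C ^ 3) * (2 * Lm) ^ 2 * Mc / f.aD ^ 2))) ≤ BD
  -- component O
  cO : KP (2 * q) * (((250 * C ^ 3) ^ 2 * tau / f.aO ^ 2) ^ (2 * q - 1) *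
      ((250 * C ^ 3) ^ 2 * (2 * C ^ 3) ^ 2 * Mc / f.aO ^ 2)) ≤ (1 / 20) ^ (2 * (2 * q))
  BO : 2 * (KP (2 * q) *
      (((2 * (f.aD' + 250 * C ^ 3 * b0)) * (2 * C ^ 3) / f.aO) ^ (2 * (2 * q - 1)) *
        ((2 * (f.aD' + 250 * C ^ 3 * b0)) * (2 * C ^ 3) * Mc / f.aO) ^ 2 +
      ((250 * C ^ 3) ^ 2 * tau / f.aO ^ 2) ^ (2 * q - 1) *
        ((250 * C ^ 3) ^ 2 * (2 * C ^ 3) ^ 2 * Mc / f.aO ^ 2))) ≤ BO
  -- component H
  cH : KP (2 * q) * ((232 * (250 * C ^ 3) ^ 2 * (2 * C ^ 3) ^ 2 * t2 / f.tH ^ 2) ^ (2 * q - 1) *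
      (232 * (250 * C ^ 3) ^ 2 * (2 * C ^ 3) ^ 3 * (2 * Lm) ^ 2 * Mc / f.tH ^ 2)) ≤
    (1 / 20) ^ (2 * (2 * q))
  BH : 2 * (KP (2 * q) * (8 ^ (2 * (2 * q)) *
      ((2 * C ^ 3 * (f.eps + 14 * (250 * C ^ 3) ^ 2 * (2 * C ^ 3) * b0) / f.tH) ^
          (2 * (2 * q)) * Mc +
        (16 * (f.aD' + 250 * C ^ 3 * b0) ^ 2 * (2 * C ^ 3) ^ 3 / f.tH ^ 2) ^ (2 * q) * Mc +
        (464 * (250 * C ^ 3) ^ 2 * (2 * C ^ 3) ^ 2 * t2 / (f.eps * f.tH)) ^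
            (2 * (2 * q) - 1) *
          (464 * (250 * C ^ 3) ^ 2 * (2 * C ^ 3) ^ 3 * (2 * Lm) ^ 2 * Mc / (f.eps * f.tH))) +
      (232 * (250 * C ^ 3) ^ 2 * (2 * C ^ 3) ^ 2 * t2 / f.tH ^ 2) ^ (2 * q - 1) *
        (232 * (250 * C ^ 3) ^ 2 * (2 * C ^ 3) ^ 3 * (2 * Lm) ^ 2 * Mc / f.tH ^ 2))) ≤ BH
  -- component T
  cT1 : tau4 ^ 3 * ep ^ 4 ≤ dT * (kk * f.tT) ^ 4
  cT2 : iot ≤ dT * (kk * f.tT)
  cT3 : tau4 * iot ≤ dT * (kk * f.tT) ^ 2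
  cT4 : (2 * Lm) ^ 2 * (kb * tau4) ≤ dT * (kk * f.tT)
  cT5 : kk * f.tT ≤ 1
  cT : KP (2 * q) * (T4.KT q (18 * C ^ 3) * (2 * Lm) ^ 2 * (9 * Mc) *
      (dT ^ q / (kk * f.tT) ^ 2)) ≤ (1 / 20) ^ (2 * (2 * q))
  BT : 2 * (KP (2 * q) * (2 ^ (4 * q) * (T4.KT q (18 * C ^ 3) * (2 * Lm) ^ 2 * (9 * Mc) *
        (dT ^ q / (kk * f.tT) ^ 2)) + T4.KT q (18 * C ^ 3) * (2 * Lm) ^ 2 * (9 * Mc) *
      (dT ^ q / (kk * f.tT) ^ 2))) ≤ BT

/-- the factor of the total functional -/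
def KAllB (q : ℕ) (C KF : ℝ) : ℝ :=
  2 * (KP (2 * q) * (1 + (8 * (2 * C ^ 3)) ^ (2 * (2 * q)) * C)) + KF

theorem CompB.weaken {N A : Type} [Fintype N] [DecidableEq N] [Fintype A] {pr : N → A → ℝ}
    {ok : N → Option A → Prop} {Γ : (N → Option A) → ℝ} {s : N → Option A}
    {al be dl al' be' dl' : ℝ} (h : CompB pr ok Γ s al be dl) (h0 : 0 ≤ Γ s) (ha : al ≤ al')
    (hb : be ≤ be') (hd : dl ≤ dl') : CompB pr ok Γ s al' be' dl' := by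
  obtain ⟨l, q, m, h1, h2, h3, h4, h5, h6, h7, h8⟩ := h
  have : al * Γ s + be ≤ al' * Γ s + be' :=
    add_le_add (mul_le_mul_of_nonneg_right ha h0) hb
  exact ⟨l, q, m, h1, h2, h3, h4, h5, fun w hw b => (h6 w hw b).trans (by linarith),
    fun r hr => (h7 r hr).trans this, fun r hr => (h8 r hr).trans this⟩

/-- THE FROZEN STEP, GENERAL LAWS -/
theorem frozenB {P : Stp T D} {X Xr N Y B : Finset T} {c be : T → ℝ} {e : T → Option D → ℝ}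
    {C Lm R0 : ℝ} {ok : T → Option D → Prop} (h : P.OkB ok X N c be e C Lm)
    (hR2 : 2 ≤ R0) (hpk : ∀ w, R0 * pk P.g.P ok w ≤ R0 - 1) (hXr : Xr ⊆ X) (hNr : N ⊆ Xr)
    (hNY : N ⊆ Y) (hYr : Y ⊆ Xr) {f : FTol L}
    {rho : L → ℝ} {a z : L → (T → Option D) → T → ℝ}
    {b0 Mc T0 tau t2 kk kb tau4 ep iot dT BD BO BH BT BF KF : ℝ} {q : ℕ}
    (n : FNumB f rho Xr e C Lm b0 Mc T0 tau t2 kk kb tau4 ep iot dT BD BO BH BT q)
    (hb0 : ∀ w, be w ≤ b0) (hMc : ∑ w, be w ^ 2 ≤ Mc) (hT0 : ∀ x ∈ X, P.Tx Y nil x ≤ T0)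
    (hkk : ∀ y ∈ Y, kk ≤ C * P.eta nil y)
    (hW : ∀ s, P.Ent X 1 s → ∀ k,
      (∃ da, PB.WtAt P.g.P ok id (P.eta s) (bo ok be s) s (250 * C ^ 3) (a k) da) ∧
      ∃ dz, PB.WtAt P.g.P ok id (P.eta s) (bo ok be s) s (250 * C ^ 3) (z k) dz)
    (h3 : ∀ k, ∀ x ∈ Xr, ‖∑ y, P.G nil x y ^ 2 * (a k nil y : ℂ)‖ ≤
      ∑ y, ‖P.G nil x y‖ ^ 2 * z k nil y)
    (hfar : ∀ s, (∀ x ∈ Xr, ‖P.G s x x - P.G nil x x‖ ≤ f.aD' / 2) → P.Ent Xr (f.aO' / 2) s →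
      (∀ x ∈ X, ‖P.G s x x - P.G nil x x‖ ≤ f.aD') ∧ P.Ent X f.aO' s)
    (hfarT : ∀ s, P.Ent X f.aO' s →
      (∀ x ∈ Xr, P.Tx (Yo ok Y s) s x ≤ P.Tx Y nil x + f.tT' / 2) →
      ∀ x ∈ X, P.Tx (Yo ok Y s) s x ≤ P.Tx Y nil x + f.tT')
    (hII : ∀ s, APB P ok X Xr Y B f a z s →
      ∀ x : ↥X, T4.II (omY (Yo ok Y s) kk) (fun w : ↥N => 3 * bo ok be s w) (P.gX X s)
        (eN h.NX) x ≤ iot)
    (GF : (T → Option D) → ℝ) (hF0 : GF nil = 0) (hFn : ∀ s, 0 ≤ GF s)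
    (hFu : ∀ s, (∀ x ∈ X, ‖P.G s x x - P.G nil x x‖ ≤ f.aD') → P.Ent X f.aO' s → GF s ≤ 1 →
      P.FormLe B f.de s)
    (hFc : ∀ s, APB P ok X Xr Y B f a z s → GF s ≤ 1 → CompB P.g.P ok GF s KF BF (1 / 20))
    (hKF : 0 ≤ KF) (hBF : 0 ≤ BF) :
    ANP.Pr P.g.P {o | ¬ APB P ok X Xr Y B f a z (full o)} ≤
      96 * R0 * (BD + BO + BH + BT + BF) * Real.exp (96 * R0 * KAllB q C KF) := by
  have hC1 := h.C1
  have hC0 : 0 ≤ C := h.C0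
  have hq := n.q1
  have hp2 : 2 ≤ 2 * q := by omega
  have hp1 : 1 ≤ 2 * q := by omega
  have he : ∀ x ∈ Xr, ∀ b, 0 < e x b := fun x hx => h.e0 x (hXr hx)
  have hb00 := n.b00
  have hR00 : 0 ≤ R0 := by linarith
  have hKP := KP_nonneg (2 * q)
  have hX8 : 0 ≤ (8 * (2 * C ^ 3)) ^ (2 * (2 * q)) * C := by positivity
  have hKH : 2 * (KP (2 * q) * (1 + (8 * (2 * C ^ 3)) ^ (2 * (2 * q)) * C)) ≤
      KAllB q C KF := by
    unfold KAllB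
    linarith
  have hKO : 2 * KP (2 * q) ≤ KAllB q C KF := by
    refine le_trans ?_ hKH
    nlinarith [mul_nonneg hKP hX8]
  have hKD : 2 * (KP (2 * q) * (1 + (4 * (2 * C ^ 3)) ^ (2 * (2 * q)) * C)) ≤
      KAllB q C KF := by
    refine le_trans (mul_le_mul_of_nonneg_left (mul_le_mul_of_nonneg_left (add_le_add le_rfl
      (mul_le_mul_of_nonneg_right ?_ hC0)) hKP) (by norm_num)) hKH
    refine pow_le_pow_left₀ (by positivity) ?_ _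
    have : 0 ≤ C ^ 3 := by positivity
    linarith
  have hKH0 : 0 ≤ 2 * (KP (2 * q) * (1 + (8 * (2 * C ^ 3)) ^ (2 * (2 * q)) * C)) := by
    positivity
  have hKFl : KF ≤ KAllB q C KF := by
    unfold KAllB
    linarith
  have hKA : 0 ≤ KAllB q C KF := hKF.trans hKFl
  -- nonnegativity of the additive constants
  have hMc0 := n.Mc0
  have htau0 := n.tau0
  have hLm1 := h.Lm1
  have haD := n.aD
  have haO := n.aO
  have hepsp := n.eps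
  have htH := n.tH
  have htT := n.tT
  have haD' := n.aD'
  have haO' := n.aO'
  have htT' := n.tT'
  have ht20 := n.t20
  have hkk0 := n.kk0
  have hdT0 := n.dT0
  have hKT : 0 ≤ T4.KT q (18 * C ^ 3) := by
    unfold T4.KT
    positivity
  have hBD : 0 ≤ BD := le_trans (by positivity) n.BD
  have hBO : 0 ≤ BO := le_trans (by positivity) n.BO
  have hBH : 0 ≤ BH := le_trans (by positivity) n.BH
  have hBT : 0 ≤ BT := le_trans (by positivity) n.BT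
  set Γ : Fin 5 → (T → Option D) → ℝ := ![P.GamDB Xr e f.aD (2 * q), P.GamOB Xr e f.aO (2 * q),
    P.GamHB Xr e rho f.eps f.tH (2 * q) a z, P.GamTB ok Xr Y e f.tT (2 * q), GF] with hΓ
  set Ap : Fin 5 → (T → Option D) → Prop := ![
    fun s => ∀ x ∈ Xr, ‖P.G s x x - P.G nil x x‖ ≤ f.aD' / 2, fun s => P.Ent Xr (f.aO' / 2) s,
    fun s => ∀ k, ∀ x ∈ Xr, ‖∑ y, P.G s x y ^ 2 * (a k s y : ℂ)‖ ≤
      ∑ y, ‖P.G s x y‖ ^ 2 * z k s y + (f.eps + f.tH' k),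
    fun s => ∀ x ∈ Xr, P.Tx (Yo ok Y s) s x ≤ P.Tx Y nil x + f.tT' / 2,
    fun s => GF s ≤ 1] with hAp
  have hAll : ∀ s, (∀ i, Ap i s) → APB P ok X Xr Y B f a z s := fun s hs => by
    have h1 := hfar s (hs 0) (hs 1)
    exact ⟨h1.1, h1.2, hs 2, hfarT s h1.2 (hs 3), hFu s h1.1 h1.2 (hs 4)⟩
  have hΓ0 : ∀ i, Γ i nil = 0 := by
    intro i
    fin_cases i
    · exact GamDB_nil f.aD hp1
    · exact GamOB_nil f.aO hp1
    · exact GamHB_nil n.eps hp1 h3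
    · exact GamTB_nil h.okn Y f.tT hp1
    · exact hF0
  have hΓn : ∀ i s, 0 ≤ Γ i s := by
    intro i s
    fin_cases i
    · exact GamDB_nonneg he f.aD _ s
    · exact GamOB_nonneg he f.aO _ s
    · exact GamHB_nonneg he n.rho0 f.eps f.tH _ a z s
    · exact GamTB_nonneg he Y f.tT _ s
    · exact hFn s
  have hApu : ∀ i s, Γ i s ≤ 1 → Ap i s := by
    intro i s hs
    fin_cases i
    · exact GamDB_use he n.aD (by positivity) n.uD hs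
    · exact GamOB_use he n.aO (by positivity) n.uO hs
    · exact fun k => GamHB_use he n.rho0 n.tH (n.tH' k) (n.uH k) hs
    · exact GamTB_use he n.tT (by positivity) n.uT hs
    · exact hs
  have hcomp : ∀ i s, (∀ j, Ap j s) → (∀ j, Γ j s ≤ 1) →
      CompB P.g.P ok (Γ i) s (KAllB q C KF) (![BD, BO, BH, BT, BF] i) (1 / 20) := by
    intro i s hs hs1
    have ap := hAll s hs
    have hE1 : P.Ent X 1 s := fun x hx y hy => (ap.ent x hx y hy).trans n.aO1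
    have hTL : P.TauLe Xr (Yo ok Y s) (fun _ => T0 + f.tT') s := fun x hx => by
      have h1 := ap.tau x (hXr hx)
      have h2 := hT0 x (hXr hx)
      show P.Tx (Yo ok Y s) s x ≤ T0 + f.tT'
      linarith
    have htau : ∀ x ∈ Xr, ∑ w, bo ok be s w ^ 2 * ‖P.G s x w‖ ^ 4 ≤ tau := fun x hx =>
      (h.htau_of' (kb := b0 ^ 2) (fun w => pow_le_pow_left₀ (h.be0 w) (hb0 w) 2)
        (fun w hw hk => mem_Yo.2 ⟨hNY hw, hk⟩) hTL x hx).trans n.taub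
    fin_cases i
    · exact (h.compD hXr hNr (2 * q) hp2 hE1 hb0 hb00 n.bsm n.tau0 htau hMc n.aD (by norm_num)
        (by norm_num) n.cD (hs1 0)).weaken (hΓn 0 s) hKD n.BD le_rfl
    · exact (h.compO hXr hNr (2 * q) hp2 hE1 hb0 hb00 n.bsm n.tau0 htau hMc n.aD'
        (fun x hx => ap.dia x (hXr hx)) n.aO
        (by norm_num) (by norm_num) n.cO (hs1 1)).weaken (hΓn 1 s) hKO n.BO le_rfl
    · choose da hda using fun k => (hW s hE1 k).1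
      choose dz hdz using fun k => (hW s hE1 k).2
      exact (h.compH hXr hNr (2 * q) hp2 hE1 hb0 hb00 n.bsm n.tau0 htau hMc n.aD'
        (fun x hx => ap.dia x (hXr hx)) a z da dz hda hdz
        n.rho0 n.rho1 n.eps n.tH n.t2t n.t20 n.t21 (by norm_num) (by norm_num) n.cH
        (hs1 2)).weaken (hΓn 2 s) hKH n.BH le_rfl
    · have hB9 : T4.KT q (18 * C ^ 3) * (2 * Lm) ^ 2 * (∑ w ∈ N, 9 * be w ^ 2) *
          (dT ^ q / (kk * f.tT) ^ 2) ≤ T4.KT q (18 * C ^ 3) * (2 * Lm) ^ 2 * (9 * Mc) *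
          (dT ^ q / (kk * f.tT) ^ 2) := by
        refine mul_le_mul_of_nonneg_right (mul_le_mul_of_nonneg_left ?_ (by positivity))
          (by positivity)
        rw [← Finset.mul_sum]
        have : ∑ w ∈ N, be w ^ 2 ≤ ∑ w, be w ^ 2 :=
          Finset.sum_le_univ_sum_of_nonneg fun w => sq_nonneg _
        linarith
      have hD : ∀ w ∈ N, ok w (s w) →
          ‖∑ d, (P.g.P w d : ℂ) * P.u s w (some d) - P.u s w none‖ ≤ ep * (9 * be w ^ 2) := by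
        intro w hw _
        have h1 := h.Dl_le hE1 w
        unfold Stp.Dl at h1
        have h2 := ap.dia w (h.NX hw)
        rw [G_nil_gt] at h2
        have h3 : 200 * C ^ 3 * be w ≤ 200 * C ^ 3 * b0 :=
          mul_le_mul_of_nonneg_left (hb0 w) (by positivity)
        have h4 := n.epD
        refine h1.trans ?_
        have h5 : ‖P.G s w w - P.gt w‖ + 200 * C ^ 3 * be w ≤ 9 * ep := by linarith
        calc be w ^ 2 * (‖P.G s w w - P.gt w‖ + 200 * C ^ 3 * be w) ≤ be w ^ 2 * (9 * ep) :=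
              mul_le_mul_of_nonneg_left h5 (sq_nonneg _)
          _ = _ := by ring
      refine (h.compTB hXr hNr hYr n.kk0 hkk (kb := kb) (fun w => ?_) hE1 (tau := tau4)
        (fun x hx => ?_) n.tau41 (fun x _ => hII s ap x) n.ep0 hD n.tT n.cT5 n.dT0 n.dT1 hq n.cT1 n.cT2 n.cT3
        n.cT4 hB9 (by norm_num) (by norm_num) n.cT (hs1 3)).weaken (hΓn 3 s) hKO n.BT le_rfl
      · have h1 : be w ^ 2 ≤ b0 ^ 2 := pow_le_pow_left₀ (h.be0 w) (hb0 w) 2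
        linarith [n.kb9]
      · have h1 := ap.tau x (hXr hx)
        have h2 := hT0 x (hXr hx)
        exact (mul_le_mul_of_nonneg_left (by linarith) n.kk0.le).trans n.tau4k
    · exact (hFc s ap (hs1 4)).weaken (hΓn 4 s) hKFl le_rfl le_rfl
  have hBn : ∀ i, 0 ≤ (![BD, BO, BH, BT, BF] : Fin 5 → ℝ) i := by
    intro i
    fin_cases i
    · exact hBD
    · exact hBO
    · exact hBH
    · exact hBT
    · exact hBF
  have hdl : ∑ _i : Fin 5, (1 / 20 : ℝ) ≤ 1 / 4 := by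
    rw [Finset.sum_const, Finset.card_univ, Fintype.card_fin]
    norm_num
  have hmain := core_absR hR2 h.dig.P0 h.dig.P1 h.okn hpk Γ Ap (s0 := 1 / 4) (by norm_num)
    le_rfl hKA ![BD, BO, BH, BT, BF] (fun _ => 1 / 20) hΓ0 hΓn hBn hdl hApu hcomp
  refine (PrMono h.dig.P0 fun o ho => ?_).trans (hmain.trans (le_of_eq ?_))
  · exact fun h1 => ho (hAll _ h1)
  · have e1 : ∑ i, (![BD, BO, BH, BT, BF] : Fin 5 → ℝ) i = BD + BO + BH + BT + BF := by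
      simp [Fin.sum_univ_five]
    rw [e1, Fintype.card_fin]
    have e2 : 2 * (R0 / 2 * ((((5 : ℕ) : ℝ) + 1) * (BD + BO + BH + BT + BF))) / (1 / 4) ^ 2 =
        96 * R0 * (BD + BO + BH + BT + BF) := by push_cast; ring
    have e3 : 2 * (R0 / 2 * (KAllB q C KF * (((5 : ℕ) : ℝ) + 1))) / (1 / 4) ^ 2 =
        96 * R0 * KAllB q C KF := by
      push_cast; ring
    rw [e2, e3]

end Pool.Agent.ANS
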