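import Pool.Agent.ANS.StepAP
import Pool.Agent.ANS.FrzB

/-! # ANS / StepAPB: from the a priori facts for the representatives to the frozen step, general laws (helper52)

* `Stp.OkB.far_diff`, `Stp.OkB.far_sq`: a row `x` which is far from the noise sites hardly changes:
  `∑_y η_y(s) |G_xy(s) - G_xy|² ≤ 2 C δ²` if `∑_{w ∈ N} |G_xw| ≤ δ` (start medium).
* `row_far`: (H3) in such a row: from the start to the configuration `s`, error `14 C δ` (normalised weights).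
* `frz_of_apb`: `APB` of the representatives gives `Frz` for all rows. -/

set_option autoImplicit false
set_option linter.unusedSectionVars false

open Matrix Finset Function

noncomputable section

namespace Pool.Agent.ANS

open Pool.Agent.Kin Pool.Agent.APS Pool.Agent.ANL

section abs

variable {T : Type} [Fintype T] [DecidableEq T]

/-- (H3) in a row which hardly changes -/
theorem row_far (g g0 : T → ℂ) (a z a0 z0 eta eta0 : T → ℝ) (N : Finset T) {Q C δ : ℝ}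
    (h0 : ‖∑ y, g0 y ^ 2 * (a0 y : ℂ)‖ ≤ ∑ y, ‖g0 y‖ ^ 2 * z0 y)
    (ha : ∀ y, 0 ≤ a y) (hz : ∀ y, 0 ≤ z y) (ha0 : ∀ y, 0 ≤ a0 y) (hz0 : ∀ y, 0 ≤ z0 y)
    (hae : ∀ y, a y ≤ eta y) (hze : ∀ y, z y ≤ eta y) (hae0 : ∀ y, a0 y ≤ eta0 y)
    (hze0 : ∀ y, z0 y ≤ eta0 y) (hee : ∀ y, eta y ≤ eta0 y) (he0C : ∀ y, eta0 y ≤ C)
    (hoff : ∀ y, y ∉ N → a y = a0 y ∧ z y = z0 y)
    (hS : ∑ y, eta y * ‖g y‖ ^ 2 ≤ Q) (hD : ∑ y, eta y * ‖g y - g0 y‖ ^ 2 ≤ Q * δ ^ 2)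
    (hN : ∑ y ∈ N, ‖g0 y‖ ≤ δ) (hδ : 0 < δ) (hC : 0 ≤ C) :
    ‖∑ y, g y ^ 2 * (a y : ℂ)‖ ≤ ∑ y, ‖g y‖ ^ 2 * z y + (4 * Q * δ + 2 * Q * δ ^ 2 +
      2 * C * δ ^ 2) := by
  have hQ : 0 ≤ Q := le_trans (Finset.sum_nonneg fun y _ =>
    mul_nonneg ((ha y).trans (hae y)) (sq_nonneg _)) hS
  have heta : ∀ y, 0 ≤ eta y := fun y => (ha y).trans (hae y)
  -- the left side
  have e1 : ∑ y, g y ^ 2 * (a y : ℂ) = ∑ y, g0 y ^ 2 * (a0 y : ℂ) +
      (∑ y, (g y ^ 2 - g0 y ^ 2) * (a y : ℂ) + ∑ y, g0 y ^ 2 * ((a y - a0 y : ℝ) : ℂ)) := by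
    rw [← Finset.sum_add_distrib, ← Finset.sum_add_distrib]
    refine Finset.sum_congr rfl fun y _ => ?_
    push_cast
    ring
  have hg : ∀ y, ‖g y ^ 2 - g0 y ^ 2‖ ≤ 2 * ‖g y - g0 y‖ * ‖g y‖ + ‖g y - g0 y‖ ^ 2 := by
    intro y
    have f1 : g y ^ 2 - g0 y ^ 2 = (g y - g0 y) * (2 * g y - (g y - g0 y)) := by ring
    rw [f1, norm_mul]
    have f2 : ‖2 * g y - (g y - g0 y)‖ ≤ 2 * ‖g y‖ + ‖g y - g0 y‖ := by
      refine (norm_sub_le _ _).trans ?_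
      rw [norm_mul]
      simp
    calc _ ≤ ‖g y - g0 y‖ * (2 * ‖g y‖ + ‖g y - g0 y‖) :=
          mul_le_mul_of_nonneg_left f2 (norm_nonneg _)
      _ = _ := by ring
  have hg2 : ∀ y, ‖g0 y‖ ^ 2 - ‖g y‖ ^ 2 ≤ 2 * ‖g y - g0 y‖ * ‖g y‖ + ‖g y - g0 y‖ ^ 2 := by
    intro y
    have f1 : ‖g0 y‖ ≤ ‖g y‖ + ‖g y - g0 y‖ := by
      have : g0 y = g y - (g y - g0 y) := by ring
      calc ‖g0 y‖ = ‖g y - (g y - g0 y)‖ := by rw [← this]
        _ ≤ _ := norm_sub_le _ _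
    have f2 := norm_nonneg (g0 y)
    have f3 := norm_nonneg (g y)
    have f4 := norm_nonneg (g y - g0 y)
    nlinarith
  have hmain : ∀ y, eta y * (2 * ‖g y - g0 y‖ * ‖g y‖ + ‖g y - g0 y‖ ^ 2) ≤
      (1 / δ + 1) * (eta y * ‖g y - g0 y‖ ^ 2) + δ * (eta y * ‖g y‖ ^ 2) := by
    intro y
    have f1 : 2 * ‖g y - g0 y‖ * ‖g y‖ ≤ 1 / δ * ‖g y - g0 y‖ ^ 2 + δ * ‖g y‖ ^ 2 := by
      have f2 : 0 ≤ 1 / δ * (‖g y - g0 y‖ - δ * ‖g y‖) ^ 2 := by positivity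
      have f3 : 1 / δ * (‖g y - g0 y‖ - δ * ‖g y‖) ^ 2 =
          1 / δ * ‖g y - g0 y‖ ^ 2 - 2 * ‖g y - g0 y‖ * ‖g y‖ + δ * ‖g y‖ ^ 2 := by
        field_simp
        ring
      linarith
    have f4 := mul_le_mul_of_nonneg_left f1 (heta y)
    nlinarith
  have hsum : ∑ y, eta y * (2 * ‖g y - g0 y‖ * ‖g y‖ + ‖g y - g0 y‖ ^ 2) ≤
      2 * Q * δ + Q * δ ^ 2 := by
    calc _ ≤ ∑ y, ((1 / δ + 1) * (eta y * ‖g y - g0 y‖ ^ 2) + δ * (eta y * ‖g y‖ ^ 2)) :=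
          Finset.sum_le_sum fun y _ => hmain y
      _ = (1 / δ + 1) * ∑ y, eta y * ‖g y - g0 y‖ ^ 2 + δ * ∑ y, eta y * ‖g y‖ ^ 2 := by
          rw [Finset.sum_add_distrib, Finset.mul_sum, Finset.mul_sum]
      _ ≤ (1 / δ + 1) * (Q * δ ^ 2) + δ * Q :=
          add_le_add (mul_le_mul_of_nonneg_left hD (by positivity))
            (mul_le_mul_of_nonneg_left hS hδ.le)
      _ = _ := by
          field_simp
          ring
  -- the noise sites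
  have hNs : ∑ y, ‖g0 y‖ ^ 2 * (|a y - a0 y| + |z y - z0 y|) ≤ 2 * C * δ ^ 2 := by
    have f1 : ∑ y, ‖g0 y‖ ^ 2 * (|a y - a0 y| + |z y - z0 y|) =
        ∑ y ∈ N, ‖g0 y‖ ^ 2 * (|a y - a0 y| + |z y - z0 y|) := by
      symm
      refine Finset.sum_subset (Finset.subset_univ _) fun y _ hy => ?_
      rw [(hoff y hy).1, (hoff y hy).2]
      simp
    rw [f1]
    have f2 : ∀ y ∈ N, ‖g0 y‖ ^ 2 * (|a y - a0 y| + |z y - z0 y|) ≤ 2 * C * (‖g0 y‖ * δ) := by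
      intro y hy
      have g1 : |a y - a0 y| ≤ C := by
        rw [abs_le]
        have := ha y
        have := ha0 y
        have := hae y
        have := hae0 y
        have := hee y
        have := he0C y
        constructor <;> linarith
      have g2 : |z y - z0 y| ≤ C := by
        rw [abs_le]
        have := hz y
        have := hz0 y
        have := hze y
        have := hze0 y
        have := hee y
        have := he0C y
        constructor <;> linarith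
      have g3 : ‖g0 y‖ ≤ δ :=
        (Finset.single_le_sum (f := fun y => ‖g0 y‖) (fun y _ => norm_nonneg _) hy).trans hN
      have g4 := norm_nonneg (g0 y)
      calc ‖g0 y‖ ^ 2 * (|a y - a0 y| + |z y - z0 y|) ≤ ‖g0 y‖ ^ 2 * (C + C) :=
            mul_le_mul_of_nonneg_left (add_le_add g1 g2) (sq_nonneg _)
        _ = 2 * C * (‖g0 y‖ * ‖g0 y‖) := by ring
        _ ≤ 2 * C * (‖g0 y‖ * δ) := by
            refine mul_le_mul_of_nonneg_left (mul_le_mul_of_nonneg_left g3 g4) (by positivity)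
    calc _ ≤ ∑ y ∈ N, 2 * C * (‖g0 y‖ * δ) := Finset.sum_le_sum f2
      _ = 2 * C * ((∑ y ∈ N, ‖g0 y‖) * δ) := by rw [← Finset.mul_sum, Finset.sum_mul]
      _ ≤ 2 * C * (δ * δ) := by
          refine mul_le_mul_of_nonneg_left (mul_le_mul_of_nonneg_right hN hδ.le) (by positivity)
      _ = _ := by ring
  have e2 : ‖∑ y, (g y ^ 2 - g0 y ^ 2) * (a y : ℂ)‖ ≤
      ∑ y, eta y * (2 * ‖g y - g0 y‖ * ‖g y‖ + ‖g y - g0 y‖ ^ 2) := by
    refine (norm_sum_le _ _).trans (Finset.sum_le_sum fun y _ => ?_)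
    rw [norm_mul, Complex.norm_real, Real.norm_of_nonneg (ha y), mul_comm]
    exact mul_le_mul (hae y) (hg y) (norm_nonneg _) (heta y)
  have e3 : ‖∑ y, g0 y ^ 2 * ((a y - a0 y : ℝ) : ℂ)‖ ≤ ∑ y, ‖g0 y‖ ^ 2 * |a y - a0 y| := by
    refine (norm_sum_le _ _).trans (le_of_eq (Finset.sum_congr rfl fun y _ => ?_))
    rw [norm_mul, norm_pow, Complex.norm_real, Real.norm_eq_abs]
  have e4 : ∑ y, ‖g0 y‖ ^ 2 * z0 y ≤ ∑ y, ‖g y‖ ^ 2 * z y +
      (∑ y, eta y * (2 * ‖g y - g0 y‖ * ‖g y‖ + ‖g y - g0 y‖ ^ 2) +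
        ∑ y, ‖g0 y‖ ^ 2 * |z y - z0 y|) := by
    rw [← Finset.sum_add_distrib, ← Finset.sum_add_distrib]
    refine Finset.sum_le_sum fun y _ => ?_
    have f1 : ‖g0 y‖ ^ 2 * z0 y = ‖g y‖ ^ 2 * z y + (‖g0 y‖ ^ 2 - ‖g y‖ ^ 2) * z y +
        ‖g0 y‖ ^ 2 * (z0 y - z y) := by ring
    rw [f1]
    have f2 : (‖g0 y‖ ^ 2 - ‖g y‖ ^ 2) * z y ≤
        eta y * (2 * ‖g y - g0 y‖ * ‖g y‖ + ‖g y - g0 y‖ ^ 2) := by
      have g1 := hg2 y
      have g2 : 0 ≤ 2 * ‖g y - g0 y‖ * ‖g y‖ + ‖g y - g0 y‖ ^ 2 := by positivity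
      calc (‖g0 y‖ ^ 2 - ‖g y‖ ^ 2) * z y ≤
            (2 * ‖g y - g0 y‖ * ‖g y‖ + ‖g y - g0 y‖ ^ 2) * z y :=
            mul_le_mul_of_nonneg_right g1 (hz y)
        _ ≤ (2 * ‖g y - g0 y‖ * ‖g y‖ + ‖g y - g0 y‖ ^ 2) * eta y :=
            mul_le_mul_of_nonneg_left (hze y) g2
        _ = _ := mul_comm _ _
    have f3 : ‖g0 y‖ ^ 2 * (z0 y - z y) ≤ ‖g0 y‖ ^ 2 * |z y - z0 y| := by
      refine mul_le_mul_of_nonneg_left ?_ (sq_nonneg _)
      rw [abs_sub_comm]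
      exact le_abs_self _
    linarith
  have e5 : ∑ y, ‖g0 y‖ ^ 2 * (|a y - a0 y| + |z y - z0 y|) =
      ∑ y, ‖g0 y‖ ^ 2 * |a y - a0 y| + ∑ y, ‖g0 y‖ ^ 2 * |z y - z0 y| := by
    rw [← Finset.sum_add_distrib]
    exact Finset.sum_congr rfl fun y _ => by ring
  rw [e5] at hNs
  rw [e1]
  refine (norm_add_le _ _).trans ?_
  have e6 := norm_add_le (∑ y, (g y ^ 2 - g0 y ^ 2) * (a y : ℂ))
    (∑ y, g0 y ^ 2 * ((a y - a0 y : ℝ) : ℂ))
  linarith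

end abs

variable {T D : Type} [Fintype T] [DecidableEq T] [Fintype D]
variable {P : Stp T D} {X N : Finset T} {c be : T → ℝ} {e : T → Option D → ℝ} {C Lm : ℝ}
  {ok : T → Option D → Prop}

namespace Stp.OkB

variable (h : P.OkB ok X N c be e C Lm)
include h

theorem far_diff (s : T → Option D) (x y : T) :
    P.G s x y - P.G nil x y = -∑ w ∈ N, P.G nil x w * P.inc w (s w) * P.G s w y := by
  have h1 := adm_sub (h.adms nil) (h.adms s) x y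
  have h2 : P.G nil x y - P.G s x y = ∑ w ∈ N, P.G nil x w * P.inc w (s w) * P.G s w y := by
    unfold G
    rw [h1]
    symm
    have h3 : ∀ w, rsc P.H (P.bs nil) x w * P.inc w (s w) * rsc P.H (P.bs s) w y =
        rsc P.H (P.bs nil) x w * (P.bs s w - P.bs nil w) * rsc P.H (P.bs s) w y := by
      intro w
      have : P.bs s w - P.bs nil w = P.inc w (s w) := by
        simp [bs, nil, inc]
      rw [this]
    rw [Finset.sum_congr rfl fun w _ => h3 w]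
    refine Finset.sum_subset (Finset.subset_univ _) fun w _ hw => ?_
    have : P.bs s w - P.bs nil w = 0 := by
      simp [bs, h.inc_off hw]
    rw [this]
    ring
  rw [← h2]
  ring

theorem inc_le1 {w : T} (hw : w ∈ X) (d : Option D) : ‖P.inc w d‖ ≤ 1 := by
  have hC1 := h.C1
  cases d with
  | none => simp [inc]
  | some d =>
    have h1 := h.dig.xi_le w d
    have h2 := h.dig.zt_le w d
    have h3 := h.gt_le hw
    have h4 := h.bes w
    have h5 := h.be0 w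
    have h6 : ‖P.inc w (some d)‖ ≤ be w + be w ^ 2 * C := by
      unfold inc
      refine (norm_add_le _ _).trans (add_le_add ?_ ?_)
      · rw [Complex.norm_real]
        exact h1
      · rw [norm_mul, Complex.norm_real]
        exact mul_le_mul h2 h3 (norm_nonneg _) (sq_nonneg _)
    refine h6.trans ?_
    have h7 : C ≤ C ^ 2 := by nlinarith
    have h8 : be w ≤ 1 / 100 := by
      have : be w * 1 ≤ be w * C ^ 2 := mul_le_mul_of_nonneg_left (by nlinarith) h5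
      nlinarith
    have h9 : be w * C ≤ 1 / 100 := by
      have : be w * C ≤ be w * C ^ 2 := mul_le_mul_of_nonneg_left h7 h5
      nlinarith
    nlinarith

/-- a far row hardly changes -/
theorem far_sq {s : T → Option D} (hs : P.Ent X 1 s) {x : T} {δ : ℝ}
    (hδ : ∑ w ∈ N, ‖P.G nil x w‖ ≤ δ) :
    ∑ y, P.eta s y * ‖P.G s x y - P.G nil x y‖ ^ 2 ≤ 2 * C * δ ^ 2 := by
  have hC0 := h.C0
  have hδ0 : 0 ≤ δ := (Finset.sum_nonneg fun w _ => norm_nonneg _).trans hδ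
  have h1 : ∀ y, ‖P.G s x y - P.G nil x y‖ ^ 2 ≤
      δ * ∑ w ∈ N, ‖P.G nil x w‖ * ‖P.G s w y‖ ^ 2 := by
    intro y
    rw [h.far_diff, norm_neg]
    have e1 : ‖∑ w ∈ N, P.G nil x w * P.inc w (s w) * P.G s w y‖ ≤
        ∑ w ∈ N, ‖P.G nil x w‖ * ‖P.G s w y‖ := by
      refine (norm_sum_le _ _).trans (Finset.sum_le_sum fun w hw => ?_)
      rw [norm_mul, norm_mul]
      refine mul_le_mul_of_nonneg_right ?_ (norm_nonneg _)
      calc _ ≤ ‖P.G nil x w‖ * 1 :=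
            mul_le_mul_of_nonneg_left (h.inc_le1 (h.NX hw) _) (norm_nonneg _)
        _ = _ := mul_one _
    have e2 : (∑ w ∈ N, ‖P.G nil x w‖ * ‖P.G s w y‖) ^ 2 ≤
        (∑ w ∈ N, ‖P.G nil x w‖) * ∑ w ∈ N, ‖P.G nil x w‖ * ‖P.G s w y‖ ^ 2 := by
      refine Finset.sum_sq_le_sum_mul_sum_of_sq_eq_mul N (fun w _ => norm_nonneg _)
        (fun w _ => by positivity) fun w _ => ?_
      ring
    have e3 : 0 ≤ ∑ w ∈ N, ‖P.G nil x w‖ * ‖P.G s w y‖ ^ 2 :=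
      Finset.sum_nonneg fun w _ => by positivity
    calc _ ≤ (∑ w ∈ N, ‖P.G nil x w‖ * ‖P.G s w y‖) ^ 2 :=
          pow_le_pow_left₀ (norm_nonneg _) e1 2
      _ ≤ _ := e2
      _ ≤ _ := mul_le_mul_of_nonneg_right hδ e3
  have h2 : ∀ w ∈ N, ∑ y, P.eta s y * ‖P.G s w y‖ ^ 2 ≤ 2 * C := fun w hw => by
    have e1 := h.ward_s s w
    unfold S at e1
    rw [e1]
    exact h.io_le hs (h.NX hw)
  calc ∑ y, P.eta s y * ‖P.G s x y - P.G nil x y‖ ^ 2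
      ≤ ∑ y, P.eta s y * (δ * ∑ w ∈ N, ‖P.G nil x w‖ * ‖P.G s w y‖ ^ 2) :=
        Finset.sum_le_sum fun y _ => mul_le_mul_of_nonneg_left (h1 y) (h.eta0 s y)
    _ = δ * ∑ w ∈ N, ‖P.G nil x w‖ * ∑ y, P.eta s y * ‖P.G s w y‖ ^ 2 := by
        rw [Finset.mul_sum]
        have e1 : ∀ w ∈ N, δ * (‖P.G nil x w‖ * ∑ y, P.eta s y * ‖P.G s w y‖ ^ 2) =
            ∑ y, P.eta s y * (δ * (‖P.G nil x w‖ * ‖P.G s w y‖ ^ 2)) := by
          intro w _
          rw [Finset.mul_sum, Finset.mul_sum]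
          exact Finset.sum_congr rfl fun y _ => by ring
        rw [Finset.sum_congr rfl e1, Finset.sum_comm]
        refine Finset.sum_congr rfl fun y _ => ?_
        rw [Finset.mul_sum, Finset.mul_sum]
    _ ≤ δ * ∑ w ∈ N, ‖P.G nil x w‖ * (2 * C) := by
        refine mul_le_mul_of_nonneg_left (Finset.sum_le_sum fun w hw => ?_) hδ0
        exact mul_le_mul_of_nonneg_left (h2 w hw) (norm_nonneg _)
    _ = δ * (∑ w ∈ N, ‖P.G nil x w‖) * (2 * C) := by rw [← Finset.sum_mul]; ring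
    _ ≤ δ * δ * (2 * C) := by
        refine mul_le_mul_of_nonneg_right (mul_le_mul_of_nonneg_left hδ hδ0) (by positivity)
    _ = _ := by ring

/-- (H3) in a far row, normalised weights -/
theorem h3_far {s : T → Option D} (hs : P.Ent X 1 s) {x : T} (hx : x ∈ X) {δ : ℝ} (hδ0 : 0 < δ)
    (hδ1 : δ ≤ 1) (hδ : ∑ w ∈ N, ‖P.G nil x w‖ ≤ δ) (a z : (T → Option D) → T → ℝ)
    (h0 : ‖∑ y, P.G nil x y ^ 2 * (a nil y : ℂ)‖ ≤ ∑ y, ‖P.G nil x y‖ ^ 2 * z nil y)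
    (ha : ∀ s' y, 0 ≤ a s' y) (hz : ∀ s' y, 0 ≤ z s' y) (hae : ∀ s' y, a s' y ≤ P.eta s' y)
    (hze : ∀ s' y, z s' y ≤ P.eta s' y)
    (hoff : ∀ y, y ∉ N → a s y = a nil y ∧ z s y = z nil y) :
    ‖∑ y, P.G s x y ^ 2 * (a s y : ℂ)‖ ≤ ∑ y, ‖P.G s x y‖ ^ 2 * z s y + 14 * C * δ := by
  have hC0 := h.C0
  have hS : ∑ y, P.eta s y * ‖P.G s x y‖ ^ 2 ≤ 2 * C := by
    have e1 := h.ward_s s x
    unfold S at e1
    rw [e1]
    exact h.io_le hs hx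
  have hCe : ∀ y, P.eta nil y ≤ C := by
    intro y
    by_cases hy : y ∈ X
    · exact h.etaC y hy
    · rw [h.etaU y hy]
      exact hC0
  have h1 := row_far (P.G s x) (P.G nil x) (a s) (z s) (a nil) (z nil) (P.eta s) (P.eta nil) N
    h0 (ha s) (hz s) (ha nil) (hz nil) (hae s) (hze s) (hae nil) (hze nil) (h.etaLe s) hCe hoff hS
    (h.far_sq hs hδ) hδ hδ0 hC0
  refine h1.trans (add_le_add le_rfl ?_)
  have h2 : δ ^ 2 ≤ δ := by nlinarith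
  nlinarith

end Stp.OkB

end Pool.Agent.ANS

namespace Pool.Agent.AND

open Pool.Agent.Kin Pool.Agent.APS Pool.Agent.ANB Pool.Agent.ANS

variable {X : Type} [Fintype X] [DecidableEq X]
variable {L : Law X} {d Lt : ℕ} [NeZero Lt] {lam : ℝ} {nE n : ℕ}
variable {P : Par} {F : Fld (Tor d Lt)} {N : Finset (Tor d Lt)} {π π' : Prof (Tor d Lt)}
  {v v' : Tor d Lt → X} {M : Med (Tor d Lt)} {C1 cI : ℝ}

theorem rvL_off {ψ : ℕ → X → ℝ} {lev : Tor d Lt → ℕ} (s s' : Tor d Lt → Option X)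
    {y : Tor d Lt} (hy : y ∉ N) : rvL L ψ n N lev v s y = rvL L ψ n N lev v s' y := by
  unfold rvL
  rw [if_neg hy, if_neg hy]

/-- (H3) after the reading in a far row, normalised weights -/
theorem far_w (h : WtHyp L lam P F n N π v M C1 cI) {f : Fix}
    (hG : Good f (tolAt P (SfOf L lam nE) n F π v M) M)
    {N' : Finset (Tor d Lt)} (hNN : N ⊆ N')
    {ok : Tor d Lt → Option X → Prop} {cv be : Tor d Lt → ℝ} {ew : Tor d Lt → Option X → ℝ}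
    {C Lo : ℝ} (hOk : (M.stp (digOf L lam n N v)).OkB ok M.nr N' cv be ew C Lo)
    {s : Tor d Lt → Option X} (hs : (M.stp (digOf L lam n N v)).Ent M.nr 1 s)
    {K : ℕ} (hK : K ∈ Finset.Icc (n + 1) nE) {x : Tor d Lt} (hx : x ∈ M.nr) {δ : ℝ}
    (hδ0 : 0 < δ) (hδ1 : δ ≤ 1) (hδ : ∑ w ∈ N', ‖M.G x w‖ ≤ δ) :
    ‖∑ y, (M.stp (digOf L lam n N v)).G s x y ^ 2 * (wA L lam nE n K N π v M s y : ℂ)‖ ≤
      ∑ y, ‖(M.stp (digOf L lam n N v)).G s x y‖ ^ 2 * wZ L lam nE P F n K N π v M s y +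
        14 * C * δ := by
  have hK1 : n + 1 ≤ K := (Finset.mem_Icc.1 hK).1
  have hCu : C1 ≤ 4 * |C1| := by
    have := le_abs_self C1
    have := abs_nonneg C1
    linarith
  have hA := fun s' => wt_a (nE := nE) h hK1 hCu (abs_nonneg C1) s'
  have hZ := fun s' => wt_z (nE := nE) h hK1 hCu (abs_nonneg C1) s'
  refine hOk.h3_far hs hx hδ0 hδ1 ?_ (wA L lam nE n K N π v M) (wZ L lam nE P F n K N π v M)
    ?_ (fun s' => (hA s').a0) (fun s' => (hZ s').a0) (fun s' => (hA s').ae)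
    (fun s' => (hZ s').ae) fun y hy => ?_
  · rw [stp_G_nil]
    exact hδ
  · rw [stp_G_nil]
    exact start_w h hG hK hx
  · have hyN : y ∉ N := fun h1 => hy (hNN h1)
    constructor
    · unfold wA
      rw [rvL_off s ANS.nil hyN]
    · unfold wZ
      rw [rvL_off s ANS.nil hyN]

/-- **FROM THE REPRESENTATIVES TO THE FROZEN STEP, general laws** -/
theorem frz_of_apb (h : WtHyp L lam P F n N π v M C1 cI) {f : Fix}
    (hG : Good f (tolAt P (SfOf L lam nE) n F π v M) M)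
    {N' : Finset (Tor d Lt)} (hNN : N ⊆ N')
    {ok : Tor d Lt → Option X → Prop} {cv be : Tor d Lt → ℝ} {ew : Tor d Lt → Option X → ℝ}
    {C Lo : ℝ} (hOk : (M.stp (digOf L lam n N v)).OkB ok M.nr N' cv be ew C Lo)
    {R : Finset ℕ} {th cmin : ℝ}
    (hth : 0 ≤ th) (hc : 0 < cmin)
    (hcm : ∀ m, m ≤ n + 1 → ∀ a, ¬ L.wk m a → cmin ≤ cm L.p (L.q m) a)
    (hRn : ∀ k ∈ R, n + 1 ≤ k)
    (hR : ∀ K ∈ Finset.Icc (n + 1) nE, ∃ k ∈ R, |pT L.p L.wk K - pT L.p L.wk k| ≤ th)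
    {ω : Tor d Lt → X} (hω : ∀ y ∈ N, L.q n (ω y) = L.q n (v y))
    (hl : ∀ y, π'.lev y = if y ∈ N then n + 1 else π.lev y) (hv : v' = N.piecewise ω v)
    {B Xr W : Finset (Tor d Lt)} {vt k δ : ℝ} (hk : 0 < k) (hk1 : k ≤ 1)
    (hW : ∀ y ∈ M.A ∩ B, y ∉ W → ok y (some (ω y)))
    (hδ0 : 0 < δ) (hδ1 : δ ≤ 1) (hδk : 14 * C * δ ≤ k ^ (1 / 45 : ℝ))
    (hfar : ∀ x ∈ M.nr, x ∉ Xr → ∑ w ∈ N', ‖M.G x w‖ ≤ δ)
    (hAP : APB (M.stp (digOf L lam n N v)) ok M.nr Xr (M.A ∩ B) B (ftol ↥R vt k)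
      (fun K : ↥R => wA L lam nE n K N π v M) (fun K : ↥R => wZ L lam nE P F n K N π v M)
      (ANS.full ω)) :
    Frz (tolAt P (SfOf L lam nE) n F π v M) M (digOf L lam n N v)
      (tolAt P (SfOf L lam nE) n F π' v' M).a (tolAt P (SfOf L lam nE) n F π' v' M).z
      (fun K => 4 * UK L lam n K * (k ^ (1 / 32 : ℝ) + k ^ (1 / 45 : ℝ) +
        th / cmin / 2 * (C1 + k ^ (11 / 256 : ℝ)))) B (k ^ (9 / 256 : ℝ))
      (k ^ (-7 / 8 + vt)) (30 * k ^ (1 / 140 : ℝ)) W ω where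
  ent x y hx hy := by
    have h1 := hAP.ent x (mem_nr.2 hx) y (mem_nr.2 hy)
    rw [stp_G, stp_G_nil] at h1
    exact h1
  tau x hx := by
    have h1 := hAP.tau x (mem_nr.2 hx)
    unfold Stp.Tx at h1
    rw [stp_G, stp_G_nil] at h1
    refine le_trans (Finset.sum_le_sum_of_subset_of_nonneg ?_ fun _ _ _ => by positivity) h1
    intro y hy
    rw [Finset.mem_inter, Finset.mem_sdiff] at hy
    exact mem_Yo.2 ⟨Finset.mem_inter.2 ⟨hy.1.1, hy.2⟩,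
      hW y (Finset.mem_inter.2 ⟨hy.1.1, hy.2⟩) hy.1.2⟩
  h3 K hK x hx := by
    have hK1 : n + 1 ≤ K := (Finset.mem_Icc.1 hK).1
    have hdia := hAP.dia x (mem_nr.2 hx)
    rw [stp_G, stp_G_nil] at hdia
    by_cases hxr : x ∈ Xr
    · obtain ⟨k0, hk0, hnet⟩ := hR K hK
      have h1 := hAP.h3 ⟨k0, hk0⟩ x hxr
      rw [stp_G] at h1
      exact h3_of_rep h hth hc hcm (hRn k0 hk0) hK1 hnet hω hl hv hx (ward_okB hOk ω x) hdia h1
    · have hE : (M.stp (digOf L lam n N v)).Ent M.nr 1 (ANS.full ω) := fun x hx y hy =>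
        (hAP.ent x hx y hy).trans (Real.rpow_le_one hk.le hk1 (by norm_num))
      have h1 := far_w h hG hNN hOk hE hK (mem_nr.2 hx) hδ0 hδ1 (hfar x (mem_nr.2 hx) hxr)
      rw [stp_G] at h1
      refine (h3_of_rep h hth hc hcm hK1 hK1 (by rw [sub_self, abs_zero]; exact hth) hω hl hv hx
        (ward_okB hOk ω x) hdia h1).trans (add_le_add le_rfl ?_)
      have hU := UK_pos (L := L) (n := n) h.lam0 K
      have e1 : (0 : ℝ) < k ^ (1 / 32 : ℝ) := Real.rpow_pos_of_pos hk _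
      refine mul_le_mul_of_nonneg_left (add_le_add ?_ le_rfl) (by positivity)
      linarith
  form := hAP.form

end Pool.Agent.AND
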