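import Pool.Agent.ANS.EntFar
import Pool.Agent.ANS.StepAPB

/-! # ANS / FarB: the far inert rows (helper52)

`farB`, `farTB`, `farHB`: the three facts about the rows of `M.nr` which are not rows of the functionals, from `FarIn` (EntFar)
and one number `q`. -/

set_option autoImplicit false
set_option linter.unusedSectionVars false

open Matrix Finset Function

noncomputable section

namespace Pool.Agent.ANS

open Pool.Agent.Kin Pool.Agent.APS Pool.Agent.ANL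

variable {T D : Type} [Fintype T] [DecidableEq T] [Fintype D]
variable {P : Stp T D} {X N Xr : Finset T} {c be : T → ℝ} {e : T → Option D → ℝ} {C Lm : ℝ}
  {ok : T → Option D → Prop} {Bd Le de : ℝ}

namespace Stp.FarIn

variable (h : P.FarIn X Xr N Bd Le de)
include h

/-- the entries and the diagonal -/
theorem farB (hOk : P.OkB ok X N c be e C Lm) {aD aO : ℝ} (haO : aO ≤ 1)
    (hD : qF N.card Bd Le de ≤ aD / 2) (hO : qF N.card Bd Le de ≤ aO / 2)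
    (s : T → Option D) (h1 : ∀ x ∈ Xr, ‖P.G s x x - P.G nil x x‖ ≤ aD / 2)
    (h2 : P.Ent Xr (aO / 2) s) :
    (∀ x ∈ X, ‖P.G s x x - P.G nil x x‖ ≤ aD) ∧ P.Ent X aO s := by
  have hq := h.qF_nonneg N.card
  have hE1 : P.Ent Xr 1 s := fun x hx y hy => (h2 x hx y hy).trans (by linarith)
  constructor
  · intro x hx
    exact (h.dia_of (hOk.adms s) hE1 hD h1 x hx).trans (by linarith)
  · intro x hx y hy
    exact (h.ent_of' (hOk.adms s) (by linarith) hO h2 x hx y hy).trans (by linarith)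

/-- the fourth powers -/
theorem farTB (hOk : P.OkB ok X N c be e C Lm) {aO tT q : ℝ} (haO : aO ≤ 1) {Y : Finset T}
    (hY : Y ⊆ X) (hq : qF N.card Bd Le de ≤ q) (hq1 : q ≤ 1)
    (hT : (Y.card : ℝ) * (4 * (Lm + 1) ^ 3 * q) ≤ tT) (s : T → Option D)
    (h1 : P.Ent X aO s) (h2 : ∀ x ∈ Xr, P.Tx (Yo ok Y s) s x ≤ P.Tx Y nil x + tT / 2) :
    ∀ x ∈ X, P.Tx (Yo ok Y s) s x ≤ P.Tx Y nil x + tT := by
  have hq0 : 0 ≤ q := (h.qF_nonneg N.card).trans hq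
  have hLm : 0 ≤ Lm := zero_le_one.trans hOk.Lm1
  have hT0 : 0 ≤ tT := le_trans (by positivity) hT
  intro x hx
  by_cases hxr : x ∈ Xr
  · exact (h2 x hxr).trans (by linarith)
  · have hE1 : P.Ent Xr 1 s := fun x hx y hy =>
      (h1 x (h.sub hx) y (h.sub hy)).trans haO
    have h3 := h.far_four (hOk.adms s) hE1 hx hxr hY hLm
      (fun y hy => hOk.ent x hx y (hY hy)) hq hq1
    have h4 : P.Tx (Yo ok Y s) s x ≤ ∑ y ∈ Y, ‖P.G s x y‖ ^ 4 :=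
      Finset.sum_le_sum_of_subset_of_nonneg (Yo_sub ok Y s) fun _ _ _ => by positivity
    refine h4.trans (h3.trans ?_)
    exact add_le_add le_rfl hT

/-- the sum over the noise sites in a far row -/
theorem farHB {x : T} (hx : x ∈ X) (hxr : x ∉ Xr) : ∑ w ∈ N, ‖P.G nil x w‖ ≤ N.card * de := by
  refine (Finset.sum_le_sum fun w hw => h.dec x hx hxr w hw).trans (le_of_eq ?_)
  rw [Finset.sum_const, nsmul_eq_mul]

end Stp.FarIn

/-- THE NUMBERS of the far rows: for small `κ`, if `de ≤ κ^E`, `E = 2 CM + 4 eL + CB + 2`, `N.card ≤ κ^(-CM)`,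
`Y.card ≤ κ^(-CB)`, `Bd ≤ 1` -/
theorem far_ev (C eL CM CB : ℝ) (hC : 0 ≤ C) (heL : 0 ≤ eL) (hCM : 0 ≤ CM) (hCB : 0 ≤ CB) :
    Ev (fun k => k ≤ 1 ∧ ∀ (n m : ℕ) (Bd de : ℝ), 0 ≤ Bd → Bd ≤ 1 → 0 ≤ de →
      de ≤ k ^ (2 * CM + 4 * eL + CB + 2) → (n : ℝ) ≤ k ^ (-CM) → (m : ℝ) ≤ k ^ (-CB) →
      qF n Bd (k ^ (-eL)) de ≤ k ^ (11 / 256 : ℝ) / 2 ∧
      qF n Bd (k ^ (-eL)) de ≤ k ^ (9 / 256 : ℝ) / 2 ∧
      qF n Bd (k ^ (-eL)) de ≤ 1 ∧
      (m : ℝ) * (4 * (k ^ (-eL) + 1) ^ 3 * qF n Bd (k ^ (-eL)) de) ≤ 1 ∧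
      n * de ≤ k ∧ 14 * C * k ≤ k ^ (1 / 45 : ℝ)) := by
  have ev1 : Ev (fun k => 256 * k ^ (1 / 2 : ℝ) ≤ 1) :=
    Ev.le_of_mul (Pw.rpow _) (by norm_num) _ one_pos
  have ev2 : Ev (fun k => (14 * C) * k ^ (44 / 45 : ℝ) ≤ 1) :=
    Ev.le_of_mul (Pw.rpow _) (by norm_num) _ one_pos
  have ev3 : Ev (fun k => 1 * k ^ (1 : ℝ) ≤ 1) := Ev.le_of_mul (Pw.rpow _) one_pos _ one_pos
  obtain ⟨k0, hk0, hev⟩ := (ev1.and ev2).and ev3
  refine ⟨k0, hk0, fun k hk hkk => ?_⟩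
  obtain ⟨⟨h1, h2⟩, h3⟩ := hev k hk hkk
  rw [Real.rpow_one, one_mul] at h3
  have hpos : ∀ a : ℝ, 0 < k ^ a := fun a => Real.rpow_pos_of_pos hk a
  refine ⟨h3, fun n m Bd de hBd0 hBd1 hde0 hde hn hm => ?_⟩
  have hA1 : 1 ≤ k ^ (-CM) := Real.one_le_rpow_of_pos_of_le_one_of_nonpos hk h3 (by linarith)
  have hL1 : 1 ≤ k ^ (-eL) := Real.one_le_rpow_of_pos_of_le_one_of_nonpos hk h3 (by linarith)
  have hn0 : (0 : ℝ) ≤ n := Nat.cast_nonneg n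
  have hm0 : (0 : ℝ) ≤ m := Nat.cast_nonneg m
  have hq : qF n Bd (k ^ (-eL)) de ≤ 4 * k ^ (3 * eL + CB + 2) := by
    unfold qF
    have e1 : (n : ℝ) * Bd ≤ k ^ (-CM) := by
      calc (n : ℝ) * Bd ≤ n * 1 := mul_le_mul_of_nonneg_left hBd1 hn0
        _ ≤ _ := by rw [mul_one]; exact hn
    have e2 : 1 + (n : ℝ) * Bd ≤ 2 * k ^ (-CM) := by linarith
    have e3 : k ^ (-eL) + 1 ≤ 2 * k ^ (-eL) := by linarith
    have e0 : 0 ≤ (n : ℝ) * Bd := mul_nonneg hn0 hBd0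
    have e4 : (n : ℝ) * Bd * (1 + n * Bd) ≤ k ^ (-CM) * (2 * k ^ (-CM)) :=
      mul_le_mul e1 e2 (by linarith) (hpos _).le
    have e5 : (n : ℝ) * Bd * (1 + n * Bd) * (k ^ (-eL) + 1) ≤
        k ^ (-CM) * (2 * k ^ (-CM)) * (2 * k ^ (-eL)) :=
      mul_le_mul e4 e3 (by linarith) (by have := hpos (-CM); positivity)
    have e6 : (n : ℝ) * Bd * (1 + n * Bd) * (k ^ (-eL) + 1) * de ≤
        k ^ (-CM) * (2 * k ^ (-CM)) * (2 * k ^ (-eL)) * k ^ (2 * CM + 4 * eL + CB + 2) :=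
      mul_le_mul e5 hde hde0 (by have := hpos (-CM); have := hpos (-eL); positivity)
    refine e6.trans (le_of_eq ?_)
    have e7 : k ^ (-CM) * (2 * k ^ (-CM)) * (2 * k ^ (-eL)) * k ^ (2 * CM + 4 * eL + CB + 2) =
        4 * (k ^ (-CM) * k ^ (-CM) * k ^ (-eL) * k ^ (2 * CM + 4 * eL + CB + 2)) := by ring
    rw [e7, ← Real.rpow_add hk, ← Real.rpow_add hk, ← Real.rpow_add hk]
    congr 2
    ring
  have h4 : k ^ (1 / 2 : ℝ) ≤ 1 / 256 := by linarith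
  have h5 : k ≤ 1 / 256 * k ^ (1 / 2 : ℝ) := by
    have e1 : k = k ^ (1 / 2 : ℝ) * k ^ (1 / 2 : ℝ) := by
      rw [← Real.rpow_add hk]
      norm_num
    calc k = k ^ (1 / 2 : ℝ) * k ^ (1 / 2 : ℝ) := e1
      _ ≤ 1 / 256 * k ^ (1 / 2 : ℝ) := mul_le_mul_of_nonneg_right h4 (hpos _).le
  have hle : ∀ a : ℝ, a ≤ 1 / 2 → k ≤ 1 / 256 * k ^ a := fun a ha => by
    have e1 : k ^ (1 / 2 : ℝ) ≤ k ^ a := Real.rpow_le_rpow_of_exponent_ge hk h3 ha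
    linarith
  have hq1 : qF n Bd (k ^ (-eL)) de ≤ 4 * k := by
    refine hq.trans (mul_le_mul_of_nonneg_left ?_ (by norm_num))
    calc k ^ (3 * eL + CB + 2) ≤ k ^ (1 : ℝ) :=
          Real.rpow_le_rpow_of_exponent_ge hk h3 (by linarith)
      _ = k := Real.rpow_one k
  have h11 := hle (11 / 256) (by norm_num)
  have h9 := hle (9 / 256) (by norm_num)
  have h11p := hpos (11 / 256)
  have h9p := hpos (9 / 256)
  refine ⟨by linarith, by linarith, by linarith [h5], ?_, ?_, ?_⟩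
  · have e3 : k ^ (-eL) + 1 ≤ 2 * k ^ (-eL) := by linarith
    have e4 : (k ^ (-eL) + 1) ^ 3 ≤ (2 * k ^ (-eL)) ^ 3 := pow_le_pow_left₀ (by linarith) e3 3
    have hqn : 0 ≤ qF n Bd (k ^ (-eL)) de := by
      unfold qF
      positivity
    have e5 : 4 * (k ^ (-eL) + 1) ^ 3 * qF n Bd (k ^ (-eL)) de ≤
        4 * (2 * k ^ (-eL)) ^ 3 * (4 * k ^ (3 * eL + CB + 2)) :=
      mul_le_mul (by linarith) hq hqn (by have := hpos (-eL); positivity)
    have e6 : (m : ℝ) * (4 * (k ^ (-eL) + 1) ^ 3 * qF n Bd (k ^ (-eL)) de) ≤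
        k ^ (-CB) * (4 * (2 * k ^ (-eL)) ^ 3 * (4 * k ^ (3 * eL + CB + 2))) :=
      mul_le_mul hm e5 (by positivity) (hpos _).le
    refine e6.trans ?_
    have e7 : k ^ (-CB) * (4 * (2 * k ^ (-eL)) ^ 3 * (4 * k ^ (3 * eL + CB + 2))) =
        128 * (k ^ (-CB) * (k ^ (-eL)) ^ 3 * k ^ (3 * eL + CB + 2)) := by ring
    have e8 : (k ^ (-eL)) ^ 3 = k ^ (-(3 * eL)) := by
      rw [← Real.rpow_natCast, ← Real.rpow_mul hk.le]
      congr 1
      push_cast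
      ring
    rw [e7, e8, ← Real.rpow_add hk, ← Real.rpow_add hk]
    have e9 : -CB + -(3 * eL) + (3 * eL + CB + 2) = 2 := by ring
    rw [e9]
    have e10 : k ^ (2 : ℝ) ≤ k ^ (1 / 2 : ℝ) :=
      Real.rpow_le_rpow_of_exponent_ge hk h3 (by norm_num)
    linarith
  · have e1 : (n : ℝ) * de ≤ k ^ (-CM) * k ^ (2 * CM + 4 * eL + CB + 2) :=
      mul_le_mul hn hde hde0 (hpos _).le
    refine e1.trans ?_
    rw [← Real.rpow_add hk]
    calc k ^ (-CM + (2 * CM + 4 * eL + CB + 2)) ≤ k ^ (1 : ℝ) :=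
          Real.rpow_le_rpow_of_exponent_ge hk h3 (by linarith)
      _ = k := Real.rpow_one k
  · have e1 : k = k ^ (44 / 45 : ℝ) * k ^ (1 / 45 : ℝ) := by
      rw [← Real.rpow_add hk]
      norm_num
    have h45 := hpos (1 / 45)
    calc 14 * C * k = (14 * C) * k ^ (44 / 45 : ℝ) * k ^ (1 / 45 : ℝ) := by
          rw [mul_assoc (14 * C), ← e1]
      _ ≤ 1 * k ^ (1 / 45 : ℝ) := mul_le_mul_of_nonneg_right h2 h45.le
      _ = _ := one_mul _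

end Pool.Agent.ANS
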