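import Pool.Agent.ANS.Eng
import Pool.Agent.APS.TrIneq

/-! # ANS JTR: trace components of the jump engine

`Γ s = Re Tr (f s)^(2p)`, `f s` hermitian.  `tr0`, `tr1`, `tr2`, `trw`, `OpLe` are those of
`Pool.Agent.APS`; `tr1 n f g = n Re Tr f^(n-1) g`.

(1) JUMP LEMMA `tr_jump`: `f, g` hermitian, `OpLe g nu`:
 `|tr0 (2p) (f+g) - tr0 (2p) f - tr1 (2p) f g| ≤ 4p² e^(4p) (trw p f g + nu^(2p-2) Re Tr g²)`.
 Proof.  `f_t = f + t g`, `h(t) = trw p f_t g = Re Tr f_t^(2p-2) g²`, `R = nu^(2p-2) Re Tr g²`.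
 `h'(t) = ∑_{i<2p-2} Re Tr f_t^i g f_t^(2p-3-i) g²`.  In the eigenbasis of `f_t`:
 `|..| ≤ ∑_ab (|λ_a|^(2p-3) + |λ_b|^(2p-3)) |g_ab| |(g²)_ba|`, and
 `∑_b |g_ab| |(g²)_ba| ≤ ‖g e_a‖ ‖g² e_a‖ ≤ nu ‖g e_a‖² = nu (g²)_aa`, so
 `|h'| ≤ 2 (2p-2) ∑_a nu |λ_a|^(2p-3) (g²)_aa ≤ 4p ∑_a (λ_a^(2p-2) + nu^(2p-2)) (g²)_aa
   = 4p (h + R)`.
 Gronwall: `h(t) + R ≤ e^(4p) (h(0) + R)` on `[0,1]`.  `φ(t) = tr0 (2p) f_t`, `φ' = tr1 (2p) f_t g`,
 `φ'' = tr2 (2p) f_t g g`, `|φ''| ≤ 8 p² h(t)` by `tr2_le`; Taylor.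
 (Derivatives of powers of matrices: see Pool.Agent.APS.TrDer / TrEst for the existing lemmas, or
 expand the polynomial in `t`.)
(2) `comp_tr`: `l w b = tr1 (2p) (f s) (g w b)`, `g w b = f(s^{w→b}) - f(s)`,
 `q w = K max_b (trw p (f s) (g w b) + nu^(2p-2) Re Tr (g w b)²)`.  Sums over `w`: choose for
 every `w` a maximizing `b` and use `trw_sum`; `∑_w Re Tr (g w b_w)² ≤ card κ nu²` (sum `hnu` over
 the basis vectors); `OpLe (g w b) nu` is `hnu` with one term.
 `(ΔΓ)² ≤ 2 tr1² + 2 (4p² e^(4p))² (trw + R)²`, `tr1² ≤ Γ 4p² trw` (`tr1_sq`), `Γ ≤ 1`, and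
 `trw + R ≤ 3` (trw_sum with `e = 1` for one matrix, `be ≤ 1`).
 `|ΔΓ| ≤ dl`: `trw ≤ e + card (1/e)^(p-1) nu^(2p)`, `e = dl²/(4K)`.
 Drift: `∑_w (∑ pr l - l none) = tr1 (2p) (f s) E` (linearity, `∑ pr = 1`) `≤ Γ + card (2p x)^(2p)`
 by `tr1_le` with `e = c = 1`. -/

set_option autoImplicit false

open Finset Function Matrix
open Pool.Agent.APS (tr0 tr1 tr2 trw OpLe)

noncomputable section

namespace Pool.Agent.ANS

variable {N A κ : Type} [Fintype N] [DecidableEq N] [Fintype A] [DecidableEq A] [Fintype κ]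
  [DecidableEq κ]

/-- the constant -/
def KT (p : ℕ) : ℝ := (1000 * p ^ 4 * Real.exp (8 * p)) ^ (2 * p)

/-! ### auxiliary facts (spectral form, derivatives) -/

private theorem jspec {f : Matrix κ κ ℂ} (hf : f.IsHermitian) :
    ∃ (l : κ → ℝ) (U : Matrix κ κ ℂ), Uᴴ * U = 1 ∧ U * Uᴴ = 1 ∧
      f = U * diagonal (fun a => (l a : ℂ)) * Uᴴ := by
  refine ⟨hf.eigenvalues, (hf.eigenvectorUnitary : Matrix κ κ ℂ), ?_, ?_, ?_⟩
  · exact Unitary.coe_star_mul_self hf.eigenvectorUnitary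
  · exact Unitary.coe_mul_star_self hf.eigenvectorUnitary
  · have h := hf.spectral_theorem
    rw [Unitary.conjStarAlgAut_apply] at h
    exact h

private theorem jspec_pow {l : κ → ℝ} {U : Matrix κ κ ℂ} (hU : Uᴴ * U = 1) (hU' : U * Uᴴ = 1)
    (n : ℕ) : (U * diagonal (fun a => (l a : ℂ)) * Uᴴ) ^ n =
      U * diagonal (fun a => (l a : ℂ) ^ n) * Uᴴ := by
  induction n with
  | zero =>
    simp only [pow_zero]
    have h1 : diagonal (fun _ : κ => (1 : ℂ)) = 1 := diagonal_one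
    rw [h1, Matrix.mul_one, hU']
  | succ n ih =>
    rw [pow_succ, ih]
    have h1 : U * diagonal (fun a => (l a : ℂ) ^ n) * Uᴴ * (U * diagonal (fun a => (l a : ℂ)) * Uᴴ)
        = U * (diagonal (fun a => (l a : ℂ) ^ n) * ((Uᴴ * U) * diagonal (fun a => (l a : ℂ)))) * Uᴴ := by
      simp only [Matrix.mul_assoc]
    rw [h1, hU, Matrix.one_mul, diagonal_mul_diagonal]
    simp only [pow_succ]

private theorem jspec_tr1 {l : κ → ℝ} {U : Matrix κ κ ℂ} (hU : Uᴴ * U = 1) (hU' : U * Uᴴ = 1)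
    (n : ℕ) (M : Matrix κ κ ℂ) :
    ((U * diagonal (fun a => (l a : ℂ)) * Uᴴ) ^ n * M).trace =
      ∑ a, (l a : ℂ) ^ n * (Uᴴ * M * U) a a := by
  rw [jspec_pow hU hU']
  have h1 : U * diagonal (fun a => (l a : ℂ) ^ n) * Uᴴ * M
      = U * (diagonal (fun a => (l a : ℂ) ^ n) * (Uᴴ * M)) := by
    simp only [Matrix.mul_assoc]
  rw [h1, Matrix.trace_mul_comm, Matrix.mul_assoc]
  simp only [Matrix.trace, Matrix.diag_apply, Matrix.diagonal_mul]

private theorem jspec_tr2 {l : κ → ℝ} {U : Matrix κ κ ℂ} (hU : Uᴴ * U = 1) (hU' : U * Uᴴ = 1)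
    (i j : ℕ) (g k : Matrix κ κ ℂ) :
    ((U * diagonal (fun a => (l a : ℂ)) * Uᴴ) ^ i * g *
      ((U * diagonal (fun a => (l a : ℂ)) * Uᴴ) ^ j * k)).trace =
      ∑ a, ∑ b, (l a : ℂ) ^ i * (l b : ℂ) ^ j * ((Uᴴ * g * U) a b * (Uᴴ * k * U) b a) := by
  rw [Matrix.mul_assoc, jspec_tr1 hU hU', jspec_pow hU hU']
  refine Finset.sum_congr rfl fun a _ => ?_
  have h1 : Uᴴ * (g * (U * diagonal (fun a => (l a : ℂ) ^ j) * Uᴴ * k)) * U
      = (Uᴴ * g * U) * (diagonal (fun a => (l a : ℂ) ^ j) * (Uᴴ * k * U)) := by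
    simp only [Matrix.mul_assoc]
  rw [h1, Matrix.mul_apply, Finset.mul_sum]
  refine Finset.sum_congr rfl fun b _ => ?_
  rw [Matrix.diagonal_mul]
  ring

omit [DecidableEq κ] in
private theorem jherm_conj {U g : Matrix κ κ ℂ} (hg : g.IsHermitian) (a b : κ) :
    (Uᴴ * g * U) b a = star ((Uᴴ * g * U) a b) := by
  have h : (Uᴴ * g * U).IsHermitian := by
    unfold Matrix.IsHermitian
    rw [conjTranspose_mul, conjTranspose_mul, conjTranspose_conjTranspose, hg.eq, Matrix.mul_assoc]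
  exact (h.apply b a).symm

private theorem jtrw_eq {l : κ → ℝ} {U g : Matrix κ κ ℂ} (hU : Uᴴ * U = 1) (hU' : U * Uᴴ = 1)
    (hg : g.IsHermitian) (n : ℕ) :
    ((U * diagonal (fun a => (l a : ℂ)) * Uᴴ) ^ n * (g * g)).trace.re =
      ∑ a, l a ^ n * ∑ b, ‖(Uᴴ * g * U) a b‖ ^ 2 := by
  have h := jspec_tr2 (l := l) hU hU' n 0 g g
  rw [pow_zero, Matrix.one_mul, Matrix.mul_assoc] at h
  rw [h, Complex.re_sum]
  refine Finset.sum_congr rfl fun a _ => ?_
  rw [Complex.re_sum, Finset.mul_sum]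
  refine Finset.sum_congr rfl fun b _ => ?_
  rw [jherm_conj hg a b, pow_zero, mul_one]
  have h2 : (Uᴴ * g * U) a b * star ((Uᴴ * g * U) a b) = ((‖(Uᴴ * g * U) a b‖ ^ 2 : ℝ) : ℂ) := by
    rw [Complex.star_def, Complex.mul_conj, Complex.normSq_eq_norm_sq]
  rw [h2]
  have h3 : (l a : ℂ) ^ n * ((‖(Uᴴ * g * U) a b‖ ^ 2 : ℝ) : ℂ) =
      ((l a ^ n * ‖(Uᴴ * g * U) a b‖ ^ 2 : ℝ) : ℂ) := by
    push_cast
    ring
  rw [h3, Complex.ofReal_re]

private theorem jnorm_conj {U : Matrix κ κ ℂ} (hU : Uᴴ * U = 1) (u : κ → ℂ) :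
    ∑ x, ‖(U *ᵥ u) x‖ ^ 2 = ∑ x, ‖u x‖ ^ 2 := by
  have key : ∀ v : κ → ℂ, ((∑ x, ‖v x‖ ^ 2 : ℝ) : ℂ) = star v ⬝ᵥ v := by
    intro v
    rw [dotProduct]
    push_cast
    refine Finset.sum_congr rfl fun x _ => ?_
    rw [Pi.star_apply, Complex.star_def, Complex.conj_mul']
  have h : ((∑ x, ‖(U *ᵥ u) x‖ ^ 2 : ℝ) : ℂ) = ((∑ x, ‖u x‖ ^ 2 : ℝ) : ℂ) := by
    rw [key, key, star_mulVec, dotProduct_mulVec, vecMul_vecMul, hU, vecMul_one]
  exact_mod_cast h

private theorem jcol_norm {U M : Matrix κ κ ℂ} (hU' : U * Uᴴ = 1) (a : κ) :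
    ∑ b, ‖(Uᴴ * M * U) b a‖ ^ 2 = ∑ x, ‖(M *ᵥ (fun y => U y a)) x‖ ^ 2 := by
  have h1 : ∀ b, (Uᴴ * M * U) b a = (Uᴴ *ᵥ (M *ᵥ (fun y => U y a))) b := by
    intro b
    rw [mulVec_mulVec]
    rfl
  simp only [h1]
  refine jnorm_conj ?_ _
  rw [conjTranspose_conjTranspose, hU']

/-- `Re Tr f^i g f^j g²` -/
private theorem jder_term {f g : Matrix κ κ ℂ} (hf : f.IsHermitian) (hg : g.IsHermitian) {nu : ℝ}
    (hnu : 0 ≤ nu) (hop : OpLe g nu) (p : ℕ) (hp : 2 ≤ p) (i j : ℕ) (hij : i + j = 2 * p - 3) :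
    |(f ^ i * g * (f ^ j * (g * g))).trace.re| ≤
      2 * (trw p f g + nu ^ (2 * p - 2) * (g * g).trace.re) := by
  obtain ⟨l, U, hU, hU', rfl⟩ := jspec hf
  set G := Uᴴ * g * U with hG
  set K := Uᴴ * (g * g) * U with hK
  have hgg : (g * g).IsHermitian := by
    unfold Matrix.IsHermitian
    rw [conjTranspose_mul, hg.eq]
  have hsymG : ∀ a b, ‖G b a‖ = ‖G a b‖ := by
    intro a b
    rw [hG, jherm_conj hg a b, norm_star]
  have hsymK : ∀ a b, ‖K b a‖ = ‖K a b‖ := by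
    intro a b
    rw [hK, jherm_conj hgg a b, norm_star]
  set S : κ → ℝ := fun a => ∑ b, ‖G a b‖ ^ 2 with hS
  have hS0 : ∀ a, 0 ≤ S a := fun a => Finset.sum_nonneg fun b _ => sq_nonneg _
  have hw : trw p (U * diagonal (fun a => (l a : ℂ)) * Uᴴ) g = ∑ a, l a ^ (2 * p - 2) * S a := by
    unfold trw
    exact jtrw_eq hU hU' hg _
  have hw0 : (g * g).trace.re = ∑ a, S a := by
    have h1 := jtrw_eq (l := l) hU hU' hg 0
    rw [pow_zero, Matrix.one_mul] at h1
    rw [h1]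
    refine Finset.sum_congr rfl fun a _ => ?_
    rw [pow_zero, one_mul]
  have hKS : ∀ a, ∑ b, ‖K b a‖ ^ 2 ≤ nu ^ 2 * S a := by
    intro a
    rw [hK, jcol_norm hU' a, ← mulVec_mulVec]
    refine (hop _).trans (le_of_eq ?_)
    rw [← jcol_norm hU' a, ← hG]
    congr 1
    exact Finset.sum_congr rfl fun b _ => by rw [hsymG]
  have hrow : ∀ a, ∑ b, ‖G a b‖ * ‖K b a‖ ≤ nu * S a := by
    intro a
    have h1 := Finset.sum_mul_sq_le_sq_mul_sq (Finset.univ : Finset κ) (fun b => ‖G a b‖)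
      (fun b => ‖K b a‖)
    have h2 : (∑ b, ‖G a b‖ * ‖K b a‖) ^ 2 ≤ (nu * S a) ^ 2 := by
      refine h1.trans ?_
      have h3 := mul_le_mul_of_nonneg_left (hKS a) (hS0 a)
      calc (∑ b, ‖G a b‖ ^ 2) * ∑ b, ‖K b a‖ ^ 2 ≤ S a * (nu ^ 2 * S a) := h3
        _ = (nu * S a) ^ 2 := by ring
    exact (abs_le_of_sq_le_sq' h2 (mul_nonneg hnu (hS0 a))).2
  have hpow : ∀ a b, |l a| ^ i * |l b| ^ j ≤ |l a| ^ (2 * p - 3) + |l b| ^ (2 * p - 3) := by
    intro a b
    have ha0 := abs_nonneg (l a)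
    have hb0 := abs_nonneg (l b)
    rcases le_total |l a| |l b| with hab | hab
    · calc |l a| ^ i * |l b| ^ j ≤ |l b| ^ i * |l b| ^ j :=
            mul_le_mul_of_nonneg_right (pow_le_pow_left₀ ha0 hab i) (by positivity)
        _ = |l b| ^ (2 * p - 3) := by rw [← pow_add, hij]
        _ ≤ _ := le_add_of_nonneg_left (by positivity)
    · calc |l a| ^ i * |l b| ^ j ≤ |l a| ^ i * |l a| ^ j :=
            mul_le_mul_of_nonneg_left (pow_le_pow_left₀ hb0 hab _) (by positivity)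
        _ = |l a| ^ (2 * p - 3) := by rw [← pow_add, hij]
        _ ≤ _ := le_add_of_nonneg_right (by positivity)
  have hyo : ∀ a, |l a| ^ (2 * p - 3) * nu ≤ l a ^ (2 * p - 2) + nu ^ (2 * p - 2) := by
    intro a
    have ha0 := abs_nonneg (l a)
    have e1 : l a ^ (2 * p - 2) = |l a| ^ (2 * p - 2) := by
      have h22 : 2 * p - 2 = 2 * (p - 1) := by omega
      rw [h22, pow_mul, pow_mul, sq_abs]
    have e2 : 2 * p - 2 = (2 * p - 3) + 1 := by omega
    rw [e1, e2, pow_succ, pow_succ]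
    rcases le_total |l a| nu with hab | hab
    · calc |l a| ^ (2 * p - 3) * nu ≤ nu ^ (2 * p - 3) * nu :=
            mul_le_mul_of_nonneg_right (pow_le_pow_left₀ ha0 hab _) hnu
        _ ≤ _ := le_add_of_nonneg_left (by positivity)
    · calc |l a| ^ (2 * p - 3) * nu ≤ |l a| ^ (2 * p - 3) * |l a| :=
            mul_le_mul_of_nonneg_left hab (by positivity)
        _ ≤ _ := le_add_of_nonneg_right (by positivity)
  refine (Complex.abs_re_le_norm _).trans ?_
  rw [jspec_tr2 hU hU', ← hG, ← hK]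
  refine (norm_sum_le _ _).trans ?_
  have hb : ∀ a ∈ (Finset.univ : Finset κ),
      ‖∑ b, (l a : ℂ) ^ i * (l b : ℂ) ^ j * (G a b * K b a)‖ ≤
      ∑ b, (|l a| ^ (2 * p - 3) + |l b| ^ (2 * p - 3)) * (‖G a b‖ * ‖K b a‖) := by
    intro a _
    refine (norm_sum_le _ _).trans (Finset.sum_le_sum fun b _ => ?_)
    rw [norm_mul, norm_mul, norm_mul, norm_pow, norm_pow, Complex.norm_real, Complex.norm_real,
      Real.norm_eq_abs, Real.norm_eq_abs]
    exact mul_le_mul_of_nonneg_right (hpow a b) (by positivity)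
  refine (Finset.sum_le_sum hb).trans ?_
  have hsplit : ∑ a, ∑ b, (|l a| ^ (2 * p - 3) + |l b| ^ (2 * p - 3)) * (‖G a b‖ * ‖K b a‖) =
      ∑ a, |l a| ^ (2 * p - 3) * ∑ b, ‖G a b‖ * ‖K b a‖ +
      ∑ a, |l a| ^ (2 * p - 3) * ∑ b, ‖G a b‖ * ‖K b a‖ := by
    have e1 : ∑ a, |l a| ^ (2 * p - 3) * ∑ b, ‖G a b‖ * ‖K b a‖ =
        ∑ a, ∑ b, |l b| ^ (2 * p - 3) * (‖G a b‖ * ‖K b a‖) := by
      rw [Finset.sum_comm]
      refine Finset.sum_congr rfl fun a _ => ?_
      rw [Finset.mul_sum]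
      refine Finset.sum_congr rfl fun b _ => ?_
      rw [hsymG a b, hsymK a b]
    nth_rewrite 2 [e1]
    rw [← Finset.sum_add_distrib]
    refine Finset.sum_congr rfl fun a _ => ?_
    rw [Finset.mul_sum, ← Finset.sum_add_distrib]
    refine Finset.sum_congr rfl fun b _ => ?_
    ring
  rw [hsplit]
  have hfin : ∑ a, |l a| ^ (2 * p - 3) * ∑ b, ‖G a b‖ * ‖K b a‖ ≤
      ∑ a, l a ^ (2 * p - 2) * S a + nu ^ (2 * p - 2) * ∑ a, S a := by
    rw [Finset.mul_sum, ← Finset.sum_add_distrib]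
    refine Finset.sum_le_sum fun a _ => ?_
    calc |l a| ^ (2 * p - 3) * ∑ b, ‖G a b‖ * ‖K b a‖
        ≤ |l a| ^ (2 * p - 3) * (nu * S a) :=
          mul_le_mul_of_nonneg_left (hrow a) (by positivity)
      _ = (|l a| ^ (2 * p - 3) * nu) * S a := by ring
      _ ≤ (l a ^ (2 * p - 2) + nu ^ (2 * p - 2)) * S a :=
          mul_le_mul_of_nonneg_right (hyo a) (hS0 a)
      _ = _ := by ring
  rw [hw, hw0]
  linarith

/-! derivatives along paths of matrices -/

omit [Fintype κ] [DecidableEq κ] in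
private def JMD (f : ℝ → Matrix κ κ ℂ) (f' : Matrix κ κ ℂ) (t : ℝ) : Prop :=
  ∀ x y, HasDerivAt (fun t => f t x y) (f' x y) t

omit [DecidableEq κ] in
private theorem JMD.mul {f g : ℝ → Matrix κ κ ℂ} {f' g' : Matrix κ κ ℂ} {t : ℝ}
    (hf : JMD f f' t) (hg : JMD g g' t) : JMD (fun t => f t * g t) (f' * g t + f t * g') t := by
  intro x y
  have h1 : HasDerivAt (fun t => ∑ z, f t x z * g t z y)
      (∑ z, (f' x z * g t z y + f t x z * g' z y)) t :=
    HasDerivAt.fun_sum fun z _ => (hf x z).mul (hg z y)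
  have e1 : (fun t => (f t * g t) x y) = fun t => ∑ z, f t x z * g t z y := by
    funext t
    exact Matrix.mul_apply
  have e2 : (f' * g t + f t * g') x y = ∑ z, (f' x z * g t z y + f t x z * g' z y) := by
    rw [Matrix.add_apply, Matrix.mul_apply, Matrix.mul_apply, Finset.sum_add_distrib]
  rw [e1, e2]
  exact h1

private theorem JMD.pow {f : ℝ → Matrix κ κ ℂ} {f' : Matrix κ κ ℂ} {t : ℝ}
    (hf : JMD f f' t) (n : ℕ) :
    JMD (fun t => f t ^ n) (∑ i ∈ range n, f t ^ i * f' * f t ^ (n - 1 - i)) t := by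
  induction n with
  | zero =>
    intro x y
    simp only [pow_zero, Finset.range_zero, Finset.sum_empty, Matrix.zero_apply]
    exact hasDerivAt_const _ _
  | succ n ih =>
    have h1 := ih.mul hf
    have e1 : (fun t => f t ^ (n + 1)) = fun t => f t ^ n * f t := by
      funext t
      exact pow_succ _ _
    have e2 : ∑ i ∈ range (n + 1), f t ^ i * f' * f t ^ (n + 1 - 1 - i) =
        (∑ i ∈ range n, f t ^ i * f' * f t ^ (n - 1 - i)) * f t + f t ^ n * f' := by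
      rw [Finset.sum_range_succ, Nat.add_sub_cancel, Nat.sub_self, pow_zero, mul_one,
        Finset.sum_mul]
      congr 1
      refine Finset.sum_congr rfl fun i hi => ?_
      have hi' := Finset.mem_range.1 hi
      rw [mul_assoc (f t ^ i * f'), ← pow_succ]
      congr 2
      omega
    rw [e1, e2]
    exact h1

omit [DecidableEq κ] in
private theorem JMD.trace {f : ℝ → Matrix κ κ ℂ} {f' : Matrix κ κ ℂ} {t : ℝ}
    (hf : JMD f f' t) : HasDerivAt (fun t => (f t).trace.re) f'.trace.re t := by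
  have h1 : HasDerivAt (fun t => ∑ x, f t x x) (∑ x, f' x x) t :=
    HasDerivAt.fun_sum fun x _ => hf x x
  exact Complex.reCLM.hasFDerivAt.comp_hasDerivAt t h1

private theorem JMD.tr0 {f : ℝ → Matrix κ κ ℂ} {f' : Matrix κ κ ℂ} {t : ℝ}
    (hf : JMD f f' t) (n : ℕ) : HasDerivAt (fun t => tr0 n (f t)) (tr1 n (f t) f') t := by
  have h1 := (hf.pow n).trace
  have e1 : tr1 n (f t) f' = (∑ i ∈ range n, f t ^ i * f' * f t ^ (n - 1 - i)).trace.re := by
    unfold tr1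
    rw [Matrix.trace_sum, Complex.re_sum]
    have h2 : ∀ i ∈ range n, (f t ^ i * f' * f t ^ (n - 1 - i)).trace.re =
        (f t ^ (n - 1) * f').trace.re := by
      intro i hi
      have hi' := Finset.mem_range.1 hi
      rw [Matrix.trace_mul_cycle, ← pow_add]
      congr 4
      omega
    rw [Finset.sum_congr rfl h2, Finset.sum_const, Finset.card_range, nsmul_eq_mul]
  rw [e1]
  exact h1

private theorem JMD.tr1 {f : ℝ → Matrix κ κ ℂ} {f' k : Matrix κ κ ℂ} {t : ℝ}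
    (hf : JMD f f' t) (n : ℕ) :
    HasDerivAt (fun t => tr1 n (f t) k) (tr2 n (f t) f' k) t := by
  have hk : JMD (fun _ => k) 0 t := fun x y => hasDerivAt_const _ _
  have h1 := (((hf.pow (n - 1)).mul hk).trace).const_mul (n : ℝ)
  have e1 : tr2 n (f t) f' k =
      (n : ℝ) * ((∑ i ∈ range (n - 1), f t ^ i * f' * f t ^ (n - 1 - 1 - i)) * k +
        f t ^ (n - 1) * 0).trace.re := by
    unfold tr2
    rw [Matrix.mul_zero, add_zero, Finset.sum_mul, Matrix.trace_sum, Complex.re_sum]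
    congr 1
    refine Finset.sum_congr rfl fun i _ => ?_
    rw [mul_assoc (f t ^ i * f'), show n - 1 - 1 - i = n - 2 - i by omega]
  rw [e1]
  exact h1

private theorem JMD.trw {f : ℝ → Matrix κ κ ℂ} {f' g : Matrix κ κ ℂ} {t : ℝ}
    (hf : JMD f f' t) (p : ℕ) :
    HasDerivAt (fun t => trw p (f t) g)
      (∑ i ∈ range (2 * p - 2), (f t ^ i * f' * (f t ^ (2 * p - 3 - i) * (g * g))).trace.re) t := by
  have hk : JMD (fun _ => g * g) 0 t := fun x y => hasDerivAt_const _ _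
  have h1 := ((hf.pow (2 * p - 2)).mul hk).trace
  have e1 : ∑ i ∈ range (2 * p - 2),
      (f t ^ i * f' * (f t ^ (2 * p - 3 - i) * (g * g))).trace.re =
      ((∑ i ∈ range (2 * p - 2), f t ^ i * f' * f t ^ (2 * p - 2 - 1 - i)) * (g * g) +
        f t ^ (2 * p - 2) * 0).trace.re := by
    rw [Matrix.mul_zero, add_zero, Finset.sum_mul, Matrix.trace_sum, Complex.re_sum]
    refine Finset.sum_congr rfl fun i _ => ?_
    rw [mul_assoc (f t ^ i * f'), show 2 * p - 2 - 1 - i = 2 * p - 3 - i by omega]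
  rw [e1]
  exact h1

omit [Fintype κ] [DecidableEq κ] in
private theorem jpath (f g : Matrix κ κ ℂ) (t : ℝ) : JMD (fun t : ℝ => f + (t : ℂ) • g) g t := by
  intro x y
  have h1 : HasDerivAt (fun t : ℝ => (t : ℂ)) 1 t := Complex.ofRealCLM.hasDerivAt
  have h2 := (h1.mul_const (g x y)).const_add (f x y)
  rw [one_mul] at h2
  exact h2

private theorem janti {F F' : ℝ → ℝ} (h : ∀ t ∈ Set.Icc (0 : ℝ) 1, HasDerivAt F (F' t) t)
    (h' : ∀ t ∈ Set.Icc (0 : ℝ) 1, F' t ≤ 0) (t : ℝ) (ht : t ∈ Set.Icc (0 : ℝ) 1) : F t ≤ F 0 := by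
  have h1 : AntitoneOn F (Set.Icc 0 1) := by
    refine antitoneOn_of_deriv_nonpos (convex_Icc 0 1)
      (fun s hs => (h s hs).continuousAt.continuousWithinAt) (fun s hs => ?_) (fun s hs => ?_)
    · exact (h s (interior_subset hs)).differentiableAt.differentiableWithinAt
    · rw [(h s (interior_subset hs)).deriv]
      exact h' s (interior_subset hs)
  exact h1 ⟨le_rfl, zero_le_one⟩ ht ht.1

private theorem jtaylor {φ φ1 φ2 : ℝ → ℝ} {M : ℝ}
    (h1 : ∀ t ∈ Set.Icc (0 : ℝ) 1, HasDerivAt φ (φ1 t) t)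
    (h2 : ∀ t ∈ Set.Icc (0 : ℝ) 1, HasDerivAt φ1 (φ2 t) t)
    (h3 : ∀ t ∈ Set.Icc (0 : ℝ) 1, φ2 t ≤ M) : φ 1 - φ 0 - φ1 0 ≤ M / 2 := by
  have h4 : ∀ t ∈ Set.Icc (0 : ℝ) 1, φ1 t - M * t - φ1 0 ≤ 0 := by
    intro t ht
    have h5 := janti (F := fun t => φ1 t - M * t) (F' := fun t => φ2 t - M * 1)
      (fun s hs => (h2 s hs).sub ((hasDerivAt_id s).const_mul M))
      (fun s hs => by linarith [h3 s hs]) t ht
    simp only [mul_zero, sub_zero] at h5
    linarith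
  have h6 := janti (F := fun t => φ t - M / 2 * t ^ 2 - φ1 0 * t)
    (F' := fun t => φ1 t - M / 2 * (2 * t) - φ1 0 * 1)
    (fun s hs => by
      have e1 : HasDerivAt (fun t : ℝ => t ^ 2) (2 * s) s := by
        have := hasDerivAt_pow 2 s
        simpa using this
      exact ((h1 s hs).sub (e1.const_mul (M / 2))).sub ((hasDerivAt_id s).const_mul (φ1 0)))
    (fun s hs => by linarith [h4 s hs]) 1 ⟨zero_le_one, le_rfl⟩
  simp only [mul_zero, sub_zero, one_pow, mul_one] at h6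
  have e2 : φ 0 - M / 2 * (0 : ℝ) ^ 2 = φ 0 := by ring
  rw [e2] at h6
  linarith

private theorem jgg {g : Matrix κ κ ℂ} (hg : g.IsHermitian) :
    (g * g).trace.re = ∑ x, ∑ y, ‖g y x‖ ^ 2 := by
  rw [trace, Complex.re_sum]
  refine Finset.sum_congr rfl fun x _ => ?_
  rw [Matrix.diag_apply, mul_apply, Complex.re_sum]
  refine Finset.sum_congr rfl fun y _ => ?_
  have h : g x y = star (g y x) := by
    have := congrFun (congrFun hg x) y
    rw [conjTranspose_apply] at this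
    exact this.symm
  rw [h, ← Complex.normSq_eq_norm_sq]
  simp [Complex.normSq_apply]

theorem tr_jump (p : ℕ) (hp : 2 ≤ p) {f g : Matrix κ κ ℂ} (hf : f.IsHermitian)
    (hg : g.IsHermitian) {nu : ℝ} (hnu : 0 ≤ nu) (hop : OpLe g nu) :
    |tr0 (2 * p) (f + g) - tr0 (2 * p) f - tr1 (2 * p) f g| ≤
      4 * p ^ 2 * Real.exp (4 * p) * (trw p f g + nu ^ (2 * p - 2) * (g * g).trace.re) := by
  have hft : ∀ t : ℝ, (f + (t : ℂ) • g).IsHermitian := by
    intro t
    unfold Matrix.IsHermitian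
    rw [conjTranspose_add, conjTranspose_smul, hf.eq, hg.eq, Complex.star_def, Complex.conj_ofReal]
  set R := nu ^ (2 * p - 2) * (g * g).trace.re with hR
  have hR0 : 0 ≤ R := by
    rw [hR, jgg hg]
    exact mul_nonneg (pow_nonneg hnu _)
      (Finset.sum_nonneg fun x _ => Finset.sum_nonneg fun y _ => sq_nonneg _)
  have hp1 : 1 ≤ p := by omega
  have hpr : (2 : ℝ) ≤ p := by exact_mod_cast hp
  set h : ℝ → ℝ := fun t => trw p (f + (t : ℂ) • g) g with hh
  have hh0 : ∀ t, 0 ≤ h t := fun t => Pool.Agent.APS.trw_nonneg p hp1 (hft t) hg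
  have e0 : f + ((0 : ℝ) : ℂ) • g = f := by simp
  have e1 : f + ((1 : ℝ) : ℂ) • g = f + g := by simp
  -- Gronwall
  have hgr : ∀ t ∈ Set.Icc (0 : ℝ) 1, h t + R ≤ Real.exp (4 * p) * (trw p f g + R) := by
    intro t ht
    set H' : ℝ → ℝ := fun t => ∑ i ∈ range (2 * p - 2),
      ((f + (t : ℂ) • g) ^ i * g * ((f + (t : ℂ) • g) ^ (2 * p - 3 - i) * (g * g))).trace.re with hH'
    have hd : ∀ s : ℝ, HasDerivAt h (H' s) s := fun s => (jpath f g s).trw p
    have hb : ∀ s : ℝ, |H' s| ≤ 4 * p * (h s + R) := by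
      intro s
      have hterm : ∀ i ∈ range (2 * p - 2),
          |((f + (s : ℂ) • g) ^ i * g * ((f + (s : ℂ) • g) ^ (2 * p - 3 - i) * (g * g))).trace.re| ≤
          2 * (h s + R) := by
        intro i hi
        have hi' := Finset.mem_range.1 hi
        exact jder_term (hft s) hg hnu hop p hp i (2 * p - 3 - i) (by omega)
      refine (Finset.abs_sum_le_sum_abs _ _).trans ((Finset.sum_le_sum hterm).trans ?_)
      rw [Finset.sum_const, Finset.card_range, nsmul_eq_mul]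
      have h5 : ((2 * p - 2 : ℕ) : ℝ) ≤ 2 * p := by
        have : (2 * p - 2 : ℕ) ≤ 2 * p := by omega
        exact_mod_cast this
      have h6 : 0 ≤ h s + R := add_nonneg (hh0 s) hR0
      nlinarith
    have hd2 : ∀ s ∈ Set.Icc (0 : ℝ) 1, HasDerivAt (fun s => (h s + R) * Real.exp (-(4 * p * s)))
        (H' s * Real.exp (-(4 * p * s)) + (h s + R) * (Real.exp (-(4 * p * s)) * -(4 * p * 1))) s := by
      intro s _
      have h7 : HasDerivAt (fun s : ℝ => -(4 * (p : ℝ) * s)) (-(4 * (p : ℝ) * 1)) s :=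
        ((hasDerivAt_id s).const_mul (4 * (p : ℝ))).neg
      exact ((hd s).add_const R).mul h7.exp
    have h8 := janti hd2 (fun s _ => by
      have h9 := (abs_le.1 (hb s)).2
      have h10 : 0 < Real.exp (-(4 * p * s)) := Real.exp_pos _
      have h11 : H' s * Real.exp (-(4 * p * s)) ≤ 4 * p * (h s + R) * Real.exp (-(4 * p * s)) :=
        mul_le_mul_of_nonneg_right h9 h10.le
      nlinarith) t ht
    have e2 : h 0 = trw p f g := by
      show trw p (f + ((0 : ℝ) : ℂ) • g) g = trw p f g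
      rw [e0]
    simp only [mul_zero, neg_zero, Real.exp_zero, mul_one] at h8
    rw [e2] at h8
    have h12 : h t + R = ((h t + R) * Real.exp (-(4 * p * t))) * Real.exp (4 * p * t) := by
      rw [mul_assoc, ← Real.exp_add, neg_add_cancel, Real.exp_zero, mul_one]
    have h13 : Real.exp (4 * p * t) ≤ Real.exp (4 * p) := by
      refine Real.exp_le_exp.2 ?_
      have := ht.2
      nlinarith
    have h14 : 0 ≤ trw p f g + R := add_nonneg (Pool.Agent.APS.trw_nonneg p hp1 hf hg) hR0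
    calc h t + R = ((h t + R) * Real.exp (-(4 * p * t))) * Real.exp (4 * p * t) := h12
      _ ≤ (trw p f g + R) * Real.exp (4 * p * t) :=
          mul_le_mul_of_nonneg_right h8 (Real.exp_pos _).le
      _ ≤ (trw p f g + R) * Real.exp (4 * p) := mul_le_mul_of_nonneg_left h13 h14
      _ = _ := mul_comm _ _
  set M := 8 * (p : ℝ) ^ 2 * (Real.exp (4 * p) * (trw p f g + R)) with hM
  have hφ2 : ∀ t ∈ Set.Icc (0 : ℝ) 1, |tr2 (2 * p) (f + (t : ℂ) • g) g g| ≤ M := by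
    intro t ht
    refine (Pool.Agent.APS.tr2_le p hp1 (hft t) hg hg).trans ?_
    have h5 := hgr t ht
    have h6 : trw p (f + (t : ℂ) • g) g ≤ Real.exp (4 * p) * (trw p f g + R) := by
      have : h t = trw p (f + (t : ℂ) • g) g := rfl
      linarith
    rw [hM]
    have h7 : (0 : ℝ) ≤ 8 * (p : ℝ) ^ 2 := by positivity
    have h8 := mul_le_mul_of_nonneg_left h6 h7
    linarith
  have hd1 : ∀ t ∈ Set.Icc (0 : ℝ) 1, HasDerivAt (fun t : ℝ => tr0 (2 * p) (f + (t : ℂ) • g))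
      (tr1 (2 * p) (f + (t : ℂ) • g) g) t := fun t _ => (jpath f g t).tr0 (2 * p)
  have hd2 : ∀ t ∈ Set.Icc (0 : ℝ) 1, HasDerivAt (fun t : ℝ => tr1 (2 * p) (f + (t : ℂ) • g) g)
      (tr2 (2 * p) (f + (t : ℂ) • g) g g) t := fun t _ => (jpath f g t).tr1 (2 * p)
  have hup := jtaylor hd1 hd2 (fun t ht => (abs_le.1 (hφ2 t ht)).2)
  have hlo := jtaylor (φ := fun t : ℝ => -tr0 (2 * p) (f + (t : ℂ) • g))
    (φ1 := fun t : ℝ => -tr1 (2 * p) (f + (t : ℂ) • g) g)
    (φ2 := fun t : ℝ => -tr2 (2 * p) (f + (t : ℂ) • g) g g)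
    (fun t ht => (hd1 t ht).neg) (fun t ht => (hd2 t ht).neg)
    (fun t ht => neg_le.1 (abs_le.1 (hφ2 t ht)).1)
  simp only [e0, e1] at hup hlo
  have hfin : 4 * (p : ℝ) ^ 2 * Real.exp (4 * p) * (trw p f g + R) = M / 2 := by
    rw [hM]
    ring
  rw [hfin, abs_le]
  constructor
  · linarith
  · linarith


private theorem jtr1_sum {ι' : Type} (n : ℕ) (f : Matrix κ κ ℂ) (s : Finset ι')
    (g : ι' → Matrix κ κ ℂ) : tr1 n f (∑ w ∈ s, g w) = ∑ w ∈ s, tr1 n f (g w) := by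
  unfold tr1
  rw [Finset.mul_sum, Matrix.trace_sum, Complex.re_sum, Finset.mul_sum]

private theorem jtr1_sub (n : ℕ) (f g k : Matrix κ κ ℂ) :
    tr1 n f (g - k) = tr1 n f g - tr1 n f k := by
  unfold tr1
  rw [mul_sub, Matrix.trace_sub, Complex.sub_re, mul_sub]

private theorem jtr1_smul (n : ℕ) (f g : Matrix κ κ ℂ) (c : ℝ) :
    tr1 n f ((c : ℂ) • g) = c * tr1 n f g := by
  unfold tr1
  rw [Matrix.mul_smul, Matrix.trace_smul, smul_eq_mul, Complex.re_ofReal_mul]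
  ring

theorem comp_tr (p : ℕ) (hp : 2 ≤ p) (pr : N → A → ℝ) (hpr : ∀ w a, 0 ≤ pr w a)
    (hpr1 : ∀ w, ∑ a, pr w a = 1) (f : (N → Option A) → Matrix κ κ ℂ)
    (hf : ∀ s, (f s).IsHermitian) (s : N → Option A) {nu x : ℝ} (hnu0 : 0 ≤ nu) (hx0 : 0 ≤ x)
    (hnu : ∀ (β : N → Option A) (u : κ → ℂ),
      ∑ w, ∑ y, ‖((f (update s w (β w)) - f s) *ᵥ u) y‖ ^ 2 ≤ nu ^ 2 * ∑ y, ‖u y‖ ^ 2)
    (hx : OpLe (∑ w, (∑ b, (pr w b : ℂ) • f (update s w (some b)) - f (update s w none))) x)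
    {be dl : ℝ} (hbe : (Fintype.card κ : ℝ) * (x ^ (2 * p) + nu ^ (2 * p)) ≤ be)
    (hdl : 0 < dl) (hdl1 : dl ≤ 1) (hbd : KT p * be ≤ dl ^ (2 * p)) (hs : tr0 (2 * p) (f s) ≤ 1) :
    CompAt pr (fun s => tr0 (2 * p) (f s)) s (KT p) (KT p * be) dl := by
  classical
  have hp1 : 1 ≤ p := by omega
  have hpr2 : (2 : ℝ) ≤ p := by exact_mod_cast hp
  set T0 := tr0 (2 * p) (f s) with hT0
  have hT00 : 0 ≤ T0 := Pool.Agent.APS.tr0_nonneg p (hf s)
  set cd := (Fintype.card κ : ℝ) with hcd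
  have hcd0 : 0 ≤ cd := Nat.cast_nonneg _
  set g : N → Option A → Matrix κ κ ℂ := fun w b => f (update s w b) - f s with hg'
  have hg : ∀ w b, (g w b).IsHermitian := fun w b => (hf _).sub (hf s)
  have hop : ∀ w b, OpLe (g w b) nu := by
    intro w b u
    refine le_trans ?_ (hnu (fun _ => b) u)
    exact Finset.single_le_sum (f := fun w => ∑ y, ‖((f (update s w b) - f s) *ᵥ u) y‖ ^ 2)
      (fun w _ => Finset.sum_nonneg fun y _ => sq_nonneg _) (Finset.mem_univ w)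
  -- constants
  set C0 : ℝ := 4 * p ^ 2 * Real.exp (4 * p) with hC0
  set K1 : ℝ := 7 * C0 ^ 2 with hK1
  set X : ℝ := 1000 * p ^ 4 * Real.exp (8 * p) with hX
  have hKT : KT p = X ^ (2 * p) := rfl
  have hexp2 : Real.exp (4 * p) ^ 2 = Real.exp (8 * p) := by
    rw [sq, ← Real.exp_add]
    congr 1
    ring
  have hexp1 : 1 ≤ Real.exp (4 * p) := Real.one_le_exp (by positivity)
  have hexp1' : 1 ≤ Real.exp (8 * p) := Real.one_le_exp (by positivity)
  have hC0sq : C0 ^ 2 = 16 * p ^ 4 * Real.exp (8 * p) := by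
    rw [hC0, mul_pow, mul_pow, hexp2]
    ring
  have hp2 : (4 : ℝ) ≤ (p : ℝ) ^ 2 := by
    have h1 := pow_le_pow_left₀ (by norm_num : (0 : ℝ) ≤ 2) hpr2 2
    linarith only [h1]
  have hp4 : (p : ℝ) ^ 2 ≤ (p : ℝ) ^ 4 := pow_le_pow_right₀ (by linarith) (by norm_num)
  have hC01 : 1 ≤ C0 := by
    have : (16 : ℝ) * 1 ≤ (4 * p ^ 2) * Real.exp (4 * p) :=
      mul_le_mul (by linarith) hexp1 (by norm_num) (by positivity)
    rw [hC0]
    linarith
  have h8p : 8 * (p : ℝ) ^ 2 ≤ C0 ^ 2 := by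
    have h1 : (16 * (p : ℝ) ^ 4) * 1 ≤ (16 * (p : ℝ) ^ 4) * Real.exp (8 * p) :=
      mul_le_mul_of_nonneg_left hexp1' (by positivity)
    rw [hC0sq]
    linarith
  have hK1pos : 0 < K1 := by positivity
  have h4K1 : 4 * K1 ≤ X := by
    have h1 : 0 ≤ (p : ℝ) ^ 4 * Real.exp (8 * p) := by positivity
    rw [hK1, hC0sq, hX]
    linarith only [h1]
  have hX1 : 1 ≤ X := by
    have h1 : (4 : ℝ) * 1 ≤ (p : ℝ) ^ 4 * Real.exp (8 * p) :=
      mul_le_mul (by linarith) hexp1' (by norm_num) (by positivity)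
    rw [hX]
    linarith only [h1]
  have hXX : X ≤ X ^ (2 * p) := le_self_pow₀ hX1 (by omega)
  have hKT1 : 1 ≤ KT p := by
    rw [hKT]
    linarith
  -- the size of the errors
  have hnup : 0 ≤ nu ^ (2 * p) := pow_nonneg hnu0 _
  have hxp : 0 ≤ x ^ (2 * p) := pow_nonneg hx0 _
  set cn := cd * nu ^ (2 * p) with hcn
  have hcn0 : 0 ≤ cn := mul_nonneg hcd0 hnup
  have hcx0 : 0 ≤ cd * x ^ (2 * p) := mul_nonneg hcd0 hxp
  have hcnbe : cn ≤ be := by
    rw [mul_add] at hbe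
    linarith
  have hcxbe : cd * x ^ (2 * p) ≤ be := by
    rw [mul_add] at hbe
    linarith
  have hbe0 : 0 ≤ be := hcn0.trans hcnbe
  have hdlp : dl ^ (2 * p) ≤ 1 := pow_le_one₀ hdl.le hdl1
  have hbe1 : be ≤ 1 := (le_mul_of_one_le_left hbe0 hKT1).trans (hbd.trans hdlp)
  have hcn1 : cn ≤ 1 := hcnbe.trans hbe1
  have hnue : nu ^ (2 * p - 2) * nu ^ 2 = nu ^ (2 * p) := by
    rw [← pow_add]
    congr 1
    omega
  have hnue' : ((1 : ℝ) * nu ^ 2) ^ p = nu ^ (2 * p) := by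
    rw [one_mul, ← pow_mul]
  -- sums of traces of squares
  have hsumR : ∀ β : N → Option A, ∑ w, (g w (β w) * g w (β w)).trace.re ≤ cd * nu ^ 2 := by
    intro β
    have h1 : ∀ w, (g w (β w) * g w (β w)).trace.re = ∑ z, ∑ y, ‖(g w (β w)) y z‖ ^ 2 :=
      fun w => jgg (hg w (β w))
    simp only [h1]
    rw [Finset.sum_comm]
    have h2 : ∀ z ∈ (Finset.univ : Finset κ), ∑ w, ∑ y, ‖(g w (β w)) y z‖ ^ 2 ≤ nu ^ 2 := by
      intro z _
      have h3 := hnu β (Pi.single z 1)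
      have h4 : ∑ y, ‖(Pi.single z (1 : ℂ) : κ → ℂ) y‖ ^ 2 = 1 := by
        rw [Finset.sum_eq_single z]
        · simp
        · intro y _ hy
          simp [hy]
        · intro h
          exact absurd (Finset.mem_univ z) h
      rw [h4, mul_one] at h3
      refine le_trans (le_of_eq ?_) h3
      refine Finset.sum_congr rfl fun w _ => Finset.sum_congr rfl fun y _ => ?_
      rw [Matrix.mulVec_single_one]
      rfl
    refine (Finset.sum_le_sum h2).trans (le_of_eq ?_)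
    rw [Finset.sum_const, Finset.card_univ, nsmul_eq_mul]
  have hgg0 : ∀ w b, 0 ≤ (g w b * g w b).trace.re := by
    intro w b
    rw [jgg (hg w b)]
    exact Finset.sum_nonneg fun z _ => Finset.sum_nonneg fun y _ => sq_nonneg _
  have hR1 : ∀ w b, nu ^ (2 * p - 2) * (g w b * g w b).trace.re ≤ cn := by
    intro w b
    have h1 : (g w b * g w b).trace.re ≤ cd * nu ^ 2 :=
      (Finset.single_le_sum (f := fun w => (g w b * g w b).trace.re) (fun w _ => hgg0 w b)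
        (Finset.mem_univ w)).trans (hsumR fun _ => b)
    calc nu ^ (2 * p - 2) * (g w b * g w b).trace.re ≤ nu ^ (2 * p - 2) * (cd * nu ^ 2) :=
          mul_le_mul_of_nonneg_left h1 (pow_nonneg hnu0 _)
      _ = cd * (nu ^ (2 * p - 2) * nu ^ 2) := by ring
      _ = cn := by rw [hnue]
  have hw0 : ∀ w b, 0 ≤ trw p (f s) (g w b) := fun w b =>
    Pool.Agent.APS.trw_nonneg p hp1 (hf s) (hg w b)
  have hw1 : ∀ (w : N) (b : Option A) (e : ℝ), 0 < e →
      trw p (f s) (g w b) ≤ e * T0 + (1 / e) ^ (p - 1) * cn := by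
    intro w b e he
    have h1 := Pool.Agent.APS.trw_sum (ι := Unit) p hp1 (hf s) (fun _ => g w b)
      (fun _ => hg w b) (nu := nu) he (fun u => by
        rw [Fintype.sum_unique]
        exact hop w b u) (c := 1) zero_le_one
    rw [Fintype.sum_unique, one_mul, hnue'] at h1
    refine h1.trans (le_of_eq ?_)
    rw [hcn]
    ring
  have hw2 : ∀ β : N → Option A, ∑ w, trw p (f s) (g w (β w)) ≤ T0 + cn := by
    intro β
    have h1 := Pool.Agent.APS.trw_sum (ι := N) p hp1 (hf s) (fun w => g w (β w))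
      (fun w => hg w (β w)) (nu := nu) one_pos (hnu β) (c := 1) zero_le_one
    rw [one_mul, hnue', one_div, inv_one, one_pow, one_mul, one_mul] at h1
    exact h1
  set T : N → Option A → ℝ := fun w b =>
    trw p (f s) (g w b) + nu ^ (2 * p - 2) * (g w b * g w b).trace.re with hT
  have hRn : ∀ w b, 0 ≤ nu ^ (2 * p - 2) * (g w b * g w b).trace.re := fun w b =>
    mul_nonneg (pow_nonneg hnu0 _) (hgg0 w b)
  have hTn : ∀ w b, 0 ≤ T w b := fun w b => add_nonneg (hw0 w b) (hRn w b)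
  have hT3 : ∀ w b, T w b ≤ 3 := by
    intro w b
    have h1 := hw1 w b 1 one_pos
    have h2 := hR1 w b
    rw [one_div, inv_one, one_pow, one_mul, one_mul] at h1
    show trw p (f s) (g w b) + nu ^ (2 * p - 2) * (g w b * g w b).trace.re ≤ 3
    linarith
  -- the jump
  have hup : ∀ w b, f s + g w b = f (update s w b) := fun w b => by
    show f s + (f (update s w b) - f s) = _
    abel
  have hjump : ∀ w b, |tr0 (2 * p) (f (update s w b)) - T0 - tr1 (2 * p) (f s) (g w b)| ≤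
      C0 * T w b := by
    intro w b
    have h1 := tr_jump p hp (hf s) (hg w b) hnu0 (hop w b)
    rw [hup] at h1
    exact h1
  have hsq : ∀ w b, (tr0 (2 * p) (f (update s w b)) - T0) ^ 2 ≤ K1 * T w b := by
    intro w b
    have h1 := hjump w b
    have h2 := Pool.Agent.APS.tr1_sq p hp1 (hf s) (hg w b)
    rw [← hT0] at h2
    have h3 : tr1 (2 * p) (f s) (g w b) ^ 2 ≤ 4 * p ^ 2 * T w b := by
      have h4 : T0 * (4 * p ^ 2 * trw p (f s) (g w b)) ≤ 1 * (4 * p ^ 2 * trw p (f s) (g w b)) :=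
        mul_le_mul_of_nonneg_right hs (mul_nonneg (by positivity) (hw0 w b))
      have h5 : 4 * (p : ℝ) ^ 2 * trw p (f s) (g w b) ≤ 4 * p ^ 2 * T w b :=
        mul_le_mul_of_nonneg_left (le_add_of_nonneg_right (hRn w b)) (by positivity)
      linarith
    set D := tr0 (2 * p) (f (update s w b)) - T0 with hD
    set L := tr1 (2 * p) (f s) (g w b) with hL
    have h6 : (D - L) ^ 2 ≤ (C0 * T w b) ^ 2 := by
      rw [← sq_abs (D - L)]
      exact pow_le_pow_left₀ (abs_nonneg _) h1 2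
    have h7 : (C0 * T w b) ^ 2 ≤ 3 * C0 ^ 2 * T w b := by
      have h8 : C0 ^ 2 * T w b * T w b ≤ C0 ^ 2 * T w b * 3 :=
        mul_le_mul_of_nonneg_left (hT3 w b) (mul_nonneg (sq_nonneg _) (hTn w b))
      calc (C0 * T w b) ^ 2 = C0 ^ 2 * T w b * T w b := by ring
        _ ≤ C0 ^ 2 * T w b * 3 := h8
        _ = _ := by ring
    have h9 : D ^ 2 ≤ 2 * L ^ 2 + 2 * (D - L) ^ 2 := by linarith only [sq_nonneg (D - 2 * L)]
    have h10 : 8 * (p : ℝ) ^ 2 * T w b ≤ C0 ^ 2 * T w b :=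
      mul_le_mul_of_nonneg_right h8p (hTn w b)
    rw [hK1]
    linarith
  have hsmall : ∀ w b, K1 * T w b ≤ dl ^ 2 := by
    intro w b
    set e := dl ^ 2 / (4 * K1) with he
    have hdl2 : 0 < dl ^ 2 := by positivity
    have he0 : 0 < e := by positivity
    have hie : 1 / e = 4 * K1 / dl ^ 2 := by
      rw [he, one_div_div]
    have hie1 : 1 ≤ 1 / e := by
      rw [hie, le_div_iff₀ hdl2, one_mul]
      have h1 : dl ^ 2 ≤ 1 := pow_le_one₀ hdl.le hdl1
      have h2 : 1 ≤ C0 ^ 2 := one_le_pow₀ hC01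
      rw [hK1]
      linarith
    have h1 := hw1 w b e he0
    have h2 := hR1 w b
    have h3 : e * T0 ≤ e := mul_le_of_le_one_right he0.le hs
    have h4 : 1 * cn ≤ (1 / e) ^ (p - 1) * cn :=
      mul_le_mul_of_nonneg_right (one_le_pow₀ hie1) hcn0
    have h5 : T w b ≤ e + 2 * ((1 / e) ^ (p - 1) * cn) := by
      show trw p (f s) (g w b) + nu ^ (2 * p - 2) * (g w b * g w b).trace.re ≤ _
      linarith
    have h6 : K1 * e = dl ^ 2 / 4 := by
      rw [he]
      field_simp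
    have h7 : 2 * K1 * ((1 / e) ^ (p - 1) * cn) ≤ dl ^ 2 / 2 := by
      rw [hie, div_pow]
      have hpos : 0 < (dl ^ 2) ^ (p - 1) := by positivity
      have h8 : 2 * K1 * ((4 * K1) ^ (p - 1) / (dl ^ 2) ^ (p - 1) * cn) =
          ((4 * K1) ^ p * cn / 2) / (dl ^ 2) ^ (p - 1) := by
        have h9 : (4 * K1) ^ p = (4 * K1) ^ (p - 1) * (4 * K1) := by
          rw [← pow_succ]
          congr 1
          omega
        rw [h9]
        field_simp
        ring
      rw [h8, div_le_iff₀ hpos]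
      have h10 : (4 * K1) ^ p ≤ X ^ (2 * p) :=
        (pow_le_pow_left₀ (by positivity) h4K1 p).trans (pow_le_pow_right₀ hX1 (by omega))
      have h11 : (4 * K1) ^ p * cn ≤ X ^ (2 * p) * be :=
        mul_le_mul h10 hcnbe hcn0 (by positivity)
      have h12 : dl ^ 2 / 2 * (dl ^ 2) ^ (p - 1) = dl ^ (2 * p) / 2 := by
        have h13 : dl ^ (2 * p) = (dl ^ 2) ^ (p - 1) * dl ^ 2 := by
          rw [← pow_succ, ← pow_mul]
          congr 1
          omega
        rw [h13]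
        ring
      rw [h12]
      rw [← hKT] at h11
      linarith
    calc K1 * T w b ≤ K1 * (e + 2 * ((1 / e) ^ (p - 1) * cn)) :=
          mul_le_mul_of_nonneg_left h5 hK1pos.le
      _ = K1 * e + 2 * K1 * ((1 / e) ^ (p - 1) * cn) := by ring
      _ ≤ dl ^ 2 := by
          rw [h6]
          linarith
  -- maximizing values
  have hmax : ∀ w, ∃ b, ∀ b', T w b' ≤ T w b := fun w => Finite.exists_max (T w)
  choose β hβ using hmax
  refine ⟨fun w b => tr1 (2 * p) (f s) (g w b), fun w => K1 * T w (β w), ?_, ?_, ?_, ?_, ?_, ?_⟩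
  · intro w
    exact mul_nonneg hK1pos.le (hTn _ _)
  · intro w b
    refine (hjump w b).trans ?_
    have h1 : C0 ≤ K1 := by
      rw [hK1]
      have h2 : C0 ≤ C0 ^ 2 := le_self_pow₀ hC01 (by norm_num)
      linarith only [h2, hC01]
    exact mul_le_mul h1 (hβ w b) (hTn _ _) hK1pos.le
  · intro w b
    exact (hsq w b).trans (mul_le_mul_of_nonneg_left (hβ w b) hK1pos.le)
  · intro w b
    have h1 := (hsq w b).trans (hsmall w b)
    exact abs_le_of_sq_le_sq h1 hdl.le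
  · -- drift
    have h1 : ∑ w, (∑ a, pr w a * tr1 (2 * p) (f s) (g w (some a)) -
        tr1 (2 * p) (f s) (g w none)) = tr1 (2 * p) (f s)
          (∑ w, (∑ b, (pr w b : ℂ) • f (update s w (some b)) - f (update s w none))) := by
      rw [jtr1_sum]
      refine Finset.sum_congr rfl fun w _ => ?_
      have h9 : tr1 (2 * p) (f s)
          (∑ b, (pr w b : ℂ) • f (update s w (some b)) - f (update s w none)) =
          ∑ b, tr1 (2 * p) (f s) ((pr w b : ℂ) • f (update s w (some b))) -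
            tr1 (2 * p) (f s) (f (update s w none)) := by
        rw [jtr1_sub, jtr1_sum]
      rw [h9]
      have h2 : ∀ b, tr1 (2 * p) (f s) (g w b) =
          tr1 (2 * p) (f s) (f (update s w b)) - tr1 (2 * p) (f s) (f s) := fun b =>
        jtr1_sub _ _ _ _
      have h3 : ∑ a, pr w a * tr1 (2 * p) (f s) (g w (some a)) =
          ∑ a, tr1 (2 * p) (f s) ((pr w a : ℂ) • f (update s w (some a))) -
            tr1 (2 * p) (f s) (f s) := by
        have h4 : ∀ a, pr w a * tr1 (2 * p) (f s) (g w (some a)) =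
            tr1 (2 * p) (f s) ((pr w a : ℂ) • f (update s w (some a))) -
              pr w a * tr1 (2 * p) (f s) (f s) := by
          intro a
          rw [h2, jtr1_smul]
          ring
        simp only [h4]
        rw [Finset.sum_sub_distrib, ← Finset.sum_mul, hpr1, one_mul]
      rw [h3, h2]
      ring
    show ∑ w, (∑ a, pr w a * tr1 (2 * p) (f s) (g w (some a)) -
        tr1 (2 * p) (f s) (g w none)) ≤ KT p * T0 + KT p * be
    rw [h1]
    have h5 := Pool.Agent.APS.tr1_le p hp1 (hf s) hx0 one_pos hx (c := 1) zero_le_one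
    rw [one_mul, one_mul, one_div, inv_one, one_pow, one_mul, one_mul, ← hT0, ← hcd] at h5
    have h6 : cd * (2 * (p : ℝ) * x) ^ (2 * p) ≤ KT p * be := by
      have h7 : (2 * (p : ℝ)) ^ (2 * p) ≤ X ^ (2 * p) := by
        refine pow_le_pow_left₀ (by positivity) ?_ _
        have h8 : (1000 * (p : ℝ) ^ 4) * 1 ≤ (1000 * (p : ℝ) ^ 4) * Real.exp (8 * p) :=
          mul_le_mul_of_nonneg_left hexp1' (by positivity)
        have h9 : (p : ℝ) ≤ (p : ℝ) ^ 4 := le_self_pow₀ (by linarith) (by norm_num)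
        rw [hX]
        linarith
      calc cd * (2 * (p : ℝ) * x) ^ (2 * p) = (2 * (p : ℝ)) ^ (2 * p) * (cd * x ^ (2 * p)) := by
            rw [mul_pow (2 * (p : ℝ))]
            ring
        _ ≤ X ^ (2 * p) * be := mul_le_mul h7 hcxbe hcx0 (by positivity)
    have h10 : 1 * T0 ≤ KT p * T0 := mul_le_mul_of_nonneg_right hKT1 hT00
    have h11 := (le_abs_self _).trans h5
    linarith
  · show ∑ w, K1 * T w (β w) ≤ KT p * T0 + KT p * be
    rw [← Finset.mul_sum]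
    have h1 : ∑ w, T w (β w) ≤ T0 + 2 * cn := by
      have h2 : ∑ w, T w (β w) = ∑ w, trw p (f s) (g w (β w)) +
          nu ^ (2 * p - 2) * ∑ w, (g w (β w) * g w (β w)).trace.re := by
        rw [Finset.mul_sum, ← Finset.sum_add_distrib]
      have h3 : nu ^ (2 * p - 2) * ∑ w, (g w (β w) * g w (β w)).trace.re ≤ cn := by
        calc nu ^ (2 * p - 2) * ∑ w, (g w (β w) * g w (β w)).trace.re
            ≤ nu ^ (2 * p - 2) * (cd * nu ^ 2) :=
              mul_le_mul_of_nonneg_left (hsumR β) (pow_nonneg hnu0 _)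
          _ = cd * (nu ^ (2 * p - 2) * nu ^ 2) := by ring
          _ = cn := by rw [hnue]
      have h4 := hw2 β
      rw [h2]
      linarith
    have h5 : 2 * K1 ≤ KT p := by
      rw [hKT]
      linarith
    have h6 : K1 * ∑ w, T w (β w) ≤ K1 * (T0 + 2 * cn) := mul_le_mul_of_nonneg_left h1 hK1pos.le
    have h7 : K1 * T0 ≤ KT p * T0 := mul_le_mul_of_nonneg_right (by linarith) hT00
    have h8 : 2 * K1 * cn ≤ KT p * be := mul_le_mul h5 hcnbe hcn0 (by linarith)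
    linarith

end Pool.Agent.ANS
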