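import Pool.Agent.ANS.Eng

/-! # ANS JPOW: power components of the jump engine

`Γ s = ∑ x, om x (‖V x s‖ / a)^(2p)`.  Only elementary inequalities, everything at one fixed
configuration `s`.  Write `v = ‖V x s‖`, `d = d x w`, `C = 4^p + 2p + 1`.

1. `|‖V + Δ‖^(2p) - ‖V‖^(2p) - 2p ‖V‖^(2p-2) Re(conj V Δ)| ≤ C (v^(2p-2) d² + d^(2p))`, `‖Δ‖ ≤ d`:
   for `‖Δ‖ ≤ v` put `y = 2 Re(conj V Δ) + ‖Δ‖²`, `|y| ≤ 3 v ‖Δ‖`, `‖V+Δ‖^(2p) = (v²+y)^p`, and
   `|(v²+y)^p - v^(2p) - p v^(2p-2) y| ≤ ∑_{k≥2} binom(p,k) v^(2p-2k) |y|^k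
    ≤ ∑ binom(p,k) 3^k v^(2p-k) ‖Δ‖^k ≤ 4^p v^(2p-2) ‖Δ‖²`, plus `p v^(2p-2) ‖Δ‖²`;
   for `v < ‖Δ‖` every term is at most a constant times `‖Δ‖^(2p)`: `4^p + 1 + 2p`.
2. `l w b = a^(-2p) ∑ x om x · 2p v^(2p-2) Re(conj V_x (V_x(s^{w→b}) - V_x(s)))`,
   `q w = K a^(-2p) ∑ x om x (v^(2p-2) d² + d^(2p))` with `K = 2 C'^2`, `C' = 4·4^p ≥ 2C + 2p`.
3. `(ΔΓ)²`: `|ΔΓ| ≤ C' a^(-2p) ∑ om (v^(2p-1) d + d^(2p))` [as `v^(2p-2) d² ≤ v^(2p-1) d + d^(2p)`],
   Cauchy-Schwarz `(∑ om v^(2p-1) d)² ≤ (∑ om v^(2p)) (∑ om v^(2p-2) d²)`, `Γ s ≤ 1` and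
   `a^(-2p) ∑ om d^(2p) ≤ be ≤ 1`.
4. `|ΔΓ| ≤ dl`: `x^(2p-1) y ≤ e x^(2p) + e^(1-2p) y^(2p)` with `e = dl / (2C')`.
5. drift: `∑_w (∑ pr l - l none) = a^(-2p) ∑ om 2p v^(2p-2) Re(conj V_x · (drift of V_x))` (use
   `∑ pr = 1`) `≤ 2p (Γ + ∑ om (D/a)^(2p))`.
6. `∑ q ≤ K (Γ + 2 ∑ om (Q/a²)^p)`: `∑_w d^(2p) ≤ (∑_w d²)^p ≤ Q^p`, `x^(p-1) y ≤ x^p + y^p`.

`comp_pos`: the same for real `V` with the positive part `(max (V x s) 0 / a)^(2p)`, where the
drift is needed only from above and only where `V x s > 0`.  (`z ↦ max z 0 ^ (2p)`: same second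
order bound; `l w b = a^(-2p) ∑ om 2p (max V 0)^(2p-1) (V(s^{w→b}) - V(s))`.) -/

set_option autoImplicit false

open Finset Function

noncomputable section

namespace Pool.Agent.ANS

variable {N A X : Type} [Fintype N] [DecidableEq N] [Fintype A] [DecidableEq A] [Fintype X]

/-- the constant -/
def KP (p : ℕ) : ℝ := (400 * p * 4 ^ p) ^ (2 * p)

/-- second order bound, relative form -/
theorem sec_ord (k : ℕ) {y t v : ℝ} (hv : 0 ≤ v) (ht : 0 ≤ t) (htv : t ≤ v)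
    (hy : |y| ≤ 3 * (v * t)) :
    |(v ^ 2 + y) ^ (k + 1) - (v ^ 2) ^ (k + 1) - ((k : ℝ) + 1) * (v ^ 2) ^ k * y| ≤
      (4 ^ (k + 1) - 1 - 3 * ((k : ℝ) + 1)) * ((v ^ 2) ^ k * t ^ 2) := by
  induction k with
  | zero =>
    have h : (v ^ 2 + y) ^ (0 + 1) - (v ^ 2) ^ (0 + 1) - (((0 : ℕ) : ℝ) + 1) * (v ^ 2) ^ 0 * y = 0 := by
      push_cast
      ring
    rw [h, abs_zero]
    apply le_of_eq
    push_cast
    ring
  | succ k ih =>
    have h1 : (v ^ 2 + y) ^ (k + 1 + 1) - (v ^ 2) ^ (k + 1 + 1) -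
        (((k + 1 : ℕ) : ℝ) + 1) * (v ^ 2) ^ (k + 1) * y =
        (v ^ 2 + y) * ((v ^ 2 + y) ^ (k + 1) - (v ^ 2) ^ (k + 1) -
          ((k : ℝ) + 1) * (v ^ 2) ^ k * y) + ((k : ℝ) + 1) * (v ^ 2) ^ k * y ^ 2 := by
      push_cast
      ring
    have hvt : v * t ≤ v ^ 2 := by nlinarith
    have hvt0 : 0 ≤ v * t := mul_nonneg hv ht
    have h2 : |v ^ 2 + y| ≤ 4 * v ^ 2 := by
      rw [abs_le] at hy ⊢
      constructor
      · nlinarith [hy.1, hy.2]
      · nlinarith [hy.1, hy.2]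
    have h3 : y ^ 2 ≤ 9 * (v ^ 2 * t ^ 2) := by
      calc y ^ 2 = |y| ^ 2 := (sq_abs y).symm
        _ ≤ (3 * (v * t)) ^ 2 := by gcongr
        _ = 9 * (v ^ 2 * t ^ 2) := by ring
    rw [h1]
    calc |(v ^ 2 + y) * ((v ^ 2 + y) ^ (k + 1) - (v ^ 2) ^ (k + 1) -
          ((k : ℝ) + 1) * (v ^ 2) ^ k * y) + ((k : ℝ) + 1) * (v ^ 2) ^ k * y ^ 2|
        ≤ |(v ^ 2 + y) * ((v ^ 2 + y) ^ (k + 1) - (v ^ 2) ^ (k + 1) -
          ((k : ℝ) + 1) * (v ^ 2) ^ k * y)| + |((k : ℝ) + 1) * (v ^ 2) ^ k * y ^ 2| := abs_add_le _ _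
      _ = |v ^ 2 + y| * |(v ^ 2 + y) ^ (k + 1) - (v ^ 2) ^ (k + 1) -
          ((k : ℝ) + 1) * (v ^ 2) ^ k * y| + ((k : ℝ) + 1) * (v ^ 2) ^ k * y ^ 2 := by
        rw [abs_mul, abs_of_nonneg (show 0 ≤ ((k : ℝ) + 1) * (v ^ 2) ^ k * y ^ 2 by positivity)]
      _ ≤ (4 * v ^ 2) * ((4 ^ (k + 1) - 1 - 3 * ((k : ℝ) + 1)) * ((v ^ 2) ^ k * t ^ 2)) +
          ((k : ℝ) + 1) * (v ^ 2) ^ k * (9 * (v ^ 2 * t ^ 2)) := by
        gcongr
      _ = (4 ^ (k + 1 + 1) - 1 - 3 * (((k + 1 : ℕ) : ℝ) + 1)) * ((v ^ 2) ^ (k + 1) * t ^ 2) := by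
        push_cast
        ring

theorem four_pow_ge (k : ℕ) : 3 * ((k : ℝ) + 1) + 1 ≤ 4 ^ (k + 1) := by
  induction k with
  | zero => norm_num
  | succ k ih =>
    rw [pow_succ]
    push_cast
    have : (0 : ℝ) ≤ k := Nat.cast_nonneg k
    nlinarith

/-- second order bound for `z ↦ ‖z‖ ^ (2 (k + 1))` -/
theorem est (k : ℕ) {v t d c z : ℝ} (hv : 0 ≤ v) (ht : 0 ≤ t) (htd : t ≤ d) (hc : |c| ≤ v * t)
    (hz : z ^ 2 = v ^ 2 + 2 * c + t ^ 2) :
    |(z ^ 2) ^ (k + 1) - (v ^ 2) ^ (k + 1) - 2 * ((k : ℝ) + 1) * (v ^ 2) ^ k * c| ≤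
      (4 ^ (k + 1) + 2 * ((k : ℝ) + 1) + 1) * ((v ^ 2) ^ k * d ^ 2 + (d ^ 2) ^ (k + 1)) := by
  have hd : 0 ≤ d := ht.trans htd
  have hk : (0 : ℝ) ≤ k := Nat.cast_nonneg k
  have htd2 : t ^ 2 ≤ d ^ 2 := by gcongr
  have hP := four_pow_ge k
  rcases le_or_gt t v with h | h
  · have hy : |2 * c + t ^ 2| ≤ 3 * (v * t) := by
      have h1 : t ^ 2 ≤ v * t := by nlinarith
      rw [abs_le] at hc ⊢
      constructor
      · nlinarith [hc.1, hc.2, sq_nonneg t]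
      · nlinarith [hc.1, hc.2]
    have h1 := sec_ord k hv ht h hy
    have h2 : (z ^ 2) ^ (k + 1) - (v ^ 2) ^ (k + 1) - 2 * ((k : ℝ) + 1) * (v ^ 2) ^ k * c =
        ((v ^ 2 + (2 * c + t ^ 2)) ^ (k + 1) - (v ^ 2) ^ (k + 1) -
          ((k : ℝ) + 1) * (v ^ 2) ^ k * (2 * c + t ^ 2)) + ((k : ℝ) + 1) * (v ^ 2) ^ k * t ^ 2 := by
      rw [hz, ← add_assoc]
      ring
    rw [h2]
    have hA : 0 ≤ (v ^ 2) ^ k := by positivity
    calc _ ≤ |(v ^ 2 + (2 * c + t ^ 2)) ^ (k + 1) - (v ^ 2) ^ (k + 1) -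
          ((k : ℝ) + 1) * (v ^ 2) ^ k * (2 * c + t ^ 2)| + |((k : ℝ) + 1) * (v ^ 2) ^ k * t ^ 2| :=
          abs_add_le _ _
      _ ≤ (4 ^ (k + 1) - 1 - 3 * ((k : ℝ) + 1)) * ((v ^ 2) ^ k * t ^ 2) +
          ((k : ℝ) + 1) * (v ^ 2) ^ k * t ^ 2 := by
        rw [abs_of_nonneg (show 0 ≤ ((k : ℝ) + 1) * (v ^ 2) ^ k * t ^ 2 by positivity)]
        exact add_le_add_left h1 _
      _ = (4 ^ (k + 1) - 1 - 2 * ((k : ℝ) + 1)) * ((v ^ 2) ^ k * t ^ 2) := by ring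
      _ ≤ (4 ^ (k + 1) + 2 * ((k : ℝ) + 1) + 1) * ((v ^ 2) ^ k * t ^ 2) := by
        apply mul_le_mul_of_nonneg_right _ (by positivity)
        linarith
      _ ≤ (4 ^ (k + 1) + 2 * ((k : ℝ) + 1) + 1) * ((v ^ 2) ^ k * d ^ 2 + (d ^ 2) ^ (k + 1)) := by
        apply mul_le_mul_of_nonneg_left _ (by positivity)
        have h3 : (v ^ 2) ^ k * t ^ 2 ≤ (v ^ 2) ^ k * d ^ 2 := by gcongr
        have h4 : 0 ≤ (d ^ 2) ^ (k + 1) := by positivity
        linarith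
  · have hvd : v ≤ d := h.le.trans htd
    have hc' : |c| ≤ d ^ 2 := by
      refine hc.trans ?_
      nlinarith
    have hz' : z ^ 2 ≤ 4 * d ^ 2 := by
      have h1 := (abs_le.1 hc).2
      rw [hz]
      nlinarith
    have h1 : (z ^ 2) ^ (k + 1) ≤ 4 ^ (k + 1) * (d ^ 2) ^ (k + 1) := by
      rw [← mul_pow]
      gcongr
    have h2 : (v ^ 2) ^ (k + 1) ≤ (d ^ 2) ^ (k + 1) := by gcongr
    have h3 : |2 * ((k : ℝ) + 1) * (v ^ 2) ^ k * c| ≤ 2 * ((k : ℝ) + 1) * (d ^ 2) ^ (k + 1) := by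
      rw [abs_mul, abs_of_nonneg (show 0 ≤ 2 * ((k : ℝ) + 1) * (v ^ 2) ^ k by positivity)]
      calc 2 * ((k : ℝ) + 1) * (v ^ 2) ^ k * |c| ≤ 2 * ((k : ℝ) + 1) * (d ^ 2) ^ k * d ^ 2 := by
            gcongr
        _ = 2 * ((k : ℝ) + 1) * (d ^ 2) ^ (k + 1) := by ring
    have h4 : 0 ≤ (v ^ 2) ^ k * d ^ 2 := by positivity
    have h5 : 0 ≤ (z ^ 2) ^ (k + 1) := by positivity
    have h6 : 0 ≤ (v ^ 2) ^ (k + 1) := by positivity
    have h7 : 0 ≤ (4 ^ (k + 1) + 2 * ((k : ℝ) + 1) + 1) * ((v ^ 2) ^ k * d ^ 2) := by positivity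
    have h8 : 0 ≤ (4 : ℝ) ^ (k + 1) * (d ^ 2) ^ (k + 1) := by positivity
    have h9 : 0 ≤ ((k : ℝ) + 1) * (d ^ 2) ^ (k + 1) := by positivity
    rw [abs_le] at h3 ⊢
    constructor
    · nlinarith [h3.1, h3.2]
    · nlinarith [h3.1, h3.2]

theorem yg (k : ℕ) {v d e : ℝ} (hv : 0 ≤ v) (hd : 0 ≤ d) (he : 0 < e) :
    (v ^ 2) ^ k * v * d ≤ e * (v ^ 2) ^ (k + 1) + (1 / e) ^ (2 * k + 1) * (d ^ 2) ^ (k + 1) := by
  rcases le_or_gt d (e * v) with h | h
  · have h1 : (v ^ 2) ^ k * v * d ≤ (v ^ 2) ^ k * v * (e * v) := by gcongr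
    have h2 : (v ^ 2) ^ k * v * (e * v) = e * (v ^ 2) ^ (k + 1) := by ring
    have h3 : 0 ≤ (1 / e) ^ (2 * k + 1) * (d ^ 2) ^ (k + 1) := by positivity
    linarith
  · have h0 : v ≤ 1 / e * d := by
      rw [one_div, inv_mul_eq_div, le_div_iff₀ he]
      linarith
    have h1 : (v ^ 2) ^ k * v * d ≤ ((1 / e * d) ^ 2) ^ k * (1 / e * d) * d := by gcongr
    have h2 : ((1 / e * d) ^ 2) ^ k * (1 / e * d) * d = (1 / e) ^ (2 * k + 1) * (d ^ 2) ^ (k + 1) := by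
      rw [mul_pow, mul_pow, ← pow_mul]
      ring
    have h3 : 0 ≤ e * (v ^ 2) ^ (k + 1) := by positivity
    linarith

theorem yq (k : ℕ) {W Q : ℝ} (hW : 0 ≤ W) (hQ : 0 ≤ Q) : W ^ k * Q ≤ W ^ (k + 1) + Q ^ (k + 1) := by
  rcases le_or_gt Q W with h | h
  · have h1 : W ^ k * Q ≤ W ^ k * W := by gcongr
    have h2 : 0 ≤ Q ^ (k + 1) := by positivity
    rw [pow_succ W]
    linarith
  · have h1 : W ^ k * Q ≤ Q ^ k * Q := by gcongr
    have h2 : 0 ≤ W ^ (k + 1) := by positivity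
    rw [pow_succ Q]
    linarith

theorem KP_facts (k : ℕ) : 2 * (8 * (4 : ℝ) ^ (k + 1)) ^ (2 * (k + 1)) ≤ KP (k + 1) ∧
    64 * ((4 : ℝ) ^ (k + 1)) ^ 2 ≤ KP (k + 1) := by
  have hP1 : (1 : ℝ) ≤ 4 ^ (k + 1) := one_le_pow₀ (by norm_num)
  have hk1 : (1 : ℝ) ≤ ((k + 1 : ℕ) : ℝ) := by exact_mod_cast Nat.succ_le_succ (Nat.zero_le k)
  have hb : 16 * (4 : ℝ) ^ (k + 1) ≤ 400 * ((k + 1 : ℕ) : ℝ) * 4 ^ (k + 1) := by
    apply mul_le_mul_of_nonneg_right _ (by positivity)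
    linarith
  have h1 : (16 * (4 : ℝ) ^ (k + 1)) ^ (2 * (k + 1)) ≤ KP (k + 1) := by
    unfold KP
    exact pow_le_pow_left₀ (by positivity) hb _
  constructor
  · refine le_trans ?_ h1
    have h2 : (16 * (4 : ℝ) ^ (k + 1)) ^ (2 * (k + 1)) =
        2 ^ (2 * (k + 1)) * (8 * (4 : ℝ) ^ (k + 1)) ^ (2 * (k + 1)) := by
      rw [← mul_pow]
      congr 1
      ring
    rw [h2]
    apply mul_le_mul_of_nonneg_right _ (by positivity)
    calc (2 : ℝ) = 2 ^ 1 := by norm_num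
      _ ≤ 2 ^ (2 * (k + 1)) := pow_le_pow_right₀ (by norm_num) (by omega)
  · refine le_trans ?_ h1
    calc 64 * ((4 : ℝ) ^ (k + 1)) ^ 2 ≤ (16 * (4 : ℝ) ^ (k + 1)) ^ 2 := by
          rw [mul_pow]
          apply mul_le_mul_of_nonneg_right _ (by positivity)
          norm_num
      _ ≤ (16 * (4 : ℝ) ^ (k + 1)) ^ (2 * (k + 1)) :=
          pow_le_pow_right₀ (by nlinarith) (by omega)

theorem comp_abs (k : ℕ) (pr : N → A → ℝ) (om : X → ℝ) (hom : ∀ x, 0 ≤ om x)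
    (Φ : X → (N → Option A) → ℝ) (s : N → Option A) (v : X → ℝ) (hv : ∀ x, 0 ≤ v x)
    (hΦ : ∀ x, Φ x s = (v x ^ 2) ^ (k + 1)) (L : X → N → Option A → ℝ) (d : X → N → ℝ)
    (hd0 : ∀ x w, 0 ≤ d x w)
    (hL1 : ∀ x w b, |Φ x (update s w b) - Φ x s - L x w b| ≤
      (4 ^ (k + 1) + 2 * ((k : ℝ) + 1) + 1) * ((v x ^ 2) ^ k * d x w ^ 2 + (d x w ^ 2) ^ (k + 1)))
    (hL2 : ∀ x w b, |L x w b| ≤ 2 * ((k : ℝ) + 1) * ((v x ^ 2) ^ k * v x * d x w))
    (D Q : X → ℝ) (hD0 : ∀ x, 0 ≤ D x)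
    (hD : ∀ x, ∑ w, (∑ b, pr w b * L x w (some b) - L x w none) ≤
      2 * ((k : ℝ) + 1) * ((v x ^ 2) ^ k * v x * D x))
    (hQ : ∀ x, ∑ w, d x w ^ 2 ≤ Q x) {bD be dl : ℝ}
    (hbDD : ∑ x, om x * (D x ^ 2) ^ (k + 1) ≤ bD)
    (hbQ : ∑ x, om x * Q x ^ (k + 1) ≤ be)
    (hdl : 0 < dl) (hdl1 : dl ≤ 1) (hbd : KP (k + 1) * be ≤ dl ^ (2 * (k + 1)))
    (hs : ∑ x, om x * Φ x s ≤ 1) :
    CompAt pr (fun s => ∑ x, om x * Φ x s) s (KP (k + 1)) (KP (k + 1) * (bD + be)) dl := by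
  obtain ⟨hK1, hK2⟩ := KP_facts k
  have hP3 := four_pow_ge k
  obtain ⟨P, hP⟩ : ∃ P : ℝ, P = 4 ^ (k + 1) := ⟨_, rfl⟩
  obtain ⟨K, hK⟩ : ∃ K : ℝ, K = KP (k + 1) := ⟨_, rfl⟩
  rw [← hP] at hK1 hK2 hP3 hL1
  rw [← hK] at hK1 hK2 hbd ⊢
  have hk0 : (0 : ℝ) ≤ k := Nat.cast_nonneg k
  have hP4 : 4 ≤ P := by linarith
  have hP0 : 0 < P := by linarith
  have hK64 : 64 ≤ K := by nlinarith
  have hK0 : 0 < K := by linarith
  have hQ0 : ∀ x, 0 ≤ Q x := fun x => (Finset.sum_nonneg fun w _ => sq_nonneg (d x w)).trans (hQ x)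
  have hD2 : 0 ≤ ∑ x, om x * (D x ^ 2) ^ (k + 1) :=
    Finset.sum_nonneg fun x _ => mul_nonneg (hom x) (by positivity)
  have hQ2 : 0 ≤ ∑ x, om x * Q x ^ (k + 1) :=
    Finset.sum_nonneg fun x _ => mul_nonneg (hom x) (pow_nonneg (hQ0 x) _)
  have hbe0 : 0 ≤ be := by linarith
  have hbD0 : 0 ≤ bD := by linarith
  have hbe1 : be ≤ 1 := by
    have h1 : dl ^ (2 * (k + 1)) ≤ 1 := pow_le_one₀ hdl.le hdl1
    nlinarith
  have hΓs : ∑ x, om x * (v x ^ 2) ^ (k + 1) ≤ 1 := by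
    refine le_trans (le_of_eq (Finset.sum_congr rfl fun x _ => ?_)) hs
    rw [hΦ]
  have hΓs' : ∑ x, om x * (v x ^ 2) ^ (k + 1) = ∑ x, om x * Φ x s :=
    Finset.sum_congr rfl fun x _ => by rw [hΦ]
  have hΓ0 : 0 ≤ ∑ x, om x * (v x ^ 2) ^ (k + 1) :=
    Finset.sum_nonneg fun x _ => mul_nonneg (hom x) (by positivity)
  -- sum of d ^ (2 p) over x for a fixed w
  have hdQ : ∀ x w, d x w ^ 2 ≤ Q x := fun x w =>
    (Finset.single_le_sum (f := fun w => d x w ^ 2) (fun w _ => sq_nonneg (d x w))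
      (Finset.mem_univ w)).trans (hQ x)
  have hY0 : ∀ w, 0 ≤ ∑ x, om x * (d x w ^ 2) ^ (k + 1) := fun w =>
    Finset.sum_nonneg fun x _ => mul_nonneg (hom x) (by positivity)
  have hYb : ∀ w, ∑ x, om x * (d x w ^ 2) ^ (k + 1) ≤ be := by
    intro w
    have h1 : ∑ x, om x * (d x w ^ 2) ^ (k + 1) ≤ ∑ x, om x * Q x ^ (k + 1) :=
      Finset.sum_le_sum fun x _ => mul_le_mul_of_nonneg_left
        (pow_le_pow_left₀ (sq_nonneg _) (hdQ x w) _) (hom x)
    linarith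
  have hX0 : ∀ w, 0 ≤ ∑ x, om x * ((v x ^ 2) ^ k * d x w ^ 2) := fun w =>
    Finset.sum_nonneg fun x _ => mul_nonneg (hom x) (by positivity)
  have hZ0 : ∀ w, 0 ≤ ∑ x, om x * ((v x ^ 2) ^ k * v x * d x w) := fun w =>
    Finset.sum_nonneg fun x _ => mul_nonneg (hom x)
      (mul_nonneg (mul_nonneg (by positivity) (hv x)) (hd0 x w))
  have hS : ∀ w, ∑ x, om x * ((v x ^ 2) ^ k * d x w ^ 2 + (d x w ^ 2) ^ (k + 1)) =
      ∑ x, om x * ((v x ^ 2) ^ k * d x w ^ 2) + ∑ x, om x * (d x w ^ 2) ^ (k + 1) := by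
    intro w
    rw [← Finset.sum_add_distrib]
    exact Finset.sum_congr rfl fun x _ => mul_add _ _ _
  -- the increment of Γ
  have hinc : ∀ w b, |∑ x, om x * Φ x (update s w b) - ∑ x, om x * Φ x s| ≤
      4 * P * (∑ x, om x * ((v x ^ 2) ^ k * v x * d x w) + ∑ x, om x * (d x w ^ 2) ^ (k + 1)) := by
    intro w b
    rw [← Finset.sum_sub_distrib, ← Finset.sum_add_distrib, Finset.mul_sum]
    refine (Finset.abs_sum_le_sum_abs _ _).trans (Finset.sum_le_sum fun x _ => ?_)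
    rw [← mul_sub, abs_mul, abs_of_nonneg (hom x)]
    have h1 := hL1 x w b
    have h2 := hL2 x w b
    have h3 : (v x ^ 2) ^ k * d x w ^ 2 ≤ (v x ^ 2) ^ k * v x * d x w + (d x w ^ 2) ^ (k + 1) := by
      rcases le_or_gt (d x w) (v x) with h | h
      · have h4 : (v x ^ 2) ^ k * d x w ^ 2 ≤ (v x ^ 2) ^ k * v x * d x w := by
          rw [pow_two (d x w), mul_assoc]
          apply mul_le_mul_of_nonneg_left _ (by positivity)
          exact mul_le_mul_of_nonneg_right h (hd0 x w)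
        have h5 : 0 ≤ (d x w ^ 2) ^ (k + 1) := by positivity
        linarith
      · have h4 : (v x ^ 2) ^ k * d x w ^ 2 ≤ (d x w ^ 2) ^ k * d x w ^ 2 := by
          apply mul_le_mul_of_nonneg_right _ (by positivity)
          exact pow_le_pow_left₀ (by positivity) (pow_le_pow_left₀ (hv x) h.le 2) k
        have h5 : 0 ≤ (v x ^ 2) ^ k * v x * d x w :=
          mul_nonneg (mul_nonneg (by positivity) (hv x)) (hd0 x w)
        rw [pow_succ (d x w ^ 2)]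
        linarith
    have hZx : 0 ≤ (v x ^ 2) ^ k * v x * d x w :=
      mul_nonneg (mul_nonneg (by positivity) (hv x)) (hd0 x w)
    have hYx : 0 ≤ (d x w ^ 2) ^ (k + 1) := by positivity
    have h6 : |Φ x (update s w b) - Φ x s| ≤
        4 * P * ((v x ^ 2) ^ k * v x * d x w + (d x w ^ 2) ^ (k + 1)) := by
      have h7 : |Φ x (update s w b) - Φ x s| ≤ |Φ x (update s w b) - Φ x s - L x w b| + |L x w b| := by
        have := abs_add_le (Φ x (update s w b) - Φ x s - L x w b) (L x w b)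
        rwa [sub_add_cancel] at this
      have h8 : (P + 2 * ((k : ℝ) + 1) + 1) * ((v x ^ 2) ^ k * d x w ^ 2 + (d x w ^ 2) ^ (k + 1)) ≤
          (P + 2 * ((k : ℝ) + 1) + 1) *
            ((v x ^ 2) ^ k * v x * d x w + (d x w ^ 2) ^ (k + 1) + (d x w ^ 2) ^ (k + 1)) := by
        apply mul_le_mul_of_nonneg_left _ (by positivity)
        linarith
      obtain ⟨Z, hZ⟩ : ∃ Z, Z = (v x ^ 2) ^ k * v x * d x w := ⟨_, rfl⟩
      obtain ⟨Y, hY⟩ : ∃ Y, Y = (d x w ^ 2) ^ (k + 1) := ⟨_, rfl⟩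
      rw [← hZ] at h2 h8 hZx ⊢
      rw [← hY] at h8 hYx h1 ⊢
      have h9 : |Φ x (update s w b) - Φ x s| ≤
          (P + 2 * ((k : ℝ) + 1) + 1) * (Z + Y + Y) + 2 * ((k : ℝ) + 1) * Z := by linarith
      refine h9.trans ?_
      have h10 : (P + 4 * ((k : ℝ) + 1) + 1) * Z ≤ 4 * P * Z :=
        mul_le_mul_of_nonneg_right (by linarith) hZx
      have h11 : 2 * (P + 2 * ((k : ℝ) + 1) + 1) * Y ≤ 4 * P * Y :=
        mul_le_mul_of_nonneg_right (by linarith) hYx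
      nlinarith
    calc om x * |Φ x (update s w b) - Φ x s| ≤
          om x * (4 * P * ((v x ^ 2) ^ k * v x * d x w + (d x w ^ 2) ^ (k + 1))) :=
          mul_le_mul_of_nonneg_left h6 (hom x)
      _ = _ := by ring
  refine ⟨fun w b => ∑ x, om x * L x w b,
    fun w => 32 * P ^ 2 * ∑ x, om x * ((v x ^ 2) ^ k * d x w ^ 2 + (d x w ^ 2) ^ (k + 1)),
    ?_, ?_, ?_, ?_, ?_, ?_⟩
  · intro w
    show 0 ≤ 32 * P ^ 2 * ∑ x, om x * ((v x ^ 2) ^ k * d x w ^ 2 + (d x w ^ 2) ^ (k + 1))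
    rw [hS]
    exact mul_nonneg (by positivity) (add_nonneg (hX0 w) (hY0 w))
  · intro w b
    show |∑ x, om x * Φ x (update s w b) - ∑ x, om x * Φ x s - ∑ x, om x * L x w b| ≤
      32 * P ^ 2 * ∑ x, om x * ((v x ^ 2) ^ k * d x w ^ 2 + (d x w ^ 2) ^ (k + 1))
    rw [← Finset.sum_sub_distrib, ← Finset.sum_sub_distrib, Finset.mul_sum]
    refine (Finset.abs_sum_le_sum_abs _ _).trans (Finset.sum_le_sum fun x _ => ?_)
    have h1 : om x * Φ x (update s w b) - om x * Φ x s - om x * L x w b =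
        om x * (Φ x (update s w b) - Φ x s - L x w b) := by ring
    rw [h1, abs_mul, abs_of_nonneg (hom x)]
    calc om x * |Φ x (update s w b) - Φ x s - L x w b| ≤
          om x * ((P + 2 * ((k : ℝ) + 1) + 1) *
            ((v x ^ 2) ^ k * d x w ^ 2 + (d x w ^ 2) ^ (k + 1))) :=
          mul_le_mul_of_nonneg_left (hL1 x w b) (hom x)
      _ ≤ om x * ((32 * P ^ 2) * ((v x ^ 2) ^ k * d x w ^ 2 + (d x w ^ 2) ^ (k + 1))) := by
          apply mul_le_mul_of_nonneg_left _ (hom x)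
          apply mul_le_mul_of_nonneg_right _ (by positivity)
          nlinarith
      _ = _ := by ring
  · intro w b
    show (∑ x, om x * Φ x (update s w b) - ∑ x, om x * Φ x s) ^ 2 ≤
      32 * P ^ 2 * ∑ x, om x * ((v x ^ 2) ^ k * d x w ^ 2 + (d x w ^ 2) ^ (k + 1))
    rw [hS, ← sq_abs]
    have hCS : (∑ x, om x * ((v x ^ 2) ^ k * v x * d x w)) ^ 2 ≤
        (∑ x, om x * (v x ^ 2) ^ (k + 1)) * (∑ x, om x * ((v x ^ 2) ^ k * d x w ^ 2)) := by
      refine Finset.sum_sq_le_sum_mul_sum_of_sq_le_mul _ (fun x _ => ?_) (fun x _ => ?_)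
        (fun x _ => le_of_eq ?_)
      · exact mul_nonneg (hom x) (by positivity)
      · exact mul_nonneg (hom x) (by positivity)
      · ring
    obtain ⟨Z, hZ⟩ : ∃ Z, Z = ∑ x, om x * ((v x ^ 2) ^ k * v x * d x w) := ⟨_, rfl⟩
    obtain ⟨Y, hY⟩ : ∃ Y, Y = ∑ x, om x * (d x w ^ 2) ^ (k + 1) := ⟨_, rfl⟩
    obtain ⟨W, hW⟩ : ∃ W, W = ∑ x, om x * ((v x ^ 2) ^ k * d x w ^ 2) := ⟨_, rfl⟩
    have h1 := hinc w b
    have h2 := hZ0 w
    have h3 := hY0 w
    have h4 := hYb w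
    have h5 := hX0 w
    rw [← hZ] at h1 h2 hCS
    rw [← hY] at h1 h3 h4 ⊢
    rw [← hW] at h5 hCS ⊢
    have h6 : Z ^ 2 ≤ W := by nlinarith
    have h7 : Y ^ 2 ≤ Y := by nlinarith
    calc |∑ x, om x * Φ x (update s w b) - ∑ x, om x * Φ x s| ^ 2 ≤ (4 * P * (Z + Y)) ^ 2 :=
          pow_le_pow_left₀ (abs_nonneg _) h1 2
      _ = 16 * P ^ 2 * (Z + Y) ^ 2 := by ring
      _ ≤ 16 * P ^ 2 * (2 * (Z ^ 2 + Y ^ 2)) := by
          apply mul_le_mul_of_nonneg_left _ (by positivity)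
          nlinarith [sq_nonneg (Z - Y)]
      _ ≤ 16 * P ^ 2 * (2 * (W + Y)) := by
          apply mul_le_mul_of_nonneg_left _ (by positivity)
          linarith
      _ = 32 * P ^ 2 * (W + Y) := by ring
  · intro w b
    show |∑ x, om x * Φ x (update s w b) - ∑ x, om x * Φ x s| ≤ dl
    refine (hinc w b).trans ?_
    have he : 0 < dl / (8 * P) := by positivity
    have h1 : ∑ x, om x * ((v x ^ 2) ^ k * v x * d x w) ≤
        dl / (8 * P) * (∑ x, om x * (v x ^ 2) ^ (k + 1)) +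
          (1 / (dl / (8 * P))) ^ (2 * k + 1) * ∑ x, om x * (d x w ^ 2) ^ (k + 1) := by
      rw [Finset.mul_sum, Finset.mul_sum, ← Finset.sum_add_distrib]
      refine Finset.sum_le_sum fun x _ => ?_
      calc om x * ((v x ^ 2) ^ k * v x * d x w) ≤ om x * (dl / (8 * P) * (v x ^ 2) ^ (k + 1) +
            (1 / (dl / (8 * P))) ^ (2 * k + 1) * (d x w ^ 2) ^ (k + 1)) :=
            mul_le_mul_of_nonneg_left (yg k (hv x) (hd0 x w) he) (hom x)
        _ = _ := by ring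
    have h2 : 1 / (dl / (8 * P)) = 8 * P / dl := by rw [one_div_div]
    rw [h2] at h1
    have h3 : 1 ≤ 8 * P / dl := by
      rw [le_div_iff₀ hdl]
      nlinarith
    have h4 : 1 ≤ (8 * P / dl) ^ (2 * k + 1) := one_le_pow₀ h3
    have h5 := hYb w
    have h6 := hY0 w
    have h7 : ∑ x, om x * ((v x ^ 2) ^ k * v x * d x w) ≤
        dl / (8 * P) + (8 * P / dl) ^ (2 * k + 1) * be := by
      refine h1.trans ?_
      apply add_le_add
      · calc dl / (8 * P) * ∑ x, om x * (v x ^ 2) ^ (k + 1) ≤ dl / (8 * P) * 1 :=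
            mul_le_mul_of_nonneg_left hΓs he.le
          _ = dl / (8 * P) := mul_one _
      · exact mul_le_mul_of_nonneg_left h5 (by positivity)
    have h8 : ∑ x, om x * (d x w ^ 2) ^ (k + 1) ≤ (8 * P / dl) ^ (2 * k + 1) * be := by
      refine h5.trans ?_
      exact le_mul_of_one_le_left hbe0 h4
    have h9 : 8 * P * ((8 * P / dl) ^ (2 * k + 1) * be) ≤ dl / 2 := by
      have h10 : 8 * P * ((8 * P / dl) ^ (2 * k + 1) * be) =
          (8 * P) ^ (2 * (k + 1)) * be / dl ^ (2 * k + 1) := by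
        rw [div_pow, show 2 * (k + 1) = 2 * k + 1 + 1 by ring, pow_succ (8 * P) (2 * k + 1)]
        ring
      rw [h10, div_le_iff₀ (by positivity)]
      have h11 : 2 * ((8 * P) ^ (2 * (k + 1)) * be) ≤ dl ^ (2 * (k + 1)) := by
        calc 2 * ((8 * P) ^ (2 * (k + 1)) * be) = (2 * (8 * P) ^ (2 * (k + 1))) * be := by ring
          _ ≤ K * be := mul_le_mul_of_nonneg_right hK1 hbe0
          _ ≤ _ := hbd
      have h12 : dl / 2 * dl ^ (2 * k + 1) = dl ^ (2 * (k + 1)) / 2 := by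
        rw [show 2 * (k + 1) = 2 * k + 1 + 1 by ring, pow_succ dl (2 * k + 1)]
        ring
      rw [h12]
      linarith
    have h13 : 4 * P * (dl / (8 * P)) = dl / 2 := by
      field_simp
      ring
    calc 4 * P * (∑ x, om x * ((v x ^ 2) ^ k * v x * d x w) + ∑ x, om x * (d x w ^ 2) ^ (k + 1))
        ≤ 4 * P * ((dl / (8 * P) + (8 * P / dl) ^ (2 * k + 1) * be) +
          (8 * P / dl) ^ (2 * k + 1) * be) := by
          apply mul_le_mul_of_nonneg_left _ (by positivity)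
          linarith
      _ = 4 * P * (dl / (8 * P)) + 8 * P * ((8 * P / dl) ^ (2 * k + 1) * be) := by ring
      _ ≤ dl := by rw [h13]; linarith
  · show ∑ w, (∑ a, pr w a * (∑ x, om x * L x w (some a)) - ∑ x, om x * L x w none) ≤
      K * (∑ x, om x * Φ x s) + K * (bD + be)
    have h1 : ∑ w, (∑ a, pr w a * (∑ x, om x * L x w (some a)) - ∑ x, om x * L x w none) =
        ∑ x, om x * ∑ w, (∑ a, pr w a * L x w (some a) - L x w none) := by
      have h2 : ∀ w, (∑ a, pr w a * (∑ x, om x * L x w (some a)) - ∑ x, om x * L x w none) =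
          ∑ x, om x * (∑ a, pr w a * L x w (some a) - L x w none) := by
        intro w
        have h3 : ∑ a, pr w a * (∑ x, om x * L x w (some a)) =
            ∑ x, om x * ∑ a, pr w a * L x w (some a) := by
          simp only [Finset.mul_sum]
          rw [Finset.sum_comm]
          refine Finset.sum_congr rfl fun x _ => Finset.sum_congr rfl fun a _ => ?_
          ring
        rw [h3, ← Finset.sum_sub_distrib]
        exact Finset.sum_congr rfl fun x _ => (mul_sub _ _ _).symm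
      simp only [h2]
      rw [Finset.sum_comm]
      exact Finset.sum_congr rfl fun x _ => (Finset.mul_sum _ _ _).symm
    rw [h1]
    have h4 : ∀ x, om x * ∑ w, (∑ a, pr w a * L x w (some a) - L x w none) ≤
        2 * ((k : ℝ) + 1) * (om x * (v x ^ 2) ^ (k + 1) + om x * (D x ^ 2) ^ (k + 1)) := by
      intro x
      have h5 := yg k (hv x) (hD0 x) one_pos
      rw [one_mul, div_one, one_pow, one_mul] at h5
      calc om x * ∑ w, (∑ a, pr w a * L x w (some a) - L x w none) ≤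
            om x * (2 * ((k : ℝ) + 1) * ((v x ^ 2) ^ k * v x * D x)) :=
            mul_le_mul_of_nonneg_left (hD x) (hom x)
        _ ≤ om x * (2 * ((k : ℝ) + 1) * ((v x ^ 2) ^ (k + 1) + (D x ^ 2) ^ (k + 1))) := by
            apply mul_le_mul_of_nonneg_left _ (hom x)
            exact mul_le_mul_of_nonneg_left h5 (by positivity)
        _ = _ := by ring
    refine (Finset.sum_le_sum fun x _ => h4 x).trans ?_
    rw [← Finset.mul_sum, Finset.sum_add_distrib, ← hΓs']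
    have h6 : 2 * ((k : ℝ) + 1) ≤ K := by nlinarith
    calc 2 * ((k : ℝ) + 1) * (∑ x, om x * (v x ^ 2) ^ (k + 1) + ∑ x, om x * (D x ^ 2) ^ (k + 1)) ≤
          K * (∑ x, om x * (v x ^ 2) ^ (k + 1) + (bD + be)) := by
          apply mul_le_mul h6 (by linarith) (add_nonneg hΓ0 hD2) hK0.le
      _ = _ := by ring
  · show ∑ w, 32 * P ^ 2 * ∑ x, om x * ((v x ^ 2) ^ k * d x w ^ 2 + (d x w ^ 2) ^ (k + 1)) ≤
      K * (∑ x, om x * Φ x s) + K * (bD + be)
    rw [← Finset.mul_sum, Finset.sum_comm, ← hΓs']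
    have h1 : ∀ x, ∑ w, om x * ((v x ^ 2) ^ k * d x w ^ 2 + (d x w ^ 2) ^ (k + 1)) ≤
        om x * (v x ^ 2) ^ (k + 1) + 2 * (om x * Q x ^ (k + 1)) := by
      intro x
      rw [← Finset.mul_sum, Finset.sum_add_distrib, ← Finset.mul_sum]
      have h2 : ∑ w, (d x w ^ 2) ^ (k + 1) ≤ Q x ^ (k + 1) := by
        calc ∑ w, (d x w ^ 2) ^ (k + 1) ≤ ∑ w, Q x ^ k * d x w ^ 2 := by
              refine Finset.sum_le_sum fun w _ => ?_
              rw [pow_succ]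
              exact mul_le_mul_of_nonneg_right (pow_le_pow_left₀ (sq_nonneg _) (hdQ x w) k)
                (sq_nonneg _)
          _ = Q x ^ k * ∑ w, d x w ^ 2 := (Finset.mul_sum _ _ _).symm
          _ ≤ Q x ^ k * Q x := mul_le_mul_of_nonneg_left (hQ x) (pow_nonneg (hQ0 x) k)
          _ = Q x ^ (k + 1) := (pow_succ _ _).symm
      have h3 : (v x ^ 2) ^ k * ∑ w, d x w ^ 2 ≤ (v x ^ 2) ^ k * Q x :=
        mul_le_mul_of_nonneg_left (hQ x) (by positivity)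
      have h4 := yq k (sq_nonneg (v x)) (hQ0 x)
      calc om x * ((v x ^ 2) ^ k * ∑ w, d x w ^ 2 + ∑ w, (d x w ^ 2) ^ (k + 1)) ≤
            om x * ((v x ^ 2) ^ (k + 1) + 2 * Q x ^ (k + 1)) :=
            mul_le_mul_of_nonneg_left (by linarith) (hom x)
        _ = _ := by ring
    have h5 : ∑ x, ∑ w, om x * ((v x ^ 2) ^ k * d x w ^ 2 + (d x w ^ 2) ^ (k + 1)) ≤
        ∑ x, om x * (v x ^ 2) ^ (k + 1) + 2 * ∑ x, om x * Q x ^ (k + 1) := by
      rw [Finset.mul_sum, ← Finset.sum_add_distrib]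
      exact Finset.sum_le_sum fun x _ => h1 x
    calc 32 * P ^ 2 * ∑ x, ∑ w, om x * ((v x ^ 2) ^ k * d x w ^ 2 + (d x w ^ 2) ^ (k + 1)) ≤
          32 * P ^ 2 * (∑ x, om x * (v x ^ 2) ^ (k + 1) + 2 * be) := by
          apply mul_le_mul_of_nonneg_left _ (by positivity)
          linarith
      _ ≤ 64 * P ^ 2 * (∑ x, om x * (v x ^ 2) ^ (k + 1) + be) := by nlinarith [sq_nonneg P]
      _ ≤ K * (∑ x, om x * (v x ^ 2) ^ (k + 1) + be) :=
          mul_le_mul_of_nonneg_right hK2 (by linarith)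
      _ ≤ K * (∑ x, om x * (v x ^ 2) ^ (k + 1) + (bD + be)) :=
          mul_le_mul_of_nonneg_left (by linarith) hK0.le
      _ = _ := by ring

theorem comp_pow (p : ℕ) (hp : 2 ≤ p) (pr : N → A → ℝ) (hpr : ∀ w a, 0 ≤ pr w a)
    (hpr1 : ∀ w, ∑ a, pr w a = 1) (om : X → ℝ) (hom : ∀ x, 0 ≤ om x)
    (V : X → (N → Option A) → ℂ) {a : ℝ} (ha : 0 < a) (s : N → Option A) (d : X → N → ℝ)
    (hd : ∀ x w b, ‖V x (update s w b) - V x s‖ ≤ d x w) (D Q : X → ℝ)
    (hD : ∀ x, ‖∑ w, (∑ b, (pr w b : ℂ) * V x (update s w (some b)) - V x (update s w none))‖ ≤ D x)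
    (hQ : ∀ x, ∑ w, d x w ^ 2 ≤ Q x) {bD bQ dl : ℝ}
    (hbD : ∑ x, om x * (D x / a) ^ (2 * p) ≤ bD)
    (hbQ : ∑ x, om x * (Q x / a ^ 2) ^ p ≤ bQ)
    (hdl : 0 < dl) (hdl1 : dl ≤ 1) (hbd : KP p * bQ ≤ dl ^ (2 * p))
    (hs : ∑ x, om x * (‖V x s‖ / a) ^ (2 * p) ≤ 1) :
    CompAt pr (fun s => ∑ x, om x * (‖V x s‖ / a) ^ (2 * p)) s (KP p) (KP p * (bD + bQ)) dl := by
  obtain ⟨k, rfl⟩ : ∃ k, p = k + 1 := ⟨p - 1, by omega⟩
  have hd0 : ∀ x w, 0 ≤ d x w := fun x w => (norm_nonneg _).trans (hd x w none)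
  have hD0 : ∀ x, 0 ≤ D x := fun x => (norm_nonneg _).trans (hD x)
  have ha0 : a ≠ 0 := ha.ne'
  have hre : ∀ z w : ℂ, |((starRingEnd ℂ) z * w).re| ≤ ‖z‖ * ‖w‖ := by
    intro z w
    refine (Complex.abs_re_le_norm _).trans (le_of_eq ?_)
    rw [norm_mul, RCLike.norm_conj]
  refine comp_abs k pr om hom (fun x s => (‖V x s‖ / a) ^ (2 * (k + 1))) s
    (fun x => ‖V x s‖ / a) (fun x => by positivity) (fun x => pow_mul _ _ _)
    (fun x w b => 2 * ((k : ℝ) + 1) * ((‖V x s‖ / a) ^ 2) ^ k *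
      (((starRingEnd ℂ) (V x s) * (V x (update s w b) - V x s)).re / a ^ 2))
    (fun x w => d x w / a) (fun x w => div_nonneg (hd0 x w) ha.le) ?_ ?_
    (fun x => D x / a) (fun x => Q x / a ^ 2) (fun x => div_nonneg (hD0 x) ha.le) ?_ ?_ ?_ hbQ hdl hdl1
    hbd hs
  · intro x w b
    show |(‖V x (update s w b)‖ / a) ^ (2 * (k + 1)) - (‖V x s‖ / a) ^ (2 * (k + 1)) -
      2 * ((k : ℝ) + 1) * ((‖V x s‖ / a) ^ 2) ^ k *
      (((starRingEnd ℂ) (V x s) * (V x (update s w b) - V x s)).re / a ^ 2)| ≤ _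
    rw [pow_mul, pow_mul]
    refine est k (t := ‖V x (update s w b) - V x s‖ / a) (by positivity) (by positivity) ?_ ?_ ?_
    · exact div_le_div_of_nonneg_right (hd x w b) ha.le
    · rw [abs_div, abs_of_pos (pow_pos ha 2)]
      rw [show ‖V x s‖ / a * (‖V x (update s w b) - V x s‖ / a) =
        ‖V x s‖ * ‖V x (update s w b) - V x s‖ / a ^ 2 by field_simp]
      exact div_le_div_of_nonneg_right (hre _ _) (by positivity)
    · have h1 : ‖V x (update s w b)‖ ^ 2 = ‖V x s‖ ^ 2 +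
          2 * ((starRingEnd ℂ) (V x s) * (V x (update s w b) - V x s)).re +
          ‖V x (update s w b) - V x s‖ ^ 2 := by
        rw [← Complex.normSq_eq_norm_sq, ← Complex.normSq_eq_norm_sq, ← Complex.normSq_eq_norm_sq,
          Complex.normSq_apply, Complex.normSq_apply, Complex.normSq_apply]
        simp only [Complex.mul_re, Complex.sub_re, Complex.sub_im, Complex.conj_re, Complex.conj_im]
        ring
      rw [div_pow, h1, div_pow, div_pow]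
      field_simp
  · intro x w b
    show |2 * ((k : ℝ) + 1) * ((‖V x s‖ / a) ^ 2) ^ k *
      (((starRingEnd ℂ) (V x s) * (V x (update s w b) - V x s)).re / a ^ 2)| ≤
      2 * ((k : ℝ) + 1) * (((‖V x s‖ / a) ^ 2) ^ k * (‖V x s‖ / a) * (d x w / a))
    rw [abs_mul, abs_of_nonneg (show 0 ≤ 2 * ((k : ℝ) + 1) * ((‖V x s‖ / a) ^ 2) ^ k by positivity),
      abs_div, abs_of_pos (pow_pos ha 2)]
    have h1 : |((starRingEnd ℂ) (V x s) * (V x (update s w b) - V x s)).re| ≤ ‖V x s‖ * d x w :=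
      (hre _ _).trans (mul_le_mul_of_nonneg_left (hd x w b) (norm_nonneg _))
    calc 2 * ((k : ℝ) + 1) * ((‖V x s‖ / a) ^ 2) ^ k *
          (|((starRingEnd ℂ) (V x s) * (V x (update s w b) - V x s)).re| / a ^ 2) ≤
          2 * ((k : ℝ) + 1) * ((‖V x s‖ / a) ^ 2) ^ k * (‖V x s‖ * d x w / a ^ 2) := by
          gcongr
      _ = _ := by
          field_simp
  · intro x
    show ∑ w, (∑ b, pr w b * (2 * ((k : ℝ) + 1) * ((‖V x s‖ / a) ^ 2) ^ k *
      (((starRingEnd ℂ) (V x s) * (V x (update s w (some b)) - V x s)).re / a ^ 2)) -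
      2 * ((k : ℝ) + 1) * ((‖V x s‖ / a) ^ 2) ^ k *
      (((starRingEnd ℂ) (V x s) * (V x (update s w none) - V x s)).re / a ^ 2)) ≤
      2 * ((k : ℝ) + 1) * (((‖V x s‖ / a) ^ 2) ^ k * (‖V x s‖ / a) * (D x / a))
    have h1 : ∀ w, (∑ b, pr w b * (2 * ((k : ℝ) + 1) * ((‖V x s‖ / a) ^ 2) ^ k *
        (((starRingEnd ℂ) (V x s) * (V x (update s w (some b)) - V x s)).re / a ^ 2)) -
        2 * ((k : ℝ) + 1) * ((‖V x s‖ / a) ^ 2) ^ k *
        (((starRingEnd ℂ) (V x s) * (V x (update s w none) - V x s)).re / a ^ 2)) =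
        2 * ((k : ℝ) + 1) * ((‖V x s‖ / a) ^ 2) ^ k / a ^ 2 * ((starRingEnd ℂ) (V x s) *
        (∑ b, (pr w b : ℂ) * V x (update s w (some b)) - V x (update s w none))).re := by
      intro w
      have h2 : ((starRingEnd ℂ) (V x s) *
          (∑ b, (pr w b : ℂ) * V x (update s w (some b)) - V x (update s w none))).re =
          ∑ b, pr w b * ((starRingEnd ℂ) (V x s) * (V x (update s w (some b)) - V x s)).re -
          ((starRingEnd ℂ) (V x s) * (V x (update s w none) - V x s)).re := by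
        have h3 : (∑ b, (pr w b : ℂ) * V x (update s w (some b)) - V x (update s w none)) =
            ∑ b, (pr w b : ℂ) * (V x (update s w (some b)) - V x s) -
            (V x (update s w none) - V x s) := by
          have h4 : ∑ b, (pr w b : ℂ) * (V x (update s w (some b)) - V x s) =
              ∑ b, (pr w b : ℂ) * V x (update s w (some b)) - V x s := by
            simp only [mul_sub]
            rw [Finset.sum_sub_distrib, ← Finset.sum_mul]
            have h5 : ∑ b, (pr w b : ℂ) = 1 := by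
              rw [← Complex.ofReal_sum, hpr1]
              exact Complex.ofReal_one
            rw [h5, one_mul]
          rw [h4]
          ring
        rw [h3, mul_sub, Complex.sub_re, Finset.mul_sum, Complex.re_sum]
        congr 1
        refine Finset.sum_congr rfl fun b _ => ?_
        rw [mul_left_comm, Complex.re_ofReal_mul]
      rw [h2]
      conv_rhs => rw [mul_sub, Finset.mul_sum]
      congr 1
      · refine Finset.sum_congr rfl fun b _ => ?_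
        ring
      · ring
    simp only [h1]
    rw [← Finset.mul_sum, ← Complex.re_sum, ← Finset.mul_sum]
    have h6 : ((starRingEnd ℂ) (V x s) *
        ∑ w, (∑ b, (pr w b : ℂ) * V x (update s w (some b)) - V x (update s w none))).re ≤
        ‖V x s‖ * D x :=
      (le_abs_self _).trans ((hre _ _).trans (mul_le_mul_of_nonneg_left (hD x) (norm_nonneg _)))
    calc 2 * ((k : ℝ) + 1) * ((‖V x s‖ / a) ^ 2) ^ k / a ^ 2 * ((starRingEnd ℂ) (V x s) *
        ∑ w, (∑ b, (pr w b : ℂ) * V x (update s w (some b)) - V x (update s w none))).re ≤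
        2 * ((k : ℝ) + 1) * ((‖V x s‖ / a) ^ 2) ^ k / a ^ 2 * (‖V x s‖ * D x) :=
        mul_le_mul_of_nonneg_left h6 (by positivity)
      _ = _ := by
        field_simp
  · intro x
    show ∑ w, (d x w / a) ^ 2 ≤ Q x / a ^ 2
    simp only [div_pow]
    rw [← Finset.sum_div]
    exact div_le_div_of_nonneg_right (hQ x) (by positivity)
  · refine le_trans (le_of_eq (Finset.sum_congr rfl fun x _ => ?_)) hbD
    rw [← pow_mul]

theorem comp_pos (p : ℕ) (hp : 2 ≤ p) (pr : N → A → ℝ) (hpr : ∀ w a, 0 ≤ pr w a)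
    (hpr1 : ∀ w, ∑ a, pr w a = 1) (om : X → ℝ) (hom : ∀ x, 0 ≤ om x)
    (V : X → (N → Option A) → ℝ) {a : ℝ} (ha : 0 < a) (s : N → Option A) (d : X → N → ℝ)
    (hd : ∀ x w b, |V x (update s w b) - V x s| ≤ d x w) (D Q : X → ℝ) (hD0 : ∀ x, 0 ≤ D x)
    (hD : ∀ x, 0 < V x s → ∑ w, (∑ b, pr w b * V x (update s w (some b)) - V x (update s w none)) ≤ D x)
    (hQ : ∀ x, ∑ w, d x w ^ 2 ≤ Q x) {bD bQ dl : ℝ}
    (hbD : ∑ x, om x * (D x / a) ^ (2 * p) ≤ bD)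
    (hbQ : ∑ x, om x * (Q x / a ^ 2) ^ p ≤ bQ)
    (hdl : 0 < dl) (hdl1 : dl ≤ 1) (hbd : KP p * bQ ≤ dl ^ (2 * p))
    (hs : ∑ x, om x * (max (V x s) 0 / a) ^ (2 * p) ≤ 1) :
    CompAt pr (fun s => ∑ x, om x * (max (V x s) 0 / a) ^ (2 * p)) s (KP p) (KP p * (bD + bQ)) dl := by
  obtain ⟨k, rfl⟩ : ∃ k, p = k + 1 := ⟨p - 1, by omega⟩
  have hd0 : ∀ x w, 0 ≤ d x w := fun x w => (abs_nonneg _).trans (hd x w none)
  have ha0 : a ≠ 0 := ha.ne'
  have hm0 : ∀ x, 0 ≤ max (V x s) 0 / a := fun x => div_nonneg (le_max_right _ _) ha.le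
  refine comp_abs k pr om hom (fun x s => (max (V x s) 0 / a) ^ (2 * (k + 1))) s
    (fun x => max (V x s) 0 / a) hm0 (fun x => pow_mul _ _ _)
    (fun x w b => 2 * ((k : ℝ) + 1) * (((max (V x s) 0 / a) ^ 2) ^ k *
      (max (V x s) 0 / a) * ((V x (update s w b) - V x s) / a)))
    (fun x w => d x w / a) (fun x w => div_nonneg (hd0 x w) ha.le) ?_ ?_
    (fun x => D x / a) (fun x => Q x / a ^ 2) (fun x => div_nonneg (hD0 x) ha.le) ?_ ?_ ?_ hbQ hdl hdl1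
    hbd hs
  · intro x w b
    show |(max (V x (update s w b)) 0 / a) ^ (2 * (k + 1)) - (max (V x s) 0 / a) ^ (2 * (k + 1)) -
      2 * ((k : ℝ) + 1) * (((max (V x s) 0 / a) ^ 2) ^ k *
      (max (V x s) 0 / a) * ((V x (update s w b) - V x s) / a))| ≤
      (4 ^ (k + 1) + 2 * ((k : ℝ) + 1) + 1) * (((max (V x s) 0 / a) ^ 2) ^ k * (d x w / a) ^ 2 +
        ((d x w / a) ^ 2) ^ (k + 1))
    have key : ∀ U U' δ : ℝ, 0 ≤ δ → |U' - U| ≤ δ →
        |(max U' 0) ^ (2 * (k + 1)) - (max U 0) ^ (2 * (k + 1)) -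
          2 * ((k : ℝ) + 1) * (((max U 0) ^ 2) ^ k * (max U 0) * (U' - U))| ≤
        (4 ^ (k + 1) + 2 * ((k : ℝ) + 1) + 1) * (((max U 0) ^ 2) ^ k * δ ^ 2 +
          (δ ^ 2) ^ (k + 1)) := by
      intro U U' δ hδ h
      have hk0 : (0 : ℝ) ≤ k := Nat.cast_nonneg k
      have hP1 : (1 : ℝ) ≤ 4 ^ (k + 1) := one_le_pow₀ (by norm_num)
      rcases le_or_gt U 0 with hU | hU
      · rw [max_eq_right hU]
        have h1 : max U' 0 ≤ δ := by
          refine max_le ?_ hδ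
          have := (abs_le.1 h).2
          linarith
        have h2 : 0 ≤ max U' 0 := le_max_right _ _
        have h3 : (max U' 0) ^ (2 * (k + 1)) ≤ (δ ^ 2) ^ (k + 1) := by
          rw [← pow_mul]
          exact pow_le_pow_left₀ h2 h1 _
        have h4 : (max U' 0) ^ (2 * (k + 1)) - (0 : ℝ) ^ (2 * (k + 1)) -
            2 * ((k : ℝ) + 1) * (((0 : ℝ) ^ 2) ^ k * 0 * (U' - U)) = (max U' 0) ^ (2 * (k + 1)) := by
          rw [zero_pow (by omega)]
          ring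
        rw [h4, abs_of_nonneg (by positivity)]
        refine h3.trans ?_
        have h5 : 0 ≤ ((0 : ℝ) ^ 2) ^ k * δ ^ 2 := by positivity
        have h6 : 0 ≤ (δ ^ 2) ^ (k + 1) := by positivity
        calc (δ ^ 2) ^ (k + 1) ≤ 1 * (((0 : ℝ) ^ 2) ^ k * δ ^ 2 + (δ ^ 2) ^ (k + 1)) := by linarith
          _ ≤ _ := by
            apply mul_le_mul_of_nonneg_right _ (by positivity)
            linarith
      · rw [max_eq_left hU.le]
        rcases le_or_gt 0 U' with hU' | hU'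
        · rw [max_eq_left hU']
          have h1 := est k (v := U) (t := |U' - U|) (d := δ) (c := U * (U' - U)) (z := U') hU.le
            (abs_nonneg _) h (le_of_eq (by rw [abs_mul, abs_of_pos hU])) (by rw [sq_abs]; ring)
          rw [pow_mul, pow_mul]
          have h2 : 2 * ((k : ℝ) + 1) * ((U ^ 2) ^ k * U * (U' - U)) =
              2 * ((k : ℝ) + 1) * (U ^ 2) ^ k * (U * (U' - U)) := by ring
          rw [h2]
          exact h1
        · rw [max_eq_right hU'.le]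
          have hUd : U ≤ δ := by
            have := (abs_le.1 h).1
            linarith
          have h1 : (U ^ 2) ^ k * U * |U' - U| ≤ (δ ^ 2) ^ k * δ * δ := by gcongr
          have h1' : (δ ^ 2) ^ k * δ * δ = (δ ^ 2) ^ (k + 1) := by ring
          have h2 : U ^ (2 * (k + 1)) ≤ (δ ^ 2) ^ (k + 1) := by
            rw [pow_mul]
            gcongr
          have h3 : |(0 : ℝ) ^ (2 * (k + 1)) - U ^ (2 * (k + 1)) -
              2 * ((k : ℝ) + 1) * ((U ^ 2) ^ k * U * (U' - U))| ≤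
              U ^ (2 * (k + 1)) + 2 * ((k : ℝ) + 1) * ((U ^ 2) ^ k * U * |U' - U|) := by
            rw [zero_pow (by omega), zero_sub]
            have h4 : |-U ^ (2 * (k + 1)) - 2 * ((k : ℝ) + 1) * ((U ^ 2) ^ k * U * (U' - U))| ≤
                |-U ^ (2 * (k + 1))| + |2 * ((k : ℝ) + 1) * ((U ^ 2) ^ k * U * (U' - U))| :=
              abs_sub _ _
            refine h4.trans (le_of_eq ?_)
            rw [abs_neg, abs_of_nonneg (show 0 ≤ U ^ (2 * (k + 1)) by positivity),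
              abs_mul (2 * ((k : ℝ) + 1)), abs_mul ((U ^ 2) ^ k * U),
              abs_of_nonneg (show 0 ≤ 2 * ((k : ℝ) + 1) by positivity),
              abs_of_nonneg (show 0 ≤ (U ^ 2) ^ k * U by positivity)]
          refine h3.trans ?_
          have h5 : 0 ≤ (δ ^ 2) ^ (k + 1) := by positivity
          have h6 : 0 ≤ (U ^ 2) ^ k * δ ^ 2 := by positivity
          have h7 : 2 * ((k : ℝ) + 1) * ((U ^ 2) ^ k * U * |U' - U|) ≤
              2 * ((k : ℝ) + 1) * (δ ^ 2) ^ (k + 1) := by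
            rw [← h1']
            gcongr
          calc U ^ (2 * (k + 1)) + 2 * ((k : ℝ) + 1) * ((U ^ 2) ^ k * U * |U' - U|) ≤
                (2 * ((k : ℝ) + 1) + 1) * (δ ^ 2) ^ (k + 1) := by linarith
            _ ≤ (4 ^ (k + 1) + 2 * ((k : ℝ) + 1) + 1) * (δ ^ 2) ^ (k + 1) := by
              apply mul_le_mul_of_nonneg_right _ h5
              linarith
            _ ≤ _ := by
              apply mul_le_mul_of_nonneg_left _ (by positivity)
              linarith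
    have hmd : ∀ y : ℝ, max y 0 / a = max (y / a) 0 := by
      intro y
      rw [← max_div_div_right ha.le, zero_div]
    have h1 := key (V x s / a) (V x (update s w b) / a) (d x w / a)
      (div_nonneg (hd0 x w) ha.le) (by
        rw [← sub_div, abs_div, abs_of_pos ha]
        exact div_le_div_of_nonneg_right (hd x w b) ha.le)
    rw [hmd, hmd, sub_div]
    exact h1
  · intro x w b
    show |2 * ((k : ℝ) + 1) * (((max (V x s) 0 / a) ^ 2) ^ k *
      (max (V x s) 0 / a) * ((V x (update s w b) - V x s) / a))| ≤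
      2 * ((k : ℝ) + 1) * (((max (V x s) 0 / a) ^ 2) ^ k * (max (V x s) 0 / a) * (d x w / a))
    rw [abs_mul (2 * ((k : ℝ) + 1)), abs_mul (((max (V x s) 0 / a) ^ 2) ^ k * (max (V x s) 0 / a)),
      abs_of_nonneg (show 0 ≤ 2 * ((k : ℝ) + 1) by positivity),
      abs_of_nonneg (mul_nonneg (by positivity) (hm0 x)), abs_div, abs_of_pos ha]
    apply mul_le_mul_of_nonneg_left _ (by positivity)
    apply mul_le_mul_of_nonneg_left _ (mul_nonneg (by positivity) (hm0 x))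
    exact div_le_div_of_nonneg_right (hd x w b) ha.le
  · intro x
    show ∑ w, (∑ b, pr w b * (2 * ((k : ℝ) + 1) * (((max (V x s) 0 / a) ^ 2) ^ k *
      (max (V x s) 0 / a) * ((V x (update s w (some b)) - V x s) / a))) -
      2 * ((k : ℝ) + 1) * (((max (V x s) 0 / a) ^ 2) ^ k *
      (max (V x s) 0 / a) * ((V x (update s w none) - V x s) / a))) ≤
      2 * ((k : ℝ) + 1) * (((max (V x s) 0 / a) ^ 2) ^ k * (max (V x s) 0 / a) * (D x / a))
    obtain ⟨c, hc⟩ : ∃ c, c = 2 * ((k : ℝ) + 1) * (((max (V x s) 0 / a) ^ 2) ^ k *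
      (max (V x s) 0 / a)) := ⟨_, rfl⟩
    have hc0 : 0 ≤ c := by
      rw [hc]
      exact mul_nonneg (by positivity) (mul_nonneg (by positivity) (hm0 x))
    have h1 : ∀ w, (∑ b, pr w b * (2 * ((k : ℝ) + 1) * (((max (V x s) 0 / a) ^ 2) ^ k *
        (max (V x s) 0 / a) * ((V x (update s w (some b)) - V x s) / a))) -
        2 * ((k : ℝ) + 1) * (((max (V x s) 0 / a) ^ 2) ^ k *
        (max (V x s) 0 / a) * ((V x (update s w none) - V x s) / a))) =
        c / a * (∑ b, pr w b * V x (update s w (some b)) - V x (update s w none)) := by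
      intro w
      have h2 : ∑ b, pr w b * (2 * ((k : ℝ) + 1) * (((max (V x s) 0 / a) ^ 2) ^ k *
          (max (V x s) 0 / a) * ((V x (update s w (some b)) - V x s) / a))) =
          c / a * (∑ b, pr w b * V x (update s w (some b)) - V x s) := by
        have h3 : ∀ b, pr w b * (2 * ((k : ℝ) + 1) * (((max (V x s) 0 / a) ^ 2) ^ k *
            (max (V x s) 0 / a) * ((V x (update s w (some b)) - V x s) / a))) =
            c / a * (pr w b * V x (update s w (some b))) - c / a * V x s * pr w b := by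
          intro b
          rw [hc]
          ring
        simp only [h3]
        rw [Finset.sum_sub_distrib, ← Finset.mul_sum, ← Finset.mul_sum, hpr1]
        ring
      rw [h2]
      rw [hc]
      ring
    simp only [h1]
    rw [← Finset.mul_sum]
    have h4 : 2 * ((k : ℝ) + 1) * (((max (V x s) 0 / a) ^ 2) ^ k * (max (V x s) 0 / a) *
        (D x / a)) = c / a * D x := by
      rw [hc]
      ring
    rw [h4]
    rcases le_or_gt (V x s) 0 with h | h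
    · have h5 : c = 0 := by
        rw [hc, max_eq_right h]
        ring
      rw [h5]
      simp
    · exact mul_le_mul_of_nonneg_left (hD x h) (div_nonneg hc0 ha.le)
  · intro x
    show ∑ w, (d x w / a) ^ 2 ≤ Q x / a ^ 2
    simp only [div_pow]
    rw [← Finset.sum_div]
    exact div_le_div_of_nonneg_right (hQ x) (by positivity)
  · refine le_trans (le_of_eq (Finset.sum_congr rfl fun x _ => ?_)) hbD
    rw [← pow_mul]

end Pool.Agent.ANS
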