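import Pool.Agent.AND.Good

/-! # ANS TOP SM: the smoothing property of a good medium (helper1)

`Q = QF`, `m_x = η_x ι_x` on the non-read sites.  If `Q(u - y) + ∑_X m y² / Ca ≤ q` then
`u = c + v + w` with `v` small in the sup norm and `w` bounded in `ℓ²(m)`.  One scale `l` for all
sites (active, static, inert): `mm` is the supremum of `m` over ALL non-read sites; choose
`l² = κ^(-1/32) / (K mm)`.  The reference forms during a reading step are
`inf_y {Q(u - y) + ∑_N y_w² / a_w}`, `a_w = 1/m'_w - 1/m_w ≤ Ca / m_w`. -/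

open Matrix Finset

noncomputable section

namespace Pool.Agent.AND

open Pool.Agent.Kin Pool.Agent.APS

variable {d L : ℕ} [NeZero L]

/-- `m_x = η_x ι_x` -/
def Med.m (M : Med (Tor d L)) (x : Tor d L) : ℝ := M.eta x * (rsc (H0T d L) M.b x x).im

theorem DW_ge {w : Fin d → Tor d L → ℝ} {k : ℝ} (hw : ∀ i x, k ≤ w i x) (a : Tor d L → ℝ) :
    k * ANF.Heat.DT a ≤ DW w a := by
  unfold DW ANF.Heat.DT
  rw [Finset.mul_sum]
  refine Finset.sum_le_sum fun i _ => ?_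
  rw [Finset.mul_sum]
  refine Finset.sum_le_sum fun x _ => ?_
  exact mul_le_mul_of_nonneg_right (hw i x) (sq_nonneg _)

/-- parallel sum of two weights at one site -/
theorem par_le {m dl Ca s y : ℝ} (hm : 0 ≤ m) (hdl : 0 ≤ dl) (hCa : 0 < Ca) :
    m / (1 + dl + Ca) * s ^ 2 ≤ m * (s - y) ^ 2 / (1 + dl) + m * y ^ 2 / Ca := by
  have h1 : 0 < 1 + dl := by linarith
  have h2 : 0 < 1 + dl + Ca := by linarith
  have key : s ^ 2 / (1 + dl + Ca) ≤ (s - y) ^ 2 / (1 + dl) + y ^ 2 / Ca := by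
    rw [div_add_div _ _ h1.ne' hCa.ne', div_le_div_iff₀ h2 (by positivity)]
    nlinarith [sq_nonneg ((s - y) * Ca - y * (1 + dl)), sq_nonneg (s - y), sq_nonneg y]
  calc m / (1 + dl + Ca) * s ^ 2 = m * (s ^ 2 / (1 + dl + Ca)) := by ring
    _ ≤ m * ((s - y) ^ 2 / (1 + dl) + y ^ 2 / Ca) := mul_le_mul_of_nonneg_left key hm
    _ = _ := by ring

/-- **Smoothing property of a good medium.** -/
theorem good_smooth (hd : 3 ≤ d) {f : Fix} {t : Tol d L} {M : Med (Tor d L)} {ut : UTol}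
    (hG : Good f t M) (hI : t.In f M ut) (hK : 0 < ut.Ki) {Ca mm l : ℝ} (hCa : 0 < Ca)
    (hdS : 0 ≤ ut.dS) (hl : 1 ≤ l) (hlL : l ≤ L) (hm0 : ∀ x ∈ M.nr, 0 ≤ M.m x)
    (hmm : ∀ x ∈ M.nr, M.m x ≤ mm) (hmm0 : 0 ≤ mm) (u y : Tor d L → ℝ) (q : ℝ)
    (hq : QF (H0T d L) M (fun x => u x - y x) + ∑ x ∈ M.nr, M.m x * y x ^ 2 / Ca ≤ q) :
    ∃ (c : ℝ) (v w : Tor d L → ℝ), (∀ x, u x = c + v x + w x) ∧
      ∑ x ∈ M.nr, M.m x * w x ^ 2 ≤
        (1 + ut.dS + Ca) * ((2 + 2 * ANF.Heat.CH d * l ^ 2 * (1 / ut.Ki) * mm) * q) ∧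
      ∀ x, v x ^ 2 ≤ ANF.Heat.CH d * ANF.Heat.rho d l * (1 / ut.Ki) * q := by
  obtain ⟨a, ha⟩ := hG.h4l fun x => u x - y x
  have hpos : 0 < 1 + ut.dS + Ca := by linarith
  have h1 : ANF.Heat.DT a / (1 / ut.Ki) + ∑ x ∈ M.nr, (M.m x / (1 + ut.dS + Ca)) * (u x - a x) ^ 2 /
      (1 + (0:ℝ)) ≤ q := by
    have h2 := DW_ge (fun i x => hI.D i x) a
    have h3 : ANF.Heat.DT a / (1 / ut.Ki) = ut.Ki * ANF.Heat.DT a := by
      field_simp
    have h4 : ∑ x ∈ M.nr, (M.m x / (1 + ut.dS + Ca)) * (u x - a x) ^ 2 / (1 + (0:ℝ)) ≤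
        ∑ x ∈ M.nr, M.eta x * (rsc (H0T d L) M.b x x).im * (u x - y x - a x) ^ 2 / (1 + t.dl x) +
          ∑ x ∈ M.nr, M.m x * y x ^ 2 / Ca := by
      rw [← Finset.sum_add_distrib]
      refine Finset.sum_le_sum fun x hx => ?_
      have hm := hm0 x hx
      have h5 := par_le (m := M.m x) (dl := ut.dS) (Ca := Ca) (s := u x - a x) (y := y x)
        hm hdS hCa
      have h6 : M.m x * (u x - a x - y x) ^ 2 / (1 + ut.dS) ≤
          M.m x * (u x - y x - a x) ^ 2 / (1 + t.dl x) := by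
        have e1 : (u x - a x - y x) ^ 2 = (u x - y x - a x) ^ 2 := by ring
        rw [e1]
        have h7 := hI.dl0 x
        refine div_le_div_of_nonneg_left (mul_nonneg hm (sq_nonneg _)) (by linarith) ?_
        have := hI.dS x
        linarith
      rw [add_zero, div_one]
      have e2 : M.eta x * (rsc (H0T d L) M.b x x).im = M.m x := rfl
      rw [e2]
      linarith
    rw [h3]
    linarith
  obtain ⟨c, v, w, e1, e2, e3⟩ := ANF.Heat.smooth hd l hl hlL M.nr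
    (fun x => M.m x / (1 + ut.dS + Ca)) (fun _ => 0) (1 / ut.Ki) mm q (by positivity) hmm0
    (fun x hx => ⟨div_nonneg (hm0 x hx) hpos.le,
      (div_le_self (hm0 x hx) (by linarith)).trans (hmm x hx)⟩) (fun x _ => le_rfl) u a h1
  refine ⟨c, v, w, e1, ?_, e3⟩
  have h8 : ∑ x ∈ M.nr, M.m x * w x ^ 2 = (1 + ut.dS + Ca) *
      ∑ x ∈ M.nr, M.m x / (1 + ut.dS + Ca) * w x ^ 2 / (1 + (0:ℝ)) := by
    rw [Finset.mul_sum]
    refine Finset.sum_congr rfl fun x _ => ?_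
    rw [add_zero, div_one]
    field_simp
  rw [h8]
  exact mul_le_mul_of_nonneg_left e2 hpos.le

end Pool.Agent.AND
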