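import Pool.Agent.ANS.CoreNum
import Pool.Agent.ANS.TopII
import Pool.Agent.ANS.Form.Comp

/-! # ANS CORE NUM 2: the triangle sums and the form component for small `κ` (AND project) -/

set_option autoImplicit false

open Finset

noncomputable section

namespace Pool.Agent.AND

open Pool.Agent.ANS Pool.Agent.Kin

/-- the bound `iotB` of the triangle sums is at most this function of `κ` -/
def iotF (d : ℕ) (c1 C1 C Cb cK cA cT vi k : ℝ) : ℝ :=
  9 * Cb * ((2 * C * ((32 * (cA * k ^ vi) + 16 * C * (C * k ^ (11 / 256 : ℝ) +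
      30 * k ^ (1 / 140 : ℝ))) +
      4 * ANF.Heat.CH d * (2 / cK) * ((1 + C ^ 2) * (2 * C) * (8 * (1 + Cb * C1 / c1))) *
        k ^ (1 / 16 : ℝ))) * (cT * k ^ (1 / 8 : ℝ)) +
    (28 * ANF.Heat.CH d * (2 / cK) * k ^ (15 / 32 : ℝ) +
      (3 + 24 * ANF.Heat.CH d * (2 / cK) * ((1 + C ^ 2) * (1 + C1) * (2 * C))) * (128 * C) *
        k ^ (2 : ℝ)) * (2 * C * (2 * C * (8 * (Cb / c1)))) ^ 2)

theorem pw_iotF (d : ℕ) (c1 C1 C Cb cK cA cT vi : ℝ) (hvi1 : vi ≤ 1 / 150) :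
    Pw (iotF d c1 C1 C Cb cK cA cT vi) (1 / 8 + vi) := by
  unfold iotF
  have h1 : Pw (fun k : ℝ => 32 * (cA * k ^ vi)) vi := ((Pw.rpow vi).cmul cA).cmul 32
  have h2 : Pw (fun k : ℝ => 16 * C * (C * k ^ (11 / 256 : ℝ) + 30 * k ^ (1 / 140 : ℝ))) vi :=
    ((((Pw.rpow (11 / 256)).cmul C).mono (by linarith)).add
      (((Pw.rpow (1 / 140)).cmul 30).mono (by linarith))).cmul (16 * C)
  have h3 : Pw (fun k : ℝ => 4 * ANF.Heat.CH d * (2 / cK) *
      ((1 + C ^ 2) * (2 * C) * (8 * (1 + Cb * C1 / c1))) * k ^ (1 / 16 : ℝ)) vi :=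
    ((Pw.rpow (1 / 16)).cmul _).mono (by linarith)
  have h4 : Pw (fun k : ℝ => 28 * ANF.Heat.CH d * (2 / cK) * k ^ (15 / 32 : ℝ)) (1 / 8 + vi) :=
    ((Pw.rpow (15 / 32)).cmul _).mono (by linarith)
  have h5 : Pw (fun k : ℝ => (3 + 24 * ANF.Heat.CH d * (2 / cK) *
      ((1 + C ^ 2) * (1 + C1) * (2 * C))) * (128 * C) * k ^ (2 : ℝ)) (1 / 8 + vi) :=
    ((Pw.rpow 2).cmul _).mono (by linarith)
  have h6 := (((h1.add h2).add h3).cmul (2 * C)).mul ((Pw.rpow (1 / 8)).cmul cT)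
  exact ((h6.mono (b := 1 / 8 + vi) (by linarith)).add
    ((h4.add h5).mulc ((2 * C * (2 * C * (8 * (Cb / c1)))) ^ 2))).cmul (9 * Cb)

theorem iotB_le {d : ℕ} (hd : 3 ≤ d) {f : Fix} {eta k kl Ki dA dS C Cb cK cA cT vi nX : ℝ}
    (hk : 0 < k) (hk1 : k ≤ 1) (heta : 0 < eta) (heta1 : eta ≤ 1) (hkl : 0 < kl)
    (hkl' : k ≤ Cb * kl) (hklk : kl ≤ k) (hc1 : 0 < f.c1) (hC1 : 0 < f.C1) (hC : 1 ≤ C)
    (hCb : 0 ≤ Cb)
    (hcK : 0 < cK) (hKi : cK ≤ Ki) (hdA0 : 0 ≤ dA) (hdA : dA ≤ cA * k ^ vi) (hdS0 : 0 ≤ dS)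
    (hdS : dS ≤ 1) (hcT : 0 ≤ cT) (hnX0 : 0 < nX) (hnX : k ^ (-3 : ℝ) ≤ nX * eta) :
    iotB d f eta k kl Ki dA dS C Cb C (k ^ (11 / 256 : ℝ)) (30 * k ^ (1 / 140 : ℝ))
      (k ^ (-15 / 32 : ℝ)) nX (cT * k ^ (1 / 8 : ℝ)) ≤ iotF d f.c1 f.C1 C Cb cK cA cT vi k := by
  have hpos : ∀ a : ℝ, 0 < k ^ a := fun a => Real.rpow_pos_of_pos hk a
  have hCH : 0 ≤ ANF.Heat.CH d := by unfold ANF.Heat.CH; positivity
  have hC0 : 0 < C := by linarith
  set em := (eta + kl * f.c1) / 8 with hem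
  have hem0 : 0 < em := by positivity
  have h2Ki : 2 / Ki ≤ 2 / cK := div_le_div_of_nonneg_left (by norm_num) hcK hKi
  have hKi0 : 0 < Ki := hcK.trans_le hKi
  -- ratios
  have r1 : k / em ≤ 8 * (Cb / f.c1) := by
    rw [hem, div_le_iff₀ (by positivity)]
    have h1 : 8 * (Cb / f.c1) * ((eta + kl * f.c1) / 8) = Cb / f.c1 * eta + Cb * kl := by
      field_simp
    rw [h1]
    have h2 : 0 ≤ Cb / f.c1 * eta := by positivity
    linarith
  have r2 : (eta + k * f.C1) / em ≤ 8 * (1 + Cb * f.C1 / f.c1) := by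
    rw [hem, div_le_iff₀ (by positivity)]
    have h1 : 8 * (1 + Cb * f.C1 / f.c1) * ((eta + kl * f.c1) / 8) =
        eta + kl * f.c1 + Cb * f.C1 / f.c1 * eta + (Cb * kl) * f.C1 := by
      field_simp
      ring
    rw [h1]
    have h2 : 0 ≤ Cb * f.C1 / f.c1 * eta := by positivity
    have h3 : 0 < kl * f.c1 := by positivity
    have h4 : k * f.C1 ≤ (Cb * kl) * f.C1 := mul_le_mul_of_nonneg_right hkl' hC1.le
    linarith
  set mm := (1 + C ^ 2) * (eta + k * f.C1) * (2 * C) with hmm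
  have hmm0 : 0 < mm := by positivity
  have r3 : mm * (k / em) ≤ (1 + C ^ 2) * (2 * C) * (8 * (1 + Cb * f.C1 / f.c1)) * k := by
    calc mm * (k / em) = (1 + C ^ 2) * (2 * C) * ((eta + k * f.C1) / em) * k := by
          rw [hmm]; ring
      _ ≤ _ := by
          refine mul_le_mul_of_nonneg_right (mul_le_mul_of_nonneg_left r2 (by positivity)) hk.le
  -- the length
  set l := k ^ (-15 / 32 : ℝ) with hl
  have hl0 : 0 < l := hpos _
  have hl1 : 1 ≤ l := Real.one_le_rpow_of_pos_of_le_one_of_nonpos hk hk1 (by norm_num)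
  have hl2 : l ^ 2 * k = k ^ (1 / 16 : ℝ) := by
    rw [hl, ← Real.rpow_natCast, ← Real.rpow_mul hk.le]
    nth_rewrite 2 [← Real.rpow_one k]
    rw [← Real.rpow_add hk]
    norm_num
  have hrho : ANF.Heat.rho d l ≤ k ^ (15 / 32 : ℝ) := by
    unfold ANF.Heat.rho
    have h1 : l ^ 3 ≤ l ^ d := pow_le_pow_right₀ hl1 hd
    have h2 : l ^ 2 / l ^ d ≤ l ^ 2 / l ^ 3 :=
      div_le_div_of_nonneg_left (by positivity) (by positivity) h1
    have h3 : l ^ 2 / l ^ 3 = l⁻¹ := by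
      field_simp
    rw [h3, hl, ← Real.rpow_neg hk.le] at h2
    refine h2.trans (le_of_eq ?_)
    norm_num
  have hrho0 : 0 ≤ ANF.Heat.rho d l := by unfold ANF.Heat.rho; positivity
  -- the three terms
  have t1 : 4 * ANF.Heat.CH d * l ^ 2 * (2 / Ki) * mm * (k / em) ≤
      4 * ANF.Heat.CH d * (2 / cK) * ((1 + C ^ 2) * (2 * C) * (8 * (1 + Cb * f.C1 / f.c1))) *
        k ^ (1 / 16 : ℝ) := by
    calc 4 * ANF.Heat.CH d * l ^ 2 * (2 / Ki) * mm * (k / em) =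
          4 * ANF.Heat.CH d * (2 / Ki) * (mm * (k / em)) * l ^ 2 := by ring
      _ ≤ 4 * ANF.Heat.CH d * (2 / cK) *
          ((1 + C ^ 2) * (2 * C) * (8 * (1 + Cb * f.C1 / f.c1)) * k) * l ^ 2 := by
          refine mul_le_mul_of_nonneg_right ?_ (by positivity)
          exact mul_le_mul (mul_le_mul_of_nonneg_left h2Ki (by positivity)) r3 (by positivity)
            (by positivity)
      _ = 4 * ANF.Heat.CH d * (2 / cK) *
          ((1 + C ^ 2) * (2 * C) * (8 * (1 + Cb * f.C1 / f.c1))) * (l ^ 2 * k) := by ring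
      _ = _ := by rw [hl2]
  have t2 : 28 * ANF.Heat.CH d * ANF.Heat.rho d l * (2 / Ki) ≤
      28 * ANF.Heat.CH d * (2 / cK) * k ^ (15 / 32 : ℝ) := by
    calc 28 * ANF.Heat.CH d * ANF.Heat.rho d l * (2 / Ki) =
          28 * ANF.Heat.CH d * (2 / Ki) * ANF.Heat.rho d l := by ring
      _ ≤ _ := mul_le_mul (mul_le_mul_of_nonneg_left h2Ki (by positivity)) hrho hrho0
          (by positivity)
  have t3 : (3 + 24 * ANF.Heat.CH d * l ^ 2 * (2 / Ki) * mm) /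
      (nX * (min (eta / (16 * C)) mm / (4 * (1 + dS)))) ≤
      (3 + 24 * ANF.Heat.CH d * (2 / cK) * ((1 + C ^ 2) * (1 + f.C1) * (2 * C))) * (128 * C) *
        k ^ (2 : ℝ) := by
    have h1 : min (eta / (16 * C)) mm = eta / (16 * C) := by
      refine min_eq_left ?_
      have e1 : eta / (16 * C) ≤ eta := div_le_self heta.le (by linarith)
      have e2 : eta ≤ mm := by
        rw [hmm]
        have e3 : 0 ≤ k * f.C1 := by positivity
        have e4 : 1 ≤ (1 + C ^ 2) := by nlinarith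
        have e5 : 1 ≤ 2 * C := by linarith
        calc eta ≤ eta + k * f.C1 := by linarith
          _ ≤ (1 + C ^ 2) * (eta + k * f.C1) := le_mul_of_one_le_left (by positivity) e4
          _ ≤ _ := le_mul_of_one_le_right (by positivity) e5
      exact e1.trans e2
    rw [h1]
    have hden : k ^ (-3 : ℝ) / (128 * C) ≤ nX * (eta / (16 * C) / (4 * (1 + dS))) := by
      have e1 : nX * (eta / (16 * C) / (4 * (1 + dS))) = (nX * eta) / (64 * C * (1 + dS)) := by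
        field_simp
        ring
      rw [e1]
      refine div_le_div₀ (by positivity) hnX (by positivity) ?_
      nlinarith
    have hnum : 3 + 24 * ANF.Heat.CH d * l ^ 2 * (2 / Ki) * mm ≤
        (3 + 24 * ANF.Heat.CH d * (2 / cK) * ((1 + C ^ 2) * (1 + f.C1) * (2 * C))) *
          k ^ (-1 : ℝ) := by
      have e1 : mm ≤ (1 + C ^ 2) * (1 + f.C1) * (2 * C) := by
        rw [hmm]
        have : eta + k * f.C1 ≤ 1 + f.C1 := by nlinarith
        gcongr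
      have e2 : l ^ 2 ≤ k ^ (-1 : ℝ) := by
        rw [hl, ← Real.rpow_natCast, ← Real.rpow_mul hk.le]
        exact Real.rpow_le_rpow_of_exponent_ge hk hk1 (by norm_num)
      have e3 : (1 : ℝ) ≤ k ^ (-1 : ℝ) :=
        Real.one_le_rpow_of_pos_of_le_one_of_nonpos hk hk1 (by norm_num)
      calc 3 + 24 * ANF.Heat.CH d * l ^ 2 * (2 / Ki) * mm ≤
            3 * k ^ (-1 : ℝ) + 24 * ANF.Heat.CH d * k ^ (-1 : ℝ) * (2 / cK) *
              ((1 + C ^ 2) * (1 + f.C1) * (2 * C)) := by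
            gcongr
            linarith
        _ = _ := by ring
    calc (3 + 24 * ANF.Heat.CH d * l ^ 2 * (2 / Ki) * mm) /
        (nX * (eta / (16 * C) / (4 * (1 + dS)))) ≤
        ((3 + 24 * ANF.Heat.CH d * (2 / cK) * ((1 + C ^ 2) * (1 + f.C1) * (2 * C))) *
          k ^ (-1 : ℝ)) / (k ^ (-3 : ℝ) / (128 * C)) := by
          refine div_le_div₀ ?_ hnum ?_ hden
          · have := hpos (-1)
            positivity
          · have := hpos (-3)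
            positivity
      _ = (3 + 24 * ANF.Heat.CH d * (2 / cK) * ((1 + C ^ 2) * (1 + f.C1) * (2 * C))) *
          (128 * C) * (k ^ (-1 : ℝ) / k ^ (-3 : ℝ)) := by
          have h3 := (hpos (-3)).ne'
          field_simp
      _ = _ := by
          rw [← Real.rpow_sub hk]
          norm_num
  unfold iotB iotF
  rw [← hmm, ← hem]
  refine mul_le_mul_of_nonneg_left ?_ (by positivity)
  refine add_le_add ?_ ?_
  · refine mul_le_mul_of_nonneg_right ?_ (mul_nonneg hcT (hpos _).le)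
    refine mul_le_mul_of_nonneg_left ?_ (by positivity)
    refine add_le_add ?_ t1
    linarith
  · have hk2 := hpos 2
    have hk3 := hpos (15 / 32)
    refine mul_le_mul (add_le_add t2 t3) ?_ (by positivity) (by positivity)
    have : 0 ≤ k / em := by positivity
    gcongr

/-! ### the form component -/

/-- sizes of the form component: `e1`, `e2` of the smoothing with `l² = κ^(-1/32)` -/
def fe1 (d : ℕ) (cK k : ℝ) : ℝ := ANF.Heat.CH d * k ^ (1 / 64 : ℝ) * (1 / cK)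
def fe2 (d : ℕ) (C C1 cK k : ℝ) : ℝ :=
  C * (3 * (2 + 2 * ANF.Heat.CH d * k ^ (-1 / 32 : ℝ) * (1 / cK) * C1))

/-- numerical conditions of the form component, moment `p` -/
structure NumF (d : ℕ) (C C1 cb cK cT eL CB Kp : ℝ) (p : ℕ) (k : ℝ) : Prop where
  k1 : k < 1
  CRd : 2 * 15 * k ^ (1 / 140 : ℝ) ≤ 1 / 2
  a2 : 2 * C * k ^ (9 / 256 : ℝ) ≤ 1
  nfL : 5000000 * C ^ 11 * 15 ^ 2 * (fe1 d cK k + fe2 d C C1 cK k * (k ^ (1 / 16 : ℝ) +
      (nb0 cb k) ^ 2 * (cT * k ^ (-7 / 8 : ℝ)) / k ^ (1 / 16 : ℝ)) +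
    (nb0 cb k) ^ 2 * (1 + fe1 d cK k + (k ^ (-eL)) ^ 2 * fe2 d C C1 cK k)) ≤
      (k ^ (1 / 130 : ℝ)) ^ 2
  nfs : 36 * 15 * k ^ (1 / 130 : ℝ) ≤ 1
  B : k ^ (-CB) * (2 * Stp.omF C 15 (k ^ (1 / 130 : ℝ)) (k ^ (9 / 256 : ℝ)) (nb0 cb k)
    (k ^ (1 / 140 : ℝ)) ^ (2 * p)) ≤ k ^ Kp
  B' : KT p * k ^ Kp ≤ (1 / 20) ^ (2 * p)

theorem numF_ev (d : ℕ) (C C1 cb cK cT eL CB Kp : ℝ) (heL : 0 ≤ eL) (heL1 : eL ≤ 1 / 4) (hCB : 0 ≤ CB)
    (hKp : 0 < Kp) :
    ∃ p0 : ℕ, ∀ p : ℕ, p0 ≤ p → Ev (NumF d C C1 cb cK cT eL CB Kp p) := by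
  obtain ⟨p0, hp0⟩ := exists_m (g := 1 / 130 - 1 / 140) (by norm_num) (Kp + CB + 1)
  refine ⟨p0, fun p hp => ?_⟩
  have h1 := hp0 p hp
  have f1 : Pw (fe1 d cK) (1 / 64) := by
    unfold fe1
    exact (((Pw.rpow (1 / 64)).cmul (ANF.Heat.CH d)).mulc (1 / cK))
  have f2 : Pw (fe2 d C C1 cK) (-1 / 32) := by
    unfold fe2
    refine (Pw.cmul C (Pw.cmul 3 (Pw.add ((Pw.const 2).mono (by norm_num)) ?_)))
    have := ((((Pw.rpow (-1 / 32)).cmul (2 * ANF.Heat.CH d)).mulc (1 / cK)).mulc C1)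
    exact this
  have f3 : Pw (fun k => k ^ (1 / 16 : ℝ) +
      (nb0 cb k) ^ 2 * (cT * k ^ (-7 / 8 : ℝ)) / k ^ (1 / 16 : ℝ)) (1 / 16) := by
    refine (Pw.rpow _).add ?_
    exact ((((pw_nb0 cb).pow 2).mul ((Pw.rpow (-7 / 8)).cmul cT)).div_rpow (1 / 16)).mono
      (by norm_num)
  have f4 : Pw (fun k => (nb0 cb k) ^ 2 * (1 + fe1 d cK k + (k ^ (-eL)) ^ 2 * fe2 d C C1 cK k))
      (1 / 64) := by
    have g1 : Pw (fun k => 1 + fe1 d cK k + (k ^ (-eL)) ^ 2 * fe2 d C C1 cK k)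
        (-2 * eL - 1 / 32) :=
      (((Pw.const 1).mono (by linarith)).add (f1.mono (by linarith))).add
        ((((Pw.rpow (-eL)).pow 2).mul f2).mono (by push_cast; linarith))
    exact (((pw_nb0 cb).pow 2).mul g1).mono (by push_cast; linarith)
  have f5 : Pw (fun k => 5000000 * C ^ 11 * 15 ^ 2 * (fe1 d cK k + fe2 d C C1 cK k *
      (k ^ (1 / 16 : ℝ) + (nb0 cb k) ^ 2 * (cT * k ^ (-7 / 8 : ℝ)) / k ^ (1 / 16 : ℝ)) +
    (nb0 cb k) ^ 2 * (1 + fe1 d cK k + (k ^ (-eL)) ^ 2 * fe2 d C C1 cK k))) (1 / 64) :=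
    ((f1.add ((f2.mul f3).mono (by norm_num))).add f4).cmul _
  have f6 : Pw (fun k => k ^ (-CB) * (2 * Stp.omF C 15 (k ^ (1 / 130 : ℝ)) (k ^ (9 / 256 : ℝ))
      (nb0 cb k) (k ^ (1 / 140 : ℝ)) ^ (2 * p))) (Kp + 1) := by
    refine ((pwF (40000 * C ^ 6 * 15 ^ 2) 1 cb (1 / 130) (9 / 256) (1 / 140) CB (by norm_num)
      (by norm_num) (2 * p)).mono ?_).congr' fun k _ => ?_
    · push_cast
      have hp0' : (0 : ℝ) ≤ p := Nat.cast_nonneg p
      nlinarith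
    · unfold Stp.omF
      rw [one_mul]
  have e1 : Ev (fun k => k ≤ 1 / 2) := Ev.le_const (by norm_num)
  have e2 : Ev (fun k => 2 * 15 * k ^ (1 / 140 : ℝ) ≤ 1 / 2) :=
    Ev.le_of_mul (Pw.rpow _) (by norm_num) _ (by norm_num)
  have e3 : Ev (fun k => 2 * C * k ^ (9 / 256 : ℝ) ≤ 1) :=
    Ev.le_of_mul (Pw.rpow _) (by norm_num) _ one_pos
  have e4 := Ev.of_Pw f5 (b := 2 * (1 / 130)) (by norm_num)
  have e5 : Ev (fun k => 36 * 15 * k ^ (1 / 130 : ℝ) ≤ 1) :=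
    Ev.le_of_mul (Pw.rpow _) (by norm_num) _ one_pos
  have e6 := Ev.of_Pw f6 (b := Kp) (by linarith)
  have e7 : Ev (fun k => KT p * k ^ Kp ≤ (1 / 20) ^ (2 * p)) :=
    Ev.le_of_mul (Pw.rpow _) hKp _ (by positivity)
  refine (((e1.and e2).and (e3.and e4)).and ((e5.and e6).and e7)).mono fun k hk h => ?_
  obtain ⟨⟨⟨a1, a2⟩, a3, a4⟩, ⟨a5, a6⟩, a7⟩ := h
  refine ⟨by linarith, a2, a3, a4.trans (le_of_eq ?_), a5, a6, a7⟩
  rw [← Real.rpow_natCast (k ^ (1 / 130 : ℝ)) 2, ← Real.rpow_mul hk.le]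
  norm_num

end Pool.Agent.AND
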