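import Pool.Agent.ANS.TopCoreB
import Pool.Agent.ANS.FormM.Out
import Pool.Agent.ANS.TopSMF
import Pool.Agent.ANS.TopForm
import Pool.Agent.ANS.CoreNum2

/-! # ANS TOP FORM B: the form component in a good medium, general laws; `frz_probB` (AND project)

`GamM` of FormM with `θ = κ^(1/140)`, diagonal tolerance `κ^(11/256)`, smoothing length `κ^(-1/64)`.
`frz_probB` : `frz_probB_w` with the form component discharged. -/

set_option autoImplicit false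
set_option linter.unusedSectionVars false

open Finset Function Matrix

noncomputable section

namespace Pool.Agent.ANS

theorem Pw.sqrt {F : ℝ → ℝ} {a : ℝ} (h : Pw F a) : Pw (fun k => √(F k)) (a / 2) := by
  obtain ⟨C, hC, k0, h0, h1, h2⟩ := h
  refine ⟨√C, Real.sqrt_pos.2 hC, k0, h0, h1, fun k hk hk0 => ?_⟩
  rw [abs_of_nonneg (Real.sqrt_nonneg _)]
  have h3 : √(F k) ≤ √(C * k ^ a) := Real.sqrt_le_sqrt ((le_abs_self _).trans (h2 k hk hk0))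
  refine h3.trans (le_of_eq ?_)
  rw [Real.sqrt_mul hC.le, Real.sqrt_eq_rpow (k ^ a), ← Real.rpow_mul hk.le]
  congr 2
  ring

/-- numerical conditions of the form component, general laws, moment `p` -/
structure NumM (d : ℕ) (C C1 cb cK cT eL CB Kp : ℝ) (p : ℕ) (k : ℝ) : Prop where
  k1 : k < 1
  a1 : 2 * C * k ^ (11 / 256 : ℝ) ≤ 1
  de : k ^ (1 / 140 : ℝ) + 2 * C * k ^ (11 / 256 : ℝ) ≤ 30 * k ^ (1 / 140 : ℝ)
  B : k ^ (-CB) * ((FormM.drC C (k ^ (1 / 140 : ℝ)) (k ^ (11 / 256 : ℝ)) (nb0 cb k) /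
      k ^ (1 / 140 : ℝ)) ^ (2 * p) +
    (√(FormM.nuM C (k ^ (-eL)) (k ^ (1 / 140 : ℝ)) (k ^ (11 / 256 : ℝ)) (nb0 cb k)
      (AND.fe1 d cK k) (AND.fe2 d C C1 cK k) (cT * k ^ (-7 / 8 : ℝ))) /
      k ^ (1 / 140 : ℝ)) ^ (2 * p)) ≤ k ^ Kp
  B' : KT p * k ^ Kp ≤ (1 / 20) ^ (2 * p)

theorem pw_drC (C cb : ℝ) : Pw (fun k => FormM.drC C (k ^ (1 / 140 : ℝ)) (k ^ (11 / 256 : ℝ))
    (nb0 cb k) / k ^ (1 / 140 : ℝ)) (1 / 140) := by
  have hE : Pw (fun k => FormM.EPc C (k ^ (1 / 140 : ℝ)) (k ^ (11 / 256 : ℝ))) (2 / 140) := by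
    unfold FormM.EPc
    have h1 : Pw (fun k => k ^ (1 / 140 : ℝ) + 2 * C ^ 2 * k ^ (11 / 256 : ℝ)) (1 / 140) :=
      (Pw.rpow _).add (((Pw.rpow _).cmul _).mono (by norm_num))
    exact ((h1.pow 2).cmul (8 * C)).eqx (by push_cast; ring)
  have h2 : Pw (fun k => 344 * C * (2 * C ^ 2 * (k ^ (11 / 256 : ℝ) +
      200 * C ^ 3 * nb0 cb k))) (2 / 140) := by
    have h3 : Pw (fun k => k ^ (11 / 256 : ℝ) + 200 * C ^ 3 * nb0 cb k) (2 / 140) :=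
      ((Pw.rpow _).mono (by norm_num)).add (((pw_nb0 cb).cmul _).mono (by norm_num))
    exact (h3.cmul (2 * C ^ 2)).cmul (344 * C)
  have h4 := (h2.add (hE.cmul (8 * C ^ 2))).div_rpow (1 / 140)
  unfold FormM.drC
  exact h4.mono (by norm_num)

theorem pw_nuM (d : ℕ) (C C1 cb cK cT eL : ℝ) (heL : 0 ≤ eL) (heL1 : eL ≤ 1 / 4) :
    Pw (fun k => √(FormM.nuM C (k ^ (-eL)) (k ^ (1 / 140 : ℝ)) (k ^ (11 / 256 : ℝ)) (nb0 cb k)
      (AND.fe1 d cK k) (AND.fe2 d C C1 cK k) (cT * k ^ (-7 / 8 : ℝ))) /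
      k ^ (1 / 140 : ℝ)) (1 / 128 - 1 / 140) := by
  have hE : Pw (fun k => FormM.EPc C (k ^ (1 / 140 : ℝ)) (k ^ (11 / 256 : ℝ))) (2 / 140) := by
    unfold FormM.EPc
    have h1 : Pw (fun k => k ^ (1 / 140 : ℝ) + 2 * C ^ 2 * k ^ (11 / 256 : ℝ)) (1 / 140) :=
      (Pw.rpow _).add (((Pw.rpow _).cmul _).mono (by norm_num))
    exact ((h1.pow 2).cmul (8 * C)).eqx (by push_cast; ring)
  have f1 : Pw (AND.fe1 d cK) (1 / 64) := by
    unfold AND.fe1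
    exact (((Pw.rpow (1 / 64)).cmul (ANF.Heat.CH d)).mulc (1 / cK))
  have f2 : Pw (AND.fe2 d C C1 cK) (-1 / 32) := by
    unfold AND.fe2
    refine (Pw.cmul C (Pw.cmul 3 (Pw.add ((Pw.const 2).mono (by norm_num)) ?_)))
    have := ((((Pw.rpow (-1 / 32)).cmul (2 * ANF.Heat.CH d)).mulc (1 / cK)).mulc C1)
    exact this
  have f3 : Pw (fun k => (nb0 cb k) ^ 2 * (cT * k ^ (-7 / 8 : ℝ))) (1 / 8) :=
    (((pw_nb0 cb).pow 2).mul ((Pw.rpow (-7 / 8)).cmul cT)).eqx (by norm_num)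
  have f4 : Pw (fun k => √(2 * C ^ 3 * ((nb0 cb k) ^ 2 * (cT * k ^ (-7 / 8 : ℝ))))) (1 / 16) :=
    ((f3.cmul (2 * C ^ 3)).sqrt).eqx (by norm_num)
  have f5 : Pw (fun k => (2 * C ^ 2 * AND.fe2 d C C1 cK k + 4 * C ^ 2)) (-1 / 32) :=
    (f2.cmul (2 * C ^ 2)).add ((Pw.const (4 * C ^ 2)).mono (by norm_num))
  have f6 : Pw (fun k => 108 * (40 * C * (2 * C ^ 3 * AND.fe1 d cK k +
      (2 * C ^ 2 * AND.fe2 d C C1 cK k + 4 * C ^ 2) *
        √(2 * C ^ 3 * ((nb0 cb k) ^ 2 * (cT * k ^ (-7 / 8 : ℝ))))) +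
      8 * C ^ 4 * ((nb0 cb k) ^ 2 * (cT * k ^ (-7 / 8 : ℝ))))) (1 / 64) :=
    ((((f1.cmul (2 * C ^ 3)).add ((f5.mul f4).mono (by norm_num))).cmul (40 * C)).add
      ((f3.cmul (8 * C ^ 4)).mono (by norm_num))).cmul 108
  have f7 : Pw (fun k => 243 * (C ^ 4 * FormM.EPc C (k ^ (1 / 140 : ℝ))
      (k ^ (11 / 256 : ℝ)) ^ 2)) (1 / 64) :=
    (((hE.pow 2).cmul (C ^ 4)).cmul 243).mono (by norm_num)
  have f8 : Pw (fun k => (k ^ (-eL)) ^ 2 + AND.fe1 d cK k + (k ^ (-eL)) ^ 2 *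
      AND.fe2 d C C1 cK k) (-2 * eL - 1 / 32) :=
    ((((Pw.rpow (-eL)).pow 2).mono (by push_cast; linarith)).add (f1.mono (by linarith))).add
      ((((Pw.rpow (-eL)).pow 2).mul f2).mono (by push_cast; linarith))
  have f9 : Pw (fun k => 1200 * C ^ 2 * ((nb0 cb k) ^ 2 * (48 * C ^ 3 * ((k ^ (-eL)) ^ 2 +
      AND.fe1 d cK k + (k ^ (-eL)) ^ 2 * AND.fe2 d C C1 cK k)) * C ^ 2 * (108 * C))) (1 / 64) :=
    (((((((pw_nb0 cb).pow 2).mul (f8.cmul (48 * C ^ 3))).mulc (C ^ 2)).mulc (108 * C)).cmul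
      (1200 * C ^ 2))).mono (by push_cast; linarith)
  have f10 := ((f6.add f7).add f9).sqrt
  unfold FormM.nuM
  exact (f10.div_rpow (1 / 140)).mono (by norm_num)

theorem numM_ev (d : ℕ) (C C1 cb cK cT eL CB Kp : ℝ) (heL : 0 ≤ eL) (heL1 : eL ≤ 1 / 4)
    (hKp : 0 < Kp) :
    ∃ p0 : ℕ, ∀ p : ℕ, p0 ≤ p → Ev (NumM d C C1 cb cK cT eL CB Kp p) := by
  obtain ⟨p0, hp0⟩ := exists_m (g := 2 * (1 / 128 - 1 / 140)) (by norm_num) (Kp + CB + 1)
  refine ⟨p0, fun p hp => ?_⟩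
  have h1 := hp0 p hp
  have hp0' : (0 : ℝ) ≤ p := Nat.cast_nonneg p
  have f1 := ((pw_drC C cb).mono (b := 1 / 128 - 1 / 140) (by norm_num)).pow (2 * p)
  have f2 := (pw_nuM d C C1 cb cK cT eL heL heL1).pow (2 * p)
  have f3 := ((Pw.rpow (-CB)).mul (f1.add f2)).mono (b := Kp + 1) (by push_cast; linarith)
  have e1 : Ev (fun k => k ≤ 1 / 2) := Ev.le_const (by norm_num)
  have e2 : Ev (fun k => 2 * C * k ^ (11 / 256 : ℝ) ≤ 1) :=
    Ev.le_of_mul (Pw.rpow _) (by norm_num) _ one_pos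
  have e3 : Ev (fun k => 2 * C * k ^ (11 / 256 : ℝ) ≤ k ^ (1 / 140 : ℝ)) :=
    Ev.of_Pw ((Pw.rpow _).cmul (2 * C)) (by norm_num)
  have e4 := Ev.of_Pw f3 (b := Kp) (by linarith)
  have e5 : Ev (fun k => KT p * k ^ Kp ≤ (1 / 20) ^ (2 * p)) :=
    Ev.le_of_mul (Pw.rpow _) hKp _ (by positivity)
  refine ((e1.and (e2.and e3)).and (e4.and e5)).mono fun k hk h => ?_
  obtain ⟨⟨a1, a2, a3⟩, a4, a5⟩ := h
  have hpos : 0 < k ^ (1 / 140 : ℝ) := Real.rpow_pos_of_pos hk _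
  exact ⟨by linarith, a2, by linarith, a4, a5⟩

end Pool.Agent.ANS

namespace Pool.Agent.AND

open Pool.Agent.Kin Pool.Agent.APS Pool.Agent.ANL Pool.Agent.ANS

section lf

variable {T D : Type} [Fintype T] [DecidableEq T] [Fintype D] {P : ANS.Stp T D}
  {ok : T → Option D → Prop} {X N B : Finset T} {c be : T → ℝ} {e : T → Option D → ℝ} {C Lm : ℝ}

theorem rq_nonnegB (h : P.OkB ok X N c be e C Lm) (hpd : (P.QB B nil).PosDef)
    (s : T → Option D) (v : T → ℝ) : 0 ≤ P.rq B s v := by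
  have h1 := (FormM.Rf_pd h hpd s).inv.posSemidef.dotProduct_mulVec_nonneg (fun x : ↥B => v x)
  rw [star_trivial] at h1
  exact h1

theorem formLe_monoB (h : P.OkB ok X N c be e C Lm) (hpd : (P.QB B nil).PosDef)
    {s : T → Option D} {δ δ' : ℝ} (hδ : δ ≤ δ') (hF : P.FormLe B δ s) : P.FormLe B δ' s := by
  intro v hv
  have h1 := hF v hv
  have h2 := rq_nonnegB h hpd s v
  constructor
  · nlinarith [h1.1]
  · nlinarith [h1.2]

end lf

variable {d L : ℕ} [NeZero L] {D : Type} [Fintype D] {f : Fix} {t : Tol d L} {M : Med (Tor d L)}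
  {u : UTol} {g : ANS.Dig (Tor d L) D} {N B : Finset (Tor d L)}
  {ok : Tor d L → Option D → Prop} {c be : Tor d L → ℝ}
  {Cb Ck cK cA cT0 eL CM CB Ce vi : ℝ}

/-- the smoothing hypothesis of the start medium -/
theorem stp_SMB (hd : 3 ≤ d) (hG : Good f t M) (hI : t.In f M u) (hN : Num f t u)
    (hK : 0 < u.Ki) {Ca mm l : ℝ} (hCa : 0 < Ca) (hdS : 0 ≤ u.dS) (hl : 1 ≤ l) (hlL : l ≤ L)
    (hmm : ∀ x ∈ M.nr, M.m x ≤ mm) (hmm0 : 0 ≤ mm) {e : Tor d L → Option D → ℝ} {C Lm : ℝ}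
    (h : (M.stp g).OkB ok M.nr N c be e C Lm) (B : Finset (Tor d L)) :
    (M.stp g).SM M.nr B (ANF.Heat.CH d * ANF.Heat.rho d l * (1 / u.Ki))
      (C * ((1 + u.dS + Ca) * (2 + 2 * ANF.Heat.CH d * l ^ 2 * (1 / u.Ki) * mm))) := by
  intro v _ hq
  rw [stp_qf_nil hG hI hN] at hq
  have hm0 : ∀ x ∈ M.nr, 0 ≤ M.m x := fun x hx =>
    mul_nonneg (hG.eta_nonneg hI hN x) (hG.io_pos hI hN (mem_nr.1 hx)).le
  obtain ⟨k, v1, w, h1, h2, h3⟩ := good_smooth hd hG hI hK hCa hdS hl hlL hm0 hmm hmm0 v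
    (fun _ => 0) 1 (by simpa using hq)
  refine ⟨k, v1, w, fun x _ => h1 x, fun x _ => ?_, ?_⟩
  · simpa using h3 x
  · have hC0 : 0 ≤ C := by linarith [h.C1]
    calc ∑ x ∈ M.nr, (M.stp g).eta ANS.nil x * w x ^ 2
        ≤ ∑ x ∈ M.nr, C * (M.m x * w x ^ 2) := by
          refine Finset.sum_le_sum fun x hx => ?_
          have e1 := h.io1 x hx
          have e2 : 0 ≤ (M.stp g).eta ANS.nil x := (h.etaX x hx).le
          have e3 : C * (M.m x * w x ^ 2) =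
              (C * (M.stp g).io ANS.nil x) * ((M.stp g).eta ANS.nil x * w x ^ 2) := by
            rw [stp_eta_nil, stp_io_nil]
            unfold Med.m Med.G
            ring
          rw [e3]
          have e4 : 0 ≤ (M.stp g).eta ANS.nil x * w x ^ 2 := mul_nonneg e2 (sq_nonneg _)
          nlinarith
      _ = C * ∑ x ∈ M.nr, M.m x * w x ^ 2 := by rw [Finset.mul_sum]
      _ ≤ C * ((1 + u.dS + Ca) * (2 + 2 * ANF.Heat.CH d * l ^ 2 * (1 / u.Ki) * mm)) := by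
          refine mul_le_mul_of_nonneg_left ?_ hC0
          refine h2.trans (le_of_eq ?_)
          ring

theorem SM_monoB {P : ANS.Stp (Tor d L) D} {X B : Finset (Tor d L)}
    {e1 e2 e1' e2' : ℝ} (h : P.SM X B e1 e2) (h1 : e1 ≤ e1') (h2 : e2 ≤ e2') :
    P.SM X B e1' e2' := by
  intro u hu hq
  obtain ⟨k, u1, u2, a1, a2, a3⟩ := h u hu hq
  exact ⟨k, u1, u2, a1, fun x hx => (a2 x hx).trans h1, a3.trans h2⟩

namespace CoreIB

variable (h : CoreIB f t M u g N B ok c be Cb Ck cK cA cT0 eL CM CB Ce vi)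
include h

theorem SM (hd : 3 ≤ d) (hk1 : t.k ≤ 1) (hcK : 0 < cK) {e : Tor d L → Option D → ℝ} {C : ℝ}
    (hOk : (M.stp g).OkB ok M.nr N c be e C (t.k ^ (-eL))) :
    (M.stp g).SM M.nr B (fe1 d cK t.k) (fe2 d C f.C1 cK t.k) := by
  have hk := h.k0
  have hpos : ∀ a : ℝ, 0 < t.k ^ a := fun a => Real.rpow_pos_of_pos hk a
  have hC1 := h.C1pos
  have hKi0 : 0 < u.Ki := hcK.trans_le h.Ki
  have hC0 : 0 < C := by linarith [hOk.C1]
  have hdS0 := h.dS0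
  have hdSle := h.dS
  have hl1 : 1 ≤ t.k ^ (-1 / 64 : ℝ) :=
    Real.one_le_rpow_of_pos_of_le_one_of_nonpos hk hk1 (by norm_num)
  have h1 := stp_SMB (Ca := 1) (mm := f.C1) (l := t.k ^ (-1 / 64 : ℝ)) hd h.G h.In h.Num hKi0
    one_pos h.dS0 hl1 ((Real.rpow_le_rpow_of_exponent_ge hk hk1 (by norm_num)).trans h.side)
    (fun x hx => by
      have e1 := h.G.eS1 x (mem_nr.1 hx)
      have e2 := h.G.io_le h.In h.Num (mem_nr.1 hx)
      have e3 := (h.G.io_pos h.In h.Num (mem_nr.1 hx)).le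
      unfold Med.m
      nlinarith) hC1.le hOk B
  have hCH : 0 ≤ ANF.Heat.CH d := by unfold ANF.Heat.CH; positivity
  have hKi' : 1 / u.Ki ≤ 1 / cK := one_div_le_one_div_of_le hcK h.Ki
  have hl2 : (t.k ^ (-1 / 64 : ℝ)) ^ 2 = t.k ^ (-1 / 32 : ℝ) := by
    rw [← Real.rpow_natCast, ← Real.rpow_mul hk.le]
    norm_num
  refine SM_monoB h1 ?_ ?_
  · unfold fe1
    have hrho : ANF.Heat.rho d (t.k ^ (-1 / 64 : ℝ)) ≤ t.k ^ (1 / 64 : ℝ) := by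
      obtain ⟨l, hl⟩ : ∃ l, l = t.k ^ (-1 / 64 : ℝ) := ⟨_, rfl⟩
      rw [← hl] at hl1 ⊢
      unfold ANF.Heat.rho
      have h1 : l ^ 3 ≤ l ^ d := pow_le_pow_right₀ hl1 hd
      have hl0 : 0 < l := by linarith
      have h2 : l ^ 2 / l ^ d ≤ l ^ 2 / l ^ 3 :=
        div_le_div_of_nonneg_left (by positivity) (by positivity) h1
      have h3 : l ^ 2 / l ^ 3 = l⁻¹ := by
        field_simp
      rw [h3, hl, ← Real.rpow_neg hk.le] at h2
      rw [← hl] at h2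
      refine h2.trans (le_of_eq ?_)
      norm_num
    have h0 : 0 ≤ 1 / u.Ki := by positivity
    have h64 := hpos (1 / 64)
    exact mul_le_mul (mul_le_mul_of_nonneg_left hrho hCH) hKi' h0 (by positivity)
  · unfold fe2
    rw [hl2]
    have h32 := hpos (-1 / 32)
    have h0 : 0 ≤ 1 / u.Ki := by positivity
    have h2 : 2 + 2 * ANF.Heat.CH d * t.k ^ (-1 / 32 : ℝ) * (1 / u.Ki) * f.C1 ≤
        2 + 2 * ANF.Heat.CH d * t.k ^ (-1 / 32 : ℝ) * (1 / cK) * f.C1 := by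
      gcongr
    refine mul_le_mul_of_nonneg_left ?_ hC0.le
    have h3 : 0 ≤ 2 + 2 * ANF.Heat.CH d * t.k ^ (-1 / 32 : ℝ) * (1 / u.Ki) * f.C1 := by positivity
    exact mul_le_mul (by linarith) h2 h3 (by norm_num)

/-- THE FORM COMPONENT in a good medium -/
theorem formB (hd : 3 ≤ d) {vt Kp : ℝ} {p : ℕ} (hp : 2 ≤ p) (hcK : 0 < cK) (hcT0 : 0 ≤ cT0)
    (hvt : 0 < vt) {C : ℝ} [DecidableEq D]
    (nM : NumM d C f.C1 (√Cb) cK (cT0 + 1) eL CB Kp p t.k)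
    {e : Tor d L → Option D → ℝ} (hOk : (M.stp g).OkB ok M.nr N c be e C (t.k ^ (-eL)))
    {R : Finset ℕ} (a z : ↥R → (Tor d L → Option D) → Tor d L → ℝ) :
    ∃ GF : (Tor d L → Option D) → ℝ, GF nil = 0 ∧ (∀ s, 0 ≤ GF s) ∧
      (∀ s, (∀ x ∈ M.nr, ‖(M.stp g).G s x x - (M.stp g).G nil x x‖ ≤ t.k ^ (11 / 256 : ℝ)) →
        (M.stp g).Ent M.nr (t.k ^ (9 / 256 : ℝ)) s → GF s ≤ 1 →
        (M.stp g).FormLe B (30 * t.k ^ (1 / 140 : ℝ)) s) ∧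
      ∀ s, APB (M.stp g) ok M.nr (Rows M B) (M.A ∩ B) B (ftol ↥R vt t.k) a z s → GF s ≤ 1 →
        CompB g.P ok GF s (2 * KT p) (2 * KT p * t.k ^ Kp) (1 / 20) := by
  have hk := h.k0
  have hk1 : t.k ≤ 1 := nM.k1.le
  have hpos : ∀ a : ℝ, 0 < t.k ^ a := fun a => Real.rpow_pos_of_pos hk a
  have hKi0 : 0 < u.Ki := hcK.trans_le h.Ki
  have hpd := QB_posDef (g := g) h.G h.In h.Num hKi0 h.Bnr h.BX
  have hp1 : 1 ≤ p := by omega
  have hC1 := h.C1pos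
  have hC0 : 0 < C := by linarith [hOk.C1]
  have hCH : 0 ≤ ANF.Heat.CH d := by unfold ANF.Heat.CH; positivity
  have hfe1 : 0 ≤ fe1 d cK t.k := by
    unfold fe1
    have := hpos (1 / 64)
    positivity
  have hfe2 : 0 ≤ fe2 d C f.C1 cK t.k := by
    unfold fe2
    have := hpos (-1 / 32)
    positivity
  have hnb0 : 0 ≤ nb0 (√Cb) t.k := mul_nonneg (Real.sqrt_nonneg _) (hpos _).le
  refine ⟨FormM.GamM (M.stp g) ok B (t.k ^ (1 / 140 : ℝ)) p, FormM.GamM_nil _ _ _ _ hp1,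
    fun s => FormM.GamM_nonneg hOk _ p s, fun s hdia _ hs => ?_, fun s hs hG => ?_⟩
  · exact formLe_monoB hOk hpd nM.de
      (FormM.outM hOk h.NB hpd (hpos _) (hpos _).le hp1 hdia hs)
  · have hent : (M.stp g).Ent M.nr 1 s := fun x hx y hy =>
      (hs.ent x hx y hy).trans (Real.rpow_le_one hk.le hk1 (by norm_num))
    have htT : t.k ^ (-7 / 8 + vt) ≤ t.k ^ (-7 / 8 : ℝ) :=
      Real.rpow_le_rpow_of_exponent_ge hk hk1 (by linarith)
    have g0 : FormM.Sh (M.stp g) ok M.nr N B be C (t.k ^ (1 / 140 : ℝ)) (t.k ^ (11 / 256 : ℝ))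
        (nb0 (√Cb) t.k) (fe1 d cK t.k) (fe2 d C f.C1 cK t.k)
        ((cT0 + 1) * t.k ^ (-7 / 8 : ℝ)) s :=
      { NB := h.NB
        BX := h.Bnr
        pd := hpd
        sm := h.SM hd hk1 hcK hOk
        e10 := hfe1
        e20 := hfe2
        bm0 := hnb0
        bmle := h.be_le
        a0 := (hpos _).le
        a1 := nM.a1
        en := hent
        dia := hs.dia
        th0 := (hpos _).le
        th1 := Real.rpow_le_one hk.le hk1 (by norm_num)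
        tau0 := by have := hpos (-7 / 8); positivity
        tau := fun x hx => by
          have h1 := hs.tau x hx
          have h2 := h.T0 x hx
          have h3 : ∑ w ∈ N, (if bo ok be s w = 0 then 0 else ‖(M.stp g).G s x w‖ ^ 4) ≤
              (M.stp g).Tx (Yo ok (M.A ∩ B) s) s x := by
            unfold Stp.Tx
            have e1 : ∑ w ∈ N, (if bo ok be s w = 0 then 0 else ‖(M.stp g).G s x w‖ ^ 4) =
                ∑ w ∈ N.filter (fun w => ¬ bo ok be s w = 0), ‖(M.stp g).G s x w‖ ^ 4 := by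
              rw [Finset.sum_filter]
              refine Finset.sum_congr rfl fun w _ => ?_
              by_cases hw : bo ok be s w = 0 <;> simp [hw]
            rw [e1]
            refine Finset.sum_le_sum_of_subset_of_nonneg (fun w hw => ?_)
              fun _ _ _ => by positivity
            rw [Finset.mem_filter] at hw
            rw [mem_Yo]
            refine ⟨Finset.mem_inter.2 ⟨h.dig.NA hw.1, h.NB hw.1⟩, ?_⟩
            by_contra hno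
            exact hw.2 (bo_bad hno)
          have h4 : (ftol ↥R vt t.k).tT' = t.k ^ (-7 / 8 + vt) := rfl
          rw [h4] at h1
          linarith
        hM := FormM.GamM_bd hOk hpd (hpos _) hp1 hG }
    have h5 := FormM.compM hOk hp (hpos _) g0 hG (be' := t.k ^ Kp) (dl := 1 / 20) ?_
      (by norm_num) (by norm_num) nM.B'
    · refine h5.weaken (FormM.GamM_nonneg hOk _ p s) le_rfl (le_of_eq (by ring)) le_rfl
    · refine le_trans (mul_le_mul_of_nonneg_right h.Bc ?_) nM.B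
      have e1 : ∀ x : ℝ, 0 ≤ x ^ (2 * p) := fun x => (even_two_mul p).pow_nonneg x
      exact add_nonneg (e1 _) (e1 _)

end CoreIB

/-- **THE FROZEN STEP IN A GOOD MEDIUM, general laws**; remaining hypotheses: the far inert rows -/
theorem frz_probB (hd : 3 ≤ d) {c1 C1 Cb Ck cK cA cT0 eL CM CB Ce vt vi Kp R0 : ℝ}
    (hc1 : 0 < c1) (hC1 : 0 < C1) (hCb : 0 ≤ Cb) (hCk : 1 ≤ Ck) (hcK : 0 < cK) (hcA : 0 ≤ cA)
    (hcT0 : 0 ≤ cT0) (heL : 0 ≤ eL) (heL1 : eL ≤ 1 / 4) (hCM : 0 ≤ CM) (hCB : 0 ≤ CB)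
    (hCe : 0 ≤ Ce) (hvt : 0 < vt) (hvi : 3 * vt ≤ vi) (hvi1 : vi ≤ 1 / 150) (hKp : 0 < Kp)
    (hR0 : 2 ≤ R0) :
    ∃ k0 : ℝ, 0 < k0 ∧ ∀ {L : ℕ} [NeZero L] {D : Type} [Fintype D] [DecidableEq D] {f : Fix}
      {t : Tol d L} {M : Med (Tor d L)} {u : UTol} {g : ANS.Dig (Tor d L) D}
      {N B : Finset (Tor d L)} {ok : Tor d L → Option D → Prop} {c be : Tor d L → ℝ}
      {R : Finset ℕ} {a z : ℕ → (Tor d L → Option D) → Tor d L → ℝ}, f.c1 = c1 → f.C1 = C1 →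
      t.k ≤ k0 → CoreIB f t M u g N B ok c be Cb Ck cK cA cT0 eL CM CB Ce vi →
      (∀ w, R0 * pk g.P ok w ≤ R0 - 1) →
      (R.card : ℝ) ≤ t.k ^ (-1 : ℝ) →
      (∀ s, (M.stp g).Ent M.nr 1 s → ∀ K ∈ R,
        (∃ da, PB.WtAt g.P ok id ((M.stp g).eta s) (bo ok be s) s (250 * stCB f Cb Ck ^ 3) (a K)
          da) ∧
        ∃ dz, PB.WtAt g.P ok id ((M.stp g).eta s) (bo ok be s) s (250 * stCB f Cb Ck ^ 3) (z K)
          dz) →
      (∀ K ∈ R, ∀ x ∈ M.nr, ‖∑ y, M.G x y ^ 2 * (a K nil y : ℂ)‖ ≤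
        ∑ y, ‖M.G x y‖ ^ 2 * z K nil y) →
      (∀ s, (∀ x ∈ Rows M B, ‖(M.stp g).G s x x - (M.stp g).G nil x x‖ ≤
          t.k ^ (11 / 256 : ℝ) / 2) → (M.stp g).Ent (Rows M B) (t.k ^ (9 / 256 : ℝ) / 2) s →
        (∀ x ∈ M.nr, ‖(M.stp g).G s x x - (M.stp g).G nil x x‖ ≤ t.k ^ (11 / 256 : ℝ)) ∧
          (M.stp g).Ent M.nr (t.k ^ (9 / 256 : ℝ)) s) →
      (∀ s, (M.stp g).Ent M.nr (t.k ^ (9 / 256 : ℝ)) s →
        (∀ x ∈ Rows M B, (M.stp g).Tx (Yo ok (M.A ∩ B) s) s x ≤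
          (M.stp g).Tx (M.A ∩ B) nil x + t.k ^ (-7 / 8 + vt) / 2) →
        ∀ x ∈ M.nr, (M.stp g).Tx (Yo ok (M.A ∩ B) s) s x ≤
          (M.stp g).Tx (M.A ∩ B) nil x + t.k ^ (-7 / 8 + vt)) →
      ANP.Pr g.P {ω | ¬ APB (M.stp g) ok M.nr (Rows M B) (M.A ∩ B) B (ftol ↥R vt t.k)
        (fun K : ↥R => a K) (fun K : ↥R => z K) (ANS.full ω)} ≤ t.k ^ Kp := by
  obtain ⟨C, hC⟩ : ∃ C, C = Ck * (C1 + 2) + 1 + (1 + Cb) / c1 := ⟨_, rfl⟩
  have hC1' : 1 ≤ C := by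
    rw [hC]
    exact stCB_ge c1 C1 Cb Ck hc1 hC1 hCb hCk
  have hC0 : 0 < C := by linarith
  obtain ⟨p0, hp0⟩ := numM_ev d C C1 (√Cb) cK (cT0 + 1) eL CB (Kp + 1) heL heL1 (by linarith)
  obtain ⟨p, hpp⟩ : ∃ p, p = max p0 2 := ⟨_, rfl⟩
  have hpa : p0 ≤ p := by
    rw [hpp]
    exact le_max_left _ _
  have hpb : 2 ≤ p := by
    rw [hpp]
    exact le_max_right _ _
  have hKT : 0 ≤ 2 * KT p := by
    unfold KT
    positivity
  obtain ⟨k0, hk0, hw⟩ := frz_probB_w (d := d) hd hc1 hC1 hCb hCk hcK hcA hcT0 heL heL1 hCM hCB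
    hCe hvt hvi hvi1 hKp hR0 hKT
  have evA : Ev (fun k => k ≤ 1 / 4) := Ev.le_const (by norm_num)
  have evB : Ev (fun k => 100 * C ^ 2 * nb0 (√Cb) k ≤ 1) :=
    Ev.le_of_mul (pw_nb0 _) (by norm_num) _ one_pos
  obtain ⟨k1, hk1, hev⟩ := (hp0 p hpa).and (evA.and evB)
  refine ⟨min k0 k1, lt_min hk0 hk1, ?_⟩
  intro L _ D _ _ f t M u g N B ok c be R a z hf1 hf2 htk h hpk hRc hWt hst hfar hfarT
  obtain ⟨nM, nA, nB⟩ := hev t.k h.k0 (htk.trans (min_le_right _ _))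
  have hCs : stCB f Cb Ck = C := by
    unfold stCB
    rw [hf1, hf2, hC]
  have hOk := h.okB nA heL hCB hCe (by rw [hCs]; exact nB)
  rw [hCs] at hOk
  rw [← hf2] at nM
  exact hw hf1 hf2 (htk.trans (min_le_left _ _)) h hpk hRc hWt hst hfar hfarT
    (h.formB hd hpb hcK hcT0 hvt nM hOk _ _)

end Pool.Agent.AND
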