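import Pool.Agent.ANS.TopDefs
import Pool.Agent.AND.DigLaw
import Pool.Agent.ANQ.Proc

/-! # ANS StepRead: the candidate profile of a step and its medium (owner helper1)

`N` = sites which are read at the level `n` (all active), `ω` = the new values on `N` (same digits of level `n`), `v' = N.piecewise ω v`,
`W` = sites of `N` which become weak.  `Nxt.isMed_raise`: if `M'` is the self-consistent medium after the reading of the digits
(auxiliary: the sites of `W` still active, with level `0`), then `M'.rel W` is the medium of the candidate profile. -/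

open Matrix Finset

noncomputable section

namespace Pool.Agent.AND

open Pool.Agent.Kin Pool.Agent.APS

variable {d Lt : ℕ} [NeZero Lt] {X : Type} [Fintype X] [DecidableEq X] {L : ANB.Law X}
  {lam E eta : ℝ}

section prof

variable {A : ANQ.Ana (Tor d Lt) X} {π : Prof (Tor d Lt)} {v : Tor d Lt → X} {n : ℕ}
  {Lc N : Finset (Tor d Lt)} {ω : Tor d Lt → X}

/-- the sites which become weak -/
def wkN (A : ANQ.Ana (Tor d Lt) X) (n : ℕ) (N : Finset (Tor d Lt)) (ω : Tor d Lt → X) :
    Finset (Tor d Lt) := ANQ.weak A (n + 1) ω N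

omit [Fintype X] [DecidableEq X] in
theorem mem_wkN {x : Tor d Lt} : x ∈ wkN A n N ω ↔ x ∈ N ∧ A.wk (n + 1) (ω x) := by
  classical
  unfold wkN ANQ.weak
  rw [Finset.mem_filter]

omit [Fintype X] [DecidableEq X] in
theorem weak_piece (hN : N = π.act ∩ Lc) :
    ANQ.weak A (n + 1) (N.piecewise ω v) (π.act ∩ Lc) = wkN A n N ω := by
  classical
  ext x
  rw [mem_wkN]
  unfold ANQ.weak
  rw [Finset.mem_filter, ← hN]
  constructor
  · rintro ⟨h1, h2⟩
    rw [Finset.piecewise_eq_of_mem _ _ _ h1] at h2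
    exact ⟨h1, h2⟩
  · rintro ⟨h1, h2⟩
    refine ⟨h1, ?_⟩
    rw [Finset.piecewise_eq_of_mem _ _ _ h1]
    exact h2

/-- the digits in terms of the profile: levels -/
theorem kp_raise (hN : N = π.act ∩ Lc) (hlev : ∀ x ∈ N, π.lev x = n)
    (hw : ∀ a, A.wk (n + 1) a → L.wk (n + 1) a)
    (hω : ∀ x ∈ N, L.q n (ω x) = L.q n (v x)) (x : Tor d Lt) :
    kp (sysOf L lam E eta) (ANQ.raise A π (n + 1) Lc (N.piecewise ω v)) (N.piecewise ω v) x =
      kp (sysOf L lam E eta) π v x - (digOf L lam n N v).zt x (ω x) := by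
  classical
  have hact : (ANQ.raise A π (n + 1) Lc (N.piecewise ω v)).act = π.act \ wkN A n N ω := by
    rw [← weak_piece (v := v) hN]
    rfl
  have hl : (ANQ.raise A π (n + 1) Lc (N.piecewise ω v)).lev x =
      if x ∈ N then n + 1 else π.lev x := by
    rw [hN]
    rfl
  by_cases hx : x ∈ N
  · have hxa : x ∈ π.act := by
      rw [hN] at hx
      exact (Finset.mem_inter.1 hx).1
    rw [digOf_kk (E := E) (eta := eta) hx (hω x hx)]
    have e1 : kp (sysOf L lam E eta) π v x = (sysOf L lam E eta).kk n (v x) := by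
      unfold kp
      rw [if_pos hxa, hlev x hx]
    rw [e1, sub_sub_cancel]
    unfold kp
    rw [hact, hl, if_pos hx, Finset.piecewise_eq_of_mem _ _ _ hx]
    by_cases hxw : x ∈ wkN A n N ω
    · rw [if_neg fun h => (Finset.mem_sdiff.1 h).2 hxw]
      exact (kk_wk (hw _ (mem_wkN.1 hxw).2)).symm
    · rw [if_pos (Finset.mem_sdiff.2 ⟨hxa, hxw⟩)]
  · rw [(digOf_off hx (ω x)).2, sub_zero]
    unfold kp
    rw [hact, hl, if_neg hx, Finset.piecewise_eq_of_notMem _ _ _ hx]
    have hxw : x ∉ wkN A n N ω := fun h => hx (mem_wkN.1 h).1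
    simp only [Finset.mem_sdiff, hxw, not_false_eq_true, and_true]

/-- the digits in terms of the profile: potentials -/
theorem cp_raise (hN : N = π.act ∩ Lc) (hlev : ∀ x ∈ N, π.lev x = n)
    (hω : ∀ x ∈ N, L.q n (ω x) = L.q n (v x)) (x : Tor d Lt) :
    cp (sysOf L lam E eta) (ANQ.raise A π (n + 1) Lc (N.piecewise ω v)) (N.piecewise ω v) x =
      cp (sysOf L lam E eta) π v x + ((digOf L lam n N v).xi x (ω x) : ℂ) := by
  classical
  have hact : (ANQ.raise A π (n + 1) Lc (N.piecewise ω v)).act = π.act \ wkN A n N ω := by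
    rw [← weak_piece (v := v) hN]
    rfl
  have hine : (ANQ.raise A π (n + 1) Lc (N.piecewise ω v)).ine = π.ine ∪ wkN A n N ω := by
    rw [← weak_piece (v := v) hN]
    rfl
  have hrd : (ANQ.raise A π (n + 1) Lc (N.piecewise ω v)).rd = π.rd := rfl
  have hsg : (ANQ.raise A π (n + 1) Lc (N.piecewise ω v)).sg = π.sg := rfl
  have hl : (ANQ.raise A π (n + 1) Lc (N.piecewise ω v)).lev x =
      if x ∈ N then n + 1 else π.lev x := by
    rw [hN]
    rfl
  have hact' : (x ∈ (ANQ.raise A π (n + 1) Lc (N.piecewise ω v)).act ∨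
      x ∈ (ANQ.raise A π (n + 1) Lc (N.piecewise ω v)).ine) ↔ (x ∈ π.act ∨ x ∈ π.ine) := by
    rw [hact, hine, Finset.mem_sdiff, Finset.mem_union]
    by_cases hxw : x ∈ wkN A n N ω
    · have hxN := (mem_wkN.1 hxw).1
      rw [hN] at hxN
      have := (Finset.mem_inter.1 hxN).1
      simp [hxw, this]
    · simp [hxw]
  unfold cp
  simp only [hact', hrd, hsg, hl]
  by_cases hx : x ∈ N
  · rw [digOf_hh (E := E) (eta := eta) hx (hω x hx), if_pos hx,
      Finset.piecewise_eq_of_mem _ _ _ hx, hlev x hx]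
    have e1 : ((sysOf L lam E eta).eta) = eta := rfl
    push_cast
    ring
  · rw [(digOf_off hx (ω x)).1, if_neg hx, Finset.piecewise_eq_of_notMem _ _ _ hx]
    push_cast
    ring

end prof

/-- THE MEDIUM OF THE CANDIDATE PROFILE: the sites of `W = wkN` leave the active sites and become inert -/
theorem Nxt.isMed_raise {A : ANQ.Ana (Tor d Lt) X} {π : Prof (Tor d Lt)} {v : Tor d Lt → X}
    {n : ℕ} {Lc N : Finset (Tor d Lt)} {ω : Tor d Lt → X} {M M' : Med (Tor d Lt)} {r : ℝ}
    (hM : IsMed (H0T d Lt) (sysOf L lam E eta) π v M)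
    (hn : Nxt M M' (digOf L lam n N v) ω r) (hN : N = π.act ∩ Lc)
    (hlev : ∀ x ∈ N, π.lev x = n) (hw : ∀ a, A.wk (n + 1) a → L.wk (n + 1) a)
    (hω : ∀ x ∈ N, L.q n (ω x) = L.q n (v x)) (hAU : ∀ x ∈ M.A, x ∉ M.U) :
    IsMed (H0T d Lt) (sysOf L lam E eta) (ANQ.raise A π (n + 1) Lc (N.piecewise ω v))
      (N.piecewise ω v) (M'.rel (wkN A n N ω)) := by
  classical
  have hk : M.k = AND.kp (sysOf L lam E eta) π v := hM.k
  have hkf : ∀ x, M.kf (digOf L lam n N v) ω x = AND.kp (sysOf L lam E eta)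
      (ANQ.raise A π (n + 1) Lc (N.piecewise ω v)) (N.piecewise ω v) x := fun x => by
    rw [kp_raise hN hlev hw hω x, ← hk]; rfl
  have hNA : ∀ x ∈ N, x ∈ M.A := fun x hx => by
    rw [hM.A]
    rw [hN] at hx
    exact (Finset.mem_inter.1 hx).1
  have hact : (ANQ.raise A π (n + 1) Lc (N.piecewise ω v)).act = π.act \ wkN A n N ω := by
    rw [← weak_piece (v := v) hN]
    rfl
  have hine : (ANQ.raise A π (n + 1) Lc (N.piecewise ω v)).ine = π.ine ∪ wkN A n N ω := by
    rw [← weak_piece (v := v) hN]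
    rfl
  refine ⟨?_, ?_, ?_, ?_, ?_, hn.unit, ?_⟩
  · show M'.A \ wkN A n N ω = _
    rw [hn.A, hM.A, hact]
  · show M'.U = _
    rw [hn.U, hM.U]
    rfl
  · show M'.I ∪ wkN A n N ω = _
    rw [hn.I, hM.I, hine]
  · funext x
    exact (hn.k x).trans (hkf x)
  · intro x
    show M'.b x = _ - _ * rsc (H0T d Lt) M'.b x x
    have hb := hM.b x
    rw [← hk] at hb
    rw [cp_raise hN hlev hω x, ← hkf x]
    by_cases hx : x ∈ M.U
    · have hxN : x ∉ N := fun h => hAU x (hNA x h) hx
      have hxA : x ∉ π.act := fun h => hAU x (hM.A ▸ h) hx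
      have hk0 : M.k x = 0 := by
        rw [hk]
        unfold AND.kp
        rw [if_neg hxA]
      obtain ⟨h1, h2⟩ := digOf_off (L := L) (lam := lam) (n := n) (v := v) hxN (ω x)
      rw [hn.bU x hx, hb]
      unfold Med.kf
      rw [hk0, h1, h2]
      simp
    · rw [hn.b x hx]
      show M.bf _ ω x - (M.kf _ ω x : ℂ) * (M'.G x x - M.G x x) = _
      have e1 : rsc (H0T d Lt) M'.b x x = M'.G x x := rfl
      have e2 : rsc (H0T d Lt) M.b x x = M.G x x := rfl
      rw [e1]
      rw [e2] at hb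
      unfold Med.bf Med.kf
      rw [hb]
      push_cast
      ring
  · intro x hx
    rw [hact] at hx
    have hx1 : x ∈ M.A := by
      rw [hM.A]
      exact (Finset.mem_sdiff.1 hx).1
    exact hn.pos x (hAU x hx1)

end Pool.Agent.AND
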