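import Pool.Agent.ANS.TopNum
import Pool.Agent.ANS.Frz

/-! # ANS CORE NUM: the numerical conditions `FNum` of the frozen step hold for small `κ` (AND project)

Exponents: diagonal `3/64`, all entries `5/128`, (H3) `1/40` (smoothing `1/32`), form `1/140`; fourth powers
relative `κ^vt`, triangle sums `κ^(1/8 + vi)`, `4 vt ≤ vi`.  `Ce` = exponent of the lower bound of the
counting weights, `CM` of the number of noise sites, `eL` of the entry bound. -/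

set_option autoImplicit false

open Finset

noncomputable section

namespace Pool.Agent.ANS

/-- the tolerances at level `κ` -/
def ftol (L : Type) (vt k : ℝ) : FTol L where
  aD := k ^ (3 / 64 : ℝ)
  aD' := k ^ (11 / 256 : ℝ)
  aO := k ^ (5 / 128 : ℝ)
  aO' := k ^ (9 / 256 : ℝ)
  eps := k ^ (1 / 32 : ℝ)
  tH := k ^ (1 / 40 : ℝ)
  tH' := fun _ => k ^ (1 / 45 : ℝ)
  tT := k ^ (-7 / 8 + 9 / 8 * vt)
  tT' := k ^ (-7 / 8 + vt)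
  de := 30 * k ^ (1 / 140 : ℝ)

theorem Pw.congr' {F G : ℝ → ℝ} {a : ℝ} (h : Pw F a) (hFG : ∀ k, 0 < k → F k = G k) : Pw G a := by
  obtain ⟨C, hC, k0, h0, h1, h2⟩ := h
  exact ⟨C, hC, k0, h0, h1, fun k hk hk0 => by rw [← hFG k hk]; exact h2 k hk hk0⟩

theorem Ev.const {p : Prop} (h : p) : Ev (fun _ => p) := ⟨1, one_pos, fun _ _ _ => h⟩

theorem Ev.le_of_mul {F : ℝ → ℝ} {r c : ℝ} (h : Pw F r) (hr : 0 < r) (c' : ℝ) (hc : 0 < c) :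
    Ev (fun k => c' * F k ≤ c) := Ev.of_Pw_const (h.cmul c') hr hc

/-- `1 < e κ^(-x)` if `κ^y ≤ e`, `y < x` -/
theorem one_lt_rpow {k y x e : ℝ} (hk : 0 < k) (hk1 : k < 1) (hyx : y < x) (he : k ^ y ≤ e) :
    1 < e * k ^ (-x) := by
  have h1 : 0 < k ^ (-x) := Real.rpow_pos_of_pos hk _
  have h2 : k ^ y * k ^ (-x) ≤ e * k ^ (-x) := mul_le_mul_of_nonneg_right he h1.le
  rw [← Real.rpow_add hk] at h2
  have h3 : 1 < k ^ (y + -x) := Real.one_lt_rpow_of_pos_of_lt_one_of_neg hk hk1 (by linarith)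
  linarith

theorem quot_pow {k a b : ℝ} (hk : 0 < k) (n : ℕ) :
    (k ^ a / k ^ b) ^ n = k ^ (-((b - a) * n)) := by
  rw [← Real.rpow_sub hk, ← Real.rpow_natCast, ← Real.rpow_mul hk.le]
  congr 1
  ring

/-- all numerical conditions of the components D, O, H, T at moment `2q` -/
structure NumQ (C cb ct c2 cT eL CM vt vi Kp : ℝ) (q : ℕ) (k : ℝ) : Prop where
  k1 : k < 1
  bsm : 4000 * C ^ 5 * nb0 cb k ≤ 1
  t21 : c2 * k ^ (1 / 16 : ℝ) ≤ 1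
  tau41 : cT * k ^ (1 / 8 : ℝ) ≤ 1
  cT1 : (cT * k ^ (1 / 8 : ℝ)) ^ 3 * (k ^ (11 / 256 : ℝ) + 200 * C ^ 3 * nb0 cb k) ^ 4 ≤
    k ^ (vt / 4) * (k ^ (1 / 8 + 9 / 8 * vt)) ^ 4
  cT4 : (2 * k ^ (-eL)) ^ 2 * (9 * (nb0 cb k) ^ 2 * (cT * k ^ (1 / 8 : ℝ))) ≤
    k ^ (vt / 4) * k ^ (1 / 8 + 9 / 8 * vt)
  cT3 : cT * k ^ (1 / 8 : ℝ) * k ^ (1 / 8 + 15 / 16 * vi) ≤
    k ^ (vt / 4) * (k ^ (1 / 8 + 9 / 8 * vt)) ^ 2
  cD : KP (2 * q) * (((250 * C ^ 3) ^ 2 * ntau ct k / (k ^ (3 / 64 : ℝ)) ^ 2) ^ (2 * q - 1) *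
      ((250 * C ^ 3) ^ 2 * (16 * C ^ 2) * (2 * k ^ (-eL)) ^ 2 * k ^ (-CM) /
        (k ^ (3 / 64 : ℝ)) ^ 2)) ≤ (1 / 20) ^ (2 * (2 * q))
  BD : KP (2 * q) * ((2 * (16 * C ^ 2)) ^ (2 * (2 * q)) *
        (250 * C ^ 3 * nb0 cb k / k ^ (3 / 64 : ℝ)) ^ (2 * (2 * q)) * k ^ (-CM) +
      ((250 * C ^ 3) ^ 2 * ntau ct k / (k ^ (3 / 64 : ℝ)) ^ 2) ^ (2 * q - 1) *
        ((250 * C ^ 3) ^ 2 * (16 * C ^ 2) * (2 * k ^ (-eL)) ^ 2 * k ^ (-CM) /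
          (k ^ (3 / 64 : ℝ)) ^ 2)) ≤ k ^ Kp
  cO : KP (2 * q) * (((250 * C ^ 3) ^ 2 * ntau ct k / (k ^ (5 / 128 : ℝ)) ^ 2) ^ (2 * q - 1) *
      ((250 * C ^ 3) ^ 2 * (16 * C ^ 2) ^ 2 * k ^ (-CM) / (k ^ (5 / 128 : ℝ)) ^ 2)) ≤
        (1 / 20) ^ (2 * (2 * q))
  BO : KP (2 * q) * (((k ^ (11 / 256 : ℝ) + 250 * C ^ 3 * nb0 cb k) * (16 * C ^ 2) /
          k ^ (5 / 128 : ℝ)) ^ (2 * (2 * q - 1)) *
        ((k ^ (11 / 256 : ℝ) + 250 * C ^ 3 * nb0 cb k) * (16 * C ^ 2) * k ^ (-CM) /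
          k ^ (5 / 128 : ℝ)) ^ 2 +
      ((250 * C ^ 3) ^ 2 * ntau ct k / (k ^ (5 / 128 : ℝ)) ^ 2) ^ (2 * q - 1) *
        ((250 * C ^ 3) ^ 2 * (16 * C ^ 2) ^ 2 * k ^ (-CM) / (k ^ (5 / 128 : ℝ)) ^ 2)) ≤ k ^ Kp
  cH : KP (2 * q) * ((232 * (250 * C ^ 3) ^ 2 * (16 * C ^ 2) ^ 2 * (c2 * k ^ (1 / 16 : ℝ)) /
      (k ^ (1 / 40 : ℝ)) ^ 2) ^ (2 * q - 1) *
      (232 * (250 * C ^ 3) ^ 2 * (16 * C ^ 2) ^ 3 * (2 * k ^ (-eL)) ^ 2 * k ^ (-CM) /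
        (k ^ (1 / 40 : ℝ)) ^ 2)) ≤ (1 / 20) ^ (2 * (2 * q))
  BH : KP (2 * q) * (4 ^ (2 * (2 * q)) *
      ((16 * C ^ 2 * (k ^ (1 / 32 : ℝ) + 14 * (250 * C ^ 3) ^ 2 * (16 * C ^ 2) * nb0 cb k) /
          k ^ (1 / 40 : ℝ)) ^ (2 * (2 * q)) * k ^ (-CM) +
        (16 * (k ^ (11 / 256 : ℝ) + 250 * C ^ 3 * nb0 cb k) ^ 2 * (16 * C ^ 2) ^ 3 /
          (k ^ (1 / 40 : ℝ)) ^ 2) ^ (2 * q) * k ^ (-CM) +
        (464 * (250 * C ^ 3) ^ 2 * (16 * C ^ 2) ^ 2 * (c2 * k ^ (1 / 16 : ℝ)) /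
          (k ^ (1 / 32 : ℝ) * k ^ (1 / 40 : ℝ))) ^ (2 * (2 * q) - 1) *
          (464 * (250 * C ^ 3) ^ 2 * (16 * C ^ 2) ^ 3 * (2 * k ^ (-eL)) ^ 2 * k ^ (-CM) /
            (k ^ (1 / 32 : ℝ) * k ^ (1 / 40 : ℝ)))) +
      (232 * (250 * C ^ 3) ^ 2 * (16 * C ^ 2) ^ 2 * (c2 * k ^ (1 / 16 : ℝ)) /
          (k ^ (1 / 40 : ℝ)) ^ 2) ^ (2 * q - 1) *
        (232 * (250 * C ^ 3) ^ 2 * (16 * C ^ 2) ^ 3 * (2 * k ^ (-eL)) ^ 2 * k ^ (-CM) /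
          (k ^ (1 / 40 : ℝ)) ^ 2)) ≤ k ^ Kp
  cT : KP (2 * q) * (T4.KT q (144 * C ^ 2) * (2 * k ^ (-eL)) ^ 2 * (9 * k ^ (-CM)) *
      ((k ^ (vt / 4)) ^ q / (k ^ (1 / 8 + 9 / 8 * vt)) ^ 2)) ≤ (1 / 20) ^ (2 * (2 * q))
  BT : KP (2 * q) * (2 * (T4.KT q (144 * C ^ 2) * (2 * k ^ (-eL)) ^ 2 * (9 * k ^ (-CM)) *
      ((k ^ (vt / 4)) ^ q / (k ^ (1 / 8 + 9 / 8 * vt)) ^ 2))) ≤ k ^ Kp

theorem pwT9 (c vt eL CM : ℝ) (q : ℕ) :
    Pw (fun k => c * (2 * k ^ (-eL)) ^ 2 * (9 * k ^ (-CM)) *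
      ((k ^ (vt / 4)) ^ q / (k ^ (1 / 8 + 9 / 8 * vt)) ^ 2))
      (q * (vt / 4) - 2 * eL - CM - 2 * (1 / 8 + 9 / 8 * vt)) := by
  refine (pwT (9 * c) (vt / 4) (1 / 8 + 9 / 8 * vt) eL CM q).congr' fun k _ => ?_
  ring

/-- **all conditions hold for small `κ`**, for every large moment -/
theorem numQ_ev (C cb ct c2 cT eL CM vt vi Kp : ℝ) (heL : 0 ≤ eL) (heL1 : eL ≤ 1 / 4)
    (hCM : 0 ≤ CM) (hvt : 0 < vt) (hvi : 3 * vt ≤ vi) (hvi1 : vi ≤ 1 / 40) :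
    ∃ q0 : ℕ, ∀ q : ℕ, q0 ≤ q → Ev (NumQ C cb ct c2 cT eL CM vt vi Kp q) := by
  set K1 := |Kp| + 1 with hK1
  have hKp : Kp < K1 := by
    have := le_abs_self Kp
    linarith
  have hK10 : 0 < K1 := by positivity
  obtain ⟨m1, h1⟩ := exists_m (g := 1 / 1000) (by norm_num)
    (K1 + 2 * CM + 2 * eL + 10)
  obtain ⟨m2, h2⟩ := exists_m (g := vt / 4) (by positivity)
    (K1 + CM + 2 * eL + 2 * (1 / 8 + 9 / 8 * vt))
  refine ⟨max (max m1 m2) 1, fun q hq => ?_⟩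
  have hq1 : m1 ≤ q := (le_max_left _ _).trans ((le_max_left _ _).trans hq)
  have hq2 : m2 ≤ q := (le_max_right _ _).trans ((le_max_left _ _).trans hq)
  have hq3 : 1 ≤ q := (le_max_right _ _).trans hq
  have g1 := h1 q hq1
  have g2 := h2 q hq2
  have c1 : (q : ℝ) ≤ ((2 * q - 1 : ℕ) : ℝ) := by
    have : q ≤ 2 * q - 1 := by omega
    exact_mod_cast this
  have c2' : (q : ℝ) ≤ ((2 * (2 * q) : ℕ) : ℝ) := by
    have : q ≤ 2 * (2 * q) := by omega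
    exact_mod_cast this
  have c3 : (q : ℝ) ≤ ((2 * (2 * q - 1) : ℕ) : ℝ) := by
    have : q ≤ 2 * (2 * q - 1) := by omega
    exact_mod_cast this
  have c4 : (q : ℝ) ≤ ((2 * q : ℕ) : ℝ) := by
    have : q ≤ 2 * q := by omega
    exact_mod_cast this
  have c5 : (q : ℝ) ≤ ((2 * (2 * q) - 1 : ℕ) : ℝ) := by
    have : q ≤ 2 * (2 * q) - 1 := by omega
    exact_mod_cast this
  have hq0 : (0 : ℝ) ≤ q := Nat.cast_nonneg q
  -- exponents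
  have key : ∀ (n : ℕ) (g c : ℝ), (q : ℝ) ≤ n → 1 / 1000 ≤ g → c ≤ 2 * CM + 2 * eL + 10 →
      K1 ≤ n * g - c := by
    intro n g c hn hg hc
    have : (q : ℝ) * (1 / 1000) ≤ n * g := mul_le_mul hn hg (by norm_num) (Nat.cast_nonneg n)
    linarith
  have hc20 : (0 : ℝ) < (1 / 20) ^ (2 * (2 * q)) := by positivity
  -- D
  have pD1 := (pwD1 C cb (3 / 64) CM (2 * (2 * q))).mono
    (key _ (1 / 2 - 3 / 64) CM c2' (by norm_num) (by linarith))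
  have pD2 := (pwQ ((250 * C ^ 3) ^ 2) ((250 * C ^ 3) ^ 2 * (16 * C ^ 2)) ct (3 / 64) eL CM
    (2 * q - 1)).mono (b := K1) (by
      have := key _ (1 / 8 - 2 * (3 / 64)) (2 * eL + CM + 2 * (3 / 64)) c1 (by norm_num)
        (by linarith)
      linarith)
  have pD := (pD1.add pD2).cmul (KP (2 * q))
  -- O
  have pO1 := (pwO1 (250 * C ^ 3) (16 * C ^ 2) cb (11 / 256) (5 / 128) CM (by norm_num)
    (2 * (2 * q - 1))).mono (b := K1) (by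
      have := key _ (11 / 256 - 5 / 128) (2 * CM) c3 (by norm_num) (by linarith)
      linarith)
  have pO2 := (pwQ' ((250 * C ^ 3) ^ 2) ((250 * C ^ 3) ^ 2 * (16 * C ^ 2) ^ 2) ct (5 / 128) CM
    (2 * q - 1)).mono (b := K1) (by
      have := key _ (1 / 8 - 2 * (5 / 128)) (CM + 2 * (5 / 128)) c1 (by norm_num) (by linarith)
      linarith)
  have pO := (pO1.add pO2).cmul (KP (2 * q))
  -- H
  have pH1 := (pwH1 (16 * C ^ 2) (14 * (250 * C ^ 3) ^ 2 * (16 * C ^ 2)) cb (1 / 32) (1 / 40) CM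
    (by norm_num) (2 * (2 * q))).mono (b := K1)
    (key _ (1 / 32 - 1 / 40) CM c2' (by norm_num) (by linarith))
  have pH2 := (pwH2 16 (250 * C ^ 3) ((16 * C ^ 2) ^ 3) cb (11 / 256) (1 / 40) CM
    (by norm_num) (2 * q)).mono (b := K1)
    (key _ (2 * (11 / 256) - 2 * (1 / 40)) CM c4 (by norm_num) (by linarith))
  have pH3 := (pwH3 (464 * (250 * C ^ 3) ^ 2 * (16 * C ^ 2) ^ 2)
    (464 * (250 * C ^ 3) ^ 2 * (16 * C ^ 2) ^ 3) c2 (1 / 32) (1 / 40) eL CM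
    (2 * (2 * q) - 1)).mono (b := K1) (by
      have := key _ (1 / 16 - 1 / 32 - 1 / 40) (2 * eL + CM + 1 / 32 + 1 / 40) c5 (by norm_num)
        (by linarith)
      linarith)
  have pH4 := (pwH4 (232 * (250 * C ^ 3) ^ 2 * (16 * C ^ 2) ^ 2)
    (232 * (250 * C ^ 3) ^ 2 * (16 * C ^ 2) ^ 3) c2 (1 / 40) eL CM
    (2 * q - 1)).mono (b := K1) (by
      have := key _ (1 / 16 - 2 * (1 / 40)) (2 * eL + CM + 2 * (1 / 40)) c1 (by norm_num)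
        (by linarith)
      linarith)
  have pH := ((((pH1.add pH2).add pH3).cmul (4 ^ (2 * (2 * q)))).add pH4).cmul (KP (2 * q))
  -- T
  have pT := (pwT9 (T4.KT q (144 * C ^ 2)) vt eL CM q).mono (b := K1) (by linarith)
  -- small conditions
  have s1 : Ev (fun k => k ≤ 1 / 2) := Ev.le_const (by norm_num)
  have s2 : Ev (fun k => 4000 * C ^ 5 * nb0 cb k ≤ 1) :=
    Ev.le_of_mul (pw_nb0 cb) (by norm_num) _ one_pos
  have s3 : Ev (fun k => c2 * k ^ (1 / 16 : ℝ) ≤ 1) :=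
    Ev.le_of_mul (Pw.rpow (1 / 16)) (by norm_num) _ one_pos
  have s4 : Ev (fun k => cT * k ^ (1 / 8 : ℝ) ≤ 1) :=
    Ev.le_of_mul (Pw.rpow (1 / 8)) (by norm_num) _ one_pos
  have hep : Pw (fun k => k ^ (11 / 256 : ℝ) + 200 * C ^ 3 * nb0 cb k) (11 / 256) :=
    (Pw.rpow _).add (((pw_nb0 cb).cmul _).mono (by norm_num))
  have hT8 : Pw (fun k => cT * k ^ (1 / 8 : ℝ)) (1 / 8) := (Pw.rpow _).cmul cT
  have s5 : Ev (fun k => (cT * k ^ (1 / 8 : ℝ)) ^ 3 *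
      (k ^ (11 / 256 : ℝ) + 200 * C ^ 3 * nb0 cb k) ^ 4 ≤ k ^ (vt / 4 + 4 * (1 / 8 + 9 / 8 * vt))) :=
    Ev.of_Pw ((hT8.pow 3).mul (hep.pow 4)) (by push_cast; nlinarith)
  have s6 : Ev (fun k => (2 * k ^ (-eL)) ^ 2 * (9 * (nb0 cb k) ^ 2 * (cT * k ^ (1 / 8 : ℝ))) ≤
      k ^ (vt / 4 + (1 / 8 + 9 / 8 * vt))) :=
    Ev.of_Pw ((((Pw.rpow (-eL)).cmul 2).pow 2).mul ((((pw_nb0 cb).pow 2).cmul 9).mul hT8))
      (by push_cast; nlinarith)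
  have s7 : Ev (fun k => cT * k ^ (1 / 8 : ℝ) * k ^ (1 / 8 + 15 / 16 * vi) ≤
      k ^ (vt / 4 + 2 * (1 / 8 + 9 / 8 * vt))) :=
    Ev.of_Pw (hT8.mul (Pw.rpow _)) (by nlinarith)
  have e1 := Ev.of_Pw_const (pD2.cmul (KP (2 * q))) hK10 hc20
  have e2 := Ev.of_Pw pD hKp
  have e3 := Ev.of_Pw_const (pO2.cmul (KP (2 * q))) hK10 hc20
  have e4 := Ev.of_Pw pO hKp
  have e5 := Ev.of_Pw_const (pH4.cmul (KP (2 * q))) hK10 hc20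
  have e6 := Ev.of_Pw pH hKp
  have e7 := Ev.of_Pw_const (pT.cmul (KP (2 * q))) hK10 hc20
  have e8 := Ev.of_Pw ((pT.cmul 2).cmul (KP (2 * q))) hKp
  refine ((((s1.and s2).and (s3.and s4)).and ((s5.and s6).and s7)).and
    (((e1.and e2).and (e3.and e4)).and ((e5.and e6).and (e7.and e8)))).mono fun k hk h => ?_
  obtain ⟨⟨⟨⟨a1, a2⟩, a3, a4⟩, ⟨a5, a6⟩, a7⟩, ⟨⟨b1, b2⟩, b3, b4⟩, ⟨b5, b6⟩, b7, b8⟩ := h
  have r4 : k ^ (vt / 4 + 4 * (1 / 8 + 9 / 8 * vt)) =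
      k ^ (vt / 4) * (k ^ (1 / 8 + 9 / 8 * vt)) ^ 4 := by
    rw [Real.rpow_add hk, ← Real.rpow_natCast (k ^ (1 / 8 + 9 / 8 * vt)) 4, ← Real.rpow_mul hk.le]
    congr 2
    push_cast
    ring
  have r2 : k ^ (vt / 4 + 2 * (1 / 8 + 9 / 8 * vt)) =
      k ^ (vt / 4) * (k ^ (1 / 8 + 9 / 8 * vt)) ^ 2 := by
    rw [Real.rpow_add hk, ← Real.rpow_natCast (k ^ (1 / 8 + 9 / 8 * vt)) 2, ← Real.rpow_mul hk.le]
    congr 2
    push_cast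
    ring
  exact ⟨by linarith, a2, a3, a4, a5.trans (le_of_eq r4),
    a6.trans (le_of_eq (Real.rpow_add hk _ _)), a7.trans (le_of_eq r2), b1, b2, b3, b4, b5, b6,
    b7, b8⟩

/-- `tau_le` : `b0² (T0 + tT') ≤ ct κ^(1/8)` -/
theorem tau_num {cb cT0 vt k : ℝ} (hk : 0 < k) (hk1 : k ≤ 1) (hvt : 0 ≤ vt) :
    k * (cT0 * k ^ (-7 / 8 : ℝ) + k ^ (-7 / 8 + vt)) ≤ (cT0 + 1) * k ^ (1 / 8 : ℝ) := by
  have e1 : k * k ^ (-7 / 8 : ℝ) = k ^ (1 / 8 : ℝ) := by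
    nth_rewrite 1 [← Real.rpow_one k]
    rw [← Real.rpow_add hk]
    norm_num
  have e2 : k * k ^ (-7 / 8 + vt) ≤ k ^ (1 / 8 : ℝ) := by
    nth_rewrite 1 [← Real.rpow_one k]
    rw [← Real.rpow_add hk]
    exact Real.rpow_le_rpow_of_exponent_ge hk hk1 (by linarith)
  calc k * (cT0 * k ^ (-7 / 8 : ℝ) + k ^ (-7 / 8 + vt)) =
        cT0 * (k * k ^ (-7 / 8 : ℝ)) + k * k ^ (-7 / 8 + vt) := by ring
    _ ≤ cT0 * k ^ (1 / 8 : ℝ) + k ^ (1 / 8 : ℝ) := by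
        rw [e1]
        linarith
    _ = _ := by ring

theorem nb0_sq {cb k : ℝ} (hk : 0 < k) : (nb0 cb k) ^ 2 = cb ^ 2 * k := by
  have e : (k ^ (1 / 2 : ℝ)) ^ 2 = k := by
    rw [← Real.rpow_natCast (k ^ (1 / 2 : ℝ)) 2, ← Real.rpow_mul hk.le]
    norm_num
  unfold nb0
  rw [mul_pow, e]

/-- **FNum for small `κ`.** -/
theorem fnum_of {C cb cT0 eL CM vt vi Kp Ce : ℝ} {q : ℕ} {k : ℝ} (hq : 1 ≤ q) (hk : 0 < k)
    (hvi : 3 * vt ≤ vi)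
    (hC : 1 ≤ C) (hcb : 0 ≤ cb) (hcT0 : 0 ≤ cT0) (hvt : 0 < vt) (hCe : 0 ≤ Ce)
    (hqC : 2 * Ce + 1 < 4 * q * (1 / 360)) (hqv : Ce < 4 * q * (vt / 8))
    (h : NumQ C cb (cb ^ 2 * (cT0 + 1)) (cb ^ 2 * (cT0 + 1) + 1) (cT0 + 1) eL CM vt vi Kp q k)
    {T L : Type} [Fintype L] {X : Finset T} {e : T → ℝ} {rho : L → ℝ}
    (he : ∀ x ∈ X, k ^ Ce ≤ e x) (hr : ∀ i, k ≤ rho i) (hr1 : ∑ i, rho i ≤ 1) :
    FNum (ftol L vt k) rho X e C (k ^ (-eL)) (nb0 cb k) (k ^ (-CM)) (cT0 * k ^ (-7 / 8 : ℝ))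
      (ntau (cb ^ 2 * (cT0 + 1)) k) ((cb ^ 2 * (cT0 + 1) + 1) * k ^ (1 / 16 : ℝ)) k
      (9 * (nb0 cb k) ^ 2) ((cT0 + 1) * k ^ (1 / 8 : ℝ))
      (k ^ (11 / 256 : ℝ) + 200 * C ^ 3 * nb0 cb k) (k ^ (1 / 8 + 15 / 16 * vi)) (k ^ (vt / 4))
      (k ^ Kp) (k ^ Kp) (k ^ Kp) (k ^ Kp) q := by
  have hk1 := h.k1
  have hpos : ∀ a : ℝ, 0 < k ^ a := fun a => Real.rpow_pos_of_pos hk a
  have hle1 : ∀ a : ℝ, 0 ≤ a → k ^ a ≤ 1 := fun a ha => Real.rpow_le_one hk.le hk1.le ha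
  have hb0 : 0 ≤ nb0 cb k := mul_nonneg hcb (hpos _).le
  have hkt : k * k ^ (-7 / 8 + 9 / 8 * vt) = k ^ (1 / 8 + 9 / 8 * vt) := by
    nth_rewrite 1 [← Real.rpow_one k]
    rw [← Real.rpow_add hk]
    congr 1
    ring
  have hq0 : (0 : ℝ) ≤ q := Nat.cast_nonneg q
  have hcast : ((2 * (2 * q) : ℕ) : ℝ) = 4 * q := by push_cast; ring
  exact {
    q1 := hq
    b00 := hb0
    bsm := h.bsm
    Mc0 := (hpos _).le
    T00 := mul_nonneg hcT0 (hpos _).le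
    tau0 := by unfold ntau; have := hpos (1 / 8); positivity
    taub := by
      show (nb0 cb k) ^ 2 * (cT0 * k ^ (-7 / 8 : ℝ) + k ^ (-7 / 8 + vt)) ≤ ntau _ k
      rw [nb0_sq hk]
      unfold ntau
      have := tau_num (cb := cb) (cT0 := cT0) hk hk1.le hvt.le
      calc cb ^ 2 * k * (cT0 * k ^ (-7 / 8 : ℝ) + k ^ (-7 / 8 + vt)) =
            cb ^ 2 * (k * (cT0 * k ^ (-7 / 8 : ℝ) + k ^ (-7 / 8 + vt))) := by ring
        _ ≤ cb ^ 2 * ((cT0 + 1) * k ^ (1 / 8 : ℝ)) := mul_le_mul_of_nonneg_left this (sq_nonneg _)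
        _ = _ := by ring
    t20 := by have := hpos (1 / 16); positivity
    t21 := h.t21
    t2t := by
      unfold ntau
      rw [mul_pow, ← Real.rpow_natCast (k ^ (1 / 16 : ℝ)) 2, ← Real.rpow_mul hk.le]
      have e1 : (1 / 16 : ℝ) * ((2 : ℕ) : ℝ) = 1 / 8 := by norm_num
      rw [e1]
      refine mul_le_mul_of_nonneg_right ?_ (hpos _).le
      have : 0 ≤ cb ^ 2 * (cT0 + 1) := by positivity
      nlinarith
    kk0 := hk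
    kb9 := le_rfl
    tau4k := tau_num (cb := cb) hk hk1.le hvt.le
    tau41 := h.tau41
    ep0 := by have := hpos (11 / 256); positivity
    epD := by
      show k ^ (11 / 256 : ℝ) + 200 * C ^ 3 * nb0 cb k ≤ _
      have : 0 ≤ k ^ (11 / 256 : ℝ) + 200 * C ^ 3 * nb0 cb k := by
        have := hpos (11 / 256); positivity
      linarith
    dT0 := (hpos _).le
    dT1 := hle1 _ (by linarith)
    aD := hpos _
    aD' := (hpos _).le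
    aO := hpos _
    aO' := (hpos _).le
    aO1 := hle1 _ (by norm_num)
    eps := hpos _
    tH := hpos _
    tH' := fun _ => (hpos _).le
    tT := hpos _
    tT' := (hpos _).le
    uD := fun x hx => by
      show 1 < e x * (k ^ (11 / 256 : ℝ) / k ^ (3 / 64 : ℝ)) ^ (2 * (2 * q))
      rw [quot_pow hk]
      refine one_lt_rpow hk hk1 ?_ (he x hx)
      rw [hcast]
      nlinarith
    uO := fun x hx y hy => by
      show 1 < e x * e y * (k ^ (9 / 256 : ℝ) / k ^ (5 / 128 : ℝ)) ^ (2 * (2 * q))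
      rw [quot_pow hk]
      refine one_lt_rpow (y := Ce + Ce) hk hk1 ?_ ?_
      · rw [hcast]
        nlinarith
      · rw [Real.rpow_add hk]
        exact mul_le_mul (he x hx) (he y hy) (hpos _).le ((hpos _).le.trans (he x hx))
    uH := fun i x hx => by
      show 1 < rho i * e x * (k ^ (1 / 45 : ℝ) / k ^ (1 / 40 : ℝ)) ^ (2 * (2 * q))
      rw [quot_pow hk]
      refine one_lt_rpow (y := 1 + Ce) hk hk1 ?_ ?_
      · rw [hcast]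
        nlinarith
      · rw [Real.rpow_add hk, Real.rpow_one]
        exact mul_le_mul (hr i) (he x hx) (hpos _).le (hk.le.trans (hr i))
    uT := fun x hx => by
      show 1 < e x * (k ^ (-7 / 8 + vt) / k ^ (-7 / 8 + 9 / 8 * vt)) ^ (2 * (2 * q))
      rw [quot_pow hk]
      refine one_lt_rpow hk hk1 ?_ (he x hx)
      rw [hcast]
      nlinarith
    rho0 := fun i => hk.le.trans (hr i)
    rho1 := hr1
    cD := h.cD
    BD := h.BD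
    cO := h.cO
    BO := h.BO
    cH := h.cH
    BH := h.BH
    cT1 := by
      show _ ≤ k ^ (vt / 4) * (k * k ^ (-7 / 8 + 9 / 8 * vt)) ^ 4
      rw [hkt]
      exact h.cT1
    cT2 := by
      show _ ≤ k ^ (vt / 4) * (k * k ^ (-7 / 8 + 9 / 8 * vt))
      rw [hkt, ← Real.rpow_add hk]
      exact Real.rpow_le_rpow_of_exponent_ge hk hk1.le (by nlinarith)
    cT3 := by
      show _ ≤ k ^ (vt / 4) * (k * k ^ (-7 / 8 + 9 / 8 * vt)) ^ 2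
      rw [hkt]
      exact h.cT3
    cT4 := by
      show _ ≤ k ^ (vt / 4) * (k * k ^ (-7 / 8 + 9 / 8 * vt))
      rw [hkt]
      exact h.cT4
    cT5 := by
      show k * k ^ (-7 / 8 + 9 / 8 * vt) ≤ 1
      rw [hkt]
      exact hle1 _ (by linarith)
    cT := by
      show _ * (_ * (_ / (k * k ^ (-7 / 8 + 9 / 8 * vt)) ^ 2)) ≤ _
      rw [hkt]
      exact h.cT
    BT := by
      show _ * (2 * (_ * (_ / (k * k ^ (-7 / 8 + 9 / 8 * vt)) ^ 2))) ≤ _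
      rw [hkt]
      exact h.BT }

end Pool.Agent.ANS
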