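import Pool.Agent.AND.Sched
import Pool.Agent.AND.Use

/-! # ANS CORE U: the normaliser `U` of the (H3) weights of the schedule (AND project)

For the weights of `tolAt` (any classes, any law): `8 a ≤ U η` on `A`, `8 z ≤ U η` on the non-read
sites, `U = Cu / κ_(n+1)`: the hypotheses `aU`, `zU` of `CoreIn` (TopCore). -/

set_option autoImplicit false

open Finset

noncomputable section

namespace Pool.Agent.AND

open Pool.Agent.Kin Pool.Agent.APS

variable {d L : ℕ} [NeZero L] {f : Fix} {t : Tol d L} {M : Med (Tor d L)} {u : UTol}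

/-- the constant `Cu` -/
def coreCu (c1 C1 cl cs Cz Φ S e1 e2 : ℝ) : ℝ :=
  8 * (Φ * C1 * (1 / (cl * c1) + 1 / cs) + S * Cz * (e1 + e2 * C1 * (1 / (cl * c1) + 1 / cs)))

theorem coreCu_pos {c1 C1 cl cs Cz Φ S e1 e2 : ℝ} (hc1 : 0 < c1) (hC1 : 0 < C1) (hcl : 0 < cl)
    (hcs : 0 < cs) (hCz : 0 ≤ Cz) (hΦ : 0 < Φ) (hS : 0 ≤ S) (he1 : 0 ≤ e1) (he2 : 0 ≤ e2) :
    0 < coreCu c1 C1 cl cs Cz Φ S e1 e2 := by
  unfold coreCu
  positivity

/-- `ι_y ≤ C1 (1/(cl c1) + 1/cs) η_y / κ'` at active and static sites -/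
theorem io_eta (hG : Good f t M) (hI : t.In f M u) (hN : Num f t u) {k' cl cs : ℝ} (hk' : 0 < k')
    (hcl : 0 < cl) (hcs : 0 < cs) (hkl : cl * k' ≤ t.kl) (hst : cs * k' ≤ t.st) {y : Tor d L}
    (hy : y ∉ M.U) (hyI : y ∉ M.I) :
    (rsc (H0T d L) M.b y y).im ≤ f.C1 * (1 / (cl * f.c1) + 1 / cs) * (M.eta y / k') := by
  have hc1 := hN.c1
  have hC1 := hG.C1_pos hI hN
  have h1 := hG.io_le hI hN hy
  have h2 := hG.eta_pos hI hN hy
  have h3 : 0 < 1 / (cl * f.c1) := by positivity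
  have h4 : 0 < 1 / cs := by positivity
  have key : 1 ≤ (1 / (cl * f.c1) + 1 / cs) * (M.eta y / k') := by
    by_cases hA : y ∈ M.A
    · have h5 := hG.eta_act hI hN hA
      have h6 := hN.eta
      have h7 : cl * k' * f.c1 ≤ M.eta y := by
        have := mul_le_mul_of_nonneg_right hkl hc1.le
        linarith
      have h8 : 1 ≤ 1 / (cl * f.c1) * (M.eta y / k') := by
        rw [div_mul_div_comm, one_mul, le_div_iff₀ (by positivity)]
        linarith
      have h9 : 0 ≤ 1 / cs * (M.eta y / k') := by positivity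
      linarith [add_mul (1 / (cl * f.c1)) (1 / cs) (M.eta y / k')]
    · have h5 := hG.eS y hA hy hyI
      have h6 := hN.eta
      have h7 : cs * k' ≤ M.eta y := by linarith
      have h8 : 1 ≤ 1 / cs * (M.eta y / k') := by
        rw [div_mul_div_comm, one_mul, le_div_iff₀ (by positivity)]
        linarith
      have h9 : 0 ≤ 1 / (cl * f.c1) * (M.eta y / k') := by positivity
      linarith [add_mul (1 / (cl * f.c1)) (1 / cs) (M.eta y / k')]
  calc (rsc (H0T d L) M.b y y).im ≤ f.C1 * 1 := by linarith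
    _ ≤ f.C1 * ((1 / (cl * f.c1) + 1 / cs) * (M.eta y / k')) :=
        mul_le_mul_of_nonneg_left key hC1.le
    _ = _ := by ring

/-- **the normaliser.**  `p y`, `o y` = values of `phi`, `om` at the class of `y` -/
theorem coreU (hG : Good f t M) (hI : t.In f M u) (hN : Num f t u) {k' cl cs Cz Φ S e1 e2 s : ℝ}
    (hk' : 0 < k') (hcl : 0 < cl) (hcs : 0 < cs) (hkl : cl * k' ≤ t.kl) (hst : cs * k' ≤ t.st)
    (hCz : 0 ≤ Cz) (hΦ0 : 0 ≤ Φ) (hs0 : 0 ≤ s) (hsS : s ≤ S) (he10 : 0 ≤ e1) (he20 : 0 ≤ e2)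
    {p o err be : Tor d L → ℝ} (hpΦ : ∀ y, p y ≤ Φ) (hpI : ∀ y ∈ M.I, p y = 0)
    (ho0 : ∀ y, 0 ≤ o y) (ho1 : ∀ y, o y ≤ 1) (hoI : ∀ y ∈ M.I, o y = 0)
    (herr : ∀ y, err y ≤ e1) (hbe0 : ∀ y, 0 ≤ be y) (hbe : ∀ y, be y ≤ e2) (herr0 : ∀ y, 0 ≤ err y)
    {y : Tor d L} (hy : y ∉ M.U) :
    8 * (p y * (rsc (H0T d L) M.b y y).im) ≤
        coreCu f.c1 f.C1 cl cs Cz Φ S e1 e2 / k' * M.eta y ∧
      8 * ((if y ∈ M.A then 0 else p y * (rsc (H0T d L) M.b y y).im) +
        s * Cz * (err y * ((if y ∈ M.A then t.eta else M.eta y) / k') +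
          be y * (o y * (rsc (H0T d L) M.b y y).im))) ≤
        coreCu f.c1 f.C1 cl cs Cz Φ S e1 e2 / k' * M.eta y := by
  have hc1 := hN.c1
  have hC1 := hG.C1_pos hI hN
  have h2 := hG.eta_pos hI hN hy
  have hio := (hG.io_pos hI hN hy).le
  set R := f.C1 * (1 / (cl * f.c1) + 1 / cs) with hR
  have hR0 : 0 ≤ R := by positivity
  have hE0 : 0 ≤ M.eta y / k' := by positivity
  have hS0 : 0 ≤ S := hs0.trans hsS
  have hp : p y * (rsc (H0T d L) M.b y y).im ≤ Φ * (R * (M.eta y / k')) := by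
    by_cases hyI : y ∈ M.I
    · rw [hpI y hyI, zero_mul]
      positivity
    · exact mul_le_mul (hpΦ y) (io_eta hG hI hN hk' hcl hcs hkl hst hy hyI) hio hΦ0
  have ho : o y * (rsc (H0T d L) M.b y y).im ≤ R * (M.eta y / k') := by
    by_cases hyI : y ∈ M.I
    · rw [hoI y hyI, zero_mul]
      positivity
    · calc o y * (rsc (H0T d L) M.b y y).im ≤ 1 * (R * (M.eta y / k')) :=
            mul_le_mul (ho1 y) (io_eta hG hI hN hk' hcl hcs hkl hst hy hyI) hio zero_le_one
        _ = _ := one_mul _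
  have hb : err y * ((if y ∈ M.A then t.eta else M.eta y) / k') +
      be y * (o y * (rsc (H0T d L) M.b y y).im) ≤ (e1 + e2 * R) * (M.eta y / k') := by
    have h3 : (if y ∈ M.A then t.eta else M.eta y) / k' ≤ M.eta y / k' := by
      refine div_le_div_of_nonneg_right ?_ hk'.le
      split_ifs
      · exact hG.eta_ge hI hN hy
      · exact le_rfl
    have h4 : 0 ≤ (if y ∈ M.A then t.eta else M.eta y) / k' := by
      refine div_nonneg ?_ hk'.le
      split_ifs
      · exact hN.eta.le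
      · exact h2.le
    calc err y * ((if y ∈ M.A then t.eta else M.eta y) / k') +
        be y * (o y * (rsc (H0T d L) M.b y y).im) ≤
        e1 * (M.eta y / k') + e2 * (R * (M.eta y / k')) := by
          refine add_le_add (mul_le_mul (herr y) h3 h4 he10) ?_
          exact mul_le_mul (hbe y) ho (mul_nonneg (ho0 y) hio) he20
      _ = _ := by ring
  have hb0 : 0 ≤ err y * ((if y ∈ M.A then t.eta else M.eta y) / k') +
      be y * (o y * (rsc (H0T d L) M.b y y).im) := by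
    have h4 : 0 ≤ (if y ∈ M.A then t.eta else M.eta y) / k' := by
      refine div_nonneg ?_ hk'.le
      split_ifs
      · exact hN.eta.le
      · exact h2.le
    exact add_nonneg (mul_nonneg (herr0 y) h4) (mul_nonneg (hbe0 y) (mul_nonneg (ho0 y) hio))
  have hCu : coreCu f.c1 f.C1 cl cs Cz Φ S e1 e2 / k' * M.eta y =
      8 * (Φ * (R * (M.eta y / k')) + S * Cz * ((e1 + e2 * R) * (M.eta y / k'))) := by
    unfold coreCu
    rw [hR]
    ring
  have hz0 : 0 ≤ S * Cz * ((e1 + e2 * R) * (M.eta y / k')) := by positivity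
  have hz0' : 0 ≤ Φ * (R * (M.eta y / k')) := by positivity
  rw [hCu]
  refine ⟨by linarith, ?_⟩
  have h5 : s * Cz * (err y * ((if y ∈ M.A then t.eta else M.eta y) / k') +
      be y * (o y * (rsc (H0T d L) M.b y y).im)) ≤
      S * Cz * ((e1 + e2 * R) * (M.eta y / k')) :=
    mul_le_mul (mul_le_mul_of_nonneg_right hsS hCz) hb hb0 (mul_nonneg hS0 hCz)
  have h6 : (if y ∈ M.A then 0 else p y * (rsc (H0T d L) M.b y y).im) ≤
      Φ * (R * (M.eta y / k')) := by
    split_ifs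
    · exact hz0'
    · exact hp
  linarith

end Pool.Agent.AND
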