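import Pool.Agent.ANS.Dig

/-! # ANS DIGM: mean increments at the current configuration

At the configuration `s` (the site `w` may be read or unread) put
`Dl = ∑_d P u(w→d) - u(w→none)`, `M2 = ∑_d P |u(w→d)|² - |u(w→none)|²`,
`M2c = ∑_d P u(w→d)² - u(w→none)²`.  The mean increments are exact:
* `drG`: `- Dl G_xw G_wy`;
* `drS`: `- 2 Re (Dl G_xw G_wy conj G_xy) + M2 S_xw S_wy`;
* `drR`: `- 2 Dl G_xw G_wy G_xy + M2c G_xw² G_wy²`,
and `Dl = - c g_w + O(β³)`, `M2 = c + O(β³)`, `M2c = c + O(β³)`.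

Proof of the estimates: with `u₀ = u(w→none)`, `u° = ` the coefficient from the unread configuration,
`u(w→d) = u₀ + u°_d κ`, `κ = (1 - u₀ G_ww)²`. -/

set_option autoImplicit false
set_option linter.unusedSectionVars false

open Finset Function Matrix

noncomputable section

namespace Pool.Agent.ANS

open Pool.Agent.Kin Pool.Agent.APS Pool.Agent.ANL

variable {T D : Type} [Fintype T] [DecidableEq T] [Fintype D]

namespace Stp

/-- mean of the rank one coefficient -/
def Dl (P : Stp T D) (s : T → Option D) (w : T) : ℂ :=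
  ∑ d, (P.g.P w d : ℂ) * P.u s w (some d) - P.u s w none

/-- mean of the square modulus of the rank one coefficient -/
def M2 (P : Stp T D) (s : T → Option D) (w : T) : ℝ :=
  ∑ d, P.g.P w d * ‖P.u s w (some d)‖ ^ 2 - ‖P.u s w none‖ ^ 2

/-- mean of the square of the rank one coefficient -/
def M2c (P : Stp T D) (s : T → Option D) (w : T) : ℂ :=
  ∑ d, (P.g.P w d : ℂ) * P.u s w (some d) ^ 2 - P.u s w none ^ 2

variable {P : Stp T D} {X N : Finset T} {c be e : T → ℝ} {C Lm : ℝ}

namespace Ok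

variable (h : P.Ok X N c be e C Lm)
include h

/-! ### exact mean increments -/

theorem drG (s : T → Option D) (w x y : T) :
    ∑ d, (P.g.P w d : ℂ) * P.G (update s w (some d)) x y - P.G (update s w none) x y =
      -(P.Dl s w * (P.G s x w * P.G s w y)) := by
  have h1 : ∑ d, (P.g.P w d : ℂ) * P.G (update s w (some d)) x y =
      ((∑ d, P.g.P w d : ℝ) : ℂ) * P.G s x y -
      (∑ d, (P.g.P w d : ℂ) * P.u s w (some d)) * (P.G s x w * P.G s w y) := by
    push_cast
    rw [Finset.sum_mul, Finset.sum_mul, ← Finset.sum_sub_distrib]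
    refine Finset.sum_congr rfl fun d _ => ?_
    rw [h.rank1]
    ring
  rw [h1, h.dig.P1 w, h.rank1 s w none x y]
  unfold Dl
  push_cast
  ring

omit h [Fintype T] [DecidableEq T] [Fintype D] in
theorem nsq_sub (a b : ℂ) : ‖a - b‖ ^ 2 = ‖a‖ ^ 2 - 2 * (b * star a).re + ‖b‖ ^ 2 := by
  rw [← Complex.normSq_eq_norm_sq, ← Complex.normSq_eq_norm_sq, ← Complex.normSq_eq_norm_sq,
    Complex.normSq_apply, Complex.normSq_apply, Complex.normSq_apply]
  simp
  ring

theorem S_up (s : T → Option D) (w : T) (d : Option D) (x y : T) :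
    P.S (update s w d) x y = P.S s x y -
      2 * (P.u s w d * (P.G s x w * P.G s w y) * star (P.G s x y)).re +
      ‖P.u s w d‖ ^ 2 * (P.S s x w * P.S s w y) := by
  unfold S
  rw [h.rank1, nsq_sub, norm_mul, norm_mul]
  ring

theorem drS (s : T → Option D) (w x y : T) :
    ∑ d, P.g.P w d * P.S (update s w (some d)) x y - P.S (update s w none) x y =
      -2 * (P.Dl s w * (P.G s x w * P.G s w y) * star (P.G s x y)).re +
        P.M2 s w * (P.S s x w * P.S s w y) := by
  have h1 : ∑ d, P.g.P w d * P.S (update s w (some d)) x y =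
      (∑ d, P.g.P w d) * P.S s x y -
      2 * ((∑ d, (P.g.P w d : ℂ) * P.u s w (some d)) *
        ((P.G s x w * P.G s w y) * star (P.G s x y))).re +
      (∑ d, P.g.P w d * ‖P.u s w (some d)‖ ^ 2) * (P.S s x w * P.S s w y) := by
    rw [Finset.sum_mul, Finset.sum_mul, Finset.sum_mul, Complex.re_sum, Finset.mul_sum,
      ← Finset.sum_sub_distrib, ← Finset.sum_add_distrib]
    refine Finset.sum_congr rfl fun d _ => ?_
    rw [h.S_up]
    have h2 : ((P.g.P w d : ℂ) * P.u s w (some d) *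
        ((P.G s x w * P.G s w y) * star (P.G s x y))).re =
        P.g.P w d * (P.u s w (some d) * (P.G s x w * P.G s w y) * star (P.G s x y)).re := by
      rw [← Complex.re_ofReal_mul]
      congr 1
      ring
    rw [h2]
    ring
  rw [h1, h.dig.P1 w, h.S_up s w none x y]
  unfold Dl M2
  have h3 : ((∑ d, (P.g.P w d : ℂ) * P.u s w (some d) - P.u s w none) *
      (P.G s x w * P.G s w y) * star (P.G s x y)).re =
      ((∑ d, (P.g.P w d : ℂ) * P.u s w (some d)) *
        ((P.G s x w * P.G s w y) * star (P.G s x y))).re -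
      (P.u s w none * (P.G s x w * P.G s w y) * star (P.G s x y)).re := by
    rw [← Complex.sub_re]
    congr 1
    ring
  rw [h3]
  ring

theorem drR (s : T → Option D) (w x y : T) :
    ∑ d, (P.g.P w d : ℂ) * P.G (update s w (some d)) x y ^ 2 - P.G (update s w none) x y ^ 2 =
      -2 * (P.Dl s w * (P.G s x w * P.G s w y) * P.G s x y) +
        P.M2c s w * (P.G s x w ^ 2 * P.G s w y ^ 2) := by
  have h1 : ∑ d, (P.g.P w d : ℂ) * P.G (update s w (some d)) x y ^ 2 =
      ((∑ d, P.g.P w d : ℝ) : ℂ) * P.G s x y ^ 2 -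
      2 * ((∑ d, (P.g.P w d : ℂ) * P.u s w (some d)) *
        ((P.G s x w * P.G s w y) * P.G s x y)) +
      (∑ d, (P.g.P w d : ℂ) * P.u s w (some d) ^ 2) * (P.G s x w ^ 2 * P.G s w y ^ 2) := by
    push_cast
    rw [Finset.sum_mul, Finset.sum_mul, Finset.sum_mul, Finset.mul_sum,
      ← Finset.sum_sub_distrib, ← Finset.sum_add_distrib]
    refine Finset.sum_congr rfl fun d _ => ?_
    rw [h.rank1]
    ring
  rw [h1, h.dig.P1 w, h.rank1 s w none x y]
  unfold Dl M2c
  push_cast
  ring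

/-! ### the means of the coefficient -/

/-- the coefficient from the unread configuration -/
theorem u_none (s : T → Option D) (w : T) (d : D) :
    P.u (update s w none) w (some d) =
      Law.uu (P.g.xi w) (P.g.zt w) (P.gt w) (P.G (update s w none) w w) d := by
  unfold u Law.uu nu Law.nu
  simp [inc]

/-- `u(w→d) = u₀ + u° κ` -/
theorem u_split (s : T → Option D) (w : T) (d : Option D) :
    P.u s w d = P.u s w none + P.u (update s w none) w d * (1 - P.u s w none * P.G s w w) ^ 2 := by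
  have h1 := h.den_ne s w none
  have h2 := h.den_ne s w d
  have h3 := h.den_ne (update s w none) w d
  have h4 := h.rank1w s w none w
  have h5 : P.nu (update s w none) w d = P.nu s w d - P.nu s w none := by
    unfold nu
    simp
  rw [h4, h5] at h3
  unfold u
  rw [h4, h5]
  set a := P.nu s w none
  set b := P.nu s w d
  set G := P.G s w w
  have h6 : 1 + (b - a) * (G / (1 + a * G)) = (1 + b * G) / (1 + a * G) := by
    field_simp
    ring
  rw [h6]
  have h7 : 1 - a / (1 + a * G) * G = 1 / (1 + a * G) := by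
    field_simp
    ring
  rw [h7]
  have hA : ∃ A, A = 1 + a * G := ⟨_, rfl⟩
  have hB : ∃ B, B = 1 + b * G := ⟨_, rfl⟩
  obtain ⟨A, hA⟩ := hA
  obtain ⟨B, hB⟩ := hB
  rw [← hA, ← hB]
  rw [← hA] at h1
  rw [← hB] at h2
  field_simp
  rw [hA, hB]
  ring

omit h [Fintype D] in
theorem g_le {s : T → Option D} (hs : P.Ent X 1 s) {w : T} (hw : w ∈ X) :
    ‖P.G s w w - P.gt w‖ ≤ 1 := by
  have h2 : P.G nil w w = P.gt w := by
    have h3 : P.bs nil = P.b := by
      funext x
      simp [bs, nil, inc]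
    unfold G gt
    rw [h3]
  rw [← h2]
  exact hs w hw w hw

/-- facts about the coefficient `u₀` and the factor `κ` at a site of `N` -/
private lemma base {s : T → Option D} (hs : P.Ent X 1 s) {w : T} (hN : w ∈ N) :
    ‖P.u s w none‖ ≤ 3 * be w ∧ ‖P.G (update s w none) w w‖ ≤ 3 * C ∧
    ‖P.G (update s w none) w w - P.G s w w‖ ≤ 12 * C ^ 2 * be w ∧
    ‖(1 - P.u s w none * P.G s w w) ^ 2 - 1‖ ≤ 13 * C * be w := by
  have hX := h.NX hN
  have h0 := h.be0 w
  have hC := h.C0
  have h1 := h.u_le hs w none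
  have h2 := h.diaC hs hX
  have h3 := h.cmp_w2 hs w none w
  have h4 := h.cmp_xy hs w none w w
  have h5 := h.Cbe w
  have h6 : ‖P.u s w none * P.G s w w‖ ≤ 6 * (C * be w) := by
    rw [norm_mul]
    calc ‖P.u s w none‖ * ‖P.G s w w‖ ≤ 3 * be w * (2 * C) :=
          mul_le_mul h1 h2 (norm_nonneg _) (by positivity)
      _ = _ := by ring
  refine ⟨h1, by linarith, ?_, ?_⟩
  · refine h4.trans ?_
    calc 3 * be w * (‖P.G s w w‖ * ‖P.G s w w‖) ≤ 3 * be w * ((2 * C) * (2 * C)) := by
          refine mul_le_mul_of_nonneg_left ?_ (by positivity)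
          exact mul_le_mul h2 h2 (norm_nonneg _) (by positivity)
      _ = _ := by ring
  · have h7 : (1 - P.u s w none * P.G s w w) ^ 2 - 1 =
        -(P.u s w none * P.G s w w) * (2 - P.u s w none * P.G s w w) := by ring
    rw [h7, norm_mul, norm_neg]
    have h8 : ‖2 - P.u s w none * P.G s w w‖ ≤ 2 + 6 * (C * be w) := by
      refine (norm_sub_le _ _).trans ?_
      rw [Complex.norm_ofNat]
      linarith
    have h9 : 0 ≤ C * be w := mul_nonneg hC h0
    calc ‖P.u s w none * P.G s w w‖ * ‖2 - P.u s w none * P.G s w w‖ ≤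
          (6 * (C * be w)) * (2 + 6 * (C * be w)) :=
          mul_le_mul h6 h8 (norm_nonneg _) (by positivity)
      _ ≤ 13 * C * be w := by nlinarith

private lemma c3 {w : T} : 8 * (3 * C) ^ 2 * be w ≤ 1 := by
  have := h.bes w
  have h1 : 0 ≤ C ^ 2 * be w := mul_nonneg (sq_nonneg C) (h.be0 w)
  nlinarith

/-- mean of `u°` -/
private lemma ubar {s : T → Option D} (hs : P.Ent X 1 s) {w : T} (hN : w ∈ N) :
    ‖∑ d, (P.g.P w d : ℂ) * P.u (update s w none) w (some d) +
      (c w : ℂ) * (P.G s w w - P.gt w)‖ ≤ 147 * C ^ 3 * be w ^ 3 := by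
  obtain ⟨-, h2, h3, -⟩ := h.base hs hN
  have hC1 := h.C1
  have hC := h.C0
  have h0 := h.be0 w
  have h1 := (h.law w).u_mean (C := 3 * C) (gt := P.gt w) (G := P.G (update s w none) w w)
    (by linarith) ((h.gt_le (h.NX hN)).trans (by linarith)) h2 h.c3
  have e1 : ∑ d, (P.g.P w d : ℂ) * P.u (update s w none) w (some d) =
      ∑ d, (P.g.P w d : ℂ) *
        Law.uu (P.g.xi w) (P.g.zt w) (P.gt w) (P.G (update s w none) w w) d :=
    Finset.sum_congr rfl fun d _ => by rw [h.u_none]
  have e2 : ∑ d, (P.g.P w d : ℂ) * P.u (update s w none) w (some d) +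
      (c w : ℂ) * (P.G s w w - P.gt w) =
      (∑ d, (P.g.P w d : ℂ) *
        Law.uu (P.g.xi w) (P.g.zt w) (P.gt w) (P.G (update s w none) w w) d +
        (c w : ℂ) * (P.G (update s w none) w w - P.gt w)) -
      (c w : ℂ) * (P.G (update s w none) w w - P.G s w w) := by
    rw [e1]
    ring
  rw [e2]
  refine (norm_sub_le _ _).trans ?_
  have e3 : ‖(c w : ℂ) * (P.G (update s w none) w w - P.G s w w)‖ ≤
      be w ^ 2 * (12 * C ^ 2 * be w) := by
    rw [norm_mul, Complex.norm_real, Real.norm_eq_abs, abs_of_nonneg (h.c0 w)]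
    exact mul_le_mul (h.c_le w) h3 (norm_nonneg _) (sq_nonneg _)
  have hb3 : 0 ≤ be w ^ 3 := by positivity
  have hCC : C ^ 2 ≤ C ^ 3 := by nlinarith [sq_nonneg C]
  have e4 := mul_nonneg hb3 (sub_nonneg.2 hCC)
  calc _ ≤ 5 * (3 * C) ^ 3 * be w ^ 3 + be w ^ 2 * (12 * C ^ 2 * be w) := add_le_add h1 e3
    _ ≤ 147 * C ^ 3 * be w ^ 3 := by nlinarith

private lemma ubar2 {s : T → Option D} (hs : P.Ent X 1 s) {w : T} (hN : w ∈ N) :
    ‖∑ d, (P.g.P w d : ℂ) * P.u (update s w none) w (some d)‖ ≤ 3 * C * be w ^ 2 := by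
  have h1 := h.ubar hs hN
  have h0 := h.be0 w
  have hC := h.C0
  have hC1 := h.C1
  have hg := g_le hs (h.NX hN)
  have e1 : ‖(c w : ℂ) * (P.G s w w - P.gt w)‖ ≤ be w ^ 2 * 1 := by
    rw [norm_mul, Complex.norm_real, Real.norm_eq_abs, abs_of_nonneg (h.c0 w)]
    exact mul_le_mul (h.c_le w) hg (norm_nonneg _) (sq_nonneg _)
  have e2 : ‖∑ d, (P.g.P w d : ℂ) * P.u (update s w none) w (some d)‖ ≤
      ‖∑ d, (P.g.P w d : ℂ) * P.u (update s w none) w (some d) +
      (c w : ℂ) * (P.G s w w - P.gt w)‖ + ‖(c w : ℂ) * (P.G s w w - P.gt w)‖ := by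
    have := norm_sub_le (∑ d, (P.g.P w d : ℂ) * P.u (update s w none) w (some d) +
      (c w : ℂ) * (P.G s w w - P.gt w)) ((c w : ℂ) * (P.G s w w - P.gt w))
    rwa [add_sub_cancel_right] at this
  have h5 := h.bes w
  have e3 : 147 * C ^ 3 * be w ^ 3 ≤ 3 / 2 * (C * be w ^ 2) := by
    have : 147 * C ^ 3 * be w ^ 3 = (147 / 100) * (100 * C ^ 2 * be w) * (C * be w ^ 2) := by ring
    rw [this]
    have : 0 ≤ C * be w ^ 2 := by positivity
    nlinarith
  have e4 : be w ^ 2 ≤ C * be w ^ 2 := by nlinarith [sq_nonneg (be w)]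
  have e5 : 0 ≤ C * be w ^ 2 := by positivity
  linarith

/-- `∑ P u - u(none) = - c g_w + O(β³)` -/
theorem Dl_est {s : T → Option D} (hs : P.Ent X 1 s) (w : T) :
    ‖P.Dl s w + (c w : ℂ) * (P.G s w w - P.gt w)‖ ≤ 200 * C ^ 3 * be w ^ 3 := by
  have h0 := h.be0 w
  have hC := h.C0
  have hC1 := h.C1
  by_cases hN : w ∈ N
  · obtain ⟨-, -, -, h4⟩ := h.base hs hN
    have h5 := h.ubar hs hN
    have h6 := h.ubar2 hs hN
    set κ := (1 - P.u s w none * P.G s w w) ^ 2 with hκ
    have e1 : P.Dl s w = κ * ∑ d, (P.g.P w d : ℂ) * P.u (update s w none) w (some d) := by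
      unfold Dl
      have e2 : ∑ d, (P.g.P w d : ℂ) * P.u s w (some d) =
          ((∑ d, P.g.P w d : ℝ) : ℂ) * P.u s w none +
          κ * ∑ d, (P.g.P w d : ℂ) * P.u (update s w none) w (some d) := by
        push_cast
        rw [Finset.sum_mul, Finset.mul_sum, ← Finset.sum_add_distrib]
        refine Finset.sum_congr rfl fun d _ => ?_
        rw [h.u_split s w (some d)]
        ring
      rw [e2, h.dig.P1 w]
      push_cast
      ring
    have e3 : P.Dl s w + (c w : ℂ) * (P.G s w w - P.gt w) =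
        (κ - 1) * ∑ d, (P.g.P w d : ℂ) * P.u (update s w none) w (some d) +
        (∑ d, (P.g.P w d : ℂ) * P.u (update s w none) w (some d) +
          (c w : ℂ) * (P.G s w w - P.gt w)) := by
      rw [e1]
      ring
    rw [e3]
    refine (norm_add_le _ _).trans ?_
    rw [norm_mul]
    have hb3 : 0 ≤ be w ^ 3 := by positivity
    have hCC : C ^ 2 ≤ C ^ 3 := by nlinarith [sq_nonneg C]
    have e4 := mul_nonneg hb3 (sub_nonneg.2 hCC)
    calc _ ≤ (13 * C * be w) * (3 * C * be w ^ 2) + 147 * C ^ 3 * be w ^ 3 :=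
          add_le_add (mul_le_mul h4 h6 (norm_nonneg _) (by positivity)) h5
      _ ≤ 200 * C ^ 3 * be w ^ 3 := by nlinarith [mul_nonneg hb3 (pow_nonneg hC 3)]
  · have h1 : ∀ d, P.u s w d = 0 := by
      intro d
      unfold u nu
      rw [h.inc_off hN, h.inc_off hN, sub_zero, zero_div]
    have h2 : c w = 0 := by
      have h3 := h.c_le w
      rw [h.beN w hN] at h3
      exact le_antisymm (h3.trans (by norm_num)) (h.c0 w)
    unfold Dl
    simp [h1, h2]
    positivity

/-- `∑ P |u|² - |u(none)|² = c + O(β³)` -/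
theorem M2_est {s : T → Option D} (hs : P.Ent X 1 s) (w : T) :
    |P.M2 s w - c w| ≤ 250 * C ^ 2 * be w ^ 3 := by
  have h0 := h.be0 w
  have hC := h.C0
  have hC1 := h.C1
  by_cases hN : w ∈ N
  · obtain ⟨h1, h2, -, h4⟩ := h.base hs hN
    have h6 := h.ubar2 hs hN
    have hbe := h.Cbe w
    set κ := (1 - P.u s w none * P.G s w w) ^ 2 with hκ
    set u0 := P.u s w none
    have hκn : ‖κ‖ ≤ 113 / 100 := by
      have e1 : ‖κ‖ ≤ ‖κ - 1‖ + ‖(1 : ℂ)‖ := by
        have := norm_add_le (κ - 1) 1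
        rwa [sub_add_cancel] at this
      rw [norm_one] at e1
      linarith
    have hκ2 : |‖κ‖ ^ 2 - 1| ≤ 28 * C * be w := by
      have e1 : |‖κ‖ - 1| ≤ 13 * C * be w := by
        have := abs_norm_sub_norm_le κ 1
        rw [norm_one] at this
        exact this.trans h4
      have e2 : ‖κ‖ ^ 2 - 1 = (‖κ‖ - 1) * (‖κ‖ + 1) := by ring
      rw [e2, abs_mul, abs_of_nonneg (by positivity : 0 ≤ ‖κ‖ + 1)]
      calc |‖κ‖ - 1| * (‖κ‖ + 1) ≤ (13 * C * be w) * (213 / 100) :=
            mul_le_mul e1 (by linarith) (by positivity) (by positivity)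
        _ ≤ 28 * C * be w := by nlinarith [mul_nonneg hC h0]
    have h7 := (h.law w).u_nsq (C := 3 * C) (gt := P.gt w) (G := P.G (update s w none) w w)
      (by linarith) ((h.gt_le (h.NX hN)).trans (by linarith)) h2 h.c3
    have h8 : ∀ d, ‖P.u (update s w none) w (some d)‖ ^ 2 ≤ 4 * be w ^ 2 := by
      intro d
      rw [h.u_none]
      have := (h.law w).u_le (C := 3 * C) (gt := P.gt w) (G := P.G (update s w none) w w)
        (by linarith) ((h.gt_le (h.NX hN)).trans (by linarith)) h2 h.c3 d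
      calc _ ≤ (2 * be w) ^ 2 := pow_le_pow_left₀ (norm_nonneg _) this 2
        _ = 4 * be w ^ 2 := by ring
    have e1 : ∀ d, ‖P.u s w (some d)‖ ^ 2 = ‖u0‖ ^ 2 +
        2 * (P.u (update s w none) w (some d) * (κ * star u0)).re +
        ‖κ‖ ^ 2 * ‖P.u (update s w none) w (some d)‖ ^ 2 := by
      intro d
      have e2 : P.u s w (some d) = u0 - -(P.u (update s w none) w (some d) * κ) := by
        rw [h.u_split s w (some d)]
        ring
      rw [e2, nsq_sub, norm_neg, norm_mul]
      have e3 : (-(P.u (update s w none) w (some d) * κ) * star u0).re =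
          -(P.u (update s w none) w (some d) * (κ * star u0)).re := by
        rw [← Complex.neg_re]
        congr 1
        ring
      rw [e3]
      ring
    have e4 : P.M2 s w - c w =
        2 * ((∑ d, (P.g.P w d : ℂ) * P.u (update s w none) w (some d)) * (κ * star u0)).re +
        (‖κ‖ ^ 2 - 1) * ∑ d, P.g.P w d * ‖P.u (update s w none) w (some d)‖ ^ 2 +
        (∑ d, P.g.P w d * ‖P.u (update s w none) w (some d)‖ ^ 2 - c w) := by
      unfold M2
      have e5 : ∑ d, P.g.P w d * ‖P.u s w (some d)‖ ^ 2 =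
          (∑ d, P.g.P w d) * ‖u0‖ ^ 2 +
          2 * ((∑ d, (P.g.P w d : ℂ) * P.u (update s w none) w (some d)) * (κ * star u0)).re +
          ‖κ‖ ^ 2 * ∑ d, P.g.P w d * ‖P.u (update s w none) w (some d)‖ ^ 2 := by
        rw [Finset.sum_mul, Finset.sum_mul, Complex.re_sum, Finset.mul_sum, Finset.mul_sum,
          ← Finset.sum_add_distrib, ← Finset.sum_add_distrib]
        refine Finset.sum_congr rfl fun d _ => ?_
        rw [e1 d]
        have e6 : ((P.g.P w d : ℂ) * P.u (update s w none) w (some d) * (κ * star u0)).re =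
            P.g.P w d * (P.u (update s w none) w (some d) * (κ * star u0)).re := by
          rw [← Complex.re_ofReal_mul]
          congr 1
          ring
        rw [e6]
        ring
      rw [e5, h.dig.P1 w]
      ring
    rw [e4]
    have f1 : |2 * ((∑ d, (P.g.P w d : ℂ) * P.u (update s w none) w (some d)) *
        (κ * star u0)).re| ≤ 21 * C * be w ^ 3 := by
      rw [abs_mul, abs_two]
      have e7 : |((∑ d, (P.g.P w d : ℂ) * P.u (update s w none) w (some d)) *
          (κ * star u0)).re| ≤ (3 * C * be w ^ 2) * (113 / 100 * (3 * be w)) := by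
        refine (Complex.abs_re_le_norm _).trans ?_
        rw [norm_mul, norm_mul, norm_star]
        exact mul_le_mul h6 (mul_le_mul hκn h1 (norm_nonneg _) (by norm_num)) (by positivity)
          (by positivity)
      have : 0 ≤ C * be w ^ 3 := by positivity
      nlinarith
    have f2 : |(‖κ‖ ^ 2 - 1) * ∑ d, P.g.P w d * ‖P.u (update s w none) w (some d)‖ ^ 2| ≤
        112 * C * be w ^ 3 := by
      rw [abs_mul]
      have e8 : |∑ d, P.g.P w d * ‖P.u (update s w none) w (some d)‖ ^ 2| ≤ 4 * be w ^ 2 :=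
        (h.law w).mean_le fun d => by
          rw [abs_of_nonneg (by positivity)]
          exact h8 d
      calc _ ≤ (28 * C * be w) * (4 * be w ^ 2) :=
            mul_le_mul hκ2 e8 (abs_nonneg _) (by positivity)
        _ = _ := by ring
    have f3 : |∑ d, P.g.P w d * ‖P.u (update s w none) w (some d)‖ ^ 2 - c w| ≤
        72 * C ^ 2 * be w ^ 3 := by
      have e9 : ∑ d, P.g.P w d * ‖P.u (update s w none) w (some d)‖ ^ 2 =
          ∑ d, P.g.P w d *
          ‖Law.uu (P.g.xi w) (P.g.zt w) (P.gt w) (P.G (update s w none) w w) d‖ ^ 2 :=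
        Finset.sum_congr rfl fun d _ => by rw [h.u_none]
      rw [e9]
      refine h7.trans (le_of_eq ?_)
      ring
    have hb3 : 0 ≤ be w ^ 3 := by positivity
    have hCC : C ≤ C ^ 2 := by nlinarith
    have e10 := mul_nonneg hb3 (sub_nonneg.2 hCC)
    have e11 : 0 ≤ C ^ 2 * be w ^ 3 := by positivity
    refine (abs_add_three _ _ _).trans ?_
    nlinarith
  · have h1 : ∀ d, P.u s w d = 0 := by
      intro d
      unfold u nu
      rw [h.inc_off hN, h.inc_off hN, sub_zero, zero_div]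
    have h2 : c w = 0 := by
      have h3 := h.c_le w
      rw [h.beN w hN] at h3
      exact le_antisymm (h3.trans (by norm_num)) (h.c0 w)
    unfold M2
    simp [h1, h2]
    positivity

/-- `∑ P u² - u(none)² = c + O(β³)` -/
theorem M2c_est {s : T → Option D} (hs : P.Ent X 1 s) (w : T) :
    ‖P.M2c s w - (c w : ℂ)‖ ≤ 250 * C ^ 2 * be w ^ 3 := by
  have h0 := h.be0 w
  have hC := h.C0
  have hC1 := h.C1
  by_cases hN : w ∈ N
  · obtain ⟨h1, h2, -, h4⟩ := h.base hs hN
    have h6 := h.ubar2 hs hN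
    have hbe := h.Cbe w
    set κ := (1 - P.u s w none * P.G s w w) ^ 2 with hκ
    set u0 := P.u s w none
    have hκn : ‖κ‖ ≤ 113 / 100 := by
      have e1 : ‖κ‖ ≤ ‖κ - 1‖ + ‖(1 : ℂ)‖ := by
        have := norm_add_le (κ - 1) 1
        rwa [sub_add_cancel] at this
      rw [norm_one] at e1
      linarith
    have hκ2 : ‖κ ^ 2 - 1‖ ≤ 28 * C * be w := by
      have e2 : κ ^ 2 - 1 = (κ - 1) * (κ + 1) := by ring
      have e3 : ‖κ + 1‖ ≤ 213 / 100 := by
        refine (norm_add_le _ _).trans ?_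
        rw [norm_one]
        linarith
      rw [e2, norm_mul]
      calc ‖κ - 1‖ * ‖κ + 1‖ ≤ (13 * C * be w) * (213 / 100) :=
            mul_le_mul h4 e3 (by positivity) (by positivity)
        _ ≤ 28 * C * be w := by nlinarith [mul_nonneg hC h0]
    have h7 := (h.law w).u_sq (C := 3 * C) (gt := P.gt w) (G := P.G (update s w none) w w)
      (by linarith) ((h.gt_le (h.NX hN)).trans (by linarith)) h2 h.c3
    have h8 : ∀ d, ‖P.u (update s w none) w (some d) ^ 2‖ ≤ 4 * be w ^ 2 := by
      intro d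
      rw [h.u_none, norm_pow]
      have := (h.law w).u_le (C := 3 * C) (gt := P.gt w) (G := P.G (update s w none) w w)
        (by linarith) ((h.gt_le (h.NX hN)).trans (by linarith)) h2 h.c3 d
      calc _ ≤ (2 * be w) ^ 2 := pow_le_pow_left₀ (norm_nonneg _) this 2
        _ = 4 * be w ^ 2 := by ring
    have e4 : P.M2c s w - (c w : ℂ) =
        2 * ((∑ d, (P.g.P w d : ℂ) * P.u (update s w none) w (some d)) * (κ * u0)) +
        (κ ^ 2 - 1) * ∑ d, (P.g.P w d : ℂ) * P.u (update s w none) w (some d) ^ 2 +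
        (∑ d, (P.g.P w d : ℂ) * P.u (update s w none) w (some d) ^ 2 - (c w : ℂ)) := by
      unfold M2c
      have e5 : ∑ d, (P.g.P w d : ℂ) * P.u s w (some d) ^ 2 =
          ((∑ d, P.g.P w d : ℝ) : ℂ) * u0 ^ 2 +
          2 * ((∑ d, (P.g.P w d : ℂ) * P.u (update s w none) w (some d)) * (κ * u0)) +
          κ ^ 2 * ∑ d, (P.g.P w d : ℂ) * P.u (update s w none) w (some d) ^ 2 := by
        push_cast
        rw [Finset.sum_mul, Finset.sum_mul, Finset.mul_sum, Finset.mul_sum,
          ← Finset.sum_add_distrib, ← Finset.sum_add_distrib]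
        refine Finset.sum_congr rfl fun d _ => ?_
        rw [h.u_split s w (some d)]
        ring
      rw [e5, h.dig.P1 w]
      push_cast
      ring
    rw [e4]
    have f1 : ‖2 * ((∑ d, (P.g.P w d : ℂ) * P.u (update s w none) w (some d)) *
        (κ * u0))‖ ≤ 21 * C * be w ^ 3 := by
      rw [norm_mul, norm_mul, norm_mul, Complex.norm_ofNat]
      have e7 : ‖∑ d, (P.g.P w d : ℂ) * P.u (update s w none) w (some d)‖ * (‖κ‖ * ‖u0‖) ≤
          (3 * C * be w ^ 2) * (113 / 100 * (3 * be w)) :=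
        mul_le_mul h6 (mul_le_mul hκn h1 (norm_nonneg _) (by norm_num)) (by positivity)
          (by positivity)
      have : 0 ≤ C * be w ^ 3 := by positivity
      nlinarith
    have f2 : ‖(κ ^ 2 - 1) * ∑ d, (P.g.P w d : ℂ) * P.u (update s w none) w (some d) ^ 2‖ ≤
        112 * C * be w ^ 3 := by
      rw [norm_mul]
      have e8 := (h.law w).cmean_le h8
      calc _ ≤ (28 * C * be w) * (4 * be w ^ 2) :=
            mul_le_mul hκ2 e8 (norm_nonneg _) (by positivity)
        _ = _ := by ring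
    have f3 : ‖∑ d, (P.g.P w d : ℂ) * P.u (update s w none) w (some d) ^ 2 - (c w : ℂ)‖ ≤
        72 * C ^ 2 * be w ^ 3 := by
      have e9 : ∑ d, (P.g.P w d : ℂ) * P.u (update s w none) w (some d) ^ 2 =
          ∑ d, (P.g.P w d : ℂ) *
          Law.uu (P.g.xi w) (P.g.zt w) (P.gt w) (P.G (update s w none) w w) d ^ 2 :=
        Finset.sum_congr rfl fun d _ => by rw [h.u_none]
      rw [e9]
      refine h7.trans (le_of_eq ?_)
      ring
    have hb3 : 0 ≤ be w ^ 3 := by positivity
    have hCC : C ≤ C ^ 2 := by nlinarith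
    have e10 := mul_nonneg hb3 (sub_nonneg.2 hCC)
    have e11 : 0 ≤ C ^ 2 * be w ^ 3 := by positivity
    refine norm_add₃_le.trans ?_
    nlinarith
  · have h1 : ∀ d, P.u s w d = 0 := by
      intro d
      unfold u nu
      rw [h.inc_off hN, h.inc_off hN, sub_zero, zero_div]
    have h2 : c w = 0 := by
      have h3 := h.c_le w
      rw [h.beN w hN] at h3
      exact le_antisymm (h3.trans (by norm_num)) (h.c0 w)
    unfold M2c
    simp [h1, h2]
    positivity

/-- the mean coefficient in the form used by the components -/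
theorem Dl_le {s : T → Option D} (hs : P.Ent X 1 s) (w : T) :
    ‖P.Dl s w‖ ≤ be w ^ 2 * (‖P.G s w w - P.gt w‖ + 200 * C ^ 3 * be w) := by
  have h1 := h.Dl_est hs w
  have h2 : ‖P.Dl s w‖ ≤ ‖P.Dl s w + (c w : ℂ) * (P.G s w w - P.gt w)‖ +
      ‖(c w : ℂ) * (P.G s w w - P.gt w)‖ := by
    have := norm_sub_le (P.Dl s w + (c w : ℂ) * (P.G s w w - P.gt w))
      ((c w : ℂ) * (P.G s w w - P.gt w))
    rwa [add_sub_cancel_right] at this
  have h3 : ‖(c w : ℂ) * (P.G s w w - P.gt w)‖ ≤ be w ^ 2 * ‖P.G s w w - P.gt w‖ := by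
    rw [norm_mul, Complex.norm_real, Real.norm_eq_abs, abs_of_nonneg (h.c0 w)]
    exact mul_le_mul_of_nonneg_right (h.c_le w) (norm_nonneg _)
  calc _ ≤ _ := h2
    _ ≤ 200 * C ^ 3 * be w ^ 3 + be w ^ 2 * ‖P.G s w w - P.gt w‖ := add_le_add h1 h3
    _ = _ := by ring

end Ok

end Stp

end Pool.Agent.ANS
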