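import Pool.Agent.Kin.ThFun
import Pool.Agent.ANP.Defs

/-! # ANS ENG: the jump engine (see /team-store/ans_engine_h4.md)

Finite sets `N` (sites to be read) and `A` (values of one digit), laws `pr w : A → ℝ`.
A configuration `s : N → Option A` says for every site whether it is unread (`none`) or read with
value `a` (`some a`).  `Et pr t F` is the mean of `F` when every site is read with probability
`t`, independently.  `Et pr 0 F = F none`, `Et pr 1 F` is the mean under the true law.

* `hasDerivAt_Et`: `d/dt Et = Et (Gn F)`, `Gn F s = ∑ w (∑ a, pr w a F(s^{w→a}) - F(s^{w→none}))`.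
  (Product rule: the derivative of the factor at `w` is `-1` at `none` and `pr w a` at `some a`;
  the swap `(s, b) ↦ (update s w b, s w)` of `(N → Option A) × Option A` and `∑_b wt w b = 1`
  give the form with the factor of the actual `s w`.)
* `engine`: Gronwall for `Et (th (1/4) ∘ Γ)`. -/

set_option autoImplicit false

open Finset Function

noncomputable section

namespace Pool.Agent.ANS

variable {N A : Type} [Fintype N] [DecidableEq N] [Fintype A] [DecidableEq A]

/-- one-site weight at time `t` -/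
def wt (pr : N → A → ℝ) (t : ℝ) (w : N) : Option A → ℝ
  | none => 1 - t
  | some a => t * pr w a

/-- mean at time `t` -/
def Et (pr : N → A → ℝ) (t : ℝ) (F : (N → Option A) → ℝ) : ℝ :=
  ∑ s : N → Option A, (∏ w, wt pr t w (s w)) * F s

/-- the generator -/
def Gn (pr : N → A → ℝ) (F : (N → Option A) → ℝ) (s : N → Option A) : ℝ :=
  ∑ w, (∑ a, pr w a * F (update s w (some a)) - F (update s w none))

/-- everything is read -/
def full (o : N → A) : N → Option A := fun w => some (o w)

/-- nothing is read -/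
def nil : N → Option A := fun _ => none

/-- component estimate of the function `Γ` at the configuration `s` -/
def CompAt (pr : N → A → ℝ) (Γ : (N → Option A) → ℝ) (s : N → Option A) (al be dl : ℝ) : Prop :=
  ∃ (l : N → Option A → ℝ) (q : N → ℝ), (∀ w, 0 ≤ q w) ∧
    (∀ w b, |Γ (update s w b) - Γ s - l w b| ≤ q w) ∧
    (∀ w b, (Γ (update s w b) - Γ s) ^ 2 ≤ q w) ∧
    (∀ w b, |Γ (update s w b) - Γ s| ≤ dl) ∧
    (∑ w, (∑ a, pr w a * l w (some a) - l w none) ≤ al * Γ s + be) ∧
    ∑ w, q w ≤ al * Γ s + be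

section engine

variable {pr : N → A → ℝ}

omit [Fintype N] [DecidableEq N] [DecidableEq A] in
theorem wt_sum (hpr1 : ∀ w, ∑ a, pr w a = 1) (t : ℝ) (w : N) :
    ∑ b : Option A, wt pr t w b = 1 := by
  rw [Fintype.sum_option]
  simp only [wt, ← Finset.mul_sum, hpr1]
  ring

/-- derivative of the one-site weight -/
def dwt (pr : N → A → ℝ) (w : N) : Option A → ℝ
  | none => -1
  | some a => pr w a

omit [Fintype N] [DecidableEq N] [Fintype A] [DecidableEq A] in
theorem hasDerivAt_wt (w : N) (b : Option A) (t : ℝ) :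
    HasDerivAt (fun t => wt pr t w b) (dwt pr w b) t := by
  cases b with
  | none =>
    simp only [wt, dwt]
    simpa using (hasDerivAt_id t).const_sub 1
  | some a =>
    simp only [wt, dwt]
    simpa using (hasDerivAt_id t).mul_const (pr w a)

/-- exchange of the value at `w` with a free value -/
def swp (w : N) (p : (N → Option A) × Option A) : (N → Option A) × Option A :=
  (update p.1 w p.2, p.1 w)

omit [Fintype N] [Fintype A] [DecidableEq A] in
theorem swp_invol (w : N) : Function.Involutive (swp (A := A) w) := by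
  intro p
  simp [swp]

theorem swap_sum (w : N) (f : (N → Option A) → Option A → ℝ) :
    ∑ s, ∑ b, f (update s w b) (s w) = ∑ s, ∑ b, f s b := by
  rw [← Fintype.sum_prod_type', ← Fintype.sum_prod_type']
  exact Equiv.sum_comp (swp_invol (A := A) w).toPerm (fun p => f p.1 p.2)

theorem site_id (hpr1 : ∀ w, ∑ a, pr w a = 1) (t : ℝ) (F : (N → Option A) → ℝ) (w : N) :
    ∑ s : N → Option A, ((∏ w' ∈ univ.erase w, wt pr t w' (s w')) * dwt pr w (s w)) * F s =
      ∑ s : N → Option A, (∏ w, wt pr t w (s w)) *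
        (∑ a, pr w a * F (update s w (some a)) - F (update s w none)) := by
  have h1 := swap_sum (A := A) w (fun s b =>
    (∏ w' ∈ univ.erase w, wt pr t w' (s w')) * wt pr t w b * dwt pr w (s w) * F s)
  have hL : ∑ s : N → Option A, ∑ b, (∏ w' ∈ univ.erase w, wt pr t w' (s w')) * wt pr t w b *
      dwt pr w (s w) * F s =
      ∑ s : N → Option A, ((∏ w' ∈ univ.erase w, wt pr t w' (s w')) * dwt pr w (s w)) * F s := by
    refine Finset.sum_congr rfl fun s _ => ?_
    have : ∀ b : Option A, (∏ w' ∈ univ.erase w, wt pr t w' (s w')) * wt pr t w b *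
        dwt pr w (s w) * F s = wt pr t w b *
        ((∏ w' ∈ univ.erase w, wt pr t w' (s w')) * dwt pr w (s w) * F s) := fun b => by ring
    simp only [this, ← Finset.sum_mul, wt_sum hpr1, one_mul]
  rw [← hL, ← h1]
  refine Finset.sum_congr rfl fun s _ => ?_
  have h2 : ∀ b : Option A, (∏ w' ∈ univ.erase w, wt pr t w' (update s w b w')) *
      wt pr t w (s w) * dwt pr w (update s w b w) * F (update s w b) =
      (∏ w, wt pr t w (s w)) * (dwt pr w b * F (update s w b)) := by
    intro b
    have h3 : ∏ w' ∈ univ.erase w, wt pr t w' (update s w b w') =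
        ∏ w' ∈ univ.erase w, wt pr t w' (s w') := by
      refine Finset.prod_congr rfl fun w' hw' => ?_
      rw [update_of_ne (Finset.ne_of_mem_erase hw')]
    rw [h3, update_self, ← Finset.prod_erase_mul univ _ (Finset.mem_univ w)]
    ring
  simp only [h2]
  rw [← Finset.mul_sum, Fintype.sum_option]
  simp only [dwt]
  ring

theorem hasDerivAt_Et (hpr1 : ∀ w, ∑ a, pr w a = 1) (F : (N → Option A) → ℝ) (t : ℝ) :
    HasDerivAt (fun t => Et pr t F) (Et pr t (Gn pr F)) t := by
  have h1 : ∀ s : N → Option A, HasDerivAt (fun t => ∏ w, wt pr t w (s w))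
      (∑ w, (∏ w' ∈ univ.erase w, wt pr t w' (s w')) * dwt pr w (s w)) t := by
    intro s
    have := HasDerivAt.fun_finsetProd (u := univ) (f := fun (w : N) (t : ℝ) => wt pr t w (s w))
      (f' := fun w => dwt pr w (s w)) (x := t) (fun w _ => hasDerivAt_wt w (s w) t)
    simpa [smul_eq_mul] using this
  have h2 : HasDerivAt (fun t => ∑ s : N → Option A, (∏ w, wt pr t w (s w)) * F s)
      (∑ s : N → Option A, (∑ w, (∏ w' ∈ univ.erase w, wt pr t w' (s w')) *
        dwt pr w (s w)) * F s) t :=
    HasDerivAt.fun_sum fun s _ => (h1 s).mul_const (F s)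
  have h3 : ∑ s : N → Option A, (∑ w, (∏ w' ∈ univ.erase w, wt pr t w' (s w')) *
      dwt pr w (s w)) * F s = Et pr t (Gn pr F) := by
    unfold Et Gn
    calc ∑ s : N → Option A, (∑ w, (∏ w' ∈ univ.erase w, wt pr t w' (s w')) *
          dwt pr w (s w)) * F s
        = ∑ s : N → Option A, ∑ w, ((∏ w' ∈ univ.erase w, wt pr t w' (s w')) *
          dwt pr w (s w)) * F s := by simp only [Finset.sum_mul]
      _ = ∑ w, ∑ s : N → Option A, ((∏ w' ∈ univ.erase w, wt pr t w' (s w')) *
          dwt pr w (s w)) * F s := Finset.sum_comm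
      _ = ∑ w, ∑ s : N → Option A, (∏ w, wt pr t w (s w)) *
          (∑ a, pr w a * F (update s w (some a)) - F (update s w none)) :=
          Finset.sum_congr rfl fun w _ => site_id hpr1 t F w
      _ = ∑ s : N → Option A, ∑ w, (∏ w, wt pr t w (s w)) *
          (∑ a, pr w a * F (update s w (some a)) - F (update s w none)) := Finset.sum_comm
      _ = _ := Finset.sum_congr rfl fun s _ => (Finset.mul_sum _ _ _).symm
  rw [← h3]
  exact h2

theorem wt_nonneg (hpr : ∀ w a, 0 ≤ pr w a) {t : ℝ} (ht : 0 ≤ t) (ht1 : t ≤ 1) (w : N)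
    (b : Option A) : 0 ≤ wt pr t w b := by
  cases b with
  | none => simp only [wt]; linarith
  | some a => simp only [wt]; exact mul_nonneg ht (hpr w a)

theorem Et_mono (hpr : ∀ w a, 0 ≤ pr w a) {t : ℝ} (ht : 0 ≤ t) (ht1 : t ≤ 1)
    {F F' : (N → Option A) → ℝ} (h : ∀ s, F s ≤ F' s) : Et pr t F ≤ Et pr t F' := by
  unfold Et
  refine Finset.sum_le_sum fun s _ => mul_le_mul_of_nonneg_left (h s) ?_
  exact Finset.prod_nonneg fun w _ => wt_nonneg hpr ht ht1 w _

theorem Et_one_sum (hpr1 : ∀ w, ∑ a, pr w a = 1) (t : ℝ) :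
    ∑ s : N → Option A, ∏ w, wt pr t w (s w) = 1 := by
  have h := (Finset.prod_univ_sum (fun _ : N => (univ : Finset (Option A)))
    (fun w b => wt pr t w b)).symm
  rw [Fintype.piFinset_univ] at h
  rw [h]
  exact Finset.prod_eq_one fun w _ => wt_sum hpr1 t w

theorem Et_const (hpr1 : ∀ w, ∑ a, pr w a = 1) (t c : ℝ) :
    Et pr t (fun _ => c) = c := by
  unfold Et
  rw [← Finset.sum_mul, Et_one_sum hpr1, one_mul]

theorem Et_lin (t a b : ℝ) (F : (N → Option A) → ℝ) (hpr1 : ∀ w, ∑ a, pr w a = 1) :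
    Et pr t (fun s => a * F s + b) = a * Et pr t F + b := by
  have : Et pr t (fun s => a * F s + b) = a * Et pr t F + Et pr t (fun _ => b) := by
    unfold Et
    rw [Finset.mul_sum, ← Finset.sum_add_distrib]
    exact Finset.sum_congr rfl fun s _ => by ring
  rw [this, Et_const hpr1]

theorem Et_zero (F : (N → Option A) → ℝ) : Et pr 0 F = F nil := by
  unfold Et
  rw [Finset.sum_eq_single nil]
  · have : ∏ w, wt pr 0 w ((nil : N → Option A) w) = 1 := by
      refine Finset.prod_eq_one fun w _ => ?_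
      simp [wt, nil]
    rw [this, one_mul]
  · intro s _ hs
    obtain ⟨w, hw⟩ : ∃ w, s w ≠ none := by
      by_contra hcon
      push Not at hcon
      exact hs (funext hcon)
    have : ∏ w, wt pr 0 w (s w) = 0 := by
      refine Finset.prod_eq_zero (Finset.mem_univ w) ?_
      cases h : s w with
      | none => exact absurd h hw
      | some a => simp [wt]
    rw [this, zero_mul]
  · intro h
    exact absurd (Finset.mem_univ _) h

theorem Et_one (hpr : ∀ w a, 0 ≤ pr w a) {F : (N → Option A) → ℝ} (hF : ∀ s, 0 ≤ F s) :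
    ∑ o : N → A, ANP.wt pr o * F (full o) ≤ Et pr 1 F := by
  unfold Et
  have hinj : Function.Injective (full : (N → A) → N → Option A) := by
    intro o o' h
    funext w
    have := congrFun h w
    simpa [full] using this
  have h1 : ∑ o : N → A, ANP.wt pr o * F (full o) =
      ∑ s ∈ univ.image (full : (N → A) → N → Option A), (∏ w, wt pr 1 w (s w)) * F s := by
    rw [Finset.sum_image fun o _ o' _ h => hinj h]
    refine Finset.sum_congr rfl fun o _ => ?_
    congr 1
    unfold ANP.wt
    refine Finset.prod_congr rfl fun w _ => ?_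
    simp [wt, full]
  rw [h1]
  refine Finset.sum_le_univ_sum_of_nonneg fun s => ?_
  exact mul_nonneg (Finset.prod_nonneg fun w _ => wt_nonneg hpr zero_le_one le_rfl w _) (hF s)

open Pool.Agent.Kin in
theorem th_concave {s0 : ℝ} (hs : 0 < s0) {x y : ℝ} (hx : 0 ≤ x) (hy : 0 ≤ y) :
    th s0 y ≤ th s0 x + th1 s0 x * (y - x) := by
  unfold th th1
  obtain ⟨h1, h2⟩ := pp_mem s0 hs x hx
  obtain ⟨h3, h4⟩ := pp_mem s0 hs y hy
  rcases le_total (3 * s0) x with hx3 | hx3
  · rw [pp_zero s0 hs x hx3]
    have : 0 ≤ max (1 - y / (3 * s0)) 0 ^ 3 := by positivity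
    nlinarith [mul_nonneg hs.le this]
  · have hp : max (1 - x / (3 * s0)) 0 = 1 - x / (3 * s0) := max_eq_left (by
      have : x / (3 * s0) ≤ 1 := by rw [div_le_one (by positivity)]; exact hx3
      linarith)
    rw [hp] at h1 h2 ⊢
    have hx' : x = 3 * s0 * (1 - (1 - x / (3 * s0))) := by field_simp; ring
    set P := 1 - x / (3 * s0) with hP
    have hr : 1 - y / (3 * s0) ≤ max (1 - y / (3 * s0)) 0 := le_max_left _ _
    set R := max (1 - y / (3 * s0)) 0 with hR
    have hy' : 3 * s0 * (P - R) ≤ y - x := by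
      have e1 : 3 * s0 * (1 - y / (3 * s0)) = 3 * s0 - y := by field_simp
      have e2 : 3 * s0 * P = 3 * s0 - x := by rw [hP]; field_simp
      nlinarith [mul_le_mul_of_nonneg_left hr (show (0:ℝ) ≤ 3 * s0 by positivity)]
    have e3 : P ^ 2 * (3 * s0 * (P - R)) ≤ P ^ 2 * (y - x) :=
      mul_le_mul_of_nonneg_left hy' (by positivity)
    have e4 : s0 * (P ^ 3 - R ^ 3) ≤ P ^ 2 * (3 * s0 * (P - R)) := by
      have : 0 ≤ s0 * ((P - R) ^ 2 * (2 * P + R)) := by positivity
      nlinarith
    nlinarith

open Pool.Agent.Kin in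
theorem th_lower {s0 : ℝ} (hs : 0 < s0) {x y : ℝ} (hx : 0 ≤ x) (hy : 0 ≤ y) :
    th s0 x + th1 s0 x * (y - x) - (y - x) ^ 2 / (3 * s0) ≤ th s0 y := by
  unfold th th1
  obtain ⟨h1, h2⟩ := pp_mem s0 hs x hx
  obtain ⟨h3, h4⟩ := pp_mem s0 hs y hy
  have hz : y - x = 3 * s0 * ((1 - x / (3 * s0)) - (1 - y / (3 * s0))) := by field_simp; ring
  have hsq : (y - x) ^ 2 / (3 * s0) = 3 * s0 * ((1 - x / (3 * s0)) - (1 - y / (3 * s0))) ^ 2 := by
    rw [hz]; field_simp
  rw [hsq, hz]
  set p' := 1 - x / (3 * s0) with hp'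
  set r' := 1 - y / (3 * s0) with hr'
  have key : max r' 0 ^ 3 ≤ max p' 0 ^ 3 - 3 * max p' 0 ^ 2 * (p' - r') + 3 * (p' - r') ^ 2 := by
    rcases le_total 0 p' with hp | hp <;> rcases le_total 0 r' with hr | hr
    · rw [max_eq_left hp, max_eq_left hr] at *
      nlinarith [mul_nonneg (sq_nonneg (p' - r')) (show (0:ℝ) ≤ 3 - (2 * p' + r') by linarith)]
    · rw [max_eq_left hp, max_eq_right hr] at *
      have hz : p' ≤ p' - r' := by linarith
      nlinarith [mul_nonneg (sub_nonneg.2 hz) (sub_nonneg.2 hz), mul_nonneg hp (sub_nonneg.2 hz),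
        mul_nonneg hp (mul_nonneg hp hp), mul_nonneg (mul_nonneg hp hp) (sub_nonneg.2 h2),
        mul_nonneg (mul_nonneg hp (sub_nonneg.2 h2)) (sub_nonneg.2 hz)]
    · rw [max_eq_right hp, max_eq_left hr] at *
      have : r' ^ 3 ≤ r' ^ 2 := by nlinarith [mul_nonneg (sq_nonneg r') (sub_nonneg.2 h4)]
      nlinarith [sq_nonneg (p' - r'), mul_nonneg hr (neg_nonneg.2 hp), sq_nonneg p']
    · rw [max_eq_right hp, max_eq_right hr] at *
      nlinarith [sq_nonneg (p' - r')]
  nlinarith [mul_le_mul_of_nonneg_left key hs.le]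

open Pool.Agent.Kin in
/-- THE ENGINE.  `3 s0` is the threshold, estimates are needed where `Γ ≤ 1` -/
theorem engine (hpr : ∀ w a, 0 ≤ pr w a) (hpr1 : ∀ w, ∑ a, pr w a = 1)
    {Γ : (N → Option A) → ℝ} (hΓ : ∀ s, 0 ≤ Γ s) {s0 al be : ℝ} (hs0 : 0 < s0) (hs1 : s0 ≤ 1 / 4)
    (hal : 0 ≤ al) (hbe : 0 ≤ be) (H : ∀ s, Γ s ≤ 1 → ∃ dl, CompAt pr Γ s al be dl)
    (stab : ∀ s, Γ s ≤ 3 * s0 → ∀ w b, Γ (update s w b) ≤ 1) :
    ANP.Pr pr {o | 3 * s0 < Γ (full o)} ≤
      (Γ nil / s0 + 2 * be / s0 ^ 2) * Real.exp (2 * al / s0 ^ 2) := by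
  classical
  set F : (N → Option A) → ℝ := fun s => th s0 (Γ s) with hF
  have hF0 : ∀ s, 0 ≤ F s := fun s => th_nonneg s0 hs0 _ (hΓ s)
  -- generator bound
  have hgen : ∀ s, Gn pr F s ≤ 2 * al / s0 ^ 2 * F s + 2 * be / s0 := by
    intro s
    have hR0 : 0 ≤ 2 * al / s0 ^ 2 * F s + 2 * be / s0 := by
      have := hF0 s
      positivity
    rcases le_or_gt (Γ s) 1 with h1 | h1
    · obtain ⟨dl, l, q, hq, hl, hl2, -, hsum, hqs⟩ := H s h1
      have hth1 := th1_mem s0 hs0 (Γ s) (hΓ s)
      have hterm : ∀ w, (∑ a, pr w a * F (update s w (some a)) - F (update s w none)) ≤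
          th1 s0 (Γ s) * (∑ a, pr w a * l w (some a) - l w none) +
            (2 + 1 / (3 * s0)) * q w := by
        intro w
        have ha : ∀ a, F (update s w (some a)) ≤ F s + th1 s0 (Γ s) * (l w (some a) + q w) := by
          intro a
          have := th_concave hs0 (hΓ s) (hΓ (update s w (some a)))
          have h3 := (abs_le.1 (hl w (some a))).2
          have h4 := mul_le_mul_of_nonneg_left (show Γ (update s w (some a)) - Γ s ≤
            l w (some a) + q w by linarith) hth1.1
          simp only [hF]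
          linarith
        have hn : F s + th1 s0 (Γ s) * (l w none - q w) - q w / (3 * s0) ≤
            F (update s w none) := by
          have := th_lower hs0 (hΓ s) (hΓ (update s w none))
          have h3 := (abs_le.1 (hl w none)).1
          have h4 := mul_le_mul_of_nonneg_left (show l w none - q w ≤
            Γ (update s w none) - Γ s by linarith) hth1.1
          have h5 : (Γ (update s w none) - Γ s) ^ 2 / (3 * s0) ≤ q w / (3 * s0) :=
            div_le_div_of_nonneg_right (hl2 w none) (by positivity)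
          simp only [hF]
          linarith
        have hsumle : ∑ a, pr w a * F (update s w (some a)) ≤
            F s + th1 s0 (Γ s) * (∑ a, pr w a * l w (some a) + q w) := by
          calc ∑ a, pr w a * F (update s w (some a))
              ≤ ∑ a, pr w a * (F s + th1 s0 (Γ s) * (l w (some a) + q w)) :=
                Finset.sum_le_sum fun a _ => mul_le_mul_of_nonneg_left (ha a) (hpr w a)
            _ = (∑ a, pr w a) * (F s + th1 s0 (Γ s) * q w) +
                th1 s0 (Γ s) * ∑ a, pr w a * l w (some a) := by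
                rw [Finset.sum_mul, Finset.mul_sum, ← Finset.sum_add_distrib]
                exact Finset.sum_congr rfl fun a _ => by ring
            _ = _ := by rw [hpr1]; ring
        have hqt : th1 s0 (Γ s) * q w ≤ q w := by
          have := mul_le_mul_of_nonneg_right hth1.2 (hq w)
          linarith
        have e1 : q w / (3 * s0) = 1 / (3 * s0) * q w := by ring
        have e2 : (2 + 1 / (3 * s0)) * q w = 2 * q w + 1 / (3 * s0) * q w := by ring
        rw [e2]
        linarith
      have hS : Gn pr F s ≤ th1 s0 (Γ s) * (∑ w, (∑ a, pr w a * l w (some a) - l w none)) +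
          (2 + 1 / (3 * s0)) * ∑ w, q w := by
        unfold Gn
        rw [Finset.mul_sum, Finset.mul_sum, ← Finset.sum_add_distrib]
        exact Finset.sum_le_sum fun w _ => hterm w
      have hX0 : 0 ≤ al * Γ s + be := by
        have := hΓ s
        positivity
      have hS2 : th1 s0 (Γ s) * (∑ w, (∑ a, pr w a * l w (some a) - l w none)) ≤
          al * Γ s + be := by
        calc _ ≤ th1 s0 (Γ s) * (al * Γ s + be) := mul_le_mul_of_nonneg_left hsum hth1.1
          _ ≤ 1 * (al * Γ s + be) := mul_le_mul_of_nonneg_right hth1.2 hX0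
          _ = _ := one_mul _
      have hS3 : (2 + 1 / (3 * s0)) * ∑ w, q w ≤ (2 + 1 / (3 * s0)) * (al * Γ s + be) :=
        mul_le_mul_of_nonneg_left hqs (by positivity)
      have hS4 : (3 + 1 / (3 * s0)) * (al * Γ s + be) ≤ 2 / s0 * (al * Γ s + be) := by
        refine mul_le_mul_of_nonneg_right ?_ hX0
        rw [show (3 : ℝ) + 1 / (3 * s0) = (9 * s0 + 1) / (3 * s0) by field_simp; ring,
          div_le_div_iff₀ (by positivity) hs0]
        nlinarith
      have hS5 : Γ s ≤ F s / s0 := by
        rw [le_div_iff₀ hs0]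
        rcases le_or_gt (Γ s) (4 * s0) with h4 | h4
        · have := le_four_th s0 hs0 (Γ s) (hΓ s) h4
          simp only [hF]
          nlinarith [hF0 s, mul_le_mul_of_nonneg_left hs1 (hΓ s)]
        · have : th s0 (Γ s) = s0 := th_big s0 hs0 _ (by linarith)
          simp only [hF, this]
          nlinarith
      calc Gn pr F s ≤ (3 + 1 / (3 * s0)) * (al * Γ s + be) := by linarith
        _ ≤ 2 / s0 * (al * Γ s + be) := hS4
        _ ≤ 2 / s0 * (al * (F s / s0) + be) := by
          refine mul_le_mul_of_nonneg_left ?_ (by positivity)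
          linarith [mul_le_mul_of_nonneg_left hS5 hal]
        _ = _ := by field_simp
    · have hbig : ∀ w b, F (update s w b) = s0 := by
        intro w b
        simp only [hF]
        refine th_big s0 hs0 _ ?_
        by_contra hcon
        push Not at hcon
        have := stab (update s w b) hcon.le w (s w)
        rw [update_idem, update_eq_self] at this
        linarith
      have : Gn pr F s = 0 := by
        unfold Gn
        refine Finset.sum_eq_zero fun w _ => ?_
        simp only [hbig, ← Finset.sum_mul, hpr1]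
        ring
      rw [this]
      exact hR0
  -- Gronwall
  set K := 2 * al / s0 ^ 2 with hK
  set R := 2 * be / s0 with hR
  have hK0 : 0 ≤ K := by positivity
  have hR0 : 0 ≤ R := by positivity
  have hanti : AntitoneOn (fun t => Real.exp (-K * t) * Et pr t F - R * t) (Set.Icc 0 1) := by
    refine antitoneOn_of_deriv_nonpos (convex_Icc 0 1) ?_ ?_ ?_
    · refine ContinuousOn.sub (ContinuousOn.mul (by fun_prop) ?_) (by fun_prop)
      exact fun t _ => (hasDerivAt_Et hpr1 F t).continuousAt.continuousWithinAt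
    · intro t _
      exact (((((hasDerivAt_id t).const_mul (-K)).exp).mul (hasDerivAt_Et hpr1 F t)).sub
        ((hasDerivAt_id t).const_mul R)).differentiableAt.differentiableWithinAt
    · intro t ht
      rw [interior_Icc] at ht
      have hd := ((((hasDerivAt_id t).const_mul (-K)).exp).mul (hasDerivAt_Et hpr1 F t)).sub
        ((hasDerivAt_id t).const_mul R)
      have hd2 := hd.deriv
      simp only [id_eq, mul_one] at hd2
      have e0 : deriv (fun t => Real.exp (-K * t) * Et pr t F - R * t) t =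
          Real.exp (-K * t) * -K * Et pr t F + Real.exp (-K * t) * Et pr t (Gn pr F) - R := by
        rw [← hd2]
        rfl
      rw [e0]
      have h1 : Et pr t (Gn pr F) ≤ K * Et pr t F + R := by
        have := Et_mono hpr ht.1.le ht.2.le hgen
        rwa [Et_lin t _ _ F hpr1] at this
      have h2 : Real.exp (-K * t) ≤ 1 := Real.exp_le_one_iff.2 (by nlinarith [ht.1])
      have h3 := mul_le_mul_of_nonneg_left h1 (Real.exp_pos (-K * t)).le
      nlinarith [mul_le_mul_of_nonneg_right h2 hR0]
  have h01 := hanti (Set.left_mem_Icc.2 zero_le_one) (Set.right_mem_Icc.2 zero_le_one) zero_le_one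
  simp only [mul_one, mul_zero, Real.exp_zero, one_mul, sub_zero] at h01
  rw [Et_zero] at h01
  have hE1 : Et pr 1 F ≤ (F nil + R) * Real.exp K := by
    have h2 : Real.exp (-K) * Et pr 1 F ≤ F nil + R := by linarith
    have h3 := mul_le_mul_of_nonneg_left h2 (Real.exp_pos K).le
    rw [← mul_assoc, ← Real.exp_add] at h3
    simp only [add_neg_cancel, Real.exp_zero, one_mul] at h3
    linarith [mul_comm (F nil + R) (Real.exp K)]
  have hP : ANP.Pr pr {o | 3 * s0 < Γ (full o)} * s0 ≤ Et pr 1 F := by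
    refine le_trans ?_ (Et_one hpr hF0)
    unfold ANP.Pr
    rw [Finset.sum_mul]
    refine le_trans (Finset.sum_le_sum (g := fun o => ANP.wt pr o * F (full o)) fun o ho => ?_)
      (Finset.sum_le_univ_sum_of_nonneg fun o => ?_)
    · have ho' : 3 * s0 < Γ (full o) := by simpa using (Finset.mem_filter.1 ho).2
      have : F (full o) = s0 := th_big s0 hs0 _ ho'.le
      rw [this]
    · exact mul_nonneg (Finset.prod_nonneg fun w _ => hpr w _) (hF0 _)
  have hFn : F nil ≤ Γ nil := th_le s0 hs0 _ (hΓ nil)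
  have hfin : ANP.Pr pr {o | 3 * s0 < Γ (full o)} ≤ (F nil + R) * Real.exp K / s0 := by
    rw [le_div_iff₀ hs0]
    exact hP.trans hE1
  refine hfin.trans ?_
  rw [mul_div_right_comm]
  refine mul_le_mul_of_nonneg_right ?_ (Real.exp_pos K).le
  rw [add_div, hR]
  have e1 : F nil / s0 ≤ Γ nil / s0 := div_le_div_of_nonneg_right hFn hs0.le
  have e2 : 2 * be / s0 / s0 = 2 * be / s0 ^ 2 := by field_simp
  rw [e2]
  linarith

omit [Fintype N] [DecidableEq A] in
/-- sum of finitely many components -/
theorem comp_sum [Fintype N] {ι : Type} [Fintype ι]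
    {Γ : ι → (N → Option A) → ℝ} {s : N → Option A} {al : ℝ} {be dl : ι → ℝ}
    (h : ∀ i, CompAt pr (Γ i) s al (be i) (dl i)) :
    CompAt pr (fun s => ∑ i, Γ i s) s (al * (Fintype.card ι + 1))
      ((Fintype.card ι + 1) * ∑ i, be i) (∑ i, dl i) := by
  classical
  choose l q hq hl hl2 hl3 hs1 hs2 using h
  have hc1 : (1 : ℝ) ≤ (Fintype.card ι : ℝ) + 1 := by
    have : (0 : ℝ) ≤ (Fintype.card ι : ℝ) := by positivity
    linarith
  have hX : ∑ i, (al * Γ i s + be i) = al * ∑ i, Γ i s + ∑ i, be i := by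
    rw [Finset.sum_add_distrib, Finset.mul_sum]
  have hq0 : ∀ w, 0 ≤ ∑ i, q i w := fun w => Finset.sum_nonneg fun i _ => hq i w
  have hX0 : 0 ≤ al * ∑ i, Γ i s + ∑ i, be i := by
    rw [← hX]
    refine Finset.sum_nonneg fun i _ => le_trans ?_ (hs2 i)
    exact Finset.sum_nonneg fun w _ => hq i w
  have hdiff : ∀ w b, (∑ i, Γ i (update s w b)) - ∑ i, Γ i s =
      ∑ i, (Γ i (update s w b) - Γ i s) := fun w b => by rw [Finset.sum_sub_distrib]
  refine ⟨fun w b => ∑ i, l i w b, fun w => (Fintype.card ι + 1) * ∑ i, q i w, ?_, ?_, ?_, ?_,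
    ?_, ?_⟩
  · intro w
    have := hq0 w
    positivity
  · intro w b
    have e1 : (∑ i, Γ i (update s w b)) - (∑ i, Γ i s) - ∑ i, l i w b =
        ∑ i, (Γ i (update s w b) - Γ i s - l i w b) := by
      rw [Finset.sum_sub_distrib, Finset.sum_sub_distrib]
    rw [e1]
    refine (Finset.abs_sum_le_sum_abs _ _).trans ((Finset.sum_le_sum fun i _ => hl i w b).trans ?_)
    nlinarith [hq0 w]
  · intro w b
    rw [hdiff]
    have h1 := Finset.sum_mul_sq_le_sq_mul_sq (univ : Finset ι) (fun _ => (1 : ℝ))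
      (fun i => Γ i (update s w b) - Γ i s)
    simp only [one_mul, one_pow, Finset.sum_const, Finset.card_univ, nsmul_eq_mul, mul_one] at h1
    refine h1.trans ?_
    have h2 : ∑ i, (Γ i (update s w b) - Γ i s) ^ 2 ≤ ∑ i, q i w :=
      Finset.sum_le_sum fun i _ => hl2 i w b
    have h3 : (Fintype.card ι : ℝ) * ∑ i, (Γ i (update s w b) - Γ i s) ^ 2 ≤
        (Fintype.card ι : ℝ) * ∑ i, q i w := mul_le_mul_of_nonneg_left h2 (by positivity)
    nlinarith [hq0 w]
  · intro w b
    rw [hdiff]
    exact (Finset.abs_sum_le_sum_abs _ _).trans (Finset.sum_le_sum fun i _ => hl3 i w b)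
  · have e1 : ∑ w, (∑ a, pr w a * ∑ i, l i w (some a) - ∑ i, l i w none) =
        ∑ i, ∑ w, (∑ a, pr w a * l i w (some a) - l i w none) := by
      rw [Finset.sum_comm]
      refine Finset.sum_congr rfl fun w _ => ?_
      rw [Finset.sum_sub_distrib]
      congr 1
      simp only [Finset.mul_sum]
      rw [Finset.sum_comm]
    simp only [] at e1 ⊢
    rw [e1]
    refine (Finset.sum_le_sum fun i _ => hs1 i).trans ?_
    rw [hX]
    have : al * (↑(Fintype.card ι) + 1) * ∑ i, Γ i s + (↑(Fintype.card ι) + 1) * ∑ i, be i =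
        (↑(Fintype.card ι) + 1) * (al * ∑ i, Γ i s + ∑ i, be i) := by ring
    rw [this]
    nlinarith
  · have e1 : ∑ w, (Fintype.card ι + 1 : ℝ) * ∑ i, q i w =
        (Fintype.card ι + 1) * ∑ i, ∑ w, q i w := by
      rw [← Finset.mul_sum, Finset.sum_comm]
    simp only [] at e1 ⊢
    rw [e1]
    have h2 : ∑ i, ∑ w, q i w ≤ al * ∑ i, Γ i s + ∑ i, be i := by
      rw [← hX]
      exact Finset.sum_le_sum fun i _ => hs2 i
    have : al * (↑(Fintype.card ι) + 1) * ∑ i, Γ i s + (↑(Fintype.card ι) + 1) * ∑ i, be i =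
        (↑(Fintype.card ι) + 1) * (al * ∑ i, Γ i s + ∑ i, be i) := by ring
    rw [this]
    exact mul_le_mul_of_nonneg_left h2 (by positivity)

end engine

end Pool.Agent.ANS
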