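import Pool.Agent.ANS.EntFar
import Pool.Agent.ANS.T4.TopB

/-! # ANS ENTFARB: the hypotheses `hfar`, `hfarT` of `frozenB` (Part B; helper18)

From `FarIn` (EntFar): the far rows cost nothing if `qF ≤ aD', aO'` and `|Y| 4 (Lx+1)³ qF ≤ tT'`.
-/

set_option autoImplicit false
set_option linter.unusedSectionVars false

open Finset Function Matrix

noncomputable section

namespace Pool.Agent.ANS

open Pool.Agent.Kin Pool.Agent.APS Pool.Agent.ANL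

variable {T D : Type} [Fintype T] [DecidableEq T]

namespace Stp

variable {P : Stp T D}

namespace FarIn

variable {X Xr N : Finset T} {Bd Lm de : ℝ} (h : P.FarIn X Xr N Bd Lm de)
include h

/-- `hfar` of `frozenB` -/
theorem hfar (hadm : ∀ s, Adm P.H (P.bs s)) {aD aO : ℝ} (hD : qF N.card Bd Lm de ≤ aD)
    (hO : qF N.card Bd Lm de ≤ aO) (hO1 : aO ≤ 1) (s : T → Option D)
    (h1 : ∀ x ∈ Xr, ‖P.G s x x - P.G nil x x‖ ≤ aD / 2) (h2 : P.Ent Xr (aO / 2) s) :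
    (∀ x ∈ X, ‖P.G s x x - P.G nil x x‖ ≤ aD) ∧ P.Ent X aO s := by
  have hq := h.qF_nonneg N.card
  have hE : P.Ent Xr 1 s := fun x hx y hy => (h2 x hx y hy).trans (by linarith)
  have hE' : P.Ent Xr aO s := fun x hx y hy => (h2 x hx y hy).trans (by linarith)
  exact ⟨h.dia_of (hadm s) hE hD fun x hx => (h1 x hx).trans (by linarith),
    h.ent_of' (hadm s) hO1 hO hE'⟩

/-- `hfarT` of `frozenB` -/
theorem hfarT (hadm : ∀ s, Adm P.H (P.bs s)) {ok : T → Option D → Prop} {Y : Finset T}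
    (hY : Y ⊆ X) {Lx : ℝ} (hLx : 0 ≤ Lx) (hx1 : ∀ x ∈ X, ∀ y ∈ Y, ‖P.G nil x y‖ ≤ Lx) {aO tT q : ℝ}
    (hO1 : aO ≤ 1) (hq : qF N.card Bd Lm de ≤ q) (hq1 : q ≤ 1)
    (hT : Y.card * (4 * (Lx + 1) ^ 3 * q) ≤ tT) (s : T → Option D) (h1 : P.Ent X aO s)
    (h2 : ∀ x ∈ Xr, P.Tx (Yo ok Y s) s x ≤ P.Tx Y nil x + tT / 2) :
    ∀ x ∈ X, P.Tx (Yo ok Y s) s x ≤ P.Tx Y nil x + tT := by
  intro x hx
  have hq0 : 0 ≤ q := (h.qF_nonneg _).trans hq
  have ht0 : 0 ≤ tT := le_trans (by positivity) hT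
  by_cases hxr : x ∈ Xr
  · have := h2 x hxr
    linarith
  · have hE : P.Ent Xr 1 s := fun x hx y hy => (h1 x (h.sub hx) y (h.sub hy)).trans hO1
    have e1 : P.Tx (Yo ok Y s) s x ≤ ∑ y ∈ Y, ‖P.G s x y‖ ^ 4 := by
      unfold Tx
      exact Finset.sum_le_sum_of_subset_of_nonneg (Yo_sub ok Y s) fun y _ _ => by positivity
    have e2 := h.far_four (hadm s) hE hx hxr hY hLx (hx1 x hx) hq hq1
    have e3 : P.Tx Y nil x = ∑ y ∈ Y, ‖P.G nil x y‖ ^ 4 := rfl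
    rw [e3]
    linarith

end FarIn

end Stp

end Pool.Agent.ANS
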