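import Pool.Agent.ANL.Base

/-! # ANS FORMABS: the trilinear forms `T_w` (helper12)

`H, b` with `Adm H b`, `η = -Im b ≥ 0`, `G = rsc H b`.
* `ctr`: the contraction `∑ η |G f|² ≤ ∑ |f|²/η` for `f = 0` where `η = 0`.
* `Qp u = (1/2) ∑ η_x |G_xy|² η_y (u_x - u_y)²`, `ev v x = ∑_y η_y |G_xy|² (v_x - v_y)²`,
  `Tf w u v = (1/2) ∑ η_x η_y G_xw G_wy conj G_xy (u_x - u_y)(v_x - v_y)`,
  `al v x w = ∑_y η_y (v_x - v_y) G_wy conj G_xy`.
* `comm`: `‖∑_w ρ_w Tf w u v‖ ≤ 2 ε √(Q u Q v)` for `‖ρ_w‖ ≤ ε η_w`.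
  Proof: `(u_x - u_y)(GρG)_xy = ∑_w [(u_x-u_w) G_xw] ρ_w G_wy + ∑_w G_xw ρ_w [(u_w-u_y) G_wy]`,
  weighted Hilbert-Schmidt norms and `ctr`.
* `Tf_al`: `Tf w u v = ∑_x η_x u_x G_xw al_xw`; `al_zero`: `∑_x η_x G_xw al_xw = 0`.
* `al_row`: `∑_w η_w |al_xw|² ≤ ev v x`; `al_ent`: `|al_xw|² ≤ Im G_ww ev v x`.
* `noise`: the quadratic variation for a family `u^(w) = c + low + high`. -/

set_option autoImplicit false
set_option linter.unusedSectionVars false

open Matrix Finset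

noncomputable section

namespace Pool.Agent.ANS.FA

open Pool.Agent.Kin Pool.Agent.APS Pool.Agent.ANL

variable {ι : Type} [Fintype ι] [DecidableEq ι]

/-- absorption -/
def et (b : ι → ℂ) (x : ι) : ℝ := -(b x).im

/-- the pair form -/
def Qp (H : Matrix ι ι ℂ) (b : ι → ℂ) (u : ι → ℝ) : ℝ :=
  (1 / 2) * ∑ x, ∑ y, et b x * ‖rsc H b x y‖ ^ 2 * et b y * (u x - u y) ^ 2

/-- the local energy -/
def ev (H : Matrix ι ι ℂ) (b : ι → ℂ) (v : ι → ℝ) (x : ι) : ℝ :=
  ∑ y, et b y * ‖rsc H b x y‖ ^ 2 * (v x - v y) ^ 2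

/-- the trilinear form -/
def Tf (H : Matrix ι ι ℂ) (b : ι → ℂ) (w : ι) (u v : ι → ℝ) : ℂ :=
  (1 / 2 : ℂ) * ∑ x, ∑ y, ((et b x * et b y * (u x - u y) * (v x - v y) : ℝ) : ℂ) *
    (rsc H b x w * rsc H b w y * star (rsc H b x y))

/-- the commutator kernel -/
def al (H : Matrix ι ι ℂ) (b : ι → ℂ) (v : ι → ℝ) (x w : ι) : ℂ :=
  ∑ y, ((et b y * (v x - v y) : ℝ) : ℂ) * (rsc H b w y * star (rsc H b x y))

/-- Cauchy-Schwarz with weights -/
theorem cs {κ : Type} (s : Finset κ) {w : κ → ℝ} (hw : ∀ i ∈ s, 0 ≤ w i) (f g : κ → ℂ) :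
    ‖∑ i ∈ s, (w i : ℂ) * (f i * g i)‖ ^ 2 ≤
      (∑ i ∈ s, w i * ‖f i‖ ^ 2) * ∑ i ∈ s, w i * ‖g i‖ ^ 2 := by
  have h1 : ‖∑ i ∈ s, (w i : ℂ) * (f i * g i)‖ ≤ ∑ i ∈ s, (√(w i) * ‖f i‖) * (√(w i) * ‖g i‖) := by
    refine (norm_sum_le _ _).trans (Finset.sum_le_sum fun i hi => le_of_eq ?_)
    have := Real.mul_self_sqrt (hw i hi)
    rw [norm_mul, norm_mul, Complex.norm_real, Real.norm_eq_abs, abs_of_nonneg (hw i hi)]
    calc w i * (‖f i‖ * ‖g i‖) = (√(w i) * √(w i)) * (‖f i‖ * ‖g i‖) := by rw [this]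
      _ = _ := by ring
  have h2 := Finset.sum_mul_sq_le_sq_mul_sq s (fun i => √(w i) * ‖f i‖) (fun i => √(w i) * ‖g i‖)
  have h3 : ∀ k : κ → ℂ, ∑ i ∈ s, (√(w i) * ‖k i‖) ^ 2 = ∑ i ∈ s, w i * ‖k i‖ ^ 2 := by
    intro k
    refine Finset.sum_congr rfl fun i hi => ?_
    rw [mul_pow, Real.sq_sqrt (hw i hi)]
  rw [h3, h3] at h2
  exact (pow_le_pow_left₀ (norm_nonneg _) h1 2).trans h2

variable {H : Matrix ι ι ℂ} {b : ι → ℂ}

theorem et0 (h : Adm H b) (x : ι) : 0 ≤ et b x := by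
  unfold et
  linarith [h.im x]

/-- the contraction -/
theorem ctr (h : Adm H b) (f : ι → ℂ) (hf : ∀ x, et b x = 0 → f x = 0) :
    ∑ x, et b x * ‖∑ y, rsc H b x y * f y‖ ^ 2 ≤ ∑ x, ‖f x‖ ^ 2 / et b x := by
  set v : ι → ℂ := rsc H b *ᵥ f with hv
  have hv1 : ∀ x, ∑ y, rsc H b x y * f y = v x := fun x => rfl
  simp only [hv1]
  have h1 : (H + diagonal b) *ᵥ v = f := src_res h f
  have h2 := form_im h.sym b v
  rw [h1] at h2
  have h3 : ∑ x, et b x * ‖v x‖ ^ 2 ≤ ∑ x, ‖v x‖ * ‖f x‖ := by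
    have h4 : ∑ x, et b x * ‖v x‖ ^ 2 = -(∑ x, (starRingEnd ℂ) (v x) * f x).im := by
      rw [h2, ← Finset.sum_neg_distrib]
      refine Finset.sum_congr rfl fun x _ => ?_
      unfold et
      ring
    rw [h4]
    refine ((neg_le_abs _).trans (Complex.abs_im_le_norm _)).trans ?_
    refine (norm_sum_le _ _).trans (Finset.sum_le_sum fun x _ => ?_)
    rw [norm_mul, Complex.norm_conj]
  have h4 : ∑ x, ‖v x‖ * ‖f x‖ ≤ ∑ x, (et b x * ‖v x‖ ^ 2 + ‖f x‖ ^ 2 / et b x) / 2 := by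
    refine Finset.sum_le_sum fun x _ => ?_
    rcases eq_or_lt_of_le (et0 h x) with he | he
    · rw [hf x he.symm, ← he]
      simp
    · have h5 : ‖f x‖ ^ 2 / et b x = et b x * (‖f x‖ / et b x) ^ 2 := by
        field_simp
      have h6 : ‖v x‖ * ‖f x‖ = et b x * (‖v x‖ * (‖f x‖ / et b x)) := by
        field_simp
      rw [h5, h6]
      nlinarith [mul_nonneg he.le (sq_nonneg (‖v x‖ - ‖f x‖ / et b x))]
  rw [← Finset.sum_div, Finset.sum_add_distrib] at h4
  linarith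

/-- the contraction for `f y = η_y^{...}`: row form -/
theorem ctr_row (h : Adm H b) (f : ι → ℂ) {q : ι → ℝ} (hq : ∀ y, ‖f y‖ ^ 2 ≤ et b y ^ 2 * q y) :
    ∑ x, et b x * ‖∑ y, rsc H b x y * f y‖ ^ 2 ≤ ∑ y, et b y * q y := by
  refine (ctr h f fun x hx => ?_).trans (Finset.sum_le_sum fun y _ => ?_)
  · have h1 := hq x
    rw [hx] at h1
    have h2 : ‖f x‖ ^ 2 ≤ 0 := by
      simpa using h1
    exact norm_eq_zero.1 (pow_eq_zero_iff (by norm_num) |>.1 (le_antisymm h2 (sq_nonneg _)))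
  · rcases eq_or_lt_of_le (et0 h y) with he | he
    · rw [← he]
      simp
    · rw [div_le_iff₀ he]
      have := hq y
      nlinarith

theorem Qp_ev (_ : Adm H b) (v : ι → ℝ) : ∑ x, et b x * ev H b v x = 2 * Qp H b v := by
  unfold Qp ev
  rw [← mul_assoc]
  norm_num
  refine Finset.sum_congr rfl fun x _ => ?_
  rw [Finset.mul_sum]
  refine Finset.sum_congr rfl fun y _ => ?_
  ring

theorem Qp_nonneg (h : Adm H b) (v : ι → ℝ) : 0 ≤ Qp H b v := by
  unfold Qp
  have : 0 ≤ ∑ x, ∑ y, et b x * ‖rsc H b x y‖ ^ 2 * et b y * (v x - v y) ^ 2 :=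
    Finset.sum_nonneg fun x _ => Finset.sum_nonneg fun y _ =>
      mul_nonneg (mul_nonneg (mul_nonneg (et0 h x) (sq_nonneg _)) (et0 h y)) (sq_nonneg _)
  linarith

theorem ev_nonneg (h : Adm H b) (v : ι → ℝ) (x : ι) : 0 ≤ ev H b v x :=
  Finset.sum_nonneg fun y _ => mul_nonneg (mul_nonneg (et0 h y) (sq_nonneg _)) (sq_nonneg _)

/-- the half of the commutator bound -/
private lemma half (h : Adm H b) {rho : ι → ℂ} {ep : ℝ} (hr : ∀ w, ‖rho w‖ ≤ ep * et b w)
    (u : ι → ℝ) :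
    ∑ x, ∑ y, et b x * et b y *
      ‖∑ w, ((u x - u w : ℝ) : ℂ) * rsc H b x w * rho w * rsc H b w y‖ ^ 2 ≤
      ep ^ 2 * (2 * Qp H b u) := by
  have h1 : ∀ x, ∑ y, et b y *
      ‖∑ w, ((u x - u w : ℝ) : ℂ) * rsc H b x w * rho w * rsc H b w y‖ ^ 2 ≤
      ep ^ 2 * ev H b u x := by
    intro x
    have h2 := ctr_row h (fun w => ((u x - u w : ℝ) : ℂ) * rsc H b x w * rho w)
      (q := fun w => ep ^ 2 * (‖rsc H b x w‖ ^ 2 * (u x - u w) ^ 2)) (by
        intro w
        rw [norm_mul, norm_mul, Complex.norm_real, Real.norm_eq_abs, mul_pow, mul_pow, sq_abs]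
        have h3 : ‖rho w‖ ^ 2 ≤ (ep * et b w) ^ 2 := pow_le_pow_left₀ (norm_nonneg _) (hr w) 2
        calc (u x - u w) ^ 2 * ‖rsc H b x w‖ ^ 2 * ‖rho w‖ ^ 2 ≤
              (u x - u w) ^ 2 * ‖rsc H b x w‖ ^ 2 * (ep * et b w) ^ 2 :=
              mul_le_mul_of_nonneg_left h3 (by positivity)
          _ = _ := by ring)
    have h4 : ∀ y, ∑ w, ((u x - u w : ℝ) : ℂ) * rsc H b x w * rho w * rsc H b w y =
        ∑ w, rsc H b y w * (((u x - u w : ℝ) : ℂ) * rsc H b x w * rho w) := by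
      intro y
      refine Finset.sum_congr rfl fun w _ => ?_
      rw [adm_symm h w y]
      ring
    simp only [h4]
    refine h2.trans (le_of_eq ?_)
    unfold ev
    rw [Finset.mul_sum]
    refine Finset.sum_congr rfl fun w _ => ?_
    ring
  have h5 : ∑ x, ∑ y, et b x * et b y *
      ‖∑ w, ((u x - u w : ℝ) : ℂ) * rsc H b x w * rho w * rsc H b w y‖ ^ 2 =
      ∑ x, et b x * ∑ y, et b y *
      ‖∑ w, ((u x - u w : ℝ) : ℂ) * rsc H b x w * rho w * rsc H b w y‖ ^ 2 := by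
    refine Finset.sum_congr rfl fun x _ => ?_
    rw [Finset.mul_sum]
    refine Finset.sum_congr rfl fun y _ => ?_
    ring
  rw [h5]
  calc _ ≤ ∑ x, et b x * (ep ^ 2 * ev H b u x) :=
        Finset.sum_le_sum fun x _ => mul_le_mul_of_nonneg_left (h1 x) (et0 h x)
    _ = ep ^ 2 * ∑ x, et b x * ev H b u x := by
        rw [Finset.mul_sum]
        refine Finset.sum_congr rfl fun x _ => ?_
        ring
    _ = _ := by rw [Qp_ev h]

/-- double Cauchy-Schwarz against `conj G_xy (v_x - v_y)` -/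
private lemma dcs (h : Adm H b) (A : ι → ι → ℂ) (v : ι → ℝ) :
    ‖∑ x, ∑ y, ((et b x * et b y : ℝ) : ℂ) * (A x y * (((v x - v y : ℝ) : ℂ) *
      star (rsc H b x y)))‖ ^ 2 ≤
      (∑ x, ∑ y, et b x * et b y * ‖A x y‖ ^ 2) * (2 * Qp H b v) := by
  have h1 := cs (Finset.univ : Finset (ι × ι)) (w := fun p => et b p.1 * et b p.2)
    (fun p _ => mul_nonneg (et0 h _) (et0 h _)) (fun p => A p.1 p.2)
    (fun p => ((v p.1 - v p.2 : ℝ) : ℂ) * star (rsc H b p.1 p.2))
  rw [← Finset.univ_product_univ, Finset.sum_product, Finset.sum_product, Finset.sum_product] at h1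
  refine h1.trans (le_of_eq ?_)
  congr 1
  unfold Qp
  rw [← mul_assoc]
  norm_num
  refine Finset.sum_congr rfl fun x _ => Finset.sum_congr rfl fun y _ => ?_
  rw [← Complex.ofReal_sub, Complex.norm_real, Real.norm_eq_abs, mul_pow, sq_abs]
  ring

/-- THE COMMUTATOR BOUND -/
theorem comm (h : Adm H b) {rho : ι → ℂ} {ep : ℝ} (hep : 0 ≤ ep)
    (hr : ∀ w, ‖rho w‖ ≤ ep * et b w) (u v : ι → ℝ) :
    ‖∑ w, rho w * Tf H b w u v‖ ≤ 2 * ep * √(Qp H b u * Qp H b v) := by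
  set A : ι → ι → ℂ := fun x y =>
    ∑ w, ((u x - u w : ℝ) : ℂ) * rsc H b x w * rho w * rsc H b w y with hA
  set B : ι → ι → ℂ := fun x y =>
    ∑ w, ((u w - u y : ℝ) : ℂ) * rsc H b x w * rho w * rsc H b w y with hB
  have hBA : ∀ x y, B x y = -A y x := by
    intro x y
    simp only [hA, hB]
    rw [← Finset.sum_neg_distrib]
    refine Finset.sum_congr rfl fun w _ => ?_
    rw [adm_symm h x w, adm_symm h w y]
    push_cast
    ring
  have h1 : ∑ w, rho w * Tf H b w u v = (1 / 2 : ℂ) *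
      ((∑ x, ∑ y, ((et b x * et b y : ℝ) : ℂ) * (A x y * (((v x - v y : ℝ) : ℂ) *
        star (rsc H b x y)))) +
      ∑ x, ∑ y, ((et b x * et b y : ℝ) : ℂ) * (B x y * (((v x - v y : ℝ) : ℂ) *
        star (rsc H b x y)))) := by
    have e1 : ∑ w, rho w * Tf H b w u v = (1 / 2 : ℂ) * ∑ x, ∑ y, ∑ w, rho w *
        (((et b x * et b y * (u x - u y) * (v x - v y) : ℝ) : ℂ) *
        (rsc H b x w * rsc H b w y * star (rsc H b x y))) := by
      unfold Tf
      rw [Finset.mul_sum]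
      have e2 : ∀ w, rho w * ((1 / 2 : ℂ) * ∑ x, ∑ y,
          ((et b x * et b y * (u x - u y) * (v x - v y) : ℝ) : ℂ) *
          (rsc H b x w * rsc H b w y * star (rsc H b x y))) =
          ∑ x, (1 / 2 : ℂ) * ∑ y, rho w *
          (((et b x * et b y * (u x - u y) * (v x - v y) : ℝ) : ℂ) *
          (rsc H b x w * rsc H b w y * star (rsc H b x y))) := by
        intro w
        rw [Finset.mul_sum, Finset.mul_sum]
        refine Finset.sum_congr rfl fun x _ => ?_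
        rw [Finset.mul_sum, Finset.mul_sum, Finset.mul_sum]
        refine Finset.sum_congr rfl fun y _ => ?_
        ring
      rw [Finset.sum_congr rfl fun w _ => e2 w, Finset.sum_comm]
      refine Finset.sum_congr rfl fun x _ => ?_
      rw [← Finset.mul_sum, Finset.sum_comm]
    rw [e1]
    congr 1
    rw [← Finset.sum_add_distrib]
    refine Finset.sum_congr rfl fun x _ => ?_
    rw [← Finset.sum_add_distrib]
    refine Finset.sum_congr rfl fun y _ => ?_
    rw [← mul_add, ← add_mul]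
    have e3 : A x y + B x y = ∑ w, ((u x - u y : ℝ) : ℂ) * (rsc H b x w * rho w * rsc H b w y) := by
      simp only [hA, hB]
      rw [← Finset.sum_add_distrib]
      refine Finset.sum_congr rfl fun w _ => ?_
      push_cast
      ring
    rw [e3, Finset.sum_mul, Finset.mul_sum]
    refine Finset.sum_congr rfl fun w _ => ?_
    push_cast
    ring
  have hq := Qp_nonneg h u
  have hq' := Qp_nonneg h v
  have h2 := half h hr u
  have h3 : ‖∑ x, ∑ y, ((et b x * et b y : ℝ) : ℂ) * (A x y * (((v x - v y : ℝ) : ℂ) *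
        star (rsc H b x y)))‖ ≤ 2 * ep * √(Qp H b u * Qp H b v) := by
    have e1 := dcs h A v
    have e2 : (2 * ep * √(Qp H b u * Qp H b v)) ^ 2 =
        (ep ^ 2 * (2 * Qp H b u)) * (2 * Qp H b v) := by
      rw [mul_pow, Real.sq_sqrt (mul_nonneg hq hq')]
      ring
    refine (abs_le_of_sq_le_sq' ?_ (by positivity)).2
    rw [e2]
    exact e1.trans (mul_le_mul_of_nonneg_right h2 (by linarith))
  have h4 : ‖∑ x, ∑ y, ((et b x * et b y : ℝ) : ℂ) * (B x y * (((v x - v y : ℝ) : ℂ) *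
        star (rsc H b x y)))‖ ≤ 2 * ep * √(Qp H b u * Qp H b v) := by
    have e1 := dcs h B v
    have e3 : ∑ x, ∑ y, et b x * et b y * ‖B x y‖ ^ 2 =
        ∑ x, ∑ y, et b x * et b y * ‖A x y‖ ^ 2 := by
      rw [Finset.sum_comm]
      refine Finset.sum_congr rfl fun x _ => Finset.sum_congr rfl fun y _ => ?_
      rw [hBA, norm_neg]
      ring
    rw [e3] at e1
    have e2 : (2 * ep * √(Qp H b u * Qp H b v)) ^ 2 =
        (ep ^ 2 * (2 * Qp H b u)) * (2 * Qp H b v) := by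
      rw [mul_pow, Real.sq_sqrt (mul_nonneg hq hq')]
      ring
    refine (abs_le_of_sq_le_sq' ?_ (by positivity)).2
    rw [e2]
    exact e1.trans (mul_le_mul_of_nonneg_right h2 (by linarith))
  rw [h1, norm_mul]
  have h5 := norm_add_le
    (∑ x, ∑ y, ((et b x * et b y : ℝ) : ℂ) * (A x y * (((v x - v y : ℝ) : ℂ) *
        star (rsc H b x y))))
    (∑ x, ∑ y, ((et b x * et b y : ℝ) : ℂ) * (B x y * (((v x - v y : ℝ) : ℂ) *
        star (rsc H b x y))))
  have h6 : ‖(1 / 2 : ℂ)‖ = 1 / 2 := by norm_num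
  rw [h6]
  linarith

/-- `T_w` through the commutator kernel -/
theorem Tf_al (h : Adm H b) (w : ι) (u v : ι → ℝ) :
    Tf H b w u v = ∑ x, ((et b x * u x : ℝ) : ℂ) * (rsc H b x w * al H b v x w) := by
  set z : ι → ι → ℂ := fun x y => ((et b x * et b y * (v x - v y) : ℝ) : ℂ) *
    (rsc H b x w * rsc H b w y * star (rsc H b x y)) with hz
  have hzs : ∀ x y, z x y = -z y x := by
    intro x y
    simp only [hz]
    rw [adm_symm h y w, adm_symm h w x, adm_symm h y x]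
    push_cast
    ring
  have h1 : Tf H b w u v = (1 / 2 : ℂ) * ((∑ x, ∑ y, (u x : ℂ) * z x y) -
      ∑ x, ∑ y, (u y : ℂ) * z x y) := by
    unfold Tf
    congr 1
    rw [← Finset.sum_sub_distrib]
    refine Finset.sum_congr rfl fun x _ => ?_
    rw [← Finset.sum_sub_distrib]
    refine Finset.sum_congr rfl fun y _ => ?_
    simp only [hz]
    push_cast
    ring
  have h2 : ∑ x, ∑ y, (u y : ℂ) * z x y = -∑ x, ∑ y, (u x : ℂ) * z x y := by
    rw [Finset.sum_comm, ← Finset.sum_neg_distrib]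
    refine Finset.sum_congr rfl fun y _ => ?_
    rw [← Finset.sum_neg_distrib]
    refine Finset.sum_congr rfl fun x _ => ?_
    rw [hzs x y]
    ring
  rw [h1, h2, sub_neg_eq_add, ← two_mul, ← mul_assoc]
  norm_num
  refine Finset.sum_congr rfl fun x _ => ?_
  unfold al
  rw [Finset.mul_sum, Finset.mul_sum]
  refine Finset.sum_congr rfl fun y _ => ?_
  simp only [hz]
  push_cast
  simp only [RCLike.star_def]
  ring

/-- the cancellation -/
theorem al_zero (h : Adm H b) (w : ι) (v : ι → ℝ) :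
    ∑ x, ((et b x : ℝ) : ℂ) * (rsc H b x w * al H b v x w) = 0 := by
  have h1 := Tf_al h w (fun _ => 1) v
  have h2 : Tf H b w (fun _ => 1) v = 0 := by
    unfold Tf
    simp
  rw [h2] at h1
  rw [h1]
  refine Finset.sum_congr rfl fun x _ => ?_
  rw [mul_one]

theorem al_row (h : Adm H b) (v : ι → ℝ) (x : ι) :
    ∑ w, et b w * ‖al H b v x w‖ ^ 2 ≤ ev H b v x := by
  have h1 := ctr_row h (fun y => ((et b y * (v x - v y) : ℝ) : ℂ) * star (rsc H b x y))
    (q := fun y => ‖rsc H b x y‖ ^ 2 * (v x - v y) ^ 2) (by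
      intro y
      rw [norm_mul, norm_star, Complex.norm_real, Real.norm_eq_abs, mul_pow, sq_abs]
      refine le_of_eq ?_
      ring)
  have h2 : ∀ w, ∑ y, rsc H b w y * (((et b y * (v x - v y) : ℝ) : ℂ) * star (rsc H b x y)) =
      al H b v x w := by
    intro w
    unfold al
    refine Finset.sum_congr rfl fun y _ => ?_
    ring
  simp only [h2] at h1
  refine h1.trans (le_of_eq ?_)
  unfold ev
  refine Finset.sum_congr rfl fun y _ => ?_
  ring

theorem al_ent (h : Adm H b) (v : ι → ℝ) (x w : ι) :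
    ‖al H b v x w‖ ^ 2 ≤ (rsc H b w w).im * ev H b v x := by
  have h1 := cs (Finset.univ : Finset ι) (w := et b) (fun y _ => et0 h y) (fun y => rsc H b w y)
    (fun y => ((v x - v y : ℝ) : ℂ) * star (rsc H b x y))
  have h2 : ∑ y, (et b y : ℂ) * (rsc H b w y * (((v x - v y : ℝ) : ℂ) * star (rsc H b x y))) =
      al H b v x w := by
    unfold al
    refine Finset.sum_congr rfl fun y _ => ?_
    push_cast
    ring
  have h3 : ∑ y, et b y * ‖((v x - v y : ℝ) : ℂ) * star (rsc H b x y)‖ ^ 2 = ev H b v x := by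
    unfold ev
    refine Finset.sum_congr rfl fun y _ => ?_
    rw [norm_mul, norm_star, Complex.norm_real, Real.norm_eq_abs, mul_pow, sq_abs]
    ring
  have h4 : ∑ y, et b y * ‖rsc H b w y‖ ^ 2 = (rsc H b w w).im := (ward h w).symm
  rw [h2, h3, h4] at h1
  exact h1

/-- THE NOISE: `∑_w β_w² |T_w(u^(w), v)|² ≤ 4 (K l² + h √(K τ)) Q(v)` for families
`u^(w) = c + low + high` (on the sites with `η ≠ 0`), `|low| ≤ l`, `∑ η high² ≤ h`;
`β_w² Im G_ww ≤ K η_w`, `∑_w β_w² |G_xw|⁴ ≤ τ`. -/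
theorem noise (h : Adm H b) {be : ι → ℝ} {K tau l hh : ℝ} (hK : 0 ≤ K) (htau : 0 ≤ tau)
    (hh0 : 0 ≤ hh)
    (hbe : ∀ w, be w ^ 2 * (rsc H b w w).im ≤ K * et b w)
    (ht : ∀ x, et b x ≠ 0 → ∑ w, be w ^ 2 * ‖rsc H b x w‖ ^ 4 ≤ tau)
    (u : ι → ι → ℝ) (c : ι → ℝ) (lo hi : ι → ι → ℝ)
    (hu : ∀ w x, et b x ≠ 0 → u w x = c w + lo w x + hi w x)
    (hlo : ∀ w x, et b x ≠ 0 → |lo w x| ≤ l)
    (hhi : ∀ w, ∑ x, et b x * hi w x ^ 2 ≤ hh) (v : ι → ℝ) :
    ∑ w, be w ^ 2 * ‖Tf H b w (u w) v‖ ^ 2 ≤ 4 * (K * l ^ 2 + hh * √(K * tau)) * Qp H b v := by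
  have hq := Qp_nonneg h v
  -- split
  have h1 : ∀ w, Tf H b w (u w) v =
      ∑ x, ((et b x * lo w x : ℝ) : ℂ) * (rsc H b x w * al H b v x w) +
      ∑ x, ((et b x * hi w x : ℝ) : ℂ) * (rsc H b x w * al H b v x w) := by
    intro w
    rw [Tf_al h]
    have e1 : ∑ x, ((et b x * u w x : ℝ) : ℂ) * (rsc H b x w * al H b v x w) =
        (c w : ℂ) * (∑ x, ((et b x : ℝ) : ℂ) * (rsc H b x w * al H b v x w)) +
        ((∑ x, ((et b x * lo w x : ℝ) : ℂ) * (rsc H b x w * al H b v x w)) +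
        ∑ x, ((et b x * hi w x : ℝ) : ℂ) * (rsc H b x w * al H b v x w)) := by
      rw [Finset.mul_sum, ← Finset.sum_add_distrib, ← Finset.sum_add_distrib]
      refine Finset.sum_congr rfl fun x _ => ?_
      by_cases hx : et b x = 0
      · rw [hx]
        simp
      · rw [hu w x hx]
        push_cast
        ring
    rw [e1, al_zero h, mul_zero, zero_add]
  -- low part
  have h2 : ∀ w, ‖∑ x, ((et b x * lo w x : ℝ) : ℂ) * (rsc H b x w * al H b v x w)‖ ^ 2 ≤
      l ^ 2 * ((rsc H b w w).im * ∑ x, et b x * ‖al H b v x w‖ ^ 2) := by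
    intro w
    have e1 := cs (Finset.univ : Finset ι) (w := et b) (fun y _ => et0 h y)
      (fun x => rsc H b x w) (fun x => (lo w x : ℂ) * al H b v x w)
    have e2 : ∑ x, (et b x : ℂ) * (rsc H b x w * ((lo w x : ℂ) * al H b v x w)) =
        ∑ x, ((et b x * lo w x : ℝ) : ℂ) * (rsc H b x w * al H b v x w) := by
      refine Finset.sum_congr rfl fun x _ => ?_
      push_cast
      ring
    have e3 : ∑ x, et b x * ‖rsc H b x w‖ ^ 2 = (rsc H b w w).im := by
      rw [ward h w]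
      refine Finset.sum_congr rfl fun x _ => ?_
      rw [adm_symm h x w]
      rfl
    have e4 : ∑ x, et b x * ‖(lo w x : ℂ) * al H b v x w‖ ^ 2 ≤
        l ^ 2 * ∑ x, et b x * ‖al H b v x w‖ ^ 2 := by
      rw [Finset.mul_sum]
      refine Finset.sum_le_sum fun x _ => ?_
      by_cases hx : et b x = 0
      · rw [hx]
        simp
      · rw [norm_mul, Complex.norm_real, Real.norm_eq_abs, mul_pow]
        have e5 : |lo w x| ^ 2 ≤ l ^ 2 := pow_le_pow_left₀ (abs_nonneg _) (hlo w x hx) 2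
        have e6 := mul_le_mul_of_nonneg_right e5
          (mul_nonneg (et0 h x) (sq_nonneg ‖al H b v x w‖))
        linarith
    rw [e2, e3] at e1
    refine e1.trans ?_
    have e7 := mul_le_mul_of_nonneg_left e4 (ward_nonneg h w)
    linarith
  have h3 : ∑ w, be w ^ 2 *
      ‖∑ x, ((et b x * lo w x : ℝ) : ℂ) * (rsc H b x w * al H b v x w)‖ ^ 2 ≤
      K * l ^ 2 * (2 * Qp H b v) := by
    calc _ ≤ ∑ w, K * l ^ 2 * (et b w * ∑ x, et b x * ‖al H b v x w‖ ^ 2) := by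
          refine Finset.sum_le_sum fun w _ => ?_
          have e1 := mul_le_mul_of_nonneg_left (h2 w) (sq_nonneg (be w))
          have e2 : 0 ≤ ∑ x, et b x * ‖al H b v x w‖ ^ 2 :=
            Finset.sum_nonneg fun x _ => mul_nonneg (et0 h x) (sq_nonneg _)
          have e3 := mul_le_mul_of_nonneg_right (hbe w) (mul_nonneg (sq_nonneg l) e2)
          refine e1.trans (le_trans (le_of_eq ?_) (e3.trans (le_of_eq ?_))) <;> ring
      _ = K * l ^ 2 * ∑ x, et b x * ∑ w, et b w * ‖al H b v x w‖ ^ 2 := by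
          rw [← Finset.mul_sum]
          congr 1
          have e1 : ∀ w, et b w * ∑ x, et b x * ‖al H b v x w‖ ^ 2 =
              ∑ x, et b w * (et b x * ‖al H b v x w‖ ^ 2) := fun w => by rw [Finset.mul_sum]
          rw [Finset.sum_congr rfl fun w _ => e1 w, Finset.sum_comm]
          refine Finset.sum_congr rfl fun x _ => ?_
          rw [Finset.mul_sum]
          refine Finset.sum_congr rfl fun w _ => ?_
          ring
      _ ≤ K * l ^ 2 * ∑ x, et b x * ev H b v x := by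
          refine mul_le_mul_of_nonneg_left ?_ (by positivity)
          exact Finset.sum_le_sum fun x _ => mul_le_mul_of_nonneg_left (al_row h v x) (et0 h x)
      _ = _ := by rw [Qp_ev h]
  -- high part
  have h4 : ∀ w, ‖∑ x, ((et b x * hi w x : ℝ) : ℂ) * (rsc H b x w * al H b v x w)‖ ^ 2 ≤
      hh * ∑ x, et b x * (‖rsc H b x w‖ ^ 2 * ‖al H b v x w‖ ^ 2) := by
    intro w
    have e1 := cs (Finset.univ : Finset ι) (w := et b) (fun y _ => et0 h y)
      (fun x => (hi w x : ℂ)) (fun x => rsc H b x w * al H b v x w)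
    have e2 : ∑ x, (et b x : ℂ) * ((hi w x : ℂ) * (rsc H b x w * al H b v x w)) =
        ∑ x, ((et b x * hi w x : ℝ) : ℂ) * (rsc H b x w * al H b v x w) := by
      refine Finset.sum_congr rfl fun x _ => ?_
      push_cast
      ring
    have e3 : ∑ x, et b x * ‖(hi w x : ℂ)‖ ^ 2 ≤ hh := by
      refine le_trans (le_of_eq ?_) (hhi w)
      refine Finset.sum_congr rfl fun x _ => ?_
      rw [Complex.norm_real, Real.norm_eq_abs, sq_abs]
    have e4 : ∑ x, et b x * ‖rsc H b x w * al H b v x w‖ ^ 2 =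
        ∑ x, et b x * (‖rsc H b x w‖ ^ 2 * ‖al H b v x w‖ ^ 2) := by
      refine Finset.sum_congr rfl fun x _ => ?_
      rw [norm_mul, mul_pow]
    rw [e2, e4] at e1
    refine e1.trans (mul_le_mul_of_nonneg_right e3 ?_)
    exact Finset.sum_nonneg fun x _ => mul_nonneg (et0 h x) (by positivity)
  have h5 : ∀ x, et b x ≠ 0 →
      ∑ w, be w ^ 2 * (‖rsc H b x w‖ ^ 2 * ‖al H b v x w‖ ^ 2) ≤ √(K * tau) * ev H b v x := by
    intro x hx
    have hev := ev_nonneg h v x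
    have e1 : (∑ w, be w ^ 2 * (‖rsc H b x w‖ ^ 2 * ‖al H b v x w‖ ^ 2)) ^ 2 ≤
        (∑ w, be w ^ 2 * ‖rsc H b x w‖ ^ 4) * ∑ w, be w ^ 2 * ‖al H b v x w‖ ^ 4 := by
      have f1 := Finset.sum_mul_sq_le_sq_mul_sq (Finset.univ : Finset ι)
        (fun w => be w * ‖rsc H b x w‖ ^ 2) (fun w => be w * ‖al H b v x w‖ ^ 2)
      refine le_trans (le_of_eq ?_) (f1.trans (le_of_eq ?_))
      · congr 1
        refine Finset.sum_congr rfl fun w _ => ?_
        ring
      · congr 1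
        · refine Finset.sum_congr rfl fun w _ => ?_
          ring
        · refine Finset.sum_congr rfl fun w _ => ?_
          ring
    have e2 : ∑ w, be w ^ 2 * ‖al H b v x w‖ ^ 4 ≤ K * ev H b v x ^ 2 := by
      calc _ ≤ ∑ w, K * ev H b v x * (et b w * ‖al H b v x w‖ ^ 2) := by
            refine Finset.sum_le_sum fun w _ => ?_
            have f1 := al_ent h v x w
            have f2 : be w ^ 2 * ‖al H b v x w‖ ^ 4 =
                be w ^ 2 * ‖al H b v x w‖ ^ 2 * ‖al H b v x w‖ ^ 2 := by ring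
            have f3 : be w ^ 2 * ‖al H b v x w‖ ^ 2 ≤
                be w ^ 2 * ((rsc H b w w).im * ev H b v x) :=
              mul_le_mul_of_nonneg_left f1 (sq_nonneg _)
            have f4 : be w ^ 2 * ((rsc H b w w).im * ev H b v x) ≤ K * et b w * ev H b v x := by
              have := mul_le_mul_of_nonneg_right (hbe w) hev
              linarith
            rw [f2]
            calc _ ≤ (K * et b w * ev H b v x) * ‖al H b v x w‖ ^ 2 :=
                  mul_le_mul_of_nonneg_right (f3.trans f4) (sq_nonneg _)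
              _ = _ := by ring
        _ = K * ev H b v x * ∑ w, et b w * ‖al H b v x w‖ ^ 2 := by rw [Finset.mul_sum]
        _ ≤ K * ev H b v x * ev H b v x :=
            mul_le_mul_of_nonneg_left (al_row h v x) (mul_nonneg hK hev)
        _ = _ := by ring
    have e3 : (∑ w, be w ^ 2 * (‖rsc H b x w‖ ^ 2 * ‖al H b v x w‖ ^ 2)) ^ 2 ≤
        (√(K * tau) * ev H b v x) ^ 2 := by
      rw [mul_pow, Real.sq_sqrt (mul_nonneg hK htau)]
      refine e1.trans ?_
      calc _ ≤ tau * (K * ev H b v x ^ 2) := by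
            refine mul_le_mul (ht x hx) e2 ?_ htau
            exact Finset.sum_nonneg fun w _ => by positivity
        _ = _ := by ring
    exact (abs_le_of_sq_le_sq' e3 (mul_nonneg (Real.sqrt_nonneg _) hev)).2
  have h6 : ∑ w, be w ^ 2 *
      ‖∑ x, ((et b x * hi w x : ℝ) : ℂ) * (rsc H b x w * al H b v x w)‖ ^ 2 ≤
      hh * √(K * tau) * (2 * Qp H b v) := by
    calc _ ≤ ∑ w, be w ^ 2 * (hh * ∑ x, et b x * (‖rsc H b x w‖ ^ 2 * ‖al H b v x w‖ ^ 2)) :=
          Finset.sum_le_sum fun w _ => mul_le_mul_of_nonneg_left (h4 w) (sq_nonneg _)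
      _ = hh * ∑ x, et b x * ∑ w, be w ^ 2 * (‖rsc H b x w‖ ^ 2 * ‖al H b v x w‖ ^ 2) := by
          have e1 : ∀ w, be w ^ 2 * (hh * ∑ x, et b x * (‖rsc H b x w‖ ^ 2 *
              ‖al H b v x w‖ ^ 2)) = ∑ x, hh * (et b x * (be w ^ 2 * (‖rsc H b x w‖ ^ 2 *
              ‖al H b v x w‖ ^ 2))) := by
            intro w
            rw [Finset.mul_sum, Finset.mul_sum]
            refine Finset.sum_congr rfl fun x _ => ?_
            ring
          rw [Finset.sum_congr rfl fun w _ => e1 w, Finset.sum_comm, Finset.mul_sum]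
          refine Finset.sum_congr rfl fun x _ => ?_
          rw [← Finset.mul_sum, ← Finset.mul_sum]
      _ ≤ hh * ∑ x, et b x * (√(K * tau) * ev H b v x) := by
          refine mul_le_mul_of_nonneg_left ?_ hh0
          refine Finset.sum_le_sum fun x _ => ?_
          by_cases hx : et b x = 0
          · rw [hx]
            simp
          · exact mul_le_mul_of_nonneg_left (h5 x hx) (et0 h x)
      _ = hh * √(K * tau) * ∑ x, et b x * ev H b v x := by
          have e1 : ∀ x, et b x * (√(K * tau) * ev H b v x) =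
              √(K * tau) * (et b x * ev H b v x) := fun x => by ring
          rw [Finset.sum_congr rfl fun x _ => e1 x, ← Finset.mul_sum]
          ring
      _ = _ := by rw [Qp_ev h]
  -- total
  have h7 : ∑ w, be w ^ 2 * ‖Tf H b w (u w) v‖ ^ 2 ≤
      2 * (∑ w, be w ^ 2 *
        ‖∑ x, ((et b x * lo w x : ℝ) : ℂ) * (rsc H b x w * al H b v x w)‖ ^ 2) +
      2 * ∑ w, be w ^ 2 *
        ‖∑ x, ((et b x * hi w x : ℝ) : ℂ) * (rsc H b x w * al H b v x w)‖ ^ 2 := by
    rw [Finset.mul_sum, Finset.mul_sum, ← Finset.sum_add_distrib]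
    refine Finset.sum_le_sum fun w _ => ?_
    rw [h1 w]
    set p := ∑ x, ((et b x * lo w x : ℝ) : ℂ) * (rsc H b x w * al H b v x w)
    set q := ∑ x, ((et b x * hi w x : ℝ) : ℂ) * (rsc H b x w * al H b v x w)
    have e1 : ‖p + q‖ ^ 2 ≤ 2 * ‖p‖ ^ 2 + 2 * ‖q‖ ^ 2 := by
      have := norm_add_le p q
      have e2 : ‖p + q‖ ^ 2 ≤ (‖p‖ + ‖q‖) ^ 2 := pow_le_pow_left₀ (norm_nonneg _) this 2
      nlinarith [sq_nonneg (‖p‖ - ‖q‖)]
    have := mul_le_mul_of_nonneg_left e1 (sq_nonneg (be w))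
    linarith
  refine h7.trans ?_
  nlinarith [h3, h6]

end Pool.Agent.ANS.FA
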