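import Pool.Agent.ANS.JTr
import Pool.Agent.ANS.EngB

/-! # ANS JTRB: trace components of the jump engine with good values and rates (general laws)

The same as JTr (see there), for `CompB`: the functional is `Γ s' = Re Tr (f s')^(2p)` at `s`, it may be
smaller than this trace at `s^{w→b}` and agrees with it from above at `s^{w→none}`, `w` a good site; the
increments are controlled at the good sites only: `nu` bounds the rows for `β` with `β w = s w` at the bad
sites, the drift carries rates `0 ≤ r ≤ 2` which vanish at the bad sites.  The proof is that of JTr,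
with `g w b = 0` at the bad sites and `m w = Γ s + l w none - Γ(s^{w→none})`.
-/

set_option autoImplicit false

open Finset Function Matrix
open Pool.Agent.APS (tr0 tr1 tr2 trw OpLe)

noncomputable section

namespace Pool.Agent.ANS

variable {N A κ : Type} [Fintype N] [DecidableEq N] [Fintype A] [DecidableEq A] [Fintype κ]
  [DecidableEq κ]

private theorem jgg {g : Matrix κ κ ℂ} (hg : g.IsHermitian) :
    (g * g).trace.re = ∑ x, ∑ y, ‖g y x‖ ^ 2 := by
  rw [trace, Complex.re_sum]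
  refine Finset.sum_congr rfl fun x _ => ?_
  rw [Matrix.diag_apply, mul_apply, Complex.re_sum]
  refine Finset.sum_congr rfl fun y _ => ?_
  have h : g x y = star (g y x) := by
    have := congrFun (congrFun hg x) y
    rw [conjTranspose_apply] at this
    exact this.symm
  rw [h, ← Complex.normSq_eq_norm_sq]
  simp [Complex.normSq_apply]

private theorem jtr1_sum {ι' : Type} (n : ℕ) (f : Matrix κ κ ℂ) (s : Finset ι')
    (g : ι' → Matrix κ κ ℂ) : tr1 n f (∑ w ∈ s, g w) = ∑ w ∈ s, tr1 n f (g w) := by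
  unfold tr1
  rw [Finset.mul_sum, Matrix.trace_sum, Complex.re_sum, Finset.mul_sum]

private theorem jtr1_sub (n : ℕ) (f g k : Matrix κ κ ℂ) :
    tr1 n f (g - k) = tr1 n f g - tr1 n f k := by
  unfold tr1
  rw [mul_sub, Matrix.trace_sub, Complex.sub_re, mul_sub]

private theorem jtr1_smul (n : ℕ) (f g : Matrix κ κ ℂ) (c : ℝ) :
    tr1 n f ((c : ℂ) • g) = c * tr1 n f g := by
  unfold tr1
  rw [Matrix.mul_smul, Matrix.trace_smul, smul_eq_mul, Complex.re_ofReal_mul]
  ring

/-- trace components, the functional `Γ` may be smaller than the trace after the change of one site -/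
theorem comp_trB' (p : ℕ) (hp : 2 ≤ p) (pr : N → A → ℝ) (hpr1 : ∀ w, ∑ a, pr w a = 1)
    (ok : N → Option A → Prop) (Γ : (N → Option A) → ℝ)
    (f : (N → Option A) → Matrix κ κ ℂ) (hf : ∀ s, (f s).IsHermitian) (s : N → Option A)
    (hΓs : Γ s = tr0 (2 * p) (f s))
    (hΓb : ∀ w, ok w (s w) → ∀ b, Γ (update s w b) ≤ tr0 (2 * p) (f (update s w b)))
    (hΓn : ∀ w, ok w (s w) → tr0 (2 * p) (f (update s w none)) ≤ Γ (update s w none))
    {nu x : ℝ} (hnu0 : 0 ≤ nu) (hx0 : 0 ≤ x)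
    (hnu : ∀ (β : N → Option A), (∀ w, ¬ ok w (s w) → β w = s w) → ∀ u : κ → ℂ,
      ∑ w, ∑ y, ‖((f (update s w (β w)) - f s) *ᵥ u) y‖ ^ 2 ≤ nu ^ 2 * ∑ y, ‖u y‖ ^ 2)
    (hx : ∀ r : N → ℝ, Rate ok s r → OpLe (∑ w, (r w : ℂ) •
      (∑ b, (pr w b : ℂ) • f (update s w (some b)) - f (update s w none))) x)
    {be dl : ℝ} (hbe : (Fintype.card κ : ℝ) * (x ^ (2 * p) + nu ^ (2 * p)) ≤ be)
    (hdl : 0 < dl) (hdl1 : dl ≤ 1) (hbd : KT p * be ≤ dl ^ (2 * p)) (hs : Γ s ≤ 1) :
    CompB pr ok Γ s (2 * KT p) (2 * (KT p * be)) dl := by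
  classical
  rw [hΓs] at hs
  have hp1 : 1 ≤ p := by omega
  have hpr2 : (2 : ℝ) ≤ p := by exact_mod_cast hp
  set T0 := tr0 (2 * p) (f s) with hT0
  have hT00 : 0 ≤ T0 := Pool.Agent.APS.tr0_nonneg p (hf s)
  set cd := (Fintype.card κ : ℝ) with hcd
  have hcd0 : 0 ≤ cd := Nat.cast_nonneg _
  set g : N → Option A → Matrix κ κ ℂ := fun w b =>
    if ok w (s w) then f (update s w b) - f s else 0 with hg'
  have hgok : ∀ w, ok w (s w) → ∀ b, g w b = f (update s w b) - f s := fun w hw b => if_pos hw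
  have hg : ∀ w b, (g w b).IsHermitian := by
    intro w b
    by_cases hw : ok w (s w)
    · rw [hgok w hw]
      exact (hf _).sub (hf s)
    · rw [show g w b = 0 from if_neg hw]
      exact isHermitian_zero
  have hnu' : ∀ (β : N → Option A) (u : κ → ℂ),
      ∑ w, ∑ y, ‖((g w (β w)) *ᵥ u) y‖ ^ 2 ≤ nu ^ 2 * ∑ y, ‖u y‖ ^ 2 := by
    intro β u
    refine le_trans (le_of_eq ?_) (hnu (fun w => if ok w (s w) then β w else s w)
      (fun w hw => if_neg hw) u)
    refine Finset.sum_congr rfl fun w _ => ?_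
    by_cases hw : ok w (s w)
    · rw [hgok w hw, if_pos hw]
    · rw [show g w (β w) = 0 from if_neg hw, if_neg hw, update_eq_self, sub_self]
  have hop : ∀ w b, OpLe (g w b) nu := by
    intro w b u
    refine le_trans ?_ (hnu' (fun _ => b) u)
    exact Finset.single_le_sum (f := fun w => ∑ y, ‖((g w b) *ᵥ u) y‖ ^ 2)
      (fun w _ => Finset.sum_nonneg fun y _ => sq_nonneg _) (Finset.mem_univ w)
  -- constants
  set C0 : ℝ := 4 * p ^ 2 * Real.exp (4 * p) with hC0
  set K1 : ℝ := 7 * C0 ^ 2 with hK1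
  set X : ℝ := 1000 * p ^ 4 * Real.exp (8 * p) with hX
  have hKT : KT p = X ^ (2 * p) := rfl
  have hexp2 : Real.exp (4 * p) ^ 2 = Real.exp (8 * p) := by
    rw [sq, ← Real.exp_add]
    congr 1
    ring
  have hexp1 : 1 ≤ Real.exp (4 * p) := Real.one_le_exp (by positivity)
  have hexp1' : 1 ≤ Real.exp (8 * p) := Real.one_le_exp (by positivity)
  have hC0sq : C0 ^ 2 = 16 * p ^ 4 * Real.exp (8 * p) := by
    rw [hC0, mul_pow, mul_pow, hexp2]
    ring
  have hp2 : (4 : ℝ) ≤ (p : ℝ) ^ 2 := by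
    have h1 := pow_le_pow_left₀ (by norm_num : (0 : ℝ) ≤ 2) hpr2 2
    linarith only [h1]
  have hp4 : (p : ℝ) ^ 2 ≤ (p : ℝ) ^ 4 := pow_le_pow_right₀ (by linarith) (by norm_num)
  have hC01 : 1 ≤ C0 := by
    have : (16 : ℝ) * 1 ≤ (4 * p ^ 2) * Real.exp (4 * p) :=
      mul_le_mul (by linarith) hexp1 (by norm_num) (by positivity)
    rw [hC0]
    linarith
  have h8p : 8 * (p : ℝ) ^ 2 ≤ C0 ^ 2 := by
    have h1 : (16 * (p : ℝ) ^ 4) * 1 ≤ (16 * (p : ℝ) ^ 4) * Real.exp (8 * p) :=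
      mul_le_mul_of_nonneg_left hexp1' (by positivity)
    rw [hC0sq]
    linarith
  have hK1pos : 0 < K1 := by positivity
  have h4K1 : 4 * K1 ≤ X := by
    have h1 : 0 ≤ (p : ℝ) ^ 4 * Real.exp (8 * p) := by positivity
    rw [hK1, hC0sq, hX]
    linarith only [h1]
  have hX1 : 1 ≤ X := by
    have h1 : (4 : ℝ) * 1 ≤ (p : ℝ) ^ 4 * Real.exp (8 * p) :=
      mul_le_mul (by linarith) hexp1' (by norm_num) (by positivity)
    rw [hX]
    linarith only [h1]
  have hXX : X ≤ X ^ (2 * p) := le_self_pow₀ hX1 (by omega)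
  have hKT1 : 1 ≤ KT p := by
    rw [hKT]
    linarith
  -- the size of the errors
  have hnup : 0 ≤ nu ^ (2 * p) := pow_nonneg hnu0 _
  have hxp : 0 ≤ x ^ (2 * p) := pow_nonneg hx0 _
  set cn := cd * nu ^ (2 * p) with hcn
  have hcn0 : 0 ≤ cn := mul_nonneg hcd0 hnup
  have hcx0 : 0 ≤ cd * x ^ (2 * p) := mul_nonneg hcd0 hxp
  have hcnbe : cn ≤ be := by
    rw [mul_add] at hbe
    linarith
  have hcxbe : cd * x ^ (2 * p) ≤ be := by
    rw [mul_add] at hbe
    linarith
  have hbe0 : 0 ≤ be := hcn0.trans hcnbe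
  have hdlp : dl ^ (2 * p) ≤ 1 := pow_le_one₀ hdl.le hdl1
  have hbe1 : be ≤ 1 := (le_mul_of_one_le_left hbe0 hKT1).trans (hbd.trans hdlp)
  have hcn1 : cn ≤ 1 := hcnbe.trans hbe1
  have hnue : nu ^ (2 * p - 2) * nu ^ 2 = nu ^ (2 * p) := by
    rw [← pow_add]
    congr 1
    omega
  have hnue' : ((1 : ℝ) * nu ^ 2) ^ p = nu ^ (2 * p) := by
    rw [one_mul, ← pow_mul]
  -- sums of traces of squares
  have hsumR : ∀ β : N → Option A, ∑ w, (g w (β w) * g w (β w)).trace.re ≤ cd * nu ^ 2 := by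
    intro β
    have h1 : ∀ w, (g w (β w) * g w (β w)).trace.re = ∑ z, ∑ y, ‖(g w (β w)) y z‖ ^ 2 :=
      fun w => jgg (hg w (β w))
    simp only [h1]
    rw [Finset.sum_comm]
    have h2 : ∀ z ∈ (Finset.univ : Finset κ), ∑ w, ∑ y, ‖(g w (β w)) y z‖ ^ 2 ≤ nu ^ 2 := by
      intro z _
      have h3 := hnu' β (Pi.single z 1)
      have h4 : ∑ y, ‖(Pi.single z (1 : ℂ) : κ → ℂ) y‖ ^ 2 = 1 := by
        rw [Finset.sum_eq_single z]
        · simp
        · intro y _ hy
          simp [hy]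
        · intro h
          exact absurd (Finset.mem_univ z) h
      rw [h4, mul_one] at h3
      refine le_trans (le_of_eq ?_) h3
      refine Finset.sum_congr rfl fun w _ => Finset.sum_congr rfl fun y _ => ?_
      rw [Matrix.mulVec_single_one]
      rfl
    refine (Finset.sum_le_sum h2).trans (le_of_eq ?_)
    rw [Finset.sum_const, Finset.card_univ, nsmul_eq_mul]
  have hgg0 : ∀ w b, 0 ≤ (g w b * g w b).trace.re := by
    intro w b
    rw [jgg (hg w b)]
    exact Finset.sum_nonneg fun z _ => Finset.sum_nonneg fun y _ => sq_nonneg _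
  have hR1 : ∀ w b, nu ^ (2 * p - 2) * (g w b * g w b).trace.re ≤ cn := by
    intro w b
    have h1 : (g w b * g w b).trace.re ≤ cd * nu ^ 2 :=
      (Finset.single_le_sum (f := fun w => (g w b * g w b).trace.re) (fun w _ => hgg0 w b)
        (Finset.mem_univ w)).trans (hsumR fun _ => b)
    calc nu ^ (2 * p - 2) * (g w b * g w b).trace.re ≤ nu ^ (2 * p - 2) * (cd * nu ^ 2) :=
          mul_le_mul_of_nonneg_left h1 (pow_nonneg hnu0 _)
      _ = cd * (nu ^ (2 * p - 2) * nu ^ 2) := by ring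
      _ = cn := by rw [hnue]
  have hw0 : ∀ w b, 0 ≤ trw p (f s) (g w b) := fun w b =>
    Pool.Agent.APS.trw_nonneg p hp1 (hf s) (hg w b)
  have hw1 : ∀ (w : N) (b : Option A) (e : ℝ), 0 < e →
      trw p (f s) (g w b) ≤ e * T0 + (1 / e) ^ (p - 1) * cn := by
    intro w b e he
    have h1 := Pool.Agent.APS.trw_sum (ι := Unit) p hp1 (hf s) (fun _ => g w b)
      (fun _ => hg w b) (nu := nu) he (fun u => by
        rw [Fintype.sum_unique]
        exact hop w b u) (c := 1) zero_le_one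
    rw [Fintype.sum_unique, one_mul, hnue'] at h1
    refine h1.trans (le_of_eq ?_)
    rw [hcn]
    ring
  have hw2 : ∀ β : N → Option A, ∑ w, trw p (f s) (g w (β w)) ≤ T0 + cn := by
    intro β
    have h1 := Pool.Agent.APS.trw_sum (ι := N) p hp1 (hf s) (fun w => g w (β w))
      (fun w => hg w (β w)) (nu := nu) one_pos (hnu' β) (c := 1) zero_le_one
    rw [one_mul, hnue', one_div, inv_one, one_pow, one_mul, one_mul] at h1
    exact h1
  set T : N → Option A → ℝ := fun w b =>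
    trw p (f s) (g w b) + nu ^ (2 * p - 2) * (g w b * g w b).trace.re with hT
  have hRn : ∀ w b, 0 ≤ nu ^ (2 * p - 2) * (g w b * g w b).trace.re := fun w b =>
    mul_nonneg (pow_nonneg hnu0 _) (hgg0 w b)
  have hTn : ∀ w b, 0 ≤ T w b := fun w b => add_nonneg (hw0 w b) (hRn w b)
  have hT3 : ∀ w b, T w b ≤ 3 := by
    intro w b
    have h1 := hw1 w b 1 one_pos
    have h2 := hR1 w b
    rw [one_div, inv_one, one_pow, one_mul, one_mul] at h1
    show trw p (f s) (g w b) + nu ^ (2 * p - 2) * (g w b * g w b).trace.re ≤ 3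
    linarith
  -- the jump
  have hup : ∀ w, ok w (s w) → ∀ b, f s + g w b = f (update s w b) := fun w hw b => by
    rw [hgok w hw]
    abel
  have hjump : ∀ w, ok w (s w) → ∀ b,
      |tr0 (2 * p) (f (update s w b)) - T0 - tr1 (2 * p) (f s) (g w b)| ≤ C0 * T w b := by
    intro w hw b
    have h1 := tr_jump p hp (hf s) (hg w b) hnu0 (hop w b)
    rw [hup w hw] at h1
    exact h1
  have hsq : ∀ w, ok w (s w) → ∀ b,
      (tr0 (2 * p) (f (update s w b)) - T0) ^ 2 ≤ K1 * T w b := by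
    intro w hw b
    have h1 := hjump w hw b
    have h2 := Pool.Agent.APS.tr1_sq p hp1 (hf s) (hg w b)
    rw [← hT0] at h2
    have h3 : tr1 (2 * p) (f s) (g w b) ^ 2 ≤ 4 * p ^ 2 * T w b := by
      have h4 : T0 * (4 * p ^ 2 * trw p (f s) (g w b)) ≤ 1 * (4 * p ^ 2 * trw p (f s) (g w b)) :=
        mul_le_mul_of_nonneg_right hs (mul_nonneg (by positivity) (hw0 w b))
      have h5 : 4 * (p : ℝ) ^ 2 * trw p (f s) (g w b) ≤ 4 * p ^ 2 * T w b :=
        mul_le_mul_of_nonneg_left (le_add_of_nonneg_right (hRn w b)) (by positivity)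
      linarith
    set D := tr0 (2 * p) (f (update s w b)) - T0 with hD
    set L := tr1 (2 * p) (f s) (g w b) with hL
    have h6 : (D - L) ^ 2 ≤ (C0 * T w b) ^ 2 := by
      rw [← sq_abs (D - L)]
      exact pow_le_pow_left₀ (abs_nonneg _) h1 2
    have h7 : (C0 * T w b) ^ 2 ≤ 3 * C0 ^ 2 * T w b := by
      have h8 : C0 ^ 2 * T w b * T w b ≤ C0 ^ 2 * T w b * 3 :=
        mul_le_mul_of_nonneg_left (hT3 w b) (mul_nonneg (sq_nonneg _) (hTn w b))
      calc (C0 * T w b) ^ 2 = C0 ^ 2 * T w b * T w b := by ring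
        _ ≤ C0 ^ 2 * T w b * 3 := h8
        _ = _ := by ring
    have h9 : D ^ 2 ≤ 2 * L ^ 2 + 2 * (D - L) ^ 2 := by linarith only [sq_nonneg (D - 2 * L)]
    have h10 : 8 * (p : ℝ) ^ 2 * T w b ≤ C0 ^ 2 * T w b :=
      mul_le_mul_of_nonneg_right h8p (hTn w b)
    rw [hK1]
    linarith
  have hsmall : ∀ w b, K1 * T w b ≤ dl ^ 2 := by
    intro w b
    set e := dl ^ 2 / (4 * K1) with he
    have hdl2 : 0 < dl ^ 2 := by positivity
    have he0 : 0 < e := by positivity
    have hie : 1 / e = 4 * K1 / dl ^ 2 := by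
      rw [he, one_div_div]
    have hie1 : 1 ≤ 1 / e := by
      rw [hie, le_div_iff₀ hdl2, one_mul]
      have h1 : dl ^ 2 ≤ 1 := pow_le_one₀ hdl.le hdl1
      have h2 : 1 ≤ C0 ^ 2 := one_le_pow₀ hC01
      rw [hK1]
      linarith
    have h1 := hw1 w b e he0
    have h2 := hR1 w b
    have h3 : e * T0 ≤ e := mul_le_of_le_one_right he0.le hs
    have h4 : 1 * cn ≤ (1 / e) ^ (p - 1) * cn :=
      mul_le_mul_of_nonneg_right (one_le_pow₀ hie1) hcn0
    have h5 : T w b ≤ e + 2 * ((1 / e) ^ (p - 1) * cn) := by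
      show trw p (f s) (g w b) + nu ^ (2 * p - 2) * (g w b * g w b).trace.re ≤ _
      linarith
    have h6 : K1 * e = dl ^ 2 / 4 := by
      rw [he]
      field_simp
    have h7 : 2 * K1 * ((1 / e) ^ (p - 1) * cn) ≤ dl ^ 2 / 2 := by
      rw [hie, div_pow]
      have hpos : 0 < (dl ^ 2) ^ (p - 1) := by positivity
      have h8 : 2 * K1 * ((4 * K1) ^ (p - 1) / (dl ^ 2) ^ (p - 1) * cn) =
          ((4 * K1) ^ p * cn / 2) / (dl ^ 2) ^ (p - 1) := by
        have h9 : (4 * K1) ^ p = (4 * K1) ^ (p - 1) * (4 * K1) := by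
          rw [← pow_succ]
          congr 1
          omega
        rw [h9]
        field_simp
        ring
      rw [h8, div_le_iff₀ hpos]
      have h10 : (4 * K1) ^ p ≤ X ^ (2 * p) :=
        (pow_le_pow_left₀ (by positivity) h4K1 p).trans (pow_le_pow_right₀ hX1 (by omega))
      have h11 : (4 * K1) ^ p * cn ≤ X ^ (2 * p) * be :=
        mul_le_mul h10 hcnbe hcn0 (by positivity)
      have h12 : dl ^ 2 / 2 * (dl ^ 2) ^ (p - 1) = dl ^ (2 * p) / 2 := by
        have h13 : dl ^ (2 * p) = (dl ^ 2) ^ (p - 1) * dl ^ 2 := by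
          rw [← pow_succ, ← pow_mul]
          congr 1
          omega
        rw [h13]
        ring
      rw [h12]
      rw [← hKT] at h11
      linarith
    calc K1 * T w b ≤ K1 * (e + 2 * ((1 / e) ^ (p - 1) * cn)) :=
          mul_le_mul_of_nonneg_left h5 hK1pos.le
      _ = K1 * e + 2 * K1 * ((1 / e) ^ (p - 1) * cn) := by ring
      _ ≤ dl ^ 2 := by
          rw [h6]
          linarith
  -- maximizing values
  have hmax : ∀ w, ∃ b, ∀ b', T w b' ≤ T w b := fun w => Finite.exists_max (T w)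
  choose β hβ using hmax
  have hC0K : C0 ≤ K1 := by
    rw [hK1]
    have h1 : C0 ≤ C0 ^ 2 := le_self_pow₀ hC01 (by norm_num)
    linarith only [h1, hC01]
  have hq0 : ∀ w, 0 ≤ K1 * T w (β w) := fun w => mul_nonneg hK1pos.le (hTn _ _)
  have hj2 : ∀ w, ok w (s w) → ∀ b,
      |tr0 (2 * p) (f (update s w b)) - T0 - tr1 (2 * p) (f s) (g w b)| ≤ K1 * T w (β w) :=
    fun w hw b => (hjump w hw b).trans (mul_le_mul hC0K (hβ w b) (hTn _ _) hK1pos.le)
  have hs2 : ∀ w, ok w (s w) → ∀ b,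
      (tr0 (2 * p) (f (update s w b)) - T0) ^ 2 ≤ K1 * T w (β w) :=
    fun w hw b => (hsq w hw b).trans (mul_le_mul_of_nonneg_left (hβ w b) hK1pos.le)
  have hnn : ∀ w, ok w (s w) → Γ (update s w none) = tr0 (2 * p) (f (update s w none)) :=
    fun w hw => le_antisymm (hΓb w hw none) (hΓn w hw)
  have hKbe0 : 0 ≤ KT p * be := mul_nonneg (by linarith) hbe0
  refine ⟨fun w b => tr1 (2 * p) (f s) (g w b), fun w => K1 * T w (β w),
    fun w => if ok w (s w) then T0 + tr1 (2 * p) (f s) (g w none) - Γ (update s w none) else 0,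
    hq0, ?_, ?_, ?_, ?_, ?_, ?_, ?_⟩
  · intro w
    show (if ok w (s w) then T0 + tr1 (2 * p) (f s) (g w none) - Γ (update s w none) else 0) ≤
      K1 * T w (β w)
    by_cases hw : ok w (s w)
    · rw [if_pos hw, hnn w hw]
      have e2 := (neg_le_abs _).trans (hj2 w hw none)
      linarith
    · rw [if_neg hw]
      exact hq0 w
  · intro w hw a
    have e1 := hΓb w hw (some a)
    have e2 := (le_abs_self _).trans (hj2 w hw (some a))
    show Γ (update s w (some a)) ≤ Γ s + tr1 (2 * p) (f s) (g w (some a)) + K1 * T w (β w)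
    rw [hΓs]
    linarith
  · intro w hw
    show Γ s + tr1 (2 * p) (f s) (g w none) -
      (if ok w (s w) then T0 + tr1 (2 * p) (f s) (g w none) - Γ (update s w none) else 0) ≤
      Γ (update s w none)
    rw [if_pos hw, hΓs]
    linarith
  · intro w hw
    show (tr1 (2 * p) (f s) (g w none) -
      (if ok w (s w) then T0 + tr1 (2 * p) (f s) (g w none) - Γ (update s w none) else 0)) ^ 2 ≤
      K1 * T w (β w)
    rw [if_pos hw, hnn w hw]
    have e1 := hs2 w hw none
    have e2 : tr1 (2 * p) (f s) (g w none) - (T0 + tr1 (2 * p) (f s) (g w none) -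
        tr0 (2 * p) (f (update s w none))) = tr0 (2 * p) (f (update s w none)) - T0 := by ring
    rw [e2]
    exact e1
  · intro w hw b
    have h1 := (hsq w hw b).trans (hsmall w b)
    have h2 := (le_abs_self _).trans (abs_le_of_sq_le_sq h1 hdl.le)
    have h3 := hΓb w hw b
    rw [hΓs]
    linarith
  · -- drift
    intro r hr
    have h1 : ∑ w, r w * (∑ a, pr w a * tr1 (2 * p) (f s) (g w (some a)) -
        tr1 (2 * p) (f s) (g w none)) = tr1 (2 * p) (f s) (∑ w, (r w : ℂ) •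
          (∑ b, (pr w b : ℂ) • f (update s w (some b)) - f (update s w none))) := by
      rw [jtr1_sum]
      refine Finset.sum_congr rfl fun w _ => ?_
      rw [jtr1_smul]
      by_cases hw : ok w (s w)
      swap
      · rw [hr.off w hw, zero_mul, zero_mul]
      congr 1
      have h9 : tr1 (2 * p) (f s)
          (∑ b, (pr w b : ℂ) • f (update s w (some b)) - f (update s w none)) =
          ∑ b, tr1 (2 * p) (f s) ((pr w b : ℂ) • f (update s w (some b))) -
            tr1 (2 * p) (f s) (f (update s w none)) := by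
        rw [jtr1_sub, jtr1_sum]
      rw [h9]
      have h2 : ∀ b, tr1 (2 * p) (f s) (g w b) =
          tr1 (2 * p) (f s) (f (update s w b)) - tr1 (2 * p) (f s) (f s) := fun b => by
        rw [hgok w hw]
        exact jtr1_sub _ _ _ _
      have h3 : ∑ a, pr w a * tr1 (2 * p) (f s) (g w (some a)) =
          ∑ a, tr1 (2 * p) (f s) ((pr w a : ℂ) • f (update s w (some a))) -
            tr1 (2 * p) (f s) (f s) := by
        have h4 : ∀ a, pr w a * tr1 (2 * p) (f s) (g w (some a)) =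
            tr1 (2 * p) (f s) ((pr w a : ℂ) • f (update s w (some a))) -
              pr w a * tr1 (2 * p) (f s) (f s) := by
          intro a
          rw [h2, jtr1_smul]
          ring
        simp only [h4]
        rw [Finset.sum_sub_distrib, ← Finset.sum_mul, hpr1, one_mul]
      rw [h3, h2]
      ring
    show ∑ w, r w * (∑ a, pr w a * tr1 (2 * p) (f s) (g w (some a)) -
        tr1 (2 * p) (f s) (g w none)) ≤ 2 * KT p * Γ s + 2 * (KT p * be)
    rw [h1, hΓs]
    have h5 := Pool.Agent.APS.tr1_le p hp1 (hf s) hx0 one_pos (hx r hr) (c := 1) zero_le_one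
    rw [one_mul, one_mul, one_div, inv_one, one_pow, one_mul, one_mul, ← hT0, ← hcd] at h5
    have h6 : cd * (2 * (p : ℝ) * x) ^ (2 * p) ≤ KT p * be := by
      have h7 : (2 * (p : ℝ)) ^ (2 * p) ≤ X ^ (2 * p) := by
        refine pow_le_pow_left₀ (by positivity) ?_ _
        have h8 : (1000 * (p : ℝ) ^ 4) * 1 ≤ (1000 * (p : ℝ) ^ 4) * Real.exp (8 * p) :=
          mul_le_mul_of_nonneg_left hexp1' (by positivity)
        have h9 : (p : ℝ) ≤ (p : ℝ) ^ 4 := le_self_pow₀ (by linarith) (by norm_num)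
        rw [hX]
        linarith
      calc cd * (2 * (p : ℝ) * x) ^ (2 * p) = (2 * (p : ℝ)) ^ (2 * p) * (cd * x ^ (2 * p)) := by
            rw [mul_pow (2 * (p : ℝ))]
            ring
        _ ≤ X ^ (2 * p) * be := mul_le_mul h7 hcxbe hcx0 (by positivity)
    have h10 : 1 * T0 ≤ KT p * T0 := mul_le_mul_of_nonneg_right hKT1 hT00
    have h11 := (le_abs_self _).trans h5
    have h12 : 0 ≤ KT p * T0 := mul_nonneg (by linarith) hT00
    linarith
  · intro r hr
    show ∑ w, r w * (K1 * T w (β w)) ≤ 2 * KT p * Γ s + 2 * (KT p * be)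
    rw [hΓs]
    have h0 : ∑ w, r w * (K1 * T w (β w)) ≤ ∑ w, 2 * (K1 * T w (β w)) :=
      Finset.sum_le_sum fun w _ => mul_le_mul_of_nonneg_right (hr.r2 w) (hq0 w)
    rw [← Finset.mul_sum, ← Finset.mul_sum] at h0
    have h1 : ∑ w, T w (β w) ≤ T0 + 2 * cn := by
      have h2 : ∑ w, T w (β w) = ∑ w, trw p (f s) (g w (β w)) +
          nu ^ (2 * p - 2) * ∑ w, (g w (β w) * g w (β w)).trace.re := by
        rw [Finset.mul_sum, ← Finset.sum_add_distrib]
      have h3 : nu ^ (2 * p - 2) * ∑ w, (g w (β w) * g w (β w)).trace.re ≤ cn := by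
        calc nu ^ (2 * p - 2) * ∑ w, (g w (β w) * g w (β w)).trace.re
            ≤ nu ^ (2 * p - 2) * (cd * nu ^ 2) :=
              mul_le_mul_of_nonneg_left (hsumR β) (pow_nonneg hnu0 _)
          _ = cd * (nu ^ (2 * p - 2) * nu ^ 2) := by ring
          _ = cn := by rw [hnue]
      have h4 := hw2 β
      rw [h2]
      linarith
    have h5 : 2 * K1 ≤ KT p := by
      rw [hKT]
      linarith
    have h6 : K1 * ∑ w, T w (β w) ≤ K1 * (T0 + 2 * cn) := mul_le_mul_of_nonneg_left h1 hK1pos.le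
    have h7 : K1 * T0 ≤ KT p * T0 := mul_le_mul_of_nonneg_right (by linarith) hT00
    have h8 : 2 * K1 * cn ≤ KT p * be := mul_le_mul h5 hcnbe hcn0 (by linarith)
    linarith

/-- TRACE COMPONENTS WITH GOOD VALUES AND RATES -/
theorem comp_trB (p : ℕ) (hp : 2 ≤ p) (pr : N → A → ℝ) (hpr1 : ∀ w, ∑ a, pr w a = 1)
    (ok : N → Option A → Prop)
    (f : (N → Option A) → Matrix κ κ ℂ) (hf : ∀ s, (f s).IsHermitian) (s : N → Option A)
    {nu x : ℝ} (hnu0 : 0 ≤ nu) (hx0 : 0 ≤ x)
    (hnu : ∀ (β : N → Option A), (∀ w, ¬ ok w (s w) → β w = s w) → ∀ u : κ → ℂ,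
      ∑ w, ∑ y, ‖((f (update s w (β w)) - f s) *ᵥ u) y‖ ^ 2 ≤ nu ^ 2 * ∑ y, ‖u y‖ ^ 2)
    (hx : ∀ r : N → ℝ, Rate ok s r → OpLe (∑ w, (r w : ℂ) •
      (∑ b, (pr w b : ℂ) • f (update s w (some b)) - f (update s w none))) x)
    {be dl : ℝ} (hbe : (Fintype.card κ : ℝ) * (x ^ (2 * p) + nu ^ (2 * p)) ≤ be)
    (hdl : 0 < dl) (hdl1 : dl ≤ 1) (hbd : KT p * be ≤ dl ^ (2 * p)) (hs : tr0 (2 * p) (f s) ≤ 1) :
    CompB pr ok (fun s => tr0 (2 * p) (f s)) s (2 * KT p) (2 * (KT p * be)) dl :=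
  comp_trB' p hp pr hpr1 ok (fun s => tr0 (2 * p) (f s)) f hf s rfl (fun _ _ _ => le_rfl)
    (fun _ _ => le_rfl) hnu0 hx0 hnu hx hbe hdl hdl1 hbd hs

/-- the rows for `β` from the sum over the good sites -/
theorem hnu_of_ok (ok : N → Option A → Prop) (f : (N → Option A) → Matrix κ κ ℂ)
    (s : N → Option A) [DecidablePred fun w => ok w (s w)] {c : ℝ} (u : κ → ℂ)
    (β : N → Option A) (hβ : ∀ w, ¬ ok w (s w) → β w = s w)
    (h : ∑ w ∈ univ.filter (fun w => ok w (s w)),
      ∑ y, ‖((f (update s w (β w)) - f s) *ᵥ u) y‖ ^ 2 ≤ c) :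
    ∑ w, ∑ y, ‖((f (update s w (β w)) - f s) *ᵥ u) y‖ ^ 2 ≤ c := by
  refine le_trans (le_of_eq ?_) h
  rw [Finset.sum_filter]
  refine Finset.sum_congr rfl fun w _ => ?_
  split_ifs with hw
  · rfl
  · rw [hβ w hw, update_eq_self, sub_self]
    simp

end Pool.Agent.ANS
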