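import Pool.Agent.ANB.Cond

/-! # ANS / H3Net: the family of the pairs of (H3) has a net of polynomial size (helper52)

The pairs `(a^K, z^K)` of (H3) for a general law run over all levels `K` of a (very long) interval; `a^K / s_K` depends on `K`
only through `pS K n a = P(no weak cell of level ≤ K above the point | class of level n)`.
* `exists_reps` : a function `S : ℕ → [0,1]` on a finite set `Ks` has at most `1/th + 1` representatives up to `th`.
* `cE_net` : for nested events `W K ⊆ W k` (`K ≤ k`) the conditional probabilities of the complements differ by at most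
  `|S K - S k| / mass of the class`, `S K` = probability of the complement of `W K`.
* `row_net` : (H3) with an error for one pair gives (H3) with an error for a pair nearby, in one row.
-/

set_option autoImplicit false

open Finset

noncomputable section

namespace Pool.Agent.ANB

/-- representatives -/
theorem exists_reps (Ks : Finset ℕ) (S : ℕ → ℝ) (h0 : ∀ K ∈ Ks, 0 ≤ S K) (h1 : ∀ K ∈ Ks, S K ≤ 1)
    {th : ℝ} (hth : 0 < th) :
    ∃ R : Finset ℕ, R ⊆ Ks ∧ (R.card : ℝ) ≤ 1 / th + 1 ∧ ∀ K ∈ Ks, ∃ k ∈ R, |S K - S k| ≤ th := by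
  classical
  set φ : ℕ → ℕ := fun K => ⌊S K / th⌋₊ with hφ
  have hch : ∀ j : ℕ, ∃ k : ℕ, (∃ K ∈ Ks, φ K = j) → (k ∈ Ks ∧ φ k = j) := by
    intro j
    by_cases h : ∃ K ∈ Ks, φ K = j
    · obtain ⟨K, hK, hj⟩ := h
      exact ⟨K, fun _ => ⟨hK, hj⟩⟩
    · exact ⟨0, fun h' => absurd h' h⟩
  choose c hc using hch
  refine ⟨(Ks.image φ).image c, ?_, ?_, ?_⟩
  · intro k hk
    obtain ⟨j, hj, rfl⟩ := Finset.mem_image.1 hk
    obtain ⟨K, hK, hj'⟩ := Finset.mem_image.1 hj
    exact (hc j ⟨K, hK, hj'⟩).1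
  · have e1 : Ks.image φ ⊆ Finset.range (⌊1 / th⌋₊ + 1) := by
      intro j hj
      obtain ⟨K, hK, hj'⟩ := Finset.mem_image.1 hj
      rw [Finset.mem_range, ← hj', hφ]
      have e2 : ⌊S K / th⌋₊ ≤ ⌊1 / th⌋₊ :=
        Nat.floor_le_floor (div_le_div_of_nonneg_right (h1 K hK) hth.le)
      show ⌊S K / th⌋₊ < _
      omega
    have e3 : ((Ks.image φ).image c).card ≤ ⌊1 / th⌋₊ + 1 :=
      Finset.card_image_le.trans ((Finset.card_le_card e1).trans_eq (Finset.card_range _))
    have e4 : (⌊1 / th⌋₊ : ℝ) ≤ 1 / th := Nat.floor_le (by positivity)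
    calc (((Ks.image φ).image c).card : ℝ) ≤ ((⌊1 / th⌋₊ + 1 : ℕ) : ℝ) := by exact_mod_cast e3
      _ = (⌊1 / th⌋₊ : ℝ) + 1 := by push_cast; rfl
      _ ≤ _ := by linarith
  · intro K hK
    have e1 := hc (φ K) ⟨K, hK, rfl⟩
    refine ⟨c (φ K), Finset.mem_image_of_mem c (Finset.mem_image_of_mem φ hK), ?_⟩
    have e2 : ⌊S (c (φ K)) / th⌋₊ = ⌊S K / th⌋₊ := e1.2
    have f1 : 0 ≤ S K / th := div_nonneg (h0 K hK) hth.le
    have f2 : 0 ≤ S (c (φ K)) / th := div_nonneg (h0 _ e1.1) hth.le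
    have g1 := Nat.floor_le f1
    have g2 := Nat.lt_floor_add_one (S K / th)
    have g3 := Nat.floor_le f2
    have g4 := Nat.lt_floor_add_one (S (c (φ K)) / th)
    rw [e2] at g3 g4
    have g5 : |S K / th - S (c (φ K)) / th| ≤ 1 := by
      rw [abs_le]
      constructor <;> linarith
    have g6 : S K - S (c (φ K)) = (S K / th - S (c (φ K)) / th) * th := by
      field_simp
    rw [g6, abs_mul, abs_of_pos hth]
    calc _ ≤ 1 * th := mul_le_mul_of_nonneg_right g5 hth.le
      _ = th := one_mul th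

section cond

variable {X : Type} [Fintype X] {p : X → ℝ}

open Classical in
/-- probability of the complement of `W K` -/
def pT (p : X → ℝ) (W : ℕ → X → Prop) (K : ℕ) : ℝ := ∑ b, p b * (if W K b then 0 else 1)

theorem pT_nonneg (hp : ∀ a, 0 < p a) (W : ℕ → X → Prop) (K : ℕ) : 0 ≤ pT p W K := by
  unfold pT
  refine Finset.sum_nonneg fun b _ => mul_nonneg (hp b).le ?_
  split_ifs <;> norm_num

theorem pT_le_one (hp : ∀ a, 0 < p a) (hp1 : ∑ a, p a = 1) (W : ℕ → X → Prop) (K : ℕ) :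
    pT p W K ≤ 1 := by
  unfold pT
  calc _ ≤ ∑ a, p a := by
        refine Finset.sum_le_sum fun b _ => ?_
        have := (hp b).le
        split_ifs
        · rw [mul_zero]
          exact this
        · rw [mul_one]
    _ = 1 := hp1

open Classical in
theorem cE_net (hp : ∀ a, 0 < p a) (q : X → ℤ) (W : ℕ → X → Prop)
    (hW : ∀ K k, K ≤ k → ∀ a, W K a → W k a) (K k : ℕ) (a : X) :
    |cE p q (fun b => if W K b then 0 else 1) a - cE p q (fun b => if W k b then 0 else 1) a| ≤
      |pT p W K - pT p W k| / cm p q a := by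
  have hcm := cm_pos hp q a
  have key : ∀ K k, K ≤ k →
      |cE p q (fun b => if W K b then 0 else 1) a - cE p q (fun b => if W k b then 0 else 1) a| ≤
      |pT p W K - pT p W k| / cm p q a := by
    intro K k hKk
    have hf : ∀ b, 0 ≤ p b * (if W K b then 0 else 1) - p b * (if W k b then 0 else 1) := by
      intro b
      have h1 := (hp b).le
      by_cases h2 : W K b
      · rw [if_pos h2, if_pos (hW K k hKk b h2)]
        simp
      · rw [if_neg h2]
        split_ifs <;> linarith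
    have e1 : cE p q (fun b => if W K b then 0 else 1) a -
        cE p q (fun b => if W k b then 0 else 1) a =
        (∑ b ∈ cl q a, (p b * (if W K b then 0 else 1) - p b * (if W k b then 0 else 1))) /
          cm p q a := by
      unfold cE
      rw [← sub_div, ← Finset.sum_sub_distrib]
    have e2 : pT p W K - pT p W k =
        ∑ b, (p b * (if W K b then 0 else 1) - p b * (if W k b then 0 else 1)) := by
      unfold pT
      rw [← Finset.sum_sub_distrib]
    rw [e1, abs_of_nonneg (div_nonneg (Finset.sum_nonneg fun b _ => hf b) hcm.le)]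
    refine div_le_div_of_nonneg_right ?_ hcm.le
    rw [e2, abs_of_nonneg (Finset.sum_nonneg fun b _ => hf b)]
    exact Finset.sum_le_sum_of_subset_of_nonneg (Finset.subset_univ _) fun b _ _ => hf b
  rcases le_total K k with h | h
  · exact key K k h
  · rw [abs_sub_comm, abs_sub_comm (pT p W K)]
    exact key k K h

end cond

/-- (H3) in one row: from one pair to a pair nearby -/
theorem row_net {T : Type} [Fintype T] (g : T → ℂ) (a z a' z' eta : T → ℝ) {E dl io : ℝ}
    (hdl : 0 ≤ dl) (h : ‖∑ y, g y ^ 2 * (a y : ℂ)‖ ≤ ∑ y, ‖g y‖ ^ 2 * z y + E)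
    (hd : ∀ y, |a' y - a y| + |z' y - z y| ≤ dl * eta y)
    (hw : ∑ y, eta y * ‖g y‖ ^ 2 ≤ io) :
    ‖∑ y, g y ^ 2 * (a' y : ℂ)‖ ≤ ∑ y, ‖g y‖ ^ 2 * z' y + (E + dl * io) := by
  have e1 : ∑ y, g y ^ 2 * (a' y : ℂ) = ∑ y, g y ^ 2 * (a y : ℂ) +
      ∑ y, g y ^ 2 * ((a' y - a y : ℝ) : ℂ) := by
    rw [← Finset.sum_add_distrib]
    refine Finset.sum_congr rfl fun y _ => ?_
    push_cast
    ring
  have e2 : ‖∑ y, g y ^ 2 * ((a' y - a y : ℝ) : ℂ)‖ ≤ ∑ y, ‖g y‖ ^ 2 * |a' y - a y| := by
    refine (norm_sum_le _ _).trans (le_of_eq (Finset.sum_congr rfl fun y _ => ?_))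
    rw [norm_mul, norm_pow, Complex.norm_real, Real.norm_eq_abs]
  have e3 : ∑ y, ‖g y‖ ^ 2 * z y + ∑ y, ‖g y‖ ^ 2 * |a' y - a y| ≤
      ∑ y, ‖g y‖ ^ 2 * z' y + dl * ∑ y, eta y * ‖g y‖ ^ 2 := by
    rw [Finset.mul_sum, ← Finset.sum_add_distrib, ← Finset.sum_add_distrib]
    refine Finset.sum_le_sum fun y _ => ?_
    have f1 := hd y
    have f2 := neg_abs_le (z' y - z y)
    have f3 : z y + |a' y - a y| ≤ z' y + dl * eta y := by linarith
    have f4 := mul_le_mul_of_nonneg_left f3 (sq_nonneg ‖g y‖)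
    nlinarith
  have e4 := mul_le_mul_of_nonneg_left hw hdl
  rw [e1]
  refine (norm_add_le _ _).trans ?_
  linarith

end Pool.Agent.ANB
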