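import Pool.Agent.ANS.KerRel
import Pool.Agent.ANS.TopH4

/-! # ANS KerMfz: the relative kernels in terms of the classical value `mfz` of `m` (owner helper3)

`FarRow f M M' ..` with `r x = dT x c - s`, `Nxt M M' g ω rr`, `Off g ω N`, `N ⊆ M.A`, levels after the reading `≥ 0` (weak outcomes allowed).
* `mfz_offN`: `mfz = mm M` off `N`;  `eta_le_mfz`: `η_x ≤ mfz x / c1` off `N`;  `eta_le_mfz'`: `η'_x ≤ 2 mfz x / c1` for all non-read `x`.
* `FarRow.kdZ`: `x, y ∉ N`: `|kM M' x y - kM M x y| ≤ (4 kerC / c1²) (mfz x rr_x²)(mfz y rr_y²)`.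
* `FarRow.kNZ`: `w ∈ N`, `y ∉ N`: `kM M w y ≤ (decC² / c1) (mfz y rr_y²)`.
* `FarRow.kNZ'`: `w ∈ N`, `y ∉ N`: `kM M' w y ≤ (4 decC² / c1²) (mfz w)(mfz y rr_y²)`.
-/

open Matrix Finset

noncomputable section

namespace Pool.Agent.AND

open Pool.Agent.Kin Pool.Agent.APS

set_option linter.unusedSectionVars false

variable {d L : ℕ} [NeZero L] {D : Type} [Fintype D] {f : Fix} {t : Tol d L}
  {M M' : Med (Tor d L)} {u : UTol} {g : ANS.Dig (Tor d L) D} {ω : Tor d L → D} {r0 : ℝ}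
  {N : Finset (Tor d L)} {c : Tor d L} {s : ℕ}

theorem mfz_offN (hO : Off g ω N) {x : Tor d L} (hx : x ∉ N) :
    mfz M g ω x = ANF.Glob.mm M x := by
  unfold mfz
  rw [fr_eta_eq, (hO x hx).2, zero_mul, sub_zero]
  rfl

theorem eta_le_mfz (hG : Good f t M) (hI : t.In f M u) (hN : Num f t u) (hO : Off g ω N)
    {x : Tor d L} (hx : x ∈ M.nr) (hxN : x ∉ N) : M.eta x ≤ mfz M g ω x / f.c1 := by
  rw [mfz_offN hO hxN, le_div_iff₀ hN.c1]
  exact mul_le_mul_of_nonneg_left (hG.io_ge hI hN (mem_nr.1 hx))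
    (hG.eta_pos hI hN (mem_nr.1 hx)).le

theorem eta_le_mfz' (hG : Good f t M) (hI : t.In f M u) (hN : Num f t u)
    (hn : Nxt M M' g ω r0) (hO : Off g ω N) (hNA : N ⊆ M.A)
    (hkf : ∀ x ∈ M.A, 0 ≤ M.kf g ω x) (hr : r0 ≤ f.c1 / 2) {x : Tor d L} (hx : x ∈ M.nr) :
    M'.eta x ≤ 2 * mfz M g ω x / f.c1 := by
  have hU := mem_nr.1 hx
  have hc1 := hN.c1
  rw [le_div_iff₀ hc1]
  by_cases hA : x ∈ M.A
  · have h1 := hn.eta_act hG hA
    have h2 := hG.eA x hA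
    have h4 := hn.dia x hU
    have h5 := Complex.abs_im_le_norm (M'.G x x - M.G x x)
    rw [Complex.sub_im] at h5
    have h6 := abs_le.1 (h5.trans h4)
    have h7 : f.c1 ≤ (M.G x x).im := hG.io_ge hI hN hU
    have h8 := hkf x hA
    have h9 : (rsc (H0T d L) M.b x x).im = (M.G x x).im := rfl
    rw [h9] at h2
    rw [hn.k x] at h1
    have h10 : mfz M g ω x = (t.eta + M.kf g ω x * (M.G x x).im) * (M.G x x).im := by
      unfold mfz
      rw [fr_eta_eq, h2]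
      unfold Med.kf
      ring
    have he := hN.eta
    have e1 : M'.eta x ≤ 2 * (t.eta + M.kf g ω x * (M.G x x).im) := by
      rw [h1]
      have e2 : M.kf g ω x * (M'.G x x).im ≤ M.kf g ω x * (2 * (M.G x x).im) :=
        mul_le_mul_of_nonneg_left (by linarith [h6.2]) h8
      linarith
    have e3 : 0 ≤ 2 * (t.eta + M.kf g ω x * (M.G x x).im) := by
      have : 0 ≤ M.kf g ω x * (M.G x x).im := mul_nonneg h8 (by linarith)
      linarith
    rw [h10]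
    calc M'.eta x * f.c1 ≤ 2 * (t.eta + M.kf g ω x * (M.G x x).im) * (M.G x x).im :=
          mul_le_mul e1 h7 hc1.le e3
      _ = _ := by ring
  · have h1 := hn.eta_off hG hO hNA hA
    have h2 : mfz M g ω x = M.eta x * (M.G x x).im := mfz_offN hO fun h => hA (hNA h)
    have h3 : f.c1 ≤ (M.G x x).im := hG.io_ge hI hN hU
    have h4 := (hG.eta_pos hI hN hU).le
    rw [h1, h2]
    have h5 := mul_le_mul_of_nonneg_left h3 h4
    have h6 := mul_nonneg h4 hc1.le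
    linarith

theorem mfz_nn (hG : Good f t M) (hI : t.In f M u) (hN : Num f t u)
    (hO : Off g ω N) (hNA : N ⊆ M.A) (hkf : ∀ x ∈ M.A, 0 ≤ M.kf g ω x) {x : Tor d L}
    (hx : x ∈ M.nr) : 0 ≤ mfz M g ω x := by
  have hU := mem_nr.1 hx
  have h7 := (hG.io_pos hI hN hU).le
  by_cases hA : x ∈ M.A
  · have h2 := hG.eA x hA
    have h8 := hkf x hA
    have h9 : (rsc (H0T d L) M.b x x).im = (M.G x x).im := rfl
    rw [h9] at h2 h7
    have h10 : mfz M g ω x = (t.eta + M.kf g ω x * (M.G x x).im) * (M.G x x).im := by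
      unfold mfz
      rw [fr_eta_eq, h2]
      unfold Med.kf
      ring
    rw [h10]
    have he := hN.eta
    have := mul_nonneg h8 h7
    exact mul_nonneg (by linarith) h7
  · rw [mfz_offN hO fun h => hA (hNA h)]
    exact mul_nonneg (hG.eta_pos hI hN hU).le h7

namespace FarRow

variable {F : Set (Tor d L)} {μ : ℝ} {a c0 : ℕ} {Q ν e Lm q : ℝ}

/-- change of the kernel off `N` -/
theorem kdZ (h : FarRow f M M' F μ a c0 (fun x => ANP.dT x c - s) Q ν e Lm q) (hμ : 0 < μ)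
    (hG : Good f t M) (hI : t.In f M u) (hN : Num f t u) (hn : Nxt M M' g ω r0)
    (hO : Off g ω N) (hNA : N ⊆ M.A) (hr : r0 ≤ f.c1 / 2) {x y : Tor d L} (hx : x ∈ M.nr)
    (hy : y ∈ M.nr) (hxN : x ∉ N) (hyN : y ∉ N) :
    |ANF.Glob.kM M' x y - ANF.Glob.kM M x y| ≤ 4 * kerC f.C1 Lm Q μ a c0 / f.c1 ^ 2 *
      ((mfz M g ω x * ANF.Glob.rr (ν / 4) s c x ^ 2) *
        (mfz M g ω y * ANF.Glob.rr (ν / 4) s c y ^ 2)) := by
  have hc1 := hN.c1
  have h1 := h.kdR hμ hx hy (hn.eta_cmp hG hI hN hO hNA hr hxN).1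
    (hn.eta_cmp hG hI hN hO hNA hr hyN).1
  have hxU := mem_nr.1 hx
  have hK : 0 ≤ kerC f.C1 Lm Q μ a c0 := by
    have e1 := h.decC_nn hμ hxU
    have e2 : 0 ≤ Lm := (norm_nonneg _).trans (h.hLm x x hxU hxU)
    have e3 := h.hQ
    unfold kerC
    positivity
  have nx := h.eta_nn x
  have ny := h.eta_nn y
  have ex := eta_le_mfz hG hI hN hO hx hxN
  have ey := eta_le_mfz hG hI hN hO hy hyN
  refine h1.trans ?_
  calc 4 * kerC f.C1 Lm Q μ a c0 * ((M.eta x * ANF.Glob.rr (ν / 4) s c x ^ 2) *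
        (M.eta y * ANF.Glob.rr (ν / 4) s c y ^ 2))
      ≤ 4 * kerC f.C1 Lm Q μ a c0 * ((mfz M g ω x / f.c1 * ANF.Glob.rr (ν / 4) s c x ^ 2) *
        (mfz M g ω y / f.c1 * ANF.Glob.rr (ν / 4) s c y ^ 2)) := by
        refine mul_le_mul_of_nonneg_left ?_ (by positivity)
        refine mul_le_mul (mul_le_mul_of_nonneg_right ex (sq_nonneg _))
          (mul_le_mul_of_nonneg_right ey (sq_nonneg _)) (by positivity) ?_
        exact mul_nonneg (nx.trans ex) (sq_nonneg _)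
    _ = _ := by
        field_simp

/-- the old kernel between `N` and a site off `N` -/
theorem kNZ (h : FarRow f M M' F μ a c0 (fun x => ANP.dT x c - s) Q ν e Lm q) (hμ : 0 < μ)
    (hG : Good f t M) (hI : t.In f M u) (hN : Num f t u) (hO : Off g ω N)
    (hNB : ∀ w ∈ N, ANP.dT w c ≤ s) (hNU : ∀ w ∈ N, w ∉ M.U) {w y : Tor d L} (hw : w ∈ N)
    (hy : y ∈ M.nr) (hyN : y ∉ N) :
    ANF.Glob.kM M w y ≤ decC f.C1 Lm μ a c0 ^ 2 / f.c1 *
      (mfz M g ω y * ANF.Glob.rr (ν / 4) s c y ^ 2) := by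
  have hc1 := hN.c1
  have h1 := h.kNR hμ hNB hNU hy hw
  have ny := h.eta_nn y
  have ey := eta_le_mfz hG hI hN hO hy hyN
  refine h1.trans ?_
  have e1 : M.eta w * (M.eta y * ANF.Glob.rr (ν / 4) s c y ^ 2) ≤
      1 * (mfz M g ω y / f.c1 * ANF.Glob.rr (ν / 4) s c y ^ 2) := by
    refine mul_le_mul (h.he1 w) (mul_le_mul_of_nonneg_right ey (sq_nonneg _)) (by positivity)
      (by norm_num)
  refine (mul_le_mul_of_nonneg_left e1 (sq_nonneg _)).trans (le_of_eq ?_)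
  ring

/-- the new kernel between `N` and a site off `N` -/
theorem kNZ' (h : FarRow f M M' F μ a c0 (fun x => ANP.dT x c - s) Q ν e Lm q) (hμ : 0 < μ)
    (hG : Good f t M) (hI : t.In f M u) (hN : Num f t u) (hn : Nxt M M' g ω r0)
    (hO : Off g ω N) (hNA : N ⊆ M.A) (hkf : ∀ x ∈ M.A, 0 ≤ M.kf g ω x) (hr : r0 ≤ f.c1 / 2)
    (hNB : ∀ w ∈ N, ANP.dT w c ≤ s) {w y : Tor d L} (hw : w ∈ N)
    (hy : y ∈ M.nr) :
    ANF.Glob.kM M' w y ≤ 4 * decC f.C1 Lm μ a c0 ^ 2 / f.c1 ^ 2 *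
      (mfz M g ω w * (mfz M g ω y * ANF.Glob.rr (ν / 4) s c y ^ 2)) := by
  have hc1 := hN.c1
  have hNU : ∀ w ∈ N, w ∉ M.U := fun w hw => hG.nU_of_A (hNA hw)
  have h1 := h.kNR' hμ hNB hNU hy hw
  have nw := h.eta_nn' w
  have ny := h.eta_nn' y
  have ew := eta_le_mfz' hG hI hN hn hO hNA hkf hr (mem_nr.2 (hNU w hw))
  have ey := eta_le_mfz' hG hI hN hn hO hNA hkf hr hy
  refine h1.trans ?_
  calc decC f.C1 Lm μ a c0 ^ 2 * (M'.eta w * (M'.eta y * ANF.Glob.rr (ν / 4) s c y ^ 2))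
      ≤ decC f.C1 Lm μ a c0 ^ 2 * (2 * mfz M g ω w / f.c1 *
        (2 * mfz M g ω y / f.c1 * ANF.Glob.rr (ν / 4) s c y ^ 2)) := by
        refine mul_le_mul_of_nonneg_left ?_ (sq_nonneg _)
        refine mul_le_mul ew (mul_le_mul_of_nonneg_right ey (sq_nonneg _)) (by positivity) ?_
        exact nw.trans ew
    _ = _ := by
        field_simp
        ring

end FarRow

end Pool.Agent.AND
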