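import Pool.Agent.ANS.ObsG

/-! # ANS / ObsB: the sums of (H3) under a rank one change (helper52)

`σ` is the identity or the complex conjugation: `bsum σ M a x = ∑_t a_t M_xt σ(M_xt)` is the R-sum resp. the S-sum,
`psum σ M a x y = ∑_t a_t σ(M_xt) M_yt`.
* `bsum_jump`: exact change under `M' = M - u M e_w e_wᵀ M`, `a' = a + d 1_w`.
* `jump_le`, `drift_le`: bounds of one jump and of the mean change.
* `phi_jump`: `φ(z) = √(|z|² + ε²)` has second derivative at most `1/ε`.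
-/

set_option autoImplicit false

open Finset Function

noncomputable section

namespace Pool.Agent.ANS

variable {T : Type} [Fintype T]

/-- `∑_t a_t M_xt σ(M_xt)` -/
def bsum (σ : ℂ →+* ℂ) (M : Matrix T T ℂ) (a : T → ℝ) (x : T) : ℂ :=
  ∑ t, (a t : ℂ) * (M x t * σ (M x t))

/-- `∑_t a_t σ(M_xt) M_yt` -/
def psum (σ : ℂ →+* ℂ) (M : Matrix T T ℂ) (a : T → ℝ) (x y : T) : ℂ :=
  ∑ t, (a t : ℂ) * (σ (M x t) * M y t)

/-- an involution of `ℂ` that preserves the norm and fixes the real numbers -/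
structure Inv2 (σ : ℂ →+* ℂ) : Prop where
  inv : ∀ z, σ (σ z) = z
  re : ∀ x : ℝ, σ (x : ℂ) = (x : ℂ)
  nrm : ∀ z, ‖σ z‖ = ‖z‖

theorem inv2_id : Inv2 (RingHom.id ℂ) := ⟨fun _ => rfl, fun _ => rfl, fun _ => rfl⟩

theorem inv2_conj : Inv2 (starRingEnd ℂ) :=
  ⟨fun z => Complex.conj_conj z, fun x => Complex.conj_ofReal x, fun z => RCLike.norm_conj z⟩

theorem bsum_jump [DecidableEq T] {σ : ℂ →+* ℂ} (hσ : Inv2 σ) (M M' : Matrix T T ℂ) (w : T) (u : ℂ)
    (hM : ∀ x y, M' x y = M x y - u * M x w * M w y) (a a' : T → ℝ) (d : ℝ)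
    (ha : ∀ t, a' t = a t + if t = w then d else 0) (x : T) :
    bsum σ M' a' x = bsum σ M a x - u * M x w * psum σ M a x w - σ (u * M x w * psum σ M a x w) +
      u * σ u * (M x w * σ (M x w)) * bsum σ M a w +
      (d : ℂ) * ((M x w * σ (M x w)) * ((1 - u * M w w) * σ (1 - u * M w w))) := by
  have h1 : bsum σ M' a' x = ∑ t, (a t : ℂ) * (M' x t * σ (M' x t)) +
      (d : ℂ) * (M' x w * σ (M' x w)) := by
    unfold bsum
    have e1 : ∀ t, (a' t : ℂ) * (M' x t * σ (M' x t)) = (a t : ℂ) * (M' x t * σ (M' x t)) +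
        if t = w then (d : ℂ) * (M' x t * σ (M' x t)) else 0 := by
      intro t
      rw [ha t]
      split_ifs with h
      · push_cast
        ring
      · push_cast
        ring
    rw [Finset.sum_congr rfl fun t _ => e1 t, Finset.sum_add_distrib, Finset.sum_ite_eq']
    simp
  have h2 : σ (psum σ M a x w) = ∑ t, (a t : ℂ) * (M x t * σ (M w t)) := by
    unfold psum
    rw [map_sum]
    refine Finset.sum_congr rfl fun t _ => ?_
    rw [map_mul, map_mul, hσ.inv, hσ.re]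
  have h3 : ∑ t, (a t : ℂ) * (M' x t * σ (M' x t)) =
      bsum σ M a x - u * M x w * psum σ M a x w - σ (u * M x w) * σ (psum σ M a x w) +
      u * σ u * (M x w * σ (M x w)) * bsum σ M a w := by
    rw [h2]
    unfold bsum psum
    rw [Finset.mul_sum, Finset.mul_sum, Finset.mul_sum, ← Finset.sum_sub_distrib,
      ← Finset.sum_sub_distrib, ← Finset.sum_add_distrib]
    refine Finset.sum_congr rfl fun t _ => ?_
    rw [hM x t]
    simp only [map_sub, map_mul]
    ring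
  have h4 : M' x w * σ (M' x w) =
      (M x w * σ (M x w)) * ((1 - u * M w w) * σ (1 - u * M w w)) := by
    have e1 : M' x w = M x w * (1 - u * M w w) := by
      rw [hM x w]
      ring
    rw [e1, map_mul]
    ring
  have h5 : σ (u * M x w * psum σ M a x w) = σ (u * M x w) * σ (psum σ M a x w) := map_mul _ _ _
  rw [h1, h3, h4, h5]

theorem bsum_norm {σ : ℂ →+* ℂ} (hσ : Inv2 σ) (M : Matrix T T ℂ) (a : T → ℝ) (ha : ∀ t, 0 ≤ a t)
    (x : T) : ‖bsum σ M a x‖ ≤ ∑ t, a t * ‖M x t‖ ^ 2 := by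
  refine (norm_sum_le _ _).trans (le_of_eq (Finset.sum_congr rfl fun t _ => ?_))
  rw [norm_mul, norm_mul, hσ.nrm, Complex.norm_real, Real.norm_of_nonneg (ha t)]
  ring

theorem psum_sq {σ : ℂ →+* ℂ} (hσ : Inv2 σ) (M : Matrix T T ℂ) (a : T → ℝ) (ha : ∀ t, 0 ≤ a t)
    (x y : T) : ‖psum σ M a x y‖ ^ 2 ≤ (∑ t, a t * ‖M x t‖ ^ 2) * ∑ t, a t * ‖M y t‖ ^ 2 := by
  have h1 : ‖psum σ M a x y‖ ≤ ∑ t, a t * ‖M x t‖ * ‖M y t‖ := by
    refine (norm_sum_le _ _).trans (le_of_eq (Finset.sum_congr rfl fun t _ => ?_))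
    rw [norm_mul, norm_mul, hσ.nrm, Complex.norm_real, Real.norm_of_nonneg (ha t)]
    ring
  exact (pow_le_pow_left₀ (norm_nonneg _) h1 2).trans
    (cs_sq a (fun t => ‖M x t‖) (fun t => ‖M y t‖) ha)

/-- `φ(z) = √(|z|² + ε²)` -/
def phe (eps : ℝ) (z : ℂ) : ℝ := √(‖z‖ ^ 2 + eps ^ 2)

theorem phe_pos {eps : ℝ} (he : 0 < eps) (z : ℂ) : eps ≤ phe eps z := by
  unfold phe
  calc eps = √(eps ^ 2) := (Real.sqrt_sq he.le).symm
    _ ≤ _ := Real.sqrt_le_sqrt (by nlinarith [sq_nonneg ‖z‖])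

theorem phe_ge {eps : ℝ} (z : ℂ) : ‖z‖ ≤ phe eps z := by
  unfold phe
  calc ‖z‖ = √(‖z‖ ^ 2) := (Real.sqrt_sq (norm_nonneg z)).symm
    _ ≤ _ := Real.sqrt_le_sqrt (by nlinarith [sq_nonneg eps])

theorem phe_le {eps : ℝ} (he : 0 < eps) (z : ℂ) : phe eps z ≤ ‖z‖ + eps := by
  unfold phe
  rw [Real.sqrt_le_left (by positivity)]
  nlinarith [norm_nonneg z, mul_nonneg (norm_nonneg z) he.le]

theorem phe_sq {eps : ℝ} (z : ℂ) : phe eps z ^ 2 = ‖z‖ ^ 2 + eps ^ 2 :=
  Real.sq_sqrt (by positivity)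

theorem phe_lip {eps : ℝ} (he : 0 < eps) (z z' : ℂ) : |phe eps z' - phe eps z| ≤ ‖z' - z‖ := by
  have h1 := phe_pos he z
  have h2 := phe_pos he z'
  have h3 : phe eps z + phe eps z' > 0 := by linarith
  have h4 : (phe eps z' - phe eps z) * (phe eps z + phe eps z') = ‖z'‖ ^ 2 - ‖z‖ ^ 2 := by
    have e1 := phe_sq (eps := eps) z
    have e2 := phe_sq (eps := eps) z'
    nlinarith
  have h5 : |‖z'‖ ^ 2 - ‖z‖ ^ 2| ≤ ‖z' - z‖ * (phe eps z + phe eps z') := by
    have e1 : ‖z'‖ ^ 2 - ‖z‖ ^ 2 = (‖z'‖ - ‖z‖) * (‖z'‖ + ‖z‖) := by ring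
    rw [e1, abs_mul, abs_of_nonneg (show 0 ≤ ‖z'‖ + ‖z‖ by positivity)]
    refine mul_le_mul (abs_norm_sub_norm_le z' z) ?_ (by positivity) (norm_nonneg _)
    linarith [phe_ge (eps := eps) z, phe_ge (eps := eps) z']
  have h6 : |phe eps z' - phe eps z| * (phe eps z + phe eps z') ≤
      ‖z' - z‖ * (phe eps z + phe eps z') := by
    calc |phe eps z' - phe eps z| * (phe eps z + phe eps z')
        = |(phe eps z' - phe eps z) * (phe eps z + phe eps z')| := by
          rw [abs_mul, abs_of_pos h3]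
      _ ≤ _ := by rw [h4]; exact h5
  exact le_of_mul_le_mul_right h6 h3

/-- the derivative of `phe` in the direction `v` -/
def dphe (eps : ℝ) (z v : ℂ) : ℝ := ((starRingEnd ℂ) z * v).re / phe eps z

theorem dphe_add (eps : ℝ) (z v v' : ℂ) : dphe eps z (v + v') = dphe eps z v + dphe eps z v' := by
  unfold dphe
  rw [mul_add, Complex.add_re, add_div]

theorem dphe_le {eps : ℝ} (he : 0 < eps) (z v : ℂ) : |dphe eps z v| ≤ ‖v‖ := by
  unfold dphe
  have h1 := phe_pos he z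
  have h2 : 0 < phe eps z := by linarith
  rw [abs_div, abs_of_pos h2, div_le_iff₀ h2]
  refine (Complex.abs_re_le_norm _).trans ?_
  rw [norm_mul, RCLike.norm_conj, mul_comm]
  exact mul_le_mul_of_nonneg_left (phe_ge z) (norm_nonneg _)

theorem phe_taylor {eps : ℝ} (he : 0 < eps) (z z' : ℂ) :
    |phe eps z' - phe eps z - dphe eps z (z' - z)| ≤ ‖z' - z‖ ^ 2 / eps := by
  set a := phe eps z with ha
  set b := phe eps z' with hb
  set t := ((starRingEnd ℂ) z * (z' - z)).re with ht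
  have ha0 : eps ≤ a := phe_pos he z
  have hb0 : eps ≤ b := phe_pos he z'
  have hap : 0 < a := by linarith
  have hbp : 0 < b := by linarith
  have h1 : b ^ 2 - a ^ 2 = 2 * t + ‖z' - z‖ ^ 2 := by
    rw [ha, hb, phe_sq, phe_sq, ht, ← Complex.normSq_eq_norm_sq, ← Complex.normSq_eq_norm_sq,
      ← Complex.normSq_eq_norm_sq, Complex.normSq_apply, Complex.normSq_apply,
      Complex.normSq_apply]
    simp only [Complex.mul_re, Complex.sub_re, Complex.sub_im, Complex.conj_re, Complex.conj_im]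
    ring
  have h2 : |t| ≤ a * ‖z' - z‖ := by
    refine (Complex.abs_re_le_norm _).trans ?_
    rw [norm_mul, RCLike.norm_conj]
    exact mul_le_mul_of_nonneg_right (phe_ge z) (norm_nonneg _)
  have h3 : |b - a| ≤ ‖z' - z‖ := phe_lip he z z'
  have h4 : b - a - t / a = (t * (a - b) + ‖z' - z‖ ^ 2 * a) / (a * (a + b)) := by
    have e1 : b - a = (2 * t + ‖z' - z‖ ^ 2) / (a + b) := by
      rw [← h1, eq_div_iff (by linarith)]
      ring
    rw [e1]
    field_simp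
    ring
  have h5 : |t * (a - b) + ‖z' - z‖ ^ 2 * a| ≤ 2 * ‖z' - z‖ ^ 2 * a := by
    refine (abs_add_le _ _).trans ?_
    rw [abs_mul, abs_mul, abs_of_pos hap, abs_of_nonneg (sq_nonneg ‖z' - z‖), abs_sub_comm a b]
    have := mul_le_mul h2 h3 (abs_nonneg _) (by positivity)
    nlinarith
  show |b - a - t / a| ≤ _
  rw [h4, abs_div, abs_of_pos (by positivity : (0:ℝ) < a * (a + b)), div_le_div_iff₀ (by positivity) he]
  have h6 : 2 * eps ≤ a + b := by linarith
  calc |t * (a - b) + ‖z' - z‖ ^ 2 * a| * eps ≤ 2 * ‖z' - z‖ ^ 2 * a * eps :=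
        mul_le_mul_of_nonneg_right h5 he.le
    _ = ‖z' - z‖ ^ 2 * a * (2 * eps) := by ring
    _ ≤ ‖z' - z‖ ^ 2 * a * (a + b) := mul_le_mul_of_nonneg_left h6 (by positivity)
    _ = _ := by ring

end Pool.Agent.ANS
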