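import Mathlib

/-! # ANS / ObsSum: sums used by the components gam, G_xy, (H3) of the jump engine (helper52)

* `pow_sum_le`: `(∑ b f)^n ≤ (∑ b)^(n-1) ∑ b f^n`.
* `schur_pow`: `∑_x e_x (∑_w β_w S_xw f_w)^n ≤ K^(n-1) K' ∑_w β_w f_w^n` if the rows `∑_w β_w S_xw ≤ K`, columns
  `∑_x e_x S_xw ≤ K'`.
* `sum_pow_le_max`: `∑ e q^p ≤ m^(p-1) ∑ e q` if `q ≤ m`.
* `cs_sq`: `(∑ b f g)² ≤ (∑ b f²) (∑ b g²)`.
-/

set_option autoImplicit false

open Finset

noncomputable section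

namespace Pool.Agent.ANS

variable {N X : Type} [Fintype N] [Fintype X]

theorem pow_sum_le (b f : N → ℝ) (hb : ∀ w, 0 ≤ b w) (hf : ∀ w, 0 ≤ f w) (n : ℕ) (hn : 1 ≤ n) :
    (∑ w, b w * f w) ^ n ≤ (∑ w, b w) ^ (n - 1) * ∑ w, b w * f w ^ n := by
  have hB : 0 ≤ ∑ w, b w := Finset.sum_nonneg fun w _ => hb w
  rcases hB.eq_or_lt with h0 | h0
  · have h1 : ∀ w, b w = 0 := fun w =>
      (Finset.sum_eq_zero_iff_of_nonneg (fun w _ => hb w)).1 h0.symm w (Finset.mem_univ w)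
    have h2 : ∑ w, b w * f w = 0 := Finset.sum_eq_zero fun w _ => by rw [h1 w, zero_mul]
    have h3 : ∑ w, b w * f w ^ n = 0 := Finset.sum_eq_zero fun w _ => by rw [h1 w, zero_mul]
    rw [h2, h3, mul_zero, zero_pow (by omega)]
  · set B := ∑ w, b w with hBd
    have h1 : (∑ w, (b w / B) * f w) ^ n ≤ ∑ w, (b w / B) * f w ^ n := by
      refine Real.pow_arith_mean_le_arith_mean_pow _ _ _ (fun w _ => div_nonneg (hb w) hB) ?_
        (fun w _ => hf w) n
      rw [← Finset.sum_div, div_self h0.ne']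
    have h2 : ∑ w, b w * f w = B * ∑ w, (b w / B) * f w := by
      rw [Finset.mul_sum]
      refine Finset.sum_congr rfl fun w _ => ?_
      field_simp
    have h3 : ∑ w, b w * f w ^ n = B * ∑ w, (b w / B) * f w ^ n := by
      rw [Finset.mul_sum]
      refine Finset.sum_congr rfl fun w _ => ?_
      field_simp
    rw [h2, h3, mul_pow]
    calc B ^ n * (∑ w, (b w / B) * f w) ^ n ≤ B ^ n * ∑ w, (b w / B) * f w ^ n :=
          mul_le_mul_of_nonneg_left h1 (pow_nonneg hB n)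
      _ = B ^ (n - 1) * (B * ∑ w, (b w / B) * f w ^ n) := by
          rw [← mul_assoc, ← pow_succ, Nat.sub_add_cancel hn]

theorem schur_pow (e : X → ℝ) (be : N → ℝ) (S : X → N → ℝ) (f : N → ℝ) (he : ∀ x, 0 ≤ e x)
    (hbe : ∀ w, 0 ≤ be w) (hS : ∀ x w, 0 ≤ S x w) (hf : ∀ w, 0 ≤ f w) {K K' : ℝ} (hK : 0 ≤ K)
    (hrow : ∀ x, ∑ w, be w * S x w ≤ K) (hcol : ∀ w, be w ≠ 0 → ∑ x, e x * S x w ≤ K') (n : ℕ)
    (hn : 1 ≤ n) :
    ∑ x, e x * (∑ w, be w * S x w * f w) ^ n ≤ K ^ (n - 1) * K' * ∑ w, be w * f w ^ n := by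
  calc ∑ x, e x * (∑ w, be w * S x w * f w) ^ n
      ≤ ∑ x, e x * (K ^ (n - 1) * ∑ w, be w * S x w * f w ^ n) := by
        refine Finset.sum_le_sum fun x _ => mul_le_mul_of_nonneg_left ?_ (he x)
        refine (pow_sum_le (fun w => be w * S x w) f (fun w => mul_nonneg (hbe w) (hS x w)) hf n
          hn).trans ?_
        refine mul_le_mul_of_nonneg_right (pow_le_pow_left₀ ?_ (hrow x) _) ?_
        · exact Finset.sum_nonneg fun w _ => mul_nonneg (hbe w) (hS x w)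
        · exact Finset.sum_nonneg fun w _ =>
            mul_nonneg (mul_nonneg (hbe w) (hS x w)) (pow_nonneg (hf w) n)
    _ = K ^ (n - 1) * ∑ w, be w * f w ^ n * ∑ x, e x * S x w := by
        simp only [Finset.mul_sum]
        rw [Finset.sum_comm]
        refine Finset.sum_congr rfl fun w _ => Finset.sum_congr rfl fun x _ => ?_
        ring
    _ ≤ K ^ (n - 1) * ∑ w, be w * f w ^ n * K' := by
        refine mul_le_mul_of_nonneg_left (Finset.sum_le_sum fun w _ => ?_) (pow_nonneg hK _)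
        by_cases h0 : be w = 0
        · rw [h0]
          simp
        · exact mul_le_mul_of_nonneg_left (hcol w h0) (mul_nonneg (hbe w) (pow_nonneg (hf w) n))
    _ = K ^ (n - 1) * K' * ∑ w, be w * f w ^ n := by
        rw [← Finset.sum_mul]
        ring

theorem sum_pow_le_max (e q : X → ℝ) (he : ∀ x, 0 ≤ e x) (hq : ∀ x, 0 ≤ q x) {m : ℝ}
    (hm : ∀ x, q x ≤ m) (p : ℕ) (hp : 1 ≤ p) :
    ∑ x, e x * q x ^ p ≤ m ^ (p - 1) * ∑ x, e x * q x := by
  rw [Finset.mul_sum]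
  refine Finset.sum_le_sum fun x _ => ?_
  have h1 : q x ^ p = q x ^ (p - 1) * q x := by rw [← pow_succ, Nat.sub_add_cancel hp]
  rw [h1]
  have h2 : q x ^ (p - 1) ≤ m ^ (p - 1) := pow_le_pow_left₀ (hq x) (hm x) _
  calc e x * (q x ^ (p - 1) * q x) = q x ^ (p - 1) * (e x * q x) := by ring
    _ ≤ m ^ (p - 1) * (e x * q x) := mul_le_mul_of_nonneg_right h2 (mul_nonneg (he x) (hq x))

theorem cs_sq (b f g : N → ℝ) (hb : ∀ w, 0 ≤ b w) :
    (∑ w, b w * f w * g w) ^ 2 ≤ (∑ w, b w * f w ^ 2) * ∑ w, b w * g w ^ 2 := by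
  have h := Finset.sum_mul_sq_le_sq_mul_sq Finset.univ (fun w => √(b w) * f w)
    (fun w => √(b w) * g w)
  have e1 : ∀ w, √(b w) * f w * (√(b w) * g w) = b w * f w * g w := fun w => by
    calc √(b w) * f w * (√(b w) * g w) = (√(b w) * √(b w)) * f w * g w := by ring
      _ = _ := by rw [Real.mul_self_sqrt (hb w)]
  have e2 : ∀ w, (√(b w) * f w) ^ 2 = b w * f w ^ 2 := fun w => by
    rw [mul_pow, Real.sq_sqrt (hb w)]
  have e3 : ∀ w, (√(b w) * g w) ^ 2 = b w * g w ^ 2 := fun w => by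
    rw [mul_pow, Real.sq_sqrt (hb w)]
  simp only [e1, e2, e3] at h
  exact h

theorem add_pow_le_two (a b : ℝ) (ha : 0 ≤ a) (hb : 0 ≤ b) (n : ℕ) :
    (a + b) ^ n ≤ 2 ^ n * (a ^ n + b ^ n) := by
  refine (add_pow_le ha hb n).trans ?_
  refine mul_le_mul_of_nonneg_right (pow_le_pow_right₀ (by norm_num) (Nat.sub_le n 1)) ?_
  positivity

end Pool.Agent.ANS
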