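import Pool.Agent.ANS.JPowB
import Pool.Agent.ANS.ObsG

/-! # ANS / ObsGB: the components gam and G_xy of the jump engine, general laws (helper52)

The same as ObsG for the engine with good values and rates (`CompB`): `ok w b` = the value `b` is unread or strong; at the
configuration `s` only the sites with `ok w (s w)` are resampled; `be w = 0` at the others; the counting weights `e x s` may
depend on `s`.
-/

set_option autoImplicit false

open Finset Function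

noncomputable section

namespace Pool.Agent.ANS.PB

variable {N A X T : Type} [Fintype N] [DecidableEq N] [Fintype A] [DecidableEq A] [Fintype X]

theorem CompBmono {pr : N → A → ℝ} {ok : N → Option A → Prop} {Γ : (N → Option A) → ℝ}
    {s : N → Option A} {al be dl al' be' : ℝ} (h : CompB pr ok Γ s al be dl)
    (h1 : al * Γ s + be ≤ al' * Γ s + be') : CompB pr ok Γ s al' be' dl := by
  obtain ⟨l, q, m, h2, h3, h4, h5, h6, h7, h8, h9⟩ := h
  exact ⟨l, q, m, h2, h3, h4, h5, h6, h7, fun r hr => (h8 r hr).trans h1,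
    fun r hr => (h9 r hr).trans h1⟩

/-- everything that is needed at the configuration `s`.  `T` = all sites, `i` = site of a noise variable, `r` = site of a row (the non-read
sites); noise variables with `be w = 0` do nothing. -/
structure ObsAt (pr : N → A → ℝ) (ok : N → Option A → Prop) (i : N → T) (r : X → T) (G : (N → Option A) → Matrix T T ℂ)
    (u : N → Option A → ℂ) (s : N → Option A) (e : X → (N → Option A) → ℝ) (be c g : N → ℝ)
    (Cu b0 K Ke tau Mc Lm : ℝ) : Prop where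
  pr0 : ∀ w a, 0 ≤ pr w a
  pr1 : ∀ w, ∑ a, pr w a = 1
  sym : ∀ x y, G s x y = G s y x
  /-- exact rank one -/
  rep : ∀ w, ok w (s w) → ∀ b x y, G (update s w b) x y = G s x y - u w b * G s x (i w) * G s (i w) y
  ub : ∀ w, ok w (s w) → ∀ b, ‖u w b‖ ≤ Cu * be w
  bek : ∀ w, ¬ ok w (s w) → be w = 0
  be0 : ∀ w, 0 ≤ be w
  beb : ∀ w, be w ≤ b0
  c0 : ∀ w, 0 ≤ c w
  cb : ∀ w, c w ≤ be w ^ 2
  g0 : ∀ w, 0 ≤ g w
  /-- means -/
  mu : ∀ w, ok w (s w) → ‖∑ a, (pr w a : ℂ) * u w (some a) - u w none‖ ≤ be w ^ 2 * (g w + Cu * be w)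
  mu2 : ∀ w, ok w (s w) → ‖∑ a, (pr w a : ℂ) * u w (some a) ^ 2 - u w none ^ 2 - (c w : ℂ)‖ ≤ Cu * be w ^ 3
  mus : ∀ w, ok w (s w) → |∑ a, pr w a * ‖u w (some a)‖ ^ 2 - ‖u w none‖ ^ 2 - c w| ≤ Cu * be w ^ 3
  e0 : ∀ x s', 0 ≤ e x s'
  eon : ∀ w, ok w (s w) → ∀ x, e x s ≤ e x (update s w none)
  eob : ∀ w, ok w (s w) → ∀ b x, e x (update s w b) ≤ e x s
  Cu1 : 1 ≤ Cu
  K1 : 1 ≤ K
  Ke0 : 0 ≤ Ke
  b00 : 0 ≤ b0
  tau0 : 0 ≤ tau
  small : Cu * b0 * K ≤ 1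
  entw : ∀ w, be w ≠ 0 → ‖G s (i w) (i w)‖ ≤ K
  /-- crude bound of the entries, only `Lm²` enters the source terms -/
  ent : ∀ x w, be w ≠ 0 → ‖G s (r x) (i w)‖ ≤ Lm
  Lm1 : 1 ≤ Lm
  row : ∀ x, ∑ w, be w ^ 2 * ‖G s (r x) (i w)‖ ^ 2 ≤ K
  col : ∀ w, be w ≠ 0 → ∑ x, e x s * ‖G s (r x) (i w)‖ ^ 2 ≤ K
  tauB : ∀ x, ∑ w, be w ^ 2 * ‖G s (r x) (i w)‖ ^ 4 ≤ tau
  cnt : ∑ w, be w ^ 2 ≤ Mc
  /-- the noise sites are rows, `be_w² ≤ Ke e_w` -/
  bee : ∀ f : T → ℝ, (∀ t, 0 ≤ f t) → ∑ w, be w ^ 2 * f (i w) ≤ Ke * ∑ x, e x s * f (r x)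

variable {pr : N → A → ℝ} {ok : N → Option A → Prop} {i : N → T} {r : X → T} {G : (N → Option A) → Matrix T T ℂ}
  {u : N → Option A → ℂ} {s : N → Option A} {e : X → (N → Option A) → ℝ}
  {be c g : N → ℝ}
  {Cu b0 K Ke tau Mc Lm : ℝ}

theorem ObsAt.drift (h : ObsAt pr ok i r G u s e be c g Cu b0 K Ke tau Mc Lm) (G0 : ℂ) (w : N)
    (hw : ok w (s w)) (x y : T) :
    ∑ b, (pr w b : ℂ) * (G (update s w (some b)) x y - G0) - (G (update s w none) x y - G0) =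
      -((∑ b, (pr w b : ℂ) * u w (some b) - u w none) * G s x (i w) * G s (i w) y) := by
  have h1 : (∑ b, (pr w b : ℂ)) = 1 := by
    rw [← Complex.ofReal_sum, h.pr1 w, Complex.ofReal_one]
  have h2 : ∑ b, (pr w b : ℂ) * (G (update s w (some b)) x y - G0) =
      (∑ b, (pr w b : ℂ)) * (G s x y - G0) -
        (∑ b, (pr w b : ℂ) * u w (some b)) * G s x (i w) * G s (i w) y := by
    rw [Finset.sum_mul, Finset.sum_mul, Finset.sum_mul, ← Finset.sum_sub_distrib]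
    refine Finset.sum_congr rfl fun b _ => ?_
    rw [h.rep w hw]
    ring
  rw [h2, h1, h.rep w hw none x y]
  ring

theorem ObsAt.cnt_row (h : ObsAt pr ok i r G u s e be c g Cu b0 K Ke tau Mc Lm) :
    ∑ x, e x s * ∑ w, be w ^ 2 * ‖G s (r x) (i w)‖ ^ 2 ≤ K * Mc := by
  calc ∑ x, e x s * ∑ w, be w ^ 2 * ‖G s (r x) (i w)‖ ^ 2
      = ∑ w, be w ^ 2 * ∑ x, e x s * ‖G s (r x) (i w)‖ ^ 2 := by
        simp only [Finset.mul_sum]
        rw [Finset.sum_comm]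
        refine Finset.sum_congr rfl fun w _ => Finset.sum_congr rfl fun x _ => ?_
        ring
    _ ≤ ∑ w, be w ^ 2 * K :=
        Finset.sum_le_sum fun w _ => sq_mul_le (h.col w)
    _ = K * ∑ w, be w ^ 2 := by rw [← Finset.sum_mul]; ring
    _ ≤ K * Mc := mul_le_mul_of_nonneg_left h.cnt (by linarith [h.K1])

/-- THE DIAGONAL COMPONENT -/
theorem obs_diag (p : ℕ) (hp : 2 ≤ p) (h : ObsAt pr ok i r G u s e be c g Cu b0 K Ke tau Mc Lm)
    (G0 : T → ℂ) (hg : ∀ w, g w ≤ ‖G s (i w) (i w) - G0 (i w)‖) {a dl : ℝ} (ha : 0 < a)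
    (hdl : 0 < dl) (hdl1 : dl ≤ 1)
    (hbd : KP p * ((Cu ^ 2 * tau / a ^ 2) ^ (p - 1) * (Cu ^ 2 * K * Lm ^ 2 * Mc / a ^ 2)) ≤
      dl ^ (2 * p))
    (hs : ∑ x, e x s * (‖G s (r x) (r x) - G0 (r x)‖ / a) ^ (2 * p) ≤ 1) :
    CompB pr ok (fun s' => ∑ x, e x s' * (‖G s' (r x) (r x) - G0 (r x)‖ / a) ^ (2 * p)) s
      (2 * (KP p * (1 + (4 * K) ^ (2 * p) * Ke)))
      (2 * (KP p * ((4 * K) ^ (2 * p) * (Cu * b0 / a) ^ (2 * p) * Mc +
        (Cu ^ 2 * tau / a ^ 2) ^ (p - 1) * (Cu ^ 2 * K * Lm ^ 2 * Mc / a ^ 2)))) dl := by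
  have hK0 : 0 ≤ K := by linarith [h.K1]
  have hCu0 : 0 ≤ Cu := by linarith [h.Cu1]
  have hMc : 0 ≤ Mc := le_trans (Finset.sum_nonneg fun w _ => sq_nonneg _) h.cnt
  set S : X → N → ℝ := fun x w => ‖G s (r x) (i w)‖ ^ 2 with hS
  have hS0 : ∀ x w, 0 ≤ S x w := fun x w => sq_nonneg _
  set Γ := ∑ x, e x s * (‖G s (r x) (r x) - G0 (r x)‖ / a) ^ (2 * p) with hΓ
  have hΓ0 : 0 ≤ Γ := Finset.sum_nonneg fun x _ => mul_nonneg (h.e0 x s) (by positivity)
  -- drift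
  have hgb : ∀ w, 0 ≤ g w + Cu * be w := fun w =>
    add_nonneg (h.g0 w) (mul_nonneg hCu0 (h.be0 w))
  have hD : ∀ q : N → ℝ, Rate ok s q → ∀ x,
      ‖∑ w, (q w : ℂ) * (∑ b, (pr w b : ℂ) * (G (update s w (some b)) (r x) (r x) - G0 (r x)) -
      (G (update s w none) (r x) (r x) - G0 (r x)))‖ ≤
      2 * ∑ w, be w ^ 2 * S x w * (g w + Cu * be w) := by
    intro q hq x
    rw [Finset.mul_sum]
    refine (norm_sum_le _ _).trans (Finset.sum_le_sum fun w _ => ?_)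
    rw [norm_mul, Complex.norm_real, Real.norm_of_nonneg (hq.r0 w)]
    have e0 : 0 ≤ be w ^ 2 * S x w * (g w + Cu * be w) :=
      mul_nonneg (mul_nonneg (sq_nonneg _) (hS0 x w)) (hgb w)
    by_cases hw : ok w (s w)
    · refine mul_le_mul (hq.r2 w) ?_ (norm_nonneg _) (by norm_num)
      rw [h.drift _ w hw, norm_neg, norm_mul, norm_mul, h.sym (i w) (r x), mul_assoc]
      have e1 : ‖G s (r x) (i w)‖ * ‖G s (r x) (i w)‖ = S x w := by simp only [hS]; ring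
      rw [e1]
      calc _ ≤ be w ^ 2 * (g w + Cu * be w) * S x w :=
            mul_le_mul_of_nonneg_right (h.mu w hw) (hS0 x w)
        _ = _ := by ring
    · rw [hq.off w hw, zero_mul]
      linarith
  have hbD : ∑ x, e x s * ((∑ w, be w ^ 2 * S x w * (g w + Cu * be w)) / a) ^ (2 * p) ≤
      (2 * K) ^ (2 * p) * (Ke * Γ + (Cu * b0 / a) ^ (2 * p) * Mc) := by
    have e1 : ∀ x, (∑ w, be w ^ 2 * S x w * (g w + Cu * be w)) / a =
        ∑ w, be w ^ 2 * S x w * ((g w + Cu * be w) / a) := by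
      intro x
      rw [Finset.sum_div]
      refine Finset.sum_congr rfl fun w _ => ?_
      ring
    have e2 : ∑ x, e x s * (∑ w, be w ^ 2 * S x w * ((g w + Cu * be w) / a)) ^ (2 * p) ≤
        K ^ (2 * p - 1) * K * ∑ w, be w ^ 2 * ((g w + Cu * be w) / a) ^ (2 * p) :=
      schur_pow (fun x => e x s) (fun w => be w ^ 2) S (fun w => (g w + Cu * be w) / a) (fun x => h.e0 x s)
        (fun w => sq_nonneg _) hS0 (fun w => div_nonneg (hgb w) ha.le) hK0 h.row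
        (fun w h0 => h.col w fun h1 => h0 (by rw [h1]; norm_num)) (2 * p)
        (by omega)
    have e3 : ∀ w, ((g w + Cu * be w) / a) ^ (2 * p) ≤
        2 ^ (2 * p) * ((‖G s (i w) (i w) - G0 (i w)‖ / a) ^ (2 * p) +
          (Cu * b0 / a) ^ (2 * p)) := by
      intro w
      have e4 : (g w + Cu * be w) / a ≤ ‖G s (i w) (i w) - G0 (i w)‖ / a + Cu * b0 / a := by
        rw [← add_div]
        refine div_le_div_of_nonneg_right (add_le_add (hg w) ?_) ha.le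
        exact mul_le_mul_of_nonneg_left (h.beb w) hCu0
      refine (pow_le_pow_left₀ (div_nonneg (hgb w) ha.le) e4 _).trans ?_
      exact add_pow_le_two _ _ (by positivity)
        (div_nonneg (mul_nonneg hCu0 h.b00) ha.le) _
    have e5 : ∑ w, be w ^ 2 * (‖G s (i w) (i w) - G0 (i w)‖ / a) ^ (2 * p) ≤ Ke * Γ :=
      h.bee (fun t => (‖G s t t - G0 t‖ / a) ^ (2 * p)) fun t => by positivity
    calc ∑ x, e x s * ((∑ w, be w ^ 2 * S x w * (g w + Cu * be w)) / a) ^ (2 * p)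
        = ∑ x, e x s * (∑ w, be w ^ 2 * S x w * ((g w + Cu * be w) / a)) ^ (2 * p) := by
          simp only [e1]
      _ ≤ K ^ (2 * p - 1) * K * ∑ w, be w ^ 2 * ((g w + Cu * be w) / a) ^ (2 * p) := e2
      _ ≤ K ^ (2 * p - 1) * K * ∑ w, be w ^ 2 * (2 ^ (2 * p) *
            ((‖G s (i w) (i w) - G0 (i w)‖ / a) ^ (2 * p) + (Cu * b0 / a) ^ (2 * p))) := by
          refine mul_le_mul_of_nonneg_left (Finset.sum_le_sum fun w _ => ?_) (by positivity)
          exact mul_le_mul_of_nonneg_left (e3 w) (sq_nonneg _)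
      _ = K ^ (2 * p - 1) * K * 2 ^ (2 * p) *
            (∑ w, be w ^ 2 * (‖G s (i w) (i w) - G0 (i w)‖ / a) ^ (2 * p) +
              (Cu * b0 / a) ^ (2 * p) * ∑ w, be w ^ 2) := by
          have e6 : (Cu * b0 / a) ^ (2 * p) * ∑ w, be w ^ 2 =
              ∑ w, be w ^ 2 * (Cu * b0 / a) ^ (2 * p) := by
            rw [Finset.mul_sum]
            exact Finset.sum_congr rfl fun w _ => mul_comm _ _
          rw [e6, ← Finset.sum_add_distrib, Finset.mul_sum, Finset.mul_sum]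
          refine Finset.sum_congr rfl fun w _ => ?_
          ring
      _ ≤ K ^ (2 * p - 1) * K * 2 ^ (2 * p) * (Ke * Γ + (Cu * b0 / a) ^ (2 * p) * Mc) := by
          refine mul_le_mul_of_nonneg_left (add_le_add e5 ?_) (by positivity)
          exact mul_le_mul_of_nonneg_left h.cnt ((even_two_mul p).pow_nonneg _)
      _ = _ := by
          rw [← pow_succ, Nat.sub_add_cancel (by omega), mul_pow]
          ring
  -- quadratic variation
  have hQt : ∀ x, ∑ w, (Cu * be w * S x w) ^ 2 ≤ Cu ^ 2 * tau := by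
    intro x
    calc ∑ w, (Cu * be w * S x w) ^ 2 = Cu ^ 2 * ∑ w, be w ^ 2 * ‖G s (r x) (i w)‖ ^ 4 := by
          rw [Finset.mul_sum]
          refine Finset.sum_congr rfl fun w _ => ?_
          simp only [hS]
          ring
      _ ≤ Cu ^ 2 * tau := mul_le_mul_of_nonneg_left (h.tauB x) (sq_nonneg _)
  have hQc : ∑ x, e x s * ∑ w, (Cu * be w * S x w) ^ 2 ≤ Cu ^ 2 * K * Lm ^ 2 * Mc := by
    calc ∑ x, e x s * ∑ w, (Cu * be w * S x w) ^ 2
        ≤ ∑ x, e x s * (Cu ^ 2 * Lm ^ 2 * ∑ w, be w ^ 2 * S x w) := by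
          refine Finset.sum_le_sum fun x _ => mul_le_mul_of_nonneg_left ?_ (h.e0 x s)
          rw [Finset.mul_sum]
          refine Finset.sum_le_sum fun w _ => ?_
          have e1 : be w ^ 2 * S x w ≤ be w ^ 2 * Lm ^ 2 := sq_mul_le fun h0 =>
            pow_le_pow_left₀ (norm_nonneg _) (h.ent x w h0) 2
          calc (Cu * be w * S x w) ^ 2 = Cu ^ 2 * S x w * (be w ^ 2 * S x w) := by ring
            _ ≤ Cu ^ 2 * S x w * (be w ^ 2 * Lm ^ 2) :=
                mul_le_mul_of_nonneg_left e1 (by have := hS0 x w; positivity)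
            _ = _ := by ring
      _ = Cu ^ 2 * Lm ^ 2 * ∑ x, e x s * ∑ w, be w ^ 2 * S x w := by
          rw [Finset.mul_sum]
          refine Finset.sum_congr rfl fun x _ => ?_
          ring
      _ ≤ Cu ^ 2 * Lm ^ 2 * (K * Mc) := mul_le_mul_of_nonneg_left h.cnt_row (by positivity)
      _ = _ := by ring
  have hQ0 : ∀ x, 0 ≤ ∑ w, (Cu * be w * S x w) ^ 2 := fun x =>
    Finset.sum_nonneg fun w _ => sq_nonneg _
  have hbQ : ∑ x, e x s * ((∑ w, (Cu * be w * S x w) ^ 2) / a ^ 2) ^ p ≤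
      (Cu ^ 2 * tau / a ^ 2) ^ (p - 1) * (Cu ^ 2 * K * Lm ^ 2 * Mc / a ^ 2) := by
    refine (sum_pow_le_max (fun x => e x s) (fun x => (∑ w, (Cu * be w * S x w) ^ 2) / a ^ 2)
      (fun x => h.e0 x s)
      (fun x => div_nonneg (hQ0 x) (sq_nonneg a)) (m := Cu ^ 2 * tau / a ^ 2)
      (fun x => div_le_div_of_nonneg_right (hQt x) (sq_nonneg a)) p (by omega)).trans ?_
    refine mul_le_mul_of_nonneg_left ?_ ?_
    · calc ∑ x, e x s * ((∑ w, (Cu * be w * S x w) ^ 2) / a ^ 2)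
          = (∑ x, e x s * ∑ w, (Cu * be w * S x w) ^ 2) / a ^ 2 := by
            rw [Finset.sum_div]
            refine Finset.sum_congr rfl fun x _ => ?_
            ring
        _ ≤ _ := div_le_div_of_nonneg_right hQc (sq_nonneg a)
    · exact pow_nonneg (div_nonneg (mul_nonneg (sq_nonneg _) h.tau0) (sq_nonneg a)) _
  have hbD2 : ∑ x, e x s * (2 * (∑ w, be w ^ 2 * S x w * (g w + Cu * be w)) / a) ^ (2 * p) ≤
      (4 * K) ^ (2 * p) * (Ke * Γ + (Cu * b0 / a) ^ (2 * p) * Mc) := by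
    have e1 : ∑ x, e x s * (2 * (∑ w, be w ^ 2 * S x w * (g w + Cu * be w)) / a) ^ (2 * p) =
        2 ^ (2 * p) * ∑ x, e x s * ((∑ w, be w ^ 2 * S x w * (g w + Cu * be w)) / a) ^ (2 * p) := by
      rw [Finset.mul_sum]
      refine Finset.sum_congr rfl fun x _ => ?_
      rw [mul_div_assoc, mul_pow]
      ring
    rw [e1, show (4 * K) ^ (2 * p) = 2 ^ (2 * p) * (2 * K) ^ (2 * p) by
      rw [← mul_pow]; congr 1; ring, mul_assoc]
    exact mul_le_mul_of_nonneg_left hbD (by positivity)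
  refine CompBmono (comp_powB p hp pr h.pr0 h.pr1 ok e h.e0 (fun x s => G s (r x) (r x) - G0 (r x)) ha s
    h.eon h.eob (fun x w => Cu * be w * S x w)
    (fun x w => mul_nonneg (mul_nonneg hCu0 (h.be0 w)) (hS0 x w)) ?_
    (fun x => 2 * ∑ w, be w ^ 2 * S x w * (g w + Cu * be w))
    (fun x => ∑ w, (Cu * be w * S x w) ^ 2) (fun x => mul_nonneg (by norm_num)
      (Finset.sum_nonneg fun w _ => mul_nonneg (mul_nonneg (sq_nonneg _) (hS0 x w)) (hgb w)))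
    hD (fun x => le_rfl) hbD2 hbQ hdl hdl1 hbd hs) ?_
  · intro x w b hw
    have e1 : G (update s w b) (r x) (r x) - G0 (r x) - (G s (r x) (r x) - G0 (r x)) =
        -(u w b * G s (r x) (i w) * G s (i w) (r x)) := by
      rw [h.rep w hw]
      ring
    rw [e1, norm_neg, norm_mul, norm_mul, h.sym (i w) (r x), mul_assoc]
    have e2 : ‖G s (r x) (i w)‖ * ‖G s (r x) (i w)‖ = S x w := by simp only [hS]; ring
    rw [e2]
    exact mul_le_mul_of_nonneg_right (h.ub w hw b) (hS0 x w)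
  · show 2 * KP p * Γ + 2 * (KP p * ((4 * K) ^ (2 * p) * (Ke * Γ + (Cu * b0 / a) ^ (2 * p) * Mc) +
        (Cu ^ 2 * tau / a ^ 2) ^ (p - 1) * (Cu ^ 2 * K * Lm ^ 2 * Mc / a ^ 2))) ≤
      2 * (KP p * (1 + (4 * K) ^ (2 * p) * Ke)) * Γ + 2 * (KP p * ((4 * K) ^ (2 * p) *
        (Cu * b0 / a) ^ (2 * p) * Mc +
        (Cu ^ 2 * tau / a ^ 2) ^ (p - 1) * (Cu ^ 2 * K * Lm ^ 2 * Mc / a ^ 2)))
    exact le_of_eq (by ring)


/-- THE OFF-DIAGONAL COMPONENT: all entries, weights `e_x e_y`, the diagonal is already under control (`g_w ≤ gm`) -/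
theorem obs_off (p : ℕ) (hp : 2 ≤ p) (h : ObsAt pr ok i r G u s e be c g Cu b0 K Ke tau Mc Lm)
    (G0 : T → T → ℂ) {gm : ℝ} (hgm : ∀ w, g w ≤ gm) (hgm0 : 0 ≤ gm) {a dl : ℝ} (ha : 0 < a)
    (hdl : 0 < dl) (hdl1 : dl ≤ 1)
    (hbd : KP p * ((Cu ^ 2 * tau / a ^ 2) ^ (p - 1) * (Cu ^ 2 * K ^ 2 * Mc / a ^ 2)) ≤
      dl ^ (2 * p))
    (hs : ∑ x : X × X, e x.1 s * e x.2 s * (‖G s (r x.1) (r x.2) - G0 (r x.1) (r x.2)‖ / a) ^ (2 * p) ≤ 1) :
    CompB pr ok (fun s' => ∑ x : X × X, e x.1 s' * e x.2 s' *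
        (‖G s' (r x.1) (r x.2) - G0 (r x.1) (r x.2)‖ / a) ^ (2 * p)) s (2 * KP p)
      (2 * (KP p * (((2 * (gm + Cu * b0)) * K / a) ^ (2 * (p - 1)) *
        ((2 * (gm + Cu * b0)) * K * Mc / a) ^ 2 +
        (Cu ^ 2 * tau / a ^ 2) ^ (p - 1) * (Cu ^ 2 * K ^ 2 * Mc / a ^ 2)))) dl := by
  have hK0 : 0 ≤ K := by linarith [h.K1]
  have hCu0 : 0 ≤ Cu := by linarith [h.Cu1]
  have hMc : 0 ≤ Mc := le_trans (Finset.sum_nonneg fun w _ => sq_nonneg _) h.cnt
  set S : X → N → ℝ := fun x w => ‖G s (r x) (i w)‖ ^ 2 with hS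
  have hS0 : ∀ x w, 0 ≤ S x w := fun x w => sq_nonneg _
  set R : X → ℝ := fun x => ∑ w, be w ^ 2 * S x w with hR
  have hR0 : ∀ x, 0 ≤ R x := fun x => Finset.sum_nonneg fun w _ =>
    mul_nonneg (sq_nonneg _) (hS0 x w)
  have hRK : ∀ x, R x ≤ K := h.row
  have hRc : ∑ x, e x s * R x ≤ K * Mc := h.cnt_row
  have hRc0 : 0 ≤ ∑ x, e x s * R x := Finset.sum_nonneg fun x _ => mul_nonneg (h.e0 x s) (hR0 x)
  have he0 : ∀ x : X × X, 0 ≤ e x.1 s * e x.2 s := fun x => mul_nonneg (h.e0 _ _) (h.e0 _ _)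
  set gp := 2 * (gm + Cu * b0) with hgp
  have hgp0 : 0 ≤ gp := mul_nonneg (by norm_num) (add_nonneg hgm0 (mul_nonneg hCu0 h.b00))
  -- drift
  have hD : ∀ q : N → ℝ, Rate ok s q →
      ∀ x : X × X, ‖∑ w, (q w : ℂ) * (∑ b, (pr w b : ℂ) *
      (G (update s w (some b)) (r x.1) (r x.2) - G0 (r x.1) (r x.2)) -
      (G (update s w none) (r x.1) (r x.2) - G0 (r x.1) (r x.2)))‖ ≤
      gp * ∑ w, be w ^ 2 * ‖G s (r x.1) (i w)‖ * ‖G s (r x.2) (i w)‖ := by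
    intro q hq x
    rw [Finset.mul_sum]
    refine (norm_sum_le _ _).trans (Finset.sum_le_sum fun w _ => ?_)
    rw [norm_mul, Complex.norm_real, Real.norm_of_nonneg (hq.r0 w)]
    by_cases hw : ok w (s w)
    · rw [h.drift _ w hw, norm_neg, norm_mul, norm_mul, h.sym (i w) (r x.2)]
      have e1 : be w ^ 2 * (g w + Cu * be w) ≤ be w ^ 2 * (gm + Cu * b0) :=
        mul_le_mul_of_nonneg_left (add_le_add (hgm w) (mul_le_mul_of_nonneg_left (h.beb w) hCu0))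
          (sq_nonneg _)
      have e2 : 0 ≤ be w ^ 2 * (gm + Cu * b0) * ‖G s (r x.1) (i w)‖ * ‖G s (r x.2) (i w)‖ :=
        mul_nonneg (mul_nonneg (mul_nonneg (sq_nonneg _) (add_nonneg hgm0 (mul_nonneg hCu0 h.b00)))
          (norm_nonneg _)) (norm_nonneg _)
      calc _ ≤ q w * (be w ^ 2 * (gm + Cu * b0) * ‖G s (r x.1) (i w)‖ * ‖G s (r x.2) (i w)‖) := by
            refine mul_le_mul_of_nonneg_left ?_ (hq.r0 w)
            refine mul_le_mul_of_nonneg_right (mul_le_mul_of_nonneg_right ((h.mu w hw).trans e1)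
              (norm_nonneg _)) (norm_nonneg _)
        _ ≤ 2 * (be w ^ 2 * (gm + Cu * b0) * ‖G s (r x.1) (i w)‖ * ‖G s (r x.2) (i w)‖) :=
            mul_le_mul_of_nonneg_right (hq.r2 w) e2
        _ = _ := by rw [hgp]; ring
    · rw [hq.off w hw, zero_mul]
      exact mul_nonneg hgp0 (mul_nonneg (mul_nonneg (sq_nonneg _) (norm_nonneg _)) (norm_nonneg _))
  have hcs : ∀ x : X × X, (∑ w, be w ^ 2 * ‖G s (r x.1) (i w)‖ * ‖G s (r x.2) (i w)‖) ^ 2 ≤
      R x.1 * R x.2 := fun x =>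
    cs_sq (fun w => be w ^ 2) (fun w => ‖G s (r x.1) (i w)‖) (fun w => ‖G s (r x.2) (i w)‖)
      fun w => sq_nonneg _
  have hpair : ∑ x : X × X, e x.1 s * e x.2 s * (R x.1 * R x.2) ≤ (K * Mc) ^ 2 := by
    have e1 : ∑ x : X × X, e x.1 s * e x.2 s * (R x.1 * R x.2) =
        (∑ x, e x s * R x) * ∑ y, e y s * R y := by
      rw [Finset.sum_mul_sum, Fintype.sum_prod_type]
      refine Finset.sum_congr rfl fun x _ => Finset.sum_congr rfl fun y _ => ?_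
      ring
    rw [e1, sq]
    exact mul_le_mul hRc hRc hRc0 (mul_nonneg hK0 hMc)
  have hbD : ∑ x : X × X, e x.1 s * e x.2 s *
      (gp * (∑ w, be w ^ 2 * ‖G s (r x.1) (i w)‖ * ‖G s (r x.2) (i w)‖) / a) ^ (2 * p) ≤
      (gp * K / a) ^ (2 * (p - 1)) * (gp * K * Mc / a) ^ 2 := by
    have e1 : ∀ x : X × X, (gp * (∑ w, be w ^ 2 * ‖G s (r x.1) (i w)‖ * ‖G s (r x.2) (i w)‖) / a) ^
        (2 * p) ≤ ((gp / a) ^ 2 * (R x.1 * R x.2)) ^ p := by
      intro x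
      rw [pow_mul]
      refine pow_le_pow_left₀ (sq_nonneg _) ?_ p
      calc (gp * (∑ w, be w ^ 2 * ‖G s (r x.1) (i w)‖ * ‖G s (r x.2) (i w)‖) / a) ^ 2
          = (gp / a) ^ 2 * (∑ w, be w ^ 2 * ‖G s (r x.1) (i w)‖ * ‖G s (r x.2) (i w)‖) ^ 2 := by ring
        _ ≤ _ := mul_le_mul_of_nonneg_left (hcs x) (sq_nonneg _)
    have e2 : ∀ x : X × X, (gp / a) ^ 2 * (R x.1 * R x.2) ≤ (gp * K / a) ^ 2 := by
      intro x
      calc (gp / a) ^ 2 * (R x.1 * R x.2) ≤ (gp / a) ^ 2 * (K * K) :=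
            mul_le_mul_of_nonneg_left (mul_le_mul (hRK _) (hRK _) (hR0 _) hK0) (sq_nonneg _)
        _ = _ := by ring
    calc ∑ x : X × X, e x.1 s * e x.2 s *
          (gp * (∑ w, be w ^ 2 * ‖G s (r x.1) (i w)‖ * ‖G s (r x.2) (i w)‖) / a) ^ (2 * p)
        ≤ ∑ x : X × X, e x.1 s * e x.2 s * ((gp / a) ^ 2 * (R x.1 * R x.2)) ^ p :=
          Finset.sum_le_sum fun x _ => mul_le_mul_of_nonneg_left (e1 x) (he0 x)
      _ ≤ ((gp * K / a) ^ 2) ^ (p - 1) *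
            ∑ x : X × X, e x.1 s * e x.2 s * ((gp / a) ^ 2 * (R x.1 * R x.2)) :=
          sum_pow_le_max (fun x : X × X => e x.1 s * e x.2 s)
            (fun x : X × X => (gp / a) ^ 2 * (R x.1 * R x.2)) he0
            (fun x => mul_nonneg (sq_nonneg _) (mul_nonneg (hR0 _) (hR0 _))) e2 p (by omega)
      _ = ((gp * K / a) ^ 2) ^ (p - 1) * ((gp / a) ^ 2 *
            ∑ x : X × X, e x.1 s * e x.2 s * (R x.1 * R x.2)) := by
          congr 1
          rw [Finset.mul_sum]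
          refine Finset.sum_congr rfl fun x _ => ?_
          ring
      _ ≤ ((gp * K / a) ^ 2) ^ (p - 1) * ((gp / a) ^ 2 * (K * Mc) ^ 2) :=
          mul_le_mul_of_nonneg_left (mul_le_mul_of_nonneg_left hpair (sq_nonneg _))
            (pow_nonneg (sq_nonneg _) _)
      _ = _ := by
          rw [← pow_mul]
          ring
  -- quadratic variation
  have hQe : ∀ x : X × X, ∑ w, (Cu * be w * (‖G s (r x.1) (i w)‖ * ‖G s (r x.2) (i w)‖)) ^ 2 =
      Cu ^ 2 * ∑ w, be w ^ 2 * S x.1 w * S x.2 w := by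
    intro x
    rw [Finset.mul_sum]
    refine Finset.sum_congr rfl fun w _ => ?_
    simp only [hS]
    ring
  have hQt : ∀ x : X × X, ∑ w, be w ^ 2 * S x.1 w * S x.2 w ≤ tau := by
    intro x
    calc ∑ w, be w ^ 2 * S x.1 w * S x.2 w
        ≤ ∑ w, (1 / 2 * (be w ^ 2 * ‖G s (r x.1) (i w)‖ ^ 4) +
            1 / 2 * (be w ^ 2 * ‖G s (r x.2) (i w)‖ ^ 4)) := by
          refine Finset.sum_le_sum fun w _ => ?_
          have e1 : be w ^ 2 * S x.1 w * S x.2 w = be w ^ 2 * (S x.1 w * S x.2 w) := by ring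
          have e2 : 1 / 2 * (be w ^ 2 * ‖G s (r x.1) (i w)‖ ^ 4) +
              1 / 2 * (be w ^ 2 * ‖G s (r x.2) (i w)‖ ^ 4) =
              be w ^ 2 * (1 / 2 * (S x.1 w ^ 2 + S x.2 w ^ 2)) := by
            simp only [hS]
            ring
          rw [e1, e2]
          refine mul_le_mul_of_nonneg_left ?_ (sq_nonneg _)
          nlinarith [sq_nonneg (S x.1 w - S x.2 w)]
      _ = 1 / 2 * ∑ w, be w ^ 2 * ‖G s (r x.1) (i w)‖ ^ 4 +
            1 / 2 * ∑ w, be w ^ 2 * ‖G s (r x.2) (i w)‖ ^ 4 := by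
          rw [Finset.sum_add_distrib, Finset.mul_sum, Finset.mul_sum]
      _ ≤ tau := by linarith [h.tauB x.1, h.tauB x.2]
  have hQ0 : ∀ x : X × X, 0 ≤ ∑ w, be w ^ 2 * S x.1 w * S x.2 w := fun x =>
    Finset.sum_nonneg fun w _ => mul_nonneg (mul_nonneg (sq_nonneg _) (hS0 _ _)) (hS0 _ _)
  have hQc : ∑ x : X × X, e x.1 s * e x.2 s * ∑ w, be w ^ 2 * S x.1 w * S x.2 w ≤ K ^ 2 * Mc := by
    have e1 : ∑ x : X × X, e x.1 s * e x.2 s * ∑ w, be w ^ 2 * S x.1 w * S x.2 w =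
        ∑ w, be w ^ 2 * ((∑ x, e x s * S x w) * ∑ y, e y s * S y w) := by
      have e2 : ∀ x : X × X, e x.1 s * e x.2 s * ∑ w, be w ^ 2 * S x.1 w * S x.2 w =
          ∑ w, e x.1 s * e x.2 s * (be w ^ 2 * S x.1 w * S x.2 w) := fun x => Finset.mul_sum _ _ _
      rw [Finset.sum_congr rfl fun x _ => e2 x, Finset.sum_comm]
      refine Finset.sum_congr rfl fun w _ => ?_
      rw [Finset.sum_mul_sum, Fintype.sum_prod_type, Finset.mul_sum]
      refine Finset.sum_congr rfl fun x _ => ?_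
      rw [Finset.mul_sum]
      refine Finset.sum_congr rfl fun y _ => ?_
      ring
    rw [e1]
    calc ∑ w, be w ^ 2 * ((∑ x, e x s * S x w) * ∑ y, e y s * S y w) ≤ ∑ w, be w ^ 2 * (K * K) := by
          refine Finset.sum_le_sum fun w _ => sq_mul_le fun h0 => ?_
          refine mul_le_mul (h.col w h0) (h.col w h0) ?_ hK0
          exact Finset.sum_nonneg fun x _ => mul_nonneg (h.e0 x s) (hS0 x w)
      _ = K ^ 2 * ∑ w, be w ^ 2 := by rw [← Finset.sum_mul]; ring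
      _ ≤ K ^ 2 * Mc := mul_le_mul_of_nonneg_left h.cnt (sq_nonneg _)
  have hbQ : ∑ x : X × X, e x.1 s * e x.2 s *
      ((∑ w, (Cu * be w * (‖G s (r x.1) (i w)‖ * ‖G s (r x.2) (i w)‖)) ^ 2) / a ^ 2) ^ p ≤
      (Cu ^ 2 * tau / a ^ 2) ^ (p - 1) * (Cu ^ 2 * K ^ 2 * Mc / a ^ 2) := by
    simp only [hQe]
    refine (sum_pow_le_max (fun x : X × X => e x.1 s * e x.2 s)
      (fun x : X × X => (Cu ^ 2 * ∑ w, be w ^ 2 * S x.1 w * S x.2 w) / a ^ 2) he0
      (fun x => div_nonneg (mul_nonneg (sq_nonneg _) (hQ0 x)) (sq_nonneg a))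
      (m := Cu ^ 2 * tau / a ^ 2)
      (fun x => div_le_div_of_nonneg_right (mul_le_mul_of_nonneg_left (hQt x) (sq_nonneg _))
        (sq_nonneg a)) p (by omega)).trans ?_
    refine mul_le_mul_of_nonneg_left ?_ ?_
    · calc ∑ x : X × X, e x.1 s * e x.2 s * ((Cu ^ 2 * ∑ w, be w ^ 2 * S x.1 w * S x.2 w) / a ^ 2)
          = Cu ^ 2 * (∑ x : X × X, e x.1 s * e x.2 s * ∑ w, be w ^ 2 * S x.1 w * S x.2 w) / a ^ 2 := by
            rw [Finset.mul_sum, Finset.sum_div]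
            refine Finset.sum_congr rfl fun x _ => ?_
            ring
        _ ≤ Cu ^ 2 * (K ^ 2 * Mc) / a ^ 2 :=
            div_le_div_of_nonneg_right (mul_le_mul_of_nonneg_left hQc (sq_nonneg _)) (sq_nonneg a)
        _ = _ := by ring
    · exact pow_nonneg (div_nonneg (mul_nonneg (sq_nonneg _) h.tau0) (sq_nonneg a)) _
  refine comp_powB p hp pr h.pr0 h.pr1 ok (fun (x : X × X) s' => e x.1 s' * e x.2 s')
    (fun x s' => mul_nonneg (h.e0 _ _) (h.e0 _ _))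
    (fun x s => G s (r x.1) (r x.2) - G0 (r x.1) (r x.2)) ha s
    (fun w hw x => mul_le_mul (h.eon w hw _) (h.eon w hw _) (h.e0 _ _) (h.e0 _ _))
    (fun w hw b x => mul_le_mul (h.eob w hw b _) (h.eob w hw b _) (h.e0 _ _) (h.e0 _ _))
    (fun x w => Cu * be w * (‖G s (r x.1) (i w)‖ * ‖G s (r x.2) (i w)‖))
    (fun x w => mul_nonneg (mul_nonneg hCu0 (h.be0 w)) (mul_nonneg (norm_nonneg _) (norm_nonneg _))) ?_
    (fun x => gp * ∑ w, be w ^ 2 * ‖G s (r x.1) (i w)‖ * ‖G s (r x.2) (i w)‖)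
    (fun x => ∑ w, (Cu * be w * (‖G s (r x.1) (i w)‖ * ‖G s (r x.2) (i w)‖)) ^ 2)
    (fun x => mul_nonneg hgp0 (Finset.sum_nonneg fun w _ =>
      mul_nonneg (mul_nonneg (sq_nonneg _) (norm_nonneg _)) (norm_nonneg _))) hD (fun x => le_rfl)
    hbD hbQ hdl hdl1 hbd hs
  intro x w b hw
  have e1 : G (update s w b) (r x.1) (r x.2) - G0 (r x.1) (r x.2) - (G s (r x.1) (r x.2) - G0 (r x.1) (r x.2)) =
      -(u w b * G s (r x.1) (i w) * G s (i w) (r x.2)) := by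
    rw [h.rep w hw]
    ring
  rw [e1, norm_neg, norm_mul, norm_mul, h.sym (i w) (r x.2), mul_assoc]
  exact mul_le_mul_of_nonneg_right (h.ub w hw b) (by positivity)

end Pool.Agent.ANS.PB
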