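import Pool.Agent.ANS.ObsH

/-! # ANS / ObsK: the component of (H3) of the jump engine, conclusion (helper52)

See ObsH.  `h3F` = `F_x`, `h3d` = bound of a jump; `h3_one`: mean change of `F_x` by the digit at `w`;
`obs_h3`: the component estimate.
-/

set_option autoImplicit false

open Finset Function

noncomputable section

namespace Pool.Agent.ANS

variable {N A X T : Type} [Fintype N] [DecidableEq N] [Fintype A] [DecidableEq A] [Fintype X]
  [Fintype T] [DecidableEq T]

/-- `F_x = √(|∑ G_xt² a_t|² + ε²) - ∑ |G_xt|² z_t - ε` -/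
def h3F (eps : ℝ) (M : Matrix T T ℂ) (a z : T → ℝ) (x : T) : ℝ :=
  phe eps (bsum (RingHom.id ℂ) M a x) - (bsum (starRingEnd ℂ) M z x).re - eps

omit [DecidableEq T] in
theorem h3F_use {eps : ℝ} (M : Matrix T T ℂ) (a z : T → ℝ) (x : T) :
    ‖∑ t, M x t ^ 2 * (a t : ℂ)‖ ≤ ∑ t, ‖M x t‖ ^ 2 * z t + eps + h3F eps M a z x := by
  have h1 : ∑ t, M x t ^ 2 * (a t : ℂ) = bsum (RingHom.id ℂ) M a x := by
    unfold bsum
    refine Finset.sum_congr rfl fun t _ => ?_
    rw [RingHom.id_apply]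
    ring
  have h2 : (bsum (starRingEnd ℂ) M z x).re = ∑ t, ‖M x t‖ ^ 2 * z t := by
    unfold bsum
    rw [Complex.re_sum]
    refine Finset.sum_congr rfl fun t _ => ?_
    rw [Complex.mul_conj, Complex.normSq_eq_norm_sq, ← Complex.ofReal_mul, Complex.ofReal_re]
    ring
  have h3 := phe_ge (eps := eps) (bsum (RingHom.id ℂ) M a x)
  unfold h3F
  rw [h1, ← h2]
  linarith

omit [DecidableEq T] in
theorem h3F_start {eps : ℝ} (he : 0 < eps) (M : Matrix T T ℂ) (a z : T → ℝ) (x : T)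
    (h : ‖∑ t, M x t ^ 2 * (a t : ℂ)‖ ≤ ∑ t, ‖M x t‖ ^ 2 * z t) : h3F eps M a z x ≤ 0 := by
  have h1 : ∑ t, M x t ^ 2 * (a t : ℂ) = bsum (RingHom.id ℂ) M a x := by
    unfold bsum
    refine Finset.sum_congr rfl fun t _ => ?_
    rw [RingHom.id_apply]
    ring
  have h2 : (bsum (starRingEnd ℂ) M z x).re = ∑ t, ‖M x t‖ ^ 2 * z t := by
    unfold bsum
    rw [Complex.re_sum]
    refine Finset.sum_congr rfl fun t _ => ?_
    rw [Complex.mul_conj, Complex.normSq_eq_norm_sq, ← Complex.ofReal_mul, Complex.ofReal_re]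
    ring
  have h3 := phe_le he (bsum (RingHom.id ℂ) M a x)
  rw [h1, ← h2] at h
  unfold h3F
  linarith

variable {pr : N → A → ℝ} {i : N → T} {r : X → T} {G : (N → Option A) → Matrix T T ℂ}
  {u : N → Option A → ℂ} {s : N → Option A} {e : X → ℝ} {be c g : N → ℝ}
  {Cu b0 K Ke tau Mc Lm : ℝ} {eta : T → ℝ} {a z : (N → Option A) → T → ℝ}
  {da dz : N → Option A → ℝ}

/-- size of the two `psum` -/
def h3p (i : N → T) (r : X → T) (M : Matrix T T ℂ) (a z : T → ℝ) (x : X) (w : N) : ℝ :=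
  ‖psum (RingHom.id ℂ) M a (r x) (i w)‖ + ‖psum (starRingEnd ℂ) M z (r x) (i w)‖

/-- bound of a jump -/
def h3d (i : N → T) (r : X → T) (M : Matrix T T ℂ) (a z : T → ℝ) (be : N → ℝ) (Cu K : ℝ)
    (x : X) (w : N) : ℝ :=
  2 * Cu * be w * ‖M (r x) (i w)‖ * h3p i r M a z x w +
    10 * Cu ^ 2 * K * be w ^ 2 * ‖M (r x) (i w)‖ ^ 2

theorem h3p_nonneg (M : Matrix T T ℂ) (a z : T → ℝ) (x : X) (w : N) :
    0 ≤ h3p i r M a z x w := add_nonneg (norm_nonneg _) (norm_nonneg _)

theorem h3_jump (h : ObsAt pr i r G u s e be c g Cu b0 K Ke tau Mc Lm)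
    (hE : EtaAt i r (G s) eta be K) (ha : WtAt pr i eta be s Cu a da)
    (hz : WtAt pr i eta be s Cu z dz) {eps : ℝ} (heps : 0 < eps) (x : X) (w : N) (b : Option A) :
    |h3F eps (G (update s w b)) (a (update s w b)) (z (update s w b)) (r x) -
      h3F eps (G s) (a s) (z s) (r x)| ≤ h3d i r (G s) (a s) (z s) be Cu K x w := by
  have h1 := bs_jump inv2_id h ha (r x) w b
  have h2 := bs_jump inv2_conj h hz (r x) w b
  have h3 := jump_le inv2_id h hE ha (r x) w b
  have h4 := jump_le inv2_conj h hE hz (r x) w b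
  have h5 := phe_lip heps (bsum (RingHom.id ℂ) (G s) (a s) (r x))
    (bsum (RingHom.id ℂ) (G (update s w b)) (a (update s w b)) (r x))
  rw [h1, add_sub_cancel_left] at h5
  have h6 : |(bsum (starRingEnd ℂ) (G (update s w b)) (z (update s w b)) (r x)).re -
      (bsum (starRingEnd ℂ) (G s) (z s) (r x)).re| ≤
      ‖bch (starRingEnd ℂ) (G s) (z s) (r x) (i w) (u w b) (dz w b)‖ := by
    rw [h2, Complex.add_re, add_sub_cancel_left]
    exact Complex.abs_re_le_norm _
  unfold h3F h3d h3p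
  rw [h1]
  have h7 := abs_sub (phe eps (bsum (RingHom.id ℂ) (G s) (a s) (r x) +
    bch (RingHom.id ℂ) (G s) (a s) (r x) (i w) (u w b) (da w b)) -
    phe eps (bsum (RingHom.id ℂ) (G s) (a s) (r x)))
    ((bsum (starRingEnd ℂ) (G (update s w b)) (z (update s w b)) (r x)).re -
      (bsum (starRingEnd ℂ) (G s) (z s) (r x)).re)
  have h8 : phe eps (bsum (RingHom.id ℂ) (G s) (a s) (r x) +
      bch (RingHom.id ℂ) (G s) (a s) (r x) (i w) (u w b) (da w b)) -
      (bsum (starRingEnd ℂ) (G (update s w b)) (z (update s w b)) (r x)).re - eps -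
      (phe eps (bsum (RingHom.id ℂ) (G s) (a s) (r x)) -
      (bsum (starRingEnd ℂ) (G s) (z s) (r x)).re - eps) =
      phe eps (bsum (RingHom.id ℂ) (G s) (a s) (r x) +
      bch (RingHom.id ℂ) (G s) (a s) (r x) (i w) (u w b) (da w b)) -
      phe eps (bsum (RingHom.id ℂ) (G s) (a s) (r x)) -
      ((bsum (starRingEnd ℂ) (G (update s w b)) (z (update s w b)) (r x)).re -
      (bsum (starRingEnd ℂ) (G s) (z s) (r x)).re) := by ring
  rw [h8]
  refine h7.trans ?_
  linarith

/-- error of the mean change at `w` -/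
def h3e (i : N → T) (r : X → T) (M : Matrix T T ℂ) (a z : T → ℝ) (be : N → ℝ)
    (Cu K b0 gm eps : ℝ) (x : X) (w : N) : ℝ :=
  (eps + 14 * Cu ^ 2 * K * b0) * (be w ^ 2 * ‖M (r x) (i w)‖ ^ 2) +
    2 * (gm + Cu * b0) * (be w ^ 2 * ‖M (r x) (i w)‖ * h3p i r M a z x w) +
    2 / eps * h3d i r M a z be Cu K x w ^ 2

theorem h3_one (h : ObsAt pr i r G u s e be c g Cu b0 K Ke tau Mc Lm)
    (hE : EtaAt i r (G s) eta be K) (ha : WtAt pr i eta be s Cu a da)
    (hz : WtAt pr i eta be s Cu z dz) {eps gm : ℝ} (heps : 0 < eps) (hgm : ∀ w, g w ≤ gm)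
    (x : X) (w : N) :
    ∑ b, pr w b * h3F eps (G (update s w (some b))) (a (update s w (some b)))
        (z (update s w (some b))) (r x) -
      h3F eps (G (update s w none)) (a (update s w none)) (z (update s w none)) (r x) ≤
    be w ^ 2 * ‖G s (r x) (i w)‖ ^ 2 * max (h3F eps (G s) (a s) (z s) (i w)) 0 +
      h3e i r (G s) (a s) (z s) be Cu K b0 gm eps x w := by
  have hK0 : 0 ≤ K := by linarith [h.K1]
  have hCu0 : 0 ≤ Cu := by linarith [h.Cu1]
  have hb0 : 0 ≤ be w := h.be0 w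
  set S := ‖G s (r x) (i w)‖ ^ 2 with hS
  have hS0 : 0 ≤ S := sq_nonneg _
  set zI := bsum (RingHom.id ℂ) (G s) (a s) (r x) with hzI
  set zC := bsum (starRingEnd ℂ) (G s) (z s) (r x) with hzC
  set DI : Option A → ℂ := fun b =>
    bch (RingHom.id ℂ) (G s) (a s) (r x) (i w) (u w b) (da w b) with hDI
  set DC : Option A → ℂ := fun b =>
    bch (starRingEnd ℂ) (G s) (z s) (r x) (i w) (u w b) (dz w b) with hDC
  set dd := h3d i r (G s) (a s) (z s) be Cu K x w with hdd
  have hI : ∀ b, ‖DI b‖ ≤ dd := by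
    intro b
    have h3 := jump_le inv2_id h hE ha (r x) w b
    refine h3.trans ?_
    rw [hdd]
    unfold h3d h3p
    have e1 : 0 ≤ 2 * Cu * be w * ‖G s (r x) (i w)‖ *
        ‖psum (starRingEnd ℂ) (G s) (z s) (r x) (i w)‖ := by positivity
    have e2 : 0 ≤ 5 * Cu ^ 2 * K * be w ^ 2 * ‖G s (r x) (i w)‖ ^ 2 := by positivity
    linarith
  have hF : ∀ b, h3F eps (G (update s w b)) (a (update s w b)) (z (update s w b)) (r x) =
      phe eps (zI + DI b) - zC.re - (DC b).re - eps := by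
    intro b
    unfold h3F
    rw [bs_jump inv2_id h ha (r x) w b, bs_jump inv2_conj h hz (r x) w b, Complex.add_re]
    ring
  have hT : ∀ b, |phe eps (zI + DI b) - phe eps zI - dphe eps zI (DI b)| ≤ dd ^ 2 / eps := by
    intro b
    have e1 := phe_taylor heps zI (zI + DI b)
    rw [add_sub_cancel_left] at e1
    refine e1.trans (div_le_div_of_nonneg_right ?_ heps.le)
    exact pow_le_pow_left₀ (norm_nonneg _) (hI b) 2
  -- the means
  have hsum1 : ∀ f : A → ℝ, ∀ B : ℝ, (∀ b, f b ≤ B) → ∑ b, pr w b * f b ≤ B := by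
    intro f B hf
    calc ∑ b, pr w b * f b ≤ ∑ b, pr w b * B :=
          Finset.sum_le_sum fun b _ => mul_le_mul_of_nonneg_left (hf b) (h.pr0 w b)
      _ = B := by rw [← Finset.sum_mul, h.pr1 w, one_mul]
  set mI := ∑ b, (pr w b : ℂ) * DI (some b) - DI none with hmI
  set mC := ∑ b, (pr w b : ℂ) * DC (some b) - DC none with hmC
  have hdsum : ∑ b, pr w b * dphe eps zI (DI (some b)) - dphe eps zI (DI none) =
      dphe eps zI mI := by
    unfold dphe
    rw [hmI, mul_sub, Complex.sub_re, sub_div, Finset.mul_sum, Complex.re_sum, Finset.sum_div]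
    congr 1
    refine Finset.sum_congr rfl fun b _ => ?_
    rw [mul_left_comm, Complex.re_ofReal_mul, mul_div_assoc]
  have hCsum : ∑ b, pr w b * (DC (some b)).re - (DC none).re = mC.re := by
    rw [hmC, Complex.sub_re, Complex.re_sum]
    congr 1
    refine Finset.sum_congr rfl fun b _ => ?_
    rw [Complex.re_ofReal_mul]
  have hmain : ∑ b, pr w b * h3F eps (G (update s w (some b))) (a (update s w (some b)))
        (z (update s w (some b))) (r x) -
      h3F eps (G (update s w none)) (a (update s w none)) (z (update s w none)) (r x) ≤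
      dphe eps zI mI - mC.re + 2 * (dd ^ 2 / eps) := by
    simp only [hF]
    have e1 : ∑ b, pr w b * (phe eps (zI + DI (some b)) - zC.re - (DC (some b)).re - eps) =
        ∑ b, pr w b * (phe eps (zI + DI (some b)) - phe eps zI - dphe eps zI (DI (some b))) +
        ∑ b, pr w b * dphe eps zI (DI (some b)) - ∑ b, pr w b * (DC (some b)).re +
        (phe eps zI - zC.re - eps) := by
      have e2 : phe eps zI - zC.re - eps = ∑ b, pr w b * (phe eps zI - zC.re - eps) := by
        rw [← Finset.sum_mul, h.pr1 w, one_mul]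
      rw [e2, ← Finset.sum_add_distrib, ← Finset.sum_sub_distrib, ← Finset.sum_add_distrib]
      refine Finset.sum_congr rfl fun b _ => ?_
      ring
    have e3 : ∑ b, pr w b * (phe eps (zI + DI (some b)) - phe eps zI -
        dphe eps zI (DI (some b))) ≤ dd ^ 2 / eps :=
      hsum1 _ _ fun b => (le_abs_self _).trans (hT (some b))
    have e4 : -(phe eps (zI + DI none) - phe eps zI - dphe eps zI (DI none)) ≤ dd ^ 2 / eps :=
      (neg_le_abs _).trans (hT none)
    rw [e1]
    linarith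
  -- main terms
  have hmI' := drift_le inv2_id h hE ha (r x) w (by
    have := h.mu2 w
    simp only [RingHom.id_apply]
    simpa only [sq] using this)
  have hmC' := drift_le inv2_conj h hE hz (r x) w (by
    have e1 := h.mus w
    have e2 : ∑ b, (pr w b : ℂ) * (u w (some b) * (starRingEnd ℂ) (u w (some b))) -
        u w none * (starRingEnd ℂ) (u w none) - (c w : ℂ) =
        ((∑ b, pr w b * ‖u w (some b)‖ ^ 2 - ‖u w none‖ ^ 2 - c w : ℝ) : ℂ) := by
      push_cast
      simp only [Complex.mul_conj, Complex.normSq_eq_norm_sq]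
      push_cast
      rfl
    rw [e2, Complex.norm_real, Real.norm_eq_abs]
    exact e1)
  change ‖mI - (c w : ℂ) * (G s (r x) (i w) * (RingHom.id ℂ) (G s (r x) (i w))) *
    bsum (RingHom.id ℂ) (G s) (a s) (i w)‖ ≤ _ at hmI'
  change ‖mC - (c w : ℂ) * (G s (r x) (i w) * (starRingEnd ℂ) (G s (r x) (i w))) *
    bsum (starRingEnd ℂ) (G s) (z s) (i w)‖ ≤ _ at hmC'
  set AI := bsum (RingHom.id ℂ) (G s) (a s) (i w) with hAI
  set AC := bsum (starRingEnd ℂ) (G s) (z s) (i w) with hAC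
  set E1 := 2 * be w ^ 2 * (g w + Cu * be w) * ‖G s (r x) (i w)‖ *
    ‖psum (RingHom.id ℂ) (G s) (a s) (r x) (i w)‖ + 7 * Cu ^ 2 * K * be w ^ 3 * S with hE1
  set E2 := 2 * be w ^ 2 * (g w + Cu * be w) * ‖G s (r x) (i w)‖ *
    ‖psum (starRingEnd ℂ) (G s) (z s) (r x) (i w)‖ + 7 * Cu ^ 2 * K * be w ^ 3 * S with hE2
  have k1 : dphe eps zI mI ≤ c w * S * ‖AI‖ + E1 := by
    have e1 : ‖mI‖ ≤ c w * S * ‖AI‖ + E1 := by
      have e2 : ‖(c w : ℂ) * (G s (r x) (i w) * (RingHom.id ℂ) (G s (r x) (i w))) * AI‖ =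
          c w * S * ‖AI‖ := by
        rw [norm_mul, norm_mul, norm_mul, RingHom.id_apply, Complex.norm_real,
          Real.norm_of_nonneg (h.c0 w), hS, sq]
      rw [← e2]
      have e3 := norm_add_le ((c w : ℂ) * (G s (r x) (i w) *
        (RingHom.id ℂ) (G s (r x) (i w))) * AI) (mI - (c w : ℂ) * (G s (r x) (i w) *
        (RingHom.id ℂ) (G s (r x) (i w))) * AI)
      rw [add_sub_cancel] at e3
      linarith
    exact (le_abs_self _).trans ((dphe_le heps zI mI).trans e1)
  have k2 : c w * S * AC.re - E2 ≤ mC.re := by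
    have e2 : ((c w : ℂ) * (G s (r x) (i w) * (starRingEnd ℂ) (G s (r x) (i w))) * AC).re =
        c w * S * AC.re := by
      rw [Complex.mul_conj, Complex.normSq_eq_norm_sq, ← Complex.ofReal_mul,
        Complex.re_ofReal_mul]
    have e3 := Complex.abs_re_le_norm (mC - (c w : ℂ) * (G s (r x) (i w) *
      (starRingEnd ℂ) (G s (r x) (i w))) * AC)
    rw [Complex.sub_re, e2] at e3
    have e4 := (neg_le_abs (mC.re - c w * S * AC.re)).trans (e3.trans hmC')
    linarith
  have k3 : c w * S * (‖AI‖ - AC.re) ≤ be w ^ 2 * S * max (h3F eps (G s) (a s) (z s) (i w)) 0 +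
      eps * (be w ^ 2 * S) := by
    have e1 : ‖AI‖ - AC.re ≤ h3F eps (G s) (a s) (z s) (i w) + eps := by
      unfold h3F
      have := phe_ge (eps := eps) AI
      linarith
    have e2 : ‖AI‖ - AC.re ≤ max (h3F eps (G s) (a s) (z s) (i w)) 0 + eps :=
      e1.trans (by linarith [le_max_left (h3F eps (G s) (a s) (z s) (i w)) 0])
    have e3 : 0 ≤ max (h3F eps (G s) (a s) (z s) (i w)) 0 + eps := by
      linarith [le_max_right (h3F eps (G s) (a s) (z s) (i w)) 0]
    calc c w * S * (‖AI‖ - AC.re) ≤ c w * S * (max (h3F eps (G s) (a s) (z s) (i w)) 0 + eps) :=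
          mul_le_mul_of_nonneg_left e2 (mul_nonneg (h.c0 w) hS0)
      _ ≤ be w ^ 2 * S * (max (h3F eps (G s) (a s) (z s) (i w)) 0 + eps) :=
          mul_le_mul_of_nonneg_right (mul_le_mul_of_nonneg_right (h.cb w) hS0) e3
      _ = _ := by ring
  have k4 : E1 + E2 ≤ 14 * Cu ^ 2 * K * b0 * (be w ^ 2 * S) +
      2 * (gm + Cu * b0) * (be w ^ 2 * ‖G s (r x) (i w)‖ * h3p i r (G s) (a s) (z s) x w) := by
    have e1 : E1 + E2 = (g w + Cu * be w) * (2 * (be w ^ 2 * ‖G s (r x) (i w)‖ *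
        h3p i r (G s) (a s) (z s) x w)) + be w * (14 * Cu ^ 2 * K * (be w ^ 2 * S)) := by
      rw [hE1, hE2]
      unfold h3p
      ring
    rw [e1]
    have e2 : (g w + Cu * be w) * (2 * (be w ^ 2 * ‖G s (r x) (i w)‖ *
        h3p i r (G s) (a s) (z s) x w)) ≤ (gm + Cu * b0) * (2 * (be w ^ 2 *
        ‖G s (r x) (i w)‖ * h3p i r (G s) (a s) (z s) x w)) := by
      refine mul_le_mul_of_nonneg_right (add_le_add (hgm w)
        (mul_le_mul_of_nonneg_left (h.beb w) hCu0)) ?_
      have := h3p_nonneg (i := i) (r := r) (G s) (a s) (z s) x w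
      positivity
    have e3 : be w * (14 * Cu ^ 2 * K * (be w ^ 2 * S)) ≤
        b0 * (14 * Cu ^ 2 * K * (be w ^ 2 * S)) :=
      mul_le_mul_of_nonneg_right (h.beb w) (by positivity)
    linarith
  refine hmain.trans ?_
  unfold h3e
  have k5 : 2 / eps * dd ^ 2 = 2 * (dd ^ 2 / eps) := by ring
  rw [← hdd, k5]
  have k6 : c w * S * (‖AI‖ - AC.re) = c w * S * ‖AI‖ - c w * S * AC.re := by ring
  nlinarith [k1, k2, k3, k4, k6]

end Pool.Agent.ANS
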