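import Pool.Agent.ANS.ObsK

/-! # ANS / ObsL: the component of (H3), sums and conclusion (helper52)

`obs_h3`: `Γ = ∑_κ ρ_κ ∑_x e_x (max (F^κ_x) 0 / t)^(2p)` satisfies `CompAt`.  `κ` runs over a finite set of pairs of
weights (uniform law: one pair), `∑ ρ ≤ 1`.
Sizes: `Q_x = ∑_w d² ≤ 232 Cu² K² t2` with `tau ≤ t2²`; drift `≤ ∑ β² S F⁺ + D2 + D3 + D4`,
`D2 = (ε + 14 Cu² K b0) R_x`, `D3 = 2 (gm + Cu b0) ∑ β² |G| p`, `D4 = (2/ε) Q_x`.
-/

set_option autoImplicit false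

open Finset Function

noncomputable section

namespace Pool.Agent.ANS

theorem four_pow (a b c d : ℝ) (ha : 0 ≤ a) (hb : 0 ≤ b) (hc : 0 ≤ c) (hd : 0 ≤ d) (n : ℕ) :
    (a + b + c + d) ^ n ≤ 4 ^ n * (a ^ n + b ^ n + c ^ n + d ^ n) := by
  have h1 : a + b + c + d = (a + b) + (c + d) := by ring
  rw [h1]
  refine (add_pow_le_two _ _ (add_nonneg ha hb) (add_nonneg hc hd) n).trans ?_
  have h2 := add_pow_le_two a b ha hb n
  have h3 := add_pow_le_two c d hc hd n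
  calc 2 ^ n * ((a + b) ^ n + (c + d) ^ n) ≤
        2 ^ n * (2 ^ n * (a ^ n + b ^ n) + 2 ^ n * (c ^ n + d ^ n)) :=
        mul_le_mul_of_nonneg_left (add_le_add h2 h3) (by positivity)
    _ = (2 ^ n * 2 ^ n) * (a ^ n + b ^ n + c ^ n + d ^ n) := by ring
    _ = _ := by
        rw [← mul_pow]
        norm_num

variable {N A X T : Type} [Fintype N] [DecidableEq N] [Fintype A] [DecidableEq A] [Fintype X]
  [Fintype T] [DecidableEq T]

variable {pr : N → A → ℝ} {i : N → T} {r : X → T} {G : (N → Option A) → Matrix T T ℂ}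
  {u : N → Option A → ℂ} {s : N → Option A} {e : X → ℝ} {be c g : N → ℝ}
  {Cu b0 K Ke tau Mc Lm : ℝ} {eta : T → ℝ} {a z : (N → Option A) → T → ℝ}
  {da dz : N → Option A → ℝ}

section one

variable (h : ObsAt pr i r G u s e be c g Cu b0 K Ke tau Mc Lm)
    (hE : EtaAt i r (G s) eta be K) (ha : WtAt pr i eta be s Cu a da)
    (hz : WtAt pr i eta be s Cu z dz)

include h hE ha hz

theorem h3p_le (x : X) (w : N) (hw : be w ≠ 0) : h3p i r (G s) (a s) (z s) x w ≤ 2 * K := by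
  have hK0 : 0 ≤ K := by linarith [h.K1]
  have h1 := ha.ps_le inv2_id hE hK0 x w hw
  have h2 := hz.ps_le inv2_conj hE hK0 x w hw
  unfold h3p
  linarith

theorem h3p_sum (x : X) : ∑ w, be w ^ 2 * h3p i r (G s) (a s) (z s) x w ^ 2 ≤ 4 * K ^ 2 := by
  have hK0 : 0 ≤ K := by linarith [h.K1]
  have h1 := ha.ps_sum inv2_id hE hK0 x
  have h2 := hz.ps_sum inv2_conj hE hK0 x
  calc ∑ w, be w ^ 2 * h3p i r (G s) (a s) (z s) x w ^ 2 ≤
        ∑ w, (2 * (be w ^ 2 * ‖psum (RingHom.id ℂ) (G s) (a s) (r x) (i w)‖ ^ 2) +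
          2 * (be w ^ 2 * ‖psum (starRingEnd ℂ) (G s) (z s) (r x) (i w)‖ ^ 2)) := by
        refine Finset.sum_le_sum fun w _ => ?_
        unfold h3p
        have e1 : ∀ p q : ℝ, (p + q) ^ 2 ≤ 2 * p ^ 2 + 2 * q ^ 2 := fun p q => by
          nlinarith [sq_nonneg (p - q)]
        have e2 := mul_le_mul_of_nonneg_left
          (e1 ‖psum (RingHom.id ℂ) (G s) (a s) (r x) (i w)‖
            ‖psum (starRingEnd ℂ) (G s) (z s) (r x) (i w)‖) (sq_nonneg (be w))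
        linarith
    _ = 2 * ∑ w, be w ^ 2 * ‖psum (RingHom.id ℂ) (G s) (a s) (r x) (i w)‖ ^ 2 +
          2 * ∑ w, be w ^ 2 * ‖psum (starRingEnd ℂ) (G s) (z s) (r x) (i w)‖ ^ 2 := by
        rw [Finset.sum_add_distrib, Finset.mul_sum, Finset.mul_sum]
    _ ≤ _ := by linarith

omit hE ha hz in
theorem cukb : Cu ^ 4 * K ^ 2 * b0 ^ 2 ≤ Cu ^ 2 := by
  have h1 : (Cu * b0 * K) ^ 2 ≤ 1 := by
    have h0 : 0 ≤ Cu * b0 * K :=
      mul_nonneg (mul_nonneg (by linarith [h.Cu1]) h.b00) (by linarith [h.K1])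
    exact pow_le_one₀ h0 h.small
  calc Cu ^ 4 * K ^ 2 * b0 ^ 2 = Cu ^ 2 * (Cu * b0 * K) ^ 2 := by ring
    _ ≤ Cu ^ 2 * 1 := mul_le_mul_of_nonneg_left h1 (sq_nonneg _)
    _ = _ := mul_one _

omit ha hz hE in
theorem h3d_sq (x : X) (w : N) : h3d i r (G s) (a s) (z s) be Cu K x w ^ 2 ≤
    8 * Cu ^ 2 * (be w ^ 2 * ‖G s (r x) (i w)‖ ^ 2 * h3p i r (G s) (a s) (z s) x w ^ 2) +
      200 * Cu ^ 2 * (be w ^ 2 * ‖G s (r x) (i w)‖ ^ 4) := by
  have e1 : ∀ p q : ℝ, (p + q) ^ 2 ≤ 2 * p ^ 2 + 2 * q ^ 2 := fun p q => by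
    nlinarith [sq_nonneg (p - q)]
  have e2 : be w ^ 2 ≤ b0 ^ 2 := pow_le_pow_left₀ (h.be0 w) (h.beb w) 2
  have e3 := cukb h
  unfold h3d
  refine (e1 _ _).trans ?_
  have e4 : 2 * (2 * Cu * be w * ‖G s (r x) (i w)‖ * h3p i r (G s) (a s) (z s) x w) ^ 2 =
      8 * Cu ^ 2 * (be w ^ 2 * ‖G s (r x) (i w)‖ ^ 2 * h3p i r (G s) (a s) (z s) x w ^ 2) := by
    ring
  have e5 : 2 * (10 * Cu ^ 2 * K * be w ^ 2 * ‖G s (r x) (i w)‖ ^ 2) ^ 2 ≤
      200 * Cu ^ 2 * (be w ^ 2 * ‖G s (r x) (i w)‖ ^ 4) := by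
    calc 2 * (10 * Cu ^ 2 * K * be w ^ 2 * ‖G s (r x) (i w)‖ ^ 2) ^ 2 =
          200 * (be w ^ 2 * ‖G s (r x) (i w)‖ ^ 4) * (Cu ^ 4 * K ^ 2 * be w ^ 2) := by ring
      _ ≤ 200 * (be w ^ 2 * ‖G s (r x) (i w)‖ ^ 4) * Cu ^ 2 := by
          refine mul_le_mul_of_nonneg_left ?_ (by positivity)
          exact (mul_le_mul_of_nonneg_left e2 (by positivity)).trans e3
      _ = _ := by ring
  linarith

theorem h3_Q {t2 : ℝ} (ht2 : tau ≤ t2 ^ 2) (ht0 : 0 ≤ t2) (ht1 : t2 ≤ 1) (x : X) :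
    ∑ w, h3d i r (G s) (a s) (z s) be Cu K x w ^ 2 ≤ 232 * Cu ^ 2 * K ^ 2 * t2 := by
  have hK0 : 0 ≤ K := by linarith [h.K1]
  have hCu0 : 0 ≤ Cu := by linarith [h.Cu1]
  set P : N → ℝ := fun w => h3p i r (G s) (a s) (z s) x w with hP
  have hP0 : ∀ w, 0 ≤ P w := fun w => h3p_nonneg _ _ _ _ _
  have hP2 := h3p_sum h hE ha hz x
  have hP4 : ∑ w, be w ^ 2 * (P w ^ 2) ^ 2 ≤ (4 * K ^ 2) ^ 2 := by
    calc ∑ w, be w ^ 2 * (P w ^ 2) ^ 2 ≤ ∑ w, 4 * K ^ 2 * (be w ^ 2 * P w ^ 2) := by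
          refine Finset.sum_le_sum fun w _ => ?_
          have e1 : be w ^ 2 * P w ^ 2 ≤ be w ^ 2 * (4 * K ^ 2) := sq_mul_le fun h0 => by
            calc P w ^ 2 ≤ (2 * K) ^ 2 := pow_le_pow_left₀ (hP0 w) (h3p_le h hE ha hz x w h0) 2
              _ = _ := by ring
          calc be w ^ 2 * (P w ^ 2) ^ 2 = be w ^ 2 * P w ^ 2 * P w ^ 2 := by ring
            _ ≤ be w ^ 2 * (4 * K ^ 2) * P w ^ 2 := mul_le_mul_of_nonneg_right e1 (sq_nonneg _)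
            _ = _ := by ring
      _ = 4 * K ^ 2 * ∑ w, be w ^ 2 * P w ^ 2 := by rw [Finset.mul_sum]
      _ ≤ 4 * K ^ 2 * (4 * K ^ 2) := mul_le_mul_of_nonneg_left hP2 (by positivity)
      _ = _ := by ring
  have hcs := cs_sq (fun w => be w ^ 2) (fun w => ‖G s (r x) (i w)‖ ^ 2) (fun w => P w ^ 2)
    (fun w => sq_nonneg _)
  have hS4 : ∑ w, be w ^ 2 * (‖G s (r x) (i w)‖ ^ 2) ^ 2 ≤ t2 ^ 2 := by
    refine le_trans (le_of_eq (Finset.sum_congr rfl fun w _ => ?_)) ((h.tauB x).trans ht2)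
    rw [← pow_mul]
  have h1 : ∑ w, be w ^ 2 * ‖G s (r x) (i w)‖ ^ 2 * P w ^ 2 ≤ 4 * K ^ 2 * t2 := by
    refine le_of_sq_le_sq ?_ (by positivity)
    refine hcs.trans ?_
    calc _ ≤ t2 ^ 2 * (4 * K ^ 2) ^ 2 := mul_le_mul hS4 hP4
          (Finset.sum_nonneg fun w _ => by positivity) (sq_nonneg _)
      _ = _ := by ring
  have h2 : t2 ^ 2 ≤ t2 := by nlinarith
  calc ∑ w, h3d i r (G s) (a s) (z s) be Cu K x w ^ 2
      ≤ ∑ w, (8 * Cu ^ 2 * (be w ^ 2 * ‖G s (r x) (i w)‖ ^ 2 * P w ^ 2) +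
          200 * Cu ^ 2 * (be w ^ 2 * ‖G s (r x) (i w)‖ ^ 4)) :=
        Finset.sum_le_sum fun w _ => h3d_sq h x w
    _ = 8 * Cu ^ 2 * ∑ w, be w ^ 2 * ‖G s (r x) (i w)‖ ^ 2 * P w ^ 2 +
          200 * Cu ^ 2 * ∑ w, be w ^ 2 * ‖G s (r x) (i w)‖ ^ 4 := by
        rw [Finset.sum_add_distrib, Finset.mul_sum, Finset.mul_sum]
    _ ≤ 8 * Cu ^ 2 * (4 * K ^ 2 * t2) + 200 * Cu ^ 2 * t2 := by
        refine add_le_add (mul_le_mul_of_nonneg_left h1 (by positivity))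
          (mul_le_mul_of_nonneg_left ?_ (by positivity))
        exact ((h.tauB x).trans ht2).trans h2
    _ ≤ 232 * Cu ^ 2 * K ^ 2 * t2 := by
        have hKK : 1 ≤ K ^ 2 := one_le_pow₀ h.K1
        have : 0 ≤ Cu ^ 2 * t2 := by positivity
        nlinarith [mul_le_mul_of_nonneg_left hKK this]

theorem h3_Qc (x : X) :
    ∑ w, h3d i r (G s) (a s) (z s) be Cu K x w ^ 2 ≤
      232 * Cu ^ 2 * K ^ 2 * Lm ^ 2 * ∑ w, be w ^ 2 * ‖G s (r x) (i w)‖ ^ 2 := by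
  have hK0 : 0 ≤ K := by linarith [h.K1]
  rw [Finset.mul_sum]
  refine Finset.sum_le_sum fun w _ => (h3d_sq h x w).trans ?_
  have e1 : be w ^ 2 * (‖G s (r x) (i w)‖ ^ 2 * h3p i r (G s) (a s) (z s) x w ^ 2) ≤
      be w ^ 2 * (‖G s (r x) (i w)‖ ^ 2 * (4 * K ^ 2)) := sq_mul_le fun h0 => by
    refine mul_le_mul_of_nonneg_left ?_ (sq_nonneg _)
    calc h3p i r (G s) (a s) (z s) x w ^ 2 ≤ (2 * K) ^ 2 :=
          pow_le_pow_left₀ (h3p_nonneg _ _ _ _ _) (h3p_le h hE ha hz x w h0) 2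
      _ = _ := by ring
  have e2 : be w ^ 2 * ‖G s (r x) (i w)‖ ^ 4 ≤ be w ^ 2 * (‖G s (r x) (i w)‖ ^ 2 * Lm ^ 2) :=
    sq_mul_le fun h0 => by
      have e3 : ‖G s (r x) (i w)‖ ^ 2 ≤ Lm ^ 2 := pow_le_pow_left₀ (norm_nonneg _) (h.ent x w h0) 2
      calc ‖G s (r x) (i w)‖ ^ 4 = ‖G s (r x) (i w)‖ ^ 2 * ‖G s (r x) (i w)‖ ^ 2 := by ring
        _ ≤ _ := mul_le_mul_of_nonneg_left e3 (sq_nonneg _)
  have e3 := mul_le_mul_of_nonneg_left e1 (show 0 ≤ 8 * Cu ^ 2 by positivity)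
  have e4 := mul_le_mul_of_nonneg_left e2 (show 0 ≤ 200 * Cu ^ 2 by positivity)
  set B := Cu ^ 2 * (be w ^ 2 * ‖G s (r x) (i w)‖ ^ 2) with hB
  have hB0 : 0 ≤ B := by positivity
  have hKK : 1 ≤ K ^ 2 := one_le_pow₀ h.K1
  have hLL : 1 ≤ Lm ^ 2 := one_le_pow₀ h.Lm1
  have f1 : B * K ^ 2 ≤ B * (K ^ 2 * Lm ^ 2) :=
    mul_le_mul_of_nonneg_left (by nlinarith) hB0
  have f2 : B * Lm ^ 2 ≤ B * (K ^ 2 * Lm ^ 2) :=
    mul_le_mul_of_nonneg_left (by nlinarith) hB0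
  calc _ ≤ 8 * Cu ^ 2 * (be w ^ 2 * (‖G s (r x) (i w)‖ ^ 2 * (4 * K ^ 2))) +
        200 * Cu ^ 2 * (be w ^ 2 * (‖G s (r x) (i w)‖ ^ 2 * Lm ^ 2)) := by linarith
    _ = 32 * (B * K ^ 2) + 200 * (B * Lm ^ 2) := by rw [hB]; ring
    _ ≤ 232 * (B * (K ^ 2 * Lm ^ 2)) := by linarith
    _ = _ := by rw [hB]; ring

/-- the bound of the drift of `F_x` -/
theorem h3_drift {eps gm : ℝ} (heps : 0 < eps) (hgm : ∀ w, g w ≤ gm) (x : X) :
    ∑ w, (∑ b, pr w b * h3F eps (G (update s w (some b))) (a (update s w (some b)))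
        (z (update s w (some b))) (r x) -
      h3F eps (G (update s w none)) (a (update s w none)) (z (update s w none)) (r x)) ≤
    ∑ w, be w ^ 2 * ‖G s (r x) (i w)‖ ^ 2 * max (h3F eps (G s) (a s) (z s) (i w)) 0 +
      (eps + 14 * Cu ^ 2 * K * b0) * ∑ w, be w ^ 2 * ‖G s (r x) (i w)‖ ^ 2 +
      2 * (gm + Cu * b0) * ∑ w, be w ^ 2 * ‖G s (r x) (i w)‖ * h3p i r (G s) (a s) (z s) x w +
      2 / eps * ∑ w, h3d i r (G s) (a s) (z s) be Cu K x w ^ 2 := by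
  refine (Finset.sum_le_sum fun w _ => h3_one h hE ha hz heps hgm x w).trans (le_of_eq ?_)
  rw [Finset.mul_sum, Finset.mul_sum, Finset.mul_sum, ← Finset.sum_add_distrib,
    ← Finset.sum_add_distrib, ← Finset.sum_add_distrib]
  refine Finset.sum_congr rfl fun w _ => ?_
  unfold h3e
  ring

/-- the source terms -/
theorem h3_D (p : ℕ) (hp : 2 ≤ p) {eps gm t t2 : ℝ} (heps : 0 < eps) (hgm0 : 0 ≤ gm)
    (ht : 0 < t) (ht2 : tau ≤ t2 ^ 2) (ht0 : 0 ≤ t2) (ht1 : t2 ≤ 1) :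
    ∑ x, e x * ((∑ w, be w ^ 2 * ‖G s (r x) (i w)‖ ^ 2 *
        max (h3F eps (G s) (a s) (z s) (i w)) 0 +
      (eps + 14 * Cu ^ 2 * K * b0) * ∑ w, be w ^ 2 * ‖G s (r x) (i w)‖ ^ 2 +
      2 * (gm + Cu * b0) * ∑ w, be w ^ 2 * ‖G s (r x) (i w)‖ * h3p i r (G s) (a s) (z s) x w +
      2 / eps * ∑ w, h3d i r (G s) (a s) (z s) be Cu K x w ^ 2) / t) ^ (2 * p) ≤
    4 ^ (2 * p) * (K ^ (2 * p) * Ke *
        ∑ x, e x * (max (h3F eps (G s) (a s) (z s) (r x)) 0 / t) ^ (2 * p) +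
      ((K * (eps + 14 * Cu ^ 2 * K * b0) / t) ^ (2 * p) * Mc +
        (16 * (gm + Cu * b0) ^ 2 * K ^ 3 / t ^ 2) ^ p * Mc +
        (464 * Cu ^ 2 * K ^ 2 * t2 / (eps * t)) ^ (2 * p - 1) *
          (464 * Cu ^ 2 * K ^ 3 * Lm ^ 2 * Mc / (eps * t)))) := by
  have hK1 := h.K1
  have hK0 : 0 ≤ K := by linarith
  have hCu0 : 0 ≤ Cu := by linarith [h.Cu1]
  have hMc : 0 ≤ Mc := le_trans (Finset.sum_nonneg fun w _ => sq_nonneg _) h.cnt
  have hb0 := h.b00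
  set S : X → N → ℝ := fun x w => ‖G s (r x) (i w)‖ ^ 2 with hS
  have hS0 : ∀ x w, 0 ≤ S x w := fun x w => sq_nonneg _
  set R : X → ℝ := fun x => ∑ w, be w ^ 2 * S x w with hR
  have hR0 : ∀ x, 0 ≤ R x := fun x => Finset.sum_nonneg fun w _ =>
    mul_nonneg (sq_nonneg _) (hS0 x w)
  have hRK : ∀ x, R x ≤ K := h.row
  set Fp : T → ℝ := fun t => max (h3F eps (G s) (a s) (z s) t) 0 with hFp
  have hFp0 : ∀ t, 0 ≤ Fp t := fun t => le_max_right _ _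
  set f2 := eps + 14 * Cu ^ 2 * K * b0 with hf2
  have hf20 : 0 ≤ f2 := by positivity
  set gp := gm + Cu * b0 with hgp
  have hgp0 : 0 ≤ gp := by positivity
  set P : X → N → ℝ := fun x w => h3p i r (G s) (a s) (z s) x w with hP
  have hP0 : ∀ x w, 0 ≤ P x w := fun x w => h3p_nonneg _ _ _ _ _
  set H : X → ℝ := fun x => ∑ w, be w ^ 2 * ‖G s (r x) (i w)‖ * P x w with hH
  have hH0 : ∀ x, 0 ≤ H x := fun x => Finset.sum_nonneg fun w _ =>
    mul_nonneg (mul_nonneg (sq_nonneg _) (norm_nonneg _)) (hP0 x w)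
  set Q : X → ℝ := fun x => ∑ w, h3d i r (G s) (a s) (z s) be Cu K x w ^ 2 with hQ
  have hQ0 : ∀ x, 0 ≤ Q x := fun x => Finset.sum_nonneg fun w _ => sq_nonneg _
  have hQm : ∀ x, Q x ≤ 232 * Cu ^ 2 * K ^ 2 * t2 := h3_Q h hE ha hz ht2 ht0 ht1
  have hQc : ∀ x, Q x ≤ 232 * Cu ^ 2 * K ^ 2 * Lm ^ 2 * R x := h3_Qc h hE ha hz
  have hcol : ∀ w, be w ^ 2 ≠ 0 → ∑ x, e x * S x w ≤ K := fun w h0 =>
    h.col w fun h1 => h0 (by rw [h1]; norm_num)
  -- term 1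
  have t1 : ∑ x, e x * ((∑ w, be w ^ 2 * S x w * Fp (i w)) / t) ^ (2 * p) ≤
      K ^ (2 * p) * Ke * ∑ x, e x * (Fp (r x) / t) ^ (2 * p) := by
    have e1 : ∀ x, (∑ w, be w ^ 2 * S x w * Fp (i w)) / t =
        ∑ w, be w ^ 2 * S x w * (Fp (i w) / t) := by
      intro x
      rw [Finset.sum_div]
      refine Finset.sum_congr rfl fun w _ => ?_
      ring
    simp only [e1]
    refine (schur_pow e (fun w => be w ^ 2) S (fun w => Fp (i w) / t) h.e0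
      (fun w => sq_nonneg _) hS0 (fun w => div_nonneg (hFp0 _) ht.le) hK0 h.row hcol (2 * p)
      (by omega)).trans ?_
    have e2 : K ^ (2 * p - 1) * K = K ^ (2 * p) := by
      rw [← pow_succ, Nat.sub_add_cancel (by omega)]
    rw [e2, mul_assoc]
    refine mul_le_mul_of_nonneg_left ?_ (by positivity)
    exact h.bee (fun y => (Fp y / t) ^ (2 * p)) fun y =>
      pow_nonneg (div_nonneg (hFp0 _) ht.le) _
  have hRn : ∀ n : ℕ, 1 ≤ n → ∑ x, e x * R x ^ n ≤ K ^ n * Mc := by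
    intro n hn
    have e1 := schur_pow e (fun w => be w ^ 2) S (fun _ => 1) h.e0
      (fun w => sq_nonneg _) hS0 (fun w => zero_le_one) hK0 h.row hcol n hn
    simp only [mul_one, one_pow] at e1
    refine e1.trans ?_
    have e2 : K ^ (n - 1) * K = K ^ n := by
      rw [← pow_succ, Nat.sub_add_cancel hn]
    rw [e2]
    exact mul_le_mul_of_nonneg_left h.cnt (by positivity)
  -- term 2
  have t2' : ∑ x, e x * (f2 * R x / t) ^ (2 * p) ≤ (K * f2 / t) ^ (2 * p) * Mc := by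
    calc ∑ x, e x * (f2 * R x / t) ^ (2 * p) = (f2 / t) ^ (2 * p) * ∑ x, e x * R x ^ (2 * p) := by
          rw [Finset.mul_sum]
          refine Finset.sum_congr rfl fun x _ => ?_
          have : f2 * R x / t = (f2 / t) * R x := by ring
          rw [this, mul_pow]
          ring
      _ ≤ (f2 / t) ^ (2 * p) * (K ^ (2 * p) * Mc) :=
          mul_le_mul_of_nonneg_left (hRn (2 * p) (by omega)) (by positivity)
      _ = _ := by
          have : K * f2 / t = (f2 / t) * K := by ring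
          rw [this, mul_pow (f2 / t) K]
          ring
  -- term 3
  have t3 : ∑ x, e x * (2 * gp * H x / t) ^ (2 * p) ≤ (16 * gp ^ 2 * K ^ 3 / t ^ 2) ^ p * Mc := by
    have e1 : ∀ x, H x ^ 2 ≤ R x * (4 * K ^ 2) := by
      intro x
      have e2 := cs_sq (fun w => be w ^ 2) (fun w => ‖G s (r x) (i w)‖) (fun w => P x w)
        (fun w => sq_nonneg _)
      exact e2.trans (mul_le_mul_of_nonneg_left (h3p_sum h hE ha hz x) (hR0 x))
    have e3 : ∀ x, (2 * gp * H x / t) ^ (2 * p) ≤ (16 * gp ^ 2 * K ^ 2 / t ^ 2) ^ p * R x ^ p := by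
      intro x
      rw [pow_mul, ← mul_pow]
      refine pow_le_pow_left₀ (sq_nonneg _) ?_ p
      calc (2 * gp * H x / t) ^ 2 = 4 * gp ^ 2 / t ^ 2 * H x ^ 2 := by ring
        _ ≤ 4 * gp ^ 2 / t ^ 2 * (R x * (4 * K ^ 2)) :=
            mul_le_mul_of_nonneg_left (e1 x) (by positivity)
        _ = _ := by ring
    calc ∑ x, e x * (2 * gp * H x / t) ^ (2 * p)
        ≤ ∑ x, (16 * gp ^ 2 * K ^ 2 / t ^ 2) ^ p * (e x * R x ^ p) := by
          refine Finset.sum_le_sum fun x _ => ?_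
          have := mul_le_mul_of_nonneg_left (e3 x) (h.e0 x)
          linarith
      _ = (16 * gp ^ 2 * K ^ 2 / t ^ 2) ^ p * ∑ x, e x * R x ^ p := by rw [Finset.mul_sum]
      _ ≤ (16 * gp ^ 2 * K ^ 2 / t ^ 2) ^ p * (K ^ p * Mc) :=
          mul_le_mul_of_nonneg_left (hRn p (by omega)) (by positivity)
      _ = _ := by
          have : 16 * gp ^ 2 * K ^ 3 / t ^ 2 = 16 * gp ^ 2 * K ^ 2 / t ^ 2 * K := by ring
          rw [this, mul_pow (16 * gp ^ 2 * K ^ 2 / t ^ 2) K]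
          ring
  -- term 4
  have t4 : ∑ x, e x * (2 / eps * Q x / t) ^ (2 * p) ≤
      (464 * Cu ^ 2 * K ^ 2 * t2 / (eps * t)) ^ (2 * p - 1) *
          (464 * Cu ^ 2 * K ^ 3 * Lm ^ 2 * Mc / (eps * t)) := by
    refine (sum_pow_le_max e (fun x => 2 / eps * Q x / t) h.e0
      (fun x => by have := hQ0 x; positivity) (m := 464 * Cu ^ 2 * K ^ 2 * t2 / (eps * t))
      (fun x => ?_) (2 * p) (by omega)).trans ?_
    · calc 2 / eps * Q x / t ≤ 2 / eps * (232 * Cu ^ 2 * K ^ 2 * t2) / t :=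
            div_le_div_of_nonneg_right (mul_le_mul_of_nonneg_left (hQm x) (by positivity)) ht.le
        _ = _ := by
            field_simp
            ring
    · refine mul_le_mul_of_nonneg_left ?_ (by positivity)
      calc ∑ x, e x * (2 / eps * Q x / t) ≤
            ∑ x, 464 * Cu ^ 2 * K ^ 2 * Lm ^ 2 / (eps * t) * (e x * R x ^ 1) := by
            refine Finset.sum_le_sum fun x _ => ?_
            have e1 : 2 / eps * Q x / t ≤ 2 / eps * (232 * Cu ^ 2 * K ^ 2 * Lm ^ 2 * R x) / t :=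
              div_le_div_of_nonneg_right (mul_le_mul_of_nonneg_left (hQc x) (by positivity)) ht.le
            refine (mul_le_mul_of_nonneg_left e1 (h.e0 x)).trans (le_of_eq ?_)
            field_simp
            ring
        _ = 464 * Cu ^ 2 * K ^ 2 * Lm ^ 2 / (eps * t) * ∑ x, e x * R x ^ 1 := by
            rw [Finset.mul_sum]
        _ ≤ 464 * Cu ^ 2 * K ^ 2 * Lm ^ 2 / (eps * t) * (K ^ 1 * Mc) :=
            mul_le_mul_of_nonneg_left (hRn 1 le_rfl) (by positivity)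
        _ = _ := by ring
  -- everything
  have hD1 : ∀ x, 0 ≤ ∑ w, be w ^ 2 * S x w * Fp (i w) := fun x =>
    Finset.sum_nonneg fun w _ => mul_nonneg (mul_nonneg (sq_nonneg _) (hS0 x w)) (hFp0 _)
  calc ∑ x, e x * ((∑ w, be w ^ 2 * S x w * Fp (i w) + f2 * R x + 2 * gp * H x +
        2 / eps * Q x) / t) ^ (2 * p)
      ≤ ∑ x, 4 ^ (2 * p) * (e x * ((∑ w, be w ^ 2 * S x w * Fp (i w)) / t) ^ (2 * p) +
          e x * (f2 * R x / t) ^ (2 * p) + e x * (2 * gp * H x / t) ^ (2 * p) +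
          e x * (2 / eps * Q x / t) ^ (2 * p)) := by
        refine Finset.sum_le_sum fun x _ => ?_
        have e1 := four_pow ((∑ w, be w ^ 2 * S x w * Fp (i w)) / t) (f2 * R x / t)
          (2 * gp * H x / t) (2 / eps * Q x / t) (div_nonneg (hD1 x) ht.le)
          (div_nonneg (mul_nonneg hf20 (hR0 x)) ht.le)
          (div_nonneg (mul_nonneg (by positivity) (hH0 x)) ht.le)
          (div_nonneg (mul_nonneg (by positivity) (hQ0 x)) ht.le) (2 * p)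
        have e2 : (∑ w, be w ^ 2 * S x w * Fp (i w) + f2 * R x + 2 * gp * H x +
            2 / eps * Q x) / t = (∑ w, be w ^ 2 * S x w * Fp (i w)) / t + f2 * R x / t +
            2 * gp * H x / t + 2 / eps * Q x / t := by ring
        rw [e2]
        refine (mul_le_mul_of_nonneg_left e1 (h.e0 x)).trans (le_of_eq ?_)
        ring
    _ = 4 ^ (2 * p) * (∑ x, e x * ((∑ w, be w ^ 2 * S x w * Fp (i w)) / t) ^ (2 * p) +
          ∑ x, e x * (f2 * R x / t) ^ (2 * p) + ∑ x, e x * (2 * gp * H x / t) ^ (2 * p) +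
          ∑ x, e x * (2 / eps * Q x / t) ^ (2 * p)) := by
        rw [← Finset.mul_sum, Finset.sum_add_distrib, Finset.sum_add_distrib,
          Finset.sum_add_distrib]
    _ ≤ _ := by
        refine mul_le_mul_of_nonneg_left ?_ (by positivity)
        linarith [t1, t2', t3, t4]

end one

/-- THE (H3) COMPONENT -/
theorem obs_h3 {L : Type} [Fintype L] (p : ℕ) (hp : 2 ≤ p)
    (h : ObsAt pr i r G u s e be c g Cu b0 K Ke tau Mc Lm)
    (hE : EtaAt i r (G s) eta be K) (a z : L → (N → Option A) → T → ℝ)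
    (da dz : L → N → Option A → ℝ) (ha : ∀ k, WtAt pr i eta be s Cu (a k) (da k))
    (hz : ∀ k, WtAt pr i eta be s Cu (z k) (dz k)) (rho : L → ℝ) (hrho : ∀ k, 0 ≤ rho k)
    (hrho1 : ∑ k, rho k ≤ 1) {eps gm t t2 dl : ℝ} (heps : 0 < eps) (hgm : ∀ w, g w ≤ gm)
    (hgm0 : 0 ≤ gm) (ht : 0 < t) (ht2 : tau ≤ t2 ^ 2) (ht0 : 0 ≤ t2) (ht1 : t2 ≤ 1)
    (hdl : 0 < dl) (hdl1 : dl ≤ 1)
    (hbd : KP p * ((232 * Cu ^ 2 * K ^ 2 * t2 / t ^ 2) ^ (p - 1) *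
      (232 * Cu ^ 2 * K ^ 3 * Lm ^ 2 * Mc / t ^ 2)) ≤ dl ^ (2 * p))
    (hs : ∑ y : L × X, rho y.1 * e y.2 *
      (max (h3F eps (G s) (a y.1 s) (z y.1 s) (r y.2)) 0 / t) ^ (2 * p) ≤ 1) :
    CompAt pr (fun s => ∑ y : L × X, rho y.1 * e y.2 *
        (max (h3F eps (G s) (a y.1 s) (z y.1 s) (r y.2)) 0 / t) ^ (2 * p)) s
      (KP p * (1 + (4 * K) ^ (2 * p) * Ke))
      (KP p * (4 ^ (2 * p) * ((K * (eps + 14 * Cu ^ 2 * K * b0) / t) ^ (2 * p) * Mc +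
        (16 * (gm + Cu * b0) ^ 2 * K ^ 3 / t ^ 2) ^ p * Mc +
        (464 * Cu ^ 2 * K ^ 2 * t2 / (eps * t)) ^ (2 * p - 1) *
          (464 * Cu ^ 2 * K ^ 3 * Lm ^ 2 * Mc / (eps * t))) +
        (232 * Cu ^ 2 * K ^ 2 * t2 / t ^ 2) ^ (p - 1) *
          (232 * Cu ^ 2 * K ^ 3 * Lm ^ 2 * Mc / t ^ 2))) dl := by
  have hK1 := h.K1
  have hK0 : 0 ≤ K := by linarith
  have hCu0 : 0 ≤ Cu := by linarith [h.Cu1]
  have hMc : 0 ≤ Mc := le_trans (Finset.sum_nonneg fun w _ => sq_nonneg _) h.cnt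
  have hb0 := h.b00
  set B := (K * (eps + 14 * Cu ^ 2 * K * b0) / t) ^ (2 * p) * Mc +
        (16 * (gm + Cu * b0) ^ 2 * K ^ 3 / t ^ 2) ^ p * Mc +
        (464 * Cu ^ 2 * K ^ 2 * t2 / (eps * t)) ^ (2 * p - 1) *
          (464 * Cu ^ 2 * K ^ 3 * Lm ^ 2 * Mc / (eps * t)) with hB
  have hB0 : 0 ≤ B := by positivity
  set bQ := (232 * Cu ^ 2 * K ^ 2 * t2 / t ^ 2) ^ (p - 1) *
          (232 * Cu ^ 2 * K ^ 3 * Lm ^ 2 * Mc / t ^ 2) with hbQd
  set Γ := ∑ y : L × X, rho y.1 * e y.2 *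
      (max (h3F eps (G s) (a y.1 s) (z y.1 s) (r y.2)) 0 / t) ^ (2 * p) with hΓ
  have hbQ0 : 0 ≤ bQ := by positivity
  -- the drift bound of one row
  set D : L × X → ℝ := fun y =>
    ∑ w, be w ^ 2 * ‖G s (r y.2) (i w)‖ ^ 2 *
        max (h3F eps (G s) (a y.1 s) (z y.1 s) (i w)) 0 +
      (eps + 14 * Cu ^ 2 * K * b0) * ∑ w, be w ^ 2 * ‖G s (r y.2) (i w)‖ ^ 2 +
      2 * (gm + Cu * b0) * ∑ w, be w ^ 2 * ‖G s (r y.2) (i w)‖ *
        h3p i r (G s) (a y.1 s) (z y.1 s) y.2 w +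
      2 / eps * ∑ w, h3d i r (G s) (a y.1 s) (z y.1 s) be Cu K y.2 w ^ 2 with hDd
  have hD0 : ∀ y, 0 ≤ D y := by
    intro y
    have e1 : 0 ≤ ∑ w, be w ^ 2 * ‖G s (r y.2) (i w)‖ ^ 2 *
        max (h3F eps (G s) (a y.1 s) (z y.1 s) (i w)) 0 :=
      Finset.sum_nonneg fun w _ => mul_nonneg (by positivity) (le_max_right _ _)
    have e2 : 0 ≤ ∑ w, be w ^ 2 * ‖G s (r y.2) (i w)‖ *
        h3p i r (G s) (a y.1 s) (z y.1 s) y.2 w :=
      Finset.sum_nonneg fun w _ => mul_nonneg (by positivity) (h3p_nonneg _ _ _ _ _)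
    have e3 : 0 ≤ gm + Cu * b0 := by positivity
    simp only [hDd]
    positivity
  have hsplit : ∀ f : L × X → ℝ, ∑ y : L × X, rho y.1 * e y.2 * f y =
      ∑ k, rho k * ∑ x, e x * f (k, x) := by
    intro f
    rw [Fintype.sum_prod_type]
    refine Finset.sum_congr rfl fun k _ => ?_
    rw [Finset.mul_sum]
    refine Finset.sum_congr rfl fun x _ => ?_
    ring
  have hcomb : ∀ (f : L → ℝ) (B : ℝ), 0 ≤ B → (∀ k, f k ≤ B) → ∑ k, rho k * f k ≤ B := by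
    intro f B hB0 hf
    calc ∑ k, rho k * f k ≤ ∑ k, rho k * B :=
          Finset.sum_le_sum fun k _ => mul_le_mul_of_nonneg_left (hf k) (hrho k)
      _ = (∑ k, rho k) * B := by rw [← Finset.sum_mul]
      _ ≤ 1 * B := mul_le_mul_of_nonneg_right hrho1 hB0
      _ = B := one_mul B
  have hbD : ∑ y : L × X, rho y.1 * e y.2 * (D y / t) ^ (2 * p) ≤
      4 ^ (2 * p) * (K ^ (2 * p) * Ke * Γ + B) := by
    rw [hsplit]
    have e1 : ∀ k, rho k * ∑ x, e x * (D (k, x) / t) ^ (2 * p) ≤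
        4 ^ (2 * p) * (K ^ (2 * p) * Ke * (rho k * ∑ x, e x *
          (max (h3F eps (G s) (a k s) (z k s) (r x)) 0 / t) ^ (2 * p))) +
          rho k * (4 ^ (2 * p) * B) := by
      intro k
      have e2 := h3_D h hE (ha k) (hz k) p hp heps hgm0 ht ht2 ht0 ht1
      have e3 := mul_le_mul_of_nonneg_left e2 (hrho k)
      refine e3.trans (le_of_eq ?_)
      rw [← hB]
      ring
    calc ∑ k, rho k * ∑ x, e x * (D (k, x) / t) ^ (2 * p)
        ≤ ∑ k, (4 ^ (2 * p) * (K ^ (2 * p) * Ke * (rho k * ∑ x, e x *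
          (max (h3F eps (G s) (a k s) (z k s) (r x)) 0 / t) ^ (2 * p))) +
          rho k * (4 ^ (2 * p) * B)) := Finset.sum_le_sum fun k _ => e1 k
      _ = 4 ^ (2 * p) * (K ^ (2 * p) * Ke * Γ) + ∑ k, rho k * (4 ^ (2 * p) * B) := by
          rw [Finset.sum_add_distrib, ← Finset.mul_sum, ← Finset.mul_sum]
          congr 3
          rw [hΓ, hsplit]
      _ ≤ 4 ^ (2 * p) * (K ^ (2 * p) * Ke * Γ) + 4 ^ (2 * p) * B :=
          add_le_add le_rfl (hcomb (fun _ => 4 ^ (2 * p) * B) _ (by positivity) fun k => le_rfl)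
      _ = _ := by ring
  have hbQ : ∑ y : L × X, rho y.1 * e y.2 *
      ((∑ w, h3d i r (G s) (a y.1 s) (z y.1 s) be Cu K y.2 w ^ 2) / t ^ 2) ^ p ≤ bQ := by
    rw [hsplit]
    refine hcomb (fun k => ∑ x, e x * ((∑ w, h3d i r (G s) (a (k, x).1 s) (z (k, x).1 s) be Cu K
      (k, x).2 w ^ 2) / t ^ 2) ^ p) bQ hbQ0 fun k => ?_
    have hQ0 : ∀ x, 0 ≤ ∑ w, h3d i r (G s) (a k s) (z k s) be Cu K x w ^ 2 := fun x =>
      Finset.sum_nonneg fun w _ => sq_nonneg _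
    refine (sum_pow_le_max e
      (fun x => (∑ w, h3d i r (G s) (a k s) (z k s) be Cu K x w ^ 2) / t ^ 2) h.e0
      (fun x => div_nonneg (hQ0 x) (sq_nonneg t)) (m := 232 * Cu ^ 2 * K ^ 2 * t2 / t ^ 2)
      (fun x => div_le_div_of_nonneg_right (h3_Q h hE (ha k) (hz k) ht2 ht0 ht1 x)
        (sq_nonneg t)) p (by omega)).trans ?_
    refine mul_le_mul_of_nonneg_left ?_ (by positivity)
    calc ∑ x, e x * ((∑ w, h3d i r (G s) (a k s) (z k s) be Cu K x w ^ 2) / t ^ 2)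
        ≤ ∑ x, 232 * Cu ^ 2 * K ^ 2 * Lm ^ 2 / t ^ 2 *
            (e x * ∑ w, be w ^ 2 * ‖G s (r x) (i w)‖ ^ 2) := by
          refine Finset.sum_le_sum fun x _ => ?_
          have e1 := div_le_div_of_nonneg_right (h3_Qc h hE (ha k) (hz k) x) (sq_nonneg t)
          refine (mul_le_mul_of_nonneg_left e1 (h.e0 x)).trans (le_of_eq ?_)
          ring
      _ = 232 * Cu ^ 2 * K ^ 2 * Lm ^ 2 / t ^ 2 *
            ∑ x, e x * ∑ w, be w ^ 2 * ‖G s (r x) (i w)‖ ^ 2 := by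
          rw [Finset.mul_sum]
      _ ≤ 232 * Cu ^ 2 * K ^ 2 * Lm ^ 2 / t ^ 2 * (K * Mc) :=
          mul_le_mul_of_nonneg_left h.cnt_row (by positivity)
      _ = _ := by ring
  refine (comp_pos p hp pr h.pr0 h.pr1 (fun y : L × X => rho y.1 * e y.2)
    (fun y => mul_nonneg (hrho _) (h.e0 _))
    (fun y s => h3F eps (G s) (a y.1 s) (z y.1 s) (r y.2)) ht s
    (fun y w => h3d i r (G s) (a y.1 s) (z y.1 s) be Cu K y.2 w)
    (fun y w b => h3_jump h hE (ha y.1) (hz y.1) heps y.2 w b) D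
    (fun y => ∑ w, h3d i r (G s) (a y.1 s) (z y.1 s) be Cu K y.2 w ^ 2) hD0
    (fun y _ => h3_drift h hE (ha y.1) (hz y.1) heps hgm y.2) (fun y => le_rfl) hbD hbQ hdl hdl1
    hbd hs).monoObs ?_
  show KP p * Γ + KP p * (4 ^ (2 * p) * (K ^ (2 * p) * Ke * Γ + B) + bQ) ≤
    KP p * (1 + (4 * K) ^ (2 * p) * Ke) * Γ + KP p * (4 ^ (2 * p) * B + bQ)
  refine le_of_eq ?_
  rw [mul_pow]
  ring

end Pool.Agent.ANS
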