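import Pool.Agent.ANS.ObsGB
import Pool.Agent.ANS.ObsL

/-! # ANS / ObsLB: the component of (H3), general laws (helper52)

Reduction to the uniform case: `prj ok s s'` = the configuration `s'` with the values of `s` at the sites `w` with a bad value
`s w`.  At `s` the functions `G ∘ prj`, `a ∘ prj` and `u` cut off at the bad sites satisfy the hypotheses of ObsH, ObsK, ObsL
(`PB.ObsAt.toA`, `PB.WtAt.toA`); the bounds of one jump and of the mean change of one site are then those of the uniform case.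
`obs_h3`: `Γ = ∑_κ ρ_κ ∑_x e_x(s) (max (F^κ_x) 0 / t)^(2p)` satisfies `CompB`.
-/

set_option autoImplicit false

open Finset Function

noncomputable section

namespace Pool.Agent.ANS.PB

variable {N A X T : Type} [Fintype N] [DecidableEq N] [Fintype A] [DecidableEq A] [Fintype X]
  [Fintype T] [DecidableEq T]

open Classical in
/-- the values of `s` at the bad sites -/
def prj (ok : N → Option A → Prop) (s s' : N → Option A) : N → Option A :=
  fun w => if ok w (s w) then s' w else s w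

variable {ok : N → Option A → Prop} {s : N → Option A}

omit [Fintype N] [DecidableEq N] [Fintype A] [DecidableEq A] in
theorem prj_self : prj ok s s = s := by
  funext w
  unfold prj
  split_ifs <;> rfl

omit [Fintype N] [Fintype A] [DecidableEq A] in
theorem prj_ok {w : N} (hw : ok w (s w)) (b : Option A) : prj ok s (update s w b) = update s w b := by
  funext w'
  unfold prj
  by_cases h : w' = w
  · subst h
    rw [if_pos hw]
  · rw [update_of_ne h]
    split_ifs <;> rfl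

omit [Fintype N] [Fintype A] [DecidableEq A] in
theorem prj_bad {w : N} (hw : ¬ ok w (s w)) (b : Option A) : prj ok s (update s w b) = s := by
  funext w'
  unfold prj
  by_cases h : w' = w
  · subst h
    rw [if_neg hw]
  · rw [update_of_ne h]
    split_ifs <;> rfl

/-- a weight of (H3) at `s` with its jumps, general laws -/
structure WtAt (pr : N → A → ℝ) (ok : N → Option A → Prop) (i : N → T) (eta : T → ℝ) (be : N → ℝ)
    (s : N → Option A) (Cu : ℝ) (a : (N → Option A) → T → ℝ) (da : N → Option A → ℝ) : Prop where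
  jump : ∀ w, ok w (s w) → ∀ b t, a (update s w b) t = a s t + if t = i w then da w b else 0
  a0 : ∀ t, 0 ≤ a s t
  ae : ∀ t, a s t ≤ eta t
  dab : ∀ w, ok w (s w) → ∀ b, |da w b| ≤ Cu * be w ^ 2
  dam : ∀ w, ok w (s w) → ∑ b, pr w b * da w (some b) = da w none

variable {pr : N → A → ℝ} {i : N → T} {r : X → T} {G : (N → Option A) → Matrix T T ℂ}
  {u : N → Option A → ℂ} {e : X → (N → Option A) → ℝ} {be c g : N → ℝ}
  {Cu b0 K Ke tau Mc Lm : ℝ} {eta : T → ℝ} {a z : (N → Option A) → T → ℝ}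
  {da dz : N → Option A → ℝ}

open Classical in
theorem ObsAt.toA (h : ObsAt pr ok i r G u s e be c g Cu b0 K Ke tau Mc Lm) :
    ANS.ObsAt pr i r (fun s' => G (prj ok s s')) (fun w b => if ok w (s w) then u w b else 0) s
      (fun x => e x s) be c g Cu b0 K Ke tau Mc Lm where
  pr0 := h.pr0
  pr1 := h.pr1
  sym x y := by
    show G (prj ok s s) x y = G (prj ok s s) y x
    rw [prj_self]
    exact h.sym x y
  rep w b x y := by
    show G (prj ok s (update s w b)) x y = G (prj ok s s) x y -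
      (if ok w (s w) then u w b else 0) * G (prj ok s s) x (i w) * G (prj ok s s) (i w) y
    rw [prj_self]
    by_cases hw : ok w (s w)
    · rw [prj_ok hw, if_pos hw]
      exact h.rep w hw b x y
    · rw [prj_bad hw, if_neg hw]
      ring
  ub w b := by
    by_cases hw : ok w (s w)
    · simp only [if_pos hw]
      exact h.ub w hw b
    · simp only [if_neg hw, norm_zero]
      exact mul_nonneg (by linarith [h.Cu1]) (h.be0 w)
  be0 := h.be0
  beb := h.beb
  c0 := h.c0
  cb := h.cb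
  g0 := h.g0
  mu w := by
    by_cases hw : ok w (s w)
    · simp only [if_pos hw]
      exact h.mu w hw
    · simp only [if_neg hw, mul_zero, Finset.sum_const_zero, sub_self, norm_zero]
      exact mul_nonneg (sq_nonneg _) (add_nonneg (h.g0 w)
        (mul_nonneg (by linarith [h.Cu1]) (h.be0 w)))
  mu2 w := by
    by_cases hw : ok w (s w)
    · simp only [if_pos hw]
      exact h.mu2 w hw
    · have hb := h.bek w hw
      have hc : c w = 0 := le_antisymm (by have := h.cb w; rw [hb] at this; simpa using this)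
        (h.c0 w)
      simp [if_neg hw, hb, hc]
  mus w := by
    by_cases hw : ok w (s w)
    · simp only [if_pos hw]
      exact h.mus w hw
    · have hb := h.bek w hw
      have hc : c w = 0 := le_antisymm (by have := h.cb w; rw [hb] at this; simpa using this)
        (h.c0 w)
      simp [if_neg hw, hb, hc]
  e0 x := h.e0 x s
  Cu1 := h.Cu1
  K1 := h.K1
  Ke0 := h.Ke0
  b00 := h.b00
  tau0 := h.tau0
  small := h.small
  entw w hw := by
    show ‖G (prj ok s s) (i w) (i w)‖ ≤ K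
    rw [prj_self]
    exact h.entw w hw
  ent x w hw := by
    show ‖G (prj ok s s) (r x) (i w)‖ ≤ Lm
    rw [prj_self]
    exact h.ent x w hw
  Lm1 := h.Lm1
  row x := by
    show ∑ w, be w ^ 2 * ‖G (prj ok s s) (r x) (i w)‖ ^ 2 ≤ K
    rw [prj_self]
    exact h.row x
  col w hw := by
    show ∑ x, e x s * ‖G (prj ok s s) (r x) (i w)‖ ^ 2 ≤ K
    rw [prj_self]
    exact h.col w hw
  tauB x := by
    show ∑ w, be w ^ 2 * ‖G (prj ok s s) (r x) (i w)‖ ^ 4 ≤ tau
    rw [prj_self]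
    exact h.tauB x
  cnt := h.cnt
  bee := h.bee

open Classical in
theorem WtAt.toA (h : ObsAt pr ok i r G u s e be c g Cu b0 K Ke tau Mc Lm)
    (ha : WtAt pr ok i eta be s Cu a da) :
    ANS.WtAt pr i eta be s Cu (fun s' => a (prj ok s s'))
      (fun w b => if ok w (s w) then da w b else 0) where
  jump w b t := by
    show a (prj ok s (update s w b)) t = a (prj ok s s) t +
      if t = i w then (if ok w (s w) then da w b else 0) else 0
    rw [prj_self]
    by_cases hw : ok w (s w)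
    · rw [prj_ok hw, if_pos hw]
      exact ha.jump w hw b t
    · rw [prj_bad hw, if_neg hw]
      simp
  a0 t := by
    show 0 ≤ a (prj ok s s) t
    rw [prj_self]
    exact ha.a0 t
  ae t := by
    show a (prj ok s s) t ≤ eta t
    rw [prj_self]
    exact ha.ae t
  dab w b := by
    by_cases hw : ok w (s w)
    · simp only [if_pos hw]
      exact ha.dab w hw b
    · simp only [if_neg hw, abs_zero]
      exact mul_nonneg (by linarith [h.Cu1]) (sq_nonneg _)
  dam w := by
    by_cases hw : ok w (s w)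
    · simp only [if_pos hw]
      exact ha.dam w hw
    · simp [if_neg hw]

section one

variable (h : ObsAt pr ok i r G u s e be c g Cu b0 K Ke tau Mc Lm)
    (hE : EtaAt i r (G s) eta be K) (ha : WtAt pr ok i eta be s Cu a da)
    (hz : WtAt pr ok i eta be s Cu z dz)

include h hE ha hz

theorem h3_jump {eps : ℝ} (heps : 0 < eps) (x : X) (w : N) (b : Option A) (hw : ok w (s w)) :
    |h3F eps (G (update s w b)) (a (update s w b)) (z (update s w b)) (r x) -
      h3F eps (G s) (a s) (z s) (r x)| ≤ h3d i r (G s) (a s) (z s) be Cu K x w := by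
  have hE' : EtaAt i r (G (prj ok s s)) eta be K := by rw [prj_self]; exact hE
  have h1 := ANS.h3_jump h.toA hE' (ha.toA h) (hz.toA h) heps x w b
  simp only [prj_self, prj_ok hw] at h1
  exact h1

theorem h3_one {eps gm : ℝ} (heps : 0 < eps) (hgm : ∀ w, g w ≤ gm) (x : X) (w : N)
    (hw : ok w (s w)) :
    ∑ b, pr w b * h3F eps (G (update s w (some b))) (a (update s w (some b)))
        (z (update s w (some b))) (r x) -
      h3F eps (G (update s w none)) (a (update s w none)) (z (update s w none)) (r x) ≤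
    be w ^ 2 * ‖G s (r x) (i w)‖ ^ 2 * max (h3F eps (G s) (a s) (z s) (i w)) 0 +
      h3e i r (G s) (a s) (z s) be Cu K b0 gm eps x w := by
  have hE' : EtaAt i r (G (prj ok s s)) eta be K := by rw [prj_self]; exact hE
  have h1 := ANS.h3_one h.toA hE' (ha.toA h) (hz.toA h) heps hgm x w
  simp only [prj_self, prj_ok hw] at h1
  exact h1

/-- the bound of the drift of `F_x` with rates -/
theorem h3_drift {eps gm : ℝ} (heps : 0 < eps) (hgm : ∀ w, g w ≤ gm) (hgm0 : 0 ≤ gm) (x : X)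
    (q : N → ℝ) (hq : Rate ok s q) :
    ∑ w, q w * (∑ b, pr w b * h3F eps (G (update s w (some b))) (a (update s w (some b)))
        (z (update s w (some b))) (r x) -
      h3F eps (G (update s w none)) (a (update s w none)) (z (update s w none)) (r x)) ≤
    2 * (∑ w, be w ^ 2 * ‖G s (r x) (i w)‖ ^ 2 * max (h3F eps (G s) (a s) (z s) (i w)) 0 +
      (eps + 14 * Cu ^ 2 * K * b0) * ∑ w, be w ^ 2 * ‖G s (r x) (i w)‖ ^ 2 +
      2 * (gm + Cu * b0) * ∑ w, be w ^ 2 * ‖G s (r x) (i w)‖ * h3p i r (G s) (a s) (z s) x w +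
      2 / eps * ∑ w, h3d i r (G s) (a s) (z s) be Cu K x w ^ 2) := by
  have hCu0 : 0 ≤ Cu := by linarith [h.Cu1]
  have hK0 : 0 ≤ K := by linarith [h.K1]
  have hb0 := h.b00
  have e1 : ∀ w, 0 ≤ be w ^ 2 * ‖G s (r x) (i w)‖ ^ 2 *
      max (h3F eps (G s) (a s) (z s) (i w)) 0 + h3e i r (G s) (a s) (z s) be Cu K b0 gm eps x w := by
    intro w
    have h1 := h3p_nonneg (i := i) (r := r) (G s) (a s) (z s) x w
    have h2 : 0 ≤ max (h3F eps (G s) (a s) (z s) (i w)) 0 := le_max_right _ _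
    unfold h3e
    positivity
  have e2 : ∑ w, q w * (∑ b, pr w b * h3F eps (G (update s w (some b))) (a (update s w (some b)))
        (z (update s w (some b))) (r x) -
      h3F eps (G (update s w none)) (a (update s w none)) (z (update s w none)) (r x)) ≤
      ∑ w, 2 * (be w ^ 2 * ‖G s (r x) (i w)‖ ^ 2 * max (h3F eps (G s) (a s) (z s) (i w)) 0 +
        h3e i r (G s) (a s) (z s) be Cu K b0 gm eps x w) := by
    refine Finset.sum_le_sum fun w _ => ?_
    by_cases hw : ok w (s w)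
    · exact (mul_le_mul_of_nonneg_left (h3_one h hE ha hz heps hgm x w hw) (hq.r0 w)).trans
        (mul_le_mul_of_nonneg_right (hq.r2 w) (e1 w))
    · rw [hq.off w hw, zero_mul]
      exact mul_nonneg (by norm_num) (e1 w)
  refine e2.trans (le_of_eq ?_)
  rw [← Finset.mul_sum]
  congr 1
  rw [Finset.mul_sum, Finset.mul_sum, Finset.mul_sum, ← Finset.sum_add_distrib,
    ← Finset.sum_add_distrib, ← Finset.sum_add_distrib]
  refine Finset.sum_congr rfl fun w _ => ?_
  unfold h3e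
  ring

end one

/-- THE (H3) COMPONENT, general laws -/
theorem obs_h3 {L : Type} [Fintype L] (p : ℕ) (hp : 2 ≤ p)
    (h : ObsAt pr ok i r G u s e be c g Cu b0 K Ke tau Mc Lm)
    (hE : EtaAt i r (G s) eta be K) (a z : L → (N → Option A) → T → ℝ)
    (da dz : L → N → Option A → ℝ) (ha : ∀ k, WtAt pr ok i eta be s Cu (a k) (da k))
    (hz : ∀ k, WtAt pr ok i eta be s Cu (z k) (dz k)) (rho : L → ℝ) (hrho : ∀ k, 0 ≤ rho k)
    (hrho1 : ∑ k, rho k ≤ 1) {eps gm t t2 dl : ℝ} (heps : 0 < eps) (hgm : ∀ w, g w ≤ gm)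
    (hgm0 : 0 ≤ gm) (ht : 0 < t) (ht2 : tau ≤ t2 ^ 2) (ht0 : 0 ≤ t2) (ht1 : t2 ≤ 1)
    (hdl : 0 < dl) (hdl1 : dl ≤ 1)
    (hbd : KP p * ((232 * Cu ^ 2 * K ^ 2 * t2 / t ^ 2) ^ (p - 1) *
      (232 * Cu ^ 2 * K ^ 3 * Lm ^ 2 * Mc / t ^ 2)) ≤ dl ^ (2 * p))
    (hs : ∑ y : L × X, rho y.1 * e y.2 s *
      (max (h3F eps (G s) (a y.1 s) (z y.1 s) (r y.2)) 0 / t) ^ (2 * p) ≤ 1) :
    CompB pr ok (fun s' => ∑ y : L × X, rho y.1 * e y.2 s' *
        (max (h3F eps (G s') (a y.1 s') (z y.1 s') (r y.2)) 0 / t) ^ (2 * p)) s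
      (2 * (KP p * (1 + (8 * K) ^ (2 * p) * Ke)))
      (2 * (KP p * (8 ^ (2 * p) * ((K * (eps + 14 * Cu ^ 2 * K * b0) / t) ^ (2 * p) * Mc +
        (16 * (gm + Cu * b0) ^ 2 * K ^ 3 / t ^ 2) ^ p * Mc +
        (464 * Cu ^ 2 * K ^ 2 * t2 / (eps * t)) ^ (2 * p - 1) *
          (464 * Cu ^ 2 * K ^ 3 * Lm ^ 2 * Mc / (eps * t))) +
        (232 * Cu ^ 2 * K ^ 2 * t2 / t ^ 2) ^ (p - 1) *
          (232 * Cu ^ 2 * K ^ 3 * Lm ^ 2 * Mc / t ^ 2)))) dl := by
  have hK1 := h.K1
  have hK0 : 0 ≤ K := by linarith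
  have hCu0 : 0 ≤ Cu := by linarith [h.Cu1]
  have hMc : 0 ≤ Mc := le_trans (Finset.sum_nonneg fun w _ => sq_nonneg _) h.cnt
  have hb0 := h.b00
  -- the uniform case at `s`
  have hA := h.toA
  have hE' : EtaAt i r (G (prj ok s s)) eta be K := by rw [prj_self]; exact hE
  have haA := fun k => (ha k).toA h
  have hzA := fun k => (hz k).toA h
  set B := (K * (eps + 14 * Cu ^ 2 * K * b0) / t) ^ (2 * p) * Mc +
        (16 * (gm + Cu * b0) ^ 2 * K ^ 3 / t ^ 2) ^ p * Mc +
        (464 * Cu ^ 2 * K ^ 2 * t2 / (eps * t)) ^ (2 * p - 1) *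
          (464 * Cu ^ 2 * K ^ 3 * Lm ^ 2 * Mc / (eps * t)) with hB
  have hB0 : 0 ≤ B := by positivity
  set bQ := (232 * Cu ^ 2 * K ^ 2 * t2 / t ^ 2) ^ (p - 1) *
          (232 * Cu ^ 2 * K ^ 3 * Lm ^ 2 * Mc / t ^ 2) with hbQd
  set Γ := ∑ y : L × X, rho y.1 * e y.2 s *
      (max (h3F eps (G s) (a y.1 s) (z y.1 s) (r y.2)) 0 / t) ^ (2 * p) with hΓ
  have hbQ0 : 0 ≤ bQ := by positivity
  -- the drift bound of one row
  set D : L × X → ℝ := fun y =>
    ∑ w, be w ^ 2 * ‖G s (r y.2) (i w)‖ ^ 2 *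
        max (h3F eps (G s) (a y.1 s) (z y.1 s) (i w)) 0 +
      (eps + 14 * Cu ^ 2 * K * b0) * ∑ w, be w ^ 2 * ‖G s (r y.2) (i w)‖ ^ 2 +
      2 * (gm + Cu * b0) * ∑ w, be w ^ 2 * ‖G s (r y.2) (i w)‖ *
        h3p i r (G s) (a y.1 s) (z y.1 s) y.2 w +
      2 / eps * ∑ w, h3d i r (G s) (a y.1 s) (z y.1 s) be Cu K y.2 w ^ 2 with hDd
  have hD0 : ∀ y, 0 ≤ D y := by
    intro y
    have e1 : 0 ≤ ∑ w, be w ^ 2 * ‖G s (r y.2) (i w)‖ ^ 2 *
        max (h3F eps (G s) (a y.1 s) (z y.1 s) (i w)) 0 :=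
      Finset.sum_nonneg fun w _ => mul_nonneg (by positivity) (le_max_right _ _)
    have e2 : 0 ≤ ∑ w, be w ^ 2 * ‖G s (r y.2) (i w)‖ *
        h3p i r (G s) (a y.1 s) (z y.1 s) y.2 w :=
      Finset.sum_nonneg fun w _ => mul_nonneg (by positivity) (h3p_nonneg _ _ _ _ _)
    have e3 : 0 ≤ gm + Cu * b0 := by positivity
    simp only [hDd]
    positivity
  have hsplit : ∀ f : L × X → ℝ, ∑ y : L × X, rho y.1 * e y.2 s * f y =
      ∑ k, rho k * ∑ x, e x s * f (k, x) := by
    intro f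
    rw [Fintype.sum_prod_type]
    refine Finset.sum_congr rfl fun k _ => ?_
    rw [Finset.mul_sum]
    refine Finset.sum_congr rfl fun x _ => ?_
    ring
  have hcomb : ∀ (f : L → ℝ) (B : ℝ), 0 ≤ B → (∀ k, f k ≤ B) → ∑ k, rho k * f k ≤ B := by
    intro f B hB0 hf
    calc ∑ k, rho k * f k ≤ ∑ k, rho k * B :=
          Finset.sum_le_sum fun k _ => mul_le_mul_of_nonneg_left (hf k) (hrho k)
      _ = (∑ k, rho k) * B := by rw [← Finset.sum_mul]
      _ ≤ 1 * B := mul_le_mul_of_nonneg_right hrho1 hB0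
      _ = B := one_mul B
  have hbD1 : ∑ y : L × X, rho y.1 * e y.2 s * (D y / t) ^ (2 * p) ≤
      4 ^ (2 * p) * (K ^ (2 * p) * Ke * Γ + B) := by
    rw [hsplit]
    have e1 : ∀ k, rho k * ∑ x, e x s * (D (k, x) / t) ^ (2 * p) ≤
        4 ^ (2 * p) * (K ^ (2 * p) * Ke * (rho k * ∑ x, e x s *
          (max (h3F eps (G s) (a k s) (z k s) (r x)) 0 / t) ^ (2 * p))) +
          rho k * (4 ^ (2 * p) * B) := by
      intro k
      have e2 := ANS.h3_D hA hE' (haA k) (hzA k) p hp heps hgm0 ht ht2 ht0 ht1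
      simp only [prj_self] at e2
      have e3 := mul_le_mul_of_nonneg_left e2 (hrho k)
      refine e3.trans (le_of_eq ?_)
      rw [← hB]
      ring
    calc ∑ k, rho k * ∑ x, e x s * (D (k, x) / t) ^ (2 * p)
        ≤ ∑ k, (4 ^ (2 * p) * (K ^ (2 * p) * Ke * (rho k * ∑ x, e x s *
          (max (h3F eps (G s) (a k s) (z k s) (r x)) 0 / t) ^ (2 * p))) +
          rho k * (4 ^ (2 * p) * B)) := Finset.sum_le_sum fun k _ => e1 k
      _ = 4 ^ (2 * p) * (K ^ (2 * p) * Ke * Γ) + ∑ k, rho k * (4 ^ (2 * p) * B) := by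
          rw [Finset.sum_add_distrib, ← Finset.mul_sum, ← Finset.mul_sum]
          congr 3
          rw [hΓ, hsplit]
      _ ≤ 4 ^ (2 * p) * (K ^ (2 * p) * Ke * Γ) + 4 ^ (2 * p) * B :=
          add_le_add le_rfl (hcomb (fun _ => 4 ^ (2 * p) * B) _ (by positivity) fun k => le_rfl)
      _ = _ := by ring
  have hbD : ∑ y : L × X, rho y.1 * e y.2 s * (2 * D y / t) ^ (2 * p) ≤
      8 ^ (2 * p) * (K ^ (2 * p) * Ke * Γ + B) := by
    have e1 : ∑ y : L × X, rho y.1 * e y.2 s * (2 * D y / t) ^ (2 * p) =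
        2 ^ (2 * p) * ∑ y : L × X, rho y.1 * e y.2 s * (D y / t) ^ (2 * p) := by
      rw [Finset.mul_sum]
      refine Finset.sum_congr rfl fun y _ => ?_
      rw [mul_div_assoc, mul_pow]
      ring
    have e2 : (8 : ℝ) ^ (2 * p) = 2 ^ (2 * p) * 4 ^ (2 * p) := by
      rw [← mul_pow]
      norm_num
    rw [e1, e2, mul_assoc]
    exact mul_le_mul_of_nonneg_left hbD1 (by positivity)
  have hbQ : ∑ y : L × X, rho y.1 * e y.2 s *
      ((∑ w, h3d i r (G s) (a y.1 s) (z y.1 s) be Cu K y.2 w ^ 2) / t ^ 2) ^ p ≤ bQ := by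
    rw [hsplit]
    refine hcomb (fun k => ∑ x, e x s * ((∑ w, h3d i r (G s) (a (k, x).1 s) (z (k, x).1 s) be Cu K
      (k, x).2 w ^ 2) / t ^ 2) ^ p) bQ hbQ0 fun k => ?_
    have hQ0 : ∀ x, 0 ≤ ∑ w, h3d i r (G s) (a k s) (z k s) be Cu K x w ^ 2 := fun x =>
      Finset.sum_nonneg fun w _ => sq_nonneg _
    refine (sum_pow_le_max (fun x => e x s)
      (fun x => (∑ w, h3d i r (G s) (a k s) (z k s) be Cu K x w ^ 2) / t ^ 2) (fun x => h.e0 x s)
      (fun x => div_nonneg (hQ0 x) (sq_nonneg t)) (m := 232 * Cu ^ 2 * K ^ 2 * t2 / t ^ 2)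
      (fun x => div_le_div_of_nonneg_right ?_
        (sq_nonneg t)) p (by omega)).trans ?_
    · have e1 := ANS.h3_Q hA hE' (haA k) (hzA k) ht2 ht0 ht1 x
      simp only [prj_self] at e1
      exact e1
    refine mul_le_mul_of_nonneg_left ?_ (by positivity)
    calc ∑ x, e x s * ((∑ w, h3d i r (G s) (a k s) (z k s) be Cu K x w ^ 2) / t ^ 2)
        ≤ ∑ x, 232 * Cu ^ 2 * K ^ 2 * Lm ^ 2 / t ^ 2 *
            (e x s * ∑ w, be w ^ 2 * ‖G s (r x) (i w)‖ ^ 2) := by
          refine Finset.sum_le_sum fun x _ => ?_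
          have e0 := ANS.h3_Qc hA hE' (haA k) (hzA k) x
          simp only [prj_self] at e0
          have e1 := div_le_div_of_nonneg_right e0 (sq_nonneg t)
          refine (mul_le_mul_of_nonneg_left e1 (h.e0 x s)).trans (le_of_eq ?_)
          ring
      _ = 232 * Cu ^ 2 * K ^ 2 * Lm ^ 2 / t ^ 2 *
            ∑ x, e x s * ∑ w, be w ^ 2 * ‖G s (r x) (i w)‖ ^ 2 := by
          rw [Finset.mul_sum]
      _ ≤ 232 * Cu ^ 2 * K ^ 2 * Lm ^ 2 / t ^ 2 * (K * Mc) :=
          mul_le_mul_of_nonneg_left h.cnt_row (by positivity)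
      _ = _ := by ring
  have hd0 : ∀ (y : L × X) (w : N), 0 ≤ h3d i r (G s) (a y.1 s) (z y.1 s) be Cu K y.2 w := by
    intro y w
    have h1 := h3p_nonneg (i := i) (r := r) (G s) (a y.1 s) (z y.1 s) y.2 w
    have h2 := h.be0 w
    unfold h3d
    positivity
  refine CompBmono (comp_posB p hp pr h.pr0 h.pr1 ok (fun (y : L × X) s' => rho y.1 * e y.2 s')
    (fun y s' => mul_nonneg (hrho _) (h.e0 _ _))
    (fun y s => h3F eps (G s) (a y.1 s) (z y.1 s) (r y.2)) ht s
    (fun w hw y => mul_le_mul_of_nonneg_left (h.eon w hw _) (hrho _))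
    (fun w hw b y => mul_le_mul_of_nonneg_left (h.eob w hw b _) (hrho _))
    (fun y w => h3d i r (G s) (a y.1 s) (z y.1 s) be Cu K y.2 w) hd0
    (fun y w b hw => h3_jump h hE (ha y.1) (hz y.1) heps y.2 w b hw) (fun y => 2 * D y)
    (fun y => ∑ w, h3d i r (G s) (a y.1 s) (z y.1 s) be Cu K y.2 w ^ 2)
    (fun y => mul_nonneg (by norm_num) (hD0 y))
    (fun q hq y _ => h3_drift h hE (ha y.1) (hz y.1) heps hgm hgm0 y.2 q hq) (fun y => le_rfl)
    hbD hbQ hdl hdl1 hbd hs) ?_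
  show 2 * KP p * Γ + 2 * (KP p * (8 ^ (2 * p) * (K ^ (2 * p) * Ke * Γ + B) + bQ)) ≤
    2 * (KP p * (1 + (8 * K) ^ (2 * p) * Ke)) * Γ + 2 * (KP p * (8 ^ (2 * p) * B + bQ))
  refine le_of_eq ?_
  rw [mul_pow]
  ring

end Pool.Agent.ANS.PB
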