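import Mathlib

/-! # ANS PW: powers of `κ` (numerical conditions of the step theorem, AND project)

`Pw F r`: `F κ = O(κ^r)` as `κ → 0+` (explicit form).  Closed under products, powers, sums, quotients by
powers; `Pw.ev` : `Pw F r`, `b < r` ⟹ `|F κ| ≤ κ^b` for small `κ`.  All numerical conditions of the step are
of this form. -/

set_option autoImplicit false

noncomputable section

namespace Pool.Agent.ANS

/-- `F κ = O(κ^r)` as `κ → 0+` -/
def Pw (F : ℝ → ℝ) (r : ℝ) : Prop :=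
  ∃ C : ℝ, 0 < C ∧ ∃ k0 : ℝ, 0 < k0 ∧ k0 ≤ 1 ∧ ∀ k, 0 < k → k ≤ k0 → |F k| ≤ C * k ^ r

namespace Pw

variable {F G : ℝ → ℝ} {a b r : ℝ}

theorem const (c : ℝ) : Pw (fun _ => c) 0 :=
  ⟨|c| + 1, by positivity, 1, one_pos, le_rfl, fun k _ _ => by
    rw [Real.rpow_zero, mul_one]
    linarith⟩

theorem rpow (a : ℝ) : Pw (fun k => k ^ a) a :=
  ⟨1, one_pos, 1, one_pos, le_rfl, fun k hk _ => by
    rw [one_mul, abs_of_nonneg (Real.rpow_nonneg hk.le a)]⟩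

theorem var : Pw (fun k => k) 1 :=
  ⟨1, one_pos, 1, one_pos, le_rfl, fun k hk _ => by
    rw [one_mul, Real.rpow_one, abs_of_pos hk]⟩

theorem mono (h : Pw F a) (hb : b ≤ a) : Pw F b := by
  obtain ⟨C, hC, k0, h0, h1, h2⟩ := h
  refine ⟨C, hC, k0, h0, h1, fun k hk hk0 => (h2 k hk hk0).trans ?_⟩
  exact mul_le_mul_of_nonneg_left (Real.rpow_le_rpow_of_exponent_ge hk (hk0.trans h1) hb) hC.le

theorem mul (h : Pw F a) (h' : Pw G b) : Pw (fun k => F k * G k) (a + b) := by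
  obtain ⟨C, hC, k0, h0, h1, h2⟩ := h
  obtain ⟨C', hC', k0', h0', h1', h2'⟩ := h'
  refine ⟨C * C', mul_pos hC hC', min k0 k0', lt_min h0 h0', (min_le_left _ _).trans h1,
    fun k hk hk0 => ?_⟩
  rw [abs_mul, Real.rpow_add hk]
  calc |F k| * |G k| ≤ (C * k ^ a) * (C' * k ^ b) :=
        mul_le_mul (h2 k hk (hk0.trans (min_le_left _ _))) (h2' k hk (hk0.trans (min_le_right _ _)))
          (abs_nonneg _) (mul_nonneg hC.le (Real.rpow_nonneg hk.le _))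
    _ = _ := by ring

theorem add (h : Pw F a) (h' : Pw G a) : Pw (fun k => F k + G k) a := by
  obtain ⟨C, hC, k0, h0, h1, h2⟩ := h
  obtain ⟨C', hC', k0', h0', h1', h2'⟩ := h'
  refine ⟨C + C', by positivity, min k0 k0', lt_min h0 h0', (min_le_left _ _).trans h1,
    fun k hk hk0 => ?_⟩
  refine (abs_add_le _ _).trans ?_
  rw [add_mul]
  exact add_le_add (h2 k hk (hk0.trans (min_le_left _ _))) (h2' k hk (hk0.trans (min_le_right _ _)))

theorem neg (h : Pw F a) : Pw (fun k => -F k) a := by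
  obtain ⟨C, hC, k0, h0, h1, h2⟩ := h
  exact ⟨C, hC, k0, h0, h1, fun k hk hk0 => by rw [abs_neg]; exact h2 k hk hk0⟩

theorem sub (h : Pw F a) (h' : Pw G a) : Pw (fun k => F k - G k) a := by
  simpa only [sub_eq_add_neg] using h.add h'.neg

theorem pow (h : Pw F a) (n : ℕ) : Pw (fun k => F k ^ n) (n * a) := by
  induction n with
  | zero => simpa using const 1
  | succ n ih =>
    have h1 := ih.mul h
    have e1 : (n : ℝ) * a + a = ((n + 1 : ℕ) : ℝ) * a := by push_cast; ring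
    rw [e1] at h1
    simpa only [pow_succ] using h1

theorem cmul (c : ℝ) (h : Pw F a) : Pw (fun k => c * F k) a := by
  simpa using (const c).mul h

theorem mulc (h : Pw F a) (c : ℝ) : Pw (fun k => F k * c) a := by
  simpa using h.mul (const c)

theorem div_rpow (h : Pw F a) (b : ℝ) : Pw (fun k => F k / k ^ b) (a - b) := by
  obtain ⟨C, hC, k0, h0, h1, h2⟩ := h
  refine ⟨C, hC, k0, h0, h1, fun k hk hk0 => ?_⟩
  have hb : 0 < k ^ b := Real.rpow_pos_of_pos hk b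
  rw [abs_div, abs_of_pos hb, Real.rpow_sub hk, mul_div_assoc', div_le_div_iff_of_pos_right hb]
  exact h2 k hk hk0

theorem div_var (h : Pw F a) : Pw (fun k => F k / k) (a - 1) := by
  simpa using h.div_rpow 1

/-- general quotient: `G ≥ c κ^b` -/
theorem div (h : Pw F a) {c : ℝ} (hc : 0 < c) {k1 : ℝ} (hk1 : 0 < k1)
    (hG : ∀ k, 0 < k → k ≤ k1 → c * k ^ b ≤ G k) : Pw (fun k => F k / G k) (a - b) := by
  obtain ⟨C, hC, k0, h0, h1, h2⟩ := h
  refine ⟨C / c, div_pos hC hc, min k0 k1, lt_min h0 hk1, (min_le_left _ _).trans h1,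
    fun k hk hk0 => ?_⟩
  have hb : 0 < k ^ b := Real.rpow_pos_of_pos hk b
  have hg := hG k hk (hk0.trans (min_le_right _ _))
  have hg0 : 0 < G k := (mul_pos hc hb).trans_le hg
  rw [abs_div, abs_of_pos hg0, Real.rpow_sub hk]
  calc |F k| / G k ≤ (C * k ^ a) / (c * k ^ b) :=
        div_le_div₀ (by positivity) (h2 k hk (hk0.trans (min_le_left _ _))) (by positivity) hg
    _ = _ := by
        rw [mul_div_mul_comm]

/-- the final use -/
theorem ev (h : Pw F r) (hb : b < r) :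
    ∃ k0 : ℝ, 0 < k0 ∧ k0 ≤ 1 ∧ ∀ k, 0 < k → k ≤ k0 → |F k| ≤ k ^ b := by
  obtain ⟨C, hC, k0, h0, h1, h2⟩ := h
  have hrb : 0 < r - b := by linarith
  refine ⟨min k0 (C⁻¹ ^ (1 / (r - b))), lt_min h0 (Real.rpow_pos_of_pos (inv_pos.2 hC) _),
    (min_le_left _ _).trans h1, fun k hk hk0 => (h2 k hk (hk0.trans (min_le_left _ _))).trans ?_⟩
  have h3 : k ^ (r - b) ≤ C⁻¹ := by
    have h4 := Real.rpow_le_rpow hk.le (hk0.trans (min_le_right _ _)) hrb.le
    rwa [← Real.rpow_mul (inv_pos.2 hC).le, one_div, inv_mul_cancel₀ hrb.ne', Real.rpow_one] at h4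
  have h5 : C * k ^ (r - b) ≤ 1 := by
    calc C * k ^ (r - b) ≤ C * C⁻¹ := mul_le_mul_of_nonneg_left h3 hC.le
      _ = 1 := mul_inv_cancel₀ hC.ne'
  have e1 : k ^ r = k ^ (r - b) * k ^ b := by
    rw [← Real.rpow_add hk]
    congr 1
    ring
  rw [e1, ← mul_assoc]
  calc C * k ^ (r - b) * k ^ b ≤ 1 * k ^ b :=
        mul_le_mul_of_nonneg_right h5 (Real.rpow_nonneg hk.le _)
    _ = _ := one_mul _

theorem ev' (h : Pw F r) (hb : b < r) :
    ∃ k0 : ℝ, 0 < k0 ∧ k0 ≤ 1 ∧ ∀ k, 0 < k → k ≤ k0 → F k ≤ k ^ b := by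
  obtain ⟨k0, h0, h1, h2⟩ := h.ev hb
  exact ⟨k0, h0, h1, fun k hk hk0 => (le_abs_self _).trans (h2 k hk hk0)⟩

/-- small against a constant -/
theorem ev_const (h : Pw F r) (hr : 0 < r) {c : ℝ} (hc : 0 < c) :
    ∃ k0 : ℝ, 0 < k0 ∧ k0 ≤ 1 ∧ ∀ k, 0 < k → k ≤ k0 → F k ≤ c := by
  obtain ⟨k0, h0, h1, h2⟩ := h.ev' (b := r / 2) (by linarith)
  refine ⟨min k0 (c ^ (1 / (r / 2))), lt_min h0 (Real.rpow_pos_of_pos hc _),
    (min_le_left _ _).trans h1, fun k hk hk0 =>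
    (h2 k hk (hk0.trans (min_le_left _ _))).trans ?_⟩
  have h4 := Real.rpow_le_rpow hk.le (hk0.trans (min_le_right _ _)) (by linarith : (0:ℝ) ≤ r / 2)
  have hr2 : r / 2 ≠ 0 := by positivity
  rwa [← Real.rpow_mul hc.le, one_div, inv_mul_cancel₀ hr2, Real.rpow_one] at h4

end Pw

/-- combination of finitely many statements for all small `κ` -/
def Ev (p : ℝ → Prop) : Prop := ∃ k0 : ℝ, 0 < k0 ∧ ∀ k, 0 < k → k ≤ k0 → p k

namespace Ev

theorem and {p q : ℝ → Prop} (h : Ev p) (h' : Ev q) : Ev (fun k => p k ∧ q k) := by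
  obtain ⟨k0, h0, h1⟩ := h
  obtain ⟨k0', h0', h1'⟩ := h'
  exact ⟨min k0 k0', lt_min h0 h0', fun k hk hk0 =>
    ⟨h1 k hk (hk0.trans (min_le_left _ _)), h1' k hk (hk0.trans (min_le_right _ _))⟩⟩

theorem mono {p q : ℝ → Prop} (h : Ev p) (hpq : ∀ k, 0 < k → p k → q k) : Ev q := by
  obtain ⟨k0, h0, h1⟩ := h
  exact ⟨k0, h0, fun k hk hk0 => hpq k hk (h1 k hk hk0)⟩

theorem of_Pw {F : ℝ → ℝ} {r b : ℝ} (h : Pw F r) (hb : b < r) : Ev (fun k => F k ≤ k ^ b) := by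
  obtain ⟨k0, h0, -, h2⟩ := h.ev' hb
  exact ⟨k0, h0, h2⟩

theorem of_Pw_const {F : ℝ → ℝ} {r : ℝ} (h : Pw F r) (hr : 0 < r) {c : ℝ} (hc : 0 < c) :
    Ev (fun k => F k ≤ c) := by
  obtain ⟨k0, h0, -, h2⟩ := h.ev_const hr hc
  exact ⟨k0, h0, h2⟩

theorem le_const {c : ℝ} (hc : 0 < c) : Ev (fun k => k ≤ c) := ⟨c, hc, fun _ _ h => h⟩

/-- `1 < c κ^(-r)` type conditions -/
theorem big {F : ℝ → ℝ} {c r : ℝ} (hc : 0 < c) (hr : 0 < r)
    (hF : Ev (fun k => c * k ^ (-r) ≤ F k)) (B : ℝ) : Ev (fun k => B < F k) := by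
  have h1 : Pw (fun k => k ^ r) r := Pw.rpow r
  have h2 : Ev (fun k => k ^ r ≤ c / (|B| + 1)) := Ev.of_Pw_const h1 hr (by positivity)
  refine (hF.and h2).mono fun k hk h => ?_
  have h3 : 0 < k ^ r := Real.rpow_pos_of_pos hk r
  have h4 : |B| + 1 ≤ c * k ^ (-r) := by
    rw [Real.rpow_neg hk.le, ← div_eq_mul_inv, le_div_iff₀ h3]
    have h5 := h.2
    rw [le_div_iff₀ (by positivity)] at h5
    linarith
  have h6 := le_abs_self B
  linarith [h.1]

end Ev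

end Pool.Agent.ANS
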