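import Pool.Agent.ANS.WtNet
import Pool.Agent.ANS.CoreNum
import Pool.Agent.ANS.DigB
import Pool.Agent.AND.Use

/-! # ANS / StepAP: from the a priori facts for the representatives to the frozen step (helper52)

* `frz_of_apw`: `AP` for the weights `wA k`, `wZ k`, `k ∈ R`, at `full ω` gives `Frz` for all pairs `K ∈ Ks n` of the schedule
  with the classes after the reading; `e3 K = 4 U_K (κ^(1/32) + κ^(1/45) + (th / cmin) / 2 * (C1 + κ^(11/256)))`.
* `start_w`: (H3) of the good medium at the start for `wA K`, `wZ K`, `K ∈ Ks n`.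
* `exists_R`: the representatives, at most `1 / th + 1`.
* `net_ev`: for `th = 2 κ`, `cmin = ep / 2^(n+1)` and small `κ`: the error is `≤ 3 κ^(1/45)` and there are at most `1 / κ`
  representatives. -/

set_option autoImplicit false
set_option linter.unusedSectionVars false

open Matrix Finset Function

noncomputable section

namespace Pool.Agent.AND

open Pool.Agent.Kin Pool.Agent.APS Pool.Agent.ANB Pool.Agent.ANS

variable {X : Type} [Fintype X] [DecidableEq X]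
variable {L : Law X} {d Lt : ℕ} [NeZero Lt] {lam : ℝ} {nE n : ℕ}
variable {P : Par} {F : Fld (Tor d Lt)} {N : Finset (Tor d Lt)} {π π' : Prof (Tor d Lt)}
  {v v' : Tor d Lt → X} {M : Med (Tor d Lt)} {C1 cI : ℝ}

/-- the representatives of the pairs -/
theorem exists_R (L : Law X) (Ks : Finset ℕ) {th : ℝ} (hth : 0 < th) :
    ∃ R : Finset ℕ, R ⊆ Ks ∧ (R.card : ℝ) ≤ 1 / th + 1 ∧
      ∀ K ∈ Ks, ∃ k ∈ R, |pT L.p L.wk K - pT L.p L.wk k| ≤ th :=
  exists_reps Ks (pT L.p L.wk) (fun K _ => pT_nonneg L.p0 _ K)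
    (fun K _ => pT_le_one L.p0 L.p1 _ K) hth

theorem cmin_law (L : Law X) {m : ℕ} (hm : m ≤ n + 1) {a : X} (ha : ¬ L.wk m a) :
    L.ep / 2 ^ (n + 1) ≤ cm L.p (L.q m) a := by
  refine le_trans ?_ (L.mass_ge ha)
  have h1 : (2 : ℝ) ^ m ≤ 2 ^ (n + 1) := pow_le_pow_right₀ (by norm_num) hm
  have h2 : L.ep / 2 ^ (n + 1) ≤ L.ep / 2 ^ m :=
    div_le_div_of_nonneg_left L.ep0.le (by positivity) h1
  exact h2.trans (div_le_div_of_nonneg_right (L.the m) (by positivity))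

/-- numbers of the net -/
theorem net_ev (C1 : ℝ) (hC1 : 0 ≤ C1) {ep : ℝ} (hep : 0 < ep) :
    Ev (fun k => k ≤ 1 ∧ 1 / (2 * k) + 1 ≤ k ^ (-1 : ℝ) ∧ ∀ n : ℕ, k * 4 ^ (n + 1) ≤ 1 →
      k ^ (1 / 32 : ℝ) + k ^ (1 / 45 : ℝ) +
        2 * k / (ep / 2 ^ (n + 1)) / 2 * (C1 + k ^ (11 / 256 : ℝ)) ≤ 3 * k ^ (1 / 45 : ℝ)) := by
  have ev1 : Ev (fun k => (C1 + 1) / ep * k ^ (43 / 90 : ℝ) ≤ 1) :=
    Ev.le_of_mul (Pw.rpow _) (by norm_num) _ one_pos
  have ev2 : Ev (fun k => 2 * k ^ (1 : ℝ) ≤ 1) := Ev.le_of_mul (Pw.rpow _) one_pos _ one_pos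
  obtain ⟨k0, hk0, hev⟩ := ev1.and ev2
  refine ⟨k0, hk0, fun k hk hkk => ?_⟩
  obtain ⟨h1, h2⟩ := hev k hk hkk
  rw [Real.rpow_one] at h2
  have hk1 : k ≤ 1 := by linarith
  refine ⟨hk1, ?_, fun n hn => ?_⟩
  · rw [Real.rpow_neg_one, ← one_div]
    have h3 : 1 ≤ 1 / (2 * k) := by
      rw [le_div_iff₀ (by positivity)]
      linarith
    have h4 : 1 / k = 2 * (1 / (2 * k)) := by
      field_simp
    rw [h4]
    linarith
  · have e1 : k ^ (1 / 32 : ℝ) ≤ k ^ (1 / 45 : ℝ) :=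
      Real.rpow_le_rpow_of_exponent_ge hk hk1 (by norm_num)
    have e2 : k ^ (11 / 256 : ℝ) ≤ 1 := Real.rpow_le_one hk.le hk1 (by norm_num)
    have e3 : 0 < k ^ (11 / 256 : ℝ) := Real.rpow_pos_of_pos hk _
    have e4 : k * 2 ^ (n + 1) ≤ k ^ (1 / 2 : ℝ) := by
      have f1 : (k * 2 ^ (n + 1)) ^ 2 ≤ (k ^ (1 / 2 : ℝ)) ^ 2 := by
        have f2 : (k ^ (1 / 2 : ℝ)) ^ 2 = k := by
          rw [← Real.rpow_natCast, ← Real.rpow_mul hk.le]
          norm_num
        have f3 : (k * 2 ^ (n + 1)) ^ 2 = k * (k * 4 ^ (n + 1)) := by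
          rw [mul_pow, ← pow_mul, mul_comm (n + 1) 2, pow_mul]
          norm_num
          ring
        rw [f2, f3]
        calc k * (k * 4 ^ (n + 1)) ≤ k * 1 := mul_le_mul_of_nonneg_left hn hk.le
          _ = k := mul_one k
      exact (sq_le_sq₀ (by positivity) (Real.rpow_pos_of_pos hk _).le).1 f1
    have e5 : 2 * k / (ep / 2 ^ (n + 1)) / 2 = k * 2 ^ (n + 1) / ep := by
      field_simp
    have e6 : k ^ (1 / 2 : ℝ) = k ^ (43 / 90 : ℝ) * k ^ (1 / 45 : ℝ) := by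
      rw [← Real.rpow_add hk]
      norm_num
    have e7 : k * 2 ^ (n + 1) / ep * (C1 + k ^ (11 / 256 : ℝ)) ≤ k ^ (1 / 45 : ℝ) := by
      have g1 : 0 < k ^ (1 / 45 : ℝ) := Real.rpow_pos_of_pos hk _
      calc k * 2 ^ (n + 1) / ep * (C1 + k ^ (11 / 256 : ℝ))
          ≤ k ^ (1 / 2 : ℝ) / ep * (C1 + 1) :=
            mul_le_mul (div_le_div_of_nonneg_right e4 hep.le) (by linarith) (by positivity)
              (div_nonneg (Real.rpow_pos_of_pos hk _).le hep.le)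
        _ = (C1 + 1) / ep * k ^ (43 / 90 : ℝ) * k ^ (1 / 45 : ℝ) := by rw [e6]; ring
        _ ≤ 1 * k ^ (1 / 45 : ℝ) := mul_le_mul_of_nonneg_right h1 g1.le
        _ = _ := one_mul _
    rw [e5]
    linarith

theorem wZ_U (K : ℕ) (s : Tor d Lt → Option X) {y : Tor d Lt} (hy : y ∈ M.U) :
    wZ L lam nE P F n K N π v M s y = 0 := by
  unfold wZ
  rw [if_pos hy, if_pos hy]
  ring

/-- (H3) at the start for the normalised weights -/
theorem start_w (h : WtHyp L lam P F n N π v M C1 cI) {f : Fix}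
    (hG : Good f (tolAt P (SfOf L lam nE) n F π v M) M) {K : ℕ} (hK : K ∈ Finset.Icc (n + 1) nE)
    {x : Tor d Lt} (hx : x ∈ M.nr) :
    ‖∑ y, M.G x y ^ 2 * (wA L lam nE n K N π v M ANS.nil y : ℂ)‖ ≤
      ∑ y, ‖M.G x y‖ ^ 2 * wZ L lam nE P F n K N π v M ANS.nil y := by
  have hU := UK_pos (L := L) (n := n) h.lam0 K
  have h4 : (0 : ℝ) < 4 * UK L lam n K := by positivity
  have h1 : ‖∑ y ∈ M.A, M.G x y ^ 2 * ((tolAt P (SfOf L lam nE) n F π v M).a K y : ℂ)‖ ≤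
      ∑ y ∈ M.nr, ‖M.G x y‖ ^ 2 * (tolAt P (SfOf L lam nE) n F π v M).z K y :=
    hG.h3 K hK x (mem_nr.1 hx)
  have e1 : ∑ y ∈ M.A, M.G x y ^ 2 * ((tolAt P (SfOf L lam nE) n F π v M).a K y : ℂ) =
      ((4 * UK L lam n K : ℝ) : ℂ) *
        ∑ y, M.G x y ^ 2 * (wA L lam nE n K N π v M ANS.nil y : ℂ) := by
    rw [Finset.mul_sum]
    have f1 : ∀ y, ((4 * UK L lam n K : ℝ) : ℂ) *
        (M.G x y ^ 2 * (wA L lam nE n K N π v M ANS.nil y : ℂ)) =
        M.G x y ^ 2 * ((tolAt P (SfOf L lam nE) n F π v M).a K y : ℂ) := by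
      intro y
      rw [← wA_nil h K y]
      push_cast
      ring
    rw [Finset.sum_congr rfl fun y _ => f1 y]
    refine Finset.sum_subset (Finset.subset_univ _) fun y _ hy => ?_
    have f2 : (tolAt P (SfOf L lam nE) n F π v M).a K y = 0 := if_neg hy
    rw [f2]
    simp
  have e2 : ∑ y ∈ M.nr, ‖M.G x y‖ ^ 2 * (tolAt P (SfOf L lam nE) n F π v M).z K y =
      4 * UK L lam n K * ∑ y, ‖M.G x y‖ ^ 2 * wZ L lam nE P F n K N π v M ANS.nil y := by
    rw [Finset.mul_sum, ← Finset.sum_subset (Finset.subset_univ M.nr)]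
    · refine Finset.sum_congr rfl fun y hy => ?_
      rw [← wZ_nil h K (mem_nr.1 hy)]
      ring
    · intro y _ hy
      have f2 : y ∈ M.U := by
        by_contra h3
        exact hy (mem_nr.2 h3)
      rw [wZ_U K _ f2]
      ring
  rw [e1, e2, norm_mul, Complex.norm_real, Real.norm_of_nonneg h4.le] at h1
  exact le_of_mul_le_mul_left h1 h4

/-- one row: from the representative `k0` to the pair `K` of the schedule after the reading -/
theorem h3_of_rep (h : WtHyp L lam P F n N π v M C1 cI) {th cmin : ℝ}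
    (hth : 0 ≤ th) (hc : 0 < cmin)
    (hcm : ∀ m, m ≤ n + 1 → ∀ a, ¬ L.wk m a → cmin ≤ cm L.p (L.q m) a)
    {k0 K : ℕ} (hk0 : n + 1 ≤ k0) (hK1 : n + 1 ≤ K)
    (hnet : |pT L.p L.wk K - pT L.p L.wk k0| ≤ th)
    {ω : Tor d Lt → X} (hω : ∀ y ∈ N, L.q n (ω y) = L.q n (v y))
    (hl : ∀ y, π'.lev y = if y ∈ N then n + 1 else π.lev y) (hv : v' = N.piecewise ω v)
    {x : Tor d Lt} (hx : x ∉ M.U)
    (hward : ∑ y, (M.stp (digOf L lam n N v)).eta (ANS.full ω) y *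
      ‖M.Gf (digOf L lam n N v) ω x y‖ ^ 2 ≤ (M.Gf (digOf L lam n N v) ω x x).im)
    {E aD : ℝ} (hdia : ‖M.Gf (digOf L lam n N v) ω x x - M.G x x‖ ≤ aD)
    (h1 : ‖∑ y, M.Gf (digOf L lam n N v) ω x y ^ 2 *
        (wA L lam nE n k0 N π v M (ANS.full ω) y : ℂ)‖ ≤
      ∑ y, ‖M.Gf (digOf L lam n N v) ω x y‖ ^ 2 *
        wZ L lam nE P F n k0 N π v M (ANS.full ω) y + E) :
    ‖∑ y ∈ M.A, M.Gf (digOf L lam n N v) ω x y ^ 2 *
        ((tolAt P (SfOf L lam nE) n F π' v' M).a K y : ℂ)‖ ≤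
      ∑ y ∈ M.nr, ‖M.Gf (digOf L lam n N v) ω x y‖ ^ 2 *
        (tolAt P (SfOf L lam nE) n F π' v' M).z K y +
      4 * UK L lam n K * (E + th / cmin / 2 * (C1 + aD)) := by
  have hU := UK_pos (L := L) (n := n) h.lam0 K
  have h4 : (0 : ℝ) < 4 * UK L lam n K := by positivity
  have hio : ∑ y, (M.stp (digOf L lam n N v)).eta (ANS.full ω) y *
      ‖M.Gf (digOf L lam n N v) ω x y‖ ^ 2 ≤ C1 + aD := by
    refine hward.trans ?_
    have f1 : (M.Gf (digOf L lam n N v) ω x x).im = (M.G x x).im +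
        (M.Gf (digOf L lam n N v) ω x x - M.G x x).im := by
      rw [Complex.sub_im]
      ring
    have f2 := (Complex.abs_im_le_norm _).trans hdia
    have f3 := (abs_le.1 f2).2
    have f4 : (M.G x x).im ≤ C1 := h.io1 x hx
    rw [f1]
    linarith
  have h2 := row_net (fun y => M.Gf (digOf L lam n N v) ω x y)
    (wA L lam nE n k0 N π v M (ANS.full ω)) (wZ L lam nE P F n k0 N π v M (ANS.full ω))
    (wA L lam nE n K N π v M (ANS.full ω)) (wZ L lam nE P F n K N π v M (ANS.full ω))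
    ((M.stp (digOf L lam n N v)).eta (ANS.full ω)) (by positivity) h1
    (fun y => h.net (nE := nE) hth hc hK1 hk0 hnet hcm (ANS.full ω) y) hio
  have e1 : ∑ y ∈ M.A, M.Gf (digOf L lam n N v) ω x y ^ 2 *
      ((tolAt P (SfOf L lam nE) n F π' v' M).a K y : ℂ) =
      ((4 * UK L lam n K : ℝ) : ℂ) * ∑ y, M.Gf (digOf L lam n N v) ω x y ^ 2 *
        (wA L lam nE n K N π v M (ANS.full ω) y : ℂ) := by
    rw [Finset.mul_sum]
    have f1 : ∀ y, ((4 * UK L lam n K : ℝ) : ℂ) *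
        (M.Gf (digOf L lam n N v) ω x y ^ 2 *
          (wA L lam nE n K N π v M (ANS.full ω) y : ℂ)) =
        M.Gf (digOf L lam n N v) ω x y ^ 2 *
          ((tolAt P (SfOf L lam nE) n F π' v' M).a K y : ℂ) := by
      intro y
      have f2 := wA_full (nE := nE) h K ω hω y
      have f3 : (tolAt P (SfOf L lam nE) n F π' v' M).a K y =
          4 * UK L lam n K * wA L lam nE n K N π v M (ANS.full ω) y := by
        rw [f2]
        change (if y ∈ M.A then (SfOf L lam nE).phi K (π'.lev y) (v' y) * io M y else 0) = _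
        rw [hl y, hv]
      rw [f3]
      push_cast
      ring
    rw [Finset.sum_congr rfl fun y _ => f1 y]
    refine Finset.sum_subset (Finset.subset_univ _) fun y _ hy => ?_
    have f2 : (tolAt P (SfOf L lam nE) n F π' v' M).a K y = 0 := if_neg hy
    rw [f2]
    simp
  have e2 : ∑ y ∈ M.nr, ‖M.Gf (digOf L lam n N v) ω x y‖ ^ 2 *
      (tolAt P (SfOf L lam nE) n F π' v' M).z K y =
      4 * UK L lam n K * ∑ y, ‖M.Gf (digOf L lam n N v) ω x y‖ ^ 2 *
        wZ L lam nE P F n K N π v M (ANS.full ω) y := by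
    rw [Finset.mul_sum, ← Finset.sum_subset (Finset.subset_univ M.nr)]
    · refine Finset.sum_congr rfl fun y hy => ?_
      have f2 := wZ_full (nE := nE) h K ω hω (mem_nr.1 hy)
      have f3 : (tolAt P (SfOf L lam nE) n F π' v' M).z K y =
          4 * UK L lam n K * wZ L lam nE P F n K N π v M (ANS.full ω) y := by
        rw [f2]
        change (if y ∈ M.A then 0 else (SfOf L lam nE).phi K (π'.lev y) (v' y) * io M y) +
          AND.kn L lam K * P.Cz * (F.err y * ((if y ∈ M.A then P.eta else M.eta y) /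
            P.kap (n + 1)) + F.be y * ((SfOf L lam nE).om (π'.lev y) (v' y) * io M y)) = _
        rw [hl y, hv]
        by_cases hyA : y ∈ M.A
        · simp only [if_pos hyA]
        · have hyN : y ∉ N := fun h1 => hyA (h.NA h1)
          simp only [if_neg hyA, if_neg hyN, Finset.piecewise_eq_of_notMem _ _ _ hyN]
      rw [f3]
      ring
    · intro y _ hy
      have f2 : y ∈ M.U := by
        by_contra h3
        exact hy (mem_nr.2 h3)
      rw [wZ_U K _ f2]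
      ring
  rw [e1, e2, norm_mul, Complex.norm_real, Real.norm_of_nonneg h4.le]
  have h5 := mul_le_mul_of_nonneg_left h2 h4.le
  refine h5.trans (le_of_eq ?_)
  ring

/-- **FROM THE REPRESENTATIVES TO THE FROZEN STEP** -/
theorem frz_of_apw (h : WtHyp L lam P F n N π v M C1 cI) {R : Finset ℕ} {th cmin : ℝ}
    (hth : 0 ≤ th) (hc : 0 < cmin)
    (hcm : ∀ m, m ≤ n + 1 → ∀ a, ¬ L.wk m a → cmin ≤ cm L.p (L.q m) a)
    (hRn : ∀ k ∈ R, n + 1 ≤ k)
    (hR : ∀ K ∈ Finset.Icc (n + 1) nE, ∃ k ∈ R, |pT L.p L.wk K - pT L.p L.wk k| ≤ th)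
    {ω : Tor d Lt → X} (hω : ∀ y ∈ N, L.q n (ω y) = L.q n (v y))
    (hl : ∀ y, π'.lev y = if y ∈ N then n + 1 else π.lev y) (hv : v' = N.piecewise ω v)
    (hward : ∀ x, x ∉ M.U → ∑ y, (M.stp (digOf L lam n N v)).eta (ANS.full ω) y *
      ‖M.Gf (digOf L lam n N v) ω x y‖ ^ 2 ≤ (M.Gf (digOf L lam n N v) ω x x).im)
    {B : Finset (Tor d Lt)} {vt k : ℝ}
    (hAP : AP (M.stp (digOf L lam n N v)) M.nr (M.A ∩ B) B (ftol ↥R vt k)
      (fun K : ↥R => wA L lam nE n K N π v M) (fun K : ↥R => wZ L lam nE P F n K N π v M)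
      (ANS.full ω)) :
    Frz (tolAt P (SfOf L lam nE) n F π v M) M (digOf L lam n N v)
      (tolAt P (SfOf L lam nE) n F π' v' M).a (tolAt P (SfOf L lam nE) n F π' v' M).z
      (fun K => 4 * UK L lam n K * (k ^ (1 / 32 : ℝ) + k ^ (1 / 45 : ℝ) +
        th / cmin / 2 * (C1 + k ^ (11 / 256 : ℝ)))) B (k ^ (9 / 256 : ℝ))
      (k ^ (-7 / 8 + vt)) (30 * k ^ (1 / 140 : ℝ)) ∅ ω where
  ent x y hx hy := by
    have h1 := hAP.ent x (mem_nr.2 hx) y (mem_nr.2 hy)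
    rw [stp_G, stp_G_nil] at h1
    exact h1
  tau x hx := by
    have h1 := hAP.tau x (mem_nr.2 hx)
    unfold Stp.Tx at h1
    rw [stp_G, stp_G_nil] at h1
    rw [Finset.sdiff_empty]
    exact h1
  h3 K hK x hx := by
    obtain ⟨k0, hk0, hnet⟩ := hR K hK
    have h1 := hAP.h3 ⟨k0, hk0⟩ x (mem_nr.2 hx)
    rw [stp_G] at h1
    have hdia := hAP.dia x (mem_nr.2 hx)
    rw [stp_G, stp_G_nil] at hdia
    exact h3_of_rep h hth hc hcm (hRn k0 hk0) (Finset.mem_Icc.1 hK).1 hnet hω hl hv hx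
      (hward x hx) hdia h1
  form := hAP.form

/-- Ward in the frozen medium, Part A -/
theorem ward_ok {D : Type} [Fintype D] {g : ANS.Dig (Tor d Lt) D} {N' : Finset (Tor d Lt)}
    {c be e : Tor d Lt → ℝ} {C Lm : ℝ} (h : (M.stp g).Ok M.nr N' c be e C Lm)
    (ω : Tor d Lt → D) (x : Tor d Lt) :
    ∑ y, (M.stp g).eta (ANS.full ω) y * ‖M.Gf g ω x y‖ ^ 2 ≤ (M.Gf g ω x x).im :=
  (h.ward_s (ANS.full ω) x).le

/-- Ward in the frozen medium, general laws -/
theorem ward_okB {D : Type} [Fintype D] {g : ANS.Dig (Tor d Lt) D} {N' : Finset (Tor d Lt)}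
    {ok : Tor d Lt → Option D → Prop} {c be : Tor d Lt → ℝ} {e : Tor d Lt → Option D → ℝ}
    {C Lm : ℝ} (h : (M.stp g).OkB ok M.nr N' c be e C Lm) (ω : Tor d Lt → D) (x : Tor d Lt) :
    ∑ y, (M.stp g).eta (ANS.full ω) y * ‖M.Gf g ω x y‖ ^ 2 ≤ (M.Gf g ω x x).im :=
  (h.ward_s (ANS.full ω) x).le

end Pool.Agent.AND
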