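import Pool.Agent.ANS.TopKer
import Pool.Agent.ANS.TopNear
import Pool.Agent.ANM.FDec
import Pool.Agent.AND.Sched

/-! # ANS STEP FAR: the rows far from the cell in the form of the schedule (owner helper3)

`M1` = next medium (`Nxt`), `N` = the sites which are read, `N ⊆ M.A`, `dT w c ≤ s` on `N`.

* `FarNum`: numbers of the locality theorem; `farRow`: `FarRow` from `Good`, `Nxt`, `StepH`, `Off`.
* `FarSch`: numbers of the schedule, for one level `κ`.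
* `FarRow.F0`: `3 s < 2 dT x c`: `|G1_xx - G_xx| ≤ ze ph`; `FarRow.F1`: (H1), `2 s < dT x c`; `FarRow.F2`: (H2);
  `FarRow.F5`: (H5) for two far sites; `FarRow.F6`: decay of all entries of `M1`; `FarRow.T1`, `FarRow.T2`: tails.
-/

open Matrix Finset

noncomputable section

namespace Pool.Agent.AND

open Pool.Agent.Kin Pool.Agent.APS

set_option linter.unusedSectionVars false

variable {d L : ℕ} [NeZero L] {D : Type} [Fintype D] {f : Fix} {t : Tol d L}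
  {M M1 : Med (Tor d L)} {u : UTol} {g : ANS.Dig (Tor d L) D} {ω : Tor d L → D}
  {N : Finset (Tor d L)} {c : Tor d L}

/-- numbers of the locality theorem for one step; `r` = change of the diagonal, `kl'`, `k'` = bounds of the levels
after the step, `Bd` = bound of the increments of the digits, `q` = ratio of the absorptions -/
structure FarNum (f : Fix) (t : Tol d L) (u : UTol) (r kl' k' μ K Bd q : ℝ) : Prop where
  rho : 0 < u.rho
  rho2 : u.rho ≤ 2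
  k1 : t.k ≤ 1
  one : 1 ≤ f.C1
  kl0 : 0 < kl'
  klt : kl' ≤ t.kl
  kk : k' ≤ t.k
  r0 : 0 ≤ r
  r2 : 2 * r ≤ f.c1
  mu : 0 < μ
  mu1 : μ ≤ 1
  m1 : 8 * d * μ ≤ kl' * (f.c1 / 2)
  m2 : 8 * d * μ ≤ t.st
  ok : KOK f t u K
  inc : Bd + k' * r ≤ K * (kl' * (f.c1 / 2))
  et : t.eta + k' * (2 * f.C1) ≤ 1
  q1 : 1 ≤ q
  qk : t.k * f.C1 ≤ q * (kl' * (f.c1 / 2))

/-- the constant `Q` -/
def farQ (d : ℕ) (f : Fix) (u : UTol) (μ K : ℝ) (a c0 : ℕ) : ℝ :=
  6 * K * ANM.KL d μ a c0 K (tH f u) * Real.exp (2 * μ * c0 / a)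

/-- the rate `ν` -/
def farν (f : Fix) (u : UTol) (μ : ℝ) (a : ℕ) : ℝ := ANM.nuL μ a (tH f u)

theorem tH_pos (hG : Good f t M) (hI : t.In f M u) (hN : Num f t u) (hρ : 0 < u.rho)
    (hρ2 : u.rho ≤ 2) : 0 < tH f u ∧ tH f u ≤ 1 := by
  obtain ⟨hl1, hl0⟩ := lH_lt (u := u) hρ hρ2
  have hc1 := hN.c1
  have hC1 := hG.C1_pos hI hN
  have hcC : f.c1 ≤ f.C1 := by
    have e1 := hN.g0
    have e2 := hN.C1
    have e3 : f.g0.im ≤ ‖f.g0‖ := (le_abs_self _).trans (Complex.abs_im_le_norm _)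
    have e4 := hN.del
    linarith
  have he0 : 0 < eH u := by unfold eH; linarith
  have he1 : eH u ≤ 1 / 2 := by unfold eH; linarith
  constructor
  · unfold tH; positivity
  · unfold tH
    rw [div_le_one (by positivity)]
    nlinarith

/-- the set `W` of weak outcomes: `om` replaces the absorption on `W` -/
structure WNum (f : Fix) (r kl' k' K Bd q Lm om : ℝ) (W : Finset (Tor d L)) : Prop where
  om0 : 0 < om
  omC : om * (W.card : ℝ) * (2 * f.C1) ≤ 1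
  omL : om * (W.card : ℝ) * Lm ^ 2 ≤ f.c1 / 2
  inc : ∀ x ∈ W, (Bd + k' * r) ^ 2 ≤ K ^ 2 * (kl' * (f.c1 / 2) * om)
  nq : 2 * (W.card : ℝ) * Lm ≤ q * f.C1

theorem WNum.empty (hc : 0 ≤ f.c1) {q : ℝ} (hq : 0 ≤ q * f.C1) (r kl' k' K Bd Lm : ℝ) :
    WNum f r kl' k' K Bd q Lm 1 (∅ : Finset (Tor d L)) where
  om0 := one_pos
  omC := by simp
  omL := by simp; linarith
  inc := fun x hx => absurd hx (Finset.notMem_empty x)
  nq := by simpa using hq

/-- THE FAR ROWS of one step; the levels may vanish on `W` -/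
theorem farRowW (hG : Good f t M) (hI : t.In f M u) (hN : Num f t u) {r kl' k' : ℝ}
    (hn : Nxt M M1 g ω r) {W : Finset (Tor d L)} (hO : Off g ω N) (hNA : N ⊆ M.A) (hWN : W ⊆ N)
    (hklo : ∀ x ∈ M.A, x ∉ W → kl' ≤ M.kf g ω x) (hkf0 : ∀ x ∈ M.A, 0 ≤ M.kf g ω x)
    (hkhi' : ∀ x ∈ M.A, M.kf g ω x ≤ k')
    {s : ℕ} (hNB : ∀ w ∈ N, ANP.dT w c ≤ s) {κ : Type*} {Dp : κ → Set (Tor d L)} {a c0 : ℕ}
    (ha : 1 ≤ a) (hcp : ANM.CP (ANM.td : Tor d L → Tor d L → ℕ) Dp a c0)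
    (hU : ∀ x ∈ M.U, ∃ k, x ∈ Dp k) (hIn : ∀ x ∈ M.I, ∃ k, x ∈ Dp k)
    (hWD : ∀ x ∈ W, ∃ k, x ∈ Dp k) {μ K Bd q : ℝ}
    (hF : FarNum f t u r kl' k' μ K Bd q)
    (hinc : ∀ x ∈ N, ‖(g.xi x (ω x) : ℂ) + (g.zt x (ω x) : ℂ) * M.G x x‖ ≤ Bd) {Lm om : ℝ}
    (hWn : WNum f r kl' k' K Bd q Lm om W)
    (hLm : ∀ x y, x ∉ M.U → y ∉ M.U → ‖M.G x y‖ ≤ Lm)
    (hLm1 : ∀ x y, x ∉ M.U → y ∉ M.U → ‖M1.G x y‖ ≤ Lm) :
    FarRow f M M1 {x | ∃ k, x ∈ Dp k} μ a c0 (fun x => ANP.dT x c - s)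
      (farQ d f u μ K a c0) (farν f u μ a) (kl' * (f.c1 / 2)) Lm q := by
  have hWA : W ⊆ M.A := hWN.trans hNA
  have hk : ∀ x ∈ M.A, x ∉ W → kl' ≤ M1.k x := fun x hx hxW => by
    rw [hn.k x]; exact hklo x hx hxW
  have hkhi : ∀ x ∈ M.A, M1.k x ≤ k' := fun x hx => by rw [hn.k x]; exact hkhi' x hx
  have hk0 : ∀ x ∈ M.A, 0 ≤ M1.k x := fun x hx => by rw [hn.k x]; exact hkf0 x hx
  have hr : r ≤ f.c1 / 2 := by linarith [hF.r2]
  have hc1 := hN.c1
  have hkl := hF.kl0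
  have hC1p := hG.C1_pos hI hN
  have hcC : f.c1 ≤ f.C1 := by
    have e1 := hN.g0
    have e2 := hN.C1
    have e3 : f.g0.im ≤ ‖f.g0‖ := (le_abs_self _).trans (Complex.abs_im_le_norm _)
    have e4 := hN.del
    linarith
  have h1' : 8 * d * μ ≤ t.kl * f.c1 := by
    refine hF.m1.trans ?_
    have := hF.klt
    nlinarith
  have hnew := hn.newOK hG hI hN hO hNA hk0 hr
  have hadm := hn.adm hG hI hN hO hNA hk0
  have hA1 : ∀ x ∈ M.A, x ∉ W → kl' * (f.c1 / 2) ≤ M1.eta x := by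
    intro x hx hxW
    rw [hn.eta_act hG hx]
    have e1 := hnew.c1 x (hG.nU_of_A hx)
    have e2 : kl' * (f.c1 / 2) ≤ M1.k x * (M1.G x x).im :=
      mul_le_mul (hk x hx hxW) e1 (by linarith) (hk0 x hx)
    linarith [hN.eta]
  have hA0 : ∀ x ∈ M.A, kl' * (f.c1 / 2) ≤ M.eta x := by
    intro x hx
    have e1 := hG.eta_act hI hN hx
    have e2 := hF.klt
    nlinarith [hN.eta]
  have he0 : ∀ x, M.eta x ≤ 1 := by
    intro x
    by_cases hU' : x ∈ M.U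
    · rw [hG.eU x hU']; norm_num
    · exact hG.eS1 x hU'
  have he1 : ∀ x, M1.eta x ≤ 1 := by
    intro x
    by_cases hA : x ∈ M.A
    · rw [hn.eta_act hG hA]
      have e1 := hnew.C1 x (hG.nU_of_A hA)
      have e2 : (M1.G x x).im ≤ 2 * f.C1 :=
        ((le_abs_self _).trans (Complex.abs_im_le_norm _)).trans e1
      have e3 := hnew.c1 x (hG.nU_of_A hA)
      have e4 : M1.k x * (M1.G x x).im ≤ k' * (2 * f.C1) :=
        mul_le_mul (hkhi x hA) e2 (by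
          have : f.c1 / 2 ≤ (M1.G x x).im := e3
          linarith) ((hk0 x hA).trans (hkhi x hA))
      linarith [hF.et]
    · rw [hn.eta_off hG hO hNA hA]
      exact he0 x
  have hCN : ∀ x ∈ N, ‖M1.b x - M.b x‖ ^ 2 ≤ K ^ 2 * (M.eta x * ANM.omW M1.b W om x) := by
    intro x hx
    have hxA := hNA hx
    have hxU := hG.nU_of_A hxA
    have e1 : M1.b x - M.b x = ((g.xi x (ω x) : ℂ) + (g.zt x (ω x) : ℂ) * M.G x x) -
        (M.kf g ω x : ℂ) * (M1.G x x - M.G x x) := by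
      rw [hn.b x hxU]
      unfold Med.bf
      ring
    have e2 : ‖M1.b x - M.b x‖ ≤ Bd + k' * r := by
      rw [e1]
      refine (norm_sub_le _ _).trans (add_le_add (hinc x hx) ?_)
      rw [norm_mul, Complex.norm_real, Real.norm_eq_abs]
      have e3 : 0 ≤ M.kf g ω x := hkf0 x hxA
      rw [abs_of_nonneg e3]
      exact mul_le_mul (hkhi' x hxA) (hn.dia x hxU) (norm_nonneg _) (e3.trans (hkhi' x hxA))
    have e6 : 0 ≤ kl' * (f.c1 / 2) := by positivity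
    by_cases hxW : x ∈ W
    · rw [ANM.omW_in hxW]
      refine (pow_le_pow_left₀ (norm_nonneg _) e2 2).trans ((hWn.inc x hxW).trans ?_)
      refine mul_le_mul_of_nonneg_left ?_ (sq_nonneg _)
      exact mul_le_mul_of_nonneg_right (hA0 x hxA) hWn.om0.le
    · have e0 : ANM.omW M1.b W om x = M1.eta x := ANM.omW_out hxW
      rw [e0]
      have e4 : ‖M1.b x - M.b x‖ ≤ K * (kl' * (f.c1 / 2)) := e2.trans hF.inc
      have e5 : ‖M1.b x - M.b x‖ ^ 2 ≤ (K * (kl' * (f.c1 / 2))) ^ 2 :=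
        pow_le_pow_left₀ (norm_nonneg _) e4 2
      refine e5.trans ?_
      calc (K * (kl' * (f.c1 / 2))) ^ 2 =
            K ^ 2 * ((kl' * (f.c1 / 2)) * (kl' * (f.c1 / 2))) := by ring
        _ ≤ K ^ 2 * (M.eta x * M1.eta x) := by
            refine mul_le_mul_of_nonneg_left ?_ (sq_nonneg _)
            exact mul_le_mul (hA0 x hxA) (hA1 x hxA hxW) e6 (e6.trans (hA0 x hxA))
  have hWt : ANM.WtOK (H0T d L) M1.b W om {y | y ∉ M.U} :=
    hnew.wtOK (fun x hx => hG.nU_of_A (hWA hx)) hWn.om0 hWn.omC hWn.omL hLm1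
  have hfar := hn.far hG hI hN hF.rho hF.rho2 hF.k1 hO hNA hk hk0 hr ha hcp hU hIn hWD hF.mu
    hF.mu1 hF.m1 h1' hF.m2 hF.ok hWt hWN hCN he1 (r := fun x => ANP.dT x c - s) (ball_r hNB)
    (ball_lip c s)
  obtain ⟨ht0, ht1⟩ := tH_pos hG hI hN hF.rho hF.rho2
  have ha' : (0 : ℝ) < a := by exact_mod_cast ha
  have hμ := hF.mu
  have hK1 := hF.ok.one
  constructor
  case far => exact hfar
  case hL => exact ball_lip c s
  case hb => exact hG.admN hI hN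
  case hb' => exact hadm
  case hU => exact hn.U
  case hU0 => exact hG.eU
  case hU0' =>
    intro x hx
    have := hG.eU x hx
    unfold Med.eta at this ⊢
    rw [hn.bU x hx]
    exact this
  case hAU => exact hG.AU
  case ha => exact ha
  case hμ => exact hμ.le
  case hw => exact hasW_good hG hI hN hcp hU hIn hμ.le hF.mu1 h1' hF.m2
  case hw' =>
    exact hn.hasW hG hI hN hO hNA hk hk0 hr hcp hU hIn hWD hμ.le hF.mu1 hF.m1 hF.m2
  case hν => unfold farν ANM.nuL; positivity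
  case hνμ =>
    unfold farν ANM.nuL
    rw [div_le_div_iff₀ (by positivity) ha']
    have : tH f u * μ ≤ 1 * μ := mul_le_mul_of_nonneg_right ht1 hμ.le
    have h3 : 0 ≤ μ * a := by positivity
    nlinarith
  case hQ =>
    unfold farQ
    have : 0 ≤ ANM.KL d μ a c0 K (tH f u) := by
      unfold ANM.KL
      positivity
    positivity
  case he => positivity
  case heA => exact hA0
  case he1 => exact he0
  case he1' => exact he1
  case C1 => exact fun x hx => hG.gam_le hI hN hx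
  case C1' => exact hnew.C1
  case one => exact hF.one
  case hLm => exact hLm
  case hLm' => exact hLm1
  case hq => exact hF.q1
  case c1C => exact hcC
  case hWr =>
    refine ⟨W, hWA, fun x hx => ?_, hWn.nq, hA1, ?_⟩
    · have := hNB x (hWN hx)
      show ANP.dT x c - s = 0
      omega
    intro x hxW
    by_cases hA : x ∈ M.A
    · have e1 := hG.eta_act_le hI hN hA
      have e2 := hn.eta_act hG hA
      have e3 := hA1 x hA hxW
      have e4 := hF.q1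
      have e5 := hF.qk
      have e6 := hnew.c1 x (hG.nU_of_A hA)
      have e7 : kl' * (f.c1 / 2) ≤ M1.k x * (M1.G x x).im :=
        mul_le_mul (hk x hA hxW) e6 (by linarith) (hk0 x hA)
      rw [e2]
      have e8 : q * (kl' * (f.c1 / 2)) ≤ q * (M1.k x * (M1.G x x).im) :=
        mul_le_mul_of_nonneg_left e7 (by linarith)
      have e9 : t.eta ≤ q * t.eta := le_mul_of_one_le_left hN.eta.le e4
      rw [mul_add]
      linarith
    · rw [hn.eta_off hG hO hNA hA]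
      have e1 := hG.eta_nonneg hI hN x
      have e4 := hF.q1
      nlinarith

/-- THE FAR ROWS of one step -/
theorem farRow (hG : Good f t M) (hI : t.In f M u) (hN : Num f t u) {r al kl' k' : ℝ}
    (hn : Nxt M M1 g ω r) (hs : StepH f t M g ω ∅ r al kl' k') (hO : Off g ω N) (hNA : N ⊆ M.A)
    {s : ℕ} (hNB : ∀ w ∈ N, ANP.dT w c ≤ s) {κ : Type*} {Dp : κ → Set (Tor d L)} {a c0 : ℕ}
    (ha : 1 ≤ a) (hcp : ANM.CP (ANM.td : Tor d L → Tor d L → ℕ) Dp a c0)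
    (hU : ∀ x ∈ M.U, ∃ k, x ∈ Dp k) (hIn : ∀ x ∈ M.I, ∃ k, x ∈ Dp k) {μ K Bd q : ℝ}
    (hF : FarNum f t u r kl' k' μ K Bd q)
    (hinc : ∀ x ∈ N, ‖(g.xi x (ω x) : ℂ) + (g.zt x (ω x) : ℂ) * M.G x x‖ ≤ Bd) {Lm : ℝ}
    (hLm : ∀ x y, x ∉ M.U → y ∉ M.U → ‖M.G x y‖ ≤ Lm)
    (hLm1 : ∀ x y, x ∉ M.U → y ∉ M.U → ‖M1.G x y‖ ≤ Lm) :
    FarRow f M M1 {x | ∃ k, x ∈ Dp k} μ a c0 (fun x => ANP.dT x c - s)
      (farQ d f u μ K a c0) (farν f u μ a) (kl' * (f.c1 / 2)) Lm q :=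
  farRowW (W := ∅) (om := 1) hG hI hN hn hO hNA (Finset.empty_subset _)
    (fun x hx hxW => hs.klo x hx hxW)
    (fun x hx => hF.kl0.le.trans (hs.klo x hx (Finset.notMem_empty x))) hs.khi hNB ha hcp hU hIn
    (fun x hx => absurd hx (Finset.notMem_empty x)) hF hinc
    (WNum.empty hN.c1.le (mul_nonneg (by linarith [hF.q1]) (hG.C1_pos hI hN).le) _ _ _ _ _ _)
    hLm hLm1

/-- numbers of the schedule for one level -/
structure FarSch (κ b v Cg : ℝ) (s : ℕ) (Q ν μ : ℝ) (a c0 : ℕ) (C1 c1 e Lm q ze tl : ℝ) :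
    Prop where
  kap0 : 0 < κ
  kap1 : κ ≤ 1
  v0 : 0 ≤ v
  b0 : 0 ≤ b
  bnu : 16 * (b * κ) ≤ ν
  ze0 : 0 ≤ ze
  zeB : Q * Real.exp (-(ν * s / 2)) ≤ ze * κ ^ v
  one : Q * Real.exp (-(ν * s / 2)) ≤ 1
  tau : 8 * q * C1 * Lm ^ 2 / e * (Q * Real.exp (-(ν * s / 2))) ≤ κ ^ (-(7 / 8) : ℝ)
  ct1 : b * κ ≤ μ / a
  ct2 : 3 * (2 * C1) * Real.exp μ / (4 * μ) * Real.exp (μ * c0 / a) ≤ pf κ b Cg
  ct3 : Lm ≤ pf κ b Cg * Real.exp (-(b * κ * c0))
  t1 : 4 * C1 * Real.exp (2 * μ * c0 / a) * Real.exp (-(μ * s / a)) ≤ c1 / 8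
  t2 : Lm ^ 2 / e * (4 * C1 * Real.exp (2 * μ * c0 / a) * Real.exp (-(2 * μ * s / a))) ≤ tl

/-- the basic far estimate: `x` at distance more than `2 s` -/
theorem far_exp {Q ν bk : ℝ} {s n : ℕ} (hQ : 0 ≤ Q) (hν : 0 ≤ ν) (hb : 4 * bk ≤ ν)
    (hn : 2 * s < n) : Q * Real.exp (-(ν * ((n - s : ℕ) : ℝ))) ≤
      Q * Real.exp (-(ν * s / 2)) * Real.exp (-(bk * n)) := by
  rw [mul_assoc, ← Real.exp_add]
  refine mul_le_mul_of_nonneg_left (Real.exp_le_exp.2 ?_) hQ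
  have h1 : (n : ℝ) / 2 ≤ ((n - s : ℕ) : ℝ) := by
    rw [Nat.cast_sub (by omega)]
    have : 2 * (s : ℝ) < n := by exact_mod_cast hn
    linarith
  have h2 : 2 * (s : ℝ) ≤ n := by
    have : 2 * (s : ℝ) < n := by exact_mod_cast hn
    linarith
  have h3 := mul_le_mul_of_nonneg_left h1 hν
  have h4 := mul_le_mul_of_nonneg_left h2 hν
  have h5 := mul_le_mul_of_nonneg_right hb (Nat.cast_nonneg (α := ℝ) n)
  linarith

namespace FarRow

variable {F : Set (Tor d L)} {μ : ℝ} {a c0 : ℕ} {Q ν e Lm q : ℝ} {s : ℕ} {κ b v Cg ze tl : ℝ}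

/-- change of the diagonal entries away from the cell -/
theorem F0 (h : FarRow f M M1 F μ a c0 (fun x => ANP.dT x c - s) Q ν e Lm q)
    (hS : FarSch κ b v Cg s Q ν μ a c0 f.C1 f.c1 e Lm q ze tl) {x : Tor d L} (hx : x ∉ M.U)
    (hxc : 3 * s < 2 * ANP.dT x c) : ‖M1.G x x - M.G x x‖ ≤ ze * ph κ v b s x c := by
  have h1 := h.far.ent x x hx hx
  rw [max_self, norm_sub_rev] at h1
  have h1' : ‖M1.G x x - M.G x x‖ ≤ Q * Real.exp (-(ν * ((ANP.dT x c - s : ℕ) : ℝ))) := h1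
  refine h1'.trans ?_
  have hbk : 0 ≤ b * κ := mul_nonneg hS.b0 hS.kap0.le
  unfold ph
  split_ifs with h2
  · refine le_trans ?_ hS.zeB
    refine mul_le_mul_of_nonneg_left (Real.exp_le_exp.2 ?_) h.hQ
    have h3 : (s : ℝ) / 2 ≤ ((ANP.dT x c - s : ℕ) : ℝ) := by
      rw [Nat.cast_sub (by omega)]
      have : 3 * (s : ℝ) < 2 * ANP.dT x c := by exact_mod_cast hxc
      linarith
    have h4 := mul_le_mul_of_nonneg_left h3 h.hν
    linarith
  · have h3 := far_exp (n := ANP.dT x c) (s := s) h.hQ h.hν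
      (show 4 * (b * κ) ≤ ν by linarith [hS.bnu]) (by omega)
    refine h3.trans ?_
    refine mul_le_mul_of_nonneg_right ?_ (Real.exp_pos _).le
    refine hS.zeB.trans ?_
    have h4 : κ ^ v ≤ 1 := Real.rpow_le_one hS.kap0.le hS.kap1 hS.v0
    calc ze * κ ^ v ≤ ze * 1 := mul_le_mul_of_nonneg_left h4 hS.ze0
      _ = ze := mul_one _

/-- (H1) far from the cell -/
theorem F1 (h : FarRow f M M1 F μ a c0 (fun x => ANP.dT x c - s) Q ν e Lm q) {P : Par} {n : ℕ}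
    (hS : FarSch (P.kap n) P.b P.v P.Cg s Q ν μ a c0 f.C1 f.c1 e Lm q ze tl) {X : Type}
    {Sf : SiteF X} {Fl : Fld (Tor d L)} {π π1 : Prof (Tor d L)} {v0 v1 : Tor d L → X}
    (hG : Good f (tolAt P Sf n Fl π v0 M) M) {x : Tor d L} (hx : x ∉ M.U)
    (hxc : 2 * s < ANP.dT x c) :
    ‖M1.G x x - f.g0‖ ≤ (tolAt P Sf n (Fl.add P n s {c}) π1 v1 M1).del x := by
  have h1 := h.h1 hx (hG.h1 x hx)
  have h3 := far_exp (n := ANP.dT x c) (s := s) h.hQ h.hν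
      (show 4 * (P.b * P.kap n) ≤ ν by
        have := mul_nonneg hS.b0 hS.kap0.le
        linarith [hS.bnu]) hxc
  have h4 : Q * Real.exp (-(ν * s / 2)) * Real.exp (-(P.b * P.kap n * ANP.dT x c)) ≤
      1 * Real.exp (-(P.b * P.kap n * ANP.dT x c)) :=
    mul_le_mul_of_nonneg_right hS.one (Real.exp_pos _).le
  have h5 : (tolAt P Sf n (Fl.add P n s {c}) π1 v1 M1).del x =
      P.del0 + (Fl.err x + Real.exp (-(P.b * P.kap n * ANP.dT x c))) := by
    unfold tolAt Fld.add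
    simp only [Finset.sum_singleton]
    rw [ph, if_neg (by omega)]
  rw [h5]
  refine h1.trans ?_
  have h6 : (tolAt P Sf n Fl π v0 M).del x = P.del0 + Fl.err x := rfl
  rw [h6]
  linarith

/-- (H2) far from the cell -/
theorem F2 (h : FarRow f M M1 F μ a c0 (fun x => ANP.dT x c - s) Q ν e Lm q) {P : Par} {n : ℕ}
    (hS : FarSch (P.kap n) P.b P.v P.Cg s Q ν μ a c0 f.C1 f.c1 e Lm q ze tl) {X : Type}
    {Sf : SiteF X} {Fl : Fld (Tor d L)} {π π1 : Prof (Tor d L)} {v0 v1 : Tor d L → X}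
    (hG : Good f (tolAt P Sf n Fl π v0 M) M) (hA : M1.A = M.A) {x : Tor d L} (hx : x ∉ M.U)
    (hxc : 2 * s < ANP.dT x c) :
    ∑ w ∈ M1.A, ‖M1.G x w‖ ^ 4 ≤ (tolAt P Sf n (Fl.add P n s {c}) π1 v1 M1).tau x := by
  rw [hA]
  have h1 : ∑ w ∈ M.A, ‖M1.G x w‖ ^ 4 ≤ ∑ w ∈ M.A, ‖M.G x w‖ ^ 4 +
      8 * q * f.C1 * Lm ^ 2 / e * (Q * Real.exp (-(ν * ((ANP.dT x c - s : ℕ) : ℝ)))) := h.h2 hx
  have h2 : ∑ w ∈ M.A, ‖M.G x w‖ ^ 4 ≤ (P.kap n) ^ (-(7 / 8) : ℝ) * (1 + Fl.et x) := hG.h2 x hx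
  have h3 := far_exp (n := ANP.dT x c) (s := s) h.hQ h.hν
      (show 4 * (P.b * P.kap n) ≤ ν by
        have := mul_nonneg hS.b0 hS.kap0.le
        linarith [hS.bnu]) hxc
  have hq0 : 0 ≤ q := by linarith [h.hq]
  have hC0 : 0 ≤ f.C1 := by linarith [h.one]
  have he := h.he
  have h4 : 8 * q * f.C1 * Lm ^ 2 / e * (Q * Real.exp (-(ν * ((ANP.dT x c - s : ℕ) : ℝ)))) ≤
      (P.kap n) ^ (-(7 / 8) : ℝ) * Real.exp (-(P.b * P.kap n * ANP.dT x c)) := by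
    calc 8 * q * f.C1 * Lm ^ 2 / e * (Q * Real.exp (-(ν * ((ANP.dT x c - s : ℕ) : ℝ))))
        ≤ 8 * q * f.C1 * Lm ^ 2 / e * (Q * Real.exp (-(ν * s / 2)) *
          Real.exp (-(P.b * P.kap n * ANP.dT x c))) :=
          mul_le_mul_of_nonneg_left h3 (by positivity)
      _ = (8 * q * f.C1 * Lm ^ 2 / e * (Q * Real.exp (-(ν * s / 2)))) *
          Real.exp (-(P.b * P.kap n * ANP.dT x c)) := by ring
      _ ≤ _ := mul_le_mul_of_nonneg_right hS.tau (Real.exp_pos _).le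
  have h5 : (tolAt P Sf n (Fl.add P n s {c}) π1 v1 M1).tau x =
      (P.kap n) ^ (-(7 / 8) : ℝ) * (1 + (Fl.et x + Real.exp (-(P.b * P.kap n * ANP.dT x c)))) := by
    unfold tolAt Fld.add
    simp only [Finset.sum_singleton]
    rw [ph, if_neg (by omega)]
  rw [h5]
  linarith

/-- (H5) for two sites far from the cell -/
theorem F5 (h : FarRow f M M1 F μ a c0 (fun x => ANP.dT x c - s) Q ν e Lm q) {P : Par} {n : ℕ}
    (hS : FarSch (P.kap n) P.b P.v P.Cg s Q ν μ a c0 f.C1 f.c1 e Lm q ze tl) {X : Type}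
    {Sf : SiteF X} {Fl : Fld (Tor d L)} {π π1 : Prof (Tor d L)} {v0 v1 : Tor d L → X}
    (hG : Good f (tolAt P Sf n Fl π v0 M) M) {x y : Tor d L} (hx : x ∉ M.U) (hy : y ∉ M.U)
    (hxc : 2 * s < ANP.dT x c) (hyc : 2 * s < ANP.dT y c) :
    ‖M1.G x y‖ ≤ (tolAt P Sf n (Fl.add P n s {c}) π1 v1 M1).g5 x y := by
  have h1 : ‖M1.G x y‖ ≤ Fl.g5 x y + Q * Real.exp (-(ν *
      ((max (ANP.dT x c - s) (ANP.dT y c - s) : ℕ) : ℝ))) := h.h5 hx hy (hG.h5 x y hx hy)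
  have h5 : (tolAt P Sf n (Fl.add P n s {c}) π1 v1 M1).g5 x y = Fl.g5 x y +
      Real.exp (-(P.b * P.kap n * (ANP.dT x c + ANP.dT y c + ANP.dT x y))) := by
    unfold tolAt Fld.add
    simp only [Finset.sum_singleton]
    rw [ph5, if_neg (by omega)]
  rw [h5]
  refine h1.trans (add_le_add le_rfl ?_)
  set m := max (ANP.dT x c - s) (ANP.dT y c - s) with hm
  have hbk : 0 ≤ P.b * P.kap n := mul_nonneg hS.b0 hS.kap0.le
  have e1 : ANP.dT x y ≤ ANP.dT x c + ANP.dT y c := by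
    have h2 : ANM.td x y ≤ ANM.td x c + ANM.td c y := ANM.td_met.tri x c y
    rw [ANM.td_met.symm c y] at h2
    exact h2
  have e2 : ANP.dT x c + ANP.dT y c + ANP.dT x y ≤ 8 * m := by omega
  have e3 : s ≤ m := by omega
  have e2' : (ANP.dT x c : ℝ) + ANP.dT y c + ANP.dT x y ≤ 8 * m := by exact_mod_cast e2
  have e3' : (s : ℝ) ≤ m := by exact_mod_cast e3
  have e4 : Q * Real.exp (-(ν * m)) ≤ Q * Real.exp (-(ν * s / 2)) *
      Real.exp (-(P.b * P.kap n * (ANP.dT x c + ANP.dT y c + ANP.dT x y))) := by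
    rw [mul_assoc, ← Real.exp_add]
    refine mul_le_mul_of_nonneg_left (Real.exp_le_exp.2 ?_) h.hQ
    have e5 := mul_le_mul_of_nonneg_left e2' hbk
    have e6 := mul_le_mul_of_nonneg_left e3' h.hν
    have e7 := mul_le_mul_of_nonneg_right hS.bnu (Nat.cast_nonneg (α := ℝ) m)
    linarith
  refine e4.trans ?_
  calc Q * Real.exp (-(ν * s / 2)) *
        Real.exp (-(P.b * P.kap n * (ANP.dT x c + ANP.dT y c + ANP.dT x y)))
      ≤ 1 * Real.exp (-(P.b * P.kap n * (ANP.dT x c + ANP.dT y c + ANP.dT x y))) :=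
        mul_le_mul_of_nonneg_right hS.one (Real.exp_pos _).le
    _ = _ := one_mul _

/-- decay of all the entries of the next medium -/
theorem F6 (h : FarRow f M M1 F μ a c0 (fun x => ANP.dT x c - s) Q ν e Lm q)
    (hS : FarSch κ b v Cg s Q ν μ a c0 f.C1 f.c1 e Lm q ze tl) (hμ : 0 < μ) {x y : Tor d L}
    (hx : x ∉ M.U) (hy : y ∉ M.U) :
    ‖M1.G x y‖ ≤ pf κ b Cg * Real.exp (-(b * κ * ANP.dT x y)) := by
  have hbk : 0 ≤ b * κ := mul_nonneg hS.b0 hS.kap0.le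
  have hκ : 0 ≤ pf κ b Cg := (pf_pos κ b Cg).le
  by_cases hxy : c0 < ANP.dT x y
  · have h1 := ANM.dec_all (adm_diss h.hb') h.ha hμ h.hw' hxy (h.C1' x hx)
      (((le_abs_self _).trans (Complex.abs_im_le_norm _)).trans (h.C1' y hy))
    refine le_trans h1 ?_
    refine mul_le_mul hS.ct2 (Real.exp_le_exp.2 ?_) (Real.exp_pos _).le hκ
    have h2 := mul_le_mul_of_nonneg_right hS.ct1 (Nat.cast_nonneg (α := ℝ) (ANP.dT x y))
    have h3 : μ / a * (ANP.dT x y : ℝ) = μ * (ANM.td x y : ℝ) / a := by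
      rw [show (ANM.td x y : ℝ) = (ANP.dT x y : ℝ) from rfl]
      ring
    linarith
  · refine (h.hLm' x y hx hy).trans (hS.ct3.trans ?_)
    refine mul_le_mul_of_nonneg_left (Real.exp_le_exp.2 ?_) hκ
    have h1 : (ANP.dT x y : ℝ) ≤ c0 := by exact_mod_cast not_lt.1 hxy
    have h2 := mul_le_mul_of_nonneg_left h1 hbk
    linarith

/-- absorption tail of a row of the next medium -/
theorem tailE (h : FarRow f M M1 F μ a c0 (fun x => ANP.dT x c - s) Q ν e Lm q)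
    {x : Tor d L} (hx : x ∉ M.U) (S : Finset (Tor d L)) {R : ℝ}
    (hS : ∀ y ∈ S, R ≤ (ANP.dT x y : ℝ)) :
    ∑ y ∈ S, M1.eta y * ‖M1.G x y‖ ^ 2 ≤
      4 * f.C1 * Real.exp (2 * μ * c0 / a) * Real.exp (-(2 * μ * R / a)) := by
  have h1 := ANM.tail_sum (adm_diss h.hb') h.ha h.hμ h.hw' x S hS
  refine le_trans h1 ?_
  have h2 := h.C1' x hx
  refine mul_le_mul_of_nonneg_right ?_ (Real.exp_pos _).le
  refine mul_le_mul_of_nonneg_right ?_ (Real.exp_pos _).le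
  linarith

/-- quartic tail of a row of the next medium over active sites -/
theorem tailF (h : FarRow f M M1 F μ a c0 (fun x => ANP.dT x c - s) Q ν e Lm q)
    {x : Tor d L} (hx : x ∉ M.U) (S : Finset (Tor d L)) (hSA : S ⊆ M.A)
    (hSs : ∀ y ∈ S, s < ANP.dT y c) {R : ℝ} (hS : ∀ y ∈ S, R ≤ (ANP.dT x y : ℝ)) :
    ∑ y ∈ S, ‖M1.G x y‖ ^ 4 ≤ Lm ^ 2 / e *
      (4 * f.C1 * Real.exp (2 * μ * c0 / a) * Real.exp (-(2 * μ * R / a))) := by
  have h1 := h.tailE hx S hS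
  have he := h.he
  obtain ⟨W, -, hWr, -, hWe, -⟩ := h.hWr
  refine le_trans ?_ (mul_le_mul_of_nonneg_left h1 (show 0 ≤ Lm ^ 2 / e by positivity))
  rw [Finset.mul_sum]
  refine Finset.sum_le_sum fun y hy => ?_
  have hyA := hSA hy
  have hyU : y ∉ M.U := fun hU => Finset.disjoint_left.1 h.hAU hyA hU
  have hyW : y ∉ W := fun hyW => by
    have e1 := hWr y hyW
    have e2 := hSs y hy
    have e3 : ANP.dT y c - s = 0 := e1
    omega
  have h2 : ‖M1.G x y‖ ^ 2 ≤ Lm ^ 2 := pow_le_pow_left₀ (norm_nonneg _) (h.hLm' x y hx hyU) 2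
  have h3 : 1 ≤ M1.eta y / e := by
    rw [one_le_div he]
    exact hWe y hyA hyW
  calc ‖M1.G x y‖ ^ 4 = ‖M1.G x y‖ ^ 2 * ‖M1.G x y‖ ^ 2 * 1 := by ring
    _ ≤ Lm ^ 2 * ‖M1.G x y‖ ^ 2 * (M1.eta y / e) := by
        refine mul_le_mul ?_ h3 (by norm_num) (by positivity)
        exact mul_le_mul_of_nonneg_right h2 (sq_nonneg _)
    _ = _ := by ring

/-- the absorption beyond `2 s` of a row with `2 dT x c ≤ 3 s` -/
theorem T1 (h : FarRow f M M1 F μ a c0 (fun x => ANP.dT x c - s) Q ν e Lm q)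
    (hS : FarSch κ b v Cg s Q ν μ a c0 f.C1 f.c1 e Lm q ze tl) {x : Tor d L}
    (hx : x ∉ M.U) (hxc : 2 * ANP.dT x c ≤ 3 * s) (S : Finset (Tor d L))
    (hSc : ∀ y ∈ S, 2 * s < ANP.dT y c) :
    ∑ y ∈ S, M1.eta y * ‖M1.G x y‖ ^ 2 ≤ f.c1 / 8 := by
  refine (h.tailE hx S (R := (s : ℝ) / 2) fun y hy => ?_).trans ?_
  · have h1 : ANM.td y c ≤ ANM.td y x + ANM.td x c := ANM.td_met.tri y x c
    rw [ANM.td_met.symm y x] at h1
    have h2 := hSc y hy
    have h3 : s ≤ 2 * ANP.dT x y := by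
      have h1' : ANP.dT y c ≤ ANP.dT x y + ANP.dT x c := h1
      omega
    have : (s : ℝ) ≤ 2 * ANP.dT x y := by exact_mod_cast h3
    linarith
  · have e1 : 2 * μ * ((s : ℝ) / 2) / a = μ * s / a := by ring
    rw [e1]
    exact hS.t1

/-- the quartic tail beyond `3 s` of a row with `dT x c ≤ 2 s` -/
theorem T2 (h : FarRow f M M1 F μ a c0 (fun x => ANP.dT x c - s) Q ν e Lm q)
    (hS : FarSch κ b v Cg s Q ν μ a c0 f.C1 f.c1 e Lm q ze tl) {x : Tor d L}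
    (hx : x ∉ M.U) (hxc : ANP.dT x c ≤ 2 * s) (S : Finset (Tor d L)) (hSA : S ⊆ M.A)
    (hSc : ∀ y ∈ S, 3 * s ≤ ANP.dT y c) :
    ∑ y ∈ S, ‖M1.G x y‖ ^ 4 ≤ tl := by
  have hs0 : 0 < s := by
    by_contra h0
    have h1 : s = 0 := by omega
    have h2 := hS.t1
    have h3 : 1 ≤ Real.exp (2 * μ * c0 / a) := Real.one_le_exp (by have := h.hμ; positivity)
    rw [h1, Nat.cast_zero, mul_zero, zero_div, neg_zero, Real.exp_zero, mul_one] at h2
    have h4 : 4 * f.C1 * 1 ≤ 4 * f.C1 * Real.exp (2 * μ * c0 / a) :=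
      mul_le_mul_of_nonneg_left h3 (by linarith [h.one])
    linarith [h.one, h.c1C]
  refine (h.tailF hx S hSA (fun y hy => ?_) (R := (s : ℝ)) fun y hy => ?_).trans hS.t2
  · have := hSc y hy
    omega
  have h1 : ANM.td y c ≤ ANM.td y x + ANM.td x c := ANM.td_met.tri y x c
  rw [ANM.td_met.symm y x] at h1
  have h2 := hSc y hy
  have h3 : s ≤ ANP.dT x y := by
    have h1' : ANP.dT y c ≤ ANP.dT x y + ANP.dT x c := h1
    omega
  exact_mod_cast h3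

end FarRow

end Pool.Agent.AND
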