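import Pool.Agent.ANS.StepFar
import Pool.Agent.ANS.StepGood

/-! # ANS StepFarOut: `FarOut` (helper1's interface of the far rows) from `FarRow` (owner helper3)

* `hd_all`: `|G1_xx - G_xx| ≤ ze ph` for every non-read `x` (near: `r ≤ ze κ^v`).
* `farOut`: all the fields of `FarOut` but (H3), which is helper79's `StepFar3`. -/

open Matrix Finset

noncomputable section

namespace Pool.Agent.AND

open Pool.Agent.Kin Pool.Agent.APS

set_option linter.unusedSectionVars false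

variable {d L : ℕ} [NeZero L] {X D : Type} [Fintype D] {f : Fix} {P : Par} {Sf : SiteF X} {n s : ℕ}
  {Fl : Fld (Tor d L)} {π π1 : Prof (Tor d L)} {v0 v1 : Tor d L → X} {M M1 : Med (Tor d L)}
  {u : UTol} {g : ANS.Dig (Tor d L) D} {ω : Tor d L → D} {c : Tor d L}
  {Fs : Set (Tor d L)} {μ : ℝ} {a c0 : ℕ} {Q ν e Lm q ze tl : ℝ}

/-- change of the diagonal entries, all non-read sites -/
theorem hd_all {κ b v Cg : ℝ} {r : ℝ}
    (h : FarRow f M M1 Fs μ a c0 (fun x => ANP.dT x c - s) Q ν e Lm q)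
    (hS : FarSch κ b v Cg s Q ν μ a c0 f.C1 f.c1 e Lm q ze tl)
    (hn : Nxt M M1 g ω r) (hr : r ≤ ze * κ ^ v) :
    ∀ x, x ∉ M.U → ‖M1.G x x - M.G x x‖ ≤ ze * ph κ v b s x c := by
  intro x hx
  by_cases hxc : 3 * s < 2 * ANP.dT x c
  · exact h.F0 hS hx hxc
  · have h1 := hn.dia x hx
    have h2 : ph κ v b s x c = κ ^ v := by
      unfold ph
      rw [if_pos (by omega)]
    rw [h2]
    exact h1.trans hr

/-- THE FAR ROWS in helper1's form -/
theorem farOut (h : FarRow f M M1 Fs μ a c0 (fun x => ANP.dT x c - s) Q ν e Lm q)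
    (hS : FarSch (P.kap n) P.b P.v P.Cg s Q ν μ a c0 f.C1 f.c1 e Lm q ze tl)
    (hG : Good f (tolAt P Sf n Fl π v0 M) M) (hN : 0 ≤ f.c1) (hA : M1.A = M.A) (hμ : 0 < μ)
    {B W : Finset (Tor d L)} (hB : ∀ w ∈ M.A, w ∉ B → 3 * s ≤ ANP.dT w c)
    (h3 : ∀ K ∈ Sf.Ks n, ∀ x, x ∉ M.U → 3 * s < 2 * ANP.dT x c →
      ‖∑ y ∈ M1.A, rsc (H0T d L) M1.b x y ^ 2 *
          ((tolAt P Sf n (Fl.add P n s {c}) π1 v1 M1).a K y : ℂ)‖ ≤
        ∑ y ∈ M1.nr, ‖rsc (H0T d L) M1.b x y‖ ^ 2 *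
          (tolAt P Sf n (Fl.add P n s {c}) π1 v1 M1).z K y) :
    FarOut f P Sf n s Fl π1 v1 M M1 c B W tl where
  h2 := fun x hx hxc => (Finset.sum_le_sum_of_subset_of_nonneg Finset.sdiff_subset
    fun _ _ _ => by positivity).trans (h.F2 hS hG hA hx (by omega))
  h3 := h3
  h5 := fun x y hx hy hxc hyc => h.F5 hS hG hx hy (by omega) (by omega)
  dec := fun x y hx hy => h.F6 hS hμ hx hy
  tA := fun x hx hxc => h.T2 hS hx hxc ((M.A \ W) \ B)
    (Finset.sdiff_subset.trans Finset.sdiff_subset) fun y hy => by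
      have hy' := Finset.mem_sdiff.1 hy
      exact hB y (Finset.mem_sdiff.1 hy'.1).1 hy'.2
  tW := fun x hx hxc => by
    have h1 := h.T1 hS hx hxc (M.nr.filter (fun y => ¬ ANP.dT y c ≤ 2 * s)) fun y hy => by
      have := (Finset.mem_filter.1 hy).2
      omega
    have h2 : ∑ y ∈ M.nr.filter (fun y => ¬ ANP.dT y c ≤ 2 * s),
      M1.eta y * ‖rsc (H0T d L) M1.b x y‖ ^ 2 ≤ f.c1 / 8 := h1
    linarith

end Pool.Agent.AND
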