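import Pool.Agent.AND.LocGood
import Pool.Agent.AND.H3A
import Pool.Agent.ANM.LocRow
import Pool.Agent.ANS.TopDefs

/-! # ANS TOP FAR: the rows far from the cell (owner helper3)

`M` good, `M'` the next medium (`Nxt`), the digits vanish off `N` (`Off`).

* `Nxt.sameOff`, `Nxt.newOK`, `Nxt.eta_act`, `Nxt.hasW`, `Nxt.far`: the locality theorem for one step.
* `FarRow`: what the far rows need; `FarRow.h1`, `FarRow.h2`, `FarRow.h5`: the new errors of (H1), (H2), (H5);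
  `FarRow.h3err`: the error of (H3) in one row, to be used in `h3_update` with `g = G_x·`, `T0 = 0`.
-/

open Matrix Finset

noncomputable section

namespace Pool.Agent.AND

open Pool.Agent.Kin Pool.Agent.APS

set_option linter.unusedSectionVars false

variable {d L : ℕ} [NeZero L] {D : Type} [Fintype D] {f : Fix} {t : Tol d L}
  {M M' : Med (Tor d L)} {u : UTol} {g : ANS.Dig (Tor d L) D} {ω : Tor d L → D} {rr : ℝ}
  {N : Finset (Tor d L)}

/-- the digits vanish off `N` -/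
def Off (g : ANS.Dig (Tor d L) D) (ω : Tor d L → D) (N : Finset (Tor d L)) : Prop :=
  ∀ x, x ∉ N → g.xi x (ω x) = 0 ∧ g.zt x (ω x) = 0

theorem Nxt.b_offN (hn : Nxt M M' g ω rr) (hO : Off g ω N) {x : Tor d L} (hx : x ∉ N)
    (hU : x ∉ M.U) : M'.b x = M.b x - (M.k x : ℂ) * (M'.G x x - M.G x x) := by
  rw [hn.b x hU]
  unfold Med.bf Med.kf
  rw [(hO x hx).1, (hO x hx).2]
  simp

theorem Nxt.sameOff (hG : Good f t M) (hn : Nxt M M' g ω rr) (hO : Off g ω N) :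
    SameOff M M' N := by
  constructor
  intro x hx
  by_cases hU : x ∈ M.U
  · have hA : x ∉ M.A := fun hA => hG.nU_of_A hA hU
    rw [hn.bU x hU, sub_self, hG.k0 x hA, Complex.ofReal_zero, zero_mul]
  · rw [hn.b_offN hO hx hU]
    unfold Med.G
    ring

/-- absorption of the next medium at active sites -/
theorem Nxt.eta_act (hG : Good f t M) (hn : Nxt M M' g ω rr) {x : Tor d L} (hx : x ∈ M.A) :
    M'.eta x = t.eta + M'.k x * (M'.G x x).im := by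
  have hU : x ∉ M.U := hG.nU_of_A hx
  have h1 := hG.eA x hx
  unfold Med.eta at h1 ⊢
  rw [hn.b x hU, hn.k x]
  unfold Med.bf Med.kf
  have h2 : (rsc (H0T d L) M.b x x) = M.G x x := rfl
  rw [h2] at h1
  simp only [Complex.sub_im, Complex.add_im, Complex.ofReal_im, Complex.im_ofReal_mul,
    Complex.sub_im, zero_add]
  have h3 : (M.b x).im = -(t.eta + M.k x * (M.G x x).im) := by linarith
  rw [h3]
  ring

/-- absorption of the next medium at the other sites -/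
theorem Nxt.eta_off (hG : Good f t M) (hn : Nxt M M' g ω rr) (hO : Off g ω N)
    (hNA : N ⊆ M.A) {x : Tor d L} (hx : x ∉ M.A) : M'.eta x = M.eta x := by
  unfold Med.eta
  by_cases hU : x ∈ M.U
  · rw [hn.bU x hU]
  · rw [hn.b_offN hO (fun h => hx (hNA h)) hU, hG.k0 x hx, Complex.ofReal_zero, zero_mul, sub_zero]

theorem Nxt.adm (hG : Good f t M) (hI : t.In f M u) (hN : Num f t u) (hn : Nxt M M' g ω rr)
    (hO : Off g ω N) (hNA : N ⊆ M.A) (hk : ∀ x ∈ M.A, 0 ≤ M'.k x) : ANL.Adm (H0T d L) M'.b := by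
  refine ⟨H0T_realSym, fun x => ?_, hn.unit⟩
  by_cases hx : x ∈ M.A
  · have h1 := hn.eta_act hG hx
    have h2 := hn.pos x (hG.nU_of_A hx)
    have h3 := mul_nonneg (hk x hx) h2.le
    have h4 := hN.eta
    unfold Med.eta at h1
    linarith
  · have h1 := hn.eta_off hG hO hNA hx
    have h2 := hG.eta_nonneg hI hN x
    unfold Med.eta at h1 h2
    linarith

/-- the next medium is a priori close to good -/
theorem Nxt.newOK (hG : Good f t M) (hI : t.In f M u) (hN : Num f t u) (hn : Nxt M M' g ω rr)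
    (hO : Off g ω N) (hNA : N ⊆ M.A) (hk : ∀ x ∈ M.A, 0 ≤ M'.k x) (hr : rr ≤ f.c1 / 2) :
    NewOK f M M' N := by
  have hC1 := hG.C1_pos hI hN
  have hcC : f.c1 ≤ f.C1 := by
    have e1 := hN.g0
    have e2 := hN.C1
    have e3 : f.g0.im ≤ ‖f.g0‖ := (le_abs_self _).trans (Complex.abs_im_le_norm _)
    have e4 := hN.del
    linarith
  constructor
  case adm => exact hn.adm hG hI hN hO hNA hk
  case c1 =>
    intro x hx
    have h1 := hn.dia x hx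
    have h2 := hG.io_ge hI hN hx
    have h3 := Complex.abs_im_le_norm (M'.G x x - M.G x x)
    rw [Complex.sub_im] at h3
    have h4 := (abs_le.1 (h3.trans h1)).1
    unfold Med.G at h4
    linarith
  case C1 =>
    intro x hx
    have h1 := hn.dia x hx
    have h2 := hG.gam_le hI hN hx
    have h3 : ‖M'.G x x‖ ≤ ‖M'.G x x - M.G x x‖ + ‖M.G x x‖ := by
      have := norm_add_le (M'.G x x - M.G x x) (M.G x x)
      rwa [sub_add_cancel] at this
    unfold Med.G at h3 h1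
    linarith
  case k =>
    intro x hx hxN
    have h1 := hn.eta_act hG hx
    have h2 : M'.k x = M.k x := by
      rw [hn.k x]
      unfold Med.kf
      rw [(hO x hxN).2, sub_zero]
    rw [h2] at h1
    rw [h1]
    have := hN.eta
    unfold Med.G
    linarith

/-- Agmon weights of the next medium; the levels may vanish on `W` -/
theorem Nxt.hasW (hG : Good f t M) (hI : t.In f M u) (hN : Num f t u) (hn : Nxt M M' g ω rr)
    (hO : Off g ω N) (hNA : N ⊆ M.A) {W : Finset (Tor d L)} {kl' : ℝ}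
    (hk : ∀ x ∈ M.A, x ∉ W → kl' ≤ M'.k x) (hk0 : ∀ x ∈ M.A, 0 ≤ M'.k x)
    (hr : rr ≤ f.c1 / 2) {κ : Type*}
    {Dp : κ → Set (Tor d L)} {a c : ℕ} (hcp : ANM.CP (ANM.td : Tor d L → Tor d L → ℕ) Dp a c)
    (hU : ∀ x ∈ M.U, ∃ k, x ∈ Dp k) (hIn : ∀ x ∈ M.I, ∃ k, x ∈ Dp k)
    (hWD : ∀ x ∈ W, ∃ k, x ∈ Dp k) {μ : ℝ} (hμ : 0 ≤ μ)
    (hμ1 : μ ≤ 1) (h1 : 8 * d * μ ≤ kl' * (f.c1 / 2)) (h2 : 8 * d * μ ≤ t.st) :
    ANM.HasW M'.b {x | ∃ k, x ∈ Dp k} μ a c := by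
  have hadm := hn.adm hG hI hN hO hNA hk0
  have hnew := hn.newOK hG hI hN hO hNA hk0 hr
  refine ANM.hasW_cp hcp hμ hμ1 (fun x => by have := hadm.im x; linarith) ?_ (le_refl (8 * d * μ))
  intro x hx
  have hxU : x ∉ M.U := fun hU' => by
    obtain ⟨k, hk⟩ := hU x hU'
    exact hx k hk
  have hxI : x ∉ M.I := fun hI' => by
    obtain ⟨k, hk⟩ := hIn x hI'
    exact hx k hk
  have hxW : x ∉ W := fun hW' => by
    obtain ⟨k, hk⟩ := hWD x hW'
    exact hx k hk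
  have he := hN.eta
  by_cases hA : x ∈ M.A
  · have h3 := hn.eta_act hG hA
    have h4 := hnew.c1 x hxU
    have h5 : kl' * (f.c1 / 2) ≤ M'.k x * (M'.G x x).im :=
      mul_le_mul (hk x hA hxW) h4 (by have := hN.c1; linarith) (hk0 x hA)
    unfold Med.eta at h3
    linarith
  · have h3 := hG.eS x hA hxU hxI
    have h4 := hn.eta_off hG hO hNA hA
    unfold Med.eta at h3 h4
    linarith

/-- LOCALITY OF ONE STEP; the absorption may disappear on `W` -/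
theorem Nxt.far (hG : Good f t M) (hI : t.In f M u) (hN : Num f t u) (hρ : 0 < u.rho)
    (hρ2 : u.rho ≤ 2) (hk1 : t.k ≤ 1) (hn : Nxt M M' g ω rr) (hO : Off g ω N) (hNA : N ⊆ M.A)
    {W : Finset (Tor d L)} {kl' : ℝ} (hk : ∀ x ∈ M.A, x ∉ W → kl' ≤ M'.k x)
    (hk0 : ∀ x ∈ M.A, 0 ≤ M'.k x) (hr : rr ≤ f.c1 / 2) {κ : Type*}
    {Dp : κ → Set (Tor d L)} {a c : ℕ} (ha : 1 ≤ a)
    (hcp : ANM.CP (ANM.td : Tor d L → Tor d L → ℕ) Dp a c)
    (hU : ∀ x ∈ M.U, ∃ k, x ∈ Dp k) (hIn : ∀ x ∈ M.I, ∃ k, x ∈ Dp k)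
    (hWD : ∀ x ∈ W, ∃ k, x ∈ Dp k) {μ : ℝ} (hμ : 0 < μ)
    (hμ1 : μ ≤ 1) (h1 : 8 * d * μ ≤ kl' * (f.c1 / 2)) (h1' : 8 * d * μ ≤ t.kl * f.c1)
    (h2 : 8 * d * μ ≤ t.st) {K : ℝ} (hK : KOK f t u K) {om : ℝ}
    (hW : ANM.WtOK (H0T d L) M'.b W om {y | y ∉ M.U}) (hWN : W ⊆ N)
    (hC : ∀ x ∈ N, ‖M'.b x - M.b x‖ ^ 2 ≤ K ^ 2 * (M.eta x * ANM.omW M'.b W om x))
    (he : ∀ x, M'.eta x ≤ 1) {r : Tor d L → ℕ}
    (hrd : ∀ x, ∀ z ∈ N, r x ≤ ANM.td x z) (hL : ∀ x y, r x ≤ r y + ANM.td x y) :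
    Far M M' r (6 * K * ANM.KL d μ a c K (tH f u) * Real.exp (2 * μ * c / a))
      (ANM.nuL μ a (tH f u)) :=
  far_goodW hG hI hN hρ hρ2 hk1 ha hμ hμ1 (hasW_good hG hI hN hcp hU hIn hμ.le hμ1 h1' h2)
    (hn.hasW hG hI hN hO hNA hk hk0 hr hcp hU hIn hWD hμ.le hμ1 h1 h2) (hn.sameOff hG hO)
    (hn.newOK hG hI hN hO hNA hk0 hr) hK hW hWN hC he hrd hL

/-- what the far rows need: `e` = lower bound of the absorption of the active sites, `Lm` = bound of the entries on non-read sites,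
`q` = ratio of the absorptions -/
structure FarRow (f : Fix) (M M' : Med (Tor d L)) (F : Set (Tor d L)) (μ : ℝ) (a c : ℕ)
    (r : Tor d L → ℕ) (Q ν e Lm q : ℝ) : Prop where
  far : Far M M' r Q ν
  hL : ∀ x y, r x ≤ r y + ANM.td x y
  hb : ANL.Adm (H0T d L) M.b
  hb' : ANL.Adm (H0T d L) M'.b
  hU : M'.U = M.U
  hU0 : ∀ x ∈ M.U, M.eta x = 0
  hU0' : ∀ x ∈ M.U, M'.eta x = 0
  hAU : Disjoint M.A M.U
  ha : 1 ≤ a
  hμ : 0 ≤ μ
  hw : ANM.HasW M.b F μ a c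
  hw' : ANM.HasW M'.b F μ a c
  hν : 0 ≤ ν
  hνμ : ν ≤ 2 * μ / a
  hQ : 0 ≤ Q
  he : 0 < e
  heA : ∀ x ∈ M.A, e ≤ M.eta x
  he1 : ∀ x, M.eta x ≤ 1
  he1' : ∀ x, M'.eta x ≤ 1
  C1 : ∀ x, x ∉ M.U → ‖rsc (H0T d L) M.b x x‖ ≤ f.C1
  C1' : ∀ x, x ∉ M.U → ‖rsc (H0T d L) M'.b x x‖ ≤ 2 * f.C1
  one : 1 ≤ f.C1
  hLm : ∀ x y, x ∉ M.U → y ∉ M.U → ‖rsc (H0T d L) M.b x y‖ ≤ Lm
  hLm' : ∀ x y, x ∉ M.U → y ∉ M.U → ‖rsc (H0T d L) M'.b x y‖ ≤ Lm
  hq : 1 ≤ q
  c1C : f.c1 ≤ f.C1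
  /-- the absorption may disappear on a small set `W` -/
  hWr : ∃ W : Finset (Tor d L), W ⊆ M.A ∧ (∀ x ∈ W, r x = 0) ∧
    2 * (W.card : ℝ) * Lm ≤ q * f.C1 ∧ (∀ x ∈ M.A, x ∉ W → e ≤ M'.eta x) ∧
    ∀ x, x ∉ W → M.eta x ≤ q * M'.eta x

namespace FarRow

variable {F : Set (Tor d L)} {μ : ℝ} {a c : ℕ} {r : Tor d L → ℕ} {Q ν e Lm q : ℝ}

theorem eta_nn (h : FarRow f M M' F μ a c r Q ν e Lm q) (x : Tor d L) : 0 ≤ M.eta x := by
  have := h.hb.im x
  unfold Med.eta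
  linarith

theorem eta_nn' (h : FarRow f M M' F μ a c r Q ν e Lm q) (x : Tor d L) : 0 ≤ M'.eta x := by
  have := h.hb'.im x
  unfold Med.eta
  linarith

/-- (H1) -/
theorem h1 (h : FarRow f M M' F μ a c r Q ν e Lm q) {x : Tor d L} (hx : x ∉ M.U) {δ : ℝ}
    (hd : ‖rsc (H0T d L) M.b x x - f.g0‖ ≤ δ) :
    ‖rsc (H0T d L) M'.b x x - f.g0‖ ≤ δ + Q * Real.exp (-(ν * r x)) := by
  have e1 := h.far.ent x x hx hx
  rw [max_self] at e1
  have e2 : rsc (H0T d L) M'.b x x - f.g0 =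
      (rsc (H0T d L) M.b x x - f.g0) - (rsc (H0T d L) M.b x x - rsc (H0T d L) M'.b x x) := by ring
  rw [e2]
  exact (norm_sub_le _ _).trans (add_le_add hd e1)

/-- (H5) -/
theorem h5 (h : FarRow f M M' F μ a c r Q ν e Lm q) {x y : Tor d L} (hx : x ∉ M.U)
    (hy : y ∉ M.U) {δ : ℝ} (hd : ‖rsc (H0T d L) M.b x y‖ ≤ δ) :
    ‖rsc (H0T d L) M'.b x y‖ ≤ δ + Q * Real.exp (-(ν * (max (r x) (r y) : ℕ))) := by
  have e1 := h.far.ent x y hx hy
  have e2 : rsc (H0T d L) M'.b x y =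
      rsc (H0T d L) M.b x y - (rsc (H0T d L) M.b x y - rsc (H0T d L) M'.b x y) := by ring
  rw [e2]
  exact (norm_sub_le _ _).trans (add_le_add hd e1)

/-- Ward sums with the absorption of the first medium -/
theorem sumG (h : FarRow f M M' F μ a c r Q ν e Lm q) {x : Tor d L} (hx : x ∉ M.U) :
    ∑ y, M.eta y * ‖rsc (H0T d L) M.b x y‖ ^ 2 ≤ f.C1 := by
  have h1 := (adm_diss h.hb).ward x
  have h2 : (rsc (H0T d L) M.b x x).im ≤ f.C1 :=
    ((le_abs_self _).trans (Complex.abs_im_le_norm _)).trans (h.C1 x hx)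
  rw [h1] at h2
  refine le_trans (le_of_eq (Finset.sum_congr rfl fun y _ => ?_)) h2
  unfold Med.eta
  ring

theorem sumG' (h : FarRow f M M' F μ a c r Q ν e Lm q) {x : Tor d L} (hx : x ∉ M.U) :
    ∑ y, M'.eta y * ‖rsc (H0T d L) M'.b x y‖ ^ 2 ≤ 2 * f.C1 := by
  have h1 := (adm_diss h.hb').ward x
  have h2 : (rsc (H0T d L) M'.b x x).im ≤ 2 * f.C1 :=
    ((le_abs_self _).trans (Complex.abs_im_le_norm _)).trans (h.C1' x hx)
  rw [h1] at h2
  refine le_trans (le_of_eq (Finset.sum_congr rfl fun y _ => ?_)) h2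
  unfold Med.eta
  ring

/-- the basic sum -/
theorem dsum (h : FarRow f M M' F μ a c r Q ν e Lm q) {x : Tor d L} (hx : x ∉ M.U) :
    ∑ y, M.eta y * (‖rsc (H0T d L) M'.b x y - rsc (H0T d L) M.b x y‖ *
        (‖rsc (H0T d L) M.b x y‖ + ‖rsc (H0T d L) M'.b x y‖)) ≤
      4 * q * f.C1 * (Q * Real.exp (-(ν * r x))) := by
  classical
  obtain ⟨S, hSA, hSr, hSn, -, hSq⟩ := h.hWr
  set G := rsc (H0T d L) M.b with hGd
  set G' := rsc (H0T d L) M'.b with hGd'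
  set W := Q * Real.exp (-(ν * r x)) with hW
  have hW0 : 0 ≤ W := mul_nonneg h.hQ (Real.exp_pos _).le
  have hq0 : 0 ≤ q := by linarith [h.hq]
  have hC0 : 0 ≤ f.C1 := by linarith [h.one]
  have hSU : ∀ y ∈ S, y ∉ M.U := fun y hy hU => Finset.disjoint_left.1 h.hAU (hSA hy) hU
  -- the sum over `S`
  have h0 : ∑ y ∈ S, M.eta y * (‖G' x y - G x y‖ * (‖G x y‖ + ‖G' x y‖)) ≤ q * f.C1 * W := by
    have e1 : ∀ y ∈ S, M.eta y * (‖G' x y - G x y‖ * (‖G x y‖ + ‖G' x y‖)) ≤ 2 * Lm * W := by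
      intro y hy
      have hyU := hSU y hy
      have e2 := h.far.ent x y hx hyU
      rw [hSr y hy, Nat.max_zero, norm_sub_rev] at e2
      have e3 : ‖G x y‖ + ‖G' x y‖ ≤ 2 * Lm := by
        linarith [h.hLm x y hx hyU, h.hLm' x y hx hyU]
      calc M.eta y * (‖G' x y - G x y‖ * (‖G x y‖ + ‖G' x y‖))
          ≤ 1 * (W * (2 * Lm)) := by
            refine mul_le_mul (h.he1 y) ?_ (by positivity) (by norm_num)
            exact mul_le_mul e2 e3 (by positivity) hW0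
        _ = _ := by ring
    refine (Finset.sum_le_sum e1).trans ?_
    rw [Finset.sum_const, nsmul_eq_mul]
    calc (S.card : ℝ) * (2 * Lm * W) = (2 * (S.card : ℝ) * Lm) * W := by ring
      _ ≤ (q * f.C1) * W := mul_le_mul_of_nonneg_right hSn hW0
  have hmem : ∀ y ∈ univ \ S, y ∉ S := fun y hy => (Finset.mem_sdiff.1 hy).2
  have h1 : ∑ y ∈ univ \ S, M.eta y * ‖G' x y - G x y‖ ^ 2 ≤ q * W ^ 2 := by
    calc ∑ y ∈ univ \ S, M.eta y * ‖G' x y - G x y‖ ^ 2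
        ≤ ∑ y ∈ univ \ S, q * (M'.eta y * ‖G x y - G' x y‖ ^ 2) := by
          refine Finset.sum_le_sum fun y hy => ?_
          rw [norm_sub_rev]
          have e1 := mul_le_mul_of_nonneg_right (hSq y (hmem y hy)) (sq_nonneg ‖G x y - G' x y‖)
          linarith
      _ ≤ ∑ y, q * (M'.eta y * ‖G x y - G' x y‖ ^ 2) := by
          refine Finset.sum_le_sum_of_subset_of_nonneg (Finset.subset_univ _) fun y _ _ => ?_
          exact mul_nonneg hq0 (mul_nonneg (h.eta_nn' y) (sq_nonneg _))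
      _ = q * ∑ y, M'.eta y * ‖G x y - G' x y‖ ^ 2 := by rw [Finset.mul_sum]
      _ ≤ q * W ^ 2 := mul_le_mul_of_nonneg_left (h.far.row x hx) hq0
  have h2 : ∑ y ∈ univ \ S, M.eta y * ‖G x y‖ ^ 2 ≤ f.C1 := by
    refine le_trans ?_ (h.sumG hx)
    exact Finset.sum_le_sum_of_subset_of_nonneg (Finset.subset_univ _) fun y _ _ =>
      mul_nonneg (h.eta_nn y) (sq_nonneg _)
  have h3 : ∑ y ∈ univ \ S, M.eta y * ‖G' x y‖ ^ 2 ≤ q * (2 * f.C1) := by
    calc ∑ y ∈ univ \ S, M.eta y * ‖G' x y‖ ^ 2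
        ≤ ∑ y ∈ univ \ S, q * (M'.eta y * ‖G' x y‖ ^ 2) := by
          refine Finset.sum_le_sum fun y hy => ?_
          have e1 := mul_le_mul_of_nonneg_right (hSq y (hmem y hy)) (sq_nonneg ‖G' x y‖)
          linarith
      _ ≤ ∑ y, q * (M'.eta y * ‖G' x y‖ ^ 2) := by
          refine Finset.sum_le_sum_of_subset_of_nonneg (Finset.subset_univ _) fun y _ _ => ?_
          exact mul_nonneg hq0 (mul_nonneg (h.eta_nn' y) (sq_nonneg _))
      _ = q * ∑ y, M'.eta y * ‖G' x y‖ ^ 2 := by rw [Finset.mul_sum]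
      _ ≤ _ := mul_le_mul_of_nonneg_left (h.sumG' hx) hq0
  have hη : ∀ y ∈ univ \ S, 0 ≤ M.eta y := fun y _ => h.eta_nn y
  have c1 := cs_row (univ \ S) M.eta hη (fun y => ‖G' x y - G x y‖) (fun y => ‖G x y‖)
    (√q * W) (√f.C1) (by positivity) (by positivity)
    (by rw [mul_pow, Real.sq_sqrt hq0]; exact h1) (by rw [Real.sq_sqrt hC0]; exact h2)
  have c2 := cs_row (univ \ S) M.eta hη (fun y => ‖G' x y - G x y‖) (fun y => ‖G' x y‖)
    (√q * W) (√(q * (2 * f.C1))) (by positivity) (by positivity)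
    (by rw [mul_pow, Real.sq_sqrt hq0]; exact h1)
    (by rw [Real.sq_sqrt (by positivity)]; exact h3)
  have e1 : ∑ y, M.eta y * (‖G' x y - G x y‖ * (‖G x y‖ + ‖G' x y‖)) =
      ∑ y ∈ univ \ S, M.eta y * (‖G' x y - G x y‖ * ‖G x y‖) +
        ∑ y ∈ univ \ S, M.eta y * (‖G' x y - G x y‖ * ‖G' x y‖) +
        ∑ y ∈ S, M.eta y * (‖G' x y - G x y‖ * (‖G x y‖ + ‖G' x y‖)) := by
    rw [← Finset.sum_add_distrib, ← Finset.sum_sdiff (Finset.subset_univ S)]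
    congr 1
    exact Finset.sum_congr rfl fun y _ => by ring
  rw [e1]
  have hsq : √q ≤ q := by
    rw [Real.sqrt_le_left hq0]
    nlinarith [h.hq]
  have hsC : √f.C1 ≤ f.C1 := by
    rw [Real.sqrt_le_left hC0]
    nlinarith [h.one]
  have hs2 : √q * √(q * (2 * f.C1)) ≤ q * (2 * f.C1) := by
    rw [Real.sqrt_mul hq0, ← mul_assoc, Real.mul_self_sqrt hq0]
    refine mul_le_mul_of_nonneg_left ?_ hq0
    rw [Real.sqrt_le_left (by positivity)]
    nlinarith [h.one]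
  have c1' : √q * W * √f.C1 ≤ q * f.C1 * W := by
    calc √q * W * √f.C1 = (√q * √f.C1) * W := by ring
      _ ≤ (q * f.C1) * W := mul_le_mul_of_nonneg_right
          (mul_le_mul hsq hsC (Real.sqrt_nonneg _) hq0) hW0
  have c2' : √q * W * √(q * (2 * f.C1)) ≤ 2 * q * f.C1 * W := by
    calc √q * W * √(q * (2 * f.C1)) = (√q * √(q * (2 * f.C1))) * W := by ring
      _ ≤ (q * (2 * f.C1)) * W := mul_le_mul_of_nonneg_right hs2 hW0
      _ = _ := by ring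
  calc _ ≤ √q * W * √f.C1 + √q * W * √(q * (2 * f.C1)) + q * f.C1 * W :=
        add_le_add (add_le_add c1 c2) h0
    _ ≤ q * f.C1 * W + 2 * q * f.C1 * W + q * f.C1 * W :=
        add_le_add (add_le_add c1' c2') le_rfl
    _ = _ := by ring

/-- (H2), unweighted fourth moments over the active sites -/
theorem h2 (h : FarRow f M M' F μ a c r Q ν e Lm q) {x : Tor d L} (hx : x ∉ M.U) :
    ∑ w ∈ M.A, ‖rsc (H0T d L) M'.b x w‖ ^ 4 ≤ ∑ w ∈ M.A, ‖rsc (H0T d L) M.b x w‖ ^ 4 +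
      8 * q * f.C1 * Lm ^ 2 / e * (Q * Real.exp (-(ν * r x))) := by
  set G := rsc (H0T d L) M.b with hGd
  set G' := rsc (H0T d L) M'.b with hGd'
  have he := h.he
  have hnU : ∀ w ∈ M.A, w ∉ M.U := fun w hw hU => Finset.disjoint_left.1 h.hAU hw hU
  have hds := h.dsum hx
  have hterm : ∀ w ∈ M.A, ‖G' x w‖ ^ 4 - ‖G x w‖ ^ 4 ≤
      2 * Lm ^ 2 / e * (M.eta w * (‖G' x w - G x w‖ * (‖G x w‖ + ‖G' x w‖))) := by
    intro w hw
    have e1 : ‖G' x w‖ - ‖G x w‖ ≤ ‖G' x w - G x w‖ := norm_sub_norm_le _ _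
    have e2 := h.hLm x w hx (hnU w hw)
    have e3 := h.hLm' x w hx (hnU w hw)
    have e4 : ‖G x w‖ ^ 2 ≤ Lm ^ 2 := pow_le_pow_left₀ (norm_nonneg _) e2 2
    have e5 : ‖G' x w‖ ^ 2 ≤ Lm ^ 2 := pow_le_pow_left₀ (norm_nonneg _) e3 2
    have e6 : 1 ≤ M.eta w / e := by
      rw [one_le_div he]
      exact h.heA w hw
    have e7 : ‖G' x w‖ ^ 4 - ‖G x w‖ ^ 4 =
        (‖G' x w‖ - ‖G x w‖) * ((‖G x w‖ + ‖G' x w‖) * (‖G x w‖ ^ 2 + ‖G' x w‖ ^ 2)) := by ring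
    rw [e7]
    calc (‖G' x w‖ - ‖G x w‖) * ((‖G x w‖ + ‖G' x w‖) * (‖G x w‖ ^ 2 + ‖G' x w‖ ^ 2))
        ≤ ‖G' x w - G x w‖ * ((‖G x w‖ + ‖G' x w‖) * (‖G x w‖ ^ 2 + ‖G' x w‖ ^ 2)) :=
          mul_le_mul_of_nonneg_right e1 (by positivity)
      _ ≤ ‖G' x w - G x w‖ * ((‖G x w‖ + ‖G' x w‖) * (2 * Lm ^ 2)) := by
          refine mul_le_mul_of_nonneg_left ?_ (norm_nonneg _)
          exact mul_le_mul_of_nonneg_left (by linarith) (by positivity)
      _ = (2 * Lm ^ 2 * (‖G' x w - G x w‖ * (‖G x w‖ + ‖G' x w‖))) * 1 := by ring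
      _ ≤ (2 * Lm ^ 2 * (‖G' x w - G x w‖ * (‖G x w‖ + ‖G' x w‖))) * (M.eta w / e) :=
          mul_le_mul_of_nonneg_left e6 (by positivity)
      _ = _ := by ring
  have hsum : ∑ w ∈ M.A, (‖G' x w‖ ^ 4 - ‖G x w‖ ^ 4) ≤
      2 * Lm ^ 2 / e * (4 * q * f.C1 * (Q * Real.exp (-(ν * r x)))) := by
    refine (Finset.sum_le_sum hterm).trans ?_
    rw [← Finset.mul_sum]
    refine mul_le_mul_of_nonneg_left ?_ (by positivity)
    refine le_trans ?_ hds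
    exact Finset.sum_le_sum_of_subset_of_nonneg (Finset.subset_univ M.A) fun y _ _ =>
      mul_nonneg (h.eta_nn y) (by positivity)
  rw [Finset.sum_sub_distrib] at hsum
  have e8 : 2 * Lm ^ 2 / e * (4 * q * f.C1 * (Q * Real.exp (-(ν * r x)))) =
      8 * q * f.C1 * Lm ^ 2 / e * (Q * Real.exp (-(ν * r x))) := by ring
  rw [e8] at hsum
  linarith

/-- (H3): the error of one row.  `a0`, `z` = weights of `M`, `a'` = new weights on `A` -/
theorem h3err (h : FarRow f M M' F μ a c r Q ν e Lm q) {x : Tor d L} (hx : x ∉ M.U)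
    {a0 a' z : Tor d L → ℝ} {B : ℝ} (hB : 0 ≤ B) (ha0 : ∀ y ∈ M.A, 0 ≤ a0 y)
    (ha : ∀ y ∈ M.A, a0 y ≤ B * M.eta y) (hz0 : ∀ y ∈ M.nr, 0 ≤ z y)
    (hz : ∀ y ∈ M.nr, z y ≤ B * M.eta y)
    (haa : ∀ y ∈ M.A, |a' y - a0 y| ≤ B * M'.eta y * (Q * Real.exp (-(ν * r y)))) :
    AND.h3err (fun y => rsc (H0T d L) M.b x y) (fun y => rsc (H0T d L) M'.b x y) M.A M.nr M'.nr
        a0 a' z ≤
      12 * q * B * f.C1 * Real.exp (2 * μ * c / a) * (Q * Real.exp (-(ν * r x))) := by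
  set G := rsc (H0T d L) M.b with hGd
  set G' := rsc (H0T d L) M'.b with hGd'
  have hnr : M'.nr = M.nr := by unfold Med.nr; rw [h.hU]
  have hq0 : 0 ≤ q := by linarith [h.hq]
  have hC0 : 0 ≤ f.C1 := by linarith [h.one]
  have hds := h.dsum hx
  set W := Q * Real.exp (-(ν * r x)) with hW
  have hW0 : 0 ≤ W := mul_nonneg h.hQ (Real.exp_pos _).le
  have hE1 : 1 ≤ Real.exp (2 * μ * c / a) := Real.one_le_exp (by have := h.hμ; positivity)
  have hsub : M.A ∩ M'.nr ⊆ M.A := Finset.inter_subset_left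
  -- first sum
  have s1 : ∑ y ∈ M.A ∩ M'.nr, ‖G' x y ^ 2 * (a' y : ℂ) - G x y ^ 2 * (a0 y : ℂ)‖ ≤
      B * (4 * f.C1 * Real.exp (2 * μ * c / a) * W) + B * (4 * q * f.C1 * W) := by
    have t1 : ∀ y ∈ M.A, ‖G' x y ^ 2 * (a' y : ℂ) - G x y ^ 2 * (a0 y : ℂ)‖ ≤
        B * Q * (M'.eta y * (Real.exp (-(ν * r y)) * ‖G' x y‖ ^ 2)) +
          B * (M.eta y * (‖G' x y - G x y‖ * (‖G x y‖ + ‖G' x y‖))) := by
      intro y hy
      have e1 : G' x y ^ 2 * (a' y : ℂ) - G x y ^ 2 * (a0 y : ℂ) =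
          G' x y ^ 2 * ((a' y - a0 y : ℝ) : ℂ) +
            (G' x y - G x y) * (G x y + G' x y) * (a0 y : ℂ) := by
        push_cast
        ring
      rw [e1]
      refine (norm_add_le _ _).trans (add_le_add ?_ ?_)
      · rw [norm_mul, norm_pow, Complex.norm_real, Real.norm_eq_abs]
        calc ‖G' x y‖ ^ 2 * |a' y - a0 y|
            ≤ ‖G' x y‖ ^ 2 * (B * M'.eta y * (Q * Real.exp (-(ν * r y)))) :=
              mul_le_mul_of_nonneg_left (haa y hy) (sq_nonneg _)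
          _ = _ := by ring
      · rw [norm_mul, norm_mul, Complex.norm_real, Real.norm_eq_abs, abs_of_nonneg (ha0 y hy)]
        calc ‖G' x y - G x y‖ * ‖G x y + G' x y‖ * a0 y
            ≤ ‖G' x y - G x y‖ * (‖G x y‖ + ‖G' x y‖) * (B * M.eta y) := by
              refine mul_le_mul ?_ (ha y hy) (ha0 y hy) (by positivity)
              exact mul_le_mul_of_nonneg_left (norm_add_le _ _) (norm_nonneg _)
          _ = _ := by ring
    have t2 : ∑ y ∈ M.A ∩ M'.nr, ‖G' x y ^ 2 * (a' y : ℂ) - G x y ^ 2 * (a0 y : ℂ)‖ ≤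
        ∑ y, (B * Q * (M'.eta y * (Real.exp (-(ν * r y)) * ‖G' x y‖ ^ 2)) +
          B * (M.eta y * (‖G' x y - G x y‖ * (‖G x y‖ + ‖G' x y‖)))) := by
      refine (Finset.sum_le_sum fun y hy => t1 y (hsub hy)).trans ?_
      refine Finset.sum_le_sum_of_subset_of_nonneg (Finset.subset_univ _) fun y _ _ => ?_
      have e1 := h.eta_nn y
      have e2 := h.eta_nn' y
      have e3 := h.hQ
      positivity
    refine t2.trans ?_
    rw [Finset.sum_add_distrib, ← Finset.mul_sum, ← Finset.mul_sum]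
    have t3 := ANM.far_sum (adm_diss h.hb') h.ha h.hμ h.hw' h.hν h.hνμ h.hL x
    have t4 : ∑ y, M'.eta y * (Real.exp (-(ν * r y)) * ‖G' x y‖ ^ 2) ≤
        4 * f.C1 * Real.exp (2 * μ * c / a) * Real.exp (-(ν * r x)) := by
      refine t3.trans ?_
      refine mul_le_mul_of_nonneg_right ?_ (Real.exp_pos _).le
      refine mul_le_mul_of_nonneg_right ?_ (Real.exp_pos _).le
      linarith [h.C1' x hx]
    refine add_le_add ?_ ?_
    · calc B * Q * ∑ y, M'.eta y * (Real.exp (-(ν * r y)) * ‖G' x y‖ ^ 2)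
          ≤ B * Q * (4 * f.C1 * Real.exp (2 * μ * c / a) * Real.exp (-(ν * r x))) :=
            mul_le_mul_of_nonneg_left t4 (mul_nonneg hB h.hQ)
        _ = _ := by rw [hW]; ring
    · exact mul_le_mul_of_nonneg_left hds hB
  -- second sum
  have s2 : ∑ y ∈ M'.nr, |‖G' x y‖ ^ 2 - ‖G x y‖ ^ 2| * z y ≤ B * (4 * q * f.C1 * W) := by
    rw [hnr]
    have t1 : ∀ y ∈ M.nr, |‖G' x y‖ ^ 2 - ‖G x y‖ ^ 2| * z y ≤
        B * (M.eta y * (‖G' x y - G x y‖ * (‖G x y‖ + ‖G' x y‖))) := by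
      intro y hy
      have e1 : |‖G' x y‖ ^ 2 - ‖G x y‖ ^ 2| ≤ ‖G' x y - G x y‖ * (‖G x y‖ + ‖G' x y‖) := by
        rw [show ‖G' x y‖ ^ 2 - ‖G x y‖ ^ 2 = (‖G' x y‖ - ‖G x y‖) * (‖G x y‖ + ‖G' x y‖) by ring,
          abs_mul, abs_of_nonneg (by positivity : 0 ≤ ‖G x y‖ + ‖G' x y‖)]
        exact mul_le_mul_of_nonneg_right (abs_norm_sub_norm_le _ _) (by positivity)
      calc |‖G' x y‖ ^ 2 - ‖G x y‖ ^ 2| * z y
          ≤ (‖G' x y - G x y‖ * (‖G x y‖ + ‖G' x y‖)) * (B * M.eta y) :=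
            mul_le_mul e1 (hz y hy) (hz0 y hy) (by positivity)
        _ = _ := by ring
    refine (Finset.sum_le_sum t1).trans ?_
    rw [← Finset.mul_sum]
    refine mul_le_mul_of_nonneg_left (le_trans ?_ hds) hB
    exact Finset.sum_le_sum_of_subset_of_nonneg (Finset.subset_univ M.nr) fun y _ _ =>
      mul_nonneg (h.eta_nn y) (by positivity)
  -- third sum
  have s3 : ∑ y ∈ M.nr \ M'.nr, ‖G x y‖ ^ 2 * (z y + if y ∈ M.A then a0 y else 0) = 0 := by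
    rw [hnr, Finset.sdiff_self, Finset.sum_empty]
  unfold AND.h3err
  rw [s3, add_zero]
  refine (add_le_add s1 s2).trans ?_
  have w1 : f.C1 * Real.exp (2 * μ * c / a) * W ≤ q * f.C1 * Real.exp (2 * μ * c / a) * W := by
    have : 0 ≤ f.C1 * Real.exp (2 * μ * c / a) * W := by positivity
    nlinarith [h.hq]
  have w2 : q * f.C1 * W ≤ q * f.C1 * Real.exp (2 * μ * c / a) * W := by
    have : 0 ≤ q * f.C1 * W := by positivity
    nlinarith
  have w3 := mul_le_mul_of_nonneg_left w1 hB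
  have w4 := mul_le_mul_of_nonneg_left w2 hB
  linarith

end FarRow

end Pool.Agent.AND
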