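import Pool.Agent.ANS.TopFar
import Pool.Agent.ANF.Glob.Main

/-! # ANS TOP KER: the inputs (I2) of helper60's `StepIn` (owner helper3)

`r x = dT x c - s0` (natural subtraction) for `N` in the ball of radius `s0` around `c`.
* `ball_r`, `ball_lip`: `r` is a 1-Lipschitz lower bound of the distance to `N`.
* `Far.kd`: `|kM M' x y - kM M x y| ≤ Q (rr² rr²)` with rate `ν / 4`.
* `kN_good`: `kM M x w ≤ 2 C1 e^{2μc/a} rr²` for `w ∈ N`.
-/

open Matrix Finset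

noncomputable section

namespace Pool.Agent.AND

open Pool.Agent.Kin Pool.Agent.APS

set_option linter.unusedSectionVars false

variable {d L : ℕ} [NeZero L] {f : Fix} {t : Tol d L} {M M' : Med (Tor d L)} {u : UTol}
  {N : Finset (Tor d L)} {c : Tor d L} {s0 : ℕ}

/-- `dT x c - s0` is a lower bound of the distance to a set in the ball of radius `s0` -/
theorem ball_r (hN : ∀ w ∈ N, ANP.dT w c ≤ s0) (x : Tor d L) :
    ∀ z ∈ N, ANP.dT x c - s0 ≤ ANM.td x z := by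
  intro z hz
  have h1 : ANP.dT x c ≤ ANM.td x z + ANP.dT z c := ANM.td_met.tri x z c
  have h2 := hN z hz
  omega

/-- `dT x c - s0` is 1-Lipschitz -/
theorem ball_lip (c : Tor d L) (s0 : ℕ) (x y : Tor d L) :
    ANP.dT x c - s0 ≤ (ANP.dT y c - s0) + ANM.td x y := by
  have h1 : ANP.dT x c ≤ ANM.td x y + ANP.dT y c := ANM.td_met.tri x y c
  omega

theorem rr_sq (ν : ℝ) (s0 : ℕ) (c x : Tor d L) :
    ANF.Glob.rr (ν / 4) s0 c x ^ 2 = Real.exp (-(ν / 2 * ((ANP.dT x c - s0 : ℕ) : ℝ))) := by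
  unfold ANF.Glob.rr
  rw [← Real.exp_nat_mul]
  congr 1
  push_cast
  ring

/-- (I2), change of the kernel -/
theorem Far.kd {Q ν : ℝ} (h : Far M M' (fun x => ANP.dT x c - s0) Q ν) (hν : 0 ≤ ν)
    (hQ : 0 ≤ Q) : ∀ x ∈ M.nr, ∀ y ∈ M.nr,
    |ANF.Glob.kM M' x y - ANF.Glob.kM M x y| ≤
      Q * (ANF.Glob.rr (ν / 4) s0 c x ^ 2 * ANF.Glob.rr (ν / 4) s0 c y ^ 2) := by
  intro x hx y hy
  have h1 := h.ker x y (mem_nr.1 hx) (mem_nr.1 hy)
  refine h1.trans (mul_le_mul_of_nonneg_left ?_ hQ)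
  rw [rr_sq, rr_sq, ← Real.exp_add]
  apply Real.exp_le_exp.2
  have h2 : ((ANP.dT x c - s0 : ℕ) : ℝ) ≤
      ((max (ANP.dT x c - s0) (ANP.dT y c - s0) : ℕ) : ℝ) := by
    exact_mod_cast le_max_left _ _
  have h3 : ((ANP.dT y c - s0 : ℕ) : ℝ) ≤
      ((max (ANP.dT x c - s0) (ANP.dT y c - s0) : ℕ) : ℝ) := by
    exact_mod_cast le_max_right _ _
  have h4 := mul_le_mul_of_nonneg_left h2 hν
  have h5 := mul_le_mul_of_nonneg_left h3 hν
  linarith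

/-- (I2), the kernel between the read sites and the far sites -/
theorem kN_good (h : Good f t M) (hI : t.In f M u) (hN : Num f t u) {F : Set (Tor d L)} {μ : ℝ}
    {a c0 : ℕ} (ha : 1 ≤ a) (hμ : 0 ≤ μ) (hw : ANM.HasW M.b F μ a c0)
    (hNB : ∀ w ∈ N, ANP.dT w c ≤ s0) {ν : ℝ} (hν : 0 ≤ ν) (hνμ : ν ≤ 2 * μ / a) :
    ∀ x ∈ M.nr, ∀ w ∈ N, ANF.Glob.kM M x w ≤
      2 * f.C1 * Real.exp (2 * μ * c0 / a) * ANF.Glob.rr (ν / 4) s0 c x ^ 2 := by
  intro x hx w hw'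
  have hxU := mem_nr.1 hx
  have h1 := dec_good h hI hN ha hμ hw hxU w
  have h2 : M.eta x ≤ 1 := h.eS1 x hxU
  have h3 := h.eta_nonneg hI hN x
  have h4 : 0 ≤ M.eta w := h.eta_nonneg hI hN w
  have hC := h.C1_pos hI hN
  unfold ANF.Glob.kM
  have h5 : M.eta x * ‖rsc (H0T d L) M.b x w‖ ^ 2 * M.eta w ≤
      M.eta w * ‖rsc (H0T d L) M.b x w‖ ^ 2 := by
    have h6 : 0 ≤ M.eta w * ‖rsc (H0T d L) M.b x w‖ ^ 2 := mul_nonneg h4 (sq_nonneg _)
    calc M.eta x * ‖rsc (H0T d L) M.b x w‖ ^ 2 * M.eta w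
        = M.eta x * (M.eta w * ‖rsc (H0T d L) M.b x w‖ ^ 2) := by ring
      _ ≤ 1 * (M.eta w * ‖rsc (H0T d L) M.b x w‖ ^ 2) := mul_le_mul_of_nonneg_right h2 h6
      _ = _ := one_mul _
  refine h5.trans (h1.trans ?_)
  rw [rr_sq, mul_assoc (2 * f.C1)]
  refine mul_le_mul_of_nonneg_left ?_ (by linarith)
  refine mul_le_mul_of_nonneg_left ?_ (Real.exp_pos _).le
  apply Real.exp_le_exp.2
  have h7 : ((ANP.dT x c - s0 : ℕ) : ℝ) ≤ (ANM.td x w : ℝ) := by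
    exact_mod_cast ball_r hNB x w hw'
  have h8 : (0 : ℝ) ≤ (ANM.td x w : ℝ) := Nat.cast_nonneg _
  have h9 : ν / 2 * ((ANP.dT x c - s0 : ℕ) : ℝ) ≤ ν * (ANM.td x w : ℝ) := by
    have := mul_le_mul_of_nonneg_left h7 hν
    nlinarith [mul_nonneg hν h8]
  have h10 := mul_le_mul_of_nonneg_right hνμ h8
  have h11 : 2 * μ / a * (ANM.td x w : ℝ) = 2 * μ * ANM.td x w / a := by ring
  linarith

end Pool.Agent.AND
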