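import Pool.Agent.ANS.Pw
import Pool.Agent.ANS.JPow
import Pool.Agent.ANS.T4.Comp

/-! # ANS TOP NUM: the error terms of the components as powers of `κ` (AND project)

For every component the bound `B` of `CompAt` is a power of `κ` with exponent growing linearly in the
moment `p`; it beats `κ^(-CM)` (number of noise sites) and every power `κ^Kp`. -/

set_option autoImplicit false

noncomputable section

namespace Pool.Agent.ANS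

open Pw

theorem Pw.div_pow2 {F : ℝ → ℝ} {a : ℝ} (h : Pw F a) (b : ℝ) :
    Pw (fun k => F k / (k ^ b) ^ 2) (a - 2 * b) := by
  refine h.div (c := 1) one_pos (k1 := 1) one_pos fun k hk _ => ?_
  rw [one_mul, ← Real.rpow_natCast, ← Real.rpow_mul hk.le]
  refine le_of_eq ?_
  congr 1
  push_cast
  ring

theorem Pw.eqx {F : ℝ → ℝ} {a b : ℝ} (h : Pw F a) (e : a = b) : Pw F b := e ▸ h

/-- gain of the moments: exponent `m g - c ≥ Kp` -/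
theorem exists_m {g : ℝ} (hg : 0 < g) (c : ℝ) : ∃ m0 : ℕ, ∀ m : ℕ, m0 ≤ m → c ≤ m * g := by
  obtain ⟨m0, h⟩ := exists_nat_gt (c / g)
  refine ⟨m0, fun m hm => ?_⟩
  rw [div_lt_iff₀ hg] at h
  have h1 : (m0 : ℝ) ≤ m := by exact_mod_cast hm
  nlinarith

/-- sizes: `b0 = cb √κ`, `τ = ct κ^(1/8)`, `Mc = κ^(-CM)`, `Lm = κ^(-eL)` -/
def nb0 (cb k : ℝ) : ℝ := cb * k ^ (1 / 2 : ℝ)
def ntau (ct k : ℝ) : ℝ := ct * k ^ (1 / 8 : ℝ)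

theorem pw_nb0 (cb : ℝ) : Pw (nb0 cb) (1 / 2) := (Pw.rpow _).cmul cb
theorem pw_ntau (ct : ℝ) : Pw (ntau ct) (1 / 8) := (Pw.rpow _).cmul ct

/-- DIAGONAL, first term -/
theorem pwD1 (C cb aD CM : ℝ) (n : ℕ) :
    Pw (fun k => (2 * (16 * C ^ 2)) ^ n * (250 * C ^ 3 * nb0 cb k / k ^ aD) ^ n *
      k ^ (-CM)) (n * (1 / 2 - aD) - CM) := by
  have h1 : Pw (fun k => 250 * C ^ 3 * nb0 cb k / k ^ aD) (1 / 2 - aD) :=
    ((pw_nb0 cb).cmul (250 * C ^ 3)).div_rpow aD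
  have h2 := ((h1.pow n).cmul ((2 * (16 * C ^ 2)) ^ n)).mul (Pw.rpow (-CM))
  exact h2.eqx (by ring)

/-- QUADRATIC VARIATION terms: `(c τ / a²)^m (c' (2 Lm)^2 Mc / a²)` -/
theorem pwQ (c c' ct aD eL CM : ℝ) (m : ℕ) :
    Pw (fun k => (c * ntau ct k / (k ^ aD) ^ 2) ^ m *
      (c' * (2 * k ^ (-eL)) ^ 2 * k ^ (-CM) / (k ^ aD) ^ 2))
      (m * (1 / 8 - 2 * aD) - 2 * eL - CM - 2 * aD) := by
  have h1 : Pw (fun k => c * ntau ct k / (k ^ aD) ^ 2) (1 / 8 - 2 * aD) :=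
    ((pw_ntau ct).cmul c).div_pow2 aD
  have h2 : Pw (fun k => c' * (2 * k ^ (-eL)) ^ 2 * k ^ (-CM) / (k ^ aD) ^ 2)
      (((2 : ℕ) * (-eL) + (-CM)) - 2 * aD) :=
    (((((Pw.rpow (-eL)).cmul 2).pow 2).cmul c').mul (Pw.rpow (-CM))).div_pow2 aD
  exact ((h1.pow m).mul h2).eqx (by push_cast; ring)

/-- the same without `Lm` -/
theorem pwQ' (c c' ct aD CM : ℝ) (m : ℕ) :
    Pw (fun k => (c * ntau ct k / (k ^ aD) ^ 2) ^ m *
      (c' * k ^ (-CM) / (k ^ aD) ^ 2))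
      (m * (1 / 8 - 2 * aD) - CM - 2 * aD) := by
  have h1 : Pw (fun k => c * ntau ct k / (k ^ aD) ^ 2) (1 / 8 - 2 * aD) :=
    ((pw_ntau ct).cmul c).div_pow2 aD
  have h2 : Pw (fun k => c' * k ^ (-CM) / (k ^ aD) ^ 2) ((-CM) - 2 * aD) :=
    ((Pw.rpow (-CM)).cmul c').div_pow2 aD
  exact ((h1.pow m).mul h2).eqx (by ring)

/-- OFF DIAGONAL, drift: `((gm + c b0) c' / a)^n ((gm + c b0) c' Mc / a)^2` -/
theorem pwO1 (c c' cb eg aO CM : ℝ) (heg : eg ≤ 1 / 2) (n : ℕ) :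
    Pw (fun k => ((k ^ eg + c * nb0 cb k) * c' / k ^ aO) ^ n *
      ((k ^ eg + c * nb0 cb k) * c' * k ^ (-CM) / k ^ aO) ^ 2)
      (n * (eg - aO) + 2 * (eg - aO) - 2 * CM) := by
  have h0 : Pw (fun k => k ^ eg + c * nb0 cb k) eg :=
    (Pw.rpow eg).add (((pw_nb0 cb).cmul c).mono heg)
  have h1 : Pw (fun k => (k ^ eg + c * nb0 cb k) * c' / k ^ aO) (eg - aO) :=
    (h0.mulc c').div_rpow aO
  have h2 : Pw (fun k => (k ^ eg + c * nb0 cb k) * c' * k ^ (-CM) / k ^ aO) ((eg + (-CM)) - aO) :=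
    ((h0.mulc c').mul (Pw.rpow (-CM))).div_rpow aO
  exact ((h1.pow n).mul (h2.pow 2)).eqx (by push_cast; ring)

/-- (H3), first term: `(c (eps + c' b0) / t)^n Mc` -/
theorem pwH1 (c c' cb ee aH CM : ℝ) (hee : ee ≤ 1 / 2) (n : ℕ) :
    Pw (fun k => (c * (k ^ ee + c' * nb0 cb k) / k ^ aH) ^ n * k ^ (-CM))
      (n * (ee - aH) - CM) := by
  have h0 : Pw (fun k => k ^ ee + c' * nb0 cb k) ee :=
    (Pw.rpow ee).add (((pw_nb0 cb).cmul c').mono hee)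
  have h1 : Pw (fun k => c * (k ^ ee + c' * nb0 cb k) / k ^ aH) (ee - aH) :=
    (h0.cmul c).div_rpow aH
  exact ((h1.pow n).mul (Pw.rpow (-CM))).eqx (by ring)

/-- (H3), second term: `(c (gm + c' b0)^2 c'' / t²)^n Mc` -/
theorem pwH2 (c c' c'' cb eg aH CM : ℝ) (heg : eg ≤ 1 / 2) (n : ℕ) :
    Pw (fun k => (c * (k ^ eg + c' * nb0 cb k) ^ 2 * c'' / (k ^ aH) ^ 2) ^ n * k ^ (-CM))
      (n * (2 * eg - 2 * aH) - CM) := by
  have h0 : Pw (fun k => k ^ eg + c' * nb0 cb k) eg :=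
    (Pw.rpow eg).add (((pw_nb0 cb).cmul c').mono heg)
  have h1 : Pw (fun k => c * (k ^ eg + c' * nb0 cb k) ^ 2 * c'' / (k ^ aH) ^ 2)
      ((2 : ℕ) * eg - 2 * aH) := (((h0.pow 2).cmul c).mulc c'').div_pow2 aH
  exact ((h1.pow n).mul (Pw.rpow (-CM))).eqx (by push_cast; ring)

/-- (H3), third term: `(c t2 / (eps t))^n (c' (2 Lm)^2 Mc / (eps t))`, `t2 = c2 κ^(1/16)` -/
theorem pwH3 (c c' c2 ee aH eL CM : ℝ) (n : ℕ) :
    Pw (fun k => (c * (c2 * k ^ (1 / 16 : ℝ)) / (k ^ ee * k ^ aH)) ^ n *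
      (c' * (2 * k ^ (-eL)) ^ 2 * k ^ (-CM) / (k ^ ee * k ^ aH)))
      (n * (1 / 16 - ee - aH) - 2 * eL - CM - ee - aH) := by
  have hd : ∀ k : ℝ, 0 < k → k ≤ 1 → 1 * k ^ (ee + aH) ≤ k ^ ee * k ^ aH := fun k hk _ => by
    rw [one_mul, Real.rpow_add hk]
  have h1 : Pw (fun k => c * (c2 * k ^ (1 / 16 : ℝ)) / (k ^ ee * k ^ aH))
      (1 / 16 - (ee + aH)) := (((Pw.rpow (1 / 16)).cmul c2).cmul c).div one_pos one_pos hd
  have h2 : Pw (fun k => c' * (2 * k ^ (-eL)) ^ 2 * k ^ (-CM) / (k ^ ee * k ^ aH))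
      (((2 : ℕ) * (-eL) + (-CM)) - (ee + aH)) :=
    (((((Pw.rpow (-eL)).cmul 2).pow 2).cmul c').mul (Pw.rpow (-CM))).div one_pos one_pos hd
  exact ((h1.pow n).mul h2).eqx (by push_cast; ring)

/-- (H3), fourth term: `(c t2 / t²)^n (c' (2 Lm)^2 Mc / t²)` -/
theorem pwH4 (c c' c2 aH eL CM : ℝ) (n : ℕ) :
    Pw (fun k => (c * (c2 * k ^ (1 / 16 : ℝ)) / (k ^ aH) ^ 2) ^ n *
      (c' * (2 * k ^ (-eL)) ^ 2 * k ^ (-CM) / (k ^ aH) ^ 2))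
      (n * (1 / 16 - 2 * aH) - 2 * eL - CM - 2 * aH) := by
  have h1 : Pw (fun k => c * (c2 * k ^ (1 / 16 : ℝ)) / (k ^ aH) ^ 2) (1 / 16 - 2 * aH) :=
    (((Pw.rpow (1 / 16)).cmul c2).cmul c).div_pow2 aH
  have h2 : Pw (fun k => c' * (2 * k ^ (-eL)) ^ 2 * k ^ (-CM) / (k ^ aH) ^ 2)
      (((2 : ℕ) * (-eL) + (-CM)) - 2 * aH) :=
    (((((Pw.rpow (-eL)).cmul 2).pow 2).cmul c').mul (Pw.rpow (-CM))).div_pow2 aH
  exact ((h1.pow n).mul h2).eqx (by push_cast; ring)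

/-- T4: `c (2 Lm)^2 Mc (de^q / (kk t)²)`, `de = κ^ed`, `kk t = κ^et` -/
theorem pwT (c ed et eL CM : ℝ) (q : ℕ) :
    Pw (fun k => c * (2 * k ^ (-eL)) ^ 2 * k ^ (-CM) * ((k ^ ed) ^ q / (k ^ et) ^ 2))
      (q * ed - 2 * eL - CM - 2 * et) := by
  have h1 : Pw (fun k => (k ^ ed) ^ q / (k ^ et) ^ 2) ((q : ℝ) * ed - 2 * et) :=
    ((Pw.rpow ed).pow q).div_pow2 et
  have h2 : Pw (fun k => c * (2 * k ^ (-eL)) ^ 2 * k ^ (-CM)) ((2 : ℕ) * (-eL) + (-CM)) :=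
    ((((Pw.rpow (-eL)).cmul 2).pow 2).cmul c).mul (Pw.rpow (-CM))
  exact (h2.mul h1).eqx (by push_cast; ring)

/-- FORM: `k^(-CB) (2 om^n)`, `om = c (nf + a + bm) / dlf` -/
theorem pwF (c cn cb en ea ef CB : ℝ) (hn : ea ≤ 1 / 2) (hea : en ≤ ea) (n : ℕ) :
    Pw (fun k => k ^ (-CB) * (2 * (c * (cn * k ^ en + k ^ ea + nb0 cb k) / k ^ ef) ^ n))
      (n * (en - ef) - CB) := by
  have h0 : Pw (fun k => cn * k ^ en + k ^ ea + nb0 cb k) en :=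
    (((Pw.rpow en).cmul cn).add ((Pw.rpow ea).mono hea)).add ((pw_nb0 cb).mono (hea.trans hn))
  have h1 : Pw (fun k => c * (cn * k ^ en + k ^ ea + nb0 cb k) / k ^ ef) (en - ef) :=
    (h0.cmul c).div_rpow ef
  exact ((Pw.rpow (-CB)).mul ((h1.pow n).cmul 2)).eqx (by ring)

end Pool.Agent.ANS
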