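import Pool.Agent.ANS.TopDefs
import Pool.Agent.AND.RfTor
import Pool.Agent.AND.UseSup

/-! # ANS TopRf: the re-freezing after one step

`Good f t M`, `Frz ... ω` => the self-consistent medium `M'` after the reading exists (`Nxt`), and it is compared with
the frozen one by `Two (H0T d L) (M.bf g ω) M'.b M.nr (8 l C1' al / c1²)` (AND/TwoT.lean), with weighted versions
`RT.wt`, `RT.l1` (AND/RfTor.lean).

* `h3_frz` : the use of (H3) for an arbitrary positive weight `m` and an error term.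
* `StepRf` : hypotheses; `StepRf.rt : RT ...`; `StepRf.M'`; `StepRf.nxt : Nxt`; `StepRf.two`. -/

open Matrix Finset

noncomputable section

namespace Pool.Agent.AND

open Pool.Agent.Kin Pool.Agent.APS Pool.Agent.ANL Pool.Agent.ANM Pool.Agent.GSC

set_option linter.unusedSectionVars false

section abs

variable {ι : Type} [Fintype ι] [DecidableEq ι] {H : Matrix ι ι ℂ} {b : ι → ℂ}

/-- the use of (H3): weights `m` instead of `Im G_yy`, additive error `e` -/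
theorem h3_frz (h : ANL.Adm H b) (A U : Finset ι) (hAU : Disjoint A U) (k a z m : ι → ℝ)
    (φ ρ e : ℝ) (hφ : 0 < φ) (ha0 : ∀ y, 0 ≤ a y) (hk0 : ∀ y, y ∉ A → k y = 0)
    (h1 : ∀ y, y ∉ U → φ * a y ≤ k y * m y)
    (h2 : ∀ y, y ∉ U → 2 * (k y * m y) - φ * a y + φ * z y ≤ (2 - ρ) * -(b y).im)
    (hρ : ρ ≤ 2) (x : ι)
    (h3 : ‖∑ y ∈ A, rsc H b x y ^ 2 * (a y : ℂ)‖ ≤ ∑ y ∈ Uᶜ, ‖rsc H b x y‖ ^ 2 * z y + e) :
    ∑ y ∈ Uᶜ, k y * m y * (rsc H b x y).re ^ 2 ≤ (1 - ρ / 2) * (rsc H b x x).im + φ * e / 2 := by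
  classical
  have hS : ∀ y, 0 ≤ ‖rsc H b x y‖ ^ 2 := fun y => sq_nonneg _
  have hre : ∀ y, (rsc H b x y).re ^ 2 ≤ ‖rsc H b x y‖ ^ 2 := by
    intro y
    have e1 := Complex.abs_re_le_norm (rsc H b x y)
    have e2 := abs_nonneg (rsc H b x y).re
    nlinarith [sq_abs (rsc H b x y).re]
  have hAU' : ∀ y ∈ A, y ∉ U := fun y hy hu => Finset.disjoint_left.1 hAU hy hu
  have hsub : A ⊆ Uᶜ := fun y hy => by
    rw [Finset.mem_compl]; exact hAU' y hy
  have s1 : ∑ y ∈ Uᶜ, k y * m y * (rsc H b x y).re ^ 2 =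
      ∑ y ∈ A, k y * m y * (rsc H b x y).re ^ 2 := by
    symm
    refine Finset.sum_subset hsub fun y _ hy => ?_
    rw [hk0 y hy]; ring
  have s2 : ∑ y ∈ A, k y * m y * (rsc H b x y).re ^ 2 =
      φ * ∑ y ∈ A, a y * (rsc H b x y).re ^ 2 +
        ∑ y ∈ A, (k y * m y - φ * a y) * (rsc H b x y).re ^ 2 := by
    rw [Finset.mul_sum, ← Finset.sum_add_distrib]
    exact Finset.sum_congr rfl fun y _ => by ring
  have s3 : ∑ y ∈ A, (k y * m y - φ * a y) * (rsc H b x y).re ^ 2 ≤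
      ∑ y ∈ A, (k y * m y - φ * a y) * ‖rsc H b x y‖ ^ 2 := by
    refine Finset.sum_le_sum fun y hy => mul_le_mul_of_nonneg_left (hre y) ?_
    linarith [h1 y (hAU' y hy)]
  have s4 : ∑ y ∈ A, a y * (rsc H b x y).re ^ 2 =
      ((∑ y ∈ A, rsc H b x y ^ 2 * (a y : ℂ)).re + ∑ y ∈ A, ‖rsc H b x y‖ ^ 2 * a y) / 2 := by
    rw [Complex.re_sum, ← Finset.sum_add_distrib, Finset.sum_div]
    refine Finset.sum_congr rfl fun y _ => ?_
    rw [re_sq_eq, Complex.re_mul_ofReal]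
    ring
  have s5 : ∑ y ∈ A, a y * (rsc H b x y).re ^ 2 ≤
      (∑ y ∈ Uᶜ, ‖rsc H b x y‖ ^ 2 * z y + e + ∑ y ∈ A, ‖rsc H b x y‖ ^ 2 * a y) / 2 := by
    rw [s4]
    have := Complex.re_le_norm (∑ y ∈ A, rsc H b x y ^ 2 * (a y : ℂ))
    linarith
  have ha : ∀ y, y ∉ U → y ∉ A → a y = 0 := by
    intro y hyU hyA
    have e1 := h1 y hyU
    rw [hk0 y hyA] at e1
    have e2 := ha0 y
    have e3 : φ * a y ≤ 0 := by linarith
    nlinarith
  have s6 : ∑ y ∈ Uᶜ, ‖rsc H b x y‖ ^ 2 *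
      (2 * (k y * m y) - φ * a y + φ * z y) =
      φ * ∑ y ∈ Uᶜ, ‖rsc H b x y‖ ^ 2 * z y +
        ∑ y ∈ A, ‖rsc H b x y‖ ^ 2 * (2 * (k y * m y) - φ * a y) := by
    have e1 : ∑ y ∈ A, ‖rsc H b x y‖ ^ 2 * (2 * (k y * m y) - φ * a y) =
        ∑ y ∈ Uᶜ, ‖rsc H b x y‖ ^ 2 * (2 * (k y * m y) - φ * a y) := by
      refine Finset.sum_subset hsub fun y hy hyA => ?_
      rw [Finset.mem_compl] at hy
      rw [hk0 y hyA, ha y hy hyA]; ring
    rw [e1, Finset.mul_sum, ← Finset.sum_add_distrib]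
    exact Finset.sum_congr rfl fun y _ => by ring
  have s7 : ∑ y ∈ Uᶜ, ‖rsc H b x y‖ ^ 2 *
      (2 * (k y * m y) - φ * a y + φ * z y) ≤ (2 - ρ) * (rsc H b x x).im := by
    have e1 := ANL.ward_le h Uᶜ x
    calc ∑ y ∈ Uᶜ, ‖rsc H b x y‖ ^ 2 * (2 * (k y * m y) - φ * a y + φ * z y)
        ≤ ∑ y ∈ Uᶜ, (2 - ρ) * (-(b y).im * ‖rsc H b x y‖ ^ 2) := by
          refine Finset.sum_le_sum fun y hy => ?_
          rw [Finset.mem_compl] at hy
          have := mul_le_mul_of_nonneg_left (h2 y hy) (hS y)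
          refine this.trans (le_of_eq (by ring))
      _ = (2 - ρ) * ∑ y ∈ Uᶜ, (-(b y).im * ‖rsc H b x y‖ ^ 2) := by rw [Finset.mul_sum]
      _ ≤ (2 - ρ) * (rsc H b x x).im := mul_le_mul_of_nonneg_left e1 (by linarith)
  have s8 : ∑ y ∈ A, ‖rsc H b x y‖ ^ 2 * (2 * (k y * m y) - φ * a y) =
      2 * ∑ y ∈ A, (k y * m y - φ * a y) * ‖rsc H b x y‖ ^ 2 +
        φ * ∑ y ∈ A, ‖rsc H b x y‖ ^ 2 * a y := by
    rw [Finset.mul_sum, Finset.mul_sum, ← Finset.sum_add_distrib]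
    exact Finset.sum_congr rfl fun y _ => by ring
  have s9 := mul_le_mul_of_nonneg_left s5 hφ.le
  rw [s1, s2]
  rw [s6, s8] at s7
  linarith

end abs

variable {d L : ℕ} [NeZero L] {D : Type} [Fintype D]

/-- HYPOTHESES of the re-freezing after one step at the outcome `ω` -/
structure StepRf (f : Fix) (t : Tol d L) (M : Med (Tor d L)) (u : UTol)
    (g : ANS.Dig (Tor d L) D) (ω : Tor d L → D) (a' z' : ℕ → Tor d L → ℝ) (e3 : ℕ → ℝ) (al : ℝ)
    (φ : Tor d L → Tor d L → ℝ) (ρ C1 C2 K Mv cc : ℝ) (l : ℕ) : Prop where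
  good : Good f t M
  inn : t.In f M u
  num : Num f t u
  mbb : IsUnit (ANI.MBB (H0T d L) M.b M.nr).det
  /-- only active sites are read -/
  off : ∀ x, x ∉ M.A → g.xi x (ω x) = 0 ∧ g.zt x (ω x) = 0
  kf0 : ∀ x, 0 ≤ M.kf g ω x
  kf1 : ∀ x, M.kf g ω x ≤ 1
  al0 : 0 ≤ al
  /-- from `Frz` -/
  ent : ∀ x y, x ∉ M.U → y ∉ M.U → ‖M.Gf g ω x y - M.G x y‖ ≤ al
  ρ0 : 0 < ρ
  ρ2 : ρ ≤ 2
  h3 : ∃ Kk, ∃ ψ : ℝ, 0 < ψ ∧ (∀ y, 0 ≤ a' Kk y) ∧
    (∀ x, x ∉ M.U → ‖∑ y ∈ M.A, M.Gf g ω x y ^ 2 * (a' Kk y : ℂ)‖ ≤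
      ∑ y ∈ M.nr, ‖M.Gf g ω x y‖ ^ 2 * z' Kk y + e3 Kk) ∧
    (∀ y, y ∉ M.U → ψ * a' Kk y ≤ M.kf g ω y * (M.G y y).im) ∧
    (∀ y, y ∉ M.U → 2 * (M.kf g ω y * (M.G y y).im) - ψ * a' Kk y + ψ * z' Kk y ≤
      (2 - ρ) * -(M.bf g ω y).im) ∧
    al + ψ * e3 Kk / 2 ≤ ρ / 4 * f.c1
  hC1 : f.C1 + al ≤ C1
  hC2 : (u.Lam + al) ^ 2 ≤ C2
  wf : WFam (H0T d L) (M.bf g ω) M.nr φ Mv cc d
  al1 : 16 * l * al ≤ f.c1
  al2 : 16 * al ≤ (ρ / 4) ^ 2 * f.c1
  sbn : SBN d (ρ / 4) f.c1 C1 C1 C2 K Mv cc l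
  sm : 768 * (l : ℝ) ^ 2 * C1 ^ 3 * al ≤ f.c1 ^ 4

/-- the part of `b` which is not a self energy: `c = b_f + k_f G` -/
def Med.cf (M : Med (Tor d L)) (g : ANS.Dig (Tor d L) D) (ω : Tor d L → D) (x : Tor d L) : ℂ :=
  M.bf g ω x + (M.kf g ω x : ℂ) * M.G x x

/-- the medium after the step -/
def Med.next (M : Med (Tor d L)) (g : ANS.Dig (Tor d L) D) (ω : Tor d L → D) : Med (Tor d L) where
  A := M.A
  U := M.U
  I := M.I
  k := M.kf g ω
  b := rfb (H0T d L) M.nr (M.kf g ω) (M.cf g ω) (fun x => M.G x x)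

theorem bv_cf (M : Med (Tor d L)) (g : ANS.Dig (Tor d L) D) (ω : Tor d L → D) :
    bv (M.kf g ω) (M.cf g ω) (fun x => M.G x x) = M.bf g ω := by
  funext x
  unfold bv Med.cf
  ring

namespace StepRf

variable {f : Fix} {t : Tol d L} {M : Med (Tor d L)} {u : UTol} {g : ANS.Dig (Tor d L) D}
  {ω : Tor d L → D} {a' z' : ℕ → Tor d L → ℝ} {e3 : ℕ → ℝ} {al : ℝ} {φ : Tor d L → Tor d L → ℝ}
  {ρ C1 C2 K Mv cc : ℝ} {l : ℕ}

variable (h : StepRf f t M u g ω a' z' e3 al φ ρ C1 C2 K Mv cc l)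
include h

theorem io_ge {x : Tor d L} (hx : x ∉ M.U) : f.c1 ≤ (M.G x x).im := h.good.io_ge h.inn h.num hx

theorem io_le {x : Tor d L} (hx : x ∉ M.U) : (M.G x x).im ≤ f.C1 := h.good.io_le h.inn h.num hx

theorem im_bf (x : Tor d L) :
    -(M.bf g ω x).im = M.eta x - g.zt x (ω x) * (M.G x x).im := by
  unfold Med.bf Med.eta
  simp only [Complex.add_im, Complex.ofReal_im, Complex.im_ofReal_mul]
  ring

theorem bf_off {x : Tor d L} (hx : x ∉ M.A) : M.bf g ω x = M.b x := by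
  unfold Med.bf
  rw [(h.off x hx).1, (h.off x hx).2]
  simp

theorem kf_off {x : Tor d L} (hx : x ∉ M.A) : M.kf g ω x = 0 := by
  unfold Med.kf
  rw [h.good.k0 x hx, (h.off x hx).2]
  ring

/-- absorption after the reading -/
theorem eta_f {x : Tor d L} (hx : x ∉ M.U) :
    t.eta + M.kf g ω x * (M.G x x).im ≤ -(M.bf g ω x).im := by
  rw [h.im_bf]
  by_cases hA : x ∈ M.A
  · have h1 := h.good.eA x hA
    have h2 : (rsc (H0T d L) M.b x x).im = (M.G x x).im := rfl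
    rw [h1, h2]
    unfold Med.kf
    apply le_of_eq
    ring
  · rw [h.kf_off hA, (h.off x hA).2, zero_mul, add_zero, sub_zero]
    exact h.good.eta_ge h.inn h.num hx

theorem neg {x : Tor d L} (hx : x ∈ M.nr) : (M.bf g ω x).im < 0 := by
  have h1 := h.eta_f (mem_nr.1 hx)
  have h2 := h.num.eta
  have h3 := mul_nonneg (h.kf0 x) (h.num.c1.le.trans (h.io_ge (mem_nr.1 hx)))
  linarith

theorem eq_off {x : Tor d L} (hx : x ∉ M.nr) : M.bf g ω x = M.b x :=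
  h.bf_off fun hA => hx (h.good.A_sub_nr hA)

theorem zero {x : Tor d L} (hx : x ∉ M.nr) : (M.bf g ω x).im = 0 := by
  rw [h.eq_off hx]
  exact h.good.im_zero' hx

theorem mbbf : IsUnit (ANI.MBB (H0T d L) (M.bf g ω) M.nr).det := by
  rw [MBB_congr (fun x hx => h.eq_off hx)]
  exact h.mbb

theorem admf : ANL.Adm (H0T d L) (M.bf g ω) := by
  refine ANI.adm_of_eff (X := M.nr) H0T_realSym (fun x => ?_) h.mbbf ?_
  · by_cases hx : x ∈ M.nr
    · exact (h.neg hx).le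
    · exact (h.zero hx).le
  · exact rsc_unit (ANI.realSym_eff H0T_realSym fun x hx => h.zero hx) fun x => h.neg x.2

theorem gf_diag {x : Tor d L} (hx : x ∉ M.U) : (M.Gf g ω x x).im ≤ (M.G x x).im + al := by
  have h1 := h.ent x x hx hx
  have h2 := (Complex.abs_im_le_norm _).trans h1
  rw [Complex.sub_im] at h2
  linarith [(abs_le.1 h2).2]

/-- `TB` for the frozen medium -/
theorem tb : TB (H0T d L) (M.bf g ω) M.nr (M.kf g ω) (fun x => (M.G x x).im) φ (al / f.c1) (ρ / 4)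
    f.c1 C1 C1 C2 K Mv cc d l where
  adm := h.admf
  neg := fun x hx => h.neg hx
  zero := fun x hx => h.zero hx
  mbb := h.mbbf
  k0 := h.kf0
  k1 := h.kf1
  mlo := fun x hx => h.io_ge (mem_nr.1 hx)
  mup := fun x hx => (h.io_le (mem_nr.1 hx)).trans (by linarith [h.hC1, h.al0])
  abs := fun x hx => by
    have h1 := h.eta_f (mem_nr.1 hx)
    have h2 := h.num.eta
    linarith
  imd := by
    intro x hx
    have h1 := h.gf_diag (mem_nr.1 hx)
    have h2 := h.io_ge (mem_nr.1 hx)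
    have hc := h.num.c1
    have h3 : al ≤ al / f.c1 * (M.G x x).im := by
      rw [div_mul_eq_mul_div, le_div_iff₀ hc]
      exact mul_le_mul_of_nonneg_left h2 h.al0
    have h4 : (rsc (H0T d L) (M.bf g ω) x x).im = (M.Gf g ω x x).im := rfl
    rw [h4]
    linarith
  dia := by
    intro x hx
    have h1 := h.ent x x (mem_nr.1 hx) (mem_nr.1 hx)
    have h2 := h.good.gam_le h.inn h.num (mem_nr.1 hx)
    have h3 := norm_add_le (M.G x x) (M.Gf g ω x x - M.G x x)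
    rw [add_sub_cancel] at h3
    have h4 : ‖M.G x x‖ ≤ f.C1 := h2
    have h5 := h.hC1
    change ‖M.Gf g ω x x‖ ≤ C1
    linarith
  ent := by
    intro x hx y hy
    have h1 := h.ent x y (mem_nr.1 hx) (mem_nr.1 hy)
    have h2 : ‖M.G x y‖ ≤ u.Lam := h.good.ent_Lam h.inn (mem_nr.1 hx) (mem_nr.1 hy)
    have h3 := norm_add_le (M.G x y) (M.Gf g ω x y - M.G x y)
    rw [add_sub_cancel] at h3
    refine le_trans (pow_le_pow_left₀ (norm_nonneg _) ?_ 2) h.hC2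
    change ‖M.Gf g ω x y‖ ≤ _
    linarith
  H3 := by
    intro x hx
    obtain ⟨Kk, ψ, hψ, ha0, h3, h1, h2, he⟩ := h.h3
    have hx' := mem_nr.1 hx
    have e1 := h3_frz h.admf M.A M.U h.good.AU (M.kf g ω) (a' Kk) (z' Kk) (fun y => (M.G y y).im)
      ψ ρ (e3 Kk) hψ ha0 (fun y hy => h.kf_off hy) h1 h2 h.ρ2 x (h3 x hx')
    refine e1.trans ?_
    have e2 := h.gf_diag hx'
    have e3' := h.io_ge hx'
    have e4 : (rsc (H0T d L) (M.bf g ω) x x).im = (M.Gf g ω x x).im := rfl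
    rw [e4]
    have e5 := h.ρ0
    have e6 := h.ρ2
    have e7 : (1 - ρ / 2) * (M.Gf g ω x x).im ≤ (1 - ρ / 2) * ((M.G x x).im + al) :=
      mul_le_mul_of_nonneg_left e2 (by linarith)
    have e8 : ρ / 4 * f.c1 ≤ ρ / 4 * (M.G x x).im := mul_le_mul_of_nonneg_left e3' (by linarith)
    have e9 : 0 ≤ ρ / 2 * al := mul_nonneg (by linarith) h.al0
    show (1 - ρ / 2) * (M.Gf g ω x x).im + ψ * e3 Kk / 2 ≤ (1 - ρ / 4) * (M.G x x).im
    nlinarith
  wf := h.wf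
  al0 := div_nonneg h.al0 h.num.c1.le
  al1 := by
    have h1 := h.al1
    have hc := h.num.c1
    rw [mul_div_assoc', div_le_one hc]
    exact h1
  al2 := by
    have h1 := h.al2
    have hc := h.num.c1
    rw [mul_div_assoc', div_le_iff₀ hc]
    exact h1
  num := h.sbn

/-- all hypotheses of the re-freezing lemma -/
theorem rt : RT (H0T d L) M.nr (M.kf g ω) (M.cf g ω) (fun x => M.G x x) φ t.eta al (al / f.c1)
    (ρ / 4) f.c1 C1 C2 K Mv cc d l where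
  tb := by
    rw [bv_cf]
    exact h.tb
  e0 := h.num.eta
  cim := by
    intro x hx
    have h1 := h.eta_f (mem_nr.1 hx)
    unfold Med.cf
    simp only [Complex.add_im, Complex.im_ofReal_mul]
    linarith
  kX := fun x hx => h.kf_off fun hA => hx (h.good.A_sub_nr hA)
  a0 := h.al0
  ga := by
    intro x hx
    rw [bv_cf]
    exact h.ent x x (mem_nr.1 hx) (mem_nr.1 hx)
  sm := h.sm

/-- THE NEXT MEDIUM -/
theorem nxt : Nxt M (M.next g ω) g ω (2 * (4 * l * C1 / f.c1) * al) where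
  A := rfl
  U := rfl
  I := rfl
  k := fun _ => rfl
  bU := by
    intro x hx
    have hx' : x ∉ M.nr := fun h' => mem_nr.1 h' hx
    show rfb (H0T d L) M.nr (M.kf g ω) (M.cf g ω) (fun x => M.G x x) x = M.b x
    rw [RT.rfb_off hx', bv_cf]
    exact h.eq_off hx'
  b := by
    intro x _
    have h1 := h.rt.eqn x
    show rfb (H0T d L) M.nr (M.kf g ω) (M.cf g ω) (fun x => M.G x x) x = _
    rw [h1]
    unfold Med.cf
    have h2 : (M.next g ω).G x x =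
        rsc (H0T d L) (rfb (H0T d L) M.nr (M.kf g ω) (M.cf g ω) (fun x => M.G x x)) x x := rfl
    rw [h2]
    unfold Med.cf
    ring
  unit := h.rt.two.adm'.unit
  pos := fun x hx => h.rt.pos (mem_nr.2 hx)
  dia := fun x hx => h.rt.clo (mem_nr.2 hx)

/-- comparison of the frozen and the self-consistent medium -/
theorem two : Two (H0T d L) (M.bf g ω) (M.next g ω).b M.nr (8 * l * C1 * al / f.c1 ^ 2) := by
  have h1 := h.rt.two
  rw [bv_cf] at h1
  exact h1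

end StepRf

end Pool.Agent.AND
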