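import Pool.Agent.ANS.TopForm
import Pool.Agent.ANS.TopRf
import Pool.Agent.AND.RfFar

/-! # ANS TopRfQ: the form factor of the re-freezing after one step, in the shape `hlo`, `hup` of `nxt_low`, `nxt_up`,
and the decay structure. -/

open Matrix Finset

noncomputable section

namespace Pool.Agent.AND

open Pool.Agent.Kin Pool.Agent.APS Pool.Agent.ANL Pool.Agent.ANM Pool.Agent.GSC

variable {d L : ℕ} [NeZero L] {D : Type} [Fintype D]

namespace StepRf

variable {f : Fix} {t : Tol d L} {M : Med (Tor d L)} {u : UTol} {g : ANS.Dig (Tor d L) D}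
  {ω : Tor d L → D} {a' z' : ℕ → Tor d L → ℝ} {e3 : ℕ → ℝ} {al : ℝ} {φ : Tor d L → Tor d L → ℝ}
  {ρ C1 C2 K Mv cc : ℝ} {l : ℕ}

/-- `hlo`, `hup` of `nxt_low`, `nxt_up` with the factor `10 r`, `r = 8 l C1 al / c1²` -/
theorem qf (h : StepRf f t M u g ω a' z' e3 al φ ρ C1 C2 K Mv cc l) :
    (∀ v, (1 - 10 * (8 * l * C1 * al / f.c1 ^ 2)) * QF (H0T d L) (M.fr g ω) v ≤
      QF (H0T d L) (M.next g ω) v) ∧
    (∀ v, QF (H0T d L) (M.next g ω) v ≤
      (1 + 10 * (8 * l * C1 * al / f.c1 ^ 2)) * QF (H0T d L) (M.fr g ω) v) := by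
  have h1 : Two (H0T d L) (M.fr g ω).b (M.next g ω).b (M.fr g ω).nr
      (8 * l * C1 * al / f.c1 ^ 2) := h.two
  refine ⟨fun v => ?_, fun v => (h1.qf rfl v).2⟩
  have h2 := (h1.qf rfl v).1
  have h3 : 0 ≤ QF (H0T d L) (M.fr g ω) v := by
    unfold QF
    refine mul_nonneg (by norm_num) (Finset.sum_nonneg fun x hx => Finset.sum_nonneg fun y hy => ?_)
    have e1 : 0 < (M.fr g ω).eta x := by
      have := h1.neg x hx
      unfold Med.eta
      linarith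
    have e2 : 0 < (M.fr g ω).eta y := by
      have := h1.neg y hy
      unfold Med.eta
      linarith
    positivity
  have h4 := h1.r0
  nlinarith [mul_nonneg h4 h3]

/-- decay of the effect of the re-freezing -/
theorem frefr (h : StepRf f t M u g ω a' z' e3 al φ ρ C1 C2 K Mv cc l) {w : Tor d L → ℝ}
    (hw : AdmW (H0T d L) (M.bf g ω) w) {A : Finset (Tor d L)} {Kb : ℝ}
    (hA : ∀ x ∈ A, x ∈ M.nr ∧ 1 / Kb ≤ M.kf g ω x) (hA' : ∀ x, x ∉ A → M.kf g ω x = 0)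
    (hK : 1 ≤ Kb) (hK1 : 4 ≤ Kb * (ρ / 4)) (hK2 : 2 ≤ Kb * f.c1) :
    FRefr (H0T d L) (M.bf g ω) (M.next g ω).b (fun x => M.G x x) w (M.kf g ω)
      (fun x => (M.G x x).im) A Kb C1 (f.c1 / 2) (ρ / 4 * f.c1 / (16 * C1)) (√(1 - ρ / 4))
      (ρ / 4 / 4) := by
  have h1 := h.rt.frefr (w := w) (by rw [bv_cf]; exact hw) hA hA' hK hK1 hK2
  rw [bv_cf] at h1
  exact h1

end StepRf

end Pool.Agent.AND
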