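import Pool.Agent.ANS.WtLaw
import Pool.Agent.ANS.H3Net

/-! # ANS / WtNet: the weights of (H3) of one step depend on the pair `K` only through `P(no weak cell of level ≤ K)` (helper52)

For two levels `K, k ≥ n + 1` with `|pT K - pT k| ≤ th`: `|wA K - wA k| + |wZ K - wZ k| ≤ (th / cmin) / 2 * η(s)` at every site and
in every reading state `s`; `cmin` = lower bound of the masses of the strong classes of level `≤ n + 1`. -/

set_option autoImplicit false
set_option linter.unusedSectionVars false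

open Matrix Finset Function

noncomputable section

namespace Pool.Agent.AND

open Pool.Agent.Kin Pool.Agent.APS Pool.Agent.ANB

variable {X : Type} [Fintype X] [DecidableEq X] {T : Type} [Fintype T] [DecidableEq T]

/-- linear dependence of the reading value on the site function -/
theorem rvL_lin {L : Law X} {n : ℕ} {N : Finset T} {lev : T → ℕ} {v : T → X}
    (ψ ψ' : ℕ → X → ℝ) (α β : ℝ) (s : T → Option X) (y : T) :
    α * rvL L ψ n N lev v s y - β * rvL L ψ' n N lev v s y =
      rvL L (fun m a => α * ψ m a - β * ψ' m a) n N lev v s y := by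
  unfold rvL rv1
  by_cases hN : y ∈ N
  · rw [if_pos hN, if_pos hN, if_pos hN]
    cases s y with
    | none => rfl
    | some a =>
      simp only
      split_ifs <;> rfl
  · rw [if_neg hN, if_neg hN, if_neg hN]

theorem rvL_smul {L : Law X} {n : ℕ} {N : Finset T} {lev : T → ℕ} {v : T → X}
    (ψ : ℕ → X → ℝ) (α : ℝ) (s : T → Option X) (y : T) :
    rvL L (fun m a => α * ψ m a) n N lev v s y = α * rvL L ψ n N lev v s y := by
  unfold rvL rv1
  by_cases hN : y ∈ N
  · rw [if_pos hN, if_pos hN]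
    cases s y with
    | none => rfl
    | some a =>
      simp only
      split_ifs <;> rfl
  · rw [if_neg hN, if_neg hN]

theorem rvL_abs_le {L : Law X} {ψ ψ' : ℕ → X → ℝ} {n : ℕ} {N : Finset T} {lev : T → ℕ}
    {v : T → X} (h : ∀ m, m ≤ n + 1 → ∀ a, |ψ m a| ≤ ψ' m a) (s : T → Option X) (y : T)
    (hy : y ∈ N ∨ lev y ≤ n + 1) :
    |rvL L ψ n N lev v s y| ≤ rvL L ψ' n N lev v s y := by
  unfold rvL rv1
  by_cases hN : y ∈ N
  · rw [if_pos hN, if_pos hN]
    cases s y with
    | none => exact h n (by omega) _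
    | some a =>
      simp only
      split_ifs
      · exact h (n + 1) le_rfl _
      · exact h n (by omega) _
  · rw [if_neg hN, if_neg hN]
    exact h _ (hy.resolve_left hN) _

section step

variable {L : Law X} {d Lt : ℕ} [NeZero Lt] {lam : ℝ} {nE n : ℕ}

theorem pS_net (K k m : ℕ) (a : X) :
    |L.pS K m a - L.pS k m a| ≤ |pT L.p L.wk K - pT L.p L.wk k| / cm L.p (L.q m) a := by
  have h := cE_net L.p0 (L.q m) L.wk (fun K k hKk a h => L.wk_mono hKk h) K k a
  unfold Law.pS
  exact h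

/-- the normalised weight of a class -/
theorem phi_div (hlam : 0 < lam) (K m : ℕ) (a : X) :
    (UK L lam n K)⁻¹ * (SfOf L lam nE).phi K m a =
      cL L * (cL L * kn L lam (n + 1)) * L.pS K m a := by
  have hU := UK_pos (L := L) (n := n) hlam K
  have h1 := UK_mul (L := L) (n := n) hlam K
  change (UK L lam n K)⁻¹ * (cL L * kn L lam K * L.pS K m a) = _
  rw [← h1]
  unfold cL
  field_simp

/-- THE NET, one class -/
theorem phi_net (hlam : 0 < lam) (hcL : cL L ≤ 1) {E eta th cmin : ℝ} (hth : 0 ≤ th)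
    (hc : 0 < cmin) {K k : ℕ} (hK : n + 1 ≤ K) (hk : n + 1 ≤ k)
    (hs : 8 * L.D * 2 ^ (n + 1) ≤ L.ep * 2 ^ L.nf)
    (hnet : |pT L.p L.wk K - pT L.p L.wk k| ≤ th) {m : ℕ} (hm : m ≤ n + 1)
    (hcm : ∀ a, ¬ L.wk m a → cmin ≤ cm L.p (L.q m) a) (a : X) :
    |(UK L lam n K)⁻¹ * (SfOf L lam nE).phi K m a -
      (UK L lam n k)⁻¹ * (SfOf L lam nE).phi k m a| ≤
      th / cmin * (sysOf L lam E eta).kk m a := by
  have hq : 0 ≤ th / cmin := div_nonneg hth hc.le
  by_cases ha : L.wk m a
  · rw [phi_zero (by omega) ha, phi_zero (by omega) ha, mul_zero, mul_zero, sub_zero, abs_zero]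
    exact mul_nonneg hq (kk_nonneg _ _)
  · rw [phi_div hlam, phi_div hlam, ← mul_sub, abs_mul]
    have h0 := cL_nonneg L
    have h1 := kn_nonneg L lam (n + 1)
    have h2 : 0 ≤ cL L * (cL L * kn L lam (n + 1)) := by positivity
    rw [abs_of_nonneg h2]
    have h3 : |L.pS K m a - L.pS k m a| ≤ th / cmin := by
      refine (pS_net K k m a).trans ?_
      calc _ ≤ th / cm L.p (L.q m) a :=
            div_le_div_of_nonneg_right hnet (cm_pos L.p0 _ _).le
        _ ≤ _ := div_le_div_of_nonneg_left hth hc (hcm a ha)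
    have h4 : cL L * kn L lam (n + 1) ≤ (sysOf L lam E eta).kk m a :=
      kn_le_kk hlam hm hs ha
    have h5 : 0 ≤ cL L * kn L lam (n + 1) := by positivity
    have h6 : cL L * (cL L * kn L lam (n + 1)) ≤ (sysOf L lam E eta).kk m a := by
      nlinarith
    calc _ ≤ (sysOf L lam E eta).kk m a * (th / cmin) :=
          mul_le_mul h6 h3 (abs_nonneg _) (kk_nonneg _ _)
      _ = _ := mul_comm _ _

variable {P : Par} {F : Fld (Tor d Lt)} {N : Finset (Tor d Lt)} {π : Prof (Tor d Lt)}
  {v : Tor d Lt → X} {M : Med (Tor d Lt)} {C1 cI : ℝ}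

/-- THE NET, the normalised weight in a reading state -/
theorem WtHyp.phi_net (h : WtHyp L lam P F n N π v M C1 cI) {th cmin : ℝ} (hth : 0 ≤ th)
    (hc : 0 < cmin) {K k : ℕ} (hK : n + 1 ≤ K) (hk : n + 1 ≤ k)
    (hnet : |pT L.p L.wk K - pT L.p L.wk k| ≤ th)
    (hcm : ∀ m, m ≤ n + 1 → ∀ a, ¬ L.wk m a → cmin ≤ cm L.p (L.q m) a)
    (s : Tor d Lt → Option X) {y : Tor d Lt} (hy : y ∉ M.U) :
    |(UK L lam n K)⁻¹ * rvL L ((SfOf L lam nE).phi K) n N π.lev v s y -
      (UK L lam n k)⁻¹ * rvL L ((SfOf L lam nE).phi k) n N π.lev v s y| ≤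
      th / cmin * rvL L (sysOf L lam 0 0).kk n N π.lev v s y := by
  rw [rvL_lin]
  have h1 := rvL_abs_le (L := L) (n := n) (N := N) (lev := π.lev) (v := v)
    (ψ := fun m a => (UK L lam n K)⁻¹ * (SfOf L lam nE).phi K m a -
      (UK L lam n k)⁻¹ * (SfOf L lam nE).phi k m a)
    (ψ' := fun m a => th / cmin * (sysOf L lam 0 0).kk m a)
    (fun m hm a => ?_) s y (Or.inr (h.lev y hy))
  · rw [rvL_smul] at h1
    exact h1
  · exact AND.phi_net h.lam0 h.ratio hth hc hK hk h.hs hnet hm (hcm m hm) a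

theorem kn_div_UK (hlam : 0 < lam) (K : ℕ) :
    AND.kn L lam K / (4 * UK L lam n K) = cL L * AND.kn L lam (n + 1) / 4 := by
  have hU := UK_pos (L := L) (n := n) hlam K
  have h1 := UK_mul (L := L) (n := n) hlam K
  rw [← h1]
  unfold cL
  field_simp

theorem wZ_eq (hlam : 0 < lam) (K : ℕ) (s : Tor d Lt → Option X) {y : Tor d Lt} (hy : y ∉ M.U) :
    wZ L lam nE P F n K N π v M s y =
      cL L * AND.kn L lam (n + 1) / 4 * (P.Cz * F.be y * io M y) *
        rvL L ((SfOf L lam nE).om) n N π.lev v s y +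
      ((UK L lam n K)⁻¹ / 4 *
          (if y ∈ M.A then 0 else (SfOf L lam nE).phi K (π.lev y) (v y) * io M y) +
        cL L * AND.kn L lam (n + 1) / 4 * (P.Cz *
          (F.err y * ((if y ∈ M.A then P.eta else M.eta y) / P.kap (n + 1))))) := by
  have hU := (UK_pos (L := L) (n := n) hlam K).ne'
  unfold wZ
  rw [if_neg hy, if_neg hy, ← kn_div_UK (n := n) hlam K]
  generalize (if y ∈ M.A then 0 else (SfOf L lam nE).phi K (π.lev y) (v y) * io M y) = r
  generalize (F.err y * ((if y ∈ M.A then P.eta else M.eta y) / P.kap (n + 1))) = t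
  generalize rvL L ((SfOf L lam nE).om) n N π.lev v s y = w
  field_simp

/-- **THE NET OF THE WEIGHTS.** -/
theorem WtHyp.net (h : WtHyp L lam P F n N π v M C1 cI) {th cmin : ℝ} (hth : 0 ≤ th)
    (hc : 0 < cmin) {K k : ℕ} (hK : n + 1 ≤ K) (hk : n + 1 ≤ k)
    (hnet : |pT L.p L.wk K - pT L.p L.wk k| ≤ th)
    (hcm : ∀ m, m ≤ n + 1 → ∀ a, ¬ L.wk m a → cmin ≤ cm L.p (L.q m) a)
    (s : Tor d Lt → Option X) (y : Tor d Lt) :
    |wA L lam nE n K N π v M s y - wA L lam nE n k N π v M s y| +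
      |wZ L lam nE P F n K N π v M s y - wZ L lam nE P F n k N π v M s y| ≤
      th / cmin / 2 * (M.stp (digOf L lam n N v)).eta s y := by
  have hq : 0 ≤ th / cmin := div_nonneg hth hc.le
  have hAU : ∀ y ∈ M.A, y ∉ M.U := fun y h1 h2 => Finset.disjoint_left.1 h.AU h1 h2
  have hUK := UK_pos (L := L) (n := n) h.lam0 K
  have hUk := UK_pos (L := L) (n := n) h.lam0 k
  by_cases hyU : y ∈ M.U
  · have hyA : y ∉ M.A := fun h1 => hAU y h1 hyU
    have e1 : (M.stp (digOf L lam n N v)).eta s y = 0 := by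
      rw [stp_eta_off s fun h1 => hyA (h.NA h1), h.etaU y hyU]
    rw [e1]
    unfold wA wZ
    simp [hyA, hyU]
  by_cases hyA : y ∈ M.A
  · -- active sites
    have e2 : wZ L lam nE P F n K N π v M s y - wZ L lam nE P F n k N π v M s y = 0 := by
      rw [wZ_eq h.lam0 K s hyU, wZ_eq h.lam0 k s hyU]
      simp only [if_pos hyA]
      ring
    rw [e2, abs_zero, add_zero, h.eta_A s hyA]
    have e3 : wA L lam nE n K N π v M s y - wA L lam nE n k N π v M s y =
        io M y / 4 * ((UK L lam n K)⁻¹ * rvL L ((SfOf L lam nE).phi K) n N π.lev v s y -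
          (UK L lam n k)⁻¹ * rvL L ((SfOf L lam nE).phi k) n N π.lev v s y) := by
      unfold wA
      rw [if_pos hyA, if_pos hyA]
      field_simp
      ring
    have hio := h.io0 y hyU
    have e4 := h.phi_net (nE := nE) hth hc hK hk hnet hcm s hyU
    rw [e3, abs_mul, abs_of_nonneg (by positivity : 0 ≤ io M y / 4)]
    have e5 := mul_le_mul_of_nonneg_left e4 (by positivity : 0 ≤ io M y / 4)
    refine e5.trans ?_
    have e6 : 0 ≤ rvL L (sysOf L lam 0 0).kk n N π.lev v s y := WtHyp.kk_nn s y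
    have e7 : 0 ≤ th / cmin * (rvL L (sysOf L lam 0 0).kk n N π.lev v s y * io M y) :=
      mul_nonneg hq (mul_nonneg e6 hio)
    have e8 : 0 ≤ th / cmin * P.eta := mul_nonneg hq h.eta
    nlinarith
  · -- sites which are not active
    have hyN : y ∉ N := fun h1 => hyA (h.NA h1)
    have e1 : wA L lam nE n K N π v M s y - wA L lam nE n k N π v M s y = 0 := by
      unfold wA
      rw [if_neg hyA, if_neg hyA]
      ring
    rw [e1, abs_zero, zero_add, stp_eta_off s hyN]
    have hrv : ∀ ψ : ℕ → X → ℝ, rvL L ψ n N π.lev v s y = ψ (π.lev y) (v y) := fun ψ => by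
      unfold rvL
      rw [if_neg hyN]
    have hio := h.io0 y hyU
    have e2 : wZ L lam nE P F n K N π v M s y - wZ L lam nE P F n k N π v M s y =
        io M y / 4 * ((UK L lam n K)⁻¹ * (SfOf L lam nE).phi K (π.lev y) (v y) -
          (UK L lam n k)⁻¹ * (SfOf L lam nE).phi k (π.lev y) (v y)) := by
      rw [wZ_eq h.lam0 K s hyU, wZ_eq h.lam0 k s hyU]
      simp only [if_neg hyA]
      ring
    have hl := h.lev y hyU
    rw [e2, abs_mul, abs_of_nonneg (by positivity : 0 ≤ io M y / 4)]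
    by_cases hyI : y ∈ M.I
    · have hw := h.ine y hyI
      rw [phi_zero (by omega) hw, phi_zero (by omega) hw, mul_zero, mul_zero, sub_zero, abs_zero,
        mul_zero, h.etaI y hyI]
      have := h.eta
      positivity
    · obtain ⟨hη1, hη2⟩ := h.etaS y hyA hyU hyI
      have e4 := AND.phi_net (nE := nE) (E := 0) (eta := 0) h.lam0 h.ratio hth hc hK hk h.hs hnet
        hl (hcm _ hl) (v y)
      have e5 := mul_le_mul_of_nonneg_left e4 (by positivity : 0 ≤ io M y / 4)
      refine e5.trans ?_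
      have e6 : (sysOf L lam 0 0).kk (π.lev y) (v y) = lam ^ 2 * L.kp (π.lev y) (v y) := rfl
      rw [e6]
      have e7 : 0 ≤ lam ^ 2 * L.kp (π.lev y) (v y) :=
        mul_nonneg (sq_nonneg _) (L.kp_nonneg _ _)
      have e8 : io M y ≤ 3 / 2 * cI := (h.io1 y hyU).trans h.C1cI
      have e9 : io M y * (lam ^ 2 * L.kp (π.lev y) (v y)) ≤ 3 / 2 * M.eta y := by
        calc _ ≤ 3 / 2 * cI * (lam ^ 2 * L.kp (π.lev y) (v y)) :=
              mul_le_mul_of_nonneg_right e8 e7
          _ = 3 / 2 * (cI * (lam ^ 2 * L.kp (π.lev y) (v y))) := by ring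
          _ ≤ _ := by linarith
      have e10 : 0 ≤ M.eta y := (mul_nonneg h.cs h.kap.le).trans hη1
      calc io M y / 4 * (th / cmin * (lam ^ 2 * L.kp (π.lev y) (v y)))
          = th / cmin / 4 * (io M y * (lam ^ 2 * L.kp (π.lev y) (v y))) := by ring
        _ ≤ th / cmin / 4 * (3 / 2 * M.eta y) := mul_le_mul_of_nonneg_left e9 (by positivity)
        _ ≤ th / cmin / 2 * M.eta y := by
            have : 0 ≤ th / cmin * M.eta y := mul_nonneg hq e10
            linarith

end step

end Pool.Agent.AND
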